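import Pool.Agent.P.MP_bf0464_al.H.Mod1A
import Pool.Agent.P.MP_bf0464_al.Trans

/-! From linkage classes to blocks. -/

namespace Pool.Agent.P.Bf04

open Matrix Module

attribute [local instance 100] LieRing.ofAssociativeRing

universe u v w

namespace CD

theorem finA_fd {D : CD} {k : Type u} [Field k] {p : ℕ} [Fact p.Prime] {χ : D.B → k} {A : Type u}
    [Ring A] [Algebra k A] (γ : D.g k →ₗ⁅k⁆ A)
    (gen : ∀ P : Subalgebra k A, (∀ x, γ x ∈ P) → ∀ a, a ∈ P)
    (rel : ∀ b, γ (D.bv k b) ^ p = γ (D.pmb k b) + algebraMap k A (χ b ^ p)) :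
    FiniteDimensional k A := by
  have h1 : ∀ y, γ y ∈ Submodule.span k (Set.range fun i => γ (D.bv k i)) := fun y =>
    D.span_bv ((Submodule.span k (Set.range fun i => γ (D.bv k i))).comap γ.toLinearMap)
      (fun b => Submodule.subset_span ⟨b, rfl⟩) y
  have h2 := fun y => Submodule.span_mono (Set.subset_insert 1 _) (h1 y)
  have h3 := fd_words (k := k) (fun i => γ (D.bv k i)) (Fact.out : p.Prime).two_le
    (fun i j => by have := h2 ⁅D.bv k i, D.bv k j⁆; rwa [LieHom.map_lie] at this) fun i => by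
      rw [rel, Algebra.algebraMap_eq_smul_one]
      exact add_mem (h2 _) (Submodule.smul_mem _ _ (Submodule.subset_span (Set.mem_insert _ _)))
  set T := Submodule.span k (Set.range fun w : List D.B => (w.map fun i => γ (D.bv k i)).prod)
  have h4 : T = ⊤ := eq_top_iff.2 fun a _ => gen (T.toSubalgebra
    (Submodule.subset_span ⟨[], rfl⟩) fun x y hx hy => by
      refine (Submodule.span_le (p := T.comap (LinearMap.mulRight k y))).2 ?_ hx
      rintro _ ⟨w, rfl⟩
      refine (Submodule.span_le (p := T.comap (LinearMap.mulLeft k _))).2 ?_ hy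
      rintro _ ⟨w', rfl⟩
      exact Submodule.subset_span ⟨w ++ w', by simp⟩)
    (fun x => Submodule.span_mono (by rintro _ ⟨i, rfl⟩; exact ⟨[i], by simp⟩) (h1 x)) a
  rw [h4] at h3
  exact Module.finite_def.2 (Module.Finite.iff_fg.1 h3)

theorem finA_ev {D : CD} {k : Type u} [Field k] {A : Type u} [Ring A] [Algebra k A]
    (γ : D.g k →ₗ⁅k⁆ A) {M : Type u} [AddCommGroup M] [Module k M] (φ : A →ₐ[k] End k M)
    (z : FreeAlgebra ℤ D.B) : D.ev ⟨M, φ.toLieHom.comp γ⟩ z =
      φ (FreeAlgebra.lift ℤ (fun b => γ (D.bv k b)) z) := by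
  have : D.ev ⟨M, φ.toLieHom.comp γ⟩ =
      φ.toRingHom.toIntAlgHom.comp (FreeAlgebra.lift ℤ fun b => γ (D.bv k b)) := by
    refine FreeAlgebra.hom_ext (funext fun b => ?_)
    simp only [Function.comp, ev, AlgHom.comp_apply, FreeAlgebra.lift_ι_apply]
    rfl
  rw [this]
  rfl

theorem count_block {D : CD} {k : Type u} [Field k] [IsAlgClosed k] {p : ℕ} [Fact p.Prime]
    [CharP k p] {χ : D.B → k} (hχ : D.Std χ) {n : ℕ} (h : ∀ μ, D.BndAt p χ μ n) {A : Type u}
    [Ring A] [Algebra k A] (γ : D.g k →ₗ⁅k⁆ A)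
    (gen : ∀ P : Subalgebra k A, (∀ x, γ x ∈ P) → ∀ a, a ∈ P)
    (rel : ∀ b, γ (D.bv k b) ^ p = γ (D.pmb k b) + algebraMap k A (χ b ^ p))
    (B : TwoSidedIdeal A) (hB : ∀ I J : TwoSidedIdeal A, Disjoint I J → I ⊔ J = B → I = ⊥ ∨ J = ⊥)
    {N : ℕ} (S : Fin N → Type u) [∀ i, AddCommGroup (S i)] [∀ i, Module A (S i)]
    [∀ i, IsSimpleModule A (S i)] (hS : ∀ i, ∃ b ∈ B, ∃ m : S i, b • m ≠ 0)
    (hiso : ∀ i j, Nonempty (S i ≃ₗ[A] S j) → i = j) : N ≤ n := by
  rcases Nat.eq_zero_or_pos N with rfl | hN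
  · exact Nat.zero_le _
  have : FiniteDimensional k A := finA_fd γ gen rel
  letI : ∀ i, Module k (S i) := fun i => Module.compHom _ (algebraMap k A)
  have : ∀ i, IsScalarTower k A (S i) := fun i => IsScalarTower.of_compHom k A (S i)
  let R : Fin N → LRep k (D.g k) := fun i =>
    ⟨S i, (Algebra.lsmul k k (S i) : A →ₐ[k] End k (S i)).toLieHom.comp γ⟩
  have hsim : ∀ i, (R i).Simple := fun i => ⟨IsSimpleModule.nontrivial A (S i), fun U hU => by
    have h1 : ∀ a : A, ∀ m ∈ U, a • (show S i from m) ∈ U := gen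
      { carrier := {a | ∀ m ∈ U, a • (show S i from m) ∈ U}
        mul_mem' := fun ha hb m hm => by rw [mul_smul]; exact ha _ (hb m hm)
        add_mem' := fun ha hb m hm => by rw [add_smul]; exact add_mem (ha m hm) (hb m hm)
        algebraMap_mem' := fun c m hm => U.smul_mem c hm } hU
    let U' : Submodule A (S i) := ⟨U.toAddSubmonoid, fun a m hm => h1 a m hm⟩
    rcases eq_bot_or_eq_top U' with h | h
    · exact Or.inl (eq_bot_iff.2 fun m hm => (h.le (show m ∈ U' from hm) :))
    · exact Or.inr (eq_top_iff.2 fun m _ => (h.ge trivial : m ∈ U'))⟩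
  have hfd : ∀ i, FiniteDimensional k (S i) := fun i => Module.Finite.trans A (S i)
  have hpc : ∀ i, D.PC p χ (R i) := fun i b => LinearMap.ext fun m => by
    change ((Algebra.lsmul k k (S i) : A →ₐ[k] End k (S i)) (γ (D.bv k b)) ^ p) m = _
    rw [← map_pow, rel]
    exact add_smul _ _ _
  choose μ hμ using fun i =>
    (haveI : FiniteDimensional k (R i).M := hfd i; haveI := (hsim i).1; exists_hw hχ (hpc i))
  have hl : ∀ i, D.Link p (μ ⟨0, hN⟩) (μ i) := fun i => link_of_cen (K := k) fun z f hz => by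
    have hC : ∀ i (m : S i), FreeAlgebra.lift ℤ (fun b => γ (D.bv k b)) z • m
        = algebraMap k A (MvPolynomial.eval (μ i) f : ℤ) • m := fun i m =>
      LinearMap.congr_fun ((finA_ev γ _ z).symm.trans (hz.scalar (hsim i) (hμ i))) m
    refine block_scalar B hB (fun a => gen (Subalgebra.centralizer k
      {FreeAlgebra.lift ℤ (fun b => γ (D.bv k b)) z}) (fun x y hy => ?_) a _ rfl)
      (hS _) (hS i) (hC _) (hC i)
    have h1 := (hz.comm k ⟨A, (Algebra.lmul k A).toLieHom.comp γ⟩ x).eq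
    rw [finA_ev] at h1
    rw [show y = _ from hy]
    exact Algebra.lmul_injective (R := k) (by rw [map_mul, map_mul]; exact h1)
  have := h (μ ⟨0, hN⟩) (ULift (Fin N)) (fun i => R i.down)
    (fun i => ⟨hfd _, hsim _, hpc _, _, hl _, hμ _⟩) fun i j ⟨f, hf⟩ =>
      ULift.ext _ _ (hiso _ _ ⟨{ f with map_smul' := fun a m => ?_ }⟩)
  · simpa using this
  · exact gen
      { carrier := {a | ∀ m : S i.down, f (a • m) = a • (show S j.down from f m)}
        mul_mem' := fun ha hb m => by rw [mul_smul, ha, hb, mul_smul]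
        add_mem' := fun ha hb m => by rw [add_smul, add_smul, ← ha, ← hb]; exact f.map_add _ _
        algebraMap_mem' := fun c m => f.map_smul c m } hf a m

end CD

end Pool.Agent.P.Bf04
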