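import Pool.Agent.P.MP_bf0464_al.H.Root

/-! Basic facts on the Lie algebra. -/

namespace Pool.Agent.P.Bf04

open Matrix Module

attribute [local instance 100] LieRing.ofAssociativeRing

universe u v w

theorem RD.jac_of (D : RD) (N : D.ι → D.ι → ℤ) {L : Type*} [LieRing L] (f : D.B → L)
    (hli : LinearIndependent ℤ f) (hf : ∀ i j, ⁅f i, f j⁆ = ∑ k, D.c N i j k • f k)
    (i j l m : D.B) : ∑ k, D.c N j l k * D.c N i k m
      = ∑ k, D.c N i j k * D.c N k l m + ∑ k, D.c N i l k * D.c N j k m := by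
  have h := leibniz_lie (f i) (f j) (f l)
  rw [hf j l, hf i j, hf i l, lie_sum, sum_lie, lie_sum] at h
  simp only [lie_zsmul, zsmul_lie, hf, Finset.smul_sum, smul_smul] at h
  rw [Finset.sum_comm, Finset.sum_comm (γ := D.B) (f := fun x y => (D.c N i j x * D.c N x l y) • f y),
    Finset.sum_comm (γ := D.B) (f := fun x y => (D.c N i l x * D.c N j x y) • f y),
    ← Finset.sum_add_distrib] at h
  simp only [← Finset.sum_smul, ← add_smul] at h
  exact Fintype.linearIndependent_iffₛ.1 hli _ _ h m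

namespace CD

variable (D : CD) {R : Type v} [CommRing R] {R' : Type w} [CommRing R']

theorem cc_wt {i j k : D.B} (h : D.cc i j k ≠ 0) : D.wt k = D.wt i + D.wt j := by
  rcases i with a | α <;> rcases j with b | β
  · exact absurd rfl h
  · simp only [RD.c, ne_eq, ite_eq_right_iff, Classical.not_imp] at h
    rw [h.1]; simp [RD.wt, Pi.zero_def]
  · simp only [RD.c, ne_eq, ite_eq_right_iff, Classical.not_imp] at h
    rw [h.1]; simp [RD.wt, Pi.zero_def]
  · rcases k with a | γ <;> simp only [RD.c, ne_eq, ite_eq_right_iff, Classical.not_imp] at h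
    · exact ((D.eq_neg_iff α β).1 h.1).symm
    · exact h.1.symm

theorem eq_sum (x : D.g R) : x = ∑ b, x b • D.bv R b := by
  funext k
  simp [bv, Finset.sum_apply, Pi.single_apply]

theorem span_bv (U : Submodule R (D.g R)) (h : ∀ b, D.bv R b ∈ U) (x : D.g R) : x ∈ U := by
  rw [D.eq_sum x]
  exact U.sum_mem fun b _ => U.smul_mem _ (h b)

theorem hom_ext {M : Type*} [AddCommGroup M] [Module R M] {f f' : D.g R →ₗ[R] M}
    (h : ∀ b, f (D.bv R b) = f' (D.bv R b)) : f = f' := by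
  refine LinearMap.ext fun x => ?_
  rw [D.eq_sum x, map_sum, map_sum]
  exact Finset.sum_congr rfl fun b _ => by rw [map_smul, map_smul, h b]

theorem lie_bv_apply (i j k : D.B) : ⁅D.bv R i, D.bv R j⁆ k = (D.cc i j k : R) := by
  simp [lie_apply, bv, Pi.single_apply]

theorem lie_bv (i j : D.B) : ⁅D.bv R i, D.bv R j⁆ = ∑ k, D.cc i j k • D.bv R k := by
  conv_lhs => rw [D.eq_sum ⁅D.bv R i, D.bv R j⁆]
  exact Finset.sum_congr rfl fun k _ => by rw [lie_bv_apply, Int.cast_smul_eq_zsmul]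

theorem lie_adM (i : D.B) (x : D.g R) :
    ⁅D.bv R i, x⁆ = (D.adM i).map (Int.cast : ℤ → R) *ᵥ x := by
  funext k
  simp [lie_apply, bv, Pi.single_apply, adM, Matrix.mulVec, dotProduct]

theorem hv_eq_sum (y : D.σ → R) : D.hv y = ∑ a, y a • D.h R a := by
  funext k
  rcases k with a | β <;> simp [hv, bv, Finset.sum_apply, Pi.single_apply]

theorem hv_single (a : D.σ) : D.hv (Pi.single a (1 : R)) = D.h R a := by
  funext k
  rcases k with a | β <;> simp [hv, bv, Pi.single_apply]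

theorem lie_h_h (a b : D.σ) : ⁅D.h R a, D.h R b⁆ = 0 := by
  funext k
  simp [lie_bv_apply, RD.c]

theorem lie_hv_hv (y y' : D.σ → R) : ⁅D.hv y, D.hv y'⁆ = 0 := by
  simp only [hv_eq_sum, sum_lie, lie_sum, smul_lie, lie_smul, lie_h_h, smul_zero,
    Finset.sum_const_zero]

theorem lie_h_e (a : D.σ) (β : D.ι) : ⁅D.h R a, D.e R β⁆ = (D.rt β a : R) • D.e R β := by
  funext k
  rw [lie_bv_apply]
  simp [RD.c, bv, Pi.single_apply]

theorem lie_hv_e (y : D.σ → R) (β : D.ι) :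
    ⁅D.hv y, D.e R β⁆ = (∑ a, (D.rt β a : R) * y a) • D.e R β := by
  simp only [hv_eq_sum, sum_lie, smul_lie, lie_h_e, smul_smul, Finset.sum_smul, mul_comm]

theorem lie_e_neg (α : D.ι) : ⁅D.e R α, D.e R (D.neg α)⁆ = D.hv fun a => (D.cr α a : R) := by
  funext k
  rw [lie_bv_apply]
  rcases k with a | γ
  · simp [RD.c, hv]
  · have h : D.co α + D.co (D.neg α) ≠ D.co γ := by
      rw [D.co_neg, add_neg_cancel]; exact (D.co_ne_zero γ).symm
    simp [RD.c, hv, h]

theorem lie_e_e {α β γ : D.ι} (h : D.co α + D.co β = D.co γ) :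
    ⁅D.e R α, D.e R β⁆ = (D.N α β : R) • D.e R γ := by
  funext k
  rw [lie_bv_apply]
  rcases k with a | δ
  · have h1 : β ≠ D.neg α := fun h1 => D.co_ne_zero γ (h ▸ (D.eq_neg_iff α β).1 h1)
    simp [RD.c, bv, h1]
  · simp [RD.c, bv, h, Pi.single_apply, D.co_inj.eq_iff, eq_comm]

theorem lie_e_e_zero {α β : D.ι} (h : ∀ γ, D.co α + D.co β ≠ D.co γ) (h' : β ≠ D.neg α) :
    ⁅D.e R α, D.e R β⁆ = 0 := by
  funext k
  rw [lie_bv_apply]
  rcases k with a | δ
  · simp [RD.c, h']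
  · simp [RD.c, h δ]

theorem lie_cr_e (α β : D.ι) :
    ⁅D.hv fun a => (D.cr α a : R), D.e R β⁆ = (D.pr β α : R) • D.e R β := by
  rw [lie_hv_e]
  simp [RD.pr, dotProduct]

theorem map_lie (φ : R →+* R') (x y : D.g R) :
    (φ ∘ ⁅x, y⁆ : D.g R') = ⁅(φ ∘ x : D.g R'), (φ ∘ y : D.g R')⁆ := by
  funext k
  simp [lie_apply]

theorem map_bv (φ : R →+* R') (b : D.B) : (φ ∘ D.bv R b : D.g R') = D.bv R' b := by
  funext k
  simp only [bv, Function.comp_apply, Pi.single_apply]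
  split_ifs <;> simp

/-- a homomorphism from its values on the basis -/
def homOf {L : Type*} [LieRing L] [LieAlgebra R L] (f : D.B → L)
    (hf : ∀ i j, ⁅f i, f j⁆ = ∑ k, D.cc i j k • f k) : D.g R →ₗ⁅R⁆ L where
  toFun x := ∑ b, x b • f b
  map_add' x y := by simp only [Pi.add_apply, add_smul, Finset.sum_add_distrib]
  map_smul' t x := by
    simp only [Pi.smul_apply, smul_eq_mul, mul_smul, RingHom.id_apply, Finset.smul_sum]
  map_lie' := fun {x y} => by
    simp only [sum_lie, lie_sum, smul_lie, lie_smul, hf, lie_apply, Finset.sum_smul,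
      Finset.smul_sum]
    rw [Finset.sum_comm, Finset.sum_congr rfl fun _ _ => Finset.sum_comm, Finset.sum_comm]
    refine Finset.sum_congr rfl fun j _ => Finset.sum_congr rfl fun i _ =>
      Finset.sum_congr rfl fun k _ => ?_
    rw [← Int.cast_smul_eq_zsmul R, smul_smul, smul_smul]
    congr 1
    ring

theorem homOf_apply {L : Type*} [LieRing L] [LieAlgebra R L] (f : D.B → L)
    (hf : ∀ i j, ⁅f i, f j⁆ = ∑ k, D.cc i j k • f k) (x : D.g R) :
    D.homOf f hf x = ∑ b, x b • f b := rfl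

theorem homOf_bv {L : Type*} [LieRing L] [LieAlgebra R L] (f : D.B → L)
    (hf : ∀ i j, ⁅f i, f j⁆ = ∑ k, D.cc i j k • f k) (b : D.B) :
    D.homOf f hf (D.bv R b) = f b := by
  simp [homOf_apply, bv, Pi.single_apply]

theorem isAut_of_bv {A : Matrix D.B D.B R}
    (h : ∀ i j, A *ᵥ ⁅D.bv R i, D.bv R j⁆ = ⁅A *ᵥ D.bv R i, A *ᵥ D.bv R j⁆) : D.IsAut A := by
  intro x y
  rw [D.eq_sum x, D.eq_sum y]
  simp only [sum_lie, lie_sum, smul_lie, lie_smul, Matrix.mulVec_sum, Matrix.mulVec_smul, h]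

theorem IsAut.mul {D : CD} {A A' : Matrix D.B D.B R} (h : D.IsAut A) (h' : D.IsAut A') :
    D.IsAut (A * A') := fun x y => by
  rw [← Matrix.mulVec_mulVec, h' x y, h, Matrix.mulVec_mulVec, Matrix.mulVec_mulVec]

theorem isAut_one : D.IsAut (1 : Matrix D.B D.B R) := fun x y => by
  simp only [Matrix.one_mulVec]

theorem IsAut.map {D : CD} {A : Matrix D.B D.B R} (h : D.IsAut A) (φ : R →+* R') :
    D.IsAut (A.map φ) := by
  have key : ∀ x : D.g R, A.map φ *ᵥ (φ ∘ x) = φ ∘ (A *ᵥ x) := fun x => by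
    funext k
    exact (RingHom.map_mulVec φ A x k).symm
  refine D.isAut_of_bv fun i j => ?_
  rw [← D.map_bv φ i, ← D.map_bv φ j, ← D.map_lie, key, key, key, h, D.map_lie]

theorem autHom_apply (A : Matrix D.B D.B R) (h : D.IsAut A) (x : D.g R) :
    D.autHom A h x = A *ᵥ x := rfl

/-- matrices that shift the weight by `γ` -/
def Hom (γ : D.Δ → ℤ) (A : Matrix D.B D.B R) : Prop := ∀ k j, A k j ≠ 0 → D.wt k = D.wt j + γ

theorem adM_hom (i : D.B) : D.Hom (D.wt i) (D.adM i) := fun k j h => by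
  rw [D.cc_wt (i := i) (j := j) (k := k) h, add_comm]

theorem Hom.mul {D : CD} {γ γ' : D.Δ → ℤ} {A A' : Matrix D.B D.B R} (h : D.Hom γ A)
    (h' : D.Hom γ' A') : D.Hom (γ + γ') (A * A') := fun k j hk => by
  rw [Matrix.mul_apply] at hk
  obtain ⟨l, -, hl⟩ := Finset.exists_ne_zero_of_sum_ne_zero hk
  rw [h k l (left_ne_zero_of_mul hl), h' l j (right_ne_zero_of_mul hl), add_assoc, add_comm γ']

theorem Hom.map {D : CD} {γ : D.Δ → ℤ} {A : Matrix D.B D.B R} (h : D.Hom γ A) (φ : R → R')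
    (h0 : φ 0 = 0) : D.Hom γ (A.map φ) := fun k j hk =>
  h k j fun h1 => hk (by rw [Matrix.map_apply, h1, h0])

theorem coad_dot (χ : D.B → R) (y x : D.g R) : D.coad χ y ⬝ᵥ x = χ ⬝ᵥ ⁅y, x⁆ := by
  conv_rhs => rw [D.eq_sum x]
  simp only [lie_sum, lie_smul, dotProduct_sum, dotProduct_smul, smul_eq_mul]
  exact Finset.sum_congr rfl fun b _ => mul_comm _ _

theorem coad_bv (χ : D.B → R) (i : D.B) :
    D.coad χ (D.bv R i) = χ ᵥ* (D.adM i).map (Int.cast : ℤ → R) := by
  funext b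
  simp [coad, lie_bv_apply, Matrix.vecMul, dotProduct, adM]

theorem coad_aut {A : Matrix D.B D.B R} (h : D.IsAut A) (χ : D.B → R) (y : D.g R) :
    D.coad (χ ᵥ* A) y = D.coad χ (A *ᵥ y) ᵥ* A := by
  funext b
  have h1 : (D.coad χ (A *ᵥ y) ᵥ* A) b = (D.coad χ (A *ᵥ y) ᵥ* A) ⬝ᵥ D.bv R b := by
    simp [bv]
  rw [h1, ← Matrix.dotProduct_mulVec, coad_dot, ← h, coad, Matrix.dotProduct_mulVec]

theorem coad_map (φ : R →+* R') (χ : D.B → R) (y : D.g R) :
    φ ∘ D.coad χ y = D.coad (φ ∘ χ) (φ ∘ y) := by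
  funext b
  rw [Function.comp_apply, coad, coad, ← D.map_bv φ b, ← D.map_lie, RingHom.map_dotProduct]

/-- the Lie algebra is generated by the torus and the simple root vectors -/
theorem gen {K : Type u} [Field K]
    (hN : ∀ α β γ, D.co α + D.co β = D.co γ → (D.N α β : K) ≠ 0) (U : LieSubalgebra K (D.g K))
    (h0 : ∀ a, D.h K a ∈ U) (h1 : ∀ i, D.e K (D.s i) ∈ U) (h2 : ∀ i, D.e K (D.neg (D.s i)) ∈ U)
    (x : D.g K) : x ∈ U := by
  have key : ∀ n : ℕ, ∀ β, D.Pos β → D.ht β ≤ n → D.e K β ∈ U ∧ D.e K (D.neg β) ∈ U := by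
    intro n
    induction n with
    | zero => exact fun β hβ hn => absurd ((D.pos_iff_ht β).1 hβ) (by simpa using hn)
    | succ n ih =>
      intro β hβ hn
      by_cases hs : ∀ i, β ≠ D.s i
      · obtain ⟨i, γ, hγ, hc⟩ := D.exists_sub_s hβ hs
        have hh : D.ht β = 1 + D.ht γ := by
          rw [← D.ht_s i]
          simp only [RD.ht, hc, Pi.add_apply, Finset.sum_add_distrib]
        obtain ⟨g1, g2⟩ := ih γ hγ (by push_cast at hn; omega)
        have hc' : D.co (D.neg (D.s i)) + D.co (D.neg γ) = D.co (D.neg β) := by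
          rw [D.co_neg, D.co_neg, D.co_neg, hc, neg_add]
        have k1 := U.lie_mem (h1 i) g1
        have k2 := U.lie_mem (h2 i) g2
        rw [D.lie_e_e hc.symm] at k1
        rw [D.lie_e_e hc'] at k2
        exact ⟨(U.toSubmodule.smul_mem_iff (hN _ _ _ hc.symm)).1 k1,
          (U.toSubmodule.smul_mem_iff (hN _ _ _ hc')).1 k2⟩
      · push Not at hs
        obtain ⟨i, rfl⟩ := hs
        exact ⟨h1 i, h2 i⟩
  refine D.span_bv U.toSubmodule (fun b => ?_) x
  rcases b with a | β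
  · exact h0 a
  · by_cases hβ : D.Pos β
    · exact (key _ β hβ (Int.self_le_toNat _)).1
    · have := (key _ _ ((D.pos_neg_iff β).2 hβ) (Int.self_le_toNat _)).2
      rwa [D.neg_neg] at this

end CD

end Pool.Agent.P.Bf04
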