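import Pool.Agent.P.MP_bf0464_al.H.FinB
import Pool.Agent.P.MP_bf0464_al.H.Lie

/-! Coordinates for a Chevalley basis. -/

namespace Pool.Agent.P.Bf04

open Matrix Module

attribute [local instance 100] LieRing.ofAssociativeRing

universe u v w

variable {ι : Type} {X : Type v} {Y : Type w} [Fintype ι] [DecidableEq ι] [AddCommGroup X]
  [AddCommGroup Y] [Module.Finite ℤ X] [Module.Finite ℤ Y] (P : RootDatum ι X Y) [P.IsReduced]
  (b : P.Base) {n : ℕ} (c : Basis (Fin n) ℤ Y)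
  (hsc : ∀ (m : ℤ) (y : Y), m ≠ 0 → m • y ∈ Submodule.span ℤ (Set.range P.coroot) →
    y ∈ Submodule.span ℤ (Set.range P.coroot))
  {L : Type*} [LieRing L] (h : Y →+ L) (e : ι → L)

/-- the relations of a Chevalley basis -/
structure Chev : Prop where
  basis : Function.Bijective fun x : Y × (ι → ℤ) => h x.1 + ∑ i, x.2 i • e i
  h_h : ∀ y y', ⁅h y, h y'⁆ = 0
  h_e : ∀ y i, ⁅h y, e i⁆ = P.toLinearMap (P.root i) y • e i
  e_neg : ∀ i j, P.root j = -P.root i → ⁅e i, e j⁆ = h (P.coroot i)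
  e_e : ∀ i j l, P.root i + P.root j = P.root l →
    ⁅e i, e j⁆ = (P.chainBotCoeff i j + 1) • e l ∨ ⁅e i, e j⁆ = -((P.chainBotCoeff i j + 1) • e l)
  e_zero : ∀ i j, P.root i + P.root j ≠ 0 → P.root i + P.root j ∉ Set.range P.root →
    ⁅e i, e j⁆ = 0

variable {P h e}

theorem Chev.exists_N (H : Chev P h e) : ∃ N : ι → ι → ℤ, ∀ i j l,
    P.root i + P.root j = P.root l → ⁅e i, e j⁆ = N i j • e l ∧ |N i j| = P.chainBotCoeff i j + 1 := by
  have key : ∀ i j, ∃ m : ℤ, ∀ l, P.root i + P.root j = P.root l →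
      ⁅e i, e j⁆ = m • e l ∧ |m| = P.chainBotCoeff i j + 1 := by
    intro i j
    by_cases hl : ∃ l, P.root i + P.root j = P.root l
    · obtain ⟨l, hl⟩ := hl
      have hu : ∀ l', P.root i + P.root j = P.root l' → l' = l := fun l' hl' =>
        P.root.injective (hl'.symm.trans hl)
      rcases H.e_e i j l hl with h1 | h1
      · refine ⟨((P.chainBotCoeff i j + 1 : ℕ) : ℤ), fun l' hl' => ⟨?_, ?_⟩⟩
        · rw [hu l' hl', h1, natCast_zsmul]
        · rw [Nat.abs_cast, Nat.cast_add, Nat.cast_one]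
      · refine ⟨-((P.chainBotCoeff i j + 1 : ℕ) : ℤ), fun l' hl' => ⟨?_, ?_⟩⟩
        · rw [hu l' hl', h1, neg_smul, natCast_zsmul]
        · rw [abs_neg, Nat.abs_cast, Nat.cast_add, Nat.cast_one]
    · exact ⟨0, fun l hl' => absurd ⟨l, hl'⟩ hl⟩
  choose N hN using key
  exact ⟨N, hN⟩

omit [DecidableEq ι] [Module.Finite ℤ X] [Module.Finite ℤ Y] in
theorem FinC_sum (g : Fin n ⊕ ι → ℤ) :
    ∑ k, g k • (Sum.elim (fun a => h (c a)) e : Fin n ⊕ ι → L) k =
      h (∑ a, g (.inl a) • c a) + ∑ i, g (.inr i) • e i := by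
  rw [Fintype.sum_sum_type, map_sum]
  simp only [Sum.elim_inl, Sum.elim_inr, map_zsmul]

theorem Chev.li (H : Chev P h e) :
    LinearIndependent ℤ (Sum.elim (fun a => h (c a)) e : Fin n ⊕ ι → L) := by
  rw [Fintype.linearIndependent_iff]
  intro g hg
  rw [FinC_sum] at hg
  have h1 : ((∑ a, g (.inl a) • c a, fun i => g (.inr i)) : Y × (ι → ℤ)) = 0 :=
    H.basis.1 (hg.trans (by simp))
  rintro (a | i)
  · exact Fintype.linearIndependent_iff.1 c.linearIndependent _ (congrArg Prod.fst h1) a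
  · exact congrFun (congrArg Prod.snd h1) i

theorem Chev.span (H : Chev P h e) :
    ⊤ ≤ Submodule.span ℤ (Set.range (Sum.elim (fun a => h (c a)) e : Fin n ⊕ ι → L)) := by
  intro x _
  obtain ⟨⟨y, m⟩, rfl⟩ := H.basis.2 x
  refine (Submodule.mem_span_range_iff_exists_fun ℤ).2 ⟨Sum.elim (c.repr y) m, ?_⟩
  rw [FinC_sum]
  simp only [Sum.elim_inl, Sum.elim_inr, c.sum_repr]

theorem FinC_add (α β γ : ι) :
    (toRD P b c hsc).co α + (toRD P b c hsc).co β = (toRD P b c hsc).co γ ↔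
      P.root α + P.root β = P.root γ := by
  have h1 := toRD_co_add P b c hsc α β γ 1
  rw [one_smul, one_smul, add_comm (P.root β), add_comm ((toRD P b c hsc).co β)] at h1
  rw [eq_comm, h1, eq_comm]

theorem FinC_sub (α β γ : ι) (r : ℕ) :
    (toRD P b c hsc).co γ = (toRD P b c hsc).co β - (r : ℤ) • (toRD P b c hsc).co α ↔
      P.root γ = P.root β - r • P.root α := by
  have h1 := toRD_co_add P b c hsc α β γ (-r)
  rwa [neg_smul, neg_smul, natCast_zsmul (P.root α), ← sub_eq_add_neg, ← sub_eq_add_neg] at h1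

theorem FinC_rel (D : RD) (N : D.ι → D.ι → ℤ) (f : D.B → L)
    (hh : ∀ a a', ⁅f (.inl a), f (.inl a')⁆ = 0)
    (he : ∀ a β, ⁅f (.inl a), f (.inr β)⁆ = D.rt β a • f (.inr β))
    (hn : ∀ α, ⁅f (.inr α), f (.inr (D.neg α))⁆ = ∑ a, D.cr α a • f (.inl a))
    (hee : ∀ α β γ, D.co α + D.co β = D.co γ → ⁅f (.inr α), f (.inr β)⁆ = N α β • f (.inr γ))
    (hz : ∀ α β, β ≠ D.neg α → (∀ γ, D.co α + D.co β ≠ D.co γ) → ⁅f (.inr α), f (.inr β)⁆ = 0)
    (i j : D.B) : ⁅f i, f j⁆ = ∑ k, D.c N i j k • f k := by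
  rcases i with a | α <;> rcases j with a' | β
  · simp [RD.c, hh]
  · simp [RD.c, he]
  · rw [← lie_skew, he]
    simp [RD.c]
  · rw [Fintype.sum_sum_type]
    by_cases hb : β = D.neg α
    · have h3 : ∀ γ, ¬ D.co α + D.co β = D.co γ := fun γ hγ => by
        rw [hb, D.co_neg, add_neg_cancel] at hγ
        exact D.co_ne_zero γ hγ.symm
      simp only [RD.c, h3, if_pos hb, if_false, zero_smul, Finset.sum_const_zero, add_zero]
      rw [hb, hn]
    · simp only [RD.c, if_neg hb, zero_smul, Finset.sum_const_zero, zero_add]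
      by_cases hγ : ∃ γ, D.co α + D.co β = D.co γ
      · obtain ⟨γ, hγ⟩ := hγ
        rw [Finset.sum_eq_single γ, if_pos hγ, hee α β γ hγ]
        · intro δ _ hδ
          rw [if_neg fun h4 => hδ (D.co_inj (h4.symm.trans hγ)), zero_smul]
        · simp
      · rw [hz α β hb fun γ h4 => hγ ⟨γ, h4⟩]
        exact (Finset.sum_eq_zero fun δ _ => by
          rw [if_neg fun h4 => hγ ⟨δ, h4⟩, zero_smul]).symm

theorem Chev.rel (H : Chev P h e) (i j : (toRD P b c hsc).B) :
    ⁅(Sum.elim (fun a => h (c a)) e : Fin n ⊕ ι → L) i,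
      (Sum.elim (fun a => h (c a)) e : Fin n ⊕ ι → L) j⁆
      = ∑ k, (toRD P b c hsc).c H.exists_N.choose i j k •
        (Sum.elim (fun a => h (c a)) e : Fin n ⊕ ι → L) k := by
  refine FinC_rel (toRD P b c hsc) _ _ (fun a a' => H.h_h _ _) (fun a β => H.h_e _ _)
    (fun α => ?_) (fun α β γ hγ => (H.exists_N.choose_spec α β γ
      ((FinC_add b c hsc α β γ).1 hγ)).1) (fun α β h1 h2 => H.e_zero α β (fun h4 => h1 ?_)
      fun ⟨γ, h4⟩ => h2 γ ((FinC_add b c hsc α β γ).2 h4.symm)) i j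
  · refine (H.e_neg α _ (toRD_neg P b c hsc α)).trans ?_
    refine (congrArg h (c.sum_repr _).symm).trans ((map_sum h _ _).trans ?_)
    exact Finset.sum_congr rfl fun a _ => map_zsmul h _ _
  · exact P.root.injective ((eq_neg_of_add_eq_zero_right h4).trans (toRD_neg P b c hsc α).symm)

theorem FinC_anti (H : Chev P h e) (α β γ : ι) (hγ : P.root α + P.root β = P.root γ) :
    H.exists_N.choose β α = -H.exists_N.choose α β := by
  have h1 := (H.exists_N.choose_spec α β γ hγ).1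
  have h2 := (H.exists_N.choose_spec β α γ ((add_comm _ _).trans hγ)).1
  generalize H.exists_N.choose = N at h1 h2 ⊢
  have h3 : (N β α + N α β) • e γ = 0 := by
    rw [add_smul, ← h1, ← h2, ← lie_skew, neg_add_cancel]
  have h4 : ((0, Pi.single γ (N β α + N α β)) : Y × (ι → ℤ)) = 0 :=
    H.basis.1 (by simpa [Pi.single_apply, ite_smul] using h3)
  have h5 := congrFun (congrArg Prod.snd h4) γ
  simp only [Pi.single_eq_same, Prod.snd_zero, Pi.zero_apply] at h5
  omega

omit [DecidableEq ι] [Module.Finite ℤ X] [Module.Finite ℤ Y] in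
theorem FinC_chain (α β γ : ι) (hγ : P.root α + P.root β = P.root γ) (r : ℕ)
    (h1 : ∃ δ, P.root δ = P.root β - r • P.root α)
    (h2 : ∀ δ, P.root δ ≠ P.root β - (r + 1) • P.root α) : P.chainBotCoeff α β = r := by
  have hl := P.linearIndependent_of_add_mem_range_root' ⟨γ, hγ.symm⟩
  have h3 := (P.root_sub_nsmul_mem_range_iff_le_chainBotCoeff hl).1 h1
  have h4 : ¬ r + 1 ≤ P.chainBotCoeff α β := fun h4 => by
    obtain ⟨δ, hδ⟩ := (P.root_sub_nsmul_mem_range_iff_le_chainBotCoeff hl).2 h4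
    exact h2 δ hδ
  omega

/-- the datum with structure constants -/
noncomputable def Chev.toCD (H : Chev P h e) : CD where
  toRD := toRD P b c hsc
  N := H.exists_N.choose
  N_anti := fun α β γ hγ => FinC_anti H α β γ ((FinC_add b c hsc α β γ).1 hγ)
  N_abs := fun α β γ hγ r h1 h2 => by
    have h3 := (FinC_add b c hsc α β γ).1 hγ
    refine (H.exists_N.choose_spec α β γ h3).2.trans (congrArg (fun m : ℕ => (m : ℤ) + 1)
      (FinC_chain (ι := ι) (P := P) α β γ h3 r
        (h1.imp fun δ => (FinC_sub b c hsc α β δ r).1) fun δ h4 => h2 δ ?_))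
    have h5 := (FinC_sub b c hsc α β δ (r + 1)).2 h4
    rwa [Nat.cast_add, Nat.cast_one] at h5
  jac := (toRD P b c hsc).jac_of _ _ (H.li c) (H.rel b c hsc)

theorem Chev.exists_equiv (H : Chev P h e) {k g : Type u} [Field k] [LieRing g] [LieAlgebra k g]
    (f : L →ₗ⁅ℤ⁆ g) (hf : IsBaseChange k (f : L →ₗ[ℤ] g)) :
    ∃ φ : (H.toCD b c hsc).g k ≃ₗ⁅k⁆ g, (∀ a, φ ((H.toCD b c hsc).h k a) = f (h (c a))) ∧
      ∀ β, φ ((H.toCD b c hsc).e k β) = f (e β) := by
  let v : Fin n ⊕ ι → L := Sum.elim (fun a => h (c a)) e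
  let B : Basis (Fin n ⊕ ι) k g := hf.basis (Basis.mk (H.li c) (H.span c))
  have hB : ∀ i, B i = f (v i) := fun i => by
    rw [IsBaseChange.basis_apply, Basis.mk_apply]
    rfl
  have hrel : ∀ i j : (H.toCD b c hsc).B, ⁅f (v i), f (v j)⁆ =
      ∑ l, (H.toCD b c hsc).cc i j l • f (v l) := fun i j => by
    rw [← LieHom.map_lie]
    refine (congrArg f (H.rel b c hsc i j)).trans ?_
    rw [map_sum]
    exact Finset.sum_congr rfl fun l _ => map_zsmul f _ _
  let φ := (H.toCD b c hsc).homOf (R := k) (fun i => f (v i)) hrel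
  have hφ : ∀ x : Fin n ⊕ ι → k, φ x = B.equivFun.symm x := fun x => by
    rw [Basis.equivFun_symm_apply]
    exact Finset.sum_congr rfl fun l _ => congrArg (x l • ·) (hB l).symm
  have hbij : Function.Bijective φ := by
    have : (φ : (Fin n ⊕ ι → k) → g) = B.equivFun.symm := funext hφ
    exact this ▸ B.equivFun.symm.bijective
  exact ⟨LieEquiv.ofBijective φ hbij, fun a => (H.toCD b c hsc).homOf_bv _ hrel (.inl a),
    fun β => (H.toCD b c hsc).homOf_bv _ hrel (.inr β)⟩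

end Pool.Agent.P.Bf04
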