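import Pool.Agent.P.MP_bf0464_al.H.Root

/-! The Weyl group, linkage, good primes. -/

namespace Pool.Agent.P.Bf04

open Matrix

namespace RD

variable (D : RD)

theorem dot_apply (i : D.Δ) (μ : D.σ → ℤ) : D.dot i μ = D.dotf i μ := rfl

theorem dot_mem (i : D.Δ) : D.dot i ∈ D.W := Subgroup.subset_closure ⟨i, rfl⟩

theorem mem_W {w : Equiv.Perm (D.σ → ℤ)} : w ∈ D.W ↔ ∃ l : List D.Δ, w = (l.map D.dot).prod :=
  by
  refine ⟨fun h => ?_, ?_⟩
  · induction h using Subgroup.closure_induction with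
    | mem x hx =>
      obtain ⟨i, rfl⟩ := hx
      exact ⟨[i], by simp⟩
    | one => exact ⟨[], by simp⟩
    | mul x y _ _ hx hy =>
      obtain ⟨l, rfl⟩ := hx
      obtain ⟨l', rfl⟩ := hy
      exact ⟨l ++ l', by simp⟩
    | inv x _ hx =>
      obtain ⟨l, rfl⟩ := hx
      refine ⟨l.reverse, ?_⟩
      rw [List.prod_inv_reverse, List.map_map, List.map_reverse]
      rfl
  · rintro ⟨l, rfl⟩
    refine Subgroup.list_prod_mem _ fun x hx => ?_
    obtain ⟨i, -, rfl⟩ := List.mem_map.1 hx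
    exact D.dot_mem i

/-- a weight that pairs to one with the simple coroots -/
def ρ : D.σ → ℤ := ∑ i, D.ω i

theorem dotf_eq (i : D.Δ) (μ : D.σ → ℤ) : D.dotf i μ = D.sr i (μ + D.ρ) - D.ρ := by
  have h : D.ρ ⬝ᵥ D.cr (D.s i) = 1 := by
    rw [ρ, sum_dotProduct]
    simp [D.ω_cr]
  rw [dotf, sr, add_dotProduct, h]
  abel

theorem sr_rt (i : D.Δ) (β : D.ι) : D.sr i (D.rt β) = D.rt (D.rf (D.s i) β) := (D.rt_rf _ _).symm

theorem sr_cr (i : D.Δ) (μ : D.σ → ℤ) (β : D.ι) :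
    D.sr i μ ⬝ᵥ D.cr (D.rf (D.s i) β) = μ ⬝ᵥ D.cr β := by
  simp only [sr, D.cr_rf, sub_dotProduct, dotProduct_sub, smul_dotProduct, dotProduct_smul, D.two,
    smul_eq_mul]
  ring

theorem weyl_cr (l : List D.Δ) (μ : D.σ → ℤ) (β : D.ι) :
    ((l.map D.dot).prod μ + D.ρ) ⬝ᵥ D.cr (D.rw l β) = (μ + D.ρ) ⬝ᵥ D.cr β := by
  induction l with
  | nil => rfl
  | cons i l ih =>
    rw [List.map_cons, List.prod_cons, Equiv.Perm.mul_apply, dot_apply, dotf_eq, sub_add_cancel,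
      ← ih]
    exact D.sr_cr _ _ _

theorem weyl_lat (l : List D.Δ) (μ : D.σ → ℤ) :
    ∃ x : D.Δ → ℤ, (l.map D.dot).prod μ = μ + ∑ i, x i • D.rt (D.s i) := by
  induction l with
  | nil => exact ⟨0, by simp⟩
  | cons i l ih =>
    obtain ⟨x, hx⟩ := ih
    refine ⟨x - Pi.single i ((l.map D.dot).prod μ ⬝ᵥ D.cr (D.s i) + 1), ?_⟩
    rw [List.map_cons, List.prod_cons, Equiv.Perm.mul_apply, dot_apply, dotf]
    generalize (l.map D.dot).prod μ ⬝ᵥ D.cr (D.s i) + 1 = c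
    rw [hx]
    simp only [Pi.sub_apply, sub_smul, Finset.sum_sub_distrib, Pi.single_apply, ite_smul,
      zero_smul, Finset.sum_ite_eq', Finset.mem_univ, if_true]
    abel

theorem weyl_ext {l l' : List D.Δ} (h : D.rw l = D.rw l') :
    (l.map D.dot).prod = (l'.map D.dot).prod := by
  refine Equiv.ext fun μ => ?_
  obtain ⟨x, hx⟩ := D.weyl_lat l μ
  obtain ⟨y, hy⟩ := D.weyl_lat l' μ
  have h1 : x - y = 0 := by
    refine D.nd _ fun j => ?_
    obtain ⟨β, hβ⟩ := (D.rw_bij l).2 (D.s j)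
    have h2 := D.weyl_cr l μ β
    have h3 := D.weyl_cr l' μ β
    rw [← h, hβ, hy] at h3
    rw [hβ, hx, ← h3] at h2
    simp only [add_dotProduct, sum_dotProduct, smul_dotProduct, smul_eq_mul] at h2
    simp only [Pi.sub_apply, sub_mul, Finset.sum_sub_distrib, A, Matrix.of_apply, pr]
    linarith
  rw [hx, hy, sub_eq_zero.1 h1]

instance W_finite : Finite D.W := by
  choose f hf using fun w : D.W => D.mem_W.1 w.2
  refine Finite.of_injective (fun w => D.rw (f w)) fun w w' h => Subtype.ext ?_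
  rw [hf w, hf w']
  exact D.weyl_ext h

theorem wn_pos : 0 < D.wn := Nat.card_pos

theorem two_le_wn [Nonempty D.Δ] : 2 ≤ D.wn := by
  obtain ⟨i⟩ := ‹Nonempty D.Δ›
  refine Finite.one_lt_card_iff_nontrivial.2 ⟨⟨D.dot i, D.dot_mem i⟩, 1, fun h => ?_⟩
  have h1 : D.dotf i 0 = 0 := DFunLike.congr_fun (congrArg Subtype.val h) 0
  have h2 := congrArg (· ⬝ᵥ D.cr (D.s i)) h1
  simp [dotf, D.two] at h2

theorem card_le_wn (μ : D.σ → ℤ) (T : Finset (D.σ → ℤ)) (h : ∀ ν ∈ T, ∃ w ∈ D.W, w μ = ν) :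
    T.card ≤ D.wn := by
  classical
  have := Fintype.ofFinite D.W
  rw [wn, Nat.card_eq_fintype_card]
  refine le_trans (Finset.card_le_card (t := Finset.univ.image fun w : D.W => w.1 μ) fun ν hν => ?_)
    Finset.card_image_le
  obtain ⟨w, hw, e⟩ := h ν hν
  exact Finset.mem_image.2 ⟨⟨w, hw⟩, Finset.mem_univ _, e⟩

variable {D} {p : ℕ}

theorem W_cong {w : Equiv.Perm (D.σ → ℤ)} (hw : w ∈ D.W) {μ ν : D.σ → ℤ}
    (h : ∀ a, (p : ℤ) ∣ μ a - ν a) (a : D.σ) : (p : ℤ) ∣ w μ a - w ν a := by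
  obtain ⟨l, rfl⟩ := D.mem_W.1 hw
  clear hw
  induction l generalizing a with
  | nil => exact h a
  | cons i l ih =>
    simp only [List.map_cons, List.prod_cons, Equiv.Perm.mul_apply, dot_apply, dotf]
    generalize (l.map D.dot).prod μ = x at ih
    generalize (l.map D.dot).prod ν = y at ih
    have h1 : (p : ℤ) ∣ (x - y) ⬝ᵥ D.cr (D.s i) :=
      Finset.dvd_sum fun b _ => (ih b).mul_right _
    have h2 := (ih a).sub (h1.mul_right (D.rt (D.s i) a))
    rw [sub_dotProduct] at h2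
    simp only [Pi.sub_apply, Pi.smul_apply, smul_eq_mul]
    rwa [show ∀ u v c d r : ℤ, u - v - (c - d) * r = u - (c + 1) * r - (v - (d + 1) * r) from
      fun _ _ _ _ _ => by ring] at h2

theorem Link.of_cong {μ ν : D.σ → ℤ} (h : ∀ a, (p : ℤ) ∣ μ a - ν a) : D.Link p μ ν := ⟨1, D.W.one_mem, h⟩

theorem Link.refl (μ : D.σ → ℤ) : D.Link p μ μ := Link.of_cong fun _ => by simp

theorem Link.symm {μ ν : D.σ → ℤ} (h : D.Link p μ ν) : D.Link p ν μ := by
  obtain ⟨w, hw, h⟩ := h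
  refine ⟨w⁻¹, D.W.inv_mem hw, fun a => ?_⟩
  have h1 := W_cong (D.W.inv_mem hw) h a
  rw [← Equiv.Perm.mul_apply, inv_mul_cancel, Equiv.Perm.one_apply] at h1
  exact dvd_sub_comm.1 h1

theorem Link.trans {μ ν τ : D.σ → ℤ} (h : D.Link p μ ν) (h' : D.Link p ν τ) : D.Link p μ τ :=
  by
  obtain ⟨w, hw, h⟩ := h
  obtain ⟨w', hw', h'⟩ := h'
  refine ⟨w' * w, D.W.mul_mem hw' hw, fun a => ?_⟩
  have h1 := (W_cong hw' h a).add (h' a)
  rwa [sub_add_sub_cancel] at h1

theorem Link.dot (i : D.Δ) (μ : D.σ → ℤ) : D.Link p μ (D.dotf i μ) := 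
  ⟨D.dot i, D.dot_mem i, fun _ => by simp [dot_apply]⟩

theorem Link.induction {μ : D.σ → ℤ} {P : (D.σ → ℤ) → Prop} (h0 : P μ)
    (h1 : ∀ ν ν', (∀ a, (p : ℤ) ∣ ν a - ν' a) → P ν → P ν') (h2 : ∀ i ν, P ν → P (D.dotf i ν))
    {ν : D.σ → ℤ} (h : D.Link p μ ν) : P ν := by
  obtain ⟨w, hw, h⟩ := h
  obtain ⟨l, rfl⟩ := D.mem_W.1 hw
  refine h1 _ _ h ?_
  clear h hw
  induction l with
  | nil => exact h0
  | cons i l ih => exact h2 i _ ih

theorem weyl_pr_ge {α β : D.ι} (h : β ≠ α) (h' : β ≠ D.neg α) : -3 ≤ D.pr β α := by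
  obtain ⟨m1, m2⟩ := D.pr_mul h h'
  by_contra hc
  have m3 : D.pr α β ≠ 0 := fun e => by
    have := (D.pr_zero_iff α β).2 e
    omega
  have m4 : D.pr α β ≤ 0 := by nlinarith
  have m5 : D.pr α β ≤ -1 := by omega
  nlinarith

variable (D) in
theorem weyl_s_ne (i j : D.Δ) : D.s i ≠ D.neg (D.s j) := fun e =>
  (D.pos_neg_iff _).1 (e ▸ D.pos_s i) (D.pos_s j)

/-- if two roots of different length are not orthogonal, some simple roots are joined by a
multiple bond -/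
theorem exists_bond {α β : D.ι} {n : ℤ} (h : D.pr β α = -n) (hn : 2 ≤ n) (h' : β ≠ D.neg α) :
    ∃ i j, D.A i j = -n := by
  by_contra hno
  have hno' : ∀ i j, D.A i j ≠ -n := fun i j e => hno ⟨i, j, e⟩
  have hne : β ≠ α := fun e => by
    rw [e, D.pr_self] at h
    omega
  obtain ⟨m1, m2⟩ := D.pr_mul hne h'
  have m3 : D.pr α β ≠ 0 := fun e => by
    have := (D.pr_zero_iff α β).2 e
    omega
  rw [h] at m1 m2
  have m4 : D.pr α β = -1 := by
    have : D.pr α β ≤ 0 := by nlinarith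
    have : -2 < D.pr α β := by nlinarith
    omega
  have hn3 : n ≤ 3 := by
    rw [m4] at m2
    omega
  have hl := D.pr_len α β
  rw [h, m4] at hl
  have hα := D.len_pos α
  obtain ⟨k, hk1, hk2⟩ : ∃ k : ℕ, n ^ k ∣ D.len α ∧ ¬ n ^ (k + 1) ∣ D.len α := by
    by_contra hc
    have h1 : ∀ k : ℕ, n ^ k ∣ D.len α := fun k => by
      induction k with
      | zero => simp
      | succ k ih =>
        by_contra h2
        exact hc ⟨k, ih, h2⟩
    obtain ⟨k, hk⟩ := pow_unbounded_of_one_lt (D.len α) (show 1 < n by omega)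
    exact absurd (Int.le_of_dvd hα (h1 k)) (not_le.2 hk)
  have hβ : n ^ (k + 1) ∣ D.len β := by
    rw [show D.len β = D.len α * n by linarith, pow_succ]
    exact mul_dvd_mul_right hk1 n
  have hA : ∀ i j, n ^ (k + 1) ∣ D.len (D.s i) → ¬ n ^ (k + 1) ∣ D.len (D.s j) →
      D.A i j = 0 := by
    intro i j hi hj
    by_contra h0
    have hij : i ≠ j := fun e => hj (e ▸ hi)
    have a1 := D.A_nonpos hij
    have a2 : -3 ≤ D.A i j := weyl_pr_ge (fun e => hij (D.s_inj e)) (D.weyl_s_ne i j)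
    have a3 := hno' i j
    have a4 : IsCoprime (n ^ (k + 1)) (D.A i j) := by
      refine IsCoprime.pow_left (Int.isCoprime_iff_gcd_eq_one.2 ?_)
      generalize D.A i j = a at a1 a2 a3 h0
      interval_cases n <;> interval_cases a <;> first | rfl | omega
    refine hj (a4.dvd_of_dvd_mul_left ?_)
    have a5 : D.A i j * D.len (D.s j) = _ := D.pr_len (D.s j) (D.s i)
    rw [a5]
    exact hi.mul_left _
  have hA' : ∀ i j, ¬ n ^ (k + 1) ∣ D.len (D.s i) → n ^ (k + 1) ∣ D.len (D.s j) →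
      D.A i j = 0 := fun i j hi hj => (D.pr_zero_iff _ _).1 (hA j i hj hi)
  have key : ∀ γ i, ¬ (n ^ (k + 1) ∣ D.len γ ↔ n ^ (k + 1) ∣ D.len (D.s i)) → D.co γ i = 0 := by
    refine D.root_induction (fun j i hi => ?_) fun j γ ih i hi => ?_
    · rw [D.co_s]
      exact Pi.single_eq_of_ne (fun e => hi (by rw [e])) _
    · rw [D.len_rf] at hi
      rw [D.co_rf, Pi.sub_apply, ih i hi, D.co_s, Pi.smul_apply]
      by_cases e : i = j
      · subst e
        have h3 : D.pr γ (D.s i) = 0 := by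
          rw [D.pr_s]
          refine Finset.sum_eq_zero fun j _ => ?_
          by_cases h4 : n ^ (k + 1) ∣ D.len γ ↔ n ^ (k + 1) ∣ D.len (D.s j)
          · by_cases h5 : n ^ (k + 1) ∣ D.len γ
            · rw [hA j i (h4.1 h5) fun h6 => hi ⟨fun _ => h6, fun _ => h5⟩, mul_zero]
            · rw [hA' j i (fun h6 => h5 (h4.2 h6)) (by tauto), mul_zero]
          · rw [ih j h4, zero_mul]
        simp [h3]
      · simp [Pi.single_eq_of_ne e]
  have h0 : D.pr β α = 0 := by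
    rw [D.pr_eq_co]
    refine Finset.sum_eq_zero fun i _ => ?_
    by_cases hi : n ^ (k + 1) ∣ D.len (D.s i)
    · rw [D.pr_eq_cco, Finset.sum_eq_zero, mul_zero]
      intro j _
      by_cases hj : n ^ (k + 1) ∣ D.len (D.s j)
      · rw [(D.cco_eq_zero α j).2 (key α j fun h6 => hk2 (h6.2 hj)), zero_mul]
      · rw [show D.pr (D.s i) (D.s j) = 0 from hA i j hi hj, mul_zero]
    · rw [key β i fun h6 => hi (h6.1 hβ), zero_mul]
  omega

theorem Good.ne_two (h : D.Good p) {i j : D.Δ} (hij : D.A i j ≤ -2) : p ≠ 2 := by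
  rintro rfl
  have hne : i ≠ j := fun e => by
    rw [e, D.A_diag] at hij
    omega
  obtain ⟨n, hn⟩ := Int.eq_ofNat_of_zero_le (show 0 ≤ -D.A i j by omega)
  obtain ⟨δ, hδ⟩ := D.string (γ := D.rf (D.s j) (D.s i)) (n := n) (m := 2) (D.weyl_s_ne i j)
    (by rw [D.co_rf, ← hn, neg_smul, sub_eq_add_neg]; rfl) (by omega)
  have h1 : D.co δ j = 2 := by simp [hδ, D.co_s, Pi.single_eq_of_ne hne.symm]
  have h2 := h δ j (by rw [h1]; rfl)
  omega

theorem Good.ne_three (h : D.Good p) {i j : D.Δ} (hij : D.A i j = -3) : p ≠ 3 := by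
  rintro rfl
  have hne : i ≠ j := fun e => by
    rw [e, D.A_diag] at hij
    omega
  have h1 : D.co (D.rf (D.s j) (D.s i)) j = 3 := by
    rw [D.co_rf, show D.pr (D.s i) (D.s j) = -3 from hij]
    simp [D.co_s, Pi.single_eq_of_ne hne.symm]
  have h2 := h _ j (by rw [h1]; rfl)
  omega

end RD

namespace CD

theorem weyl_max (D : CD) (α β : D.ι) : ∃ r : ℕ, (∃ δ, D.co δ = D.co β - (r : ℤ) • D.co α) ∧
    ∀ δ, D.co δ ≠ D.co β - ((r : ℤ) + 1) • D.co α := by
  by_contra hc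
  have h1 : ∀ r : ℕ, ∃ δ, D.co δ = D.co β - (r : ℤ) • D.co α := fun r => by
    induction r with
    | zero => exact ⟨β, by simp⟩
    | succ r ih =>
      by_contra h2
      exact hc ⟨r, ih, fun δ e => h2 ⟨δ, by rw [e]; push_cast; rfl⟩⟩
  obtain ⟨δ, hδ⟩ := h1 4
  have h2 := D.string_le (α := D.neg α) (β := β) (γ := δ) (n := 4)
    (by rw [hδ, D.co_neg, smul_neg, sub_eq_add_neg])
  omega

theorem N_ne_zero (D : CD) {α β γ : D.ι} (h : D.co α + D.co β = D.co γ) : D.N α β ≠ 0 := by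
  obtain ⟨r, h1, h2⟩ := D.weyl_max α β
  have h3 := D.N_abs α β γ h r h1 h2
  intro h0
  rw [h0, abs_zero] at h3
  omega

theorem N_good (D : CD) {p : ℕ} (hp : p.Prime) (hg : D.Good p) {α β γ : D.ι}
    (h : D.co α + D.co β = D.co γ) : ¬ (p : ℤ) ∣ D.N α β := by
  intro hd
  obtain ⟨r, ⟨δ, hδ⟩, h2⟩ := D.weyl_max α β
  have h3 := D.N_abs α β γ h r ⟨δ, hδ⟩ h2
  have hγ : D.co γ = D.co δ + ((r + 1 : ℕ) : ℤ) • D.co α := by
    rw [← h, hδ]
    push_cast
    module
  have hr := D.string_le hγ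
  have hp1 : p ∣ r + 1 := by
    have h4 := (dvd_abs _ _).2 hd
    rw [h3] at h4
    exact_mod_cast h4
  have hr1 : 1 ≤ r := by
    by_contra h4
    rw [show r = 0 by omega, zero_add, Nat.dvd_one] at hp1
    exact hp.one_lt.ne' hp1
  have hmul : ∀ (ε : D.ι) (c : ℤ), D.co ε = c • D.co α → c = 1 ∨ c = -1 := by
    intro ε c hc
    have h5 : ∀ d : ℤ, d • D.co α = 0 → d = 0 := fun d e =>
      (smul_eq_zero.1 e).resolve_right (D.co_ne_zero α)
    rcases D.red' (β := ε) (γ := α) (a := 1) (b := c) one_ne_zero (by rw [one_smul, hc]) with e | e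
    · rw [e] at hc
      have := h5 (c - 1) (by rw [sub_smul, ← hc, one_smul, sub_self])
      omega
    · rw [e, D.co_neg] at hc
      have := h5 (c + 1) (by rw [add_smul, ← hc, one_smul, neg_add_cancel])
      omega
  have n1 : δ ≠ α := fun e => by
    have := hmul γ (r + 2) (by rw [hγ, e]; push_cast; module)
    omega
  have n2 : δ ≠ D.neg α := fun e => by
    have a1 := hmul γ r (by rw [hγ, e, D.co_neg]; push_cast; module)
    have a2 := hmul β (r - 1) (by
      rw [e, D.co_neg] at hδ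
      rw [← sub_add_cancel (D.co β) ((r : ℤ) • D.co α), ← hδ]
      module)
    omega
  have hpr : D.pr γ α = D.pr δ α + 2 * (r + 1) := by
    rw [← D.pr_self α, D.pr_eq_co γ, D.pr_eq_co δ, D.pr_eq_co α, hγ, Finset.sum_mul,
      ← Finset.sum_add_distrib]
    refine Finset.sum_congr rfl fun i _ => ?_
    simp only [Pi.add_apply, Pi.smul_apply, smul_eq_mul]
    push_cast
    ring
  have hle : D.pr δ α ≤ -(r + 1) := by
    by_contra hc
    obtain ⟨q, hq⟩ := Int.eq_ofNat_of_zero_le (show 0 ≤ D.pr δ α + (r + 1) by omega)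
    obtain ⟨ε, hε⟩ := D.string (α := D.neg α) (β := δ) (γ := D.rf α γ) (n := q) (m := 1)
      (by rw [D.toRD.neg_neg]; exact n1)
      (by rw [D.co_rf, hpr, hγ, D.co_neg, ← hq]; push_cast; module) (by omega)
    refine h2 ε ?_
    rw [hε, hδ, D.co_neg]
    push_cast
    module
  have hge := RD.weyl_pr_ge n1 n2
  obtain ⟨i, j, hij⟩ := RD.exists_bond (α := α) (β := δ) (n := -D.pr δ α) (by ring) (by omega) n2
  rcases (show r = 1 ∨ r = 2 by omega) with rfl | rfl
  · exact hg.ne_two (i := i) (j := j) (by omega)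
      ((Nat.prime_dvd_prime_iff_eq hp Nat.prime_two).1 hp1)
  · exact hg.ne_three (i := i) (j := j) (by omega)
      ((Nat.prime_dvd_prime_iff_eq hp Nat.prime_three).1 hp1)

end CD

end Pool.Agent.P.Bf04
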