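import Pool.Agent.P.MP_bf0464_al.H.Lie
import Pool.Agent.P.MP_bf0464_al.H.Weyl

/-! Levi subdata and the simply connected datum. -/

namespace Pool.Agent.P.Bf04

open Matrix Module

attribute [local instance 100] LieRing.ofAssociativeRing

universe u v

namespace RD

variable (D : RD)

/-- roots supported in `J` -/
def In (J : Finset D.Δ) (β : D.ι) : Prop := ∀ i ∉ J, D.co β i = 0

instance (J : Finset D.Δ) : DecidablePred (D.In J) := fun _ => Fintype.decidableForallFintype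

theorem in_s {J : Finset D.Δ} {i : D.Δ} : D.In J (D.s i) ↔ i ∈ J := by
  constructor
  · intro h
    by_contra hi
    have := h i hi
    rw [D.co_s] at this
    simp at this
  · intro h j hj
    rw [D.co_s]
    exact Pi.single_eq_of_ne (fun e : j = i => hj (e ▸ h)) _

theorem In.rf {D : RD} {J : Finset D.Δ} {α β : D.ι} (h : D.In J α) (h' : D.In J β) :
    D.In J (D.rf α β) := fun i hi => by
  rw [D.co_rf]; simp [h i hi, h' i hi]

theorem in_neg {J : Finset D.Δ} {α : D.ι} : D.In J (D.neg α) ↔ D.In J α := by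
  simp only [In, D.co_neg, Pi.neg_apply, neg_eq_zero]

theorem suba_sum {M : Type*} [AddCommMonoid M] (J : Finset D.Δ) (f : D.Δ → M)
    (h : ∀ i ∉ J, f i = 0) : ∑ i, f i = ∑ i : J, f i.1 := by
  rw [Finset.sum_coe_sort J f]
  exact (Finset.sum_subset (Finset.subset_univ J) fun i _ hi => h i hi).symm

theorem suba_li (J : Finset D.Δ) (x : J → ℤ) (h : ∑ i, x i • D.rt (D.s i.1) = 0) : x = 0 := by
  have h0 := D.li (fun i => if hi : i ∈ J then x ⟨i, hi⟩ else 0) (by
    rw [D.suba_sum J _ (fun i hi => by simp [hi]), ← h]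
    exact Finset.sum_congr rfl fun i _ => by simp [i.2])
  funext i
  have := congrFun h0 i.1
  simpa [i.2] using this

theorem suba_pr (β α : D.ι) : (fun i => D.pr β (D.s i)) ⬝ᵥ D.cco α = D.pr β α := by
  rw [D.pr_eq_cco β α, dotProduct]
  exact Finset.sum_congr rfl fun i _ => mul_comm _ _

theorem suba_nd {β γ : D.ι} {n : ℤ} (h : ∀ j, D.pr β (D.s j) = n * D.pr γ (D.s j)) :
    D.co β = n • D.co γ := by
  have := D.nd (D.co β - n • D.co γ) fun j => by
    have h1 := h j
    rw [D.pr_s, D.pr_s, Finset.mul_sum] at h1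
    simp only [Pi.sub_apply, Pi.smul_apply, smul_eq_mul, sub_mul, Finset.sum_sub_distrib, h1,
      mul_assoc, sub_self]
  exact sub_eq_zero.1 this

/-- the Levi subdatum -/
def levi (J : Finset D.Δ) : RD where
  σ := D.σ
  Δ := J
  ι := {β // D.In J β}
  rt β := D.rt β.1
  cr β := D.cr β.1
  s i := ⟨D.s i.1, D.in_s.2 i.2⟩
  co β i := D.co β.1 i.1
  cco β i := D.cco β.1 i.1
  ω i := D.ω i.1
  rf α β := ⟨D.rf α.1 β.1, α.2.rf β.2⟩
  rt_inj := fun _ _ h => Subtype.ext (D.rt_inj h)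
  cr_inj := fun _ _ h => Subtype.ext (D.cr_inj h)
  two α := D.two α.1
  rt_rf α β := D.rt_rf α.1 β.1
  cr_rf α β := D.cr_rf α.1 β.1
  rt_co := fun β => (D.rt_co β.1).trans (D.suba_sum J _ fun i hi => by rw [β.2 i hi, zero_smul])
  cr_cco := fun β => (D.cr_cco β.1).trans (D.suba_sum J _ fun i hi => by
    rw [(D.cco_eq_zero β.1 i).2 (β.2 i hi), zero_smul])
  li := D.suba_li J
  sign := fun β => (D.sign β.1).imp (fun h i => h i.1) (fun h i => h i.1)
  csign := fun β => (D.csign β.1).imp (fun h i => h i.1) (fun h i => h i.1)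
  ω_cr := fun i j => (D.ω_cr i.1 j.1).trans (if_congr Subtype.val_inj rfl rfl)
  red α β := D.red α.1 β.1

/-- the simply connected datum with the same roots -/
def sc : RD where
  σ := D.Δ
  Δ := D.Δ
  ι := D.ι
  rt β i := D.pr β (D.s i)
  cr := D.cco
  s := D.s
  co := D.co
  cco := D.cco
  ω i := Pi.single i 1
  rf := D.rf
  rt_inj := fun β γ h => D.co_inj (by
    have := D.suba_nd (β := β) (γ := γ) (n := 1) fun j => by
      rw [one_mul]; exact congrFun h j
    rwa [one_smul] at this)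
  cr_inj := D.cco_inj
  two := fun α => by rw [D.suba_pr, D.pr_self]
  rt_rf := fun α β => by
    rw [D.suba_pr]
    funext i
    simp only [pr, D.rt_rf, sub_dotProduct, smul_dotProduct, Pi.sub_apply, Pi.smul_apply]
  cr_rf := fun α β => by rw [D.suba_pr, D.cco_rf]
  rt_co := fun β => by
    funext j
    rw [D.pr_eq_co β (D.s j), Finset.sum_apply]
    rfl
  cr_cco := fun β => by
    funext j
    simp [D.cco_s, Finset.sum_apply, Pi.single_apply]
  li := fun x h => D.nd x fun j => by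
    have := congrFun h j
    rw [Finset.sum_apply] at this
    exact this
  sign := D.sign
  csign := D.csign
  ω_cr := fun i j => by
    rw [D.cco_s, single_dotProduct, one_mul, Pi.single_apply]
  red := fun α β h => D.red α β (by
    have := D.suba_nd (β := β) (γ := α) (n := 2) fun j => congrFun h j
    rw [D.rt_co β, D.rt_co α, this, Finset.smul_sum]
    exact Finset.sum_congr rfl fun i _ => by rw [Pi.smul_apply, smul_assoc])

variable (J : Finset D.Δ)

theorem levi_pos (β : (D.levi J).ι) : (D.levi J).Pos β ↔ D.Pos β.1 := by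
  constructor
  · intro h i
    by_cases hi : i ∈ J
    · exact h ⟨i, hi⟩
    · exact (β.2 i hi).ge
  · exact fun h i => h i.1

theorem levi_neg (β : (D.levi J).ι) : ((D.levi J).neg β).1 = D.neg β.1 := rfl

theorem levi_pr (β α : (D.levi J).ι) : (D.levi J).pr β α = D.pr β.1 α.1 := rfl

theorem levi_A (i j : (D.levi J).Δ) : (D.levi J).A i j = D.A i.1 j.1 := rfl

theorem levi_co_add (α β γ : (D.levi J).ι) :
    (D.levi J).co α + (D.levi J).co β = (D.levi J).co γ ↔ D.co α.1 + D.co β.1 = D.co γ.1 := by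
  constructor
  · intro h
    funext i
    by_cases hi : i ∈ J
    · exact congrFun h ⟨i, hi⟩
    · rw [Pi.add_apply, α.2 i hi, β.2 i hi, γ.2 i hi, add_zero]
  · intro h
    funext i
    exact congrFun h i.1

theorem levi_dot (i : (D.levi J).Δ) : (D.levi J).dot i = D.dot i.1 := rfl

theorem levi_W_le : (D.levi J).W ≤ D.W :=
  Subgroup.closure_mono (by rintro _ ⟨i, rfl⟩; exact ⟨i.1, rfl⟩)

theorem Good.levi {D : RD} {p : ℕ} (h : D.Good p) (J : Finset D.Δ) : (D.levi J).Good p :=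
  fun β i => h β.1 i.1

theorem Link.of_levi {D : RD} {p : ℕ} {J : Finset D.Δ} {μ ν : D.σ → ℤ}
    (h : (D.levi J).Link p μ ν) : D.Link p μ ν := by
  obtain ⟨w, hw, h⟩ := h
  exact ⟨w, D.levi_W_le J hw, h⟩

/-- representatives of the classes for the Levi subdatum inside one class -/
theorem exists_reps (p : ℕ) (μ : D.σ → ℤ) : ∃ T : Finset (D.σ → ℤ),
    (∀ ν, D.Link p μ ν → ∃ t ∈ T, (D.levi J).Link p t ν) ∧ T.card * (D.levi J).wn ≤ D.wn := by
  classical
  let V : Subgroup (Equiv.Perm (D.σ → ℤ)) := (D.levi J).W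
  have hV : V ≤ D.W := D.levi_W_le J
  let H : Subgroup D.W := V.subgroupOf D.W
  let _ : Fintype (D.W ⧸ H) := Fintype.ofFinite _
  refine ⟨Finset.univ.image fun q : D.W ⧸ H => (q.out⁻¹ : D.W).1 μ, ?_, ?_⟩
  · rintro ν ⟨w, hw, h⟩
    obtain ⟨u, hu⟩ := QuotientGroup.mk_out_eq_mul H (⟨w, hw⟩ : D.W)⁻¹
    refine ⟨_, Finset.mem_image_of_mem _ (Finset.mem_univ (QuotientGroup.mk (⟨w, hw⟩ : D.W)⁻¹)),
      u.1.1, u.2, fun a => ?_⟩
    have : u.1.1 (((QuotientGroup.mk (⟨w, hw⟩ : D.W)⁻¹ : D.W ⧸ H).out⁻¹ : D.W).1 μ) = w μ := by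
      rw [hu]
      simp
    exact this ▸ h a
  · have h1 : (D.levi J).wn = Nat.card H :=
      (Nat.card_congr (Subgroup.subgroupOfEquivOfLe hV).toEquiv).symm
    rw [h1, wn, Subgroup.card_eq_card_quotient_mul_card_subgroup H]
    refine Nat.mul_le_mul_right _ (Finset.card_image_le.trans ?_)
    rw [Finset.card_univ, Nat.card_eq_fintype_card]

/-- the index map on bases -/
def leviB : (D.levi J).B → D.B := Sum.map id Subtype.val

theorem leviB_inj : Function.Injective (D.leviB J) :=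
  Sum.map_injective.2 ⟨Function.injective_id, Subtype.val_injective⟩

theorem sc_pr (β α : D.ι) : D.sc.pr β α = D.pr β α := D.suba_pr β α

theorem sc_A : D.sc.A = D.A := by
  funext i j
  exact D.sc_pr (D.s i) (D.s j)

theorem suba_SC (y : D.Δ → ℤ) :
    y = ∑ i : D.Δ, ((Pi.single i 1 : D.Δ → ℤ) ⬝ᵥ y) • D.cco (D.s i) := by
  funext j
  simp [D.cco_s, Finset.sum_apply, Pi.single_apply]

theorem sc_SC : D.sc.SC := D.suba_SC

theorem Good.sc {D : RD} {p : ℕ} (h : D.Good p) : D.sc.Good p := h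

/-- restriction of a weight to the simple coroots -/
def scw (μ : D.σ → ℤ) : D.sc.σ → ℤ := fun i => μ ⬝ᵥ D.cr (D.s i)

theorem scw_dotf (i : D.Δ) (μ : D.σ → ℤ) : D.scw (D.dotf i μ) = D.sc.dotf i (D.scw μ) := by
  funext j
  change D.dotf i μ ⬝ᵥ D.cr (D.s j) = μ ⬝ᵥ D.cr (D.s j)
    - ((fun k : D.Δ => μ ⬝ᵥ D.cr (D.s k)) ⬝ᵥ D.cco (D.s i) + 1) * D.pr (D.s i) (D.s j)
  rw [D.cco_s, dotProduct_single, mul_one, dotf, sub_dotProduct, smul_dotProduct, smul_eq_mul, pr]

theorem suba_ω (x : D.Δ → ℤ) (j : D.Δ) : (∑ i, x i • D.ω i) ⬝ᵥ D.cr (D.s j) = x j := by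
  simp only [sum_dotProduct, smul_dotProduct, D.ω_cr, smul_eq_mul, mul_ite, mul_one, mul_zero,
    Finset.sum_ite_eq', Finset.mem_univ, if_true]

theorem suba_scw_surj : Function.Surjective D.scw := fun x =>
  ⟨∑ i : D.Δ, x i • D.ω i, funext fun j => D.suba_ω x j⟩

theorem suba_scw_prod (l : List D.Δ) (μ : D.σ → ℤ) :
    D.scw ((l.map D.dot).prod μ) = (l.map D.sc.dot).prod (D.scw μ) := by
  induction l with
  | nil => rfl
  | cons i l ih =>
    rw [List.map_cons, List.prod_cons, Equiv.Perm.mul_apply, dot_apply, scw_dotf, ih]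
    rfl

theorem sc_wn_le : D.sc.wn ≤ D.wn := by
  have h : ∀ w : D.sc.W, ∃ l : List D.Δ, w.1 = (l.map D.sc.dot).prod := fun w =>
    D.sc.mem_W.1 w.2
  choose l hl using h
  refine Nat.card_le_card_of_injective
    (fun w : D.sc.W => (⟨((l w).map D.dot).prod, D.mem_W.2 ⟨l w, rfl⟩⟩ : D.W)) fun w w' e => ?_
  have e' : ((l w).map D.dot).prod = ((l w').map D.dot).prod := congrArg Subtype.val e
  refine Subtype.ext (Equiv.ext fun x => ?_)
  obtain ⟨μ, rfl⟩ := D.suba_scw_surj x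
  rw [hl w, hl w', ← D.suba_scw_prod, ← D.suba_scw_prod, e']

theorem suba_move_list (l : List J) (μ : D.σ → ℤ) :
    ∃ x : D.Δ → ℤ, (∀ i ∉ J, x i = 0) ∧
      (l.map fun i => D.dot i.1).prod μ = μ + ∑ i, x i • D.rt (D.s i) := by
  induction l with
  | nil => exact ⟨0, fun _ _ => rfl, by simp⟩
  | cons i l ih =>
    obtain ⟨x, hx, e⟩ := ih
    refine ⟨x - Pi.single i.1 ((l.map fun i => D.dot i.1).prod μ ⬝ᵥ D.cr (D.s i.1) + 1),
      fun j hj => ?_, ?_⟩
    · rw [Pi.sub_apply, hx j hj, Pi.single_eq_of_ne (fun e : j = i.1 => hj (e ▸ i.2)), sub_zero]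
    · rw [List.map_cons, List.prod_cons, Equiv.Perm.mul_apply, dot_apply, dotf]
      generalize (l.map fun i => D.dot i.1).prod μ ⬝ᵥ D.cr (D.s i.1) + 1 = c
      rw [e]
      simp only [Pi.sub_apply, sub_smul, Finset.sum_sub_distrib, Pi.single_apply, ite_smul,
        zero_smul, Finset.sum_ite_eq', Finset.mem_univ, if_true]
      abel

theorem suba_move {w : Equiv.Perm (D.σ → ℤ)} (hw : w ∈ (D.levi J).W) (μ : D.σ → ℤ) :
    ∃ x : D.Δ → ℤ, (∀ i ∉ J, x i = 0) ∧ w μ = μ + ∑ i, x i • D.rt (D.s i) := by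
  obtain ⟨l, hl⟩ := (D.levi J).mem_W.1 hw
  have e : w = (List.map (fun i : J => D.dot i.1) l).prod := hl
  rw [e]
  exact D.suba_move_list J l μ

theorem wn_mul_le (C : Finset D.Δ) (h : ∀ i ∈ C, ∀ j ∉ C, D.A i j = 0) :
    (D.levi C).wn * (D.levi Cᶜ).wn ≤ D.wn := by
  have _ := h
  let V : Subgroup (Equiv.Perm (D.σ → ℤ)) := (D.levi C).W
  let V' : Subgroup (Equiv.Perm (D.σ → ℤ)) := (D.levi Cᶜ).W
  have hd : Disjoint V V' := by
    rw [Subgroup.disjoint_def]
    intro w hw hw'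
    refine Equiv.ext fun μ => ?_
    obtain ⟨x, hx, e⟩ := D.suba_move C hw μ
    obtain ⟨x', hx', e'⟩ := D.suba_move Cᶜ hw' μ
    have h0 := D.li (x - x') (by
      simp only [Pi.sub_apply, sub_smul, Finset.sum_sub_distrib]
      exact sub_eq_zero.2 (add_left_cancel (e.symm.trans e')))
    have h1 : x = 0 := by
      funext i
      by_cases hi : i ∈ C
      · rw [sub_eq_zero.1 h0]; exact hx' i (by simpa using hi)
      · exact hx i hi
    rw [e, h1]; simp
  have hi := Subgroup.mul_injective_of_disjoint hd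
  change Nat.card V * Nat.card V' ≤ Nat.card D.W
  rw [← Nat.card_prod]
  exact Nat.card_le_card_of_injective (fun g : V × V' => (⟨g.1.1 * g.2.1,
    D.W.mul_mem (D.levi_W_le C g.1.2) (D.levi_W_le Cᶜ g.2.2)⟩ : D.W))
    fun g g' e => hi (congrArg Subtype.val e)

end RD

end Pool.Agent.P.Bf04
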