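import Pool.Agent.P.MP_bf0464_al.H.Class
import Pool.Agent.P.MP_bf0464_al.H.SubA

/-! Bad primes; the Cartan matrix modulo a good prime. -/

namespace Pool.Agent.P.Bf04

namespace RD

variable {D : RD} {C : Finset D.Δ} {p n : ℕ}

theorem isTyp_levi {M : Matrix (Fin n) (Fin n) ℤ} (h : IsTyp D.A C M) :
    IsTyp (D.levi C).A Finset.univ M := by
  obtain ⟨e, he, hC, hM⟩ := h
  have hm : ∀ a, e a ∈ C := fun a => hC ▸ Finset.mem_image_of_mem e (Finset.mem_univ a)
  refine ⟨fun a => ⟨e a, hm a⟩, fun a b hab => he (congrArg Subtype.val hab), ?_, hM⟩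
  refine Finset.eq_univ_iff_forall.2 fun i => ?_
  have hi : i.1 ∈ Finset.univ.image e := hC.symm ▸ i.2
  obtain ⟨a, -, ha⟩ := Finset.mem_image.1 hi
  exact Finset.mem_image.2 ⟨a, Finset.mem_univ a, Subtype.ext ha⟩

/-- there is a root with coordinates `v` along `e` -/
def BadHas (D : RD) {m : ℕ} (e : Fin m → D.Δ) (v : Fin m → ℤ) : Prop :=
  ∃ β, (∀ i ∉ Set.range e, D.co β i = 0) ∧ ∀ a, D.co β (e a) = v a

theorem bad_has_s {m : ℕ} {e : Fin m → D.Δ} (he : Function.Injective e) (b : Fin m)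
    (v : Fin m → ℤ) (hv : ∀ a, v a = if a = b then 1 else 0) : D.BadHas e v := by
  refine ⟨D.s (e b), fun i hi => ?_, fun a => ?_⟩
  · rw [D.co_s]
    exact Pi.single_eq_of_ne (fun h : i = e b => hi ⟨b, h.symm⟩) _
  · rw [D.co_s, hv, Pi.single_apply]
    simp only [he.eq_iff]

theorem bad_has_rf {m : ℕ} {e : Fin m → D.Δ} (he : Function.Injective e)
    {M : Matrix (Fin m) (Fin m) ℤ} (hM : ∀ a b, D.A (e a) (e b) = M a b) {v : Fin m → ℤ}
    (h : D.BadHas e v) (b : Fin m) (w : Fin m → ℤ)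
    (hw : ∀ a, w a = if a = b then v a - ∑ c, v c * M c b else v a) : D.BadHas e w := by
  obtain ⟨β, h1, h2⟩ := h
  have h3 : ∑ c, v c * M c b = D.pr β (D.s (e b)) := by
    rw [D.pr_s]
    refine Fintype.sum_of_injective e he _ _ (fun i hi => ?_) (fun c => ?_)
    · rw [h1 i hi, zero_mul]
    · rw [h2, hM]
  refine ⟨D.rf (D.s (e b)) β, fun i hi => ?_, fun a => ?_⟩
  · have hib : i ≠ e b := fun h => hi ⟨b, h.symm⟩
    rw [D.co_rf, D.co_s]
    simp [h1 i hi, Pi.single_eq_of_ne hib]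
  · rw [D.co_rf, D.co_s, hw, h3]
    by_cases hab : a = b
    · subst hab; simp [h2]
    · have : e a ≠ e b := fun h => hab (he h)
      simp [h2, hab, Pi.single_eq_of_ne this]

theorem bad_has_ne {m : ℕ} {e : Fin m → D.Δ} (hg : D.Good p) {v : Fin m → ℤ}
    (h : D.BadHas e v) (a : Fin m) {k : ℕ} (hv : v a = k) (hk : k ≠ 0) : p ≠ k := by
  rintro rfl
  obtain ⟨β, -, h2⟩ := h
  have h3 := hg β (e a) (by rw [h2, hv])
  rw [h2, hv] at h3
  exact hk (by exact_mod_cast h3)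

theorem bad_D4 (hg : D.Good p) {e : Fin 4 → D.Δ} (he : Function.Injective e)
    (hM : ∀ a b, D.A (e a) (e b) = CartanMatrix.D 4 a b) : p ≠ 2 := by
  have h0 := bad_has_s he 0 ![1, 0, 0, 0] (by decide)
  have h1 := bad_has_rf he hM h0 1 ![1, 1, 0, 0] (by decide)
  have h2 := bad_has_rf he hM h1 2 ![1, 1, 1, 0] (by decide)
  have h3 := bad_has_rf he hM h2 3 ![1, 1, 1, 1] (by decide)
  have h4 := bad_has_rf he hM h3 1 ![1, 2, 1, 1] (by decide)
  exact bad_has_ne hg h4 1 (by decide) (by decide)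

theorem bad_E6_two (hg : D.Good p) {e : Fin 6 → D.Δ} (he : Function.Injective e)
    (hM : ∀ a b, D.A (e a) (e b) = CartanMatrix.E₆ a b) : p ≠ 2 := by
  have h0 := bad_has_s he 1 ![0, 1, 0, 0, 0, 0] (by decide)
  have h1 := bad_has_rf he hM h0 3 ![0, 1, 0, 1, 0, 0] (by decide)
  have h2 := bad_has_rf he hM h1 2 ![0, 1, 1, 1, 0, 0] (by decide)
  have h3 := bad_has_rf he hM h2 4 ![0, 1, 1, 1, 1, 0] (by decide)
  have h4 := bad_has_rf he hM h3 3 ![0, 1, 1, 2, 1, 0] (by decide)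
  exact bad_has_ne hg h4 3 (by decide) (by decide)

theorem bad_E6_three (hg : D.Good p) {e : Fin 6 → D.Δ} (he : Function.Injective e)
    (hM : ∀ a b, D.A (e a) (e b) = CartanMatrix.E₆ a b) : p ≠ 3 := by
  have h0 := bad_has_s he 0 ![1, 0, 0, 0, 0, 0] (by decide)
  have h1 := bad_has_rf he hM h0 2 ![1, 0, 1, 0, 0, 0] (by decide)
  have h2 := bad_has_rf he hM h1 3 ![1, 0, 1, 1, 0, 0] (by decide)
  have h3 := bad_has_rf he hM h2 1 ![1, 1, 1, 1, 0, 0] (by decide)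
  have h4 := bad_has_rf he hM h3 4 ![1, 1, 1, 1, 1, 0] (by decide)
  have h5 := bad_has_rf he hM h4 3 ![1, 1, 1, 2, 1, 0] (by decide)
  have h6 := bad_has_rf he hM h5 2 ![1, 1, 2, 2, 1, 0] (by decide)
  have h7 := bad_has_rf he hM h6 5 ![1, 1, 2, 2, 1, 1] (by decide)
  have h8 := bad_has_rf he hM h7 4 ![1, 1, 2, 2, 2, 1] (by decide)
  have h9 := bad_has_rf he hM h8 3 ![1, 1, 2, 3, 2, 1] (by decide)
  exact bad_has_ne hg h9 3 (by decide) (by decide)

theorem bad_F4_three (hg : D.Good p) {e : Fin 4 → D.Δ} (he : Function.Injective e)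
    (hM : ∀ a b, D.A (e a) (e b) = CartanMatrix.F₄ a b) : p ≠ 3 := by
  have h0 := bad_has_s he 0 ![1, 0, 0, 0] (by decide)
  have h1 := bad_has_rf he hM h0 1 ![1, 1, 0, 0] (by decide)
  have h2 := bad_has_rf he hM h1 2 ![1, 1, 2, 0] (by decide)
  have h3 := bad_has_rf he hM h2 1 ![1, 2, 2, 0] (by decide)
  have h4 := bad_has_rf he hM h3 3 ![1, 2, 2, 2] (by decide)
  have h5 := bad_has_rf he hM h4 2 ![1, 2, 4, 2] (by decide)
  have h6 := bad_has_rf he hM h5 1 ![1, 3, 4, 2] (by decide)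
  exact bad_has_ne hg h6 1 (by decide) (by decide)

theorem bad_E8_five (hg : D.Good p) {e : Fin 8 → D.Δ} (he : Function.Injective e)
    (hM : ∀ a b, D.A (e a) (e b) = CartanMatrix.E₈ a b) : p ≠ 5 := by
  have h0 := bad_has_s he 0 ![1, 0, 0, 0, 0, 0, 0, 0] (by decide)
  have h1 := bad_has_rf he hM h0 2 ![1, 0, 1, 0, 0, 0, 0, 0] (by decide)
  have h2 := bad_has_rf he hM h1 3 ![1, 0, 1, 1, 0, 0, 0, 0] (by decide)
  have h3 := bad_has_rf he hM h2 1 ![1, 1, 1, 1, 0, 0, 0, 0] (by decide)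
  have h4 := bad_has_rf he hM h3 4 ![1, 1, 1, 1, 1, 0, 0, 0] (by decide)
  have h5 := bad_has_rf he hM h4 3 ![1, 1, 1, 2, 1, 0, 0, 0] (by decide)
  have h6 := bad_has_rf he hM h5 2 ![1, 1, 2, 2, 1, 0, 0, 0] (by decide)
  have h7 := bad_has_rf he hM h6 5 ![1, 1, 2, 2, 1, 1, 0, 0] (by decide)
  have h8 := bad_has_rf he hM h7 4 ![1, 1, 2, 2, 2, 1, 0, 0] (by decide)
  have h9 := bad_has_rf he hM h8 3 ![1, 1, 2, 3, 2, 1, 0, 0] (by decide)
  have h10 := bad_has_rf he hM h9 1 ![1, 2, 2, 3, 2, 1, 0, 0] (by decide)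
  have h11 := bad_has_rf he hM h10 6 ![1, 2, 2, 3, 2, 1, 1, 0] (by decide)
  have h12 := bad_has_rf he hM h11 5 ![1, 2, 2, 3, 2, 2, 1, 0] (by decide)
  have h13 := bad_has_rf he hM h12 4 ![1, 2, 2, 3, 3, 2, 1, 0] (by decide)
  have h14 := bad_has_rf he hM h13 3 ![1, 2, 2, 4, 3, 2, 1, 0] (by decide)
  have h15 := bad_has_rf he hM h14 2 ![1, 2, 3, 4, 3, 2, 1, 0] (by decide)
  have h16 := bad_has_rf he hM h15 7 ![1, 2, 3, 4, 3, 2, 1, 1] (by decide)
  have h17 := bad_has_rf he hM h16 6 ![1, 2, 3, 4, 3, 2, 2, 1] (by decide)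
  have h18 := bad_has_rf he hM h17 5 ![1, 2, 3, 4, 3, 3, 2, 1] (by decide)
  have h19 := bad_has_rf he hM h18 4 ![1, 2, 3, 4, 4, 3, 2, 1] (by decide)
  have h20 := bad_has_rf he hM h19 3 ![1, 2, 3, 5, 4, 3, 2, 1] (by decide)
  exact bad_has_ne hg h20 3 (by decide) (by decide)

theorem Good.ne_two_BCD (hg : D.Good p) (h : IsTyp D.A C (CartanMatrix.B (n + 2)) ∨
    IsTyp D.A C (CartanMatrix.C (n + 3)) ∨ IsTyp D.A C (CartanMatrix.D (n + 4))) : p ≠ 2 := by
  rcases h with ⟨e, -, -, hM⟩ | ⟨e, -, -, hM⟩ | ⟨e, he, -, hM⟩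
  · refine hg.ne_two (i := e ⟨n, by omega⟩) (j := e ⟨n + 1, by omega⟩) ?_
    rw [hM]
    simp [CartanMatrix.B]
  · refine hg.ne_two (i := e ⟨n + 2, by omega⟩) (j := e ⟨n + 1, by omega⟩) ?_
    rw [hM]
    simp [CartanMatrix.C]
  · refine bad_D4 hg (e := fun a => e (Fin.natAdd n a)) (he.comp (Fin.natAdd_injective 4 n)) ?_
    intro a b
    rw [hM]
    simp only [CartanMatrix.D, Matrix.of_apply, Fin.ext_iff, Fin.val_natAdd]
    split_ifs <;> omega

theorem bad_E6 (hp : p.Prime) (hg : D.Good p) {e : Fin 6 → D.Δ} (he : Function.Injective e)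
    (hM : ∀ a b, D.A (e a) (e b) = CartanMatrix.E₆ a b) : 5 ≤ p :=
  hp.five_le_of_ne_two_of_ne_three (bad_E6_two hg he hM) (bad_E6_three hg he hM)

theorem Good.five_le (hp : p.Prime) (hg : D.Good p) (h : IsTyp D.A C CartanMatrix.E₆ ∨
    IsTyp D.A C CartanMatrix.E₇ ∨ IsTyp D.A C CartanMatrix.E₈ ∨ IsTyp D.A C CartanMatrix.F₄ ∨
    IsTyp D.A C CartanMatrix.G₂) : 5 ≤ p := by
  rcases h with ⟨e, he, -, hM⟩ | ⟨e, he, -, hM⟩ | ⟨e, he, -, hM⟩ | ⟨e, he, -, hM⟩ | ⟨e, -, -, hM⟩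
  · exact bad_E6 hp hg he hM
  · refine bad_E6 hp hg (e := fun a => e (Fin.castAdd 1 a))
      (he.comp (Fin.castAdd_injective 6 1)) fun a b => ?_
    rw [hM]
    fin_cases a <;> fin_cases b <;> rfl
  · refine bad_E6 hp hg (e := fun a => e (Fin.castAdd 2 a))
      (he.comp (Fin.castAdd_injective 6 2)) fun a b => ?_
    rw [hM]
    fin_cases a <;> fin_cases b <;> rfl
  · exact hp.five_le_of_ne_two_of_ne_three
      (hg.ne_two (i := e 1) (j := e 2) (by rw [hM]; decide)) (bad_F4_three hg he hM)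
  · exact hp.five_le_of_ne_two_of_ne_three
      (hg.ne_two (i := e 0) (j := e 1) (by rw [hM]; decide))
      (hg.ne_three (i := e 0) (j := e 1) (by rw [hM]; decide))

theorem Good.seven_le (hp : p.Prime) (hg : D.Good p) (h : IsTyp D.A C CartanMatrix.E₈) : 7 ≤ p := by
  have h5 := hg.five_le hp (Or.inr (Or.inr (Or.inl h)))
  obtain ⟨e, he, -, hM⟩ := h
  have h6 := bad_E8_five hg he hM
  have h7 : p ≠ 6 := by rintro rfl; exact absurd hp (by decide)
  omega

/-- extension of a vector by zero -/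
def badY {K : Type} [Field K] {m : ℕ} (y : Fin m → K) (k : ℕ) : K :=
  ∑ a : Fin m, if a.val = k then y a else 0

theorem badY_val {K : Type} [Field K] {m : ℕ} (y : Fin m → K) (a : Fin m) : badY y a = y a := by
  simp [badY, Fin.val_inj]

theorem bad_col {K : Type} [Field K] {m : ℕ} (y : Fin m → K) (g : Fin m → ℤ)
    (h0 : ∑ a, y a * (g a : K) = 0) (c₀ c₁ c₂ c₃ : ℤ) (k₀ k₁ k₂ k₃ : ℕ)
    (h : ∀ a : Fin m, g a = (if a.val = k₀ then c₀ else 0) + (if a.val = k₁ then c₁ else 0) +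
      (if a.val = k₂ then c₂ else 0) + (if a.val = k₃ then c₃ else 0)) :
    c₀ * badY y k₀ + c₁ * badY y k₁ + c₂ * badY y k₂ + c₃ * badY y k₃ = 0 := by
  rw [← h0]
  simp only [badY, Finset.mul_sum, ← Finset.sum_add_distrib]
  refine Finset.sum_congr rfl fun a _ => ?_
  rw [h]
  push_cast
  split_ifs <;> ring

theorem bad_rec {K : Type} [Field K] (Y : ℕ → K) (N : ℕ) (h0 : 2 * Y 0 - Y 1 = 0)
    (h : ∀ k, k + 2 ≤ N → -Y k + 2 * Y (k + 1) - Y (k + 2) = 0) :
    ∀ k, k ≤ N → Y k = (k + 1) * Y 0 := by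
  have key : ∀ k, k + 1 ≤ N → Y k = (k + 1) * Y 0 ∧ Y (k + 1) = (k + 2) * Y 0 := by
    intro k
    induction k with
    | zero => intro _; exact ⟨by simp, by simp only [zero_add, Nat.cast_zero]; linear_combination -h0⟩
    | succ k ih =>
      intro hk
      obtain ⟨h1, h2⟩ := ih (by omega)
      have h3 := h k (by omega)
      push_cast
      exact ⟨by rw [h2]; ring, by linear_combination 2 * h2 - h1 - h3⟩
  intro k hk
  rcases k with _ | k
  · simp
  · rw [(key k hk).2]; push_cast; ring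

theorem bad_kerB {K : Type} [Field K] (h2 : (2 : K) ≠ 0) (y : Fin (n + 2) → K)
    (hy : ∀ b, ∑ a, y a * (CartanMatrix.B (n + 2) a b : K) = 0) : y = 0 := by
  have h0 := bad_col y _ (hy ⟨0, by omega⟩) 2 (-1) 0 0 0 1 0 0 (fun a => by
    simp only [CartanMatrix.B, Matrix.of_apply, Fin.ext_iff]; grind)
  have hr := bad_rec (badY y) (n + 1) (by push_cast at h0; linear_combination h0) (fun k hk => by
    have h1 := bad_col y _ (hy ⟨k + 1, by omega⟩) (-1) 2 (-1) 0 k (k + 1) (k + 2) 0 (fun a => by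
      simp only [CartanMatrix.B, Matrix.of_apply, Fin.ext_iff]; grind)
    push_cast at h1
    linear_combination h1)
  have h1 := bad_col y _ (hy ⟨n + 1, by omega⟩) (-2) 2 0 0 n (n + 1) 0 0 (fun a => by
    simp only [CartanMatrix.B, Matrix.of_apply, Fin.ext_iff]; grind)
  rw [hr n (by omega), hr (n + 1) le_rfl] at h1
  have h3 : badY y 0 = 0 := by
    refine (mul_eq_zero.1 ?_).resolve_left h2
    push_cast at h1
    linear_combination h1
  funext a
  rw [← badY_val y a, hr a (by omega), h3, mul_zero, Pi.zero_apply]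

theorem bad_kerC {K : Type} [Field K] (h2 : (2 : K) ≠ 0) (y : Fin (n + 3) → K)
    (hy : ∀ b, ∑ a, y a * (CartanMatrix.C (n + 3) a b : K) = 0) : y = 0 := by
  have h0 := bad_col y _ (hy ⟨0, by omega⟩) 2 (-1) 0 0 0 1 0 0 (fun a => by
    simp only [CartanMatrix.C, Matrix.of_apply, Fin.ext_iff]; grind)
  have hr := bad_rec (badY y) (n + 1) (by push_cast at h0; linear_combination h0) (fun k hk => by
    have h1 := bad_col y _ (hy ⟨k + 1, by omega⟩) (-1) 2 (-1) 0 k (k + 1) (k + 2) 0 (fun a => by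
      simp only [CartanMatrix.C, Matrix.of_apply, Fin.ext_iff]; grind)
    push_cast at h1
    linear_combination h1)
  have h1 := bad_col y _ (hy ⟨n + 1, by omega⟩) (-1) 2 (-2) 0 n (n + 1) (n + 2) 0 (fun a => by
    simp only [CartanMatrix.C, Matrix.of_apply, Fin.ext_iff]; grind)
  have h4 := bad_col y _ (hy ⟨n + 2, by omega⟩) (-1) 2 0 0 (n + 1) (n + 2) 0 0 (fun a => by
    simp only [CartanMatrix.C, Matrix.of_apply, Fin.ext_iff]; grind)
  rw [hr n (by omega), hr (n + 1) le_rfl] at h1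
  rw [hr (n + 1) le_rfl] at h4
  push_cast at h1 h4
  have h3 : badY y 0 = 0 := by linear_combination h1 + h4
  have h5 : badY y (n + 2) = 0 := by
    refine (mul_eq_zero.1 ?_).resolve_left h2
    rw [h3] at h4
    linear_combination h4
  funext a
  rw [← badY_val y a, Pi.zero_apply]
  by_cases ha : a.val = n + 2
  · rw [ha, h5]
  · rw [hr a (by omega), h3, mul_zero]

theorem bad_kerD {K : Type} [Field K] (h2 : (2 : K) ≠ 0) (y : Fin (n + 4) → K)
    (hy : ∀ b, ∑ a, y a * (CartanMatrix.D (n + 4) a b : K) = 0) : y = 0 := by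
  have h0 := bad_col y _ (hy ⟨0, by omega⟩) 2 (-1) 0 0 0 1 0 0 (fun a => by
    simp only [CartanMatrix.D, Matrix.of_apply, Fin.ext_iff]; grind)
  have hr := bad_rec (badY y) (n + 1) (by push_cast at h0; linear_combination h0) (fun k hk => by
    have h1 := bad_col y _ (hy ⟨k + 1, by omega⟩) (-1) 2 (-1) 0 k (k + 1) (k + 2) 0 (fun a => by
      simp only [CartanMatrix.D, Matrix.of_apply, Fin.ext_iff]; grind)
    push_cast at h1
    linear_combination h1)
  have h1 := bad_col y _ (hy ⟨n + 1, by omega⟩) (-1) 2 (-1) (-1) n (n + 1) (n + 2) (n + 3)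
    (fun a => by simp only [CartanMatrix.D, Matrix.of_apply, Fin.ext_iff]; grind)
  have h4 := bad_col y _ (hy ⟨n + 2, by omega⟩) (-1) 2 0 0 (n + 1) (n + 2) 0 0 (fun a => by
    simp only [CartanMatrix.D, Matrix.of_apply, Fin.ext_iff]; grind)
  have h6 := bad_col y _ (hy ⟨n + 3, by omega⟩) (-1) 2 0 0 (n + 1) (n + 3) 0 0 (fun a => by
    simp only [CartanMatrix.D, Matrix.of_apply, Fin.ext_iff]; grind)
  rw [hr n (by omega), hr (n + 1) le_rfl] at h1
  rw [hr (n + 1) le_rfl] at h4 h6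
  push_cast at h1 h4 h6
  have h3 : badY y 0 = 0 := by
    refine (mul_eq_zero.1 ?_).resolve_left h2
    linear_combination 2 * h1 + h4 + h6
  have h5 : badY y (n + 2) = 0 := by
    refine (mul_eq_zero.1 ?_).resolve_left h2
    rw [h3] at h4
    linear_combination h4
  have h7 : badY y (n + 3) = 0 := by
    refine (mul_eq_zero.1 ?_).resolve_left h2
    rw [h3] at h6
    linear_combination h6
  funext a
  rw [← badY_val y a, Pi.zero_apply]
  by_cases ha : a.val = n + 2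
  · rw [ha, h5]
  by_cases ha' : a.val = n + 3
  · rw [ha', h7]
  · rw [hr a (by omega), h3, mul_zero]

theorem bad_ker_det {K : Type} [Field K] {m : ℕ} (M : Matrix (Fin m) (Fin m) ℤ)
    (hM : ((M.det : ℤ) : K) ≠ 0) (y : Fin m → K) (hy : ∀ b, ∑ a, y a * (M a b : K) = 0) :
    y = 0 := by
  rw [Int.cast_det] at hM
  exact Matrix.eq_zero_of_vecMul_eq_zero hM (funext hy)

theorem bad_transport {K : Type} [Field K] {m : ℕ} {M : Matrix (Fin m) (Fin m) ℤ}
    (h : IsTyp D.A C M) (hM : ∀ y : Fin m → K, (∀ b, ∑ a, y a * (M a b : K) = 0) → y = 0)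
    (x : C → K) (hx : ∀ j : C, ∑ i : C, x i * (D.A i j : K) = 0) : x = 0 := by
  obtain ⟨e, he, hC, hA⟩ := h
  have hm : ∀ a, e a ∈ C := fun a => hC ▸ Finset.mem_image_of_mem e (Finset.mem_univ a)
  have hs : Function.Surjective fun a => (⟨e a, hm a⟩ : C) := fun i => by
    have hi : i.1 ∈ Finset.univ.image e := hC.symm ▸ i.2
    obtain ⟨a, -, ha⟩ := Finset.mem_image.1 hi
    exact ⟨a, Subtype.ext ha⟩
  have hb : Function.Bijective fun a => (⟨e a, hm a⟩ : C) :=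
    ⟨fun a b hab => he (congrArg Subtype.val hab), hs⟩
  have h0 := hM (fun a => x ⟨e a, hm a⟩) fun b => by
    rw [← hx ⟨e b, hm b⟩]
    exact Fintype.sum_bijective _ hb _ _ fun a => by rw [← hA]
  funext i
  obtain ⟨a, rfl⟩ := hs i
  exact congrFun h0 a

theorem bad_cast_ne (hp : p.Prime) {k : ℕ} (hk : k.Prime) (h : p ≠ k) : ((k : ℕ) : ZMod p) ≠ 0 := by
  rw [Ne, ZMod.natCast_eq_zero_iff]
  exact fun h' => h ((Nat.prime_dvd_prime_iff_eq hp hk).1 h')

theorem Good.ker (hp : p.Prime) (hg : D.Good p)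
    (h : (∃ n, IsTyp D.A C (CartanMatrix.B (n + 2))) ∨ (∃ n, IsTyp D.A C (CartanMatrix.C (n + 3))) ∨
      (∃ n, IsTyp D.A C (CartanMatrix.D (n + 4))) ∨ IsTyp D.A C CartanMatrix.E₆ ∨
      IsTyp D.A C CartanMatrix.E₇ ∨ IsTyp D.A C CartanMatrix.E₈ ∨ IsTyp D.A C CartanMatrix.F₄ ∨
      IsTyp D.A C CartanMatrix.G₂)
    (x : C → ZMod p) (hx : ∀ j : C, ∑ i : C, x i * (D.A i j : ZMod p) = 0) : x = 0 := by
  have := Fact.mk hp
  have h2 : p ≠ 2 → (2 : ZMod p) ≠ 0 := fun h => by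
    exact_mod_cast bad_cast_ne hp Nat.prime_two h
  have h3 : p ≠ 3 → (3 : ZMod p) ≠ 0 := fun h => by
    exact_mod_cast bad_cast_ne hp Nat.prime_three h
  rcases h with ⟨n, h⟩ | ⟨n, h⟩ | ⟨n, h⟩ | h | h | h | h | h
  · exact bad_transport h (bad_kerB (h2 (hg.ne_two_BCD (Or.inl h)))) x hx
  · exact bad_transport h (bad_kerC (h2 (hg.ne_two_BCD (Or.inr (Or.inl h))))) x hx
  · exact bad_transport h (bad_kerD (h2 (hg.ne_two_BCD (Or.inr (Or.inr h))))) x hx
  · have h5 := hg.five_le hp (Or.inl h)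
    refine bad_transport h (bad_ker_det _ ?_) x hx
    rw [CartanMatrix.E₆_det]
    exact_mod_cast h3 (by omega)
  · have h5 := hg.five_le hp (Or.inr (Or.inl h))
    refine bad_transport h (bad_ker_det _ ?_) x hx
    rw [CartanMatrix.E₇_det]
    exact_mod_cast h2 (by omega)
  · refine bad_transport h (bad_ker_det _ ?_) x hx
    rw [CartanMatrix.E₈_det]
    simp
  · refine bad_transport h (bad_ker_det _ ?_) x hx
    rw [CartanMatrix.F₄_det]
    simp
  · refine bad_transport h (bad_ker_det _ ?_) x hx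
    rw [CartanMatrix.G₂_det]
    simp

end RD

end Pool.Agent.P.Bf04
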