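import Pool.Agent.P.MP_bf0464_al.H.SymA

/-! Automorphisms, base change, Harish-Chandra projection. -/

namespace Pool.Agent.P.Bf04

open Matrix Module

attribute [local instance 100] LieRing.ofAssociativeRing

universe u v w

open MvPolynomial

namespace CD

variable (D : CD) {R : Type v} [CommRing R] {R' : Type w} [CommRing R']

/-- the action of an automorphism -/
noncomputable def UA (A : Matrix D.B D.B R) (h : D.IsAut A) : D.U R →ₐ[R] D.U R :=
  UniversalEnvelopingAlgebra.lift R ((UniversalEnvelopingAlgebra.ι R).comp (D.autHom A h))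

theorem UA_ι (A : Matrix D.B D.B R) (h : D.IsAut A) (x : D.g R) :
    D.UA A h (UniversalEnvelopingAlgebra.ι R x) = UniversalEnvelopingAlgebra.ι R (A *ᵥ x : D.g R) :=
  UniversalEnvelopingAlgebra.lift_ι_apply R _ x

theorem sym_lin (x : D.g R) : (D.lin x).IsHomogeneous 1 :=
  IsHomogeneous.sum _ _ _ fun k _ => (isHomogeneous_X R k).C_mul _

theorem sym_sum {M : Type*} [AddCommMonoid M] (w : D.B → M) (s : D.B →₀ ℕ) :
    ((Finsupp.toMultiset s).map w).sum = s.sum fun b n => n • w b := by
  induction s using Finsupp.induction_linear with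
  | zero => simp
  | add f g hf hg =>
    rw [map_add, Multiset.map_add, Multiset.sum_add, hf, hg,
      Finsupp.sum_add_index' (fun b => zero_nsmul (w b)) fun b _ _ => add_nsmul (w b) _ _]
  | single a n => simp [Multiset.map_nsmul, Multiset.sum_nsmul]

theorem sym_word (s : D.B →₀ ℕ) : ∃ l : List D.B, (l : Multiset D.B) = Finsupp.toMultiset s ∧
    l.Pairwise (fun a b => D.blk a ≤ D.blk b) ∧ D.mon R s = D.word R l ∧
      ((l.map X).prod : MvPolynomial D.B R) = monomial s 1 := by
  let := D.ord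
  refine ⟨_, Multiset.sort_eq _ (· ≤ ·), (Multiset.pairwise_sort _ _).imp fun {a b} h => ?_, rfl, ?_⟩
  · exact Prod.Lex.monotone_fst _ _ h
  · rw [symA_prod_X, Multiset.sort_eq, Finsupp.toMultiset_toFinsupp]

theorem sym_pbw (F : MvPolynomial D.B R) : D.pbw R F = ∑ s ∈ F.support, coeff s F • D.mon R s := by
  conv_lhs => rw [F.as_sum, map_sum]
  exact Finset.sum_congr rfl fun s _ => D.pbw_monomial s _

theorem sym_UA_word (A : Matrix D.B D.B R) (hA : D.IsAut A) (l : List D.B) :
    D.UA A hA (D.word R l) - D.pbw R (aeval (fun b => D.lin (A *ᵥ D.bv R b))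
      ((l.map X).prod : MvPolynomial D.B R)) ∈ D.Fil R l.length := by
  have h := D.prod_sub (l.map fun b => A *ᵥ D.bv R b)
  rw [List.length_map, List.map_map, List.map_map] at h
  rw [word, map_list_prod, map_list_prod, List.map_map, List.map_map]
  simpa only [Function.comp_def, ub, UA_ι, aeval_X] using h

theorem Sym.aut {D : CD} {n : ℕ} {z : D.U R} {F : MvPolynomial D.B R} (h : D.Sym n z F)
    (A : Matrix D.B D.B R) (hA : D.IsAut A) :
    D.Sym n (D.UA A hA z) (aeval (fun b => D.lin (A *ᵥ D.bv R b)) F) := by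
  have h1 : ∀ {m : ℕ} {G : MvPolynomial D.B R}, G.IsHomogeneous m →
      (aeval (fun b => D.lin (A *ᵥ D.bv R b)) G).IsHomogeneous m := fun hG => by
    simpa only [one_mul] using hG.aeval _ fun b => D.sym_lin (A *ᵥ D.bv R b)
  have h2 : ∀ x ∈ D.Fil R n, D.UA A hA x ∈ D.Fil R n := by
    refine fun x hx => (Submodule.span_le (p := (D.Fil R n).comap (D.UA A hA).toLinearMap)).2 ?_ hx
    rintro _ ⟨l, hl, rfl⟩
    have h3 : D.pbw R (aeval (fun b => D.lin (A *ᵥ D.bv R b))
        ((l.map X).prod : MvPolynomial D.B R)) ∈ D.Fil R n := by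
      rw [pbw_mem_Fil, symA_prod_X]
      intro s hs
      rw [Finsupp.degree_eq_weight_one]
      exact (h1 (isHomogeneous_monomial _ (D.symA_degree_toFinsupp l))
        (MvPolynomial.mem_support_iff.1 hs)).trans_lt hl
    simpa using add_mem (D.Fil_mono hl.le (D.sym_UA_word A hA l)) h3
  have h3 : D.UA A hA (D.pbw R F) - D.pbw R (aeval (fun b => D.lin (A *ᵥ D.bv R b)) F)
      ∈ D.Fil R n := by
    rw [F.as_sum, map_sum, map_sum, map_sum, map_sum, ← Finset.sum_sub_distrib]
    refine Submodule.sum_mem _ fun s hs => ?_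
    obtain ⟨l, e1, -, e2, e3⟩ := D.sym_word (R := R) s
    have e4 : l.length = n := by
      rw [← Multiset.coe_card, e1, symA_card, Finsupp.degree_eq_weight_one]
      exact h.1 (MvPolynomial.mem_support_iff.1 hs)
    have e5 : monomial s (coeff s F) = coeff s F • (l.map X).prod := by
      rw [e3, smul_monomial, smul_eq_mul, mul_one]
    rw [pbw_monomial, e5, map_smul, map_smul, map_smul, ← smul_sub, e2, ← e4]
    exact Submodule.smul_mem _ _ (D.sym_UA_word A hA l)
  refine ⟨h1 h.1, ?_⟩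
  simpa using add_mem (h2 _ h.2) h3

theorem eval_aut (A : Matrix D.B D.B R) (χ : D.B → R) (F : MvPolynomial D.B R) :
    eval χ (aeval (fun b => D.lin (A *ᵥ D.bv R b)) F) = eval (χ ᵥ* A) F := by
  induction F using MvPolynomial.induction_on with
  | C c => simp
  | add F G hF hG => simp only [map_add, hF, hG]
  | mul_X F b hF =>
    rw [map_mul, map_mul, map_mul, hF, aeval_X, eval_X]
    simp [lin, bv, Matrix.vecMul, dotProduct, mul_comm]

theorem exists_bcU (φ : R →+* R') : ∃ f : D.U R →+* D.U R',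
    (∀ b, f (D.ub R b) = D.ub R' b) ∧ ∀ c, f (algebraMap R _ c) = algebraMap R' _ (φ c) := by
  let : Algebra R (D.U R') := ((algebraMap R' (D.U R')).comp φ).toAlgebra'
    fun c x => Algebra.commutes (φ c) x
  have h : ∀ i j, ⁅D.ub R' i, D.ub R' j⁆ = ∑ k, D.cc i j k • D.ub R' k := fun i j => by
    simp only [ub, ← LieHom.map_lie, lie_bv, map_sum, map_zsmul]
  refine ⟨(UniversalEnvelopingAlgebra.lift R (D.homOf (D.ub R') h)).toRingHom, fun b => ?_,
    fun c => AlgHom.commutes _ c⟩
  exact (UniversalEnvelopingAlgebra.lift_ι_apply R _ _).trans (D.homOf_bv _ h b)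

/-- base change -/
noncomputable def bcU (φ : R →+* R') : D.U R →+* D.U R' := (D.exists_bcU φ).choose

theorem bcU_ub (φ : R →+* R') (b : D.B) : D.bcU φ (D.ub R b) = D.ub R' b :=
  (D.exists_bcU φ).choose_spec.1 b

theorem bcU_algebraMap (φ : R →+* R') (c : R) :
    D.bcU φ (algebraMap R _ c) = algebraMap R' _ (φ c) := (D.exists_bcU φ).choose_spec.2 c

theorem bcU_smul (φ : R →+* R') (c : R) (z : D.U R) : D.bcU φ (c • z) = φ c • D.bcU φ z := by
  rw [Algebra.smul_def, Algebra.smul_def, map_mul, bcU_algebraMap]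

theorem bcU_ι (φ : R →+* R') (x : D.g R) : D.bcU φ (UniversalEnvelopingAlgebra.ι R x)
    = UniversalEnvelopingAlgebra.ι R' (φ ∘ x : D.g R') := by
  simp only [symA_ι_eq, map_sum, bcU_smul, bcU_ub, Function.comp_apply]

theorem bcU_pbw (φ : R →+* R') (F : MvPolynomial D.B R) :
    D.bcU φ (D.pbw R F) = D.pbw R' (map φ F) := by
  induction F using MvPolynomial.induction_on' with
  | monomial s c =>
    rw [map_monomial, pbw_monomial, pbw_monomial, bcU_smul, mon, mon, word, word, map_list_prod,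
      List.map_map]
    simp only [Function.comp_def, bcU_ub]
  | add F G hF hG => simp only [map_add, hF, hG]

theorem bcU_inj {φ : R →+* R'} (h : Function.Injective φ) : Function.Injective (D.bcU φ) := by
  intro z z' e
  obtain ⟨F, rfl⟩ := (D.pbw R).surjective z
  obtain ⟨F', rfl⟩ := (D.pbw R).surjective z'
  rw [bcU_pbw, bcU_pbw] at e
  rw [map_injective φ h ((D.pbw R').injective e)]

theorem bcU_bcU {R'' : Type u} [CommRing R''] (φ : R →+* R') (ψ : R' →+* R'') (z : D.U R) :
    D.bcU ψ (D.bcU φ z) = D.bcU (ψ.comp φ) z := by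
  obtain ⟨F, rfl⟩ := (D.pbw R).surjective z
  rw [bcU_pbw, bcU_pbw, bcU_pbw, MvPolynomial.map_map]

theorem U_ext {A : Type*} [Ring A] {f f' : D.U R →+* A} (h : ∀ b, f (D.ub R b) = f' (D.ub R b))
    (h' : ∀ c, f (algebraMap R _ c) = f' (algebraMap R _ c)) : f = f' := by
  refine RingHom.ext fun z => ?_
  obtain ⟨F, rfl⟩ := (D.pbw R).surjective z
  simp only [sym_pbw, map_sum, Algebra.smul_def, map_mul, h', mon, word, map_list_prod,
    List.map_map, Function.comp_def, h]

theorem Sym.bc {D : CD} {n : ℕ} {z : D.U R} {F : MvPolynomial D.B R} (h : D.Sym n z F)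
    (φ : R →+* R') : D.Sym n (D.bcU φ z) (map φ F) := by
  refine ⟨h.1.map φ, ?_⟩
  obtain ⟨G, hG⟩ := (D.pbw R).surjective (z - D.pbw R F)
  have h1 := h.2
  rw [← hG, pbw_mem_Fil] at h1
  rw [← bcU_pbw, ← map_sub, ← hG, bcU_pbw, pbw_mem_Fil]
  exact fun s hs => h1 s (support_map_subset φ G hs)

/-- restriction of polynomials to the torus -/
noncomputable def res : MvPolynomial D.B R →ₐ[R] MvPolynomial D.σ R := aeval (Sum.elim X 0)

/-- the Harish-Chandra projection -/
noncomputable def hc (z : D.U R) : MvPolynomial D.σ R := D.res ((D.pbw R).symm z)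

theorem hc_bc (φ : R →+* R') (z : D.U R) : D.hc (D.bcU φ z) = map φ (D.hc z) := by
  obtain ⟨F, rfl⟩ := (D.pbw R).surjective z
  rw [bcU_pbw, hc, hc, LinearEquiv.symm_apply_apply, LinearEquiv.symm_apply_apply]
  induction F using MvPolynomial.induction_on with
  | C c => simp [res]
  | add F G hF hG => simp only [map_add, hF, hG]
  | mul_X F b hF =>
    simp only [map_mul, hF, map_X]
    rcases b with a | β <;> simp [res]

theorem Sym.hc {D : CD} {n : ℕ} {z : D.U R} {F : MvPolynomial D.B R} (h : D.Sym n z F) :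
    ∀ s ∈ (D.hc z - D.res F).support, s.degree < n := by
  obtain ⟨G, hG⟩ := (D.pbw R).surjective (z - D.pbw R F)
  have h1 := h.2
  rw [← hG, pbw_mem_Fil] at h1
  have e : D.hc z - D.res F = D.res G := by
    rw [eq_add_of_sub_eq hG.symm, ← map_add, CD.hc, LinearEquiv.symm_apply_apply, map_add,
      add_sub_cancel_right]
  intro s hs
  rw [e, MvPolynomial.mem_support_iff, G.as_sum, map_sum, coeff_sum] at hs
  obtain ⟨t, ht, h2⟩ := Finset.exists_ne_zero_of_sum_ne_zero hs
  have h3 := (isHomogeneous_monomial (coeff t G) (rfl : t.degree = _)).aeval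
    (Sum.elim X 0 : D.B → MvPolynomial D.σ R) (n := 1) (by
      rintro (a | β)
      exacts [isHomogeneous_X R a, isHomogeneous_zero _ _ _]) h2
  rw [Finsupp.degree_eq_weight_one]
  exact (h3.trans (one_mul _)).trans_lt (h1 t ht)

/-- elements of weight zero -/
def W0 (z : D.U R) : Prop :=
  ∀ s ∈ ((D.pbw R).symm z).support, (s.sum fun b n => (n : ℤ) • D.wt b) = 0

/-- central elements -/
def Ctr (z : D.U R) : Prop := ∀ b, Commute z (D.ub R b)

theorem sym_h_word (a : D.σ) (l : List D.B) :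
    D.ub R (.inl a) * D.word R l - D.word R l * D.ub R (.inl a)
      = (l.map (Sum.elim (fun _ => 0) (fun β => D.rt β a))).sum • D.word R l := by
  induction l with
  | nil => simp [word]
  | cons b l ih =>
    have h : D.ub R (.inl a) * D.ub R b - D.ub R b * D.ub R (.inl a)
        = (Sum.elim (fun _ => 0) (fun β => D.rt β a) b : ℤ) • D.ub R b := by
      rw [← LieRing.of_associative_ring_bracket, ub, ub, ← LieHom.map_lie]
      rcases b with a' | β
      · rw [lie_h_h, map_zero, Sum.elim_inl, zero_smul]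
      · rw [lie_h_e, map_smul, Sum.elim_inr, Int.cast_smul_eq_zsmul]
    have e : D.word R (b :: l) = D.ub R b * D.word R l := rfl
    rw [e, List.map_cons, List.sum_cons, add_smul, ← smul_mul_assoc, ← h, ← mul_smul_comm, ← ih]
    noncomm_ring

theorem lie_h_mon (a : D.σ) (s : D.B →₀ ℕ) : D.ub R (.inl a) * D.mon R s - D.mon R s * D.ub R (.inl a)
    = (s.sum fun b n => (n : ℤ) * Sum.elim (fun _ => 0) (fun β => D.rt β a) b) • D.mon R s := by
  obtain ⟨l, e1, -, e2, -⟩ := D.sym_word (R := R) s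
  rw [e2, sym_h_word, ← Multiset.sum_coe, ← Multiset.map_coe, e1, sym_sum]
  simp only [nsmul_eq_mul]

theorem Ctr.w0 {D : CD} [IsAddTorsionFree R] {z : D.U R} (h : D.Ctr z) : D.W0 z := by
  obtain ⟨F, rfl⟩ := (D.pbw R).surjective z
  rw [W0, LinearEquiv.symm_apply_apply]
  intro s hs
  refine D.li _ (funext fun a => ?_)
  let m : (D.B →₀ ℕ) → ℤ := fun s =>
    s.sum fun b n => (n : ℤ) * Sum.elim (fun _ => 0) (fun β => D.rt β a) b
  have h1 : D.pbw R (∑ s ∈ F.support, monomial s (m s • coeff s F)) = 0 := by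
    rw [← sub_eq_zero.2 (h (.inl a)).symm.eq, D.sym_pbw F, Finset.mul_sum, Finset.sum_mul,
      ← Finset.sum_sub_distrib, map_sum]
    refine Finset.sum_congr rfl fun s _ => ?_
    rw [pbw_monomial, mul_smul_comm, smul_mul_assoc, ← smul_sub, lie_h_mon, smul_assoc, smul_comm]
  have h2 := congrArg (coeff s) ((D.pbw R).map_eq_zero_iff.1 h1)
  rw [coeff_sum, Finset.sum_eq_single s (fun t _ ht => by rw [coeff_monomial, if_neg ht])
    (fun h => absurd hs h), coeff_monomial, if_pos rfl, coeff_zero, smul_eq_zero] at h2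
  rw [Pi.zero_apply, ← h2.resolve_right (MvPolynomial.mem_support_iff.1 hs)]
  simp only [m, Finsupp.sum, Finset.sum_apply, Pi.smul_apply, smul_eq_mul, Finset.sum_mul]
  rw [Finset.sum_comm]
  refine Finset.sum_congr rfl fun b _ => ?_
  simp only [mul_assoc, ← Finset.mul_sum]
  congr 1
  rcases b with a' | β
  · simp [RD.wt]
  · simpa [RD.wt, Finset.sum_apply] using (congrFun (D.rt_co β) a).symm

theorem Ctr.bc {D : CD} {z : D.U R} (h : D.Ctr z) (φ : R →+* R') : D.Ctr (D.bcU φ z) :=
  fun b => D.bcU_ub φ b ▸ (h b).map (D.bcU φ)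

theorem W0.bc {D : CD} {z : D.U R} (h : D.W0 z) (φ : R →+* R') : D.W0 (D.bcU φ z) := by
  obtain ⟨F, rfl⟩ := (D.pbw R).surjective z
  rw [W0, LinearEquiv.symm_apply_apply] at h
  rw [bcU_pbw, W0, LinearEquiv.symm_apply_apply]
  exact fun s hs => h s (support_map_subset φ F hs)

theorem sym_wt {s : D.B →₀ ℕ} {l : List D.B} (e : (l : Multiset D.B) = Finsupp.toMultiset s)
    (h : (s.sum fun b n => (n : ℤ) • D.wt b) = 0) : (l.map D.wt).sum = 0 := by
  rw [← Multiset.sum_coe, ← Multiset.map_coe, e, sym_sum, ← h]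
  simp only [natCast_zsmul]

theorem sym_hw {M : Type w} [AddCommGroup M] [Module R M]
    (ρ : D.g R →ₗ⁅R⁆ End R M) {μ : D.σ → R} {v : M} (h1 : ∀ β, D.Pos β → ρ (D.e R β) v = 0)
    (h2 : ∀ a, ρ (D.h R a) v = μ a • v) (l : List D.B)
    (hl : l.Pairwise fun a b => D.blk a ≤ D.blk b) (h0 : (l.map D.wt).sum = 0) :
    UniversalEnvelopingAlgebra.lift R ρ (D.word R l) v = eval μ (D.res (l.map X).prod) • v := by
  have e : ∀ b l, UniversalEnvelopingAlgebra.lift R ρ (D.word R (b :: l)) v
      = ρ (D.bv R b) (UniversalEnvelopingAlgebra.lift R ρ (D.word R l) v) := fun b l => by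
    rw [show D.word R (b :: l) = D.ub R b * D.word R l from rfl, map_mul, ub,
      UniversalEnvelopingAlgebra.lift_ι_apply, Module.End.mul_apply]
  have e0 : UniversalEnvelopingAlgebra.lift R ρ (D.word R []) v = v := by
    rw [symA_word_nil, map_one, Module.End.one_apply]
  have hp : ∀ b, 0 < D.blk b → ∃ β, D.Pos β ∧ b = .inr β := by
    rintro (a | β) hb
    exacts [absurd hb (lt_irrefl _), ⟨β, (D.pos_iff_ht β).2 (Int.sign_pos_iff.1 hb), rfl⟩]
  by_cases hc : ∃ b ∈ l, 0 < D.blk b
  · have h3 : D.res ((l.map X).prod : MvPolynomial D.B R) = 0 := by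
      obtain ⟨b, hb, h4⟩ := hc
      obtain ⟨β, -, rfl⟩ := hp b h4
      rw [map_list_prod]
      exact List.prod_eq_zero (List.mem_map.2 ⟨_, List.mem_map_of_mem hb, aeval_X _ _⟩)
    rw [h3, map_zero, zero_smul]
    clear h0 h3
    induction l with
    | nil => simp at hc
    | cons b l ih =>
      rw [List.pairwise_cons] at hl
      rw [e]
      by_cases h4 : ∃ b ∈ l, 0 < D.blk b
      · rw [ih hl.2 h4, map_zero]
      obtain ⟨b', hb, h5⟩ := hc
      obtain rfl : b' = b := (List.mem_cons.1 hb).resolve_right fun a => h4 ⟨b', a, h5⟩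
      obtain ⟨β, hβ, rfl⟩ := hp b' h5
      obtain rfl : l = [] :=
        List.eq_nil_iff_forall_not_mem.2 fun a ha => h4 ⟨a, ha, h5.trans_le (hl.1 a ha)⟩
      rw [e0, h1 β hβ]
  · have h3 : ∀ b ∈ l, ∃ a, b = .inl a := by
      have h4 : (l.map fun b => -∑ i, D.wt b i).sum = 0 := by
        have := congrArg (fun x : D.Δ → ℤ => -∑ i, x i) h0
        simp only [Pi.zero_apply, Finset.sum_const_zero, neg_zero] at this
        rw [← this]
        clear this h0 hc hl
        induction l with
        | nil => simp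
        | cons b l ih =>
          simp only [List.map_cons, List.sum_cons, ih, Pi.add_apply, Finset.sum_add_distrib, neg_add]
      rintro (a | β) hb
      · exact ⟨a, rfl⟩
      have h5 := List.all_zero_of_le_zero_le_of_sum_eq_zero (fun x hx => ?_) h4
        (List.mem_map_of_mem hb)
      · have h6 := D.pos_iff_ht β
        have h7 := D.pos_iff_ht (D.neg β)
        rw [D.pos_neg_iff, D.ht_neg, show D.ht β = 0 from neg_eq_zero.1 h5] at h7
        rw [show D.ht β = 0 from neg_eq_zero.1 h5] at h6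
        simp [h6] at h7
      · obtain ⟨b, hb, rfl⟩ := List.mem_map.1 hx
        rcases b with a | β
        · simp [RD.wt]
        · exact neg_nonneg.2 (not_lt.1 fun a => hc ⟨_, hb, Int.sign_pos_iff.2 a⟩)
    clear h0 hc hl
    induction l with
    | nil => simpa using e0
    | cons b l ih =>
      obtain ⟨a, rfl⟩ := h3 b List.mem_cons_self
      rw [e, ih fun b hb => h3 b (List.mem_cons_of_mem _ hb), map_smul, h2, smul_smul,
        List.map_cons, List.prod_cons, map_mul, map_mul, mul_comm]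
      simp [res]

/-- the action on a highest weight vector -/
theorem W0.hw {D : CD} {z : D.U R} (h : D.W0 z) {M : Type w} [AddCommGroup M] [Module R M]
    (ρ : D.g R →ₗ⁅R⁆ End R M) {μ : D.σ → R} {v : M} (h1 : ∀ β, D.Pos β → ρ (D.e R β) v = 0)
    (h2 : ∀ a, ρ (D.h R a) v = μ a • v) :
    UniversalEnvelopingAlgebra.lift R ρ z v = eval μ (D.hc z) • v := by
  obtain ⟨F, rfl⟩ := (D.pbw R).surjective z
  rw [W0, LinearEquiv.symm_apply_apply] at h
  rw [CD.hc, LinearEquiv.symm_apply_apply, sym_pbw, map_sum, LinearMap.sum_apply]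
  conv_rhs => rw [F.as_sum, map_sum, map_sum, Finset.sum_smul]
  refine Finset.sum_congr rfl fun s hs => ?_
  obtain ⟨l, e1, e2, e3, e4⟩ := D.sym_word (R := R) s
  have e5 : monomial s (coeff s F) = coeff s F • (l.map X).prod := by
    rw [e4, smul_monomial, smul_eq_mul, mul_one]
  rw [e5, map_smul, map_smul, smul_eval, LinearMap.smul_apply, e3,
    D.sym_hw ρ h1 h2 l e2 (D.sym_wt e1 (h s hs)), mul_smul]

theorem W0.exists_free {D : CD} {z : D.U ℤ} (h : D.W0 z) :
    ∃ z' ∈ D.wt0, FreeAlgebra.lift ℤ (D.ub ℤ) z' = z := by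
  obtain ⟨F, rfl⟩ := (D.pbw ℤ).surjective z
  rw [W0, LinearEquiv.symm_apply_apply] at h
  rw [sym_pbw]
  refine (D.wt0.map (FreeAlgebra.lift ℤ (D.ub ℤ)).toLinearMap).sum_mem fun s hs =>
    Submodule.smul_mem _ _ ?_
  obtain ⟨l, e1, -, e3, -⟩ := D.sym_word (R := ℤ) s
  refine ⟨_, Submodule.subset_span ⟨l, D.sym_wt e1 (h s hs), rfl⟩, ?_⟩
  rw [e3, word, AlgHom.toLinearMap_apply, map_list_prod, List.map_map]
  simp only [Function.comp_def, FreeAlgebra.lift_ι_apply]

end CD

end Pool.Agent.P.Bf04
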