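import Pool.Agent.P.MP_bf0464_al.H.Dens
import Pool.Agent.P.MP_bf0464_al.H.Sym

/-! Central elements over the integers are invariant; saturation. -/

namespace Pool.Agent.P.Bf04

open Matrix Module

attribute [local instance 100] LieRing.ofAssociativeRing

universe u v w

open MvPolynomial

namespace CD

variable (D : CD)

section Aux

variable {R : Type v} [CommRing R] {R' : Type w} [CommRing R']

theorem inv_UA_one (h : D.IsAut (1 : Matrix D.B D.B R)) (u : D.U R) : D.UA 1 h u = u := by
  have : (D.UA 1 h : D.U R →+* D.U R) = RingHom.id _ := by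
    refine D.U_ext (fun b => ?_) (fun c => ?_)
    · change D.UA 1 h (D.ub R b) = D.ub R b
      rw [ub, UA_ι, Matrix.one_mulVec]
    · exact (D.UA 1 h).commutes c
  exact DFunLike.congr_fun this u

theorem inv_UA_mul {A A' : Matrix D.B D.B R} (h : D.IsAut A) (h' : D.IsAut A')
    (h'' : D.IsAut (A * A')) (u : D.U R) : D.UA (A * A') h'' u = D.UA A h (D.UA A' h' u) := by
  have : (D.UA (A * A') h'' : D.U R →+* D.U R)
      = (D.UA A h : D.U R →+* D.U R).comp (D.UA A' h' : D.U R →+* D.U R) := by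
    refine D.U_ext (fun b => ?_) (fun c => ?_)
    · change D.UA (A * A') h'' (D.ub R b) = D.UA A h (D.UA A' h' (D.ub R b))
      rw [ub, UA_ι, UA_ι, UA_ι, Matrix.mulVec_mulVec]
    · change D.UA (A * A') h'' (algebraMap R _ c) = D.UA A h (D.UA A' h' (algebraMap R _ c))
      rw [AlgHom.commutes, AlgHom.commutes, AlgHom.commutes]
  exact DFunLike.congr_fun this u

theorem inv_UA_congr {A A' : Matrix D.B D.B R} (e : A = A') (h : D.IsAut A) (h' : D.IsAut A')
    (u : D.U R) : D.UA A h u = D.UA A' h' u := by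
  subst e; rfl

theorem inv_bcU_UA (φ : R →+* R') {A : Matrix D.B D.B R} (h : D.IsAut A) (u : D.U R) :
    D.bcU φ (D.UA A h u) = D.UA (A.map φ) (h.map φ) (D.bcU φ u) := by
  have : (D.bcU φ).comp (D.UA A h : D.U R →+* D.U R)
      = (D.UA (A.map φ) (h.map φ) : D.U R' →+* D.U R').comp (D.bcU φ) := by
    refine D.U_ext (fun b => ?_) (fun c => ?_)
    · change D.bcU φ (D.UA A h (D.ub R b)) = D.UA (A.map φ) (h.map φ) (D.bcU φ (D.ub R b))
      rw [bcU_ub, ub, ub, UA_ι, UA_ι, bcU_ι]
      congr 1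
      funext k
      rw [← D.map_bv φ b]
      exact RingHom.map_mulVec φ A (D.bv R b) k
    · change D.bcU φ (D.UA A h (algebraMap R _ c))
        = D.UA (A.map φ) (h.map φ) (D.bcU φ (algebraMap R _ c))
      rw [AlgHom.commutes, bcU_algebraMap, AlgHom.commutes]
  exact DFunLike.congr_fun this u

theorem inv_tM_ub (u : D.Δ → Rˣ) (h : D.IsAut (D.tM u)) (b : D.B) :
    D.UA (D.tM u) h (D.ub R b) = (D.chr u (D.wt b) : R) • D.ub R b := by
  rw [ub, UA_ι, ← map_smul]
  congr 1
  funext k
  simp only [RD.tM, Matrix.mulVec_diagonal, bv, Pi.smul_apply, smul_eq_mul]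
  by_cases hk : k = b
  · subst hk; rfl
  · simp [Pi.single_eq_of_ne hk]

theorem inv_tM_word (u : D.Δ → Rˣ) (h : D.IsAut (D.tM u)) (l : List D.B) :
    D.UA (D.tM u) h (l.map (D.ub R)).prod
      = (D.chr u (l.map D.wt).sum : R) • (l.map (D.ub R)).prod := by
  induction l with
  | nil => simp [RD.chr_zero]
  | cons b l ih =>
    simp only [List.map_cons, List.prod_cons, List.sum_cons, map_mul, ih, inv_tM_ub, RD.chr_add,
      Units.val_mul, smul_mul_smul_comm]

theorem inv_tM {z : D.U ℤ} (hz : D.Ctr z) (u : D.Δ → Rˣ) (h : D.IsAut (D.tM u)) :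
    D.UA (D.tM u) h (D.bcU (Int.castRingHom R) z) = D.bcU (Int.castRingHom R) z := by
  obtain ⟨z', hz', rfl⟩ := hz.w0.exists_free
  clear hz
  induction hz' using Submodule.span_induction with
  | mem x hx =>
    obtain ⟨l, hl, rfl⟩ := hx
    have e : D.bcU (Int.castRingHom R)
        (FreeAlgebra.lift ℤ (D.ub ℤ) (l.map (FreeAlgebra.ι ℤ)).prod) = (l.map (D.ub R)).prod := by
      rw [map_list_prod, map_list_prod, List.map_map, List.map_map]
      congr 1
      refine List.map_congr_left fun b _ => ?_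
      simp [bcU_ub]
    rw [e, inv_tM_word, hl, RD.chr_zero, Units.val_one, one_smul]
  | zero => simp
  | add x y _ _ hx hy => simp only [map_add, hx, hy]
  | smul a x _ hx => simp only [map_zsmul, hx]

theorem inv_xM_eps (α : D.ι) {t : R} (ht : t ^ 2 = 0) (x : D.g R) :
    D.xM α t *ᵥ x = x + t • ⁅D.e R α, x⁆ := by
  have h3 : t ^ 3 = 0 := by rw [pow_succ, ht, zero_mul]
  rw [D.lie_adM, xM]
  simp only [Finset.sum_range_succ, Finset.range_zero, Finset.sum_empty, zero_add, ht, h3,
    zero_smul, add_zero, pow_zero, one_smul, pow_one, dp_zero, dp_one, Matrix.add_mulVec,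
    Matrix.smul_mulVec]
  congr 1
  rw [Matrix.map_one _ (by simp) (by simp), Matrix.one_mulVec]

theorem inv_conj (α : D.ι) {t : R} (ht : t ^ 2 = 0) (h : D.IsAut (D.xM α t)) (u : D.U R) :
    D.UA (D.xM α t) h u * (1 + t • D.ub R (.inr α)) = (1 + t • D.ub R (.inr α)) * u := by
  have hb : ∀ b, D.UA (D.xM α t) h (D.ub R b) * (1 + t • D.ub R (.inr α))
      = (1 + t • D.ub R (.inr α)) * D.ub R b := by
    intro b
    have e : D.UA (D.xM α t) h (D.ub R b) = D.ub R b
        + t • (D.ub R (.inr α) * D.ub R b - D.ub R b * D.ub R (.inr α)) := by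
      rw [ub, UA_ι, inv_xM_eps D α ht, map_add, map_smul, LieHom.map_lie]
      rfl
    have h2 : t * t = 0 := by rw [← pow_two, ht]
    rw [e]
    simp only [add_mul, mul_add, mul_one, one_mul, smul_mul_assoc, mul_smul_comm, smul_smul, h2,
      zero_smul, smul_sub, smul_add, sub_mul]
    abel
  obtain ⟨n, hn⟩ := D.exists_Fil u
  induction hn using Submodule.span_induction with
  | mem x hx =>
    obtain ⟨l, -, rfl⟩ := hx
    induction l with
    | nil => simp [word]
    | cons b l ih =>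
      simp only [word, List.map_cons, List.prod_cons, map_mul] at ih ⊢
      rw [mul_assoc, ih, ← mul_assoc, hb, mul_assoc]
  | zero => simp
  | add x y _ _ hx hy => rw [map_add, add_mul, hx, hy, mul_add]
  | smul a x _ hx => rw [map_smul, smul_mul_assoc, hx, mul_smul_comm]

theorem inv_eps (α : D.ι) {t : R} (ht : t ^ 2 = 0) (h : D.IsAut (D.xM α t)) {z : D.U R}
    (hz : D.Ctr z) : D.UA (D.xM α t) h z = z := by
  have h2 : t * t = 0 := by rw [← pow_two, ht]
  have hu : (1 + t • D.ub R (.inr α)) * (1 - t • D.ub R (.inr α)) = 1 := by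
    simp only [add_mul, mul_sub, mul_one, one_mul, smul_mul_assoc, mul_smul_comm, smul_smul, h2,
      zero_smul, smul_add, add_zero]
    abel
  have hc : (1 + t • D.ub R (.inr α)) * z = z * (1 + t • D.ub R (.inr α)) := by
    rw [add_mul, mul_add, one_mul, mul_one, smul_mul_assoc, mul_smul_comm, (hz _).eq]
  have := D.inv_conj α ht h z
  rw [hc] at this
  calc D.UA (D.xM α t) h z
      = D.UA (D.xM α t) h z * ((1 + t • D.ub R (.inr α)) * (1 - t • D.ub R (.inr α))) := by
        rw [hu, mul_one]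
    _ = z * ((1 + t • D.ub R (.inr α)) * (1 - t • D.ub R (.inr α))) := by
        rw [← mul_assoc, this, mul_assoc]
    _ = z := by rw [hu, mul_one]

theorem inv_const {c : Polynomial ℤ}
    (h : Polynomial.aeval (TrivSqZeroExt.inl Polynomial.X + DualNumber.eps
        : DualNumber (Polynomial ℤ)) c
      = Polynomial.aeval (TrivSqZeroExt.inl Polynomial.X : DualNumber (Polynomial ℤ)) c) :
    c = Polynomial.C (c.coeff 0) := by
  rw [Polynomial.aeval_add_of_sq_eq_zero _ _ _ (by rw [pow_two, DualNumber.eps_mul_eps]),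
    add_eq_left] at h
  have e : ∀ q : Polynomial ℤ,
      Polynomial.aeval (TrivSqZeroExt.inl Polynomial.X : DualNumber (Polynomial ℤ)) q
        = TrivSqZeroExt.inl q := by
    intro q
    have := Polynomial.aeval_algHom_apply
      (TrivSqZeroExt.inlAlgHom ℤ (Polynomial ℤ) (Polynomial ℤ)) Polynomial.X q
    simpa using this
  rw [e] at h
  have h2 := congrArg TrivSqZeroExt.snd h
  simp only [DualNumber.snd_mul, TrivSqZeroExt.fst_inl, DualNumber.snd_eps, mul_one,
    TrivSqZeroExt.snd_inl, zero_mul, add_zero, TrivSqZeroExt.snd_zero] at h2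
  exact Polynomial.eq_C_of_natDegree_eq_zero (Polynomial.derivative_eq_zero.1 h2)

theorem inv_bc_int (φ : R →+* R') (z : D.U ℤ) :
    D.bcU φ (D.bcU (Int.castRingHom R) z) = D.bcU (Int.castRingHom R') z := by
  rw [bcU_bcU]
  congr 2
  exact RingHom.ext_int _ _

theorem inv_bc_xM (φ : R →+* R') (α : D.ι) (t : R) (z : D.U ℤ) :
    D.bcU φ (D.UA (D.xM α t) (D.xM_aut α t) (D.bcU (Int.castRingHom R) z))
      = D.UA (D.xM α (φ t)) (D.xM_aut α _) (D.bcU (Int.castRingHom R') z) := by
  rw [inv_bcU_UA, inv_bc_int]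
  exact D.inv_UA_congr (D.xM_map φ α t) _ _ _

theorem inv_xM {z : D.U ℤ} (hz : D.Ctr z) (α : D.ι) (t : R) (h : D.IsAut (D.xM α t)) :
    D.UA (D.xM α t) h (D.bcU (Int.castRingHom R) z) = D.bcU (Int.castRingHom R) z := by
  obtain ⟨F, hF⟩ := (D.pbw (Polynomial ℤ)).surjective
    (D.UA (D.xM α Polynomial.X) (D.xM_aut α _) (D.bcU (Int.castRingHom _) z))
  have key : ∀ {S : Type} [CommRing S] (φ : Polynomial ℤ →+* S), D.pbw S (map φ F)
      = D.UA (D.xM α (φ Polynomial.X)) (D.xM_aut α _) (D.bcU (Int.castRingHom S) z) := by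
    intro S _ φ
    rw [← bcU_pbw, hF, inv_bc_xM]
  have h1 : map (Polynomial.aeval (TrivSqZeroExt.inl Polynomial.X + DualNumber.eps
        : DualNumber (Polynomial ℤ)) : Polynomial ℤ →ₐ[ℤ] _).toRingHom F
      = map (Polynomial.aeval (TrivSqZeroExt.inl Polynomial.X : DualNumber (Polynomial ℤ))
        : Polynomial ℤ →ₐ[ℤ] _).toRingHom F := by
    apply (D.pbw _).injective
    rw [key, key]
    simp only [AlgHom.toRingHom_eq_coe, RingHom.coe_coe, Polynomial.aeval_X]
    rw [D.inv_UA_congr (D.xM_add α _ _) _ ((D.xM_aut α _).mul (D.xM_aut α _)),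
      D.inv_UA_mul (D.xM_aut α _) (D.xM_aut α _),
      D.inv_eps α (by rw [pow_two, DualNumber.eps_mul_eps]) _ (hz.bc _)]
  have h2 : ∀ s, coeff s F = Polynomial.C ((coeff s F).coeff 0) := by
    intro s
    apply inv_const
    have := congrArg (coeff s) h1
    rw [coeff_map, coeff_map] at this
    exact this
  have h3 : map (Polynomial.aeval t : Polynomial ℤ →ₐ[ℤ] R).toRingHom F
      = map (Polynomial.aeval (0 : R) : Polynomial ℤ →ₐ[ℤ] R).toRingHom F := by
    ext s
    rw [coeff_map, coeff_map, h2 s]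
    simp
  have key' : ∀ s : R, D.pbw R (map (Polynomial.aeval s : Polynomial ℤ →ₐ[ℤ] R).toRingHom F)
        = D.UA (D.xM α s) (D.xM_aut α _) (D.bcU (Int.castRingHom R) z) := by
    intro s
    rw [← bcU_pbw, hF, inv_bc_xM]
    exact D.inv_UA_congr (by simp) _ _ _
  rw [← key' t, h3, key' 0, D.inv_UA_congr (D.xM_zero α) _ D.isAut_one, inv_UA_one]

end Aux

theorem Ctr.inv {D : CD} {z : D.U ℤ} (h : D.Ctr z) {R : Type v} [CommRing R]
    {A : Matrix D.B D.B R} (hA : A ∈ D.G R) (h' : D.IsAut A) :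
    D.UA A h' (D.bcU (Int.castRingHom R) z) = D.bcU (Int.castRingHom R) z := by
  revert h'
  refine GS_induction (P := fun A => ∀ h' : D.IsAut A,
    D.UA A h' (D.bcU (Int.castRingHom R) z) = D.bcU (Int.castRingHom R) z) ?_ ?_ ?_ hA
  · intro h'
    exact D.inv_UA_one h' _
  · intro A hA ih α _ t h'
    rw [D.inv_UA_mul (GS_aut hA) (D.xM_aut α t), D.inv_xM h, ih]
  · intro A hA ih u h'
    rw [D.inv_UA_mul (GS_aut hA) (D.tM_aut u), D.inv_tM h, ih]

theorem hc_inj {k : Type} [Field k] [PerfectField k] {z : D.U k}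
    (h : ∀ (A : Matrix D.B D.B (MvPolynomial D.B k)) (_ : A ∈ D.G _) (h' : D.IsAut A),
      D.UA A h' (D.bcU C z) = D.bcU C z) (h0 : D.hc z = 0) : z = 0 := by
  have step : ∀ n, z ∈ D.Fil k (n + 1) → z ∈ D.Fil k n := by
    intro n hn
    obtain ⟨F, hF⟩ := D.exists_sym hn
    have hA := D.genA_mem k
    have h1 := (hF.bc (C : k →+* MvPolynomial D.B k)).aut (D.genA k) (GS_aut hA)
    rw [h _ hA] at h1
    have h2 := h1.unique (hF.bc C)
    have h3 := congrArg (eval (D.genψ k)) h2
    rw [eval_aut, eval_map, eval_map] at h3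
    have hres : D.res F = 0 := by
      have hh : (D.res F).IsHomogeneous (1 * n) := by
        refine hF.1.aeval _ ?_
        rintro (a | β)
        · exact isHomogeneous_X _ _
        · exact isHomogeneous_zero _ _ _
      rw [one_mul] at hh
      ext s
      by_contra hs
      have hs' : s ∈ (D.hc z - D.res F).support := by
        rw [h0, zero_sub, support_neg, MvPolynomial.mem_support_iff]
        simpa using hs
      have := hF.hc s hs'
      exact hs (by simpa using hh.coeff_eq_zero this.ne)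
    have h4 : aeval (D.genψ k) F = rename Sum.inl (D.res F) := by
      have : (aeval (D.genψ k) : MvPolynomial D.B k →ₐ[k] MvPolynomial D.B k)
          = (rename Sum.inl).comp D.res := by
        refine algHom_ext ?_
        rintro (a | β) <;> simp [res, genψ]
      exact DFunLike.congr_fun this F
    have h5 : aeval (D.genψ k ᵥ* D.genA k) F = 0 := by
      have : aeval (D.genψ k ᵥ* D.genA k) F = aeval (D.genψ k) F := h3
      rw [this, h4, hres, map_zero]
    have h6 : F = 0 := (algebraicIndependent_iff.1 (D.gen_indep k)) F h5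
    have h7 := hF.2
    rwa [h6, map_zero, sub_zero] at h7
  obtain ⟨n, hn⟩ := D.exists_Fil z
  induction n with
  | zero => rwa [Fil_zero, Submodule.mem_bot] at hn
  | succ n ih => exact ih (step n hn)

theorem sat {z : D.U ℤ} (h : D.Ctr z) {p : ℕ} (hp : p.Prime) {f : MvPolynomial D.σ ℤ}
    (hf : D.hc z = (p : ℤ) • f) : ∃ z' : D.U ℤ, D.Ctr z' ∧ D.hc z' = f := by
  have := Fact.mk hp
  have h1 : D.bcU (Int.castRingHom (ZMod p)) z = 0 := by
    refine D.hc_inj (fun A hA h' => ?_) ?_
    · rw [inv_bc_int]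
      exact h.inv hA h'
    · rw [hc_bc, hf, map_zsmul, natCast_zsmul, nsmul_eq_mul, CharP.cast_eq_zero, zero_mul]
  obtain ⟨F, rfl⟩ := (D.pbw ℤ).surjective z
  rw [bcU_pbw, LinearEquiv.map_eq_zero_iff, ← C_dvd_iff_zmod] at h1
  obtain ⟨F', rfl⟩ := h1
  have hp0 : (p : ℤ) ≠ 0 := by exact_mod_cast hp.ne_zero
  have tf : ∀ u : D.U ℤ, (p : ℤ) • u = 0 → u = 0 := by
    intro u hu
    have := congrArg (D.pbw ℤ).symm hu
    rw [map_smul, map_zero, smul_eq_zero] at this
    exact (LinearEquiv.map_eq_zero_iff _).1 (this.resolve_left hp0)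
  rw [C_mul', map_smul] at h hf
  refine ⟨D.pbw ℤ F', fun b => ?_, ?_⟩
  · have := (h b).eq
    rw [smul_mul_assoc, mul_smul_comm, ← sub_eq_zero, ← smul_sub] at this
    exact sub_eq_zero.1 (tf _ this)
  · rw [hc, map_smul, map_smul] at hf
    exact smul_right_injective _ hp0 hf

end CD

end Pool.Agent.P.Bf04
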