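import Pool.Agent.P.MP_bf0464_al.H.HC
import Pool.Agent.P.MP_bf0464_al.H.Inv
import Pool.Agent.P.MP_bf0464_al.H.Weyl

/-! Invariant central elements separate the linkage classes. -/

namespace Pool.Agent.P.Bf04

open Matrix Module

attribute [local instance 100] LieRing.ofAssociativeRing

universe u v w

open MvPolynomial

theorem cen_clear {τ : Type} (F : MvPolynomial τ ℚ) :
    ∃ (m : ℤ) (G : MvPolynomial τ ℤ), m ≠ 0 ∧ map (Int.castRingHom ℚ) G = (m : ℚ) • F := by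
  induction F using MvPolynomial.induction_on' with
  | monomial s c =>
    refine ⟨c.den, monomial s c.num, by exact_mod_cast c.den_nz, ?_⟩
    rw [map_monomial, smul_monomial]
    congr 1
    simp [Rat.den_mul_eq_num]
  | add F₁ F₂ h₁ h₂ =>
    obtain ⟨m₁, G₁, hm₁, h₁⟩ := h₁
    obtain ⟨m₂, G₂, hm₂, h₂⟩ := h₂
    refine ⟨m₁ * m₂, C m₂ * G₁ + C m₁ * G₂, mul_ne_zero hm₁ hm₂, ?_⟩
    rw [map_add, map_mul, map_mul, h₁, h₂, map_C, map_C, C_mul', C_mul', smul_smul, smul_smul,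
      smul_add]
    simp [mul_comm]

namespace CD

variable (D : CD)

theorem cen_hc_smul {R : Type v} [CommRing R] (c : R) (z : D.U R) :
    D.hc (c • z) = c • D.hc z := by
  simp [hc]

theorem cen_dotInv_map {f : MvPolynomial D.σ ℤ} (h : D.DotInv f) :
    D.DotInv (map (Int.castRingHom ℚ) f) := fun i μ => by
  have h1 := congrArg (Int.castRingHom ℚ) (h i μ)
  rw [map_eval, map_eval] at h1
  exact h1

theorem cen_map_smul (m : ℤ) (f : MvPolynomial D.σ ℤ) :
    map (Int.castRingHom ℚ) (m • f) = (m : ℚ) • map (Int.castRingHom ℚ) f := by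
  rw [← C_mul', ← C_mul', map_mul, map_C]; rfl

theorem cen_exists_ne {f : MvPolynomial D.σ ℤ} (h : D.DotInv f) :
    ∃ (m : ℤ) (z : D.U ℤ), m ≠ 0 ∧ D.Ctr z ∧ D.hc z = m • f := by
  obtain ⟨z, hz, hf⟩ := D.hc_surj (D.cen_dotInv_map h)
  obtain ⟨m, G, hm, hG⟩ := cen_clear ((D.pbw ℚ).symm z)
  have hinj : Function.Injective (Int.castRingHom ℚ) := Int.cast_injective
  have hb : D.bcU (Int.castRingHom ℚ) (D.pbw ℤ G) = (m : ℚ) • z := by
    rw [bcU_pbw, hG, map_smul, LinearEquiv.apply_symm_apply]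
  refine ⟨m, D.pbw ℤ G, hm, fun b => ?_, ?_⟩
  · apply D.bcU_inj hinj
    rw [map_mul, map_mul, hb, bcU_ub]
    exact ((hz b).smul_left _).eq
  · apply map_injective _ hinj
    rw [← hc_bc, hb, cen_hc_smul, hf, cen_map_smul]

theorem exists_int {f : MvPolynomial D.σ ℤ} (h : D.DotInv f) {p : ℕ} (hp : p.Prime) :
    ∃ (m : ℤ) (z : D.U ℤ), ¬ (p : ℤ) ∣ m ∧ D.Ctr z ∧ D.hc z = m • f := by
  have key : ∀ (n : ℕ) (m : ℤ) (z : D.U ℤ), m.natAbs = n → m ≠ 0 → D.Ctr z → D.hc z = m • f →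
      ∃ (m : ℤ) (z : D.U ℤ), ¬ (p : ℤ) ∣ m ∧ D.Ctr z ∧ D.hc z = m • f := by
    intro n
    induction n using Nat.strong_induction_on with
    | _ n ih =>
      intro m z hn hm hz hf
      by_cases hd : (p : ℤ) ∣ m
      · obtain ⟨m', rfl⟩ := hd
        have hm' : m' ≠ 0 := right_ne_zero_of_mul hm
        obtain ⟨z', hz', hf'⟩ := D.sat hz hp (f := m' • f) (by rw [hf, mul_smul])
        refine ih m'.natAbs ?_ m' z' rfl hm' hz' hf'
        rw [← hn, Int.natAbs_mul, Int.natAbs_natCast]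
        have := Int.natAbs_pos.2 hm'
        have := hp.two_le
        nlinarith
      · exact ⟨m, z, hd, hz, hf⟩
  obtain ⟨m, z, hm, hz, hf⟩ := D.cen_exists_ne h
  exact key _ m z rfl hm hz hf

theorem cen_poly (w : D.W) : ∃ P : D.σ → MvPolynomial D.σ ℤ,
    ∀ μ a, eval μ (P a) = (w : Equiv.Perm (D.σ → ℤ)) μ a := by
  obtain ⟨l, hl⟩ := D.mem_W.1 w.2
  rw [hl]
  clear hl
  induction l with
  | nil => exact ⟨X, fun μ a => by simp⟩
  | cons i l ih =>
    obtain ⟨P, hP⟩ := ih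
    refine ⟨fun a => P a - (∑ b, P b * C (D.cr (D.s i) b) + 1) * C (D.rt (D.s i) a),
      fun μ a => ?_⟩
    simp [hP, RD.dot_apply, RD.dotf, dotProduct]

theorem exists_sep {p : ℕ} (hp : p.Prime) {μ ν : D.σ → ℤ} (h : ¬ D.Link p μ ν) :
    ∃ f : MvPolynomial D.σ ℤ, D.DotInv f ∧ ¬ (p : ℤ) ∣ eval μ f - eval ν f := by
  classical
  have := Fact.mk hp
  have := Fintype.ofFinite D.W
  choose P hP using D.cen_poly
  let g : (D.σ → ℤ) → ℤ := fun x => 1 - ∏ a, (1 - (x a - μ a) ^ (p - 1))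
  let f : MvPolynomial D.σ ℤ := ∏ w : D.W, (1 - ∏ a, (1 - (P w a - C (μ a)) ^ (p - 1)))
  have hf : ∀ x, eval x f = ∏ w : D.W, g ((w : Equiv.Perm (D.σ → ℤ)) x) := fun x => by
    simp [f, g, hP]
  have hp1 : p - 1 ≠ 0 := by have := hp.two_le; omega
  refine ⟨f, fun i x => ?_, ?_⟩
  · simp only [Int.cast_id]
    rw [hf, hf]
    refine Fintype.prod_equiv (Equiv.mulRight ⟨D.dot i, D.dot_mem i⟩) _ _ fun w => ?_
    rw [Equiv.coe_mulRight, Subgroup.coe_mul, Equiv.Perm.mul_apply, RD.dot_apply]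
  · have h0 : eval μ f = 0 := by
      rw [hf]
      refine Finset.prod_eq_zero (Finset.mem_univ 1) ?_
      simp [g, hp1]
    have h1 : ((eval ν f : ℤ) : ZMod p) = 1 := by
      rw [hf, Int.cast_prod]
      refine Finset.prod_eq_one fun w _ => ?_
      have h2 : ¬ ∀ a, (p : ℤ) ∣ (w : Equiv.Perm (D.σ → ℤ)) ν a - μ a := fun h2 =>
        h (RD.Link.symm ⟨w, w.2, h2⟩)
      obtain ⟨a, ha⟩ := not_forall.1 h2
      rw [← ZMod.intCast_zmod_eq_zero_iff_dvd] at ha
      have h3 := ZMod.pow_card_sub_one_eq_one ha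
      simp only [g]
      push_cast at h3 ⊢
      rw [Finset.prod_eq_zero (Finset.mem_univ a) (by rw [h3, sub_self]), sub_zero]
    rw [h0, zero_sub, dvd_neg, ← ZMod.intCast_zmod_eq_zero_iff_dvd, h1]
    exact one_ne_zero

theorem cen_ev {K : Type u} [Field K] (S : LRep K (D.g K)) (y : FreeAlgebra ℤ D.B) :
    D.ev S y = UniversalEnvelopingAlgebra.lift K S.ρ
      (D.bcU (Int.castRingHom K) (FreeAlgebra.lift ℤ (D.ub ℤ) y)) := by
  induction y using FreeAlgebra.induction with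
  | grade0 r => simp
  | grade1 b =>
    rw [FreeAlgebra.lift_ι_apply, bcU_ub, ub, UniversalEnvelopingAlgebra.lift_ι_apply, ev,
      FreeAlgebra.lift_ι_apply]
  | mul a b ha hb => simp only [map_mul, ha, hb]
  | add a b ha hb => simp only [map_add, ha, hb]

theorem cen_lift_UA {K : Type u} [Field K] (S : LRep K (D.g K)) (A : Matrix D.B D.B K)
    (h : D.IsAut A) (y : D.U K) :
    UniversalEnvelopingAlgebra.lift K (S.ρ.comp (D.autHom A h)) y
      = UniversalEnvelopingAlgebra.lift K S.ρ (D.UA A h y) := by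
  have h1 : UniversalEnvelopingAlgebra.lift K (S.ρ.comp (D.autHom A h))
      = (UniversalEnvelopingAlgebra.lift K S.ρ).comp (D.UA A h) := by
    apply UniversalEnvelopingAlgebra.hom_ext
    ext1 x
    simp only [LieHom.comp_apply, AlgHom.toLieHom_apply, AlgHom.comp_apply, UA_ι,
      UniversalEnvelopingAlgebra.lift_ι_apply]
    rfl
  rw [h1]; rfl

theorem cen_comm {K : Type u} [Field K] {y : D.U K} (h : D.Ctr y) (x : D.g K) :
    Commute y (UniversalEnvelopingAlgebra.ι K x) := by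
  have hx : x = ∑ b, x b • D.bv K b := by
    funext k; simp [bv, Finset.sum_apply, Pi.single_apply]
  rw [hx, map_sum]
  refine Commute.sum_right _ _ _ fun b _ => ?_
  rw [map_smul]
  exact (h b).smul_right _

theorem cen_of_ctr {z : D.U ℤ} (h : D.Ctr z) : ∃ z', Cen.{u} D z' (D.hc z) := by
  obtain ⟨z', hz', rfl⟩ := h.w0.exists_free
  refine ⟨z', hz', fun K _ S x => ?_, fun K _ S A hA hA' => ?_, fun K _ S μ v hv => ?_,
    fun i μ => ?_⟩
  · have h1 := (D.cen_comm (h.bc (Int.castRingHom K)) x).map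
      (UniversalEnvelopingAlgebra.lift K S.ρ)
    rwa [UniversalEnvelopingAlgebra.lift_ι_apply, ← cen_ev] at h1
  · rw [cen_ev, cen_ev]
    exact (D.cen_lift_UA S A hA' _).trans (by rw [h.inv hA hA'])
  · rw [cen_ev, (h.w0.bc (Int.castRingHom K)).hw S.ρ hv.1 hv.2, hc_bc, eval_map, aeval_def]
    rfl
  · have h1 := D.hc_inv (h.bc (Int.castRingHom ℚ)) i μ
    rw [hc_bc] at h1
    have hinj : Function.Injective (Int.castRingHom ℚ) := Int.cast_injective
    apply hinj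
    rw [map_eval, map_eval]
    exact h1

theorem Cen.link {D : CD} {z : FreeAlgebra ℤ D.B} {f : MvPolynomial D.σ ℤ} (h : Cen.{u} D z f)
    {p : ℕ} {μ ν : D.σ → ℤ} (hl : D.Link p μ ν) : (p : ℤ) ∣ eval μ f - eval ν f := by
  refine RD.Link.induction (P := fun ν => (p : ℤ) ∣ eval μ f - eval ν f) (by simp)
    (fun ν ν' h1 h2 => ?_) (fun i ν h2 => by rwa [h.winv]) hl
  have h3 : (p : ℤ) ∣ eval ν f - eval ν' f := by
    rw [← ZMod.intCast_zmod_eq_zero_iff_dvd, Int.cast_sub, sub_eq_zero]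
    have h4 : (Int.castRingHom (ZMod p)) ∘ ν = (Int.castRingHom (ZMod p)) ∘ ν' := by
      funext a
      have h5 := (ZMod.intCast_zmod_eq_zero_iff_dvd _ p).2 (h1 a)
      rwa [Int.cast_sub, sub_eq_zero] at h5
    have h6 := map_eval (Int.castRingHom (ZMod p)) ν f
    rw [h4, ← map_eval] at h6
    exact h6
  simpa using dvd_add h2 h3

theorem exists_cen {p : ℕ} (hp : p.Prime) {μ ν : D.σ → ℤ} (h : ¬ D.Link p μ ν) :
    ∃ z f, Cen.{u} D z f ∧ ¬ (p : ℤ) ∣ eval μ f - eval ν f := by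
  obtain ⟨f, hf, hd⟩ := D.exists_sep hp h
  obtain ⟨m, z, hm, hz, hc⟩ := D.exists_int hf hp
  obtain ⟨z', hz'⟩ := D.cen_of_ctr.{u} hz
  refine ⟨z', _, hz', fun h1 => ?_⟩
  rw [hc, smul_eval, smul_eval, ← mul_sub] at h1
  exact ((Nat.prime_iff_prime_int.1 hp).dvd_or_dvd h1).elim hm hd

end CD

end Pool.Agent.P.Bf04
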