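import Pool.Agent.P.MP_bf0464_al.H.ChevA

/-! The restriction theorem of Chevalley over the rational numbers, second part. -/

namespace Pool.Agent.P.Bf04

open Matrix Module

attribute [local instance 100] LieRing.ofAssociativeRing

universe u v w

open MvPolynomial

theorem chev_hc_comm {R σ τ : Type*} [CommRing R]
    (T : MvPolynomial σ R →ₗ[R] MvPolynomial τ R)
    (hT : ∀ (m : ℕ) (F : MvPolynomial σ R), F.IsHomogeneous m → (T F).IsHomogeneous m)
    (n : ℕ) (F : MvPolynomial σ R) :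
    T (homogeneousComponent n F) = homogeneousComponent n (T F) := by
  induction F using MvPolynomial.induction_on' with
  | monomial d c =>
    rw [homogeneousComponent_of_mem (isHomogeneous_monomial c rfl),
      homogeneousComponent_of_mem (hT _ _ (isHomogeneous_monomial c rfl))]
    split_ifs <;> simp
  | add p q hp hq => simp [map_add, hp, hq]

theorem chev_der_sum {R A κ : Type*} [CommRing R] [CommRing A] [Algebra R A] (s : Finset κ)
    (T : κ → Derivation R A A) (a : A) : (∑ j ∈ s, T j) a = ∑ j ∈ s, T j a := by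
  classical
  induction s using Finset.induction_on with
  | empty => simp
  | insert i s hi ih => rw [Finset.sum_insert hi, Finset.sum_insert hi, Derivation.add_apply, ih]

theorem chev_der_hom {R σ : Type*} [CommRing R] [Fintype σ]
    (T : Derivation R (MvPolynomial σ R) (MvPolynomial σ R))
    (hT : ∀ j, (T (X j)).IsHomogeneous 1) (m : ℕ) (F : MvPolynomial σ R)
    (hF : F.IsHomogeneous m) : (T F).IsHomogeneous m := by
  classical
  have e : T = ∑ j, T (X j) • pderiv j := by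
    refine derivation_ext fun i => ?_
    rw [chev_der_sum]
    simp [pderiv_X, Pi.single_apply]
  rcases Nat.eq_zero_or_pos m with rfl | hm
  · have : F = C (coeff 0 F) := by
      rw [← homogeneousComponent_zero, homogeneousComponent_eq_self hF]
    rw [this, derivation_C]
    exact isHomogeneous_zero _ _ _
  · rw [e, chev_der_sum]
    refine IsHomogeneous.sum _ _ _ fun j _ => ?_
    have h := (hT j).mul (hF.pderiv (i := j))
    rw [show 1 + (m - 1) = m by omega] at h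
    simpa using h

namespace CD

variable (D : CD)

section Aux

variable {R : Type v} [CommRing R]

theorem chev_lin_add (x y : D.g R) : D.lin (x + y) = D.lin x + D.lin y := by
  simp [lin, add_mul, Finset.sum_add_distrib]

theorem chev_lin_smul (c : R) (x : D.g R) : D.lin (c • x) = c • D.lin x := by
  simp [lin, Finset.smul_sum, smul_eq_C_mul, mul_assoc]

/-- the linear form as a linear map -/
noncomputable def chevLin : D.g R →ₗ[R] MvPolynomial D.B R where
  toFun := D.lin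
  map_add' := D.chev_lin_add
  map_smul' := D.chev_lin_smul

theorem chevLin_apply (x : D.g R) : D.chevLin x = D.lin x := rfl

theorem chev_lin_bv (b : D.B) : D.lin (D.bv R b) = X b := by
  rw [lin, Finset.sum_eq_single b]
  · simp [bv]
  · intro k _ hk; simp [bv, Pi.single_eq_of_ne hk]
  · simp

theorem chev_lin_hom (x : D.g R) : (D.lin x).IsHomogeneous 1 :=
  IsHomogeneous.sum _ _ _ fun _ _ => isHomogeneous_C_mul_X _ _

/-- the derivation attached to an element -/
noncomputable def chevDv (x : D.g R) : Derivation R (MvPolynomial D.B R) (MvPolynomial D.B R) :=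
  mkDerivation R fun j => D.lin ⁅x, D.bv R j⁆

theorem chevDv_bv (i : D.B) : D.chevDv (D.bv R i) = D.Dv R i := rfl

theorem chevDv_X (x : D.g R) (j : D.B) : D.chevDv x (X j) = D.lin ⁅x, D.bv R j⁆ :=
  mkDerivation_X _ _ _

theorem chevDv_lin (x y : D.g R) : D.chevDv x (D.lin y) = D.lin ⁅x, y⁆ := by
  have : (D.chevDv x : MvPolynomial D.B R →ₗ[R] _) ∘ₗ D.chevLin
      = D.chevLin ∘ₗ LieAlgebra.ad R (D.g R) x := by
    refine D.hom_ext fun b => ?_
    simp only [LinearMap.comp_apply, chevLin_apply, chev_lin_bv, LieAlgebra.ad_apply]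
    exact D.chevDv_X x b
  exact LinearMap.congr_fun this y

theorem chevDv_lie (x y : D.g R) (F : MvPolynomial D.B R) :
    D.chevDv ⁅x, y⁆ F = D.chevDv x (D.chevDv y F) - D.chevDv y (D.chevDv x F) := by
  rw [← Derivation.commutator_apply]
  refine congrFun (congrArg DFunLike.coe (derivation_ext fun j => ?_)) F
  rw [Derivation.commutator_apply, chevDv_X, chevDv_X, chevDv_X, chevDv_lin, chevDv_lin, lie_lie,
    ← chevLin_apply, map_sub, chevLin_apply, chevLin_apply]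

end Aux

theorem chev_srK {Ω : Type*} [CommRing Ω] [Algebra ℚ Ω] {f : MvPolynomial D.σ ℚ}
    (hf : D.LinInv f) (l : List D.Δ) (μ : D.σ → Ω) :
    aeval (l.foldl (fun μ i => D.srK i μ) μ) f = aeval μ f := by
  induction l generalizing μ with
  | nil => rfl
  | cons i l ih =>
    rw [List.foldl_cons, ih]
    conv_rhs => rw [← hf i]
    rw [← AlgHom.comp_apply, comp_aeval]
    congr 2
    funext a
    simp [srK]

theorem chev_pair {Ω : Type} [Field Ω] [Algebra ℚ Ω] {f : MvPolynomial D.σ ℚ} (hf : D.LinInv f)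
    {ψ₁ ψ₂ : D.B → Ω} (h₁ : ∀ β, ψ₁ (.inr β) = 0) (h₂ : ∀ β, ψ₂ (.inr β) = 0)
    {A₁ A₂ : Matrix D.B D.B Ω} (hA₁ : A₁ ∈ D.G Ω) (hA₂ : A₂ ∈ D.G Ω)
    (h : ψ₁ ᵥ* A₁ = ψ₂ ᵥ* A₂) :
    aeval (fun a => ψ₂ (.inl a)) f = aeval (fun a => ψ₁ (.inl a)) f := by
  obtain ⟨A', hA', e, -⟩ := GS_inv hA₂
  have e2 : ψ₁ ᵥ* (A₁ * A') = ψ₂ := by
    rw [← Matrix.vecMul_vecMul, h, Matrix.vecMul_vecMul, e, Matrix.vecMul_one]
  obtain ⟨l, hl⟩ := D.wd (mul_mem hA₁ hA') (χ := ψ₁) (fun β _ => h₁ β)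
    (fun β _ => by rw [e2]; exact h₂ β)
  rw [e2] at hl
  rw [hl, D.chev_srK hf]

/-- the generic point moved by a root element -/
noncomputable def chevY (α : D.ι) : D.B → Polynomial (MvPolynomial D.B ℚ) :=
  (Polynomial.C ∘ (D.genψ ℚ ᵥ* D.genA ℚ)) ᵥ* D.xM α Polynomial.X

theorem chevY_apply (α : D.ι) (b : D.B) : D.chevY α b = ∑ n ∈ Finset.range 4,
    Polynomial.monomial n (∑ k, (D.genψ ℚ ᵥ* D.genA ℚ) k * (D.dp α n k b : MvPolynomial D.B ℚ)) := by
  rw [chevY, Matrix.vecMul, dotProduct]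
  simp only [xM_apply, Finset.mul_sum, map_sum, Function.comp_apply]
  rw [Finset.sum_comm]
  refine Finset.sum_congr rfl fun n _ => Finset.sum_congr rfl fun k _ => ?_
  rw [← Polynomial.C_mul_X_pow_eq_monomial, map_mul, map_intCast]
  ring

theorem chevY_zero (α : D.ι) (b : D.B) : (D.chevY α b).coeff 0 = (D.genψ ℚ ᵥ* D.genA ℚ) b := by
  rw [chevY_apply, Polynomial.finsetSum_coeff]
  simp only [Polynomial.coeff_monomial, Finset.sum_ite_eq', Finset.mem_range, Nat.ofNat_pos,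
    if_true, dp_zero, Matrix.one_apply]
  rw [Finset.sum_eq_single b] <;> simp +contextual

theorem chevY_one (α : D.ι) (b : D.B) : (D.chevY α b).coeff 1
    = aeval (D.genψ ℚ ᵥ* D.genA ℚ) (D.lin ⁅D.bv ℚ (.inr α), D.bv ℚ b⁆) := by
  rw [chevY_apply, Polynomial.finsetSum_coeff]
  simp only [Polynomial.coeff_monomial, Finset.sum_ite_eq', Finset.mem_range, Nat.one_lt_ofNat,
    if_true, dp_one, adM, Matrix.of_apply]
  simp only [lin, lie_bv_apply, map_sum, map_mul, map_intCast, aeval_X]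
  exact Finset.sum_congr rfl fun k _ => mul_comm _ _

theorem chevY_aeval (α : D.ι) (F : MvPolynomial D.B ℚ) :
    (aeval (D.chevY α) F).coeff 0 = aeval (D.genψ ℚ ᵥ* D.genA ℚ) F ∧
    (aeval (D.chevY α) F).coeff 1 = aeval (D.genψ ℚ ᵥ* D.genA ℚ) (D.Dv ℚ (.inr α) F) := by
  induction F using MvPolynomial.induction_on with
  | C c =>
    simp [Polynomial.algebraMap_apply, Polynomial.coeff_C]
  | add p q hp hq => simp [hp.1, hp.2, hq.1, hq.2]
  | mul_X p b hp =>
    refine ⟨by simp [hp.1, chevY_zero], ?_⟩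
    rw [map_mul, aeval_X, Polynomial.mul_coeff_one, hp.1, hp.2, chevY_zero, chevY_one,
      Derivation.leibniz, ← chevDv_bv, chevDv_X]
    simp [mul_comm]

theorem chevY_indep (α : D.ι) : AlgebraicIndependent ℚ (D.chevY α) := by
  rw [algebraicIndependent_iff]
  intro p hp
  have h := (D.chevY_aeval α p).1
  rw [hp, Polynomial.coeff_zero] at h
  exact (D.gen_indep ℚ).eq_zero_of_aeval_eq_zero p h.symm

theorem chev_inv {f : MvPolynomial D.σ ℚ} (hf : D.LinInv f) {F : MvPolynomial D.B ℚ}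
    (h : aeval (D.genψ ℚ ᵥ* D.genA ℚ) F = rename Sum.inl f) (α : D.ι) : D.Dv ℚ (.inr α) F = 0 := by
  let P := MvPolynomial D.B ℚ
  let j₁ : P →ₐ[ℚ] FractionRing P := IsScalarTower.toAlgHom ℚ P (FractionRing P)
  let j₂ : Polynomial P →ₐ[ℚ] FractionRing (Polynomial P) :=
    IsScalarTower.toAlgHom ℚ (Polynomial P) (FractionRing (Polynomial P))
  have hj₁ : Function.Injective j₁ := IsFractionRing.injective P (FractionRing P)
  have hj₂ : Function.Injective j₂ :=
    IsFractionRing.injective (Polynomial P) (FractionRing (Polynomial P))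
  obtain ⟨Ω, _, _, _, f₁, f₂, hff⟩ :=
    amalgam ((D.gen_indep ℚ).map' hj₁) ((D.chevY_indep α).map' hj₂)
  let φ₁ : P →ₐ[ℚ] Ω := f₁.comp j₁
  let φ₂ : Polynomial P →ₐ[ℚ] Ω := f₂.comp j₂
  let φ₃ : P →ₐ[ℚ] Ω := φ₂.comp (Polynomial.CAlgHom)
  have hφ₂ : Function.Injective φ₂ := f₂.toRingHom.injective.comp hj₂
  have hy : φ₁ ∘ (D.genψ ℚ ᵥ* D.genA ℚ) = φ₂ ∘ D.chevY α := funext hff
  have e₁ : φ₁ ∘ (D.genψ ℚ ᵥ* D.genA ℚ) = (φ₁ ∘ D.genψ ℚ) ᵥ* (D.genA ℚ).map φ₁.toRingHom :=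
    map_vecMul φ₁.toRingHom _ _
  have e₂ : φ₂ ∘ D.chevY α
      = (φ₃ ∘ D.genψ ℚ) ᵥ* ((D.genA ℚ).map φ₃.toRingHom * D.xM α (φ₂ Polynomial.X)) := by
    rw [← Matrix.vecMul_vecMul]
    have e₃ : φ₃ ∘ (D.genψ ℚ ᵥ* D.genA ℚ) = (φ₃ ∘ D.genψ ℚ) ᵥ* (D.genA ℚ).map φ₃.toRingHom :=
      map_vecMul φ₃.toRingHom _ _
    rw [← e₃]
    have e₄ := map_vecMul φ₂.toRingHom (Polynomial.C ∘ (D.genψ ℚ ᵥ* D.genA ℚ))
      (D.xM α Polynomial.X)
    rw [xM_map] at e₄
    exact e₄
  have key := D.chev_pair hf (ψ₁ := φ₁ ∘ D.genψ ℚ) (ψ₂ := φ₃ ∘ D.genψ ℚ)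
    (fun β => map_zero φ₁) (fun β => map_zero φ₃) (GS_map φ₁.toRingHom (D.genA_mem ℚ))
    (mul_mem (GS_map φ₃.toRingHom (D.genA_mem ℚ)) (xM_mem (Set.mem_univ α) _))
    (by rw [← e₁, ← e₂, hy])
  have r : ∀ φ : P →ₐ[ℚ] Ω, aeval (fun a => (φ ∘ D.genψ ℚ) (.inl a)) f
      = φ (rename Sum.inl f) := fun φ => by
    rw [rename_eq_aeval, ← AlgHom.comp_apply, comp_aeval]
    rfl
  rw [r, r] at key
  have k2 : φ₂ (aeval (D.chevY α) F) = φ₂ (Polynomial.C (rename Sum.inl f)) := by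
    rw [← AlgHom.comp_apply, comp_aeval]
    change aeval (φ₂ ∘ D.chevY α) F = φ₃ (rename Sum.inl f)
    rw [key, ← hy, ← h, ← AlgHom.comp_apply, comp_aeval]
    rfl
  have k3 := (D.chevY_aeval α F).2
  rw [hφ₂ k2, Polynomial.coeff_C, if_neg one_ne_zero] at k3
  exact (D.gen_indep ℚ).eq_zero_of_aeval_eq_zero _ k3.symm

theorem chev_exists_c (a : D.σ) :
    ∃ c : D.Δ → ℚ, ∀ β, (D.rt β a : ℚ) = ∑ j, c j * (D.pr β (D.s j) : ℚ) := by
  have hdet : D.A.det ≠ 0 := by
    intro h0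
    obtain ⟨v, hv, hv'⟩ := Matrix.exists_vecMul_eq_zero_iff.2 h0
    exact hv (D.nd v fun j => congrFun hv' j)
  have hu : IsUnit (D.A.map (Int.cast : ℤ → ℚ)) := by
    rw [Matrix.isUnit_iff_isUnit_det, isUnit_iff_ne_zero]
    have := (Int.castRingHom ℚ).map_det D.A
    rw [RingHom.mapMatrix_apply] at this
    change (D.A.map (Int.castRingHom ℚ)).det ≠ 0
    rw [← this]
    simpa using hdet
  obtain ⟨c, hc⟩ := Matrix.mulVec_surjective_iff_isUnit.2 hu fun i => (D.rt (D.s i) a : ℚ)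
  refine ⟨c, fun β => ?_⟩
  have hc' : ∀ i, (D.rt (D.s i) a : ℚ) = ∑ j, (D.A i j : ℚ) * c j := fun i =>
    (congrFun hc i).symm
  rw [D.rt_co β]
  simp only [Finset.sum_apply, Pi.smul_apply, smul_eq_mul, Int.cast_sum, Int.cast_mul, hc',
    D.pr_s, Finset.mul_sum]
  rw [Finset.sum_comm]
  exact Finset.sum_congr rfl fun j _ => Finset.sum_congr rfl fun i _ => by ring

theorem Dv_inl {F : MvPolynomial D.B ℚ} (h : ∀ α, D.Dv ℚ (.inr α) F = 0) (a : D.σ) :
    D.Dv ℚ (.inl a) F = 0 := by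
  have h1 : ∀ α, D.chevDv (D.hv fun a => (D.cr α a : ℚ)) F = 0 := fun α => by
    rw [← D.lie_e_neg, chevDv_lie, chevDv_bv, chevDv_bv, h, h, map_zero, map_zero, sub_zero]
  obtain ⟨c, hc⟩ := D.chev_exists_c a
  have e : D.Dv ℚ (.inl a) = ∑ j, c j • D.chevDv (D.hv fun a => (D.cr (D.s j) a : ℚ)) := by
    refine derivation_ext fun b => ?_
    rw [chev_der_sum, ← chevDv_bv, chevDv_X]
    simp only [Derivation.smul_apply, chevDv_X]
    rcases b with b | β
    · have z : ∀ y : D.σ → ℚ, ⁅D.hv y, D.bv ℚ (.inl b)⁆ = 0 := fun y => by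
        rw [show D.bv ℚ (.inl b) = D.hv (Pi.single b 1) from (D.hv_single b).symm, lie_hv_hv]
      have z0 : D.lin (0 : D.g ℚ) = 0 := map_zero D.chevLin
      simp only [z, lie_h_h, z0, smul_zero, Finset.sum_const_zero]
    · simp only [lie_h_e, lie_cr_e, chev_lin_smul, smul_smul, ← Finset.sum_smul, hc β]
  rw [e, chev_der_sum]
  simp [h1]

theorem chev {n : ℕ} {f : MvPolynomial D.σ ℚ} (hn : f.IsHomogeneous n) (hf : D.LinInv f) :
    ∃ F : MvPolynomial D.B ℚ, F.IsHomogeneous n ∧ (∀ i, D.Dv ℚ i F = 0) ∧ D.res F = f := by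
  obtain ⟨F, hF⟩ := D.chev_rational hf
  have hD : ∀ i, D.Dv ℚ i F = 0 := fun i => by
    rcases i with a | α
    exacts [D.Dv_inl (D.chev_inv hf hF) a, D.chev_inv hf hF α]
  have hres : D.res F = f := by
    let ε : MvPolynomial D.B ℚ →ₐ[ℚ] MvPolynomial D.B ℚ := aeval (D.genψ ℚ)
    have e1 : ε ∘ (D.genψ ℚ ᵥ* D.genA ℚ) = (ε ∘ D.genψ ℚ) ᵥ* (D.genA ℚ).map ε.toRingHom :=
      map_vecMul ε.toRingHom _ _
    have e2 : (D.genA ℚ).map ε.toRingHom = 1 := D.genA_zero ℚ
    rw [e2, Matrix.vecMul_one] at e1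
    have e3 : (D.res (R := ℚ)).comp (ε.comp (aeval (D.genψ ℚ ᵥ* D.genA ℚ))) = D.res := by
      refine algHom_ext fun b => ?_
      rw [AlgHom.comp_apply, AlgHom.comp_apply, aeval_X]
      change D.res ((ε ∘ (D.genψ ℚ ᵥ* D.genA ℚ)) b) = _
      rw [e1]
      rcases b with a | β <;> simp [ε, genψ, res]
    have e4 : (D.res (R := ℚ)).comp (ε.comp (rename Sum.inl)) = AlgHom.id ℚ _ := by
      refine algHom_ext fun b => ?_
      simp [ε, genψ, res]
    rw [← e3, AlgHom.comp_apply, AlgHom.comp_apply, hF]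
    exact AlgHom.congr_fun e4 f
  refine ⟨homogeneousComponent n F, homogeneousComponent_isHomogeneous _ _, fun i => ?_, ?_⟩
  · have := chev_hc_comm (D.Dv ℚ i).toLinearMap
      (chev_der_hom (D.Dv ℚ i) fun j => by rw [← chevDv_bv, chevDv_X]; exact D.chev_lin_hom _) n F
    rw [Derivation.coeFn_coe, hD, map_zero] at this
    exact this
  · have := chev_hc_comm (D.res (R := ℚ)).toLinearMap (fun m G hG => by
      have := hG.aeval (n := 1) (Sum.elim X 0 : D.B → MvPolynomial D.σ ℚ) fun b => by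
        rcases b with a | β
        exacts [isHomogeneous_X _ _, isHomogeneous_zero _ _ _]
      rw [one_mul] at this
      exact this) n F
    rw [AlgHom.toLinearMap_apply, AlgHom.toLinearMap_apply, hres,
      homogeneousComponent_eq_self hn] at this
    exact this

end CD

end Pool.Agent.P.Bf04
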