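import Pool.Agent.P.MP_bf0464_al.H.Grp1

/-! Unipotent automorphisms; the commutator formula. -/

namespace Pool.Agent.P.Bf04

open Matrix Module

attribute [local instance 100] LieRing.ofAssociativeRing

universe u v w

namespace CD

variable (D : CD) {R : Type v} [CommRing R]

/-- the weight attached to an element of the root lattice -/
def grp3_rho (x : D.Δ → ℤ) : D.σ → ℤ := ∑ i, x i • D.rt (D.s i)

theorem grp3_rho_add (x y : D.Δ → ℤ) : D.grp3_rho (x + y) = D.grp3_rho x + D.grp3_rho y := by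
  simp only [grp3_rho, Pi.add_apply, add_smul, Finset.sum_add_distrib]

theorem grp3_rho_co (β : D.ι) : D.grp3_rho (D.co β) = D.rt β := (D.rt_co β).symm

theorem grp3_mulVec_bv (A : Matrix D.B D.B R) (j k : D.B) : (A *ᵥ D.bv R j) k = A k j := by
  simp [bv]

theorem grp3_lie_h (a : D.σ) (v : D.g R) (k : D.B) :
    ⁅D.h R a, v⁆ k = (D.grp3_rho (D.wt k) a : R) * v k := by
  rw [D.lie_adM]
  simp only [Matrix.mulVec, dotProduct, Matrix.map_apply, adM, Matrix.of_apply]
  rcases k with b | β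
  · have h0 : D.grp3_rho (D.wt (.inl b)) = 0 := by simp [grp3_rho, RD.wt]
    rw [h0]
    simp only [Pi.zero_apply, Int.cast_zero, zero_mul]
    refine Finset.sum_eq_zero fun j _ => ?_
    rcases j with c | γ <;> simp [RD.c]
  · have h0 : D.grp3_rho (D.wt (.inr β)) = D.rt β := D.grp3_rho_co β
    rw [h0, Finset.sum_eq_single (Sum.inr β)]
    · simp [RD.c]
    · intro j _ hj
      rcases j with c | γ
      · simp [RD.c]
      · have : (Sum.inr β : D.B) ≠ Sum.inr γ := fun h => hj h.symm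
        simp only [RD.c, if_neg this, Int.cast_zero, zero_mul]
    · simp

theorem grp3_tf [IsAddTorsionFree R] {n : ℤ} (hn : n ≠ 0) {x : R} (h : (n : R) * x = 0) :
    x = 0 := by
  rw [← zsmul_eq_mul] at h
  exact (IsAddTorsionFree.zsmul_eq_zero_iff_right hn).mp h

theorem grp3_kill [IsAddTorsionFree R] {γ : D.Δ → ℤ} (hγ : γ ≠ 0) {A : Matrix D.B D.B R}
    (hA : D.Hom γ A) (hd : ∀ x y : D.g R, A *ᵥ ⁅x, y⁆ = ⁅A *ᵥ x, y⁆ + ⁅x, A *ᵥ y⁆)
    (h0 : ∀ a, A *ᵥ D.h R a = 0) : A = 0 := by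
  have hρ : D.grp3_rho γ ≠ 0 := fun h => hγ (D.li γ h)
  obtain ⟨a, ha⟩ := Function.ne_iff.mp hρ
  ext k j
  rcases j with b | β
  · have := congrFun (h0 b) k
    rwa [D.grp3_mulVec_bv] at this
  · by_contra hne
    have hw := hA k (.inr β) hne
    have h1 := hd (D.h R a) (D.e R β)
    rw [h0, zero_lie, zero_add, D.lie_h_e, Matrix.mulVec_smul] at h1
    have h2 := congrFun h1 k
    rw [D.grp3_lie_h, Pi.smul_apply, D.grp3_mulVec_bv, hw, D.grp3_rho_add] at h2
    have h3 : D.grp3_rho (D.wt (.inr β)) = D.rt β := D.grp3_rho_co β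
    rw [h3, Pi.add_apply, Int.cast_add, smul_eq_mul, add_mul] at h2
    have h4 : ((D.grp3_rho γ a : ℤ) : R) * A k (.inr β) = 0 := by linear_combination -h2
    exact hne (grp3_tf ha h4)

/-- a derivation of nonzero weight over a torsion free ring is a multiple of the adjoint action of
a root vector -/
theorem der_eq [IsAddTorsionFree R] {γ : D.Δ → ℤ} (hγ : γ ≠ 0) {A : Matrix D.B D.B R}
    (hA : D.Hom γ A) (hd : ∀ x y : D.g R, A *ᵥ ⁅x, y⁆ = ⁅A *ᵥ x, y⁆ + ⁅x, A *ᵥ y⁆) :
    A = 0 ∨ ∃ (β : D.ι) (t : R), D.co β = γ ∧ A = t • (D.adM (.inr β)).map (Int.cast : ℤ → R) := by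
  by_cases hex : ∃ β, D.co β = γ
  swap
  · left
    refine D.grp3_kill hγ hA hd fun a => ?_
    funext k
    rw [D.grp3_mulVec_bv]
    by_contra hne
    have hw := hA k (.inl a) hne
    rcases k with b | β
    · exact hγ (by simpa [RD.wt] using hw.symm)
    · exact hex ⟨β, by simpa [RD.wt] using hw⟩
  obtain ⟨β, rfl⟩ := hex
  right
  set E : Matrix D.B D.B R := (D.adM (.inr β)).map (Int.cast : ℤ → R) with hE
  have hEv : ∀ x : D.g R, E *ᵥ x = ⁅D.e R β, x⁆ := fun x => (D.lie_adM _ x).symm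
  have hc : ∀ a, A *ᵥ D.h R a = A (.inr β) (.inl a) • D.e R β := by
    intro a
    funext k
    rw [D.grp3_mulVec_bv]
    by_cases hk : k = .inr β
    · subst hk; simp [bv]
    · have : A k (.inl a) = 0 := by
        by_contra hne
        have hw := hA k (.inl a) hne
        rcases k with b | δ
        · exact hγ (by simpa [RD.wt] using hw.symm)
        · have : D.co δ = D.co β := by simpa [RD.wt] using hw
          exact hk (by rw [D.co_inj this])
      rw [this]
      simp [bv, hk]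
  have hsym : ∀ a b, A (.inr β) (.inl a) * (D.rt β b : R) = A (.inr β) (.inl b) * (D.rt β a : R) := by
    intro a b
    have h1 := hd (D.h R a) (D.h R b)
    rw [D.lie_h_h, Matrix.mulVec_zero, hc, hc, smul_lie, lie_smul, ← lie_skew, D.lie_h_e,
      D.lie_h_e] at h1
    have h2 := congrFun h1 (.inr β)
    simp [bv] at h2
    linear_combination h2
  set t' : R := -∑ a, (D.cr β a : R) * A (.inr β) (.inl a) with ht'
  have htwo : ∑ a, (D.rt β a : R) * (D.cr β a : R) = 2 := by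
    have := congrArg (Int.cast : ℤ → R) (D.two β)
    simpa [dotProduct] using this
  have hEh : D.Hom (D.co β) E := (D.adM_hom (.inr β)).map _ Int.cast_zero
  have hB : (2 : R) • A - t' • E = 0 := by
    refine D.grp3_kill hγ ?_ ?_ ?_
    · intro k j hne
      by_contra hw
      apply hne
      have h1 : A k j = 0 := by by_contra h; exact hw (hA k j h)
      have h2 : E k j = 0 := by by_contra h; exact hw (hEh k j h)
      simp [h1, h2]
    · intro x y
      simp only [Matrix.sub_mulVec, Matrix.smul_mulVec, hEv, hd, sub_lie, lie_sub, smul_lie,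
        lie_smul, leibniz_lie (D.e R β) x y, smul_add]
      abel
    · intro b
      rw [Matrix.sub_mulVec, Matrix.smul_mulVec, Matrix.smul_mulVec, hEv, hc, ← lie_skew,
        D.lie_h_e, smul_smul, smul_neg, smul_smul, sub_neg_eq_add, ← add_smul]
      have : 2 * A (.inr β) (.inl b) + t' * (D.rt β b : R) = 0 := by
        rw [ht', neg_mul, Finset.sum_mul, ← htwo, Finset.sum_mul, ← sub_eq_add_neg,
          ← Finset.sum_sub_distrib]
        refine Finset.sum_eq_zero fun a _ => ?_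
        linear_combination (-(D.cr β a : R)) * hsym a b
      rw [this, zero_smul]
  obtain ⟨x, hx⟩ := D.cr_prim β
  have hent : ∀ a, 2 * A (.inl a) (.inr (D.neg β)) = t' * (D.cr β a : R) := by
    intro a
    have h1 := congrFun (congrFun hB (.inl a)) (.inr (D.neg β))
    have h2 : E (.inl a) (.inr (D.neg β)) = (D.cr β a : R) := by
      simp [hE, adM, RD.c]
    simp only [Matrix.sub_apply, Matrix.smul_apply, smul_eq_mul, h2, Matrix.zero_apply] at h1
    linear_combination h1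
  have hx' : ∑ a, (x a : R) * (D.cr β a : R) = 1 := by
    have := congrArg (Int.cast : ℤ → R) hx
    simpa [dotProduct] using this
  set t : R := ∑ a, (x a : R) * A (.inl a) (.inr (D.neg β)) with ht
  have htt : t' = 2 * t := by
    rw [ht, Finset.mul_sum, ← mul_one t', ← hx', Finset.mul_sum]
    refine Finset.sum_congr rfl fun a _ => ?_
    linear_combination (-(x a : R)) * hent a
  refine ⟨β, t, rfl, ?_⟩
  ext k j
  have h1 := congrFun (congrFun hB k) j
  simp only [Matrix.sub_apply, Matrix.smul_apply, smul_eq_mul, Matrix.zero_apply, htt] at h1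
  have h2 : ((2 : ℤ) : R) * (A k j - t * E k j) = 0 := by
    push_cast; linear_combination h1
  have h3 := grp3_tf (by norm_num) h2
  simp only [Matrix.smul_apply, smul_eq_mul]
  exact sub_eq_zero.mp h3

/-- the weights of the entries of a matrix satisfy `P` -/
def grp3_Sup (P : (D.Δ → ℤ) → Prop) (N : Matrix D.B D.B R) : Prop :=
  ∀ k j, N k j ≠ 0 → P (D.wt k - D.wt j)

variable {D}

theorem grp3_Sup_add {P : (D.Δ → ℤ) → Prop} {N N' : Matrix D.B D.B R} (h : D.grp3_Sup P N)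
    (h' : D.grp3_Sup P N') : D.grp3_Sup P (N + N') := by
  intro k j hne
  by_cases h1 : N k j = 0
  · refine h' k j fun h2 => hne ?_
    simp [h1, h2]
  · exact h k j h1

theorem grp3_Sup_mono {P Q : (D.Δ → ℤ) → Prop} {N : Matrix D.B D.B R} (h : D.grp3_Sup P N)
    (hPQ : ∀ x, P x → Q x) : D.grp3_Sup Q N := fun k j hne => hPQ _ (h k j hne)

theorem grp3_Sup_mul {P Q S : (D.Δ → ℤ) → Prop} {N N' : Matrix D.B D.B R} (h : D.grp3_Sup P N)
    (h' : D.grp3_Sup Q N') (hS : ∀ x y, P x → Q y → S (x + y)) : D.grp3_Sup S (N * N') := by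
  intro k j hne
  rw [Matrix.mul_apply] at hne
  obtain ⟨l, -, hl⟩ := Finset.exists_ne_zero_of_sum_ne_zero hne
  have := hS _ _ (h k l (left_ne_zero_of_mul hl)) (h' l j (right_ne_zero_of_mul hl))
  rwa [sub_add_sub_cancel] at this

variable (D)

theorem grp3_xM_two (α : D.ι) (t : R) :
    D.grp3_Sup (fun x => ∃ n : ℕ, 2 ≤ n ∧ x = (n : ℤ) • D.co α)
      (D.xM α t - 1 - t • (D.adM (.inr α)).map (Int.cast : ℤ → R)) := by
  intro k j hne
  obtain ⟨n, hn, hw⟩ := D.xM_wt_two α t hne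
  exact ⟨n, hn, by rw [hw]; abel⟩

theorem grp3_xM_one (α : D.ι) (t : R) :
    D.grp3_Sup (fun x => ∃ n : ℕ, 1 ≤ n ∧ x = (n : ℤ) • D.co α) (D.xM α t - 1) := by
  have h1 : D.xM α t - 1 = (D.xM α t - 1 - t • (D.adM (.inr α)).map (Int.cast : ℤ → R))
      + t • (D.adM (.inr α)).map (Int.cast : ℤ → R) := by abel
  rw [h1]
  refine grp3_Sup_add (grp3_Sup_mono (D.grp3_xM_two α t) ?_) ?_
  · rintro x ⟨n, hn, rfl⟩
    exact ⟨n, by omega, rfl⟩
  · intro k j hne
    have hE : D.Hom (D.co α) ((D.adM (.inr α)).map (Int.cast : ℤ → R)) :=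
      (D.adM_hom (.inr α)).map _ Int.cast_zero
    rw [Matrix.smul_apply, smul_eq_mul] at hne
    have := hE k j (right_ne_zero_of_mul hne)
    exact ⟨1, le_rfl, by rw [this]; simp⟩

theorem grp3_xM_zero (α : D.ι) (t : R) :
    D.grp3_Sup (fun x => ∃ n : ℕ, x = (n : ℤ) • D.co α) (D.xM α t) := by
  intro k j hne
  obtain ⟨n, hw⟩ := D.xM_wt α t hne
  exact ⟨n, by rw [hw]; abel⟩

theorem grp3_der_of_bv {A : Matrix D.B D.B R}
    (h : ∀ i j, A *ᵥ ⁅D.bv R i, D.bv R j⁆
      = ⁅A *ᵥ D.bv R i, D.bv R j⁆ + ⁅D.bv R i, A *ᵥ D.bv R j⁆) (x y : D.g R) :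
    A *ᵥ ⁅x, y⁆ = ⁅A *ᵥ x, y⁆ + ⁅x, A *ᵥ y⁆ := by
  have h1 : ∀ i (y : D.g R), A *ᵥ ⁅D.bv R i, y⁆
      = ⁅A *ᵥ D.bv R i, y⁆ + ⁅D.bv R i, A *ᵥ y⁆ := by
    intro i y
    rw [D.eq_sum y]
    simp only [lie_sum, lie_smul, Matrix.mulVec_sum, Matrix.mulVec_smul, h, smul_add,
      Finset.sum_add_distrib]
  rw [D.eq_sum x]
  simp only [sum_lie, smul_lie, Matrix.mulVec_sum, Matrix.mulVec_smul, h1, smul_add,
    Finset.sum_add_distrib]

theorem grp3_lie_left (x : D.g R) (j k : D.B) :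
    ⁅x, D.bv R j⁆ k = ∑ l, (D.cc l j k : R) * x l := by
  rw [lie_apply]
  refine Finset.sum_congr rfl fun l _ => ?_
  rw [Finset.sum_eq_single j]
  · simp [bv]
  · intro b _ hb
    simp [bv, hb]
  · simp

theorem grp3_lie_right (x : D.g R) (i k : D.B) :
    ⁅D.bv R i, x⁆ k = ∑ l, (D.cc i l k : R) * x l := by
  rw [lie_apply, Finset.sum_eq_single i]
  · simp [bv]
  · intro b _ hb
    simp [bv, hb]
  · simp

/-- the component of minimal degree of a unipotent automorphism is a derivation -/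
theorem grp3_comp_der (deg : (D.Δ → ℤ) →+ ℤ) {γ : D.Δ → ℤ} (hγ : 0 < deg γ)
    {A : Matrix D.B D.B R} (hA : D.IsAut A) (hN : D.grp3_Sup (fun x => deg γ ≤ deg x) (A - 1))
    (C : Matrix D.B D.B R) (hC : ∀ k j, C k j = if D.wt k - D.wt j = γ then (A - 1) k j else 0)
    (x y : D.g R) : C *ᵥ ⁅x, y⁆ = ⁅C *ᵥ x, y⁆ + ⁅x, C *ᵥ y⁆ := by
  refine D.grp3_der_of_bv (fun i j => ?_) x y
  set N := A - 1 with hNdef
  have hAN : A = 1 + N := by rw [hNdef]; abel
  have h1 := hA (D.bv R i) (D.bv R j)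
  rw [hAN] at h1
  simp only [Matrix.add_mulVec, Matrix.one_mulVec, add_lie, lie_add] at h1
  have h2 : N *ᵥ ⁅D.bv R i, D.bv R j⁆ = ⁅N *ᵥ D.bv R i, D.bv R j⁆ + ⁅D.bv R i, N *ᵥ D.bv R j⁆
      + ⁅N *ᵥ D.bv R i, N *ᵥ D.bv R j⁆ := by
    have := h1
    rw [add_assoc, add_right_inj] at this
    rw [this]; abel
  have e1 : ∀ (M : Matrix D.B D.B R) (k : D.B), (M *ᵥ ⁅D.bv R i, D.bv R j⁆) k
      = ∑ l, (D.cc i j l : R) * M k l := by
    intro M k
    simp only [Matrix.mulVec, dotProduct, D.lie_bv_apply]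
    exact Finset.sum_congr rfl fun l _ => mul_comm _ _
  have e2 : ∀ (M : Matrix D.B D.B R) (k : D.B), ⁅M *ᵥ D.bv R i, D.bv R j⁆ k
      = ∑ l, (D.cc l j k : R) * M l i := by
    intro M k
    simp only [D.grp3_lie_left, D.grp3_mulVec_bv]
  have e3 : ∀ (M : Matrix D.B D.B R) (k : D.B), ⁅D.bv R i, M *ᵥ D.bv R j⁆ k
      = ∑ l, (D.cc i l k : R) * M l j := by
    intro M k
    simp only [D.grp3_lie_right, D.grp3_mulVec_bv]
  funext k
  rw [Pi.add_apply, e1, e2, e3]
  by_cases hk : D.wt k = D.wt i + D.wt j + γ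
  · have h3 := congrFun h2 k
    rw [Pi.add_apply, Pi.add_apply, e1, e2, e3] at h3
    have h4 : ⁅N *ᵥ D.bv R i, N *ᵥ D.bv R j⁆ k = 0 := by
      rw [lie_apply]
      refine Finset.sum_eq_zero fun l _ => Finset.sum_eq_zero fun l' _ => ?_
      rw [D.grp3_mulVec_bv, D.grp3_mulVec_bv]
      by_contra hne
      have hc : D.cc l l' k ≠ 0 := fun h => hne (by simp [h])
      have a1 := hN l i (right_ne_zero_of_mul (left_ne_zero_of_mul hne))
      have a2 := hN l' j (right_ne_zero_of_mul hne)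
      have a3 : γ = (D.wt l - D.wt i) + (D.wt l' - D.wt j) := by
        have := D.cc_wt hc
        rw [hk] at this
        linear_combination this
      have a4 := congrArg deg a3
      rw [map_add] at a4
      simp only at a1 a2
      omega
    rw [h4, add_zero] at h3
    have f1 : ∑ l, (D.cc i j l : R) * C k l = ∑ l, (D.cc i j l : R) * N k l := by
      refine Finset.sum_congr rfl fun l _ => ?_
      by_cases hc : D.cc i j l = 0
      · simp [hc]
      · rw [hC, if_pos]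
        rw [hk, D.cc_wt hc]; abel
    have f2 : ∑ l, (D.cc l j k : R) * C l i = ∑ l, (D.cc l j k : R) * N l i := by
      refine Finset.sum_congr rfl fun l _ => ?_
      by_cases hc : D.cc l j k = 0
      · simp [hc]
      · rw [hC, if_pos]
        have := D.cc_wt hc
        rw [hk] at this
        linear_combination -this
    have f3 : ∑ l, (D.cc i l k : R) * C l j = ∑ l, (D.cc i l k : R) * N l j := by
      refine Finset.sum_congr rfl fun l _ => ?_
      by_cases hc : D.cc i l k = 0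
      · simp [hc]
      · rw [hC, if_pos]
        have := D.cc_wt hc
        rw [hk] at this
        linear_combination -this
    rw [f1, f2, f3, h3]
  · have f1 : ∑ l, (D.cc i j l : R) * C k l = 0 := by
      refine Finset.sum_eq_zero fun l _ => ?_
      by_cases hc : D.cc i j l = 0
      · simp [hc]
      · rw [hC, if_neg, mul_zero]
        intro h
        apply hk
        rw [← D.cc_wt hc, ← h]; abel
    have f2 : ∑ l, (D.cc l j k : R) * C l i = 0 := by
      refine Finset.sum_eq_zero fun l _ => ?_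
      by_cases hc : D.cc l j k = 0
      · simp [hc]
      · rw [hC, if_neg, mul_zero]
        intro h
        apply hk
        rw [D.cc_wt hc, ← h]; abel
    have f3 : ∑ l, (D.cc i l k : R) * C l j = 0 := by
      refine Finset.sum_eq_zero fun l _ => ?_
      by_cases hc : D.cc i l k = 0
      · simp [hc]
      · rw [hC, if_neg, mul_zero]
        intro h
        apply hk
        rw [D.cc_wt hc, ← h]; abel
    rw [f1, f2, f3, add_zero]

theorem grp3_step [IsAddTorsionFree R] (deg : (D.Δ → ℤ) →+ ℤ) (T : Set (D.Δ → ℤ))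
    (hadd : ∀ x ∈ T, ∀ y ∈ T, x + y ∈ T) (hpos : ∀ x ∈ T, 0 < deg x) (m : ℤ)
    (ih : ∀ A : Matrix D.B D.B R, D.IsAut A →
      D.grp3_Sup (fun x => x ∈ T ∧ m + 1 ≤ deg x) (A - 1) → A ∈ D.GS R {β | D.co β ∈ T})
    (F : Finset (D.Δ → ℤ)) : ∀ A : Matrix D.B D.B R, D.IsAut A →
      D.grp3_Sup (fun x => x ∈ T ∧ (m + 1 ≤ deg x ∨ (deg x = m ∧ x ∈ F))) (A - 1) →
      A ∈ D.GS R {β | D.co β ∈ T} := by
  classical
  induction F using Finset.induction_on with
  | empty =>
    intro A hA hS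
    refine ih A hA (grp3_Sup_mono hS ?_)
    rintro x ⟨h1, h2 | ⟨-, h2⟩⟩
    · exact ⟨h1, h2⟩
    · simp at h2
  | insert γ F hγF ihF =>
    intro A hA hS
    by_cases hγ : γ ∈ T ∧ deg γ = m
    swap
    · refine ihF A hA (grp3_Sup_mono hS ?_)
      rintro x ⟨h1, h2 | ⟨h2, h3⟩⟩
      · exact ⟨h1, Or.inl h2⟩
      · rcases Finset.mem_insert.mp h3 with rfl | h3
        · exact absurd ⟨h1, h2⟩ hγ
        · exact ⟨h1, Or.inr ⟨h2, h3⟩⟩
    obtain ⟨hγT, hγm⟩ := hγ
    have hγpos := hpos γ hγT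
    have hγ0 : γ ≠ 0 := by
      rintro rfl
      simp at hγpos
    let C : Matrix D.B D.B R := Matrix.of fun k j =>
      if D.wt k - D.wt j = γ then (A - 1) k j else 0
    have hC : ∀ k j, C k j = if D.wt k - D.wt j = γ then (A - 1) k j else 0 := fun _ _ => rfl
    have hCh : D.Hom γ C := by
      intro k j hne
      rw [hC] at hne
      have : D.wt k - D.wt j = γ := by
        by_contra h
        exact hne (if_neg h)
      rw [← this]; abel
    have hge : D.grp3_Sup (fun x => deg γ ≤ deg x) (A - 1) := by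
      refine grp3_Sup_mono hS ?_
      rintro x ⟨-, h2 | ⟨h2, -⟩⟩ <;> omega
    have hrest : D.grp3_Sup (fun x => x ∈ T ∧ (m + 1 ≤ deg x ∨ (deg x = m ∧ x ∈ F)))
        (A - 1 - C) := by
      intro k j hne
      rw [Matrix.sub_apply, hC] at hne
      by_cases h : D.wt k - D.wt j = γ
      · rw [if_pos h, sub_self] at hne
        exact absurd rfl hne
      · rw [if_neg h, sub_zero] at hne
        obtain ⟨h1, h2 | ⟨h2, h3⟩⟩ := hS k j hne
        · exact ⟨h1, Or.inl h2⟩
        · rcases Finset.mem_insert.mp h3 with h3 | h3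
          · exact absurd h3 h
          · exact ⟨h1, Or.inr ⟨h2, h3⟩⟩
    rcases D.der_eq hγ0 hCh (D.grp3_comp_der deg hγpos hA hge C hC) with h0 | ⟨β, t, hβ, ht⟩
    · rw [h0, sub_zero] at hrest
      exact ihF A hA hrest
    · have hmul : ∀ n : ℕ, 1 ≤ n → (n : ℤ) • γ ∈ T := by
        intro n hn
        induction n, hn using Nat.le_induction with
        | base => simpa using hγT
        | succ n _ ihn =>
          have := hadd _ ihn _ hγT
          rwa [Nat.cast_succ, add_smul, one_smul]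
      have hA' : A * D.xM β (-t) ∈ D.GS R {β | D.co β ∈ T} := by
        refine ihF _ (hA.mul (D.xM_aut β (-t))) ?_
        have e : A * D.xM β (-t) - 1 = (A - 1 - C)
            + (D.xM β (-t) - 1 - (-t) • (D.adM (.inr β)).map (Int.cast : ℤ → R))
            + (A - 1) * (D.xM β (-t) - 1) := by
          rw [ht, neg_smul]
          noncomm_ring
        rw [e]
        refine grp3_Sup_add (grp3_Sup_add hrest (grp3_Sup_mono (D.grp3_xM_two β (-t)) ?_))
          (grp3_Sup_mul hS (D.grp3_xM_one β (-t)) ?_)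
        · rintro x ⟨n, hn, rfl⟩
          rw [hβ]
          refine ⟨hmul n (by omega), Or.inl ?_⟩
          rw [map_zsmul, smul_eq_mul, ← hγm]
          have : (2 : ℤ) ≤ n := by exact_mod_cast hn
          nlinarith
        · rintro x y ⟨hx1, hx2⟩ ⟨n, hn, rfl⟩
          rw [hβ]
          refine ⟨hadd _ hx1 _ (hmul n hn), Or.inl ?_⟩
          rw [map_add, map_zsmul, smul_eq_mul]
          have : (1 : ℤ) ≤ n := by exact_mod_cast hn
          have h5 : m ≤ deg x := by rcases hx2 with h | ⟨h, -⟩ <;> omega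
          nlinarith
      have e : A = A * D.xM β (-t) * D.xM β t := by
        rw [Matrix.mul_assoc, ← D.xM_add, neg_add_cancel, D.xM_zero, Matrix.mul_one]
      rw [e]
      exact Submonoid.mul_mem _ hA' (xM_mem (show D.co β ∈ T from hβ ▸ hγT) t)

theorem unip_mem [IsAddTorsionFree R] (d : D.Δ → ℤ) (T : Set (D.Δ → ℤ))
    (hadd : ∀ x ∈ T, ∀ y ∈ T, x + y ∈ T) (hpos : ∀ x ∈ T, 0 < ∑ i, x i * d i)
    {A : Matrix D.B D.B R} (hA : D.IsAut A)
    (hT : ∀ k j, (A - 1) k j ≠ 0 → D.wt k - D.wt j ∈ T) : A ∈ D.GS R {β | D.co β ∈ T} := by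
  classical
  let deg : (D.Δ → ℤ) →+ ℤ :=
    { toFun := fun x => ∑ i, x i * d i
      map_zero' := by simp
      map_add' := fun x y => by simp [add_mul, Finset.sum_add_distrib] }
  let F : Finset (D.Δ → ℤ) := Finset.univ.image fun p : D.B × D.B => D.wt p.1 - D.wt p.2
  have hF : ∀ k j, D.wt k - D.wt j ∈ F := fun k j =>
    Finset.mem_image.mpr ⟨(k, j), Finset.mem_univ _, rfl⟩
  obtain ⟨M, hM⟩ : ∃ M : ℕ, ∀ x ∈ F, deg x < M := by
    obtain ⟨M, hM⟩ := (F.image deg).bddAbove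
    refine ⟨M.toNat + 1, fun x hx => ?_⟩
    have := hM (Finset.mem_coe.mpr (Finset.mem_image_of_mem deg hx))
    omega
  have key : ∀ n : ℕ, ∀ A : Matrix D.B D.B R, D.IsAut A →
      D.grp3_Sup (fun x => x ∈ T ∧ (M : ℤ) - n ≤ deg x) (A - 1) →
      A ∈ D.GS R {β | D.co β ∈ T} := by
    intro n
    induction n with
    | zero =>
      intro A _ hS
      have : A - 1 = 0 := by
        ext k j
        by_contra hne
        have h1 := (hS k j hne).2
        have h2 := hM _ (hF k j)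
        omega
      rw [sub_eq_zero.mp this]
      exact Submonoid.one_mem _
    | succ n ih =>
      intro A hA hS
      refine D.grp3_step deg T hadd hpos ((M : ℤ) - (n + 1 : ℕ)) (fun A hA h => ih A hA ?_) F A hA ?_
      · refine grp3_Sup_mono h ?_
        rintro x ⟨h1, h2⟩
        exact ⟨h1, by omega⟩
      · intro k j hne
        obtain ⟨h1, h2⟩ := hS k j hne
        refine ⟨h1, ?_⟩
        have := hF k j
        by_cases h : deg (D.wt k - D.wt j) = (M : ℤ) - (n + 1 : ℕ)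
        · exact Or.inr ⟨h, this⟩
        · exact Or.inl (by omega)
  refine key M A hA fun k j hne => ⟨hT k j hne, ?_⟩
  have := hpos _ (hT k j hne)
  change (M : ℤ) - M ≤ ∑ i, (D.wt k - D.wt j) i * d i
  omega

theorem grp3_comm [IsAddTorsionFree R] {α β : D.ι} (h : β ≠ D.neg α) {S : Set D.ι}
    (hS : ∀ (γ : D.ι) (i j : ℕ), 1 ≤ j → D.co γ = (i : ℤ) • D.co α + (j : ℤ) • D.co β → γ ∈ S)
    (s t : R) : D.xM α s * D.xM β t * D.xM α (-s) ∈ D.GS R S := by
  let T : Set (D.Δ → ℤ) := {x | ∃ i j : ℕ, 1 ≤ j ∧ x = (i : ℤ) • D.co α + (j : ℤ) • D.co β}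
  obtain ⟨d, hd1, hd2⟩ : ∃ d : D.Δ → ℤ, 0 ≤ ∑ i, D.co α i * d i ∧ 0 < ∑ i, D.co β i * d i := by
    by_cases hβα : β = α
    · subst hβα
      refine ⟨fun i => D.pr (D.s i) β, ?_, ?_⟩ <;> rw [← D.pr_eq_co, D.pr_self] <;> norm_num
    · have e : ∀ γ, ∑ i, D.co γ i * (2 * D.pr (D.s i) β - D.pr α β * D.pr (D.s i) α)
          = 2 * D.pr γ β - D.pr α β * D.pr γ α := by
        intro γ
        rw [D.pr_eq_co γ β, D.pr_eq_co γ α, Finset.mul_sum, Finset.mul_sum,
          ← Finset.sum_sub_distrib]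
        exact Finset.sum_congr rfl fun i _ => by ring
      refine ⟨fun i => 2 * D.pr (D.s i) β - D.pr α β * D.pr (D.s i) α, ?_, ?_⟩
      · rw [e, D.pr_self]; omega
      · rw [e, D.pr_self]
        have := (D.pr_mul hβα h).2
        linarith
  refine GS_mono (S := {γ | D.co γ ∈ T}) ?_ (D.unip_mem d T ?_ ?_ ?_ ?_)
  · rintro γ ⟨i, j, hj, hγ⟩
    exact hS γ i j hj hγ
  · rintro x ⟨i, j, hj, rfl⟩ y ⟨i', j', hj', rfl⟩
    refine ⟨i + i', j + j', by omega, ?_⟩
    push_cast
    module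
  · rintro x ⟨i, j, hj, rfl⟩
    have e : ∑ l, ((i : ℤ) • D.co α + (j : ℤ) • D.co β) l * d l
        = i * ∑ l, D.co α l * d l + j * ∑ l, D.co β l * d l := by
      rw [Finset.mul_sum, Finset.mul_sum, ← Finset.sum_add_distrib]
      exact Finset.sum_congr rfl fun l _ => by simp; ring
    rw [e]
    have : (1 : ℤ) ≤ j := by exact_mod_cast hj
    have : (0 : ℤ) ≤ i := by positivity
    nlinarith
  · exact ((D.xM_aut α s).mul (D.xM_aut β t)).mul (D.xM_aut α (-s))
  · have e : D.xM α s * D.xM β t * D.xM α (-s) - 1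
        = D.xM α s * (D.xM β t - 1) * D.xM α (-s) := by
      have : D.xM α s * D.xM α (-s) = 1 := by rw [← D.xM_add, add_neg_cancel, D.xM_zero]
      rw [Matrix.mul_sub, Matrix.sub_mul, Matrix.mul_one, this]
    rw [e]
    refine grp3_Sup_mul (S := fun x => x ∈ T) (grp3_Sup_mul (S := fun x => x ∈ T)
      (D.grp3_xM_zero α s) (D.grp3_xM_one β t) ?_) (D.grp3_xM_zero α (-s)) ?_
    · rintro x y ⟨n, rfl⟩ ⟨j, hj, rfl⟩
      exact ⟨n, j, hj, rfl⟩
    · rintro x y ⟨i, j, hj, rfl⟩ ⟨n, rfl⟩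
      refine ⟨i + n, j, hj, ?_⟩
      push_cast
      module

theorem xM_comm {α β : D.ι} (h : β ≠ D.neg α) {S : Set D.ι}
    (hS : ∀ (γ : D.ι) (i j : ℕ), 1 ≤ j → D.co γ = (i : ℤ) • D.co α + (j : ℤ) • D.co β → γ ∈ S)
    (s t : R) : ∃ A ∈ D.GS R S, D.xM α s * D.xM β t = A * D.xM α s := by
  let φ : MvPolynomial (Fin 2) ℤ →+* R := MvPolynomial.eval₂Hom (Int.castRingHom R) ![s, t]
  have h1 := GS_map φ (D.grp3_comm (R := MvPolynomial (Fin 2) ℤ) h hS (MvPolynomial.X 0)
    (MvPolynomial.X 1))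
  rw [Matrix.map_mul, Matrix.map_mul, D.xM_map, D.xM_map, D.xM_map, map_neg] at h1
  have e0 : φ (MvPolynomial.X 0) = s := by simp [φ]
  have e1 : φ (MvPolynomial.X 1) = t := by simp [φ]
  rw [e0, e1] at h1
  refine ⟨_, h1, ?_⟩
  rw [Matrix.mul_assoc _ (D.xM α (-s)), ← D.xM_add, neg_add_cancel, D.xM_zero, Matrix.mul_one]

end CD

end Pool.Agent.P.Bf04
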