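import Pool.Agent.P.MP_bf0464_al.H.Grp2
import Pool.Agent.P.MP_bf0464_al.H.Grp3

/-! Bruhat and Iwasawa decompositions. -/

namespace Pool.Agent.P.Bf04

open Matrix Module

attribute [local instance 100] LieRing.ofAssociativeRing

universe u v w

namespace CD

variable (D : CD) {R : Type v} [CommRing R] {K : Type v} [Field K]

theorem grp4_ne_neg {α β : D.ι} (hα : D.Pos α) (hβ : D.Pos β) : β ≠ D.neg α := by
  rintro rfl
  exact (D.pos_neg_iff α).1 hβ hα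

theorem grp4_comm (i : D.Δ) {u : Matrix D.B D.B R}
    (hu : u ∈ D.GS R {β | D.Pos β ∧ β ≠ D.s i}) :
    ∀ s : R, ∃ u' ∈ D.GS R {β | D.Pos β ∧ β ≠ D.s i}, ∃ s',
      D.xM (D.s i) s * u = u' * D.xM (D.s i) s' := by
  refine GS_induction_left (P := fun u => ∀ s : R, ∃ u' ∈ D.GS R {β | D.Pos β ∧ β ≠ D.s i}, ∃ s',
      D.xM (D.s i) s * u = u' * D.xM (D.s i) s') ?_ ?_ ?_ hu
  · intro s
    exact ⟨1, one_mem _, s, by rw [mul_one, one_mul]⟩
  · intro A _ ih α hα t s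
    have hne : α ≠ D.neg (D.s i) := D.grp4_ne_neg (D.pos_s i) hα.1
    obtain ⟨B, hB, e⟩ := D.xM_comm (S := {β | D.Pos β ∧ β ≠ D.s i}) hne (fun γ a b hb hγ => by
      refine ⟨?_, ?_⟩
      · have h1 : (0 : D.Δ → ℤ) ≤ D.co (D.s i) := D.pos_s i
        have h2 : (0 : D.Δ → ℤ) ≤ D.co α := hα.1
        change (0 : D.Δ → ℤ) ≤ D.co γ
        rw [hγ]
        exact add_nonneg (smul_nonneg (Int.natCast_nonneg a) h1)
          (smul_nonneg (Int.natCast_nonneg b) h2)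
      · rintro rfl
        have h3 : (b : ℤ) • D.co α = (1 - (a : ℤ)) • D.co (D.s i) := by
          rw [sub_smul, one_smul]
          exact eq_sub_of_add_eq' hγ.symm
        rcases D.red' (by omega) h3 with h4 | h4
        · exact hα.2 h4
        · exact hne h4) s t
    obtain ⟨u', hu', s', e'⟩ := ih s
    refine ⟨B * u', mul_mem hB hu', s', ?_⟩
    rw [← mul_assoc, e, mul_assoc, e', mul_assoc]
  · intro A _ ih v s
    obtain ⟨u', hu', s', e'⟩ := ih (((D.chr v (D.co (D.s i)))⁻¹ : Rˣ) * s)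
    refine ⟨D.tM v * u', mul_mem (tM_mem v) hu', s', ?_⟩
    have e := D.tM_xM v (D.s i) (((D.chr v (D.co (D.s i)))⁻¹ : Rˣ) * s)
    rw [Units.mul_inv_cancel_left] at e
    rw [← mul_assoc, ← e, mul_assoc, e', mul_assoc]

theorem bor_dec (i : D.Δ) {b : Matrix D.B D.B R} (hb : b ∈ D.Bor R) :
    ∃ u ∈ D.GS R {β | D.Pos β ∧ β ≠ D.s i}, ∃ t, b = u * D.xM (D.s i) t := by
  refine GS_induction_left
    (P := fun b => ∃ u ∈ D.GS R {β | D.Pos β ∧ β ≠ D.s i}, ∃ t, b = u * D.xM (D.s i) t)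
    ?_ ?_ ?_ hb
  · exact ⟨1, one_mem _, 0, by rw [D.xM_zero, mul_one]⟩
  · rintro A _ ⟨u, hu, t', rfl⟩ α hα t
    by_cases h : α = D.s i
    · subst h
      obtain ⟨u', hu', s', e⟩ := D.grp4_comm i hu t
      exact ⟨u', hu', s' + t', by rw [← mul_assoc, e, D.xM_add, mul_assoc]⟩
    · exact ⟨D.xM α t * u, mul_mem (xM_mem (S := {β | D.Pos β ∧ β ≠ D.s i}) ⟨hα, h⟩ t) hu, t',
        by rw [mul_assoc]⟩
  · rintro A _ ⟨u, hu, t', rfl⟩ v
    exact ⟨D.tM v * u, mul_mem (tM_mem v) hu, t', by rw [mul_assoc]⟩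

theorem grp4_xM_nW (l : List D.Δ) (β : D.ι) (t : R) :
    ∃ t', D.xM (D.rw l β) t * D.nW R l = D.nW R l * D.xM β t' := by
  obtain ⟨η, hη, e⟩ := D.nW_xM (R := R) l β
  refine ⟨η * t, ?_⟩
  rw [e, ← mul_assoc (η : R), ← Int.cast_mul, hη, Int.cast_one, one_mul]

theorem G_induction {P : Matrix D.B D.B R → Prop} (h1 : P 1)
    (hb : ∀ b ∈ D.Bor R, ∀ A, P A → P (b * A))
    (hn : ∀ i A, P A → P (D.nM (D.s i) (1 : Rˣ) * A)) {A : Matrix D.B D.B R} (h : A ∈ D.G R) :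
    P A := by
  have hW : ∀ (l : List D.Δ) A, P A → P (D.nW R l * A) := by
    intro l
    induction l with
    | nil => intro A hA; rwa [D.nW_nil, one_mul]
    | cons i l ih => intro A hA; rw [D.nW_cons, mul_assoc]; exact hn i _ (ih A hA)
  have hW' : ∀ l : List D.Δ, ∃ m : Matrix D.B D.B R, D.nW R l * m = 1 ∧
      ∀ A, P A → P (m * A) := by
    intro l
    induction l with
    | nil => exact ⟨1, by rw [D.nW_nil, one_mul], fun A hA => by rwa [one_mul]⟩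
    | cons i l ih =>
      obtain ⟨m, hm, hP⟩ := ih
      refine ⟨m * D.nM (D.s i) (-1 : Rˣ), ?_, fun A hA => ?_⟩
      · rw [D.nW_cons, mul_assoc, ← mul_assoc (D.nW R l), hm, one_mul, D.nM_mul_neg]
      · obtain ⟨u, hu⟩ := D.nM_eq (D.s i) (-1 : Rˣ)
        rw [mul_assoc, hu, mul_assoc]
        exact hP _ (hb _ (tM_mem u) _ (hn i A hA))
  refine GS_induction_left (P := P) h1 ?_ ?_ h
  · intro A _ hA α _ t
    obtain ⟨l, i, rfl⟩ := D.exists_rw α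
    obtain ⟨t', e⟩ := D.grp4_xM_nW l (D.s i) t
    obtain ⟨m, hm, hP⟩ := hW' l
    have e' : D.xM (D.rw l (D.s i)) t * A = D.nW R l * (D.xM (D.s i) t' * (m * A)) := by
      rw [← mul_assoc, ← e, mul_assoc, ← mul_assoc (D.nW R l), hm, one_mul]
    rw [e']
    exact hW l _ (hb _ (xM_mem (S := {β | D.Pos β}) (D.pos_s i) t') _ (hP A hA))
  · intro A _ hA u
    exact hb _ (tM_mem u) A hA

theorem grp4_rw_neg (l : List D.Δ) (β : D.ι) : D.rw l (D.neg β) = D.neg (D.rw l β) := by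
  induction l with
  | nil => rfl
  | cons i l ih =>
    change D.rf (D.s i) (D.rw l (D.neg β)) = D.neg (D.rf (D.s i) (D.rw l β))
    rw [ih, D.rf_neg]

theorem grp4_step (i : D.Δ) {b : Matrix D.B D.B R} (hb : b ∈ D.Bor R) :
    ∃ u ∈ D.Bor R, ∃ t, D.nM (D.s i) (1 : Rˣ) * b = u * (D.nM (D.s i) (1 : Rˣ) * D.xM (D.s i) t) := by
  obtain ⟨u, hu, t, rfl⟩ := D.bor_dec i hb
  obtain ⟨u', hu', e⟩ := D.nM_GS (D.s i) (S' := {β | D.Pos β})
    (fun β hβ => D.pos_rf hβ.1 hβ.2) hu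
  exact ⟨u', hu', t, by rw [← mul_assoc, e, mul_assoc]⟩

theorem grp4_big (i : D.Δ) (t : Rˣ) : ∃ b ∈ D.Bor R,
    D.nM (D.s i) (1 : Rˣ) * D.xM (D.s i) (t : R)
      = b * D.xM (D.neg (D.s i)) ((t⁻¹ : Rˣ) : R) := by
  obtain ⟨u, hu⟩ := D.nM_eq (D.s i) (-t)
  refine ⟨D.tM u⁻¹ * D.xM (D.s i) (-t : R),
    mul_mem (tM_mem _) (xM_mem (S := {β | D.Pos β}) (D.pos_s i) _), ?_⟩
  rw [mul_assoc, ← D.nM_xM_self, hu, ← mul_assoc, ← mul_assoc, ← D.tM_mul, inv_mul_cancel,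
    D.tM_one, one_mul]

theorem bruhat {A : Matrix D.B D.B K} (h : A ∈ D.G K) :
    ∃ b ∈ D.Bor K, ∃ b' ∈ D.Bor K, ∃ l, A = b * D.nW K l * b' := by
  refine D.G_induction
    (P := fun A => ∃ b ∈ D.Bor K, ∃ b' ∈ D.Bor K, ∃ l, A = b * D.nW K l * b') ?_ ?_ ?_ h
  · exact ⟨1, one_mem _, 1, one_mem _, [], by rw [D.nW_nil, one_mul, one_mul]⟩
  · rintro b hb _ ⟨b₀, hb₀, b', hb', l, rfl⟩
    exact ⟨b * b₀, mul_mem hb hb₀, b', hb', l, by simp only [mul_assoc]⟩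
  · rintro i _ ⟨b, hb, b', hb', l, rfl⟩
    obtain ⟨u, hu, t, e⟩ := D.grp4_step i hb
    obtain ⟨β, hβ⟩ := (D.rw_bij l).2 (D.s i)
    by_cases hp : D.Pos β
    · obtain ⟨t', e'⟩ := D.grp4_xM_nW l β t
      rw [hβ] at e'
      refine ⟨u, hu, D.xM β t' * b', mul_mem (xM_mem (S := {β | D.Pos β}) hp t') hb', i :: l, ?_⟩
      rw [← mul_assoc, ← mul_assoc, e, D.nW_cons]
      simp only [mul_assoc]
      rw [← mul_assoc (D.xM _ t), e', mul_assoc]
    · by_cases ht : t = 0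
      · refine ⟨u, hu, b', hb', i :: l, ?_⟩
        rw [← mul_assoc, ← mul_assoc, e, D.nW_cons, ht, D.xM_zero]
        simp only [mul_assoc, one_mul]
      · obtain ⟨b₁, hb₁, e₁⟩ := D.grp4_big i (Units.mk0 t ht)
        obtain ⟨t', e'⟩ := D.grp4_xM_nW l (D.neg β) (((Units.mk0 t ht)⁻¹ : Kˣ) : K)
        rw [D.grp4_rw_neg, hβ] at e'
        refine ⟨u * b₁, mul_mem hu hb₁, D.xM (D.neg β) t' * b',
          mul_mem (xM_mem (S := {β | D.Pos β}) ((D.pos_neg_iff β).2 hp) t') hb', l, ?_⟩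
        rw [Units.val_mk0] at e₁
        rw [← mul_assoc, ← mul_assoc, e, e₁]
        simp only [mul_assoc]
        rw [← mul_assoc (D.xM _ _) (D.nW K l), e', mul_assoc]

theorem iwasawa (O : ValuationSubring K) {A : Matrix D.B D.B K} (h : A ∈ D.G K) :
    ∃ b ∈ D.Bor K, ∃ κ ∈ D.G O, A = b * κ.map O.subtype := by
  refine D.G_induction
    (P := fun A => ∃ b ∈ D.Bor K, ∃ κ ∈ D.G O, A = b * κ.map O.subtype) ?_ ?_ ?_ h
  · exact ⟨1, one_mem _, 1, one_mem _, by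
      rw [Matrix.map_one _ (map_zero _) (map_one _), one_mul]⟩
  · rintro b hb _ ⟨b₀, hb₀, κ, hκ, rfl⟩
    exact ⟨b * b₀, mul_mem hb hb₀, κ, hκ, by rw [mul_assoc]⟩
  · rintro i _ ⟨b, hb, κ, hκ, rfl⟩
    obtain ⟨u, hu, t, e⟩ := D.grp4_step i hb
    by_cases ht : t ∈ O
    · refine ⟨u, hu, D.nM (D.s i) 1 * D.xM (D.s i) (⟨t, ht⟩ : O) * κ,
        mul_mem (mul_mem (D.nM_mem (Set.mem_univ _) (Set.mem_univ _) 1)
          (xM_mem (Set.mem_univ _) _)) hκ, ?_⟩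
      rw [Matrix.map_mul, Matrix.map_mul, D.nM_map, D.xM_map, map_one, ← mul_assoc, e, mul_assoc]
      rfl
    · have h0 : t ≠ 0 := by
        rintro rfl
        exact ht O.zero_mem
      have hi : t⁻¹ ∈ O := (O.mem_or_inv_mem t).resolve_left ht
      obtain ⟨b₁, hb₁, e₁⟩ := D.grp4_big i (Units.mk0 t h0)
      rw [Units.val_mk0, Units.val_inv_eq_inv_val, Units.val_mk0] at e₁
      refine ⟨u * b₁, mul_mem hu hb₁, D.xM (D.neg (D.s i)) (⟨t⁻¹, hi⟩ : O) * κ,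
        mul_mem (xM_mem (Set.mem_univ _) _) hκ, ?_⟩
      rw [Matrix.map_mul, D.xM_map, ← mul_assoc, e, e₁]
      simp only [mul_assoc]
      rfl

theorem bor_vecMul {b : Matrix D.B D.B R} (hb : b ∈ D.Bor R) {χ : D.B → R}
    (h : ∀ β, D.Pos β → χ (.inr β) = 0) :
    (∀ β, D.Pos β → (χ ᵥ* b) (.inr β) = 0) ∧ ∀ a, (χ ᵥ* b) (.inl a) = χ (.inl a) := by
  refine GS_induction (P := fun b => (∀ β, D.Pos β → (χ ᵥ* b) (.inr β) = 0) ∧
    ∀ a, (χ ᵥ* b) (.inl a) = χ (.inl a)) ?_ ?_ ?_ hb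
  · rw [Matrix.vecMul_one]
    exact ⟨h, fun _ => rfl⟩
  · rintro A _ ⟨h1, h2⟩ α hα t
    rw [← Matrix.vecMul_vecMul]
    generalize χ ᵥ* A = ψ at h1 h2
    have hα' : (0 : D.Δ → ℤ) ≤ D.co α := hα
    refine ⟨fun β hβ => ?_, fun a => ?_⟩
    · change ∑ k, ψ k * D.xM α t k (.inr β) = 0
      refine Finset.sum_eq_zero fun k _ => ?_
      by_cases hk : D.xM α t k (.inr β) = 0
      · rw [hk, mul_zero]
      obtain ⟨n, hn⟩ := D.xM_wt α t hk
      have hβ' : (0 : D.Δ → ℤ) ≤ D.co β := hβ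
      have hn' : (0 : D.Δ → ℤ) ≤ (n : ℤ) • D.co α := smul_nonneg (Int.natCast_nonneg n) hα'
      rcases k with a | γ
      · exfalso
        change (0 : D.Δ → ℤ) = D.co β + (n : ℤ) • D.co α at hn
        refine D.co_ne_zero β (le_antisymm ?_ hβ')
        rw [hn]
        exact le_add_of_nonneg_right hn'
      · change D.co γ = D.co β + (n : ℤ) • D.co α at hn
        have hγ : D.Pos γ := by
          change (0 : D.Δ → ℤ) ≤ D.co γ
          rw [hn]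
          exact add_nonneg hβ' hn'
        rw [h1 γ hγ, zero_mul]
    · have e : (ψ ᵥ* D.xM α t) (.inl a) = ψ ⬝ᵥ (D.xM α t *ᵥ D.h R a) := by
        rw [Matrix.dotProduct_mulVec, CD.h, CD.bv, dotProduct_single, mul_one]
      rw [e, ← D.hv_single, D.xM_hv, D.hv_single, dotProduct_sub, dotProduct_smul, CD.h, CD.e,
        CD.bv, CD.bv, dotProduct_single, dotProduct_single, h1 α hα, h2 a]
      simp
  · rintro A _ ⟨h1, h2⟩ u
    rw [← Matrix.vecMul_vecMul]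
    refine ⟨fun β hβ => ?_, fun a => ?_⟩
    · rw [D.vecMul_tM, h1 β hβ, zero_mul]
    · rw [D.vecMul_tM, h2 a]
      change χ (.inl a) * (D.chr u 0 : R) = _
      rw [D.chr_zero, Units.val_one, mul_one]

theorem wd {A : Matrix D.B D.B K} (hA : A ∈ D.G K) {χ : D.B → K}
    (h : ∀ β, D.Pos β → χ (.inr β) = 0) (h' : ∀ β, D.Pos β → (χ ᵥ* A) (.inr β) = 0) :
    ∃ l : List D.Δ, (fun a => (χ ᵥ* A) (.inl a))
      = l.foldl (fun μ i => D.srK i μ) fun a => χ (.inl a) := by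
  obtain ⟨b, hb, b', hb', l, rfl⟩ := D.bruhat hA
  obtain ⟨b'', hb'', e, -⟩ := GS_inv hb'
  refine ⟨l, ?_⟩
  have h1 := (D.bor_vecMul hb'' h').2
  have h2 := (D.bor_vecMul hb h).2
  rw [Matrix.vecMul_vecMul, mul_assoc, e, mul_one, ← Matrix.vecMul_vecMul] at h1
  rw [← funext h1, D.vecMul_nW_inl, funext h2]

end CD

end Pool.Agent.P.Bf04
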