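import Pool.Agent.P.MP_bf0464_al.H.Dens
import Pool.Agent.P.MP_bf0464_al.H.Grp4
import Pool.Agent.P.MP_bf0464_al.H.Sym

/-! The restriction theorem of Chevalley over the rational numbers. -/

namespace Pool.Agent.P.Bf04

open Matrix Module

attribute [local instance 100] LieRing.ofAssociativeRing

universe u v w

open MvPolynomial

open scoped IntermediateField.algebraAdjoinAdjoin in
/-- an element which is integral over a polynomial ring and fixed by all automorphisms -/
theorem chevA_poly {k Ω ι : Type*} [Field k] [CharZero k] [Field Ω] [Algebra k Ω] [IsAlgClosed Ω]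
    {y : ι → Ω} (hy : IsTranscendenceBasis k y) {z : Ω}
    (h1 : ∀ O : ValuationSubring Ω, (∀ c : k, algebraMap k Ω c ∈ O) → (∀ i, y i ∈ O) → z ∈ O)
    (h2 : ∀ τ : Ω →ₐ[k] Ω, (∀ i, τ (y i) = y i) → τ z = z) :
    ∃ F : MvPolynomial ι k, aeval y F = z := by
  set E := IntermediateField.adjoin k (Set.range y) with hE
  set S := Algebra.adjoin k (Set.range y) with hS
  have : Algebra.IsAlgebraic E Ω := hy.isAlgebraic_field
  have : CharZero E := charZero_of_injective_algebraMap (algebraMap k E).injective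
  have : IsAlgClosure E Ω := ⟨inferInstance, inferInstance⟩
  have : IsGalois E Ω := {}
  have hzE : z ∈ E := by
    have : z ∈ (⊥ : IntermediateField E Ω) := by
      rw [InfiniteGalois.mem_bot_iff_fixed]
      intro f
      refine h2 ((f : Ω →ₐ[E] Ω).restrictScalars k) fun i => ?_
      exact f.commutes ⟨y i, IntermediateField.subset_adjoin _ _ ⟨i, rfl⟩⟩
    obtain ⟨x, hx⟩ := IntermediateField.mem_bot.mp this
    rw [← hx]
    exact x.2
  have hint : IsIntegral S z := by
    by_contra hn
    have hn' : z ∉ (integralClosure S Ω).toSubring := hn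
    have : IsIntegrallyClosedIn (integralClosure S Ω).toSubring Ω :=
      inferInstanceAs (IsIntegrallyClosedIn (integralClosure S Ω) Ω)
    obtain ⟨V, hV, hz⟩ := Subring.exists_le_valuationSubring_of_isIntegrallyClosedIn hn'
    refine hz (h1 V (fun c => hV ?_) fun i => hV ?_)
    · exact (integralClosure S Ω).algebraMap_mem (algebraMap k S c)
    · exact (integralClosure S Ω).algebraMap_mem ⟨y i, Algebra.subset_adjoin ⟨i, rfl⟩⟩
  have : IsIntegrallyClosed S := IsIntegrallyClosed.of_equiv hy.1.aevalEquiv.toRingEquiv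
  have hint' : IsIntegral S (⟨z, hzE⟩ : E) :=
    (isIntegral_algHom_iff (IsScalarTower.toAlgHom S E Ω) (algebraMap E Ω).injective).mp hint
  obtain ⟨s, hs⟩ := IsIntegrallyClosed.algebraMap_eq_of_integral hint'
  have hz : z ∈ S := by
    have : (s : Ω) = z := congrArg Subtype.val hs
    rw [← this]
    exact s.2
  rw [hS, Algebra.adjoin_range_eq_range_aeval] at hz
  exact hz

theorem chevA_basis {k ι : Type} [Field k] [Finite ι] {y : ι → MvPolynomial ι k}
    (hy : AlgebraicIndependent k y) {Ω : Type} [Field Ω] [Algebra k Ω]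
    [Algebra (MvPolynomial ι k) Ω] [IsScalarTower k (MvPolynomial ι k) Ω]
    [Algebra.IsAlgebraic (MvPolynomial ι k) Ω] [FaithfulSMul (MvPolynomial ι k) Ω] :
    IsTranscendenceBasis k (algebraMap (MvPolynomial ι k) Ω ∘ y) := by
  refine IsTranscendenceBasis.algebraMap_comp ?_
  refine hy.isTranscendenceBasis_of_trdeg_le_of_finite ?_
  rw [MvPolynomial.trdeg_of_isDomain, Cardinal.lift_id]

namespace CD

variable (D : CD) {R : Type v} [CommRing R]

variable (R) in
/-- the adjoint action on polynomials -/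
noncomputable def Dv (i : D.B) : Derivation R (MvPolynomial D.B R) (MvPolynomial D.B R) :=
  mkDerivation R fun j => D.lin ⁅D.bv R i, D.bv R j⁆

/-- invariance under the linear action of the Weyl group -/
def LinInv (f : MvPolynomial D.σ R) : Prop := ∀ i, aeval (D.srK i X) f = f

theorem chevA_srK {f : MvPolynomial D.σ R} (hf : D.LinInv f) {A : Type w} [CommRing A]
    [Algebra R A] (i : D.Δ) (μ : D.σ → A) : aeval (D.srK i μ) f = aeval μ f := by
  conv_rhs => rw [← hf i]
  rw [← AlgHom.comp_apply, comp_aeval]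
  congr 2
  funext a
  simp [srK, map_sum]

theorem chevA_foldl {f : MvPolynomial D.σ R} (hf : D.LinInv f) {A : Type w} [CommRing A]
    [Algebra R A] (l : List D.Δ) (μ : D.σ → A) :
    aeval (l.foldl (fun μ i => D.srK i μ) μ) f = aeval μ f := by
  induction l generalizing μ with
  | nil => rfl
  | cons i l ih => rw [List.foldl_cons, ih, D.chevA_srK hf]

theorem chevA_main {k Ω : Type v} [Field k] [CharZero k] [Field Ω] [Algebra k Ω] [IsAlgClosed Ω]
    {f : MvPolynomial D.σ k} (hf : D.LinInv f) {ψ : D.B → Ω} (hψ : ∀ β, ψ (.inr β) = 0)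
    {A : Matrix D.B D.B Ω} (hA : A ∈ D.G Ω) (hy : IsTranscendenceBasis k (ψ ᵥ* A)) :
    ∃ F : MvPolynomial D.B k, aeval (ψ ᵥ* A) F = aeval (fun a => ψ (.inl a)) f := by
  refine chevA_poly hy (fun O hk hO => ?_) fun τ hτ => ?_
  · obtain ⟨b, hb, κ, hκ, e⟩ := D.iwasawa O hA
    obtain ⟨κ', -, h1, -⟩ := GS_inv hκ
    have e2 : ψ ᵥ* b = (ψ ᵥ* A) ᵥ* κ'.map O.subtype := by
      rw [vecMul_vecMul, e, Matrix.mul_assoc, ← Matrix.map_mul, h1,
        Matrix.map_one _ (map_zero _) (map_one _), Matrix.mul_one]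
    have hx : ∀ a, ψ (.inl a) ∈ O := fun a => by
      rw [← (D.bor_vecMul hb fun β _ => hψ β).2 a, e2]
      exact O.toSubring.sum_mem fun j _ => O.toSubring.mul_mem (hO j) (κ' j _).2
    clear hf
    induction f using MvPolynomial.induction_on with
    | C c => simpa using hk c
    | add p q hp hq => rw [map_add]; exact O.toSubring.add_mem hp hq
    | mul_X p a hp => rw [map_mul, aeval_X]; exact O.toSubring.mul_mem hp (hx a)
  · obtain ⟨A', hA', h1, -⟩ := GS_inv (GS_map (τ : Ω →+* Ω) hA)
    have e1 : (τ ∘ ψ) ᵥ* A.map τ = ψ ᵥ* A := by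
      have := map_vecMul (τ : Ω →+* Ω) ψ A
      exact this.symm.trans (funext hτ)
    have e2 : ψ ᵥ* (A * A') = τ ∘ ψ := by
      rw [← vecMul_vecMul, ← e1, vecMul_vecMul]
      erw [h1]
      rw [vecMul_one]
    obtain ⟨l, hl⟩ := D.wd (mul_mem hA hA') (χ := ψ) (fun β _ => hψ β) fun β _ => by
      rw [e2, Function.comp_apply, hψ, map_zero]
    rw [← AlgHom.comp_apply, comp_aeval, ← D.chevA_foldl hf l (fun a => ψ (.inl a)), ← hl, e2]
    rfl

theorem chev_rational {f : MvPolynomial D.σ ℚ} (hf : D.LinInv f) :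
    ∃ F : MvPolynomial D.B ℚ, aeval (D.genψ ℚ ᵥ* D.genA ℚ) F = rename Sum.inl f := by
  let P := MvPolynomial D.B ℚ
  let Ω := AlgebraicClosure (FractionRing P)
  have : Algebra.IsAlgebraic P (FractionRing P) := IsLocalization.isAlgebraic _ (nonZeroDivisors P)
  have : Algebra.IsAlgebraic P Ω := Algebra.IsAlgebraic.trans P (FractionRing P) Ω
  have hi : Function.Injective (algebraMap P Ω) := by
    rw [IsScalarTower.algebraMap_eq P (FractionRing P) Ω, RingHom.coe_comp]
    exact (algebraMap (FractionRing P) Ω).injective.comp (IsFractionRing.injective P _)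
  have : FaithfulSMul P Ω := (faithfulSMul_iff_algebraMap_injective P Ω).mpr hi
  have hb := chevA_basis (D.gen_indep ℚ) (Ω := Ω)
  have e := map_vecMul (algebraMap P Ω) (D.genψ ℚ) (D.genA ℚ)
  obtain ⟨F, hF⟩ := D.chevA_main hf (ψ := algebraMap P Ω ∘ D.genψ ℚ)
    (fun β => by simp [genψ]) (GS_map (algebraMap P Ω) (D.genA_mem ℚ)) (e ▸ hb)
  refine ⟨F, hi ?_⟩
  rw [← e] at hF
  have h1 := comp_aeval_apply (D.genψ ℚ ᵥ* D.genA ℚ) (IsScalarTower.toAlgHom ℚ P Ω) F
  have h2 := comp_aeval_apply (fun a : D.σ => (X (.inl a) : P)) (IsScalarTower.toAlgHom ℚ P Ω) f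
  exact h1.trans (hF.trans (h2.symm.trans (by rw [rename_eq_aeval]; rfl)))

end CD

end Pool.Agent.P.Bf04
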