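import Pool.Agent.P.MP_bf0464_al.H.Class
import Pool.Agent.P.MP_bf0464_al.H.Weyl

/-! Lower bounds for the order of the Weyl group. -/

namespace Pool.Agent.P.Bf04

open Matrix Equiv

namespace RD

variable {D : RD} {n : ℕ}

theorem clw_orbit {N : ℕ} {M : Matrix (Fin N) (Fin N) ℤ} (h : IsTyp D.A Finset.univ M)
    (c₀ : Fin N → ℤ) : ∃ P : (Fin N → ℤ) → Prop, P c₀ ∧
      (∀ c i, P c → P fun a => c a - c i * M i a) ∧
      ∀ T : Finset (Fin N → ℤ), (∀ c ∈ T, P c) → T.card ≤ D.wn := by
  obtain ⟨e, he, -, hM⟩ := h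
  let κ : (D.σ → ℤ) → Fin N → ℤ := fun μ a => μ ⬝ᵥ D.cr (D.s (e a)) + 1
  let μ₀ : D.σ → ℤ := ∑ b, (c₀ b - 1) • D.ω (e b)
  refine ⟨fun c => ∃ w ∈ D.W, κ (w μ₀) = c, ⟨1, D.W.one_mem, ?_⟩, ?_, ?_⟩
  · funext a
    simp only [κ, μ₀, Perm.one_apply, sum_dotProduct, smul_dotProduct, D.ω_cr, he.eq_iff]
    simp
  · rintro c i ⟨w, hw, rfl⟩
    refine ⟨D.dot (e i) * w, D.W.mul_mem (D.dot_mem _) hw, ?_⟩
    funext a
    rw [← hM]
    simp only [κ, Perm.mul_apply, dot_apply, dotf, sub_dotProduct, smul_dotProduct, smul_eq_mul,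
      A, pr, of_apply]
    ring
  · intro T hT
    choose w hw hw' using hT
    have : Function.Injective fun c : T => (⟨w c.1 c.2, hw c.1 c.2⟩ : D.W) := by
      intro c c' hc
      have h1 : w c.1 c.2 = w c'.1 c'.2 := congrArg Subtype.val hc
      apply Subtype.ext
      rw [← hw' c.1 c.2, h1, hw']
    simpa [wn] using Nat.card_le_card_of_injective _ this

theorem clw_perm {m : ℕ} {R : (Fin (m + 1) → ℤ) → Prop}
    (hs : ∀ (i : Fin m) x, R x → R (x ∘ swap i.castSucc i.succ)) (π : Perm (Fin (m + 1))) :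
    ∀ x, R x → R (x ∘ π) := by
  have : π ∈ Submonoid.closure (Set.range fun i : Fin m => swap i.castSucc i.succ) := by
    rw [Perm.mclosure_swap_castSucc_succ]; trivial
  induction this using Submonoid.closure_induction with
  | mem π h => obtain ⟨i, rfl⟩ := h; exact hs i
  | one => exact fun x hx => hx
  | mul a b _ _ ha hb => exact fun x hx => hb _ (ha x hx)

theorem clw_gen {m : ℕ} {M : Matrix (Fin (m + 1)) (Fin (m + 1)) ℤ} (h : IsTyp D.A Finset.univ M)
    (L : (Fin (m + 1) → ℤ) → Fin (m + 1) → ℤ) (hL : Function.Injective L)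
    (hs : ∀ (i : Fin m) x, L (x ∘ swap i.castSucc i.succ) =
      fun a => L x a - L x i.castSucc * M i.castSucc a)
    (g : Fin (m + 1) → ℤ) (π₀ : Perm (Fin (m + 1)))
    (hg : ∀ x, L ((x * g) ∘ π₀) = fun a => L x a - L x (Fin.last m) * M (Fin.last m) a)
    (I : Finset (Fin (m + 1))) (τ : Fin (m + 1) → Perm (Fin (m + 1)))
    (h1 : ∀ a ∈ I, ∀ b ∈ I, g (τ a b) = if b = a then -1 else 1) (h2 : ∀ b, |g b| = 1) :
    2 ^ I.card * (m + 1).factorial ≤ D.wn := by
  let x₀ : Fin (m + 1) → ℤ := fun a => (a : ℕ) + 1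
  obtain ⟨P, p0, p1, p2⟩ := clw_orbit h (L x₀)
  have r1 : ∀ (π : Perm (Fin (m + 1))) x, P (L x) → P (L (x ∘ π)) :=
    clw_perm (R := fun x => P (L x)) fun i x hx => by rw [hs]; exact p1 _ _ hx
  have r2 : ∀ x, P (L x) → P (L (x * g)) := fun x hx => by
    have := r1 π₀⁻¹ _ ((hg x).symm ▸ p1 _ (Fin.last m) hx)
    simpa [Function.comp_def, Pi.mul_def] using this
  have r3 : ∀ a x, P (L x) → P (L (x * g ∘ τ a)) := fun a x hx => by
    have := r1 (τ a) _ (r2 _ (r1 (τ a)⁻¹ x hx))
    simpa [Function.comp_def, Pi.mul_def] using this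
  have r4 : ∀ (S : Finset (Fin (m + 1))) x, P (L x) → P (L (x * ∏ a ∈ S, g ∘ τ a)) := by
    intro S
    induction S using Finset.induction_on with
    | empty => simp
    | insert a S ha ih =>
      intro x hx
      rw [Finset.prod_insert ha, ← mul_assoc]
      exact ih _ (r3 a x hx)
  let f : Finset (Fin (m + 1)) × Perm (Fin (m + 1)) → Fin (m + 1) → ℤ :=
    fun q => L (x₀ ∘ q.2 * ∏ a ∈ q.1, g ∘ τ a)
  have key : ∀ S ⊆ I, ∀ b ∈ I, (∏ a ∈ S, g ∘ τ a) b = if b ∈ S then -1 else 1 := by
    intro S hS b hb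
    simp only [Finset.prod_apply, Function.comp_apply]
    rw [Finset.prod_congr rfl fun a ha => h1 a (hS ha) b hb]
    simp
  have hab : ∀ (S : Finset (Fin (m + 1))) (π : Perm (Fin (m + 1))) b,
      |(x₀ ∘ π * ∏ a ∈ S, g ∘ τ a) b| = (π b : ℕ) + 1 := by
    intro S π b
    rw [Pi.mul_apply, Finset.prod_apply, abs_mul, Finset.abs_prod]
    simp only [Function.comp_apply, h2, Finset.prod_const_one, mul_one, x₀]
    exact abs_of_nonneg (by positivity)
  have hf : Set.InjOn f (I.powerset ×ˢ Finset.univ :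
      Finset (Finset (Fin (m + 1)) × Perm (Fin (m + 1)))) := by
    rintro ⟨S, π⟩ hS0 ⟨S', π'⟩ hS1 hq0
    have hq : x₀ ∘ π * ∏ a ∈ S, g ∘ τ a = x₀ ∘ π' * ∏ a ∈ S', g ∘ τ a := hL hq0
    have hS : S ⊆ I := by simpa using hS0
    have hS' : S' ⊆ I := by simpa using hS1
    clear hS0 hS1 hq0
    obtain rfl : π = π' := by
      ext b
      have := hab S π b
      rw [hq, hab] at this
      omega
    refine Prod.ext ?_ rfl
    ext b
    by_cases hb : b ∈ I
    · have := congrFun hq b
      simp only [Pi.mul_apply, key S hS b hb, key S' hS' b hb, Function.comp_apply, x₀] at this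
      by_cases e1 : b ∈ S <;> by_cases e2 : b ∈ S' <;>
        simp only [e1, e2, if_true, if_false] at this ⊢ <;> omega
    · exact ⟨fun e => (hb (hS e)).elim, fun e => (hb (hS' e)).elim⟩
  have := p2 ((I.powerset ×ˢ Finset.univ).image f) (by
    intro c hc
    obtain ⟨q, -, rfl⟩ := Finset.mem_image.mp hc
    exact r4 _ _ (r1 _ _ p0))
  rwa [Finset.card_image_of_injOn hf, Finset.card_product, Finset.card_powerset, Finset.card_univ,
    Fintype.card_perm, Fintype.card_fin] at this

/-- extension by zero -/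
def clwEx {N : ℕ} (x : Fin N → ℤ) (k : ℕ) : ℤ := if h : k < N then x ⟨k, h⟩ else 0

/-- pairings with the simple coroots -/
def clwL (m : ℕ) (u v : ℤ) (x : Fin (m + 1) → ℤ) (a : Fin (m + 1)) : ℤ :=
  if (a : ℕ) = m then u * clwEx x (m - 1) + v * clwEx x m else clwEx x a - clwEx x (a + 1)

theorem clwEx_swap {N : ℕ} (x : Fin N → ℤ) (i j : Fin N) (k : ℕ) :
    clwEx (x ∘ swap i j) k = if k = i then clwEx x j else if k = j then clwEx x i else clwEx x k := by
  have hi := i.2
  have hj := j.2
  unfold clwEx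
  by_cases hk : k < N
  · simp only [hk, hi, hj, dif_pos, Function.comp_apply, swap_apply_def, Fin.ext_iff]
    split_ifs <;> rfl
  · rw [dif_neg hk, if_neg (by omega), if_neg (by omega), dif_neg hk]

theorem clwEx_mul {N : ℕ} (x : Fin N → ℤ) (g : ℕ → ℤ) (k : ℕ) :
    clwEx (x * fun a : Fin N => g a) k = clwEx x k * g k := by
  unfold clwEx
  split_ifs <;> simp

theorem clwL_inj {m : ℕ} (hm : 1 ≤ m) {u v : ℤ} (huv : u + v ≠ 0) :
    Function.Injective (clwL m u v) := by
  intro x y h
  have h1 : ∀ a < m, clwEx x a - clwEx x (a + 1) = clwEx y a - clwEx y (a + 1) := by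
    intro a ha
    have := congrFun h ⟨a, by omega⟩
    simpa [clwL, ha.ne] using this
  have h2 : clwEx x m = clwEx y m := by
    have e1 := congrFun h (Fin.last m)
    have e2 := h1 (m - 1) (by omega)
    rw [show m - 1 + 1 = m by omega] at e2
    simp only [clwL, Fin.val_last, if_true] at e1
    apply mul_left_cancel₀ huv
    linear_combination e1 - u * e2
  have h3 : ∀ k ≤ m, clwEx x (m - k) = clwEx y (m - k) := by
    intro k
    induction k with
    | zero => exact fun _ => h2
    | succ k ih =>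
      intro hk
      have e1 := h1 (m - (k + 1)) (by omega)
      rw [show m - (k + 1) + 1 = m - k by omega, ih (by omega)] at e1
      omega
  funext a
  have := h3 (m - a) (by omega)
  rw [show m - (m - a) = a by omega] at this
  simpa [clwEx, a.2] using this

theorem wn_B (h : IsTyp D.A Finset.univ (CartanMatrix.B (n + 2))) :
    2 ^ (n + 2) * (n + 2).factorial ≤ D.wn := by
  have := clw_gen (m := n + 1) h (clwL _ 0 2) (clwL_inj (by omega) (by omega)) (by
      intro i x
      funext a
      have := i.2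
      have := a.2
      simp only [clwL, clwEx_swap, CartanMatrix.B, of_apply, Fin.ext_iff, Fin.val_succ,
        Fin.val_castSucc]
      grind)
    (fun a => if (a : ℕ) = n + 1 then -1 else 1) 1 (by
      intro x
      funext a
      have := a.2
      simp only [Perm.coe_one, Function.comp_id, clwL,
        clwEx_mul x fun k => if k = n + 1 then -1 else 1, CartanMatrix.B, of_apply, Fin.ext_iff,
        Fin.val_last]
      grind)
    Finset.univ (fun a => swap a (Fin.last _)) (by
      intro a _ b _
      have := a.2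
      have := b.2
      simp only [swap_apply_def, Fin.ext_iff, apply_ite Fin.val, Fin.val_last]
      grind) (by intro b; split_ifs <;> rfl)
  simpa using this

theorem wn_C (h : IsTyp D.A Finset.univ (CartanMatrix.C (n + 3))) :
    2 ^ (n + 3) * (n + 3).factorial ≤ D.wn := by
  have := clw_gen (m := n + 2) h (clwL _ 0 1) (clwL_inj (by omega) (by omega)) (by
      intro i x
      funext a
      have := i.2
      have := a.2
      simp only [clwL, clwEx_swap, CartanMatrix.C, of_apply, Fin.ext_iff, Fin.val_succ,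
        Fin.val_castSucc]
      grind)
    (fun a => if (a : ℕ) = n + 2 then -1 else 1) 1 (by
      intro x
      funext a
      have := a.2
      simp only [Perm.coe_one, Function.comp_id, clwL,
        clwEx_mul x fun k => if k = n + 2 then -1 else 1, CartanMatrix.C, of_apply, Fin.ext_iff,
        Fin.val_last]
      grind)
    Finset.univ (fun a => swap a (Fin.last _)) (by
      intro a _ b _
      have := a.2
      have := b.2
      simp only [swap_apply_def, Fin.ext_iff, apply_ite Fin.val, Fin.val_last]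
      grind) (by intro b; split_ifs <;> rfl)
  simpa using this

theorem wn_D (h : IsTyp D.A Finset.univ (CartanMatrix.D (n + 4))) :
    2 ^ (n + 3) * (n + 4).factorial ≤ D.wn := by
  have := clw_gen (m := n + 3) h (clwL _ 1 1) (clwL_inj (by omega) (by omega)) (by
      intro i x
      funext a
      have := i.2
      have := a.2
      simp only [clwL, clwEx_swap, CartanMatrix.D, of_apply, Fin.ext_iff, Fin.val_succ,
        Fin.val_castSucc]
      grind)
    (fun a => if n + 2 ≤ (a : ℕ) then -1 else 1) (swap ⟨n + 2, by omega⟩ (Fin.last _)) (by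
      intro x
      funext a
      have := a.2
      simp only [clwL, clwEx_swap,
        clwEx_mul x fun k => if n + 2 ≤ k then -1 else 1, CartanMatrix.D, of_apply, Fin.ext_iff,
        Fin.val_last]
      grind)
    (Finset.univ.erase (Fin.last _)) (fun a => swap a ⟨n + 2, by omega⟩) (by
      intro a ha b hb
      have := a.2
      have := b.2
      simp only [Finset.mem_erase, ne_eq, Fin.ext_iff, Fin.val_last] at ha hb
      simp only [swap_apply_def, Fin.ext_iff, apply_ite Fin.val]
      grind) (by intro b; split_ifs <;> rfl)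
  simpa using this

/-- the orbit of a regular weight in the rank two exceptional case -/
def clwG : ℕ → Fin 2 → ℤ
  | 0 => ![1, 1]
  | k + 1 => fun a => clwG k a - clwG k (Fin.ofNat 2 k) * CartanMatrix.G₂ (Fin.ofNat 2 k) a

theorem wn_G (h : IsTyp D.A Finset.univ CartanMatrix.G₂) : 12 ≤ D.wn := by
  obtain ⟨P, p0, p1, p2⟩ := clw_orbit h (clwG 0)
  have hk : ∀ k, P (clwG k) := fun k => by
    induction k with
    | zero => exact p0
    | succ k ih => exact p1 _ _ ih
  have := p2 ((Finset.range 12).image clwG) (by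
    intro c hc
    obtain ⟨k, -, rfl⟩ := Finset.mem_image.mp hc
    exact hk k)
  rwa [show ((Finset.range 12).image clwG).card = 12 by decide +kernel] at this

end RD

end Pool.Agent.P.Bf04
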