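import Pool.Agent.P.MP_bf0464_al.H.Mod2A

/-! Regular characters; standard Levi form. -/

namespace Pool.Agent.P.Bf04

open Matrix Module

attribute [local instance 100] LieRing.ofAssociativeRing

universe u v w

namespace CD

variable {D : CD} {K : Type u} [Field K] {p : ℕ} [Fact p.Prime] [CharP K p]

theorem mod2_ex {β : D.ι} {i : D.Δ} (h : D.Pos β) (h' : β ≠ D.s i) :
    ∃ j, j ≠ i ∧ 0 < D.co β j := by
  by_contra hc
  push Not at hc
  have e : (1 : ℤ) • D.co β = D.co β i • D.co (D.s i) := by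
    funext j
    rw [D.co_s, one_smul]
    by_cases hj : j = i
    · subst hj; simp
    · have := hc j hj
      have h0 : 0 ≤ D.co β j := h j
      simp [hj]; omega
  rcases D.red' one_ne_zero e with h1 | h1
  · exact h' h1
  · rw [h1, D.pos_neg_iff] at h
    exact h (D.pos_s i)

omit [Fact p.Prime] [CharP K p] in
theorem mod2_e {S : LRep K (D.g K)} {μ : D.σ → K} {v : S.M} (hv : D.IsHW S μ v) (i : D.Δ)
    (n : ℕ) : ∀ β, D.Pos β → β ≠ D.s i →
      S.ρ (D.e K β) ((S.ρ (D.e K (D.neg (D.s i))) ^ n) v) = 0 := by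
  induction n with
  | zero => intro β hβ _; exact hv.1 β hβ
  | succ n ih =>
    intro β hβ hne
    rw [pow_succ', End.mul_apply, S.comm_apply, ih β hβ hne, map_zero, zero_add]
    by_cases hγ : ∃ γ, D.co β + D.co (D.neg (D.s i)) = D.co γ
    · obtain ⟨γ, hγ⟩ := hγ
      obtain ⟨j, hj, hj'⟩ := mod2_ex hβ hne
      have e : D.co γ j = D.co β j := by
        rw [← hγ, D.co_neg, D.co_s]; simp [hj]
      have hpos : D.Pos γ := by
        rcases D.sign γ with h | h
        · exact h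
        · have : D.co γ j ≤ 0 := h j
          omega
      have hne' : γ ≠ D.s i := by
        rintro rfl
        rw [D.co_s] at e
        simp [hj] at e; omega
      rw [D.lie_e_e hγ, map_smul, LinearMap.smul_apply, ih γ hpos hne', smul_zero]
    · push Not at hγ
      rw [D.lie_e_e_zero hγ, map_zero, LinearMap.zero_apply]
      intro h
      apply hne
      have := congrArg D.neg h
      rw [D.neg_neg, D.neg_neg] at this
      exact this.symm

omit [Fact p.Prime] [CharP K p] in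
theorem mod2_h {S : LRep K (D.g K)} {μ : D.σ → K} {v : S.M} (hv : D.IsHW S μ v) (α : D.ι)
    (n : ℕ) (a : D.σ) : S.ρ (D.h K a) ((S.ρ (D.e K (D.neg α)) ^ n) v)
      = (μ a - n * (D.rt α a : K)) • (S.ρ (D.e K (D.neg α)) ^ n) v := by
  induction n with
  | zero => simpa using hv.2 a
  | succ n ih =>
    rw [pow_succ', End.mul_apply, S.comm_apply, ih, D.lie_h_e, map_smul, map_smul,
      LinearMap.smul_apply, ← add_smul, D.rt_neg]
    congr 1
    simp only [Pi.neg_apply]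
    push_cast; ring

omit [Fact p.Prime] [CharP K p] in
theorem mod2_sl {S : LRep K (D.g K)} {μ : D.σ → K} {v : S.M} (hv : D.IsHW S μ v) {α : D.ι}
    (hα : D.Pos α) (n : ℕ) : S.ρ (D.e K α) ((S.ρ (D.e K (D.neg α)) ^ (n + 1)) v)
      = (((n : K) + 1) * (∑ a, μ a * (D.cr α a : K) - n)) • (S.ρ (D.e K (D.neg α)) ^ n) v := by
  have two : ∑ a, (D.rt α a : K) * (D.cr α a : K) = 2 := by
    have := congrArg (Int.cast : ℤ → K) (D.two α)
    simpa [dotProduct] using this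
  have hH : ∀ m : ℕ, S.ρ ⁅D.e K α, D.e K (D.neg α)⁆ ((S.ρ (D.e K (D.neg α)) ^ m) v)
      = (∑ a, μ a * (D.cr α a : K) - 2 * m) • (S.ρ (D.e K (D.neg α)) ^ m) v := by
    intro m
    rw [D.lie_e_neg, D.hv_eq_sum, map_sum, LinearMap.sum_apply]
    simp only [map_smul, LinearMap.smul_apply, mod2_h hv, smul_smul]
    rw [← Finset.sum_smul, ← two, Finset.sum_mul, ← Finset.sum_sub_distrib]
    congr 1
    exact Finset.sum_congr rfl fun a _ => by ring
  induction n with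
  | zero =>
    rw [pow_succ', End.mul_apply, S.comm_apply, hH, pow_zero, End.one_apply, hv.1 α hα]
    simp
  | succ n ih =>
    rw [pow_succ' _ (n + 1), End.mul_apply, S.comm_apply, hH, ih, map_smul, ← End.mul_apply,
      ← pow_succ', ← add_smul]
    congr 1
    push_cast; ring

theorem mod2_dot {χ : D.B → K} {S : LRep K (D.g K)} (hS : D.PC p χ S) {i : D.Δ}
    (h2 : χ (.inr (D.neg (D.s i))) ≠ 0) {ν : D.σ → ℤ} (h : D.HW S ν) : D.HW S (D.dotf i ν) := by
  obtain ⟨v, hv0, hv⟩ := h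
  have hp : p.Prime := Fact.out
  set f := S.ρ (D.e K (D.neg (D.s i))) with hf
  have hfp : f ^ p = χ (.inr (D.neg (D.s i))) ^ p • (1 : End K S.M) := by
    have := hS (.inr (D.neg (D.s i)))
    simpa [pmb] using this
  have hinj : ∀ m, f m = 0 → m = 0 := by
    intro m hm
    have e : (f ^ p) m = 0 := by
      obtain ⟨q, hq⟩ := Nat.exists_eq_succ_of_ne_zero hp.ne_zero
      rw [hq, pow_succ, End.mul_apply, hm, map_zero]
    rw [hfp] at e
    simpa [h2] using e
  have hne : ∀ n : ℕ, (f ^ n) v ≠ 0 := by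
    intro n
    induction n with
    | zero => exact hv0
    | succ n ih => rw [pow_succ', End.mul_apply]; exact fun h => ih (hinj _ h)
  obtain ⟨n, hn⟩ : ∃ n : ℕ, (n : K) = ((ν ⬝ᵥ D.cr (D.s i) : ℤ) : K) := by
    have h0 : (0 : ℤ) ≤ (ν ⬝ᵥ D.cr (D.s i)) % p := Int.emod_nonneg _ (by exact_mod_cast hp.ne_zero)
    refine ⟨((ν ⬝ᵥ D.cr (D.s i)) % p).toNat, ?_⟩
    rw [← Int.cast_natCast, Int.toNat_of_nonneg h0, Int.emod_def]
    push_cast
    rw [CharP.cast_eq_zero]; ring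
  refine ⟨(f ^ (n + 1)) v, hne _, fun β hβ => ?_, fun a => ?_⟩
  · by_cases hb : β = D.s i
    · subst hb
      rw [hf, mod2_sl hv hβ, hn]
      simp [dotProduct]
    · exact mod2_e hv i _ β hβ hb
  · rw [hf, mod2_h hv]
    congr 1
    simp only [RD.dotf, Pi.sub_apply, Pi.smul_apply, smul_eq_mul]
    push_cast
    rw [hn]

theorem mod2_hw {χ : D.B → K} (h2 : ∀ i, χ (.inr (D.neg (D.s i))) ≠ 0) {μ : D.σ → ℤ}
    {S : LRep K (D.g K)} (hS : D.Adm p χ μ S) : D.HW S μ := by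
  obtain ⟨ν, hl, hν⟩ := hS.hw
  refine RD.Link.induction (P := fun τ => D.HW S τ) hν (fun τ τ' hc h => ?_)
    (fun i τ h => mod2_dot hS.pc (h2 i) h) hl.symm
  have e : (fun a => (τ' a : K)) = fun a => (τ a : K) := funext fun a => by
    have := (CharP.intCast_eq_zero_iff K p _).2 (hc a)
    push_cast at this
    exact (sub_eq_zero.1 this).symm
  obtain ⟨v, hv0, hv⟩ := h
  exact ⟨v, hv0, e ▸ hv⟩

theorem mod2_coker {χ : D.B → K} (h1 : ∀ β, χ (.inr β) ≠ 0 → ∃ i, β = D.neg (D.s i))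
    {S : LRep K (D.g K)} (hS : D.PC p χ S) [Nontrivial S.M] :
    ∃ J : Submodule K S.M, (∃ s, s ∉ J) ∧
      ∀ β, ¬ D.Pos β → ∀ m, S.ρ (D.e K β) m - χ (.inr β) • m ∈ J := by
  let Y : {β // ¬ D.Pos β} → End K S.M := fun β => S.ρ (D.e K β.1) - χ (.inr β.1) • 1
  have hht : ∀ β, ¬ D.Pos β → 0 < -D.ht β := fun β h => by
    rw [← D.ht_neg, ← D.pos_iff_ht, D.pos_neg_iff]; exact h
  have key := nil_coker Y (fun β => -D.ht β.1) (fun β => hht β.1 β.2) (fun α β => ?_)
    (fun β => ?_) ⊤ top_ne_bot (fun _ _ _ => trivial)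
  · refine ⟨⨆ i, (⊤ : Submodule K S.M).map (Y i), ?_, fun β hβ m => ?_⟩
    · by_contra hc
      push Not at hc
      exact key fun s _ => hc s
    · exact Submodule.mem_iSup_of_mem ⟨β, hβ⟩ ⟨m, trivial, rfl⟩
  · have e : Y α * Y β - Y β * Y α = S.ρ ⁅D.e K α.1, D.e K β.1⁆ := by
      rw [S.lie_eq]
      simp only [Y, mul_sub, sub_mul, mul_smul_comm, smul_mul_assoc, mul_one, one_mul, smul_sub,
        smul_smul, mul_comm (χ (.inr β.1))]
      abel
    rw [e]
    by_cases hγ : ∃ γ, D.co α.1 + D.co β.1 = D.co γ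
    · obtain ⟨γ, hγ⟩ := hγ
      have hs : D.ht γ = D.ht α.1 + D.ht β.1 := by
        simp only [RD.ht, ← hγ, Pi.add_apply, Finset.sum_add_distrib]
      have ha := hht _ α.2
      have hb := hht _ β.2
      have hγ' : ¬ D.Pos γ := by rw [D.pos_iff_ht]; omega
      have h0 : χ (.inr γ) = 0 := by
        by_contra hc
        obtain ⟨i, rfl⟩ := h1 γ hc
        rw [D.ht_neg, D.ht_s] at hs
        omega
      rw [D.lie_e_e hγ, map_smul]
      refine Submodule.smul_mem _ _ (Submodule.subset_span ⟨⟨γ, hγ'⟩, ?_, ?_⟩)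
      · simp only; omega
      · simp [Y, h0]
    · push Not at hγ
      rw [D.lie_e_e_zero hγ, map_zero]
      · exact zero_mem _
      · intro h
        exact β.2 (h ▸ (D.pos_neg_iff _).2 α.2)
  · have : CharP (End K S.M) p := charP_of_injective_algebraMap (algebraMap K _).injective p
    refine ⟨p, ?_⟩
    have := hS (.inr β.1)
    rw [sub_pow_char_of_commute _ ((Commute.one_right _).smul_right _), this, smul_pow, one_pow]
    simp [pmb]

theorem mod2_iso {χ : D.B → K} (h1 : ∀ β, χ (.inr β) ≠ 0 → ∃ i, β = D.neg (D.s i))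
    {S S' : LRep K (D.g K)} (hS : S.Simple) (hS' : S'.Simple) (hp : D.PC p χ S)
    (hp' : D.PC p χ S') {μ : D.σ → ℤ} (h : D.HW S μ) (h' : D.HW S' μ) : S.Iso S' := by
  have := hS.1
  have := hS'.1
  obtain ⟨v, hv0, hv⟩ := h
  obtain ⟨v', hv0', hv'⟩ := h'
  obtain ⟨J, ⟨s, hs⟩, hJ⟩ := mod2_coker h1 hp
  obtain ⟨J', ⟨s', hs'⟩, hJ'⟩ := mod2_coker h1 hp'
  let N : Submodule K (S.M × S'.M) := sInf {U | (v, v') ∈ U ∧ ∀ β, ¬ D.Pos β → ∀ m ∈ U,
    (S.ρ (D.e K β) m.1, S'.ρ (D.e K β) m.2) ∈ U}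
  have a1 : (v, v') ∈ N := Submodule.mem_sInf.2 fun U hU => hU.1
  have a2 : ∀ β, ¬ D.Pos β → ∀ m ∈ N, (S.ρ (D.e K β) m.1, S'.ρ (D.e K β) m.2) ∈ N :=
    fun β hβ m hm => Submodule.mem_sInf.2 fun U hU => hU.2 β hβ m (Submodule.mem_sInf.1 hm U hU)
  have hN : (S.prod S').Stable N := by
    intro x m hm
    have : N ≤ N ⊓ ⨅ x, N.comap ((S.prod S').ρ x) := by
      refine sInf_le ⟨⟨a1, (Submodule.mem_iInf _).2 fun x => ?_⟩, fun β hβ m hm =>
        ⟨a2 β hβ m hm.1, ?_⟩⟩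
      · refine D.span_bv (Submodule.comap (LinearMap.applyₗ (R := K) (M := (S.prod S').M) (v, v') ∘ₗ
          (S.prod S').ρ.toLinearMap) N) (fun b => ?_) x
        change (S.ρ (D.bv K b) v, S'.ρ (D.bv K b) v') ∈ N
        rcases b with a | β
        · rw [hv.2 a, hv'.2 a]
          exact N.smul_mem _ a1
        · by_cases hβ : D.Pos β
          · rw [hv.1 β hβ, hv'.1 β hβ]
            exact N.zero_mem
          · exact a2 β hβ _ a1
      · have h3 := (Submodule.mem_iInf _).1 hm.2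
        refine (Submodule.mem_iInf _).2 fun x => ?_
        change (S.ρ x (S.ρ (D.e K β) m.1), S'.ρ x (S'.ρ (D.e K β) m.2)) ∈ N
        rw [S.comm_apply, S'.comm_apply]
        exact add_mem (a2 β hβ _ (h3 x)) (h3 ⁅x, D.e K β⁆)
    exact (Submodule.mem_iInf _).1 (this hm).2 x
  have a3 : ∀ m ∈ N, ∃ c : K, m.1 - c • v ∈ J ∧ m.2 - c • v' ∈ J' := by
    have : N ≤ Submodule.span K {(v, v')} ⊔ J.prod J' := by
      refine sInf_le ⟨Submodule.mem_sup_left (Submodule.mem_span_singleton_self _),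
        fun β hβ m hm => ?_⟩
      have := add_mem (Submodule.mem_sup_right (S := Submodule.span K {(v, v')})
        (Submodule.mem_prod.2 ⟨hJ β hβ m.1, hJ' β hβ m.2⟩ :
          (S.ρ (D.e K β) m.1 - χ (.inr β) • m.1, S'.ρ (D.e K β) m.2 - χ (.inr β) • m.2)
            ∈ J.prod J')) (Submodule.smul_mem _ (χ (.inr β)) hm)
      convert this using 1
      ext <;> simp
    intro m hm
    obtain ⟨y, hy, z, hz, rfl⟩ := Submodule.mem_sup.1 (this hm)
    obtain ⟨c, rfl⟩ := Submodule.mem_span_singleton.1 hy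
    exact ⟨c, by simpa using hz.1, by simpa using hz.2⟩
  have b1 : S.Stable (N.comap (LinearMap.inl K S.M S'.M)) := fun x m hm => by
    have : (S.ρ x m, S'.ρ x 0) ∈ N := hN x _ hm
    rwa [map_zero] at this
  have b2 : S'.Stable (N.comap (LinearMap.inr K S.M S'.M)) := fun x m hm => by
    have : (S.ρ x 0, S'.ρ x m) ∈ N := hN x _ hm
    rwa [map_zero] at this
  rcases hS.2 _ b1 with c1 | c1
  · let g : N →ₗ[K] S'.M := LinearMap.snd K S.M S'.M ∘ₗ N.subtype
    have hg : ((S.prod S').sub N hN).IsHom S' g := fun _ _ => rfl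
    have hbij : Function.Bijective g := by
      refine ⟨(injective_iff_map_eq_zero g).2 fun m hm => ?_, ?_⟩
      · have e : m.1.2 = 0 := hm
        have : m.1.1 ∈ N.comap (LinearMap.inl K S.M S'.M) := by
          change (m.1.1, 0) ∈ N
          rw [← e]; exact m.2
        rw [c1] at this
        exact Subtype.ext (Prod.ext this e)
      · rcases hS'.2 _ hg.range with c | c
        · exact absurd ((Submodule.eq_bot_iff _).1 c v' ⟨⟨_, a1⟩, rfl⟩) hv0'
        · exact LinearMap.range_eq_top.1 c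
    let G := LinearEquiv.ofBijective g hbij
    have hG : ∀ m, G.symm (g m) = m := G.symm_apply_apply
    refine (LRep.iso_of_hom hS' hS
      (f := LinearMap.fst K S.M S'.M ∘ₗ N.subtype ∘ₗ G.symm.toLinearMap) (fun x m => ?_)
      (fun h0 => hv0 ?_)).symm
    · obtain ⟨m, rfl⟩ := hbij.2 m
      have e := hG (((S.prod S').sub N hN).ρ x m)
      have e' := hg x m
      change (G.symm (S'.ρ x (g m))).1.1 = S.ρ x (G.symm (g m)).1.1
      rw [hG]
      exact congrArg (fun y : N => y.1.1) ((congrArg G.symm e'.symm).trans e)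
    · have := LinearMap.congr_fun h0 (g ⟨_, a1⟩)
      change (G.symm (g ⟨_, a1⟩)).1.1 = 0 at this
      rwa [hG] at this
  · exfalso
    have d1 : ∀ m, (m, (0 : S'.M)) ∈ N := fun m =>
      (c1 ▸ trivial : m ∈ N.comap (LinearMap.inl K S.M S'.M))
    have d2 : v' ∈ N.comap (LinearMap.inr K S.M S'.M) := by
      have := sub_mem a1 (d1 v)
      simpa using this
    rcases hS'.2 _ b2 with c2 | c2
    · rw [c2] at d2; exact hv0' d2
    obtain ⟨c, e1, e2⟩ := a3 _ (d1 s)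
    obtain ⟨c', -, e3⟩ := a3 (0, s') (c2 ▸ trivial : s' ∈ N.comap (LinearMap.inr K S.M S'.M))
    by_cases hc : c = 0
    · exact hs (by simpa [hc] using e1)
    · have e4 : v' ∈ J' := by simpa [J'.smul_mem_iff hc] using e2
      exact hs' (by simpa using add_mem e3 (J'.smul_mem c' e4))

theorem reg {χ : D.B → K} (hχ : D.Std χ) (h1 : ∀ β, χ (.inr β) ≠ 0 → ∃ i, β = D.neg (D.s i))
    (h2 : ∀ i, χ (.inr (D.neg (D.s i))) ≠ 0) (μ : D.σ → ℤ) : D.BndAt p χ μ 1 := by
  have _ := hχ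
  intro A _ S hS hi
  exact Fintype.card_le_one_iff.2 fun a a' => hi a a' (mod2_iso h1 (hS a).simple (hS a').simple
    (hS a).pc (hS a').pc (mod2_hw h2 (hS a)) (mod2_hw h2 (hS a')))

theorem mod2_sav {χ : D.B → K} (hχ : D.Std χ)
    (h : ∀ β, χ (.inr β) ≠ 0 → ∃ i, β = D.neg (D.s i)) (J : Finset D.Δ)
    (hJ : ∀ i, i ∈ J ↔ χ (.inr (D.neg (D.s i))) ≠ 0) {s : ℕ} (h0 : 0 < s)
    (hs : s ≤ (D.toRD.levi J).wn) : D.Sav p χ s := by
  intro μ
  obtain ⟨T, hT, hc⟩ := D.toRD.exists_reps J p μ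
  refine (t1 (n := 1) J hχ (fun β hβ => ?_) T hT fun t _ => reg (D.std_levi J hχ)
    (fun β hβ => ?_) (fun i => (hJ i.1).1 i.2) t).mono ?_
  · obtain ⟨i, rfl⟩ := h β hβ
    exact D.in_neg.2 (D.in_s.2 ((hJ i).2 hβ))
  · have hβ' : χ (.inr β.1) ≠ 0 := hβ
    obtain ⟨i, hi⟩ := h β.1 hβ'
    exact ⟨⟨i, (hJ i).2 (hi ▸ hβ')⟩, Subtype.ext hi⟩
  · rw [mul_one, Nat.le_div_iff_mul_le h0]
    exact (Nat.mul_le_mul_left _ hs).trans hc

theorem sav_std {χ : D.B → K} (hχ : D.Std χ)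
    (h : ∀ β, χ (.inr β) ≠ 0 → ∃ i, β = D.neg (D.s i)) : D.Sav p χ 1 := by
  classical
  exact mod2_sav hχ h (Finset.univ.filter fun i => χ (.inr (D.neg (D.s i))) ≠ 0) (by simp)
    one_pos (RD.wn_pos _)

theorem sav_std_two {χ : D.B → K} (hχ : D.Std χ)
    (h : ∀ β, χ (.inr β) ≠ 0 → ∃ i, β = D.neg (D.s i)) (h0 : ∃ β, χ (.inr β) ≠ 0) :
    D.Sav p χ 2 := by
  classical
  obtain ⟨β, hβ⟩ := h0
  obtain ⟨i, rfl⟩ := h β hβ
  have : Nonempty (D.toRD.levi
      (Finset.univ.filter fun i => χ (.inr (D.neg (D.s i))) ≠ 0)).Δ := ⟨⟨i, by simpa using hβ⟩⟩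
  exact mod2_sav hχ h (Finset.univ.filter fun i => χ (.inr (D.neg (D.s i))) ≠ 0) (by simp)
    two_pos (RD.two_le_wn _)

end CD

end Pool.Agent.P.Bf04
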