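import Pool.Agent.P.MP_bf0464_al.H.ClRep
import Pool.Agent.P.MP_bf0464_al.H.ClW
import Pool.Agent.P.MP_bf0464_al.H.Bad
import Pool.Agent.P.MP_bf0464_al.H.Mod2
import Pool.Agent.P.MP_bf0464_al.Trans

/-! The bound in types B, C, D. -/

namespace Pool.Agent.P.Bf04

open Matrix Module

attribute [local instance 100] LieRing.ofAssociativeRing

universe u v w

namespace CD

variable {D : CD} {K : Type u} [Field K] [IsAlgClosed K] {p : ℕ} [Fact p.Prime] [CharP K p]

omit [IsAlgClosed K] in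
theorem clbnd_pm [Fact (Odd p)] {V : Type u} [AddCommGroup V] [Module K V] {Q : QF K V}
    {φ : D.g K ≃ₗ⁅K⁆ Q.g} (h : ∀ b, (φ (D.bv K b)).1 ^ p = (φ (D.pmb K b)).1) {x y : D.g K}
    (hxy : D.IsPm p x y) : φ y = Q.pw p (φ x) := by
  have hp := (Fact.out : p.Prime).ne_zero
  have hS : D.PC p (0 : D.B → K) ⟨V, Q.g.incl.comp φ.toLieHom⟩ := fun b => by
    rw [Pi.zero_apply, zero_pow hp, zero_smul, add_zero]
    exact h b
  have h1 := hxy.pc hS
  rw [zero_dotProduct, zero_pow hp, zero_smul, add_zero] at h1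
  exact Subtype.ext h1.symm

omit [IsAlgClosed K] in
theorem clbnd_base {V : Type u} [AddCommGroup V] [Module K V] {Q : QF K V}
    (h : (∀ v : V, v = 0) ∨ ∃ x : V, Q.β x x ≠ 0 ∧ ∀ v, ∃ c : K, v = c • x) :
    finrank K V ≤ 1 ∧ (∀ x : Q.g, x = 0) ∧
      ∃ θ, IsType Q.ε (finrank K V) θ 0 ∧ ∀ R, Q.HasCC R θ := by
  rcases h with h | ⟨x, hx, h⟩
  · rw [QF.finrank_triv h]
    let fr : Q.Frame Empty := ⟨⊤, Empty.elim, Empty.elim, fun _ => trivial, fun _ => trivial,
      fun x _ => (h _).trans (h _).symm, fun x _ => (h _).trans (h _).symm, fun i => i.elim⟩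
    exact ⟨zero_le_one, QF.g_zero_of_triv h, _, isType_zero _, fun R =>
      QF.HasCC.of_frame fr rfl fun n m => by simp [QF.Frame.C, cas, Matrix.trace]⟩
  · rw [QF.finrank_line hx h]
    have hε : Q.ε = 1 := mul_right_cancel₀ hx ((Q.symm x x).symm.trans (one_mul _).symm)
    let fr : Q.Frame Unit := ⟨⊤, fun _ => x, fun _ => (Q.β x x)⁻¹ • x, fun _ => trivial,
      fun _ => trivial, fun v _ => by obtain ⟨s, rfl⟩ := h v; simp [hx],
      fun v _ => by obtain ⟨s, rfl⟩ := h v; simp [hx, smul_smul], fun _ _ => by simp [hx]⟩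
    refine ⟨le_rfl, QF.g_zero_of_line hx h, fun n => 2⁻¹ ^ n, hε ▸ isType_one Q.two, fun R =>
      QF.HasCC.of_frame fr rfl fun n m => ?_⟩
    have key : fr.C (Q.φ R) n = algebraMap K _ (2⁻¹ ^ n) := by
      have h1 : ∀ v w, Q.φ R v w = 0 := fun v w => by
        rw [QF.φ_apply, QF.g_zero_of_line hx h (Q.Fs v w)]; simp
      have h2 : QF.sh Q.ε (Fintype.card Unit) = -2⁻¹ := by simp [QF.sh, hε]; ring
      simp only [QF.Frame.C, cas, Matrix.trace, h1, h2, Finset.univ_unique, Finset.sum_singleton,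
        Matrix.diag]
      induction n with
      | zero => simp
      | succ n ih => rw [Om_pow_succ, ih, pow_succ', map_mul]; simp
    rw [key]
    rfl

theorem ClIso.bnd [Fact (Odd p)] {V V₀ : Type u} [AddCommGroup V] [Module K V] [AddCommGroup V₀]
    [Module K V₀] [FiniteDimensional K V] [FiniteDimensional K V₀] {Q : QF K V} {Q₀ : QF K V₀}
    {m : ℕ} {Fl : Q.Flag Q₀ m} {φ : D.g K ≃ₗ⁅K⁆ Q.g} {H : Fin m → D.σ → K}
    (h : D.ClIso p Fl φ H) {χ : D.B → K} (hχ : D.Std χ) :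
    ∃ e : End K V, Q.Sk e ∧ IsNilpotent e ∧ (χ ≠ 0 → e ≠ 0) ∧
      ∀ b, Q.Bound p e b → ∀ μ, D.BndAt p χ μ b := by
  obtain ⟨hd, hz, θ₀, ht, hcc⟩ := clbnd_base h.small
  obtain rfl : m = finrank K V / 2 := by have := Fl.finrank_eq; omega
  let χ' : Q.g →ₗ[K] K :=
    { toFun := fun x => χ ⬝ᵥ φ.symm x
      map_add' := fun x y => by rw [map_add, dotProduct_add]
      map_smul' := fun c x => by rw [map_smul, dotProduct_smul]; rfl }
  have hu : LinearIndependent K Fl.u := by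
    rw [Fintype.linearIndependent_iff]
    intro c hc j
    simpa [Fl.u'u] using congrArg (Q.β (Fl.u' j)) hc
  obtain ⟨e, he, hn, hχe⟩ := QF.nil_of_borel h.nd χ' Fl.u hu Fl.uu fun x hx =>
    Finset.sum_eq_zero fun b _ => by
      rcases b with a | β
      · rw [hχ.1, zero_mul]
      · by_cases hβ : D.Pos β
        · rw [hχ.2 β hβ, zero_mul]
        · rw [h.bor x hx β hβ, mul_zero]
  have hχ' : ∀ x, Q.χ e x = χ ⬝ᵥ φ.symm x := fun x => by rw [hχe]; rfl
  refine ⟨e, he, hn, fun h0 h1 => h0 (funext fun b => ?_), fun b hb μ A _ S hS hi => ?_⟩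
  · have h2 := hχ' (φ (D.bv K b))
    rw [h1, QF.χ_apply, zero_mul, map_zero, φ.symm_apply_apply, bv, dotProduct_single,
      mul_one] at h2
    exact h2.symm
  let R : A → LRep K Q.g := fun a => (S a).res φ.symm.toLieHom
  have hR : ∀ a x, (R a).ρ (φ x) = (S a).ρ x := fun a x =>
    congrArg (S a).ρ (φ.symm_apply_apply x)
  have key : ∀ a, ∃ θ s, Q.Adm p e θ (R a) ∧ IsType Q.ε (finrank K V) θ s ∧ s.map (· ^ 2)
      = (Finset.univ.val.map (Fl.lw fun i => ∑ b, (μ b : K) * H i b)).map (· ^ 2) := by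
    intro a
    have : FiniteDimensional K (R a).M := (hS a).fd
    have hs : (R a).Simple := ⟨(hS a).simple.1, fun N hN => (hS a).simple.2 N fun x m hm => by
      rw [← hR]; exact hN _ m hm⟩
    have hp : Q.PChar p e (R a) := fun x m => by
      obtain ⟨x, rfl⟩ : ∃ y, φ y = x := ⟨_, φ.apply_symm_apply x⟩
      obtain ⟨y, hy⟩ := D.exists_pm p x
      rw [← clbnd_pm h.pc hy, hR, hR, hχ', φ.symm_apply_apply]
      exact LinearMap.congr_fun (hy.pc (hS a).pc) m
    obtain ⟨θ, hθ⟩ := Q.exists_cc h.nd hs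
    obtain ⟨ν, hl, v, hv, h1, h2⟩ := (hS a).hw
    have hw : Fl.HW (R a) ⟨K, 0⟩ (LinearMap.toSpanSingleton K _ v)
        fun i => ∑ b, (ν b : K) * H i b := by
      refine ⟨fun x c => by rw [hz x]; simp, fun h0 => hv ?_, fun c j w hw => ?_, fun i c => ?_⟩
      · simpa using LinearMap.congr_fun h0 1
      · have h3 : (S a).ρ (φ.symm (Q.Fs (Fl.u j) w)) v = 0 := by
          refine (Submodule.span_le
            (p := LinearMap.ker (LinearMap.applyₗ v ∘ₗ (S a).ρ.toLinearMap))).2 ?_ (h.top j w hw)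
          rintro _ ⟨β, hβ, rfl⟩
          exact h1 β hβ
        rw [LinearMap.toSpanSingleton_apply, map_smul]
        exact (congrArg (c • ·) h3).trans (smul_zero c)
      · have h3 : (S a).ρ (D.hv (H i)) v = (∑ b, (ν b : K) * H i b) • v := by
          rw [D.hv_eq_sum, map_sum, LinearMap.sum_apply, Finset.sum_smul]
          exact Finset.sum_congr rfl fun b _ => by
            rw [map_smul, LinearMap.smul_apply, h2, smul_smul, mul_comm]
        rw [LinearMap.toSpanSingleton_apply, map_smul, QF.φ_apply, ← h.tor, hR, smul_comm]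
        exact congrArg (c • ·) h3
    refine ⟨θ, _, ⟨inferInstance, hs, hp, hθ⟩, hw.type (p := p) h.nd₀
      (fun i => hw.wt_pow hp i ?_) hθ (hcc _) ht, ?_⟩
    · rw [hχ', ← h.tor, φ.symm_apply_apply]
      exact Finset.sum_eq_zero fun b _ => by
        rcases b with a | β
        · rw [hχ.1, zero_mul]
        · exact mul_zero _
    · rw [add_zero]
      refine hl.induction (P := fun ν =>
        (Finset.univ.val.map (Fl.lw fun i => ∑ b, (ν b : K) * H i b)).map (· ^ 2) = _) rfl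
        (fun ν ν' h3 h4 => ?_) fun i ν h3 => (h.inv i ν).trans h3
      have h5 : ∀ b, (ν' b : K) = ν b := fun b => by
        have := (CharP.intCast_eq_zero_iff K p _).2 (h3 b)
        rw [Int.cast_sub, sub_eq_zero] at this
        exact this.symm
      simpa only [h5] using h4
  choose θ s h1 h2 h3 using key
  rcases isEmpty_or_nonempty A with hA | ⟨⟨a₀⟩⟩
  · simp
  refine hb (θ a₀) A R (fun a => ?_) fun a a' ⟨f, hf⟩ => hi a a' ⟨f, fun x m => ?_⟩
  · rw [(h2 a₀).char_eq Q.two (h2 a) ((h3 a₀).trans (h3 a).symm)]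
    exact h1 a
  · rw [← hR, ← hR]
    exact hf _ m

theorem clbnd_has [Fact (Odd p)] {m z : ℕ} {ε : K} (h : D.HasCl p K m ε z) {χ : D.B → K}
    (hχ : D.Std χ) : ∃ b, (∀ μ, D.BndAt p χ μ b) ∧ b ≤ 2 ^ m * m.factorial ∧
      (ε = 1 → z = 0 → χ ≠ 0 → 2 * b ≤ 2 ^ m * m.factorial) := by
  obtain ⟨V, V₀, _, _, _, _, _, _, Q, Q₀, Fl, φ, H, h, rfl, rfl⟩ := h
  obtain ⟨e, he, hn, h0, hb⟩ := h.bnd hχ
  obtain ⟨b, b1, b2, b3⟩ := QF.good_all (p := p) _ V Q e (Nat.lt_succ_self _) h.nd he hn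
  have h1 := Fl.finrank_eq
  have h2 := (clbnd_base h.small).1
  rw [Bf04.W, show finrank K V / 2 = m by omega] at b2 b3
  exact ⟨b, hb b b1, b2, fun a1 a2 a3 => b3 a1 ⟨m, by omega⟩ (h0 a3)⟩

theorem sav_BCD (hg : D.Good p) (hS : D.SC) {n : ℕ}
    (h : IsTyp D.A Finset.univ (CartanMatrix.B (n + 2)) ∨
      IsTyp D.A Finset.univ (CartanMatrix.C (n + 3)) ∨
      IsTyp D.A Finset.univ (CartanMatrix.D (n + 4)))
    {χ : D.B → K} (hχ : D.Std χ) : D.Sav p χ 1 := by
  have hp : p ≠ 2 := hg.ne_two_BCD h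
  have : Fact (Odd p) := ⟨(Fact.out : p.Prime).odd_of_ne_two hp⟩
  have hN : ∀ α β γ, D.co α + D.co β = D.co γ → (D.N α β : K) ≠ 0 := fun α β γ h' h0 =>
    D.N_good Fact.out hg h' ((CharP.intCast_eq_zero_iff K p _).1 h0)
  by_cases h0 : χ = 0
  · exact sav_std hχ fun β hβ => absurd (congrFun h0 _) hβ
  intro μ
  rw [Nat.div_one]
  rcases h with h | h | h
  · obtain ⟨b, b1, b2, -⟩ := clbnd_has (hasCl_B hp hN hS h) hχ
    exact (b1 μ).mono (b2.trans (RD.wn_B h))
  · obtain ⟨b, b1, b2, -⟩ := clbnd_has (hasCl_C hp hN hS h) hχ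
    exact (b1 μ).mono (b2.trans (RD.wn_C h))
  · obtain ⟨b, b1, -, b3⟩ := clbnd_has (hasCl_D hp hN hS h) hχ
    have b4 := b3 rfl rfl h0
    rw [pow_succ' 2 (n + 3), mul_assoc] at b4
    exact (b1 μ).mono ((Nat.le_of_mul_le_mul_left b4 two_pos).trans (RD.wn_D h))

end CD

end Pool.Agent.P.Bf04
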