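import Pool.Agent.P.MP_bf0464_al.H.Class_1

/-! Classification of connected Cartan matrices of finite type. -/

namespace Pool.Agent.P.Bf04

/-- the indices in `C` carry the matrix `M` -/
def IsTyp {Δ : Type} [DecidableEq Δ] [Fintype Δ] (A : Matrix Δ Δ ℤ) (C : Finset Δ) {n : ℕ}
    (M : Matrix (Fin n) (Fin n) ℤ) : Prop :=
  ∃ e : Fin n → Δ, Function.Injective e ∧ Finset.univ.image e = C ∧ ∀ a b, A (e a) (e b) = M a b

open Finset

section

variable {Δ : Type} [DecidableEq Δ] [Fintype Δ] {A : Matrix Δ Δ ℤ}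

theorem cls_zero (H : ClsCart A) {i j : Δ} (hij : i ≠ j) (h : ¬ A i j < 0) :
    A i j = 0 ∧ A j i = 0 := by
  have h1 := H.neg i j hij
  have h2 := H.neg j i hij.symm
  have h3 := H.sym j i
  omega

theorem cls_chord (H : ClsCart A) {n : ℕ} {e : ℕ → Δ} (h : ClsPath A n e) (a b : ℕ)
    (hab : a + 2 ≤ b) (hb : b < n) : A (e b) (e a) = 0 ∧ A (e a) (e b) = 0 := by
  refine cls_zero H (fun h' => by have := h.1 b hb a (by omega) h'; omega) fun hc => ?_
  refine cls_cyc H (h.sub a (b - a + 1) (by omega)) (by omega) ?_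
  rwa [show a + (b - a + 1 - 1) = b by omega, add_zero]

theorem cls_uniq (H : ClsCart A) {n : ℕ} {e : ℕ → Δ} (h : ClsPath A n e) (w : Δ)
    (hw : ∀ a < n, e a ≠ w) (a b : ℕ) (hab : a < b) (hb : b < n) (h1 : A (e a) w < 0)
    (h2 : A (e b) w < 0) : False := by
  have hp := (h.sub a (b - a + 1) (by omega)).snoc w (fun c hc => hw _ (by omega))
    (fun c hc => by rwa [show a + c = b by omega])
  refine cls_cyc H hp (by omega) ?_
  rw [if_pos (by omega), if_neg (by omega), add_zero]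
  exact H.sym _ _ h1

theorem cls_isTyp (f : ℕ → Δ) (N : ℕ) (hf : ∀ a < N, ∀ b < N, f a = f b → a = b)
    (σ : Fin N → ℕ) (hσ : Function.Injective σ) (hσ' : ∀ a, σ a < N)
    (M : Matrix (Fin N) (Fin N) ℤ) (G : ℕ → ℕ → ℤ) (hG : ∀ a < N, ∀ b < N, A (f a) (f b) = G a b)
    (hM : ∀ a b, G (σ a) (σ b) = M a b) : IsTyp A ((range N).image f) M := by
  refine ⟨fun a => f (σ a), fun a b hab => hσ (hf _ (hσ' a) _ (hσ' b) hab), ?_,
    fun a b => by rw [hG _ (hσ' a) _ (hσ' b), hM]⟩
  have h1 : Finset.univ.image σ = range N := by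
    refine Finset.eq_of_subset_of_card_le (fun a ha => ?_) ?_
    · obtain ⟨b, -, rfl⟩ := Finset.mem_image.1 ha
      exact mem_range.2 (hσ' b)
    · rw [Finset.card_image_of_injective _ hσ]
      simp
  rw [← h1, Finset.image_image]
  rfl

/-- the list of types -/
def ClsTyp (A : Matrix Δ Δ ℤ) (C : Finset Δ) : Prop :=
  (∃ n, IsTyp A C (CartanMatrix.A (n + 1))) ∨ (∃ n, IsTyp A C (CartanMatrix.B (n + 2))) ∨
    (∃ n, IsTyp A C (CartanMatrix.C (n + 3))) ∨ (∃ n, IsTyp A C (CartanMatrix.D (n + 4))) ∨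
    IsTyp A C CartanMatrix.E₆ ∨ IsTyp A C CartanMatrix.E₇ ∨ IsTyp A C CartanMatrix.E₈ ∨
    IsTyp A C CartanMatrix.F₄ ∨ IsTyp A C CartanMatrix.G₂

/-- the matrix of a path with one special bond -/
def clsP (c : ℕ) (p q : ℤ) (a b : ℕ) : ℤ :=
  if a = b then 2 else if a + 1 = b then (if a = c then p else -1)
  else if b + 1 = a then (if b = c then q else -1) else 0

theorem cls_entries (H : ClsCart A) {n : ℕ} {e : ℕ → Δ} (h : ClsPath A n e) (c : ℕ)
    (hc : ∀ a, a + 1 < n → a ≠ c → ¬ ClsMult A (e a) (e (a + 1))) (a : ℕ) (ha : a < n) (b : ℕ)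
    (hb : b < n) : A (e a) (e b) = clsP c (A (e c) (e (c + 1))) (A (e (c + 1)) (e c)) a b := by
  unfold clsP
  split_ifs with h1 h2 h3 h4 h5
  · rw [h1, H.diag]
  · rw [← h2, h3]
  · have := hc a (by omega) h3
    have h6 := h.2 a b h2 hb
    rw [h2] at this
    unfold ClsMult at this
    omega
  · rw [← h4, h5]
  · have := hc b (by omega) h5
    have h6 := h.back H a b h4 ha
    rw [h4] at this
    unfold ClsMult at this
    omega
  · rcases lt_or_gt_of_ne h1 with h6 | h6
    · exact (cls_chord H h a b (by omega) hb).2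
    · exact (cls_chord H h b a (by omega) ha).1

theorem cls_rev_inj (N : ℕ) : Function.Injective fun a : Fin N => N - 1 - a.val := by
  intro a b hab
  have := a.2
  have := b.2
  simp only at hab
  exact Fin.ext (by omega)

theorem cls_path (H : ClsCart A) {n : ℕ} {e : ℕ → Δ} (h : ClsPath A n e) (hn : 1 ≤ n) :
    ClsTyp A ((range n).image e) := by
  by_cases hm : ∃ c, c + 1 < n ∧ ClsMult A (e c) (e (c + 1))
  swap
  · obtain ⟨n, rfl⟩ : ∃ m, n = m + 1 := ⟨n - 1, by omega⟩
    refine Or.inl ⟨n, cls_isTyp e _ h.1 Fin.val Fin.val_injective (fun a => a.2) _ _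
      (cls_entries H h (n + 1) fun a ha _ h' => hm ⟨a, ha, h'⟩) fun a b => ?_⟩
    have := a.2
    have := b.2
    simp only [clsP, CartanMatrix.A, Matrix.of_apply, Fin.ext_iff]
    split_ifs <;> omega
  obtain ⟨c, hc, hcm⟩ := hm
  have two : ∀ a b, a < b → b + 1 < n → ClsMult A (e a) (e (a + 1)) →
      ClsMult A (e b) (e (b + 1)) → False := by
    intro a b hab hb h1 h2
    refine cls_mm H (h.sub a (b - a + 2) (by omega)) (by omega) h1 ?_
    rw [show a + (b - a + 2 - 1) = b + 1 by omega, show a + (b - a + 2 - 2) = b by omega]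
    exact h2.symm
  have ent := cls_entries H h c fun a ha hac h' => by
    rcases lt_or_gt_of_ne hac with h1 | h1
    · exact two a c h1 hc h' hcm
    · exact two c a h1 ha hcm h'
  have hp := h.2 c (c + 1) rfl hc
  have hq := H.sym _ _ hp
  have hpq := cls_prod H _ _ hp
  unfold ClsMult at hcm
  have tri : A (e c) (e (c + 1)) ≤ -3 ∨ A (e (c + 1)) (e c) ≤ -3 → n = 2 := by
    intro ht
    by_contra hne
    by_cases h1 : c + 2 < n
    · exact cls_triple H (h.sub c 3 (by omega)) ht
    · refine cls_triple H (h.rev H (c + 1) 3 hc (by omega)) ?_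
      exact ht.symm
  have mid : c = 0 ∨ c + 2 = n ∨ (c = 1 ∧ n = 4) := by
    by_contra hne
    by_cases h1 : 2 ≤ c
    · refine cls_f4 H (h.sub (c - 2) 5 (by omega)) ?_
      rwa [show c - 2 + 2 = c by omega, show c - 2 + 3 = c + 1 by omega]
    · refine cls_f4 H (h.rev H (c + 3) 5 (by omega) (by omega)) ?_
      exact hcm.symm
  generalize A (e c) (e (c + 1)) = p at *
  generalize A (e (c + 1)) (e c) = q at *
  have hcases : (p = -2 ∧ q = -1) ∨ (p = -1 ∧ q = -2) ∨ (p = -3 ∧ q = -1) ∨ (p = -1 ∧ q = -3) := by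
    have h1 : -3 ≤ p := by nlinarith
    have h2 : -3 ≤ q := by nlinarith
    interval_cases p <;> interval_cases q <;> omega
  rcases hcases with ⟨rfl, rfl⟩ | ⟨rfl, rfl⟩ | ⟨rfl, rfl⟩ | ⟨rfl, rfl⟩
  · by_cases h1 : c + 2 = n
    · subst h1
      refine Or.inr (Or.inl ⟨c, cls_isTyp e _ h.1 Fin.val Fin.val_injective (fun a => a.2) _ _
        ent fun a b => ?_⟩)
      have := a.2
      have := b.2
      simp only [clsP, CartanMatrix.B, Matrix.of_apply, Fin.ext_iff]
      split_ifs <;> omega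
    by_cases h2 : c = 0
    · subst h2
      obtain ⟨n, rfl⟩ : ∃ m, n = m + 3 := ⟨n - 3, by omega⟩
      refine Or.inr (Or.inr (Or.inl ⟨n, cls_isTyp e _ h.1 _ (cls_rev_inj _) (fun a => by omega) _ _
        ent fun a b => ?_⟩))
      have := a.2
      have := b.2
      simp only [clsP, CartanMatrix.C, Matrix.of_apply, Fin.ext_iff]
      split_ifs <;> omega
    obtain ⟨rfl, rfl⟩ : c = 1 ∧ n = 4 := by omega
    refine Or.inr (Or.inr (Or.inr (Or.inr (Or.inr (Or.inr (Or.inr (Or.inl ?_)))))))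
    exact cls_isTyp e _ h.1 Fin.val Fin.val_injective (fun a => a.2) _ _ ent (by decide)
  · by_cases h2 : c = 0
    · subst h2
      obtain ⟨n, rfl⟩ : ∃ m, n = m + 2 := ⟨n - 2, by omega⟩
      refine Or.inr (Or.inl ⟨n, cls_isTyp e _ h.1 _ (cls_rev_inj _) (fun a => by omega) _ _
        ent fun a b => ?_⟩)
      have := a.2
      have := b.2
      simp only [clsP, CartanMatrix.B, Matrix.of_apply, Fin.ext_iff]
      split_ifs <;> omega
    by_cases h1 : c + 2 = n
    · obtain ⟨c, rfl⟩ : ∃ m, c = m + 1 := ⟨c - 1, by omega⟩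
      subst h1
      refine Or.inr (Or.inr (Or.inl ⟨c, cls_isTyp e _ h.1 Fin.val Fin.val_injective
        (fun a => a.2) _ _ ent fun a b => ?_⟩))
      have := a.2
      have := b.2
      simp only [clsP, CartanMatrix.C, Matrix.of_apply, Fin.ext_iff]
      split_ifs <;> omega
    obtain ⟨rfl, rfl⟩ : c = 1 ∧ n = 4 := by omega
    refine Or.inr (Or.inr (Or.inr (Or.inr (Or.inr (Or.inr (Or.inr (Or.inl ?_)))))))
    exact cls_isTyp e _ h.1 _ (cls_rev_inj _) (fun a => by omega) _ _ ent (by decide)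
  · obtain rfl := tri (by omega)
    obtain rfl : c = 0 := by omega
    refine Or.inr (Or.inr (Or.inr (Or.inr (Or.inr (Or.inr (Or.inr (Or.inr ?_)))))))
    exact cls_isTyp e _ h.1 Fin.val Fin.val_injective (fun a => a.2) _ _ ent (by decide)
  · obtain rfl := tri (by omega)
    obtain rfl : c = 0 := by omega
    refine Or.inr (Or.inr (Or.inr (Or.inr (Or.inr (Or.inr (Or.inr (Or.inr ?_)))))))
    exact cls_isTyp e _ h.1 _ (cls_rev_inj _) (fun a => by omega) _ _ ent (by decide)

/-- the matrix of a simply laced path with one more vertex attached at position `k` -/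
def clsG (n k : ℕ) (a b : ℕ) : ℤ :=
  if a = b then 2 else if (a + 1 = b ∧ b < n) ∨ (b + 1 = a ∧ a < n) ∨ (a = k ∧ b = n) ∨
    (a = n ∧ b = k) then -1 else 0

theorem cls_branch (H : ClsCart A) {n : ℕ} {e : ℕ → Δ} (h : ClsPath A n e) (w : Δ)
    (hw : ∀ a < n, e a ≠ w) (k : ℕ) (hk0 : 0 < k) (hk : k + 1 < n) (hkw : A (e k) w < 0) :
    ClsTyp A ((range (n + 1)).image fun i => if i = n then w else e i) := by
  have simple : ∀ a, a + 1 < n → ¬ ClsMult A (e a) (e (a + 1)) := by
    intro a ha hm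
    by_cases h1 : k ≤ a
    · refine cls_fm H (h.sub (k - 1) (a - k + 3) (by omega)) (by omega) w
        (fun c hc => hw _ (by omega)) (by rwa [show k - 1 + 1 = k by omega]) ?_
      rw [show k - 1 + (a - k + 3 - 1) = a + 1 by omega, show k - 1 + (a - k + 3 - 2) = a by omega]
      exact hm.symm
    · refine cls_fm H (h.rev H (k + 1) (k - a + 2) hk (by omega)) (by omega) w
        (fun c hc => hw _ (by omega)) hkw ?_
      rw [show k + 1 - (k - a + 2 - 1) = a by omega,
        show k + 1 - (k - a + 2 - 2) = a + 1 by omega]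
      exact hm
  have simple' : ¬ ClsMult A (e k) w := by
    intro hm
    have hp := (h.sub (k - 1) 2 (by omega)).snoc w (fun c hc => hw _ (by omega))
      (fun c hc => by rwa [show k - 1 + c = k by omega])
    refine cls_fm H hp (by omega) (e (k + 1)) (fun c hc => ?_) ?_ ?_
    · split_ifs with h1
      · exact (hw _ hk).symm
      · intro h2
        have := h.1 _ (by omega) _ hk h2
        omega
    · rw [if_neg (by omega), show k - 1 + 1 = k by omega]
      exact h.2 _ _ rfl hk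
    · rw [if_pos (by omega), if_neg (by omega), show k - 1 + (2 + 1 - 2) = k by omega]
      exact hm.symm
  have hwk := H.sym _ _ hkw
  have other : ∀ a < n, a ≠ k → A (e a) w = 0 ∧ A w (e a) = 0 := by
    intro a ha hak
    refine cls_zero H (hw a ha) fun h1 => ?_
    rcases lt_or_gt_of_ne hak with h2 | h2
    · exact cls_uniq H h w hw a k h2 (by omega) h1 hkw
    · exact cls_uniq H h w hw k a h2 ha hkw h1
  have ent : ∀ a < n + 1, ∀ b < n + 1, A (if a = n then w else e a) (if b = n then w else e b) =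
      clsG n k a b := by
    intro a ha b hb
    unfold ClsMult at simple'
    by_cases h1 : a = n <;> by_cases h2 : b = n
    · rw [if_pos h1, if_pos h2, H.diag, clsG, if_pos (by omega)]
    · rw [if_pos h1, if_neg h2, clsG]
      by_cases h3 : b = k
      · rw [h3]
        split_ifs <;> omega
      · rw [(other b (by omega) h3).2]
        split_ifs <;> omega
    · rw [if_neg h1, if_pos h2, clsG]
      by_cases h3 : a = k
      · rw [h3]
        split_ifs <;> omega
      · rw [(other a (by omega) h3).1]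
        split_ifs <;> omega
    · rw [if_neg h1, if_neg h2, cls_entries H h n (fun a ha _ => simple a ha) a (by omega) b
        (by omega), clsP, clsG]
      split_ifs <;> omega
  have hinj : ∀ a < n + 1, ∀ b < n + 1, (if a = n then w else e a) = (if b = n then w else e b) →
      a = b := by
    intro a ha b hb hab
    split_ifs at hab with h1 h2 h2
    · omega
    · exact absurd hab.symm (hw b (by omega))
    · exact absurd hab (hw a (by omega))
    · exact h.1 a (by omega) b (by omega) hab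
  by_cases h1 : k + 2 = n
  · obtain ⟨k, rfl⟩ : ∃ m, k = m + 1 := ⟨k - 1, by omega⟩
    subst h1
    refine Or.inr (Or.inr (Or.inr (Or.inl ⟨k, cls_isTyp _ _ hinj Fin.val Fin.val_injective
      (fun a => a.2) _ _ ent fun a b => ?_⟩)))
    have := a.2
    have := b.2
    simp only [clsG, CartanMatrix.D, Matrix.of_apply, Fin.ext_iff]
    split_ifs <;> omega
  by_cases h2 : k = 1
  · obtain ⟨n, rfl⟩ : ∃ m, n = m + 3 := ⟨n - 3, by omega⟩
    subst h2
    refine Or.inr (Or.inr (Or.inr (Or.inl ⟨n, cls_isTyp _ _ hinj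
      (fun a => if a.val = n + 3 then n + 3 else n + 2 - a.val) (fun a b hab => ?_)
      (fun a => by split_ifs <;> omega) _ _ ent fun a b => ?_⟩)))
    · have := a.2
      have := b.2
      refine Fin.ext ?_
      simp only at hab
      split_ifs at hab <;> omega
    · have := a.2
      have := b.2
      simp only [clsG, CartanMatrix.D, Matrix.of_apply, Fin.ext_iff]
      split_ifs <;> omega
  have e7 : k = 2 ∨ k + 3 = n := by
    by_contra hne
    refine cls_e7 H (h.sub (k - 3) 7 (by omega)) w (fun c hc => hw _ (by omega)) ?_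
    rwa [show k - 3 + 3 = k by omega]
  have e8 : n ≤ 7 := by
    by_contra hne
    rcases e7 with h3 | h3
    · refine cls_e8 H (h.sub 0 8 (by omega)) w (fun c hc => hw _ (by omega)) ?_
      rwa [show 0 + 2 = k by omega]
    · refine cls_e8 H (h.rev H (n - 1) 8 (by omega) (by omega)) w (fun c hc => hw _ (by omega)) ?_
      rwa [show n - 1 - 2 = k by omega]
  have hnk : (n = 5 ∧ k = 2) ∨ (n = 6 ∧ k = 2) ∨ (n = 6 ∧ k = 3) ∨ (n = 7 ∧ k = 2) ∨
    (n = 7 ∧ k = 4) := by omega
  refine Or.inr (Or.inr (Or.inr (Or.inr ?_)))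
  rcases hnk with ⟨rfl, rfl⟩ | ⟨rfl, rfl⟩ | ⟨rfl, rfl⟩ | ⟨rfl, rfl⟩ | ⟨rfl, rfl⟩
  · exact Or.inl (cls_isTyp _ _ hinj ![0, 5, 1, 2, 3, 4] (by decide) (by decide) _ _ ent
      (by decide))
  · exact Or.inr (Or.inl (cls_isTyp _ _ hinj ![0, 6, 1, 2, 3, 4, 5] (by decide) (by decide) _ _
      ent (by decide)))
  · exact Or.inr (Or.inl (cls_isTyp _ _ hinj ![5, 6, 4, 3, 2, 1, 0] (by decide) (by decide) _ _
      ent (by decide)))
  · exact Or.inr (Or.inr (Or.inl (cls_isTyp _ _ hinj ![0, 7, 1, 2, 3, 4, 5, 6] (by decide)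
      (by decide) _ _ ent (by decide))))
  · exact Or.inr (Or.inr (Or.inl (cls_isTyp _ _ hinj ![6, 7, 5, 4, 3, 2, 1, 0] (by decide)
      (by decide) _ _ ent (by decide))))

theorem cls_main (H : ClsCart A) (i₀ : Δ) :
    ∃ C : Finset Δ, i₀ ∈ C ∧ (∀ i ∈ C, ∀ j ∉ C, A i j = 0) ∧ ClsTyp A C := by
  classical
  let R : Δ → Prop := fun j => Relation.ReflTransGen (fun i j => A i j < 0) i₀ j
  let P : ℕ → Prop := fun n => ∃ e : ℕ → Δ, ClsPath A n e ∧ ∀ a < n, R (e a)
  have hP1 : P 1 := ⟨fun _ => i₀, ⟨fun a ha b hb _ => by omega, fun a b hab hb => by omega⟩,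
    fun _ _ => Relation.ReflTransGen.refl⟩
  have hPb : ∀ n, P n → n ≤ Fintype.card Δ := by
    rintro n ⟨e, he, -⟩
    have := Fintype.card_le_of_injective (fun a : Fin n => e a)
      fun a b hab => Fin.ext (he.1 a a.2 b b.2 hab)
    simpa using this
  obtain ⟨n, hn, ⟨e, h, hR⟩, hmax⟩ : ∃ n, 1 ≤ n ∧ P n ∧ ∀ m, P m → m ≤ n :=
    ⟨Nat.findGreatest P (Fintype.card Δ), Nat.le_findGreatest (hPb 1 hP1) hP1,
      Nat.findGreatest_spec (hPb 1 hP1) hP1, fun m hm => Nat.le_findGreatest (hPb m hm) hm⟩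
  have closed : ∀ C : Finset Δ, e 0 ∈ C → (∀ i ∈ C, ∀ j ∉ C, ¬ A i j < 0) →
      i₀ ∈ C ∧ ∀ i ∈ C, ∀ j ∉ C, A i j = 0 := by
    intro C h0 hC
    refine ⟨?_, fun i hi j hj => (cls_zero H (fun h' : i = j => hj (h' ▸ hi)) (hC i hi j hj)).1⟩
    by_contra hi
    have : ∀ j, R j → j ∉ C := by
      intro j hj
      induction hj with
      | refl => exact hi
      | tail _ h2 ih => exact fun h3 => hC _ h3 _ ih (H.sym _ _ h2)
    exact this _ (hR 0 hn) h0
  have ext1 : ∀ (m : ℕ) (f : ℕ → Δ) (w : Δ), P m → ClsPath A m f → (∀ a < m, R (f a)) → 1 ≤ m →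
      (∀ a < m, f a ≠ w) → A (f (m - 1)) w < 0 →
      ClsPath A (m + 1) (fun i => if i = m then w else f i) ∧
        ∀ a < m + 1, R (if a = m then w else f a) := by
    intro m f w _ hf hfR hm hw hadj
    refine ⟨hf.snoc w hw fun c hc => by rwa [show c = m - 1 by omega], fun a ha => ?_⟩
    split_ifs with h1
    · exact (hfR (m - 1) (by omega)).tail hadj
    · exact hfR a (by omega)
  have inner : ∀ w, (∀ a < n, e a ≠ w) → ∀ k < n, A (e k) w < 0 → 0 < k ∧ k + 1 < n := by
    intro w hw k hk hkw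
    constructor
    · by_contra h0
      have hr := h.rev H (n - 1) n (by omega) (by omega)
      have hr' : ∀ a < n, R (e (n - 1 - a)) := fun a _ => hR _ (by omega)
      have := hmax _ ⟨_, ext1 n _ w ⟨e, h, hR⟩ hr hr' hn (fun a _ => hw _ (by omega))
        (by rwa [show n - 1 - (n - 1) = k by omega])⟩
      omega
    · by_contra h0
      have := hmax _ ⟨_, ext1 n e w ⟨e, h, hR⟩ h hR hn hw (by rwa [show n - 1 = k by omega])⟩
      omega
  by_cases hex : ∃ w, (∀ a < n, e a ≠ w) ∧ ∃ k < n, A (e k) w < 0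
  swap
  · obtain ⟨h1, h2⟩ := closed ((range n).image e) (mem_image_of_mem _ (mem_range.2 hn)) (by
      intro i hi j hj hij
      obtain ⟨k, hk, rfl⟩ := mem_image.1 hi
      exact hex ⟨j, fun a ha h' => hj (h' ▸ mem_image_of_mem _ (mem_range.2 ha)), k,
        mem_range.1 hk, hij⟩)
    exact ⟨_, h1, h2, cls_path H h hn⟩
  obtain ⟨w, hw, k, hk, hkw⟩ := hex
  obtain ⟨hk0, hk1⟩ := inner w hw k hk hkw
  obtain ⟨h1, h2⟩ := closed ((range (n + 1)).image fun i => if i = n then w else e i)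
    (mem_image.2 ⟨0, mem_range.2 (by omega), if_neg (by omega)⟩) (by
      intro i hi j hj hij
      obtain ⟨c, hc, rfl⟩ := mem_image.1 hi
      have hc' := mem_range.1 hc
      have hj1 : ∀ a < n, e a ≠ j := fun a ha h' =>
        hj (mem_image.2 ⟨a, mem_range.2 (by omega), by rw [if_neg (by omega), h']⟩)
      have hj2 : w ≠ j := fun h' =>
        hj (mem_image.2 ⟨n, mem_range.2 (by omega), by rw [if_pos rfl, h']⟩)
      split_ifs at hij with h3
      · have long : ∀ (m : ℕ) (f : ℕ → Δ), ClsPath A m f → (∀ a < m, R (f a)) → 1 ≤ m →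
            (∀ a < m, f a ≠ w) → (∀ a < m, f a ≠ j) → A (f (m - 1)) w < 0 → m + 2 ≤ n := by
          intro m f hf hfR hm hfw hfj hadj
          obtain ⟨p1, p2⟩ := ext1 m f w ⟨f, hf, hfR⟩ hf hfR hm hfw hadj
          refine hmax _ ⟨_, ext1 (m + 1) _ j ⟨_, p1, p2⟩ p1 p2 (by omega) (fun a ha => ?_) ?_⟩
          · split_ifs with h4
            · exact hj2
            · exact hfj a (by omega)
          · rwa [if_pos (by omega)]
        have l1 := long (k + 1) _ (h.sub 0 (k + 1) (by omega)) (fun a ha => hR _ (by omega))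
          (by omega) (fun a ha => hw _ (by omega)) (fun a ha => hj1 _ (by omega))
          (by rwa [show 0 + (k + 1 - 1) = k by omega])
        have l2 := long (n - k) _ (h.rev H (n - 1) (n - k) (by omega) (by omega))
          (fun a ha => hR _ (by omega))
          (by omega) (fun a ha => hw _ (by omega)) (fun a ha => hj1 _ (by omega))
          (by rwa [show n - 1 - (n - k - 1) = k by omega])
        exact cls_e6 H (h.sub (k - 2) 5 (by omega)) w j (fun a ha => hw _ (by omega))
          (by rwa [show k - 2 + 2 = k by omega]) (fun a ha => hj1 _ (by omega)) hij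
      · obtain ⟨hc0, hc1⟩ := inner j hj1 c (by omega) hij
        rcases le_total k c with h4 | h4
        · exact cls_ff H (h.sub (k - 1) (c - k + 3) (by omega)) (by omega) w j
            (fun a ha => hw _ (by omega)) (by rwa [show k - 1 + 1 = k by omega])
            (fun a ha => hj1 _ (by omega))
            (by rwa [show k - 1 + (c - k + 3 - 2) = c by omega]) hj2
        · exact cls_ff H (h.sub (c - 1) (k - c + 3) (by omega)) (by omega) j w
            (fun a ha => hj1 _ (by omega)) (by rwa [show c - 1 + 1 = c by omega])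
            (fun a ha => hw _ (by omega))
            (by rwa [show c - 1 + (k - c + 3 - 2) = k by omega]) hj2.symm)
  exact ⟨_, h1, h2, cls_branch H h w hw k hk0 hk1 hkw⟩

end

theorem cartan_class {Δ : Type} [DecidableEq Δ] [Fintype Δ] (A : Matrix Δ Δ ℤ) (l : Δ → ℤ)
    (hl : ∀ i, 0 < l i) (hd : ∀ i, A i i = 2) (hn : ∀ i j, i ≠ j → A i j ≤ 0)
    (hs : ∀ i j, A i j * l j = A j i * l i)
    (hp : ∀ x : Δ → ℤ, x ≠ 0 → 0 < ∑ i, ∑ j, x i * x j * (A i j * l j)) (i₀ : Δ) :
    ∃ C : Finset Δ, i₀ ∈ C ∧ (∀ i ∈ C, ∀ j ∉ C, A i j = 0) ∧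
      ((∃ n, IsTyp A C (CartanMatrix.A (n + 1))) ∨ (∃ n, IsTyp A C (CartanMatrix.B (n + 2))) ∨
        (∃ n, IsTyp A C (CartanMatrix.C (n + 3))) ∨ (∃ n, IsTyp A C (CartanMatrix.D (n + 4))) ∨
        IsTyp A C CartanMatrix.E₆ ∨ IsTyp A C CartanMatrix.E₇ ∨ IsTyp A C CartanMatrix.E₈ ∨
        IsTyp A C CartanMatrix.F₄ ∨ IsTyp A C CartanMatrix.G₂) :=
  cls_main (cls_cart l hl hd hn hs hp) i₀

end Pool.Agent.P.Bf04
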