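import Pool.Agent.P.MP_bf0464_al.H.Defs
import Pool.Agent.P.MP_bf0464_al.H.Class
import Pool.Agent.P.MP_bf0464_al.HW

/-! Identification with an orthogonal or symplectic Lie algebra: the data. -/

namespace Pool.Agent.P.Bf04

open Matrix Module

attribute [local instance 100] LieRing.ofAssociativeRing

universe u v w

namespace CD

variable (D : CD) {K : Type u} [Field K] (p : ℕ)

/-- an isomorphism with the Lie algebra of a form that is adapted to a complete isotropic flag -/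
structure ClIso {V V₀ : Type u} [AddCommGroup V] [Module K V] [AddCommGroup V₀] [Module K V₀]
    {Q : QF K V} {Q₀ : QF K V₀} {m : ℕ} (Fl : Q.Flag Q₀ m) (φ : D.g K ≃ₗ⁅K⁆ Q.g)
    (H : Fin m → D.σ → K) : Prop where
  nd : Q.ND
  nd₀ : Q₀.ND
  small : (∀ v : V₀, v = 0) ∨ ∃ x : V₀, Q₀.β x x ≠ 0 ∧ ∀ v, ∃ c : K, v = c • x
  pc : ∀ b, (φ (D.bv K b)).1 ^ p = (φ (D.pmb K b)).1
  top : ∀ j, ∀ w ∈ Fl.Wp j, φ.symm (Q.Fs (Fl.u j) w)
    ∈ Submodule.span K {x | ∃ β, D.Pos β ∧ x = D.e K β}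
  tor : ∀ a, φ (D.hv (H a)) = Q.Fs (Fl.u a) (Fl.u' a)
  bor : ∀ x : Q.g, (∀ i, x.1 (Fl.u i) ∈ Submodule.span K (Fl.u '' Set.Iic i)) →
    ∀ β, ¬ D.Pos β → φ.symm x (.inr β) = 0
  inv : ∀ (i : D.Δ) (μ : D.σ → ℤ),
    (Finset.univ.val.map (Fl.lw fun a => ∑ b, (D.dotf i μ b : K) * H a b)).map (· ^ 2)
      = (Finset.univ.val.map (Fl.lw fun a => ∑ b, (μ b : K) * H a b)).map (· ^ 2)

/-- existence of such an isomorphism, with prescribed sign and dimension -/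
def HasCl (K : Type u) [Field K] (m : ℕ) (ε : K) (z : ℕ) : Prop :=
  ∃ (V V₀ : Type u) (_ : AddCommGroup V) (_ : Module K V) (_ : AddCommGroup V₀) (_ : Module K V₀)
    (_ : FiniteDimensional K V) (_ : FiniteDimensional K V₀) (Q : QF K V) (Q₀ : QF K V₀)
    (Fl : Q.Flag Q₀ m) (φ : D.g K ≃ₗ⁅K⁆ Q.g) (H : Fin m → D.σ → K),
      D.ClIso p Fl φ H ∧ Q.ε = ε ∧ finrank K V₀ = z

end CD

end Pool.Agent.P.Bf04
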