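import Pool.Agent.P.MP_bf0464_al.H.ClRep_1

/-! The last generators in types B, C, D. -/

namespace Pool.Agent.P.Bf04

open Module

attribute [local instance 100] LieRing.ofAssociativeRing

universe u

namespace QF

namespace Flag

variable {k V V₀ : Type u} [Field k] [AddCommGroup V] [Module k V] [AddCommGroup V₀]
  [Module k V₀] {Q : QF k V} {Q₀ : QF k V₀} {M : ℕ} (Fl : Q.Flag Q₀ M)

/-- the conditions on the last generators -/
structure Last (l : Fin M) (E F : Q.g) : Prop where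
  E0 : ∀ i j : Fin M, j ≠ l → (i : ℕ) = j + 1 → ⁅Q.Fs (Fl.u i) (Fl.u' j), E⁆ = 0
  F0 : ∀ i j : Fin M, i ≠ l → (j : ℕ) = i + 1 → ⁅Q.Fs (Fl.u i) (Fl.u' j), F⁆ = 0
  cF : ∀ W : Submodule k V, (∀ i, Fl.u i ∈ W) → (∀ v ∈ W, F.1 v ∈ W) →
    Fl.u' l ∈ W ∧ ∀ v, Fl.inc v ∈ W
  cE : ∀ W : Submodule k V, (∀ i, Fl.u' i ∈ W) → (∀ v ∈ W, E.1 v ∈ W) →
    Fl.u l ∈ W ∧ ∀ v, Fl.inc v ∈ W
  gen : ∀ U : LieSubalgebra k Q.g, (∀ i j, Q.Fs (Fl.u i) (Fl.u' j) ∈ U) → E ∈ U → F ∈ U →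
    ∀ x, x ∈ U

variable [FiniteDimensional k V] (hQ : Q.ND) (l : Fin M)

include hQ

theorem clrep_B (hε : Q.ε = 1) (x₀ : V₀) (h0 : Q₀.β x₀ x₀ = 1) (h1 : ∀ v, ∃ c : k, v = c • x₀) :
    Fl.Last l (Q.Fs (Fl.u l) (Fl.inc x₀)) ((2 : k) • Q.Fs (Fl.inc x₀) (Fl.u' l)) ∧
      ⁅Q.Fs (Fl.u l) (Fl.inc x₀), (2 : k) • Q.Fs (Fl.inc x₀) (Fl.u' l)⁆
        = (2 : k) • Q.Fs (Fl.u l) (Fl.u' l) := by
  have h2 := Q.two
  have xx : Q.β (Fl.inc x₀) (Fl.inc x₀) = 1 := by rw [Fl.toEmb.β_inc, h0]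
  have hx : ∀ W : Submodule k V, Fl.inc x₀ ∈ W → ∀ v, Fl.inc v ∈ W := fun W h v => by
    obtain ⟨c, rfl⟩ := h1 v
    rw [map_smul]; exact W.smul_mem _ h
  refine ⟨⟨fun i j hj _ => ?_, fun i j hi _ => ?_, fun W w1 w2 => ?_, fun W w1 w2 => ?_,
    fun U g1 g2 g3 => ?_⟩, ?_⟩
  · rw [lie_Fs, Fs_coe, clrep_u, clrep_inc, if_neg hj]; simp
  · rw [lie_smul, lie_Fs, Fs_coe, clrep_u', clrep_inc, if_neg hi.symm]; simp
  · have a1 : Fl.inc x₀ ∈ W := by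
      simpa [F_apply, Fl.u'u, Fl.inc_u, W.smul_mem_iff h2] using w2 _ (w1 l)
    refine ⟨?_, hx W a1⟩
    simpa [F_apply, Fl.u'_inc, xx, hε, W.smul_mem_iff h2] using w2 _ a1
  · have a1 : Fl.inc x₀ ∈ W := by
      simpa [F_apply, Fl.uu', Fl.inc_u', hε] using w2 _ (w1 l)
    refine ⟨?_, hx W a1⟩
    simpa [F_apply, Fl.u_inc, xx] using w2 _ a1
  · have a1 : ∀ i, Q.Fs (Fl.u i) (Fl.inc x₀) ∈ U := fun i => by
      have := U.lie_mem (g1 i l) g2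
      rw [lie_Fs, Fs_coe, clrep_u, clrep_inc] at this
      simpa using this
    have a2 : ∀ i, Q.Fs (Fl.u' i) (Fl.inc x₀) ∈ U := fun i => by
      have := U.lie_mem (g1 l i) ((U.toSubmodule.smul_mem_iff h2).1 g3)
      rw [lie_Fs, Fs_coe, clrep_u', clrep_inc] at this
      rw [Fs_swap]
      exact U.smul_mem _ (by simpa using this)
    refine Fl.clrep_all U hQ g1 (fun i j => ?_) (fun i j => ?_) (fun i v => ?_)
      (fun i v => ?_) (fun v w => ?_)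
    · have := U.lie_mem (a1 j) (a1 i)
      rw [lie_Fs] at this
      simpa [F_apply, xx, Fl.u_inc, Fl.inc_u, Fl.uu] using this
    · have := U.lie_mem (a2 j) (a2 i)
      rw [lie_Fs] at this
      simpa [F_apply, xx, Fl.u'_inc, Fl.inc_u', Fl.u'u'] using this
    · obtain ⟨c, rfl⟩ := h1 v
      rw [map_smul, map_smul]; exact U.smul_mem _ (a1 i)
    · obtain ⟨c, rfl⟩ := h1 v
      rw [map_smul, map_smul]; exact U.smul_mem _ (a2 i)
    · obtain ⟨c, rfl⟩ := h1 v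
      obtain ⟨c, rfl⟩ := h1 w
      simp [Fs_self hε]
  · rw [lie_smul, lie_Fs]
    simp [F_apply, xx, Fl.u_inc, Fl.inc_u', Fl.uu', Fs_self hε, hε]

theorem clrep_C (hε : Q.ε = -1) (h1 : ∀ v : V₀, v = 0) :
    Fl.Last l (Q.Fs (Fl.u l) (Fl.u l)) ((-4⁻¹ : k) • Q.Fs (Fl.u' l) (Fl.u' l)) ∧
      ⁅Q.Fs (Fl.u l) (Fl.u l), (-4⁻¹ : k) • Q.Fs (Fl.u' l) (Fl.u' l)⁆
        = Q.Fs (Fl.u l) (Fl.u' l) := by
  have h2 := Q.two
  have h4 : (4 : k) ≠ 0 := by rw [show (4 : k) = 2 * 2 by norm_num]; exact mul_ne_zero h2 h2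
  have h4' : (-4⁻¹ : k) ≠ 0 := by simpa using h4
  have hs : ∀ v w, Q.Fs w v = Q.Fs v w := fun v w => by rw [Q.Fs_swap, hε]; simp
  have hx : ∀ v, Fl.inc v = 0 := fun v => by rw [h1 v, map_zero]
  refine ⟨⟨fun i j hj _ => ?_, fun i j hi _ => ?_, fun W w1 w2 => ⟨?_, by simp [hx]⟩,
    fun W w1 w2 => ⟨?_, by simp [hx]⟩, fun U g1 g2 g3 => ?_⟩, ?_⟩
  · rw [lie_Fs, Fs_coe, clrep_u, if_neg hj]; simp
  · rw [lie_smul, lie_Fs, Fs_coe, clrep_u', if_neg hi.symm]; simp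
  · have : (-4⁻¹ : k) • Q.F (Fl.u' l) (Fl.u' l) (Fl.u l) ∈ W := w2 _ (w1 l)
    rw [W.smul_mem_iff h4'] at this
    simpa [F_apply, Fl.u'u, hε, ← two_smul k, W.smul_mem_iff h2] using this
  · have : -((2 : k) • Fl.u l) ∈ W := by
      have e : Q.F (Fl.u l) (Fl.u l) (Fl.u' l) = -((2 : k) • Fl.u l) := by
        simp [F_apply, Fl.uu', hε, two_smul, sub_eq_add_neg]
      exact e ▸ w2 _ (w1 l)
    simpa [W.smul_mem_iff h2] using this
  · refine Fl.clrep_all U hQ g1 (Fl.clrep_uu U g1 l fun i => ?_) (Fl.clrep_u'u' U g1 l fun i => ?_)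
      (by simp [hx]) (by simp [hx]) (by simp [hx])
    · have := U.lie_mem (g1 i l) g2
      rw [lie_Fs, Fs_coe, clrep_u, if_pos rfl, hs (Fl.u i), ← two_smul k] at this
      exact (U.toSubmodule.smul_mem_iff h2).1 this
    · have := U.lie_mem (g1 l i) ((U.toSubmodule.smul_mem_iff h4').1 g3)
      rw [lie_Fs, Fs_coe, clrep_u', if_pos rfl, hs (-Fl.u' i), ← two_smul k] at this
      simpa using (U.toSubmodule.smul_mem_iff h2).1 this
  · rw [lie_smul, lie_Fs]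
    simp only [Fs_coe, F_apply, Fl.uu', hε, if_true, map_sub, map_smul, LinearMap.sub_apply,
      LinearMap.smul_apply, hs (Fl.u l) (Fl.u' l)]
    match_scalars
    field_simp
    ring

theorem clrep_D (hε : Q.ε = 1) (h1 : ∀ v : V₀, v = 0) (r : Fin M) (hr : (l : ℕ) = r + 1) :
    Fl.Last l (Q.Fs (Fl.u r) (Fl.u l)) (Q.Fs (Fl.u' l) (Fl.u' r)) ∧
      ⁅Q.Fs (Fl.u r) (Fl.u l), Q.Fs (Fl.u' l) (Fl.u' r)⁆
        = Q.Fs (Fl.u r) (Fl.u' r) + Q.Fs (Fl.u l) (Fl.u' l) := by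
  have hs : ∀ v w, Q.Fs w v = -Q.Fs v w := fun v w => by rw [Q.Fs_swap, hε]; simp
  have hx : ∀ v, Fl.inc v = 0 := fun v => by rw [h1 v, map_zero]
  have hne : r ≠ l := fun h => by rw [h] at hr; omega
  refine ⟨⟨fun i j hj hi => ?_, fun i j hi hj => ?_, fun W w1 w2 => ⟨?_, by simp [hx]⟩,
    fun W w1 w2 => ⟨?_, by simp [hx]⟩, fun U g1 g2 g3 => ?_⟩, ?_⟩
  · rw [lie_Fs, Fs_coe, clrep_u, clrep_u, if_neg hj]
    split_ifs with h
    · rw [show i = l from Fin.ext (by rw [hi, h, hr])]; simp [Fs_self hε]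
    · simp
  · rw [lie_Fs, Fs_coe, clrep_u', clrep_u', if_neg hi.symm]
    split_ifs with h
    · rw [show j = l from Fin.ext (by rw [hj, ← h, hr])]; simp [Fs_self hε]
    · simp
  · simpa [F_apply, Fl.u'u, hne.symm] using w2 _ (w1 r)
  · simpa [F_apply, Fl.uu', hne, hε] using w2 _ (w1 r)
  · refine Fl.clrep_all U hQ g1 (Fl.clrep_uu U g1 l fun i => ?_) (Fl.clrep_u'u' U g1 l fun i => ?_)
      (by simp [hx]) (by simp [hx]) (by simp [hx])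
    · have := U.lie_mem (g1 i r) g2
      rw [lie_Fs, Fs_coe, clrep_u, clrep_u, if_pos rfl, if_neg hne] at this
      simpa using this
    · have := U.lie_mem (g1 r i) g3
      rw [lie_Fs, Fs_coe, clrep_u', clrep_u', if_pos rfl, if_neg hne.symm] at this
      rw [hs]
      simpa using this
  · rw [lie_Fs]
    simp [F_apply, Fl.uu', hε, hne, hne.symm, hs (Fl.u l) (Fl.u' l)]

end Flag

end QF

end Pool.Agent.P.Bf04
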