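import Pool.Agent.P.MP_bf0464_al.H.ClRep_2
import Pool.Agent.P.MP_bf0464_al.H.ClRep_4

/-! The common construction, with the last simple root as a parameter. -/

namespace Pool.Agent.P.Bf04

open Matrix Module

attribute [local instance 100] LieRing.ofAssociativeRing

universe u

namespace ClRep

variable {n : ℕ}

/-- simple roots or coroots in coordinates -/
def Row (t : Fin (n + 1) → ℤ) (j : Fin (n + 1)) : Fin (n + 1) → ℤ :=
  Fin.lastCases t (fun j => Pi.single j.castSucc 1 - Pi.single j.succ 1) j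

theorem Row_last (t : Fin (n + 1) → ℤ) : Row t (Fin.last n) = t := by simp [Row]

theorem Row_cast (t : Fin (n + 1) → ℤ) (j : Fin n) :
    Row t j.castSucc = Pi.single j.castSucc 1 - Pi.single j.succ 1 := by simp [Row]

theorem Row_sum {R : Type*} [CommRing R] (t : Fin (n + 1) → ℤ) (j : Fin n) (x : Fin (n + 1) → R) :
    ∑ a, (Row t j.castSucc a : R) * x a = x j.castSucc - x j.succ := by
  simp [Row_cast, Pi.single_apply, sub_mul, Finset.sum_sub_distrib]

theorem Row_inj {R : Type*} [CommRing R] [IsDomain R] {t : Fin (n + 1) → ℤ}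
    (ht : ((∑ a, t a : ℤ) : R) ≠ 0) (x : Fin (n + 1) → R)
    (h : ∀ j, ∑ a, (Row t j a : R) * x a = 0) : x = 0 := by
  have h1 : ∀ a, x a = x 0 := fun a => by
    induction a using Fin.induction with
    | zero => rfl
    | succ j ih => rw [← ih]; exact (sub_eq_zero.1 ((Row_sum t j x).symm.trans (h _))).symm
  have h2 := h (Fin.last n)
  rw [Row_last, Finset.sum_congr rfl fun a _ => by rw [h1 a], ← Finset.sum_mul,
    ← Int.cast_sum] at h2
  funext a
  rw [h1 a]
  exact (mul_eq_zero.1 h2).resolve_left ht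

variable {K : Type u} [Field K] {z : ℕ} {ε : K} (P : Par ε z)

theorem T_single {m : ℕ} (i : Fin m) (a : ℤ) :
    T P (fun b => ((Pi.single i a : Fin m → ℤ) b : K))
      = (a : K) • (Q m P).Fs ((Fl m P).u i) ((Fl m P).u' i) := by
  rw [T, Finset.sum_eq_single i] <;> simp +contextual

theorem T_add {m : ℕ} (g g' : Fin m → ℤ) :
    T P (fun b => ((g + g') b : K)) = T P (fun b => (g b : K)) + T P fun b => (g' b : K) := by
  simp [T, add_smul, Finset.sum_add_distrib]

theorem T_sub {m : ℕ} (g g' : Fin m → ℤ) :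
    T P (fun b => ((g - g') b : K)) = T P (fun b => (g b : K)) - T P fun b => (g' b : K) := by
  simp [T, sub_smul, Finset.sum_sub_distrib]

end ClRep

namespace CD

open ClRep

variable {D : CD} {K : Type u} [Field K] {n z : ℕ} {ε : K} (P : Par ε z)

theorem clrep_row {p : ℕ} [Fact p.Prime] [CharP K p] (hp : p ≠ 2)
    (hN : ∀ α β γ, D.co α + D.co β = D.co γ → (D.N α β : K) ≠ 0) (hS : D.SC) (hz : z ≤ 1)
    {M : Matrix (Fin (n + 1)) (Fin (n + 1)) ℤ} (h : IsTyp D.A Finset.univ M)
    (tR tC : Fin (n + 1) → ℤ) (hM : ∀ i j, M i j = Row tR i ⬝ᵥ Row tC j)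
    (hC : ((∑ a, tC a : ℤ) : K) ≠ 0) (hR : 0 < dg tR) (E F : (Q (n + 1) P).g)
    (hE : CH tR E.1) (hF : CH (-tR) F.1) (EF : ⁅E, F⁆ = T P fun a => (tC a : K))
    (hl : (Fl (n + 1) P).Last (Fin.last n) E F)
    (hρ : ∑ a, (tC a : K) * QF.sh ε (z + 2 * (n + 1 - a)) = 1)
    (hπ : ∃ π : Equiv.Perm (Fin (n + 1)), ∀ (l : Fin (n + 1) → K) a,
      (l a - (∑ b, (tC b : K) * l b) * tR a) ^ 2 = l (π a) ^ 2) :
    D.HasCl p K (n + 1) ε z := by
  obtain ⟨e₀, he, he', hA⟩ := h
  let e : Fin (n + 1) ≃ D.Δ := Equiv.ofBijective e₀ ⟨he, fun i => by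
    simpa using (he' ▸ Finset.mem_univ i : i ∈ Finset.univ.image e₀)⟩
  obtain ⟨L, H, c⟩ := clrep_crd (K := K) hS e (Row tR) (Row tC) (fun i j => (hA i j).trans (hM i j))
    (fun x hx => Row_inj (R := ℤ) (t := tC) (fun h => hC (by rw [show ∑ a, tC a = 0 from h]; simp))
      x hx) (Row_inj hC)
  have hR' : ∀ i, 0 < dg (Row tR i) := fun i => by
    induction i using Fin.lastCases with
    | last => rwa [Row_last]
    | cast j =>
      rw [Row_cast, sub_eq_add_neg, dg_add, dg_neg, dg_single, dg_single]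
      simp
  let E' : Fin (n + 1) → (Q (n + 1) P).g := Fin.lastCases E fun j =>
    (Q (n + 1) P).Fs ((Fl (n + 1) P).u j.castSucc) ((Fl (n + 1) P).u' j.succ)
  let F' : Fin (n + 1) → (Q (n + 1) P).g := Fin.lastCases F fun j =>
    (Q (n + 1) P).Fs ((Fl (n + 1) P).u j.succ) ((Fl (n + 1) P).u' j.castSucc)
  have E1 : E' (Fin.last n) = E := Fin.lastCases_last
  have F1 : F' (Fin.last n) = F := Fin.lastCases_last
  have E2 : ∀ j : Fin n, E' j.castSucc
      = (Q (n + 1) P).Fs ((Fl (n + 1) P).u j.castSucc) ((Fl (n + 1) P).u' j.succ) :=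
    fun j => Fin.lastCases_castSucc j
  have F2 : ∀ j : Fin n, F' j.castSucc
      = (Q (n + 1) P).Fs ((Fl (n + 1) P).u j.succ) ((Fl (n + 1) P).u' j.castSucc) :=
    fun j => Fin.lastCases_castSucc j
  refine (clrep_hom P hN c hR' E' F' (fun i => ?_) (fun i => ?_) (fun i j => ?_) 0 rfl
    (fun W w0 w1 => ?_) (fun W w0 w1 => ?_)).elim fun φ ⟨h1, h2, h3, h4⟩ => ?_
  rotate_right
  · refine clrep_main P hp hz c hR' h1 h4 (fun x => ?_) (fun j => ?_) (fun j => ?_)
    · refine hl.gen φ.range ((Fl (n + 1) P).clrep_gl _ (fun j => ⟨_, (h2 _).trans (E2 j)⟩)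
        (fun j => ⟨_, (h3 _).trans (F2 j)⟩) fun a => ⟨D.hv (H a), ?_⟩) ⟨_, (h2 _).trans E1⟩
        ⟨_, (h3 _).trans F1⟩ x
      change φ _ = _
      rw [h1]
      simp [c.dual, T, Pi.single_apply]
    · induction j using Fin.lastCases with
      | last => rwa [Row_last]
      | cast j =>
        rw [Row_sum, Fin.val_castSucc, Fin.val_succ,
          show n + 1 - j = n + 1 - (j + 1) + 1 by have := j.2; omega]
        have := P.two
        simp only [QF.sh]
        push_cast
        field_simp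
        ring
    · induction j using Fin.lastCases with
      | last => simpa only [Row_last] using hπ
      | cast j =>
        refine ⟨Equiv.swap j.castSucc j.succ, fun l a => ?_⟩
        rw [Row_sum, Row_cast]
        have hne : j.castSucc ≠ j.succ := (Fin.castSucc_lt_succ).ne
        congr 1
        by_cases a1 : a = j.castSucc
        · subst a1; simp [hne]
        · by_cases a2 : a = j.succ
          · subst a2; simp [a1]
          · simp [a1, a2, Equiv.swap_apply_of_ne_of_ne]
  · induction i using Fin.lastCases with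
    | last => rwa [Row_last, E1]
    | cast j => rw [Row_cast, E2, sub_eq_add_neg]; exact CH_F P (.inl _) (.inr (.inl _))
  · induction i using Fin.lastCases with
    | last => rwa [Row_last, F1]
    | cast j => rw [Row_cast, F2, neg_sub, sub_eq_add_neg]; exact CH_F P (.inl _) (.inr (.inl _))
  · induction i using Fin.lastCases with
    | last =>
      induction j using Fin.lastCases with
      | last => rwa [Row_last, E1, F1, if_pos rfl]
      | cast j =>
        rw [E1, F2, if_neg (Fin.castSucc_ne_last j).symm, ← lie_skew,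
          hl.E0 _ _ (Fin.castSucc_ne_last j) rfl, neg_zero]
    | cast i =>
      induction j using Fin.lastCases with
      | last => rw [E2, F1, if_neg (Fin.castSucc_ne_last i), hl.F0 _ _ (Fin.castSucc_ne_last i) rfl]
      | cast j =>
        rw [E2, F2, QF.Flag.clrep_GG, Row_cast, T_sub, T_single, T_single]
        by_cases hij : i = j
        · simp [hij]
        · simp [hij, Ne.symm hij]
  · have w2 : ∀ j : Fin n, ∀ v ∈ W, (Q (n + 1) P).F ((Fl (n + 1) P).u j.succ)
        ((Fl (n + 1) P).u' j.castSucc) v ∈ W := fun j v hv => by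
      have := w1 j.castSucc v hv
      rwa [F2] at this
    have w3 := (Fl (n + 1) P).clrep_c1 W w2 w0
    obtain ⟨w4, w5⟩ := hl.cF W w3 (F1 ▸ w1 _)
    exact (Fl (n + 1) P).clrep_top W w3 ((Fl (n + 1) P).clrep_c2 W w2 w4) w5
  · have w2 : ∀ j : Fin n, ∀ v ∈ W, (Q (n + 1) P).F ((Fl (n + 1) P).u j.castSucc)
        ((Fl (n + 1) P).u' j.succ) v ∈ W := fun j v hv => by
      have := w1 j.castSucc v hv
      rwa [E2] at this
    have w3 := (Fl (n + 1) P).clrep_c3 W w2 w0
    obtain ⟨w4, w5⟩ := hl.cE W w3 (E1 ▸ w1 _)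
    exact (Fl (n + 1) P).clrep_top W ((Fl (n + 1) P).clrep_c4 W w2 w4) w3 w5

end CD

end Pool.Agent.P.Bf04
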