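import Mathlib

/-! Graded pieces of a Lie algebra generated by raising, lowering and toral elements. -/

namespace Pool.Agent.P.Bf04

universe u v

variable {K : Type u} [Field K] {L : Type v} [LieRing L] [LieAlgebra K L]
  {Δ σ : Type} [DecidableEq Δ]

/-- iterated brackets of generators with their degrees -/
inductive RepWd (e : Δ → L) : (Δ → ℤ) → L → Prop
  | base (i : Δ) : RepWd e (Pi.single i 1) (e i)
  | step (i : Δ) {x : Δ → ℤ} {w : L} : RepWd e x w → RepWd e (Pi.single i 1 + x) ⁅e i, w⁆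

theorem repl_single_nonneg (i : Δ) : (0 : Δ → ℤ) ≤ Pi.single i 1 := fun j => by
  by_cases h : j = i
  · subst h; simp
  · simp [h]

theorem RepWd.nonneg {e : Δ → L} {x : Δ → ℤ} {w : L} (h : RepWd e x w) : 0 ≤ x := by
  induction h with
  | base i => exact repl_single_nonneg i
  | step i _ ih => exact add_nonneg (repl_single_nonneg i) ih

theorem RepWd.sum_pos [Fintype Δ] {e : Δ → L} {x : Δ → ℤ} {w : L} (h : RepWd e x w) :
    0 < ∑ i, x i := by
  induction h with
  | base i => simp
  | step i _ ih =>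
    simp only [Pi.add_apply, Finset.sum_add_distrib, Finset.sum_pi_single', Finset.mem_univ,
      if_true]
    omega

variable (K) in
/-- the relations between the generators -/
structure RepRel (e f : Δ → L) (t : σ → L) : Prop where
  tt : ∀ a b, ⁅t a, t b⁆ = 0
  te : ∀ a i, ∃ c : K, ⁅t a, e i⁆ = c • e i
  tf : ∀ a i, ∃ c : K, ⁅t a, f i⁆ = c • f i
  ef : ∀ i, ⁅e i, f i⁆ ∈ Submodule.span K (Set.range t)
  ef' : ∀ i j, i ≠ j → ⁅e i, f j⁆ = 0

theorem RepRel.symm {e f : Δ → L} {t : σ → L} (h : RepRel K e f t) : RepRel K f e t where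
  tt := h.tt
  te := h.tf
  tf := h.te
  ef i := by rw [← lie_skew]; exact neg_mem (h.ef i)
  ef' i j hij := by rw [← lie_skew, h.ef' j i hij.symm, neg_zero]

variable (K) in
/-- the graded pieces -/
def repU (e f : Δ → L) (t : σ → L) (x : Δ → ℤ) : Submodule K L :=
  Submodule.span K {w | RepWd e x w ∨ RepWd f (-x) w ∨ (x = 0 ∧ w ∈ Set.range t)}

variable (K) in
/-- the part of the graded pieces that does not involve the first family of generators -/
def repV (f : Δ → L) (t : σ → L) (x : Δ → ℤ) : Submodule K L :=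
  Submodule.span K {w | RepWd f (-x) w ∨ (x = 0 ∧ w ∈ Set.range t)}

variable {e f : Δ → L} {t : σ → L}

theorem repU_symm (x : Δ → ℤ) : repU K e f t x = repU K f e t (-x) := by
  unfold repU
  congr 1
  ext w
  simp only [Set.mem_ofPred_eq, neg_neg, neg_eq_zero]
  tauto

theorem repV_le (x : Δ → ℤ) : repV K f t x ≤ repU K e f t x :=
  Submodule.span_mono fun _ hw => Or.inr hw

theorem repl_lie_span {S : Set L} {U : Submodule K L} {z : L} (h : ∀ w ∈ S, ⁅z, w⁆ ∈ U) {w : L}
    (hw : w ∈ Submodule.span K S) : ⁅z, w⁆ ∈ U := by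
  induction hw using Submodule.span_induction with
  | mem w hw => exact h w hw
  | zero => simp
  | add a b _ _ ha hb => rw [lie_add]; exact add_mem ha hb
  | smul c a _ ha => rw [lie_smul]; exact U.smul_mem c ha

theorem repl_span_lie {S : Set L} {U : Submodule K L} {w : L} (h : ∀ z ∈ S, ⁅z, w⁆ ∈ U) {z : L}
    (hz : z ∈ Submodule.span K S) : ⁅z, w⁆ ∈ U := by
  rw [← lie_skew]
  refine neg_mem (repl_lie_span (fun z hz => ?_) hz)
  rw [← lie_skew]
  exact neg_mem (h z hz)

theorem repl_eig {z : L} (h : ∀ i, ∃ c : K, ⁅z, e i⁆ = c • e i) {x : Δ → ℤ} {w : L}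
    (hw : RepWd e x w) : ∃ c : K, ⁅z, w⁆ = c • w := by
  induction hw with
  | base i => exact h i
  | step i _ ih =>
    obtain ⟨c, hc⟩ := h i
    obtain ⟨d, hd⟩ := ih
    exact ⟨c + d, by rw [leibniz_lie, hc, hd, smul_lie, lie_smul, add_smul]⟩

theorem repl_t_U (h : RepRel K e f t) (a : σ) {x : Δ → ℤ} {w : L} (hw : w ∈ repU K e f t x) :
    ⁅t a, w⁆ ∈ repU K e f t x := by
  refine repl_lie_span ?_ hw
  rintro w (hw | hw | ⟨_, b, rfl⟩)
  · obtain ⟨c, hc⟩ := repl_eig (h.te a) hw
    rw [hc]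
    exact Submodule.smul_mem _ c (Submodule.subset_span (Or.inl hw))
  · obtain ⟨c, hc⟩ := repl_eig (h.tf a) hw
    rw [hc]
    exact Submodule.smul_mem _ c (Submodule.subset_span (Or.inr (Or.inl hw)))
  · rw [h.tt]; exact zero_mem _

theorem repl_f_V (h : RepRel K e f t) (j : Δ) {x : Δ → ℤ} {w : L} (hw : w ∈ repV K f t x) :
    ⁅f j, w⁆ ∈ repV K f t (x - Pi.single j 1) := by
  refine repl_lie_span ?_ hw
  rintro w (hw | ⟨rfl, b, rfl⟩)
  · refine Submodule.subset_span (Or.inl ?_)
    rw [neg_sub, sub_eq_add_neg]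
    exact RepWd.step j hw
  · obtain ⟨c, hc⟩ := h.tf b j
    rw [← lie_skew, hc]
    refine neg_mem (Submodule.smul_mem _ c (Submodule.subset_span (Or.inl ?_)))
    rw [zero_sub, neg_neg]
    exact RepWd.base j

theorem repl_e_wd (h : RepRel K e f t) (i : Δ) {y : Δ → ℤ} {w : L} (hw : RepWd f y w) :
    ⁅e i, w⁆ ∈ repV K f t (Pi.single i 1 - y) := by
  induction hw with
  | base j =>
    by_cases hij : i = j
    · subst hij
      refine Submodule.span_mono ?_ (h.ef i)
      exact fun w hw => Or.inr ⟨sub_self _, hw⟩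
    · rw [h.ef' i j hij]; exact zero_mem _
  | @step j y w hw ih =>
    rw [leibniz_lie]
    refine add_mem ?_ ?_
    · by_cases hij : i = j
      · subst hij
        refine repl_span_lie ?_ (h.ef i)
        rintro _ ⟨a, rfl⟩
        obtain ⟨c, hc⟩ := repl_eig (h.tf a) hw
        rw [hc]
        refine Submodule.smul_mem _ c (Submodule.subset_span (Or.inl ?_))
        rwa [sub_add_cancel_left, neg_neg]
      · rw [h.ef' i j hij, zero_lie]; exact zero_mem _
    · have := repl_f_V h j ih
      rwa [sub_sub, add_comm y] at this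

theorem repl_e_U (h : RepRel K e f t) (i : Δ) {x : Δ → ℤ} {w : L} (hw : w ∈ repU K e f t x) :
    ⁅e i, w⁆ ∈ repU K e f t (Pi.single i 1 + x) := by
  refine repl_lie_span ?_ hw
  rintro w (hw | hw | ⟨rfl, b, rfl⟩)
  · exact Submodule.subset_span (Or.inl (RepWd.step i hw))
  · have := repl_e_wd h i hw
    rw [sub_neg_eq_add] at this
    exact repV_le _ this
  · obtain ⟨c, hc⟩ := h.te b i
    rw [← lie_skew, hc, add_zero]
    exact neg_mem (Submodule.smul_mem _ c (Submodule.subset_span (Or.inl (RepWd.base i))))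

theorem repl_wd_U (h : RepRel K e f t) {y : Δ → ℤ} {z : L} (hz : RepWd e y z) :
    ∀ {x : Δ → ℤ} {w : L}, w ∈ repU K e f t x → ⁅z, w⁆ ∈ repU K e f t (y + x) := by
  induction hz with
  | base i => exact fun hw => repl_e_U h i hw
  | @step i y z _ ih =>
    intro x w hw
    rw [lie_lie]
    refine sub_mem ?_ ?_
    · rw [add_assoc]; exact repl_e_U h i (ih hw)
    · have := ih (repl_e_U h i hw)
      rwa [← add_assoc, add_comm y] at this

theorem repl_lie_U (h : RepRel K e f t) {x y : Δ → ℤ} {z w : L} (hz : z ∈ repU K e f t y)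
    (hw : w ∈ repU K e f t x) : ⁅z, w⁆ ∈ repU K e f t (y + x) := by
  refine repl_span_lie ?_ hz
  rintro z (hz | hz | ⟨rfl, a, rfl⟩)
  · exact repl_wd_U h hz hw
  · rw [repU_symm] at hw ⊢
    rw [neg_add]
    exact repl_wd_U h.symm hz hw
  · rw [zero_add]; exact repl_t_U h a hw

theorem repU_le_of_sum [Fintype Δ] {x : Δ → ℤ} (h : ∑ i, x i = 0) :
    repU K e f t x ≤ Submodule.span K (Set.range t) := by
  refine Submodule.span_mono ?_
  rintro w (hw | hw | hw)
  · have := hw.sum_pos; omega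
  · have := hw.sum_pos
    simp only [Pi.neg_apply, Finset.sum_neg_distrib] at this
    omega
  · exact hw.2

theorem repU_eq_bot [Fintype Δ] {x : Δ → ℤ} (h : 0 < ∑ i, x i) (h' : ¬ 0 ≤ x) :
    repU K e f t x = ⊥ := by
  rw [repU, Submodule.span_eq_bot]
  rintro w (hw | hw | hw)
  · exact absurd hw.nonneg h'
  · have := hw.sum_pos
    simp only [Pi.neg_apply, Finset.sum_neg_distrib] at this
    omega
  · exact absurd hw.1.ge h'

end Pool.Agent.P.Bf04
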