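import Pool.Agent.P.MP_bf0464_al.H.Lie
import Pool.Agent.P.MP_bf0464_al.H.RepL_1

/-! Representations from generators and relations. -/

namespace Pool.Agent.P.Bf04

open Matrix Module

attribute [local instance 100] LieRing.ofAssociativeRing

universe u v w

namespace CD

variable (D : CD) {K : Type u} [Field K] {n : Type} [Fintype n] [DecidableEq n]

/-- matrices that shift the weight by `γ` -/
def MHom (wv : n → D.σ → ℤ) (γ : D.σ → ℤ) (M : Matrix n n K) : Prop :=
  ∀ a b, M a b ≠ 0 → wv a = wv b + γ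

/-- the weight attached to a vector of coordinates -/
def wOf (x : D.Δ → ℤ) : D.σ → ℤ := ∑ i, x i • D.rt (D.s i)

/-- generators and relations -/
structure RepData (wv : n → D.σ → ℤ) (E F : D.Δ → Matrix n n K) : Prop where
  E_hom : ∀ i, D.MHom wv (D.rt (D.s i)) (E i)
  F_hom : ∀ i, D.MHom wv (-D.rt (D.s i)) (F i)
  EF : ∀ i j, E i * F j - F j * E i
    = if i = j then Matrix.diagonal fun a => ((wv a ⬝ᵥ D.cr (D.s i) : ℤ) : K) else 0
  top : ∀ x : D.Δ → ℤ, 0 ≤ x → x ≠ 0 → ∀ M : Matrix n n K, D.MHom wv (D.wOf x) M →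
    (∀ j, M * F j = F j * M) → M = 0
  bot : ∀ x : D.Δ → ℤ, 0 ≤ x → x ≠ 0 → ∀ M : Matrix n n K, D.MHom wv (-D.wOf x) M →
    (∀ j, M * E j = E j * M) → M = 0

/-- criterion for the last two conditions: a cyclic vector of extreme weight -/
theorem eq_zero_of_cyc (wv : n → D.σ → ℤ) (F : D.Δ → Matrix n n K) (a₀ : n)
    (hc : ∀ U : Submodule K (n → K), Pi.single a₀ 1 ∈ U → (∀ j, ∀ v ∈ U, F j *ᵥ v ∈ U) → U = ⊤)
    {γ : D.σ → ℤ} (hγ : ∀ a, wv a ≠ wv a₀ + γ) {M : Matrix n n K} (hM : D.MHom wv γ M)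
    (h : ∀ j, M * F j = F j * M) : M = 0 := by
  have hk := hc (LinearMap.ker M.mulVecLin) ?_ ?_
  · refine Matrix.ext fun a b => ?_
    have : M.mulVecLin (Pi.single b 1) = 0 := by
      rw [← LinearMap.mem_ker, hk]; trivial
    simpa using congrFun this a
  · rw [LinearMap.mem_ker]
    funext a
    simpa using not_not.1 fun h0 => hγ a (hM a a₀ h0)
  · intro j v hv
    rw [LinearMap.mem_ker, Matrix.mulVecLin_apply] at hv ⊢
    rw [Matrix.mulVec_mulVec, h, ← Matrix.mulVec_mulVec, hv, Matrix.mulVec_zero]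

section Aux

variable {D} {wv : n → D.σ → ℤ} {E F : D.Δ → Matrix n n K}

theorem repl_hom_add {γ : D.σ → ℤ} {M M' : Matrix n n K} (h : D.MHom wv γ M)
    (h' : D.MHom wv γ M') : D.MHom wv γ (M + M') := fun a b hab => by
  by_cases h0 : M a b = 0
  · exact h' a b (by simpa [h0] using hab)
  · exact h a b h0

theorem repl_hom_smul {γ : D.σ → ℤ} {M : Matrix n n K} (h : D.MHom wv γ M) (c : K) :
    D.MHom wv γ (c • M) := fun a b hab => h a b fun h0 => hab (by simp [h0])

theorem repl_hom_mul {γ γ' : D.σ → ℤ} {M M' : Matrix n n K} (h : D.MHom wv γ M)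
    (h' : D.MHom wv γ' M') : D.MHom wv (γ + γ') (M * M') := fun a b hab => by
  rw [Matrix.mul_apply] at hab
  obtain ⟨c, -, hc⟩ := Finset.exists_ne_zero_of_sum_ne_zero hab
  rw [h a c (left_ne_zero_of_mul hc), h' c b (right_ne_zero_of_mul hc)]
  abel

theorem repl_hom_lie {γ γ' : D.σ → ℤ} {M M' : Matrix n n K} (h : D.MHom wv γ M)
    (h' : D.MHom wv γ' M') : D.MHom wv (γ + γ') ⁅M, M'⁆ := by
  have := repl_hom_add (repl_hom_mul h h') (repl_hom_smul (add_comm γ' γ ▸ repl_hom_mul h' h) (-1))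
  rwa [neg_one_smul, ← sub_eq_add_neg] at this

theorem repl_diag_lie {γ : D.σ → ℤ} {M : Matrix n n K} (h : D.MHom wv γ M) (a : D.σ) :
    ⁅(Matrix.diagonal fun x => (wv x a : K)), M⁆ = (γ a : K) • M := by
  refine Matrix.ext fun x y => ?_
  rw [Ring.lie_def, Matrix.sub_apply, Matrix.diagonal_mul, Matrix.mul_diagonal, Matrix.smul_apply,
    smul_eq_mul]
  by_cases h0 : M x y = 0
  · simp [h0]
  · rw [h x y h0, Pi.add_apply]; push_cast; ring

theorem repl_wOf_add (x y : D.Δ → ℤ) : D.wOf (x + y) = D.wOf x + D.wOf y := by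
  simp [wOf, add_smul, Finset.sum_add_distrib]

theorem repl_wOf_neg (x : D.Δ → ℤ) : D.wOf (-x) = -D.wOf x := by
  simp [wOf]

theorem repl_wOf_single (i : D.Δ) : D.wOf (Pi.single i 1) = D.rt (D.s i) := by
  rw [wOf, ← D.co_s, ← D.rt_co]

variable (D E) in
/-- raising generators of the graph -/
def repE (i : D.Δ) : D.g K × Matrix n n K := (D.e K (D.s i), E i)

variable (D F) in
/-- lowering generators of the graph -/
def repF (i : D.Δ) : D.g K × Matrix n n K := (D.e K (D.neg (D.s i)), F i)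

variable (D K wv) in
/-- toral generators of the graph -/
def repT (a : D.σ) : D.g K × Matrix n n K := (D.h K a, Matrix.diagonal fun x => (wv x a : K))

theorem repl_rel (h : D.RepData wv E F) : RepRel K (D.repE E) (D.repF F) (D.repT K wv) where
  tt a b := by
    refine Prod.ext (D.lie_h_h a b) ?_
    change ⁅(Matrix.diagonal fun x => (wv x a : K)), (Matrix.diagonal fun x => (wv x b : K))⁆ = 0
    rw [Ring.lie_def, Matrix.diagonal_mul_diagonal, Matrix.diagonal_mul_diagonal, sub_eq_zero]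
    simp only [mul_comm]
  te a i := ⟨_, Prod.ext (D.lie_h_e a _) (repl_diag_lie (h.E_hom i) a)⟩
  tf a i := ⟨_, Prod.ext (D.lie_h_e a _) (by
    rw [D.rt_neg]; exact repl_diag_lie (h.F_hom i) a)⟩
  ef i := by
    rw [Submodule.mem_span_range_iff_exists_fun]
    refine ⟨fun a => (D.cr (D.s i) a : K), Prod.ext ?_ ?_⟩
    · rw [Prod.fst_sum]
      exact (D.hv_eq_sum _).symm.trans (D.lie_e_neg _).symm
    · rw [Prod.snd_sum]
      change _ = E i * F i - F i * E i
      rw [h.EF, if_pos rfl]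
      refine Matrix.ext fun x y => ?_
      by_cases hxy : x = y
      · subst hxy
        simp [repT, Matrix.sum_apply, dotProduct, mul_comm]
      · simp [repT, Matrix.sum_apply, hxy]
  ef' i j hij := by
    refine Prod.ext (D.lie_e_e_zero (fun γ hγ => ?_) fun h' => hij ?_) ?_
    · rw [D.co_neg, D.co_s, D.co_s] at hγ
      have h1 := congrFun hγ i
      have h2 := congrFun hγ j
      simp [hij, hij.symm] at h1 h2
      rcases D.sign γ with h0 | h0
      · have := h0 j; simp only [Pi.zero_apply] at this; omega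
      · have := h0 i; simp only [Pi.zero_apply] at this; omega
    · apply D.s_inj
      rw [← D.neg_neg (D.s i), ← h', D.neg_neg]
    · change E i * F j - F j * E i = 0
      rw [h.EF, if_neg hij]

theorem repl_hom (h : D.RepData wv E F) {x : D.Δ → ℤ} {w : D.g K × Matrix n n K}
    (hw : w ∈ repU K (D.repE E) (D.repF F) (D.repT K wv) x) : D.MHom wv (D.wOf x) w.2 := by
  have hE : ∀ x w, RepWd (D.repE E) x w → D.MHom wv (D.wOf x) w.2 := by
    intro x w hw
    induction hw with
    | base i => rw [repl_wOf_single]; exact h.E_hom i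
    | step i _ ih => rw [repl_wOf_add, repl_wOf_single]; exact repl_hom_lie (h.E_hom i) ih
  have hF : ∀ x w, RepWd (D.repF F) x w → D.MHom wv (-D.wOf x) w.2 := by
    intro x w hw
    induction hw with
    | base i => rw [repl_wOf_single]; exact h.F_hom i
    | step i _ ih =>
      rw [repl_wOf_add, repl_wOf_single, neg_add]; exact repl_hom_lie (h.F_hom i) ih
  induction hw using Submodule.span_induction with
  | mem w hw =>
    rcases hw with hw | hw | ⟨rfl, a, rfl⟩
    · exact hE _ _ hw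
    · have := hF _ _ hw
      rwa [repl_wOf_neg, _root_.neg_neg] at this
    · intro a b hab
      have : a = b := not_not.1 fun h0 => hab (Matrix.diagonal_apply_ne _ h0)
      simp [this, wOf]
  | zero => exact fun a b hab => absurd rfl hab
  | add a b _ _ ha hb => exact repl_hom_add ha hb
  | smul c a _ ha => exact repl_hom_smul ha c

theorem repl_ker (h : D.RepData wv E F) (m : ℕ) : ∀ x : D.Δ → ℤ, (∑ i, x i).natAbs = m →
    ∀ M : Matrix n n K, ((0 : D.g K), M) ∈ repU K (D.repE E) (D.repF F) (D.repT K wv) x →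
      M = 0 := by
  induction m with
  | zero =>
    intro x hx M hM
    have := repU_le_of_sum (Int.natAbs_eq_zero.1 hx) hM
    rw [Submodule.mem_span_range_iff_exists_fun] at this
    obtain ⟨c, hc⟩ := this
    have h1 := congrArg Prod.fst hc
    rw [Prod.fst_sum] at h1
    have h2 : D.hv c = 0 := (D.hv_eq_sum c).trans h1
    have h3 : c = 0 := funext fun a => congrFun h2 (.inl a)
    rw [h3] at hc
    simpa using (congrArg Prod.snd hc).symm
  | succ m ih =>
    intro x hx M hM
    have hx0 : x ≠ 0 := by rintro rfl; simp at hx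
    rcases lt_trichotomy (∑ i, x i) 0 with hs | hs | hs
    · by_cases hn : 0 ≤ -x
      · refine h.bot (-x) hn (neg_ne_zero.2 hx0) M ?_ fun j => ?_
        · rw [repl_wOf_neg, _root_.neg_neg]; exact repl_hom h hM
        · have h1 := repl_e_U (repl_rel h) j hM
          have h2 : ⁅D.repE E j, ((0 : D.g K), M)⁆ = (0, E j * M - M * E j) :=
            Prod.ext (lie_zero _) rfl
          rw [h2] at h1
          refine (sub_eq_zero.1 (ih _ ?_ _ h1)).symm
          simp only [Pi.add_apply, Finset.sum_add_distrib, Finset.sum_pi_single', Finset.mem_univ,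
            if_true]
          omega
      · rw [repU_symm, repU_eq_bot (by simpa using hs) hn] at hM
        exact congrArg Prod.snd hM
    · rw [hs] at hx; simp at hx
    · by_cases hn : 0 ≤ x
      · refine h.top x hn hx0 M (repl_hom h hM) fun j => ?_
        rw [repU_symm] at hM
        have h1 := repl_e_U (repl_rel h).symm j hM
        have h2 : ⁅D.repF F j, ((0 : D.g K), M)⁆ = (0, F j * M - M * F j) :=
          Prod.ext (lie_zero _) rfl
        rw [h2, repU_symm] at h1
        refine (sub_eq_zero.1 (ih _ ?_ _ h1)).symm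
        simp only [Pi.add_apply, Pi.neg_apply, Finset.sum_add_distrib, Finset.sum_neg_distrib,
          Finset.sum_pi_single', Finset.mem_univ, if_true]
        omega
      · rw [repU_eq_bot hs hn] at hM
        exact congrArg Prod.snd hM

theorem repl_unique (h : D.RepData wv E F) {x : D.Δ → ℤ} {u : D.g K} {M M' : Matrix n n K}
    (hM : (u, M) ∈ repU K (D.repE E) (D.repF F) (D.repT K wv) x)
    (hM' : (u, M') ∈ repU K (D.repE E) (D.repF F) (D.repT K wv) x) : M = M' := by
  have := sub_mem hM hM'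
  rw [Prod.mk_sub_mk, sub_self] at this
  exact sub_eq_zero.1 (repl_ker h _ x rfl _ this)

theorem repl_step (hN : ∀ α β γ, D.co α + D.co β = D.co γ → (D.N α β : K) ≠ 0)
    (h : D.RepData wv E F) {α β γ : D.ι} (hc : D.co α + D.co β = D.co γ)
    (ha : ∃ M, (D.e K α, M) ∈ repU K (D.repE E) (D.repF F) (D.repT K wv) (D.co α))
    (hb : ∃ M, (D.e K β, M) ∈ repU K (D.repE E) (D.repF F) (D.repT K wv) (D.co β)) :
    ∃ M, (D.e K γ, M) ∈ repU K (D.repE E) (D.repF F) (D.repT K wv) (D.co γ) := by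
  obtain ⟨M, hM⟩ := ha
  obtain ⟨M', hM'⟩ := hb
  have := Submodule.smul_mem _ (D.N α β : K)⁻¹ (repl_lie_U (repl_rel h) hM hM')
  rw [hc, LieAlgebra.Prod.bracket_apply, D.lie_e_e hc, Prod.smul_mk, smul_smul,
    inv_mul_cancel₀ (hN α β γ hc), one_smul] at this
  exact ⟨_, this⟩

theorem repl_E (i : D.Δ) :
    (D.e K (D.s i), E i) ∈ repU K (D.repE E) (D.repF F) (D.repT K wv) (D.co (D.s i)) :=
  Submodule.subset_span (Or.inl (D.co_s i ▸ RepWd.base i))

theorem repl_F (i : D.Δ) : (D.e K (D.neg (D.s i)), F i) ∈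
    repU K (D.repE E) (D.repF F) (D.repT K wv) (D.co (D.neg (D.s i))) :=
  Submodule.subset_span (Or.inr (Or.inl (by
    rw [D.co_neg, _root_.neg_neg, D.co_s]; exact RepWd.base i)))

theorem repl_T (a : D.σ) : (D.h K a, Matrix.diagonal fun x => (wv x a : K)) ∈
    repU K (D.repE E) (D.repF F) (D.repT K wv) 0 :=
  Submodule.subset_span (Or.inr (Or.inr ⟨rfl, a, rfl⟩))

theorem repl_pos (hN : ∀ α β γ, D.co α + D.co β = D.co γ → (D.N α β : K) ≠ 0)
    (h : D.RepData wv E F) (m : ℕ) : ∀ β, D.Pos β → (D.ht β).natAbs = m →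
    (∃ M, (D.e K β, M) ∈ repU K (D.repE E) (D.repF F) (D.repT K wv) (D.co β)) ∧
    ∃ M, (D.e K (D.neg β), M) ∈ repU K (D.repE E) (D.repF F) (D.repT K wv) (D.co (D.neg β)) := by
  induction m using Nat.strong_induction_on with
  | _ m ih =>
    intro β hβ hm
    by_cases hs : ∃ i, β = D.s i
    · obtain ⟨i, rfl⟩ := hs
      exact ⟨⟨_, repl_E i⟩, ⟨_, repl_F i⟩⟩
    · obtain ⟨i, γ, hγ, hc⟩ := D.exists_sub_s hβ fun i hi => hs ⟨i, hi⟩
      have h1 : D.ht β = D.ht (D.s i) + D.ht γ := by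
        simp only [RD.ht, hc, Pi.add_apply, Finset.sum_add_distrib]
      have h2 := (D.pos_iff_ht γ).1 hγ
      rw [D.ht_s] at h1
      obtain ⟨k1, k2⟩ := ih _ (by omega) γ hγ rfl
      refine ⟨repl_step hN h hc.symm ⟨_, repl_E i⟩ k1, repl_step hN h ?_ ⟨_, repl_F i⟩ k2⟩
      rw [D.co_neg, D.co_neg, D.co_neg, hc, neg_add]

theorem repl_bv (hN : ∀ α β γ, D.co α + D.co β = D.co γ → (D.N α β : K) ≠ 0)
    (h : D.RepData wv E F) (b : D.B) :
    ∃ M, (D.bv K b, M) ∈ repU K (D.repE E) (D.repF F) (D.repT K wv) (D.wt b) := by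
  rcases b with a | β
  · exact ⟨_, repl_T a⟩
  · by_cases hβ : D.Pos β
    · exact (repl_pos hN h _ β hβ rfl).1
    · have := (repl_pos hN h _ _ ((D.pos_neg_iff β).2 hβ) rfl).2
      rwa [D.neg_neg] at this

end Aux

theorem exists_rep (hN : ∀ α β γ, D.co α + D.co β = D.co γ → (D.N α β : K) ≠ 0)
    {wv : n → D.σ → ℤ} {E F : D.Δ → Matrix n n K} (h : D.RepData wv E F) :
    ∃ φ : D.g K →ₗ⁅K⁆ Matrix n n K,
      (∀ a, φ (D.h K a) = Matrix.diagonal fun x => (wv x a : K)) ∧
      (∀ i, φ (D.e K (D.s i)) = E i) ∧ (∀ i, φ (D.e K (D.neg (D.s i))) = F i) ∧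
      ∀ β, D.MHom wv (D.rt β) (φ (D.e K β)) := by
  choose f hf using repl_bv hN h
  have hrel : ∀ i j, ⁅f i, f j⁆ = ∑ k, D.cc i j k • f k := by
    intro i j
    refine repl_unique h (repl_lie_U (repl_rel h) (hf i) (hf j)) ?_
    have : ((⁅D.bv K i, D.bv K j⁆ : D.g K), ∑ k, D.cc i j k • f k)
        = ∑ k, D.cc i j k • (D.bv K k, f k) := by
      rw [D.lie_bv]
      exact Prod.ext (by rw [Prod.fst_sum]; rfl) (by rw [Prod.snd_sum]; rfl)
    rw [this]
    refine sum_mem fun k _ => ?_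
    by_cases h0 : D.cc i j k = 0
    · rw [h0, zero_smul]; exact zero_mem _
    · rw [← D.cc_wt h0]; exact zsmul_mem (hf k) _
  refine ⟨D.homOf f hrel, fun a => ?_, fun i => ?_, fun i => ?_, fun β => ?_⟩
  · rw [D.homOf_bv]; exact repl_unique h (hf _) (repl_T a)
  · rw [D.homOf_bv]; exact repl_unique h (hf _) (repl_E i)
  · rw [D.homOf_bv]; exact repl_unique h (hf _) (repl_F i)
  · rw [D.homOf_bv, D.rt_co]; exact repl_hom h (hf (.inr β))

end CD

end Pool.Agent.P.Bf04
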