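import Pool.Agent.P.MP_bf0464_al.H.ClDef
import Pool.Agent.P.MP_bf0464_al.H.RepL
import Pool.Agent.P.MP_bf0464_al.H.Weyl
import Pool.Agent.P.MP_bf0464_al.H.ClRep_3

/-! Construction of the isomorphism in types B, C, D. -/

namespace Pool.Agent.P.Bf04

open Matrix Module

attribute [local instance 100] LieRing.ofAssociativeRing

universe u v w

namespace ClRep

theorem two_ne {K : Type u} [Field K] {p : ℕ} [Fact p.Prime] [CharP K p] (hp : p ≠ 2) :
    (2 : K) ≠ 0 := fun h => hp ((Nat.prime_dvd_prime_iff_eq Fact.out Nat.prime_two).1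
  ((CharP.cast_eq_zero_iff K p 2).1 (by exact_mod_cast h)))

theorem car_B (n : ℕ) (i j : Fin (n + 2)) : CartanMatrix.B (n + 2) i j
    = Row (Pi.single (Fin.last (n + 1)) 1) i ⬝ᵥ Row (Pi.single (Fin.last (n + 1)) 2) j := by
  induction i using Fin.lastCases <;> induction j using Fin.lastCases <;>
    simp only [Row_last, Row_cast, CartanMatrix.B, of_apply, sub_dotProduct, single_dotProduct,
      Pi.sub_apply, Pi.single_apply, Fin.ext_iff, Fin.val_last, Fin.val_castSucc, Fin.val_succ] <;>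
    split_ifs <;> omega

theorem car_C (n : ℕ) (i j : Fin (n + 3)) : CartanMatrix.C (n + 3) i j
    = Row (Pi.single (Fin.last (n + 2)) 2) i ⬝ᵥ Row (Pi.single (Fin.last (n + 2)) 1) j := by
  induction i using Fin.lastCases <;> induction j using Fin.lastCases <;>
    simp only [Row_last, Row_cast, CartanMatrix.C, of_apply, sub_dotProduct, single_dotProduct,
      Pi.sub_apply, Pi.single_apply, Fin.ext_iff, Fin.val_last, Fin.val_castSucc, Fin.val_succ] <;>
    split_ifs <;> omega

theorem car_D (n : ℕ) (i j : Fin (n + 4)) : CartanMatrix.D (n + 4) i j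
    = Row (Pi.single (Fin.last (n + 2)).castSucc 1 + Pi.single (Fin.last (n + 3)) 1) i
      ⬝ᵥ Row (Pi.single (Fin.last (n + 2)).castSucc 1 + Pi.single (Fin.last (n + 3)) 1) j := by
  induction i using Fin.lastCases <;> induction j using Fin.lastCases <;>
    simp only [Row_last, Row_cast, CartanMatrix.D, of_apply, sub_dotProduct, add_dotProduct,
      single_dotProduct, Pi.sub_apply, Pi.add_apply, Pi.single_apply, Fin.ext_iff, Fin.val_last,
      Fin.val_castSucc, Fin.val_succ, or_true, and_true] <;>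
    split_ifs <;> omega

end ClRep

namespace CD

open ClRep

variable {D : CD} {K : Type u} [Field K] {p : ℕ} [Fact p.Prime] [CharP K p] (hp : p ≠ 2)
  (hN : ∀ α β γ, D.co α + D.co β = D.co γ → (D.N α β : K) ≠ 0) (hS : D.SC) {n : ℕ}

include hp hN hS

theorem clrep_B {M : Matrix (Fin (n + 1)) (Fin (n + 1)) ℤ} (h : IsTyp D.A Finset.univ M)
    (hM : ∀ i j, M i j = Row (Pi.single (Fin.last n) 1) i ⬝ᵥ Row (Pi.single (Fin.last n) 2) j) :
    D.HasCl p K (n + 1) 1 1 := by
  have h2 : (2 : K) ≠ 0 := two_ne hp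
  have P : Par (1 : K) 1 := ⟨Or.inl rfl, Or.inl rfl, h2⟩
  obtain ⟨h3, h4⟩ := (Fl (n + 1) P).clrep_B (Q_nd P) (Fin.last n) rfl (Pi.single 0 1)
    (by simp [Q₀]) fun v => ⟨v 0, by funext i; rw [Subsingleton.elim i 0]; simp⟩
  refine clrep_row P hp hN hS le_rfl h _ _ hM (by simpa using h2) (by simp [dg_single]) _ _ ?_ ?_
    (h4.trans ?_) h3 ?_ ⟨1, fun y a => ?_⟩
  · rw [Fl_inc, ← add_zero (Pi.single _ 1)]
    exact CH_F P (.inl _) (.inr (.inr 0))
  · rw [Fl_inc, ← zero_add (-Pi.single _ 1)]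
    exact (CH_F P (.inr (.inr 0)) (.inr (.inl _))).smul 2
  · rw [T_single]; simp
  · rw [Finset.sum_eq_single (Fin.last n) (by simp +contextual) (by simp)]
    simp [QF.sh]
    field_simp
    norm_num
  · rw [Finset.sum_eq_single (Fin.last n) (by simp +contextual) (by simp)]
    by_cases ha : a = Fin.last n
    · subst ha; simp; ring
    · simp [Pi.single_eq_of_ne ha]

theorem clrep_C {M : Matrix (Fin (n + 1)) (Fin (n + 1)) ℤ} (h : IsTyp D.A Finset.univ M)
    (hM : ∀ i j, M i j = Row (Pi.single (Fin.last n) 2) i ⬝ᵥ Row (Pi.single (Fin.last n) 1) j) :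
    D.HasCl p K (n + 1) (-1) 0 := by
  have h2 : (2 : K) ≠ 0 := two_ne hp
  have P : Par (-1 : K) 0 := ⟨Or.inr rfl, Or.inr rfl, h2⟩
  obtain ⟨h3, h4⟩ := (Fl (n + 1) P).clrep_C (Q_nd P) (Fin.last n) rfl
    fun v => Subsingleton.elim _ _
  have e : (Pi.single (Fin.last n) 2 : Fin (n + 1) → ℤ)
      = Pi.single (Fin.last n) 1 + Pi.single (Fin.last n) 1 := by rw [← Pi.single_add]; rfl
  refine clrep_row P hp hN hS (by omega) h _ _ hM (by simp) (by simp [dg_single]) _ _ ?_ ?_
    (h4.trans ?_) h3 ?_ ⟨1, fun y a => ?_⟩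
  · rw [e]
    exact CH_F P (.inl _) (.inl _)
  · rw [e, neg_add]
    exact (CH_F P (.inr (.inl _)) (.inr (.inl _))).smul _
  · rw [T_single]; simp
  · rw [Finset.sum_eq_single (Fin.last n) (by simp +contextual) (by simp)]
    simp [QF.sh, h2]
  · rw [Finset.sum_eq_single (Fin.last n) (by simp +contextual) (by simp)]
    by_cases ha : a = Fin.last n
    · subst ha; simp; ring
    · simp [Pi.single_eq_of_ne ha]

theorem clrep_D {M : Matrix (Fin (n + 1)) (Fin (n + 1)) ℤ} (h : IsTyp D.A Finset.univ M)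
    (r : Fin (n + 1)) (hr : n = r + 1)
    (hM : ∀ i j, M i j = Row (Pi.single r 1 + Pi.single (Fin.last n) 1) i
      ⬝ᵥ Row (Pi.single r 1 + Pi.single (Fin.last n) 1) j) :
    D.HasCl p K (n + 1) 1 0 := by
  have h2 : (2 : K) ≠ 0 := two_ne hp
  have P : Par (1 : K) 0 := ⟨Or.inl rfl, Or.inr rfl, h2⟩
  obtain ⟨h3, h4⟩ := (Fl (n + 1) P).clrep_D (Q_nd P) (Fin.last n) rfl
    (fun v => Subsingleton.elim _ _) r hr
  have hne : r ≠ Fin.last n := fun h => by rw [h, Fin.val_last] at hr; omega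
  have hs : ∀ y : Fin (n + 1) → K,
      ∑ b, ((Pi.single r 1 + Pi.single (Fin.last n) 1 : Fin (n + 1) → ℤ) b : K) * y b
        = y r + y (Fin.last n) := fun y => by
    simp [Pi.single_apply, add_mul, Finset.sum_add_distrib]
  refine clrep_row P hp hN hS (by omega) h _ _ hM
    (by simpa [Finset.sum_add_distrib, one_add_one_eq_two] using h2)
    (by rw [dg_add, dg_single, dg_single]; simp; omega) _ _ ?_ ?_
    (h4.trans ?_) h3 ?_ ⟨Equiv.swap r (Fin.last n), fun y a => ?_⟩
  · exact CH_F P (.inl _) (.inl _)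
  · rw [neg_add_rev]
    exact CH_F P (.inr (.inl _)) (.inr (.inl _))
  · rw [T_add, T_single, T_single]; simp
  · rw [hs, show n + 1 - (r : ℕ) = 2 by omega]
    simp [QF.sh]
    field_simp
    norm_num
  · rw [hs]
    by_cases a1 : a = r
    · subst a1; simp [hne]
    · by_cases a2 : a = Fin.last n
      · subst a2; simp [a1]
      · simp [a1, a2, Equiv.swap_apply_of_ne_of_ne]

theorem hasCl_B (h : IsTyp D.A Finset.univ (CartanMatrix.B (n + 2))) :
    D.HasCl p K (n + 2) 1 1 := clrep_B hp hN hS h (car_B n)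

theorem hasCl_C (h : IsTyp D.A Finset.univ (CartanMatrix.C (n + 3))) :
    D.HasCl p K (n + 3) (-1) 0 := clrep_C hp hN hS h (car_C n)

theorem hasCl_D (h : IsTyp D.A Finset.univ (CartanMatrix.D (n + 4))) :
    D.HasCl p K (n + 4) 1 0 := clrep_D hp hN hS h (Fin.last (n + 2)).castSucc rfl (car_D n)

end CD

end Pool.Agent.P.Bf04
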