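import Pool.Agent.P.MP_bf0464_al.HW

/-! Generation and cyclicity for the Lie algebra of a form with a flag; an explicit model. -/

namespace Pool.Agent.P.Bf04

open Module

attribute [local instance 100] LieRing.ofAssociativeRing

universe u

namespace QF

namespace Flag

variable {k V V₀ : Type u} [Field k] [AddCommGroup V] [Module k V] [AddCommGroup V₀]
  [Module k V₀] {Q : QF k V} {Q₀ : QF k V₀} {M : ℕ} (Fl : Q.Flag Q₀ M)

theorem clrep_u (i j l : Fin M) :
    Q.F (Fl.u i) (Fl.u' j) (Fl.u l) = if j = l then Fl.u i else 0 := by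
  rw [F_apply, Fl.u'u, Fl.uu]; split_ifs <;> simp

theorem clrep_u' (i j l : Fin M) :
    Q.F (Fl.u i) (Fl.u' j) (Fl.u' l) = if l = i then -Fl.u' j else 0 := by
  rw [F_apply, Fl.u'u', Fl.uu']; split_ifs <;> simp [Q.ε_sq]

theorem clrep_inc (i j : Fin M) (v : V₀) : Q.F (Fl.u i) (Fl.u' j) (Fl.inc v) = 0 := by
  rw [F_apply, Fl.u'_inc, Fl.u_inc]; simp

theorem clrep_GG (i j l r : Fin M) : ⁅Q.Fs (Fl.u i) (Fl.u' j), Q.Fs (Fl.u l) (Fl.u' r)⁆
    = (if j = l then Q.Fs (Fl.u i) (Fl.u' r) else 0)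
      - if r = i then Q.Fs (Fl.u l) (Fl.u' j) else 0 := by
  rw [lie_Fs, Fs_coe, clrep_u, clrep_u']
  split_ifs <;> simp [sub_eq_add_neg]

variable (U : LieSubalgebra k Q.g)

theorem clrep_uu (hG : ∀ i j, Q.Fs (Fl.u i) (Fl.u' j) ∈ U) (l : Fin M)
    (h : ∀ i, Q.Fs (Fl.u i) (Fl.u l) ∈ U) (i j : Fin M) : Q.Fs (Fl.u i) (Fl.u j) ∈ U := by
  have h1 := U.lie_mem (hG j l) (h i)
  rw [lie_Fs, Fs_coe, clrep_u, clrep_u, if_pos rfl] at h1
  refine (U.toSubmodule.add_mem_iff_right ?_).1 h1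
  split_ifs
  · exact h j
  · simp

theorem clrep_u'u' (hG : ∀ i j, Q.Fs (Fl.u i) (Fl.u' j) ∈ U) (l : Fin M)
    (h : ∀ i, Q.Fs (Fl.u' i) (Fl.u' l) ∈ U) (i j : Fin M) : Q.Fs (Fl.u' i) (Fl.u' j) ∈ U := by
  have h1 := U.lie_mem (hG l j) (h i)
  rw [lie_Fs, Fs_coe, clrep_u', clrep_u', if_pos rfl, map_neg] at h1
  refine neg_mem_iff.1 ((U.toSubmodule.add_mem_iff_right ?_).1 h1)
  split_ifs
  · rw [map_neg, LinearMap.neg_apply]; exact neg_mem (h j)
  · simp

theorem clrep_all [FiniteDimensional k V] (hQ : Q.ND) (hG : ∀ i j, Q.Fs (Fl.u i) (Fl.u' j) ∈ U)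
    (h1 : ∀ i j, Q.Fs (Fl.u i) (Fl.u j) ∈ U) (h2 : ∀ i j, Q.Fs (Fl.u' i) (Fl.u' j) ∈ U)
    (h3 : ∀ i v, Q.Fs (Fl.u i) (Fl.inc v) ∈ U) (h4 : ∀ i v, Q.Fs (Fl.u' i) (Fl.inc v) ∈ U)
    (h5 : ∀ v w, Q.Fs (Fl.inc v) (Fl.inc w) ∈ U) (x : Q.g) : x ∈ U := by
  have hs : ∀ {v w}, Q.Fs v w ∈ U → Q.Fs w v ∈ U := fun {v w} h => by
    rw [Q.Fs_swap]; exact U.smul_mem _ h
  have key : ∀ v, (∀ i, Q.Fs v (Fl.u i) ∈ U) → (∀ i, Q.Fs v (Fl.u' i) ∈ U) →
      (∀ w, Q.Fs v (Fl.inc w) ∈ U) → ∀ w, Q.Fs v w ∈ U := fun v a b c w => by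
    rw [← Fl.dec w]
    simp only [map_add, map_sum, map_smul]
    exact add_mem (add_mem (sum_mem fun i _ => U.smul_mem _ (a i)) (c _))
      (sum_mem fun i _ => U.smul_mem _ (b i))
  obtain ⟨fr, hfr⟩ := Q.exists_frame hQ
  refine fr.g_induction hfr U.toSubmodule (fun i j => ?_) x
  exact key _ (fun i => hs (key _ (h1 i) (hG i) (h3 i) _))
    (fun i => hs (key _ (fun j => hs (hG j i)) (h2 i) (h4 i) _))
    (fun w => hs (key _ (fun j => hs (h3 j w)) (fun j => hs (h4 j w)) (h5 w) _)) _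

theorem clrep_top (W : Submodule k V) (h1 : ∀ i, Fl.u i ∈ W) (h2 : ∀ i, Fl.u' i ∈ W)
    (h3 : ∀ v, Fl.inc v ∈ W) : W = ⊤ := by
  refine eq_top_iff.2 fun x _ => ?_
  rw [← Fl.dec x]
  exact add_mem (add_mem (sum_mem fun i _ => W.smul_mem _ (h1 i)) (h3 _))
    (sum_mem fun i _ => W.smul_mem _ (h2 i))

end Flag

namespace Flag

variable {k V V₀ : Type u} [Field k] [AddCommGroup V] [Module k V] [AddCommGroup V₀]
  [Module k V₀] {Q : QF k V} {Q₀ : QF k V₀} {n : ℕ} (Fl : Q.Flag Q₀ (n + 1))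

theorem clrep_gl (U : LieSubalgebra k Q.g)
    (h1 : ∀ j : Fin n, Q.Fs (Fl.u j.castSucc) (Fl.u' j.succ) ∈ U)
    (h2 : ∀ j : Fin n, Q.Fs (Fl.u j.succ) (Fl.u' j.castSucc) ∈ U)
    (h3 : ∀ a, Q.Fs (Fl.u a) (Fl.u' a) ∈ U) (i j : Fin (n + 1)) :
    Q.Fs (Fl.u i) (Fl.u' j) ∈ U := by
  have tr : ∀ i j l, Q.Fs (Fl.u i) (Fl.u' j) ∈ U → Q.Fs (Fl.u j) (Fl.u' l) ∈ U →
      Q.Fs (Fl.u i) (Fl.u' l) ∈ U := fun i j l a b => by
    by_cases h : l = i
    · rw [h]; exact h3 i
    · have := U.lie_mem a b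
      rwa [clrep_GG, if_pos rfl, if_neg h, sub_zero] at this
  have a0 : ∀ j, Q.Fs (Fl.u 0) (Fl.u' j) ∈ U := fun j => by
    induction j using Fin.induction with
    | zero => exact h3 0
    | succ j ih => exact tr _ _ _ ih (h1 j)
  have b0 : ∀ j, Q.Fs (Fl.u j) (Fl.u' 0) ∈ U := fun j => by
    induction j using Fin.induction with
    | zero => exact h3 0
    | succ j ih => exact tr _ _ _ (h2 j) ih
  exact tr _ _ _ (b0 i) (a0 j)

variable (W : Submodule k V)

theorem clrep_c1 (h : ∀ j : Fin n, ∀ v ∈ W, Q.F (Fl.u j.succ) (Fl.u' j.castSucc) v ∈ W)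
    (h0 : Fl.u 0 ∈ W) (i : Fin (n + 1)) : Fl.u i ∈ W := by
  induction i using Fin.induction with
  | zero => exact h0
  | succ j ih => have := h j _ ih; rwa [clrep_u, if_pos rfl] at this

theorem clrep_c2 (h : ∀ j : Fin n, ∀ v ∈ W, Q.F (Fl.u j.succ) (Fl.u' j.castSucc) v ∈ W)
    (h0 : Fl.u' (Fin.last n) ∈ W) (i : Fin (n + 1)) : Fl.u' i ∈ W := by
  induction i using Fin.reverseInduction with
  | last => exact h0
  | cast j ih => have := h j _ ih; rwa [clrep_u', if_pos rfl, neg_mem_iff] at this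

theorem clrep_c3 (h : ∀ j : Fin n, ∀ v ∈ W, Q.F (Fl.u j.castSucc) (Fl.u' j.succ) v ∈ W)
    (h0 : Fl.u' 0 ∈ W) (i : Fin (n + 1)) : Fl.u' i ∈ W := by
  induction i using Fin.induction with
  | zero => exact h0
  | succ j ih => have := h j _ ih; rwa [clrep_u', if_pos rfl, neg_mem_iff] at this

theorem clrep_c4 (h : ∀ j : Fin n, ∀ v ∈ W, Q.F (Fl.u j.castSucc) (Fl.u' j.succ) v ∈ W)
    (h0 : Fl.u (Fin.last n) ∈ W) (i : Fin (n + 1)) : Fl.u i ∈ W := by
  induction i using Fin.reverseInduction with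
  | last => exact h0
  | cast j ih => have := h j _ ih; rwa [clrep_u, if_pos rfl] at this

end Flag

end QF

namespace ClRep

/-- the index set of the standard basis -/
abbrev Ix (m z : ℕ) : Type := Fin m ⊕ Fin m ⊕ Fin z

variable {K : Type u} [Field K] {m z : ℕ}

/-- the opposite index -/
def τ : Ix m z → Ix m z :=
  Sum.elim (fun i => .inr (.inl i)) (Sum.elim .inl fun c => .inr (.inr c))

/-- signs -/
def sg (ε : K) : Ix m z → K := Sum.elim (fun _ => ε) fun _ => 1

/-- the weights of the basis vectors in coordinates -/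
def cw : Ix m z → Fin m → ℤ :=
  Sum.elim (fun i => Pi.single i 1) (Sum.elim (fun i => -Pi.single i 1) fun _ => 0)

theorem τ_τ (a : Ix m z) : τ (τ a) = a := by rcases a with a | a | a <;> rfl

theorem cw_τ (a : Ix m z) : cw (τ a) = -cw a := by rcases a with a | a | a <;> simp [cw, τ]

theorem cw_abs (a : Ix m z) (c : Fin m) : |cw a c| ≤ 1 := by
  rcases a with a | a | a <;> simp only [cw, Sum.elim_inl, Sum.elim_inr, Pi.neg_apply, abs_neg,
    Pi.single_apply, Pi.zero_apply]
  · split_ifs <;> simp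
  · split_ifs <;> simp
  · simp

/-- admissible parameters -/
structure Par (ε : K) (z : ℕ) : Prop where
  hε : ε = 1 ∨ ε = -1
  hz : ε = 1 ∨ z = 0
  two : (2 : K) ≠ 0

/-- the form -/
def form (ε : K) : (Ix m z → K) →ₗ[K] (Ix m z → K) →ₗ[K] K :=
  LinearMap.mk₂ K (fun v w => ∑ a, sg ε a * v a * w (τ a))
    (fun v v' w => by simp only [Pi.add_apply, mul_add, add_mul, Finset.sum_add_distrib])
    (fun c v w => by
      simp only [Pi.smul_apply, smul_eq_mul, Finset.mul_sum]
      exact Finset.sum_congr rfl fun a _ => by ring)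
    (fun v w w' => by simp only [Pi.add_apply, mul_add, Finset.sum_add_distrib])
    (fun c v w => by
      simp only [Pi.smul_apply, smul_eq_mul, Finset.mul_sum]
      exact Finset.sum_congr rfl fun a _ => by ring)

theorem form_apply (ε : K) (v w : Ix m z → K) :
    form ε v w = ∑ a, sg ε a * v a * w (τ a) := rfl

theorem form_left (ε : K) (a : Ix m z) (w : Ix m z → K) :
    form ε (Pi.single a 1) w = sg ε a * w (τ a) := by
  rw [form_apply, Finset.sum_eq_single a] <;> simp +contextual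

theorem form_right (ε : K) (v : Ix m z → K) (a : Ix m z) :
    form ε v (Pi.single a 1) = sg ε (τ a) * v (τ a) := by
  rw [form_apply, Finset.sum_eq_single (τ a)]
  · simp [τ_τ]
  · intro b _ hb
    rw [Pi.single_eq_of_ne, mul_zero]
    rintro rfl
    exact hb (τ_τ b).symm
  · simp

variable {ε : K} (P : Par ε z)

include P in
theorem ε_sq : ε * ε = 1 := by rcases P.hε with h | h <;> rw [h] <;> ring

include P in
theorem sg_ne (a : Ix m z) : sg ε a ≠ 0 := by
  rcases a with a | a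
  · exact fun h => by simpa [show ε = 0 from h] using ε_sq P
  · exact one_ne_zero

variable (m) in
/-- the model space -/
def Q : QF K (Ix m z → K) where
  β := form ε
  ε := ε
  hε := P.hε
  symm v w := by
    simp only [form_apply, Fintype.sum_sum_type, sg, τ, Sum.elim_inl, Sum.elim_inr, one_mul,
      mul_add, Finset.mul_sum]
    have h3 : ∑ c : Fin z, v (.inr (.inr c)) * w (.inr (.inr c))
        = ∑ c : Fin z, ε * (w (.inr (.inr c)) * v (.inr (.inr c))) := by
      rcases P.hz with h | h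
      · simp [h, mul_comm]
      · subst h; simp
    rw [h3, ← add_assoc, ← add_assoc, add_left_inj, add_comm]
    congr 1
    · refine Finset.sum_congr rfl fun a _ => ?_
      linear_combination (-(v (.inr (.inl a)) * w (.inl a))) * ε_sq P
    · exact Finset.sum_congr rfl fun a _ => by ring
  two := P.two

/-- the small space -/
def Q₀ : QF K (Fin z → K) where
  β := dotProductBilin K K
  ε := ε
  hε := P.hε
  symm v w := by
    rcases P.hz with h | h
    · simp [h, dotProduct_comm]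
    · subst h; simp
  two := P.two

theorem Q_β (v w : Ix m z → K) : (Q m P).β v w = form ε v w := rfl

theorem Q_ε : (Q m P).ε = ε := rfl

theorem Q_nd : (Q m P).ND := fun v hv => funext fun a => by
  have := hv (Pi.single (τ a) 1)
  rw [Q_β, form_right, τ_τ] at this
  exact (mul_eq_zero.1 this).resolve_left (sg_ne P a)

theorem Q₀_nd : (Q₀ P).ND := fun v hv => funext fun a => by
  simpa [Q₀] using hv (Pi.single a 1)

variable (m) in
/-- the standard flag -/
def Fl : (Q m P).Flag (Q₀ P) m where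
  inc := { toFun := fun v => Sum.elim 0 (Sum.elim 0 v)
           map_add' := fun v w => by funext a; rcases a with a | a | a <;> simp
           map_smul' := fun c v => by funext a; rcases a with a | a | a <;> simp }
  pr := LinearMap.funLeft K K fun c => .inr (.inr c)
  ε_eq := rfl
  β_pr v w := by
    simp [Q_β, form_apply, Q₀, sg, τ, dotProduct, LinearMap.funLeft_apply]
  pr_inc v := rfl
  u i := Pi.single (.inl i) 1
  u' i := Pi.single (.inr (.inl i)) 1
  uu i j := by simp [Q_β, form_left, τ]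
  u'u' i j := by simp [Q_β, form_left, τ]
  u'u i j := by simp [Q_β, form_left, τ, sg, Pi.single_apply]
  pr_u i := by funext c; simp [LinearMap.funLeft_apply]
  pr_u' i := by funext c; simp [LinearMap.funLeft_apply]
  dec x := by
    funext a
    rcases a with a | a | a <;>
      simp [Q_β, form_left, form_right, τ, sg, Finset.sum_apply, Pi.single_apply,
        LinearMap.funLeft_apply]

theorem Fl_u (i : Fin m) : (Fl m P).u i = Pi.single (.inl i) 1 := rfl

theorem Fl_u' (i : Fin m) : (Fl m P).u' i = Pi.single (.inr (.inl i)) 1 := rfl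

theorem Fl_inc (c : Fin z) : (Fl m P).inc (Pi.single c 1) = Pi.single (.inr (.inr c)) 1 := by
  funext a
  rcases a with a | a | a <;> simp [Fl, Pi.single_apply]

/-- endomorphisms that shift the weight by `g` -/
def CH (g : Fin m → ℤ) (x : End K (Ix m z → K)) : Prop :=
  ∀ r s, x (Pi.single s 1) r ≠ 0 → cw r = cw s + g

theorem CH.smul {g : Fin m → ℤ} {x : End K (Ix m z → K)} (h : CH g x) (c : K) : CH g (c • x) :=
  fun r s h' => h r s fun h0 => h' (by simp [h0])

theorem CH.mul {g g' : Fin m → ℤ} {x y : End K (Ix m z → K)} (h : CH g x) (h' : CH g' y) :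
    CH (g + g') (x * y) := fun r s hr => by
  rw [End.mul_apply, ← Finset.univ_sum_single (y (Pi.single s 1)), map_sum,
    Finset.sum_apply] at hr
  obtain ⟨t, -, ht⟩ := Finset.exists_ne_zero_of_sum_ne_zero hr
  rw [← mul_one (y (Pi.single s 1) t), ← smul_eq_mul, Pi.single_smul', map_smul, Pi.smul_apply,
    smul_eq_mul] at ht
  rw [h r t (right_ne_zero_of_mul ht), h' t s (left_ne_zero_of_mul ht)]
  abel

theorem CH.pow {g : Fin m → ℤ} {x : End K (Ix m z → K)} (h : CH g x) (n : ℕ) :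
    CH ((n : ℤ) • g) (x ^ n) := by
  induction n with
  | zero =>
    intro r s hr
    have : r = s := by
      by_contra hne
      exact hr (by simp [Pi.single_eq_of_ne hne])
    simp [this]
  | succ n ih => rw [pow_succ, Nat.cast_succ, add_smul, one_smul]; exact ih.mul h

theorem CH.pow_eq_zero {g : Fin m → ℤ} {x : End K (Ix m z → K)} (h : CH g x) (hg : g ≠ 0) {n : ℕ}
    (hn : 3 ≤ n) : x ^ n = 0 := by
  refine LinearMap.pi_ext' fun s => LinearMap.ext_ring (funext fun r => ?_)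
  by_contra hr
  obtain ⟨c, hc⟩ := Function.ne_iff.1 hg
  have h1 := congrFun (h.pow n r s (by simpa using hr)) c
  have h2 := abs_le.1 (cw_abs r c)
  have h3 := abs_le.1 (cw_abs s c)
  simp only [Pi.add_apply, Pi.smul_apply, smul_eq_mul, Pi.zero_apply] at h1 hc
  have h4 : (3 : ℤ) ≤ n := by exact_mod_cast hn
  rcases lt_or_gt_of_ne hc with h5 | h5 <;> nlinarith

theorem F_entry (v w : Ix m z → K) (r s : Ix m z) :
    (Q m P).F v w (Pi.single s 1) r
      = sg ε (τ s) * (w (τ s) * v r - ε * v (τ s) * w r) := by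
  simp only [QF.F_apply, Q_β, form_right, Q_ε, Pi.sub_apply, Pi.smul_apply, smul_eq_mul]
  ring

theorem CH_F (a c : Ix m z) : CH (cw a + cw c) ((Q m P).F (Pi.single a 1) (Pi.single c 1)) := by
  intro r s h
  rw [F_entry] at h
  have h1 : ∀ {a c : Ix m z}, (Pi.single c 1 : Ix m z → K) (τ s) ≠ 0 →
      (Pi.single a 1 : Ix m z → K) r ≠ 0 → cw r = cw s + (cw a + cw c) := fun {a c} h1 h2 => by
    have e1 : τ s = c := by by_contra e; exact h1 (Pi.single_eq_of_ne e _)
    have e2 : r = a := by by_contra e; exact h2 (Pi.single_eq_of_ne e _)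
    rw [← e1, e2, cw_τ]; abel
  by_contra hne
  apply h
  have e1 : (Pi.single c 1 : Ix m z → K) (τ s) * (Pi.single a 1 : Ix m z → K) r = 0 := by
    by_contra e
    exact hne (h1 (left_ne_zero_of_mul e) (right_ne_zero_of_mul e))
  have e2 : (Pi.single a 1 : Ix m z → K) (τ s) * (Pi.single c 1 : Ix m z → K) r = 0 := by
    by_contra e
    exact hne ((h1 (left_ne_zero_of_mul e) (right_ne_zero_of_mul e)).trans (by abel))
  rw [e1, mul_assoc, e2]; simp

/-- torus elements -/
def T (t : Fin m → K) : (Q m P).g := ∑ a, t a • (Q m P).Fs ((Fl m P).u a) ((Fl m P).u' a)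

theorem T_entry (t : Fin m → K) (r s : Ix m z) :
    (T P t).1 (Pi.single s 1) r = if r = s then ∑ a, (cw r a : K) * t a else 0 := by
  have h : (T P t).1 = ∑ a, t a • (Q m P).F ((Fl m P).u a) ((Fl m P).u' a) := by
    rw [T]; exact map_sum (Q m P).g.toSubmodule.subtype _ _
  rw [h]
  simp only [LinearMap.sum_apply, LinearMap.smul_apply, Finset.sum_apply, Pi.smul_apply, F_entry,
    Fl_u, Fl_u', smul_eq_mul]
  rcases r with r | r | r <;> rcases s with s | s | s <;>
    simp [τ, sg, cw, Pi.single_apply, ε_sq P, apply_ite (Int.cast : ℤ → K)]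
  all_goals by_cases h : r = s <;> simp [h, Ne.symm]

/-- the degree function -/
def dg (g : Fin m → ℤ) : ℤ := ∑ c, g c * ((m : ℤ) - (c : ℕ))

theorem dg_add (g g' : Fin m → ℤ) : dg (g + g') = dg g + dg g' := by
  simp [dg, add_mul, Finset.sum_add_distrib]

theorem dg_neg (g : Fin m → ℤ) : dg (-g) = -dg g := by simp [dg]

theorem dg_single (c : Fin m) (a : ℤ) : dg (Pi.single c a) = a * ((m : ℤ) - (c : ℕ)) := by
  simp [dg, Pi.single_apply]

theorem dg_inl (i : Fin m) : dg (cw (.inl i : Ix m z)) = (m : ℤ) - (i : ℕ) := by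
  simp [cw, dg_single]

theorem dg_inr (i : Fin m) : dg (cw (.inr (.inl i) : Ix m z)) = -((m : ℤ) - (i : ℕ)) := by
  simp [cw, dg_single, dg_neg]

theorem dg_zero (c : Fin z) : dg (cw (.inr (.inr c) : Ix m z)) = 0 := by
  simp [cw, dg]

theorem dg_τ (a : Ix m z) : dg (cw (τ a)) = -dg (cw a) := by rw [cw_τ, dg_neg]

theorem Wp_deg {j : Fin m} {w : Ix m z → K} (hw : w ∈ (Fl m P).Wp j) {r : Ix m z} (hr : w r ≠ 0) :
    -((m : ℤ) - (j : ℕ)) < dg (cw r) := by
  have hj := j.2
  rcases r with r | r | r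
  · have := r.2
    rw [dg_inl]; omega
  · rw [dg_inr]
    by_contra h
    have := hw.1 r (by rw [Fin.le_def]; omega)
    rw [Fl_u, Q_β, form_left] at this
    exact hr ((mul_eq_zero.1 this).resolve_left (sg_ne P _))
  · rw [dg_zero]; omega

theorem Wp_up {j : Fin m} {w : Ix m z → K} (hw : w ∈ (Fl m P).Wp j) (r s : Ix m z)
    (h : dg (cw r) ≤ dg (cw s)) : (Q m P).F ((Fl m P).u j) w (Pi.single s 1) r = 0 := by
  rw [F_entry, Fl_u]
  have e1 : w (τ s) * (Pi.single (.inl j) 1 : Ix m z → K) r = 0 := by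
    by_contra e
    have e2 : r = .inl j := by
      by_contra e'; exact right_ne_zero_of_mul e (Pi.single_eq_of_ne e' _)
    have := Wp_deg P hw (left_ne_zero_of_mul e)
    rw [dg_τ] at this
    rw [e2, dg_inl] at h
    omega
  have e2 : (Pi.single (.inl j) 1 : Ix m z → K) (τ s) * w r = 0 := by
    by_contra e
    have e2 : τ s = .inl j := by
      by_contra e'; exact left_ne_zero_of_mul e (Pi.single_eq_of_ne e' _)
    have := Wp_deg P hw (right_ne_zero_of_mul e)
    have h2 := dg_τ s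
    rw [e2, dg_inl] at h2
    omega
  rw [e1, mul_assoc, e2]; simp

theorem bor_up (x : (Q m P).g)
    (hx : ∀ i, x.1 ((Fl m P).u i) ∈ Submodule.span K ((Fl m P).u '' Set.Iic i)) (r s : Ix m z)
    (h : dg (cw r) < dg (cw s)) : x.1 (Pi.single s 1) r = 0 := by
  have key : ∀ (i : Fin m) (r : Ix m z), dg (cw r) < dg (cw (.inl i : Ix m z)) →
      x.1 (Pi.single (.inl i) 1) r = 0 := fun i r h => by
    have h1 : Submodule.span K ((Fl m P).u '' Set.Iic i) ≤ LinearMap.ker (LinearMap.proj r) := by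
      refine Submodule.span_le.2 ?_
      rintro _ ⟨l, hl, rfl⟩
      change (Pi.single (.inl l) 1 : Ix m z → K) r = 0
      refine Pi.single_eq_of_ne ?_ _
      rintro rfl
      rw [dg_inl, dg_inl] at h
      have : (l : ℕ) ≤ i := hl
      omega
    exact h1 (hx i)
  have sw : x.1 (Pi.single (τ r) 1) (τ s) = 0 → x.1 (Pi.single s 1) r = 0 := fun h0 => by
    have := (Q m P).sk_of x (Pi.single (τ r) 1) (Pi.single s 1)
    rw [Q_β, Q_β, form_left, form_right, h0, τ_τ, mul_zero, zero_eq_neg] at this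
    exact (mul_eq_zero.1 this).resolve_left (sg_ne P _)
  have h2 : ∀ i : Fin m, r = .inr (.inl i) → x.1 (Pi.single s 1) r = 0 := fun i hi => by
    refine sw ?_
    subst hi
    refine key i _ ?_
    rw [dg_τ, dg_inl]
    rw [dg_inr] at h
    omega
  rcases s with s | s | s
  · exact key s r h
  · rcases r with r | r | r
    · have := r.2; have := s.2
      rw [dg_inl, dg_inr] at h; omega
    · exact h2 r rfl
    · have := s.2
      rw [dg_zero, dg_inr] at h; omega
  · rcases r with r | r | r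
    · have := r.2
      rw [dg_inl, dg_zero] at h; omega
    · exact h2 r rfl
    · rw [dg_zero, dg_zero] at h; omega

end ClRep

end Pool.Agent.P.Bf04
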