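import Pool.Agent.P.MP_bf0464_al.H.ClDef
import Pool.Agent.P.MP_bf0464_al.H.RepL
import Pool.Agent.P.MP_bf0464_al.H.Weyl
import Pool.Agent.P.MP_bf0464_al.H.ClRep_1

/-! The common construction for the three classical types. -/

namespace Pool.Agent.P.Bf04

open Matrix Module

attribute [local instance 100] LieRing.ofAssociativeRing

universe u

namespace CD

open ClRep

variable {D : CD} {K : Type u} [Field K] {m : ℕ}

theorem clrep_ext (hS : D.SC) {μ : D.σ → ℤ} (h : ∀ i, μ ⬝ᵥ D.cr (D.s i) = 0) : μ = 0 := by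
  funext b
  have := congrArg (μ ⬝ᵥ ·) (hS (Pi.single b 1))
  simp only [dotProduct_sum, dotProduct_smul, h, smul_zero, Finset.sum_const_zero] at this
  simpa using this

/-- coordinates on the weight lattice -/
structure Crd (D : CD) (K : Type u) [Field K] {m : ℕ} (e : Fin m ≃ D.Δ)
    (Rm Cm : Fin m → Fin m → ℤ) (L : (Fin m → ℤ) →ₗ[ℤ] D.σ → ℤ) (H : Fin m → D.σ → K) : Prop where
  inj : Function.Injective L
  cr : ∀ g j, L g ⬝ᵥ D.cr (D.s (e j)) = Cm j ⬝ᵥ g
  rt : ∀ i, D.rt (D.s (e i)) = L (Rm i)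
  dual : ∀ g a, ∑ b, (L g b : K) * H a b = g a
  sep : ∀ y : D.σ → K, (∀ c, ∑ b, (L (Pi.single c 1) b : K) * y b = 0) → y = 0

theorem clrep_crd (hS : D.SC) (e : Fin m ≃ D.Δ) (Rm Cm : Fin m → Fin m → ℤ)
    (hA : ∀ i j, D.A (e i) (e j) = Rm i ⬝ᵥ Cm j)
    (hZ : ∀ x : Fin m → ℤ, (∀ j, Cm j ⬝ᵥ x = 0) → x = 0)
    (hK : ∀ x : Fin m → K, (∀ j, ∑ a, (Cm j a : K) * x a = 0) → x = 0) :
    ∃ L H, Crd D K e Rm Cm L H := by
  let ev : Fin m → D.σ → ℤ := fun c => ∑ j, Cm j c • D.ω (e j)
  have hev : ∀ c j, ev c ⬝ᵥ D.cr (D.s (e j)) = Cm j c := fun c j => by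
    simp only [ev, sum_dotProduct, smul_dotProduct, D.ω_cr]
    simp
  let L : (Fin m → ℤ) →ₗ[ℤ] D.σ → ℤ := Fintype.linearCombination ℤ ev
  have hL : ∀ g j, L g ⬝ᵥ D.cr (D.s (e j)) = Cm j ⬝ᵥ g := fun g j => by
    simp only [L, Fintype.linearCombination_apply, sum_dotProduct, smul_dotProduct, hev]
    simp [dotProduct, mul_comm]
  let CK : Matrix (Fin m) (Fin m) K := Matrix.of fun j a => (Cm j a : K)
  have hU : IsUnit CK := Matrix.mulVec_injective_iff_isUnit.1
    ((injective_iff_map_eq_zero CK.mulVecLin).2 fun x hx => hK x fun j => congrFun hx j)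
  obtain ⟨G, hG1, hG2⟩ : ∃ G, G * CK = 1 ∧ CK * G = 1 := ⟨_, hU.val_inv_mul, hU.mul_val_inv⟩
  have hLK : ∀ g j, ∑ b, (L g b : K) * (D.cr (D.s (e j)) b : K) = ∑ c, CK j c * g c := fun g j => by
    have := congrArg (Int.cast : ℤ → K) (hL g j)
    simpa [dotProduct, CK] using this
  refine ⟨L, fun a b => ∑ j, G a j * (D.cr (D.s (e j)) b : K), ?_, hL, fun i => ?_, fun g a => ?_,
    fun y hy => ?_⟩
  · refine (injective_iff_map_eq_zero L).2 fun g hg => hZ g fun j => ?_
    rw [← hL, hg, zero_dotProduct]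
  · rw [← sub_eq_zero]
    refine clrep_ext hS fun j => ?_
    obtain ⟨j, rfl⟩ := e.surjective j
    rw [sub_dotProduct, hL, dotProduct_comm (Cm j), ← hA]
    exact sub_self _
  · have h1 : ∑ b, (L g b : K) * ∑ j, G a j * (D.cr (D.s (e j)) b : K)
        = ∑ j, G a j * ∑ c, CK j c * g c := by
      simp only [← hLK, Finset.mul_sum]
      rw [Finset.sum_comm]
      exact Finset.sum_congr rfl fun j _ => Finset.sum_congr rfl fun b _ => by ring
    have h2 := congrFun (congrArg (· *ᵥ fun c => (g c : K)) hG1) a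
    simp only [← Matrix.mulVec_mulVec, Matrix.one_mulVec] at h2
    rw [h1]
    exact h2
  · let t : Fin m → K := fun j => ∑ b, (D.ω (e j) b : K) * y b
    have hy' : ∀ b', y b' = ∑ j, t j * (D.cr (D.s (e j)) b' : K) := fun b' => by
      have h1 : ∀ b, (if b' = b then 1 else 0 : K)
          = ∑ j, (D.ω (e j) b : K) * (D.cr (D.s (e j)) b' : K) := fun b => by
        have := congrArg (Int.cast : ℤ → K) (congrFun (hS (Pi.single b 1)) b')
        rw [← e.sum_comp] at this
        simpa [Pi.single_apply, Finset.sum_apply] using this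
      calc y b' = ∑ b, (if b' = b then 1 else 0 : K) * y b := by simp
        _ = _ := by
          simp only [h1, t, Finset.sum_mul]
          rw [Finset.sum_comm]
          exact Finset.sum_congr rfl fun j _ => Finset.sum_congr rfl fun b _ => by ring
    have ht : t ᵥ* CK = 0 := funext fun c => by
      have h1 := hy c
      have h2 : ∑ b, (L (Pi.single c 1) b : K) * y b
          = ∑ j, t j * ∑ c', CK j c' * ((Pi.single c 1 : Fin m → ℤ) c' : K) := by
        simp only [← hLK, Finset.mul_sum]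
        rw [Finset.sum_comm]
        refine Finset.sum_congr rfl fun b _ => ?_
        rw [hy' b, Finset.mul_sum]
        exact Finset.sum_congr rfl fun j _ => by ring
      rw [h2] at h1
      simpa [Pi.single_apply, Matrix.vecMul, dotProduct] using h1
    have ht0 : t = 0 := by
      rw [← Matrix.vecMul_one t, ← hG2, ← Matrix.vecMul_vecMul, ht, Matrix.zero_vecMul]
    funext b
    rw [hy' b, ht0]
    simp

variable {e : Fin m ≃ D.Δ} {Rm Cm : Fin m → Fin m → ℤ} {L : (Fin m → ℤ) →ₗ[ℤ] D.σ → ℤ}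
  {H : Fin m → D.σ → K}

theorem Crd.lin (g : Fin m → ℤ) (y : D.σ → K) :
    ∑ b, (L g b : K) * y b = ∑ a, (g a : K) * ∑ b, (L (Pi.single a 1) b : K) * y b := by
  have : g = ∑ a, g a • (Pi.single a 1 : Fin m → ℤ) := by
    funext c; simp [Finset.sum_apply, Pi.single_apply]
  conv_lhs => rw [this]
  simp only [map_sum, map_smul, Finset.sum_apply, Pi.smul_apply, smul_eq_mul, Int.cast_sum,
    Int.cast_mul, Finset.sum_mul, Finset.mul_sum, mul_assoc]
  exact Finset.sum_comm

theorem Crd.wOf (c : Crd D K e Rm Cm L H) (x : D.Δ → ℤ) :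
    D.wOf x = L (∑ i, x (e i) • Rm i) := by
  rw [CD.wOf, ← e.sum_comp, map_sum]
  simp only [map_smul, c.rt]

theorem Crd.rt' (c : Crd D K e Rm Cm L H) (β : D.ι) :
    D.rt β = L (∑ i, D.co β (e i) • Rm i) := by
  rw [← c.wOf, D.rt_co]; rfl

theorem Crd.cr_H (c : Crd D K e Rm Cm L H) (j : Fin m) (b : D.σ) :
    (D.cr (D.s (e j)) b : K) = ∑ a, (Cm j a : K) * H a b := by
  have := c.sep (fun b => (D.cr (D.s (e j)) b : K) - ∑ a, (Cm j a : K) * H a b) fun r => by
    have h1 := congrArg (Int.cast : ℤ → K) (c.cr (Pi.single r 1) j)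
    simp only [dotProduct, Int.cast_sum, Int.cast_mul] at h1
    simp only [mul_sub, Finset.sum_sub_distrib, Finset.mul_sum, h1]
    rw [Finset.sum_comm, sub_eq_zero]
    refine Finset.sum_congr rfl fun a _ => ?_
    rw [← c.dual (Pi.single r 1), Finset.mul_sum]
    exact Finset.sum_congr rfl fun b _ => by ring
  exact sub_eq_zero.1 (congrFun this b)

theorem clrep_dg (hR : ∀ i, 0 < dg (Rm i)) {x : D.Δ → ℤ} (h0 : 0 ≤ x) (h1 : x ≠ 0) :
    0 < dg (∑ i, x (e i) • Rm i) := by
  have h : dg (∑ i, x (e i) • Rm i) = ∑ i, x (e i) * dg (Rm i) := by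
    simp only [dg, Finset.sum_apply, Pi.smul_apply, smul_eq_mul, Finset.sum_mul, Finset.mul_sum,
      mul_assoc]
    exact Finset.sum_comm
  obtain ⟨i, hi⟩ := Function.ne_iff.1 h1
  rw [h]
  refine Finset.sum_pos' (fun i _ => mul_nonneg (h0 _) (hR i).le) ⟨e.symm i, Finset.mem_univ _, ?_⟩
  rw [e.apply_symm_apply]
  exact mul_pos (lt_of_le_of_ne (h0 i) (Ne.symm hi)) (hR _)

variable {z : ℕ} {ε : K} (P : Par ε z)

/-- the homomorphism to the Lie algebra of the model space -/
theorem clrep_hom (hN : ∀ α β γ, D.co α + D.co β = D.co γ → (D.N α β : K) ≠ 0)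
    (c : Crd D K e Rm Cm L H) (hR : ∀ i, 0 < dg (Rm i)) (E F : Fin m → (Q m P).g)
    (hE : ∀ i, CH (Rm i) (E i).1) (hF : ∀ i, CH (-Rm i) (F i).1)
    (EF : ∀ i j, ⁅E i, F j⁆ = if i = j then T P fun a => (Cm i a : K) else 0)
    (a₀ : Fin m) (ha : (a₀ : ℕ) = 0)
    (cF : ∀ W : Submodule K (Ix m z → K), (Fl m P).u a₀ ∈ W → (∀ j, ∀ v ∈ W, (F j).1 v ∈ W) → W = ⊤)
    (cE : ∀ W : Submodule K (Ix m z → K), (Fl m P).u' a₀ ∈ W → (∀ j, ∀ v ∈ W, (E j).1 v ∈ W) →
      W = ⊤) :
    ∃ φ : D.g K →ₗ⁅K⁆ (Q m P).g,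
      (∀ y, φ (D.hv y) = T P fun a => ∑ b, (L (Pi.single a 1) b : K) * y b) ∧
      (∀ i, φ (D.e K (D.s (e i))) = E i) ∧ (∀ i, φ (D.e K (D.neg (D.s (e i)))) = F i) ∧
      ∀ β, CH (∑ i, D.co β (e i) • Rm i) (φ (D.e K β)).1 := by
  let wv : Ix m z → D.σ → ℤ := fun a => L (cw a)
  have hM : ∀ (g : Fin m → ℤ) (x : End K (Ix m z → K)),
      D.MHom wv (L g) (LinearMap.toMatrix' x) ↔ CH g x := fun g x => by
    refine forall₂_congr fun r s => imp_congr Iff.rfl ?_
    simp only [wv, ← map_add, c.inj.eq_iff]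
  have hle : ∀ a : Ix m z, |dg (cw a)| ≤ m := fun a => by
    rcases a with a | a | a
    · have := a.2
      rw [dg_inl, abs_le]; omega
    · have := a.2
      rw [dg_inr, abs_le]; omega
    · rw [dg_zero]; simp
  have hd : D.RepData wv (fun i => LinearMap.toMatrix' (E (e.symm i)).1)
      (fun i => LinearMap.toMatrix' (F (e.symm i)).1) := by
    refine ⟨fun i => ?_, fun i => ?_, fun i j => ?_, fun x h0 h1 M hM' hc => ?_,
      fun x h0 h1 M hM' hc => ?_⟩
    · obtain ⟨i, rfl⟩ := e.surjective i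
      rw [c.rt, hM, e.symm_apply_apply]; exact hE i
    · obtain ⟨i, rfl⟩ := e.surjective i
      rw [c.rt, ← map_neg, hM, e.symm_apply_apply]; exact hF i
    · obtain ⟨i, rfl⟩ := e.surjective i
      obtain ⟨j, rfl⟩ := e.surjective j
      have h1 := congrArg (fun x : (Q m P).g => LinearMap.toMatrix' x.1) (EF i j)
      simp only [e.symm_apply_apply, e.injective.eq_iff]
      rw [← LinearMap.toMatrix'_mul, ← LinearMap.toMatrix'_mul, ← map_sub]
      refine h1.trans ?_
      split_ifs with h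
      · ext r s
        rw [LinearMap.toMatrix'_apply, T_entry, Matrix.diagonal_apply]
        simp only [wv, c.cr]
        simp [dotProduct, mul_comm]
      · simp
    · refine D.eq_zero_of_cyc wv _ (.inl a₀) (fun W w0 w1 => cF W w0 fun j v hv => ?_)
        (fun a h => ?_) hM' hc
      · simpa using w1 (e j) v hv
      · rw [c.wOf] at h
        simp only [wv, ← map_add, c.inj.eq_iff] at h
        have h2 := congrArg dg h
        have h3 := clrep_dg (e := e) hR h0 h1
        have h4 := abs_le.1 (hle a)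
        rw [dg_add, dg_inl] at h2
        omega
    · refine D.eq_zero_of_cyc wv _ (.inr (.inl a₀)) (fun W w0 w1 => cE W w0 fun j v hv => ?_)
        (fun a h => ?_) hM' hc
      · simpa using w1 (e j) v hv
      · rw [c.wOf] at h
        simp only [wv, ← map_neg, ← map_add, c.inj.eq_iff] at h
        have h2 := congrArg dg h
        have h3 := clrep_dg (e := e) hR h0 h1
        have h4 := abs_le.1 (hle a)
        rw [dg_add, dg_neg, dg_inr] at h2
        omega
  obtain ⟨φ₀, h1, h2, h3, h4⟩ := D.exists_rep hN hd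
  let ψ : D.g K →ₗ⁅K⁆ End K (Ix m z → K) :=
    (lieEquivMatrix' (R := K) (n := Ix m z)).symm.toLieHom.comp φ₀
  have hψ : ∀ x, LinearMap.toMatrix' (ψ x) = φ₀ x := fun x => LinearMap.toMatrix'_toLin' _
  have g1 : ∀ y, ψ (D.hv y) = (T P fun a => ∑ b, (L (Pi.single a 1) b : K) * y b).1 := fun y => by
    apply LinearMap.toMatrix'.injective
    ext r s
    rw [hψ, LinearMap.toMatrix'_apply, T_entry, ← Crd.lin, hv_eq_sum, map_sum]
    simp only [map_smul, h1, Matrix.sum_apply, Matrix.smul_apply, Matrix.diagonal_apply, wv]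
    split_ifs <;> simp [mul_comm]
  have g2 : ∀ i, ψ (D.e K (D.s (e i))) = (E i).1 := fun i => by
    apply LinearMap.toMatrix'.injective
    rw [hψ, h2, e.symm_apply_apply]
  have g3 : ∀ i, ψ (D.e K (D.neg (D.s (e i)))) = (F i).1 := fun i => by
    apply LinearMap.toMatrix'.injective
    rw [hψ, h3, e.symm_apply_apply]
  have hmem : ∀ x, ψ x ∈ (Q m P).g := fun x => by
    refine D.gen hN ((Q m P).g.comap ψ) (fun a => ?_) (fun i => ?_) (fun i => ?_) x
    · change ψ _ ∈ (Q m P).g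
      rw [← D.hv_single, g1]; exact Subtype.property _
    · obtain ⟨i, rfl⟩ := e.surjective i
      change ψ _ ∈ (Q m P).g
      rw [g2]; exact Subtype.property _
    · obtain ⟨i, rfl⟩ := e.surjective i
      change ψ _ ∈ (Q m P).g
      rw [g3]; exact Subtype.property _
  refine ⟨{ ψ.toLinearMap.codRestrict (Q m P).g.toSubmodule hmem with
    map_lie' := fun {x y} => Subtype.ext (ψ.map_lie x y) }, fun y => Subtype.ext (g1 y),
    fun i => Subtype.ext (g2 i), fun i => Subtype.ext (g3 i), fun β => ?_⟩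
  change CH _ (ψ _)
  rw [← hM, ← c.rt', hψ]
  exact h4 β

theorem clrep_entry (φ : D.g K →ₗ⁅K⁆ (Q m P).g) (x : D.g K) (r s : Ix m z) :
    (φ x).1 (Pi.single s 1) r = (φ (D.hv fun a => x (.inl a))).1 (Pi.single s 1) r
      + ∑ β, x (.inr β) * (φ (D.e K β)).1 (Pi.single s 1) r := by
  let f : D.g K →ₗ[K] K := (LinearMap.proj r : (Ix m z → K) →ₗ[K] K) ∘ₗ
    LinearMap.applyₗ (Pi.single s 1) ∘ₗ (Q m P).g.toSubmodule.subtype ∘ₗ φ.toLinearMap
  change f x = f _ + ∑ β, x (.inr β) * f (D.e K β)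
  conv_lhs => rw [D.eq_sum x, Fintype.sum_sum_type, ← hv_eq_sum]
  simp

variable {φ : D.g K →ₗ⁅K⁆ (Q m P).g}

theorem clrep_tor (c : Crd D K e Rm Cm L H)
    (h1 : ∀ y, φ (D.hv y) = T P fun a => ∑ b, (L (Pi.single a 1) b : K) * y b) {y : D.σ → K}
    (hy : ∀ i, (φ (D.hv y)).1 (Pi.single (.inl i) 1) (.inl i) = 0) : y = 0 :=
  c.sep y fun i => by
    have := hy i
    rw [h1, T_entry, if_pos rfl] at this
    simpa [cw, Pi.single_apply] using this

theorem clrep_root (c : Crd D K e Rm Cm L H)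
    (h1 : ∀ y, φ (D.hv y) = T P fun a => ∑ b, (L (Pi.single a 1) b : K) * y b)
    (h4 : ∀ β, CH (∑ i, D.co β (e i) • Rm i) (φ (D.e K β)).1) (β : D.ι) :
    ∃ r s, cw r = cw s + ∑ i, D.co β (e i) • Rm i ∧
      ∀ x, (φ x).1 (Pi.single s 1) r = 0 → x (.inr β) = 0 := by
  have hne : (φ (D.e K β)).1 ≠ 0 := fun h => by
    have h2 : φ (D.hv fun a => (D.cr β a : K)) = 0 := by
      rw [← D.lie_e_neg, LieHom.map_lie, show φ (D.e K β) = 0 from Subtype.ext h, zero_lie]
    have h3 := clrep_tor P c h1 (y := fun a => (D.cr β a : K)) fun i => by rw [h2]; rfl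
    obtain ⟨x, hx⟩ := D.cr_prim β
    have h4 := congrArg (Int.cast : ℤ → K) hx
    simp only [dotProduct, Int.cast_sum, Int.cast_mul, show ∀ a, (D.cr β a : K) = 0 from
      congrFun h3] at h4
    simp at h4
  obtain ⟨r, s, hrs⟩ : ∃ r s, (φ (D.e K β)).1 (Pi.single s 1) r ≠ 0 := by
    by_contra h
    push Not at h
    exact hne (LinearMap.pi_ext' fun s => LinearMap.ext_ring (funext fun r => by simpa using h r s))
  have hw := h4 β r s hrs
  refine ⟨r, s, hw, fun x hx => ?_⟩
  rw [clrep_entry, h1, T_entry, if_neg, zero_add, Finset.sum_eq_single β] at hx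
  · exact (mul_eq_zero.1 hx).resolve_right hrs
  · intro γ _ hγ
    by_contra h
    have := (h4 γ r s (right_ne_zero_of_mul h)).symm.trans hw
    exact hγ (D.rt_inj (by rw [c.rt', c.rt', add_left_cancel this]))
  · simp
  · rintro rfl
    have h0 : D.rt β = 0 := by rw [c.rt', left_eq_add.1 hw, map_zero]
    have := D.two β
    rw [h0, zero_dotProduct] at this
    exact absurd this (by decide)

theorem clrep_main {p : ℕ} [Fact p.Prime] [CharP K p] (hp : p ≠ 2) (hz : z ≤ 1)
    (c : Crd D K e Rm Cm L H) (hR : ∀ i, 0 < dg (Rm i))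
    (h1 : ∀ y, φ (D.hv y) = T P fun a => ∑ b, (L (Pi.single a 1) b : K) * y b)
    (h4 : ∀ β, CH (∑ i, D.co β (e i) • Rm i) (φ (D.e K β)).1)
    (hs : Function.Surjective φ)
    (hρ : ∀ j, ∑ a, (Cm j a : K) * QF.sh ε (z + 2 * (m - a)) = 1)
    (hπ : ∀ j, ∃ π : Equiv.Perm (Fin m), ∀ (l : Fin m → K) a,
      (l a - (∑ b, (Cm j b : K) * l b) * Rm j a) ^ 2 = l (π a) ^ 2) :
    D.HasCl p K m ε z := by
  have hpos : ∀ β, D.Pos β → 0 < dg (∑ i, D.co β (e i) • Rm i) := fun β h =>
    clrep_dg hR h (D.co_ne_zero β)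
  have hneg : ∀ β, ¬ D.Pos β → dg (∑ i, D.co β (e i) • Rm i) < 0 := fun β h => by
    have := hpos _ ((D.pos_neg_iff β).2 h)
    simp only [D.co_neg, Pi.neg_apply, neg_smul, Finset.sum_neg_distrib, dg_neg] at this
    omega
  have low : ∀ x, (∀ r s, dg (cw r) < dg (cw s) → (φ x).1 (Pi.single s 1) r = 0) →
      ∀ β, ¬ D.Pos β → x (.inr β) = 0 := fun x hx β hβ => by
    obtain ⟨r, s, h, h'⟩ := clrep_root P c h1 h4 β
    refine h' x (hx r s ?_)
    have := hneg β hβ
    rw [h, dg_add]; omega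
  have tor : ∀ x, (∀ r, (φ x).1 (Pi.single r 1) r = 0) → ∀ a, x (.inl a) = 0 := fun x hx => by
    refine congrFun (clrep_tor P c h1 (y := fun a => x (.inl a)) fun i => ?_)
    have := hx (.inl i)
    rwa [clrep_entry, Finset.sum_eq_zero, add_zero] at this
    intro β _
    by_contra h
    have h2 := left_eq_add.1 (h4 β _ _ (right_ne_zero_of_mul h))
    by_cases hβ : D.Pos β
    · have := hpos β hβ
      rw [h2] at this; simp [dg] at this
    · have := hneg β hβ
      rw [h2] at this; simp [dg] at this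
  have hinj : Function.Injective φ := by
    refine (injective_iff_map_eq_zero φ).2 fun x hx => funext fun b => ?_
    rcases b with a | β
    · exact tor x (fun r => by rw [hx]; rfl) a
    · obtain ⟨r, s, -, h'⟩ := clrep_root P c h1 h4 β
      exact h' x (by rw [hx]; rfl)
  let Φ : D.g K ≃ₗ⁅K⁆ (Q m P).g := LieEquiv.ofBijective φ ⟨hinj, hs⟩
  have hΦ : ∀ y, φ (Φ.symm y) = y := Φ.apply_symm_apply
  have hp3 : 3 ≤ p := by have := (Fact.out : p.Prime).two_le; omega
  refine ⟨Ix m z → K, Fin z → K, inferInstance, inferInstance, inferInstance, inferInstance,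
    inferInstance, inferInstance, Q m P, Q₀ P, Fl m P, Φ, H,
    ⟨Q_nd P, Q₀_nd P, ?_, fun b => ?_, fun j w hw => ?_, fun a => ?_, fun x hx => ?_,
      fun i μ => ?_⟩, rfl, by simp⟩
  · rcases Nat.le_one_iff_eq_zero_or_eq_one.1 hz with rfl | rfl
    · exact Or.inl fun v => Subsingleton.elim _ _
    · exact Or.inr ⟨fun _ => 1, by simp [Q₀, dotProduct], fun v => ⟨v 0, by
        funext i; rw [Subsingleton.elim i 0]; simp⟩⟩
  · change (φ _).1 ^ p = (φ _).1
    rcases b with a | β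
    · change (φ (D.h K a)).1 ^ p = (φ (D.h K a)).1
      rw [← D.hv_single, h1]
      apply LinearMap.toMatrixAlgEquiv'.injective
      have h2 : LinearMap.toMatrixAlgEquiv'
          (T P fun i => ∑ b, (L (Pi.single i 1) b : K) * (Pi.single a 1 : D.σ → K) b).1
          = Matrix.diagonal fun r => (L (cw r) a : K) := by
        ext r s
        rw [LinearMap.toMatrixAlgEquiv'_apply, T_entry, ← Crd.lin, Matrix.diagonal_apply]
        simp [Pi.single_apply]
      rw [map_pow, h2, Matrix.diagonal_pow]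
      congr 1
      funext r
      exact map_intCast (frobenius K p) _
    · change _ = (φ 0).1
      rw [map_zero]
      refine (h4 β).pow_eq_zero (fun h => ?_) hp3
      by_cases hβ : D.Pos β
      · have := hpos β hβ
        rw [h] at this; simp [dg] at this
      · have := hneg β hβ
        rw [h] at this; simp [dg] at this
  · have hu : ∀ r s, dg (cw r) ≤ dg (cw s) →
        (φ (Φ.symm ((Q m P).Fs ((Fl m P).u j) w))).1 (Pi.single s 1) r = 0 := fun r s h => by
      rw [hΦ]; exact Wp_up P hw r s h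
    rw [D.eq_sum (Φ.symm _)]
    refine Submodule.sum_mem _ fun b _ => ?_
    rcases b with a | β
    · rw [tor _ (fun r => hu r r le_rfl), zero_smul]; exact zero_mem _
    · by_cases hβ : D.Pos β
      · exact Submodule.smul_mem _ _ (Submodule.subset_span ⟨β, hβ, rfl⟩)
      · rw [low _ (fun r s h => hu r s h.le) β hβ, zero_smul]; exact zero_mem _
  · change φ _ = _
    rw [h1]
    simp [c.dual, T, Pi.single_apply]
  · exact low _ fun r s h => by rw [hΦ]; exact bor_up P x hx r s h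
  · obtain ⟨j, rfl⟩ := e.surjective i
    obtain ⟨π, hπ⟩ := hπ j
    have key : ∀ a, (Fl m P).lw (fun a => ∑ b, (D.dotf (e j) μ b : K) * H a b) a ^ 2
        = (Fl m P).lw (fun a => ∑ b, (μ b : K) * H a b) (π a) ^ 2 := fun a => by
      rw [← hπ]
      congr 1
      have k1 : ((μ ⬝ᵥ D.cr (D.s (e j)) : ℤ) : K) = ∑ a, (Cm j a : K) * ∑ b, (μ b : K) * H a b := by
        simp only [dotProduct, Int.cast_sum, Int.cast_mul, c.cr_H, Finset.mul_sum]
        rw [Finset.sum_comm]
        exact Finset.sum_congr rfl fun _ _ => Finset.sum_congr rfl fun _ _ => by ring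
      have k2 : ∑ b, (D.dotf (e j) μ b : K) * H a b = ∑ b, (μ b : K) * H a b
          - (((μ ⬝ᵥ D.cr (D.s (e j)) : ℤ) : K) + 1) * Rm j a := by
        rw [← c.dual, ← c.rt, Finset.mul_sum, ← Finset.sum_sub_distrib]
        refine Finset.sum_congr rfl fun b _ => ?_
        simp only [RD.dotf, Pi.sub_apply, Pi.smul_apply, smul_eq_mul]
        push_cast; ring
      simp only [QF.Flag.lw, k2, k1, Q_ε, finrank_fin_fun, mul_add, Finset.sum_add_distrib, hρ]
      ring
    simp only [Multiset.map_map, Function.comp_def, key]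
    conv_rhs => rw [← Multiset.map_univ_val_equiv π, Multiset.map_map]
    rfl

end CD

end Pool.Agent.P.Bf04
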