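import Mathlib

/-! Forbidden subdiagrams of Cartan matrices of finite type. -/

namespace Pool.Agent.P.Bf04

open Finset

section

variable {Δ : Type} [DecidableEq Δ] [Fintype Δ] {A : Matrix Δ Δ ℤ}

/-- generalised Cartan matrix without a nonzero nonnegative vector of nonpositive image -/
structure ClsCart (A : Matrix Δ Δ ℤ) : Prop where
  diag : ∀ i, A i i = 2
  neg : ∀ i j, i ≠ j → A i j ≤ 0
  sym : ∀ i j, A i j < 0 → A j i < 0
  test : ∀ X : Δ → ℤ, (∀ i, 0 ≤ X i) → (∀ j, 0 < X j → ∑ i, X i * A i j ≤ 0) → ∀ j, X j = 0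

theorem cls_cart (l : Δ → ℤ)
    (hl : ∀ i, 0 < l i) (hd : ∀ i, A i i = 2) (hn : ∀ i j, i ≠ j → A i j ≤ 0)
    (hs : ∀ i j, A i j * l j = A j i * l i)
    (hp : ∀ x : Δ → ℤ, x ≠ 0 → 0 < ∑ i, ∑ j, x i * x j * (A i j * l j)) : ClsCart A := by
  refine ⟨hd, hn, fun i j h => ?_, fun X hX hcol => ?_⟩
  · have h1 : A i j * l j < 0 := mul_neg_of_neg_of_pos h (hl j)
    rw [hs] at h1
    by_contra h2
    push Not at h2
    have := mul_nonneg h2 (hl i).le
    omega
  · by_contra hne
    have h1 := hp X (fun h => hne fun j => by simp [h])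
    rw [Finset.sum_comm] at h1
    refine absurd h1 (not_lt.2 (Finset.sum_nonpos fun j _ => ?_))
    have e : ∑ i, X i * X j * (A i j * l j) = X j * l j * ∑ i, X i * A i j := by
      rw [Finset.mul_sum]
      exact Finset.sum_congr rfl fun i _ => by ring
    rw [e]
    rcases (hX j).eq_or_lt with h | h
    · rw [← h]; simp
    · exact mul_nonpos_of_nonneg_of_nonpos (mul_pos h (hl j)).le (hcol j h)

theorem cls_test (H : ClsCart A) (f : ℕ → Δ) (x : ℕ → ℤ) (M : ℕ) (hM : ∀ a, M ≤ a → x a = 0)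
    (hx : ∀ a, 0 ≤ x a) (hinj : ∀ a b, 0 < x a → 0 < x b → f a = f b → a = b)
    (hcol : ∀ b, 0 < x b → ∃ a₁ a₂ a₃ a₄, (b ≠ a₁ ∧ b ≠ a₂ ∧ b ≠ a₃ ∧ b ≠ a₄ ∧ a₁ ≠ a₂ ∧
      a₁ ≠ a₃ ∧ a₁ ≠ a₄ ∧ a₂ ≠ a₃ ∧ a₂ ≠ a₄ ∧ a₃ ≠ a₄) ∧
      2 * x b + x a₁ * A (f a₁) (f b) + x a₂ * A (f a₂) (f b) + x a₃ * A (f a₃) (f b) +
        x a₄ * A (f a₄) (f b) ≤ 0) (b₀ : ℕ) (h₀ : 0 < x b₀) : False := by
  have key := H.test (fun i => ∑ a ∈ range M, if f a = i then x a else 0)
    (fun i => Finset.sum_nonneg fun a _ => by split_ifs <;> simp [hx]) ?_ (f b₀)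
  · have hb : b₀ ∈ range M := by
      rw [mem_range]
      by_contra h
      have := hM b₀ (not_lt.1 h)
      omega
    have h1 := Finset.single_le_sum (f := fun a => if f a = f b₀ then x a else 0)
      (fun a _ => by split_ifs <;> simp [hx]) hb
    simp only [if_true] at h1
    omega
  · intro j hj
    obtain ⟨b, -, hb⟩ := Finset.exists_ne_zero_of_sum_ne_zero hj.ne'
    have hfb : f b = j := by
      by_contra h
      simp [h] at hb
    have hxb : 0 < x b := by
      rw [if_pos hfb] at hb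
      exact lt_of_le_of_ne (hx b) (Ne.symm hb)
    subst hfb
    have e : ∑ i, (∑ a ∈ range M, if f a = i then x a else 0) * A i (f b) =
        ∑ a ∈ range M, x a * A (f a) (f b) := by
      simp_rw [Finset.sum_mul]
      rw [Finset.sum_comm]
      refine Finset.sum_congr rfl fun a _ => ?_
      simp [ite_mul]
    rw [e]
    obtain ⟨a₁, a₂, a₃, a₄, ⟨n1, n2, n3, n4, n5, n6, n7, n8, n9, n10⟩, h⟩ := hcol b hxb
    have e1 : ∑ a ∈ range M, x a * A (f a) (f b) =
        ∑ a ∈ range M ∪ {b, a₁, a₂, a₃, a₄}, x a * A (f a) (f b) := by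
      refine Finset.sum_subset subset_union_left fun a _ ha => ?_
      rw [hM a (by simpa using ha), zero_mul]
    have e2 : ∑ a ∈ ({b, a₁, a₂, a₃, a₄} : Finset ℕ), -(x a * A (f a) (f b)) ≤
        ∑ a ∈ range M ∪ {b, a₁, a₂, a₃, a₄}, -(x a * A (f a) (f b)) := by
      refine Finset.sum_le_sum_of_subset_of_nonneg subset_union_right fun a _ ha => ?_
      have hab : a ≠ b := by
        rintro rfl
        simp at ha
      rcases (hx a).eq_or_lt with h0 | h0
      · rw [← h0]; simp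
      · have := H.neg (f a) (f b) fun h => hab (hinj a b h0 hxb h)
        nlinarith
    rw [Finset.sum_neg_distrib, Finset.sum_neg_distrib, ← e1, Finset.sum_insert (by simp [*]),
      Finset.sum_insert (by simp [*]), Finset.sum_insert (by simp [*]),
      Finset.sum_insert (by simp [*]), Finset.sum_singleton, H.diag] at e2
    linarith

/-- a path without repeated vertices in the diagram -/
def ClsPath (A : Matrix Δ Δ ℤ) (n : ℕ) (e : ℕ → Δ) : Prop :=
  (∀ a < n, ∀ b < n, e a = e b → a = b) ∧ ∀ a b, a + 1 = b → b < n → A (e a) (e b) < 0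

theorem ClsPath.back {n : ℕ} {e : ℕ → Δ} (H : ClsCart A) (h : ClsPath A n e) (a b : ℕ)
    (hab : b + 1 = a) (ha : a < n) : A (e a) (e b) < 0 := H.sym _ _ (h.2 b a hab ha)

theorem ClsPath.sub {n : ℕ} {e : ℕ → Δ} (h : ClsPath A n e) (s m : ℕ) (hm : s + m ≤ n) :
    ClsPath A m fun i => e (s + i) :=
  ⟨fun a ha b hb hab => by have := h.1 (s + a) (by omega) (s + b) (by omega) hab; omega,
    fun a b hab hb => h.2 _ _ (by omega) (by omega)⟩

theorem ClsPath.rev {n : ℕ} {e : ℕ → Δ} (H : ClsCart A) (h : ClsPath A n e) (s m : ℕ)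
    (hs : s < n) (hm : m ≤ s + 1) : ClsPath A m fun i => e (s - i) :=
  ⟨fun a ha b hb hab => by have := h.1 (s - a) (by omega) (s - b) (by omega) hab; omega,
    fun a b hab hb => h.back H _ _ (by omega) (by omega)⟩

theorem ClsPath.snoc {n : ℕ} {e : ℕ → Δ} (h : ClsPath A n e) (w : Δ) (hw : ∀ a < n, e a ≠ w)
    (hadj : ∀ a, a + 1 = n → A (e a) w < 0) :
    ClsPath A (n + 1) fun i => if i = n then w else e i := by
  refine ⟨fun a ha b hb hab => ?_, fun a b hab hb => ?_⟩
  · by_cases h1 : a = n <;> by_cases h2 : b = n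
    · omega
    · simp only [h1, h2, if_true, if_false] at hab
      exact absurd hab.symm (hw b (by omega))
    · simp only [h1, h2, if_true, if_false] at hab
      exact absurd hab (hw a (by omega))
    · simp only [h1, h2, if_false] at hab
      exact h.1 a (by omega) b (by omega) hab
  · have h1 : a ≠ n := by omega
    by_cases h2 : b = n
    · simp only [h1, h2, if_true, if_false]
      exact hadj a (by omega)
    · simp only [h1, h2, if_false]
      exact h.2 a b hab (by omega)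

theorem cls_cyc (H : ClsCart A) {m : ℕ} {f : ℕ → Δ} (h : ClsPath A m f) (hm : 3 ≤ m)
    (hc : A (f (m - 1)) (f 0) < 0) : False := by
  refine cls_test H f (fun i => if i < m then 1 else 0) m (fun a ha => by simp [not_lt.2 ha])
    (fun a => by split_ifs <;> simp) (fun a b ha hb => h.1 a ?_ b ?_) (fun b hb => ?_) 0
    (by simp [show 0 < m by omega])
  · by_contra h'; simp [h'] at ha
  · by_contra h'; simp [h'] at hb
  · have hb' : b < m := by by_contra h'; simp [h'] at hb
    refine ⟨if b = 0 then m - 1 else b - 1, if b = m - 1 then 0 else b + 1, m, m + 1,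
      by split_ifs <;> omega, ?_⟩
    have h1 : A (f (if b = 0 then m - 1 else b - 1)) (f b) < 0 := by
      split_ifs with h0
      · rw [h0]; exact hc
      · exact h.2 _ _ (by omega) hb'
    have h2 : A (f (if b = m - 1 then 0 else b + 1)) (f b) < 0 := by
      split_ifs with h0
      · rw [h0]; exact H.sym _ _ hc
      · exact h.back H _ _ rfl (by omega)
    have h3 : (if b = 0 then m - 1 else b - 1) < m := by split_ifs <;> omega
    have h4 : (if b = m - 1 then 0 else b + 1) < m := by split_ifs <;> omega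
    simp only [hb', h3, h4, if_true, lt_irrefl, if_false, show ¬ m + 1 < m by omega]
    omega

theorem cls_gadget (H : ClsCart A) {m : ℕ} {f : ℕ → Δ} (h : ClsPath A m f) (hm : 3 ≤ m)
    (u v : Δ) (xl yl xr yr : ℤ) (hxl : 0 < xl) (hxr : 0 < xr) (hyl : 0 ≤ yl) (hyr : 0 ≤ yr)
    (hu : 0 < yl → ∀ a < m, f a ≠ u) (hv : 0 < yr → ∀ a < m, f a ≠ v)
    (huv : 0 < yl → 0 < yr → u ≠ v)
    (l1 : xl + A (f 1) (f 0) ≤ 0) (l2 : xl * A (f 0) (f 1) + yl * A u (f 1) ≤ -2)
    (l3 : 0 < yl → yl + A (f 1) u ≤ 0)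
    (r1 : xr + A (f (m - 2)) (f (m - 1)) ≤ 0)
    (r2 : xr * A (f (m - 1)) (f (m - 2)) + yr * A v (f (m - 2)) ≤ -2)
    (r3 : 0 < yr → yr + A (f (m - 2)) v ≤ 0) : False := by
  obtain ⟨x, hx⟩ : ∃ x : ℕ → ℤ, ∀ i, x i = if i = 0 then xl else if i = m - 1 then xr else
    if i < m then 2 else if i = m then yl else if i = m + 1 then yr else 0 := ⟨_, fun _ => rfl⟩
  obtain ⟨F, hF⟩ : ∃ F : ℕ → Δ, ∀ i, F i = if i = m then u else if i = m + 1 then v else f i :=
    ⟨_, fun _ => rfl⟩
  have x0 : x 0 = xl := by rw [hx]; simp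
  have xe : x (m - 1) = xr := by rw [hx, if_neg (by omega), if_pos rfl]
  have xi : ∀ i, 0 < i → i + 1 < m → x i = 2 := fun i h1 h2 => by
    rw [hx, if_neg (by omega), if_neg (by omega), if_pos (by omega)]
  have xm : x m = yl := by
    rw [hx, if_neg (by omega), if_neg (by omega), if_neg (by omega), if_pos rfl]
  have xm1 : x (m + 1) = yr := by
    rw [hx, if_neg (by omega), if_neg (by omega), if_neg (by omega), if_neg (by omega), if_pos rfl]
  have xz : ∀ i, m + 2 ≤ i → x i = 0 := fun i h1 => by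
    rw [hx, if_neg (by omega), if_neg (by omega), if_neg (by omega), if_neg (by omega),
      if_neg (by omega)]
  have Fi : ∀ i, i < m → F i = f i := fun i h1 => by
    rw [hF, if_neg (by omega), if_neg (by omega)]
  have Fm : F m = u := by rw [hF, if_pos rfl]
  have Fm1 : F (m + 1) = v := by rw [hF, if_neg (by omega), if_pos rfl]
  have cases : ∀ a, 0 < x a → a < m ∨ (a = m ∧ 0 < yl) ∨ (a = m + 1 ∧ 0 < yr) := by
    intro a ha
    rcases lt_trichotomy a m with h1 | h1 | h1
    · exact Or.inl h1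
    · rw [h1, xm] at ha; exact Or.inr (Or.inl ⟨h1, ha⟩)
    · by_cases h2 : a = m + 1
      · rw [h2, xm1] at ha; exact Or.inr (Or.inr ⟨h2, ha⟩)
      · rw [xz a (by omega)] at ha; omega
  refine cls_test H F x (m + 2) xz (fun a => by rw [hx]; split_ifs <;> omega)
    (fun a b ha hb hab => ?_) (fun b hb => ?_) 0 (by rw [x0]; exact hxl)
  · rcases cases a ha with h1 | ⟨rfl, h1⟩ | ⟨rfl, h1⟩ <;>
      rcases cases b hb with h2 | ⟨h3, h2⟩ | ⟨h3, h2⟩
    · rw [Fi a h1, Fi b h2] at hab; exact h.1 a h1 b h2 hab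
    · rw [h3, Fi a h1, Fm] at hab; exact absurd hab (hu h2 a h1)
    · rw [h3, Fi a h1, Fm1] at hab; exact absurd hab (hv h2 a h1)
    · rw [Fi b h2, Fm] at hab; exact absurd hab.symm (hu h1 b h2)
    · exact h3.symm
    · rw [h3, Fm, Fm1] at hab; exact absurd hab (huv h1 h2)
    · rw [Fi b h2, Fm1] at hab; exact absurd hab.symm (hv h1 b h2)
    · rw [h3, Fm, Fm1] at hab; exact absurd hab.symm (huv h2 h1)
    · exact h3.symm
  · rcases cases b hb with h1 | ⟨rfl, h1⟩ | ⟨rfl, h1⟩
    · by_cases b0 : b = 0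
      · subst b0
        refine ⟨1, m + 2, m + 3, m + 4, by omega, ?_⟩
        rw [x0, xi 1 (by omega) (by omega), xz (m + 2) le_rfl, xz (m + 3) (by omega),
          xz (m + 4) (by omega), Fi 1 (by omega), Fi 0 h1]
        linarith
      by_cases be : b = m - 1
      · subst be
        refine ⟨m - 2, m + 2, m + 3, m + 4, by omega, ?_⟩
        rw [xe, xi (m - 2) (by omega) (by omega), xz (m + 2) le_rfl, xz (m + 3) (by omega),
          xz (m + 4) (by omega), Fi (m - 2) (by omega), Fi _ h1]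
        linarith
      have hL : ∃ c, (c = m ∨ c = m + 2) ∧ x (b - 1) * A (F (b - 1)) (F b) + x c * A (F c) (F b)
          ≤ -2 := by
        by_cases b1 : b = 1
        · subst b1
          refine ⟨m, Or.inl rfl, ?_⟩
          rw [show 1 - 1 = 0 from rfl, x0, xm, Fi 0 (by omega), Fi 1 h1, Fm]
          exact l2
        · refine ⟨m + 2, Or.inr rfl, ?_⟩
          rw [xi (b - 1) (by omega) (by omega), xz _ le_rfl, Fi _ (by omega), Fi b h1]
          have := h.2 (b - 1) b (by omega) h1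
          omega
      have hR : ∃ c, (c = m + 1 ∨ c = m + 3) ∧
          x (b + 1) * A (F (b + 1)) (F b) + x c * A (F c) (F b) ≤ -2 := by
        by_cases b1 : b = m - 2
        · refine ⟨m + 1, Or.inl rfl, ?_⟩
          rw [show b + 1 = m - 1 by omega, xe, xm1, Fi _ (by omega), Fi b h1, Fm1, b1]
          exact r2
        · refine ⟨m + 3, Or.inr rfl, ?_⟩
          rw [xi (b + 1) (by omega) (by omega), xz (m + 3) (by omega), Fi _ (by omega), Fi b h1]
          have := h.back H (b + 1) b rfl (by omega)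
          omega
      obtain ⟨c, hc, hc'⟩ := hL
      obtain ⟨d, hd, hd'⟩ := hR
      refine ⟨b - 1, c, b + 1, d, by omega, ?_⟩
      rw [xi b (by omega) (by omega)]
      linarith
    · refine ⟨1, b + 2, b + 3, b + 4, by omega, ?_⟩
      rw [xm, xi 1 (by omega) (by omega), xz (b + 2) le_rfl, xz (b + 3) (by omega),
        xz (b + 4) (by omega), Fi 1 (by omega), Fm]
      linarith [l3 h1]
    · refine ⟨m - 2, m + 2, m + 3, m + 4, by omega, ?_⟩
      rw [xm1, xi (m - 2) (by omega) (by omega), xz (m + 2) le_rfl, xz (m + 3) (by omega),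
        xz (m + 4) (by omega), Fi (m - 2) (by omega), Fm1]
      linarith [r3 h1]

theorem cls_line (H : ClsCart A) {m : ℕ} {f : ℕ → Δ} (h : ClsPath A m f) (x : ℕ → ℤ)
    (hx : ∀ a, 0 ≤ x a) (hz : ∀ a, m ≤ a → x a = 0) (h0 : 0 < x 0)
    (hcol : ∀ b < m, 2 * x b + (if b = 0 then 0 else x (b - 1) * A (f (b - 1)) (f b)) +
      x (b + 1) * A (f (b + 1)) (f b) ≤ 0) : False := by
  have hlt : ∀ a, 0 < x a → a < m := fun a ha => by
    by_contra h'
    rw [hz a (not_lt.1 h')] at ha
    omega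
  refine cls_test H f x m hz hx (fun a b ha hb => h.1 a (hlt a ha) b (hlt b hb))
    (fun b hb => ?_) 0 h0
  have hb' := hlt b hb
  have := hcol b hb'
  refine ⟨if b = 0 then m + 1 else b - 1, b + 1, m + 2, m + 3, by split_ifs <;> omega, ?_⟩
  rw [hz (m + 2) (by omega), hz (m + 3) (by omega)]
  split_ifs at this ⊢ with h1
  · rw [hz (m + 1) (by omega)]
    linarith
  · linarith

theorem cls_star (H : ClsCart A) {m : ℕ} {f : ℕ → Δ} (h : ClsPath A m f) (k : ℕ) (hk : k < m)
    (u v : Δ) (hu : ∀ a < m, f a ≠ u) (hku : A (f k) u < 0) (x : ℕ → ℤ) (y z : ℤ)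
    (hv : 0 < z → (∀ a < m, f a ≠ v) ∧ A u v < 0)
    (hx : ∀ a, 0 ≤ x a) (hz : ∀ a, m ≤ a → x a = 0) (hy : 0 < y) (hz0 : 0 ≤ z)
    (hcol : ∀ b < m, 2 * x b ≤ (if b = 0 then 0 else x (b - 1)) + x (b + 1) +
      if b = k then y else 0) (hcu : 2 * y ≤ x k + z) (hcv : 2 * z ≤ y) : False := by
  obtain ⟨X, hX⟩ : ∃ X : ℕ → ℤ, ∀ i, X i = if i = m + 1 then y else if i = m + 2 then z else x i :=
    ⟨_, fun _ => rfl⟩
  obtain ⟨F, hF⟩ : ∃ F : ℕ → Δ, ∀ i, F i = if i = m + 1 then u else if i = m + 2 then v else f i :=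
    ⟨_, fun _ => rfl⟩
  have Xi : ∀ i, i ≤ m → X i = x i := fun i h1 => by
    rw [hX, if_neg (by omega), if_neg (by omega)]
  have Fi : ∀ i, i ≤ m → F i = f i := fun i h1 => by
    rw [hF, if_neg (by omega), if_neg (by omega)]
  have Xu : X (m + 1) = y := by rw [hX, if_pos rfl]
  have Xv : X (m + 2) = z := by rw [hX, if_neg (by omega), if_pos rfl]
  have Fu : F (m + 1) = u := by rw [hF, if_pos rfl]
  have Fv : F (m + 2) = v := by rw [hF, if_neg (by omega), if_pos rfl]
  have Xz : ∀ i, m + 3 ≤ i → X i = 0 := fun i h1 => by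
    rw [hX, if_neg (by omega), if_neg (by omega), hz i (by omega)]
  have cases : ∀ a, 0 < X a → a < m ∨ a = m + 1 ∨ (a = m + 2 ∧ 0 < z) := by
    intro a ha
    by_cases h1 : a = m + 1
    · exact Or.inr (Or.inl h1)
    by_cases h2 : a = m + 2
    · rw [h2, Xv] at ha; exact Or.inr (Or.inr ⟨h2, ha⟩)
    left
    by_contra h3
    rw [hX, if_neg h1, if_neg h2, hz a (by omega)] at ha
    omega
  have huv : 0 < z → u ≠ v := fun h1 h2 => by
    have := (hv h1).2
    rw [h2, H.diag] at this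
    omega
  have mul : ∀ a c : ℤ, 0 ≤ a → c < 0 → a * c ≤ -a := fun a c h1 h2 => by nlinarith
  refine cls_test H F X (m + 3) Xz (fun a => by rw [hX]; split_ifs <;> simp [hx, hy.le, hz0])
    (fun a b ha hb hab => ?_) (fun b hb => ?_) (m + 1) (by rw [Xu]; exact hy)
  · rcases cases a ha with h1 | rfl | ⟨rfl, h1⟩ <;> rcases cases b hb with h2 | h3 | ⟨h3, h2⟩
    · rw [Fi a h1.le, Fi b h2.le] at hab; exact h.1 a h1 b h2 hab
    · rw [h3, Fi a h1.le, Fu] at hab; exact absurd hab (hu a h1)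
    · rw [h3, Fi a h1.le, Fv] at hab; exact absurd hab ((hv h2).1 a h1)
    · rw [Fi b h2.le, Fu] at hab; exact absurd hab.symm (hu b h2)
    · exact h3.symm
    · rw [h3, Fu, Fv] at hab; exact absurd hab (huv h2)
    · rw [Fi b h2.le, Fv] at hab; exact absurd hab.symm ((hv h1).1 b h2)
    · rw [h3, Fu, Fv] at hab; exact absurd hab.symm (huv h1)
    · exact h3.symm
  · rcases cases b hb with h1 | rfl | ⟨rfl, h1⟩
    · have hc := hcol b h1
      refine ⟨if b = 0 then m + 3 else b - 1, b + 1, if b = k then m + 1 else m + 4, m + 5,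
        by split_ifs <;> omega, ?_⟩
      have t1 : X (if b = 0 then m + 3 else b - 1) * A (F (if b = 0 then m + 3 else b - 1)) (F b)
          ≤ -(if b = 0 then 0 else x (b - 1)) := by
        split_ifs with h2
        · rw [Xz _ le_rfl]; simp
        · rw [Xi _ (by omega), Fi _ (by omega), Fi b h1.le]
          exact mul _ _ (hx _) (h.2 _ _ (by omega) h1)
      have t2 : X (b + 1) * A (F (b + 1)) (F b) ≤ -x (b + 1) := by
        rw [Xi _ (by omega), Fi _ (by omega), Fi b h1.le]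
        by_cases h2 : b + 1 < m
        · exact mul _ _ (hx _) (h.back H _ _ rfl h2)
        · rw [hz _ (by omega)]; simp
      have t3 : X (if b = k then m + 1 else m + 4) * A (F (if b = k then m + 1 else m + 4)) (F b)
          ≤ -(if b = k then y else 0) := by
        split_ifs with h2
        · rw [Xu, Fu, Fi b h1.le, h2]
          exact mul _ _ hy.le (H.sym _ _ hku)
        · rw [Xz _ (by omega)]; simp
      rw [Xz (m + 5) (by omega), Xi b h1.le]
      linarith
    · refine ⟨k, m + 2, m + 3, m + 4, by omega, ?_⟩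
      have t1 := mul _ _ (hx k) hku
      have t2 : z * A v u ≤ -z := by
        rcases hz0.eq_or_lt with h2 | h2
        · rw [← h2]; simp
        · exact mul _ _ hz0 (H.sym _ _ (hv h2).2)
      rw [Xu, Xv, Xi k hk.le, Fi k hk.le, Fu, Fv, Xz (m + 3) le_rfl, Xz (m + 4) (by omega)]
      linarith
    · refine ⟨m + 1, m + 3, m + 4, m + 5, by omega, ?_⟩
      have t1 := mul _ _ hy.le (hv h1).2
      rw [Xu, Xv, Fu, Fv, Xz (m + 3) le_rfl, Xz (m + 4) (by omega), Xz (m + 5) (by omega)]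
      linarith

theorem cls_getD (l : List ℤ) (hl : ∀ c ∈ l, 0 ≤ c) (a : ℕ) : 0 ≤ l.getD a 0 := by
  rw [List.getD_eq_getElem?_getD]
  rcases h : l[a]? with _ | c
  · simp
  · exact hl c (List.mem_of_getElem? h)

theorem cls_prod (H : ClsCart A) (i j : Δ) (h : A i j < 0) : A i j * A j i ≤ 3 := by
  by_contra hc
  have h' := H.sym _ _ h
  have hij : i ≠ j := by
    rintro rfl
    rw [H.diag] at h
    omega
  have hp : ClsPath A 2 fun a => if a = 0 then i else j := by
    refine ⟨fun a ha b hb hab => ?_, fun a b hab hb => ?_⟩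
    · interval_cases a <;> interval_cases b <;> simp_all
    · obtain rfl : b = 1 := by omega
      obtain rfl : a = 0 := by omega
      simpa using h
  refine cls_line H hp (fun a => [-A j i, 2].getD a 0) (cls_getD _ (by simp; omega))
    (fun a ha => List.getD_eq_default _ _ ha) (by simp; omega) fun b hb => ?_
  interval_cases b <;> simp <;> nlinarith

theorem cls_triple (H : ClsCart A) {f : ℕ → Δ} (h : ClsPath A 3 f)
    (ht : A (f 0) (f 1) ≤ -3 ∨ A (f 1) (f 0) ≤ -3) : False := by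
  have p0 := h.2 0 1 rfl (by omega)
  have p1 := h.2 1 2 rfl (by omega)
  have q0 := H.sym _ _ p0
  have q1 := H.sym _ _ p1
  rcases ht with ht | ht
  · refine cls_line H h (fun a => [1, 2, 1].getD a 0) (cls_getD _ (by simp))
      (fun a ha => List.getD_eq_default _ _ ha) (by simp) fun b hb => ?_
    interval_cases b <;> simp <;> omega
  · refine cls_line H h (fun a => [3, 2, 1].getD a 0) (cls_getD _ (by simp))
      (fun a ha => List.getD_eq_default _ _ ha) (by simp) fun b hb => ?_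
    interval_cases b <;> simp <;> omega

theorem cls_f4 (H : ClsCart A) {f : ℕ → Δ} (h : ClsPath A 5 f)
    (ht : A (f 2) (f 3) ≤ -2 ∨ A (f 3) (f 2) ≤ -2) : False := by
  have p0 := h.2 0 1 rfl (by omega)
  have p1 := h.2 1 2 rfl (by omega)
  have p2 := h.2 2 3 rfl (by omega)
  have p3 := h.2 3 4 rfl (by omega)
  have q0 := H.sym _ _ p0
  have q1 := H.sym _ _ p1
  have q2 := H.sym _ _ p2
  have q3 := H.sym _ _ p3
  rcases ht with ht | ht
  · refine cls_line H h (fun a => [1, 2, 3, 4, 2].getD a 0) (cls_getD _ (by simp))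
      (fun a ha => List.getD_eq_default _ _ ha) (by simp) fun b hb => ?_
    interval_cases b <;> simp <;> omega
  · refine cls_line H h (fun a => [1, 2, 3, 2, 1].getD a 0) (cls_getD _ (by simp))
      (fun a ha => List.getD_eq_default _ _ ha) (by simp) fun b hb => ?_
    interval_cases b <;> simp <;> omega

theorem cls_e6 (H : ClsCart A) {f : ℕ → Δ} (h : ClsPath A 5 f) (u v : Δ)
    (hu : ∀ a < 5, f a ≠ u) (hku : A (f 2) u < 0) (hv : ∀ a < 5, f a ≠ v) (huv : A u v < 0) :
    False :=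
  cls_star H h 2 (by omega) u v hu hku (fun a => [1, 2, 3, 2, 1].getD a 0) 2 1
    (fun _ => ⟨hv, huv⟩) (cls_getD _ (by simp)) (fun a ha => List.getD_eq_default _ _ ha)
    (by omega) (by omega) (by decide) (by decide) (by decide)

theorem cls_e7 (H : ClsCart A) {f : ℕ → Δ} (h : ClsPath A 7 f) (u : Δ)
    (hu : ∀ a < 7, f a ≠ u) (hku : A (f 3) u < 0) : False :=
  cls_star H h 3 (by omega) u u hu hku (fun a => [1, 2, 3, 4, 3, 2, 1].getD a 0) 2 0
    (fun h0 => absurd h0 (by omega)) (cls_getD _ (by simp))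
    (fun a ha => List.getD_eq_default _ _ ha)
    (by omega) (by omega) (by decide) (by decide) (by decide)

theorem cls_e8 (H : ClsCart A) {f : ℕ → Δ} (h : ClsPath A 8 f) (u : Δ)
    (hu : ∀ a < 8, f a ≠ u) (hku : A (f 2) u < 0) : False :=
  cls_star H h 2 (by omega) u u hu hku (fun a => [2, 4, 6, 5, 4, 3, 2, 1].getD a 0) 3 0
    (fun h0 => absurd h0 (by omega)) (cls_getD _ (by simp))
    (fun a ha => List.getD_eq_default _ _ ha)
    (by omega) (by omega) (by decide) (by decide) (by decide)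

/-- a multiple bond -/
def ClsMult (A : Matrix Δ Δ ℤ) (i j : Δ) : Prop := A i j ≤ -2 ∨ A j i ≤ -2

theorem cls_end (H : ClsCart A) (i j : Δ) (h : A i j < 0) (hm : ClsMult A i j) :
    ∃ c : ℤ, 0 < c ∧ c + A j i ≤ 0 ∧ c * A i j ≤ -2 := by
  have h' := H.sym _ _ h
  rcases hm with hm | hm
  · exact ⟨1, by omega, by omega, by omega⟩
  · exact ⟨2, by omega, by omega, by omega⟩

theorem cls_mm (H : ClsCart A) {m : ℕ} {f : ℕ → Δ} (h : ClsPath A m f) (hm : 3 ≤ m)
    (h1 : ClsMult A (f 0) (f 1)) (h2 : ClsMult A (f (m - 1)) (f (m - 2))) : False := by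
  obtain ⟨c, c1, c2, c3⟩ := cls_end H _ _ (h.2 0 1 rfl (by omega)) h1
  obtain ⟨d, d1, d2, d3⟩ := cls_end H _ _ (h.back H (m - 1) (m - 2) (by omega) (by omega)) h2
  exact cls_gadget H h hm (f 0) (f 0) c 0 d 0 c1 d1 le_rfl le_rfl (by simp) (by simp) (by simp)
    c2 (by linarith) (by simp) d2 (by linarith) (by simp)

theorem cls_fm (H : ClsCart A) {m : ℕ} {f : ℕ → Δ} (h : ClsPath A m f) (hm : 3 ≤ m)
    (u : Δ) (hu : ∀ a < m, f a ≠ u) (hu1 : A (f 1) u < 0)
    (h2 : ClsMult A (f (m - 1)) (f (m - 2))) : False := by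
  obtain ⟨d, d1, d2, d3⟩ := cls_end H _ _ (h.back H (m - 1) (m - 2) (by omega) (by omega)) h2
  have p0 := h.2 0 1 rfl (by omega)
  have q0 := H.sym _ _ p0
  have q1 := H.sym _ _ hu1
  exact cls_gadget H h hm u u 1 1 d 0 one_pos d1 zero_le_one le_rfl (fun _ => hu) (by simp)
    (by simp) (by omega) (by omega) (fun _ => by omega) d2 (by linarith) (by simp)

theorem cls_ff (H : ClsCart A) {m : ℕ} {f : ℕ → Δ} (h : ClsPath A m f) (hm : 3 ≤ m)
    (u v : Δ) (hu : ∀ a < m, f a ≠ u) (hu1 : A (f 1) u < 0)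
    (hv : ∀ a < m, f a ≠ v) (hv1 : A (f (m - 2)) v < 0) (huv : u ≠ v) : False := by
  have p0 := h.2 0 1 rfl (by omega)
  have q0 := H.sym _ _ p0
  have q1 := H.sym _ _ hu1
  have p2 := h.2 (m - 2) (m - 1) (by omega) (by omega)
  have q2 := H.sym _ _ p2
  have q3 := H.sym _ _ hv1
  exact cls_gadget H h hm u v 1 1 1 1 one_pos one_pos zero_le_one zero_le_one (fun _ => hu)
    (fun _ => hv) (fun _ _ => huv) (by omega) (by omega) (fun _ => by omega) (by omega)
    (by omega) (fun _ => by omega)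

end

end Pool.Agent.P.Bf04
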