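import Pool.Agent.P.MP_bf0464_al.Rep

/-! Root data with a base and a Chevalley basis, in coordinates; the Lie algebra and the Chevalley
group over any commutative ring; reduced representations and the bounds. -/

namespace Pool.Agent.P.Bf04

open Module Matrix

attribute [local instance 100] LieRing.ofAssociativeRing

universe u v

/-- A reduced root datum with a base, in coordinates: `X = Y = σ → ℤ` with the dot product,
`ι` indexes the roots, `Δ` the simple roots. -/
structure RD where
  σ : Type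
  Δ : Type
  ι : Type
  [fσ : Fintype σ]
  [dσ : DecidableEq σ]
  [fΔ : Fintype Δ]
  [dΔ : DecidableEq Δ]
  [fι : Fintype ι]
  [dι : DecidableEq ι]
  /-- roots -/
  rt : ι → σ → ℤ
  /-- coroots -/
  cr : ι → σ → ℤ
  /-- simple roots -/
  s : Δ → ι
  /-- coordinates of a root -/
  co : ι → Δ → ℤ
  /-- coordinates of a coroot -/
  cco : ι → Δ → ℤ
  /-- fundamental weights -/
  ω : Δ → σ → ℤ
  /-- `rf α β` is the reflection of `β` in `α` -/
  rf : ι → ι → ι
  rt_inj : Function.Injective rt
  cr_inj : Function.Injective cr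
  two : ∀ α, rt α ⬝ᵥ cr α = 2
  rt_rf : ∀ α β, rt (rf α β) = rt β - (rt β ⬝ᵥ cr α) • rt α
  cr_rf : ∀ α β, cr (rf α β) = cr β - (rt α ⬝ᵥ cr β) • cr α
  rt_co : ∀ β, rt β = ∑ i, co β i • rt (s i)
  cr_cco : ∀ β, cr β = ∑ i, cco β i • cr (s i)
  li : ∀ x : Δ → ℤ, ∑ i, x i • rt (s i) = 0 → x = 0
  sign : ∀ β, 0 ≤ co β ∨ co β ≤ 0
  csign : ∀ β, 0 ≤ cco β ∨ cco β ≤ 0
  ω_cr : ∀ i j, ω i ⬝ᵥ cr (s j) = if i = j then 1 else 0
  red : ∀ α β, rt β ≠ (2 : ℤ) • rt α

attribute [instance] RD.fσ RD.dσ RD.fΔ RD.dΔ RD.fι RD.dι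

namespace RD

variable (D : RD)

/-- index set of the Chevalley basis -/
abbrev B : Type := D.σ ⊕ D.ι

/-- the opposite root -/
def neg (α : D.ι) : D.ι := D.rf α α

/-- positive roots -/
def Pos (β : D.ι) : Prop := 0 ≤ D.co β

/-- height -/
def ht (β : D.ι) : ℤ := ∑ i, D.co β i

/-- the pairing of a root and a coroot -/
def pr (β α : D.ι) : ℤ := D.rt β ⬝ᵥ D.cr α

/-- the Cartan matrix -/
def A : Matrix D.Δ D.Δ ℤ := Matrix.of fun i j => D.pr (D.s i) (D.s j)

/-- weights of the basis vectors, in the root lattice -/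
def wt : D.B → D.Δ → ℤ := Sum.elim (fun _ => 0) D.co

/-- the value of a function on the simple roots, extended additively, at a root -/
def dg {R : Type*} [Ring R] (d : D.Δ → R) (β : D.ι) : R := ∑ i, (D.co β i : R) * d i

/-- good primes -/
def Good (p : ℕ) : Prop := ∀ β i, (p : ℤ) ∣ D.co β i → D.co β i = 0

/-- the coroots span `Y` -/
def SC : Prop := ∀ y : D.σ → ℤ, y = ∑ i, (D.ω i ⬝ᵥ y) • D.cr (D.s i)

/-- structure constants -/
def c (N : D.ι → D.ι → ℤ) : D.B → D.B → D.B → ℤ
  | .inl _, .inl _, _ => 0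
  | .inl a, .inr β, k => if k = .inr β then D.rt β a else 0
  | .inr α, .inl a, k => if k = .inr α then -D.rt α a else 0
  | .inr α, .inr β, .inl a => if β = D.neg α then D.cr α a else 0
  | .inr α, .inr β, .inr γ => if D.co α + D.co β = D.co γ then N α β else 0

/-- linear simple reflection on weights -/
def sr (i : D.Δ) (μ : D.σ → ℤ) : D.σ → ℤ := μ - (μ ⬝ᵥ D.cr (D.s i)) • D.rt (D.s i)

/-- simple reflection for the dot action -/
def dotf (i : D.Δ) (μ : D.σ → ℤ) : D.σ → ℤ := μ - (μ ⬝ᵥ D.cr (D.s i) + 1) • D.rt (D.s i)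

theorem dotf_invol (i : D.Δ) : Function.Involutive (D.dotf i) := fun μ => by
  simp only [dotf, sub_dotProduct, smul_dotProduct, D.two, smul_eq_mul]
  module

/-- the same as a permutation -/
def dot (i : D.Δ) : Equiv.Perm (D.σ → ℤ) := (D.dotf_invol i).toPerm

/-- the Weyl group, acting on the weights by the dot action -/
def W : Subgroup (Equiv.Perm (D.σ → ℤ)) := Subgroup.closure (Set.range D.dot)

/-- its order -/
noncomputable def wn : ℕ := Nat.card D.W

/-- linkage of weights modulo `p` -/
def Link (p : ℕ) (μ ν : D.σ → ℤ) : Prop := ∃ w ∈ D.W, ∀ a, (p : ℤ) ∣ w μ a - ν a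

/-- the value of a character of the root lattice -/
def chr {R : Type*} [CommRing R] (u : D.Δ → Rˣ) (x : D.Δ → ℤ) : Rˣ := ∏ i, u i ^ x i

/-- torus elements of the adjoint group -/
def tM {R : Type*} [CommRing R] (u : D.Δ → Rˣ) : Matrix D.B D.B R :=
  Matrix.diagonal fun b => (D.chr u (D.wt b) : R)

/-- `χ` vanishes on the standard Borel subalgebra -/
def Std {R : Type*} [Zero R] (χ : D.B → R) : Prop :=
  (∀ a, χ (.inl a) = 0) ∧ ∀ β, D.Pos β → χ (.inr β) = 0

end RD

/-- A root datum with the structure constants of a Chevalley basis. -/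
structure CD extends RD where
  N : ι → ι → ℤ
  N_anti : ∀ α β γ, co α + co β = co γ → N β α = -N α β
  N_abs : ∀ α β γ, co α + co β = co γ → ∀ r : ℕ, (∃ δ, co δ = co β - (r : ℤ) • co α) →
    (∀ δ, co δ ≠ co β - ((r : ℤ) + 1) • co α) → |N α β| = r + 1
  jac : ∀ i j l m, ∑ k, toRD.c N j l k * toRD.c N i k m
    = ∑ k, toRD.c N i j k * toRD.c N k l m + ∑ k, toRD.c N i l k * toRD.c N j k m

namespace CD

variable (D : CD)

/-- structure constants -/
abbrev cc : D.B → D.B → D.B → ℤ := D.c D.N

theorem neg_neg (α : D.ι) : D.neg (D.neg α) = α := by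
  have h : ∀ α, D.rt (D.neg α) = -D.rt α := fun α => by
    rw [RD.neg, D.rt_rf, D.two]; module
  apply D.rt_inj; rw [h, h, _root_.neg_neg]

theorem cr_neg (α : D.ι) : D.cr (D.neg α) = -D.cr α := by
  rw [RD.neg, D.cr_rf, D.two]; module

theorem cc_anti (i j k : D.B) : D.cc j i k = -D.cc i j k := by
  rcases i with a | α <;> rcases j with b | β
  · simp [RD.c]
  · simp only [RD.c]; split_ifs <;> simp
  · simp only [RD.c]; split_ifs <;> simp
  · rcases k with a | γ
    · simp only [RD.c]
      by_cases h : β = D.neg α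
      · subst h; simp [neg_neg, cr_neg]
      · rw [if_neg h, if_neg, neg_zero]
        rintro rfl; exact h (D.neg_neg β).symm
    · simp only [RD.c, add_comm (D.co β)]
      split_ifs with h
      exacts [D.N_anti α β γ h, by simp]

theorem cc_self (i k : D.B) : D.cc i i k = 0 := by
  have := D.cc_anti i i k; omega

/-- the Lie algebra over a commutative ring -/
abbrev g (R : Type v) : Type v := D.B → R

variable {R : Type v} [CommRing R]

/-- the bracket -/
def br (x y : D.g R) : D.g R := fun k => ∑ i, ∑ j, (D.cc i j k : R) * x i * y j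

theorem br_anti (x y : D.g R) : D.br y x = -D.br x y := by
  funext k
  simp only [br, Pi.neg_apply, ← Finset.sum_neg_distrib]
  rw [Finset.sum_comm]
  refine Finset.sum_congr rfl fun i _ => Finset.sum_congr rfl fun j _ => ?_
  rw [D.cc_anti i j k]; push_cast; ring

instance instLieRing : LieRing (D.g R) where
  bracket := D.br
  add_lie x y z := by
    funext k
    change D.br (x + y) z k = D.br x z k + D.br y z k
    simp only [br, Pi.add_apply, mul_add, add_mul, Finset.sum_add_distrib]
  lie_add x y z := by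
    funext k
    change D.br x (y + z) k = D.br x y k + D.br x z k
    simp only [br, Pi.add_apply, mul_add, Finset.sum_add_distrib]
  lie_self x := by
    funext k
    change D.br x x k = 0
    rw [br, ← Finset.sum_product']
    refine Finset.sum_involution (fun a _ => a.swap) (fun a _ => ?_) (fun a _ h h' => h ?_)
      (fun a _ => by simp) (fun a _ => rfl)
    · simp only [Prod.fst_swap, Prod.snd_swap]
      rw [D.cc_anti a.1 a.2 k]; push_cast; ring
    · have : a.2 = a.1 := congrArg Prod.fst h'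
      rw [this, D.cc_self]; simp
  leibniz_lie x y z := by
    funext m
    change D.br x (D.br y z) m = D.br (D.br x y) z m + D.br y (D.br x z) m
    have key : ∀ i j l, ∑ k, (D.cc j l k : R) * D.cc i k m
        = ∑ k, (D.cc i j k : R) * D.cc k l m + ∑ k, (D.cc i l k : R) * D.cc j k m := by
      intro i j l; exact_mod_cast congrArg (Int.cast : ℤ → R) (D.jac i j l m)
    have e1 : D.br x (D.br y z) m
        = ∑ i, ∑ j, ∑ l, (∑ k, (D.cc j l k : R) * D.cc i k m) * (x i * y j * z l) := by
      simp only [br, Finset.mul_sum, Finset.sum_mul]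
      refine Finset.sum_congr rfl fun i _ => ?_
      rw [Finset.sum_comm]
      refine Finset.sum_congr rfl fun j _ => ?_
      rw [Finset.sum_comm]
      exact Finset.sum_congr rfl fun l _ => Finset.sum_congr rfl fun k _ => by ring
    have e2 : D.br (D.br x y) z m
        = ∑ i, ∑ j, ∑ l, (∑ k, (D.cc i j k : R) * D.cc k l m) * (x i * y j * z l) := by
      simp only [br, Finset.mul_sum, Finset.sum_mul]
      rw [Finset.sum_comm, Finset.sum_congr rfl fun l _ => Finset.sum_comm, Finset.sum_comm]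
      refine Finset.sum_congr rfl fun i _ => ?_
      rw [Finset.sum_congr rfl fun l _ => Finset.sum_comm, Finset.sum_comm]
      exact Finset.sum_congr rfl fun j _ => Finset.sum_congr rfl fun l _ =>
        Finset.sum_congr rfl fun k _ => by ring
    have e3 : D.br y (D.br x z) m
        = ∑ i, ∑ j, ∑ l, (∑ k, (D.cc i l k : R) * D.cc j k m) * (x i * y j * z l) := by
      simp only [br, Finset.mul_sum, Finset.sum_mul]
      rw [Finset.sum_congr rfl fun j _ => Finset.sum_comm, Finset.sum_comm]
      refine Finset.sum_congr rfl fun i _ => Finset.sum_congr rfl fun j _ => ?_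
      rw [Finset.sum_comm]
      exact Finset.sum_congr rfl fun l _ => Finset.sum_congr rfl fun k _ => by ring
    rw [e1, e2, e3]
    simp only [← Finset.sum_add_distrib]
    exact Finset.sum_congr rfl fun i _ => Finset.sum_congr rfl fun j _ =>
      Finset.sum_congr rfl fun l _ => by rw [key i j l, add_mul]

theorem lie_apply (x y : D.g R) (k : D.B) :
    ⁅x, y⁆ k = ∑ i, ∑ j, (D.cc i j k : R) * x i * y j := rfl

instance instLieAlgebra : LieAlgebra R (D.g R) where
  lie_smul t x y := by
    funext k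
    simp only [lie_apply, Pi.smul_apply, smul_eq_mul, Finset.mul_sum]
    exact Finset.sum_congr rfl fun i _ => Finset.sum_congr rfl fun j _ => by ring

variable (R) in
/-- basis vectors -/
def bv (b : D.B) : D.g R := Pi.single b 1

variable (R) in
/-- root vectors -/
abbrev e (β : D.ι) : D.g R := D.bv R (.inr β)

variable (R) in
/-- the basis of the torus -/
abbrev h (a : D.σ) : D.g R := D.bv R (.inl a)

/-- an element of the torus -/
def hv (y : D.σ → R) : D.g R := Sum.elim y 0

variable (R) in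
/-- the `p`-map on the basis -/
def pmb : D.B → D.g R := Sum.elim (D.h R) 0

/-- the matrix of the adjoint action of a basis vector -/
def adM (i : D.B) : Matrix D.B D.B ℤ := Matrix.of fun k j => D.cc i j k

/-- divided powers -/
def dp (α : D.ι) (j : ℕ) : Matrix D.B D.B ℤ := (D.adM (.inr α) ^ j).map (· / (j.factorial : ℤ))

/-- root elements -/
def xM (α : D.ι) (t : R) : Matrix D.B D.B R :=
  ∑ j ∈ Finset.range 4, t ^ j • (D.dp α j).map (Int.cast : ℤ → R)

/-- representatives of the reflections -/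
def nM (α : D.ι) (t : Rˣ) : Matrix D.B D.B R :=
  D.xM α (t : R) * D.xM (D.neg α) (-(t⁻¹ : Rˣ) : R) * D.xM α (t : R)

variable (R) in
/-- representatives of words in the simple reflections -/
def nW (l : List D.Δ) : Matrix D.B D.B R := (l.map fun i => D.nM (D.s i) (1 : Rˣ)).prod

variable (R) in
/-- the group generated by the torus and the root elements for the roots in `S` -/
def GS (S : Set D.ι) : Submonoid (Matrix D.B D.B R) :=
  Submonoid.closure ({A | ∃ α ∈ S, ∃ t, A = D.xM α t} ∪ {A | ∃ u, A = D.tM u})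

variable (R) in
/-- the Chevalley group -/
abbrev G : Submonoid (Matrix D.B D.B R) := D.GS R Set.univ

variable (R) in
/-- the Borel subgroup -/
abbrev Bor : Submonoid (Matrix D.B D.B R) := D.GS R {β | D.Pos β}

/-- matrices that preserve the bracket -/
def IsAut (A : Matrix D.B D.B R) : Prop := ∀ x y : D.g R, A *ᵥ ⁅x, y⁆ = ⁅A *ᵥ x, A *ᵥ y⁆

/-- the corresponding homomorphism -/
def autHom (A : Matrix D.B D.B R) (h : D.IsAut A) : D.g R →ₗ⁅R⁆ D.g R :=
  { Matrix.mulVecLin A with map_lie' := fun {x y} => h x y }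

/-- the coadjoint action: `coad χ y` is the linear form `x ↦ χ ⁅y, x⁆` -/
def coad (χ : D.B → R) (y : D.g R) : D.B → R := fun b => χ ⬝ᵥ ⁅y, D.bv R b⁆

section Mod

variable {K : Type u} [Field K] (p : ℕ)

/-- evaluation of a noncommutative polynomial in the basis vectors -/
noncomputable def ev (S : LRep K (D.g K)) : FreeAlgebra ℤ D.B →ₐ[ℤ] End K S.M :=
  FreeAlgebra.lift ℤ fun b => S.ρ (D.bv K b)

/-- `p`-character -/
def PC (χ : D.B → K) (S : LRep K (D.g K)) : Prop :=
  ∀ b, S.ρ (D.bv K b) ^ p = S.ρ (D.pmb K b) + χ b ^ p • (1 : End K S.M)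

/-- highest weight vectors -/
def IsHW (S : LRep K (D.g K)) (μ : D.σ → K) (v : S.M) : Prop :=
  (∀ β, D.Pos β → S.ρ (D.e K β) v = 0) ∧ ∀ a, S.ρ (D.h K a) v = μ a • v

/-- there is a nonzero highest weight vector of integral weight `μ` -/
def HW (S : LRep K (D.g K)) (μ : D.σ → ℤ) : Prop :=
  ∃ v : S.M, v ≠ 0 ∧ D.IsHW S (fun a => (μ a : K)) v

/-- simple modules with `p`-character `χ` that are linked to `μ` -/
structure Adm (χ : D.B → K) (μ : D.σ → ℤ) (S : LRep K (D.g K)) : Prop where
  fd : FiniteDimensional K S.M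
  simple : S.Simple
  pc : D.PC p χ S
  hw : ∃ ν, D.Link p μ ν ∧ D.HW S ν

/-- there are at most `n` of them -/
def BndAt (χ : D.B → K) (μ : D.σ → ℤ) (n : ℕ) : Prop :=
  ∀ (A : Type u) [Fintype A] (S : A → LRep K (D.g K)), (∀ a, D.Adm p χ μ (S a)) →
    (∀ a a', (S a).Iso (S a') → a = a') → Fintype.card A ≤ n

/-- the bound `|W| / s` holds for all linkage classes -/
def Sav (χ : D.B → K) (s : ℕ) : Prop := ∀ μ, D.BndAt p χ μ (D.wn / s)

theorem BndAt.mono {D : CD} {p : ℕ} {χ : D.B → K} {μ : D.σ → ℤ} {n n' : ℕ}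
    (h : D.BndAt p χ μ n) (hn : n ≤ n') : D.BndAt p χ μ n' :=
  fun A _ S h1 h2 => (h A S h1 h2).trans hn

end Mod

/-- words of weight zero -/
def wt0 : Submodule ℤ (FreeAlgebra ℤ D.B) :=
  Submodule.span ℤ {z | ∃ l : List D.B, (l.map D.wt).sum = 0 ∧ z = (l.map (FreeAlgebra.ι ℤ)).prod}

/-- an invariant central element with its Harish-Chandra polynomial -/
structure Cen (z : FreeAlgebra ℤ D.B) (f : MvPolynomial D.σ ℤ) : Prop where
  wt : z ∈ D.wt0
  comm : ∀ (K : Type u) [Field K] (S : LRep K (D.g K)) (x : D.g K), Commute (D.ev S z) (S.ρ x)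
  inv : ∀ (K : Type u) [Field K] (S : LRep K (D.g K)) (A : Matrix D.B D.B K) (_ : A ∈ D.G K)
    (h : D.IsAut A), D.ev (S.res (D.autHom A h)) z = D.ev S z
  hc : ∀ (K : Type u) [Field K] (S : LRep K (D.g K)) (μ : D.σ → K) (v : S.M), D.IsHW S μ v →
    D.ev S z v = MvPolynomial.aeval μ f • v
  winv : ∀ i μ, MvPolynomial.eval (D.dotf i μ) f = MvPolynomial.eval μ f

end CD

end Pool.Agent.P.Bf04
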