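import Pool.Agent.P.MP_bf0464_al.H.Grp1A

/-! Root elements and the groups they generate. -/

namespace Pool.Agent.P.Bf04

open Matrix Module

attribute [local instance 100] LieRing.ofAssociativeRing

universe u v w

namespace CD

variable (D : CD) {R : Type v} [CommRing R] {R' : Type w} [CommRing R']

theorem grp1_eq (α : D.ι) (t : R) : D.xM α t = 1 + t • (D.dp α 1).map (Int.cast : ℤ → R)
    + t ^ 2 • (D.dp α 2).map (Int.cast : ℤ → R) + t ^ 3 • (D.dp α 3).map (Int.cast : ℤ → R) := by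
  simp only [xM, Finset.sum_range_succ, Finset.sum_range_zero, zero_add, pow_zero, pow_one,
    one_smul, dp_zero, Matrix.map_one _ Int.cast_zero Int.cast_one]

theorem grp1_mul (α : D.ι) (i j : ℕ) :
    (D.dp α i).map (Int.cast : ℤ → R) * (D.dp α j).map (Int.cast : ℤ → R)
      = ((i + j).choose i : R) • (D.dp α (i + j)).map (Int.cast : ℤ → R) := by
  have h := Matrix.map_mul (L := D.dp α i) (M := D.dp α j) (f := Int.castRingHom R)
  rw [dp_mul] at h
  refine h.symm.trans ?_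
  ext k l
  simp only [Matrix.map_apply, Matrix.smul_apply, smul_eq_mul, map_mul, map_natCast, eq_intCast]

theorem grp1_four (α : D.ι) {j : ℕ} (h : 4 ≤ j) : (D.dp α j).map (Int.cast : ℤ → R) = 0 := by
  rw [D.dp_four α h, Matrix.map_zero _ Int.cast_zero]

theorem grp1_cast (α : D.ι) (j : ℕ) (x : D.g ℤ) :
    (D.dp α j).map (Int.cast : ℤ → R) *ᵥ (Int.castRingHom R ∘ x)
      = Int.castRingHom R ∘ (D.dp α j *ᵥ x) := by
  funext k
  exact (RingHom.map_mulVec (Int.castRingHom R) (D.dp α j) x k).symm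

theorem grp1_zero (α : D.ι) {i j : ℕ} (hij : i ≤ j) (b : D.B)
    (h : D.adM (.inr α) ^ i *ᵥ D.bv ℤ b = 0) :
    (D.dp α j).map (Int.cast : ℤ → R) *ᵥ D.bv R b = 0 := by
  have h1 := D.grp1A_zero_of α hij _ h
  rw [← dp_fact, Matrix.smul_mulVec, smul_eq_zero] at h1
  rw [← D.map_bv (Int.castRingHom R), grp1_cast, h1.resolve_left (by positivity)]
  funext k
  simp

theorem grp1_lie (α : D.ι) (n : ℕ) (i j : D.B) :
    (D.dp α n).map (Int.cast : ℤ → R) *ᵥ ⁅D.bv R i, D.bv R j⁆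
      = ∑ ij ∈ Finset.HasAntidiagonal.antidiagonal n,
        (⁅(D.dp α ij.1).map (Int.cast : ℤ → R) *ᵥ D.bv R i,
          (D.dp α ij.2).map (Int.cast : ℤ → R) *ᵥ D.bv R j⁆ : D.g R) := by
  rw [← D.map_bv (Int.castRingHom R) i, ← D.map_bv (Int.castRingHom R) j, ← D.map_lie, grp1_cast,
    dp_lie]
  simp only [grp1_cast, ← D.map_lie]
  funext k
  simp only [Function.comp_apply, Finset.sum_apply, map_sum]

theorem grp1_one (α : D.ι) (x : D.g R) :
    (D.dp α 1).map (Int.cast : ℤ → R) *ᵥ x = ⁅D.e R α, x⁆ := by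
  rw [dp_one, lie_adM]

theorem xM_zero (α : D.ι) : D.xM α (0 : R) = 1 := by
  simp [grp1_eq]

theorem xM_add (α : D.ι) (s t : R) : D.xM α (s + t) = D.xM α s * D.xM α t := by
  have h4 := D.grp1_four (R := R) α (j := 4) le_rfl
  have h5 := D.grp1_four (R := R) α (j := 5) (by norm_num)
  have h6 := D.grp1_four (R := R) α (j := 6) (by norm_num)
  simp only [grp1_eq, mul_add, add_mul, one_mul, mul_one, smul_mul_smul_comm, grp1_mul,
    Nat.reduceAdd, h4, h5, h6, smul_zero, Nat.choose, Nat.cast_ofNat]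
  module

theorem xM_map (φ : R →+* R') (α : D.ι) (t : R) : (D.xM α t).map φ = D.xM α (φ t) := by
  ext k j
  simp [xM, Matrix.sum_apply]

theorem xM_aut (α : D.ι) (t : R) : D.IsAut (D.xM α t) := by
  refine D.isAut_of_bv fun i j => ?_
  have h4 := D.grp1_four (R := R) α (j := 4) le_rfl
  have h5 := D.grp1_four (R := R) α (j := 5) (by norm_num)
  have h6 := D.grp1_four (R := R) α (j := 6) (by norm_num)
  have h0 : (D.dp α 0).map (Int.cast : ℤ → R) = 1 := by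
    rw [dp_zero, Matrix.map_one _ Int.cast_zero Int.cast_one]
  have l1 := D.grp1_lie (R := R) α 1 i j
  have l2 := D.grp1_lie (R := R) α 2 i j
  have l3 := D.grp1_lie (R := R) α 3 i j
  have l4 := D.grp1_lie (R := R) α 4 i j
  have l5 := D.grp1_lie (R := R) α 5 i j
  have l6 := D.grp1_lie (R := R) α 6 i j
  simp only [Finset.Nat.sum_antidiagonal_eq_sum_range_succ_mk, Finset.sum_range_succ,
    Finset.sum_range_zero, zero_add, Nat.reduceSub, h0, h4, h5, h6, Matrix.one_mulVec,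
    Matrix.zero_mulVec, lie_zero, zero_lie, add_zero] at l1 l2 l3 l4 l5 l6
  simp only [grp1_eq, Matrix.add_mulVec, Matrix.smul_mulVec, Matrix.one_mulVec, add_lie, lie_add,
    smul_lie, lie_smul, l1, l2, l3]
  linear_combination (norm := module) t ^ 4 • l4 + t ^ 5 • l5 + t ^ 6 • l6

theorem xM_apply (α : D.ι) (t : R) (k j : D.B) :
    D.xM α t k j = ∑ n ∈ Finset.range 4, t ^ n * (D.dp α n k j : R) := by
  simp [xM, Matrix.sum_apply]

theorem xM_hv (α : D.ι) (t : R) (y : D.σ → R) :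
    D.xM α t *ᵥ D.hv y = D.hv y - (t * ∑ a, (D.rt α a : R) * y a) • D.e R α := by
  have h : ∀ j, 2 ≤ j → (D.dp α j).map (Int.cast : ℤ → R) *ᵥ D.hv y = 0 := fun j hj => by
    rw [hv_eq_sum, Matrix.mulVec_sum]
    refine Finset.sum_eq_zero fun a _ => ?_
    rw [Matrix.mulVec_smul, D.grp1_zero α hj, smul_zero]
    rw [grp1A_succ, pow_one, grp1A_ad, ← lie_skew (D.e ℤ α) (D.bv ℤ (.inl a)), lie_h_e, lie_neg,
      lie_smul, lie_self, smul_zero, neg_zero]
  rw [grp1_eq, Matrix.add_mulVec, Matrix.add_mulVec, Matrix.add_mulVec, Matrix.smul_mulVec,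
    Matrix.smul_mulVec, Matrix.smul_mulVec, h 2 le_rfl, h 3 (by norm_num), grp1_one,
    ← lie_skew, lie_hv_e, Matrix.one_mulVec]
  module

theorem xM_self (α : D.ι) (t : R) : D.xM α t *ᵥ D.e R α = D.e R α := by
  have h : ∀ j, 1 ≤ j → (D.dp α j).map (Int.cast : ℤ → R) *ᵥ D.e R α = 0 := fun j hj =>
    D.grp1_zero α hj _ (by rw [pow_one, grp1A_ad, lie_self])
  rw [grp1_eq, Matrix.add_mulVec, Matrix.add_mulVec, Matrix.add_mulVec, Matrix.smul_mulVec,
    Matrix.smul_mulVec, Matrix.smul_mulVec, h 1 le_rfl, h 2 (by norm_num), h 3 (by norm_num),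
    Matrix.one_mulVec]
  module

theorem xM_neg (α : D.ι) (t : R) : D.xM α t *ᵥ D.e R (D.neg α)
    = D.e R (D.neg α) + t • D.hv (fun a => (D.cr α a : R)) - t ^ 2 • D.e R α := by
  have h2 : D.adM (.inr α) ^ 2 *ᵥ D.e ℤ (D.neg α) = (2 : ℤ) • -D.e ℤ α := by
    rw [grp1A_succ, pow_one, grp1A_ad, lie_e_neg, ← lie_skew, lie_cr_e, D.pr_self]
    simp
  have h3 : D.adM (.inr α) ^ 3 *ᵥ D.e ℤ (D.neg α) = 0 := by
    rw [grp1A_succ, h2, lie_smul, lie_neg, lie_self, neg_zero, smul_zero]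
  have h4 : (D.dp α 2).map (Int.cast : ℤ → R) *ᵥ D.e R (D.neg α) = -D.e R α := by
    rw [← dp_fact, Matrix.smul_mulVec] at h2
    rw [e, ← D.map_bv (Int.castRingHom R), grp1_cast,
      smul_right_injective (D.g ℤ) (two_ne_zero (α := ℤ)) h2, e, e, ← D.map_bv (Int.castRingHom R)]
    funext k
    simp
  rw [grp1_eq, Matrix.add_mulVec, Matrix.add_mulVec, Matrix.add_mulVec, Matrix.smul_mulVec,
    Matrix.smul_mulVec, Matrix.smul_mulVec, D.grp1_zero α le_rfl _ h3, h4, grp1_one, lie_e_neg,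
    Matrix.one_mulVec]
  module

theorem xM_e {α β : D.ι} (h : β ≠ D.neg α) (t : R) :
    D.xM α t *ᵥ D.e R β - D.e R β - t • ⁅D.e R α, D.e R β⁆ ∈ Submodule.span R
      {x | ∃ (γ : D.ι) (j : ℕ), 2 ≤ j ∧ D.co γ = D.co β + (j : ℤ) • D.co α ∧ x = D.e R γ} := by
  have key : ∀ j, 2 ≤ j → (D.dp α j).map (Int.cast : ℤ → R) *ᵥ D.e R β ∈ Submodule.span R
      {x | ∃ (γ : D.ι) (j : ℕ), 2 ≤ j ∧ D.co γ = D.co β + (j : ℤ) • D.co α ∧ x = D.e R γ} := by
    intro j hj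
    rw [D.eq_sum (_ *ᵥ _)]
    refine Submodule.sum_mem _ fun k _ => ?_
    by_cases h0 : D.dp α j k (.inr β) = 0
    · simp [bv, h0]
    have h1 := D.dp_hom α j _ _ h0
    refine Submodule.smul_mem _ _ (Submodule.subset_span ?_)
    rcases k with a | γ
    · have h2 : D.co β = (-j : ℤ) • D.co α := by
        rw [neg_smul]
        exact eq_neg_of_add_eq_zero_left h1.symm
      have := D.grp1A_mul_ne h2
      omega
    · exact ⟨γ, j, hj, h1, rfl⟩
  have e : D.xM α t *ᵥ D.e R β - D.e R β - t • ⁅D.e R α, D.e R β⁆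
      = t ^ 2 • (D.dp α 2).map (Int.cast : ℤ → R) *ᵥ D.e R β
        + t ^ 3 • (D.dp α 3).map (Int.cast : ℤ → R) *ᵥ D.e R β := by
    rw [grp1_eq, Matrix.add_mulVec, Matrix.add_mulVec, Matrix.add_mulVec, Matrix.smul_mulVec,
      Matrix.smul_mulVec, Matrix.smul_mulVec, grp1_one, Matrix.one_mulVec]
    module
  rw [e]
  exact add_mem (Submodule.smul_mem _ _ (key 2 le_rfl))
    (Submodule.smul_mem _ _ (key 3 (by norm_num)))

theorem xM_wt (α : D.ι) (t : R) {k j : D.B} (h : D.xM α t k j ≠ 0) :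
    ∃ n : ℕ, D.wt k = D.wt j + (n : ℤ) • D.co α := by
  rw [xM_apply] at h
  obtain ⟨n, -, hn⟩ := Finset.exists_ne_zero_of_sum_ne_zero h
  exact ⟨n, D.dp_hom α n k j fun e => hn (by rw [e, Int.cast_zero, mul_zero])⟩

/-- the second order part of a root element -/
theorem xM_wt_two (α : D.ι) (t : R) {k j : D.B}
    (h : (D.xM α t - 1 - t • (D.adM (.inr α)).map (Int.cast : ℤ → R)) k j ≠ 0) :
    ∃ n : ℕ, 2 ≤ n ∧ D.wt k = D.wt j + (n : ℤ) • D.co α := by
  have e : D.xM α t - 1 - t • (D.adM (.inr α)).map (Int.cast : ℤ → R)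
      = t ^ 2 • (D.dp α 2).map (Int.cast : ℤ → R) + t ^ 3 • (D.dp α 3).map (Int.cast : ℤ → R) := by
    rw [grp1_eq, dp_one]
    module
  rw [e] at h
  by_cases h2 : D.dp α 2 k j = 0
  · exact ⟨3, by norm_num, D.dp_hom α 3 k j fun h3 => h (by simp [h2, h3])⟩
  · exact ⟨2, le_rfl, D.dp_hom α 2 k j h2⟩

theorem tM_aut (u : D.Δ → Rˣ) : D.IsAut (D.tM u) := by
  have h : ∀ i, D.tM u *ᵥ D.bv R i = (D.chr u (D.wt i) : R) • D.bv R i := fun i => by
    rw [RD.tM, bv, Matrix.diagonal_mulVec_single, ← Pi.single_smul, smul_eq_mul]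
  refine D.isAut_of_bv fun i j => ?_
  rw [h, h, smul_lie, lie_smul]
  funext k
  rw [RD.tM, Matrix.mulVec_diagonal, Pi.smul_apply, Pi.smul_apply, lie_bv_apply]
  by_cases h0 : D.cc i j k = 0
  · simp [h0]
  · rw [D.cc_wt h0, D.chr_add, Units.val_mul, mul_assoc, smul_eq_mul, smul_eq_mul]

theorem tM_xM (u : D.Δ → Rˣ) (α : D.ι) (t : R) :
    D.tM u * D.xM α t = D.xM α (D.chr u (D.co α) * t) * D.tM u := by
  ext k j
  rw [RD.tM, Matrix.diagonal_mul, Matrix.mul_diagonal, xM_apply, xM_apply, Finset.mul_sum,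
    Finset.sum_mul]
  refine Finset.sum_congr rfl fun n _ => ?_
  by_cases h0 : D.dp α n k j = 0
  · simp [h0]
  · rw [D.dp_hom α n k j h0, D.chr_add, D.chr_zsmul, zpow_natCast, Units.val_mul,
      Units.val_pow_eq_pow_val]
    ring

variable {D} {S S' : Set D.ι}

theorem xM_mem {α : D.ι} (h : α ∈ S) (t : R) : D.xM α t ∈ D.GS R S :=
  Submonoid.subset_closure (Or.inl ⟨α, h, t, rfl⟩)

theorem tM_mem (u : D.Δ → Rˣ) : D.tM u ∈ D.GS R S := Submonoid.subset_closure (Or.inr ⟨u, rfl⟩)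

theorem GS_mono (h : S ⊆ S') : D.GS R S ≤ D.GS R S' :=
  Submonoid.closure_mono (Set.union_subset_union_left _ fun _ ⟨α, hα, e⟩ => ⟨α, h hα, e⟩)

theorem GS_le_G : D.GS R S ≤ D.G R := GS_mono (Set.subset_univ _)

theorem GS_induction {P : Matrix D.B D.B R → Prop} (h1 : P 1)
    (hx : ∀ A ∈ D.GS R S, P A → ∀ α ∈ S, ∀ t, P (A * D.xM α t))
    (ht : ∀ A ∈ D.GS R S, P A → ∀ u, P (A * D.tM u)) {A : Matrix D.B D.B R}
    (h : A ∈ D.GS R S) : P A := by
  induction h using Submonoid.closure_induction_right with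
  | one => exact h1
  | mul_right x hx' y hy ih =>
    rcases hy with ⟨α, hα, t, rfl⟩ | ⟨u, rfl⟩
    exacts [hx x hx' ih α hα t, ht x hx' ih u]

theorem GS_induction_left {P : Matrix D.B D.B R → Prop} (h1 : P 1)
    (hx : ∀ A ∈ D.GS R S, P A → ∀ α ∈ S, ∀ t, P (D.xM α t * A))
    (ht : ∀ A ∈ D.GS R S, P A → ∀ u, P (D.tM u * A)) {A : Matrix D.B D.B R}
    (h : A ∈ D.GS R S) : P A := by
  induction h using Submonoid.closure_induction_left with
  | one => exact h1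
  | mul_left y hy x hx' ih =>
    rcases hy with ⟨α, hα, t, rfl⟩ | ⟨u, rfl⟩
    exacts [hx x hx' ih α hα t, ht x hx' ih u]

theorem GS_aut {A : Matrix D.B D.B R} (h : A ∈ D.GS R S) : D.IsAut A :=
  GS_induction D.isAut_one (fun _ _ h α _ t => h.mul (D.xM_aut α t))
    (fun _ _ h u => h.mul (D.tM_aut u)) h

theorem GS_inv {A : Matrix D.B D.B R} (h : A ∈ D.GS R S) :
    ∃ A' ∈ D.GS R S, A * A' = 1 ∧ A' * A = 1 := by
  suffices h1 : ∃ A' ∈ D.GS R S, A * A' = 1 from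
    h1.imp fun A' h1 => ⟨h1.1, h1.2, mul_eq_one_comm.1 h1.2⟩
  refine GS_induction (P := fun A => ∃ A' ∈ D.GS R S, A * A' = 1) ⟨1, one_mem _, mul_one _⟩
    (fun A _ ⟨A', h1, h2⟩ α hα t => ⟨_, mul_mem (xM_mem hα (-t)) h1, ?_⟩)
    (fun A _ ⟨A', h1, h2⟩ u => ⟨_, mul_mem (tM_mem u⁻¹) h1, ?_⟩) h
  · rw [mul_assoc, ← mul_assoc _ _ A', ← xM_add, add_neg_cancel, xM_zero, one_mul, h2]
  · rw [mul_assoc, ← mul_assoc _ _ A', ← D.tM_mul, mul_inv_cancel, D.tM_one, one_mul, h2]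

theorem GS_map (φ : R →+* R') {A : Matrix D.B D.B R} (h : A ∈ D.GS R S) :
    A.map φ ∈ D.GS R' S := by
  refine GS_induction (P := fun A => A.map φ ∈ D.GS R' S) ?_ (fun A _ h α hα t => ?_)
    (fun A _ h u => ?_) h
  · rw [Matrix.map_one _ (map_zero φ) (map_one φ)]
    exact one_mem _
  · rw [Matrix.map_mul, xM_map]
    exact mul_mem h (xM_mem hα _)
  · rw [Matrix.map_mul, D.tM_map]
    exact mul_mem h (tM_mem _)

theorem map_vecMul (φ : R →+* R') (χ : D.B → R) (A : Matrix D.B D.B R) :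
    φ ∘ (χ ᵥ* A) = (φ ∘ χ) ᵥ* A.map φ := funext fun k => RingHom.map_vecMul φ A χ k

end CD

end Pool.Agent.P.Bf04
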