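import Pool.Agent.P.MP_bf0464_al.H.DensA
import Pool.Agent.P.MP_bf0464_al.H.Grp1

/-! The Jacobian criterion, amalgamation of fields, the generic semisimple element. -/

namespace Pool.Agent.P.Bf04

open Matrix Module

attribute [local instance 100] LieRing.ofAssociativeRing

universe u v w

open MvPolynomial

/-- the product rule at a point where all factors are the identity matrix -/
theorem dens_prod {B R k : Type*} [Fintype B] [DecidableEq B] [CommRing k] [CommRing R]
    [Algebra k R] (φ : R →+* R) (d : Derivation k R R) (l : List (Matrix B B R))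
    (h : ∀ M ∈ l, M.map φ = 1) :
    l.prod.map φ = 1 ∧ ∀ b i, φ (d (l.prod b i)) = (l.map fun M => φ (d (M b i))).sum := by
  induction l with
  | nil =>
    refine ⟨by simp, fun b i => ?_⟩
    rw [List.prod_nil, Matrix.one_apply]
    split_ifs <;> simp
  | cons M l ih =>
    obtain ⟨h1, h2⟩ := ih fun N hN => h N (List.mem_cons_of_mem _ hN)
    have hM := h M List.mem_cons_self
    refine ⟨by rw [List.prod_cons, Matrix.map_mul, hM, h1, one_mul], fun b i => ?_⟩
    have e1 : ∀ b c, φ (M b c) = if b = c then 1 else 0 := fun b c => by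
      rw [← Matrix.one_apply, ← hM, Matrix.map_apply]
    have e2 : ∀ b c, φ (l.prod b c) = if b = c then 1 else 0 := fun b c => by
      rw [← Matrix.one_apply, ← h1, Matrix.map_apply]
    rw [List.prod_cons, List.map_cons, List.sum_cons, ← h2, Matrix.mul_apply, map_sum, map_sum]
    simp only [Derivation.leibniz, smul_eq_mul, map_add, map_mul, e1, e2, Finset.sum_add_distrib,
      ite_mul, one_mul, zero_mul, Finset.sum_ite_eq, Finset.sum_ite_eq', Finset.mem_univ, if_true]
    exact add_comm _ _

namespace CD

variable (D : CD) (k : Type v) [Field k]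

/-- the generic element of the torus -/
noncomputable def genψ : D.B → MvPolynomial D.B k := Sum.elim (fun a => X (.inl a)) 0

/-- the generic product of root elements -/
noncomputable def genA : Matrix D.B D.B (MvPolynomial D.B k) :=
  ((Finset.univ : Finset D.ι).toList.map fun β => D.xM β (X (.inr β))).prod

theorem genA_mem : D.genA k ∈ D.G (MvPolynomial D.B k) := by
  refine Submonoid.list_prod_mem _ fun A hA => ?_
  obtain ⟨β, -, rfl⟩ := List.mem_map.1 hA
  exact xM_mem (Set.mem_univ β) _

theorem dens_one : ∀ M ∈ ((Finset.univ : Finset D.ι).toList.map fun β =>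
    D.xM β (X (.inr β) : MvPolynomial D.B k)),
    M.map (aeval (D.genψ k) : MvPolynomial D.B k →ₐ[k] _).toRingHom = 1 := by
  intro M hM
  obtain ⟨β, -, rfl⟩ := List.mem_map.1 hM
  rw [xM_map]
  have : (aeval (D.genψ k) : MvPolynomial D.B k →ₐ[k] _).toRingHom (X (.inr β)) = 0 := by
    simp [genψ]
  rw [this, xM_zero]

/-- setting the root coordinates to zero -/
theorem genA_zero : (D.genA k).map (aeval (D.genψ k) : MvPolynomial D.B k →ₐ[k] _) = 1 :=
  (dens_prod _ (0 : Derivation k (MvPolynomial D.B k) (MvPolynomial D.B k)) _ (D.dens_one k)).1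

theorem dens_xM (β : D.ι) (j b i : D.B) :
    aeval (D.genψ k) (pderiv j (D.xM β (X (.inr β) : MvPolynomial D.B k) b i)) =
      if j = .inr β then (D.cc (.inr β) i b : MvPolynomial D.B k) else 0 := by
  have h0 : aeval (D.genψ k) (X (.inr β) : MvPolynomial D.B k) = 0 := by simp [genψ]
  have h1 : ∀ z : ℤ, pderiv j (z : MvPolynomial D.B k) = 0 := fun z =>
    Derivation.map_intCast _ z
  rw [xM_apply]
  simp only [Finset.sum_range_succ, Finset.sum_range_zero, map_add, Derivation.leibniz,
    Derivation.leibniz_pow, h1, smul_eq_mul, map_mul, map_pow, map_nsmul, h0, dp_one]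
  by_cases hj : j = .inr β
  · subst hj
    simp [adM]
  · rw [if_neg hj, pderiv_X_of_ne (Ne.symm hj)]
    simp

theorem dens_genA (j b i : D.B) :
    aeval (D.genψ k) (pderiv j (D.genA k b i)) =
      Sum.elim (fun _ => 0) (fun β => (D.cc (.inr β) i b : MvPolynomial D.B k)) j := by
  have h := (dens_prod _ (pderiv j) _ (D.dens_one k)).2 b i
  rw [List.map_map, Finset.sum_map_toList] at h
  refine h.trans ?_
  have : ∀ β : D.ι, ((fun M : Matrix D.B D.B (MvPolynomial D.B k) =>
      (aeval (D.genψ k) : MvPolynomial D.B k →ₐ[k] _).toRingHom (pderiv j (M b i))) ∘ fun β =>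
        D.xM β (X (.inr β))) β =
      if j = .inr β then (D.cc (.inr β) i b : MvPolynomial D.B k) else 0 :=
    fun β => D.dens_xM k β j b i
  rw [Finset.sum_congr rfl fun β _ => this β]
  rcases j with a | γ <;> simp

theorem dens_jac (i j : D.B) :
    aeval (D.genψ k) (pderiv j ((D.genψ k ᵥ* D.genA k) i)) =
      Sum.elim (fun a => if i = .inl a then 1 else 0)
        (fun β => if i = .inr (D.neg β) then ∑ a, X (.inl a) * (D.cr β a : MvPolynomial D.B k)
          else 0) j := by
  have e : ∀ b c, aeval (D.genψ k) (D.genA k b c) = if b = c then 1 else 0 := fun b c => by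
    rw [← Matrix.one_apply, ← D.genA_zero k, Matrix.map_apply]
  rw [Matrix.vecMul, dotProduct, map_sum, map_sum]
  simp only [Derivation.leibniz, smul_eq_mul, map_add, map_mul, e, dens_genA,
    Finset.sum_add_distrib, ite_mul, one_mul, zero_mul, Finset.sum_ite_eq', Finset.mem_univ,
    if_true]
  rcases j with a | β
  · rcases i with a' | γ
    · by_cases h : a' = a
      · subst h
        simp [genψ]
      · have h' : (Sum.inl a' : D.B) ≠ Sum.inl a := fun h' => h (Sum.inl.inj h')
        simp [genψ, pderiv_X_of_ne h', h]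
    · simp [genψ]
  · rcases i with a' | γ
    · simp [genψ, RD.c]
    · by_cases h : γ = D.neg β <;> simp [genψ, Fintype.sum_sum_type, RD.c, h]

theorem gen_indep [PerfectField k] : AlgebraicIndependent k (D.genψ k ᵥ* D.genA k) := by
  refine jac_indep _ (aeval (D.genψ k) : MvPolynomial D.B k →ₐ[k] _).toRingHom
    (Matrix.of fun j i => if j = Sum.map id D.neg i then 1 else 0) ?_
  have key : (Matrix.of fun i j => (aeval (D.genψ k) : MvPolynomial D.B k →ₐ[k] _).toRingHom
      (pderiv j ((D.genψ k ᵥ* D.genA k) i))) *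
      (Matrix.of fun j i => if j = Sum.map id D.neg i then 1 else 0) =
      Matrix.diagonal (Sum.elim (fun _ => 1) fun β =>
        ∑ a, X (.inl a) * (D.cr (D.neg β) a : MvPolynomial D.B k)) := by
    ext1 i i'
    rw [Matrix.mul_apply]
    simp only [Matrix.of_apply, mul_ite, mul_one, mul_zero, Finset.sum_ite_eq', Finset.mem_univ,
      if_true]
    refine (D.dens_jac k i _).trans ?_
    rw [Matrix.diagonal_apply]
    rcases i' with a | β
    · simp only [Sum.map_inl, id, Sum.elim_inl]
      split_ifs with h
      · rw [h, Sum.elim_inl]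
      · rfl
    · simp only [Sum.map_inr, Sum.elim_inr, D.neg_neg]
      split_ifs with h
      · rw [h, Sum.elim_inr]
      · rfl
  rw [key, Matrix.det_diagonal, Finset.prod_ne_zero_iff]
  rintro (a | β) -
  · exact one_ne_zero
  · intro h
    obtain ⟨x, hx⟩ := D.cr_prim (D.neg β)
    have h1 := congrArg (eval (Sum.elim (fun a => (x a : k)) 0)) h
    have h2 := congrArg (Int.cast : ℤ → k) hx
    simp only [Sum.elim_inr, map_sum, map_mul, eval_X, Sum.elim_inl, map_intCast, map_zero] at h1
    rw [dotProduct] at h2
    push_cast at h2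
    exact one_ne_zero (h2.symm.trans h1)

end CD

end Pool.Agent.P.Bf04
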