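import Mathlib

/-! The Jacobian criterion and amalgamation of fields. -/

namespace Pool.Agent.P.Bf04

universe u v

open MvPolynomial

theorem densA_chain {k ι τ : Type*} [CommRing k] [Fintype ι] [DecidableEq ι]
    (P : ι → MvPolynomial τ k) (j : τ) (F : MvPolynomial ι k) :
    pderiv j (aeval P F) = ∑ i, aeval P (pderiv i F) * pderiv j (P i) := by
  induction F using MvPolynomial.induction_on with
  | C a => simp
  | add p q hp hq => simp only [map_add, hp, hq, add_mul, Finset.sum_add_distrib]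
  | mul_X p n hp =>
    simp only [map_mul, aeval_X, pderiv_mul, hp, map_add, add_mul, Finset.sum_add_distrib,
      Finset.sum_mul]
    congr 1
    · exact Finset.sum_congr rfl fun i _ => by ring
    · rw [Finset.sum_eq_single n]
      · simp
      · intro i _ hi
        simp [pderiv_X_of_ne hi.symm]
      · simp

theorem densA_rows {R ι τ : Type*} [CommRing R] [IsDomain R] [Fintype ι] [DecidableEq ι]
    [Fintype τ] (J : Matrix ι τ R) {S : Type*} [CommRing S] (φ : R →+* S) (Q : Matrix τ ι S)
    (h : (J.map φ * Q).det ≠ 0) (w : ι → R) (hw : Matrix.vecMul w J = 0) : w = 0 := by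
  let c : R →+* MvPolynomial (τ × ι) R := C
  let Q' : Matrix τ ι (MvPolynomial (τ × ι) R) := Matrix.of fun j i => X (j, i)
  let ψ : MvPolynomial (τ × ι) R →+* S := eval₂Hom φ fun a => Q a.1 a.2
  have h1 : (J.map c * Q').det ≠ 0 := by
    intro h0
    apply h
    have h2 := congrArg ψ h0
    rw [RingHom.map_det, map_zero, RingHom.mapMatrix_apply, Matrix.map_mul] at h2
    have e1 : (J.map c).map ψ = J.map φ := by
      ext i j
      simp [ψ, c]
    have e2 : Q'.map ψ = Q := by
      ext i j
      simp [ψ, Q']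
    rwa [e1, e2] at h2
  have h3 : Matrix.vecMul (c ∘ w) (J.map c) = 0 := by
    funext j
    rw [← RingHom.map_vecMul, hw]
    simp
  have h4 : Matrix.vecMul (c ∘ w) (J.map c * Q') = 0 := by
    rw [← Matrix.vecMul_vecMul, h3, Matrix.zero_vecMul]
  have h5 := Matrix.eq_zero_of_vecMul_eq_zero h1 h4
  funext i
  exact C_injective (τ × ι) R (by simpa [c] using congrFun h5 i)

theorem densA_deg {k ι : Type*} [CommRing k] (i : ι) (F : MvPolynomial ι k)
    (h : pderiv i F ≠ 0) : (pderiv i F).totalDegree < F.totalDegree := by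
  obtain ⟨m, hm, e⟩ := Finset.exists_mem_eq_sup _ (support_nonempty.2 h)
    fun s : ι →₀ ℕ => s.sum fun _ e => e
  rw [totalDegree, e]
  rw [mem_support_iff, coeff_pderiv] at hm
  have h1 := le_totalDegree (mem_support_iff.2 (left_ne_zero_of_mul hm))
  rw [Finsupp.sum_add_index' (fun _ => rfl) (fun _ _ _ => rfl), Finsupp.sum_single_index rfl] at h1
  omega

theorem densA_cast {k ι : Type*} [Field k] {F : MvPolynomial ι k} (h : ∀ i, pderiv i F = 0)
    {m : ι →₀ ℕ} (hm : m ∈ F.support) (i : ι) : (m i : k) = 0 := by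
  rcases Nat.eq_zero_or_pos (m i) with h0 | h0
  · simp [h0]
  · have h1 := coeff_pderiv (i := i) F (m - Finsupp.single i 1)
    have h2 : m - Finsupp.single i 1 + Finsupp.single i 1 = m :=
      tsub_add_cancel_of_le (Finsupp.single_le_iff.2 h0)
    rw [h i, h2, coeff_zero] at h1
    have h3 := (mul_eq_zero.1 h1.symm).resolve_left (mem_support_iff.1 hm)
    rw [← h3, Finsupp.tsub_apply, Finsupp.single_eq_same]
    obtain ⟨a, ha⟩ := Nat.exists_eq_add_of_lt h0
    rw [ha]
    simp

theorem densA_expand {k ι : Type*} [CommRing k] (p : ℕ) {F : MvPolynomial ι k}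
    (h : ∀ m ∈ F.support, ∀ i, p ∣ m i) : ∃ G, F = expand p G := by
  refine ⟨∑ m ∈ F.support, monomial (m.mapRange (· / p) (Nat.zero_div p)) (coeff m F), ?_⟩
  rw [map_sum]
  conv_lhs => rw [F.as_sum]
  refine Finset.sum_congr rfl fun m hm => ?_
  rw [expand_monomial]
  congr 2
  ext i
  simp [Nat.mul_div_cancel' (h m hm i)]

theorem densA_root {k ι : Type*} [Field k] [PerfectField k] {F : MvPolynomial ι k}
    (h : ∀ i, pderiv i F = 0) (hd : F.totalDegree ≠ 0) :
    ∃ (G : MvPolynomial ι k) (p : ℕ), F = G ^ p ∧ G.totalDegree < F.totalDegree := by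
  obtain ⟨p, hp⟩ := CharP.exists k
  have hdv : ∀ m ∈ F.support, ∀ i, p ∣ m i := fun m hm i =>
    (CharP.cast_eq_zero_iff k p _).1 (densA_cast h hm i)
  obtain ⟨G, hG⟩ := densA_expand p hdv
  have hdeg := totalDegree_expand (p := p) G
  rw [← hG] at hdeg
  rcases CharP.char_is_prime_or_zero k p with hpr | rfl
  · have := Fact.mk hpr
    obtain ⟨G', rfl⟩ := map_surjective (frobenius k p) (surjective_frobenius k p) G
    refine ⟨G', p, ?_, ?_⟩
    · rw [hG, ← map_expand, map_frobenius_expand]
    · have h1 : (map (frobenius k p) G').totalDegree = G'.totalDegree := by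
        rw [totalDegree, totalDegree, support_map_of_injective _ (frobenius k p).injective]
      rw [h1] at hdeg
      have h2 := hpr.two_le
      rw [hdeg] at hd ⊢
      exact lt_mul_of_one_lt_right (Nat.pos_of_ne_zero (left_ne_zero_of_mul hd)) h2
  · exact absurd hdeg hd

theorem jac_indep {k ι τ : Type*} [Field k] [PerfectField k] [Fintype ι] [DecidableEq ι]
    [Fintype τ] (P : ι → MvPolynomial τ k) {S : Type*} [CommRing S] [IsDomain S]
    (φ : MvPolynomial τ k →+* S) (Q : Matrix τ ι S)
    (h : ((Matrix.of fun i j => φ (pderiv j (P i))) * Q).det ≠ 0) : AlgebraicIndependent k P := by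
  rw [algebraicIndependent_iff]
  intro F
  induction hn : F.totalDegree using Nat.strong_induction_on generalizing F with
  | _ n ih =>
    intro hF
    have h1 : (fun i => aeval P (pderiv i F)) = 0 := by
      refine densA_rows (Matrix.of fun i j => pderiv j (P i)) φ Q h _ ?_
      funext j
      have := densA_chain P j F
      rw [hF, map_zero] at this
      exact this.symm
    have h2 : ∀ i, pderiv i F = 0 := fun i => by
      by_contra hne
      exact hne (ih _ (hn ▸ densA_deg i F hne) _ rfl (congrFun h1 i))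
    by_cases hd : F.totalDegree = 0
    · rw [totalDegree_eq_zero_iff_eq_C] at hd
      rw [hd, aeval_C] at hF
      rw [hd, (map_eq_zero_iff _ (algebraMap k (MvPolynomial τ k)).injective).1 hF, map_zero]
    · obtain ⟨G, p, hG, hlt⟩ := densA_root h2 hd
      rw [hG, map_pow] at hF
      have h3 := ih _ (hn ▸ hlt) G rfl (pow_eq_zero_iff'.1 hF).1
      rw [hG, h3, zero_pow (pow_eq_zero_iff'.1 hF).2]

theorem densA_amalgam {k : Type v} {K₁ K₂ : Type u} (F : Type*) [Field k] [Field K₁] [Field K₂]
    [Field F] [Algebra k K₁] [Algebra k K₂] [Algebra k F] [Algebra F K₁] [Algebra F K₂]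
    [IsScalarTower k F K₁] [IsScalarTower k F K₂] : ∃ (Ω : Type u) (_ : Field Ω) (_ : Algebra k Ω)
      (_ : IsAlgClosed Ω) (f : K₁ →ₐ[k] Ω) (g : K₂ →ₐ[k] Ω),
      ∀ z : F, f (algebraMap F K₁ z) = g (algebraMap F K₂ z) := by
  obtain ⟨m, hm⟩ := Ideal.exists_maximal (TensorProduct F K₁ K₂)
  let := Ideal.Quotient.field m
  let π : TensorProduct F K₁ K₂ →ₐ[F] AlgebraicClosure (TensorProduct F K₁ K₂ ⧸ m) :=
    (IsScalarTower.toAlgHom F (TensorProduct F K₁ K₂ ⧸ m) _).comp (Ideal.Quotient.mkₐ F m)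
  refine ⟨AlgebraicClosure (TensorProduct F K₁ K₂ ⧸ m), inferInstance,
    ((algebraMap F _).comp (algebraMap k F)).toAlgebra, inferInstance, ?_⟩
  let : Algebra k (AlgebraicClosure (TensorProduct F K₁ K₂ ⧸ m)) :=
    ((algebraMap F _).comp (algebraMap k F)).toAlgebra
  let f := π.comp (Algebra.TensorProduct.includeLeft (S := F))
  let g := π.comp Algebra.TensorProduct.includeRight
  refine ⟨⟨f.toRingHom, fun a => ?_⟩, ⟨g.toRingHom, fun a => ?_⟩, fun z => ?_⟩
  · rw [IsScalarTower.algebraMap_apply k F K₁]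
    exact f.commutes _
  · rw [IsScalarTower.algebraMap_apply k F K₂]
    exact g.commutes _
  · exact (f.commutes z).trans (g.commutes z).symm

theorem amalgam {k : Type v} {K₁ K₂ : Type u} {ι : Type} [Field k] [Field K₁] [Field K₂]
    [Algebra k K₁] [Algebra k K₂] {x : ι → K₁} {y : ι → K₂} (hx : AlgebraicIndependent k x)
    (hy : AlgebraicIndependent k y) : ∃ (Ω : Type u) (_ : Field Ω) (_ : Algebra k Ω)
      (_ : IsAlgClosed Ω) (f : K₁ →ₐ[k] Ω) (g : K₂ →ₐ[k] Ω), ∀ i, f (x i) = g (y i) := by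
  let a : FractionRing (MvPolynomial ι k) →ₐ[k] K₁ := IsFractionRing.liftAlgHom (g := aeval x) hx
  let b : FractionRing (MvPolynomial ι k) →ₐ[k] K₂ := IsFractionRing.liftAlgHom (g := aeval y) hy
  let := a.toRingHom.toAlgebra
  let := b.toRingHom.toAlgebra
  have : IsScalarTower k (FractionRing (MvPolynomial ι k)) K₁ :=
    IsScalarTower.of_algebraMap_eq fun c => (a.commutes c).symm
  have : IsScalarTower k (FractionRing (MvPolynomial ι k)) K₂ :=
    IsScalarTower.of_algebraMap_eq fun c => (b.commutes c).symm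
  obtain ⟨Ω, i1, i2, i3, f, g, h⟩ :=
    densA_amalgam (k := k) (K₁ := K₁) (K₂ := K₂) (FractionRing (MvPolynomial ι k))
  refine ⟨Ω, i1, i2, i3, f, g, fun i => ?_⟩
  have ha : a (algebraMap (MvPolynomial ι k) _ (X i)) = x i := by
    simp [a, IsFractionRing.liftAlgHom_apply]
  have hb : b (algebraMap (MvPolynomial ι k) _ (X i)) = y i := by
    simp [b, IsFractionRing.liftAlgHom_apply]
  rw [← ha, ← hb]
  exact h _

end Pool.Agent.P.Bf04
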