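import Pool.Agent.P.MP_bf0464_al.H.EBas

/-! Vertices of alcoves. -/

namespace Pool.Agent.P.Bf04

open Matrix Module

attribute [local instance 100] LieRing.ofAssociativeRing

universe u v w

namespace RD

variable (D : RD)

theorem ealca_add (x y : D.Δ → ℝ) (β : D.ι) : D.dg (x + y) β = D.dg x β + D.dg y β := by
  simp only [dg, Pi.add_apply, mul_add, Finset.sum_add_distrib]

theorem ealca_cast (z : D.Δ → ℤ) (β : D.ι) :
    D.dg (fun i => (z i : ℝ)) β = (D.dg z β : ℤ) := by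
  simp only [dg, Int.cast_id, Int.cast_sum, Int.cast_mul]

theorem ealca_single (i : D.Δ) (c : ℝ) (β : D.ι) :
    D.dg (Pi.single i c) β = D.co β i * c := by
  simp only [dg, Pi.single_apply, mul_ite, mul_zero, Finset.sum_ite_eq', Finset.mem_univ, if_true]

theorem ealca_fin (d : D.Δ → ℝ) : (Set.range fun l => D.dw l d).Finite :=
  (Set.finite_range fun (g : D.ι → D.ι) (i : D.Δ) => D.dg d (g (D.s i))).subset
    (by rintro _ ⟨l, rfl⟩; exact ⟨D.rw l, rfl⟩)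

theorem ealca_sq (x : D.Δ → ℝ) (i : D.Δ) : x i ^ 2 ≤ D.nrm x := by
  rw [← D.dg_s x i]
  exact Finset.single_le_sum (f := fun β => D.dg x β ^ 2) (fun _ _ => sq_nonneg _)
    (Finset.mem_univ _)

theorem ealca_N (α : D.ι) : (0 : ℝ) < ∑ β, (D.pr β α : ℝ) ^ 2 :=
  Finset.sum_pos' (fun _ _ => sq_nonneg _) ⟨α, Finset.mem_univ _, by rw [pr_self]; norm_num⟩

theorem ealca_pair (x : D.Δ → ℝ) (α : D.ι) :
    2 * ∑ β, D.dg x β * D.pr β α = D.dg x α * ∑ β, (D.pr β α : ℝ) ^ 2 := by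
  have h := D.rootA_sum α fun β => D.dg x β * (D.pr β α : ℝ)
  have e : ∀ β, D.dg x (D.rf α β) * (D.pr (D.rf α β) α : ℝ) =
      D.dg x α * (D.pr β α : ℝ) ^ 2 - D.dg x β * D.pr β α := by
    intro β
    have h1 := D.pr_rf α β α
    have h2 := D.pr_neg_right (D.rf α β) α
    have h3 : D.pr (D.rf α β) α = -D.pr β α := by
      rw [← h1]
      exact (neg_eq_iff_eq_neg.2 h2).symm.trans rfl
    rw [D.root_dg_rf, h3]
    push_cast
    ring
  simp only [e, Finset.sum_sub_distrib, ← Finset.mul_sum] at h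
  linarith

theorem ealca_rd (α : D.ι) : ∃ l, ∀ x : D.Δ → ℝ, D.dw l x = D.rd α x := by
  obtain ⟨l, hl⟩ := D.exists_rw_rf α
  refine ⟨l, fun x => funext fun i => ?_⟩
  rw [← D.dg_s (D.rd α x) i, dg_rd, ← hl]
  rfl

theorem ealca_hyp {d : D.Δ → ℝ}
    (h : ∀ ν : D.Δ → ℝ, (∀ β, D.dg d β = 1 → D.dg ν β = 0) → ν = 0) (l : List D.Δ)
    (ν : D.Δ → ℝ) (hν : ∀ β, D.dg (D.dw l d) β = 1 → D.dg ν β = 0) : ν = 0 := by
  have h0 := h (D.dw l.reverse ν) fun β hβ => by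
    obtain ⟨γ, rfl⟩ := (D.rw_bij l).2 β
    rw [dg_dw, rw_reverse]
    exact hν γ (by rw [dg_dw, hβ])
  funext i
  have h1 := D.dg_dw l.reverse ν (D.rw l (D.s i))
  rw [rw_reverse, h0, dg_s] at h1
  rw [← h1]
  simp [dg]

theorem ealca_min (d : D.Δ → ℝ) : ∃ (l : List D.Δ) (z : D.Δ → ℤ) (x : D.Δ → ℝ),
    x = D.dw l d + (fun i => (z i : ℝ)) ∧ 0 ≤ x ∧ ∀ (l' : List D.Δ) (z' : D.Δ → ℤ),
      D.nrm x ≤ D.nrm (D.dw l' x + fun i => (z' i : ℝ)) := by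
  set O : Set (D.Δ → ℝ) := {x | ∃ (l : List D.Δ) (z : D.Δ → ℤ),
    x = D.dw l d + fun i => (z i : ℝ)} with hO
  have hst : ∀ x ∈ O, ∀ (l' : List D.Δ) (z' : D.Δ → ℤ),
      (D.dw l' x + fun i => (z' i : ℝ)) ∈ O := by
    rintro _ ⟨l, z, rfl⟩ l' z'
    refine ⟨l ++ l', D.dw l' z + z', funext fun i => ?_⟩
    rw [dw_append]
    simp only [Pi.add_apply, dw, Int.cast_add]
    rw [ealca_add, ealca_cast, add_assoc]
  obtain ⟨M, hM⟩ := exists_nat_ge (2 + 2 * D.nrm d)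
  have hfin : (O ∩ {x | D.nrm x ≤ D.nrm d}).Finite := by
    refine (((D.ealca_fin d).prod (Set.finite_Icc (fun _ : D.Δ => -(M : ℤ)) fun _ => M)).image
      fun p => p.1 + fun i => (p.2 i : ℝ)).subset ?_
    rintro _ ⟨⟨l, z, rfl⟩, hx⟩
    refine ⟨(D.dw l d, z), ⟨⟨l, rfl⟩, ?_⟩, rfl⟩
    have key : ∀ i, |(z i : ℝ)| ≤ M := fun i => by
      have h1 := (D.ealca_sq _ i).trans hx
      have h2 := (D.ealca_sq (D.dw l d) i).trans_eq (D.nrm_dw l d)
      simp only [Pi.add_apply] at h1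
      rw [abs_le]
      constructor <;> nlinarith [sq_nonneg (D.dw l d i - 1), sq_nonneg (D.dw l d i + 1),
        sq_nonneg (D.dw l d i + z i - 1), sq_nonneg (D.dw l d i + z i + 1)]
    exact ⟨fun i => by exact_mod_cast (abs_le.1 (key i)).1,
      fun i => by exact_mod_cast (abs_le.1 (key i)).2⟩
  have hd : d ∈ O := ⟨[], 0, by rw [dw_nil]; funext i; simp⟩
  obtain ⟨x, hx, hmin⟩ := Set.exists_min_image _ D.nrm hfin ⟨d, hd, le_refl (D.nrm d)⟩
  have hmin' : ∀ y ∈ O, D.nrm x ≤ D.nrm y := fun y hy => by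
    rcases le_total (D.nrm y) (D.nrm d) with h | h
    · exact hmin y ⟨hy, h⟩
    · exact le_trans hx.2 h
  obtain ⟨l₁, h₁⟩ := D.exists_dw x
  have h₂ : D.dw l₁ x ∈ O := by
    have := hst x hx.1 l₁ 0
    have e : (D.dw l₁ x + fun i => ((0 : D.Δ → ℤ) i : ℝ)) = D.dw l₁ x := by
      funext i; simp
    rwa [e] at this
  obtain ⟨l, z, e⟩ := id h₂
  exact ⟨l, z, _, e, h₁, fun l' z' => by rw [nrm_dw]; exact hmin' _ (hst _ h₂ l' z')⟩

theorem ealca_le {x : D.Δ → ℝ} (θ : D.ι) (hx : ∀ (l' : List D.Δ) (z' : D.Δ → ℤ),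
    D.nrm x ≤ D.nrm (D.dw l' x + fun i => (z' i : ℝ))) : D.dg x θ ≤ 1 := by
  obtain ⟨l, hl⟩ := D.ealca_rd θ
  have h := hx l fun i => D.pr (D.s i) θ
  have e : ∀ β, D.dg (D.dw l x + fun i => (D.pr (D.s i) θ : ℝ)) β ^ 2 =
      D.dg x β ^ 2 - 2 * (D.dg x θ - 1) * (D.dg x β * D.pr β θ) +
        (D.dg x θ - 1) ^ 2 * (D.pr β θ : ℝ) ^ 2 := by
    intro β
    have e1 : D.dg (fun i => D.pr (D.s i) θ) β = D.pr β θ := by
      rw [pr_eq_co]
      rfl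
    rw [ealca_add, ealca_cast, hl, dg_rd, root_dg_rf, e1]
    ring
  simp only [nrm, e, Finset.sum_add_distrib, Finset.sum_sub_distrib, ← Finset.mul_sum] at h
  have h1 := D.ealca_pair x θ
  have h2 := D.ealca_N θ
  by_contra hc
  have h3 := mul_pos (sub_pos.2 (not_le.1 hc)) h2
  have h4 : 2 * (D.dg x θ - 1) * ∑ β, D.dg x β * D.pr β θ =
      (D.dg x θ - 1) * (D.dg x θ * ∑ β, (D.pr β θ : ℝ) ^ 2) := by
    rw [← h1]
    ring
  nlinarith

theorem ealca_one {θ : D.ι} (hθ : ∀ β, D.co β ≤ D.co θ) (i : D.Δ) : 1 ≤ D.co θ i := by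
  simpa [co_s] using hθ (D.s i) i

theorem ealca_vertex {θ : D.ι} (hθ : ∀ β, D.co β ≤ D.co θ) {x : D.Δ → ℝ} (h0 : 0 ≤ x)
    (h1 : D.dg x θ ≤ 1)
    (h : ∀ ν : D.Δ → ℝ, (∀ β, (∃ n : ℤ, D.dg x β = n) → D.dg ν β = 0) → ν = 0) :
    x = 0 ∨ ∃ i₀, (∀ i ≠ i₀, x i = 0) ∧ D.co θ i₀ * x i₀ = 1 := by
  have hsub : ∀ β, D.dg x θ - D.dg x β = ∑ i, ((D.co θ i - D.co β i : ℤ) : ℝ) * x i := by
    intro β
    simp only [dg, Int.cast_sub, sub_mul, Finset.sum_sub_distrib]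
  have hnn : ∀ β i, 0 ≤ ((D.co θ i - D.co β i : ℤ) : ℝ) * x i := fun β i =>
    mul_nonneg (by exact_mod_cast sub_nonneg.2 (hθ β i)) (h0 i)
  have hle : ∀ β, D.dg x β ≤ D.dg x θ := fun β => by
    rw [← sub_nonneg, hsub]
    exact Finset.sum_nonneg fun i _ => hnn β i
  have h' : ∀ ν : D.Δ → ℝ, (∀ β, D.Pos β → D.dg x β = 0 ∨ D.dg x β = 1 → D.dg ν β = 0) →
      ν = 0 := by
    intro ν hν
    have hp : ∀ β, D.Pos β → (∃ n : ℤ, D.dg x β = n) → D.dg ν β = 0 := by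
      rintro β hβ ⟨n, hn⟩
      have a := D.dg_nonneg h0 hβ
      have b := (hle β).trans h1
      rw [hn] at a b
      have a' : 0 ≤ n := by exact_mod_cast a
      have b' : n ≤ 1 := by exact_mod_cast b
      refine hν β hβ ?_
      rw [hn]
      rcases (by omega : n = 0 ∨ n = 1) with rfl | rfl <;> simp
    refine h ν fun β hβ => ?_
    by_cases hb : D.Pos β
    · exact hp β hb hβ
    · obtain ⟨n, hn⟩ := hβ
      have := hp (D.neg β) ((D.pos_neg_iff β).2 hb) ⟨-n, by rw [dg_neg, hn]; simp⟩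
      rwa [dg_neg, neg_eq_zero] at this
  rcases h1.lt_or_eq with h2 | h2
  · exact Or.inl (h' x fun β _ hβ => hβ.resolve_right fun e => by linarith [hle β])
  right
  obtain ⟨i₀, hi⟩ : ∃ i, x i ≠ 0 := by
    by_contra! hc
    simp [dg, hc] at h2
  have hz : ∀ i ≠ i₀, x i = 0 := by
    intro i hne
    by_contra hx
    have e := h' (Pi.single i (D.co θ i₀ : ℝ) + Pi.single i₀ (-(D.co θ i : ℝ))) (by
      intro β hβ hb
      rw [ealca_add, ealca_single, ealca_single]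
      rcases hb with hb | hb
      · have hs := (Finset.sum_eq_zero_iff_of_nonneg (fun j _ =>
          mul_nonneg (Int.cast_nonneg (hβ j)) (h0 j))).1 hb
        rw [(mul_eq_zero.1 (hs i (Finset.mem_univ _))).resolve_right hx,
          (mul_eq_zero.1 (hs i₀ (Finset.mem_univ _))).resolve_right hi]
        simp
      · have hs := (Finset.sum_eq_zero_iff_of_nonneg (fun j _ => hnn β j)).1
          (by rw [← hsub, h2, hb, sub_self])
        have a := (mul_eq_zero.1 (hs i (Finset.mem_univ _))).resolve_right hx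
        have b := (mul_eq_zero.1 (hs i₀ (Finset.mem_univ _))).resolve_right hi
        push_cast at a b
        rw [← sub_eq_zero.1 a, ← sub_eq_zero.1 b]
        ring)
    have e2 := congrFun e i
    have e3 := D.ealca_one hθ i₀
    simp [hne] at e2
    omega
  refine ⟨i₀, hz, ?_⟩
  rw [← h2, dg, Finset.sum_eq_single i₀ (fun j _ hj => by rw [hz j hj, mul_zero]) (by simp)]

theorem ealca_int {x : D.Δ → ℝ} (h0 : 0 ≤ x)
    (h : ∀ ν : D.Δ → ℝ, (∀ β, D.dg x β = 1 → D.dg ν β = 0) → ν = 0) (i : D.Δ) : x i < 2 := by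
  by_contra! hc
  have e := h (Pi.single i 1) fun β hβ => by
    have hp : D.Pos β := D.pos_of_dg h0 (by rw [hβ]; exact one_pos)
    have h1 : (D.co β i : ℝ) * x i ≤ D.dg x β :=
      Finset.single_le_sum (f := fun j => (D.co β j : ℝ) * x j)
        (fun j _ => mul_nonneg (by exact_mod_cast hp j) (h0 j)) (Finset.mem_univ i)
    have h2 : (0 : ℝ) ≤ D.co β i := by exact_mod_cast hp i
    have h3 : (D.co β i : ℝ) < 1 := by nlinarith
    have h4 : D.co β i < 1 := by exact_mod_cast h3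
    have h5 : 0 ≤ D.co β i := hp i
    rw [ealca_single, (by omega : D.co β i = 0)]
    simp
  simpa using congrFun e i

/-- the integrality pattern of a vertex -/
def ealcaPat (θ : D.ι) (i₀ : D.Δ) (x : D.Δ → ℝ) : Prop :=
  (∀ i ≠ i₀, ∃ z : ℤ, x i = z) ∧ ∃ z : ℤ, x i₀ = z + 1 / (D.co θ i₀ : ℝ)

theorem ealca_pat {θ : D.ι} {i₀ : D.Δ} {x : D.Δ → ℝ} (h : D.ealcaPat θ i₀ x) (β : D.ι) :
    ∃ n : ℤ, D.dg x β = n + D.co β i₀ / (D.co θ i₀ : ℝ) := by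
  obtain ⟨h1, z₀, h2⟩ := h
  have : ∀ i, ∃ z : ℤ, x i = z + (Pi.single i₀ (1 / (D.co θ i₀ : ℝ)) : D.Δ → ℝ) i := by
    intro i
    by_cases hi : i = i₀
    · subst hi
      exact ⟨z₀, by rw [h2, Pi.single_eq_same]⟩
    · obtain ⟨z, hz⟩ := h1 i hi
      exact ⟨z, by rw [hz, Pi.single_eq_of_ne hi, add_zero]⟩
  choose z hz using this
  have e : x = (fun i => (z i : ℝ)) + Pi.single i₀ (1 / (D.co θ i₀ : ℝ)) := funext hz
  exact ⟨D.dg z β, by rw [e, ealca_add, ealca_cast, ealca_single, mul_one_div]⟩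

theorem ealca_max {θ : D.ι} (hθ : ∀ β, D.co β ≤ D.co θ) {i₀ : D.Δ} {d : D.Δ → ℝ}
    (h : D.ealcaPat θ i₀ d) : ∃ l, D.ealcaPat θ i₀ (D.dw l d) ∧ (∀ j ≠ i₀, 0 ≤ D.dw l d j) ∧
      D.dg (D.dw l d) θ ≤ 0 := by
  set r : D.Δ → ℝ := (fun _ => ((1 : ℤ) : ℝ)) + Pi.single i₀ (-(2 * D.ht θ : ℝ)) with hr
  obtain ⟨_, ⟨⟨l, rfl⟩, hl⟩, hmax⟩ := Set.exists_max_image _
    (fun x => ∑ β, D.dg x β * D.dg r β)
    ((D.ealca_fin d).inter_of_left {x | D.ealcaPat θ i₀ x}) ⟨d, ⟨[], D.dw_nil d⟩, h⟩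
  replace hl : D.ealcaPat θ i₀ (D.dw l d) := hl
  have key : ∀ α, (∃ n : ℤ, D.dg (D.dw l d) α = n) → 0 < D.dg r α → 0 ≤ D.dg (D.dw l d) α := by
    rintro α ⟨n, hn⟩ hα
    obtain ⟨l', hl'⟩ := D.ealca_rd α
    have h1 := hmax (D.rd α (D.dw l d)) ⟨⟨l ++ l', by
      show D.dw (l ++ l') d = _
      rw [dw_append, hl']⟩, fun i hi => by
        obtain ⟨z, hz⟩ := hl.1 i hi
        exact ⟨z - D.pr (D.s i) α * n, by rw [rd_apply, hn, hz]; push_cast; ring⟩, by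
        obtain ⟨z, hz⟩ := hl.2
        exact ⟨z - D.pr (D.s i₀) α * n, by rw [rd_apply, hn, hz]; push_cast; ring⟩⟩
    have e : ∀ β, D.dg (D.rd α (D.dw l d)) β * D.dg r β = D.dg (D.dw l d) β * D.dg r β -
        D.dg (D.dw l d) α * (D.dg r β * D.pr β α) := fun β => by
      rw [dg_rd, root_dg_rf]
      ring
    simp only [e, Finset.sum_sub_distrib, ← Finset.mul_sum] at h1
    have h2 := D.ealca_pair r α
    have h3 := mul_pos hα (D.ealca_N α)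
    by_contra! hc
    nlinarith
  have ha := D.ealca_one hθ i₀
  have ha' : (1 : ℝ) ≤ D.co θ i₀ := by exact_mod_cast ha
  refine ⟨l, hl, fun j hj => ?_, ?_⟩
  · rw [← D.dg_s (D.dw l d) j]
    refine key _ (by rw [dg_s]; exact hl.1 j hj) ?_
    rw [dg_s, hr]
    simp [hj]
  · obtain ⟨n, hn⟩ := D.ealca_pat hl θ
    have := key (D.neg θ) ⟨-(n + 1), by
      rw [dg_neg, hn, div_self (by linarith)]; push_cast; ring⟩ (by
      have e : D.dg (fun _ => (1 : ℤ)) θ = D.ht θ := by simp [dg, ht]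
      have h1 : 0 < D.ht θ := (D.pos_iff_ht θ).1 fun i => zero_le_one.trans (D.ealca_one hθ i)
      have h2 : (0 : ℝ) < D.ht θ := by exact_mod_cast h1
      rw [dg_neg, hr, ealca_add, ealca_cast, ealca_single, e]
      nlinarith)
    rwa [dg_neg, neg_nonneg] at this

theorem ealca_coef {θ : D.ι} (hθ : ∀ β, D.co β ≤ D.co θ) {i₀ : D.Δ} {x : D.Δ → ℝ}
    (h : D.ealcaPat θ i₀ x) (h0 : ∀ j ≠ i₀, 0 ≤ x j) (h1 : D.dg x θ ≤ 0) {β : D.ι}
    (hβ : D.dg x β = 1) : ∃ k : ℤ, D.co β i₀ = k * D.co θ i₀ ∧ (D.dg x θ ≤ -2 → k = 0) ∧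
      ∀ j ≠ i₀, 2 ≤ x j → D.co β j = k * D.co θ j := by
  have ha := D.ealca_one hθ i₀
  have ha' : (1 : ℝ) ≤ D.co θ i₀ := by exact_mod_cast ha
  obtain ⟨n, hn⟩ := D.ealca_pat h β
  have hk : D.co β i₀ = (1 - n) * D.co θ i₀ := by
    have : (D.co β i₀ : ℝ) = (1 - n) * D.co θ i₀ := by
      rw [hβ, ← sub_eq_iff_eq_add', eq_div_iff (by linarith)] at hn
      exact hn.symm
    exact_mod_cast this
  generalize 1 - n = k at hk
  have hup : ∀ j, D.co β j ≤ D.co θ j := hθ β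
  have hlo : ∀ j, -D.co β j ≤ D.co θ j := fun j => by simpa [co_neg] using hθ (D.neg β) j
  have hk1 : k ≤ 1 := by
    by_contra! hc
    nlinarith [hup i₀]
  have hk2 : -1 ≤ k := by
    by_contra! hc
    nlinarith [hlo i₀]
  have hsum : ∑ j, ((D.co β j - k * D.co θ j : ℤ) : ℝ) * x j + k * D.dg x θ = 1 := by
    rw [← hβ]
    simp only [dg, Finset.mul_sum, ← Finset.sum_add_distrib]
    exact Finset.sum_congr rfl fun j _ => by push_cast; ring
  have hz : D.co β i₀ - k * D.co θ i₀ = 0 := by omega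
  have hsign : (k ≤ 0 ∧ ∀ j, 0 ≤ D.co β j - k * D.co θ j) ∨
      (0 ≤ k ∧ ∀ j, D.co β j - k * D.co θ j ≤ 0) := by
    rcases (by omega : k = -1 ∨ k = 0 ∨ k = 1) with rfl | rfl | rfl
    · exact Or.inl ⟨by norm_num, fun j => by linarith [hlo j]⟩
    · rcases D.sign β with hs | hs
      · exact Or.inl ⟨le_rfl, fun j => by simpa using hs j⟩
      · exact Or.inr ⟨le_rfl, fun j => by simpa using hs j⟩
    · exact Or.inr ⟨by norm_num, fun j => by linarith [hup j]⟩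
  rcases hsign with ⟨s1, s2⟩ | ⟨s1, s2⟩
  · have t : ∀ j, 0 ≤ ((D.co β j - k * D.co θ j : ℤ) : ℝ) * x j := fun j => by
      by_cases hj : j = i₀
      · rw [hj, hz]; simp
      · exact mul_nonneg (by exact_mod_cast s2 j) (h0 j hj)
    have s1' : (k : ℝ) ≤ 0 := by exact_mod_cast s1
    have t1 := Finset.sum_nonneg (s := Finset.univ) fun j _ => t j
    have t2 : 0 ≤ (k : ℝ) * D.dg x θ := mul_nonneg_of_nonpos_of_nonpos s1' h1
    refine ⟨k, hk, fun h2 => ?_, fun j _ h2 => ?_⟩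
    · by_contra hc
      have : (k : ℝ) ≤ -1 := by exact_mod_cast (by omega : k ≤ -1)
      nlinarith
    · have t3 := Finset.single_le_sum (fun j _ => t j) (Finset.mem_univ j)
      by_contra hc
      have : (1 : ℝ) ≤ ((D.co β j - k * D.co θ j : ℤ) : ℝ) := by
        have := s2 j
        exact_mod_cast (by omega : 1 ≤ D.co β j - k * D.co θ j)
      nlinarith
  · have t : ∀ j, ((D.co β j - k * D.co θ j : ℤ) : ℝ) * x j ≤ 0 := fun j => by
      by_cases hj : j = i₀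
      · rw [hj, hz]; simp
      · exact mul_nonpos_of_nonpos_of_nonneg (by exact_mod_cast s2 j) (h0 j hj)
    have s1' : (0 : ℝ) ≤ k := by exact_mod_cast s1
    have t1 := Finset.sum_nonpos (s := Finset.univ) fun j _ => t j
    have t2 : (k : ℝ) * D.dg x θ ≤ 0 := mul_nonpos_of_nonneg_of_nonpos s1' h1
    linarith

theorem ealca_lab {θ : D.ι} (hθ : ∀ β, D.co β ≤ D.co θ) {i₀ : D.Δ} {x : D.Δ → ℝ}
    (h : D.ealcaPat θ i₀ x) (h0 : ∀ j ≠ i₀, 0 ≤ x j) (h1 : D.dg x θ ≤ 0)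
    (hν : ∀ ν : D.Δ → ℝ, (∀ β, D.dg x β = 1 → D.dg ν β = 0) → ν = 0) :
    -2 < D.dg x θ ∧ ∀ j ≠ i₀, x j < 2 := by
  have ha := D.ealca_one hθ i₀
  refine ⟨?_, fun j hj => ?_⟩
  · by_contra! hc
    have e := hν (Pi.single i₀ 1) fun β hβ => by
      obtain ⟨k, a, b, -⟩ := D.ealca_coef hθ h h0 h1 hβ
      rw [ealca_single, a, b hc]
      simp
    simpa using congrFun e i₀
  · by_contra! hc
    have e := hν (Pi.single j (D.co θ i₀ : ℝ) + Pi.single i₀ (-(D.co θ j : ℝ))) fun β hβ => by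
      obtain ⟨k, a, -, b⟩ := D.ealca_coef hθ h h0 h1 hβ
      rw [ealca_add, ealca_single, ealca_single, a, b j hj hc]
      push_cast
      ring
    have e2 := congrFun e j
    simp [hj] at e2
    omega

end RD

namespace CD

variable {D : CD}

/-- the degree functions that have to be considered -/
def Cand (D : CD) (θ : D.ι) (a : ℕ) (d : D.Δ → ℤ) : Prop :=
  (a = 1 ∧ ∀ i, d i = 0 ∨ d i = 1) ∨ ∃ i₀, (a : ℤ) = D.co θ i₀ ∧ 2 ≤ a ∧
    (∀ i ≠ i₀, d i = 0 ∨ d i = a) ∧ (D.dg d θ = 0 ∨ D.dg d θ = -a) ∧ (a : ℤ) ∣ d i₀ - 1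

/-- vertices of alcoves -/
theorem exists_vertex (θ : D.ι) (hθ : ∀ β, D.co β ≤ D.co θ) {d : D.Δ → ℝ}
    (h : ∀ ν : D.Δ → ℝ, (∀ β, D.dg d β = 1 → D.dg ν β = 0) → ν = 0) :
    ∃ l : List D.Δ, (∀ i, ∃ z : ℤ, D.dw l d i = z) ∨ ∃ i₀, 2 ≤ D.co θ i₀ ∧
      (∀ i ≠ i₀, ∃ z : ℤ, D.dw l d i = z) ∧ ∃ z : ℤ, D.dw l d i₀ = z + 1 / (D.co θ i₀ : ℝ) := by
  obtain ⟨l, z, x, hx, h0, hmin⟩ := D.ealca_min d
  have hd : ∀ i, D.dw l d i = x i - z i := fun i => by rw [hx]; simp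
  refine ⟨l, ?_⟩
  rcases D.ealca_vertex hθ h0 (D.ealca_le θ hmin) (fun ν hν => D.ealca_hyp h l ν fun β hβ =>
    hν β ⟨1 + D.dg z β, by rw [hx, RD.ealca_add, RD.ealca_cast, hβ]; push_cast; rfl⟩) with
    e | ⟨i₀, e1, e2⟩
  · exact Or.inl fun i => ⟨-z i, by rw [hd, e]; simp⟩
  have ha := D.ealca_one hθ i₀
  have ha' : (1 : ℝ) ≤ D.co θ i₀ := by exact_mod_cast ha
  have e3 : ∀ i ≠ i₀, ∃ w : ℤ, D.dw l d i = w := fun i hi => ⟨-z i, by rw [hd, e1 i hi]; simp⟩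
  rcases ha.eq_or_lt with h1 | h1
  · refine Or.inl fun i => ?_
    by_cases hi : i = i₀
    · rw [← h1, Int.cast_one, one_mul] at e2
      exact ⟨1 - z i, by rw [hd, hi, e2]; simp⟩
    · exact e3 i hi
  · refine Or.inr ⟨i₀, h1, e3, -z i₀, ?_⟩
    rw [hd, eq_one_div_of_mul_eq_one_right e2]
    push_cast
    ring

theorem exists_cand (θ : D.ι) (hθ : ∀ β, D.co β ≤ D.co θ) {d : D.Δ → ℝ}
    (h : ∀ ν : D.Δ → ℝ, (∀ β, D.dg d β = 1 → D.dg ν β = 0) → ν = 0) :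
    ∃ (l : List D.Δ) (a : ℕ) (d' : D.Δ → ℤ), D.Cand θ a d' ∧ ∀ i, a * D.dw l d i = d' i := by
  have two : ∀ {y : ℝ} {z : ℤ}, y = z → 0 ≤ y → y < 2 → z = 0 ∨ z = 1 := by
    rintro _ z rfl a b
    have a' : 0 ≤ z := by exact_mod_cast a
    have b' : z < 2 := by exact_mod_cast b
    omega
  obtain ⟨l, h1 | ⟨i₀, ha, h1⟩⟩ := exists_vertex θ hθ h
  · choose z hz using h1
    obtain ⟨l', hl'⟩ := D.exists_dw (D.dw l d)
    have e : ∀ i, D.dw l' (D.dw l d) i = (D.dw l' z i : ℤ) := fun i => by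
      rw [funext hz]
      exact D.ealca_cast z _
    refine ⟨l ++ l', 1, D.dw l' z, Or.inl ⟨rfl, fun i => two (e i) (hl' i) ?_⟩, fun i => ?_⟩
    · exact D.ealca_int hl' (D.ealca_hyp (D.ealca_hyp h l) l') i
    · rw [RD.dw_append, e, Nat.cast_one, one_mul]
  · obtain ⟨l', p, q, r⟩ := D.ealca_max hθ (i₀ := i₀) h1
    obtain ⟨s, t⟩ := D.ealca_lab hθ p q r (D.ealca_hyp (D.ealca_hyp h l) l')
    rw [← RD.dw_append] at p q r s t
    obtain ⟨a, ea⟩ := Int.eq_ofNat_of_zero_le (zero_le_two.trans ha)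
    have ea' : (D.co θ i₀ : ℝ) = a := by rw [ea, Int.cast_natCast]
    have a2 : 2 ≤ a := by omega
    have a0 : (a : ℝ) ≠ 0 := by positivity
    have hex : ∀ i, ∃ w : ℤ, a * D.dw (l ++ l') d i = w ∧ (i ≠ i₀ → w = 0 ∨ w = a) ∧
        (i = i₀ → (a : ℤ) ∣ w - 1) := by
      intro i
      by_cases hi : i = i₀
      · obtain ⟨z, hz⟩ := p.2
        refine ⟨a * z + 1, ?_, fun h => absurd hi h, fun _ => by simp⟩
        rw [hi, hz, ea', mul_add, mul_one_div_cancel a0]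
        push_cast
        rfl
      · obtain ⟨z, hz⟩ := p.1 i hi
        refine ⟨a * z, by rw [hz]; push_cast; rfl, fun _ => ?_, fun h => absurd h hi⟩
        rcases two hz (q i hi) (t i hi) with rfl | rfl <;> simp
    choose d' e1 e2 e3 using hex
    refine ⟨l ++ l', a, d', Or.inr ⟨i₀, ea.symm, a2, e2, ?_, e3 i₀ rfl⟩, e1⟩
    obtain ⟨n, hn⟩ := D.ealca_pat p θ
    have e4 := D.dg_cast e1 θ
    rw [ea', div_self a0] at hn
    have e5 : -D.dg (D.dw (l ++ l') d) θ = (-(n + 1) : ℤ) := by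
      rw [hn]
      push_cast
      ring
    rcases two e5 (by linarith) (by linarith) with e6 | e6 <;> rw [e6, neg_eq_iff_eq_neg] at e5 <;>
      rw [e5] at e4
    · left
      exact_mod_cast (show ((D.dg d' θ : ℤ) : ℝ) = 0 by rw [← e4]; simp)
    · right
      exact_mod_cast (show ((D.dg d' θ : ℤ) : ℝ) = -a by rw [← e4]; simp)

end CD

end Pool.Agent.P.Bf04
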