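import Pool.Agent.P.MP_bf0464_al.H.ESur
import Pool.Agent.P.MP_bf0464_al.H.EAlcA

/-! Reduction to Levi subalgebras and to finitely many degree functions. -/

namespace Pool.Agent.P.Bf04

open Matrix Module

attribute [local instance 100] LieRing.ofAssociativeRing

universe u v w

namespace CD

variable {D : CD} {K : Type u} [Field K]

theorem sav_levi {p : ℕ} [Fact p.Prime] [CharP K p] [IsAlgClosed K] (ih : IH.{u} D p)
    {ν d : D.Δ → ℝ} (hν : ν ≠ 0) {χ : D.B → K}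
    (h : D.Supp {β | D.dg ν β = 0 ∧ 0 < D.dg d β} χ) : D.Sav p χ 1 := by
  classical
  have h1 : ∀ β, ∃ m : ℝ, ∀ M, m ≤ M → D.dg ν β < 0 → M * D.dg ν β + D.dg d β < 0 := by
    intro β
    refine ⟨D.dg d β / (-D.dg ν β) + 1, fun M hM hβ => ?_⟩
    have h2 : D.dg d β / (-D.dg ν β) < M := by linarith
    rw [div_lt_iff₀ (by linarith)] at h2
    linarith
  choose m hm using h1
  obtain ⟨M, hM⟩ := Finite.exists_le m
  have hf : ∀ β, D.dg (fun i => M * ν i + d i) β = M * D.dg ν β + D.dg d β := by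
    intro β
    simp only [RD.dg, Finset.mul_sum, ← Finset.sum_add_distrib]
    exact Finset.sum_congr rfl fun i _ => by ring
  obtain ⟨l, hl⟩ := D.exists_dw fun i => M * ν i + d i
  have h0 : ∀ i, 0 ≤ D.dw l ν i := by
    intro i
    by_contra hi
    have h2 := hm _ M (hM _) (not_le.1 hi)
    rw [← hf] at h2
    exact absurd (hl i) (not_le.2 h2)
  have hJ : (Finset.univ.filter fun i => D.dw l ν i = 0) ≠ Finset.univ := by
    intro hJ
    have h2 : D.dw l ν = 0 := by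
      funext i
      have h3 : i ∈ Finset.univ.filter fun i => D.dw l ν i = 0 := by
        rw [hJ]; exact Finset.mem_univ i
      exact (Finset.mem_filter.1 h3).2
    apply hν
    funext i
    have h3 := D.dg_dw l ν (D.rw l.reverse (D.s i))
    have h4 := D.rw_reverse l.reverse (D.s i)
    rw [List.reverse_reverse] at h4
    rw [h4, D.dg_s, h2] at h3
    rw [← h3]
    simp [RD.dg]
  have hs := supp_nW h l
  have hp : ∀ β ∈ {β | D.rw l β ∈ {β | D.dg ν β = 0 ∧ 0 < D.dg d β}}, D.Pos β := by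
    intro β hβ
    refine D.pos_of_dg hl ?_
    rw [D.dg_dw, hf, hβ.1, mul_zero, zero_add]
    exact hβ.2
  have hst := hs.std hp
  refine Sav.move (D.nW_mem l) hst (Sav.of_levi _ hst (fun β hβ i hi => ?_)
    (ih _ hJ K _ (D.std_levi _ hst)))
  have h2 := hs.2 (D.neg β) (by rw [RD.cd, D.neg_neg]; exact hβ)
  have h3 := hp _ h2
  have h4 : D.dg (D.dw l ν) (D.neg β) = 0 := by rw [D.dg_dw]; exact h2.1
  rw [RD.dg, Finset.sum_eq_zero_iff_of_nonneg fun j _ =>
    mul_nonneg (by exact_mod_cast h3 j) (h0 j)] at h4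
  have h5 : D.dw l ν i ≠ 0 := fun h5 => hi (Finset.mem_filter.2 ⟨Finset.mem_univ i, h5⟩)
  have h6 : D.co (D.neg β) i = 0 := by
    exact_mod_cast (mul_eq_zero.1 (h4 i (Finset.mem_univ i))).resolve_right h5
  rw [D.co_neg, Pi.neg_apply] at h6
  exact neg_eq_zero.1 h6

/-- what has to be shown for a degree function -/
def Done (D : CD) (p : ℕ) (a : ℕ) (d : D.Δ → ℤ) : Prop :=
  ∀ (K : Type u) [Field K] [IsAlgClosed K] [CharP K p] (χ : D.B → K),
    D.Supp {β | D.dg d β = a} χ → D.Sur (a : ℤ) d χ → D.Sav p χ 1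

theorem hum_of_cand {p : ℕ} [Fact p.Prime] (hK : D.KN p) (ih : IH.{u} D p) (θ : D.ι)
    (hθ : ∀ β, D.co β ≤ D.co θ)
    (h : ∀ a d, D.Cand θ a d → ∃ l, 0 ≤ D.dw l d ∧ Done.{u} D p a (D.dw l d)) : Hum.{u} D p := by
  intro K _ _ _ χ hχ
  obtain ⟨F, _, _, φ, A, hA, d, hd, ho⟩ := exists_opt hχ
  have : CharP F p := charP_of_injective_ringHom φ.injective p
  refine Sav.bc φ (Sav.move hA
    (ho.lev.std fun β hβ => D.pos_of_dg hd (lt_of_lt_of_le one_pos hβ)) ?_)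
  generalize (φ ∘ χ) ᵥ* A = χ' at ho
  have hsp := RD.supp_pure (one_ne_zero : (1 : ℝ) ≠ 0) d χ'
  have hs := (ho.pure hd).sur hK hd hsp
  obtain ⟨A', hA', he⟩ := kill one_pos ho.lev fun j hj => hs j (by linarith)
  refine Sav.move hA' ?_ ?_
  · rw [he]
    exact hsp.std fun β hβ => D.pos_of_dg hd (by rw [hβ.out]; exact one_pos)
  rw [he]
  generalize D.pure 1 d χ' = η at hsp hs
  by_cases h0 : ∃ ν : D.Δ → ℝ, ν ≠ 0 ∧ ∀ β, D.dg d β = 1 → D.dg ν β = 0
  · obtain ⟨ν, hν, h1⟩ := h0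
    exact sav_levi ih hν (d := d)
      (hsp.mono fun β hβ => ⟨h1 β hβ, by rw [hβ.out]; exact one_pos⟩)
  obtain ⟨l, a, d', hc, hd'⟩ := exists_cand θ hθ (d := d) fun ν hν => by
    by_contra h1
    exact h0 ⟨ν, h1, hν⟩
  obtain ⟨l', hl', hD⟩ := h a d' hc
  have ha : 0 < a := by
    rcases hc with ⟨h1, -⟩ | ⟨i, -, h1, -⟩ <;> omega
  have h2 : D.Supp {β | D.dg (D.dw l' d') β = a} (η ᵥ* D.nW F l ᵥ* D.nW F l') := by
    refine (supp_nW (supp_nW hsp l) l').mono fun β hβ => ?_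
    have h3 := D.dg_cast hd' (D.rw l' β)
    have h4 : D.dg d (D.rw l (D.rw l' β)) = 1 := hβ
    rw [D.dg_dw, h4, mul_one] at h3
    change D.dg (D.dw l' d') β = a
    rw [D.dg_dw]
    exact_mod_cast h3.symm
  have h3 := hD F _ h2 ((Sur.cast ha hd' (hs.nW l)).nW l')
  have h4 := h2.std fun β hβ => D.pos_of_dg hl' (by rw [hβ.out]; exact_mod_cast ha)
  rw [vecMul_vecMul] at h3 h4
  exact Sav.move (mul_mem (D.nW_mem l) (D.nW_mem l')) h4 h3

end CD

end Pool.Agent.P.Bf04
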