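import Pool.Agent.P.MP_bf0464_al.H.EBasA

/-! Supports and degrees under the group. -/

namespace Pool.Agent.P.Bf04

open Matrix Module

attribute [local instance 100] LieRing.ofAssociativeRing

universe u v w

namespace CD

variable {D : CD} {R : Type v} [CommRing R] {P : Set D.ι} {η : D.B → R}

theorem cd_nW (l : List D.Δ) (β : D.ι) : ∃ ε : ℤ, ε * ε = 1 ∧
    ∀ χ : D.B → R, D.cd (χ ᵥ* D.nW R l) β = ε * D.cd χ (D.rw l β) := by
  obtain ⟨ε, h1, h2⟩ := D.vecMul_nW_inr (R := R) l (D.neg β)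
  refine ⟨ε, h1, fun χ => ?_⟩
  rw [RD.cd, RD.cd, h2, D.root_rw_neg]

theorem nW_append (l l' : List D.Δ) : D.nW R (l ++ l') = D.nW R l * D.nW R l' := by
  simp only [nW, List.map_append, List.prod_append]

theorem ebas_nW_inl (h : ∀ a, η (.inl a) = 0) (l : List D.Δ) (a : D.σ) :
    (η ᵥ* D.nW R l) (.inl a) = 0 := by
  induction l generalizing η with
  | nil => rw [nW_nil, vecMul_one, h]
  | cons i l ih =>
    rw [nW_cons, ← vecMul_vecMul]
    refine ih fun b => ?_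
    rw [vecMul_nM_inl]
    simp [h]

theorem supp_nW (h : D.Supp P η) (l : List D.Δ) :
    D.Supp {β | D.rw l β ∈ P} (η ᵥ* D.nW R l) := by
  refine ⟨ebas_nW_inl h.1 l, fun β hβ => ?_⟩
  obtain ⟨ε, -, h2⟩ := cd_nW (R := R) l β
  rw [h2] at hβ
  exact h.2 _ (right_ne_zero_of_mul hβ)

theorem cd_tM (η : D.B → R) (u : D.Δ → Rˣ) (β : D.ι) :
    D.cd (η ᵥ* D.tM u) β = D.cd η β * ((D.chr u (D.co β))⁻¹ : Rˣ) := by
  rw [RD.cd, RD.cd, RD.vecMul_tM, ← RD.chr_neg, ← RD.co_neg]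
  rfl

theorem supp_tM (h : D.Supp P η) (u : D.Δ → Rˣ) : D.Supp P (η ᵥ* D.tM u) := by
  refine ⟨fun a => by rw [RD.vecMul_tM, h.1, zero_mul], fun β hβ => ?_⟩
  rw [cd_tM] at hβ
  exact h.2 _ (left_ne_zero_of_mul hβ)

theorem ebas_sum_neg {M : Type*} [AddCommMonoid M] (f : D.ι → M) :
    ∑ γ, f (D.neg γ) = ∑ γ, f γ :=
  Equiv.sum_comp (Function.Involutive.toPerm D.neg D.neg_neg) f

theorem ebas_coad_bv (η : D.B → R) (i b : D.B) :
    D.coad η (D.bv R i) b = ∑ k, η k * (D.cc i b k : R) := by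
  simp only [coad, dotProduct, lie_bv_apply]

theorem ebas_dot_bv (η : D.B → R) (b : D.B) : η ⬝ᵥ D.bv R b = η b := by
  simp [bv]

/-- the coordinates of the coadjoint action of a root vector -/
theorem cd_coad_e (h : ∀ a, η (.inl a) = 0) (δ β : D.ι) :
    D.cd (D.coad η (D.e R δ)) β
      = ∑ γ, if D.co γ + D.co δ = D.co β then (D.N δ (D.neg β) : R) * D.cd η γ else 0 := by
  rw [RD.cd, ebas_coad_bv, Fintype.sum_sum_type]
  simp only [h, zero_mul, Finset.sum_const_zero, zero_add]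
  rw [← ebas_sum_neg]
  refine Finset.sum_congr rfl fun γ _ => ?_
  have e : D.co δ + D.co (D.neg β) = D.co (D.neg γ) ↔ D.co γ + D.co δ = D.co β := by
    rw [D.co_neg, D.co_neg]
    constructor
    · intro h1; linear_combination h1
    · intro h1; linear_combination h1
  simp only [RD.c, RD.cd, e]
  split_ifs
  · ring
  · simp

theorem coad_e_inl (η : D.B → R) (δ : D.ι) (a : D.σ) :
    D.coad η (D.e R δ) (.inl a) = -(D.rt δ a : R) * D.cd η (D.neg δ) := by
  rw [coad, ← lie_skew, RD.cd, D.neg_neg, dotProduct_neg, D.lie_h_e, dotProduct_smul, ebas_dot_bv, smul_eq_mul, neg_mul]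

theorem cd_coad_hv (η : D.B → R) (y : D.σ → R) (β : D.ι) :
    D.cd (D.coad η (D.hv y)) β = -(∑ a, (D.rt β a : R) * y a) * D.cd η β := by
  rw [RD.cd, RD.cd, coad, D.lie_hv_e, dotProduct_smul, ebas_dot_bv, smul_eq_mul, D.rt_neg]
  simp

theorem coad_hv_inl (η : D.B → R) (y : D.σ → R) (a : D.σ) : D.coad η (D.hv y) (.inl a) = 0 := by
  have e : D.bv R (.inl a) = D.hv (Pi.single a 1) := (D.hv_single a).symm
  rw [coad, e, D.lie_hv_hv, dotProduct_zero]

theorem coad_add (η : D.B → R) (y y' : D.g R) : D.coad η (y + y') = D.coad η y + D.coad η y' := by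
  funext b
  simp only [coad, add_lie, dotProduct_add, Pi.add_apply]

theorem coad_smul (η : D.B → R) (c : R) (y : D.g R) : D.coad η (c • y) = c • D.coad η y := by
  funext b
  simp only [coad, smul_lie, dotProduct_smul, Pi.smul_apply]

theorem coad_sum (η : D.B → R) (y : D.g R) : D.coad η y = ∑ b, y b • D.coad η (D.bv R b) := by
  funext k
  conv_lhs => rw [D.eq_sum y]
  simp only [coad, sum_lie, smul_lie, dotProduct_sum, dotProduct_smul, Finset.sum_apply,
    Pi.smul_apply]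

theorem coad_skew (η : D.B → R) (x y : D.g R) : D.coad η y ⬝ᵥ x = -(D.coad η x ⬝ᵥ y) := by
  rw [coad_dot, coad_dot, ← lie_skew, dotProduct_neg]

theorem coad_wt {χ : D.B → R} {i b : D.B} (h : D.coad χ (D.bv R i) b ≠ 0) :
    ∃ k, χ k ≠ 0 ∧ D.wt k = D.wt i + D.wt b := by
  rw [ebas_coad_bv] at h
  obtain ⟨k, -, hk⟩ := Finset.exists_ne_zero_of_sum_ne_zero h
  refine ⟨k, left_ne_zero_of_mul hk, D.cc_wt fun e => right_ne_zero_of_mul hk ?_⟩
  rw [e, Int.cast_zero]

theorem ebas_dp_inl (δ β : D.ι) {j : ℕ} (hj : 2 ≤ j) (a : D.σ) :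
    D.dp δ j (.inl a) (.inr (D.neg β)) = 0 := by
  by_contra h
  have h1 : (0 : D.Δ → ℤ) = D.co (D.neg β) + (j : ℤ) • D.co δ := D.dp_hom δ j _ _ h
  rw [D.co_neg] at h1
  have h2 : D.co β = (j : ℤ) • D.co δ := by linear_combination h1
  have := D.grp1A_mul_ne h2
  omega

/-- the coordinates after a root element -/
theorem cd_xM (δ β : D.ι) : ∃ c : D.ι → ℕ → ℤ,
    (∀ γ j, c γ j ≠ 0 → 2 ≤ j ∧ D.co γ + (j : ℤ) • D.co δ = D.co β) ∧ ∀ (η : D.B → R) (t : R),
      D.cd (η ᵥ* D.xM δ t) β = D.cd η β + t * D.cd (D.coad η (D.e R δ)) β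
        + ∑ γ, ∑ j ∈ Finset.range 4, t ^ j * c γ j * D.cd η γ := by
  refine ⟨fun γ j => if 2 ≤ j then D.dp δ j (.inr (D.neg γ)) (.inr (D.neg β)) else 0, ?_, ?_⟩
  · intro γ j h
    by_cases hj : 2 ≤ j
    · simp only [if_pos hj] at h
      have h1 : D.co (D.neg γ) = D.co (D.neg β) + (j : ℤ) • D.co δ := D.dp_hom δ j _ _ h
      rw [D.co_neg, D.co_neg] at h1
      exact ⟨hj, by linear_combination -h1⟩
    · exact absurd (if_neg hj) h
  · intro η t
    have e0 : ∑ k, η k * ((D.dp δ 0 k (.inr (D.neg β)) : ℤ) : R) = D.cd η β := by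
      simp [D.dp_zero, Matrix.one_apply, RD.cd]
    have e1 : ∑ k, η k * ((D.dp δ 1 k (.inr (D.neg β)) : ℤ) : R)
        = D.cd (D.coad η (D.e R δ)) β := by
      rw [RD.cd, ebas_coad_bv, D.dp_one]
      rfl
    have e2 : ∀ j, 2 ≤ j → ∑ k, η k * ((D.dp δ j k (.inr (D.neg β)) : ℤ) : R)
        = ∑ γ, ((D.dp δ j (.inr (D.neg γ)) (.inr (D.neg β)) : ℤ) : R) * D.cd η γ := by
      intro j hj
      rw [Fintype.sum_sum_type, ← ebas_sum_neg]
      simp only [ebas_dp_inl δ β hj, Int.cast_zero, mul_zero, Finset.sum_const_zero, zero_add]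
      exact Finset.sum_congr rfl fun γ _ => mul_comm _ _
    have e3 : D.cd (η ᵥ* D.xM δ t) β = ∑ j ∈ Finset.range 4,
        t ^ j * ∑ k, η k * ((D.dp δ j k (.inr (D.neg β)) : ℤ) : R) := by
      simp only [RD.cd, Matrix.vecMul, dotProduct, xM_apply, Finset.mul_sum]
      rw [Finset.sum_comm]
      exact Finset.sum_congr rfl fun j _ => Finset.sum_congr rfl fun k _ => by ring
    rw [e3, Finset.sum_comm]
    simp only [Finset.sum_range_succ, Finset.sum_range_zero]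
    rw [e0, e1, e2 2 le_rfl, e2 3 (by norm_num)]
    simp only [Finset.mul_sum, mul_assoc]
    norm_num
    ring

theorem supp_xM (h : D.Supp P η) {δ : D.ι} (hδ : D.neg δ ∉ P)
    (hP : ∀ β ∈ P, ∀ γ, D.co β + D.co δ = D.co γ → γ ∈ P) (t : R) : D.Supp P (η ᵥ* D.xM δ t) := by
  refine ⟨fun a => ?_, fun β hβ => ?_⟩
  · have h0 : η (.inr δ) = 0 := by
      by_contra h1
      refine hδ (h.2 _ ?_)
      rwa [RD.cd, D.neg_neg]
    have e : D.bv R (.inl a) = D.hv (Pi.single a 1) := (D.hv_single a).symm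
    rw [grp2_vecMul, e, xM_hv, dotProduct_sub, dotProduct_smul, D.hv_single, ebas_dot_bv, ebas_dot_bv, h.1, h0,
      smul_zero, sub_zero]
  · rw [RD.cd, Matrix.vecMul, dotProduct] at hβ
    obtain ⟨k, -, hk⟩ := Finset.exists_ne_zero_of_sum_ne_zero hβ
    obtain ⟨n, hn⟩ := D.xM_wt δ t (right_ne_zero_of_mul hk)
    rcases k with a | γ
    · exact absurd (h.1 a) (left_ne_zero_of_mul hk)
    have hγ : D.neg γ ∈ P := h.2 _ (by rw [RD.cd, D.neg_neg]; exact left_ne_zero_of_mul hk)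
    have hn' : D.co γ = D.co (D.neg β) + (n : ℤ) • D.co δ := hn
    rw [D.co_neg] at hn'
    have hne : D.neg γ ≠ D.neg δ := fun e => hδ (e ▸ hγ)
    have key : ∀ (m : ℕ) (ε : D.ι), D.co ε = D.co (D.neg γ) + (m : ℤ) • D.co δ → ε ∈ P := by
      intro m
      induction m with
      | zero =>
        intro ε hε
        rw [Nat.cast_zero, zero_smul, add_zero] at hε
        rwa [D.co_inj hε]
      | succ m ih =>
        intro ε hε
        obtain ⟨ε', h'⟩ := D.string hne hε (Nat.le_succ m)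
        refine hP ε' (ih ε' h') ε ?_
        rw [hε, h', Nat.cast_succ, add_smul, one_smul, add_assoc]
    refine key n β ?_
    rw [D.co_neg]
    linear_combination hn'

theorem ebas_dB {S : Type w} [CommRing S] (d : D.Δ → S) {k j : D.B} {α : D.ι} {n : ℕ}
    (h : D.wt k = D.wt j + (n : ℤ) • D.co α) : D.dB d k = D.dB d j + n * D.dg d α := by
  simp only [RD.dB, RD.dg, h, Pi.add_apply, Pi.smul_apply, smul_eq_mul, Int.cast_add, Int.cast_mul,
    Int.cast_natCast, add_mul, Finset.sum_add_distrib, Finset.mul_sum, mul_assoc]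

theorem ebas_GS {S : Set D.ι} {r : D.B → D.B → Prop} (h0 : ∀ k, r k k)
    (h1 : ∀ k l j, ∀ α ∈ S, ∀ n : ℕ, r k l → D.wt l = D.wt j + (n : ℤ) • D.co α → r k j)
    {A : Matrix D.B D.B R} (hA : A ∈ D.GS R S) : ∀ k j, A k j ≠ 0 → r k j := by
  refine GS_induction (P := fun A => ∀ k j, A k j ≠ 0 → r k j) ?_ ?_ ?_ hA
  · intro k j h
    by_cases e : k = j
    · exact e ▸ h0 k
    · exact absurd (Matrix.one_apply_ne e) h
  · intro A _ ih α hα t k j h
    rw [Matrix.mul_apply] at h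
    obtain ⟨l, -, hl⟩ := Finset.exists_ne_zero_of_sum_ne_zero h
    obtain ⟨n, hn⟩ := D.xM_wt α t (right_ne_zero_of_mul hl)
    exact h1 k l j α hα n (ih k l (left_ne_zero_of_mul hl)) hn
  · intro A _ ih u k j h
    rw [RD.tM, Matrix.mul_diagonal] at h
    exact ih k j (left_ne_zero_of_mul h)

/-- elements of the parabolic subgroup respect the filtration -/
theorem GS_dB {S : Type w} [CommRing S] [LinearOrder S] [IsStrictOrderedRing S] (d : D.Δ → S)
    {A : Matrix D.B D.B R} (hA : A ∈ D.GS R {β | 0 ≤ D.dg d β}) {k j : D.B} (h : A k j ≠ 0) :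
    D.dB d j ≤ D.dB d k := by
  refine ebas_GS (r := fun k j => D.dB d j ≤ D.dB d k) (fun _ => le_rfl) ?_ hA k j h
  intro k l j α hα n h1 h2
  refine le_trans ?_ h1
  rw [ebas_dB d h2]
  exact le_add_of_nonneg_right (mul_nonneg (Nat.cast_nonneg n) hα)

theorem GS_dB_eq {S : Type w} [CommRing S] (d : D.Δ → S)
    {A : Matrix D.B D.B R} (hA : A ∈ D.GS R {β | D.dg d β = 0}) {k j : D.B} (h : A k j ≠ 0) :
    D.dB d k = D.dB d j := by
  refine ebas_GS (r := fun k j => D.dB d k = D.dB d j) (fun _ => rfl) ?_ hA k j h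
  intro k l j α hα n h1 h2
  have h3 : D.dg d α = 0 := hα
  rw [h1, ebas_dB d h2, h3, mul_zero, add_zero]

theorem nW_dB {S : Type w} [CommRing S] (d : D.Δ → S) (l : List D.Δ) {k j : D.B}
    (h : D.nW R l k j ≠ 0) : D.dB d k = D.dB (D.dw l d) j := by
  have e : D.nW R l k j = (D.bv R k ᵥ* D.nW R l) j := by simp [bv]
  rw [e] at h
  rcases j with a | β
  · rcases k with b | γ
    · rw [RD.dB_inl, RD.dB_inl]
    · exact absurd (ebas_nW_inl (fun b => by simp [bv]) l a) h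
  · obtain ⟨ε, -, h2⟩ := D.vecMul_nW_inr (R := R) l β
    rw [h2] at h
    have h3 : k = .inr (D.rw l β) := by
      by_contra h4
      exact right_ne_zero_of_mul h (Pi.single_eq_of_ne' h4 _)
    rw [h3, RD.dB_inr, RD.dB_inr, RD.dg_dw]

end CD

end Pool.Agent.P.Bf04
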