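import Pool.Agent.P.MP_bf0464_al.H.EDef

/-! Basic facts on supports and degrees. -/

namespace Pool.Agent.P.Bf04

open Matrix Module

attribute [local instance 100] LieRing.ofAssociativeRing

universe u v w

namespace RD

variable (D : RD) {S : Type v} [CommRing S] {R : Type w} [CommRing R]

theorem dB_inl (d : D.Δ → S) (a : D.σ) : D.dB d (.inl a) = 0 := by
  simp [dB, wt]

theorem dB_inr (d : D.Δ → S) (β : D.ι) : D.dB d (.inr β) = D.dg d β := rfl

theorem dB_add (d : D.Δ → S) {i j k : D.B} (h : D.wt k = D.wt i + D.wt j) :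
    D.dB d k = D.dB d i + D.dB d j := by
  unfold dB
  rw [h, ← Finset.sum_add_distrib]
  refine Finset.sum_congr rfl fun a _ => ?_
  simp [add_mul]

theorem dg_dw (l : List D.Δ) (d : D.Δ → S) (β : D.ι) : D.dg (D.dw l d) β = D.dg d (D.rw l β) :=
  by
  obtain ⟨d', hd'⟩ := D.root_dg_rw l d
  have e : D.dw l d = d' := by
    funext i
    unfold dw
    rw [hd', D.dg_s]
  rw [e, hd']

theorem dw_nil (d : D.Δ → S) : D.dw [] d = d := by
  funext i
  exact D.dg_s d i

theorem dw_append (l l' : List D.Δ) (d : D.Δ → S) : D.dw (l ++ l') d = D.dw l' (D.dw l d) := by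
  funext i
  change D.dg d (D.rw (l ++ l') (D.s i)) = D.dg (D.dw l d) (D.rw l' (D.s i))
  rw [D.dg_dw]
  simp [RD.rw, List.foldr_append]

theorem dw_single (i : D.Δ) (d : D.Δ → S) (j : D.Δ) :
    D.dw [i] d j = d j - (D.A j i : S) * d i := by
  change D.dg d (D.rf (D.s i) (D.s j)) = _
  rw [D.root_dg_rf, D.dg_s, D.dg_s]
  rfl

theorem rw_append (l l' : List D.Δ) (β : D.ι) : D.rw (l ++ l') β = D.rw l (D.rw l' β) := by
  simp [RD.rw, List.foldr_append]

theorem rw_neg (l : List D.Δ) (β : D.ι) : D.rw l (D.neg β) = D.neg (D.rw l β) := D.root_rw_neg l β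

theorem rw_reverse (l : List D.Δ) (β : D.ι) : D.rw l.reverse (D.rw l β) = β := by
  induction l with
  | nil => rfl
  | cons i l ih => rw [List.reverse_cons, D.root_rw_snoc, D.root_rw_cons, D.rf_rf, ih]

theorem ebasA_rf_conj (γ α β : D.ι) : D.rf (D.rf γ α) (D.rf γ β) = D.rf γ (D.rf α β) := by
  have h : D.pr (D.rf α β) γ = D.pr β γ - D.pr β α * D.pr α γ := by
    simp only [pr, D.rt_rf, sub_dotProduct, smul_dotProduct, smul_eq_mul]
  apply D.co_inj
  rw [D.co_rf (D.rf γ α), D.pr_rf, D.co_rf γ (D.rf α β), h, D.co_rf, D.co_rf, D.co_rf]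
  module

theorem exists_rw_rf (α : D.ι) : ∃ l, ∀ β, D.rw l β = D.rf α β := by
  induction α using D.root_induction with
  | h0 i => exact ⟨[i], fun _ => rfl⟩
  | h1 i α ih =>
    obtain ⟨l, hl⟩ := ih
    refine ⟨i :: (l ++ [i]), fun β => ?_⟩
    rw [D.root_rw_cons, D.root_rw_snoc, hl, ← D.ebasA_rf_conj, D.rf_rf]

theorem nrm_dw (l : List D.Δ) (d : D.Δ → ℝ) : D.nrm (D.dw l d) = D.nrm d := by
  unfold nrm
  simp only [D.dg_dw]
  exact (D.rw_bij l).sum_comp fun β => D.dg d β ^ 2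

theorem exists_dw [LinearOrder S] [IsStrictOrderedRing S] (d : D.Δ → S) :
    ∃ l, 0 ≤ D.dw l d := by
  obtain ⟨l, hl⟩ := D.exists_dom d
  exact ⟨l, fun i => hl _ (D.pos_s i)⟩

theorem pos_of_dg [LinearOrder S] [IsStrictOrderedRing S] {d : D.Δ → S} (hd : 0 ≤ d) {β : D.ι}
    (h : 0 < D.dg d β) : D.Pos β := by
  rcases D.sign β with h1 | h1
  · exact h1
  · exfalso
    have : D.dg d β ≤ 0 := Finset.sum_nonpos fun i _ =>
      mul_nonpos_of_nonpos_of_nonneg (Int.cast_nonpos.2 (h1 i)) (hd i)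
    exact absurd h (not_lt.2 this)

theorem dg_nonneg [LinearOrder S] [IsStrictOrderedRing S] {d : D.Δ → S} (hd : 0 ≤ d) {β : D.ι}
    (h : D.Pos β) : 0 ≤ D.dg d β := 
  Finset.sum_nonneg fun i _ => mul_nonneg (Int.cast_nonneg (h i)) (hd i)

theorem dg_cast {a : ℝ} {d : D.Δ → ℝ} {d' : D.Δ → ℤ} (h : ∀ i, a * d i = d' i) (β : D.ι) :
    a * D.dg d β = (D.dg d' β : ℤ) := by
  unfold dg
  push_cast
  rw [Finset.mul_sum]
  refine Finset.sum_congr rfl fun i _ => ?_
  rw [← h i]
  ring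

variable {D} {P P' : Set D.ι} {η : D.B → R}

theorem std_iff : D.Std η ↔ D.Supp {β | D.Pos β} η := by
  refine and_congr Iff.rfl ⟨fun h β hβ => ?_, fun h β hβ => ?_⟩
  · by_contra hc
    exact hβ (h _ ((D.pos_neg_iff β).2 hc))
  · by_contra hc
    have h1 : D.cd η (D.neg β) ≠ 0 := by
      unfold cd
      rwa [D.neg_neg]
    exact (D.pos_neg_iff β).1 (h _ h1) hβ

theorem Supp.mono (h : D.Supp P η) (hP : P ⊆ P') : D.Supp P' η := ⟨h.1, fun β hβ => hP (h.2 β hβ)⟩

theorem Supp.std (h : D.Supp P η) (hP : ∀ β ∈ P, D.Pos β) : D.Std η := 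
  std_iff.2 (h.mono hP)

theorem Supp.map {R' : Type*} [CommRing R'] (h : D.Supp P η) (φ : R →+* R') : D.Supp P (φ ∘ η) :=
  ⟨fun a => by rw [Function.comp_apply, h.1 a, map_zero], fun β hβ => h.2 β fun h0 => hβ (by
    change φ (D.cd η β) = 0
    rw [h0, map_zero])⟩

theorem Supp.ext {η' : D.B → R} (h : D.Supp P η) (h' : D.Supp P η')
    (he : ∀ β ∈ P, D.cd η β = D.cd η' β) : η = η' := by
  funext b
  rcases b with a | β
  · rw [h.1 a, h'.1 a]
  · have e : ∀ ζ : D.B → R, ζ (.inr β) = D.cd ζ (D.neg β) := fun ζ => by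
      unfold cd
      rw [D.neg_neg]
    rw [e η, e η']
    by_cases hβ : D.neg β ∈ P
    · exact he _ hβ
    · have h1 : D.cd η (D.neg β) = 0 := by
        by_contra hc
        exact hβ (h.2 _ hc)
      have h2 : D.cd η' (D.neg β) = 0 := by
        by_contra hc
        exact hβ (h'.2 _ hc)
      rw [h1, h2]

theorem supp_ind (P : Set D.ι) : D.Supp P (D.ind R P) := by
  refine ⟨fun a => rfl, fun β hβ => ?_⟩
  by_contra hc
  apply hβ
  simp [cd, ind, D.neg_neg, hc]

theorem cd_ind {β : D.ι} (h : β ∈ P) : D.cd (D.ind R P) β = 1 := by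
  simp [cd, ind, D.neg_neg, h]

theorem map_ind {R' : Type*} [CommRing R'] (φ : R →+* R') (P : Set D.ι) :
    φ ∘ D.ind R P = D.ind R' P := by
  funext b
  rcases b with a | β
  · simp [ind]
  · simp only [ind, Function.comp_apply, Sum.elim_inr]
    split_ifs <;> simp

theorem supp_pure {a : S} (ha : a ≠ 0) (d : D.Δ → S) (χ : D.B → R) :
    D.Supp {β | D.dg d β = a} (D.pure a d χ) := by
  refine ⟨fun b => ?_, fun β hβ => ?_⟩
  · unfold pure
    rw [D.dB_inl, if_neg]
    intro h0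
    exact ha (neg_eq_zero.1 h0.symm)
  · by_contra hc
    apply hβ
    unfold cd pure
    rw [D.dB_inr, D.dg_neg, if_neg]
    intro h0
    exact hc (neg_inj.1 h0)

theorem cd_pure (a : S) (d : D.Δ → S) (χ : D.B → R) {β : D.ι} (h : D.dg d β = a) :
    D.cd (D.pure a d χ) β = D.cd χ β := by
  unfold cd pure
  rw [D.dB_inr, D.dg_neg, h, if_pos rfl]

theorem map_pure {R' : Type*} [CommRing R'] (φ : R →+* R') (a : S) (d : D.Δ → S) (χ : D.B → R) :
    φ ∘ D.pure a d χ = D.pure a d (φ ∘ χ) := by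
  funext b
  simp only [pure, Function.comp_apply]
  split_ifs <;> simp

theorem SC.card (h : D.SC) : Fintype.card D.σ = Fintype.card D.Δ := by
  have hb : Function.Bijective (Fintype.linearCombination ℤ fun i => D.cr (D.s i)) := by
    constructor
    · intro x y hxy
      exact D.rootA_cli (by simpa [Fintype.linearCombination_apply] using hxy)
    · intro y
      exact ⟨fun i => D.ω i ⬝ᵥ y, by rw [Fintype.linearCombination_apply]; exact (h y).symm⟩
  have h1 := (LinearEquiv.ofBijective _ hb).finrank_eq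
  rw [Module.finrank_fintype_fun_eq_card, Module.finrank_fintype_fun_eq_card] at h1
  exact h1.symm

theorem levi_rw (J : Finset D.Δ) (l : List (D.levi J).Δ) (β : (D.levi J).ι) :
    ((D.levi J).rw l β).1 = D.rw (l.map Subtype.val) β.1 := by
  induction l with
  | nil => rfl
  | cons i l ih => exact congrArg (D.rf (D.s i.1)) ih

end RD

end Pool.Agent.P.Bf04
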