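import Pool.Agent.P.MP_bf0464_al.H.T2CA

/-! The generic step. -/

namespace Pool.Agent.P.Bf04

open Matrix Module

attribute [local instance 100] LieRing.ofAssociativeRing

universe u v w

open TensorProduct

namespace CD

variable {D : CD} {J : Finset D.Δ} {k : Type u} [Field k] {p : ℕ} [Fact p.Prime] [CharP k p]
  {e₀ : D.B → k} {h₀ : D.Std e₀}

section Gen

variable {K : Type u} [Field K] [Algebra k K]

theorem t2c_pmb (b : D.B) : (algebraMap k K ∘ D.pmb k b : D.g K) = D.pmb K b := by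
  rcases b with a | β
  · exact D.map_bv _ _
  · funext i
    exact map_zero _

variable (k) in
/-- the action of the extended Lie algebra -/
noncomputable def t2cρ (R : LRep K (D.g K)) (x : D.g k × k) : End K R.M :=
  R.ρ (algebraMap k K ∘ x.1) + algebraMap k K x.2 • 1

theorem t2cρ_bv (R : LRep K (D.g K)) (b : D.B) : t2cρ k R (D.bv k b, 0) = R.ρ (D.bv K b) := by
  rw [t2cρ, map_zero, zero_smul, add_zero, D.map_bv]

theorem t2cρ_pmb (R : LRep K (D.g K)) (b : D.B) : t2cρ k R (D.pmb k b, 0) = R.ρ (D.pmb K b) := by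
  rw [t2cρ, map_zero, zero_smul, add_zero, t2c_pmb]

theorem t2cρ_add (R : LRep K (D.g K)) (x y : D.g k × k) :
    t2cρ k R (x + y) = t2cρ k R x + t2cρ k R y := by
  have e : (algebraMap k K ∘ (x + y).1 : D.g K) = algebraMap k K ∘ x.1 + algebraMap k K ∘ y.1 :=
    funext fun b => map_add (algebraMap k K) (x.1 b) (y.1 b)
  rw [t2cρ, t2cρ, t2cρ, e, map_add, Prod.snd_add, map_add, add_smul]
  abel

theorem t2cρ_smul (R : LRep K (D.g K)) (c : k) (x : D.g k × k) :
    t2cρ k R (c • x) = algebraMap k K c • t2cρ k R x := by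
  have e : (algebraMap k K ∘ (c • x).1 : D.g K) = algebraMap k K c • algebraMap k K ∘ x.1 :=
    funext fun b => map_mul (algebraMap k K) c (x.1 b)
  rw [t2cρ, t2cρ, e, map_smul, Prod.smul_snd, smul_eq_mul, map_mul, smul_add, smul_smul]

theorem t2cρ_lie (R : LRep K (D.g K)) (x y : D.g k × k) :
    t2cρ k R ⁅x, y⁆ = t2cρ k R x * t2cρ k R y - t2cρ k R y * t2cρ k R x := by
  have e : (⁅x, y⁆ : D.g k × k).2 = 0 := by
    change x.2 * y.2 - y.2 * x.2 = 0
    ring
  have e' : (⁅x, y⁆ : D.g k × k).1 = ⁅x.1, y.1⁆ := rfl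
  rw [t2cρ, t2cρ, t2cρ, e, e', D.map_lie, R.lie_eq, map_zero, zero_smul, add_zero]
  simp only [mul_add, add_mul, mul_smul_comm, smul_mul_assoc, mul_one, one_mul]
  module

variable (h₀) in
/-- a module over the generic point -/
noncomputable def t2cRep {η : D.B → K}
    (hη : ∀ b, 0 ≤ D.dB (D.dJ J) b → η b = algebraMap k K (e₀ b)) {μ : D.σ → ℤ}
    {R : LRep K (D.g K)} (hR : D.Adm p η μ R) :
    (D.trg J p h₀).GenRep K fun i => η (D.en J i).1 :=
  letI : Module k R.M := Module.compHom R.M (algebraMap k K)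
  haveI : IsScalarTower k K R.M := IsScalarTower.of_algebraMap_smul fun _ _ => rfl
  haveI := hR.fd
  haveI := hR.simple.1
  { S := R.M
    ρ :=
      { toFun := t2cρ k R
        map_add' := t2cρ_add R
        map_smul' := fun c x => t2cρ_smul R c x }
    lie := t2cρ_lie R
    y0 := by
      change t2cρ k R (0, 1) = 1
      have e : (algebraMap k K ∘ (0 : D.g k) : D.g K) = 0 := funext fun _ => map_zero _
      rw [t2cρ, e, map_zero, map_one, one_smul, zero_add]
    ys := fun i => by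
      change t2cρ k R (D.bv k (D.en J i).1, 0) ^ p = _
      obtain ⟨β, hβ, -⟩ := (D.dJ_neg_iff J _).1 (D.en J i).2
      rw [t2cρ_bv, hR.pc, Algebra.algebraMap_eq_smul_one, hβ]
      exact (congrArg (· + _) (map_zero R.ρ)).trans (zero_add _)
    rel := fun a => by
      change t2cρ k R (D.bv k a.1, 0) ^ p = t2cρ k R (D.pmb k a.1, 0)
        + algebraMap k K (e₀ a.1 ^ p) • 1
      rw [t2cρ_bv, t2cρ_pmb, hR.pc, hη _ a.2, map_pow] }

variable {η : D.B → K} {hη : ∀ b, 0 ≤ D.dB (D.dJ J) b → η b = algebraMap k K (e₀ b)}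
  {μ : D.σ → ℤ} {R : LRep K (D.g K)} (hR : D.Adm p η μ R)

theorem t2c_π0_ι (b : D.B) :
    (t2cRep h₀ hη hR).π0 (FreeAlgebra.ι k (D.dB (D.dJ J) b, (D.bv k b, 0))) = R.ρ (D.bv K b) := by
  rw [Trg.GenRep.π0, FreeAlgebra.lift_ι_apply,
    (D.trg J p h₀).pr_of_mem _ _ _ (D.bv_mem J p h₀ b), if_pos rfl]
  exact t2cρ_bv R b

theorem t2c_π0_fr (z : FreeAlgebra ℤ D.B) :
    (t2cRep h₀ hη hR).π0 (D.fr J k z) = D.ev R z := by
  induction z using FreeAlgebra.induction with
  | grade0 r =>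
    rw [eq_intCast, map_intCast, map_intCast, map_intCast]
    rfl
  | grade1 b =>
    rw [fr, ev, FreeAlgebra.lift_ι_apply, FreeAlgebra.lift_ι_apply]
    exact t2c_π0_ι hR b
  | mul a b ha hb =>
    rw [map_mul, map_mul, map_mul, ha, hb]
    rfl
  | add a b ha hb =>
    rw [map_add, map_add, map_add, ha, hb]
    rfl

variable (D J k K) in
/-- words over the big field as elements of the extended free algebra -/
noncomputable def t2cΨ : FreeAlgebra K (D.g K) →ₐ[K] K ⊗[k] FreeAlgebra k (ℤ × (D.g k × k)) :=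
  FreeAlgebra.lift K fun x => ∑ b, x b ⊗ₜ FreeAlgebra.ι k (D.dB (D.dJ J) b, (D.bv k b, 0))

theorem t2c_π_Ψ (w : FreeAlgebra K (D.g K)) :
    (t2cRep h₀ hη hR).π (D.t2cΨ J k K w) = R.act w := by
  induction w using FreeAlgebra.induction with
  | grade0 r =>
    rw [AlgHom.commutes, AlgHom.commutes, Algebra.TensorProduct.algebraMap_apply,
      Trg.GenRep.π_tmul, map_one, Algebra.algebraMap_eq_smul_one (A := End K R.M)]
    rfl
  | grade1 x =>
    rw [t2cΨ, FreeAlgebra.lift_ι_apply, LRep.act_ι, map_sum]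
    conv_rhs => rw [D.eq_sum x, map_sum]
    refine Finset.sum_congr rfl fun b _ => ?_
    rw [Trg.GenRep.π_tmul, t2c_π0_ι, map_smul]
    rfl
  | mul a b ha hb =>
    rw [map_mul, map_mul, map_mul, ha, hb]
    rfl
  | add a b ha hb =>
    rw [map_add, map_add, map_add, ha, hb]
    rfl

theorem t2c_twist {A A' : Matrix D.B D.B K} (h : D.IsAut A) (h1 : A * A' = 1)
    (R : LRep K (D.g K)) (w : FreeAlgebra K (D.g K)) : (R.res (D.autHom A h)).act
      (FreeAlgebra.lift K (fun x : D.g K => FreeAlgebra.ι K (A' *ᵥ x : D.g K)) w) = R.act w := by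
  refine AlgHom.congr_fun (φ₁ := (R.res (D.autHom A h)).act.comp _) (φ₂ := R.act)
    (FreeAlgebra.hom_ext (funext fun x => ?_)) w
  change (R.res (D.autHom A h)).act (FreeAlgebra.lift K _ (FreeAlgebra.ι K x))
    = R.act (FreeAlgebra.ι K x)
  rw [FreeAlgebra.lift_ι_apply, LRep.act_ι, LRep.act_ι]
  change R.ρ (A *ᵥ (A' *ᵥ x)) = _
  rw [Matrix.mulVec_mulVec, h1, Matrix.one_mulVec]

theorem t2c_surj [IsAlgClosed k] {S : LRep k (D.g k)} (hS : S.Simple) [FiniteDimensional k S.M] :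
    Function.Surjective (bcRep K S).act := by
  rw [← AlgHom.range_eq_top, eq_top_iff, ← bcRep_gen hS, Algebra.adjoin_le_iff]
  rintro _ ⟨b, rfl⟩
  exact ⟨_, LRep.act_ι _ _⟩

include h₀ hη in
theorem t2c_std : D.Std η := by
  refine ⟨fun a => ?_, fun β hβ => ?_⟩
  · rw [hη _ (D.dB_inl _ a).ge, h₀.1, map_zero]
  · rw [hη _ (not_lt.1 fun h => ?_), h₀.2 β hβ, map_zero]
    obtain ⟨γ, h1, h2, -⟩ := (D.dJ_neg_iff J _).1 h
    exact h2 (Sum.inr_injective h1 ▸ hβ)

include hη in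
theorem t2c_main [IsAlgClosed k] {χ : D.B → k} {b : ℕ}
    (h : (D.trg J p h₀).Rank (D.Gd J p h₀ μ) b) {A : Matrix D.B D.B K} (hA : A ∈ D.G K)
    (hc : (algebraMap k K ∘ χ) ᵥ* A = η)
    (hξ : Function.Injective (MvPolynomial.aeval (R := k) fun i => η (D.en J i).1))
    (σ : K →ₐ[k] K) (hσ : ∀ a, σ (σ a) = a)
    (hGen : ∀ (R : Type u) [CommRing R] [IsDomain R] [Algebra k R] (l r : K →ₐ[k] R),
      (∀ i, l (η (D.en J i).1) = r (η (D.en J i).1)) → l = r ∨ l = r.comp σ) :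
    D.BndAt p χ μ (2 * b) ∧ ((∀ a, σ a = a) → D.BndAt p χ μ b) := by
  have : CharP K p := charP_of_injective_algebraMap (algebraMap k K).injective p
  obtain ⟨z, f, hz, f1, f2⟩ := exists_idem.{u} D p μ
  obtain ⟨A', -, h1, -⟩ := GS_inv hA
  have hs : D.Std η := t2c_std (h₀ := h₀) (hη := hη)
  have main : ∀ (I : Type u) [Fintype I] (S : I → LRep k (D.g k)), (∀ a, D.Adm p χ μ (S a)) →
      (∀ a a', (S a).Iso (S a') → a = a') →
      Fintype.card I ≤ 2 * b ∧ ((∀ a, σ a = a) → Fintype.card I ≤ b) := by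
    intro I _ S hS hi
    have hR : ∀ a, D.Adm p η μ ((bcRep K (S a)).res (D.autHom A (GS_aut hA))) := fun a =>
      hc ▸ (hS a).bc.twist hA (GS_aut hA) (hc ▸ hs)
    have key : ∀ a w, (t2cRep h₀ hη (hR a)).π (D.t2cΨ J k K (FreeAlgebra.lift K
        (fun x : D.g K => FreeAlgebra.ι K (A' *ᵥ x : D.g K)) w)) = (bcRep K (S a)).act w :=
      fun a w => (t2c_π_Ψ (hR a) _).trans (t2c_twist _ h1 _ w)
    refine (D.trg J p h₀).generic_bound3 rfl rfl (fun _ => rfl) hξ σ hσ hGen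
      (fr_deg (J := J) hz.wt)
      (fun E hE hG a => ?_) h (fun a => t2cRep h₀ hη (hR a)) (fun a => ?_) (fun a F => ?_)
      fun a a' hk => hi _ _ ?_
    · have := hE.fd
      have := hE.simple.1
      obtain ⟨ν, hν⟩ := exists_hw (D.std_levi J h₀) (adm_pc hE.rel)
      rw [cen_ind hz hE hν, (CharP.intCast_eq_zero_iff k p _).2 (f2 ν fun hl => hG ⟨ν, hl, hν⟩),
        zero_smul]
    · have e : ((MvPolynomial.eval μ f : ℤ) : K) = 1 := by
        have := (CharP.intCast_eq_zero_iff K p _).2 f1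
        rwa [Int.cast_sub, Int.cast_one, sub_eq_zero] at this
      rw [t2c_π0_fr, hz.adm (hR a), e, map_one]
      rfl
    · have := (hS a).fd
      obtain ⟨w, hw⟩ := t2c_surj (K := K) (hS a).simple F
      exact ⟨_, (key a w).trans hw⟩
    · have := (hS a).fd
      refine bcRep_ker (K' := K) (hS a).simple (hS a').simple fun w => ?_
      rw [← key, ← key]
      exact hk _
  exact ⟨fun I _ S h1 h2 => (main I S h1 h2).1, fun hid I _ S h1 h2 => (main I S h1 h2).2 hid⟩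

end Gen

theorem t2core [IsAlgClosed k] {χ : D.B → k} {κ : ℕ} (hκ : κ = 1 ∨ κ = 2)
    (hc : D.Conj J e₀ χ κ) {μ : D.σ → ℤ} {b : ℕ}
    (h : (D.trg J p h₀).Rank (D.Gd J p h₀ μ) b) : D.BndAt p χ μ (κ * b) := by
  let P := MvPolynomial (D.Nil J) k
  let K₀ := FractionRing P
  let φ : P →ₐ[k] K₀ := IsScalarTower.toAlgHom k P K₀
  let η : D.B → K₀ := fun b =>
    if h : D.dB (D.dJ J) b < 0 then φ (MvPolynomial.X ⟨b, h⟩) else algebraMap k K₀ (e₀ b)
  have h1 : ∀ b, 0 ≤ D.dB (D.dJ J) b → η b = algebraMap k K₀ (e₀ b) := fun b hb =>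
    dif_neg (not_lt.2 hb)
  have h2 : ∀ b : D.Nil J, η b.1 = φ (MvPolynomial.X b) := fun b => dif_pos b.2
  have h3 : AlgebraicIndependent k fun b : D.Nil J => η b.1 := by
    rw [funext h2]
    exact (MvPolynomial.algebraicIndependent_X (D.Nil J) k).map' (f := φ)
      (IsFractionRing.injective P K₀)
  obtain ⟨c, hc⟩ := hc K₀ η h1 h3
  have main : ∀ (K : Type u) [Field K] [Algebra k K] (j : K₀ →ₐ[k] K) (σ : K →ₐ[k] K) (δ : K),
      δ ^ κ = j c → (∀ a, σ (σ a) = a) →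
      (∀ (R : Type u) [CommRing R] [IsDomain R] [Algebra k R] (l r : K →ₐ[k] R),
        l.comp j = r.comp j → l = r ∨ l = r.comp σ) →
      D.BndAt p χ μ (2 * b) ∧ ((∀ a, σ a = a) → D.BndAt p χ μ b) := by
    intro K _ _ j σ δ hδ hσ hG
    obtain ⟨A, hA, e⟩ := hc K j δ hδ
    refine t2c_main (η := j ∘ η) (hη := fun b hb => ?_) h hA e ?_ σ hσ fun R _ _ _ l r hl =>
      hG R l r ?_
    · rw [Function.comp_apply, h1 b hb, AlgHom.commutes]
    · exact algebraicIndependent_iff_injective_aeval.1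
        ((h3.comp _ (D.en J).injective).map' (f := j) j.toRingHom.injective)
    · refine IsLocalization.algHom_ext (nonZeroDivisors P) (MvPolynomial.algHom_ext fun b => ?_)
      obtain ⟨i, rfl⟩ := (D.en J).surjective b
      have := hl i
      rw [Function.comp_apply, h2] at this
      exact this
  rcases hκ with rfl | rfl
  · rw [one_mul]
    exact (main K₀ (AlgHom.id k K₀) (AlgHom.id k K₀) c (pow_one c) (fun _ => rfl)
      fun R _ _ _ l r hl => Or.inl hl).2 fun _ => rfl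
  · obtain ⟨K, _, _, j, σ, δ, a1, a2, a3⟩ := exists_quad k K₀ c
    exact (main K j σ δ a1 a2 a3).1

include h₀ in
theorem t2 [IsAlgClosed k] {χ : D.B → k} {κ s : ℕ} (hκ : κ = 1 ∨ κ = 2) (hs : 0 < s)
    (hc : D.Conj J e₀ χ κ) (h : (D.levi J).Sav p (D.leviχ J e₀) (κ * s)) : D.Sav p χ s := by
  intro μ
  obtain ⟨T, hT, hw⟩ := D.exists_reps J p μ
  refine (t2core hκ hc (rank_levi (h₀ := h₀) T hT fun t _ => h t)).mono ?_
  rw [Nat.le_div_iff_mul_le hs]
  refine le_trans (le_of_eq ?_) ((Nat.mul_le_mul_left T.card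
    (Nat.div_mul_le_self (D.levi J).wn (κ * s))).trans hw)
  ring

end CD

end Pool.Agent.P.Bf04
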