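import Pool.Agent.P.MP_bf0464_al.H.ECjA
import Pool.Agent.P.MP_bf0464_al.H.T2C

/-! Chains of rational moves and the generic step. -/

namespace Pool.Agent.P.Bf04

open Matrix Module

attribute [local instance 100] LieRing.ofAssociativeRing

set_option linter.unusedSectionVars false

universe u v w

namespace CD

variable {D : CD} {p : ℕ} [Fact p.Prime] {Q F B : Set D.ι} {κ : ℕ}

variable {k : Type u} [Field k] [CharP k p]

omit [Fact p.Prime] in
theorem ecj_neg {R : Type*} [Zero R] {P : Set D.ι} {η : D.B → R} (h : D.Supp P η) {β : D.ι}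
    (hβ : η (.inr β) ≠ 0) : D.neg β ∈ P :=
  h.2 _ (by rwa [RD.cd, D.neg_neg])

omit [CharP k p] in
theorem ecj_std [Algebra (ZMod p) k] {e₀ : D.B → k} (h₀ : D.Gen p Q ∅ e₀)
    (hQ : ∀ β ∈ Q, D.Pos β) : D.Std e₀ :=
  h₀.supp.std fun β hβ => hQ β (hβ.resolve_right id)

theorem conj_of_cj [Algebra (ZMod p) k] (J : Finset D.Δ) {e₀ : D.B → k} (h₀ : D.Gen p Q ∅ e₀)
    (hQ : ∀ β ∈ Q, D.In J β) (h : Cj.{u} D p (Q ∪ {β | D.Pos β ∧ ¬ D.In J β}) ∅ B κ) :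
    D.Conj J e₀ (D.ind k B) κ := by
  classical
  intro K₀ _ _ η h1 h2
  let _ : Algebra (ZMod p) K₀ := ((algebraMap k K₀).comp (algebraMap (ZMod p) k)).toAlgebra
  have : IsScalarTower (ZMod p) k K₀ := IsScalarTower.of_algebraMap_eq fun _ => rfl
  have hn : ∀ β, D.dB (D.dJ J) (.inr (D.neg β)) < 0 ↔ D.Pos β ∧ ¬ D.In J β := fun β => by
    simp [D.dJ_neg_iff, D.pos_neg_iff, D.in_neg]
  have hG : D.Gen p (Q ∪ {β | D.Pos β ∧ ¬ D.In J β}) ∅ η := by
    refine ⟨⟨fun a => ?_, fun β hβ => .inl ?_⟩, ?_⟩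
    · rw [h1 _ (D.dB_inl _ a).ge, h₀.supp.1, map_zero]
    · by_contra hc
      rw [Set.mem_union, not_or] at hc
      rw [RD.cd, h1 _ (not_lt.1 (mt (hn β).1 hc.2))] at hβ
      exact (h₀.supp.2 β fun e => hβ (by rw [show e₀ _ = 0 from e, map_zero])).elim hc.1 id
    · let f : ↥(Q ∪ {β | D.Pos β ∧ ¬ D.In J β}) → D.Nil J ⊕ Q := fun β =>
        if h : β.1 ∈ Q then .inr ⟨β, h⟩ else .inl ⟨_, (hn β).2 (β.2.resolve_left h)⟩
      have hf : ∀ β, Sum.elim (fun b : D.Nil J => b.1) (fun γ : Q => .inr (D.neg γ)) (f β)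
          = (.inr (D.neg β) : D.B) := fun β => by
        simp only [f]
        split_ifs <;> rfl
      have hi : Function.Injective f := fun β γ e => Subtype.ext (by
        have := Sum.inr_injective ((hf β).symm.trans (e ▸ hf γ))
        rw [← D.neg_neg β, this, D.neg_neg])
      convert (h₀.ind.sumElim_comp h2).comp f hi using 1
      funext β
      simp only [f, Function.comp_apply]
      split_ifs with hβ
      · exact h1 _ (not_lt.1 fun e => ((hn β).1 e).2 (hQ β hβ))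
      · rfl
  obtain ⟨c, hc⟩ := h K₀ η hG
  refine ⟨c, fun K _ _ j δ hδ => ?_⟩
  obtain ⟨A, hA, e⟩ := hc K j δ hδ
  obtain ⟨A', hA', h1, -⟩ := D.GS_inv hA
  refine ⟨A', hA', ?_⟩
  rw [RD.map_ind, ← e, vecMul_vecMul, h1, vecMul_one]
  rfl

theorem exists_gen (Q : Set D.ι) : ∃ (k' : Type u) (_ : Field k') (_ : IsAlgClosed k')
    (_ : CharP k' p) (_ : Algebra (ZMod p) k') (_ : k →+* k') (e₀ : D.B → k'), D.Gen p Q ∅ e₀ :=
  by
  classical
  let k' := AlgebraicClosure (FractionRing (MvPolynomial D.ι k))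
  have : CharP k' p := charP_of_injective_algebraMap (algebraMap k k').injective p
  let _ : Algebra (ZMod p) k := ZMod.algebra k p
  let x : D.ι → k' := IsScalarTower.toAlgHom k (MvPolynomial D.ι k) k' ∘ MvPolynomial.X
  have hx : AlgebraicIndependent k x := (MvPolynomial.algebraicIndependent_X D.ι k).map'
    ((algebraMap (FractionRing (MvPolynomial D.ι k)) k').injective.comp
      (IsFractionRing.injective (MvPolynomial D.ι k) _))
  refine ⟨k', inferInstance, inferInstance, inferInstance, inferInstance, algebraMap k k',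
    Sum.elim 0 fun β => if D.neg β ∈ Q then x (D.neg β) else 0,
    ⟨fun _ => rfl, fun β hβ => .inl ?_⟩, ?_⟩
  · by_contra hc
    simp [RD.cd, D.neg_neg, hc] at hβ
  · refine (congrArg (fun y : Q → k' => AlgebraicIndependent (ZMod p) y) (funext fun β => ?_)).mp
      ((hx.restrictScalars (algebraMap (ZMod p) k).injective).comp _
        (Subtype.val_injective (p := (· ∈ Q))))
    simp [RD.cd, D.neg_neg]

variable (D p) in
/-- the bound for generic forms -/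
def SavG (Q : Set D.ι) (s : ℕ) : Prop :=
  ∀ (k : Type u) [Field k] [IsAlgClosed k] [CharP k p] [Algebra (ZMod p) k] (e₀ : D.B → k),
    D.Gen p Q ∅ e₀ → D.Sav p e₀ s

variable (D p) in
/-- the bound for the indicator of a set of roots -/
def SavI (B : Set D.ι) (s : ℕ) : Prop :=
  ∀ (k : Type u) [Field k] [IsAlgClosed k] [CharP k p], D.Sav p (D.ind k B) s

theorem savI_of_cj (J : Finset D.Δ) (hQ : ∀ β ∈ Q, D.Pos β ∧ D.In J β) {s : ℕ}
    (hκ : κ = 1 ∨ κ = 2) (hs : 0 < s) (h0 : SavG.{u} (D.levi J) p {β | β.1 ∈ Q} (κ * s))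
    (h : Cj.{u} D p (Q ∪ {β | D.Pos β ∧ ¬ D.In J β}) ∅ B κ) : SavI.{u} D p B s := by
  intro k _ _ _
  obtain ⟨k', _, _, _, _, φ, e₀, h₀⟩ := exists_gen (k := k) (p := p) Q
  refine Sav.bc φ ?_
  rw [RD.map_ind]
  exact t2 (h₀ := ecj_std h₀ fun β hβ => (hQ β hβ).1) hκ hs
    (conj_of_cj J h₀ (fun β hβ => (hQ β hβ).2) h)
    (h0 k' _ (gen_levi h₀ J fun β hβ => (hQ β hβ).2))

theorem savG_of_cj (hκ : 0 < κ) (h : Cj.{u} D p Q ∅ B κ) (hB : ∀ β ∈ B, D.Pos β) {s : ℕ}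
    (hs : SavI.{u} D p B s) : SavG.{u} D p Q s := by
  intro k _ _ _ _ e₀ h₀
  obtain ⟨c, hc⟩ := h k e₀ h₀
  obtain ⟨δ, hδ⟩ := IsAlgClosed.exists_pow_nat_eq c hκ
  obtain ⟨A, hA, e⟩ := hc k (RingHom.id k) δ hδ
  have e' : e₀ ᵥ* A = D.ind k B := e
  exact Sav.move hA (e' ▸ (RD.supp_ind B).std hB) (e' ▸ hs k)

theorem savG_of_hum (h : Hum.{u} D p) (hQ : ∀ β ∈ Q, D.Pos β) : SavG.{u} D p Q 1 :=
  fun k _ _ _ _ e₀ h₀ => h k e₀ (ecj_std h₀ hQ)

theorem savG_std (hQ : ∀ β ∈ Q, ∃ i, β = D.s i) (hne : Q.Nonempty) : SavG.{u} D p Q 2 := by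
  intro k _ _ _ _ e₀ h₀
  obtain ⟨γ, hγ⟩ := hne
  refine sav_std_two (ecj_std h₀ fun β hβ => ?_) (fun β hβ => ?_) ⟨_, gen_ne h₀ hγ⟩
  · obtain ⟨i, rfl⟩ := hQ β hβ
    exact D.pos_s i
  · obtain ⟨i, e⟩ := hQ _ ((ecj_neg h₀.supp hβ).resolve_right id)
    exact ⟨i, by rw [← e, D.neg_neg]⟩

theorem savG_levi (J : Finset D.Δ) (hQ : ∀ β ∈ Q, D.Pos β ∧ D.In J β) {s : ℕ}
    (h : SavG.{u} (D.levi J) p {β | β.1 ∈ Q} s) : SavG.{u} D p Q s :=
  fun k _ _ _ _ _ h₀ => Sav.of_levi J (ecj_std h₀ fun β hβ => (hQ β hβ).1)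
    (fun _ hβ => D.in_neg.1 (hQ _ ((ecj_neg h₀.supp hβ).resolve_right id)).2)
    (h k _ (gen_levi h₀ J fun β hβ => (hQ β hβ).2))

theorem savI_std (hB : ∀ β ∈ B, ∃ i, β = D.s i) : SavI.{u} D p B 1 := by
  intro k _ _ _
  refine sav_std ((RD.supp_ind B).std fun β hβ => ?_) fun β hβ => ?_
  · obtain ⟨i, rfl⟩ := hB β hβ
    exact D.pos_s i
  · obtain ⟨i, e⟩ := hB _ (ecj_neg (RD.supp_ind B) hβ)
    exact ⟨i, by rw [← e, D.neg_neg]⟩

end CD

end Pool.Agent.P.Bf04
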