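import Pool.Agent.P.MP_bf0464_al.H.EBas

/-! Centralisers are smooth: lifting tangent vectors to formal curves. -/

namespace Pool.Agent.P.Bf04

open Matrix Module

attribute [local instance 100] LieRing.ofAssociativeRing

universe u v w

namespace CD

variable {D : CD} {K : Type u} [Field K] {p : ℕ} [Fact p.Prime] [CharP K p]

/-- the matrix of the adjoint action -/
def adY (D : CD) {R : Type v} [CommRing R] (y : D.g R) : Matrix D.B D.B R :=
  ∑ b, y b • (D.adM b).map (Int.cast : ℤ → R)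

theorem adY_mulVec {R : Type v} [CommRing R] (y x : D.g R) : D.adY y *ᵥ x = ⁅y, x⁆ := by
  conv_rhs => rw [D.eq_sum y]
  simp only [adY, Matrix.sum_mulVec, Matrix.smul_mulVec, sum_lie, smul_lie, D.lie_adM]

section Aux

variable {R : Type v} [CommRing R] {R' : Type w} [CommRing R']

theorem enew_ext {A A' : Matrix D.B D.B R} (h : ∀ x : D.g R, A *ᵥ x = A' *ᵥ x) : A = A' :=
  D.grp2_ext fun _ => h _

theorem enew_add (x y : D.g R) : D.adY (x + y) = D.adY x + D.adY y := by
  simp only [adY, Pi.add_apply, add_smul, Finset.sum_add_distrib]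

theorem enew_sub (x y : D.g R) : D.adY (x - y) = D.adY x - D.adY y := by
  simp only [adY, Pi.sub_apply, sub_smul, Finset.sum_sub_distrib]

theorem enew_smul (c : R) (x : D.g R) : D.adY (c • x) = c • D.adY x := by
  simp only [adY, Pi.smul_apply, smul_eq_mul, mul_smul, Finset.smul_sum]

theorem enew_zero : D.adY (0 : D.g R) = 0 := by simp [adY]

theorem enew_bv (b : D.B) : D.adY (D.bv R b) = (D.adM b).map (Int.cast : ℤ → R) :=
  enew_ext fun x => by rw [adY_mulVec, D.lie_adM]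

theorem enew_map (φ : R →+* R') (y : D.g R) : (D.adY y).map φ = D.adY (φ ∘ y) := by
  ext k j
  simp [adY, Matrix.sum_apply]

theorem enew_lie (x y : D.g R) : D.adY ⁅x, y⁆ = D.adY x * D.adY y - D.adY y * D.adY x :=
  enew_ext fun z => by
    simp only [Matrix.sub_mulVec, ← Matrix.mulVec_mulVec, adY_mulVec, lie_lie]

theorem enew_inv (x y z : D.g R) :
    (D.adY ⁅x, y⁆ * D.adY z).trace = (D.adY x * D.adY ⁅y, z⁆).trace := by
  simp only [enew_lie, sub_mul, mul_sub, Matrix.trace_sub, ← mul_assoc]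
  rw [Matrix.trace_mul_cycle (D.adY x) (D.adY z) (D.adY y)]

theorem enew_aut {A : Matrix D.B D.B R} (h : D.IsAut A) (x : D.g R) :
    D.adY (A *ᵥ x) * A = A * D.adY x :=
  enew_ext fun z => by
    simp only [← Matrix.mulVec_mulVec, adY_mulVec, h x z]

theorem enew_dot {η : D.B → R} {e : D.g R} (h : ∀ b, η b = (D.adY e * D.adY (D.bv R b)).trace)
    (y : D.g R) : η ⬝ᵥ y = (D.adY e * D.adY y).trace := by
  simp only [dotProduct, h, enew_bv]
  rw [adY.eq_1 D y, Finset.mul_sum, Matrix.trace_sum]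
  exact Finset.sum_congr rfl fun b _ => by
    rw [mul_smul_comm, Matrix.trace_smul, smul_eq_mul, mul_comm]

theorem enew_fix {η : D.B → R} {e : D.g R} (h : ∀ y, η ⬝ᵥ y = (D.adY e * D.adY y).trace)
    {A : Matrix D.B D.B R} (hA : A ∈ D.G R) (he : A *ᵥ e = e) : η ᵥ* A = η := by
  obtain ⟨A', -, h1, h2⟩ := GS_inv hA
  refine dotProduct_eq _ _ fun y => ?_
  have e1 := enew_aut (GS_aut hA) e
  have e2 := enew_aut (GS_aut hA) y
  rw [he] at e1
  rw [← Matrix.dotProduct_mulVec, h, h, ← mul_one (D.adY (A *ᵥ y)), ← h1, ← mul_assoc _ A, e2,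
    ← mul_assoc, ← mul_assoc, e1, Matrix.trace_mul_comm, ← mul_assoc, ← mul_assoc, h2, one_mul]

theorem enew_orth {A : Matrix D.B D.B R} (h : D.IsAut A) {e y : D.g R} (hy : ⁅e, y⁆ = 0) :
    (D.adY (A *ᵥ e - e) * A * D.adY y).trace = 0 := by
  have e1 := enew_lie e y
  rw [hy, enew_zero, eq_comm, sub_eq_zero] at e1
  rw [enew_sub, sub_mul, enew_aut h, sub_mul, Matrix.trace_sub, mul_assoc A, e1,
    Matrix.trace_mul_cycle (D.adY e), Matrix.trace_mul_cycle (D.adY y), mul_assoc, ← e1,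
    sub_self]

theorem enew_hv (y : D.σ → R) : D.adY (D.hv y) =
    Matrix.diagonal (Sum.elim 0 fun β => ∑ a, (D.rt β a : R) * y a) :=
  D.grp2_ext fun b => by
    rw [adY_mulVec]
    rcases b with a | β
    · change ⁅D.hv y, D.h R a⁆ = _
      rw [← D.hv_single, D.lie_hv_hv]
      funext k
      by_cases hk : k = .inl a <;> simp [bv, hk]
    · rw [D.lie_hv_e]
      funext k
      by_cases hk : k = .inr β <;> simp [bv, hk]

theorem enew_hv_hv (y y' : D.σ → R) : (D.adY (D.hv y) * D.adY (D.hv y')).trace =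
    ∑ β, (∑ a, (D.rt β a : R) * y a) * ∑ a, (D.rt β a : R) * y' a := by
  simp [enew_hv, Matrix.diagonal_mul_diagonal, Fintype.sum_sum_type]

theorem enew_wt {i j : D.B} (h : D.wt i + D.wt j ≠ 0) :
    (D.adY (D.bv R i) * D.adY (D.bv R j)).trace = 0 := by
  rw [enew_bv, enew_bv]
  refine Finset.sum_eq_zero fun k _ => ?_
  by_contra hc
  exact h (left_eq_add.1 ((((D.adM_hom i).map _ Int.cast_zero).mul
    ((D.adM_hom j).map _ Int.cast_zero)) k k hc))

theorem enew_root (β : D.ι) : 2 * (D.adY (D.e R β) * D.adY (D.e R (D.neg β))).trace =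
    ((∑ γ, D.pr γ β ^ 2 : ℤ) : R) := by
  have e1 := enew_inv (D.e R β) (D.e R (D.neg β)) (D.hv fun a => (D.cr β a : R))
  rw [← lie_skew (D.e R (D.neg β)), D.lie_cr_e, D.lie_e_neg, enew_hv_hv, ← neg_smul, enew_smul,
    mul_smul_comm, Matrix.trace_smul, D.pr_neg_left, D.pr_self] at e1
  simp only [RD.pr, dotProduct, sq]
  push_cast at e1 ⊢
  rw [e1, _root_.neg_neg, smul_eq_mul]

theorem enew_gram (y : D.σ → R) (a : D.σ) :
    ((Matrix.of fun a b => ∑ β, D.rt β a * D.rt β b).map (Int.cast : ℤ → R) *ᵥ y) a =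
      ∑ β, (D.rt β a : R) * ∑ b, (D.rt β b : R) * y b := by
  simp only [Matrix.mulVec, dotProduct, Matrix.map_apply, Matrix.of_apply, Int.cast_sum,
    Int.cast_mul, Finset.sum_mul, Finset.mul_sum, mul_assoc]
  exact Finset.sum_comm

/-- a product of root elements and a torus element -/
noncomputable def enewPhi (D : CD) (u : D.g R) (w : D.Δ → Rˣ) : Matrix D.B D.B R :=
  ((Finset.univ : Finset D.ι).toList.map fun β => D.xM β (u (.inr β))).prod * D.tM w

/-- the torus element that belongs to the parameters -/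
def enewOK (D : CD) (u : D.g R) (w : D.Δ → Rˣ) : Prop :=
  ∀ i, (w i : R) = 1 + ∑ a, (D.rt (D.s i) a : R) * u (.inl a)

theorem enewPhi_mem (u : D.g R) (w : D.Δ → Rˣ) : D.enewPhi u w ∈ D.G R := by
  refine mul_mem (Submonoid.list_prod_mem _ fun A hA => ?_) (tM_mem w)
  obtain ⟨β, -, rfl⟩ := List.mem_map.1 hA
  exact xM_mem (Set.mem_univ β) _

theorem enewPhi_map (φ : R →+* R') (u : D.g R) (w : D.Δ → Rˣ) :
    (D.enewPhi u w).map φ = D.enewPhi (φ ∘ u) fun i => Units.map φ.toMonoidHom (w i) := by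
  rw [enewPhi, enewPhi, Matrix.map_mul, D.tM_map, ← RingHom.mapMatrix_apply, map_list_prod,
    List.map_map]
  congr 3
  funext β
  exact D.xM_map φ β _

theorem enewOK_map (φ : R →+* R') {u : D.g R} {w : D.Δ → Rˣ} (h : D.enewOK u w) :
    D.enewOK (φ ∘ u) fun i => Units.map φ.toMonoidHom (w i) := fun i => by
  simpa using congrArg φ (h i)

theorem enewPhi_zero {w : D.Δ → Rˣ} (h : D.enewOK 0 w) : D.enewPhi 0 w = 1 := by
  have e : w = 1 := funext fun i => Units.ext (by simpa using h i)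
  simp [enewPhi, e, D.tM_one, D.xM_zero]

theorem enew_prod {ι M : Type*} [Ring M] [Algebra R M] {ε : R} (hε : ε * ε = 0) (A N : ι → M)
    (h : ∀ i, ε • A i = ε • (1 : M)) (l : List ι) :
    ε • (l.map A).prod = ε • (1 : M) ∧
      (l.map fun i => A i + ε • N i).prod = (l.map A).prod + ε • (l.map N).sum := by
  induction l with
  | nil => simp
  | cons i l ih =>
    simp only [List.map_cons, List.prod_cons, List.sum_cons]
    refine ⟨by rw [← smul_mul_assoc, h, smul_mul_assoc, one_mul, ih.1], ?_⟩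
    rw [ih.2, add_mul, mul_add, mul_add, mul_smul_comm, ← smul_mul_assoc ε (A i), h,
      smul_mul_assoc, one_mul, smul_mul_assoc, ← mul_smul_comm ε (N i), ih.1, mul_smul_comm,
      mul_one, smul_mul_smul_comm, hε, zero_smul, add_zero, smul_add]
    abel

theorem enew_xM {ε t : R} (h : ε * t = 0) (β : D.ι) : ε • D.xM β t = ε • 1 := by
  have e : ∀ n, ε * t ^ (n + 1) = 0 := fun n => by rw [pow_succ', ← mul_assoc, h, zero_mul]
  simp only [xM, Finset.sum_range_succ', smul_add, smul_smul, e, D.dp_zero]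
  simp

theorem enew_xM' {ε : R} (h : ε * ε = 0) (β : D.ι) (c : R) :
    D.xM β (ε * c) = 1 + ε • c • (D.adM (.inr β)).map (Int.cast : ℤ → R) := by
  have e : ∀ n, (ε * c) ^ (n + 1 + 1) = 0 := fun n => by
    rw [mul_pow, pow_succ, pow_succ, mul_assoc _ ε ε, h, mul_zero, zero_mul]
  simp only [xM, Finset.sum_range_succ', e, D.dp_zero, smul_smul]
  simp [D.dp_one, add_comm]

theorem enew_zpow {ε a : R} (h : ε * ε = 0) {z : Rˣ} (hz : (z : R) = 1 + ε * a) (n : ℤ) :
    ((z ^ n : Rˣ) : R) = 1 + ε * (n * a) := by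
  have hz' : ((z⁻¹ : Rˣ) : R) = 1 - ε * a :=
    Units.inv_eq_of_mul_eq_one_right (by rw [hz]; linear_combination (-a * a) * h)
  induction n using Int.induction_on with
  | zero => simp
  | succ n ih =>
    rw [_root_.zpow_add_one, Units.val_mul, ih, hz]
    push_cast
    linear_combination (n * a * a) * h
  | pred n ih =>
    rw [_root_.zpow_sub_one, Units.val_mul, ih, hz']
    push_cast
    linear_combination (n * a * a) * h

theorem enew_tM {ε : R} (h : ε * ε = 0) (y : D.σ → R) {z : D.Δ → Rˣ}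
    (hz : ∀ i, (z i : R) = 1 + ε * ∑ a, (D.rt (D.s i) a : R) * y a) :
    D.tM z = 1 + ε • D.adY (D.hv y) := by
  have key : ∀ x : D.Δ → ℤ, (D.chr z x : R) =
      1 + ε * ∑ i, x i * ∑ a, (D.rt (D.s i) a : R) * y a := fun x => by
    rw [RD.chr, Units.coe_prod]
    induction (Finset.univ : Finset D.Δ) using Finset.induction_on with
    | empty => simp
    | insert i S hi ih =>
      rw [Finset.prod_insert hi, Finset.sum_insert hi, ih, enew_zpow h (hz i)]
      linear_combination (x i * (∑ a, (D.rt (D.s i) a : R) * y a) *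
        ∑ i ∈ S, x i * ∑ a, (D.rt (D.s i) a : R) * y a) * h
  rw [enew_hv, RD.tM, ← Matrix.diagonal_one, ← Matrix.diagonal_smul, Matrix.diagonal_add]
  congr 1
  funext b
  rw [key]
  rcases b with a | β
  · simp [RD.wt]
  · simp only [RD.wt, Sum.elim_inr, Pi.smul_apply, smul_eq_mul, D.rt_co β, Finset.sum_apply,
      Int.cast_sum, Int.cast_mul, Finset.sum_mul, Finset.mul_sum, mul_assoc]
    rw [Finset.sum_comm]

theorem enew_tM' {ε : R} {w : D.Δ → Rˣ} (hw : ∀ i, ε * w i = ε) : ε • D.tM w = ε • 1 := by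
  have k1 : ∀ z : Rˣ, ε * z = ε → ∀ n : ℤ, ε * (z ^ n : Rˣ) = ε := fun z hz n => by
    induction n using Int.induction_on with
    | zero => simp
    | succ n ih => rw [_root_.zpow_add_one, Units.val_mul, ← mul_assoc, ih, hz]
    | pred n ih =>
      rw [_root_.zpow_sub_one, Units.val_mul, ← mul_assoc, ih, Units.mul_inv_eq_iff_eq_mul, hz]
  have key : ∀ x : D.Δ → ℤ, ε * D.chr w x = ε := fun x => by
    rw [RD.chr, Units.coe_prod]
    induction (Finset.univ : Finset D.Δ) using Finset.induction_on with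
    | empty => simp
    | insert i S hi ih => rw [Finset.prod_insert hi, ← mul_assoc, k1 _ (hw i), ih]
  rw [RD.tM, ← Matrix.diagonal_one, ← Matrix.diagonal_smul, ← Matrix.diagonal_smul]
  congr 1
  funext b
  simp [key]

theorem enewPhi_eps {ε : R} (hε : ε * ε = 0) {u : D.g R} (v : D.g R) {w w' : D.Δ → Rˣ}
    (h : D.enewOK u w) (h' : D.enewOK (u + ε • v) w') (hu : ∀ b, ε * u b = 0) :
    D.enewPhi (u + ε • v) w' = D.enewPhi u w + ε • D.adY v := by
  have h1 : ∀ i, ε * w i = ε := fun i => by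
    rw [h i, mul_add, Finset.mul_sum, Finset.sum_eq_zero fun a _ => by
      rw [mul_left_comm, hu, mul_zero], add_zero, mul_one]
  have h2 : ∀ i, ((w⁻¹ * w') i : R) = 1 + ε * ∑ a, (D.rt (D.s i) a : R) * v (.inl a) := fun i => by
    rw [Pi.mul_apply, Pi.inv_apply, Units.val_mul, Units.inv_mul_eq_iff_eq_mul, mul_add, mul_one,
      ← mul_assoc, mul_comm _ ε, h1, h' i, h i, add_assoc, Finset.mul_sum, ← Finset.sum_add_distrib]
    exact congrArg _ (Finset.sum_congr rfl fun a _ => by simp; ring)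
  have h3 : D.tM w' = D.tM w + ε • D.adY (D.hv fun a => v (.inl a)) := by
    rw [← mul_inv_cancel_left w w', D.tM_mul, enew_tM hε _ h2, mul_add, mul_one, mul_smul_comm,
      ← smul_mul_assoc, enew_tM' h1, smul_mul_assoc, one_mul]
  have h4 : (fun β => D.xM β ((u + ε • v) (.inr β))) = fun β => D.xM β (u (.inr β)) +
      ε • v (.inr β) • (D.adM (.inr β)).map (Int.cast : ℤ → R) := funext fun β => by
    rw [Pi.add_apply, D.xM_add, Pi.smul_apply, smul_eq_mul, enew_xM' hε, mul_add, mul_one,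
      mul_smul_comm, ← smul_mul_assoc, enew_xM (hu _), smul_mul_assoc, one_mul]
  obtain ⟨h5, h6⟩ := enew_prod hε (fun β => D.xM β (u (.inr β)))
    (fun β => v (.inr β) • (D.adM (.inr β)).map (Int.cast : ℤ → R)) (fun β => enew_xM (hu _) β)
    Finset.univ.toList
  have h7 : D.adY v = D.adY (D.hv fun a => v (.inl a)) +
      ∑ β, v (.inr β) • (D.adM (.inr β)).map (Int.cast : ℤ → R) := by
    simp [adY, Fintype.sum_sum_type, hv]
  rw [enewPhi, enewPhi, h3, h4, h6, h7, Finset.sum_map_toList, add_mul, mul_add, mul_add,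
    mul_smul_comm, ← smul_mul_assoc, h5, smul_mul_assoc, one_mul, smul_mul_assoc,
    ← mul_smul_comm ε _ (D.tM w), enew_tM' h1, mul_smul_comm, mul_one, smul_mul_smul_comm, hε,
    zero_smul, add_zero, smul_add, add_assoc]

theorem enewPhi_dvd (t : R) (n : ℕ) {u u' : D.g R} (v : D.g R) {w w' : D.Δ → Rˣ}
    (h : D.enewOK u w) (h' : D.enewOK u' w') (hu : ∀ b, t ∣ u b)
    (hu' : ∀ b, t ^ (n + 2) ∣ u' b - u b - t ^ (n + 1) * v b) (k j : D.B) :
    t ^ (n + 2) ∣ (D.enewPhi u' w' - D.enewPhi u w - t ^ (n + 1) • D.adY v) k j := by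
  obtain ⟨φ, hφ⟩ : ∃ φ : R →+* R ⧸ Ideal.span {t ^ (n + 2)}, ∀ x, φ x = 0 ↔ t ^ (n + 2) ∣ x :=
    ⟨Ideal.Quotient.mk _, fun x => by rw [Ideal.Quotient.eq_zero_iff_mem, Ideal.mem_span_singleton]⟩
  have e1 : ∀ x, t ∣ x → φ (t ^ (n + 1)) * φ x = 0 := fun x hx => by
    rw [← map_mul, hφ, pow_succ t (n + 1)]
    exact mul_dvd_mul_left _ hx
  have e2 : φ ∘ u' = φ ∘ u + φ (t ^ (n + 1)) • φ ∘ v := funext fun b => by
    have := (hφ _).2 (hu' b)
    rw [map_sub, map_sub, map_mul] at this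
    simp only [Function.comp, Pi.add_apply, Pi.smul_apply, smul_eq_mul]
    linear_combination this
  have e3 := enewPhi_eps (e1 _ (dvd_pow_self t n.succ_ne_zero)) (φ ∘ v) (enewOK_map φ h)
    (e2 ▸ enewOK_map φ h') fun b => e1 _ (hu b)
  rw [← e2, ← enewPhi_map, ← enewPhi_map, ← enew_map] at e3
  have e4 := congrFun (congrFun e3 k) j
  simp only [Matrix.map_apply, Matrix.add_apply, Matrix.smul_apply, smul_eq_mul] at e4
  rw [← hφ]
  simp only [Matrix.sub_apply, Matrix.smul_apply, smul_eq_mul, map_sub, map_mul]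
  linear_combination e4

theorem enew_lim (U : ℕ → PowerSeries R)
    (h : ∀ n, PowerSeries.X ^ (n + 2) ∣ U (n + 1) - U n) :
    ∃ L, ∀ n, PowerSeries.X ^ (n + 2) ∣ L - U n := by
  have h1 : ∀ m n, m ≤ n → PowerSeries.X ^ (m + 2) ∣ U n - U m := fun m n hmn => by
    induction n, hmn using Nat.le_induction with
    | base => simp
    | succ n hmn ih =>
      simpa using dvd_add ((pow_dvd_pow _ (by omega)).trans (h n)) ih
  refine ⟨PowerSeries.mk fun m => PowerSeries.coeff m (U m), fun n => ?_⟩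
  refine PowerSeries.X_pow_dvd_iff.2 fun m hm => ?_
  rw [map_sub, PowerSeries.coeff_mk, ← map_sub]
  rcases le_total m n with hmn | hmn
  · rw [← neg_sub, map_neg, PowerSeries.X_pow_dvd_iff.1 (h1 m n hmn) m (by omega), neg_zero]
  · exact PowerSeries.X_pow_dvd_iff.1 (h1 n m hmn) m hm

end Aux

theorem kill_nd (h : D.KN p) {x : D.g K} (hx : ∀ y, (D.adY x * D.adY y).trace = 0) : x = 0 := by
  have h1 : ∀ β, x (.inr β) = 0 := fun β => by
    have e1 := hx (D.e K (D.neg β))
    rw [Matrix.trace_mul_comm, ← enew_dot (fun _ => rfl), dotProduct,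
      Finset.sum_eq_single (.inr β) (fun b _ hb => ?_) (by simp), Matrix.trace_mul_comm] at e1
    · refine (mul_eq_zero.1 e1).resolve_left fun h0 => h.root β ?_
      rw [← CharP.intCast_eq_zero_iff K p, ← enew_root, h0, mul_zero]
    · rw [enew_wt, zero_mul]
      rcases b with a | α
      · simpa [RD.wt] using D.co_ne_zero (D.neg β)
      · intro h0
        exact hb (congrArg Sum.inr (((D.eq_neg_iff _ _).2 h0).trans (D.neg_neg β)))
  have h2 : x = D.hv fun a => x (.inl a) := by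
    funext b
    rcases b with a | β
    exacts [rfl, h1 β]
  have h3 : ((Matrix.of fun a b => ∑ β, D.rt β a * D.rt β b).map (Int.cast : ℤ → K)).det ≠ 0 := by
    rw [← Int.cast_det, Ne, CharP.intCast_eq_zero_iff K p, ← CharP.intCast_eq_zero_iff (ZMod p) p,
      Int.cast_det, ← Matrix.exists_mulVec_eq_zero_iff]
    rintro ⟨v, hv, e⟩
    exact hv (h.tor v fun a => by rw [← enew_gram, e]; rfl)
  have h4 : (fun a => x (.inl a)) = 0 := by
    by_contra hc
    refine h3 (Matrix.exists_mulVec_eq_zero_iff.1 ⟨_, hc, funext fun a => ?_⟩)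
    have e1 := hx (D.hv (Pi.single a 1))
    rw [Matrix.trace_mul_comm, h2, enew_hv_hv] at e1
    rw [enew_gram]
    simpa [Pi.single_apply] using e1
  rw [h2, h4]
  funext b
  rcases b with a | β <;> rfl

theorem exists_kill (h : D.KN p) (χ : D.B → K) :
    ∃ e : D.g K, ∀ y, χ ⬝ᵥ y = (D.adY e * D.adY y).trace := by
  let L : (D.B → K) →ₗ[K] (D.B → K) :=
    { toFun := fun x b => (D.adY x * D.adY (D.bv K b)).trace
      map_add' := fun x y => by
        funext b
        rw [Pi.add_apply, enew_add, add_mul, Matrix.trace_add]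
      map_smul' := fun c x => by
        funext b
        rw [Pi.smul_apply, enew_smul, smul_mul_assoc, Matrix.trace_smul, RingHom.id_apply] }
  have hL : Function.Injective L := (injective_iff_map_eq_zero _).2 fun x hx =>
    kill_nd h fun y => by
      rw [← enew_dot (η := 0) (fun b => (congrFun hx b).symm), zero_dotProduct]
  obtain ⟨e, he⟩ := LinearMap.injective_iff_surjective.1 hL χ
  exact ⟨e, enew_dot fun b => (congrFun he b).symm⟩

theorem range_coad (χ ζ : D.B → K) (h : ∀ y, D.coad χ y = 0 → ζ ⬝ᵥ y = 0) :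
    ∃ y, D.coad χ y = ζ := by
  let T : (D.B → K) →ₗ[K] (D.B → K) :=
    { toFun := D.coad χ, map_add' := coad_add χ, map_smul' := coad_smul χ }
  have h1 : dotProductEquiv K D.B ζ ∈ (LinearMap.ker T).dualAnnihilator :=
    (Submodule.mem_dualAnnihilator _).2 fun y hy => h y hy
  rw [← LinearMap.range_dualMap_eq_dualAnnihilator_ker] at h1
  obtain ⟨ψ, hψ⟩ := h1
  obtain ⟨x, rfl⟩ := (dotProductEquiv K D.B).surjective ψ
  refine ⟨(-1 : K) • x, dotProduct_eq _ _ fun y => ?_⟩
  have e : x ⬝ᵥ D.coad χ y = ζ ⬝ᵥ y := LinearMap.congr_fun hψ y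
  rw [coad_smul, ← e, dotProduct_comm x, coad_skew χ x y, smul_dotProduct, smul_eq_mul,
    neg_one_mul]

theorem newton (h : D.KN p) {χ : D.B → K} {y : D.g K} (hy : D.coad χ y = 0) :
    ∃ A ∈ D.G (PowerSeries K), (PowerSeries.C ∘ χ) ᵥ* A = PowerSeries.C ∘ χ ∧
      ∀ k j, PowerSeries.coeff 1 (A k j) = D.adY y k j := by
  obtain ⟨e, he⟩ := exists_kill h χ
  have hco : ∀ v z : D.g K, (∀ x, D.coad χ v ⬝ᵥ x = (D.adY z * D.adY x).trace) ↔ ⁅e, v⁆ = z :=
    fun v z => by
      simp only [D.coad_dot, he, ← enew_inv]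
      refine ⟨fun h1 => sub_eq_zero.1 (kill_nd h fun x => ?_), fun h1 x => by rw [h1]⟩
      rw [enew_sub, sub_mul, Matrix.trace_sub, h1, sub_self]
  have hker : ∀ v : D.g K, D.coad χ v = 0 → ⁅e, v⁆ = 0 := fun v hv =>
    (hco v 0).1 fun x => by simp [hv, enew_zero]
  obtain ⟨t, ht⟩ : ∃ t : PowerSeries K, t = PowerSeries.X := ⟨_, rfl⟩
  obtain ⟨E, hE⟩ : ∃ E : D.g (PowerSeries K), E = PowerSeries.C ∘ e := ⟨_, rfl⟩
  obtain ⟨π, hπ⟩ : ∃ π : PowerSeries K →+* K, π = PowerSeries.constantCoeff := ⟨_, rfl⟩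
  have p1 : ∀ x, t ∣ x ↔ π x = 0 := fun x => by rw [ht, hπ, PowerSeries.X_dvd_iff]
  have p2 : ∀ x, π (PowerSeries.C x) = x := fun x => by rw [hπ, PowerSeries.constantCoeff_C]
  have hW : ∀ u : D.g (PowerSeries K), ∃ w, (∀ b, t ∣ u b) → D.enewOK u w := fun u => by
    by_cases hu : ∀ b, t ∣ u b
    · have : ∀ i, IsUnit (1 + ∑ a, (D.rt (D.s i) a : PowerSeries K) * u (.inl a)) := fun i => by
        rw [PowerSeries.isUnit_iff_constantCoeff, ← hπ]
        simp [fun b => (p1 _).1 (hu b)]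
      exact ⟨fun i => (this i).unit, fun _ i => rfl⟩
    · exact ⟨1, fun h => absurd h hu⟩
  choose W hW using hW
  have key : ∀ (n : ℕ) (u u' : D.g (PowerSeries K)) (v : D.g K), (∀ b, t ∣ u b) → (∀ b, t ∣ u' b) →
      (∀ b, t ^ (n + 2) ∣ u' b - u b - t ^ (n + 1) * PowerSeries.C (v b)) → ∀ k,
      t ^ (n + 2) ∣ (D.enewPhi u' (W u') *ᵥ E - E) k - (D.enewPhi u (W u) *ᵥ E - E) k +
        t ^ (n + 1) * PowerSeries.C (⁅e, v⁆ k) := by
    intro n u u' v h1 h2 h3 k
    have e1 : t ^ (n + 2) ∣ ((D.enewPhi u' (W u') - D.enewPhi u (W u) -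
        t ^ (n + 1) • D.adY (PowerSeries.C ∘ v)) *ᵥ E) k :=
      Finset.dvd_sum fun j _ => Dvd.dvd.mul_right
        (enewPhi_dvd t n (PowerSeries.C ∘ v) (hW u h1) (hW u' h2) h1 h3 k j) _
    rw [Matrix.sub_mulVec, Matrix.sub_mulVec, Matrix.smul_mulVec, adY_mulVec, ← lie_skew] at e1
    nth_rw 3 [hE] at e1
    rw [← D.map_lie] at e1
    simpa using e1
  have z0 : ∀ b, t ∣ (0 : D.g (PowerSeries K)) b := fun b => dvd_zero t
  have hP : ∀ u : D.g (PowerSeries K), (∀ b, t ^ 2 ∣ u b - t * PowerSeries.C (y b)) →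
      ∀ b, t ∣ u b := fun u hu b => by
    simpa using dvd_add ((dvd_pow_self t two_ne_zero).trans (hu b))
      (dvd_mul_right t (PowerSeries.C (y b)))
  have step : ∀ (n : ℕ) (u : D.g (PowerSeries K)), ∃ u' : D.g (PowerSeries K),
      (∀ b, t ∣ u b) → (∀ k, t ^ (n + 2) ∣ (D.enewPhi u (W u) *ᵥ E - E) k) →
      (∀ b, t ^ (n + 2) ∣ u' b - u b) ∧
        ∀ k, t ^ (n + 1 + 2) ∣ (D.enewPhi u' (W u') *ᵥ E - E) k := by
    intro n u
    by_cases h1 : ∀ b, t ∣ u b
    swap
    · exact ⟨u, fun h => absurd h h1⟩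
    by_cases h2 : ∀ k, t ^ (n + 2) ∣ (D.enewPhi u (W u) *ᵥ E - E) k
    swap
    · exact ⟨u, fun _ h => absurd h h2⟩
    choose z hz using h2
    obtain ⟨v, hv⟩ := range_coad χ (fun b => (D.adY (π ∘ z) * D.adY (D.bv K b)).trace)
      fun x hx => by
        have e1 := enew_orth (GS_aut (enewPhi_mem u (W u))) (e := E) (y := PowerSeries.C ∘ x) (by
          rw [hE, ← D.map_lie, hker x hx]
          funext b
          exact map_zero _)
        have e2 : D.enewPhi u (W u) *ᵥ E - E = t ^ (n + 2) • z := funext hz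
        rw [e2, enew_smul, smul_mul_assoc, smul_mul_assoc, Matrix.trace_smul, smul_eq_mul,
          mul_eq_zero, or_iff_right (pow_ne_zero _ (ht ▸ PowerSeries.X_ne_zero))] at e1
        have e3 := congrArg π e1
        have e4 : π ∘ u = 0 := funext fun b => (p1 _).1 (h1 b)
        have e5 : π ∘ PowerSeries.C ∘ x = x := funext fun b => p2 _
        have e6 := enewOK_map π (hW u h1)
        rw [e4] at e6
        rw [map_zero, AddMonoidHom.map_trace, Matrix.map_mul, Matrix.map_mul, enew_map, enew_map,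
          enewPhi_map, e4, e5, enewPhi_zero e6, mul_one] at e3
        rw [enew_dot fun _ => rfl, e3]
    have e1 : ⁅e, v⁆ = π ∘ z := (hco v _).1 fun x => by rw [hv, enew_dot fun _ => rfl]
    refine ⟨fun b => u b + t ^ (n + 2) * PowerSeries.C (v b), fun _ _ => ⟨fun b => by simp,
      fun k => ?_⟩⟩
    have e2 := key (n + 1) u (fun b => u b + t ^ (n + 2) * PowerSeries.C (v b)) v h1
      (fun b => dvd_add (h1 b) (Dvd.dvd.mul_right (dvd_pow_self t (n + 1).succ_ne_zero) _))
      (fun b => by simp) k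
    have e3 : t ^ (n + 1 + 2) ∣ t ^ (n + 2) * (z k - PowerSeries.C (⁅e, v⁆ k)) := by
      rw [pow_succ t (n + 2)]
      exact mul_dvd_mul_left _ ((p1 _).2 (by rw [map_sub, p2, e1]; exact sub_self _))
    rw [hz] at e2
    have e4 := dvd_add e2 e3
    rwa [mul_sub, add_add_sub_cancel, sub_add_cancel] at e4
  choose f hf using step
  obtain ⟨U, U0, U1⟩ : ∃ U : ℕ → D.g (PowerSeries K), (U 0 = fun b => t * PowerSeries.C (y b)) ∧
      ∀ n, U (n + 1) = f n (U n) :=
    ⟨fun n => Nat.rec (motive := fun _ => D.g (PowerSeries K)) _ f n, rfl, fun _ => rfl⟩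
  have hU : ∀ n, (∀ b, t ^ 2 ∣ U n b - t * PowerSeries.C (y b)) ∧
      ∀ k, t ^ (n + 2) ∣ (D.enewPhi (U n) (W (U n)) *ᵥ E - E) k := by
    intro n
    induction n with
    | zero =>
      refine ⟨fun b => by simp [U0], fun k => ?_⟩
      have e1 := key 0 0 (U 0) y z0 (fun b => by simp [U0]) (fun b => by simp [U0]) k
      simpa [enewPhi_zero (hW 0 z0), hker y hy] using e1
    | succ n ih =>
      obtain ⟨e1, e2⟩ := hf n (U n) (hP _ ih.1) ih.2
      rw [← U1] at e1 e2
      exact ⟨fun b => by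
        simpa using dvd_add ((pow_dvd_pow t (by omega)).trans (e1 b)) (ih.1 b), e2⟩
  have hL : ∀ b, ∃ L, ∀ n, t ^ (n + 2) ∣ L - U n b := fun b => by
    rw [ht]
    refine enew_lim (fun n => U n b) fun n => ?_
    rw [← ht, U1]
    exact (hf n (U n) (hP _ (hU n).1) (hU n).2).1 b
  choose L hL using hL
  have l1 : ∀ b, t ^ 2 ∣ L b - t * PowerSeries.C (y b) := fun b => by simpa [U0] using hL b 0
  refine ⟨D.enewPhi L (W L), enewPhi_mem _ _, enew_fix (e := E) (enew_dot fun b => ?_)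
    (enewPhi_mem _ _) (sub_eq_zero.1 (funext fun k => PowerSeries.ext fun m => ?_)), fun k j => ?_⟩
  · have e1 := congrArg PowerSeries.C (he (D.bv K b))
    rw [AddMonoidHom.map_trace, Matrix.map_mul, enew_map, enew_map, D.map_bv, ← hE] at e1
    simpa [bv] using e1
  · have e1 := dvd_add (key m (U m) L 0 (hP _ (hU m).1) (hP _ l1) (fun b => by simpa using hL b m)
      k) ((hU m).2 k)
    simp only [lie_zero, Pi.zero_apply, map_zero, mul_zero, add_zero, sub_add_cancel, ht] at e1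
    exact PowerSeries.X_pow_dvd_iff.1 e1 m (by omega)
  · have e1 := enewPhi_dvd t 0 (PowerSeries.C ∘ y) (hW 0 z0) (hW L (hP _ l1)) z0
      (fun b => by simpa using l1 b) k j
    rw [enewPhi_zero (hW 0 z0), ← enew_map, ht] at e1
    have e2 := PowerSeries.X_pow_dvd_iff.1 e1 1 (by omega)
    by_cases hk : k = j <;> simpa [hk, Matrix.one_apply, sub_eq_zero, PowerSeries.coeff_one] using e2

end CD

end Pool.Agent.P.Bf04
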