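import Pool.Agent.P.MP_bf0464_al.H.EOpt
import Pool.Agent.P.MP_bf0464_al.H.ENew

/-! Surjectivity of the coadjoint map and its consequences. -/

namespace Pool.Agent.P.Bf04

open Matrix Module

attribute [local instance 100] LieRing.ofAssociativeRing

universe u v w

namespace CD

variable {D : CD} {K : Type u} [Field K]

theorem esur_adY (y : D.g K) (β : D.ι) (a : D.σ) :
    D.adY y (.inl a) (.inr (D.neg β)) = y (.inr β) * (D.cr β a : K) := by
  rw [adY, Matrix.sum_apply, Fintype.sum_sum_type]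
  simp only [Matrix.smul_apply, Matrix.map_apply, adM, Matrix.of_apply, RD.c, smul_eq_mul]
  rw [Finset.sum_eq_zero (fun b _ => by simp), zero_add, Finset.sum_eq_single β]
  · simp
  · intro γ _ hγ
    rw [if_neg, Int.cast_zero, mul_zero]
    intro h
    exact hγ (by rw [← D.neg_neg γ, ← h, D.neg_neg])
  · simp

theorem Opt.cent {p : ℕ} [Fact p.Prime] [CharP K p] (hK : D.KN p) {d : D.Δ → ℝ} {χ : D.B → K}
    (h : D.Opt d χ) (hd : 0 ≤ d) {y : D.g K} (hy : D.coad χ y = 0) {b : D.B} (hb : y b ≠ 0) :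
    0 ≤ D.dB d b := by
  rcases b with a | β
  · rw [RD.dB_inl]
  obtain ⟨A, hA, hχ, hc⟩ := newton hK hy
  let F := FractionRing (PowerSeries K)
  let φ : PowerSeries K →+* F := algebraMap (PowerSeries K) F
  have hφ : Function.Injective φ := IsFractionRing.injective (PowerSeries K) F
  let ψ : K →+* F := φ.comp PowerSeries.C
  have h1 : D.Opt d (ψ ∘ χ) := h.map ψ
  have h2 : (ψ ∘ χ) ᵥ* A.map φ = ψ ∘ χ := by
    have := D.map_vecMul φ (PowerSeries.C ∘ χ) A
    rw [hχ] at this
    exact this.symm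
  obtain ⟨x, hx⟩ := D.cr_prim β
  have h3 : ∃ a, (D.cr β a : K) ≠ 0 := by
    by_contra hn
    push Not at hn
    have := congrArg (Int.cast : ℤ → K) hx
    simp only [dotProduct, Int.cast_sum, Int.cast_mul, hn, mul_zero, Finset.sum_const_zero,
      Int.cast_one] at this
    exact zero_ne_one this
  obtain ⟨a, ha⟩ := h3
  have h4 : A.map φ (.inl a) (.inr (D.neg β)) ≠ 0 := by
    intro h0
    have h5 : A (.inl a) (.inr (D.neg β)) = 0 := hφ (by rw [map_zero]; exact h0)
    have h6 := hc (.inl a) (.inr (D.neg β))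
    rw [h5, map_zero, esur_adY] at h6
    exact mul_ne_zero hb ha h6.symm
  have h7 := h1.stab hd (GS_map φ hA) (by rw [h2]; exact h1.lev) h4
  rw [RD.dB_inl, RD.dB_inr, RD.dg_neg] at h7
  rw [RD.dB_inr]
  linarith

theorem esur_dB {S : Type v} [CommRing S] {a : S} {d : D.Δ → S} {χ : D.B → K}
    (hχ : D.Supp {β | D.dg d β = a} χ) {k : D.B} (hk : χ k ≠ 0) : D.dB d k = -a := by
  rcases k with c | γ
  · exact absurd (hχ.1 c) hk
  · have : D.dg d (D.neg γ) = a := hχ.2 (D.neg γ) (by rw [RD.cd, D.neg_neg]; exact hk)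
    rw [RD.dB_inr, ← this, RD.dg_neg, _root_.neg_neg]

theorem esur_wt {S : Type v} [CommRing S] {a : S} {d : D.Δ → S} {χ : D.B → K}
    (hχ : D.Supp {β | D.dg d β = a} χ) {i b : D.B} (h : D.coad χ (D.bv K i) b ≠ 0) :
    D.dB d i + D.dB d b = -a := by
  obtain ⟨k, hk, hw⟩ := coad_wt h
  rw [← D.dB_add d hw, esur_dB hχ hk]

theorem esur_part {S : Type v} [CommRing S] {a j : S} {d : D.Δ → S} {χ ζ : D.B → K}
    (hχ : D.Supp {β | D.dg d β = a} χ) (hζ : ∀ b, ζ b ≠ 0 → D.dB d b = -a - j) {y : D.g K}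
    (hy : D.coad χ y = ζ) : ∃ y : D.g K, (∀ b, y b ≠ 0 → D.dB d b = j) ∧ D.coad χ y = ζ := by
  classical
  refine ⟨fun b => if D.dB d b = j then y b else 0, fun b hb => ?_, ?_⟩
  · by_contra hn
    exact hb (if_neg hn)
  · funext b
    rw [coad_sum, Finset.sum_apply]
    by_cases hb : D.dB d b = -a - j
    · rw [← hy, coad_sum χ y, Finset.sum_apply]
      refine Finset.sum_congr rfl fun i _ => ?_
      simp only [Pi.smul_apply, smul_eq_mul]
      split_ifs with hi
      · rfl
      · have : D.coad χ (D.bv K i) b = 0 := by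
          by_contra hn
          apply hi
          have := esur_wt hχ hn
          rw [hb] at this
          linear_combination this
        rw [this, mul_zero, mul_zero]
    · have h0 : ζ b = 0 := by
        by_contra hn
        exact hb (hζ b hn)
      rw [h0]
      refine Finset.sum_eq_zero fun i _ => ?_
      simp only [Pi.smul_apply, smul_eq_mul]
      split_ifs with hi
      · have : D.coad χ (D.bv K i) b = 0 := by
          by_contra hn
          apply hb
          have := esur_wt hχ hn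
          rw [hi] at this
          linear_combination this
        rw [this, mul_zero]
      · rw [zero_mul]

theorem Opt.sur {p : ℕ} [Fact p.Prime] [CharP K p] (hK : D.KN p) {d : D.Δ → ℝ} {χ : D.B → K}
    (h : D.Opt d χ) (hd : 0 ≤ d) (hχ : D.Supp {β | D.dg d β = 1} χ) : D.Sur 1 d χ := by
  intro j hj ζ hζ
  obtain ⟨y, hy⟩ := range_coad χ ζ fun y hy => by
    refine Finset.sum_eq_zero fun b _ => ?_
    by_contra hn
    have h1 := hζ b (left_ne_zero_of_mul hn)
    have h2 := h.cent hK hd hy (right_ne_zero_of_mul hn)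
    linarith
  exact esur_part hχ hζ hy

variable {S : Type v} [CommRing S] {a j : S} {d d' : D.Δ → S} {χ : D.B → K}

theorem esur_inv {A A' : Matrix D.B D.B K} (h1 : A * A' = 1) (h2 : A' * A = 1)
    (hd : ∀ k b, A k b ≠ 0 → D.dB d k = D.dB d' b) {b k : D.B} (h : A' b k ≠ 0) :
    D.dB d k = D.dB d' b := by
  classical
  let P : Matrix D.B D.B K := diagonal fun i => if D.dB d i = D.dB d k then 1 else 0
  let P' : Matrix D.B D.B K := diagonal fun i => if D.dB d' i = D.dB d k then 1 else 0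
  have e1 : P * A = A * P' := by
    ext i l
    simp only [P, P', diagonal_mul, mul_diagonal]
    by_cases hA : A i l = 0
    · rw [hA, mul_zero, zero_mul]
    · rw [hd i l hA, mul_comm]
  have e2 : A' * P = P' * A' := by
    calc A' * P = A' * (P * A) * A' := by
          rw [Matrix.mul_assoc, Matrix.mul_assoc, h1, Matrix.mul_one]
      _ = P' * A' := by rw [e1, ← Matrix.mul_assoc, h2, Matrix.one_mul]
  have e3 := congrFun (congrFun e2 b) k
  simp only [P, P', diagonal_mul, mul_diagonal, if_true, mul_one] at e3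
  by_contra hn
  rw [if_neg (fun h' => hn h'.symm), zero_mul] at e3
  exact h e3

theorem SurAt.move (h : D.SurAt a d χ j) {A : Matrix D.B D.B K} (hA : A ∈ D.G K)
    (hd : ∀ k b, A k b ≠ 0 → D.dB d k = D.dB d' b) : D.SurAt a d' (χ ᵥ* A) j := by
  obtain ⟨A', -, h1, h2⟩ := GS_inv hA
  intro ζ hζ
  obtain ⟨y, hy, hc⟩ := h (ζ ᵥ* A') fun k hk => by
    obtain ⟨b, -, hb⟩ := Finset.exists_ne_zero_of_sum_ne_zero hk
    rw [esur_inv h1 h2 hd (right_ne_zero_of_mul hb)]
    exact hζ b (left_ne_zero_of_mul hb)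
  refine ⟨A' *ᵥ y, fun b hb => ?_, ?_⟩
  · obtain ⟨k, -, hk⟩ := Finset.exists_ne_zero_of_sum_ne_zero hb
    rw [← esur_inv h1 h2 hd (left_ne_zero_of_mul hk)]
    exact hy k (right_ne_zero_of_mul hk)
  · rw [D.coad_aut (GS_aut hA), mulVec_mulVec, h1, one_mulVec, hc, vecMul_vecMul, h2, vecMul_one]

/-- the coadjoint map as a linear map -/
def esurL (D : CD) {R : Type w} [CommRing R] (χ : D.B → R) : D.g R →ₗ[R] (D.B → R) where
  toFun := D.coad χ
  map_add' := coad_add χ
  map_smul' := coad_smul χ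

theorem esurL_apply {R : Type w} [CommRing R] (χ : D.B → R) (y : D.g R) :
    D.esurL χ y = D.coad χ y := rfl

theorem surAt_map {F : Type w} [Field F] (φ : K →+* F) :
    D.SurAt a d (φ ∘ χ) j ↔ D.SurAt a d χ j := by
  constructor
  · intro h ζ hζ
    obtain ⟨y, hy, hc⟩ := h (φ ∘ ζ) fun b hb => hζ b fun h0 => hb (by simp [h0])
    let _ : Algebra K F := φ.toAlgebra
    obtain ⟨r, hr⟩ := LinearMap.exists_leftInverse_of_injective (Algebra.linearMap K F)
      (LinearMap.ker_eq_bot.2 φ.injective)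
    have hr' : ∀ x : K, r (φ x) = x := fun x => LinearMap.congr_fun hr x
    refine ⟨r ∘ y, fun b hb => hy b fun h0 => hb (by simp [h0]), ?_⟩
    funext b
    have e1 := congrFun hc b
    rw [coad_sum, Finset.sum_apply] at e1
    rw [coad_sum, Finset.sum_apply, ← hr' (ζ b)]
    change _ = r ((φ ∘ ζ) b)
    rw [← e1, map_sum]
    refine Finset.sum_congr rfl fun i _ => ?_
    have e2 : D.coad (φ ∘ χ) (D.bv F i) b = φ (D.coad χ (D.bv K i) b) := by
      rw [← D.map_bv φ i, ← D.coad_map]; rfl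
    simp only [Pi.smul_apply, smul_eq_mul, Function.comp_apply]
    rw [e2, mul_comm (y i), mul_comm (r (y i))]
    exact (r.map_smul (D.coad χ (D.bv K i) b) (y i)).symm
  · intro h ζ hζ
    have h1 : ∀ b, ∃ y : D.g K, ζ b ≠ 0 →
        (∀ k, y k ≠ 0 → D.dB d k = j) ∧ D.coad χ y = D.bv K b := by
      intro b
      by_cases hb : ζ b = 0
      · exact ⟨0, fun h => absurd hb h⟩
      · obtain ⟨y, hy⟩ := h (D.bv K b) fun k hk => by
          have : k = b := by
            by_contra hn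
            exact hk (Pi.single_eq_of_ne hn _)
          rw [this]; exact hζ b hb
        exact ⟨y, fun _ => hy⟩
    choose Y hY using h1
    refine ⟨∑ b, ζ b • (φ ∘ Y b : D.g F), fun k hk => ?_, ?_⟩
    · rw [Finset.sum_apply] at hk
      obtain ⟨b, -, hb⟩ := Finset.exists_ne_zero_of_sum_ne_zero hk
      rw [Pi.smul_apply, smul_eq_mul] at hb
      refine (hY b (left_ne_zero_of_mul hb)).1 k fun h0 => right_ne_zero_of_mul hb ?_
      simp [h0]
    · rw [← esurL_apply, map_sum]
      conv_rhs => rw [D.eq_sum ζ]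
      refine Finset.sum_congr rfl fun b _ => ?_
      by_cases hb : ζ b = 0
      · rw [hb, zero_smul, zero_smul, map_zero]
      · rw [map_smul, esurL_apply, ← D.coad_map, (hY b hb).2, D.map_bv]

open Classical in
/-- extension by zero -/
noncomputable def esurE {ι : Type*} (K : Type u) [Field K] (P : ι → Prop) :
    ({b // P b} → K) →ₗ[K] (ι → K) where
  toFun x b := if h : P b then x ⟨b, h⟩ else 0
  map_add' x y := by
    funext b
    by_cases h : P b <;> simp [h]
  map_smul' c x := by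
    funext b
    by_cases h : P b <;> simp [h]

theorem esurE_pos {ι : Type*} {P : ι → Prop} (x : {b // P b} → K) {b : ι} (h : P b) :
    esurE K P x b = x ⟨b, h⟩ := dif_pos h

theorem esurE_neg {ι : Type*} {P : ι → Prop} (x : {b // P b} → K) {b : ι} (h : ¬ P b) :
    esurE K P x b = 0 := dif_neg h

open Classical in
theorem SurAt.card (h : D.SurAt a d χ j) :
    (Finset.univ.filter fun b => D.dB d b = -a - j).card
      ≤ (Finset.univ.filter fun b => D.dB d b = j).card := by
  let f : ({b // D.dB d b = j} → K) →ₗ[K] ({b // D.dB d b = -a - j} → K) :=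
    (LinearMap.funLeft K K Subtype.val) ∘ₗ D.esurL χ ∘ₗ esurE K fun b => D.dB d b = j
  have hf : Function.Surjective f := by
    intro z
    obtain ⟨y, hy, hc⟩ := h (esurE K (fun b => D.dB d b = -a - j) z) fun b hb => by
      by_contra hn
      exact hb (esurE_neg z hn)
    refine ⟨fun b => y b.1, ?_⟩
    have e1 : esurE K (fun b => D.dB d b = j) (fun b => y b.1) = y := by
      funext b
      by_cases hb : D.dB d b = j
      · exact esurE_pos (P := fun b => D.dB d b = j) _ hb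
      · rw [esurE_neg (P := fun b => D.dB d b = j) _ hb]
        by_contra hn
        exact hb (hy b fun h0 => hn h0.symm)
    funext b
    change D.coad χ (esurE K (fun b => D.dB d b = j) fun b => y b.1) b.1 = z b
    rw [e1, hc]
    exact esurE_pos z b.2
  have := LinearMap.finrank_le_finrank_of_surjective hf
  rwa [finrank_fintype_fun_eq_card, finrank_fintype_fun_eq_card, Fintype.card_subtype,
    Fintype.card_subtype] at this

theorem Sur.cast {a : ℕ} (ha : 0 < a) {d : D.Δ → ℝ} {d' : D.Δ → ℤ} (hd : ∀ i, a * d i = d' i)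
    (h : D.Sur 1 d χ) : D.Sur (a : ℤ) d' χ := by
  have ha' : (0 : ℝ) < a := by exact_mod_cast ha
  have e : ∀ b, (a : ℝ) * D.dB d b = (D.dB d' b : ℤ) := by
    rintro (c | β)
    · rw [RD.dB_inl, RD.dB_inl]; simp
    · rw [RD.dB_inr, RD.dB_inr]; exact D.dg_cast hd β
  intro j hj ζ hζ
  have hj' : -(a : ℝ) < j := by exact_mod_cast hj
  obtain ⟨y, hy, hc⟩ := h ((j : ℝ) / a) (by rw [lt_div_iff₀ ha']; linarith) ζ fun b hb => by
    have h1 := e b
    rw [hζ b hb] at h1
    push_cast at h1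
    field_simp
    linarith
  refine ⟨y, fun b hb => ?_, hc⟩
  have h1 := e b
  rw [hy b hb, mul_div_cancel₀ _ ha'.ne'] at h1
  exact_mod_cast h1.symm

variable [LinearOrder S] [IsStrictOrderedRing S]

theorem Sur.nW (h : D.Sur a d χ) (l : List D.Δ) : D.Sur a (D.dw l d) (χ ᵥ* D.nW K l) :=
  fun j hj => (h j hj).move (D.nW_mem l) fun _ _ hkb => nW_dB d l hkb

omit [LinearOrder S] [IsStrictOrderedRing S] in
theorem esur_dg {β γ δ : D.ι} {m : ℕ} (h : D.co γ + (m : ℤ) • D.co δ = D.co β) :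
    D.dg d β = D.dg d γ + m * D.dg d δ := by
  simp only [RD.dg, ← h, Finset.mul_sum, ← Finset.sum_add_distrib, Pi.add_apply, Pi.smul_apply,
    smul_eq_mul]
  refine Finset.sum_congr rfl fun i _ => ?_
  push_cast
  ring

theorem esur_step (ha : 0 < a) (hj : 0 < j) {χ₀ η : D.B → K} (h0 : ∀ c, χ₀ (.inl c) = 0)
    (hη : D.Supp {β | D.dg d β = a ∨ a + j ≤ D.dg d β} η)
    (he : ∀ β, D.dg d β = a → D.cd η β = D.cd χ₀ β) {δ : D.ι} (hδ : D.dg d δ = j) (t : K) :
    D.Supp {β | D.dg d β = a ∨ a + j ≤ D.dg d β} (η ᵥ* D.xM δ t) ∧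
    (∀ β, D.dg d β = a → D.cd (η ᵥ* D.xM δ t) β = D.cd χ₀ β) ∧
    ∀ β, D.dg d β = a + j →
      D.cd (η ᵥ* D.xM δ t) β = D.cd η β + t * D.cd (D.coad χ₀ (D.e K δ)) β := by
  have hge : ∀ γ, D.cd η γ ≠ 0 → a ≤ D.dg d γ := fun γ hγ => by
    rcases hη.2 γ hγ with h | h
    · exact h.ge
    · exact le_trans (by linarith) h
  obtain ⟨c, hc, hx⟩ := cd_xM (R := K) δ
    |> fun f => (⟨fun β => (f β).choose, fun β => (f β).choose_spec.1,
      fun β => (f β).choose_spec.2⟩ : ∃ c : D.ι → D.ι → ℕ → ℤ,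
        (∀ β γ m, c β γ m ≠ 0 → 2 ≤ m ∧ D.co γ + (m : ℤ) • D.co δ = D.co β) ∧
        ∀ β (η : D.B → K) (t : K), D.cd (η ᵥ* D.xM δ t) β = D.cd η β
          + t * D.cd (D.coad η (D.e K δ)) β
          + ∑ γ, ∑ m ∈ Finset.range 4, t ^ m * c β γ m * D.cd η γ)
  have h1 : ∀ β, D.dg d β ≤ a + j →
      D.cd (η ᵥ* D.xM δ t) β = D.cd η β + t * D.cd (D.coad η (D.e K δ)) β := by
    intro β hβ
    rw [hx, Finset.sum_eq_zero, add_zero]
    intro γ _
    refine Finset.sum_eq_zero fun m _ => ?_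
    by_contra hn
    have h2 := hge γ (right_ne_zero_of_mul hn)
    have h3 : c β γ m ≠ 0 := fun h0 => hn (by simp [h0])
    obtain ⟨h4, h5⟩ := hc β γ m h3
    have h6 := esur_dg (d := d) h5
    have h7 : (2 : S) ≤ m := by exact_mod_cast h4
    rw [hδ] at h6
    nlinarith
  refine ⟨supp_xM hη ?_ ?_ t, fun β hβ => ?_, fun β hβ => ?_⟩
  · rintro (h | h) <;> rw [RD.dg_neg, hδ] at h <;> linarith
  · intro β hβ γ h
    have h2 := D.dg_add d h
    right
    rcases hβ with h3 | h3 <;> linarith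
  · rw [h1 β (by linarith), cd_coad_e hη.1, Finset.sum_eq_zero, mul_zero, add_zero, he β hβ]
    intro γ _
    split_ifs with h
    · have h2 := D.dg_add d h
      have : D.cd η γ = 0 := by
        by_contra hn
        have := hge γ hn
        linarith
      rw [this, mul_zero]
    · rfl
  · rw [h1 β hβ.le, cd_coad_e hη.1, cd_coad_e h0]
    congr 2
    refine Finset.sum_congr rfl fun γ _ => ?_
    split_ifs with h
    · have h2 := D.dg_add d h
      rw [he γ (by linarith)]
    · rfl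

theorem esur_steps (ha : 0 < a) (hj : 0 < j) {χ₀ η : D.B → K} (h0 : ∀ c, χ₀ (.inl c) = 0)
    (hη : D.Supp {β | D.dg d β = a ∨ a + j ≤ D.dg d β} η)
    (he : ∀ β, D.dg d β = a → D.cd η β = D.cd χ₀ β) (t : D.ι → K) (s : Finset D.ι)
    (hs : ∀ δ ∈ s, D.dg d δ = j) : ∃ A ∈ D.G K,
    D.Supp {β | D.dg d β = a ∨ a + j ≤ D.dg d β} (η ᵥ* A) ∧
    (∀ β, D.dg d β = a → D.cd (η ᵥ* A) β = D.cd χ₀ β) ∧
    ∀ β, D.dg d β = a + j →
      D.cd (η ᵥ* A) β = D.cd η β + ∑ δ ∈ s, t δ * D.cd (D.coad χ₀ (D.e K δ)) β := by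
  induction s using Finset.induction_on with
  | empty => exact ⟨1, one_mem _, by simpa using hη, by simpa using he, by simp⟩
  | insert δ s hδ ih =>
    obtain ⟨A, hA, h1, h2, h3⟩ := ih fun γ hγ => hs γ (Finset.mem_insert_of_mem hγ)
    obtain ⟨h4, h5, h6⟩ := esur_step ha hj h0 h1 h2 (hs δ (Finset.mem_insert_self _ _)) (t δ)
    refine ⟨A * D.xM δ (t δ), mul_mem hA (xM_mem (Set.mem_univ δ) _), ?_, ?_, fun β hβ => ?_⟩
    · rwa [← vecMul_vecMul]
    · rwa [← vecMul_vecMul]
    · rw [← vecMul_vecMul, h6 β hβ, h3 β hβ, Finset.sum_insert hδ]; ring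

theorem esur_level (ha : 0 < a) (hj : 0 < j) {χ₀ η : D.B → K} (h0 : ∀ c, χ₀ (.inl c) = 0)
    (h : D.SurAt a d χ₀ j) (hη : D.Supp {β | D.dg d β = a ∨ a + j ≤ D.dg d β} η)
    (he : ∀ β, D.dg d β = a → D.cd η β = D.cd χ₀ β) : ∃ A ∈ D.G K,
    D.Supp {β | D.dg d β = a ∨ a + j < D.dg d β} (η ᵥ* A) ∧
    ∀ β, D.dg d β = a → D.cd (η ᵥ* A) β = D.cd χ₀ β := by
  classical
  obtain ⟨y, hy, hc⟩ := h (-D.pure (a + j) d η) fun b hb => by
    by_contra hn
    apply hb
    rw [Pi.neg_apply, RD.pure, if_neg, neg_zero]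
    intro h'
    exact hn (by rw [h']; ring)
  obtain ⟨A, hA, h1, h2, h3⟩ := esur_steps ha hj h0 hη he (fun δ => y (.inr δ))
    (Finset.univ.filter fun δ => D.dg d δ = j) fun δ hδ => (Finset.mem_filter.1 hδ).2
  refine ⟨A, hA, ⟨h1.1, fun β hβ => ?_⟩, h2⟩
  rcases h1.2 β hβ with h4 | h4
  · exact Or.inl h4
  refine Or.inr (lt_of_le_of_ne h4 fun h5 => hβ ?_)
  have e1 : D.cd (D.coad χ₀ y) β = ∑ δ ∈ Finset.univ.filter fun δ => D.dg d δ = j,
      y (.inr δ) * D.cd (D.coad χ₀ (D.e K δ)) β := by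
    rw [RD.cd, coad_sum, Finset.sum_apply, Fintype.sum_sum_type, Finset.sum_eq_zero, zero_add,
      Finset.sum_filter]
    · refine Finset.sum_congr rfl fun δ _ => ?_
      split_ifs with h6
      · rfl
      · have : y (.inr δ) = 0 := by
          by_contra hn
          exact h6 (by rw [← RD.dB_inr]; exact hy _ hn)
        rw [this, zero_smul, Pi.zero_apply]
    · intro c _
      have : y (.inl c) = 0 := by
        by_contra hn
        have := hy _ hn
        rw [RD.dB_inl] at this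
        exact hj.ne this
      rw [this, zero_smul, Pi.zero_apply]
  rw [h3 β h5.symm, ← e1, hc, ← RD.cd_pure (a + j) d η h5.symm]
  simp [RD.cd]

theorem esur_kill (ha : 0 < a) {χ₀ : D.B → K} (h0 : D.Supp {β | D.dg d β = a} χ₀)
    (h : ∀ j, 0 < j → D.SurAt a d χ₀ j) (n : ℕ) : ∀ c, a ≤ c →
    (Finset.univ.filter fun β => c < D.dg d β).card = n → ∀ η : D.B → K,
    D.Supp {β | D.dg d β = a ∨ c < D.dg d β} η → (∀ β, D.dg d β = a → D.cd η β = D.cd χ₀ β) →
    ∃ A ∈ D.G K, η ᵥ* A = χ₀ := by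
  induction n using Nat.strong_induction_on with
  | _ n ih =>
    intro c hc hn η hη he
    rcases (Finset.univ.filter fun β => c < D.dg d β).eq_empty_or_nonempty with h1 | h1
    · refine ⟨1, one_mem _, ?_⟩
      rw [vecMul_one]
      refine RD.Supp.ext (hη.mono ?_) h0 he
      rintro β (h2 | h2)
      · exact h2
      · exact absurd (Finset.mem_filter.2 ⟨Finset.mem_univ β, h2⟩) (by rw [h1]; simp)
    · obtain ⟨β₀, hβ₀, hmin⟩ := Finset.exists_min_image _ (D.dg d) h1
      have h2 : c < D.dg d β₀ := (Finset.mem_filter.1 hβ₀).2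
      have h3 : a + (D.dg d β₀ - a) = D.dg d β₀ := by ring
      obtain ⟨A, hA, h4, h5⟩ := esur_level ha (j := D.dg d β₀ - a) (by linarith) h0.1
        (h _ (by linarith)) (hη.mono (by
          rintro β (h6 | h6)
          · exact Or.inl h6
          · refine Or.inr ?_
            rw [h3]
            exact hmin β (Finset.mem_filter.2 ⟨Finset.mem_univ β, h6⟩))) he
      rw [h3] at h4
      obtain ⟨A', hA', h6⟩ := ih _ (by
        rw [← hn]
        refine Finset.card_lt_card ⟨fun β hβ => ?_, fun hs => ?_⟩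
        · exact Finset.mem_filter.2 ⟨Finset.mem_univ β, h2.trans (Finset.mem_filter.1 hβ).2⟩
        · exact lt_irrefl _ (Finset.mem_filter.1 (hs hβ₀)).2) (D.dg d β₀) (by linarith) rfl _ h4 h5
      exact ⟨A * A', mul_mem hA hA', by rw [← vecMul_vecMul, h6]⟩

theorem kill (ha : 0 < a) (hχ : D.Supp {β | a ≤ D.dg d β} χ)
    (h : ∀ j, 0 < j → D.SurAt a d (D.pure a d χ) j) : ∃ A ∈ D.G K, χ ᵥ* A = D.pure a d χ := by
  refine esur_kill ha (RD.supp_pure ha.ne' d χ) h _ a le_rfl rfl χ (hχ.mono fun β hβ => ?_)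
    fun β hβ => (RD.cd_pure a d χ hβ).symm
  exact (eq_or_lt_of_le hβ).imp Eq.symm id

end CD

end Pool.Agent.P.Bf04
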