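import Pool.Agent.P.MP_bf0464_al.H.EMov
import Pool.Agent.P.MP_bf0464_al.H.ESur

/-! Chains of rational moves and the generic step. -/

namespace Pool.Agent.P.Bf04

open Matrix Module

attribute [local instance 100] LieRing.ofAssociativeRing

universe u v w

namespace CD

variable {D : CD} {p : ℕ} [Fact p.Prime] {Q F B : Set D.ι} {κ : ℕ}

variable (D p) in
/-- generic forms are conjugate to the indicator of B after adjoining a root of order κ -/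
def Cj (Q F B : Set D.ι) (κ : ℕ) : Prop :=
  ∀ (K₀ : Type u) [Field K₀] [Algebra (ZMod p) K₀] (η : D.B → K₀), D.Gen p Q F η →
    ∃ c : K₀, ∀ (K : Type u) [Field K] (j : K₀ →+* K) (δ : K), δ ^ κ = j c →
      ∃ A ∈ D.G K, (j ∘ η) ᵥ* A = D.ind K B

theorem ECjA_move {Q' F' : Set D.ι} (h : Cj.{u} D p Q' F' B κ)
    (hm : ∀ (K₀ : Type u) [Field K₀] [Algebra (ZMod p) K₀] (η : D.B → K₀), D.Gen p Q F η →
      ∃ A ∈ D.G K₀, D.Gen p Q' F' (η ᵥ* A)) : Cj.{u} D p Q F B κ := by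
  intro K₀ _ _ η hη
  obtain ⟨A, hA, h1⟩ := hm K₀ η hη
  obtain ⟨c, hc⟩ := h K₀ _ h1
  refine ⟨c, fun K _ j δ hδ => ?_⟩
  obtain ⟨A', hA', h2⟩ := hc K j δ hδ
  refine ⟨A.map j * A', mul_mem (GS_map j hA) hA', ?_⟩
  rw [← vecMul_vecMul, ← map_vecMul, h2]

theorem Cj.weaken {Q' F' : Set D.ι} (h : Cj.{u} D p Q' F' B κ) (hQ : Q' ⊆ Q)
    (hF : Q ∪ F ⊆ Q' ∪ F') : Cj.{u} D p Q F B κ :=
  fun K₀ _ _ η hη => h K₀ η (gen_weaken hη hQ hF)

theorem Cj.nW (l : List D.Δ) (h : Cj.{u} D p {β | D.rw l β ∈ Q} {β | D.rw l β ∈ F} B κ) :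
    Cj.{u} D p Q F B κ :=
  ECjA_move h fun _ _ _ _ hη => ⟨_, D.nW_mem l, gen_nW hη l⟩

theorem Cj.block (hg : D.Good p) {T R : Set D.ι} {m : ℕ} {γ δ z : Fin m → D.ι}
    (hb : D.Blk Q F T R γ δ z) (h : Cj.{u} D p (Q \ Set.range γ) F B κ) : Cj.{u} D p Q F B κ :=
  ECjA_move h fun _ _ _ _ hη => gen_block hg hη hb

theorem ECjA_chr {K ι : Type*} [CommRing K] [Fintype ι] (y : ι → Kˣ) (Λ : ι → D.Δ → ℤ) (β : D.ι) :
    D.chr (fun k => ∏ l, y l ^ Λ l k) (D.co β) = ∏ l, y l ^ D.dg (Λ l) β := by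
  simp only [RD.chr, ← Finset.prod_zpow, ← _root_.zpow_mul]
  rw [Finset.prod_comm]
  refine Finset.prod_congr rfl fun l _ => ?_
  rw [RD.grp1A_zpow_sum, RD.dg]
  simp only [Int.cast_id, mul_comm]

theorem torus_norm {n : ℕ} (b : Fin (n + 1) → D.ι) (Λ : Fin (n + 1) → D.Δ → ℤ) (hκ : 0 < κ)
    (h0 : D.dg (Λ 0) (b 0) = κ) (h1 : ∀ i j, j ≠ 0 → D.dg (Λ i) (b j) = if i = j then 1 else 0)
    {K₀ : Type u} [Field K₀] {η : D.B → K₀} (hη : ∀ i, D.cd η (b i) ≠ 0) :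
    ∃ c : K₀, ∀ (K : Type u) [Field K] (j : K₀ →+* K) (δ : K), δ ^ κ = j c →
      ∃ u : D.Δ → Kˣ, ∀ i, D.cd ((j ∘ η) ᵥ* D.tM u) (b i) = 1 := by
  refine ⟨D.cd η (b 0) * (∏ l : Fin n, D.cd η (b l.succ) ^ D.dg (Λ l.succ) (b 0))⁻¹,
    fun K _ j δ hδ => ?_⟩
  have hj : ∀ i, j (D.cd η (b i)) ≠ 0 := fun i => (map_ne_zero j).2 (hη i)
  have hP : ∏ l : Fin n, j (D.cd η (b l.succ)) ^ D.dg (Λ l.succ) (b 0) ≠ 0 :=
    Finset.prod_ne_zero_iff.2 fun l _ => zpow_ne_zero _ (hj _)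
  simp only [map_mul, map_inv₀, map_prod, map_zpow₀] at hδ
  have hδ0 : δ ≠ 0 := by
    rintro rfl
    rw [zero_pow hκ.ne'] at hδ
    exact mul_ne_zero (hj 0) (inv_ne_zero hP) hδ.symm
  set y : Fin (n + 1) → Kˣ := Fin.cons (Units.mk0 δ hδ0) fun l => Units.mk0 _ (hj l.succ) with hy
  refine ⟨fun k => ∏ l, y l ^ Λ l k, fun i => ?_⟩
  rw [cd_tM, ECjA_chr, Units.mul_inv_eq_one]
  change j (D.cd η (b i)) = _
  induction i using Fin.cases with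
  | zero =>
    rw [Fin.prod_univ_succ, h0]
    simp only [hy, Fin.cons_zero, Fin.cons_succ, zpow_natCast, Units.val_mul,
      Units.val_pow_eq_pow_val, Units.val_mk0, Units.coe_prod, Units.val_zpow_eq_zpow_val]
    rw [hδ, inv_mul_cancel_right₀ hP]
  | succ i =>
    simp only [h1 _ _ (Fin.succ_ne_zero i)]
    rw [Finset.prod_eq_single i.succ (fun l _ hl => by rw [if_neg hl, zpow_zero]) (by simp),
      if_pos rfl, zpow_one]
    rfl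

theorem cj_fin0 {n : ℕ} (b : Fin (n + 1) → D.ι) (Λ : Fin (n + 1) → D.Δ → ℤ) (hκ : 0 < κ)
    (h0 : D.dg (Λ 0) (b 0) = κ) (h1 : ∀ i j, j ≠ 0 → D.dg (Λ i) (b j) = if i = j then 1 else 0) :
    Cj.{u} D p (Set.range b) ∅ (Set.range b) κ := by
  intro K₀ _ _ η hη
  obtain ⟨c, hc⟩ := torus_norm b Λ hκ h0 h1 fun i => gen_ne hη ⟨i, rfl⟩
  refine ⟨c, fun K _ j δ hδ => ?_⟩
  obtain ⟨u, hu⟩ := hc K j δ hδ
  refine ⟨_, tM_mem u, RD.Supp.ext (supp_tM ((hη.supp.mono (Set.union_empty _).subset).map j) u)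
    (RD.supp_ind _) ?_⟩
  rintro _ ⟨i, rfl⟩
  rw [hu, RD.cd_ind (Set.mem_range_self i)]

theorem cj_fin {n : ℕ} (b : Fin (n + 1) → D.ι) (Λ : Fin (n + 1) → D.Δ → ℤ) (hκ : 0 < κ)
    (h0 : D.dg (Λ 0) (b 0) = κ) (h1 : ∀ i j, j ≠ 0 → D.dg (Λ i) (b j) = if i = j then 1 else 0)
    {a : ℤ} (ha : 0 < a) {d : D.Δ → ℤ} (hb : ∀ i, D.dg d (b i) = a)
    (hs : ∀ (K : Type u) [Field K] [CharP K p], D.Sur a d (D.ind K (Set.range b))) :
    Cj.{u} D p (Set.range b) {β | a < D.dg d β} (Set.range b) κ := by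
  intro K₀ _ _ η hη
  obtain ⟨c, hc⟩ := torus_norm b Λ hκ h0 h1 fun i => gen_ne hη ⟨i, rfl⟩
  refine ⟨c, fun K _ j δ hδ => ?_⟩
  obtain ⟨u, hu⟩ := hc K j δ hδ
  have : CharP K p := charP_of_injective_ringHom (j.comp (algebraMap (ZMod p) K₀)).injective p
  have h2 := supp_tM (hη.supp.map j) u
  have h3 : D.pure a d ((j ∘ η) ᵥ* D.tM u) = D.ind K (Set.range b) := by
    refine RD.Supp.ext (RD.supp_pure ha.ne' d _) ((RD.supp_ind _).mono ?_) fun β hβ => ?_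
    · rintro _ ⟨i, rfl⟩
      exact hb i
    · rw [RD.cd_pure a d _ hβ]
      by_cases h : β ∈ Set.range b
      · obtain ⟨i, rfl⟩ := h
        rw [hu, RD.cd_ind (Set.mem_range_self i)]
      · have e1 : D.cd ((j ∘ η) ᵥ* D.tM u) β = 0 := by
          by_contra h4
          exact (h2.2 β h4).elim h fun h5 => (ne_of_gt h5) hβ
        have e2 : D.cd (D.ind K (Set.range b)) β = 0 := by
          by_contra h4
          exact h ((RD.supp_ind _).2 β h4)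
        rw [e1, e2]
  obtain ⟨A, hA, h4⟩ := kill (d := d) ha (h2.mono (by
    rintro β (⟨i, rfl⟩ | h)
    · exact (hb i).ge
    · exact le_of_lt (a := a) h)) fun i hi => h3 ▸ hs K i (by omega)
  exact ⟨D.tM u * A, mul_mem (tM_mem u) hA, by rw [← vecMul_vecMul, h4, h3]⟩

end CD

end Pool.Agent.P.Bf04
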