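import Pool.Agent.P.MP_bf0464_al.H.TGen2

/-! Counting simple modules over a finite extension of the generic point. -/

namespace Pool.Agent.P.Bf04

open Module TensorProduct

attribute [local instance 100] LieRing.ofAssociativeRing

universe u

theorem nil_of_ker2 {k K K₀ B : Type u} {ι : Type} [Field k] [Field K] [Algebra k K] [Ring B]
    [Field K₀] [Algebra k K₀] [Algebra K₀ K] [IsScalarTower k K₀ K] {p : ℕ}
    [Fact p.Prime] [CharP k p] (ξ : ι → K)
    (hGen : ∀ (D : Type u) [CommRing D] [IsDomain D] [Algebra k D] (l r : K →ₐ[k] D),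
      (∀ i, l (ξ i) = r (ξ i)) → ∀ a : K₀, l (algebraMap K₀ K a) = r (algebraMap K₀ K a))
    (Λ : K ⊗[k] K →+* B) (hΛ : ∀ i, Λ ((ξ i ^ p) ⊗ₜ 1) = Λ (1 ⊗ₜ (ξ i ^ p))) {c : K ⊗[k] K}
    (h1 : Algebra.TensorProduct.mapOfCompatibleSMul K₀ k k K K c = 0) : IsNilpotent (Λ c) := by
  have : c ∈ (RingHom.ker Λ).radical := by
    rw [Ideal.radical_eq_sInf, Ideal.mem_sInf]
    rintro P ⟨hP, hprime⟩
    let q := Ideal.Quotient.mkₐ k P
    let l : K →ₐ[k] (K ⊗[k] K) ⧸ P := q.comp Algebra.TensorProduct.includeLeft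
    let r : K →ₐ[k] (K ⊗[k] K) ⧸ P := q.comp Algebra.TensorProduct.includeRight
    have : CharP ((K ⊗[k] K) ⧸ P) p := charP_of_injective_algebraMap' k p
    have hlr : ∀ i, l (ξ i) = r (ξ i) := by
      intro i
      have h3 : l (ξ i ^ p) = r (ξ i ^ p) :=
        Ideal.Quotient.eq.2 (hP (by rw [RingHom.mem_ker, map_sub]; exact sub_eq_zero.2 (hΛ i)))
      rw [map_pow, map_pow, ← sub_eq_zero, ← sub_pow_char] at h3
      exact sub_eq_zero.1 (pow_eq_zero_iff (Fact.out : p.Prime).ne_zero |>.1 h3)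
    have hq : ∀ a b, q (a ⊗ₜ b) = l a * r b := fun a b => by
      simp [l, r, ← map_mul]
    rw [← Ideal.Quotient.eq_zero_iff_mem]
    change q c = 0
    let f : K ⊗[K₀] K →+ (K ⊗[k] K) ⧸ P := TensorProduct.liftAddHom
      (AddMonoidHom.mul.compl₂ (r : K →+ _) |>.comp (l : K →+ _)) fun s a b => by
        change l (s • a) * r b = l a * r (s • b)
        rw [Algebra.smul_def, Algebra.smul_def, map_mul, map_mul, hGen _ l r hlr]
        ring
    have : ∀ c, q c = f (Algebra.TensorProduct.mapOfCompatibleSMul K₀ k k K K c) := by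
      intro c
      induction c using TensorProduct.induction_on with
      | zero => simp
      | tmul a b => rw [hq]; rfl
      | add a b ha hb => simp only [map_add, ha, hb]
    rw [this, h1, map_zero]
  obtain ⟨m, hm⟩ := this
  exact ⟨m, by rw [← map_pow]; exact hm⟩

namespace Trg

variable {k : Type u} [Field k] {L : Type u} [LieRing L] [LieAlgebra k L] {n p : ℕ}
  {T : Trg k L (n + 1) p} {K : Type u} [Field K] [Algebra k K] {ξ : Fin n → K}
  {F : Type u} [Field F] [Algebra k F] [Algebra (MvPolynomial (Fin (n + 1)) k) F]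
  [IsScalarTower k (MvPolynomial (Fin (n + 1)) k) F] [Algebra K F] [IsScalarTower k K F] {t : F}
  (K₀ : Type u) [Field K₀] [Algebra k K₀] [Algebra K₀ K] [IsScalarTower k K₀ K]

namespace GenRep

variable (S : T.GenRep K ξ)

/-- the action together with all its conjugates -/
noncomputable def ρ2 : K ⊗[k] FreeAlgebra k (ℤ × L) →ₐ[K]
    Matrix (Fin (finrank K S.S)) (Fin (finrank K S.S)) (K ⊗[K₀] K) :=
  Algebra.TensorProduct.lift (Algebra.ofId K _)
    (((Algebra.TensorProduct.includeRight (R := K₀) (A := K) (B := K)).restrictScalars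
      k).mapMatrix.comp
      (((LinearMap.toMatrixAlgEquiv (finBasis K S.S)).toAlgHom.restrictScalars k).comp S.π0))
    fun a _ => Algebra.commutes a _

theorem ρ2_tmul (a : K) (w : FreeAlgebra k (ℤ × L)) (i j : Fin (finrank K S.S)) :
    S.ρ2 K₀ (a ⊗ₜ w) i j = a ⊗ₜ (finBasis K S.S).end.repr (S.π0 w) (i, j) := by
  rw [ρ2, Algebra.TensorProduct.lift_tmul, Algebra.ofId_apply, ← Algebra.smul_def,
    Matrix.smul_apply, Basis.end_repr_apply]
  change a • ((1 : K) ⊗ₜ[K₀] LinearMap.toMatrix (finBasis K S.S) (finBasis K S.S) (S.π0 w) i j) = _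
  rw [smul_tmul', smul_eq_mul, mul_one]
  simp [Matrix.stdBasis]

theorem π_of_ρ2 {z : K ⊗[k] FreeAlgebra k (ℤ × L)} (h : S.ρ2 K₀ z = 0) : S.π z = 0 := by
  have e : ∀ z i j, (finBasis K S.S).end.repr (S.π z) (i, j)
      = Algebra.TensorProduct.lmul' K₀ (S.ρ2 K₀ z i j) := by
    intro z i j
    induction z using TensorProduct.induction_on with
    | zero => simp
    | add a b ha hb => simp only [map_add, ha, hb, Finsupp.add_apply, Matrix.add_apply]
    | tmul c w => simp [ρ2_tmul, π_tmul]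
  refine (finBasis K S.S).end.repr.injective (Finsupp.ext fun ⟨i, j⟩ => ?_)
  rw [e, h]
  simp

/-- the action as a linear map over the big field -/
noncomputable def πl : K ⊗[k] FreeAlgebra k (ℤ × L) →ₗ[K] End K S.S where
  toFun := S.π
  map_add' := map_add _
  map_smul' a z := by
    induction z using TensorProduct.induction_on with
    | zero => simp
    | add x y hx hy => simp only [smul_add, map_add, hx, hy]
    | tmul c w => rw [smul_tmul', π_tmul, π_tmul, smul_eq_mul, mul_smul]; rfl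

variable (hS : Shape T K ξ F t)
include hS

theorem nil2 [Fact p.Prime] [CharP k p]
    (hGen : ∀ (D : Type u) [CommRing D] [IsDomain D] [Algebra k D] (l r : K →ₐ[k] D),
      (∀ i, l (ξ i) = r (ξ i)) → ∀ a : K₀, l (algebraMap K₀ K a) = r (algebraMap K₀ K a))
    {z : K ⊗[k] FreeAlgebra k (ℤ × L)} (h1 : S.ρ2 K₀ z = 0) :
    IsNilpotent (T.ψ F K t S.tilde z) := by
  let E := (finBasis K S.S).end
  let co : _ → K ⊗[k] FreeAlgebra k (ℤ × L) →ₗ[k] K ⊗[k] K := fun a =>
    LinearMap.lTensor K ((E.coord a).restrictScalars k ∘ₗ S.π0.toLinearMap)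
  have hco : ∀ a c w, co a (c ⊗ₜ w) = c ⊗ₜ E.repr (S.π0 w) a := fun _ _ _ => rfl
  have e1 : ∀ z, T.ψ F K t S.tilde z = ∑ a, S.Λ hS (co a z) * S.Θ hS (E a) := by
    intro z
    induction z using TensorProduct.induction_on with
    | zero => simp
    | add a b ha hb => simp only [map_add, ha, hb, add_mul, Finset.sum_add_distrib]
    | tmul c w =>
      rw [S.ψ_tmul hS]
      conv_lhs => rw [← E.sum_repr (S.π0 w)]
      simp only [hco, Λ_tmul, map_sum, Finset.smul_sum, smul_mul_assoc, ← map_mul,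
        ← Algebra.smul_def]
  have e2 : ∀ z a, Algebra.TensorProduct.mapOfCompatibleSMul K₀ k k K K (co a z)
      = S.ρ2 K₀ z a.1 a.2 := by
    intro z a
    induction z using TensorProduct.induction_on with
    | zero => simp
    | add a b ha hb => simp only [map_add, ha, hb, Matrix.add_apply]
    | tmul c w => rw [ρ2_tmul]; rfl
  rw [e1]
  refine nil_sum_central _ _ (fun a => ?_) (fun a b => Commute.map (Commute.all _ _) (S.Λ hS))
    (fun a b => S.Λ_Θ hS _ _) _
  refine nil_of_ker2 ξ hGen (S.Λ hS).toRingHom (fun i => ?_) ?_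
  · change S.Λ hS _ = S.Λ hS _
    rw [Λ_tmul, Λ_tmul, S.Θ_ξ hS]; simp
  · rw [e2, h1]; rfl

theorem lattice2 [Fact p.Prime] [CharP k p] [Module.Flat (MvPolynomial (Fin (n + 1)) k) F] :
    ∃ (M : LRep k L) (G : Grading k M.M), T.Cat M G ∧ (∀ z, S.π z = 1 → T.v F K t M z ≠ 0) ∧
      ∀ z, IsNilpotent (T.ψ F K t S.tilde z) → T.v F K t M z = 0 := by
  have hp := (Fact.out : p.Prime).two_le
  obtain ⟨s, hs⟩ := exists_ne (0 : S.S)
  obtain ⟨N, hfd, hN, hGN, htN⟩ := T.exists_N hp S.tG_gr S.tilde_rel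
    {(Finsupp.single 0 s : ℤ →₀ S.S)}
  let E := (S.tilde.res T.par.incl).sub N hN
  have : FiniteDimensional k E.M := hfd
  have hhom := (S.tilde.res T.par.incl).sub_hom N hN
  have hGE : T.GrP E (S.tG.sub N hGN) := (S.tG_gr.res T).sub T N hN hGN
  have hF := T.Ind_cat hGE (RelP.of_inj T (S.tilde_rel.res T) hhom N.subtype_injective)
  have hφ := T.lift_hom hhom
  have hφG : (T.IndG (N := E) (S.tG.sub N hGN)).IsHom S.tG (T.lift (N := E) N.subtype) :=
    T.lift_gr S.tG_gr fun _ _ => rfl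
  set φ := T.lift (N := E) (R := S.tilde) N.subtype with hφd
  have hM := hF.quot T _ hφ.ker hφG.ker
  set M := (T.Ind E).quot _ hφ.ker with hMd
  let f : M.M →ₗ[k] S.tilde.M := (LinearMap.ker φ).liftQ φ le_rfl
  have hf : M.IsHom S.tilde f := by
    intro x m
    obtain ⟨m, rfl⟩ := (LinearMap.ker φ).mkQ_surjective m
    exact hφ x m
  have hi : Function.Injective f :=
    LinearMap.ker_eq_bot.1 (Submodule.ker_liftQ_eq_bot _ _ _ le_rfl)
  have : Module.Finite (MvPolynomial (Fin (n + 1)) k) (T.ZM M) := hM.fg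
  refine ⟨M, _, hM, fun z hz => ?_, fun z h1 => ?_⟩
  · obtain ⟨h, hh, h0⟩ := S.exists_h hS
    simp only [v, Nat.cast_ne_zero]
    refine sr_pos (h := h ∘ₗ (T.homZ hf).baseChange F) (fun x => ?_)
      (x := 1 ⊗ₜ (show T.ZM M from (LinearMap.ker φ).mkQ
        (T.inc E ⟨_, htN _ (Finset.mem_singleton_self _)⟩))) ?_
    · rw [LinearMap.comp_apply, ψ_hom, hh, hz, LinearMap.baseChange_one]; rfl
    · have : φ (T.inc E ⟨_, htN _ (Finset.mem_singleton_self _)⟩) = Finsupp.single 0 s :=
        T.lift_inc _ _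
      change h (S.el 1 (φ _)) ≠ 0
      rw [this, h0]
      intro h1
      exact hs (Module.Flat.tensorProduct_mk_injective K S.S F (a₁ := s) (a₂ := 0)
        (by simpa using h1))
  · simp only [v, Nat.cast_eq_zero]
    obtain ⟨m, hm⟩ := h1
    refine sr_nil ⟨m, LinearMap.ext fun x => ?_⟩
    apply Module.Flat.lTensor_preserves_injective_linearMap (M := F) (T.homZ hf) hi
    have := pow_intertwine (T.ψ_hom F K t hf z) m x
    rw [hm] at this
    exact this.trans (map_zero _).symm

end GenRep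

variable {J : Type u} (S : J → T.GenRep K ξ) (hsur : ∀ i, Function.Surjective (S i).π)
  (hker : ∀ i j, (∀ z, (S i).π z = 0 ↔ (S j).π z = 0) → i = j)

include hsur hker in
theorem tgen3_count [FiniteDimensional K₀ K] (j : J) (U : Finset J)
    (hU : ∀ i ∈ U, finrank K (S j).S ≤ finrank K (S i).S ∧
      ∀ z, (S j).ρ2 K₀ z = 0 → (S i).π z = 0) : U.card ≤ finrank K₀ K := by
  classical
  have hz : ∀ i, ∀ V : Finset J, ∃ z, (S i).π z = 1 ∧ ∀ l ∈ V, i ≠ l → (S l).π z = 0 := by
    intro i V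
    induction V using Finset.induction_on with
    | empty => exact ⟨1, map_one _, by simp⟩
    | insert l V _ ih =>
      obtain ⟨z, h5, h6⟩ := ih
      by_cases hil : i = l
      · refine ⟨z, h5, fun m hm him => ?_⟩
        rcases Finset.mem_insert.1 hm with rfl | hm
        exacts [absurd hil him, h6 m hm him]
      have := simpleRing_end (K := K) (S := (S i).S)
      have := simpleRing_end (K := K) (S := (S l).S)
      obtain ⟨z', a1, a2⟩ := sep_of_ker_ne (S i).π.toRingHom (S l).π.toRingHom (hsur i) (hsur l)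
        fun h => hil (hker i l h)
      change (S i).π z' = 1 at a1
      change (S l).π z' = 0 at a2
      refine ⟨z * z', by rw [map_mul, h5, a1, one_mul], fun m hm him => ?_⟩
      rcases Finset.mem_insert.1 hm with rfl | hm
      · rw [map_mul, a2, mul_zero]
      · rw [map_mul, h6 m hm him, zero_mul]
  choose z hz1 hz0 using fun i => hz i U
  let P : K ⊗[k] FreeAlgebra k (ℤ × L) →ₗ[K] ∀ i : U, End K (S i).S :=
    LinearMap.pi fun i => (S i).πl
  have hP : Function.Surjective P := by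
    intro x
    choose y hy using fun i : U => hsur i (x i)
    refine ⟨∑ i, y i * z i, funext fun l => ?_⟩
    change (S l).π _ = _
    rw [map_sum, Finset.sum_eq_single l (fun i _ hi => ?_) (by simp), map_mul, hy, hz1, mul_one]
    rw [map_mul, hz0 i l l.2 fun e => hi (Subtype.ext e), mul_zero]
  let ρ := ((S j).ρ2 K₀).toLinearMap
  have hk : LinearMap.ker ρ ≤ LinearMap.ker P := fun z hz =>
    funext fun i => (hU i i.2).2 z hz
  have h1 : finrank K (∀ i : U, End K (S i).S) ≤ finrank K (LinearMap.range ρ) := by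
    refine LinearMap.finrank_le_finrank_of_surjective
      (f := (LinearMap.ker ρ).liftQ P hk ∘ₗ ρ.quotKerEquivRange.symm.toLinearMap) fun x => ?_
    obtain ⟨y, rfl⟩ := hP x
    exact ⟨ρ.quotKerEquivRange (Submodule.Quotient.mk y), by simp⟩
  have h2 := h1.trans (Submodule.finrank_le _)
  rw [Module.finrank_matrix, Module.finrank_baseChange, Fintype.card_fin, Module.finrank_pi_fintype]
    at h2
  have h3 : U.card * (finrank K (S j).S * finrank K (S j).S)
      ≤ ∑ i : U, finrank K (End K (S i).S) := by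
    rw [← Fintype.card_coe, ← smul_eq_mul, ← Finset.card_univ]
    refine Finset.card_nsmul_le_sum _ _ _ fun i _ => ?_
    rw [Module.finrank_linearMap]
    exact Nat.mul_le_mul (hU i i.2).1 (hU i i.2).1
  have h4 : 0 < finrank K (S j).S := Module.finrank_pos
  exact Nat.le_of_mul_le_mul_right (h3.trans (h2.trans_eq (mul_comm _ _))) (Nat.mul_pos h4 h4)

include hsur hker in
theorem tgen3_sel [FiniteDimensional K₀ K] {κ : ℕ} (hκ : finrank K₀ K ≤ κ)
    (w : J → K ⊗[k] FreeAlgebra k (ℤ × L) → ℚ) (hw1 : ∀ i z, (S i).π z = 1 → w i z ≠ 0)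
    (hw0 : ∀ i z, (S i).ρ2 K₀ z = 0 → w i z = 0) (U : Finset J) :
    ∃ V ⊆ U, U.card ≤ κ * V.card ∧ ∀ y, (∀ i ∈ V, (S i).π y = 1) → ∀ g : J → ℚ,
      (∀ z, ∑ i ∈ V, g i * w i (z * y) = 0) → ∀ i ∈ V, g i = 0 := by
  classical
  induction U using Finset.strongInduction with
  | H U ih =>
    rcases U.eq_empty_or_nonempty with rfl | hne
    · exact ⟨∅, le_rfl, by simp, by simp⟩
    obtain ⟨j, hj, hmin⟩ := U.exists_min_image (fun i => finrank K (S i).S) hne
    let q : J → Prop := fun i => ∀ z, (S j).ρ2 K₀ z = 0 → (S i).π z = 0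
    have hqj : q j := fun z hz => (S j).π_of_ρ2 K₀ hz
    obtain ⟨V, hV, h1, h2⟩ := ih (U.filter fun i => ¬ q i)
      (Finset.filter_ssubset.2 ⟨j, hj, not_not.2 hqj⟩)
    have hjV : j ∉ V := fun h => (Finset.mem_filter.1 (hV h)).2 hqj
    refine ⟨insert j V, Finset.insert_subset hj (hV.trans (Finset.filter_subset _ _)), ?_,
      fun y hy g hg => ?_⟩
    · rw [Finset.card_insert_of_notMem hjV, ← Finset.card_filter_add_card_filter_not (s := U) q,
        mul_add, mul_one, add_comm]
      exact add_le_add h1 ((tgen3_count K₀ S hsur hker j _ fun i hi =>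
        ⟨hmin i (Finset.mem_filter.1 hi).1, (Finset.mem_filter.1 hi).2⟩).trans hκ)
    have hu : ∀ W : Finset J, W ⊆ V → ∃ u, (S j).ρ2 K₀ u = 1 ∧ ∀ i ∈ W, (S i).π u = 0 := by
      intro W
      induction W using Finset.induction_on with
      | empty => exact fun _ => ⟨1, map_one _, by simp⟩
      | insert i W _ ih' =>
        intro hW
        obtain ⟨u, a1, a2⟩ := ih' ((Finset.subset_insert _ _).trans hW)
        have := simpleRing_end (K := K) (S := (S i).S)
        obtain ⟨z, b1, b2⟩ := (sep_aux (S i).π.toRingHom ((S j).ρ2 K₀).toRingHom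
          (hsur i)).resolve_right (Finset.mem_filter.1 (hV (hW (Finset.mem_insert_self _ _)))).2
        change (S i).π z = 1 at b1
        change (S j).ρ2 K₀ z = 0 at b2
        refine ⟨u * (1 - z), by rw [map_mul, map_sub, a1, b2, map_one, sub_zero, one_mul],
          fun m hm => ?_⟩
        rcases Finset.mem_insert.1 hm with rfl | hm
        · rw [map_mul, map_sub, b1, map_one, sub_self, mul_zero]
        · rw [map_mul, a2 m hm, zero_mul]
    obtain ⟨u, a1, a2⟩ := hu V le_rfl
    have h3 : ∀ i ∈ V, g i = 0 := h2 ((1 - u) * y) (fun i hi => by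
      rw [map_mul, map_sub, a2 i hi, map_one, sub_zero, hy i (Finset.mem_insert_of_mem hi),
        one_mul]) g fun z => by
      have := hg (z * (1 - u))
      rwa [Finset.sum_insert hjV, hw0 j _ (by
        rw [map_mul, map_mul, map_sub, a1, map_one, sub_self, mul_zero, zero_mul]), mul_zero,
        zero_add, mul_assoc] at this
    intro i hi
    rcases Finset.mem_insert.1 hi with rfl | hi
    · have := hg 1
      rw [Finset.sum_insert hjV, Finset.sum_eq_zero fun l hl => by rw [h3 l hl, zero_mul],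
        add_zero, one_mul] at this
      exact (mul_eq_zero.1 this).resolve_right (hw1 _ _ (hy _ (Finset.mem_insert_self _ _)))
    · exact h3 i hi

include hsur hker in
theorem generic_bound4 [Fact p.Prime] [CharP k p] [FiniteDimensional K₀ K] {κ : ℕ}
    (hκ : finrank K₀ K ≤ κ)
    [Module.Flat (MvPolynomial (Fin (n + 1)) k) F] (hS : GenRep.Shape T K ξ F t)
    (hξ : ∀ i, ξ i ≠ 0)
    (hGen : ∀ (D : Type u) [CommRing D] [IsDomain D] [Algebra k D] (l r : K →ₐ[k] D),
      (∀ i, l (ξ i) = r (ξ i)) → ∀ a : K₀, l (algebraMap K₀ K a) = r (algebraMap K₀ K a))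
    {c : FreeAlgebra k (ℤ × L)} (hc : c ∈ degSub k L 0) {Gd : LRep k T.par → Prop} {b : ℕ}
    (h1 : ∀ E, T.Adm E → ¬ Gd E → ∀ a, T.act (T.Ind E) c a = 0) (h2 : T.Rank Gd b)
    [Fintype J] (hθ : ∀ i, (S i).π0 c = 1) : Fintype.card J ≤ κ * b := by
  classical
  choose M G hM hw1 hw0 using fun i => (S i).lattice2 hS
  let c0 : K ⊗[k] FreeAlgebra k (ℤ × L) := 1 ⊗ₜ c
  have h3 : ∀ i, (S i).π c0 = 1 := fun i => by rw [GenRep.π_tmul, hθ, one_smul]
  let v' : LRep k L → K ⊗[k] FreeAlgebra k (ℤ × L) → ℚ := fun R z => T.v F K t R (z * c0)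
  have hv' : T.Addu v' := fun _ _ _ f g hf hg hi hs hex h => funext fun z =>
    congrFun (T.v_add F K t hf hg hi hs hex h) _
  obtain ⟨V1, hV1, hV⟩ := h2 _ v' hv' (fun R _ i hi => funext fun z => by
    have hX : algebraMap (MvPolynomial (Fin (n + 1)) k) F (MvPolynomial.X i) ≠ 0 := by
      refine Fin.cases ?_ (fun i => ?_) i
      · rw [hS.X0]; exact hS.t0
      · rw [hS.Xs]
        exact mul_ne_zero ((map_ne_zero _).2 (pow_ne_zero _ (hξ i))) (pow_ne_zero _ hS.t0)
    have h0 : ∀ x : T.XM F R, x = 0 := fun x => by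
      induction x using TensorProduct.induction_on with
      | zero => rfl
      | add a b ha hb => rw [ha, hb, add_zero]
      | tmul a m =>
        refine (smul_eq_zero_iff_right hX).1 ?_
        rw [algebraMap_smul, ← tmul_smul, X_smul, hi]
        exact tmul_zero _ _
    simp only [v', v, Pi.zero_apply, Nat.cast_eq_zero]
    exact sr_nil ⟨1, LinearMap.ext fun x => h0 _⟩) fun E hE hG => funext fun z => by
      have := T.ψ_scalar F K hS.t0 (T.Ind E) hc (c := 0) fun m => by rw [h1 E hE hG, zero_smul]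
      simp only [v', v, Pi.zero_apply, Nat.cast_eq_zero]
      rw [map_mul, this, map_zero, mul_zero]
      exact sr_nil IsNilpotent.zero
  let w : J → K ⊗[k] FreeAlgebra k (ℤ × L) → ℚ := fun i => v' (M i)
  obtain ⟨V, -, a1, a2⟩ := tgen3_sel K₀ S hsur hker hκ w
    (fun i z hz => hw1 i _ (by rw [map_mul, hz, h3, one_mul]))
    (fun i z hz => hw0 i _ ((S i).nil2 K₀ hS hGen (by rw [map_mul, hz, zero_mul]))) Finset.univ
  refine a1.trans (Nat.mul_le_mul_left κ ?_)
  have hli : LinearIndependent ℚ fun i : V => w i := by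
    refine Fintype.linearIndependent_iff.2 fun g hg i => ?_
    have := a2 1 (fun _ _ => map_one _) (fun l => if h : l ∈ V then g ⟨l, h⟩ else 0)
      (fun z => ?_) i i.2
    · simpa using this
    rw [← Finset.sum_coe_sort V, mul_one]
    simpa using congrFun hg z
  have hmem : ∀ i, w i ∈ Submodule.span ℚ (V1 : Set _) := by
    intro i
    refine (Submodule.span_le.2 ?_) (hv'.mem T (Fact.out : p.Prime).two_le _ _ (hM i))
    rintro _ ⟨E, hE, rfl⟩
    exact hV E hE
  have hli' := LinearIndependent.of_comp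
    (v := fun i : V => (⟨_, hmem i⟩ : Submodule.span ℚ _)) (Submodule.subtype _) hli
  rw [← Fintype.card_coe]
  exact hli'.fintype_card_le_finrank.trans ((finrank_span_finset_le_card _).trans hV1)

end Trg

open MvPolynomial in
theorem Trg.generic_bound5 {k : Type u} [Field k] {L : Type u} [LieRing L] [LieAlgebra k L]
    {n p : ℕ} (T : Trg k L (n + 1) p) {K : Type u} [Field K] [Algebra k K] {ξ : Fin n → K}
    [Fact p.Prime] [CharP k p] (K₀ : Type u) [Field K₀] [Algebra k K₀] [Algebra K₀ K]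
    [IsScalarTower k K₀ K] [FiniteDimensional K₀ K] {κ : ℕ} (hκ : finrank K₀ K ≤ κ)
    (hδ : T.δ 0 = 1) (hq0 : T.q 0 = 1) (hqs : ∀ i : Fin n, T.q i.succ = p)
    (hξ : Function.Injective (aeval (R := k) ξ))
    (hGen : ∀ (D : Type u) [CommRing D] [IsDomain D] [Algebra k D] (l r : K →ₐ[k] D),
      (∀ i, l (ξ i) = r (ξ i)) → ∀ a : K₀, l (algebraMap K₀ K a) = r (algebraMap K₀ K a))
    {c : FreeAlgebra k (ℤ × L)} (hc : c ∈ degSub k L 0) {Gd : LRep k T.par → Prop} {b : ℕ}
    (h1 : ∀ E, T.Adm E → ¬ Gd E → ∀ a, T.act (T.Ind E) c a = 0) (h2 : T.Rank Gd b)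
    {J : Type u} [Fintype J] (S : J → T.GenRep K ξ) (hθ : ∀ i, (S i).π0 c = 1)
    (hsur : ∀ i, Function.Surjective (S i).π)
    (hker : ∀ i j, (∀ z, (S i).π z = 0 ↔ (S j).π z = 0) → i = j) : Fintype.card J ≤ κ * b := by
  let φ := aeval (R := k) (Fin.cons RatFunc.X fun i =>
      algebraMap K (RatFunc K) (ξ i ^ p) * RatFunc.X ^ (p * T.δ i.succ) : Fin (n + 1) → RatFunc K)
  let : Algebra (MvPolynomial (Fin (n + 1)) k) (RatFunc K) := φ.toRingHom.toAlgebra
  have : IsScalarTower k (MvPolynomial (Fin (n + 1)) k) (RatFunc K) :=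
    IsScalarTower.of_algebraMap_eq fun c => (φ.commutes c).symm
  have : Module.Flat (MvPolynomial (Fin (n + 1)) k) (RatFunc K) :=
    flat_of_inj (shape_inj (Fact.out : p.Prime).pos ξ hξ _)
  exact Trg.generic_bound4 (F := RatFunc K) (t := RatFunc.X) K₀ S hsur hker hκ
    ⟨hδ, hq0, hqs, RatFunc.X_ne_zero, aeval_X _ _, fun i => aeval_X _ _⟩
    (fun i h => MvPolynomial.X_ne_zero (R := k) i (hξ (by simp [h]))) hGen hc h1 h2 hθ

end Pool.Agent.P.Bf04
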