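import Pool.Agent.P.MP_bf0464_al.H.T2C
import Pool.Agent.P.MP_bf0464_al.H.TGen3

/-! The generic step over a finite extension. -/

namespace Pool.Agent.P.Bf04

open Matrix Module

attribute [local instance 100] LieRing.ofAssociativeRing

universe u v w

open TensorProduct

theorem RD.four_le_wn (D : RD) {i j : D.Δ} (h : i ≠ j) : 4 ≤ D.wn := by
  classical
  let f : D.Δ → ℤ → (D.σ → ℤ) := fun l c => c • D.rt (D.s l)
  have inj : ∀ a b a' b' : ℤ, f i a + f j b = f i a' + f j b' → a = a' ∧ b = b' := by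
    intro a b a' b' e
    have := D.li (Pi.single i (a - a') + Pi.single j (b - b')) (by
      simp only [Pi.add_apply, add_smul, Finset.sum_add_distrib, Pi.single_apply, ite_smul,
        zero_smul, Finset.sum_ite_eq', Finset.mem_univ, if_true, sub_smul]
      rw [sub_add_sub_comm]
      exact sub_eq_zero.2 e)
    have h1 := congrFun this i
    have h2 := congrFun this j
    simp only [Pi.add_apply, Pi.single_eq_same, Pi.single_eq_of_ne h, Pi.single_eq_of_ne h.symm,
      Pi.zero_apply] at h1 h2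
    omega
  have hA : D.rt (D.s j) ⬝ᵥ D.cr (D.s i) ≤ 0 := D.A_nonpos h.symm
  set c := D.rt (D.s j) ⬝ᵥ D.cr (D.s i) with hc
  have key := D.card_le_wn 0 {f i 0 + f j 0, f i (-1) + f j 0, f i 0 + f j (-1),
    f i (c - 1) + f j (-1)} (by
      intro ν hν
      simp only [Finset.mem_insert, Finset.mem_singleton] at hν
      rcases hν with rfl | rfl | rfl | rfl
      · exact ⟨1, one_mem _, by simp [f]⟩
      · exact ⟨_, D.dot_mem i, by simp [f, RD.dot, RD.dotf]⟩
      · exact ⟨_, D.dot_mem j, by simp [f, RD.dot, RD.dotf]⟩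
      · refine ⟨_, mul_mem (D.dot_mem i) (D.dot_mem j), ?_⟩
        simp only [f, RD.dot, RD.dotf, Equiv.Perm.mul_apply, Function.Involutive.coe_toPerm,
          zero_dotProduct, zero_add, one_smul, zero_sub, neg_dotProduct, ← hc]
        module)
  rw [Finset.card_insert_of_notMem, Finset.card_insert_of_notMem, Finset.card_pair] at key
  · exact key
  · intro e
    have := inj _ _ _ _ e
    omega
  · simp only [Finset.mem_insert, Finset.mem_singleton, not_or]
    exact ⟨fun e => by have := inj _ _ _ _ e; omega, fun e => by have := inj _ _ _ _ e; omega⟩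
  · simp only [Finset.mem_insert, Finset.mem_singleton, not_or]
    exact ⟨fun e => by have := inj _ _ _ _ e; omega, fun e => by have := inj _ _ _ _ e; omega,
      fun e => by have := inj _ _ _ _ e; omega⟩

namespace CD

variable {D : CD} {J : Finset D.Δ} {k : Type u} [Field k] {p : ℕ} [Fact p.Prime] [CharP k p]
  {e₀ : D.B → k} {h₀ : D.Std e₀}

theorem sav_std_four {χ : D.B → k} (hχ : D.Std χ)
    (h : ∀ β, χ (.inr β) ≠ 0 → ∃ i, β = D.neg (D.s i)) {i j : D.Δ} (hij : i ≠ j)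
    (hi : χ (.inr (D.neg (D.s i))) ≠ 0) (hj : χ (.inr (D.neg (D.s j))) ≠ 0) : D.Sav p χ 4 := by
  classical
  exact mod2_sav hχ h (Finset.univ.filter fun i => χ (.inr (D.neg (D.s i))) ≠ 0) (by simp)
    four_pos (RD.four_le_wn _ (i := ⟨i, by simpa using hi⟩) (j := ⟨j, by simpa using hj⟩)
      fun e => hij (congrArg Subtype.val e))

omit [Fact p.Prime] [CharP k p] in
theorem Sav.anti {χ : D.B → k} {s s' : ℕ} (h : D.Sav p χ s) (h0 : 0 < s') (hs : s' ≤ s) :
    D.Sav p χ s' := fun μ => (h μ).mono (Nat.div_le_div_left hs h0)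

variable (D J) in
/-- the generic point over e₀ is conjugate to χ over an extension of degree at most κ -/
def ConjF (e₀ χ : D.B → k) (κ : ℕ) : Prop :=
  ∀ (K₀ : Type u) [Field K₀] [Algebra k K₀] (η : D.B → K₀),
    (∀ b, 0 ≤ D.dB (D.dJ J) b → η b = algebraMap k K₀ (e₀ b)) →
    (AlgebraicIndependent k fun b : D.Nil J => η b.1) →
      ∃ (K : Type u) (_ : Field K) (_ : Algebra K₀ K), FiniteDimensional K₀ K ∧ finrank K₀ K ≤ κ ∧
        ∃ A ∈ D.G K, (algebraMap K₀ K ∘ algebraMap k K₀ ∘ χ) ᵥ* A = algebraMap K₀ K ∘ η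

theorem t2d_main [IsAlgClosed k] {K : Type u} [Field K] [Algebra k K] {η : D.B → K}
    (hη : ∀ b, 0 ≤ D.dB (D.dJ J) b → η b = algebraMap k K (e₀ b)) {μ : D.σ → ℤ}
    {χ : D.B → k} {b : ℕ}
    (h : (D.trg J p h₀).Rank (D.Gd J p h₀ μ) b) {A : Matrix D.B D.B K} (hA : A ∈ D.G K)
    (hc : (algebraMap k K ∘ χ) ᵥ* A = η)
    (hξ : Function.Injective (MvPolynomial.aeval (R := k) fun i => η (D.en J i).1))
    (K₀ : Type u) [Field K₀] [Algebra k K₀] [Algebra K₀ K]
    [IsScalarTower k K₀ K] [FiniteDimensional K₀ K] {κ : ℕ} (hκ : finrank K₀ K ≤ κ)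
    (hGen : ∀ (R : Type u) [CommRing R] [IsDomain R] [Algebra k R] (l r : K →ₐ[k] R),
      (∀ i, l (η (D.en J i).1) = r (η (D.en J i).1)) →
        ∀ a : K₀, l (algebraMap K₀ K a) = r (algebraMap K₀ K a)) :
    D.BndAt p χ μ (κ * b) := by
  have : CharP K p := charP_of_injective_algebraMap (algebraMap k K).injective p
  obtain ⟨z, f, hz, f1, f2⟩ := exists_idem.{u} D p μ
  obtain ⟨A', -, h1, -⟩ := GS_inv hA
  have hs : D.Std η := t2c_std (h₀ := h₀) (hη := hη)
  intro I _ S hS hi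
  have hR : ∀ a, D.Adm p η μ ((bcRep K (S a)).res (D.autHom A (GS_aut hA))) := fun a =>
    hc ▸ (hS a).bc.twist hA (GS_aut hA) (hc ▸ hs)
  have key : ∀ a w, (t2cRep h₀ hη (hR a)).π (D.t2cΨ J k K (FreeAlgebra.lift K
      (fun x : D.g K => FreeAlgebra.ι K (A' *ᵥ x : D.g K)) w)) = (bcRep K (S a)).act w :=
    fun a w => (t2c_π_Ψ (hR a) _).trans (t2c_twist _ h1 _ w)
  refine (D.trg J p h₀).generic_bound5 K₀ hκ rfl rfl (fun _ => rfl) hξ hGen
    (fr_deg (J := J) hz.wt)
    (fun E hE hG a => ?_) h (fun a => t2cRep h₀ hη (hR a)) (fun a => ?_) (fun a F => ?_)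
    fun a a' hk => hi _ _ ?_
  · have := hE.fd
    have := hE.simple.1
    obtain ⟨ν, hν⟩ := exists_hw (D.std_levi J h₀) (adm_pc hE.rel)
    rw [cen_ind hz hE hν, (CharP.intCast_eq_zero_iff k p _).2 (f2 ν fun hl => hG ⟨ν, hl, hν⟩),
      zero_smul]
  · have e : ((MvPolynomial.eval μ f : ℤ) : K) = 1 := by
      have := (CharP.intCast_eq_zero_iff K p _).2 f1
      rwa [Int.cast_sub, Int.cast_one, sub_eq_zero] at this
    rw [t2c_π0_fr, hz.adm (hR a), e, map_one]
    rfl
  · have := (hS a).fd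
    obtain ⟨w, hw⟩ := t2c_surj (K := K) (hS a).simple F
    exact ⟨_, (key a w).trans hw⟩
  · have := (hS a).fd
    refine bcRep_ker (K' := K) (hS a).simple (hS a').simple fun w => ?_
    rw [← key, ← key]
    exact hk _

theorem t2coreF [IsAlgClosed k] {χ : D.B → k} {κ : ℕ}
    (hc : D.ConjF J e₀ χ κ) {μ : D.σ → ℤ} {b : ℕ}
    (h : (D.trg J p h₀).Rank (D.Gd J p h₀ μ) b) : D.BndAt p χ μ (κ * b) := by
  let P := MvPolynomial (D.Nil J) k
  let K₀ := FractionRing P
  let φ : P →ₐ[k] K₀ := IsScalarTower.toAlgHom k P K₀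
  let η : D.B → K₀ := fun b =>
    if h : D.dB (D.dJ J) b < 0 then φ (MvPolynomial.X ⟨b, h⟩) else algebraMap k K₀ (e₀ b)
  have h1 : ∀ b, 0 ≤ D.dB (D.dJ J) b → η b = algebraMap k K₀ (e₀ b) := fun b hb =>
    dif_neg (not_lt.2 hb)
  have h2 : ∀ b : D.Nil J, η b.1 = φ (MvPolynomial.X b) := fun b => dif_pos b.2
  have h3 : AlgebraicIndependent k fun b : D.Nil J => η b.1 := by
    rw [funext h2]
    exact (MvPolynomial.algebraicIndependent_X (D.Nil J) k).map' (f := φ)
      (IsFractionRing.injective P K₀)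
  obtain ⟨K, _, _, _, hκ, A, hA, e⟩ := hc K₀ η h1 h3
  let _ : Algebra k K := ((algebraMap K₀ K).comp (algebraMap k K₀)).toAlgebra
  have : IsScalarTower k K₀ K := IsScalarTower.of_algebraMap_eq fun _ => rfl
  let j : K₀ →ₐ[k] K := IsScalarTower.toAlgHom k K₀ K
  refine t2d_main (η := j ∘ η) (fun b hb => ?_) h hA e ?_ K₀ hκ fun R _ _ _ l r hl a => ?_
  · rw [Function.comp_apply, h1 b hb, AlgHom.commutes]
  · exact algebraicIndependent_iff_injective_aeval.1
      ((h3.comp _ (D.en J).injective).map' (f := j) j.toRingHom.injective)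
  · refine AlgHom.congr_fun (φ₁ := l.comp j) (φ₂ := r.comp j) ?_ a
    refine IsLocalization.algHom_ext (nonZeroDivisors P) (MvPolynomial.algHom_ext fun b => ?_)
    obtain ⟨i, rfl⟩ := (D.en J).surjective b
    have := hl i
    rw [Function.comp_apply, h2] at this
    exact this

include h₀ in
theorem t2F [IsAlgClosed k] {χ : D.B → k} {κ s : ℕ} (hs : 0 < s)
    (hc : D.ConjF J e₀ χ κ) (h : (D.levi J).Sav p (D.leviχ J e₀) (κ * s)) : D.Sav p χ s := by
  intro μ
  obtain ⟨T, hT, hw⟩ := D.exists_reps J p μ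
  refine (t2coreF hc (rank_levi (h₀ := h₀) T hT fun t _ => h t)).mono ?_
  rw [Nat.le_div_iff_mul_le hs]
  refine le_trans (le_of_eq ?_) ((Nat.mul_le_mul_left T.card
    (Nat.div_mul_le_self (D.levi J).wn (κ * s))).trans hw)
  ring

end CD

end Pool.Agent.P.Bf04
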