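import Pool.Agent.P.MP_bf0464_al.H.ECkA
import Pool.Agent.P.MP_bf0464_al.H.ECj
import Pool.Agent.P.MP_bf0464_al.H.T2D

/-! Chains of moves over finite extensions and the generic step. -/

namespace Pool.Agent.P.Bf04

open Matrix Module

attribute [local instance 100] LieRing.ofAssociativeRing

universe u v w

namespace CD

variable {D : CD} {p : ℕ} [Fact p.Prime] {Q F B : Set D.ι} {κ : ℕ} {δ γ z : D.ι}

variable (D p) in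
/-- generic forms are conjugate to the indicator of B over an extension of degree at most κ -/
def Ck (Q F B : Set D.ι) (κ : ℕ) : Prop :=
  ∀ (K₀ : Type u) [Field K₀] [Algebra (ZMod p) K₀], Big p K₀ → ∀ η : D.B → K₀, D.Gen p Q F η →
    ∃ (K : Type u) (_ : Field K) (_ : Algebra K₀ K), FiniteDimensional K₀ K ∧ finrank K₀ K ≤ κ ∧
      ∃ A ∈ D.G K, (algebraMap K₀ K ∘ η) ᵥ* A = D.ind K B

theorem Ck.mono {κ' : ℕ} (h : Ck.{u} D p Q F B κ) (hκ : κ ≤ κ') : Ck.{u} D p Q F B κ' := by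
  intro K₀ _ _ hK η hη
  obtain ⟨K, _, _, h1, h2, h3⟩ := h K₀ hK η hη
  exact ⟨K, _, _, h1, h2.trans hκ, h3⟩

theorem Ck.of_cj (hκ : 0 < κ) (h : Cj.{u} D p Q F B κ) : Ck.{u} D p Q F B κ := by
  intro K₀ _ _ _ η hη
  obtain ⟨c, hc⟩ := h K₀ η hη
  have hd := Polynomial.natDegree_X_pow_sub_C (n := κ) (r := c)
  obtain ⟨K, _, _, h1, h2, x, hx⟩ := exists_root_ext _ (hd.symm ▸ hκ)
  refine ⟨K, _, _, h1, hd ▸ h2, hc K _ x ?_⟩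
  simpa [sub_eq_zero] using hx

theorem Ck.move {Q' F' : Set D.ι} (h : Ck.{u} D p Q' F' B κ)
    (hm : ∀ (K₀ : Type u) [Field K₀] [Algebra (ZMod p) K₀], Big p K₀ → ∀ η : D.B → K₀,
      D.Gen p Q F η → ∃ A ∈ D.G K₀, D.Gen p Q' F' (η ᵥ* A)) : Ck.{u} D p Q F B κ := by
  intro K₀ _ _ hK η hη
  obtain ⟨A, hA, h1⟩ := hm K₀ hK η hη
  obtain ⟨K, _, _, h2, h3, A', hA', h4⟩ := h K₀ hK _ h1
  refine ⟨K, _, _, h2, h3, A.map (algebraMap K₀ K) * A', mul_mem (GS_map _ hA) hA', ?_⟩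
  rw [← vecMul_vecMul, ← map_vecMul, h4]

theorem Ck.weaken {Q' F' : Set D.ι} (h : Ck.{u} D p Q' F' B κ) (hQ : Q' ⊆ Q)
    (hF : Q ∪ F ⊆ Q' ∪ F') : Ck.{u} D p Q F B κ :=
  fun K₀ _ _ hK η hη => h K₀ hK η (gen_weaken hη hQ hF)

theorem Ck.nW (l : List D.Δ) (h : Ck.{u} D p {β | D.rw l β ∈ Q} {β | D.rw l β ∈ F} B κ) :
    Ck.{u} D p Q F B κ :=
  h.move fun _ _ _ _ _ hη => ⟨_, D.nW_mem l, gen_nW hη l⟩

theorem Ck.block (hg : D.Good p) {T R : Set D.ι} {m : ℕ} {γ δ z : Fin m → D.ι}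
    (hb : D.Blk Q F T R γ δ z) (h : Ck.{u} D p (Q \ Set.range γ) F B κ) : Ck.{u} D p Q F B κ :=
  h.move fun _ _ _ _ _ hη => gen_block hg hη hb

theorem Ck.down (hg : D.Good p) (hm : D.Mv Q F δ) (hz : z ∈ Q) (hγ : γ ∈ Q)
    (hs : D.co z + D.co δ = D.co γ) (h2 : z ∉ D.Sh δ Q) (h : Ck.{u} D p (Q \ {γ}) F B κ) :
    Ck.{u} D p Q F B κ :=
  Ck.block hg (hm.blk hz hγ hs h2) (by rwa [Set.range_const])

theorem Ck.up (hg : D.Good p) (hm : D.Mv (insert γ Q) F δ) (hz : z ∈ Q) (hγ : γ ∉ Q)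
    (hs : D.co z + D.co δ = D.co γ) (h2 : z ∉ D.Sh δ (insert γ Q))
    (h : Ck.{u} D p (insert γ Q) F B κ) : Ck.{u} D p Q F B κ :=
  h.move fun _ _ _ hK _ hη => gen_up hg hK hη hm hz hγ hs h2

theorem Ck.quad (hg : D.Good p) {δ₁ δ₂ γ₁ γ₂ z₁ z₂ v w : D.ι}
    (m₁ : D.Mv Q F δ₁) (m₂ : D.Mv Q F δ₂)
    (n₁ : ∀ β ∈ Q, β ∉ D.Sh δ₁ (Q ∩ D.Sh δ₁ Q)) (n₂ : ∀ β ∈ Q, β ∉ D.Sh δ₂ (Q ∩ D.Sh δ₂ Q))
    (g₁ : γ₁ ∈ Q) (g₂ : γ₂ ∈ Q) (hne : γ₁ ≠ γ₂)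
    (a₁ : z₁ ∈ Q) (s₁ : D.co z₁ + D.co δ₁ = D.co γ₁)
    (a₂ : z₂ ∈ Q) (s₂ : D.co z₂ + D.co δ₂ = D.co γ₁) (a₃ : z₂ ∉ D.Sh δ₁ Q)
    (a₄ : v ∈ Q) (s₃ : D.co v + D.co δ₁ = D.co w) (s₄ : D.co w + D.co δ₂ = D.co γ₂)
    (h : Ck.{u} D p (Q \ {γ₁, γ₂}) F B κ) : Ck.{u} D p Q F B (2 * κ) := by
  intro K₀ _ _ hK η hη
  obtain ⟨K, _, _, h1, h2, h3⟩ := gen_quad hg hη m₁ m₂ n₁ n₂ g₁ g₂ hne a₁ s₁ a₂ s₂ a₃ a₄ s₃ s₄
  let _ : Algebra (ZMod p) K := ((algebraMap K₀ K).comp (algebraMap (ZMod p) K₀)).toAlgebra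
  obtain ⟨A, hA, h4⟩ := h3
  obtain ⟨K', _, _, h5, h6, A', hA', h7⟩ := h K (hK.map (algebraMap K₀ K)) _ h4
  let _ : Algebra K₀ K' := ((algebraMap K K').comp (algebraMap K₀ K)).toAlgebra
  have : IsScalarTower K₀ K K' := IsScalarTower.of_algebraMap_eq fun _ => rfl
  refine ⟨K', _, _, FiniteDimensional.trans K₀ K K', ?_, A.map (algebraMap K K') * A',
    mul_mem (GS_map _ hA) hA', ?_⟩
  · rw [← finrank_mul_finrank K₀ K K']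
    exact Nat.mul_le_mul h2 h6
  · rw [← vecMul_vecMul, ← h7, map_vecMul]
    rfl

theorem ck_fin {n : ℕ} (b : Fin (n + 1) → D.ι) (Λ : Fin (n + 1) → D.Δ → ℤ) (hκ : 0 < κ)
    (h0 : D.dg (Λ 0) (b 0) = κ) (h1 : ∀ i j, j ≠ 0 → D.dg (Λ i) (b j) = if i = j then 1 else 0)
    {a : ℤ} (ha : 0 < a) {d : D.Δ → ℤ} (hb : ∀ i, D.dg d (b i) = a)
    (hs : ∀ (K : Type u) [Field K] [CharP K p], D.Sur a d (D.ind K (Set.range b))) :
    Ck.{u} D p (Set.range b) {β | a < D.dg d β} (Set.range b) κ :=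
  Ck.of_cj hκ (cj_fin b Λ hκ h0 h1 ha hb hs)

variable {k : Type u} [Field k] [CharP k p]

omit [CharP k p] in
theorem conj_of_ck [Algebra (ZMod p) k] (hk : Big p k) (J : Finset D.Δ) {e₀ : D.B → k}
    (h₀ : D.Gen p Q ∅ e₀) (hQ : ∀ β ∈ Q, D.In J β)
    (h : Ck.{u} D p (Q ∪ {β | D.Pos β ∧ ¬ D.In J β}) ∅ B κ) : D.ConjF J e₀ (D.ind k B) κ := by
  classical
  intro K₀ _ _ η h1 h2
  let _ : Algebra (ZMod p) K₀ := ((algebraMap k K₀).comp (algebraMap (ZMod p) k)).toAlgebra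
  have : IsScalarTower (ZMod p) k K₀ := IsScalarTower.of_algebraMap_eq fun _ => rfl
  have hn : ∀ β, D.dB (D.dJ J) (.inr (D.neg β)) < 0 ↔ D.Pos β ∧ ¬ D.In J β := fun β => by
    simp [D.dJ_neg_iff, D.pos_neg_iff, D.in_neg]
  have hG : D.Gen p (Q ∪ {β | D.Pos β ∧ ¬ D.In J β}) ∅ η := by
    refine ⟨⟨fun a => ?_, fun β hβ => .inl ?_⟩, ?_⟩
    · rw [h1 _ (D.dB_inl _ a).ge, h₀.supp.1, map_zero]
    · by_contra hc
      rw [Set.mem_union, not_or] at hc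
      rw [RD.cd, h1 _ (not_lt.1 (mt (hn β).1 hc.2))] at hβ
      exact (h₀.supp.2 β fun e => hβ (by rw [show e₀ _ = 0 from e, map_zero])).elim hc.1 id
    · let f : ↥(Q ∪ {β | D.Pos β ∧ ¬ D.In J β}) → D.Nil J ⊕ Q := fun β =>
        if h : β.1 ∈ Q then .inr ⟨β, h⟩ else .inl ⟨_, (hn β).2 (β.2.resolve_left h)⟩
      have hf : ∀ β, Sum.elim (fun b : D.Nil J => b.1) (fun γ : Q => .inr (D.neg γ)) (f β)
          = (.inr (D.neg β) : D.B) := fun β => by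
        simp only [f]
        split_ifs <;> rfl
      have hi : Function.Injective f := fun β γ e => Subtype.ext (by
        have := Sum.inr_injective ((hf β).symm.trans (e ▸ hf γ))
        rw [← D.neg_neg β, this, D.neg_neg])
      convert (h₀.ind.sumElim_comp h2).comp f hi using 1
      funext β
      simp only [f, Function.comp_apply]
      split_ifs with hβ
      · exact h1 _ (not_lt.1 fun e => ((hn β).1 e).2 (hQ β hβ))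
      · rfl
  obtain ⟨K, _, _, a1, a2, A, hA, e⟩ := h K₀ (hk.map (algebraMap k K₀)) η hG
  obtain ⟨A', hA', h1, -⟩ := D.GS_inv hA
  refine ⟨K, _, _, a1, a2, A', hA', ?_⟩
  rw [RD.map_ind, RD.map_ind, ← e, vecMul_vecMul, h1, vecMul_one]

theorem exists_gen_big (Q : Set D.ι) : ∃ (k' : Type u) (_ : Field k') (_ : IsAlgClosed k')
    (_ : CharP k' p) (_ : Algebra (ZMod p) k') (_ : k →+* k') (e₀ : D.B → k'),
      Big p k' ∧ D.Gen p Q ∅ e₀ := by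
  let k₁ := FractionRing (MvPolynomial ℕ k)
  have : CharP k₁ p := charP_of_injective_algebraMap (algebraMap k k₁).injective p
  let _ : Algebra (ZMod p) k := ZMod.algebra k p
  have hb : Big p k₁ := ⟨_, ((MvPolynomial.algebraicIndependent_X ℕ k).map'
    (f := IsScalarTower.toAlgHom k (MvPolynomial ℕ k) k₁)
      (IsFractionRing.injective (MvPolynomial ℕ k) _)).restrictScalars
        (algebraMap (ZMod p) k).injective⟩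
  obtain ⟨k', _, _, _, _, φ, e₀, h₀⟩ := exists_gen (k := k₁) (p := p) Q
  exact ⟨k', _, inferInstance, inferInstance, _, φ.comp (algebraMap k k₁), e₀, hb.map φ, h₀⟩

theorem savI_of_ck (J : Finset D.Δ) (hQ : ∀ β ∈ Q, D.Pos β ∧ D.In J β) {s : ℕ}
    (hs : 0 < s) (h0 : SavG.{u} (D.levi J) p {β | β.1 ∈ Q} (κ * s))
    (h : Ck.{u} D p (Q ∪ {β | D.Pos β ∧ ¬ D.In J β}) ∅ B κ) : SavI.{u} D p B s := by
  intro k _ _ _
  obtain ⟨k', _, _, _, _, φ, e₀, hk, h₀⟩ := exists_gen_big (k := k) (p := p) Q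
  refine Sav.bc φ ?_
  rw [RD.map_ind]
  exact t2F (h₀ := ecj_std h₀ fun β hβ => (hQ β hβ).1) hs
    (conj_of_ck hk J h₀ (fun β hβ => (hQ β hβ).2) h)
    (h0 k' _ (gen_levi h₀ J fun β hβ => (hQ β hβ).2))

theorem savG_four (hQ : ∀ β ∈ Q, ∃ i, β = D.s i) {i j : D.Δ} (hij : i ≠ j) (hi : D.s i ∈ Q)
    (hj : D.s j ∈ Q) : SavG.{u} D p Q 4 := by
  intro k _ _ _ _ e₀ h₀
  refine sav_std_four (ecj_std h₀ fun β hβ => ?_) (fun β hβ => ?_) hij (gen_ne h₀ hi)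
    (gen_ne h₀ hj)
  · obtain ⟨i, rfl⟩ := hQ β hβ
    exact D.pos_s i
  · obtain ⟨i, e⟩ := hQ _ ((ecj_neg h₀.supp hβ).resolve_right id)
    exact ⟨i, by rw [← e, D.neg_neg]⟩

/-- index one -/
theorem savI_one (ih : IH.{u} D p) {J : Finset D.Δ} (hJ : J ≠ Finset.univ)
    (hQ : ∀ β ∈ Q, D.Pos β ∧ D.In J β)
    (h : Ck.{u} D p (Q ∪ {β | D.Pos β ∧ ¬ D.In J β}) ∅ B 1) : SavI.{u} D p B 1 :=
  savI_of_ck (κ := 1) J hQ one_pos (savG_of_hum (ih J hJ) fun β hβ =>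
    (D.levi_pos J β).2 (hQ _ hβ).1) h

theorem eck_simple {J I : Finset D.Δ} (hI : I ⊆ J) (β : (D.levi J).ι)
    (hβ : β.1 ∈ D.s '' I) : ∃ i, β = (D.levi J).s i := by
  obtain ⟨i, hi, e⟩ := hβ
  exact ⟨⟨i, hI hi⟩, Subtype.ext e.symm⟩

theorem eck_in {J I : Finset D.Δ} (hI : I ⊆ J) : ∀ β ∈ D.s '' I, D.Pos β ∧ D.In J β := by
  rintro _ ⟨i, hi, rfl⟩
  exact ⟨D.pos_s i, D.in_s.2 (hI hi)⟩

/-- index two, one simple root -/
theorem savI_two {J I : Finset D.Δ} (hI : I ⊆ J) {i : D.Δ} (hi : i ∈ I)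
    (h : Ck.{u} D p (D.s '' I ∪ {β | D.Pos β ∧ ¬ D.In J β}) ∅ B 2) : SavI.{u} D p B 1 :=
  savI_of_ck (κ := 2) J (eck_in hI) one_pos
    (savG_std (eck_simple hI) ⟨(D.levi J).s ⟨i, hI hi⟩, i, hi, rfl⟩) h

/-- index at most four, two simple roots -/
theorem savI_four {J I : Finset D.Δ} (hI : I ⊆ J) {i j : D.Δ} (hi : i ∈ I) (hj : j ∈ I)
    (hij : i ≠ j) (h : Ck.{u} D p (D.s '' I ∪ {β | D.Pos β ∧ ¬ D.In J β}) ∅ B 4) :
    SavI.{u} D p B 1 :=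
  savI_of_ck (κ := 4) J (eck_in hI) one_pos
    (savG_four (eck_simple hI) (i := ⟨i, hI hi⟩) (j := ⟨j, hI hj⟩)
      (fun e => hij (congrArg Subtype.val e)) ⟨i, hi, rfl⟩ ⟨j, hj, rfl⟩) h

end CD

end Pool.Agent.P.Bf04
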