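import Pool.Agent.P.MP_bf0464_al.H.ECjA

/-! Single moves: down, up and quadratic. -/

namespace Pool.Agent.P.Bf04

open Matrix Module

attribute [local instance 100] LieRing.ofAssociativeRing

universe u v w

/-- fields of infinite transcendence degree -/
def Big (p : ℕ) (K : Type u) [Field K] [Algebra (ZMod p) K] : Prop :=
  ∃ x : ℕ → K, AlgebraicIndependent (ZMod p) x

theorem Big.map {p : ℕ} [Fact p.Prime] {K K' : Type u} [Field K] [Algebra (ZMod p) K] [Field K']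
    [Algebra (ZMod p) K'] (h : Big p K) (φ : K →+* K') : Big p K' := by
  obtain ⟨x, hx⟩ := h
  exact ⟨_, hx.map' (f := { φ with
    commutes' := RingHom.congr_fun (Subsingleton.elim (φ.comp (algebraMap (ZMod p) K))
      (algebraMap (ZMod p) K')) }) φ.injective⟩

theorem Big.spare {p : ℕ} [Fact p.Prime] {K : Type u} [Field K] [Algebra (ZMod p) K] (h : Big p K)
    {ι : Type} [Finite ι] {x : ι → K} (hx : AlgebraicIndependent (ZMod p) x) :
    ∃ t, AlgebraicIndependent (ZMod p) fun o : Option ι => o.elim t x := by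
  obtain ⟨y, hy⟩ := h
  let M := AlgebraicIndependent.matroid (ZMod p) K
  obtain ⟨t, ht, h1⟩ := Matroid.Indep.augment (M := M) (I := Set.range x) (J := Set.range y)
    hx.to_subtype_range hy.to_subtype_range (by
      rw [(Set.infinite_range_of_injective hy.injective).encard_eq]
      exact (Set.finite_range x).encard_lt_top)
  refine ⟨t, AlgebraicIndependent.of_subtype_range ?_ ?_⟩
  · rintro (_ | a) (_ | b) e
    · rfl
    · exact absurd ⟨b, e.symm⟩ ht.2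
    · exact absurd ⟨a, e⟩ ht.2
    · exact congrArg some (hx.injective e)
  · rw [Option.range_eq]
    exact h1

theorem indep_of_alg {k K ι κ : Type*} [Field k] [Field K] [Algebra k K] [Finite ι] [Finite κ]
    {x : ι → K} (hx : AlgebraicIndependent k x) (y : κ → K)
    (h : ∀ i, IsAlgebraic (Algebra.adjoin k (Set.range y)) (x i))
    (hc : Nat.card κ ≤ Nat.card ι) : AlgebraicIndependent k y := by
  have h3 : (Set.range y).ncard ≤ Nat.card κ := by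
    rw [← Set.image_univ, ← Set.ncard_univ]
    exact Set.ncard_image_le
  let M := AlgebraicIndependent.matroid k K
  have h1 : (Set.range x).encard ≤ M.eRk (Set.range y) := by
    rw [← M.eRk_closure_eq]
    refine Matroid.Indep.encard_le_eRk_of_subset (M := M) hx.to_subtype_range ?_
    rintro _ ⟨i, rfl⟩
    rw [AlgebraicIndependent.matroid_closure_eq]
    exact h i
  have h2 := M.eRk_le_encard (Set.range y)
  obtain ⟨n, hn⟩ := ENat.ne_top_iff_exists.1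
    (ne_top_of_le_ne_top (Set.finite_range y).encard_lt_top.ne h2)
  rw [← hn, ← (Set.finite_range x).cast_ncard_eq, Set.ncard_range_of_injective hx.injective] at h1
  rw [← hn, ← (Set.finite_range y).cast_ncard_eq] at h2
  norm_cast at h1 h2
  have h4 : Function.Injective y := by
    rw [← Set.injOn_univ]
    refine Set.injOn_of_ncard_image_eq ?_
    rw [Set.image_univ, Set.ncard_univ]
    omega
  refine AlgebraicIndependent.of_subtype_range h4 ?_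
  refine ((M.indep_iff_eRk_eq_encard_of_finite (Set.finite_range y)).2 ?_ :)
  rw [← hn, ← (Set.finite_range y).cast_ncard_eq, Nat.cast_inj]
  omega

theorem exists_root_ext {K₀ : Type u} [Field K₀] (f : Polynomial K₀) (hf : 0 < f.natDegree) :
    ∃ (K : Type u) (_ : Field K) (_ : Algebra K₀ K), FiniteDimensional K₀ K ∧
      finrank K₀ K ≤ f.natDegree ∧ ∃ x : K, Polynomial.aeval x f = 0 := by
  obtain ⟨g, hg, hd⟩ := Polynomial.exists_irreducible_of_natDegree_pos hf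
  have : Fact (Irreducible g) := ⟨hg⟩
  refine ⟨AdjoinRoot g, inferInstance, inferInstance,
    (AdjoinRoot.powerBasis hg.ne_zero).finite, ?_, AdjoinRoot.root g, ?_⟩
  · rw [(AdjoinRoot.powerBasis hg.ne_zero).finrank]
    exact Polynomial.natDegree_le_of_dvd hd fun e => by simp [e] at hf
  · obtain ⟨q, rfl⟩ := hd
    rw [map_mul, AdjoinRoot.aeval_eq, AdjoinRoot.mk_self, zero_mul]

namespace CD

variable {D : CD} {p : ℕ} [Fact p.Prime] {Q F B : Set D.ι} {κ : ℕ} {δ γ z : D.ι}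

/-- the roots in X shifted by δ -/
def Sh (D : CD) (δ : D.ι) (X : Set D.ι) : Set D.ι := {β | ∃ α ∈ X, D.co α + D.co δ = D.co β}

/-- the root subgroup of δ keeps the shape -/
structure Mv (D : CD) (Q F : Set D.ι) (δ : D.ι) : Prop where
  dis : ∀ β ∈ Q, β ∉ F
  neg : D.neg δ ∉ Q ∪ F
  shQ : D.Sh δ Q ⊆ Q ∪ F
  shF : D.Sh δ F ⊆ F

omit [Fact p.Prime] in
theorem Mv.blk (hm : D.Mv Q F δ) (hz : z ∈ Q) (hγ : γ ∈ Q) (hs : D.co z + D.co δ = D.co γ)
    (h2 : z ∉ D.Sh δ Q) : D.Blk Q F (Q ∩ D.Sh δ Q) (Q ∩ D.Sh δ (Q ∩ D.Sh δ Q))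
      (fun _ : Fin 1 => γ) (fun _ => δ) fun _ => z where
  zQ _ := hz
  sum _ := hs
  tri i j _ h := absurd (Subsingleton.elim i j) h.ne
  γT _ := ⟨hγ, z, hz, hs⟩
  γR _ := by
    rintro ⟨-, α, hα, e⟩
    exact h2 (D.co_inj (add_right_cancel (e.trans hs.symm)) ▸ hα.2)
  RT := fun _ ⟨h, α, hα, e⟩ => ⟨h, α, hα.1, e⟩
  TQ := Set.inter_subset_left
  dis := hm.dis
  neg _ := hm.neg
  shQ _ β hβ _ e := (hm.shQ ⟨β, hβ, e⟩).imp_left fun a => ⟨a, β, hβ, e⟩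
  shT _ β hβ _ e := (hm.shQ ⟨β, hβ.1, e⟩).imp_left fun a => ⟨a, β, hβ, e⟩
  shF _ β hβ _ e := hm.shF ⟨β, hβ, e⟩

theorem emovM_eq {S : Type*} [CommRing S] (x : D.ι → S) (hs : D.co z + D.co δ = D.co γ) :
    D.emovM x δ γ = (D.N δ (D.neg γ) : S) * x z := by
  rw [emovM, Finset.sum_eq_single z (fun α _ hne => if_neg fun e => hne
    (D.co_inj (add_right_cancel (e.trans hs.symm)))) (by simp), if_pos hs]

variable {K : Type u} [Field K] [Algebra (ZMod p) K] {η : D.B → K}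

theorem eck_N (hg : D.Good p) (hs : D.co z + D.co δ = D.co γ) : (D.N δ (D.neg γ) : K) ≠ 0 := by
  have : CharP K p := charP_of_injective_ringHom (algebraMap (ZMod p) K).injective p
  refine fun h => D.N_good Fact.out hg (γ := D.neg z) ?_ ((CharP.intCast_eq_zero_iff K p _).1 h)
  rw [D.co_neg, D.co_neg, ← hs]
  abel

omit [Algebra (ZMod p) K] in
theorem Mv.zero (hm : D.Mv Q F δ) (h : D.Supp (Q ∪ F) η) (hz : z ∈ Q) (h2 : z ∉ D.Sh δ Q) :
    D.emovM (D.cd η) δ z = 0 := by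
  rw [emovM_congr (x' := 0) fun α e => ?_]
  · simp [emovM]
  by_contra hne
  exact (h.2 α hne).elim (fun a => h2 ⟨α, a, e⟩) fun a => hm.dis z hz (hm.shF ⟨α, a, e⟩)

theorem gen_map (h : D.Gen p Q F η) {K' : Type u} [Field K'] [Algebra (ZMod p) K']
    (φ : K →+* K') : D.Gen p Q F (φ ∘ η) :=
  ⟨h.supp.map φ, h.ind.map' (f := { φ with
    commutes' := RingHom.congr_fun (Subsingleton.elim (φ.comp (algebraMap (ZMod p) K))
      (algebraMap (ZMod p) K')) }) φ.injective⟩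

theorem gen_up (hg : D.Good p) (hK : Big p K) (h : D.Gen p Q F η) (hm : D.Mv (insert γ Q) F δ)
    (hz : z ∈ Q) (hγ : γ ∉ Q) (hs : D.co z + D.co δ = D.co γ) (h2 : z ∉ D.Sh δ (insert γ Q)) :
    ∃ A ∈ D.G K, D.Gen p (insert γ Q) F (η ᵥ* A) := by
  obtain ⟨t, ht⟩ := hK.spare h.ind
  have hz' : z ∈ insert γ Q := Or.inr hz
  have hb := hm.blk hz' (Or.inl rfl) hs h2
  have h1 : D.Supp (insert γ Q ∪ F) η :=
    h.supp.mono (Set.union_subset_union_left _ (Set.subset_insert _ _))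
  have h3 := hb.emov_supp h1 0 t
  refine ⟨_, xM_mem (Set.mem_univ _) t, h3, ?_⟩
  set y : ↥(insert γ Q) → K := fun β => D.cd (η ᵥ* D.xM δ t) β with hy
  have e0 : D.cd η γ = 0 := not_not.1 fun hne =>
    (h.supp.2 γ hne).elim hγ (hm.dis γ (Or.inl rfl))
  have e1 : y ⟨γ, Or.inl rfl⟩ = t * ((D.N δ (D.neg γ) : K) * D.cd η z) := by
    have := hb.emov_step h1 0 t (Or.inl rfl) (hb.γR 0)
    rwa [e0, zero_add, emovM_eq _ hs] at this
  have e2 : y ⟨z, hz'⟩ = D.cd η z := by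
    have := hb.emov_step h1 0 t hz' fun a => h2 (hb.RT a).2
    rwa [hm.zero h1 hz' h2, mul_zero, add_zero] at this
  let S := Algebra.adjoin (ZMod p) (Set.range y)
  have hS : ∀ β, y β ∈ S := fun β => Algebra.subset_adjoin ⟨β, rfl⟩
  have h4 : IsAlgebraic S t := by
    have hne : (D.N δ (D.neg γ) : K) * D.cd η z ≠ 0 := mul_ne_zero (eck_N hg hs) (gen_ne h hz)
    refine IsAlgebraic.of_mul (y := (D.N δ (D.neg γ) : K) * D.cd η z)
      (mem_nonZeroDivisors_of_ne_zero hne) (isAlgebraic_algebraMap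
        (⟨_, mul_mem (intCast_mem S _) (e2 ▸ hS _)⟩ : S)) ?_
    rw [mul_comm, ← e1]
    exact isAlgebraic_algebraMap (⟨_, hS _⟩ : S)
  let S' := (Subalgebra.algebraicClosure S K).restrictScalars (ZMod p)
  refine indep_of_alg ht y (fun o => ?_) ?_
  · rcases o with _ | β
    · exact h4
    have := hb.emov_mem (p := p) h3 0 (t := -t) (S := S') (neg_mem h4)
      (fun β hβ => isAlgebraic_algebraMap (⟨_, hS ⟨β, hβ⟩⟩ : S)) β (Or.inr β.2)
    rwa [vecMul_vecMul, ← xM_add, add_neg_cancel, xM_zero, vecMul_one] at this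
  · rw [Finite.card_option]
    exact Set.ncard_insert_le _ _

theorem gen_quad (hg : D.Good p) (h : D.Gen p Q F η) {δ₁ δ₂ γ₁ γ₂ z₁ z₂ v w : D.ι}
    (m₁ : D.Mv Q F δ₁) (m₂ : D.Mv Q F δ₂)
    (n₁ : ∀ β ∈ Q, β ∉ D.Sh δ₁ (Q ∩ D.Sh δ₁ Q)) (n₂ : ∀ β ∈ Q, β ∉ D.Sh δ₂ (Q ∩ D.Sh δ₂ Q))
    (g₁ : γ₁ ∈ Q) (g₂ : γ₂ ∈ Q) (hne : γ₁ ≠ γ₂)
    (a₁ : z₁ ∈ Q) (s₁ : D.co z₁ + D.co δ₁ = D.co γ₁)
    (a₂ : z₂ ∈ Q) (s₂ : D.co z₂ + D.co δ₂ = D.co γ₁) (a₃ : z₂ ∉ D.Sh δ₁ Q)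
    (a₄ : v ∈ Q) (s₃ : D.co v + D.co δ₁ = D.co w) (s₄ : D.co w + D.co δ₂ = D.co γ₂) :
    ∃ (K' : Type u) (_ : Field K') (_ : Algebra K K'), FiniteDimensional K K' ∧
      finrank K K' ≤ 2 ∧ ∀ [Algebra (ZMod p) K'],
        ∃ A ∈ D.G K', D.Gen p (Q \ {γ₁, γ₂}) F ((algebraMap K K' ∘ η) ᵥ* A) := by
  have hw : w ∈ Q := (m₁.shQ ⟨v, a₄, s₃⟩).resolve_right fun a =>
    m₂.dis _ g₂ (m₂.shF ⟨w, a, s₄⟩)
  have b₁ := m₁.blk a₁ g₁ s₁ fun a => n₁ _ g₁ ⟨z₁, ⟨a₁, a⟩, s₁⟩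
  have b₂ := m₂.blk a₂ g₁ s₂ fun a => n₂ _ g₁ ⟨z₂, ⟨a₂, a⟩, s₂⟩
  let x := D.cd η
  let a1 := D.emovM x δ₁ γ₁
  let a2 := D.emovM x δ₁ γ₂
  let b1 := (D.N δ₂ (D.neg γ₁) : K) * x z₂
  let n : K := D.N δ₂ (D.neg γ₂)
  let c := D.emovM x δ₁ w
  have hA : -(a1 * (n * c)) ≠ 0 := by
    simp only [a1, c, emovM_eq _ s₁, emovM_eq _ s₃]
    exact neg_ne_zero.2 (mul_ne_zero (mul_ne_zero (eck_N hg s₁) (gen_ne h a₁))
      (mul_ne_zero (eck_N hg s₄) (mul_ne_zero (eck_N hg s₃) (gen_ne h a₄))))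
  have hd := Polynomial.natDegree_quadratic (b := b1 * a2 - x γ₁ * (n * c) - a1 * (n * x w))
    (c := b1 * x γ₂ - x γ₁ * (n * x w)) hA
  obtain ⟨K', _, _, h1, h2, u, hu⟩ := exists_root_ext _ (hd.symm ▸ two_pos)
  refine ⟨K', inferInstance, inferInstance, h1, hd ▸ h2, ?_⟩
  intro _
  let j := algebraMap K K'
  have h' := gen_map h j
  have st : ∀ β ∈ Q, D.cd ((j ∘ η) ᵥ* D.xM δ₁ u) β = j (x β) + u * j (D.emovM x δ₁ β) :=
    fun β hβ => by
      rw [b₁.emov_step h'.supp 0 u hβ fun a => n₁ β hβ a.2, emovM_map]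
      rfl
  have p1 := b₁.emov_supp h'.supp 0 u
  set η₁ := (j ∘ η) ᵥ* D.xM δ₁ u with hη₁
  have hb1 : j b1 ≠ 0 := (map_ne_zero j).2 (mul_ne_zero (eck_N hg s₂) (gen_ne h a₂))
  let t := -(j (x γ₁) + u * j a1) / j b1
  have p2 := b₂.emov_supp p1 0 t
  have z1 : D.cd (η₁ ᵥ* D.xM δ₂ t) γ₁ = 0 := by
    rw [b₂.emov_step p1 0 t g₁ (b₂.γR 0), emovM_eq _ s₂, st _ g₁, st _ a₂,
      m₁.zero h.supp a₂ a₃, map_zero, mul_zero, add_zero, ← map_intCast j, ← map_mul,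
      div_mul_cancel₀ _ hb1, add_neg_cancel]
  have z2 : D.cd (η₁ ᵥ* D.xM δ₂ t) γ₂ = 0 := by
    rw [b₂.emov_step p1 0 t g₂ fun a => n₂ _ g₂ a.2, emovM_eq _ s₄, st _ g₂, st _ hw,
      ← map_intCast j]
    simp only [map_add, map_mul, map_pow, map_sub, map_neg, Polynomial.aeval_C,
      Polynomial.aeval_X] at hu
    refine mul_left_cancel₀ hb1 ?_
    have e : j b1 * t = -(j (x γ₁) + u * j a1) := mul_div_cancel₀ _ hb1
    change j b1 * (j (x γ₂) + u * j a2 + t * (j n * (j (x w) + u * j c))) = _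
    linear_combination hu + j n * (j (x w) + u * j c) * e
  refine ⟨D.xM δ₁ u * D.xM δ₂ t, mul_mem (xM_mem (Set.mem_univ _) u) (xM_mem (Set.mem_univ _) t),
    ?_⟩
  rw [← vecMul_vecMul, ← hη₁]
  refine ⟨⟨p2.1, fun β hβ => (p2.2 β hβ).imp_left fun a => ⟨a, ?_⟩⟩, ?_⟩
  · rintro (rfl | rfl)
    exacts [hβ z1, hβ z2]
  refine indep_of_gen h'.ind _ ![u, t] (fun β => ?_) ?_
  · set S := Algebra.adjoin (ZMod p) (Set.range (fun β : ↥(Q \ {γ₁, γ₂}) =>
      D.cd (η₁ ᵥ* D.xM δ₂ t) β) ∪ Set.range ![u, t])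
    have q2 := b₂.emov_mem (p := p) p2 0 (t := -t) (S := S)
      (neg_mem (Algebra.subset_adjoin (Or.inr ⟨1, rfl⟩))) fun β hβ => by
        by_cases hr : β ∈ ({γ₁, γ₂} : Set D.ι)
        · rcases hr with rfl | rfl
          exacts [z1 ▸ zero_mem _, z2 ▸ zero_mem _]
        · exact Algebra.subset_adjoin (Or.inl ⟨⟨β, hβ, hr⟩, rfl⟩)
    rw [vecMul_vecMul, ← xM_add, add_neg_cancel, xM_zero, vecMul_one] at q2
    have q1 := b₁.emov_mem (p := p) p1 0 (t := -u) (S := S)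
      (neg_mem (Algebra.subset_adjoin (Or.inr ⟨0, rfl⟩))) q2 β β.2
    rwa [hη₁, vecMul_vecMul, ← xM_add, add_neg_cancel, xM_zero, vecMul_one] at q1
  · have := Set.ncard_sdiff_add_ncard_of_subset (Set.pair_subset g₁ g₂)
    rw [Set.ncard_pair hne] at this
    rw [Nat.card_fin]
    exact this.le

end CD

end Pool.Agent.P.Bf04
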