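import Pool.Agent.P.MP_bf0464_al.H.GDef

/-! Alternating elements and orbits modulo p. -/

namespace Pool.Agent.P.Bf04

open Matrix Module

attribute [local instance 100] LieRing.ofAssociativeRing

universe u v w

theorem galt_den_image {I J Γ : Type*} [DecidableEq J] [AddCommGroup Γ] (s : Finset I) (e : I → J)
    (he : Set.InjOn e s) (w : I → Γ) (w' : J → Γ) (h : ∀ i ∈ s, w' (e i) = w i) (F : Γ → ℚ)
    (x : Γ) : den (s.image e) w' F x = den s w F x := by
  classical
  induction s using Finset.induction_on generalizing x with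
  | empty => rw [Finset.image_empty, den_empty, den_empty]
  | insert i s hi ih =>
    have he' : Set.InjOn e s := he.mono (by simp)
    have h' : ∀ i ∈ s, w' (e i) = w i := fun a ha => h a (Finset.mem_insert_of_mem ha)
    have hn : e i ∉ s.image e := fun hm => by
      obtain ⟨a, ha, e1⟩ := Finset.mem_image.1 hm
      have e2 : a = i := he (by simp [ha]) (by simp) e1
      exact hi (e2 ▸ ha)
    rw [Finset.image_insert, den_insert hn, den_insert hi, ih he' h', ih he' h',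
      h i (Finset.mem_insert_self _ _)]

theorem galt_den_hom {I Γ Γ' : Type*} [AddCommGroup Γ] [AddCommGroup Γ'] (s : Finset I)
    (φ : Γ →+ Γ') (w : I → Γ) (F : Γ' → ℚ) (x : Γ) :
    den s (fun i => φ (w i)) F (φ x) = den s w (fun y => F (φ y)) x := by
  simp only [den, map_sub, map_sum]

/-- reduction as a homomorphism -/
def galtRed (p : ℕ) (σ : Type) : (σ → ℤ) →+ (σ → ZMod p) where
  toFun := red p
  map_zero' := by funext a; simp [red]
  map_add' x y := by funext a; simp [red]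

namespace RD

variable (D : RD)

open Classical in
/-- the height function on weights -/
noncomputable def galtF (ν : D.σ → ℤ) : ℤ := ∑ γ with D.Pos γ, (ν + D.ρ) ⬝ᵥ D.cr γ

open Classical in
theorem galt_mem (i : D.Δ) {β : D.ι} (hβ : β ∈ (Finset.univ.filter D.Pos).erase (D.s i)) :
    D.rf (D.s i) β ∈ (Finset.univ.filter D.Pos).erase (D.s i) := by
  simp only [Finset.mem_erase, Finset.mem_filter, Finset.mem_univ, true_and] at hβ ⊢
  refine ⟨fun e => ?_, D.pos_rf hβ.2 hβ.1⟩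
  have h1 : β = D.neg (D.s i) := by rw [← D.rf_rf (D.s i) β, e]; rfl
  have h2 := hβ.2
  rw [h1, D.pos_neg_iff] at h2
  exact h2 (D.pos_s i)

open Classical in
theorem galt_two (i : D.Δ) : ∑ γ with D.Pos γ, D.rt (D.s i) ⬝ᵥ D.cr γ = 2 := by
  have hm : D.s i ∈ Finset.univ.filter D.Pos := by simp [D.pos_s]
  rw [← Finset.add_sum_erase _ _ hm, D.two]
  have h1 : ∑ β ∈ (Finset.univ.filter D.Pos).erase (D.s i), D.pr (D.s i) (D.rf (D.s i) β) =
      ∑ β ∈ (Finset.univ.filter D.Pos).erase (D.s i), D.pr (D.s i) β :=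
    Finset.sum_nbij' (D.rf (D.s i)) (D.rf (D.s i)) (fun _ h => D.galt_mem i h)
      (fun _ h => D.galt_mem i h) (fun β _ => D.rf_rf _ β) (fun β _ => D.rf_rf _ β)
      (fun _ _ => rfl)
  have h2 : ∀ β, D.pr (D.s i) (D.rf (D.s i) β) = -D.pr (D.s i) β := fun β => by
    rw [← D.pr_neg_left, ← D.pr_rf (D.s i) (D.neg (D.s i)) β, RD.neg, D.rf_rf]
  simp only [h2, Finset.sum_neg_distrib] at h1
  have h3 : ∑ β ∈ (Finset.univ.filter D.Pos).erase (D.s i), D.pr (D.s i) β = 0 := by omega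
  unfold pr at h3
  rw [h3, add_zero]

theorem galt_sub (ν : D.σ → ℤ) (c : D.Δ → ℤ) :
    D.galtF (ν - ∑ i, c i • D.rt (D.s i)) = D.galtF ν - 2 * ∑ i, c i := by
  classical
  unfold galtF
  simp only [sub_add_eq_add_sub, sub_dotProduct, sum_dotProduct, smul_dotProduct, smul_eq_mul,
    Finset.sum_sub_distrib]
  rw [Finset.sum_comm, Finset.mul_sum]
  refine congrArg _ (Finset.sum_congr rfl fun i _ => ?_)
  rw [← Finset.mul_sum, D.galt_two, mul_comm]

theorem galt_rho (i : D.Δ) : D.ρ ⬝ᵥ D.cr (D.s i) = 1 := by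
  rw [ρ, sum_dotProduct]
  simp [D.ω_cr]

theorem galt_nonneg {ν : D.σ → ℤ} (h : ∀ i, 0 ≤ ν ⬝ᵥ D.cr (D.s i) + 1) : 0 ≤ D.galtF ν := by
  classical
  refine Finset.sum_nonneg fun γ hγ => ?_
  rw [D.cr_cco γ, dotProduct_sum]
  refine Finset.sum_nonneg fun i _ => ?_
  rw [dotProduct_smul, add_dotProduct, D.galt_rho, smul_eq_mul]
  exact mul_nonneg ((D.pos_iff_cco γ).1 (Finset.mem_filter.1 hγ).2 i) (h i)

theorem galt_dotf (i : D.Δ) (ν : D.σ → ℤ) :
    D.galtF (D.dotf i ν) = D.galtF ν - 2 * (ν ⬝ᵥ D.cr (D.s i) + 1) := by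
  have h := D.galt_sub ν (Pi.single i (ν ⬝ᵥ D.cr (D.s i) + 1))
  simp only [Pi.single_apply, ite_smul, zero_smul, Finset.sum_ite_eq', Finset.mem_univ,
    if_true] at h
  exact h

theorem galt_dom (μ : D.σ → ℤ) : ∃ w ∈ D.W, ∀ i, 0 ≤ w μ ⬝ᵥ D.cr (D.s i) + 1 := by
  obtain ⟨w, hw⟩ := Finite.exists_max fun w : D.W => D.galtF (w.1 μ)
  refine ⟨w.1, w.2, fun i => ?_⟩
  have h := hw ⟨D.dot i * w.1, D.W.mul_mem (D.dot_mem i) w.2⟩
  simp only [Equiv.Perm.mul_apply, dot_apply, galt_dotf] at h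
  omega

theorem galt_ne (i : D.Δ) : D.dot i ≠ 1 := fun h => by
  have h1 : D.dotf i 0 = 0 := DFunLike.congr_fun h 0
  have h2 := congrArg (· ⬝ᵥ D.cr (D.s i)) h1
  simp [dotf, D.two] at h2

theorem galt_neg (i : D.Δ) (ν : D.σ → ℤ) :
    D.dotf i ν ⬝ᵥ D.cr (D.s i) + 1 = -(ν ⬝ᵥ D.cr (D.s i) + 1) := by
  simp only [dotf, sub_dotProduct, smul_dotProduct, D.two, smul_eq_mul]
  ring

/-- the linear reflection as a homomorphism -/
def galtSr (i : D.Δ) : (D.σ → ℤ) →+ (D.σ → ℤ) where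
  toFun := D.sr i
  map_zero' := by simp [sr]
  map_add' x y := by
    simp only [sr, add_dotProduct]
    module

open Classical in
theorem galt_alt (G : (D.σ → ℤ) → ℚ) (i : D.Δ) (hG : ∀ x, G (D.sr i x) = G x) (x : D.σ → ℤ) :
    den (Finset.univ.filter D.Pos) (fun β => -D.rt β) G (D.dotf i x)
      = -den (Finset.univ.filter D.Pos) (fun β => -D.rt β) G x := by
  have hm : D.s i ∈ Finset.univ.filter D.Pos := by simp [D.pos_s]
  have hinj : Function.Injective (D.rf (D.s i)) :=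
    Function.Involutive.injective (f := D.rf (D.s i)) (D.rf_rf (D.s i))
  have him : ((Finset.univ.filter D.Pos).erase (D.s i)).image (D.rf (D.s i))
      = (Finset.univ.filter D.Pos).erase (D.s i) := by
    refine Finset.Subset.antisymm (fun β hβ => ?_) fun β hβ => ?_
    · obtain ⟨γ, hγ, rfl⟩ := Finset.mem_image.1 hβ
      exact D.galt_mem i hγ
    · exact Finset.mem_image.2 ⟨_, D.galt_mem i hβ, D.rf_rf _ _⟩
  have key : ∀ y, den ((Finset.univ.filter D.Pos).erase (D.s i)) (fun β => -D.rt β) G (D.sr i y)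
      = den ((Finset.univ.filter D.Pos).erase (D.s i)) (fun β => -D.rt β) G y := fun y => by
    have h1 := galt_den_image ((Finset.univ.filter D.Pos).erase (D.s i)) (D.rf (D.s i))
      hinj.injOn (fun β => D.galtSr i (-D.rt β)) (fun β => -D.rt β)
      (fun β _ => by rw [map_neg, ← D.sr_rt]; rfl) G (D.galtSr i y)
    rw [him, galt_den_hom] at h1
    have h2 : (fun y => G (D.galtSr i y)) = G := funext hG
    rw [h2] at h1
    exact h1
  have e1 : D.dotf i x = D.sr i (x - -D.rt (D.s i)) := by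
    simp only [dotf, sr, sub_neg_eq_add, add_dotProduct, D.two]
    module
  have e2 : D.dotf i x - -D.rt (D.s i) = D.sr i x := by
    simp only [dotf, sr]
    module
  rw [← Finset.insert_erase hm, den_insert (Finset.notMem_erase _ _),
    den_insert (Finset.notMem_erase _ _), e2, e1, key, key]
  ring

open Classical in
theorem galt_W (G : (D.σ → ℤ) → ℚ) (hG : ∀ i x, G (D.sr i x) = G x) {w : Equiv.Perm (D.σ → ℤ)}
    (hw : w ∈ D.W) (x : D.σ → ℤ)
    (h : den (Finset.univ.filter D.Pos) (fun β => -D.rt β) G x ≠ 0) :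
    den (Finset.univ.filter D.Pos) (fun β => -D.rt β) G (w x) ≠ 0 := by
  obtain ⟨l, rfl⟩ := D.mem_W.1 hw
  clear hw
  induction l with
  | nil => exact h
  | cons i l ih =>
    rw [List.map_cons, List.prod_cons, Equiv.Perm.mul_apply, dot_apply, D.galt_alt G i (hG i)]
    exact neg_ne_zero.2 ih

theorem galt_cong {p : ℕ} {w : Equiv.Perm (D.σ → ℤ)} (hw : w ∈ D.W) {μ ν : D.σ → ℤ}
    (h : Bf04.red p μ = Bf04.red p ν) : Bf04.red p (w μ) = Bf04.red p (w ν) :=
  red_eq_iff.2 (W_cong hw (red_eq_iff.1 h))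

end RD

namespace CD

variable {D : CD} {p : ℕ} [Fact p.Prime] {μ ν : D.σ → ℤ}

theorem exists_min (μ : D.σ → ℤ) : ∃ ν, D.Link p μ ν ∧ D.MinDom p ν := by
  classical
  have hex : ∃ n : ℕ, ∃ ν, D.Link p μ ν ∧ (∀ i, 0 ≤ ν ⬝ᵥ D.cr (D.s i) + 1) ∧ D.galtF ν = n := by
    obtain ⟨w, hw, h⟩ := D.galt_dom μ
    exact ⟨(D.galtF (w μ)).toNat, w μ, ⟨w, hw, fun a => by simp⟩, h,
      (Int.toNat_of_nonneg (D.galt_nonneg h)).symm⟩
  obtain ⟨ν, h1, h2, h3⟩ := Nat.find_spec hex
  refine ⟨ν, h1, h2, fun c hc hl hd => ?_⟩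
  have h4 : Nat.find hex ≤ (D.galtF (ν - D.wOf c)).toNat :=
    Nat.find_min' hex ⟨_, h1.trans hl, hd, (Int.toNat_of_nonneg (D.galt_nonneg hd)).symm⟩
  have h5 := D.galt_nonneg hd
  have h6 : D.galtF (ν - D.wOf c) = D.galtF ν - 2 * ∑ i, c i := D.galt_sub ν c
  have h7 : 0 ≤ ∑ i, c i := Finset.sum_nonneg fun i _ => hc i
  have h8 : ∑ i, c i = 0 := by omega
  rw [Finset.sum_eq_zero_iff_of_nonneg fun i _ => hc i] at h8
  exact funext fun i => h8 i (Finset.mem_univ i)

theorem Free.link (h : D.Free p μ) (hl : D.Link p μ ν) : D.Free p ν := by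
  obtain ⟨w₀, hw₀, h0⟩ := hl
  have h1 : red p (w₀ μ) = red p ν := red_eq_iff.2 h0
  intro w hw e
  have h2 : red p (w (w₀ μ)) = red p (w₀ μ) := by rw [D.galt_cong hw h1, e, h1]
  have h3 := D.galt_cong (D.W.inv_mem hw₀) h2
  have h4 := h (w₀⁻¹ * w * w₀) (D.W.mul_mem (D.W.mul_mem (D.W.inv_mem hw₀) hw) hw₀)
    (by simpa using h3)
  have h5 : w = w₀ * (w₀⁻¹ * w * w₀) * w₀⁻¹ := by group
  rw [h5, h4]
  group

theorem Free.dom (h : D.Free p μ) (hm : D.MinDom p μ) (i : D.Δ) : 0 ≤ μ ⬝ᵥ D.cr (D.s i) := by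
  have h1 := hm.1 i
  by_contra h2
  have h3 : μ ⬝ᵥ D.cr (D.s i) + 1 = 0 := by omega
  refine D.galt_ne i (h _ (D.dot_mem i) ?_)
  rw [RD.dot_apply, RD.dotf, h3, zero_smul, sub_zero]

theorem Free.not_dvd (h : D.Free p μ) (i : D.Δ) : ¬ (p : ℤ) ∣ μ ⬝ᵥ D.cr (D.s i) + 1 := by
  intro h3
  refine D.galt_ne i (h _ (D.dot_mem i) (red_eq_iff.2 fun a => ?_))
  rw [RD.dot_apply, RD.dotf, Pi.sub_apply, sub_sub_cancel_left, Pi.smul_apply, smul_eq_mul]
  exact (h3.mul_right _).neg_right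

theorem exists_half (h : ¬ D.Free p μ) : ∃ T : Finset (D.σ → ℤ), T.card ≤ D.wn / 2 ∧
    ∀ ν, D.Link p μ ν → ∃ t ∈ T, red p ν = red p t := by
  classical
  have := Fintype.ofFinite D.W
  unfold Free at h
  push Not at h
  obtain ⟨w₀, hw₀, e, hne⟩ := h
  refine ⟨(Finset.univ.image fun w : D.W => red p (w.1 μ)).image fun x a => ((x a).val : ℤ),
    Finset.card_image_le.trans ?_, fun ν hν => ?_⟩
  · rw [Nat.le_div_iff_mul_le two_pos, mul_comm, RD.wn, Nat.card_eq_fintype_card,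
      ← Finset.card_univ]
    refine Finset.mul_card_image_le_card _ 2 fun x hx => ?_
    obtain ⟨w, -, rfl⟩ := Finset.mem_image.1 hx
    refine Finset.one_lt_card.2 ⟨w, by simp, w * ⟨w₀, hw₀⟩, ?_, fun e' => hne ?_⟩
    · exact Finset.mem_filter.2 ⟨Finset.mem_univ _, D.galt_cong w.2 e⟩
    · exact congrArg Subtype.val (left_eq_mul.1 e')
  · obtain ⟨w, hw, h1⟩ := hν
    refine ⟨_, Finset.mem_image.2 ⟨_, Finset.mem_image.2 ⟨⟨w, hw⟩, Finset.mem_univ _, rfl⟩, rfl⟩,
      ?_⟩
    rw [← red_eq_iff.2 h1]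
    funext a
    simp [red]

open Classical in
theorem coef_one (h : D.Free p μ) (hm : D.MinDom p μ) {τ : Type} [Fintype τ] (wc : τ → D.Δ → ℤ)
    (h0 : ∀ t, 0 ≤ wc t) (h1 : ∃! t, wc t = 0)
    (h2 : ∀ i, ∃ π : Equiv.Perm τ, ∀ t, μ - D.wOf (wc (π t)) = D.sr i (μ - D.wOf (wc t))) :
    den (Finset.univ.filter D.Pos) (fun β => red p (-D.rt β))
      (D.cnt p fun t => μ - D.wOf (wc t)) (red p μ) = 1 := by
  let G : (D.σ → ℤ) → ℚ := fun x => ∑ t, if μ - D.wOf (wc t) = x then 1 else 0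
  have hG : ∀ i x, G (D.sr i x) = G x := fun i x => by
    obtain ⟨π, hπ⟩ := h2 i
    have hinj : Function.Injective (D.sr i) := by
      refine Function.Involutive.injective fun y => ?_
      simp only [RD.sr, sub_dotProduct, smul_dotProduct, D.two, smul_eq_mul]
      module
    simp only [G]
    rw [← Equiv.sum_comp π]
    exact Finset.sum_congr rfl fun t _ => if_congr (by rw [hπ, hinj.eq_iff]) rfl rfl
  let P := (Finset.univ.filter D.Pos).powerset ×ˢ (Finset.univ : Finset τ)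
  let lam : Finset D.ι × τ → D.σ → ℤ := fun y => μ - D.wOf (wc y.2) + ∑ β ∈ y.1, -D.rt β
  have hA : ∀ x, den (Finset.univ.filter D.Pos) (fun β => -D.rt β) G x
      = ∑ y ∈ P with lam y = x, (-1 : ℚ) ^ y.1.card := fun x => by
    rw [Finset.sum_filter, Finset.sum_product, den]
    refine Finset.sum_congr rfl fun S _ => ?_
    simp only [G, Finset.mul_sum, mul_ite, mul_one, mul_zero]
    exact Finset.sum_congr rfl fun t _ => if_congr eq_sub_iff_add_eq rfl rfl
  have hlam : ∀ y : Finset D.ι × τ, lam y = μ - D.wOf (wc y.2 + ∑ β ∈ y.1, D.co β) := fun y => by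
    have e : D.wOf (∑ β ∈ y.1, D.co β) = ∑ β ∈ y.1, D.rt β := by
      simp only [wOf, Finset.sum_apply, Finset.sum_smul]
      rw [Finset.sum_comm]
      exact Finset.sum_congr rfl fun β _ => (D.rt_co β).symm
    rw [D.repl_wOf_add, e]
    simp only [lam, Finset.sum_neg_distrib]
    abel
  have hco : ∀ y ∈ P, 0 ≤ ∑ β ∈ y.1, D.co β := fun y hy =>
    Finset.sum_nonneg fun β hβ =>
      (Finset.mem_filter.1 (Finset.mem_powerset.1 (Finset.mem_product.1 hy).1 hβ)).2
  obtain ⟨t₀, ht₀, ht⟩ := h1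
  have hP₀ : (∅, t₀) ∈ P := Finset.mem_product.2 ⟨Finset.empty_mem_powerset _, Finset.mem_univ _⟩
  have hl₀ : lam (∅, t₀) = μ := by simp [lam, ht₀, wOf]
  have htop : ∀ y ∈ P, lam y = μ → y = (∅, t₀) := fun y hy e => by
    rw [hlam, sub_eq_self] at e
    have e1 := D.li _ e
    have e2 := (add_eq_zero_iff_of_nonneg (h0 _) (hco y hy)).1 e1
    refine Prod.ext ?_ (ht _ e2.1)
    refine Finset.eq_empty_of_forall_notMem fun β hβ => D.co_ne_zero β ?_
    refine (Finset.sum_eq_zero_iff_of_nonneg fun γ hγ => ?_).1 e2.2 β hβ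
    exact (Finset.mem_filter.1 (Finset.mem_powerset.1 (Finset.mem_product.1 hy).1 hγ)).2
  have hL : den (Finset.univ.filter D.Pos) (fun β => red p (-D.rt β))
      (D.cnt p fun t => μ - D.wOf (wc t)) (red p μ)
      = ∑ y ∈ P, if red p (lam y) = red p μ then (-1 : ℚ) ^ y.1.card else 0 := by
    rw [Finset.sum_product, den]
    refine Finset.sum_congr rfl fun S _ => ?_
    rw [cnt, Finset.card_filter, Nat.cast_sum, Finset.mul_sum]
    refine Finset.sum_congr rfl fun t _ => ?_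
    have e : red p (lam (S, t)) = red p (μ - D.wOf (wc t)) + ∑ β ∈ S, red p (-D.rt β) :=
      ((galtRed p D.σ).map_add _ _).trans (congrArg _ (map_sum (galtRed p D.σ) _ _))
    rw [e]
    simp only [eq_sub_iff_add_eq]
    split_ifs <;> simp
  rw [hL, ← Finset.sum_fiberwise_of_maps_to (t := P.image lam) (g := lam)
    fun y hy => Finset.mem_image_of_mem _ hy]
  have hin : ∀ x, (∑ y ∈ P with lam y = x,
      if red p (lam y) = red p μ then (-1 : ℚ) ^ y.1.card else 0)
      = if red p x = red p μ then den (Finset.univ.filter D.Pos) (fun β => -D.rt β) G x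
        else 0 := fun x => by
    rw [hA, Finset.sum_congr rfl fun y hy => by rw [(Finset.mem_filter.1 hy).2]]
    split_ifs <;> simp
  rw [Finset.sum_congr rfl fun x _ => hin x, Finset.sum_eq_single μ]
  · rw [if_pos rfl, hA, Finset.sum_eq_single (∅, t₀)]
    · simp
    · exact fun y hy hne => absurd
        (htop y (Finset.mem_filter.1 hy).1 (Finset.mem_filter.1 hy).2) hne
    · exact fun hn => absurd (Finset.mem_filter.2 ⟨hP₀, hl₀⟩) hn
  · intro x _ hne
    split_ifs with e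
    · by_contra h3
      obtain ⟨w, hw, hd⟩ := D.galt_dom x
      have h4 := D.galt_W G hG hw x h3
      rw [hA] at h4
      obtain ⟨y, hy, -⟩ := Finset.exists_ne_zero_of_sum_ne_zero h4
      obtain ⟨hy1, hy2⟩ := Finset.mem_filter.1 hy
      rw [hlam] at hy2
      have h5 : red p (w μ) = red p (w x) := D.galt_cong hw e.symm
      have h6 := hm.2 _ (add_nonneg (h0 _) (hco y hy1))
        ⟨w, hw, by rw [hy2]; exact red_eq_iff.1 h5⟩ (by rw [hy2]; exact hd)
      have h7 : w x = μ := by rw [← hy2, h6]; simp [wOf]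
      have h8 := h w hw (by rw [h5, h7])
      rw [h8] at h7
      exact hne h7
    · rfl
  · exact fun hn => absurd (Finset.mem_image.2 ⟨_, hP₀, hl₀⟩) hn

open Classical in
theorem den_pos (j : D.Δ) (F : (D.σ → ZMod p) → ℚ) (x : D.σ → ZMod p) :
    den (Finset.univ.filter D.Pos) (fun β => red p (-D.rt β)) F x
      = den Finset.univ (fun b : D.Nil {j} => red p (D.wOf (D.wt b.1))) F x
        - den Finset.univ (fun b : D.Nil {j} => red p (D.wOf (D.wt b.1))) F
          (x - red p (-D.rt (D.s j))) := by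
  have hm : D.s j ∈ Finset.univ.filter D.Pos := by simp [D.pos_s]
  let e : D.Nil {j} → D.ι := fun b => Sum.elim (fun _ => D.s j) D.neg b.1
  have hb : ∀ b : D.Nil {j}, ∃ γ, b.1 = .inr γ := by
    rintro ⟨a | γ, hb⟩
    · rw [D.t2ia_inl] at hb
      exact absurd hb (lt_irrefl _)
    · exact ⟨γ, rfl⟩
  have hd : ∀ γ, D.dB (D.dJ {j}) (.inr γ) = ∑ i ∈ Finset.univ.erase j, D.co γ i := fun γ => by
    rw [RD.dB, ← Finset.add_sum_erase _ _ (Finset.mem_univ j)]
    simp only [dJ, Finset.mem_singleton, if_true, mul_zero, zero_add]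
    refine Finset.sum_congr rfl fun i hi => ?_
    rw [if_neg (Finset.ne_of_mem_erase hi), mul_one]
    rfl
  have hinj : Function.Injective e := fun b b' h => by
    obtain ⟨γ, hγ⟩ := hb b
    obtain ⟨γ', hγ'⟩ := hb b'
    simp only [e, hγ, hγ', Sum.elim_inr] at h
    refine Subtype.ext ?_
    rw [hγ, hγ', ← D.neg_neg γ, h, D.neg_neg]
  have him : Finset.univ.image e = (Finset.univ.filter D.Pos).erase (D.s j) := by
    ext β
    simp only [Finset.mem_image, Finset.mem_univ, true_and, Finset.mem_erase, Finset.mem_filter]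
    constructor
    · rintro ⟨b, rfl⟩
      obtain ⟨γ, hγ⟩ := hb b
      have h1 := b.2
      rw [hγ, hd] at h1
      simp only [e, hγ, Sum.elim_inr]
      refine ⟨fun h2 => ?_, (D.pos_neg_iff γ).2 fun h2 => ?_⟩
      · rw [← D.neg_neg γ, h2, D.co_neg, D.co_s, Finset.sum_eq_zero] at h1
        · exact lt_irrefl _ h1
        · intro i hi
          simp [Pi.single_eq_of_ne (Finset.ne_of_mem_erase hi)]
      · exact absurd (Finset.sum_nonneg fun i _ => h2 i) (not_le.2 h1)
    · rintro ⟨h1, h2⟩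
      refine ⟨⟨.inr (D.neg β), ?_⟩, D.neg_neg β⟩
      rw [hd, D.co_neg]
      simp only [Pi.neg_apply, Finset.sum_neg_distrib, Left.neg_neg_iff]
      refine (Finset.sum_nonneg fun i _ => h2 i).lt_of_ne fun h3 => ?_
      have h4 := (Finset.sum_eq_zero_iff_of_nonneg fun i _ => h2 i).1 h3.symm
      have h5 : (1 : ℤ) • D.co β = D.co β j • D.co (D.s j) := by
        funext i
        rw [D.co_s]
        by_cases hi : i = j
        · subst hi; simp
        · simp [h4 i (by simp [hi]), Pi.single_eq_of_ne hi]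
      rcases D.red' one_ne_zero h5 with h6 | h6
      · exact h1 h6
      · rw [h6, D.pos_neg_iff] at h2
        exact h2 (D.pos_s j)
  have key : ∀ y, den ((Finset.univ.filter D.Pos).erase (D.s j)) (fun β => red p (-D.rt β)) F y
      = den Finset.univ (fun b : D.Nil {j} => red p (D.wOf (D.wt b.1))) F y := fun y => by
    rw [← him]
    refine galt_den_image _ e hinj.injOn _ _ (fun b _ => ?_) F y
    obtain ⟨γ, hγ⟩ := hb b
    simp only [e, hγ, Sum.elim_inr, D.rt_neg, _root_.neg_neg]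
    exact congrArg _ (D.rt_co γ)
  rw [← Finset.insert_erase hm, den_insert (Finset.notMem_erase _ _), key, key]

theorem span_half (h : D.Free p μ) (j : D.Δ) {V : Type*} [AddCommGroup V] [Module ℚ V]
    (x : (D.σ → ℤ) → V) (z : V) (hc : ∀ ν ν', red p ν = red p ν' → x ν = x ν')
    (h0 : ∀ ν, ¬ D.Link p μ ν → x ν = 0) (hz : ∀ ν, D.Link p μ ν → x ν + x (D.dotf j ν) = z)
    {m : ℕ} (c : Fin m → ℚ) (ν : Fin m → D.σ → ℤ) (h1 : ∑ l, c l • x (ν l) = 0)
    (h2 : ∑ l, c l * ((if red p (ν l) = red p μ then 1 else 0)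
      - if red p (D.dotf j (ν l)) = red p μ then 1 else 0) ≠ 0) :
    ∃ s : Finset V, s.card ≤ D.wn / 2 ∧ ∀ ν, x ν ∈ Submodule.span ℚ (s : Set V) := by
  classical
  have := Fintype.ofFinite D.W
  let g : D.W → ℤ := fun w => w.1 μ ⬝ᵥ D.cr (D.s j) + 1
  let d : D.W := ⟨D.dot j, D.dot_mem j⟩
  have hg0 : ∀ w, g w ≠ 0 := fun w e =>
    (h.link (ν := w.1 μ) ⟨w.1, w.2, fun a => by simp⟩).not_dvd j
      (by rw [show w.1 μ ⬝ᵥ D.cr (D.s j) + 1 = 0 from e]; exact dvd_zero _)
  have hgd : ∀ w, g (d * w) = -g w := fun w => D.galt_neg j (w.1 μ)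
  let R : Finset D.W := Finset.univ.filter fun w => 0 < g w * g 1
  have hR : ∀ w, w ∈ R ↔ 0 < g w * g 1 := fun w => by simp [R]
  have hR1 : (1 : D.W) ∈ R := (hR 1).2 (mul_self_pos.2 (hg0 1))
  have hRd : ∀ w ∈ R, d * w ∉ R := fun w hw hw' => by
    rw [hR, hgd, neg_mul] at hw'
    rw [hR] at hw
    omega
  have hRc : ∀ w ∉ R, d * w ∈ R := fun w hw => by
    rw [hR, hgd, neg_mul]
    rw [hR] at hw
    have := mul_ne_zero (hg0 w) (hg0 1)
    omega
  have hcard : R.card ≤ D.wn / 2 := by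
    have h3 : R.card ≤ Rᶜ.card := Finset.card_le_card_of_injOn (fun w => d * w)
      (fun w hw => Finset.mem_coe.2 (Finset.mem_compl.2 (hRd w hw)))
      (mul_right_injective d).injOn
    have h4 := Finset.card_add_card_compl R
    rw [RD.wn, Nat.card_eq_fintype_card]
    omega
  let s : Finset V := insert z ((R.erase 1).image fun w => x (w.1 μ))
  let a : (D.σ → ℤ) → ℚ := fun ν => (if red p ν = red p μ then 1 else 0)
      - if red p (D.dotf j ν) = red p μ then 1 else 0
  have k1 : ∀ w ∈ R, ∀ ν, red p (w.1 μ) = red p ν →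
      x ν - a ν • x μ ∈ Submodule.span ℚ (s : Set V) := fun w hw ν e => by
    have e1 : red p (D.dotf j ν) ≠ red p μ := fun e1 => by
      have e2 : red p ((d * w).1 μ) = red p (D.dotf j ν) := D.galt_cong (D.dot_mem j) e
      have e3 : d * w = 1 := Subtype.ext (h _ (d * w).2 (e2.trans e1))
      exact hRd w hw (e3 ▸ hR1)
    by_cases hw1 : w = 1
    · subst hw1
      have e2 : red p ν = red p μ := e.symm
      simp only [a, if_pos e2, if_neg e1, sub_zero, one_smul, hc ν μ e2, sub_self]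
      exact Submodule.zero_mem _
    · have e2 : red p ν ≠ red p μ := fun e2 => hw1 (Subtype.ext (h _ w.2 (e.trans e2)))
      simp only [a, if_neg e2, if_neg e1, sub_zero, zero_smul, ← hc _ _ e]
      exact Submodule.subset_span (Finset.mem_coe.2 (Finset.mem_insert_of_mem
        (Finset.mem_image.2 ⟨w, Finset.mem_erase.2 ⟨hw1, hw⟩, rfl⟩)))
  have k2 : ∀ ν, x ν - a ν • x μ ∈ Submodule.span ℚ (s : Set V) := fun ν => by
    by_cases hl : D.Link p μ ν
    · have hz' := hz ν hl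
      obtain ⟨w, hw, e⟩ := hl
      have e' : red p (w μ) = red p ν := red_eq_iff.2 e
      by_cases hwR : (⟨w, hw⟩ : D.W) ∈ R
      · exact k1 _ hwR ν e'
      · have h3 := k1 _ (hRc _ hwR) (D.dotf j ν) (D.galt_cong (D.dot_mem j) e')
        have h4 : x ν - a ν • x μ = z - (x (D.dotf j ν) - a (D.dotf j ν) • x μ) := by
          simp only [a, D.dotf_invol j ν]
          rw [← hz']
          module
        rw [h4]
        exact Submodule.sub_mem _
          (Submodule.subset_span (Finset.mem_coe.2 (Finset.mem_insert_self _ _))) h3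
    · have e1 : red p ν ≠ red p μ := fun e => hl (RD.Link.of_cong (red_eq_iff.1 e.symm))
      have e2 : red p (D.dotf j ν) ≠ red p μ := fun e =>
        hl ((RD.Link.of_cong (red_eq_iff.1 e.symm)).trans (RD.Link.dot j ν).symm)
      simp only [a, if_neg e1, if_neg e2, sub_zero, zero_smul, h0 ν hl]
      exact Submodule.zero_mem _
  have k3 : x μ ∈ Submodule.span ℚ (s : Set V) := by
    have h3 : ∑ l, c l • (x (ν l) - a (ν l) • x μ) ∈ Submodule.span ℚ (s : Set V) :=
      Submodule.sum_mem _ fun l _ => Submodule.smul_mem _ _ (k2 _)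
    simp only [smul_sub, Finset.sum_sub_distrib, h1, zero_sub, smul_smul, ← Finset.sum_smul] at h3
    exact (Submodule.smul_mem_iff _ h2).1 ((Submodule.neg_mem_iff _).1 h3)
  refine ⟨s, ?_, fun ν => ?_⟩
  · refine (Finset.card_insert_le _ _).trans (le_trans ?_ hcard)
    rw [← Finset.card_erase_add_one hR1]
    exact Nat.add_le_add_right Finset.card_image_le 1
  · have h3 := Submodule.add_mem _ (k2 ν) (Submodule.smul_mem _ (a ν) k3)
    rwa [sub_add_cancel] at h3

end CD

end Pool.Agent.P.Bf04
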