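import Pool.Agent.P.MP_bf0464_al.H.T2IA

/-! Simple modules of the parabolic subalgebra and of the Levi subalgebra. -/

namespace Pool.Agent.P.Bf04

open Matrix Module

attribute [local instance 100] LieRing.ofAssociativeRing

universe u v w

namespace CD

variable (D : CD) (J : Finset D.Δ) {k : Type u} [Field k] (p : ℕ) [Fact p.Prime] [CharP k p]
  {e₀ : D.B → k} (h₀ : D.Std e₀)

theorem t2i_apply (x : (D.levi J).g k) (b : (D.levi J).B) :
    D.leviHom J k x (D.leviB J b) = x b := by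
  have h1 : D.leviHom J k x = ∑ c, x c • D.bv k (D.leviB J c) := rfl
  rw [h1, Finset.sum_apply, Finset.sum_eq_single b]
  · change x b * (Pi.single (D.leviB J b) (1 : k) : D.B → k) (D.leviB J b) = x b
    rw [Pi.single_eq_same, mul_one]
  · intro c _ hc
    change x c * (Pi.single (D.leviB J c) (1 : k) : D.B → k) (D.leviB J b) = 0
    rw [Pi.single_eq_of_ne (fun e => hc (D.leviB_inj J e).symm), mul_zero]
  · exact fun h => absurd (Finset.mem_univ _) h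

theorem t2i_zero (x : (D.levi J).g k) {b : D.B} (hb : b ∉ Set.range (D.leviB J)) :
    D.leviHom J k x b = 0 := by
  have h1 : D.leviHom J k x = ∑ c, x c • D.bv k (D.leviB J c) := rfl
  rw [h1, Finset.sum_apply]
  refine Finset.sum_eq_zero fun c _ => ?_
  change x c * (Pi.single (D.leviB J c) (1 : k) : D.B → k) b = 0
  rw [Pi.single_eq_of_ne (fun e => hb ⟨c, e.symm⟩), mul_zero]

theorem t2i_deg (b : (D.levi J).B) : D.dB (D.dJ J) (D.leviB J b) = 0 :=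
  (D.dJ_zero_iff J _).2 ⟨b, rfl⟩

theorem t2i_mem {d : ℤ} {x : D.g k × k} : x ∈ (D.trg J p h₀).gr d ↔
    (∀ b, D.dB (D.dJ J) b ≠ d → x.1 b = 0) ∧ (d ≠ -1 → x.2 = 0) := Iff.rfl

theorem levi_mem (x : (D.levi J).g k) : (D.leviHom J k x, 0) ∈ (D.trg J p h₀).gr 0 :=
  (D.t2i_mem J p h₀).2
    ⟨fun b hb => D.t2i_zero J x fun h => hb ((D.dJ_zero_iff J b).2 h), fun _ => rfl⟩

/-- the inclusion of the Levi subalgebra -/
noncomputable def j0 : (D.levi J).g k →ₗ⁅k⁆ (D.trg J p h₀).par where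
  toFun x := ⟨(D.leviHom J k x, 0), (D.trg J p h₀).mem_par_of_gr le_rfl (D.levi_mem J p h₀ x)⟩
  map_add' := fun x y => Subtype.ext (((D.inl k).comp (D.leviHom J k)).map_add x y)
  map_smul' := fun c x => Subtype.ext (((D.inl k).comp (D.leviHom J k)).map_smul c x)
  map_lie' := fun {x y} => Subtype.ext (((D.inl k).comp (D.leviHom J k)).map_lie x y)

/-- the linear projection to the Levi subalgebra -/
noncomputable def t2i_π : (D.trg J p h₀).par →ₗ[k] (D.levi J).g k where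
  toFun x := fun b => x.1.1 (D.leviB J b)
  map_add' _ _ := rfl
  map_smul' _ _ := rfl

theorem t2i_π_j0 (x : (D.levi J).g k) : D.t2i_π J p h₀ (D.j0 J p h₀ x) = x :=
  funext fun b => D.t2i_apply J x b

theorem t2i_π_pos {d : ℤ} (hd : 0 < d) (x : (D.trg J p h₀).par)
    (hx : x.1 ∈ (D.trg J p h₀).gr d) : D.t2i_π J p h₀ x = 0 :=
  funext fun b => ((D.t2i_mem J p h₀).1 hx).1 _ (by rw [D.t2i_deg]; exact hd.ne)

theorem t2i_j0_π (x : (D.trg J p h₀).par) (hx : x.1 ∈ (D.trg J p h₀).gr 0) :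
    D.j0 J p h₀ (D.t2i_π J p h₀ x) = x := by
  obtain ⟨h1, h2⟩ := (D.t2i_mem J p h₀).1 hx
  refine Subtype.ext (Prod.ext (funext fun b => ?_) (h2 (by decide)).symm)
  by_cases hb : b ∈ Set.range (D.leviB J)
  · obtain ⟨c, rfl⟩ := hb
    exact D.t2i_apply J _ c
  · exact (D.t2i_zero J _ hb).trans (h1 b fun h => hb ((D.dJ_zero_iff J b).1 h)).symm

theorem t2i_lie_gr {a b : ℤ} (ha : 0 ≤ a) (hb : 0 ≤ b) (x y : (D.trg J p h₀).par)
    (hx : x.1 ∈ (D.trg J p h₀).gr a) (hy : y.1 ∈ (D.trg J p h₀).gr b) :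
    D.t2i_π J p h₀ ⁅x, y⁆ = ⁅D.t2i_π J p h₀ x, D.t2i_π J p h₀ y⁆ := by
  have hxy : (⁅x, y⁆ : (D.trg J p h₀).par).1 ∈ (D.trg J p h₀).gr (a + b) :=
    (D.trg J p h₀).lie_mem _ _ _ _ hx hy
  rcases ha.eq_or_lt with rfl | ha'
  · rcases hb.eq_or_lt with rfl | hb'
    · have h1 := (D.j0 J p h₀).map_lie (D.t2i_π J p h₀ x) (D.t2i_π J p h₀ y)
      rw [D.t2i_j0_π J p h₀ x hx, D.t2i_j0_π J p h₀ y hy] at h1
      rw [← h1, D.t2i_π_j0]
    · rw [D.t2i_π_pos J p h₀ hb' y hy, lie_zero, D.t2i_π_pos J p h₀ (by omega) _ hxy]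
  · rw [D.t2i_π_pos J p h₀ ha' x hx, zero_lie, D.t2i_π_pos J p h₀ (by omega) _ hxy]

theorem t2i_lie (x y : (D.trg J p h₀).par) :
    D.t2i_π J p h₀ ⁅x, y⁆ = ⁅D.t2i_π J p h₀ x, D.t2i_π J p h₀ y⁆ := by
  let U : Submodule k (D.trg J p h₀).par :=
    { carrier := {x | D.t2i_π J p h₀ ⁅x, y⁆ = ⁅D.t2i_π J p h₀ x, D.t2i_π J p h₀ y⁆}
      add_mem' := fun {a b} ha hb => by
        simp only [Set.mem_ofPred_eq] at ha hb ⊢
        rw [add_lie, map_add, map_add, add_lie, ha, hb]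
      zero_mem' := by simp only [Set.mem_ofPred_eq, zero_lie, map_zero]
      smul_mem' := fun c a ha => by
        simp only [Set.mem_ofPred_eq] at ha ⊢
        rw [smul_lie, map_smul, map_smul, smul_lie, ha] }
  refine (D.trg J p h₀).par_induction U (fun a ha x hx => ?_) x
  let V : Submodule k (D.trg J p h₀).par :=
    { carrier := {y | D.t2i_π J p h₀ ⁅x, y⁆ = ⁅D.t2i_π J p h₀ x, D.t2i_π J p h₀ y⁆}
      add_mem' := fun {a b} ha hb => by
        simp only [Set.mem_ofPred_eq] at ha hb ⊢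
        rw [lie_add, map_add, map_add, lie_add, ha, hb]
      zero_mem' := by simp only [Set.mem_ofPred_eq, lie_zero, map_zero]
      smul_mem' := fun c a ha => by
        simp only [Set.mem_ofPred_eq] at ha ⊢
        rw [lie_smul, map_smul, map_smul, lie_smul, ha] }
  exact (D.trg J p h₀).par_induction V
    (fun b hb y hy => D.t2i_lie_gr J p h₀ ha hb x y hx hy) y

/-- the projection to the Levi subalgebra -/
noncomputable def π0 : (D.trg J p h₀).par →ₗ⁅k⁆ (D.levi J).g k where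
  toFun x := fun b => x.1.1 (D.leviB J b)
  map_add' := fun _ _ => rfl
  map_smul' := fun _ _ => rfl
  map_lie' := fun {x y} => D.t2i_lie J p h₀ x y

theorem π0_j0 (x : (D.levi J).g k) : D.π0 J p h₀ (D.j0 J p h₀ x) = x := D.t2i_π_j0 J p h₀ x

theorem π0_pos {d : ℤ} (hd : 0 < d) (x : (D.trg J p h₀).par) (hx : x.1 ∈ (D.trg J p h₀).gr d) :
    D.π0 J p h₀ x = 0 := D.t2i_π_pos J p h₀ hd x hx

theorem t2i_pmb (b : (D.levi J).B) :
    D.leviHom J k ((D.levi J).pmb k b) = D.pmb k (D.leviB J b) := by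
  rcases b with a | α
  · exact D.leviHom_bv J k (.inl a)
  · exact map_zero _

/-- the generator attached to a basis vector of the Levi subalgebra -/
def t2i_ι (b : (D.levi J).B) : (D.trg J p h₀).ι := ⟨D.leviB J b, (D.t2i_deg J b).ge⟩

theorem t2i_g (b : (D.levi J).B) : D.j0 J p h₀ ((D.levi J).bv k b)
    = ⟨(D.trg J p h₀).g (D.t2i_ι J p h₀ b), (D.trg J p h₀).g_par _⟩ :=
  Subtype.ext (Prod.ext (D.leviHom_bv J k b) rfl)

theorem t2i_pw (b : (D.levi J).B) : D.j0 J p h₀ ((D.levi J).pmb k b)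
    = ⟨(D.trg J p h₀).pw (D.t2i_ι J p h₀ b), (D.trg J p h₀).pw_par _⟩ :=
  Subtype.ext (Prod.ext (D.t2i_pmb J b) rfl)

variable {D J p h₀}

theorem adm_ρ {E : LRep k (D.trg J p h₀).par} (h : (D.trg J p h₀).Adm E)
    (x : (D.trg J p h₀).par) : E.ρ x = E.ρ (D.j0 J p h₀ (D.π0 J p h₀ x)) := by
  refine (D.trg J p h₀).par_induction (LinearMap.eqLocus E.ρ.toLinearMap
    (E.ρ.comp ((D.j0 J p h₀).comp (D.π0 J p h₀))).toLinearMap) (fun d hd x hx => ?_) x
  change E.ρ x = E.ρ (D.j0 J p h₀ (D.π0 J p h₀ x))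
  rcases hd.eq_or_lt with rfl | hd'
  · exact congrArg E.ρ (D.t2i_j0_π J p h₀ x hx).symm
  · rw [D.π0_pos J p h₀ hd' x hx, map_zero, map_zero]
    exact LinearMap.ext (h.pos d hd' x hx)

theorem adm_simple {E : LRep k (D.trg J p h₀).par} (h : (D.trg J p h₀).Adm E) :
    (E.res (D.j0 J p h₀)).Simple := by
  refine ⟨h.simple.1, fun N hN => h.simple.2 N fun x m hm => ?_⟩
  rw [adm_ρ h x]
  exact hN _ m hm

theorem adm_pc {E : LRep k (D.trg J p h₀).par} (h : (D.trg J p h₀).RelP E) :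
    (D.levi J).PC p (D.leviχ J e₀) (E.res (D.j0 J p h₀)) := by
  intro b
  refine LinearMap.ext fun m => ?_
  change (E.ρ (D.j0 J p h₀ ((D.levi J).bv k b)) ^ p) m
    = E.ρ (D.j0 J p h₀ ((D.levi J).pmb k b)) m + e₀ (D.leviB J b) ^ p • m
  rw [D.t2i_g, D.t2i_pw]
  exact h (D.t2i_ι J p h₀ b) m

theorem adm_iso {E E' : LRep k (D.trg J p h₀).par} (h : (D.trg J p h₀).Adm E)
    (h' : (D.trg J p h₀).Adm E') (hi : (E.res (D.j0 J p h₀)).Iso (E'.res (D.j0 J p h₀))) :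
    E.Iso E' := by
  obtain ⟨f, hf⟩ := hi
  refine ⟨f, fun x m => ?_⟩
  rw [adm_ρ h x, adm_ρ h' x]
  exact hf _ m

theorem relP_π0 {N : LRep k ((D.levi J).g k)} (h : (D.levi J).PC p (D.leviχ J e₀) N) :
    (D.trg J p h₀).RelP (N.res (D.π0 J p h₀)) := by
  intro a m
  change (N.ρ (D.π0 J p h₀ ⟨(D.trg J p h₀).g a, (D.trg J p h₀).g_par a⟩) ^ p) m
    = N.ρ (D.π0 J p h₀ ⟨(D.trg J p h₀).pw a, (D.trg J p h₀).pw_par a⟩) m
      + (D.trg J p h₀).cp a • m
  have hp : 0 < p := (Fact.out : p.Prime).pos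
  rcases ((D.trg J p h₀).dg_nonneg a).eq_or_lt with h1 | h1
  · obtain ⟨b, hb⟩ := (D.dJ_zero_iff J a.1).1 h1.symm
    obtain rfl : D.t2i_ι J p h₀ b = a := Subtype.ext hb
    rw [← D.t2i_g, ← D.t2i_pw, D.π0_j0, D.π0_j0]
    exact LinearMap.congr_fun (h b) m
  · rw [D.π0_pos J p h₀ h1 _ ((D.trg J p h₀).g_mem a),
      D.π0_pos J p h₀ (mul_pos (Nat.cast_pos.2 hp) h1) _ ((D.trg J p h₀).pw_mem a),
      (D.trg J p h₀).cp_pos a h1, map_zero, zero_pow hp.ne', zero_smul, add_zero]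

theorem adm_π0 {N : LRep k ((D.levi J).g k)} [FiniteDimensional k N.M] (hs : N.Simple)
    (h : (D.levi J).PC p (D.leviχ J e₀) N) : (D.trg J p h₀).Adm (N.res (D.π0 J p h₀)) := by
  refine ⟨inferInstanceAs (FiniteDimensional k N.M), ⟨hs.1, fun U hU => hs.2 U fun x m hm => ?_⟩,
    relP_π0 h, fun d hd x hx m => ?_⟩
  · have h1 : N.ρ (D.π0 J p h₀ (D.j0 J p h₀ x)) m ∈ U := hU (D.j0 J p h₀ x) m hm
    rwa [D.π0_j0] at h1
  · change N.ρ (D.π0 J p h₀ x) m = 0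
    rw [D.π0_pos J p h₀ hd x hx, map_zero, LinearMap.zero_apply]

variable (D J p h₀) in
/-- the simple modules of the Levi subalgebra in a linkage class -/
def Gd (μ : D.σ → ℤ) (E : LRep k (D.trg J p h₀).par) : Prop :=
  ∃ ν, D.Link p μ ν ∧ (D.levi J).HW (E.res (D.j0 J p h₀)) ν

theorem rank_levi {μ : D.σ → ℤ} {n : ℕ} (T : Finset (D.σ → ℤ))
    (hT : ∀ ν, D.Link p μ ν → ∃ t ∈ T, (D.levi J).Link p t ν)
    (h : ∀ t ∈ T, (D.levi J).BndAt p (D.leviχ J e₀) t n) :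
    (D.trg J p h₀).Rank (D.Gd J p h₀ μ) (T.card * n) := by
  classical
  refine (D.trg J p h₀).rank_of_count fun A _ E hE hiso => ?_
  have h1 : ∀ a, ∃ t ∈ T, (D.levi J).Adm p (D.leviχ J e₀) t ((E a).res (D.j0 J p h₀)) := by
    intro a
    obtain ⟨ν, hν, hw⟩ := (hE a).2
    obtain ⟨t, ht, hl⟩ := hT ν hν
    exact ⟨t, ht, (hE a).1.fd, adm_simple (hE a).1, adm_pc (hE a).1.rel, ν, hl, hw⟩
  choose t ht hA using h1
  refine (Finset.card_le_mul_card_image_of_maps_to (s := Finset.univ) (fun a _ => ht a) n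
    fun X hX => ?_).trans (by rw [mul_comm])
  rw [← Fintype.card_coe]
  refine h X hX _ (fun a => (E a.1).res (D.j0 J p h₀)) (fun a => ?_)
    fun a a' hi => Subtype.ext (hiso _ _ (adm_iso (hE _).1 (hE _).1 hi))
  have h2 := hA a.1
  rw [(Finset.mem_filter.1 a.2).2] at h2
  exact h2

end CD

end Pool.Agent.P.Bf04
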