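import Pool.Agent.P.MP_bf0464_al.H.GChar
import Pool.Agent.P.MP_bf0464_al.H.T2I

/-! The relation given by a finite dimensional restricted module. -/

namespace Pool.Agent.P.Bf04

open Matrix Module

attribute [local instance 100] LieRing.ofAssociativeRing

universe u v w

section Aux

theorem gpoly_den_map {I I' Γ : Type*} [AddCommGroup Γ] (e : I ↪ I') (s : Finset I) (w : I' → Γ)
    (F : Γ → ℚ) (x : Γ) : den (s.map e) w F x = den s (fun i => w (e i)) F x := by
  classical
  induction s using Finset.induction_on generalizing x with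
  | empty => rw [Finset.map_empty, den_empty, den_empty]
  | insert a s ha ih =>
    rw [Finset.map_insert, den_insert (by simpa using ha), den_insert ha, ih, ih]

theorem gpoly_den_succ {n : ℕ} {Γ : Type*} [AddCommGroup Γ] (w : Fin (n + 1) → Γ) (F : Γ → ℚ)
    (x : Γ) : den Finset.univ w F x
      = den Finset.univ (fun i : Fin n => w i.succ) (fun y => F y - F (y - w 0)) x := by
  rw [Fin.univ_succ, Finset.cons_eq_insert, den_insert (by simp), gpoly_den_map, gpoly_den_map]
  simp only [den, Function.Embedding.coeFn_mk, mul_sub, Finset.sum_sub_distrib, sub_right_comm]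

theorem gpoly_den_sum {I Γ τ : Type*} [Fintype I] [Fintype τ] [AddCommGroup Γ] [DecidableEq Γ]
    (a : I → ℤ) (b : I → Γ) (deg : τ → ℤ) (r : τ → Γ) (F : ℤ × Γ → ℚ)
    (hF : ∀ y, F y = ∑ t, if deg t = y.1 ∧ r t = y.2 then 1 else 0) (T : Finset ℤ)
    (hT : ∀ (S : Finset I) t, deg t + ∑ i ∈ S, a i ∈ T) (x : Γ) :
    ∑ d ∈ T, den Finset.univ (fun i => (a i, b i)) F (d, x)
      = den Finset.univ b (fun y => ((Finset.univ.filter fun t => r t = y).card : ℚ)) x := by
  unfold den
  rw [Finset.sum_comm]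
  refine Finset.sum_congr rfl fun S _ => ?_
  rw [← Finset.mul_sum]
  refine congrArg _ ?_
  simp only [hF, Prod.fst_sub, Prod.snd_sub, Prod.fst_sum, Prod.snd_sum]
  rw [Finset.sum_comm, Finset.card_filter, Nat.cast_sum]
  refine Finset.sum_congr rfl fun t _ => ?_
  rw [Finset.sum_eq_single (deg t + ∑ i ∈ S, a i)]
  · simp
  · intro d _ hd
    rw [if_neg]
    rintro ⟨h, -⟩
    exact hd (by rw [h]; ring)
  · intro h
    exact absurd (hT S t) h

variable {k : Type u} [Field k] {τ : Type} [Fintype τ] [DecidableEq τ]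

theorem gpoly_rank (S : Finset τ) (ν : τ → ℕ) (U : Submodule k (ℕ →₀ (τ → k)))
    (hU : ∀ m, m ∈ U ↔ ∀ n t, ¬ (t ∈ S ∧ n = ν t) → m n t = 0) : finrank k U = S.card := by
  let F : (S → k) →ₗ[k] (ℕ →₀ (τ → k)) :=
    Fintype.linearCombination k fun t : S => Finsupp.single (ν t.1) (Pi.single t.1 1)
  have h1 : ∀ f n t, F f n t
      = ∑ s : S, f s * (if ν s.1 = n then (if t = s.1 then 1 else 0) else 0) := by
    intro f n t
    simp only [F, Fintype.linearCombination_apply, Finsupp.finset_sum_apply, Finset.sum_apply,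
      Finsupp.smul_apply, Pi.smul_apply, smul_eq_mul, Finsupp.single_apply]
    refine Finset.sum_congr rfl fun s _ => ?_
    split_ifs with h h'
    · rw [h', Pi.single_eq_same]
    · rw [Pi.single_eq_of_ne h']
    · rfl
  have h2 : ∀ f (s : S), F f (ν s.1) s.1 = f s := by
    intro f s
    rw [h1, Finset.sum_eq_single s]
    · simp
    · intro s' _ hs
      have : s.1 ≠ s'.1 := fun e => hs (Subtype.ext e.symm)
      simp [this]
    · simp
  have h3 : ∀ f n t, ¬ (t ∈ S ∧ n = ν t) → F f n t = 0 := by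
    intro f n t h
    rw [h1]
    refine Finset.sum_eq_zero fun s _ => ?_
    split_ifs with h' h''
    · exact absurd ⟨h'' ▸ s.2, by rw [h'', h']⟩ h
    · exact mul_zero _
    · exact mul_zero _
  have hi : Function.Injective F := fun f g h => funext fun s => by rw [← h2 f s, h, h2]
  have hr : LinearMap.range F = U := by
    ext m
    rw [hU]
    constructor
    · rintro ⟨f, rfl⟩
      exact h3 f
    · intro h
      refine ⟨fun s => m (ν s.1) s.1, ?_⟩
      ext n t
      by_cases h' : t ∈ S ∧ n = ν t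
      · obtain ⟨h', rfl⟩ := h'
        exact h2 _ ⟨t, h'⟩
      · rw [h3 _ n t h', h n t h']
  rw [← hr, LinearMap.finrank_range_of_inj hi, Module.finrank_fintype_fun_eq_card, Fintype.card_coe]

/-- componentwise action -/
noncomputable def gpolyM : Matrix τ τ k →ₐ[k] End k (ℕ →₀ (τ → k)) where
  toFun A := Finsupp.mapRange.linearMap A.mulVecLin
  map_one' := Finsupp.lhom_ext fun _ _ => by simp
  map_mul' _ _ := Finsupp.lhom_ext fun _ _ => by simp
  map_zero' := Finsupp.lhom_ext fun _ _ => by simp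
  map_add' _ _ := Finsupp.lhom_ext fun _ _ => by simp
  commutes' _ := Finsupp.lhom_ext fun _ _ => by
    simp [Algebra.algebraMap_eq_smul_one, Matrix.smul_mulVec]

theorem gpolyM_single (A : Matrix τ τ k) (n : ℕ) (v : τ → k) :
    gpolyM A (Finsupp.single n v) = Finsupp.single n (A *ᵥ v) := by simp [gpolyM]

theorem gpolyM_apply (A : Matrix τ τ k) (m : ℕ →₀ (τ → k)) (n : ℕ) :
    gpolyM A m n = A *ᵥ m n := rfl

variable (k τ) in
/-- shift -/
noncomputable def gpolyS : End k (ℕ →₀ (τ → k)) := Finsupp.lmapDomain (τ → k) k (· + 1)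

omit [Fintype τ] [DecidableEq τ] in
theorem gpolyS_single (n : ℕ) (v : τ → k) :
    gpolyS k τ (Finsupp.single n v) = Finsupp.single (n + 1) v := by simp [gpolyS]

theorem gpolyS_M (A : Matrix τ τ k) (m : ℕ →₀ (τ → k)) :
    gpolyS k τ (gpolyM A m) = gpolyM A (gpolyS k τ m) := by
  induction m using Finsupp.induction_linear with
  | zero => simp
  | add a b ha hb => simp only [map_add, ha, hb]
  | single n v => simp only [gpolyM_single, gpolyS_single]

variable (k) in
/-- projection to a degree -/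
def gpolyD (deg : τ → ℤ) (e : ℤ) : Matrix τ τ k :=
  Matrix.diagonal fun t => if deg t = e then 1 else 0

theorem gpolyD_apply (deg : τ → ℤ) (e : ℤ) (v : τ → k) (t : τ) :
    (gpolyD k deg e *ᵥ v) t = if deg t = e then v t else 0 := by
  simp [gpolyD, Matrix.mulVec_diagonal]

variable (k) in
/-- the projections of the grading -/
noncomputable def gpolyP (deg : τ → ℤ) (d : ℤ) : End k (ℕ →₀ (τ → k)) :=
  Finsupp.lsum ℕ fun n : ℕ => Finsupp.lsingle n ∘ₗ (gpolyD k deg (d + n)).mulVecLin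

theorem gpolyP_single (deg : τ → ℤ) (d : ℤ) (n : ℕ) (v : τ → k) :
    gpolyP k deg d (Finsupp.single n v) = Finsupp.single n (gpolyD k deg (d + n) *ᵥ v) := by
  simp [gpolyP]

theorem gpolyP_apply (deg : τ → ℤ) (d : ℤ) (m : ℕ →₀ (τ → k)) (n : ℕ) (t : τ) :
    gpolyP k deg d m n t = if deg t = d + n then m n t else 0 := by
  induction m using Finsupp.induction_linear with
  | zero => simp
  | add a b ha hb =>
    rw [map_add, Finsupp.add_apply, Pi.add_apply, ha, hb]
    split_ifs <;> simp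
  | single n' v =>
    rw [gpolyP_single]
    by_cases h : n' = n
    · subst h
      rw [Finsupp.single_eq_same, Finsupp.single_eq_same, gpolyD_apply]
    · simp [Finsupp.single_eq_of_ne' h]

theorem gpolyP_range (deg : τ → ℤ) (d : ℤ) (m : ℕ →₀ (τ → k)) :
    m ∈ LinearMap.range (gpolyP k deg d) ↔ ∀ (n : ℕ) t, deg t ≠ d + n → m n t = 0 := by
  constructor
  · rintro ⟨m, rfl⟩ n t h
    rw [gpolyP_apply, if_neg h]
  · intro h
    refine ⟨m, ?_⟩
    ext n t
    rw [gpolyP_apply]
    split_ifs with h'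
    · rfl
    · exact (h n t h').symm

variable (k) in
/-- the grading -/
noncomputable def gpolyG (deg : τ → ℤ) : Grading k (ℕ →₀ (τ → k)) where
  P := gpolyP k deg
  PP i j m := by
    ext n t
    split_ifs with h
    · subst h
      simp only [gpolyP_apply]
      split_ifs <;> rfl
    · simp only [gpolyP_apply, Finsupp.zero_apply, Pi.zero_apply]
      split_ifs with h1 h2
      · exact absurd (by omega) h
      · rfl
      · rfl
  fin m := by
    induction m using Finsupp.induction_linear with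
    | zero => exact zero_mem _
    | add a b ha hb => exact add_mem ha hb
    | single n v =>
      rw [← Finset.univ_sum_single v, Finsupp.single_finset_sum]
      refine Submodule.sum_mem _ fun t _ => Submodule.mem_iSup_of_mem (deg t - n) ?_
      rw [gpolyP_range]
      intro n' t' h
      by_cases h1 : n = n'
      · subst h1
        rw [Finsupp.single_eq_same, Pi.single_eq_of_ne]
        rintro rfl
        exact h (by ring)
      · rw [Finsupp.single_eq_of_ne' h1]
        rfl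

theorem gpolyG_bdd (deg : τ → ℤ) : (gpolyG k deg).Bdd := by
  obtain ⟨c, hc⟩ := (Set.finite_range deg).bddAbove
  refine ⟨c, fun j hj m => ?_⟩
  change gpolyP k deg j m = 0
  ext n t
  have := hc ⟨t, rfl⟩
  rw [gpolyP_apply, if_neg (by omega)]
  rfl

theorem gpolyD_deg {deg : τ → ℤ} {A : Matrix τ τ k} {d : ℤ}
    (h : ∀ t t', A t t' ≠ 0 → deg t = deg t' + d) (e : ℤ) :
    gpolyD k deg (e + d) * A = A * gpolyD k deg e := by
  ext t t'
  rw [gpolyD, gpolyD, Matrix.diagonal_mul, Matrix.mul_diagonal]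
  by_cases h0 : A t t' = 0
  · rw [h0, mul_zero, zero_mul]
  · rw [h t t' h0, mul_comm]
    simp only [add_left_inj]

end Aux

namespace CD

variable {D : CD} {k : Type u} [Field k] {p : ℕ} [Fact p.Prime] [CharP k p] {J : Finset D.Δ}
  {h₀ : D.Std (0 : D.B → k)} {V : Type*} [AddCommGroup V] [Module ℚ V]
  {v : LRep k (D.g k × k) → V}

variable (D J h₀) in
theorem tor_trg : (D.trg J p h₀).Tor (fun a => (D.h k a, 0))
    (Fin.cons 0 fun i => D.wOf (D.wt (D.en J i).1)) := by
  refine ⟨fun a => ?_, fun a b => Prod.ext (D.lie_h_h a b) (lie_self (0 : k)), fun a i => ?_,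
    fun R hR a => LinearMap.ext fun m => ?_⟩
  · have h1 := D.bv_mem J p h₀ (.inl a)
    rwa [D.t2ia_inl] at h1
  · refine Fin.cases ?_ (fun i => ?_) i
    · change ⁅((D.h k a, 0) : D.g k × k), ((0, 1) : D.g k × k)⁆ = ((0 : ℤ) : k) • _
      rw [D.t2ia_cen, Int.cast_zero, zero_smul]
    · obtain ⟨β, h, -⟩ := (D.dJ_neg_iff J _).1 (D.en J i).2
      change ⁅((D.h k a, 0) : D.g k × k), ((D.bv k (D.en J i).1, 0) : D.g k × k)⁆
        = ((D.wOf (D.wt (D.en J i).1) a : ℤ) : k) • ((D.bv k (D.en J i).1, 0) : D.g k × k)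
      have e : D.wOf (D.wt (.inr β)) = D.rt β := (D.rt_co β).symm
      rw [h, e]
      exact Prod.ext (D.lie_h_e a β) ((lie_self (0 : k)).trans (smul_zero _).symm)
  · have h1 := hR ⟨.inl a, (D.t2ia_inl J a).ge⟩ m
    change (R.ρ (D.h k a, 0) ^ p) m = R.ρ (D.h k a, 0) m + (0 : k) ^ p • m at h1
    rwa [zero_pow (Fact.out : p.Prime).ne_zero, zero_smul, add_zero] at h1

section Mod

variable {μ : D.σ → ℤ} (M : D.WM k p μ)

/-- the action on polynomials with coefficients in the module -/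
noncomputable def gpolyρ : D.g k × k →ₗ[k] End k (ℕ →₀ (M.τ → k)) :=
  gpolyM.toLinearMap ∘ₗ M.φ.toLinearMap ∘ₗ LinearMap.fst k _ k
    + (LinearMap.snd k _ k).smulRight (gpolyS k M.τ)

omit [Fact p.Prime] [CharP k p] in
theorem gpolyρ_apply (x : D.g k × k) : gpolyρ M x = gpolyM (M.φ x.1) + x.2 • gpolyS k M.τ := rfl

omit [Fact p.Prime] [CharP k p] in
theorem gpolyρ_inl (x : D.g k) : gpolyρ M (x, 0) = gpolyM (M.φ x) := by
  rw [gpolyρ_apply, zero_smul, add_zero]

/-- the module of polynomials -/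
noncomputable def gpolyR : LRep k (D.g k × k) :=
  LRep.ofLin (gpolyρ M) fun x y m => by
    have e1 : ⁅x, y⁆.1 = ⁅x.1, y.1⁆ := rfl
    have e2 : ⁅x, y⁆.2 = 0 := sub_eq_zero.2 (mul_comm _ _)
    rw [gpolyρ_apply M ⁅x, y⁆, e1, e2, zero_smul, add_zero, LieHom.map_lie, Ring.lie_def, map_sub,
      map_mul, map_mul]
    simp only [gpolyρ_apply, LinearMap.add_apply, LinearMap.smul_apply, map_add, map_smul,
      gpolyS_M, LinearMap.sub_apply, End.mul_apply]
    module

variable (J) in
/-- the degree of a basis vector -/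
def gpolyDeg (t : M.τ) : ℤ := -∑ i, M.wc t i * D.dJ J i

omit [Fact p.Prime] [CharP k p] in
theorem gpoly_bv (b : D.B) (t t' : M.τ) (h : M.φ (D.bv k b) t t' ≠ 0) :
    gpolyDeg J M t = gpolyDeg J M t' + D.dB (D.dJ J) b := by
  rcases b with a | β
  · have h1 : M.φ (D.bv k (.inl a)) = _ := M.tor a
    rw [h1] at h
    by_cases e : t = t'
    · rw [e, D.t2ia_inl, add_zero]
    · exact absurd (Matrix.diagonal_apply_ne _ e) h
  · have h1 := M.hom β t t' h
    change _ = _ + ∑ i, D.co β i * D.dJ J i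
    simp only [gpolyDeg, h1, Pi.sub_apply, sub_mul, Finset.sum_sub_distrib]
    ring

theorem gpoly_gr : (D.trg J p h₀).Gr (gpolyR M) (gpolyG k (gpolyDeg J M)) := by
  intro d x hx j m
  obtain ⟨h1, h2⟩ := (D.t2i_mem J p h₀).1 hx
  have h3 : ∀ t t', M.φ x.1 t t' ≠ 0 → gpolyDeg J M t = gpolyDeg J M t' + d := by
    intro t t' h
    rw [D.eq_sum x.1, map_sum, Matrix.sum_apply] at h
    obtain ⟨b, -, hb⟩ := Finset.exists_ne_zero_of_sum_ne_zero h
    rw [map_smul, Matrix.smul_apply, smul_eq_mul] at hb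
    rw [gpoly_bv M b t t' (right_ne_zero_of_mul hb),
      not_not.1 (mt (h1 b) (left_ne_zero_of_mul hb))]
  change ℕ →₀ (M.τ → k) at m
  change gpolyP k _ (j + d) (gpolyρ M x m) = gpolyρ M x (gpolyP k _ j m)
  induction m using Finsupp.induction_linear with
  | zero => simp
  | add a b ha hb => simp only [map_add, ha, hb]
  | single n w =>
    simp only [gpolyρ_apply, LinearMap.add_apply, LinearMap.smul_apply, map_add, map_smul,
      gpolyM_single, gpolyS_single, gpolyP_single, Matrix.mulVec_mulVec]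
    rw [add_right_comm j d, gpolyD_deg h3]
    by_cases hd : d = -1
    · rw [show j + d + ((n + 1 : ℕ) : ℤ) = j + n by push_cast; omega]
    · rw [h2 hd, zero_smul, zero_smul]

theorem gpoly_fg : (D.trg J p h₀).FG (gpolyR M) := by
  refine Trg.FG.of_gen _ (Set.range fun t : M.τ =>
    (Finsupp.single 0 (Pi.single t 1) : ℕ →₀ (M.τ → k))) (Set.finite_range _) ?_
  intro U h1 h2 m
  change Submodule k (ℕ →₀ (M.τ → k)) at U
  change ℕ →₀ (M.τ → k) at m
  have h3 : ∀ m ∈ U, gpolyS k M.τ m ∈ U := by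
    intro m hm
    have h4 : (gpolyρ M (0, 1) ^ 1 : End k (ℕ →₀ (M.τ → k))) m ∈ U := h2 0 m hm
    rwa [pow_one, gpolyρ_apply, map_zero, map_zero, zero_add, one_smul] at h4
  have h5 : ∀ (n : ℕ) (w : M.τ → k), Finsupp.single n w ∈ U := by
    intro n w
    induction n with
    | zero =>
      rw [← Finset.univ_sum_single w, Finsupp.single_finset_sum]
      refine Submodule.sum_mem _ fun t _ => ?_
      have h6 := U.smul_mem (w t) (h1 _ ⟨t, rfl⟩)
      rwa [Finsupp.smul_single, ← Pi.single_smul', smul_eq_mul, mul_one] at h6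
    | succ n ih =>
      rw [← gpolyS_single]
      exact h3 _ ih
  induction m using Finsupp.induction_linear with
  | zero => exact U.zero_mem
  | add a b ha hb => exact U.add_mem ha hb
  | single n w => exact h5 n w

theorem gpoly_pow (b : D.B) : M.φ (D.bv k b) ^ p = M.φ (D.pmb k b) := by
  rcases b with a | β
  · change M.φ (D.h k a) ^ p = M.φ (D.h k a)
    rw [M.tor, Matrix.diagonal_pow]
    refine congrArg _ (funext fun t => ?_)
    exact map_intCast (frobenius k p) _
  · exact (M.nil β).trans (map_zero M.φ).symm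

theorem gpoly_rel : (D.trg J p h₀).Rel (gpolyR M) := by
  intro a m
  change ℕ →₀ (M.τ → k) at m
  change (gpolyρ M (D.bv k a.1, 0) ^ p : End k (ℕ →₀ (M.τ → k))) m
    = gpolyρ M (D.pmb k a.1, 0) m + (0 : k) ^ p • m
  rw [zero_pow (Fact.out : p.Prime).ne_zero, zero_smul, add_zero, gpolyρ_inl, gpolyρ_inl,
    ← map_pow, gpoly_pow]

theorem gpoly_B (i : Fin (Fintype.card (D.Nil J))) : (D.trg J p h₀).B (gpolyR M) i.succ = 0 := by
  obtain ⟨β, h, -⟩ := (D.dJ_neg_iff J _).1 (D.en J i).2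
  change gpolyρ M (D.bv k (D.en J i).1, 0) ^ p = 0
  rw [gpolyρ_inl, ← map_pow, h, M.nil, map_zero]

theorem gpoly_wsp (x : D.σ → ZMod p) (m : ℕ →₀ (M.τ → k)) :
    m ∈ wsp (fun a => gpolyρ M (D.h k a, 0)) x
      ↔ ∀ n t, red p (μ - D.wOf (M.wc t)) ≠ x → m n t = 0 := by
  have hinj : ∀ (c : ℤ) (y : ZMod p), (c : k) = (ZMod.cast y : k) ↔ (c : ZMod p) = y := by
    intro c y
    rw [← (ZMod.castHom (dvd_refl p) k).injective.eq_iff, map_intCast, ZMod.castHom_apply]
  have key : ∀ a n t, gpolyM (M.φ (D.h k a)) m n t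
      = (((μ - D.wOf (M.wc t)) a : ℤ) : k) * m n t := by
    intro a n t
    rw [gpolyM_apply, M.tor, Matrix.mulVec_diagonal]
  simp only [wsp, Submodule.mem_iInf, End.mem_eigenspace_iff, gpolyρ_inl]
  constructor
  · intro h n t hx
    obtain ⟨a, ha⟩ := Function.ne_iff.1 hx
    have h1 : gpolyM (M.φ (D.h k a)) m n t = (ZMod.cast (x a) : k) * m n t := by
      rw [h a]; rfl
    rw [key] at h1
    by_contra h2
    exact ha ((hinj _ _).1 (mul_right_cancel₀ h2 h1))
  · intro h a
    ext n t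
    rw [key]
    change _ = (ZMod.cast (x a) : k) * m n t
    by_cases hx : red p (μ - D.wOf (M.wc t)) = x
    · rw [(hinj _ _).2 (congrFun hx a)]
    · rw [h n t hx, mul_zero, mul_zero]

theorem gpoly_ch (y : ℤ × (D.σ → ZMod p)) :
    Trg.chG (fun a => ((D.h k a, 0) : D.g k × k)) (gpolyR M) (gpolyG k (gpolyDeg J M)) y
      = ∑ t, if y.1 ≤ gpolyDeg J M t ∧ red p (μ - D.wOf (M.wc t)) = y.2 then 1 else 0 := by
  have h1 := gpoly_rank (k := k)
    (Finset.univ.filter fun t => y.1 ≤ gpolyDeg J M t ∧ red p (μ - D.wOf (M.wc t)) = y.2)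
    (fun t => (gpolyDeg J M t - y.1).toNat)
    (LinearMap.range (gpolyP k (gpolyDeg J M) y.1) ⊓ wsp (fun a => gpolyρ M (D.h k a, 0)) y.2)
    (fun m => by
      rw [Submodule.mem_inf, gpolyP_range, gpoly_wsp]
      simp only [Finset.mem_filter, Finset.mem_univ, true_and]
      constructor
      · rintro ⟨h1, h2⟩ n t h
        by_contra h0
        have h3 := not_not.1 (mt (h1 n t) h0)
        exact h ⟨⟨by omega, not_not.1 (mt (h2 n t) h0)⟩, by omega⟩
      · intro h
        exact ⟨fun n t h1 => h n t fun h2 => h1 (by omega),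
          fun n t h1 => h n t fun h2 => h1 h2.1.2⟩)
  have h2 : Trg.chG (fun a => ((D.h k a, 0) : D.g k × k)) (gpolyR M) (gpolyG k (gpolyDeg J M)) y
      = ((Finset.univ.filter fun t =>
        y.1 ≤ gpolyDeg J M t ∧ red p (μ - D.wOf (M.wc t)) = y.2).card : ℚ) :=
    congrArg (Nat.cast : ℕ → ℚ) h1
  rw [h2, Finset.card_filter, Nat.cast_sum]
  refine Finset.sum_congr rfl fun t _ => ?_
  split_ifs <;> simp

end Mod

theorem v_rel (hJ : J ≠ Finset.univ) (hv : (D.trg J p h₀).Addu v)
    (h0 : ∀ R, (D.trg J p h₀).FG R → ∀ i, (D.trg J p h₀).B R i = 0 → v R = 0) {μ : D.σ → ℤ}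
    (M : D.WM k p μ) : ∃ (m : ℕ) (c : Fin m → ℚ) (E : Fin m → LRep k (D.trg J p h₀).par),
      (∀ l, (D.trg J p h₀).Adm (E l)) ∧ ∑ l, c l • v ((D.trg J p h₀).Ind (E l)) = 0 ∧
      ∀ x, ∑ l, c l * (D.levi J).ch p ((E l).res (D.j0 J p h₀)) x
        = den Finset.univ (fun b : D.Nil J => red p (D.wOf (D.wt b.1)))
          (D.cnt p fun t => μ - D.wOf (M.wc t)) x := by
  have hC : (D.trg J p h₀).Cat (gpolyR M) (gpolyG k (gpolyDeg J M)) :=
    ⟨gpoly_gr M, gpolyG_bdd _, gpoly_fg M, gpoly_rel M⟩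
  obtain ⟨m, c, E, j, h1, h2, h3⟩ := Trg.char_rel (D.tor_trg J h₀) hv hC
  obtain ⟨i, hi⟩ : ∃ i, i ∉ J := by
    by_contra hc
    exact hJ (Finset.eq_univ_of_forall fun i => not_not.1 fun h => hc ⟨i, h⟩)
  have hN : D.dB (D.dJ J) (.inr (D.neg (D.s i))) < 0 :=
    (D.dJ_neg_iff J _).2 ⟨_, rfl, fun h => (D.pos_neg_iff _).1 h (D.pos_s i),
      fun h => hi (D.in_s.1 (D.in_neg.1 h))⟩
  refine ⟨m, c, E, h1, h2.symm.trans (h0 _ hC.fg _ (gpoly_B M ((D.en J).symm ⟨_, hN⟩))),
    fun x => ?_⟩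
  let a : Fin (Fintype.card (D.Nil J)) → ℤ := fun i => -((D.trg J p h₀).δ i.succ : ℤ)
  let T : Finset ℤ := Finset.univ.image j ∪ Finset.univ.image
    fun q : Finset (Fin (Fintype.card (D.Nil J))) × M.τ => gpolyDeg J M q.2 + ∑ i ∈ q.1, a i
  have h4 := gpoly_den_sum a (fun i => red p (D.wOf (D.wt (D.en J i).1))) (gpolyDeg J M)
    (fun t => red p (μ - D.wOf (M.wc t)))
    (fun y => Trg.chG (fun a => ((D.h k a, 0) : D.g k × k)) (gpolyR M) (gpolyG k (gpolyDeg J M)) y
      - Trg.chG (fun a => ((D.h k a, 0) : D.g k × k)) (gpolyR M) (gpolyG k (gpolyDeg J M))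
        (y - ((-((1 : ℕ) : ℤ) : ℤ), red p (0 : D.σ → ℤ))))
    (fun y => by
      have e : red p (0 : D.σ → ℤ) = 0 := funext fun _ => Int.cast_zero
      rw [gpoly_ch, gpoly_ch, ← Finset.sum_sub_distrib]
      refine Finset.sum_congr rfl fun t _ => ?_
      rw [e, Prod.fst_sub, Prod.snd_sub, sub_zero]
      by_cases hx : red p (μ - D.wOf (M.wc t)) = y.2
      · simp only [hx, and_true]
        split_ifs <;> first | omega | simp
      · simp [hx])
    T (fun S t => Finset.mem_union_right _ (Finset.mem_image.2 ⟨(S, t), Finset.mem_univ _, rfl⟩)) x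
  have h5 : ∑ d ∈ T, ∑ l, (c l * if d = j l then
      (D.trg J p h₀).chP (D.tor_trg J h₀).mem (E l) x else 0) = _ :=
    (Finset.sum_congr rfl fun d _ => (h3 (d, x)).symm.trans (gpoly_den_succ _ _ _)).trans h4
  have h6 := gpoly_den_map (D.en J).toEmbedding Finset.univ
    (fun b : D.Nil J => red p (D.wOf (D.wt b.1))) (D.cnt p fun t => μ - D.wOf (M.wc t)) x
  rw [Finset.map_univ_equiv] at h6
  refine Eq.trans ?_ (h5.trans h6.symm)
  rw [Finset.sum_comm]
  refine Finset.sum_congr rfl fun l _ => ?_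
  rw [← Finset.mul_sum, Finset.sum_ite_eq', if_pos (Finset.mem_union_left _
    (Finset.mem_image_of_mem j (Finset.mem_univ l)))]
  have e : (fun a : D.σ => (E l).ρ (D.j0 J p h₀ ((D.levi J).h k a)))
      = fun a => (E l).ρ ⟨(D.h k a, 0),
        (D.trg J p h₀).mem_par_of_gr le_rfl ((D.tor_trg J h₀).mem a)⟩ :=
    funext fun a => congrArg (E l).ρ (Subtype.ext (Prod.ext (D.leviHom_bv J k (.inl a)) rfl))
  exact congrArg (fun f => c l * (finrank k (wsp f x) : ℚ)) e

end CD

end Pool.Agent.P.Bf04
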