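import Pool.Agent.P.MP_bf0464_al.H.GDef
import Pool.Agent.P.MP_bf0464_al.H.Bad

/-! Weighted modules in type G. -/

namespace Pool.Agent.P.Bf04

open Matrix Module

attribute [local instance 100] LieRing.ofAssociativeRing

universe u v w

section Kron

open Kronecker

variable {k : Type u} [Field k] {τ τ' : Type} [Fintype τ] [DecidableEq τ] [Fintype τ']
  [DecidableEq τ']

variable (τ') in
/-- the left factor of a tensor product -/
def gwmL : Matrix τ τ k →ₐ[k] Matrix (τ × τ') (τ × τ') k :=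
  AlgHom.ofLinearMap ((kroneckerBilinear (R := k)).flip (1 : Matrix τ' τ' k))
    (show (1 : Matrix τ τ k) ⊗ₖ (1 : Matrix τ' τ' k) = 1 from one_kronecker_one) fun A B => by
      change (A * B) ⊗ₖ 1 = A ⊗ₖ 1 * B ⊗ₖ 1
      rw [← mul_kronecker_mul, mul_one]

variable (τ) in
/-- the right factor of a tensor product -/
def gwmR : Matrix τ' τ' k →ₐ[k] Matrix (τ × τ') (τ × τ') k :=
  AlgHom.ofLinearMap (kroneckerBilinear (R := k) (1 : Matrix τ τ k)) one_kronecker_one
    fun A B => by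
      change 1 ⊗ₖ (A * B) = 1 ⊗ₖ A * 1 ⊗ₖ B
      rw [← mul_kronecker_mul, mul_one]

theorem gwmL_apply (A : Matrix τ τ k) (x y : τ × τ') :
    gwmL τ' A x y = A x.1 y.1 * (1 : Matrix τ' τ' k) x.2 y.2 := rfl

theorem gwmR_apply (B : Matrix τ' τ' k) (x y : τ × τ') :
    gwmR τ B x y = (1 : Matrix τ τ k) x.1 y.1 * B x.2 y.2 := rfl

theorem gwm_comm (A : Matrix τ τ k) (B : Matrix τ' τ' k) : Commute (gwmL τ' A) (gwmR τ B) := by
  change A ⊗ₖ 1 * 1 ⊗ₖ B = 1 ⊗ₖ B * A ⊗ₖ 1
  rw [← mul_kronecker_mul, ← mul_kronecker_mul, mul_one, mul_one, one_mul, one_mul]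

/-- the tensor product of two matrix representations -/
def gwmT {L : Type*} [LieRing L] [LieAlgebra k L] (φ : L →ₗ⁅k⁆ Matrix τ τ k)
    (ψ : L →ₗ⁅k⁆ Matrix τ' τ' k) : L →ₗ⁅k⁆ Matrix (τ × τ') (τ × τ') k where
  toFun x := gwmL τ' (φ x) + gwmR τ (ψ x)
  map_add' x y := by
    simp only [map_add]
    abel
  map_smul' c x := by simp only [map_smul, smul_add, RingHom.id_apply]
  map_lie' := fun {x y} => by
    simp only [LieHom.map_lie, Ring.lie_def, map_sub, map_mul, mul_add, add_mul,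
      (gwm_comm (φ x) (ψ y)).eq, (gwm_comm (φ y) (ψ x)).eq]
    abel

end Kron

/-- first coordinates of the depths in the module of dimension seven -/
def gwmA : Fin 7 → ℤ := ![0, 1, 1, 2, 3, 3, 4]
/-- second coordinates -/
def gwmB : Fin 7 → ℤ := ![0, 0, 1, 1, 1, 2, 2]
/-- raising operators -/
def gwmE (b : Bool) : Matrix (Fin 7) (Fin 7) ℤ := Matrix.of fun x y =>
  if x.val + 1 = y.val then (if b then ![1, 0, 2, 2, 0, 1, 0] x else ![0, 1, 0, 0, 1, 0, 0] x) else 0
/-- lowering operators -/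
def gwmF (b : Bool) : Matrix (Fin 7) (Fin 7) ℤ := Matrix.of fun x y =>
  if y.val + 1 = x.val then (if b then ![1, 0, 1, 1, 0, 1, 0] y else ![0, 1, 0, 0, 1, 0, 0] y) else 0

theorem gwm_EF : ∀ b c, gwmE b * gwmF c - gwmF c * gwmE b = if b = c then
    Matrix.diagonal (fun t => if b then 1 - 2 * gwmA t + 3 * gwmB t else gwmA t - 2 * gwmB t)
    else 0 := by decide

theorem gwm_E : ∀ b x y, gwmE b x y ≠ 0 →
    gwmA y = gwmA x + (if b then 1 else 0) ∧ gwmB y = gwmB x + if b then 0 else 1 := by decide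

theorem gwm_F : ∀ b x y, gwmF b x y ≠ 0 →
    gwmA x = gwmA y + (if b then 1 else 0) ∧ gwmB x = gwmB y + if b then 0 else 1 := by decide

theorem gwm_cyc {k : Type u} [Field k] (h2 : (2 : k) ≠ 0) (M : Bool → Matrix (Fin 7) (Fin 7) ℤ)
    (s : Fin 7 → Fin 7) (hs : ∀ y, ∃ x, s x = y)
    (h : ∀ t : Fin 6, ∃ b, ∃ c : Bool, ∀ z,
      M b z (s t.castSucc) = if z = s t.succ then (if c then 1 else 2) else 0)
    (U : Submodule k (Fin 7 → k)) (h0 : Pi.single (s 0) 1 ∈ U)
    (hU : ∀ b, ∀ v ∈ U, (M b).map (Int.cast : ℤ → k) *ᵥ v ∈ U) : U = ⊤ := by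
  have key : ∀ t, Pi.single (s t) (1 : k) ∈ U := by
    intro t
    induction t using Fin.induction with
    | zero => exact h0
    | succ t ih =>
      obtain ⟨b, c, hc⟩ := h t
      have h1 := hU b _ ih
      have h3 : (M b).map (Int.cast : ℤ → k) *ᵥ Pi.single (s t.castSucc) 1
          = (if c then 1 else 2 : k) • (Pi.single (s t.succ) 1 : Fin 7 → k) := by
        funext z
        rw [mulVec_single_one, col_apply, map_apply, hc, Pi.smul_apply, Pi.single_apply]
        split_ifs <;> simp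
      rw [h3] at h1
      exact (U.smul_mem_iff (by split_ifs; exacts [one_ne_zero, h2])).1 h1
  rw [eq_top_iff, ← (Pi.basisFun k (Fin 7)).span_eq, Submodule.span_le]
  rintro _ ⟨y, rfl⟩
  obtain ⟨x, rfl⟩ := hs y
  simpa using key x

namespace CD

variable {D : CD} {k : Type u} [Field k] {p : ℕ} [Fact p.Prime] [CharP k p]

theorem gwm_wOf_sub (x y : D.Δ → ℤ) : D.wOf (x - y) = D.wOf x - D.wOf y := by
  rw [sub_eq_add_neg, repl_wOf_add, repl_wOf_neg, sub_eq_add_neg]

theorem gwm_wOf_co (β : D.ι) : D.wOf (D.co β) = D.rt β := (D.rt_co β).symm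

set_option linter.unusedSectionVars false in
theorem wm_zero : Nonempty (D.WM k p 0) :=
  ⟨{ τ := Unit
     wc := 0
     nonneg := fun _ => le_rfl
     top := ⟨(), rfl, fun _ _ => rfl⟩
     inv := fun _ => ⟨1, fun _ => by simp [wOf, RD.sr]⟩
     φ := 0
     tor := fun a => by simp [wOf]
     hom := fun _ _ _ h => absurd rfl h
     nil := fun _ => zero_pow (Fact.out : p.Prime).ne_zero }⟩

theorem wm_add {μ ν : D.σ → ℤ} (M : D.WM k p μ) (N : D.WM k p ν) : Nonempty (D.WM k p (μ + ν)) := by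
  obtain ⟨t₀, ht₀, ht⟩ := M.top
  obtain ⟨u₀, hu₀, hu⟩ := N.top
  have : Nonempty (M.τ × N.τ) := ⟨(t₀, u₀)⟩
  have e : ∀ x : M.τ × N.τ, μ + ν - D.wOf (M.wc x.1 + N.wc x.2)
      = (μ - D.wOf (M.wc x.1)) + (ν - D.wOf (N.wc x.2)) := fun x => by
    rw [repl_wOf_add]
    abel
  refine ⟨{
    τ := M.τ × N.τ
    wc := fun x => M.wc x.1 + N.wc x.2
    nonneg := fun x => add_nonneg (M.nonneg _) (N.nonneg _)
    top := ⟨(t₀, u₀), by simp only [ht₀, hu₀, add_zero], fun x hx => ?_⟩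
    inv := fun i => ?_
    φ := gwmT M.φ N.φ
    tor := fun a => ?_
    hom := fun β x y h => ?_
    nil := fun β => ?_ }⟩
  · have := (add_eq_zero_iff_of_nonneg (M.nonneg _) (N.nonneg _)).1 hx
    exact Prod.ext (ht _ this.1) (hu _ this.2)
  · obtain ⟨π, hπ⟩ := M.inv i
    obtain ⟨π', hπ'⟩ := N.inv i
    refine ⟨π.prodCongr π', fun x => ?_⟩
    rw [e, e]
    change (μ - D.wOf (M.wc (π x.1))) + (ν - D.wOf (N.wc (π' x.2))) = _
    rw [hπ, hπ']
    simp only [RD.sr, add_dotProduct, add_smul]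
    abel
  · ext x y
    change gwmL N.τ (M.φ _) x y + gwmR M.τ (N.φ _) x y = _
    rw [gwmL_apply, gwmR_apply, M.tor, N.tor]
    simp only [e, diagonal_apply, one_apply, Prod.ext_iff, Pi.add_apply, Int.cast_add]
    by_cases h1 : x.1 = y.1 <;> by_cases h2 : x.2 = y.2 <;> simp [h1, h2]
  · change gwmL N.τ (M.φ _) x y + gwmR M.τ (N.φ _) x y ≠ 0 at h
    rw [gwmL_apply, gwmR_apply] at h
    by_cases h1 : M.φ (D.e k β) x.1 y.1 * (1 : Matrix N.τ N.τ k) x.2 y.2 = 0
    · rw [h1, zero_add] at h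
      have h2 : x.1 = y.1 := not_not.1 fun h3 => left_ne_zero_of_mul h (one_apply_ne h3)
      rw [h2, N.hom β _ _ (right_ne_zero_of_mul h), add_sub_assoc]
    · have h2 : x.2 = y.2 := not_not.1 fun h3 => right_ne_zero_of_mul h1 (one_apply_ne h3)
      rw [h2, M.hom β _ _ (left_ne_zero_of_mul h1), sub_add_eq_add_sub]
  · change (gwmL N.τ (M.φ _) + gwmR M.τ (N.φ _)) ^ p = 0
    rw [add_pow_char_of_commute p (gwm_comm _ _), ← map_pow (gwmL N.τ), ← map_pow (gwmR M.τ), M.nil,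
      N.nil, map_zero, map_zero, add_zero]

theorem wm_adj {θ : D.ι} (h : ∀ β, D.co β ≤ D.co θ) : Nonempty (D.WM k p (D.rt θ)) := by
  have e : ∀ b, D.rt θ - D.wOf (D.co θ - D.wt b) = D.wOf (D.wt b) := fun b => by
    rw [gwm_wOf_sub, gwm_wOf_co, sub_sub_cancel]
  have hφ : ∀ b t t', (LinearMap.toMatrixAlgEquiv' (LieAlgebra.ad k (D.g k) (D.bv k b))) t t'
      = (D.cc b t' t : k) := fun b t t' => D.lie_bv_apply b t' t
  refine ⟨{
    τ := D.B
    wc := fun b => D.co θ - D.wt b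
    nonneg := ?_
    top := ⟨.inr θ, sub_self _, ?_⟩
    inv := fun i => ⟨Equiv.sumCongr (Equiv.refl _) (D.rootA_perm (D.s i)), fun b => ?_⟩
    φ := (LinearMap.toMatrixAlgEquiv' (R := k) (n := D.B)).toAlgHom.toLieHom.comp
      (LieAlgebra.ad k (D.g k))
    tor := fun a => ?_
    hom := fun β t t' h0 => ?_
    nil := fun β => ?_ }⟩
  · rintro (a | β)
    · intro i
      have := h (D.neg θ) i
      rw [D.co_neg] at this
      simp only [RD.wt, Sum.elim_inl, sub_zero, Pi.neg_apply, Pi.zero_apply] at this ⊢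
      omega
    · exact sub_nonneg.2 (h β)
  · rintro (a | β) h0
    · exact absurd ((sub_zero _).symm.trans h0) (D.co_ne_zero θ)
    · exact congrArg _ (D.co_inj (sub_eq_zero.1 h0)).symm
  · rw [e, e]
    rcases b with a | β
    · simp [RD.wt, wOf, RD.sr]
    · exact (gwm_wOf_co _).trans ((D.sr_rt i β).symm.trans (congrArg _ (gwm_wOf_co β).symm))
  · ext t t'
    refine (hφ _ t t').trans ?_
    simp only [e, diagonal_apply]
    rcases t' with b | β
    · split_ifs with h1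
      · simp [h1, RD.c, RD.wt, wOf]
      · simp [RD.c]
    · split_ifs with h1
      · subst h1
        simp [RD.c, RD.wt, gwm_wOf_co]
      · simp [RD.c, h1]
  · have h1 : D.cc (.inr β) t' t ≠ 0 := fun h1 => h0 ((hφ _ t t').trans (by rw [h1, Int.cast_zero]))
    rw [D.cc_wt h1]
    change _ - (D.co β + _) = _
    abel
  · change (LinearMap.toMatrixAlgEquiv' (LieAlgebra.ad k (D.g k) (D.e k β))) ^ p = 0
    have : LieAlgebra.ad k (D.g k) (D.e k β) ^ p = 0 := LinearMap.ext fun x => by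
      rw [ad_pow_bv]
      exact zero_lie x
    rw [← map_pow, this, map_zero]

theorem gwm_str (hT : IsTyp D.A Finset.univ CartanMatrix.G₂) {i j : D.Δ} (hij : D.A j i = -3) :
    i ≠ j ∧ (∀ x, x = i ∨ x = j) ∧ D.A i j = -1 := by
  obtain ⟨e, he, h1, h2⟩ := hT
  have hs : ∀ x, ∃ a, e a = x := fun x => by
    obtain ⟨a, -, ha⟩ := Finset.mem_image.1 (h1 ▸ Finset.mem_univ x)
    exact ⟨a, ha⟩
  obtain ⟨a, rfl⟩ := hs i
  obtain ⟨b, rfl⟩ := hs j
  rw [h2] at hij
  have hab : a = 1 ∧ b = 0 := by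
    revert hij a b
    decide
  obtain ⟨rfl, rfl⟩ := hab
  refine ⟨fun h => absurd (he h) (by decide), fun x => ?_, h2 _ _⟩
  obtain ⟨c, rfl⟩ := hs x
  fin_cases c
  exacts [Or.inr rfl, Or.inl rfl]

theorem gwm_sum {i j : D.Δ} (h : i ≠ j) (h' : ∀ x, x = i ∨ x = j) {M : Type*} [AddCommMonoid M]
    (f : D.Δ → M) : ∑ x, f x = f i + f j :=
  Fintype.sum_eq_add i j h fun x hx => ((h' x).elim hx.1 hx.2).elim

omit [Fact p.Prime] [CharP k p] in
theorem gwm_pow {τ : Type} [Fintype τ] [DecidableEq τ] {wc : τ → D.Δ → ℤ} {c : D.Δ → ℤ}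
    {M : Matrix τ τ k} (h : ∀ t t', M t t' ≠ 0 → wc t = wc t' - c) (n : ℕ) :
    ∀ t t', (M ^ n) t t' ≠ 0 → wc t = wc t' - (n : ℤ) • c := by
  induction n with
  | zero =>
    intro t t' h0
    rw [pow_zero] at h0
    rw [not_not.1 fun h1 => h0 (one_apply_ne h1), Nat.cast_zero, zero_smul, sub_zero]
  | succ n ih =>
    intro t t' h0
    rw [pow_succ, Matrix.mul_apply] at h0
    obtain ⟨u, -, hu⟩ := Finset.exists_ne_zero_of_sum_ne_zero h0
    rw [ih _ _ (left_ne_zero_of_mul hu), h _ _ (right_ne_zero_of_mul hu)]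
    push_cast
    module

theorem wm_seven (hg : D.Good p) (hT : IsTyp D.A Finset.univ CartanMatrix.G₂) {i j : D.Δ}
    (hij : D.A j i = -3) : Nonempty (D.WM k p (2 • D.rt (D.s i) + D.rt (D.s j))) := by
  have hp : p.Prime := Fact.out
  have h5 : 5 ≤ p := hg.five_le hp (Or.inr (Or.inr (Or.inr (Or.inr hT))))
  have h2 : (2 : k) ≠ 0 := fun h => by
    have := (CharP.cast_eq_zero_iff k p 2).1 (by exact_mod_cast h)
    have := Nat.le_of_dvd two_pos this
    omega
  obtain ⟨hne, hall, hji⟩ := gwm_str hT hij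
  set μ := 2 • D.rt (D.s i) + D.rt (D.s j) with hμ
  set wc : Fin 7 → D.Δ → ℤ := fun t x => if x = i then gwmA t else gwmB t with hwc
  have hw : ∀ t, μ - D.wOf (wc t)
      = (2 - gwmA t) • D.rt (D.s i) + (1 - gwmB t) • D.rt (D.s j) := fun t => by
    rw [wOf, gwm_sum hne hall, hμ, hwc]
    simp only [if_true, if_neg hne.symm]
    module
  have pi : ∀ t, (μ - D.wOf (wc t)) ⬝ᵥ D.cr (D.s i) = 1 - 2 * gwmA t + 3 * gwmB t := fun t => by
    rw [hw, add_dotProduct, smul_dotProduct, smul_dotProduct, D.two]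
    change _ + _ • D.A j i = _
    rw [hij]
    simp only [smul_eq_mul]
    ring
  have pj : ∀ t, (μ - D.wOf (wc t)) ⬝ᵥ D.cr (D.s j) = gwmA t - 2 * gwmB t := fun t => by
    rw [hw, add_dotProduct, smul_dotProduct, smul_dotProduct, D.two]
    change _ • D.A i j + _ = _
    rw [hji]
    simp only [smul_eq_mul]
    ring
  have step : ∀ (x : D.Δ) (t t' : Fin 7), gwmA t' = gwmA t + (if decide (x = i) then 1 else 0) ∧
      gwmB t' = gwmB t + (if decide (x = i) then 0 else 1) →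
      μ - D.wOf (wc t) = μ - D.wOf (wc t') + D.rt (D.s x) := by
    intro x t t' h
    rw [hw, hw, h.1, h.2]
    rcases hall x with rfl | rfl
    · simp only [decide_true, if_true]
      module
    · simp only [hne.symm, decide_false, Bool.false_eq_true, if_false]
      module
  have nz : ∀ (M : Matrix (Fin 7) (Fin 7) ℤ) t t', M.map (Int.cast : ℤ → k) t t' ≠ 0 → M t t' ≠ 0 :=
    fun M t t' h h0 => h (by rw [map_apply, h0, Int.cast_zero])
  have bnd : ∀ t x, 0 ≤ wc t x ∧ wc t x ≤ wc 6 x ∧ wc 6 x ≤ 4 ∧ wc 0 x = 0 := fun t x => by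
    simp only [hwc]
    split_ifs <;> revert t <;> decide
  have hb : ∀ b : Bool, ∃ x, decide (x = i) = b := fun b => by
    cases b
    exacts [⟨j, decide_eq_false hne.symm⟩, ⟨i, decide_eq_true rfl⟩]
  have hR : D.RepData (fun t => μ - D.wOf (wc t))
      (fun x => (gwmE (decide (x = i))).map (Int.cast : ℤ → k))
      fun x => (gwmF (decide (x = i))).map (Int.cast : ℤ → k) := by
    refine ⟨fun x t t' h => step x t t' (gwm_E _ _ _ (nz _ _ _ h)), fun x t t' h => ?_,
      fun x y => ?_, fun x h0 h1 M hM hc => ?_, fun x h0 h1 M hM hc => ?_⟩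
    · simp only [step x t' t (gwm_F _ _ _ (nz _ _ _ h)), add_neg_cancel_right]
    · have h := congrArg (Int.castRingHom k).mapMatrix (gwm_EF (decide (x = i)) (decide (y = i)))
      rw [map_sub, map_mul, map_mul] at h
      refine h.trans ?_
      rcases hall x with rfl | rfl <;> rcases hall y with rfl | rfl <;>
        simp [hne, hne.symm, pi, pj, diagonal_map]
    · refine D.eq_zero_of_cyc _ _ 0 (fun U hU h => gwm_cyc h2 gwmF id (fun y => ⟨y, rfl⟩)
        (by decide) U hU fun b => ?_) (fun t h => h1 ?_) hM hc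
      · obtain ⟨x, rfl⟩ := hb b
        exact h x
      · rw [sub_add, sub_right_inj, ← gwm_wOf_sub] at h
        funext y
        have h3 := congrFun (D.rootA_li h) y
        have h4 := bnd t y
        have h6 := h0 y
        simp only [Pi.sub_apply, Pi.zero_apply] at h3 h6 ⊢
        omega
    · refine D.eq_zero_of_cyc _ _ 6 (fun U hU h => gwm_cyc h2 gwmE Fin.rev (by decide)
        (by decide) U hU fun b => ?_) (fun t h => h1 ?_) hM hc
      · obtain ⟨x, rfl⟩ := hb b
        exact h x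
      · rw [← sub_eq_add_neg, sub_sub, sub_right_inj, ← repl_wOf_add] at h
        funext y
        have h3 := congrFun (D.rootA_li h) y
        have h4 := bnd t y
        have h6 := h0 y
        simp only [Pi.add_apply, Pi.zero_apply] at h3 h6 ⊢
        omega
  obtain ⟨φ, h1, -, -, h3⟩ := D.exists_rep
    (fun α β γ e h0 => D.N_good hp hg e ((CharP.intCast_eq_zero_iff k p _).1 h0)) hR
  have hom : ∀ β t t', φ (D.e k β) t t' ≠ 0 → wc t = wc t' - D.co β := fun β t t' h => by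
    have h4 := h3 β t t' h
    simp only at h4
    rw [sub_add, sub_right_inj, ← gwm_wOf_co, ← gwm_wOf_sub] at h4
    exact D.rootA_li h4
  refine ⟨{
    τ := Fin 7
    wc := wc
    nonneg := fun t x => (bnd t x).1
    top := ⟨0, funext fun x => (bnd 0 x).2.2.2, fun t ht => ?_⟩
    inv := fun x => ?_
    φ := φ
    tor := h1
    hom := hom
    nil := fun β => ?_ }⟩
  · have h4 := congrFun ht i
    simp only [hwc, if_true, Pi.zero_apply] at h4
    exact (by decide : ∀ t, gwmA t = 0 → t = 0) t h4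
  · rcases hall x with rfl | rfl
    · refine ⟨Function.Involutive.toPerm ![1, 0, 4, 3, 2, 6, 5]
        (by unfold Function.Involutive; decide), fun t => ?_⟩
      have h4 : ∀ t, gwmA (![1, 0, 4, 3, 2, 6, 5] t) = 1 - gwmA t + 3 * gwmB t ∧
          gwmB (![1, 0, 4, 3, 2, 6, 5] t) = gwmB t := by decide
      rw [RD.sr, pi, hw, hw, Function.Involutive.coe_toPerm, (h4 t).1, (h4 t).2]
      module
    · refine ⟨Function.Involutive.toPerm ![0, 2, 1, 3, 5, 4, 6]
        (by unfold Function.Involutive; decide), fun t => ?_⟩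
      have h4 : ∀ t, gwmA (![0, 2, 1, 3, 5, 4, 6] t) = gwmA t ∧
          gwmB (![0, 2, 1, 3, 5, 4, 6] t) = gwmA t - gwmB t := by decide
      rw [RD.sr, pj, hw, hw, Function.Involutive.coe_toPerm, (h4 t).1, (h4 t).2]
      module
  · ext t t'
    by_contra h
    refine D.co_ne_zero β (funext fun x => ?_)
    have h4 := congrFun (gwm_pow (hom β) p t t' h) x
    have h6 := bnd t x
    have h7 := bnd t' x
    simp only [Pi.sub_apply, Pi.smul_apply, smul_eq_mul, Pi.zero_apply] at h4 ⊢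
    have h8 : (5 : ℤ) ≤ p := by exact_mod_cast h5
    rcases lt_trichotomy (D.co β x) 0 with h9 | h9 | h9
    · nlinarith
    · exact h9
    · nlinarith

theorem exists_top (hT : IsTyp D.A Finset.univ CartanMatrix.G₂) {i j : D.Δ} (hij : D.A j i = -3) :
    ∃ θ, D.rt θ = 3 • D.rt (D.s i) + 2 • D.rt (D.s j) ∧ ∀ β, D.co β ≤ D.co θ := by
  obtain ⟨hne, hall, hji⟩ := gwm_str hT hij
  have ri : ∀ β, D.co (D.rf (D.s i) β) i = 3 * D.co β j - D.co β i ∧
      D.co (D.rf (D.s i) β) j = D.co β j := fun β => by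
    rw [D.co_rf, D.co_s, D.pr_s, gwm_sum hne hall, hij, D.A_diag]
    simp only [Pi.sub_apply, Pi.smul_apply, Pi.single_eq_same, Pi.single_eq_of_ne hne.symm,
      smul_eq_mul]
    omega
  have rj : ∀ β, D.co (D.rf (D.s j) β) i = D.co β i ∧
      D.co (D.rf (D.s j) β) j = D.co β i - D.co β j := fun β => by
    rw [D.co_rf, D.co_s, D.pr_s, gwm_sum hne hall, hji, D.A_diag]
    simp only [Pi.sub_apply, Pi.smul_apply, Pi.single_eq_same, Pi.single_eq_of_ne hne,
      smul_eq_mul]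
    omega
  have key : ∀ β, D.co β i ^ 2 - 3 * D.co β i * D.co β j + 3 * D.co β j ^ 2 ≤ 3 := by
    refine D.root_induction (fun x => ?_) fun x β h => ?_
    · rw [D.co_s]
      rcases hall x with rfl | rfl <;> simp [hne, hne.symm]
    · rcases hall x with rfl | rfl
      · rw [(ri β).1, (ri β).2]
        linarith
      · rw [(rj β).1, (rj β).2]
        linarith
  have h1 : D.co (D.rf (D.s j) (D.rf (D.s i) (D.s j))) i = 3 := by
    rw [(rj _).1, (ri _).1, D.co_s]
    simp [hne]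
  have h2 : D.co (D.rf (D.s j) (D.rf (D.s i) (D.s j))) j = 2 := by
    rw [(rj _).2, (ri _).1, (ri _).2, D.co_s]
    simp [hne]
  refine ⟨D.rf (D.s j) (D.rf (D.s i) (D.s j)), ?_, fun β x => ?_⟩
  · rw [D.rt_co, gwm_sum hne hall, h1, h2]
    module
  · have h := key β
    rcases hall x with rfl | rfl
    · rw [h1]
      refine not_lt.1 fun h3 => ?_
      have h4 : 4 ≤ D.co β x := h3
      nlinarith [sq_nonneg (D.co β x - 2 * D.co β j), sq_nonneg (D.co β x - 4)]
    · rw [h2]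
      nlinarith [sq_nonneg (2 * D.co β i - 3 * D.co β x)]

theorem wm_G2 (hg : D.Good p) (hS : D.SC) (hT : IsTyp D.A Finset.univ CartanMatrix.G₂)
    {μ : D.σ → ℤ} (h : ∀ i, 0 ≤ μ ⬝ᵥ D.cr (D.s i)) : Nonempty (D.WM k p μ) := by
  obtain ⟨i, j, hij⟩ : ∃ i j, D.A j i = -3 := by
    obtain ⟨e, -, -, h2⟩ := hT
    exact ⟨e 1, e 0, h2 _ _⟩
  obtain ⟨hne, hall, hji⟩ := gwm_str hT hij
  obtain ⟨θ, hθ, hθ'⟩ := exists_top hT hij
  have mul : ∀ ν : D.σ → ℤ, Nonempty (D.WM k p ν) → ∀ n : ℕ, Nonempty (D.WM k p (n • ν)) := by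
    rintro ν ⟨M⟩ n
    induction n with
    | zero => exact (zero_nsmul ν).symm ▸ wm_zero
    | succ n ih => exact (succ_nsmul ν n).symm ▸ wm_add ih.some M
  obtain ⟨m, hm⟩ := Int.eq_ofNat_of_zero_le (h i)
  obtain ⟨n, hn⟩ := Int.eq_ofNat_of_zero_le (h j)
  have e : μ = m • (2 • D.rt (D.s i) + D.rt (D.s j)) + n • D.rt θ := by
    have h1 : ∀ x, (μ - (m • (2 • D.rt (D.s i) + D.rt (D.s j)) + n • D.rt θ)) ⬝ᵥ D.cr (D.s x)
        = 0 := fun x => by
      have a1 : D.rt (D.s j) ⬝ᵥ D.cr (D.s i) = -3 := hij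
      have a2 : D.rt (D.s i) ⬝ᵥ D.cr (D.s j) = -1 := hji
      rw [hθ]
      rcases hall x with rfl | rfl <;>
        simp only [sub_dotProduct, add_dotProduct, smul_dotProduct, D.two, a1, a2, hm, hn] <;>
        simp
    refine sub_eq_zero.1 (funext fun a => (dotProduct_single_one _ a).symm.trans ?_)
    rw [hS (Pi.single a 1), dotProduct_sum]
    simp only [dotProduct_smul, h1, smul_zero, Finset.sum_const_zero, Pi.zero_apply]
  rw [e]
  exact wm_add (mul _ (wm_seven hg hT hij) m).some (mul _ (wm_adj hθ') n).some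

end CD

end Pool.Agent.P.Bf04
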