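import Pool.Agent.P.MP_bf0464_al.H.GInd
import Pool.Agent.P.MP_bf0464_al.H.GPoly
import Pool.Agent.P.MP_bf0464_al.H.GAlt
import Pool.Agent.P.MP_bf0464_al.H.GWm
import Pool.Agent.P.MP_bf0464_al.H.ECj

/-! The subregular class in type G. -/

namespace Pool.Agent.P.Bf04

open Matrix Module

attribute [local instance 100] LieRing.ofAssociativeRing

universe u v w

namespace CD

variable {D : CD} {p : ℕ} [Fact p.Prime]

section Aux

variable {k : Type u} [Field k] [CharP k p]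

theorem g2_rr {J : Finset D.Δ} {h₀ : D.Std (0 : D.B → k)} (N : LRep k ((D.levi J).g k))
    (x : (D.levi J).g k) : ((N.res (D.π0 J p h₀)).res (D.j0 J p h₀)).ρ x = N.ρ x :=
  congrArg N.ρ (D.π0_j0 J p h₀ x)

theorem g2_iso {J : Finset D.Δ} {h₀ : D.Std (0 : D.B → k)} (N : LRep k ((D.levi J).g k)) :
    ((N.res (D.π0 J p h₀)).res (D.j0 J p h₀)).Iso N :=
  ⟨LinearEquiv.refl _ _, fun x m => LinearMap.congr_fun (g2_rr N x) m⟩

theorem g2_hw {J : Finset D.Δ} {h₀ : D.Std (0 : D.B → k)} (N : LRep k ((D.levi J).g k))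
    (ν : D.σ → ℤ) :
    (D.levi J).HW ((N.res (D.π0 J p h₀)).res (D.j0 J p h₀)) ν ↔ (D.levi J).HW N ν := by
  simp only [HW, IsHW, LieHom.comp_apply, π0_j0]

omit [Fact p.Prime] [CharP k p] in
theorem g2_ne {j : D.Δ} {N : LRep k ((D.levi {j}).g k)} {ν : D.σ → ℤ} {n : ℕ} {u : N.M}
    (h : D.IsVer j N ν n u) (h0 : 0 < n) : (D.levi {j}).HW N ν :=
  ⟨u, by simpa using h.li.ne_zero ⟨0, h0⟩, h.hw⟩

omit [Fact p.Prime] [CharP k p] in
theorem g2_id {j : D.Δ} {N : LRep k ((D.levi {j}).g k)} {ν : D.σ → ℤ} {n : ℕ} {u : N.M}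
    (h : D.IsVer j N ν n u) {f : N.M →ₗ[k] N.M} (hf : N.IsHom N f) (hu : f u = u) :
    f = LinearMap.id := by
  refine LinearMap.ext_on (top_le_iff.1 h.span) ?_
  rintro _ ⟨m, rfl⟩
  exact (hf.pow _ _ _).trans (by rw [hu]; rfl)

omit [Fact p.Prime] [CharP k p] in
theorem g2_ver {j : D.Δ} {N N' : LRep k ((D.levi {j}).g k)} {ν : D.σ → ℤ} {n : ℕ} {u : N.M}
    {u' : N'.M} (h : D.IsVer j N ν n u) (h' : D.IsVer j N' ν n u') : N.Iso N' := by
  obtain ⟨f, hf, hu⟩ := h.lift h'.hw h'.nil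
  obtain ⟨g, hg, hu'⟩ := h'.lift h.hw h.nil
  exact ⟨LinearEquiv.ofLinearMap f g
    (g2_id h' (hf.comp hg) (by rw [LinearMap.comp_apply, hu', hu]))
    (g2_id h (hg.comp hf) (by rw [LinearMap.comp_apply, hu, hu'])), hf⟩

theorem g2_n (a : ℤ) : ∃ n : ℕ, 0 < n ∧ n ≤ p ∧ (p : ℤ) ∣ a + 1 - n := by
  have hp : (0 : ℤ) < p := Nat.cast_pos.2 (Fact.out : p.Prime).pos
  have h1 := Int.emod_nonneg a hp.ne'
  have h2 := Int.emod_lt_of_pos a hp
  refine ⟨(a % p).toNat + 1, Nat.succ_pos _, by omega, ⟨a / p, ?_⟩⟩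
  have h3 := Int.emod_add_mul_ediv a p
  push_cast
  rw [Int.toNat_of_nonneg h1]
  linarith

omit [Fact p.Prime] in
theorem g2_compl {a : ℤ} {n n' : ℕ} (h0 : 0 < n) (h1 : n ≤ p) (h1' : n' ≤ p)
    (h2 : (p : ℤ) ∣ a - n) (h2' : (p : ℤ) ∣ -a - n') (h3 : ¬ (p : ℤ) ∣ a) : n' = p - n := by
  have h4 : p ∣ n + n' := by
    have := (h2.add h2').neg_right
    rw [show -(a - n + (-a - n')) = ((n + n' : ℕ) : ℤ) by push_cast; ring] at this
    exact Int.natCast_dvd_natCast.1 this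
  have h5 : n ≠ p := by
    rintro rfl
    exact h3 (by simpa using h2.add (dvd_refl _))
  obtain ⟨c, hc⟩ := h4
  rcases c with _ | _ | c
  · omega
  · omega
  · have : p * (c + 1 + 1) = p * c + p + p := by ring
    omega

end Aux

theorem rank_half {k : Type u} [Field k] [CharP k p] {j : D.Δ} (hj : {j} ≠ Finset.univ)
    (h₀ : D.Std (0 : D.B → k))
    (h : ∀ μ : D.σ → ℤ, (∀ i, 0 ≤ μ ⬝ᵥ D.cr (D.s i)) → Nonempty (D.WM k p μ)) (μ : D.σ → ℤ) :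
    (D.trg {j} p h₀).Rank (D.Gd {j} p h₀ μ) (D.wn / 2) := by
  classical
  intro V _ _ v hv h0 hG
  obtain ⟨μ', hl, hm⟩ := exists_min (p := p) μ
  choose n n0 np nd using fun ν : D.σ → ℤ => g2_n (p := p) (ν ⬝ᵥ D.cr (D.s j))
  choose L u hL using fun ν : D.σ → ℤ => exists_ver k j (n := n ν) ((nd ν).mul_left _)
  let T := D.trg {j} p h₀
  let x : (D.σ → ℤ) → V := fun ν => v (T.Ind ((L ν).res (D.π0 {j} p h₀)))
  have adm : ∀ ν, T.Adm ((L ν).res (D.π0 {j} p h₀)) := fun ν => by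
    have := (hL ν).fd
    exact adm_π0 ((hL ν).simple (n0 ν) (np ν) (nd ν)) ((hL ν).pc (np ν))
  have hI : ∀ E, T.Adm E → ∀ ν, (D.levi {j}).HW (E.res (D.j0 {j} p h₀)) ν →
      (L ν).Iso (E.res (D.j0 {j} p h₀)) := fun E hE ν hν =>
    (hL ν).iso (n0 ν) (np ν) (nd ν) (adm_simple hE) (adm_pc hE.rel) hν
  have hx : ∀ E, T.Adm E → ∀ ν, (D.levi {j}).HW (E.res (D.j0 {j} p h₀)) ν →
      v (T.Ind E) = x ν := fun E hE ν hν => by
    have := hE.fd
    exact hv.iso T (T.Ind_iso (adm_iso hE (adm ν) ((g2_iso _).trans (hI E hE ν hν)).symm))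
      (T.Ind_FG _)
  have hW : ∀ E, T.Adm E → ∃ ν, (D.levi {j}).HW (E.res (D.j0 {j} p h₀)) ν := fun E hE => by
    have := hE.fd
    have := hE.simple.1
    exact exists_hw (D.std_levi {j} h₀) (adm_pc hE.rel)
  have x0 : ∀ ν, ¬ D.Link p μ' ν → x ν = 0 := fun ν hν => by
    refine hG _ (adm ν) ?_
    rintro ⟨ν', h1, h2⟩
    have h3 := (hL ν).hw_eq (np ν) (nd ν) ((g2_hw _ _).1 h2)
    exact hν ((hl.symm.trans h1).trans (RD.Link.of_cong (red_eq_iff.1 h3.symm)))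
  have xc : ∀ ν ν', red p ν = red p ν' → x ν = x ν' := fun ν ν' e =>
    hx _ (adm ν) ν' ((g2_hw _ _).2 (g2_ne ((hL ν).cong e) (n0 ν)))
  suffices H : ∃ s : Finset V, s.card ≤ D.wn / 2 ∧ ∀ ν, x ν ∈ Submodule.span ℚ (s : Set V) by
    obtain ⟨s, h1, h2⟩ := H
    refine ⟨s, h1, fun E hE => ?_⟩
    obtain ⟨ν, hν⟩ := hW E hE
    rw [hx E hE ν hν]
    exact h2 ν
  by_cases hF : D.Free p μ'
  swap
  · obtain ⟨S, h1, h2⟩ := exists_half hF
    refine ⟨S.image x, Finset.card_image_le.trans h1, fun ν => ?_⟩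
    by_cases hν : D.Link p μ' ν
    · obtain ⟨t, ht, e⟩ := h2 ν hν
      rw [xc ν t e]
      exact Submodule.subset_span (Finset.mem_coe.2 (Finset.mem_image_of_mem x ht))
    · rw [x0 ν hν]
      exact zero_mem _
  choose Z uz hZ using fun ν : D.σ → ℤ => exists_ver k j (ν := ν) (n := p) (Dvd.intro _ rfl)
  let z : (D.σ → ℤ) → V := fun ν => v (T.Ind ((Z ν).res (D.π0 {j} p h₀)))
  have zs : ∀ ν, D.Link p μ' ν → z ν = x (D.dotf j ν) + x ν := fun ν hν => by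
    have e : n (D.dotf j ν) = p - n ν := by
      refine g2_compl (n0 ν) (np ν) (np _) (nd ν) ?_ ((hF.link hν).not_dvd j)
      have := nd (D.dotf j ν)
      rwa [show D.dotf j ν ⬝ᵥ D.cr (D.s j) + 1 = -(ν ⬝ᵥ D.cr (D.s j) + 1) by
        rw [RD.dotf, sub_dotProduct, smul_dotProduct, D.two, smul_eq_mul]; ring] at this
    obtain ⟨f, g, hf, hg, h1, h2, h3⟩ := (hZ ν).ses (np ν) (nd ν) (e ▸ hL (D.dotf j ν)) (hL ν)
    have := (hZ ν).fd
    exact hv.ind (N₁ := (L (D.dotf j ν)).res (D.π0 {j} p h₀)) (N₂ := (Z ν).res (D.π0 {j} p h₀))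
      (N₃ := (L ν).res (D.π0 {j} p h₀)) (f := f) (g := g) (fun y m => hf _ m) (fun y m => hg _ m)
      h1 h2 h3
  have zc : ∀ ν, D.Link p μ' ν → D.Link p μ' ν ∧ z ν = z μ' := fun ν hν => by
    refine RD.Link.induction (P := fun ν => D.Link p μ' ν ∧ z ν = z μ') ⟨RD.Link.refl _, rfl⟩
      (fun ν ν' e hν => ⟨hν.1.trans (RD.Link.of_cong e), Eq.trans ?_ hν.2⟩)
      (fun i ν hν => ⟨hν.1.trans (RD.Link.dot i ν), Eq.trans ?_ hν.2⟩) hν
    · obtain ⟨f, hf⟩ := g2_ver (hZ ν') ((hZ ν).cong (red_eq_iff.2 e))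
      have := (hZ ν').fd
      exact hv.iso T (T.Ind_iso (N := (Z ν').res (D.π0 {j} p h₀))
        (N' := (Z ν).res (D.π0 {j} p h₀)) ⟨f, fun y m => hf _ m⟩) (T.Ind_FG _)
    · by_cases hi : i = j
      · rw [hi, zs ν hν.1, zs _ (hν.1.trans (RD.Link.dot j ν)), D.dotf_invol j ν, add_comm]
      · exact (v_refl hv h0 hi (hZ ν) (hZ _)).symm
  obtain ⟨M⟩ := h μ' (hF.dom hm)
  obtain ⟨m, c, E, hE, h1, h2⟩ := v_rel hj hv h0 M
  choose ν hν using fun l => hW (E l) (hE l)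
  refine span_half hF j x (z μ') xc x0 (fun ν hν => ?_) c ν ?_ ?_
  · rw [← (zc ν hν).2, zs ν hν, add_comm]
  · rw [← h1]
    exact Finset.sum_congr rfl fun l _ => by rw [hx _ (hE l) _ (hν l)]
  · have h3 := coef_one hF hm M.wc M.nonneg M.top M.inv
    rw [den_pos j, ← h2, ← h2, ← Finset.sum_sub_distrib] at h3
    refine ne_of_eq_of_ne (Eq.trans (Finset.sum_congr rfl fun l _ => ?_) h3) one_ne_zero
    rw [← mul_sub, ← ch_iso (hI _ (hE l) _ (hν l)), (hL (ν l)).ch (nd _)]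

theorem savI_G2 (hg : D.Good p) (hS : D.SC) (hT : IsTyp D.A Finset.univ CartanMatrix.G₂)
    {i j : D.Δ} (hij : D.A j i = -3) {B : Set D.ι}
    (h : Cj.{u} D p {β | D.Pos β ∧ ¬ D.In {j} β} ∅ B 2) : SavI.{u} D p B 1 := by
  intro k _ _ _ μ
  let _ : Algebra (ZMod p) k := ZMod.algebra k p
  have h₀ : D.Std (0 : D.B → k) := ⟨fun _ => rfl, fun _ _ => rfl⟩
  have hG : D.Gen p ∅ ∅ (0 : D.B → k) :=
    ⟨⟨fun _ => rfl, fun β hβ => absurd rfl hβ⟩, algebraicIndependent_empty_type⟩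
  have hc := conj_of_cj {j} hG (fun _ h => h.elim) (by rwa [Set.empty_union])
  have hj : {j} ≠ (Finset.univ : Finset D.Δ) := fun e => by
    have h1 : i = j := Finset.mem_singleton.1 (e ▸ Finset.mem_univ i)
    have h2 : D.A j j = 2 := D.two _
    rw [h1, h2] at hij
    omega
  refine (t2core (Or.inr rfl) hc (rank_half hj h₀ (fun μ hμ => wm_G2 hg hS hT hμ) μ)).mono ?_
  omega

end CD

end Pool.Agent.P.Bf04
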