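import Pool.Agent.P.MP_bf0464_al.H.ECk
import Pool.Agent.P.MP_bf0464_al.H.G2

/-! The subregular class in type G, from a chain over a finite extension. -/

namespace Pool.Agent.P.Bf04

open Matrix Module

attribute [local instance 100] LieRing.ofAssociativeRing

universe u v w

namespace CD

variable {D : CD} {p : ℕ} [Fact p.Prime]

theorem savI_G2k (hg : D.Good p) (hS : D.SC) (hT : IsTyp D.A Finset.univ CartanMatrix.G₂)
    {i j : D.Δ} (hij : D.A j i = -3) {B : Set D.ι}
    (h : Ck.{u} D p {β | D.Pos β ∧ ¬ D.In {j} β} ∅ B 2) : SavI.{u} D p B 1 := by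
  intro k _ _ _
  obtain ⟨k', _, _, _, _, φ, -, hk, -⟩ := exists_gen_big (D := D) (k := k) (p := p) ∅
  refine Sav.bc φ fun μ => ?_
  rw [RD.map_ind]
  have h₀ : D.Std (0 : D.B → k') := ⟨fun _ => rfl, fun _ _ => rfl⟩
  have hG : D.Gen p ∅ ∅ (0 : D.B → k') :=
    ⟨⟨fun _ => rfl, fun β hβ => absurd rfl hβ⟩, algebraicIndependent_empty_type⟩
  have hc := conj_of_ck hk {j} hG (fun _ h => h.elim) (by rwa [Set.empty_union])
  have hj : {j} ≠ (Finset.univ : Finset D.Δ) := fun e => by
    have h1 : i = j := Finset.mem_singleton.1 (e ▸ Finset.mem_univ i)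
    have h2 : D.A j j = 2 := D.two _
    rw [h1, h2] at hij
    omega
  refine (t2coreF hc (rank_half hj h₀ (fun μ hμ => wm_G2 hg hS hT hμ) μ)).mono ?_
  omega

end CD

end Pool.Agent.P.Bf04
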