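import Pool.Agent.P.MP_bf0464_al.H.Mod2
import Pool.Agent.P.MP_bf0464_al.H.Grp4

/-! Definitions for the exceptional types: supports, degrees, optimal degree functions. -/

namespace Pool.Agent.P.Bf04

open Matrix Module

attribute [local instance 100] LieRing.ofAssociativeRing

universe u v w

namespace RD

variable (D : RD)

/-- the coordinate of a form on the root vector of the opposite root -/
def cd {R : Type*} (η : D.B → R) (β : D.ι) : R := η (.inr (D.neg β))

/-- forms that vanish on the torus and on the vectors of the roots opposite to those not in P -/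
def Supp {R : Type*} [Zero R] (P : Set D.ι) (η : D.B → R) : Prop :=
  (∀ a, η (.inl a) = 0) ∧ ∀ β, D.cd η β ≠ 0 → β ∈ P

open Classical in
/-- the form with coordinates one on P -/
noncomputable def ind (R : Type*) [Zero R] [One R] (P : Set D.ι) : D.B → R :=
  Sum.elim 0 fun β => if D.neg β ∈ P then 1 else 0

/-- degree of a basis vector -/
def dB {R : Type*} [Ring R] (d : D.Δ → R) (b : D.B) : R := ∑ i, (D.wt b i : R) * d i

/-- the degree function moved by a word -/
def dw {R : Type*} [Ring R] (l : List D.Δ) (d : D.Δ → R) : D.Δ → R :=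
  fun i => D.dg d (D.rw l (D.s i))

/-- squared norm of a degree function -/
def nrm (d : D.Δ → ℝ) : ℝ := ∑ β, D.dg d β ^ 2

open Classical in
/-- the part of degree minus a -/
noncomputable def pure {S R : Type*} [Ring S] [Zero R] (a : S) (d : D.Δ → S) (χ : D.B → R) :
    D.B → R := fun b => if D.dB d b = -a then χ b else 0

/-- the Killing form is nondegenerate modulo p -/
structure KN (p : ℕ) : Prop where
  tor : ∀ y : D.σ → ZMod p,
    (∀ a, ∑ β, (D.rt β a : ZMod p) * ∑ b, (D.rt β b : ZMod p) * y b = 0) → y = 0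
  root : ∀ α, ¬ (p : ℤ) ∣ ∑ β, D.pr β α ^ 2

/-- a form that is generic on Q and arbitrary on F -/
structure Gen (p : ℕ) {K : Type u} [Field K] [Algebra (ZMod p) K] (Q F : Set D.ι) (η : D.B → K) :
    Prop where
  supp : D.Supp (Q ∪ F) η
  ind : AlgebraicIndependent (ZMod p) fun β : Q => D.cd η β

end RD

namespace CD

variable (D : CD) {K : Type u} [Field K]

/-- optimal degree functions -/
structure Opt (d : D.Δ → ℝ) (χ : D.B → K) : Prop where
  lev : D.Supp {β | 1 ≤ D.dg d β} χ
  min : ∀ (F : Type u) [Field F] (φ : K →+* F), ∀ A ∈ D.G F, ∀ d' : D.Δ → ℝ,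
    D.Supp {β | 1 ≤ D.dg d' β} ((φ ∘ χ) ᵥ* A) → D.nrm d ≤ D.nrm d'

/-- surjectivity of the coadjoint map in degree j -/
def SurAt {S : Type*} [Ring S] (a : S) (d : D.Δ → S) (χ : D.B → K) (j : S) : Prop :=
  ∀ ζ : D.B → K, (∀ b, ζ b ≠ 0 → D.dB d b = -a - j) →
    ∃ y : D.g K, (∀ b, y b ≠ 0 → D.dB d b = j) ∧ D.coad χ y = ζ

/-- surjectivity in all degrees above minus a -/
def Sur {S : Type*} [Ring S] [LinearOrder S] (a : S) (d : D.Δ → S) (χ : D.B → K) : Prop :=
  ∀ j, -a < j → D.SurAt a d χ j

variable (p : ℕ)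

/-- the bound for all algebraically closed fields -/
def Hum : Prop := ∀ (K : Type u) [Field K] [IsAlgClosed K] [CharP K p] (χ : D.B → K),
  D.Std χ → D.Sav p χ 1

/-- the inductive hypothesis -/
def IH : Prop := ∀ J : Finset D.Δ, J ≠ Finset.univ → Hum.{u} (D.levi J) p

end CD

end Pool.Agent.P.Bf04
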