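import Pool.Agent.P.MP_bf0464_al.H.EBas
import Pool.Agent.P.MP_bf0464_al.H.Dens

/-! Two forms with dense orbit in the same graded piece are conjugate. -/

namespace Pool.Agent.P.Bf04

open Matrix Module

attribute [local instance 100] LieRing.ofAssociativeRing

universe u v w

/-- the product rule at a point where all factors are the identity matrix -/
theorem egen_prod {B R R' k : Type*} [Fintype B] [DecidableEq B] [CommRing k] [CommRing R]
    [CommRing R'] [Algebra k R] (φ : R →+* R') (d : Derivation k R R) (l : List (Matrix B B R))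
    (h : ∀ M ∈ l, M.map φ = 1) :
    l.prod.map φ = 1 ∧ ∀ b i, φ (d (l.prod b i)) = (l.map fun M => φ (d (M b i))).sum := by
  induction l with
  | nil =>
    refine ⟨by simp, fun b i => ?_⟩
    rw [List.prod_nil, Matrix.one_apply]
    split_ifs <;> simp
  | cons M l ih =>
    obtain ⟨h1, h2⟩ := ih fun N hN => h N (List.mem_cons_of_mem _ hN)
    have hM := h M List.mem_cons_self
    refine ⟨by rw [List.prod_cons, Matrix.map_mul, hM, h1, one_mul], fun b i => ?_⟩
    have e1 : ∀ b c, φ (M b c) = if b = c then 1 else 0 := fun b c => by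
      rw [← Matrix.one_apply, ← hM, Matrix.map_apply]
    have e2 : ∀ b c, φ (l.prod b c) = if b = c then 1 else 0 := fun b c => by
      rw [← Matrix.one_apply, ← h1, Matrix.map_apply]
    rw [List.prod_cons, List.map_cons, List.sum_cons, ← h2, Matrix.mul_apply, map_sum, map_sum]
    simp only [Derivation.leibniz, smul_eq_mul, map_add, map_mul, e1, e2, Finset.sum_add_distrib,
      ite_mul, one_mul, zero_mul, Finset.sum_ite_eq, Finset.sum_ite_eq', Finset.mem_univ, if_true]
    exact add_comm _ _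

namespace CD

section Aux

open MvPolynomial

variable (D : CD) (K : Type u) [Field K]

/-- the base point -/
def egenPt : D.ι ⊕ D.Δ → K := Sum.elim 0 1

/-- the generic product of the root elements for the roots in `T` -/
noncomputable def egenA (T : Finset D.ι) : Matrix D.B D.B (MvPolynomial (D.ι ⊕ D.Δ) K) :=
  (T.toList.map fun δ => D.xM δ (X (.inl δ))).prod

theorem egenA_mem (T : Finset D.ι) {P : Set D.ι} (hT : ∀ δ ∈ T, δ ∈ P) :
    D.egenA K T ∈ D.GS (MvPolynomial (D.ι ⊕ D.Δ) K) P := by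
  refine Submonoid.list_prod_mem _ fun A hA => ?_
  obtain ⟨β, hβ, rfl⟩ := List.mem_map.1 hA
  exact xM_mem (hT β (Finset.mem_toList.1 hβ)) _

theorem egen_one (T : Finset D.ι) : ∀ M ∈ (T.toList.map fun δ =>
    D.xM δ (X (.inl δ) : MvPolynomial (D.ι ⊕ D.Δ) K)), M.map (eval (D.egenPt K)) = 1 := by
  intro M hM
  obtain ⟨β, -, rfl⟩ := List.mem_map.1 hM
  rw [xM_map]
  have : eval (D.egenPt K) (X (.inl β)) = 0 := by simp [egenPt]
  rw [this, xM_zero]

theorem egenA_pt (T : Finset D.ι) : (D.egenA K T).map (eval (D.egenPt K)) = 1 :=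
  (egen_prod _ (0 : Derivation K (MvPolynomial (D.ι ⊕ D.Δ) K) (MvPolynomial (D.ι ⊕ D.Δ) K)) _
    (D.egen_one K T)).1

theorem egen_xM (δ : D.ι) (j : D.ι ⊕ D.Δ) (b i : D.B) :
    eval (D.egenPt K) (pderiv j (D.xM δ (X (.inl δ) : MvPolynomial (D.ι ⊕ D.Δ) K) b i)) =
      if j = .inl δ then (D.cc (.inr δ) i b : K) else 0 := by
  have h0 : eval (D.egenPt K) (X (.inl δ) : MvPolynomial (D.ι ⊕ D.Δ) K) = 0 := by simp [egenPt]
  have h1 : ∀ z : ℤ, pderiv j (z : MvPolynomial (D.ι ⊕ D.Δ) K) = 0 := fun z =>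
    Derivation.map_intCast _ z
  rw [xM_apply]
  simp only [Finset.sum_range_succ, Finset.sum_range_zero, map_add, Derivation.leibniz,
    Derivation.leibniz_pow, h1, smul_eq_mul, map_mul, map_pow, map_nsmul, h0, dp_one]
  by_cases hj : j = .inl δ
  · subst hj
    simp [adM]
  · rw [if_neg hj, pderiv_X_of_ne (Ne.symm hj)]
    simp

theorem egenA_der (T : Finset D.ι) (j : D.ι ⊕ D.Δ) (b i : D.B) :
    eval (D.egenPt K) (pderiv j (D.egenA K T b i)) =
      Sum.elim (fun δ => if δ ∈ T then (D.cc (.inr δ) i b : K) else 0) (fun _ => 0) j := by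
  have h := (egen_prod _ (pderiv j) _ (D.egen_one K T)).2 b i
  rw [List.map_map, Finset.sum_map_toList] at h
  refine h.trans ?_
  have : ∀ β : D.ι, ((fun M : Matrix D.B D.B (MvPolynomial (D.ι ⊕ D.Δ) K) =>
      eval (D.egenPt K) (pderiv j (M b i))) ∘ fun β => D.xM β (X (.inl β))) β =
      if j = .inl β then (D.cc (.inr β) i b : K) else 0 :=
    fun β => D.egen_xM K β j b i
  rw [Finset.sum_congr rfl fun β _ => this β]
  rcases j with γ | a <;> simp

variable {K}

theorem egen_val (T : Finset D.ι) (χ : D.B → K) (i : D.B) :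
    eval (D.egenPt K) ((((C : K →+* MvPolynomial (D.ι ⊕ D.Δ) K) ∘ χ) ᵥ* D.egenA K T) i) = χ i := by
  have h := congrFun (map_vecMul (eval (D.egenPt K))
    ((C : K →+* MvPolynomial (D.ι ⊕ D.Δ) K) ∘ χ) (D.egenA K T)) i
  rw [egenA_pt, Matrix.vecMul_one] at h
  simpa using h

theorem egen_der (T : Finset D.ι) (χ : D.B → K) (j : D.ι ⊕ D.Δ) (i : D.B) :
    eval (D.egenPt K)
      (pderiv j ((((C : K →+* MvPolynomial (D.ι ⊕ D.Δ) K) ∘ χ) ᵥ* D.egenA K T) i)) =
      Sum.elim (fun δ => if δ ∈ T then D.coad χ (D.e K δ) i else 0) (fun _ => 0) j := by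
  rw [Matrix.vecMul, dotProduct, map_sum, map_sum]
  simp only [Function.comp_apply, pderiv_C_mul, map_mul, eval_C, egenA_der]
  rcases j with δ | a
  · simp only [Sum.elim_inl]
    split_ifs with h
    · rw [coad_bv]
      simp [Matrix.vecMul, dotProduct, adM]
    · simp
  · simp

variable (K)

/-- the monomial of a root -/
noncomputable def egenM (β : D.ι) : MvPolynomial (D.ι ⊕ D.Δ) K :=
  ∏ i, X (.inr i) ^ (D.co β i).toNat

theorem egenM_val (β : D.ι) : eval (D.egenPt K) (D.egenM K β) = 1 := by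
  simp [egenM, egenPt]

theorem egenM_der (β : D.ι) (j : D.ι ⊕ D.Δ) : eval (D.egenPt K) (pderiv j (D.egenM K β)) =
    Sum.elim (fun _ => 0) (fun i => ((D.co β i).toNat : K)) j := by
  classical
  have h1 : ∀ i, eval (D.egenPt K) (X (.inr i) : MvPolynomial (D.ι ⊕ D.Δ) K) = 1 := fun i => by
    simp [egenPt]
  have key : ∀ s : Finset D.Δ,
      eval (D.egenPt K) (pderiv j (∏ i ∈ s, (X (.inr i) : MvPolynomial (D.ι ⊕ D.Δ) K)
        ^ (D.co β i).toNat)) = ∑ i ∈ s, if j = .inr i then ((D.co β i).toNat : K) else 0 := by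
    intro s
    induction s using Finset.induction_on with
    | empty => simp
    | insert k s hk ih =>
      rw [Finset.prod_insert hk, Finset.sum_insert hk, Derivation.leibniz, ← ih]
      simp only [smul_eq_mul, map_add, map_mul, map_pow, map_prod, h1, one_pow,
        Finset.prod_const_one, one_mul, Derivation.leibniz_pow, map_nsmul]
      rw [add_comm]
      congr 1
      by_cases hj : j = .inr k
      · subst hj
        simp
      · rw [if_neg hj, pderiv_X_of_ne (Ne.symm hj)]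
        simp
  rw [egenM, key]
  rcases j with δ | k <;> simp

variable {K}

theorem egen_coad (χ : D.B → K) (y : D.g K) (β : D.ι) :
    D.cd (D.coad χ y) β = ∑ δ, y (.inr δ) * D.cd (D.coad χ (D.e K δ)) β
      - (∑ a, (D.rt β a : K) * y (.inl a)) * D.cd χ β := by
  have hy : y = D.hv (fun a => y (.inl a)) + ∑ δ, y (.inr δ) • D.e K δ := by
    rw [hv_eq_sum]
    conv_lhs => rw [D.eq_sum y, Fintype.sum_sum_type]
  have h1 : D.coad χ y = D.coad χ (D.hv fun a => y (.inl a))
      + ∑ δ, y (.inr δ) • D.coad χ (D.e K δ) := by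
    rw [coad_sum χ y, Fintype.sum_sum_type, coad_sum χ (D.hv _), Fintype.sum_sum_type]
    simp [hv]
  have h2 := cd_coad_hv χ (fun a => y (.inl a)) β
  rw [h1]
  simp only [RD.cd, Pi.add_apply, Finset.sum_apply, Pi.smul_apply, smul_eq_mul] at h2 ⊢
  rw [h2]
  ring

end Aux

variable {D : CD} {K : Type u} [Field K] [IsAlgClosed K] {S : Type v} [CommRing S] [LinearOrder S]
  [IsStrictOrderedRing S] {a : S} {d : D.Δ → S}

omit [IsStrictOrderedRing S] in
theorem egen_supp {R : Type w} [CommRing R] (ha : 0 < a) {η : D.B → R}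
    (hη : D.Supp {β | D.dg d β = a} η) {A : Matrix D.B D.B R}
    (hA : A ∈ D.GS R {β | D.dg d β = 0}) : D.Supp {β | D.dg d β = a} (η ᵥ* A) := by
  have key : ∀ j, (η ᵥ* A) j ≠ 0 → D.dB d j = -a := by
    intro j hj
    rw [Matrix.vecMul, dotProduct] at hj
    obtain ⟨k, -, hk⟩ := Finset.exists_ne_zero_of_sum_ne_zero hj
    have h1 : η k ≠ 0 := left_ne_zero_of_mul hk
    have h2 : A k j ≠ 0 := right_ne_zero_of_mul hk
    rw [← GS_dB_eq d hA h2]
    rcases k with b | γ
    · exact absurd (hη.1 b) h1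
    · have h3 : D.dg d (D.neg γ) = a := hη.2 (D.neg γ) (by rwa [RD.cd, D.neg_neg])
      rw [D.dB_inr, ← h3, D.dg_neg, _root_.neg_neg]
  refine ⟨fun b => ?_, fun β hβ => ?_⟩
  · by_contra h
    have := key _ h
    rw [D.dB_inl] at this
    exact ha.ne' (neg_eq_zero.1 this.symm)
  · have := key _ hβ
    rw [D.dB_inr, D.dg_neg] at this
    exact neg_injective this

open MvPolynomial in
theorem egen_indep (ha : 0 < a) (hd : 0 ≤ d) {χ : D.B → K}
    (h : D.SurAt a d χ 0) : AlgebraicIndependent K fun β : {β // D.dg d β = a} =>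
      D.cd (((C : K →+* MvPolynomial (D.ι ⊕ D.Δ) K) ∘ χ) ᵥ*
        D.egenA K (Finset.univ.filter fun δ => D.dg d δ = 0)) β * D.egenM K β := by
  classical
  have hy : ∀ β : {β // D.dg d β = a}, ∃ y : D.g K, (∀ b, y b ≠ 0 → D.dB d b = 0) ∧
      D.coad χ y = Pi.single (.inr (D.neg β)) 1 := by
    intro β
    refine h _ fun b hb => ?_
    have : b = .inr (D.neg β) := by
      by_contra hne
      exact hb (Pi.single_eq_of_ne hne _)
    rw [this, D.dB_inr, D.dg_neg, β.2, sub_zero]
  choose y hy0 hy1 using hy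
  refine jac_indep _ (eval (D.egenPt K)) (Matrix.of fun j β => Sum.elim (fun δ => y β (.inr δ))
    (fun i => -∑ b, (D.rt (D.s i) b : K) * y β (.inl b)) j) ?_
  have key : ((Matrix.of fun (β : {β // D.dg d β = a}) j => eval (D.egenPt K) (pderiv j
      (D.cd (((C : K →+* MvPolynomial (D.ι ⊕ D.Δ) K) ∘ χ) ᵥ*
        D.egenA K (Finset.univ.filter fun δ => D.dg d δ = 0)) β * D.egenM K β))) *
      (Matrix.of fun j β => Sum.elim (fun δ => y β (.inr δ))
        (fun i => -∑ b, (D.rt (D.s i) b : K) * y β (.inl b)) j)) = 1 := by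
    ext1 β β'
    have hpos : ∀ i, (((D.co β i).toNat : ℕ) : K) = (D.co β i : K) := fun i => by
      have h0 : D.Pos β := D.pos_of_dg hd (by rw [β.2]; exact ha)
      have h1 : (((D.co β i).toNat : ℕ) : ℤ) = D.co β i := Int.toNat_of_nonneg (h0 i)
      rw [← Int.cast_natCast, h1]
    have e := D.egen_coad χ (y β') β
    rw [hy1] at e
    rw [Matrix.mul_apply, Fintype.sum_sum_type]
    simp only [Matrix.of_apply, Derivation.leibniz, smul_eq_mul, map_add, map_mul, RD.cd,
      egen_val, egen_der, egenM_val, egenM_der, Sum.elim_inl, Sum.elim_inr, mul_zero, zero_add,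
      one_mul, add_zero, hpos]
    have e1 : ∀ δ, (if δ ∈ Finset.univ.filter (fun δ => D.dg d δ = 0) then
        D.coad χ (D.e K δ) (.inr (D.neg β)) else 0) * y β' (.inr δ)
        = y β' (.inr δ) * D.cd (D.coad χ (D.e K δ)) β := by
      intro δ
      split_ifs with hδ
      · exact mul_comm _ _
      · have : y β' (.inr δ) = 0 := by
          by_contra hne
          have := hy0 β' _ hne
          rw [D.dB_inr] at this
          exact hδ (Finset.mem_filter.2 ⟨Finset.mem_univ _, this⟩)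
        rw [this, zero_mul, zero_mul]
    have e2 : ∑ i, χ (.inr (D.neg β)) * (D.co β i : K) *
        -∑ b, (D.rt (D.s i) b : K) * y β' (.inl b)
        = -((∑ b, (D.rt β b : K) * y β' (.inl b)) * D.cd χ β) := by
      have : ∀ b, (D.rt β b : K) = ∑ i, (D.co β i : K) * (D.rt (D.s i) b : K) := fun b => by
        have := congrFun (D.rt_co β) b
        rw [this, Finset.sum_apply]
        push_cast
        simp
      simp only [this, RD.cd, Finset.sum_mul, Finset.mul_sum, mul_neg, Finset.sum_neg_distrib]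
      rw [Finset.sum_comm]
      congr 1
      exact Finset.sum_congr rfl fun b _ => Finset.sum_congr rfl fun i _ => by ring
    rw [Finset.sum_congr rfl fun δ _ => e1 δ, e2, ← sub_eq_add_neg, ← e, RD.cd, Matrix.one_apply,
      Pi.single_apply]
    refine if_congr ⟨fun h => ?_, fun h => by rw [h]⟩ rfl rfl
    have h1 := congrArg D.neg (Sum.inr.inj h)
    rw [D.neg_neg, D.neg_neg] at h1
    exact Subtype.ext h1
  rw [key, Matrix.det_one]
  exact one_ne_zero

theorem gen_orbit (ha : 0 < a) (hd : 0 ≤ d) {χ : D.B → K} (hχ : D.Supp {β | D.dg d β = a} χ)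
    (h : D.SurAt a d χ 0) : ∃ (F : Type u) (_ : Field F) (_ : Algebra K F),
      ∃ A ∈ D.GS F {β | D.dg d β = 0}, AlgebraicIndependent K
        fun β : {β // D.dg d β = a} => D.cd ((algebraMap K F ∘ χ) ᵥ* A) β := by
  classical
  have _ := hχ
  let R := MvPolynomial (D.ι ⊕ D.Δ) K
  let F := FractionRing R
  have hinj : Function.Injective (algebraMap R F) := IsFractionRing.injective R F
  have hX : ∀ i : D.Δ, algebraMap R F (MvPolynomial.X (.inr i)) ≠ 0 := fun i h0 =>
    MvPolynomial.X_ne_zero _ (hinj (h0.trans (map_zero _).symm))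
  let u : D.Δ → Fˣ := fun i => (Units.mk0 _ (hX i))⁻¹
  let T : Finset D.ι := Finset.univ.filter fun δ => D.dg d δ = 0
  refine ⟨F, inferInstance, inferInstance, (D.egenA K T).map (algebraMap R F) * D.tM u,
    Submonoid.mul_mem _ (GS_map _ (D.egenA_mem K T fun δ hδ => (Finset.mem_filter.1 hδ).2))
      (tM_mem u), ?_⟩
  have h1 := (egen_indep ha hd h).map' (f := IsScalarTower.toAlgHom K R F) hinj
  refine (congrArg (fun x : {β // D.dg d β = a} → F => AlgebraicIndependent K x)
    (funext fun β => ?_)).mp h1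
  have h0 : D.Pos β := D.pos_of_dg hd (by rw [β.2]; exact ha)
  have e1 : (algebraMap K F ∘ χ) = algebraMap R F ∘ ((MvPolynomial.C : K →+* R) ∘ χ) := by
    funext b
    exact IsScalarTower.algebraMap_apply K R F (χ b)
  rw [← Matrix.vecMul_vecMul, cd_tM, e1, ← map_vecMul]
  have e2 : (((D.chr u (D.co β))⁻¹ : Fˣ) : F) = algebraMap R F (D.egenM K β) := by
    rw [egenM, map_prod, RD.chr, ← Finset.prod_inv_distrib, Units.coe_prod]
    refine Finset.prod_congr rfl fun i _ => ?_
    have h1 : (((D.co β i).toNat : ℕ) : ℤ) = D.co β i := Int.toNat_of_nonneg (h0 i)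
    rw [← h1, zpow_natCast, Int.toNat_natCast, map_pow, ← inv_pow, Units.val_pow_eq_pow_val]
    rfl
  rw [e2]
  exact map_mul (algebraMap R F) _ _

theorem gen_conj (ha : 0 < a) (hd : 0 ≤ d) {χ χ' : D.B → K} (hχ : D.Supp {β | D.dg d β = a} χ)
    (hχ' : D.Supp {β | D.dg d β = a} χ') (h : D.SurAt a d χ 0) (h' : D.SurAt a d χ' 0) :
    ∃ (F : Type u) (_ : Field F) (_ : IsAlgClosed F) (φ : K →+* F),
      ∃ A ∈ D.GS F {β | D.dg d β = 0}, (φ ∘ χ) ᵥ* A = φ ∘ χ' := by
  obtain ⟨F₁, _, _, A₁, hA₁, i₁⟩ := gen_orbit ha hd hχ h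
  obtain ⟨F₂, _, _, A₂, hA₂, i₂⟩ := gen_orbit ha hd hχ' h'
  obtain ⟨Ω, _, _, hΩ, f, g, hfg⟩ := amalgam i₁ i₂
  have m₁ := GS_map (f : F₁ →+* Ω) hA₁
  have m₂ := GS_map (g : F₂ →+* Ω) hA₂
  obtain ⟨B, hB, hB1, -⟩ := GS_inv m₂
  refine ⟨Ω, inferInstance, hΩ, algebraMap K Ω, A₁.map (f : F₁ →+* Ω) * B,
    Submonoid.mul_mem _ m₁ hB, ?_⟩
  have e₁ : algebraMap K Ω ∘ χ = (f : F₁ →+* Ω) ∘ (algebraMap K F₁ ∘ χ) :=
    funext fun b => (f.commutes (χ b)).symm
  have e₂ : algebraMap K Ω ∘ χ' = (g : F₂ →+* Ω) ∘ (algebraMap K F₂ ∘ χ') :=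
    funext fun b => (g.commutes (χ' b)).symm
  have key : (algebraMap K Ω ∘ χ) ᵥ* A₁.map (f : F₁ →+* Ω)
      = (algebraMap K Ω ∘ χ') ᵥ* A₂.map (g : F₂ →+* Ω) := by
    refine RD.Supp.ext (egen_supp ha (hχ.map _) m₁) (egen_supp ha (hχ'.map _) m₂) fun β hβ => ?_
    rw [e₁, e₂, ← map_vecMul, ← map_vecMul]
    exact hfg ⟨β, hβ⟩
  rw [← Matrix.vecMul_vecMul, key, Matrix.vecMul_vecMul, hB1, Matrix.vecMul_one]

end CD

end Pool.Agent.P.Bf04
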