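import Pool.Agent.P.MP_bf0464_al.H.EAlc
import Pool.Agent.P.MP_bf0464_al.H.EGen
import Pool.Agent.P.MP_bf0464_al.H.ECj

/-! Criteria for finishing a degree function. -/

namespace Pool.Agent.P.Bf04

open Matrix Module

attribute [local instance 100] LieRing.ofAssociativeRing

universe u v w

namespace CD

section Aux

variable {D : CD} {K : Type u} [Field K]

omit [Field K] in
theorem ehit_ext {η η' : D.B → K} (h : ∀ a, η (.inl a) = η' (.inl a))
    (h' : ∀ β, D.cd η β = D.cd η' β) : η = η' := by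
  funext b
  rcases b with a | β
  · exact h a
  · have := h' (D.neg β)
    rwa [RD.cd, RD.cd, D.neg_neg] at this

theorem ehit_cd_single (β γ : D.ι) :
    D.cd (Pi.single (.inr (D.neg β)) (1 : K) : D.B → K) γ = if γ = β then 1 else 0 := by
  rw [RD.cd, Pi.single_apply]
  refine if_congr ⟨fun h => ?_, fun h => by rw [h]⟩ rfl rfl
  have h1 : D.neg γ = D.neg β := Sum.inr_injective h
  rw [← D.neg_neg γ, h1, D.neg_neg]

theorem ehit_cd_ind {Z : Set D.ι} {β : D.ι} (h : β ∉ Z) : D.cd (D.ind K Z) β = 0 := by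
  by_contra h0
  exact h ((RD.supp_ind Z).2 β h0)

variable (D) in
/-- the tangent space to the orbit under the degree zero part -/
def ehit_T (d : D.Δ → ℤ) (χ : D.B → K) : Submodule K (D.B → K) where
  carrier := {ζ | ∃ y : D.g K, (∀ b, y b ≠ 0 → D.dB d b = 0) ∧ D.coad χ y = ζ}
  zero_mem' := ⟨0, fun _ h => absurd rfl h, by
    have := coad_smul χ (0 : K) (0 : D.g K)
    rwa [zero_smul, zero_smul] at this⟩
  add_mem' := by
    rintro _ _ ⟨y, hy, rfl⟩ ⟨y', hy', rfl⟩
    refine ⟨y + y', fun b hb => ?_, coad_add χ y y'⟩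
    by_cases h : y b = 0
    · refine hy' b fun h' => hb ?_
      rw [Pi.add_apply, h, h', add_zero]
    · exact hy b h
  smul_mem' := by
    rintro c _ ⟨y, hy, rfl⟩
    refine ⟨c • y, fun b hb => hy b fun h => hb ?_, coad_smul χ c y⟩
    rw [Pi.smul_apply, h, smul_zero]

theorem ehit_mem {T : Submodule K (D.B → K)} {ζ : D.B → K} (h0 : ∀ a, ζ (.inl a) = 0)
    (h : ∀ β, D.cd ζ β ≠ 0 → (Pi.single (.inr (D.neg β)) 1 : D.B → K) ∈ T) : ζ ∈ T := by
  rw [D.eq_sum ζ]
  refine T.sum_mem fun b _ => ?_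
  by_cases hb : ζ b = 0
  · rw [hb, zero_smul]
    exact T.zero_mem
  · refine T.smul_mem _ ?_
    rcases b with a | β
    · exact absurd (h0 a) hb
    · have := h (D.neg β) (by rwa [RD.cd, D.neg_neg])
      rwa [D.neg_neg] at this

theorem ehit_dg_cast (d : D.Δ → ℤ) (β : D.ι) :
    D.dg (fun i => (d i : ℝ)) β = ((D.dg d β : ℤ) : ℝ) := by
  simp only [RD.dg, Int.cast_sum, Int.cast_mul, Int.cast_id]

theorem ehit_levi {p : ℕ} [Fact p.Prime] [CharP K p] [IsAlgClosed K] (ih : IH.{u} D p) {a : ℕ}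
    (ha : 0 < a) {d ν : D.Δ → ℤ} (hν : ν ≠ 0) {Z : Set D.ι} (hZ : ∀ z ∈ Z, D.dg d z = a)
    (h : ∀ z ∈ Z, D.dg ν z = 0) {χ : D.B → K} (hχ : D.Supp Z χ) : D.Sav p χ 1 := by
  refine sav_levi ih (ν := fun i => (ν i : ℝ)) (d := fun i => (d i : ℝ)) (fun h0 => hν ?_)
    (hχ.mono fun z hz => ⟨?_, ?_⟩)
  · funext i
    have : (ν i : ℝ) = 0 := congrFun h0 i
    exact_mod_cast this
  · rw [ehit_dg_cast, h z hz, Int.cast_zero]
  · rw [ehit_dg_cast, hZ z hz]
    exact_mod_cast ha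

end Aux

variable {D : CD} {p : ℕ} [Fact p.Prime] {K : Type u} [Field K] [CharP K p] {a : ℕ}
  {d : D.Δ → ℤ} {Z X : Set D.ι}

variable (D K) in
/-- the coordinate vectors for the roots in X are tangent to the orbit of the indicator of Z -/
def Hit (d : D.Δ → ℤ) (Z X : Set D.ι) : Prop := ∀ β ∈ X, ∃ y : D.g K,
  (∀ b, y b ≠ 0 → D.dB d b = 0) ∧ D.coad (D.ind K Z) y = Pi.single (.inr (D.neg β)) 1

theorem hit_tor {n : ℕ} (z : Fin n → D.ι) (μ : Fin n → D.Δ → ℤ) {c : ℤ} (hc : ¬ (p : ℤ) ∣ c)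
    (h : ∀ i j, ∑ k, D.pr (z j) (D.s k) * μ i k = if i = j then c else 0) :
    D.Hit K d (Set.range z) (Set.range z) := by
  rintro _ ⟨i, rfl⟩
  have hc' : (c : K) ≠ 0 := fun h0 => hc ((CharP.intCast_eq_zero_iff K p c).1 h0)
  let y : D.σ → K := fun s => ((∑ k, μ i k * D.cr (D.s k) s : ℤ) : K)
  have hy : ∀ β, ∑ s, (D.rt β s : K) * y s = ((∑ k, D.pr β (D.s k) * μ i k : ℤ) : K) := by
    intro β
    have e : ∑ s, D.rt β s * ∑ k, μ i k * D.cr (D.s k) s = ∑ k, D.pr β (D.s k) * μ i k := by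
      simp only [RD.pr, dotProduct, Finset.mul_sum, Finset.sum_mul]
      rw [Finset.sum_comm]
      exact Finset.sum_congr rfl fun k _ => Finset.sum_congr rfl fun s _ => by ring
    rw [← e, Int.cast_sum]
    exact Finset.sum_congr rfl fun s _ => (Int.cast_mul _ _).symm
  have hT : D.coad (D.ind K (Set.range z)) (D.hv y) ∈ D.ehit_T d (D.ind K (Set.range z)) := by
    refine ⟨D.hv y, fun b hb => ?_, rfl⟩
    rcases b with s | β
    · exact D.dB_inl d s
    · exact absurd rfl hb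
  have e : (-(c : K)⁻¹) • D.coad (D.ind K (Set.range z)) (D.hv y)
      = Pi.single (.inr (D.neg (z i))) 1 := by
    refine ehit_ext (fun s => ?_) fun β => ?_
    · rw [Pi.smul_apply, coad_hv_inl, smul_zero, Pi.single_eq_of_ne Sum.inl_ne_inr]
    · rw [ehit_cd_single]
      change (-(c : K)⁻¹) • D.cd (D.coad (D.ind K (Set.range z)) (D.hv y)) β = _
      rw [cd_coad_hv, hy, smul_eq_mul]
      split_ifs with hβ
      · rw [hβ, h i i, if_pos rfl, RD.cd_ind (Set.mem_range_self i)]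
        field_simp
      · by_cases hz : β ∈ Set.range z
        · obtain ⟨j, rfl⟩ := hz
          rw [h i j, if_neg fun hij => hβ (by rw [hij])]
          simp
        · rw [ehit_cd_ind hz]
          simp
  have := (D.ehit_T d (D.ind K (Set.range z))).smul_mem (-(c : K)⁻¹) hT
  rw [e] at this
  exact this

theorem Hit.step (hg : D.Good p) (ha : 0 < a) (hZ : ∀ z ∈ Z, D.dg d z = a) (h : D.Hit K d Z X)
    {δ z γ : D.ι} (hδ : D.dg d δ = 0) (hz : z ∈ Z) (hγ : D.co z + D.co δ = D.co γ)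
    (ho : ∀ z' ∈ Z, ∀ γ', D.co z' + D.co δ = D.co γ' → γ' = γ ∨ γ' ∈ X) :
    D.Hit K d Z (insert γ X) := by
  intro β hβ
  rcases hβ with rfl | hβ
  swap
  · exact h β hβ
  have hN : (D.N δ (D.neg β) : K) ≠ 0 := fun h0 =>
    D.N_good (Fact.out : p.Prime) hg (α := δ) (β := D.neg β) (γ := D.neg z)
      (by rw [D.co_neg, D.co_neg, ← hγ]; abel) ((CharP.intCast_eq_zero_iff K p _).1 h0)
  have hT : D.coad (D.ind K Z) (D.e K δ) ∈ D.ehit_T d (D.ind K Z) := by
    refine ⟨D.e K δ, fun b hb => ?_, rfl⟩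
    have : b = .inr δ := by
      by_contra hne
      exact hb (Pi.single_eq_of_ne hne _)
    rw [this, D.dB_inr, hδ]
  have hnd : D.neg δ ∉ Z := fun hm => by
    have := hZ _ hm
    rw [D.dg_neg, hδ] at this
    omega
  have hcd := fun γ' => cd_coad_e (RD.supp_ind (R := K) Z).1 δ γ'
  have hβ : D.cd (D.coad (D.ind K Z) (D.e K δ)) β = D.N δ (D.neg β) := by
    rw [hcd, Finset.sum_eq_single z, if_pos hγ, RD.cd_ind hz, mul_one]
    · intro z' _ hne
      refine if_neg fun he => hne (D.co_inj ?_)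
      exact add_right_cancel (he.trans hγ.symm)
    · intro hn
      exact absurd (Finset.mem_univ z) hn
  have hT' : D.coad (D.ind K Z) (D.e K δ)
      - (D.N δ (D.neg β) : K) • (Pi.single (.inr (D.neg β)) 1 : D.B → K)
        ∈ D.ehit_T d (D.ind K Z) := by
    refine ehit_mem (fun s => ?_) fun γ' hγ' => ?_
    · rw [Pi.sub_apply, Pi.smul_apply, coad_e_inl, ehit_cd_ind hnd,
        Pi.single_eq_of_ne Sum.inl_ne_inr]
      simp
    · change D.cd (D.coad (D.ind K Z) (D.e K δ)) γ' - (D.N δ (D.neg β) : K) •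
        D.cd (Pi.single (.inr (D.neg β)) 1 : D.B → K) γ' ≠ 0 at hγ'
      rw [ehit_cd_single] at hγ'
      have hne : γ' ≠ β := by
        rintro rfl
        apply hγ'
        rw [hβ, if_pos rfl, smul_eq_mul, mul_one, sub_self]
      rw [if_neg hne, smul_zero, sub_zero, hcd] at hγ'
      obtain ⟨z', -, hz'⟩ := Finset.exists_ne_zero_of_sum_ne_zero hγ'
      have he : D.co z' + D.co δ = D.co γ' := by
        by_contra he
        exact hz' (if_neg he)
      rw [if_pos he] at hz'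
      have hm : z' ∈ Z := (RD.supp_ind Z).2 z' (right_ne_zero_of_mul hz')
      exact h γ' ((ho z' hm γ' he).resolve_left hne)
  have := (D.ehit_T d (D.ind K Z)).smul_mem (D.N δ (D.neg β) : K)⁻¹
    ((D.ehit_T d (D.ind K Z)).sub_mem hT hT')
  rw [sub_sub_cancel, smul_smul, inv_mul_cancel₀ hN, one_smul] at this
  exact this

omit [Fact p.Prime] [CharP K p] in
theorem Hit.sur (ha : 0 < a) (h : D.Hit K d Z X) (hX : ∀ β, D.dg d β = a → β ∈ X) :
    D.SurAt (a : ℤ) d (D.ind K Z) 0 := by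
  intro ζ hζ
  refine ehit_mem (T := D.ehit_T d (D.ind K Z)) (fun s => ?_) fun β hβ => h β (hX β ?_)
  · by_contra h0
    have := hζ _ h0
    rw [D.dB_inl] at this
    omega
  · have := hζ _ hβ
    rw [D.dB_inr, D.dg_neg] at this
    omega

open Classical in
theorem done_count {j : ℤ} (hj : -(a : ℤ) < j)
    (h : (Finset.univ.filter fun b => D.dB d b = j).card
      < (Finset.univ.filter fun b => D.dB d b = -a - j).card) : Done.{u} D p a d := by
  intro K _ _ _ χ _ hs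
  have h1 := (hs j hj).card
  have e : ∀ (q : D.B → Prop) (i i' : DecidablePred q),
      (@Finset.filter _ q i Finset.univ).card = (@Finset.filter _ q i' Finset.univ).card :=
    fun q i i' => by rw [Subsingleton.elim i i']
  exact absurd h (not_lt.2 ((e _ _ _).trans_le (h1.trans_eq (e _ _ _))))

theorem done_span (ih : IH.{u} D p) (ha : 0 < a) {ν : D.Δ → ℤ} (hν : ν ≠ 0)
    (h : ∀ β, D.dg d β = a → D.dg ν β = 0) : Done.{u} D p a d :=
  fun _ _ _ _ _ hχ _ => ehit_levi ih ha hν (fun _ hz => hz) h hχ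

theorem done_ind (ha : 0 < a) (hd : 0 ≤ d) (hZ : ∀ z ∈ Z, D.dg d z = a)
    (h0 : ∀ (K : Type u) [Field K] [CharP K p], D.SurAt (a : ℤ) d (D.ind K Z) 0)
    (h : (∀ (K : Type u) [Field K] [CharP K p], D.Sur (a : ℤ) d (D.ind K Z)) → SavI.{u} D p Z 1) :
    Done.{u} D p a d := by
  intro K _ _ _ χ hχ hs
  have ha' : (0 : ℤ) < a := by exact_mod_cast ha
  obtain ⟨F, _, _, φ, A, hA, e⟩ := gen_conj ha' hd hχ ((RD.supp_ind Z).mono hZ)
    (hs 0 (by omega)) (h0 K)
  rw [RD.map_ind] at e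
  have : CharP F p := charP_of_injective_ringHom φ.injective p
  have hG : A ∈ D.G F := D.GS_le_G hA
  have hF : D.Sur (a : ℤ) d (D.ind F Z) := fun j hj => by
    rw [← e]
    exact ((surAt_map φ).2 (hs j hj)).move hG fun k b hk => GS_dB_eq d hA hk
  have hP : D.Sur (a : ℤ) d (D.ind (ZMod p) Z) := fun j hj => by
    rw [← surAt_map (ZMod.castHom (dvd_refl p) F), RD.map_ind]
    exact hF j hj
  have hI : SavI.{u} D p Z 1 := h fun K' _ _ j hj => by
    rw [← RD.map_ind (ZMod.castHom (dvd_refl p) K'), surAt_map]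
    exact hP j hj
  refine Sav.bc φ (Sav.move hG ?_ ?_)
  · rw [e]
    exact (RD.supp_ind Z).std fun β hβ => D.pos_of_dg hd (by rw [hZ β hβ]; exact ha')
  · rw [e]
    exact hI F

theorem savI_levi (ih : IH.{u} D p) (ha : 0 < a) (hZ : ∀ z ∈ Z, D.dg d z = a) {ν : D.Δ → ℤ}
    (hν : ν ≠ 0) (h : ∀ z ∈ Z, D.dg ν z = 0) : SavI.{u} D p Z 1 :=
  fun _ _ _ _ => ehit_levi ih ha hν hZ h (RD.supp_ind Z)

end CD

end Pool.Agent.P.Bf04
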