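import Pool.Agent.P.MP_bf0464_al.H.XB

/-! A step for tangent vectors that is given by a cube of roots. -/

namespace Pool.Agent.P.Bf04

open Matrix Module

universe u v w

namespace CD

variable {D : CD}

theorem N_sq {x y u xu yu t : D.ι} (h1 : D.co x + D.co u = D.co xu)
    (h2 : D.co y + D.co u = D.co yu) (h3 : D.co x + D.co yu = D.co t)
    (h4 : ∀ γ, D.co x + D.co y ≠ D.co γ) (h5 : D.co x + D.co y ≠ 0) :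
    D.N y u * D.N x yu = D.N x u * D.N y xu := by
  have h6 : D.co y + D.co xu = D.co t := by rw [← h1, ← h3, ← h2]; abel
  have h7 := leibniz_lie (D.e ℤ x) (D.e ℤ y) (D.e ℤ u)
  rw [D.lie_e_e h2, D.lie_e_e h1, D.lie_e_e_zero h4 fun e => h5 ((D.eq_neg_iff x y).1 e), zero_lie,
    zero_add, lie_smul, lie_smul, D.lie_e_e h3, D.lie_e_e h6, smul_smul, smul_smul] at h7
  simpa [bv] using congrFun h7 (.inr t)

theorem N_face {β z z' δ δ' γ : D.ι} (h : D.co z + D.co β = D.co δ)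
    (h' : D.co z' + D.co β = D.co δ') (hγ : D.co z' + D.co δ = D.co γ)
    (h4 : ∀ ε, D.co z + D.co z' ≠ D.co ε) (h5 : D.co z + D.co z' ≠ 0) :
    D.N z β * D.N δ (D.neg γ) = -(D.N z (D.neg γ) * D.N β (D.neg δ')) := by
  have e1 : D.co β + D.co z = D.co δ := by rw [← h, add_comm]
  have e2 : D.co (D.neg γ) + D.co z = D.co (D.neg δ') := by
    rw [D.co_neg, D.co_neg, ← hγ, ← h, ← h']; abel
  have e3 : D.co β + D.co (D.neg δ') = D.co (D.neg z') := by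
    rw [D.co_neg, D.co_neg, ← h']; abel
  have e4 : D.co β + D.co (D.neg γ) = -(D.co z + D.co z') := by
    rw [D.co_neg, ← hγ, ← h]; abel
  have e5 : D.co (D.neg γ) + D.co δ = D.co (D.neg z') := by
    rw [D.co_neg, D.co_neg, ← hγ]; abel
  have h6 := N_sq e1 e2 e3 (fun ε e => h4 (D.neg ε) (by rw [D.co_neg, ← e, e4, _root_.neg_neg]))
    (by rw [e4]; exact neg_ne_zero.2 h5)
  rw [D.N_anti _ _ _ e1, D.N_anti _ _ _ e2, D.N_anti _ _ _ e5]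
  linear_combination -h6

theorem N_cube {β z z' δ δ' γ : D.ι} (h : D.co z + D.co β = D.co δ)
    (h' : D.co z' + D.co β = D.co δ') (hγ : D.co z' + D.co δ = D.co γ)
    (h4 : ∀ ε, D.co z + D.co z' ≠ D.co ε) (h5 : D.co z + D.co z' ≠ 0) :
    D.N z β * D.N β (D.neg δ) * D.N z' (D.neg δ') * D.N δ (D.neg γ)
      = D.N z' β * D.N β (D.neg δ') * D.N z (D.neg δ) * D.N δ' (D.neg γ) := by
  have hγ' : D.co z + D.co δ' = D.co γ := by rw [← hγ, ← h, ← h']; abel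
  have h1 := N_face h h' hγ h4 h5
  have h2 := N_face h' h hγ' (fun ε => add_comm (D.co z) _ ▸ h4 ε) (add_comm (D.co z) _ ▸ h5)
  have h3 := N_sq (x := z) (y := z') (u := D.neg γ) (xu := D.neg δ') (yu := D.neg δ)
    (t := D.neg β) (by rw [D.co_neg, D.co_neg, ← hγ']; abel)
    (by rw [D.co_neg, D.co_neg, ← hγ]; abel) (by rw [D.co_neg, D.co_neg, ← h]; abel) h4 h5
  linear_combination D.N β (D.neg δ) * D.N z' (D.neg δ') * h1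
    - D.N β (D.neg δ') * D.N z (D.neg δ) * h2 + D.N β (D.neg δ) * D.N β (D.neg δ') * h3

variable {p : ℕ} [Fact p.Prime] {a : ℕ} {d : D.Δ → ℤ} {Z X : Set D.ι}

section

variable {K : Type u} [Field K]

theorem cube_pos {δ z γ : D.ι} (hz : z ∈ Z) (hγ : D.co z + D.co δ = D.co γ) :
    D.cd (D.coad (D.ind K Z) (D.e K δ)) γ = D.N δ (D.neg γ) := by
  rw [cd_coad_e (RD.supp_ind (R := K) Z).1, Finset.sum_eq_single z, if_pos hγ, RD.cd_ind hz,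
    mul_one]
  · intro z' _ hne
    exact if_neg fun he => hne (D.co_inj (add_right_cancel (he.trans hγ.symm)))
  · intro hn
    exact absurd (Finset.mem_univ z) hn

theorem cube_zero {δ γ : D.ι} (h : ∀ z ∈ Z, D.co z + D.co δ ≠ D.co γ) :
    D.cd (D.coad (D.ind K Z) (D.e K δ)) γ = 0 := by
  rw [cd_coad_e (RD.supp_ind (R := K) Z).1]
  refine Finset.sum_eq_zero fun z _ => ?_
  split_ifs with he
  · rw [ehit_cd_ind fun hz => h z hz he, mul_zero]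
  · rfl

theorem Hit.cube [CharP K p] (hg : D.Good p) (hp : p ≠ 2) (ha : 0 < a)
    (hZ : ∀ z ∈ Z, D.dg d z = a) (h : D.Hit K d Z X) {β z₁ z₂ z₃ δ₁ δ₂ δ₃ γ₁ γ₂ γ₃ : D.ι}
    (hβ : D.dg d β = -a) (m₁ : z₁ ∈ Z) (m₂ : z₂ ∈ Z) (m₃ : z₃ ∈ Z)
    (n₁ : z₂ ≠ z₃) (n₂ : z₁ ≠ z₃) (n₃ : z₁ ≠ z₂)
    (r₁ : ∀ ε, D.co z₂ + D.co z₃ ≠ D.co ε) (r₂ : ∀ ε, D.co z₁ + D.co z₃ ≠ D.co ε)
    (r₃ : ∀ ε, D.co z₁ + D.co z₂ ≠ D.co ε)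
    (s₁ : D.co z₁ + D.co β = D.co δ₁) (s₂ : D.co z₂ + D.co β = D.co δ₂)
    (s₃ : D.co z₃ + D.co β = D.co δ₃) (t₁ : D.co z₃ + D.co δ₂ = D.co γ₁)
    (t₂ : D.co z₃ + D.co δ₁ = D.co γ₂) (t₃ : D.co z₂ + D.co δ₁ = D.co γ₃)
    (o₁ : ∀ z ∈ Z, ∀ γ, D.co z + D.co δ₁ = D.co γ → γ = γ₂ ∨ γ = γ₃ ∨ γ ∈ X)
    (o₂ : ∀ z ∈ Z, ∀ γ, D.co z + D.co δ₂ = D.co γ → γ = γ₁ ∨ γ = γ₃ ∨ γ ∈ X)
    (o₃ : ∀ z ∈ Z, ∀ γ, D.co z + D.co δ₃ = D.co γ → γ = γ₁ ∨ γ = γ₂ ∨ γ ∈ X) :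
    D.Hit K d Z (insert γ₁ X) := by
  intro γ hγ
  rcases hγ with rfl | hγ
  swap
  · exact h γ hγ
  have hN : ∀ {x y t : D.ι}, D.co x + D.co y = D.co t → (D.N x y : K) ≠ 0 := fun e h0 =>
    D.N_good (Fact.out : p.Prime) hg e ((CharP.intCast_eq_zero_iff K p _).1 h0)
  have h2 : (2 : K) ≠ 0 := fun h0 => hp ((Nat.prime_dvd_prime_iff_eq Fact.out Nat.prime_two).1
    ((CharP.cast_eq_zero_iff K p 2).1 (by exact_mod_cast h0)))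
  have hs : ∀ z ∈ Z, ∀ z' ∈ Z, D.co z + D.co z' ≠ 0 := fun z hz z' hz' e => by
    have h1 := hZ z' hz'
    rw [(D.eq_neg_iff z z').2 e, D.dg_neg, hZ z hz] at h1
    omega
  have hT : ∀ z ∈ Z, ∀ δ, D.co z + D.co β = D.co δ →
      D.coad (D.ind K Z) (D.e K δ) ∈ D.ehit_T d (D.ind K Z) ∧
      (∀ s, D.coad (D.ind K Z) (D.e K δ) (.inl s) = 0) ∧
      (D.N z β : K) * D.N β (D.neg δ) ≠ 0 ∧ (D.N z (D.neg δ) : K) ≠ 0 := fun z hz δ e => by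
    have hδ : D.dg d δ = 0 := by rw [D.dg_add d e, hZ z hz, hβ, add_neg_cancel]
    refine ⟨⟨D.e K δ, fun b hb => ?_, rfl⟩, fun s => ?_, mul_ne_zero (hN e)
      (hN (t := D.neg z) ?_), hN (t := D.neg β) ?_⟩
    · have : b = .inr δ := by
        by_contra hne
        exact hb (Pi.single_eq_of_ne hne _)
      rw [this, D.dB_inr, hδ]
    · rw [coad_e_inl, ehit_cd_ind, mul_zero]
      intro hm
      have := hZ _ hm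
      rw [D.dg_neg, hδ] at this
      omega
    · rw [D.co_neg, D.co_neg, ← e]; abel
    · rw [D.co_neg, D.co_neg, ← e]; abel
  obtain ⟨T₁, i₁, a₁, b₁⟩ := hT z₁ m₁ δ₁ s₁
  obtain ⟨T₂, i₂, a₂, b₂⟩ := hT z₂ m₂ δ₂ s₂
  obtain ⟨T₃, i₃, a₃, b₃⟩ := hT z₃ m₃ δ₃ s₃
  have t₁' : D.co z₂ + D.co δ₃ = D.co γ := by rw [← t₁, ← s₂, ← s₃]; abel
  have t₂' : D.co z₁ + D.co δ₃ = D.co γ₂ := by rw [← t₂, ← s₁, ← s₃]; abel
  have t₃' : D.co z₁ + D.co δ₂ = D.co γ₃ := by rw [← t₃, ← s₁, ← s₂]; abel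
  have d₁ : γ₂ ≠ γ₃ := fun e => n₁ (D.co_inj (add_right_cancel (t₃.trans (e ▸ t₂.symm))))
  have d₂ : γ ≠ γ₃ := fun e => n₂ (D.co_inj (add_right_cancel (t₃'.trans (e ▸ t₁.symm))))
  have d₃ : γ ≠ γ₂ := fun e => n₃ (D.co_inj (add_right_cancel (t₂'.trans (e ▸ t₁'.symm))))
  have c₁ := congrArg (Int.cast : ℤ → K) (N_cube s₂ s₃ t₁ r₁ (hs _ m₂ _ m₃))
  have c₂ := congrArg (Int.cast : ℤ → K) (N_cube s₁ s₃ t₂ r₂ (hs _ m₁ _ m₃))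
  have c₃ := congrArg (Int.cast : ℤ → K) (N_cube s₁ s₂ t₃ r₃ (hs _ m₁ _ m₂))
  simp only [Int.cast_mul] at c₁ c₂ c₃
  have hM : (D.N δ₂ (D.neg γ) : K) ≠ 0 :=
    hN (t := D.neg z₃) (by rw [D.co_neg, D.co_neg, ← t₁]; abel)
  generalize (D.N z₁ β : K) * D.N β (D.neg δ₁) = x₁ at *
  generalize (D.N z₂ β : K) * D.N β (D.neg δ₂) = x₂ at *
  generalize (D.N z₃ β : K) * D.N β (D.neg δ₃) = x₃ at *
  generalize (D.N z₁ (D.neg δ₁) : K) = y₁ at *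
  generalize (D.N z₂ (D.neg δ₂) : K) = y₂ at *
  generalize (D.N z₃ (D.neg δ₃) : K) = y₃ at *
  have hc : 2 * (x₂ * y₁ * y₃ * D.N δ₂ (D.neg γ)) ≠ 0 :=
    mul_ne_zero h2 (mul_ne_zero (mul_ne_zero (mul_ne_zero a₂ b₁) b₃) hM)
  let T := D.ehit_T d (D.ind K Z)
  have hv := T.sub_mem (T.add_mem (T.smul_mem (x₂ * y₁ * y₃) T₂) (T.smul_mem (x₃ * y₁ * y₂) T₃))
    (T.smul_mem (x₁ * y₂ * y₃) T₁)
  have hT' : (x₂ * y₁ * y₃) • D.coad (D.ind K Z) (D.e K δ₂)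
      + (x₃ * y₁ * y₂) • D.coad (D.ind K Z) (D.e K δ₃)
      - (x₁ * y₂ * y₃) • D.coad (D.ind K Z) (D.e K δ₁)
      - (2 * (x₂ * y₁ * y₃ * D.N δ₂ (D.neg γ))) • (Pi.single (.inr (D.neg γ)) 1 : D.B → K)
        ∈ T := by
    refine ehit_mem (fun s => ?_) fun ε hε => ?_
    · simp only [Pi.sub_apply, Pi.add_apply, Pi.smul_apply, i₁, i₂, i₃,
        Pi.single_eq_of_ne Sum.inl_ne_inr, smul_zero, add_zero, sub_zero]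
    by_cases hX : ε ∈ X
    · exact h ε hX
    refine absurd ?_ hε
    change (x₂ * y₁ * y₃) * D.cd (D.coad (D.ind K Z) (D.e K δ₂)) ε
      + (x₃ * y₁ * y₂) * D.cd (D.coad (D.ind K Z) (D.e K δ₃)) ε
      - (x₁ * y₂ * y₃) * D.cd (D.coad (D.ind K Z) (D.e K δ₁)) ε
      - (2 * (x₂ * y₁ * y₃ * D.N δ₂ (D.neg γ))) *
        D.cd (Pi.single (.inr (D.neg γ)) 1 : D.B → K) ε = 0
    rw [ehit_cd_single]
    by_cases e₁ : ε = γ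
    · subst e₁
      rw [cube_pos m₃ t₁, cube_pos m₂ t₁', if_pos rfl,
        cube_zero fun z hz e => (o₁ z hz ε e).elim d₃ fun e' => e'.elim d₂ hX]
      linear_combination -y₁ * c₁
    rw [if_neg e₁]
    by_cases e₂ : ε = γ₂
    · subst e₂
      rw [cube_pos m₃ t₂, cube_pos m₁ t₂',
        cube_zero fun z hz e => (o₂ z hz ε e).elim e₁ fun e' => e'.elim d₁ hX]
      linear_combination -y₂ * c₂
    by_cases e₃ : ε = γ₃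
    · subst e₃
      rw [cube_pos m₂ t₃, cube_pos m₁ t₃',
        cube_zero fun z hz e => (o₃ z hz ε e).elim e₁ fun e' => e'.elim e₂ hX]
      linear_combination -y₃ * c₃
    rw [cube_zero fun z hz e => (o₁ z hz ε e).elim e₂ fun e' => e'.elim e₃ hX,
      cube_zero fun z hz e => (o₂ z hz ε e).elim e₁ fun e' => e'.elim e₃ hX,
      cube_zero fun z hz e => (o₃ z hz ε e).elim e₁ fun e' => e'.elim e₂ hX]
    ring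
  have := T.smul_mem (2 * (x₂ * y₁ * y₃ * D.N δ₂ (D.neg γ)))⁻¹ (T.sub_mem hv hT')
  rw [sub_sub_cancel, smul_smul, inv_mul_cancel₀ hc, one_smul] at this
  exact this

end

theorem HitW.cube (hg : D.Good p) (hp : p ≠ 2) (ha : 0 < a)
    (hZ : ∀ z ∈ Z, D.dg d z = a) (h : HitW.{u} D p d Z X) {β z₁ z₂ z₃ δ₁ δ₂ δ₃ γ₁ γ₂ γ₃ : D.ι}
    (hβ : D.dg d β = -a) (m₁ : z₁ ∈ Z) (m₂ : z₂ ∈ Z) (m₃ : z₃ ∈ Z)
    (n₁ : z₂ ≠ z₃) (n₂ : z₁ ≠ z₃) (n₃ : z₁ ≠ z₂)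
    (r₁ : ∀ ε, D.co z₂ + D.co z₃ ≠ D.co ε) (r₂ : ∀ ε, D.co z₁ + D.co z₃ ≠ D.co ε)
    (r₃ : ∀ ε, D.co z₁ + D.co z₂ ≠ D.co ε)
    (s₁ : D.co z₁ + D.co β = D.co δ₁) (s₂ : D.co z₂ + D.co β = D.co δ₂)
    (s₃ : D.co z₃ + D.co β = D.co δ₃) (t₁ : D.co z₃ + D.co δ₂ = D.co γ₁)
    (t₂ : D.co z₃ + D.co δ₁ = D.co γ₂) (t₃ : D.co z₂ + D.co δ₁ = D.co γ₃)
    (o₁ : ∀ z ∈ Z, ∀ γ, D.co z + D.co δ₁ = D.co γ → γ = γ₂ ∨ γ = γ₃ ∨ γ ∈ X)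
    (o₂ : ∀ z ∈ Z, ∀ γ, D.co z + D.co δ₂ = D.co γ → γ = γ₁ ∨ γ = γ₃ ∨ γ ∈ X)
    (o₃ : ∀ z ∈ Z, ∀ γ, D.co z + D.co δ₃ = D.co γ → γ = γ₁ ∨ γ = γ₂ ∨ γ ∈ X) :
    HitW.{u} D p d Z (insert γ₁ X) := by
  intro l K _ _
  have hb := D.rw_bij l
  obtain ⟨β, rfl⟩ := hb.2 β
  obtain ⟨z₁, rfl⟩ := hb.2 z₁
  obtain ⟨z₂, rfl⟩ := hb.2 z₂
  obtain ⟨z₃, rfl⟩ := hb.2 z₃
  obtain ⟨δ₁, rfl⟩ := hb.2 δ₁
  obtain ⟨δ₂, rfl⟩ := hb.2 δ₂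
  obtain ⟨δ₃, rfl⟩ := hb.2 δ₃
  obtain ⟨γ₁, rfl⟩ := hb.2 γ₁
  obtain ⟨γ₂, rfl⟩ := hb.2 γ₂
  obtain ⟨γ₃, rfl⟩ := hb.2 γ₃
  have e := RD.co_rw_add (D := D.toRD) l
  rw [xb_ins]
  refine Hit.cube hg hp ha (fun z hz => ?_) (h l K) (β := β) ?_ m₁ m₂ m₃
    (fun c => n₁ (c ▸ rfl)) (fun c => n₂ (c ▸ rfl)) (fun c => n₃ (c ▸ rfl))
    (fun ε c => r₁ _ ((e _ _ ε).2 c)) (fun ε c => r₂ _ ((e _ _ ε).2 c))
    (fun ε c => r₃ _ ((e _ _ ε).2 c)) ((e _ _ _).1 s₁) ((e _ _ _).1 s₂) ((e _ _ _).1 s₃)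
    ((e _ _ _).1 t₁) ((e _ _ _).1 t₂) ((e _ _ _).1 t₃)
    (fun z hz γ c => (o₁ _ hz _ ((e _ _ γ).2 c)).imp (hb.1 ·) (Or.imp_left (hb.1 ·)))
    (fun z hz γ c => (o₂ _ hz _ ((e _ _ γ).2 c)).imp (hb.1 ·) (Or.imp_left (hb.1 ·)))
    (fun z hz γ c => (o₃ _ hz _ ((e _ _ γ).2 c)).imp (hb.1 ·) (Or.imp_left (hb.1 ·)))
  · rw [D.dg_dw]
    exact hZ _ hz
  · rw [D.dg_dw]
    exact hβ

end CD

end Pool.Agent.P.Bf04
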