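import Pool.Agent.P.MP_bf0464_al.H.EBas

/-! Rational moves of generic forms. -/

namespace Pool.Agent.P.Bf04

open Matrix Module

attribute [local instance 100] LieRing.ofAssociativeRing

universe u v w

set_option linter.unusedSectionVars false

theorem indep_of_gen {k K ι κ τ : Type*} [Field k] [Field K] [Algebra k K] [Finite ι] [Finite κ]
    [Finite τ] {x : ι → K} (hx : AlgebraicIndependent k x) (y : κ → K) (t : τ → K)
    (h : ∀ i, x i ∈ Algebra.adjoin k (Set.range y ∪ Set.range t))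
    (hc : Nat.card κ + Nat.card τ ≤ Nat.card ι) : AlgebraicIndependent k y := by
  have h3 : (Set.range y).ncard ≤ Nat.card κ := by
    rw [← Set.image_univ, ← Set.ncard_univ]
    exact Set.ncard_image_le
  have hr' : (Set.range t).ncard ≤ Nat.card τ := by
    rw [← Set.image_univ, ← Set.ncard_univ]
    exact Set.ncard_image_le
  let M := AlgebraicIndependent.matroid k K
  have h1 : (Set.range x).encard ≤ M.eRk (Set.range y) + (Set.range t).encard := by
    refine le_trans ?_ (M.eRk_union_le_eRk_add_encard _ _)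
    rw [← M.eRk_closure_eq]
    refine Matroid.Indep.encard_le_eRk_of_subset (M := M) hx.to_subtype_range ?_
    rintro _ ⟨i, rfl⟩
    rw [AlgebraicIndependent.matroid_closure_eq]
    exact isAlgebraic_algebraMap (⟨x i, h i⟩ : Algebra.adjoin k (Set.range y ∪ Set.range t))
  have h2 := M.eRk_le_encard (Set.range y)
  obtain ⟨n, hn⟩ := ENat.ne_top_iff_exists.1
    (ne_top_of_le_ne_top (Set.finite_range y).encard_lt_top.ne h2)
  rw [← hn, ← (Set.finite_range x).cast_ncard_eq, ← (Set.finite_range t).cast_ncard_eq,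
    Set.ncard_range_of_injective hx.injective] at h1
  rw [← hn, ← (Set.finite_range y).cast_ncard_eq] at h2
  norm_cast at h1 h2
  have h4 : Function.Injective y := by
    rw [← Set.injOn_univ]
    refine Set.injOn_of_ncard_image_eq ?_
    rw [Set.image_univ, Set.ncard_univ]
    omega
  refine AlgebraicIndependent.of_subtype_range h4 ?_
  refine ((M.indep_iff_eRk_eq_encard_of_finite (Set.finite_range y)).2 ?_ :)
  rw [← hn, ← (Set.finite_range y).cast_ncard_eq, Nat.cast_inj]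
  omega

namespace CD

variable {D : CD} {p : ℕ} [Fact p.Prime] {K : Type u} [Field K] [Algebra (ZMod p) K]
  {Q F : Set D.ι} {η : D.B → K}

theorem gen_ne (h : D.Gen p Q F η) {β : D.ι} (hβ : β ∈ Q) : D.cd η β ≠ 0 :=
  h.ind.ne_zero ⟨β, hβ⟩

theorem gen_weaken (h : D.Gen p Q F η) {Q' F' : Set D.ι} (hQ : Q' ⊆ Q) (hF : Q ∪ F ⊆ Q' ∪ F') :
    D.Gen p Q' F' η :=
  ⟨h.supp.mono hF, h.ind.comp (Set.inclusion hQ) (Set.inclusion_injective hQ)⟩

theorem gen_nW (h : D.Gen p Q F η) (l : List D.Δ) :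
    D.Gen p {β | D.rw l β ∈ Q} {β | D.rw l β ∈ F} (η ᵥ* D.nW K l) := by
  refine ⟨supp_nW h.supp l, ?_⟩
  refine indep_of_gen (τ := Empty) (h.ind.comp (fun β : {β | D.rw l β ∈ Q} => ⟨D.rw l β, β.2⟩)
    fun a b e => Subtype.ext ((D.rw_bij l).1 (congrArg Subtype.val e))) _ Empty.elim
    (fun β => ?_) (by simp)
  obtain ⟨ε, h1, h2⟩ := cd_nW (R := K) l β.1
  have e : D.cd η (D.rw l β) = (ε : K) * D.cd (η ᵥ* D.nW K l) β := by
    rw [h2, ← mul_assoc, ← Int.cast_mul, h1, Int.cast_one, one_mul]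
  change D.cd η (D.rw l β) ∈ _
  rw [e]
  exact mul_mem (intCast_mem _ ε) (Algebra.subset_adjoin (Or.inl ⟨β, rfl⟩))

theorem gen_levi (h : D.Gen p Q ∅ η) (J : Finset D.Δ) (hJ : ∀ β ∈ Q, D.In J β) :
    (D.levi J).Gen p {β | β.1 ∈ Q} ∅ (D.leviχ J η) :=
  ⟨⟨h.supp.1, fun β hβ => h.supp.2 β.1 hβ⟩,
    h.ind.comp (fun β : {β : (D.levi J).ι | β.1 ∈ Q} => ⟨β.1.1, β.2⟩)
      fun _ _ e => Subtype.ext (Subtype.ext (congrArg (fun a : Q => a.1) e))⟩

/-- the data of a move that kills the coordinates γ by root elements for the roots δ -/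
structure Blk (D : CD) (Q F T R : Set D.ι) {m : ℕ} (γ δ z : Fin m → D.ι) : Prop where
  zQ : ∀ i, z i ∈ Q
  sum : ∀ i, D.co (z i) + D.co (δ i) = D.co (γ i)
  tri : ∀ i j l, i < j → D.co (z l) + D.co (δ j) ≠ D.co (γ i)
  γT : ∀ i, γ i ∈ T
  γR : ∀ i, γ i ∉ R
  RT : R ⊆ T
  TQ : T ⊆ Q
  dis : ∀ β ∈ Q, β ∉ F
  neg : ∀ i, D.neg (δ i) ∉ Q ∪ F
  shQ : ∀ i, ∀ β ∈ Q, ∀ β', D.co β + D.co (δ i) = D.co β' → β' ∈ T ∪ F
  shT : ∀ i, ∀ β ∈ T, ∀ β', D.co β + D.co (δ i) = D.co β' → β' ∈ R ∪ F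
  shF : ∀ i, ∀ β ∈ F, ∀ β', D.co β + D.co (δ i) = D.co β' → β' ∈ F

theorem emov_chain {P : ℕ → Set D.ι} {δ β : D.ι}
    (hP : ∀ n, ∀ β ∈ P n, ∀ β', D.co β + D.co δ = D.co β' → β' ∈ P (n + 1)) (h0 : β ∈ P 0)
    (hn : β ≠ D.neg δ) (n : ℕ) : ∀ β', D.co β + (n : ℤ) • D.co δ = D.co β' → β' ∈ P n := by
  induction n with
  | zero =>
    intro β' e
    rw [Nat.cast_zero, zero_smul, add_zero] at e
    exact D.co_inj e ▸ h0
  | succ n ih =>
    intro β' e
    obtain ⟨α, hα⟩ := D.string hn e.symm (Nat.le_succ n)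
    refine hP n α (ih α hα.symm) β' ?_
    rw [hα, ← e, Nat.cast_succ, add_smul, one_smul, add_assoc]

/-- the first order change of a coordinate -/
def emovM (D : CD) {S : Type*} [CommRing S] (x : D.ι → S) (δ β : D.ι) : S :=
  ∑ α, if D.co α + D.co δ = D.co β then (D.N δ (D.neg β) : S) * x α else 0

theorem emovM_congr {S : Type*} [CommRing S] {x x' : D.ι → S} {δ β : D.ι}
    (h : ∀ α, D.co α + D.co δ = D.co β → x α = x' α) : D.emovM x δ β = D.emovM x' δ β :=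
  Finset.sum_congr rfl fun α _ => by
    split_ifs with e
    exacts [by rw [h α e], rfl]

theorem emovM_map {S S' : Type*} [CommRing S] [CommRing S'] (φ : S →+* S') (x : D.ι → S)
    (δ β : D.ι) : φ (D.emovM x δ β) = D.emovM (φ ∘ x) δ β := by
  simp only [emovM, map_sum, apply_ite φ, map_mul, map_intCast, map_zero, Function.comp]

section Block

variable {T R : Set D.ι} {m : ℕ} {γ δ z : Fin m → D.ι}

theorem Blk.emov_supp (hb : D.Blk Q F T R γ δ z) (h : D.Supp (Q ∪ F) η) (j : Fin m) (t : K) :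
    D.Supp (Q ∪ F) (η ᵥ* D.xM (δ j) t) :=
  supp_xM h (hb.neg j) (fun β hβ β' e => hβ.elim
    (fun hβ => (hb.shQ j β hβ β' e).imp_left fun a => hb.TQ a)
    fun hβ => Or.inr (hb.shF j β hβ β' e)) t

theorem Blk.emov_two (hb : D.Blk Q F T R γ δ z) {j : Fin m} {α β : D.ι} (hα : α ∈ Q ∪ F) {n : ℕ}
    (hn : 2 ≤ n) (e : D.co α + (n : ℤ) • D.co (δ j) = D.co β) : β ∈ R ∪ F := by
  obtain ⟨n, rfl⟩ := Nat.exists_eq_add_of_le' hn
  refine emov_chain (P := fun n => match n with | 0 => Q ∪ F | 1 => T ∪ F | _ + 2 => R ∪ F)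
    (fun n β hβ β' e => ?_) hα (fun e => hb.neg j (e ▸ hα)) (n + 2) β e
  match n, hβ with
  | 0, hβ => exact hβ.elim (fun hβ => hb.shQ j β hβ β' e) fun hβ => Or.inr (hb.shF j β hβ β' e)
  | 1, hβ => exact hβ.elim (fun hβ => hb.shT j β hβ β' e) fun hβ => Or.inr (hb.shF j β hβ β' e)
  | _ + 2, hβ =>
    exact hβ.elim (fun hβ => hb.shT j β (hb.RT hβ) β' e) fun hβ => Or.inr (hb.shF j β hβ β' e)

theorem Blk.emov_step (hb : D.Blk Q F T R γ δ z) (h : D.Supp (Q ∪ F) η) (j : Fin m) (t : K)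
    {β : D.ι} (hQ : β ∈ Q) (hR : β ∉ R) :
    D.cd (η ᵥ* D.xM (δ j) t) β = D.cd η β + t * D.emovM (D.cd η) (δ j) β := by
  obtain ⟨c, h1, h2⟩ := cd_xM (R := K) (δ j) β
  rw [h2, cd_coad_e h.1, Finset.sum_eq_zero fun α _ => Finset.sum_eq_zero fun n _ => ?_, add_zero]
  · rfl
  by_contra hne
  have h3 := h1 α n fun e => hne (by rw [e, Int.cast_zero, mul_zero, zero_mul])
  exact (hb.emov_two (h.2 α (right_ne_zero_of_mul hne)) h3.1 h3.2).elim hR (hb.dis β hQ)

theorem Blk.emov_inv (hb : D.Blk Q F T R γ δ z) (h : D.Supp (Q ∪ F) η) (j i : Fin m) (t : K)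
    {β : D.ι} (hQ : β ∈ Q) (hR : β ∉ R) :
    D.emovM (D.cd (η ᵥ* D.xM (δ j) t)) (δ i) β = D.emovM (D.cd η) (δ i) β := by
  refine emovM_congr fun α e => ?_
  by_cases hα : α ∈ Q ∪ F
  · have aQ : α ∈ Q := hα.resolve_right fun a => hb.dis β hQ (hb.shF i α a β e)
    have aT : α ∉ T := fun a => (hb.shT i α a β e).elim hR (hb.dis β hQ)
    rw [hb.emov_step h j t aQ fun a => aT (hb.RT a), emovM_congr (x' := 0) fun α' e' => ?_]
    · simp [emovM]
    by_contra hne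
    exact (h.2 α' hne).elim (fun a => (hb.shQ j α' a α e').elim aT (hb.dis α aQ))
      fun a => hb.dis α aQ (hb.shF j α' a α e')
  · rw [not_not.1 (mt ((hb.emov_supp h j t).2 α) hα), not_not.1 (mt (h.2 α) hα)]

theorem Blk.emov_mem (hb : D.Blk Q F T R γ δ z) (h : D.Supp (Q ∪ F) η) (j : Fin m) {t : K}
    {S : Subalgebra (ZMod p) K} (ht : t ∈ S) (hS : ∀ β ∈ Q, D.cd η β ∈ S) :
    ∀ β ∈ Q, D.cd (η ᵥ* D.xM (δ j) t) β ∈ S := by
  intro β hβ
  have key : ∀ α (n : ℕ), D.co α + (n : ℤ) • D.co (δ j) = D.co β → D.cd η α ∈ S := by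
    intro α n e
    by_cases h0 : D.cd η α = 0
    · exact h0 ▸ zero_mem S
    refine hS α ((h.2 α h0).resolve_right fun a => hb.dis β hβ ?_)
    exact emov_chain (P := fun _ => F) (fun _ => hb.shF j) a
      (fun e => hb.neg j (e ▸ Or.inr a)) n β e
  obtain ⟨c, h1, h2⟩ := cd_xM (R := K) (δ j) β
  rw [h2, cd_coad_e h.1]
  refine add_mem (add_mem (hS β hβ) (mul_mem ht (sum_mem fun α _ => ?_)))
    (sum_mem fun α _ => sum_mem fun n _ => ?_)
  · split_ifs with e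
    exacts [mul_mem (intCast_mem _ _) (key α 1 (by simpa using e)), zero_mem S]
  · by_cases h0 : c α n = 0
    · rw [h0, Int.cast_zero, mul_zero, zero_mul]
      exact zero_mem S
    · exact mul_mem (mul_mem (pow_mem ht n) (intCast_mem _ _)) (key α n (h1 α n h0).2)

theorem Blk.emov_list (hb : D.Blk Q F T R γ δ z) (t : Fin m → K) (l : List (Fin m)) :
    ∀ η : D.B → K, D.Supp (Q ∪ F) η → ∃ A ∈ D.G K, D.Supp (Q ∪ F) (η ᵥ* A) ∧
      (∀ β ∈ Q, β ∉ R → D.cd (η ᵥ* A) β =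
        D.cd η β + (l.map fun j => t j * D.emovM (D.cd η) (δ j) β).sum) ∧
      ∀ S : Subalgebra (ZMod p) K, (∀ j, t j ∈ S) → (∀ β ∈ Q, D.cd (η ᵥ* A) β ∈ S) →
        ∀ β ∈ Q, D.cd η β ∈ S := by
  induction l with
  | nil => exact fun η h => ⟨1, one_mem _, by simpa using h, by simp, fun S _ h => by simpa using h⟩
  | cons j l ih =>
    intro η h
    obtain ⟨A, hA, h1, h2, h3⟩ := ih _ (hb.emov_supp h j (t j))
    rw [vecMul_vecMul] at h1 h2 h3
    refine ⟨_, mul_mem (xM_mem (Set.mem_univ _) _) hA, h1, fun β hQ hR => ?_, fun S ht hS => ?_⟩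
    · rw [h2 β hQ hR, hb.emov_step h j _ hQ hR, List.map_cons, List.sum_cons, add_assoc]
      simp only [hb.emov_inv h j _ _ hQ hR]
    · have := hb.emov_mem (hb.emov_supp h j (t j)) j (neg_mem (ht j)) (h3 S ht hS)
      rwa [vecMul_vecMul, ← xM_add, add_neg_cancel, xM_zero, vecMul_one] at this

theorem Blk.emov_det (hb : D.Blk Q F T R γ δ z) (hg : D.Good p) (h : D.Gen p Q F η) :
    (Matrix.of fun i j => D.emovM (D.cd η) (δ j) (γ i)).det ≠ 0 := by
  classical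
  intro h0
  let X' : D.ι → MvPolynomial Q (ZMod p) := fun β =>
    if h : β ∈ Q then MvPolynomial.X ⟨β, h⟩ else 0
  let P : Matrix (Fin m) (Fin m) (MvPolynomial Q (ZMod p)) :=
    Matrix.of fun i j => D.emovM X' (δ j) (γ i)
  have h1 : P.det = 0 := by
    refine algebraicIndependent_iff.1 h.ind _ ?_
    rw [← h0, AlgHom.map_det]
    congr 1
    ext i j
    refine (emovM_map (S := MvPolynomial Q (ZMod p))
      (MvPolynomial.aeval fun β : Q => D.cd η β).toRingHom X' (δ j) (γ i)).trans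
      (emovM_congr fun α e => ?_)
    by_cases hα : α ∈ Q
    · simp [X', hα]
    · have : D.cd η α = 0 := not_not.1 fun hne => hb.dis _ (hb.TQ (hb.γT i))
        (hb.shF j α ((h.supp.2 α hne).resolve_left hα) _ e)
      simp [X', hα, this]
  let φ := MvPolynomial.eval fun β : Q => if β.1 ∈ Set.range z then (1 : ZMod p) else 0
  have h2 : ∀ α, (φ ∘ X') α = if α ∈ Set.range z then 1 else 0 := fun α => by
    by_cases hα : α ∈ Q
    · simp only [X', φ, Function.comp, dif_pos hα, MvPolynomial.eval_X]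
    · rw [if_neg fun ⟨i, e⟩ => hα (e ▸ hb.zQ i)]
      simp only [X', Function.comp, dif_neg hα, map_zero]
  have h3 := congrArg φ h1
  rw [RingHom.map_det, map_zero, Matrix.det_of_isLowerTriangular] at h3
  · obtain ⟨i, -, h4⟩ := Finset.prod_eq_zero_iff.1 h3
    change φ (D.emovM X' (δ i) (γ i)) = 0 at h4
    rw [emovM_map, emovM, Finset.sum_eq_single (z i) (fun α _ hne => if_neg fun e => hne
      (D.co_inj (add_right_cancel (e.trans (hb.sum i).symm)))) (by simp), if_pos (hb.sum i), h2,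
      if_pos ⟨i, rfl⟩, mul_one, ZMod.intCast_zmod_eq_zero_iff_dvd] at h4
    refine D.N_good Fact.out hg (γ := D.neg (z i)) ?_ h4
    rw [D.co_neg, D.co_neg, ← hb.sum i]
    abel
  · intro i j hij
    change φ (D.emovM X' (δ j) (γ i)) = 0
    rw [emovM_map, emovM_congr (x' := 0) fun α e => ?_]
    · simp [emovM]
    rw [h2, if_neg]
    · rfl
    · rintro ⟨l, rfl⟩
      exact hb.tri i j l hij e

end Block

theorem gen_block (hg : D.Good p) (h : D.Gen p Q F η) {T R : Set D.ι} {m : ℕ}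
    {γ δ z : Fin m → D.ι} (hb : D.Blk Q F T R γ δ z) :
    ∃ A ∈ D.G K, D.Gen p (Q \ Set.range γ) F (η ᵥ* A) := by
  classical
  obtain ⟨t, ht⟩ := Matrix.mulVec_surjective_iff_isUnit.2
    ((Matrix.isUnit_iff_isUnit_det _).2 (hb.emov_det hg h).isUnit) fun i => -D.cd η (γ i)
  obtain ⟨A, hA, h1, h2, h3⟩ := hb.emov_list (p := p) t (List.finRange m) η h.supp
  have h0 : ∀ i, D.cd (η ᵥ* A) (γ i) = 0 := fun i => by
    rw [h2 _ (hb.TQ (hb.γT i)) (hb.γR i), ← Fin.sum_univ_def, add_eq_zero_iff_neg_eq,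
      ← congrFun ht i]
    simp only [mulVec, dotProduct, of_apply, mul_comm]
  have hγ : Function.Injective γ := fun i j e => by
    rcases lt_trichotomy i j with a | a | a
    exacts [absurd (e ▸ hb.sum j) (hb.tri i j j a), a, absurd (e ▸ hb.sum i) (hb.tri j i i a)]
  refine ⟨A, hA, ⟨h1.1, fun β hβ => (h1.2 β hβ).imp_left fun a => ⟨a, ?_⟩⟩, ?_⟩
  · rintro ⟨i, rfl⟩
    exact hβ (h0 i)
  refine indep_of_gen h.ind _ t (fun β => h3 _ (fun j => Algebra.subset_adjoin (Or.inr ⟨j, rfl⟩))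
    (fun β hβ => ?_) β.1 β.2) ?_
  · by_cases hr : β ∈ Set.range γ
    · obtain ⟨i, rfl⟩ := hr
      exact h0 i ▸ zero_mem _
    · exact Algebra.subset_adjoin (Or.inl ⟨⟨β, hβ, hr⟩, rfl⟩)
  · rw [← Set.ncard_range_of_injective hγ]
    exact (Set.ncard_sdiff_add_ncard_of_subset
      (Set.range_subset_iff.2 fun i => hb.TQ (hb.γT i))).le

end CD

end Pool.Agent.P.Bf04
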