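import Pool.Agent.P.MP_bf0464_al.H.EBas

/-! Optimal degree functions: existence, the theorem of Kempf, the lowest part. -/

namespace Pool.Agent.P.Bf04

open Matrix Module

attribute [local instance 100] LieRing.ofAssociativeRing

universe u v w

namespace CD

variable {D : CD} {K : Type u} [Field K] {d : D.Δ → ℝ} {χ : D.B → K}

theorem eopt_supp_iff {η : D.B → K} :
    D.Supp {β | 1 ≤ D.dg d β} η ↔ ∀ b, η b ≠ 0 → D.dB d b ≤ -1 := by
  constructor
  · rintro ⟨h1, h2⟩ (a | γ) hb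
    · exact absurd (h1 a) hb
    · have h3 : D.cd η (D.neg γ) ≠ 0 := by
        unfold RD.cd; rwa [D.neg_neg]
      have h4 : (1 : ℝ) ≤ D.dg d (D.neg γ) := h2 _ h3
      rw [D.dg_neg] at h4
      rw [D.dB_inr]; linarith
  · intro h
    refine ⟨fun a => ?_, fun β hβ => ?_⟩
    · by_contra hc
      have := h _ hc
      rw [D.dB_inl] at this; linarith
    · have := h _ hβ
      rw [D.dB_inr, D.dg_neg] at this
      change (1 : ℝ) ≤ D.dg d β
      linarith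

theorem eopt_vecMul_ne {η : D.B → K} {A : Matrix D.B D.B K} {j : D.B} (h : (η ᵥ* A) j ≠ 0) :
    ∃ k, η k ≠ 0 ∧ A k j ≠ 0 := by
  obtain ⟨k, -, hk⟩ := Finset.exists_ne_zero_of_sum_ne_zero h
  exact ⟨k, left_ne_zero_of_mul hk, right_ne_zero_of_mul hk⟩

theorem eopt_mul_ne {A A' : Matrix D.B D.B K} {k j : D.B} (h : (A * A') k j ≠ 0) :
    ∃ m, A k m ≠ 0 ∧ A' m j ≠ 0 := by
  rw [Matrix.mul_apply] at h
  obtain ⟨m, -, hm⟩ := Finset.exists_ne_zero_of_sum_ne_zero h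
  exact ⟨m, left_ne_zero_of_mul hm, right_ne_zero_of_mul hm⟩

theorem eopt_bor (hd : 0 ≤ d) {b : Matrix D.B D.B K} (hb : b ∈ D.Bor K) {k j : D.B}
    (h : b k j ≠ 0) : D.dB d j ≤ D.dB d k :=
  GS_dB d (GS_mono (fun _ hβ => D.dg_nonneg hd hβ) hb) h

theorem eopt_supp_bor (hd : 0 ≤ d) {b : Matrix D.B D.B K} (hb : b ∈ D.Bor K) {η : D.B → K}
    (h : D.Supp {β | 1 ≤ D.dg d β} η) : D.Supp {β | 1 ≤ D.dg d β} (η ᵥ* b) := by
  rw [eopt_supp_iff] at h ⊢
  intro j hj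
  obtain ⟨k, h1, h2⟩ := eopt_vecMul_ne hj
  exact (eopt_bor hd hb h2).trans (h k h1)

/-- removing the right Borel factor and the Weyl group factor -/
theorem eopt_strip (hd : 0 ≤ d) {b' : Matrix D.B D.B K} (hb : b' ∈ D.Bor K) {η : D.B → K}
    {l : List D.Δ} (h : D.Supp {β | 1 ≤ D.dg d β} (η ᵥ* (D.nW K l * b'))) {γ : D.ι}
    (hγ : D.cd η γ ≠ 0) : 1 ≤ D.dg (D.dw l.reverse d) γ := by
  obtain ⟨c, hc, h1, -⟩ := GS_inv hb
  have h2 := eopt_supp_bor hd hc h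
  rw [vecMul_vecMul, mul_assoc, h1, mul_one] at h2
  obtain ⟨ε, hε, e⟩ := cd_nW (R := K) (D := D) l (D.rw l.reverse γ)
  have h3 : D.rw l (D.rw l.reverse γ) = γ := by
    have := D.rw_reverse l.reverse γ
    rwa [List.reverse_reverse] at this
  have h4 : (ε : K) ≠ 0 := by
    intro h0
    have : ((ε * ε : ℤ) : K) = 1 := by rw [hε, Int.cast_one]
    rw [Int.cast_mul, h0, zero_mul] at this
    exact zero_ne_one this
  rw [D.dg_dw]
  refine h2.2 _ ?_
  rw [e, h3]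
  exact mul_ne_zero h4 hγ

theorem eopt_dg_comb (x y : D.Δ → ℝ) (s t : ℝ) (β : D.ι) :
    D.dg (s • x + t • y) β = s * D.dg x β + t * D.dg y β := by
  simp only [RD.dg, Finset.mul_sum, ← Finset.sum_add_distrib, Pi.add_apply, Pi.smul_apply,
    smul_eq_mul]
  exact Finset.sum_congr rfl fun i _ => by ring

theorem eopt_sq_le (x : D.Δ → ℝ) (i : D.Δ) : x i ^ 2 ≤ D.nrm x := by
  have := Finset.single_le_sum (f := fun β => D.dg x β ^ 2) (fun β _ => sq_nonneg _)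
    (Finset.mem_univ (D.s i))
  simp only [D.dg_s] at this
  exact this

theorem eopt_cont_dg (β : D.ι) : Continuous fun x : D.Δ → ℝ => D.dg x β := by
  unfold RD.dg; fun_prop

theorem eopt_cont : Continuous (D.nrm) := by
  unfold RD.nrm
  exact continuous_finsetSum _ fun β _ => (eopt_cont_dg β).pow 2

theorem Opt.map (h : D.Opt d χ) {F : Type u} [Field F] (φ : K →+* F) : D.Opt d (φ ∘ χ) :=
  ⟨h.lev.map φ, fun F' _ φ' A hA d' hs => h.min F' (φ'.comp φ) A hA d' hs⟩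

theorem exists_opt (h : D.Std χ) : ∃ (F : Type u) (_ : Field F) (_ : IsAlgClosed F) (φ : K →+* F),
    ∃ A ∈ D.G F, ∃ d : D.Δ → ℝ, 0 ≤ d ∧ D.Opt d ((φ ∘ χ) ᵥ* A) := by
  let T : Set (Set D.ι) := {S | ∃ (F : Type u) (_ : Field F) (φ : K →+* F),
    ∃ A ∈ D.G F, D.Supp S ((φ ∘ χ) ᵥ* A)}
  let U : Set (D.Δ → ℝ) := ⋃ S ∈ T, ⋂ β ∈ S, {x | 1 ≤ D.dg x β}
  have hU : ∀ x, x ∈ U ↔ {β | 1 ≤ D.dg x β} ∈ T := fun x => by
    simp only [U, Set.mem_iUnion, Set.mem_iInter]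
    constructor
    · rintro ⟨S, ⟨F, iF, φ, A, hA, hS⟩, hx⟩
      exact ⟨F, iF, φ, A, hA, hS.mono fun β hβ => hx β hβ⟩
    · intro hx
      exact ⟨_, hx, fun β hβ => hβ⟩
  have hUc : IsClosed U := (Set.toFinite T).isClosed_biUnion fun S _ =>
    isClosed_biInter fun β _ => isClosed_le continuous_const (eopt_cont_dg β)
  have h1 : (1 : D.Δ → ℝ) ∈ U := by
    rw [hU]
    refine ⟨K, inferInstance, RingHom.id K, 1, one_mem _, ?_⟩
    rw [vecMul_one]
    refine (RD.std_iff.1 h).mono fun β hβ => ?_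
    have h2 : (1 : ℤ) ≤ D.ht β := (D.pos_iff_ht β).1 hβ
    have h3 : D.dg (1 : D.Δ → ℝ) β = (D.ht β : ℝ) := by simp [RD.dg, RD.ht]
    change (1 : ℝ) ≤ D.dg (1 : D.Δ → ℝ) β
    rw [h3]; exact_mod_cast h2
  set r : ℝ := D.nrm 1 + 1 with hr
  have hn : 0 ≤ D.nrm (1 : D.Δ → ℝ) := Finset.sum_nonneg fun β _ => sq_nonneg _
  have hC : IsCompact (Metric.closedBall (0 : D.Δ → ℝ) r ∩ U) :=
    (isCompact_closedBall _ _).inter_right hUc
  have h1' : (1 : D.Δ → ℝ) ∈ Metric.closedBall (0 : D.Δ → ℝ) r ∩ U := by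
    refine ⟨?_, h1⟩
    rw [mem_closedBall_zero_iff, pi_norm_le_iff_of_nonneg (by linarith)]
    intro i; simp only [Pi.one_apply, norm_one]; linarith
  obtain ⟨x, ⟨-, hxU⟩, hx⟩ := hC.exists_isMinOn ⟨_, h1'⟩ (eopt_cont (D := D)).continuousOn
  have hmin : ∀ y ∈ U, D.nrm x ≤ D.nrm y := fun y hy => by
    by_cases hb : y ∈ Metric.closedBall (0 : D.Δ → ℝ) r
    · exact hx ⟨hb, hy⟩
    · rw [mem_closedBall_zero_iff, pi_norm_le_iff_of_nonneg (by linarith)] at hb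
      push Not at hb
      obtain ⟨i, hi⟩ := hb
      have h2 : D.nrm x ≤ D.nrm 1 := hx h1'
      have h3 := eopt_sq_le y i
      rw [Real.norm_eq_abs] at hi
      rw [← sq_abs] at h3
      nlinarith
  obtain ⟨F, iF, φ, A, hA, hS⟩ := (hU x).1 hxU
  obtain ⟨l, hl⟩ := D.exists_dw x
  let ψ : F →+* AlgebraicClosure F := algebraMap F _
  have hA' : (A * D.nW F l).map ψ ∈ D.G (AlgebraicClosure F) :=
    GS_map ψ (mul_mem hA (D.nW_mem l))
  refine ⟨AlgebraicClosure F, inferInstance, inferInstance, ψ.comp φ, _, hA', D.dw l x, hl, ?_, ?_⟩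
  · have h2 := (supp_nW hS l).map ψ
    rw [vecMul_vecMul, map_vecMul] at h2
    refine h2.mono fun β hβ => ?_
    change (1 : ℝ) ≤ _
    rw [D.dg_dw]; exact hβ
  · intro F' _ φ' A' hA'' d' hs
    rw [D.nrm_dw]
    refine hmin d' ((hU d').2 ⟨F', inferInstance, φ'.comp (ψ.comp φ), _,
      mul_mem (GS_map φ' hA') hA'', ?_⟩)
    rw [map_vecMul, vecMul_vecMul] at hs
    exact hs

theorem Opt.stab (h : D.Opt d χ) (hd : 0 ≤ d) {A : Matrix D.B D.B K} (hA : A ∈ D.G K)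
    (h' : D.Supp {β | 1 ≤ D.dg d β} (χ ᵥ* A)) {k j : D.B} (hkj : A k j ≠ 0) :
    D.dB d j ≤ D.dB d k := by
  obtain ⟨b, hb, b', hb', l, rfl⟩ := D.bruhat hA
  have h1 := eopt_supp_bor hd hb h.lev
  rw [mul_assoc, ← vecMul_vecMul] at h'
  set e := D.dw l.reverse d with he
  have h2 : D.nrm d ≤ D.nrm ((1 / 2 : ℝ) • d + (1 / 2 : ℝ) • e) := by
    refine h.min K (RingHom.id K) b (GS_le_G hb) _ ⟨h1.1, fun β hβ => ?_⟩
    have h3 : (1 : ℝ) ≤ D.dg d β := h1.2 β hβ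
    have h4 := eopt_strip hd hb' h' hβ
    change (1 : ℝ) ≤ _
    rw [eopt_dg_comb]; linarith
  have h3 : D.nrm ((1 / 2 : ℝ) • d + (1 / 2 : ℝ) • e) + D.nrm ((1 / 2 : ℝ) • d + (-1 / 2 : ℝ) • e)
      = (D.nrm d + D.nrm e) / 2 := by
    simp only [RD.nrm, eopt_dg_comb, ← Finset.sum_add_distrib, Finset.sum_div]
    exact Finset.sum_congr rfl fun β _ => by ring
  have h4 : D.nrm e = D.nrm d := D.nrm_dw _ _
  have h5 : e = d := by
    funext i
    have h6 := eopt_sq_le ((1 / 2 : ℝ) • d + (-1 / 2 : ℝ) • e) i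
    simp only [Pi.add_apply, Pi.smul_apply, smul_eq_mul] at h6
    have h7 : (1 / 2 * d i + -1 / 2 * e i) ^ 2 = 0 := le_antisymm (by linarith) (sq_nonneg _)
    have h8 := pow_eq_zero_iff (two_ne_zero) |>.1 h7
    linarith
  have h6 : D.dw l d = d := by
    funext i
    have : D.dw l e i = d i := by
      change D.dg e (D.rw l (D.s i)) = _
      rw [he, D.dg_dw, D.rw_reverse, D.dg_s]
    rwa [h5] at this
  obtain ⟨m, hm, hm'⟩ := eopt_mul_ne hkj
  obtain ⟨n, hn, hn'⟩ := eopt_mul_ne hm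
  have h7 := nW_dB d l hn'
  rw [h6] at h7
  exact (eopt_bor hd hb' hm').trans (h7.ge.trans (eopt_bor hd hb hn))

theorem Opt.pure (h : D.Opt d χ) (hd : 0 ≤ d) : D.Opt d (D.pure 1 d χ) := by
  refine ⟨(RD.supp_pure one_ne_zero d χ).mono fun β hβ => le_of_eq (Eq.symm hβ), ?_⟩
  intro F _ φ A hA d' hs
  rw [RD.map_pure] at hs
  have hF := h.map φ
  set η := φ ∘ χ with hη
  obtain ⟨l₀, hl₀⟩ := D.exists_dw d'
  have h1 : D.Supp {β | 1 ≤ D.dg (D.dw l₀ d') β} (D.pure 1 d η ᵥ* (A * D.nW F l₀)) := by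
    rw [← vecMul_vecMul]
    refine (supp_nW hs l₀).mono fun β hβ => ?_
    change (1 : ℝ) ≤ _
    rw [D.dg_dw]; exact hβ
  obtain ⟨b, hb, b', hb', l, e⟩ := D.bruhat (mul_mem hA (D.nW_mem l₀))
  rw [e, mul_assoc, ← vecMul_vecMul] at h1
  set d'' := D.dw l.reverse (D.dw l₀ d') with hd''
  have h2 : D.nrm d'' = D.nrm d' := by rw [hd'', D.nrm_dw, D.nrm_dw]
  have h3 := eopt_supp_bor hd hb hF.lev
  have h4 : ∀ β, D.dg d β = 1 → D.cd (η ᵥ* b) β = D.cd (D.pure 1 d η ᵥ* b) β := fun β hβ => by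
    refine Finset.sum_congr rfl fun k _ => ?_
    by_cases hk : D.dB d k = -1
    · simp only [RD.pure, if_pos hk]
    · simp only [RD.pure, if_neg hk, zero_mul]
      by_contra hc
      have h5 := eopt_supp_iff.1 hF.lev k (left_ne_zero_of_mul hc)
      have h6 := eopt_bor hd hb (right_ne_zero_of_mul hc)
      rw [D.dB_inr, D.dg_neg, hβ] at h6
      exact hk (le_antisymm h5 h6)
  have h5 : ∀ᶠ t in nhdsWithin (0 : ℝ) (Set.Ioi 0), ∀ β, 1 < D.dg d β →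
      1 < (1 - t) * D.dg d β + t * D.dg d'' β := by
    refine Filter.eventually_all.2 fun β => ?_
    by_cases hβ : 1 < D.dg d β
    · refine Filter.Eventually.filter_mono nhdsWithin_le_nhds ?_
      have hc : Continuous fun t : ℝ => (1 - t) * D.dg d β + t * D.dg d'' β := by fun_prop
      have := (hc.tendsto 0).eventually (lt_mem_nhds (a := 1) (by simpa using hβ))
      exact this.mono fun t ht _ => ht
    · exact Filter.Eventually.of_forall fun t h' => absurd h' hβ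
  obtain ⟨t, ht, ht0, ht1⟩ := (h5.and (Ioo_mem_nhdsGT (zero_lt_one' ℝ))).exists
  have h6 : D.nrm d ≤ D.nrm ((1 - t) • d + t • d'') := by
    refine hF.min F (RingHom.id F) b (GS_le_G hb) _ ⟨h3.1, fun β hβ => ?_⟩
    have h7 : (1 : ℝ) ≤ D.dg d β := h3.2 β hβ
    change (1 : ℝ) ≤ _
    rw [eopt_dg_comb]
    rcases h7.eq_or_lt with h8 | h8
    · have h9 : D.cd (D.pure 1 d η ᵥ* b) β ≠ 0 := by rw [← h4 β h8.symm]; exact hβ
      have h10 := eopt_strip hl₀ hb' h1 h9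
      rw [← h8]; nlinarith
    · exact (ht β h8).le
  have h7 : D.nrm ((1 - t) • d + t • d'') ≤ (1 - t) * D.nrm d + t * D.nrm d'' := by
    simp only [RD.nrm, eopt_dg_comb, Finset.mul_sum, ← Finset.sum_add_distrib]
    refine Finset.sum_le_sum fun β _ => ?_
    have := mul_nonneg (mul_nonneg ht0.le (sub_nonneg.2 ht1.le))
      (sq_nonneg (D.dg d β - D.dg d'' β))
    nlinarith
  rw [← h2]
  nlinarith

end CD

end Pool.Agent.P.Bf04
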