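import Pool.Agent.P.MP_bf0464_al.H.EBasA

/-! Coordinates for a root datum. -/

namespace Pool.Agent.P.Bf04

open Matrix Module

attribute [local instance 100] LieRing.ofAssociativeRing

universe u v w

variable {ι : Type} {X : Type v} {Y : Type w} [Fintype ι] [DecidableEq ι] [AddCommGroup X]
  [AddCommGroup Y] [Module.Finite ℤ X] [Module.Finite ℤ Y] (P : RootDatum ι X Y) [P.IsReduced]
  (b : P.Base) {n : ℕ} (c : Basis (Fin n) ℤ Y)
  (hsc : ∀ (m : ℤ) (y : Y), m ≠ 0 → m • y ∈ Submodule.span ℤ (Set.range P.coroot) →
    y ∈ Submodule.span ℤ (Set.range P.coroot))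

include P in
theorem exists_basis : ∃ n, Nonempty (Basis (Fin n) ℤ Y) := by
  have : IsReflexive ℤ Y := .of_isPerfPair P.flip.toLinearMap
  have : Module.IsTorsionFree ℤ Y := inferInstance
  have : Module.Free ℤ Y := Module.free_of_finite_type_torsion_free'
  exact ⟨_, ⟨Module.finBasis ℤ Y⟩⟩

include hsc in
theorem exists_fund : ∃ ω : b.support → X,
    ∀ i j : b.support, P.toLinearMap (ω i) (P.coroot j) = if i = j then 1 else 0 := by
  set Q := Submodule.span ℤ (Set.range P.coroot) with hQ
  have htf : Module.IsTorsionFree ℤ (Y ⧸ Q) := by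
    refine Module.IsTorsionFree.of_smul_eq_zero fun m y h => ?_
    obtain ⟨y, rfl⟩ := Q.mkQ_surjective y
    by_cases hm : m = 0
    · exact Or.inl hm
    · refine Or.inr ?_
      rw [← map_smul, Submodule.mkQ_apply, Submodule.Quotient.mk_eq_zero] at h
      rw [Submodule.mkQ_apply, Submodule.Quotient.mk_eq_zero]
      exact hsc m y hm h
  have hfr : Module.Free ℤ (Y ⧸ Q) := Module.free_of_finite_type_torsion_free'
  obtain ⟨s, hs⟩ := Module.projective_lifting_property Q.mkQ LinearMap.id Q.mkQ_surjective
  have hli : LinearIndependent ℤ (fun i : b.support => P.coroot i) := b.linearIndepOn_coroot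
  have hsp : Submodule.span ℤ (Set.range fun i : b.support => P.coroot i) = Q := by
    rw [hQ, ← b.span_int_coroot_support, Set.image_eq_range]
    rfl
  let r : Y →ₗ[ℤ] Submodule.span ℤ (Set.range fun i : b.support => P.coroot i) :=
    LinearMap.codRestrict _ (LinearMap.id - s ∘ₗ Q.mkQ) (fun y => by
      rw [hsp, ← Submodule.Quotient.mk_eq_zero, ← Submodule.mkQ_apply]
      have := LinearMap.congr_fun hs (Q.mkQ y)
      simp only [LinearMap.comp_apply, LinearMap.id_apply] at this
      simp only [LinearMap.sub_apply, LinearMap.comp_apply, LinearMap.id_apply, map_sub, this,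
        sub_self])
  have hr : ∀ j : b.support, r (P.coroot j) = Basis.span hli j := fun j => by
    apply Subtype.ext
    have h0 : Q.mkQ (P.coroot j) = 0 := by
      rw [Submodule.mkQ_apply, Submodule.Quotient.mk_eq_zero]
      exact Submodule.subset_span ⟨_, rfl⟩
    rw [Basis.coe_span_apply]
    change P.coroot j - s (Q.mkQ (P.coroot j)) = _
    rw [h0, map_zero, sub_zero]
  refine ⟨fun i => P.toPerfPair.symm ((Basis.span hli).coord i ∘ₗ r), fun i j => ?_⟩
  have h1 : ∀ f, P.toLinearMap (P.toPerfPair.symm f) = f := fun f =>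
    P.toPerfPair.apply_symm_apply f
  rw [h1, LinearMap.comp_apply, hr, Basis.coord_apply, Basis.repr_self, Finsupp.single_apply]
  by_cases h : i = j
  · rw [if_pos h, if_pos h.symm]
  · rw [if_neg h, if_neg (Ne.symm h)]

omit [Fintype ι] [DecidableEq ι] [Module.Finite ℤ X] [Module.Finite ℤ Y] [P.IsReduced] in
theorem finB_key (x : X) (y : Y) :
    (fun a => P.toLinearMap x (c a)) ⬝ᵥ (fun a => c.repr y a) = P.toLinearMap x y := by
  conv_rhs => rw [← c.sum_repr y, map_sum]
  refine Finset.sum_congr rfl fun a _ => ?_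
  rw [map_smul, smul_eq_mul, mul_comm]

/-- coordinates on the weight lattice -/
noncomputable def finB_E : X ≃ₗ[ℤ] (Fin n → ℤ) := P.toPerfPair ≪≫ₗ (c.constr ℤ).symm

omit [Fintype ι] [DecidableEq ι] [Module.Finite ℤ X] [Module.Finite ℤ Y] [P.IsReduced] in
theorem finB_E_apply (x : X) : finB_E P c x = fun a => P.toLinearMap x (c a) := by
  funext a
  simp [finB_E]

omit [Fintype ι] [DecidableEq ι] [Module.Finite ℤ X] [Module.Finite ℤ Y] [P.IsReduced] in
theorem finB_root (β : ι) :
    P.root β = ∑ i : b.support, (b.exists_root_eq_sum_int β).choose i.1 • P.root i.1 := by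
  rw [Finset.sum_coe_sort b.support
    (fun i => (b.exists_root_eq_sum_int β).choose i • P.root i)]
  exact (b.exists_root_eq_sum_int β).choose_spec.2.2

omit [Fintype ι] [DecidableEq ι] [Module.Finite ℤ X] [Module.Finite ℤ Y] [P.IsReduced] in
theorem finB_sign (β : ι) :
    (0 : b.support → ℤ) ≤ (fun i => (b.exists_root_eq_sum_int β).choose i.1) ∨
      (fun i : b.support => (b.exists_root_eq_sum_int β).choose i.1) ≤ 0 := by
  rcases (b.exists_root_eq_sum_int β).choose_spec.2.1 with h | h
  · exact Or.inl fun i => h.le i.1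
  · exact Or.inr fun i => h.le i.1

/-- the root datum in coordinates -/
noncomputable def toRD : RD where
  σ := Fin n
  Δ := b.support
  ι := ι
  rt β a := P.toLinearMap (P.root β) (c a)
  cr β a := c.repr (P.coroot β) a
  s i := i.1
  co β i := (b.exists_root_eq_sum_int β).choose i.1
  cco β i := (b.flip.exists_root_eq_sum_int β).choose i.1
  ω i a := P.toLinearMap ((exists_fund P b hsc).choose i) (c a)
  rf α β := P.reflectionPerm α β
  rt_inj α β h := by
    apply P.root.injective
    apply (finB_E P c).injective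
    rw [finB_E_apply, finB_E_apply]
    exact h
  cr_inj α β h := by
    apply P.coroot.injective
    apply c.repr.injective
    exact Finsupp.ext fun a => congrFun h a
  two α := by rw [finB_key]; exact P.root_coroot_two α
  rt_rf α β := by
    rw [finB_key, ← finB_E_apply, ← finB_E_apply, ← finB_E_apply, P.root_reflectionPerm,
      P.reflection_apply_root, map_sub, map_smul, P.root_coroot_eq_pairing]
  cr_rf α β := by
    rw [finB_key, P.coroot_reflectionPerm, P.coreflection_apply_coroot, P.root_coroot_eq_pairing]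
    funext a
    simp
  rt_co β := by
    simp only [← finB_E_apply, ← map_smul, ← map_sum]
    exact congrArg _ (finB_root P b β)
  cr_cco β := by
    funext a
    have h := finB_root P.flip b.flip β
    have h2 := congrArg (fun y => c.repr y a) h
    simp only [map_sum, map_smul, Finsupp.coe_finsetSum, Finset.sum_apply, Finsupp.smul_apply]
      at h2
    simp only [Finset.sum_apply, Pi.smul_apply]
    exact h2
  li x h := by
    simp only [← finB_E_apply, ← map_smul, ← map_sum] at h
    have h1 := (finB_E P c).map_eq_zero_iff.1 h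
    have hli : LinearIndependent ℤ (fun i : b.support => P.root i) := b.linearIndepOn_root
    exact funext (Fintype.linearIndependent_iff.1 hli x h1)
  sign β := finB_sign P b β
  csign β := finB_sign P.flip b.flip β
  ω_cr i j := by
    rw [finB_key]
    exact (exists_fund P b hsc).choose_spec i j
  red α β h := by
    rw [← finB_E_apply, ← finB_E_apply, ← map_smul] at h
    have h1 := (finB_E P c).injective h
    have : IsReflexive ℤ X := .of_isPerfPair P.toLinearMap
    have : IsAddTorsionFree X := .of_isTorsionFree ℤ X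
    refine P.nsmul_notMem_range_root (n := 2) (i := α) ⟨β, ?_⟩
    rw [h1, two_smul, two_smul]

theorem toRD_root (β : ι) :
    P.root β = ∑ i : b.support, (toRD P b c hsc).co β i • P.root i.1 := finB_root P b β

theorem toRD_co_add (α β γ : ι) (m : ℤ) :
    (toRD P b c hsc).co γ = (toRD P b c hsc).co β + m • (toRD P b c hsc).co α ↔
      P.root γ = P.root β + m • P.root α := by
  have key : ∑ i : b.support,
      ((toRD P b c hsc).co β + m • (toRD P b c hsc).co α) i • P.root i.1
        = P.root β + m • P.root α := by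
    rw [toRD_root P b c hsc β, toRD_root P b c hsc α, Finset.smul_sum, ← Finset.sum_add_distrib]
    refine Finset.sum_congr rfl fun i _ => ?_
    rw [smul_smul, ← add_smul]
    rfl
  constructor
  · intro h
    rw [← key, ← h]
    exact toRD_root P b c hsc γ
  · intro h
    have hli : LinearIndependent ℤ (fun i : b.support => P.root i) := b.linearIndepOn_root
    rw [← key, toRD_root P b c hsc γ] at h
    exact funext (Fintype.linearIndependent_iffₛ.1 hli _ _ h)

theorem toRD_neg (α : ι) : P.root ((toRD P b c hsc).neg α) = -P.root α := by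
  change P.root (P.reflectionPerm α α) = _
  rw [P.root_reflectionPerm, P.reflection_apply_self]

theorem toRD_pos (β : ι) : (toRD P b c hsc).Pos β ↔ b.IsPos β := by
  have : (toRD P b c hsc).ht β = b.height β :=
    Finset.sum_coe_sort b.support (fun i => (b.exists_root_eq_sum_int β).choose i)
  rw [b.isPos_iff, ← this]
  exact (toRD P b c hsc).pos_iff_ht β

theorem toRD_good {p : ℕ} (h : ∀ (β : ι) (m : b.support → ℤ),
    P.root β = ∑ i, m i • P.root i.1 → ∀ i, (p : ℤ) ∣ m i → m i = 0) : (toRD P b c hsc).Good p :=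
  fun β => h β _ (toRD_root P b c hsc β)

/-- the dot action of automorphisms, in coordinates -/
noncomputable def finB_Phi (r : Fin n → ℤ) : P.Aut →* Equiv.Perm (Fin n → ℤ) :=
  (((finB_E P c).toEquiv.trans (Equiv.subRight r)).permCongrHom.toMonoidHom).comp
    (MulAction.toPermHom P.Aut X)

omit [Fintype ι] [DecidableEq ι] [Module.Finite ℤ X] [Module.Finite ℤ Y] [P.IsReduced] in
theorem finB_Phi_apply (r : Fin n → ℤ) (g : P.Aut) (μ : Fin n → ℤ) :
    finB_Phi P c r g μ = finB_E P c (g • (finB_E P c).symm (μ + r)) - r := rfl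

omit [Fintype ι] [DecidableEq ι] [Module.Finite ℤ X] [Module.Finite ℤ Y] [P.IsReduced] in
theorem finB_smul_inj {g g' : P.Aut} (h : ∀ x : X, g • x = g' • x) : g = g' :=
  RootPairing.Equiv.weightHom_injective P (LinearEquiv.ext h)

omit [Fintype ι] [DecidableEq ι] [Module.Finite ℤ X] [Module.Finite ℤ Y] [P.IsReduced] in
theorem finB_Phi_inj (r : Fin n → ℤ) : Function.Injective (finB_Phi P c r) := fun g g' h => by
  refine finB_smul_inj P fun x => ?_
  have h1 := congrArg (fun w : Equiv.Perm (Fin n → ℤ) => w (finB_E P c x - r)) h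
  simp only [finB_Phi_apply, sub_add_cancel, LinearEquiv.symm_apply_apply, sub_left_inj] at h1
  exact (finB_E P c).injective h1

omit [Fintype ι] [DecidableEq ι] [Module.Finite ℤ X] [Module.Finite ℤ Y] [P.IsReduced] in
theorem finB_Phi_refl (r : Fin n → ℤ) (α : ι) (μ : Fin n → ℤ) :
    finB_Phi P c r (RootPairing.Equiv.reflection P α) μ
      = μ + r - ((μ + r) ⬝ᵥ fun a => c.repr (P.coroot α) a) •
        (fun a => P.toLinearMap (P.root α) (c a)) - r := by
  obtain ⟨x, hx⟩ := (finB_E P c).surjective (μ + r)
  rw [finB_Phi_apply, RootPairing.Equiv.reflection_smul, P.reflection_apply, map_sub, map_smul,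
    LinearEquiv.apply_symm_apply, ← hx, LinearEquiv.symm_apply_apply, finB_E_apply, finB_E_apply,
    finB_key]
  rfl

omit [Fintype ι] [DecidableEq ι] [Module.Finite ℤ X] [Module.Finite ℤ Y] [P.IsReduced] in
theorem finB_conj (α β : ι) : RootPairing.Equiv.reflection P (P.reflectionPerm α β)
    = RootPairing.Equiv.reflection P α * RootPairing.Equiv.reflection P β
      * RootPairing.Equiv.reflection P α := by
  refine finB_smul_inj P fun x => ?_
  rw [mul_smul, mul_smul]
  simp only [RootPairing.Equiv.reflection_smul]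
  rw [P.reflection_reflectionPerm]
  rfl

theorem finB_abs (D : RD) {G : Type*} [Group G] (Φ : G →* Equiv.Perm (D.σ → ℤ))
    (hΦ : Function.Injective Φ) (f : D.ι → G) (h1 : ∀ i, Φ (f (D.s i)) = D.dot i)
    (h2 : ∀ α β, f (D.rf α β) = f α * f β * f α) :
    D.wn = Nat.card (Subgroup.closure (Set.range f)) := by
  have hm : ∀ α, Φ (f α) ∈ D.W := fun α => by
    induction α using D.root_induction with
    | h0 i => rw [h1]; exact D.dot_mem i
    | h1 i β ih =>
      rw [h2, map_mul, map_mul, h1]
      exact mul_mem (mul_mem (D.dot_mem i) ih) (D.dot_mem i)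
  have h : (Subgroup.closure (Set.range f)).map Φ = D.W := by
    apply le_antisymm
    · rw [MonoidHom.map_closure, Subgroup.closure_le]
      rintro _ ⟨_, ⟨α, rfl⟩, rfl⟩
      exact hm α
    · rw [RD.W, Subgroup.closure_le]
      rintro _ ⟨i, rfl⟩
      exact ⟨_, Subgroup.subset_closure ⟨D.s i, rfl⟩, h1 i⟩
  rw [RD.wn, ← h]
  exact Subgroup.card_map_of_injective hΦ

theorem toRD_wn : (toRD P b c hsc).wn = Nat.card P.weylGroup := by
  refine finB_abs (toRD P b c hsc) (finB_Phi P c (toRD P b c hsc).ρ) (finB_Phi_inj P c _)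
    (RootPairing.Equiv.reflection P) (fun i => Equiv.ext fun μ => ?_) (finB_conj P)
  exact (finB_Phi_refl P c _ _ μ).trans ((toRD P b c hsc).dotf_eq i μ).symm

end Pool.Agent.P.Bf04
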