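import Pool.Agent.P.MP_bf0464_al.H.GDef

/-! Characters of graded modules and the relations they give. -/

namespace Pool.Agent.P.Bf04

open Matrix Module

attribute [local instance 100] LieRing.ofAssociativeRing

universe u v w

theorem idem_add {k M₁ M₂ M₃ : Type*} [Field k] [AddCommGroup M₁] [Module k M₁] [AddCommGroup M₂]
    [Module k M₂] [AddCommGroup M₃] [Module k M₃] {f : M₁ →ₗ[k] M₂} {g : M₂ →ₗ[k] M₃}
    (hf : Function.Injective f) (hg : Function.Surjective g) (h : Function.Exact f g)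
    {e₁ : End k M₁} {e₂ : End k M₂} {e₃ : End k M₃} (h₂ : ∀ m, e₂ (e₂ m) = e₂ m)
    (hfe : ∀ m, f (e₁ m) = e₂ (f m)) (hge : ∀ m, g (e₂ m) = e₃ (g m))
    [FiniteDimensional k (LinearMap.range e₂)] : finrank k (LinearMap.range e₂)
      = finrank k (LinearMap.range e₁) + finrank k (LinearMap.range e₃) := by
  let f' : LinearMap.range e₁ →ₗ[k] LinearMap.range e₂ :=
    f.restrict (by rintro _ ⟨m, rfl⟩; exact ⟨_, (hfe m).symm⟩)
  let g' : LinearMap.range e₂ →ₗ[k] LinearMap.range e₃ :=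
    g.restrict (by rintro _ ⟨m, rfl⟩; exact ⟨_, (hge m).symm⟩)
  have h1 : Function.Injective f' := fun a b hab => Subtype.ext (hf (congrArg Subtype.val hab))
  have h3 : LinearMap.range g' = ⊤ := by
    rw [LinearMap.range_eq_top]
    rintro ⟨_, m, rfl⟩
    obtain ⟨m, rfl⟩ := hg m
    exact ⟨⟨_, m, rfl⟩, Subtype.ext (hge m)⟩
  have h4 : LinearMap.ker g' = LinearMap.range f' := by
    ext ⟨_, m, rfl⟩
    constructor
    · intro hm
      obtain ⟨y, hy⟩ := (h _).1 (congrArg Subtype.val hm)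
      refine ⟨⟨_, y, rfl⟩, Subtype.ext ?_⟩
      change f (e₁ y) = e₂ m
      rw [hfe, hy]
      exact h₂ m
    · rintro ⟨y, hy⟩
      exact Subtype.ext ((h _).2 ⟨y, congrArg Subtype.val hy⟩)
  rw [← LinearMap.finrank_range_add_finrank_ker g', h3, h4, LinearMap.finrank_range_of_inj h1,
    finrank_top, add_comm]

theorem GChar_bij {k M₁ M₂ : Type*} [Field k] [AddCommGroup M₁] [Module k M₁] [AddCommGroup M₂]
    [Module k M₂] {f : M₁ →ₗ[k] M₂} (hf : Function.Injective f) (hs : Function.Surjective f)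
    {e₁ : End k M₁} {e₂ : End k M₂} (hfe : ∀ m, f (e₁ m) = e₂ (f m)) :
    finrank k (LinearMap.range e₂) = finrank k (LinearMap.range e₁) := by
  have h : LinearMap.range e₂ = (LinearMap.range e₁).map f := by
    ext m
    constructor
    · rintro ⟨m, rfl⟩
      obtain ⟨m, rfl⟩ := hs m
      exact ⟨_, ⟨m, rfl⟩, hfe m⟩
    · rintro ⟨_, ⟨m, rfl⟩, rfl⟩
      exact ⟨_, (hfe m).symm⟩
  rw [h]
  exact (Submodule.equivMapOfInjective f hf _).finrank_eq.symm

section Proj

variable {k M M' : Type*} [Field k] [AddCommGroup M] [Module k M] [AddCommGroup M'] [Module k M']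
  {σ : Type} {p : ℕ}

/-- the product of the operators `1 - A ^ (p - 1)` -/
def GChar_pl (p : ℕ) (A : σ → End k M) (l : List σ) : End k M :=
  (l.map fun a => 1 - A a ^ (p - 1)).prod

theorem GChar_pow {A : End k M} {A' : End k M'} {g : M →ₗ[k] M'} (h : ∀ m, g (A m) = A' (g m))
    (r : ℕ) (m : M) : g ((A ^ r) m) = (A' ^ r) (g m) := by
  induction r generalizing m with
  | zero => rfl
  | succ r ih => rw [pow_succ, pow_succ, End.mul_apply, End.mul_apply, ih, h]

theorem GChar_pl_cons (A : σ → End k M) (a : σ) (l : List σ) (m : M) :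
    GChar_pl p A (a :: l) m = GChar_pl p A l m - (A a ^ (p - 1)) (GChar_pl p A l m) := rfl

theorem GChar_pl_hom {A : σ → End k M} {A' : σ → End k M'} {g : M →ₗ[k] M'}
    (h : ∀ a m, g (A a m) = A' a (g m)) (l : List σ) (m : M) :
    g (GChar_pl p A l m) = GChar_pl p A' l (g m) := by
  induction l with
  | nil => rfl
  | cons a l ih => rw [GChar_pl_cons, GChar_pl_cons, map_sub, GChar_pow (h a), ih]

theorem GChar_pl_mem {A : σ → End k M} {U : Submodule k M} (h : ∀ a, ∀ m ∈ U, A a m ∈ U)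
    (l : List σ) {m : M} (hm : m ∈ U) : GChar_pl p A l m ∈ U := by
  induction l with
  | nil => exact hm
  | cons a l ih =>
    rw [GChar_pl_cons]
    exact sub_mem ih (End.pow_apply_mem_of_forall_mem _ (h a) _ ih)

theorem GChar_pl_fix (hp : 2 ≤ p) {A : σ → End k M} {m : M} (h : ∀ a, A a m = 0) (l : List σ) :
    GChar_pl p A l m = m := by
  obtain ⟨q, rfl⟩ : ∃ q, p = q + 2 := ⟨p - 2, by omega⟩
  induction l with
  | nil => rfl
  | cons a l ih =>
    rw [GChar_pl_cons, ih]
    change m - (A a ^ (q + 1)) m = m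
    rw [pow_succ, End.mul_apply, h, map_zero, sub_zero]

theorem GChar_pl_kill (hp : 2 ≤ p) {A : σ → End k M} (hc : ∀ a b m, A a (A b m) = A b (A a m))
    (h : ∀ a, A a ^ p = A a) (l : List σ) (m : M) : ∀ a ∈ l, A a (GChar_pl p A l m) = 0 := by
  obtain ⟨q, rfl⟩ : ∃ q, p = q + 1 := ⟨p - 1, by omega⟩
  induction l with
  | nil => simp
  | cons b l ih =>
    intro a ha
    rw [GChar_pl_cons, map_sub]
    rcases List.mem_cons.1 ha with rfl | ha
    · rw [← End.mul_apply (A a) (A a ^ _), ← pow_succ', Nat.add_sub_cancel, h, sub_self]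
    · rw [GChar_pow (hc a b), ih a ha, map_zero, sub_zero]

variable [Fact p.Prime] [CharP k p] [Fintype σ]

/-- the projection to a simultaneous eigenspace -/
noncomputable def GChar_pj (f : σ → End k M) (x : σ → ZMod p) : End k M :=
  GChar_pl p (fun a => f a - algebraMap k _ (ZMod.cast (x a) : k)) Finset.univ.toList

omit [Fintype σ] [CharP k p] [Fact p.Prime] in
theorem GChar_mem_wsp {f : σ → End k M} {x : σ → ZMod p} {m : M} :
    m ∈ wsp f x ↔ ∀ a, (f a - algebraMap k (End k M) (ZMod.cast (x a) : k)) m = 0 := by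
  simp only [wsp, Submodule.mem_iInf, End.mem_eigenspace_iff, LinearMap.sub_apply,
    Module.algebraMap_end_apply, sub_eq_zero]

theorem GChar_pj_mem {f : σ → End k M} (hc : ∀ a b m, f a (f b m) = f b (f a m))
    (h : ∀ a, f a ^ p = f a) (x : σ → ZMod p) (m : M) : GChar_pj f x m ∈ wsp f x := by
  refine GChar_mem_wsp.2 fun a => GChar_pl_kill (Fact.out : p.Prime).two_le
    (A := fun a => f a - algebraMap k _ (ZMod.cast (x a) : k)) (fun a b m => ?_)
    (fun a => ?_) _ m a (Finset.mem_toList.2 (Finset.mem_univ a))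
  · simp only [LinearMap.sub_apply, Module.algebraMap_end_apply, map_sub, map_smul, hc a b,
      smul_sub, smul_comm (ZMod.cast (x a) : k)]
    abel
  · have h1 : (ZMod.cast (x a) : k) ^ p = ZMod.cast (x a) := by
      rw [← ZMod.cast_pow dvd_rfl, ZMod.pow_card]
    have h2 := congrArg (Polynomial.aeval (f a))
      (sub_pow_char (Polynomial.X : Polynomial k) (Polynomial.C (ZMod.cast (x a) : k)))
    rw [← map_pow Polynomial.C, h1] at h2
    simpa only [map_pow, map_sub, Polynomial.aeval_X, Polynomial.aeval_C, h] using h2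

omit [CharP k p] in
theorem GChar_pj_fix {f : σ → End k M} {x : σ → ZMod p} {m : M} (hm : m ∈ wsp f x) :
    GChar_pj f x m = m :=
  GChar_pl_fix (Fact.out : p.Prime).two_le (GChar_mem_wsp.1 hm) _

theorem GChar_pj_shift {f : σ → End k M} {f' : σ → End k M'} {g : M →ₗ[k] M'} {c : σ → ℤ}
    (h : ∀ a m, f' a (g m) = g (f a m) + (c a : k) • g m) (x : σ → ZMod p) (m : M) :
    g (GChar_pj f (x - red p c) m) = GChar_pj f' x (g m) := by
  refine GChar_pl_hom (fun a m => ?_) _ m
  have h1 : (ZMod.cast ((x - red p c) a) : k) = ZMod.cast (x a) - (c a : k) := by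
    rw [Pi.sub_apply, ZMod.cast_sub dvd_rfl, red, ZMod.cast_intCast dvd_rfl]
  simp only [LinearMap.sub_apply, Module.algebraMap_end_apply, map_sub, map_smul, h, h1]
  abel

omit [CharP k p] [Fact p.Prime] in
theorem GChar_pj_hom {f : σ → End k M} {f' : σ → End k M'} {g : M →ₗ[k] M'}
    (h : ∀ a m, g (f a m) = f' a (g m)) (x : σ → ZMod p) (m : M) :
    g (GChar_pj f x m) = GChar_pj f' x (g m) := by
  refine GChar_pl_hom (fun a m => ?_) _ m
  simp only [LinearMap.sub_apply, Module.algebraMap_end_apply, map_sub, map_smul, h]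

theorem GChar_range {f : σ → End k M} (hc : ∀ a b m, f a (f b m) = f b (f a m))
    (h : ∀ a, f a ^ p = f a) {P : End k M} (hP : ∀ m, P (P m) = P m)
    (hPf : ∀ a m, P (f a m) = f a (P m)) (x : σ → ZMod p) :
    LinearMap.range (P * GChar_pj f x) = LinearMap.range P ⊓ wsp f x := by
  ext m
  constructor
  · rintro ⟨m, rfl⟩
    refine ⟨⟨_, rfl⟩, ?_⟩
    rw [End.mul_apply, GChar_pj_hom hPf]
    exact GChar_pj_mem hc h x _
  · rintro ⟨⟨m, rfl⟩, hm⟩
    exact ⟨P m, by rw [End.mul_apply, GChar_pj_fix hm, hP]⟩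

end Proj

namespace Trg

variable {k : Type u} [Field k] {L : Type u} [LieRing L] [LieAlgebra k L] {n p : ℕ} [Fact p.Prime]
  [CharP k p] {T : Trg k L n p} {σ : Type} [Fintype σ] {H : σ → L} {w : Fin n → σ → ℤ}

theorem Cat.fd {R : LRep k L} {G : Grading k R.M} (h : T.Cat R G) (d : ℤ) :
    FiniteDimensional k (LinearMap.range (G.P d)) := by
  obtain ⟨t, ht⟩ := h.bdd
  obtain ⟨W, hW⟩ := (T.Ys R n).exists_isCompl
  have := h.fg.fd_quot
  have : FiniteDimensional k W := (Submodule.quotientEquivOfIsCompl _ _ hW).finiteDimensional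
  have key : ∀ r : ℕ, ∀ d, t - r < d → FiniteDimensional k (LinearMap.range (G.P d)) := by
    intro r
    induction r with
    | zero =>
      intro d hd
      have : G.P d = 0 := LinearMap.ext (ht d (by omega))
      rw [this, LinearMap.range_zero]
      infer_instance
    | succ r ih =>
      intro d hd
      have : ∀ i, FiniteDimensional k (LinearMap.range (G.P (d + T.δ i))) := fun i =>
        ih _ (by have := T.δ_pos i; omega)
      refine Submodule.finiteDimensional_of_le (S₂ := W.map (G.P d) ⊔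
        ⨆ i, (LinearMap.range (G.P (d + T.δ i))).map (R.ρ (T.y i))) ?_
      rintro _ ⟨m, rfl⟩
      obtain ⟨a, ha, b, hb, rfl⟩ := Submodule.mem_sup.1 (hW.sup_eq_top ▸ Submodule.mem_top :
        m ∈ T.Ys R n ⊔ W)
      rw [map_add]
      refine add_mem (Submodule.mem_sup_right ?_) (Submodule.mem_sup_left ⟨b, hb, rfl⟩)
      refine T.Ys_le R (U := Submodule.comap (G.P d)
        (⨆ i, (LinearMap.range (G.P (d + T.δ i))).map (R.ρ (T.y i)))) (fun i _ m => ?_) ha
      have h1 := h.gr _ _ (T.y_mem i) (d + T.δ i) m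
      rw [add_neg_cancel_right] at h1
      rw [Submodule.mem_comap, h1]
      exact Submodule.mem_iSup_of_mem i ⟨_, ⟨m, rfl⟩, rfl⟩
  exact key (t - d + 1).toNat d (by omega)

/-- the projection to a given degree and weight -/
noncomputable def GChar_E (H : σ → L) (R : LRep k L) (G : Grading k R.M)
    (x : ℤ × (σ → ZMod p)) : End k R.M := G.P x.1 * GChar_pj (fun a => R.ρ (H a)) x.2

omit [Fact p.Prime] [CharP k p] [Fintype σ] in
theorem GChar_comm (h : T.Tor H w) (R : LRep k L) (a b : σ) (m : R.M) :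
    R.ρ (H a) (R.ρ (H b) m) = R.ρ (H b) (R.ρ (H a) m) := by
  rw [R.comm_apply, h.comm, map_zero, LinearMap.zero_apply, add_zero]

omit [Fact p.Prime] [CharP k p] [Fintype σ] in
theorem GChar_PH (h : T.Tor H w) {R : LRep k L} {G : Grading k R.M} (hG : T.Gr R G) (d : ℤ)
    (a : σ) (m : R.M) : G.P d (R.ρ (H a) m) = R.ρ (H a) (G.P d m) := by
  have := hG _ _ (h.mem a) d m
  rwa [add_zero] at this

theorem GChar_E_range (h : T.Tor H w) {R : LRep k L} {G : Grading k R.M} (hC : T.Cat R G)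
    (x : ℤ × (σ → ZMod p)) : LinearMap.range (GChar_E H R G x) =
      LinearMap.range (G.P x.1) ⊓ wsp (fun a => R.ρ (H a)) x.2 :=
  GChar_range (GChar_comm h R) (h.pow R hC.rel) (G.PP_self _) (GChar_PH h hC.gr _) _

theorem GChar_chG (h : T.Tor H w) {R : LRep k L} {G : Grading k R.M} (hC : T.Cat R G)
    (x : ℤ × (σ → ZMod p)) : chG H R G x = finrank k (LinearMap.range (GChar_E H R G x)) := by
  rw [GChar_E_range h hC, chG]

theorem GChar_E_idem (h : T.Tor H w) {R : LRep k L} {G : Grading k R.M} (hC : T.Cat R G)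
    (x : ℤ × (σ → ZMod p)) (m : R.M) :
    GChar_E H R G x (GChar_E H R G x m) = GChar_E H R G x m := by
  have h1 : GChar_E H R G x m ∈ LinearMap.range (G.P x.1) ⊓ wsp (fun a => R.ρ (H a)) x.2 :=
    GChar_E_range h hC x ▸ ⟨m, rfl⟩
  generalize GChar_E H R G x m = u at h1 ⊢
  obtain ⟨⟨u, rfl⟩, h2⟩ := h1
  rw [GChar_E, End.mul_apply, GChar_pj_fix h2, G.PP_self]

omit [CharP k p] [Fact p.Prime] in
theorem GChar_E_hom {R R' : LRep k L} {G : Grading k R.M} {G' : Grading k R'.M}
    {f : R.M →ₗ[k] R'.M} (hf : R.IsHom R' f) (hG : G.IsHom G' f) (x : ℤ × (σ → ZMod p))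
    (m : R.M) : f (GChar_E H R G x m) = GChar_E H R' G' x (f m) := by
  rw [GChar_E, GChar_E, End.mul_apply, End.mul_apply, hG, GChar_pj_hom fun a => hf (H a)]

theorem GChar_E_fd {R : LRep k L} {G : Grading k R.M} (hC : T.Cat R G) (x : ℤ × (σ → ZMod p)) :
    FiniteDimensional k (LinearMap.range (GChar_E H R G x)) := by
  have := hC.fd x.1
  exact Submodule.finiteDimensional_of_le (LinearMap.range_comp_le_range _ (G.P x.1))

theorem chG_add (h : T.Tor H w) : T.Addv fun R G => chG (p := p) H R G := by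
  intro R₁ R₂ R₃ G₁ G₂ G₃ f g h₁ h₂ h₃ hf hg hf' hg' hi hs hex
  funext x
  have := GChar_E_fd (H := H) h₂ x
  change chG H R₂ G₂ x = chG H R₁ G₁ x + chG H R₃ G₃ x
  rw [GChar_chG h h₁, GChar_chG h h₂, GChar_chG h h₃, idem_add hi hs hex (GChar_E_idem h h₂ x)
    (GChar_E_hom hf hf' x) (GChar_E_hom hg hg' x), Nat.cast_add]

omit [Fact p.Prime] [CharP k p] [Fintype σ] in
theorem GChar_Hy (h : T.Tor H w) (R : LRep k L) (i : Fin n) (a : σ) (m : R.M) :
    R.ρ (H a) (R.ρ (T.y i) m) = R.ρ (T.y i) (R.ρ (H a) m) + (w i a : k) • R.ρ (T.y i) m := by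
  rw [R.comm_apply, h.y, map_smul, LinearMap.smul_apply]

omit [Fact p.Prime] [CharP k p] in
theorem GChar_E_Ys (h : T.Tor H w) {R : LRep k L} {G : Grading k R.M} (hG : T.Gr R G)
    (x : ℤ × (σ → ZMod p)) (s : ℕ) : T.Ys R s ≤ (T.Ys R s).comap (GChar_E H R G x) := by
  intro m hm
  refine T.Ys_sub hG s _ _ (GChar_pl_mem (fun a m hm => sub_mem ?_ (Submodule.smul_mem _ _ hm))
    _ hm)
  refine T.Ys_le R (U := (T.Ys R s).comap (R.ρ (H a))) (fun i hi m => ?_) hm
  rw [Submodule.mem_comap, GChar_Hy h]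
  exact add_mem (T.y_mem_Ys R hi _) (Submodule.smul_mem _ _ (T.y_mem_Ys R hi _))

theorem GChar_E_y (h : T.Tor H w) {R : LRep k L} {G : Grading k R.M} (hG : T.Gr R G)
    (x : ℤ × (σ → ZMod p)) (i : Fin n) (m : R.M) :
    R.ρ (T.y i) (GChar_E H R G (x - ((-T.δ i : ℤ), red p (w i))) m) =
      GChar_E H R G x (R.ρ (T.y i) m) := by
  rw [GChar_E, GChar_E, End.mul_apply, End.mul_apply, ← hG _ _ (T.y_mem i), Prod.fst_sub,
    Prod.snd_sub, sub_add_cancel, GChar_pj_shift (GChar_Hy h R i)]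

omit [Fact p.Prime] [CharP k p] in
theorem GChar_den {Γ : Type} [AddCommGroup Γ] {R : LRep k L} (hR : T.Reg R n)
    {E : Γ → End k R.M} {wy : Fin n → Γ} (hYs : ∀ x s, T.Ys R s ≤ (T.Ys R s).comap (E x))
    (hid : ∀ x m, E x (E x m) = E x m)
    (hy : ∀ x i m, R.ρ (T.y i) (E (x - wy i) m) = E x (R.ρ (T.y i) m))
    (hfd : ∀ x, FiniteDimensional k (LinearMap.range (E x))) (s : ℕ) (hs : s ≤ n) (x : Γ) :
    den (Finset.univ.filter fun i : Fin n => i.val < s) wy
      (fun x => finrank k (LinearMap.range (E x))) x = finrank k (LinearMap.range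
        ((T.Ys R s).mapQ (T.Ys R s) (E x) (hYs x s))) := by
  induction s generalizing x with
  | zero =>
    rw [Finset.filter_false_of_mem fun i _ => Nat.not_lt_zero _, den_empty]
    refine congrArg Nat.cast (GChar_bij (f := (T.Ys R 0).mkQ) ?_ (Submodule.mkQ_surjective _)
      fun m => rfl).symm
    rw [← LinearMap.ker_eq_bot, Submodule.ker_mkQ, Ys_zero]
  | succ s ih =>
    have h1 : (Finset.univ.filter fun i : Fin n => i.val < s + 1) =
        insert ⟨s, hs⟩ (Finset.univ.filter fun i : Fin n => i.val < s) := by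
      ext i
      simp only [Finset.mem_filter, Finset.mem_univ, true_and, Finset.mem_insert, Fin.ext_iff]
      omega
    rw [h1, den_insert (by simp), ih (by omega), ih (by omega), sub_eq_iff_eq_add', ← Nat.cast_add]
    have := hfd x
    have : FiniteDimensional k (LinearMap.range
        ((T.Ys R s).mapQ (T.Ys R s) (E x) (hYs x s))) := by
      refine Submodule.finiteDimensional_of_le
        (S₂ := (LinearMap.range (E x)).map (T.Ys R s).mkQ) ?_
      rintro _ ⟨m, rfl⟩
      obtain ⟨m, rfl⟩ := Submodule.mkQ_surjective _ m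
      exact ⟨_, ⟨m, rfl⟩, rfl⟩
    refine congrArg Nat.cast (idem_add
      (f := (T.Ys R s).mapQ (T.Ys R s) (R.ρ (T.y ⟨s, hs⟩)) fun m hm => T.Ys_stable R _ _ hm)
      (g := (T.Ys R s).mapQ (T.Ys R (s + 1)) LinearMap.id (T.Ys_mono R (Nat.le_succ s)))
      ?_ ?_ ?_ ?_ ?_ ?_)
    · rw [injective_iff_map_eq_zero]
      intro m hm
      obtain ⟨m, rfl⟩ := Submodule.mkQ_surjective _ m
      exact (Submodule.Quotient.mk_eq_zero _).2
        (hR ⟨s, hs⟩ hs m ((Submodule.Quotient.mk_eq_zero _).1 hm))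
    · intro m
      obtain ⟨m, rfl⟩ := Submodule.mkQ_surjective _ m
      exact ⟨(T.Ys R s).mkQ m, rfl⟩
    · intro m
      obtain ⟨m, rfl⟩ := Submodule.mkQ_surjective _ m
      constructor
      · intro hm
        obtain ⟨m', hm'⟩ := T.mem_Ys_succ R ⟨s, hs⟩ ((Submodule.Quotient.mk_eq_zero _).1 hm)
        exact ⟨(T.Ys R s).mkQ m', ((Submodule.Quotient.eq _).2 hm').symm⟩
      · rintro ⟨m', hm'⟩
        obtain ⟨m', rfl⟩ := Submodule.mkQ_surjective _ m'
        rw [← hm']
        exact (Submodule.Quotient.mk_eq_zero _).2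
          (T.y_mem_Ys R (i := ⟨s, hs⟩) (Nat.lt_succ_self s) m')
    · intro m
      obtain ⟨m, rfl⟩ := Submodule.mkQ_surjective _ m
      exact congrArg (T.Ys R s).mkQ (hid x m)
    · intro m
      obtain ⟨m, rfl⟩ := Submodule.mkQ_surjective _ m
      exact congrArg (T.Ys R s).mkQ (hy x ⟨s, hs⟩ m)
    · intro m
      obtain ⟨m, rfl⟩ := Submodule.mkQ_surjective _ m
      simp only [Submodule.mkQ_apply, Submodule.mapQ_apply, LinearMap.id_apply]

theorem den_ind (h : T.Tor H w) {E : LRep k T.par} (hE : T.Adm E) {G : Grading k E.M}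
    (hG : T.GrP E G) {j : ℤ} (hj : ∀ m, G.P j m = m) (x : ℤ × (σ → ZMod p)) :
    den Finset.univ (fun i => ((-T.δ i : ℤ), red p (w i))) (chG H (T.Ind E) (T.IndG G)) x
      = if x.1 = j then T.chP h.mem E x.2 else 0 := by
  have := hE.fd
  have hC := T.Ind_cat hG hE.rel
  have h1 := GChar_den (T.Ind_reg E) (GChar_E_Ys h hC.gr) (GChar_E_idem h hC)
    (GChar_E_y h hC.gr) (GChar_E_fd hC) n le_rfl x
  rw [Finset.filter_true_of_mem fun i _ => i.2, ← funext (GChar_chG h hC)] at h1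
  let f : σ → End k E.M := fun a => E.ρ ⟨H a, T.mem_par_of_gr le_rfl (h.mem a)⟩
  have hf : ∀ a m, T.inc E (f a m) = (T.Ind E).ρ (H a) (T.inc E m) := fun a m =>
    (T.inc_par E ⟨H a, T.mem_par_of_gr le_rfl (h.mem a)⟩ m).symm
  have h2 := GChar_bij (f := (T.Ys (T.Ind E) n).mkQ ∘ₗ T.inc E) (e₁ := G.P x.1 * GChar_pj f x.2)
    (e₂ := (T.Ys (T.Ind E) n).mapQ (T.Ys (T.Ind E) n) (GChar_E H (T.Ind E) (T.IndG G) x)
      (GChar_E_Ys h hC.gr x n)) ?_ ?_ ?_
  · rw [h1, h2, GChar_range (fun a b m => T.inc_inj E ?_) (fun a => LinearMap.ext fun m =>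
      T.inc_inj E ?_) (G.PP_self _) fun a m => ?_]
    · split_ifs with hx
      · have : LinearMap.range (G.P x.1) = ⊤ := LinearMap.range_eq_top.2 fun m => ⟨m, hx ▸ hj m⟩
        rw [this, top_inf_eq]
        rfl
      · have : G.P x.1 = 0 := LinearMap.ext fun m => by
          rw [← hj m, G.PP, if_neg hx]
          rfl
        rw [this, LinearMap.range_zero, bot_inf_eq, finrank_bot, Nat.cast_zero]
    · rw [hf, hf, hf, hf, GChar_comm h]
    · rw [GChar_pow (hf a), hf, h.pow _ hC.rel]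
    · have := hG 0 ⟨H a, T.mem_par_of_gr le_rfl (h.mem a)⟩ (h.mem a) x.1 m
      rwa [add_zero] at this
  · rw [injective_iff_map_eq_zero]
    intro m hm
    have h3 := (Submodule.Quotient.mk_eq_zero _).1 hm
    rw [Ind_Ys] at h3
    have h4 := (Finsupp.mem_supported' k (Finsupp.single (0 : Multiset (Fin n)) m)).1 h3 0
      (by simp)
    rwa [Finsupp.single_eq_same] at h4
  · intro m
    obtain ⟨m, rfl⟩ := Submodule.mkQ_surjective _ m
    obtain ⟨v, hv⟩ := T.sub_inc_mem E m
    exact ⟨v, ((Submodule.Quotient.eq _).2 hv).symm⟩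
  · intro m
    rw [LinearMap.comp_apply, LinearMap.comp_apply, Submodule.mkQ_apply, Submodule.mkQ_apply,
      Submodule.mapQ_apply, End.mul_apply, T.IndG_inc G, GChar_pj_hom hf, GChar_E, End.mul_apply]

theorem char_rel (h : T.Tor H w) {V : Type*} [AddCommGroup V] [Module ℚ V] {v : LRep k L → V}
    (hv : T.Addu v) {R : LRep k L} {G : Grading k R.M} (hC : T.Cat R G) :
    ∃ (m : ℕ) (c : Fin m → ℚ) (E : Fin m → LRep k T.par) (j : Fin m → ℤ), (∀ l, T.Adm (E l)) ∧
      v R = ∑ l, c l • v (T.Ind (E l)) ∧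
      ∀ x, den Finset.univ (fun i => ((-T.δ i : ℤ), red p (w i))) (chG H R G) x
        = ∑ l, c l * if x.1 = j l then T.chP h.mem (E l) x.2 else 0 := by
  have hφ : T.Addv fun R G => ((v R, den Finset.univ (fun i => ((-T.δ i : ℤ), red p (w i)))
      (chG H R G)) : V × (ℤ × (σ → ZMod p) → ℚ)) := by
    intro R₁ R₂ R₃ G₁ G₂ G₃ f g h₁ h₂ h₃ hf hg hf' hg' hi hs hex
    refine Prod.ext (hv R₁ R₂ R₃ f g hf hg hi hs hex h₂.fg) (funext fun x => ?_)
    have h1 : chG H R₂ G₂ = chG H R₁ G₁ + chG H R₃ G₃ :=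
      chG_add h R₁ R₂ R₃ G₁ G₂ G₃ f g h₁ h₂ h₃ hf hg hf' hg' hi hs hex
    simp only [h1, den, Prod.snd_add, Pi.add_apply, mul_add, Finset.sum_add_distrib]
  obtain ⟨m, c, g, hg⟩ := Submodule.mem_span_set'.1
    (hφ.mem T (Fact.out : p.Prime).two_le R G hC)
  choose E G' hE hG' hj hEq using fun l => (g l).2
  choose j hj using hj
  refine ⟨m, c, E, j, hE, ?_, fun x => ?_⟩
  · have h1 := congrArg Prod.fst hg
    rw [Prod.fst_sum] at h1
    exact h1.symm.trans (Finset.sum_congr rfl fun l _ => by rw [← hEq l]; rfl)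
  · have h1 := congrFun (congrArg Prod.snd hg) x
    rw [Prod.snd_sum, Finset.sum_apply] at h1
    refine h1.symm.trans (Finset.sum_congr rfl fun l _ => ?_)
    rw [← hEq l, ← den_ind h (hE l) (hG' l) (hj l) x]
    rfl

end Trg

end Pool.Agent.P.Bf04
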