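import Pool.Agent.P.MP_bf0464_al.H.T2IA
import Pool.Agent.P.MP_bf0464_al.H.RepL

/-! Definitions for the subregular case: characters, weighted modules, truncated Verma modules. -/

namespace Pool.Agent.P.Bf04

open Matrix Module

attribute [local instance 100] LieRing.ofAssociativeRing

universe u v w

/-- the product of the difference operators for the shifts w i, i in s -/
def den {I Γ : Type*} [AddCommGroup Γ] (s : Finset I) (w : I → Γ) (F : Γ → ℚ) (x : Γ) : ℚ :=
  ∑ S ∈ s.powerset, (-1) ^ S.card * F (x - ∑ i ∈ S, w i)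

theorem den_empty {I Γ : Type*} [AddCommGroup Γ] (w : I → Γ) (F : Γ → ℚ) (x : Γ) :
    den ∅ w F x = F x := by simp [den]

theorem den_insert {I Γ : Type*} [DecidableEq I] [AddCommGroup Γ] {s : Finset I} {i : I}
    (h : i ∉ s) (w : I → Γ) (F : Γ → ℚ) (x : Γ) :
    den (insert i s) w F x = den s w F x - den s w F (x - w i) := by
  rw [den, Finset.sum_powerset_insert h, sub_eq_add_neg (den _ _ _ _), den, den,
    ← Finset.sum_neg_distrib]
  refine congrArg _ (Finset.sum_congr rfl fun S hS => ?_)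
  have : i ∉ S := fun h' => h (Finset.mem_powerset.1 hS h')
  rw [Finset.card_insert_of_notMem this, Finset.sum_insert this, pow_succ, sub_sub]
  ring

/-- reduction of a weight -/
def red (p : ℕ) {σ : Type} (μ : σ → ℤ) : σ → ZMod p := fun a => (μ a : ZMod p)

theorem red_eq_iff {p : ℕ} {σ : Type} {μ ν : σ → ℤ} :
    red p μ = red p ν ↔ ∀ a, (p : ℤ) ∣ μ a - ν a :=
  funext_iff.trans (forall_congr' fun a => (ZMod.intCast_eq_intCast_iff_dvd_sub _ _ _).trans
    dvd_sub_comm)

/-- simultaneous eigenspaces -/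
def wsp {k M : Type*} [Field k] [AddCommGroup M] [Module k M] {σ : Type} {p : ℕ} (f : σ → End k M)
    (x : σ → ZMod p) : Submodule k M := ⨅ a, (f a).eigenspace (ZMod.cast (x a) : k)

namespace Trg

variable {k : Type u} [Field k] {L : Type u} [LieRing L] [LieAlgebra k L] {n p : ℕ}
  (T : Trg k L n p) {σ : Type}

/-- a torus in degree zero -/
structure Tor (H : σ → L) (w : Fin n → σ → ℤ) : Prop where
  mem : ∀ a, H a ∈ T.gr 0
  comm : ∀ a b, ⁅H a, H b⁆ = 0
  y : ∀ a i, ⁅H a, T.y i⁆ = (w i a : k) • T.y i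
  pow : ∀ R : LRep k L, T.Rel R → ∀ a, R.ρ (H a) ^ p = R.ρ (H a)

/-- the graded character -/
noncomputable def chG (H : σ → L) (R : LRep k L) (G : Grading k R.M) (x : ℤ × (σ → ZMod p)) : ℚ :=
  finrank k ↥(LinearMap.range (G.P x.1) ⊓ wsp (fun a => R.ρ (H a)) x.2)

/-- the character of a module over the nonnegative part -/
noncomputable def chP {H : σ → L} (h : ∀ a, H a ∈ T.gr 0) (E : LRep k T.par) (x : σ → ZMod p) : ℚ :=
  finrank k (wsp (fun a => E.ρ ⟨H a, T.mem_par_of_gr le_rfl (h a)⟩) x)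

end Trg

namespace CD

variable (D : CD) (k : Type u) [Field k] (p : ℕ)

/-- the character of a module -/
noncomputable def ch {k : Type u} [Field k] (N : LRep k (D.g k)) (x : D.σ → ZMod p) : ℚ :=
  finrank k (wsp (fun a => N.ρ (D.h k a)) x)

/-- restricted modules with a weight basis, invariant character and highest weight μ -/
structure WM (μ : D.σ → ℤ) where
  τ : Type
  [fτ : Fintype τ]
  [dτ : DecidableEq τ]
  wc : τ → D.Δ → ℤ
  nonneg : ∀ t, 0 ≤ wc t
  top : ∃! t, wc t = 0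
  inv : ∀ i, ∃ π : Equiv.Perm τ, ∀ t, μ - D.wOf (wc (π t)) = D.sr i (μ - D.wOf (wc t))
  φ : D.g k →ₗ⁅k⁆ Matrix τ τ k
  tor : ∀ a, φ (D.h k a) = Matrix.diagonal fun t => ((μ - D.wOf (wc t)) a : k)
  hom : ∀ β t t', φ (D.e k β) t t' ≠ 0 → wc t = wc t' - D.co β
  nil : ∀ β, φ (D.e k β) ^ p = 0

attribute [instance] WM.fτ WM.dτ

/-- the number of basis vectors of a given weight modulo p -/
def cnt {τ : Type} [Fintype τ] (wv : τ → D.σ → ℤ) (x : D.σ → ZMod p) : ℚ :=
  (Finset.univ.filter fun t => red p (wv t) = x).card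

/-- the stabiliser of the weight modulo p is trivial -/
def Free (μ : D.σ → ℤ) : Prop := ∀ w ∈ D.W, red p (w μ) = red p μ → w = 1

/-- minimal among the linked weights that are dominant after the shift -/
def MinDom (μ : D.σ → ℤ) : Prop := (∀ i, 0 ≤ μ ⬝ᵥ D.cr (D.s i) + 1) ∧
  ∀ c : D.Δ → ℤ, 0 ≤ c → D.Link p μ (μ - D.wOf c) →
    (∀ i, 0 ≤ (μ - D.wOf c) ⬝ᵥ D.cr (D.s i) + 1) → c = 0

variable (j : D.Δ)

/-- the lowering operator of the Levi subalgebra of semisimple rank one -/
def fj : (D.levi {j}).g k :=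
  (D.levi {j}).e k ⟨D.neg (D.s j), D.in_neg.2 (D.in_s.2 (Finset.mem_singleton_self j))⟩

variable {k} in
/-- truncated Verma modules -/
structure IsVer (N : LRep k ((D.levi {j}).g k)) (ν : D.σ → ℤ) (n : ℕ) (u : N.M) : Prop where
  hw : (D.levi {j}).IsHW N (fun a => (ν a : k)) u
  nil : (N.ρ (D.fj k j) ^ n) u = 0
  li : LinearIndependent k fun m : Fin n => (N.ρ (D.fj k j) ^ m.1) u
  span : ⊤ ≤ Submodule.span k (Set.range fun m : Fin n => (N.ρ (D.fj k j) ^ m.1) u)

end CD

end Pool.Agent.P.Bf04
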