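import Pool.Agent.P.MP_bf0464_al.H.GVer
import Pool.Agent.P.MP_bf0464_al.H.T2I

/-! Relations between modules induced from truncated Verma modules. -/

namespace Pool.Agent.P.Bf04

open Matrix Module

attribute [local instance 100] LieRing.ofAssociativeRing

universe u v w

namespace Trg

variable {k : Type u} [Field k] {L : Type u} [LieRing L] [LieAlgebra k L] {n p : ℕ}
  {T : Trg k L n p} {V : Type*} [AddCommGroup V] [Module ℚ V] {v : LRep k L → V}

theorem gind_map {N N' : LRep k T.par} (f : N.M →ₗ[k] N'.M) :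
    (Finsupp.mapRange.linearMap f : (T.Ind N).M →ₗ[k] (T.Ind N').M)
      = T.lift (R := T.Ind N') (T.inc N' ∘ₗ f) := by
  refine T.Ind_ext N (fun i => (T.Ind N').ρ (T.y i)) (fun i a => ?_) (T.lift_y _) fun w => ?_
  · rw [Ind_y, Ind_y]
    change Multiset (Fin n) →₀ N.M at a
    change Finsupp.mapRange.linearMap f (T.H.Yo N.M i a)
      = T.H.Yo N'.M i (Finsupp.mapRange.linearMap f a)
    induction a using Finsupp.induction_linear with
    | zero => simp
    | add a b ha hb => simp only [map_add, ha, hb]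
    | single s w =>
      have e : ∀ (t : Multiset (Fin n)) (x : N.M), Finsupp.mapRange.linearMap f
          (Finsupp.single t x) = Finsupp.single t (f x) := fun t x =>
        Finsupp.mapRange_single (hf := map_zero f)
      rw [e, Neg.Yo_single, Neg.Yo_single]
      induction T.H.Y i (Finsupp.single s 1) using Finsupp.induction_linear with
      | zero => simp
      | add a b ha hb => simp only [map_add, ha, hb]
      | single t c => rw [Neg.tv_single, Neg.tv_single, e, map_smul]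
  · exact (Finsupp.mapRange_single (hf := map_zero f)).trans
      (T.lift_inc (R := T.Ind N') (T.inc N' ∘ₗ f) w).symm

theorem gind_map_hom {N N' : LRep k T.par} {f : N.M →ₗ[k] N'.M} (hf : N.IsHom N' f) :
    (T.Ind N).IsHom (T.Ind N') (Finsupp.mapRange.linearMap f) := by
  rw [gind_map]
  exact T.lift_hom ((T.inc_hom N').comp hf)

theorem Addu.ind (hv : T.Addu v) {N₁ N₂ N₃ : LRep k T.par} [FiniteDimensional k N₂.M]
    {f : N₁.M →ₗ[k] N₂.M} {g : N₂.M →ₗ[k] N₃.M} (hf : N₁.IsHom N₂ f) (hg : N₂.IsHom N₃ g)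
    (hi : Function.Injective f) (hs : Function.Surjective g) (he : Function.Exact f g) :
    v (T.Ind N₂) = v (T.Ind N₁) + v (T.Ind N₃) := by
  refine hv _ _ _ _ _ (gind_map_hom hf) (gind_map_hom hg)
    (Finsupp.mapRange_injective f (map_zero f) hi) (Finsupp.mapRange_surjective g (map_zero g) hs)
    (fun y => ?_) (T.Ind_FG N₂)
  change Multiset (Fin n) →₀ N₂.M at y
  change Finsupp.mapRange g (map_zero g) y = 0
    ↔ y ∈ Set.range (Finsupp.mapRange (α := Multiset (Fin n)) f (map_zero f))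
  rw [Finsupp.range_mapRange, Finsupp.ext_iff]
  exact forall_congr' fun s => he (y s)

theorem Addu.of_tor (hv : T.Addu v) (h0 : ∀ R, T.FG R → ∀ i, T.B R i = 0 → v R = 0)
    {R R' : LRep k L} (hR : T.FG R) (hR' : T.FG R') {f : R.M →ₗ[k] R'.M} {g : R'.M →ₗ[k] R.M}
    (hf : R.IsHom R' f) (i : Fin n) (h1 : ∀ m, g (f m) = T.B R i m)
    (h2 : ∀ m, f (g m) = T.B R' i m) : v R = v R' := by
  have e1 := hv _ R (R'.sub _ hf.range) _ f.rangeRestrict (R.sub_hom _ hf.ker)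
    (fun x m => Subtype.ext (hf x m)) (Submodule.subtype_injective _) f.surjective_rangeRestrict
    (fun y => ⟨fun h => ⟨⟨y, congrArg Subtype.val h⟩, rfl⟩, fun ⟨a, ha⟩ => Subtype.ext (by
      have := a.2
      rw [← ha]
      exact this)⟩) hR
  have e2 := hv _ R' _ _ _ (R'.sub_hom _ hf.range) (R'.quot_hom _ hf.range)
    (Submodule.subtype_injective _) (Submodule.mkQ_surjective _)
    (LinearMap.exact_subtype_mkQ _) hR'
  have z1 : v (R.sub _ hf.ker) = 0 := by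
    refine h0 _ (hR.of_inj T (R.sub_hom _ hf.ker) (Submodule.subtype_injective _)) i
      (LinearMap.ext fun m => Subtype.ext ?_)
    refine ((R.sub_hom _ hf.ker).pow (T.y i) (T.q i) m).trans ((h1 m.1).symm.trans ?_)
    rw [show f m.1 = 0 from m.2, map_zero]
    rfl
  have z2 : v (R'.quot _ hf.range) = 0 := by
    refine h0 _ (hR'.of_surj T (R'.quot_hom _ hf.range) (Submodule.mkQ_surjective _)) i
      (LinearMap.ext fun m => ?_)
    obtain ⟨m, rfl⟩ := (LinearMap.range f).mkQ_surjective m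
    refine ((R'.quot_hom _ hf.range).pow (T.y i) (T.q i) m).symm.trans ?_
    exact (Submodule.Quotient.mk_eq_zero _).2 ⟨g m, h2 m⟩
  rw [e1, e2, z1, z2, zero_add, add_zero]

end Trg

namespace CD

variable {D : CD} {k : Type u} [Field k] {p : ℕ} [Fact p.Prime] [CharP k p] {j : D.Δ}
  {h₀ : D.Std (0 : D.B → k)} {V : Type*} [AddCommGroup V] [Module ℚ V]
  {v : LRep k (D.g k × k) → V} {N N' : LRep k ((D.levi {j}).g k)} {ν : D.σ → ℤ} {u : N.M}
  {u' : N'.M}

theorem gind_j0 (x : (D.levi {j}).g k) (m : N.M) :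
    ((D.trg {j} p h₀).Ind (N.res (D.π0 {j} p h₀))).ρ (D.leviHom {j} k x, 0)
        ((D.trg {j} p h₀).inc (N.res (D.π0 {j} p h₀)) m)
      = (D.trg {j} p h₀).inc (N.res (D.π0 {j} p h₀)) (N.ρ x m) := by
  have e := (D.trg {j} p h₀).inc_par (N.res (D.π0 {j} p h₀)) (D.j0 {j} p h₀ x) m
  refine e.trans (congrArg _ ?_)
  change N.ρ (D.π0 {j} p h₀ (D.j0 {j} p h₀ x)) m = _
  rw [D.π0_j0]

theorem gind_j0_pow (x : (D.levi {j}).g k) (r : ℕ) (m : N.M) :
    (((D.trg {j} p h₀).Ind (N.res (D.π0 {j} p h₀))).ρ (D.leviHom {j} k x, 0) ^ r)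
        ((D.trg {j} p h₀).inc (N.res (D.π0 {j} p h₀)) m)
      = (D.trg {j} p h₀).inc (N.res (D.π0 {j} p h₀)) ((N.ρ x ^ r) m) := by
  induction r with
  | zero => rfl
  | succ r ih => rw [pow_succ', pow_succ', End.mul_apply, End.mul_apply, ih, gind_j0]

theorem gind_hw (h : (D.levi {j}).IsHW N (fun a => (ν a : k)) u) :
    D.IsHW (((D.trg {j} p h₀).Ind (N.res (D.π0 {j} p h₀))).res (D.inl k)) (fun a => (ν a : k))
      ((D.trg {j} p h₀).inc (N.res (D.π0 {j} p h₀)) u) := by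
  refine ⟨fun β hβ => ?_, fun a => ?_⟩
  · by_cases hin : D.In {j} β
    · have e := gind_j0 (h₀ := h₀) (p := p) ((D.levi {j}).e k ⟨β, hin⟩) u
      rw [h.1 ⟨β, hin⟩ ((D.levi_pos {j} _).2 hβ), map_zero, D.leviHom_bv] at e
      exact e
    · have hd : 0 < D.dB (D.dJ {j}) (.inr β) := (D.dJ_pos_iff {j} _).2 ⟨β, rfl, hβ, hin⟩
      have hm := D.bv_mem {j} p h₀ (.inr β)
      have e := (D.trg {j} p h₀).inc_par (N.res (D.π0 {j} p h₀))
        ⟨_, (D.trg {j} p h₀).mem_par_of_gr hd.le hm⟩ u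
      refine e.trans ?_
      change (D.trg {j} p h₀).inc (N.res (D.π0 {j} p h₀)) (N.ρ (D.π0 {j} p h₀ _) u) = 0
      rw [D.π0_pos {j} p h₀ hd _ hm, map_zero, LinearMap.zero_apply, map_zero]
  · have e := gind_j0 (h₀ := h₀) (p := p) ((D.levi {j}).h k a) u
    rw [h.2 a, map_smul, D.leviHom_bv] at e
    exact e

omit [Fact p.Prime] in
theorem gind_low {S : LRep k (D.g k)} {w : S.M} (h : D.IsHW S (fun a => (ν a : k)) w) (i : D.Δ)
    {n : ℕ} (hn : (p : ℤ) ∣ n * (ν ⬝ᵥ D.cr (D.s i) + 1 - n)) :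
    D.IsHW S (fun a => ((ν - (n : ℤ) • D.rt (D.s i)) a : k))
      ((S.ρ (D.e k (D.neg (D.s i))) ^ n) w) := by
  refine ⟨fun β hβ => ?_, fun a => ?_⟩
  · by_cases hne : β = D.s i
    · subst hne
      rcases n with _ | m
      · exact h.1 _ hβ
      · rw [D.hcb_e S.ρ h.2 _ (h.1 _ hβ) m]
        have e := (CharP.intCast_eq_zero_iff k p _).2 hn
        simp only [dotProduct] at e
        push_cast at e
        rw [show ((m : k) + 1) * (∑ a, (ν a : k) * D.cr (D.s i) a - m) = 0 by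
          linear_combination e, zero_smul]
    · exact D.hcb_pos S.ρ h.1 i n β hβ hne
  · rw [D.hcb_h S.ρ h.2]
    congr 1
    simp only [Pi.sub_apply, Pi.smul_apply, smul_eq_mul]
    push_cast
    ring

theorem gind_lift {R : LRep k (D.g k × k)} (hR : (D.trg {j} p h₀).Rel R) {w : R.M}
    (h : D.IsVer j N ν p u) (hw : D.IsHW (R.res (D.inl k)) (fun a => (ν a : k)) w) :
    ∃ f, ((D.trg {j} p h₀).Ind (N.res (D.π0 {j} p h₀))).IsHom R f ∧
      f ((D.trg {j} p h₀).inc (N.res (D.π0 {j} p h₀)) u) = w := by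
  have hp : p ≠ 0 := (Fact.out : p.Prime).ne_zero
  let Q : LRep k ((D.levi {j}).g k) := (R.res (D.trg {j} p h₀).par.incl).res (D.j0 {j} p h₀)
  have hQ : ∀ b, Q.ρ ((D.levi {j}).bv k b) = R.ρ (D.bv k (D.leviB {j} b), 0) := fun b => by
    rw [← D.leviHom_bv]
    rfl
  have hpc : (D.levi {j}).PC p (D.leviχ {j} 0) Q := adm_pc (hR.res _)
  have hnil : Q.ρ (D.fj k j) ^ p = 0 := by
    have e := hpc (.inr (D.gvn j))
    have e0 : Q.ρ ((D.levi {j}).pmb k (.inr (D.gvn j))) = 0 := map_zero _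
    have e1 : D.leviχ {j} (0 : D.B → k) (.inr (D.gvn j)) = 0 := rfl
    rwa [e1, zero_pow hp, zero_smul, add_zero, e0] at e
  obtain ⟨f, hf, hfu⟩ := h.lift (N' := Q) (u' := w)
    ⟨fun β hβ => by rw [hQ]; exact hw.1 β.1 ((D.levi_pos {j} _).1 hβ),
      fun a => by rw [hQ]; exact hw.2 a⟩ (by rw [hnil]; rfl)
  let U : Submodule k R.M := ⨅ (d : ℤ) (_ : 0 < d) (x : (D.trg {j} p h₀).gr d),
    LinearMap.ker (R.ρ x.1)
  have hU : ∀ a, a ∈ U ↔ ∀ d : ℤ, 0 < d → ∀ x ∈ (D.trg {j} p h₀).gr d, R.ρ x a = 0 := fun a => by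
    simp only [U, Submodule.mem_iInf, LinearMap.mem_ker, Subtype.forall]
  have hwU : w ∈ U := (hU w).2 fun d hd x hx => by
    obtain ⟨h1, h2⟩ := (D.t2i_mem {j} p h₀).1 hx
    have e : x = D.inl k x.1 := Prod.ext rfl (h2 (by omega))
    rw [e, D.eq_sum x.1, map_sum, map_sum, LinearMap.sum_apply]
    refine Finset.sum_eq_zero fun b _ => ?_
    rw [map_smul, map_smul, LinearMap.smul_apply]
    by_cases hb : D.dB (D.dJ {j}) b = d
    · obtain ⟨β, rfl, hβ, -⟩ := (D.dJ_pos_iff {j} b).1 (hb ▸ hd)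
      exact smul_eq_zero_of_right _ (hw.1 β hβ)
    · rw [h1 b hb, zero_smul]
  have hst : ∀ y, ∀ a ∈ U, Q.ρ y a ∈ U := fun y a ha => (hU _).2 fun d hd x hx => by
    change R.ρ x (R.ρ (D.leviHom {j} k y, 0) a) = 0
    rw [R.comm_apply, (hU a).1 ha d hd x hx, map_zero, zero_add]
    exact (hU a).1 ha (d + 0) (by omega) _
      ((D.trg {j} p h₀).lie_mem _ _ _ _ hx (D.levi_mem {j} p h₀ y))
  have hfU : ∀ m, f m ∈ U := fun m => by
    refine (h.span.trans ((Submodule.span_le (p := U.comap f)).2 ?_) : ⊤ ≤ U.comap f)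
      (Submodule.mem_top (x := m))
    rintro _ ⟨r, rfl⟩
    change f ((N.ρ (D.fj k j) ^ r.1) u) ∈ U
    rw [hf.pow, hfu]
    induction r.1 with
    | zero => exact hwU
    | succ r ih => rw [pow_succ', End.mul_apply]; exact hst _ _ ih
  have hhom : (N.res (D.π0 {j} p h₀)).IsHom (R.res (D.trg {j} p h₀).par.incl) f := by
    intro x m
    refine (hf (D.π0 {j} p h₀ x) m).trans ?_
    refine (D.trg {j} p h₀).par_induction (LinearMap.eqLocus
      (LinearMap.applyₗ (f m) ∘ₗ (Q.ρ.comp (D.π0 {j} p h₀)).toLinearMap)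
      (LinearMap.applyₗ (f m) ∘ₗ (R.res (D.trg {j} p h₀).par.incl).ρ.toLinearMap))
      (fun d hd x hx => ?_) x
    change R.ρ (D.j0 {j} p h₀ (D.π0 {j} p h₀ x)).1 (f m) = R.ρ x.1 (f m)
    rcases hd.eq_or_lt with rfl | hd'
    · exact congrArg (fun z : (D.trg {j} p h₀).par => R.ρ z.1 (f m)) (D.t2i_j0_π {j} p h₀ x hx)
    · rw [D.π0_pos {j} p h₀ hd' x hx, map_zero, (hU _).1 (hfU m) d hd' _ hx]
      exact LinearMap.congr_fun (map_zero R.ρ) _
  exact ⟨(D.trg {j} p h₀).lift (N := N.res (D.π0 {j} p h₀)) (R := R) f,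
    (D.trg {j} p h₀).lift_hom hhom, ((D.trg {j} p h₀).lift_inc _ _).trans hfu⟩

theorem gind_ext {R : LRep k (D.g k × k)} {n : ℕ} (h : D.IsVer j N ν n u)
    {f g : ((D.trg {j} p h₀).Ind (N.res (D.π0 {j} p h₀))).M →ₗ[k] R.M}
    (hf : ((D.trg {j} p h₀).Ind (N.res (D.π0 {j} p h₀))).IsHom R f)
    (hg : ((D.trg {j} p h₀).Ind (N.res (D.π0 {j} p h₀))).IsHom R g)
    (e : f ((D.trg {j} p h₀).inc (N.res (D.π0 {j} p h₀)) u)
      = g ((D.trg {j} p h₀).inc (N.res (D.π0 {j} p h₀)) u)) : f = g := by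
  refine (D.trg {j} p h₀).Ind_ext _ (fun i => R.ρ ((D.trg {j} p h₀).y i)) (fun i => hf _)
    (fun i => hg _) fun m => ?_
  refine LinearMap.congr_fun (h.ext (f := f ∘ₗ (D.trg {j} p h₀).inc (N.res (D.π0 {j} p h₀)))
    (g := g ∘ₗ (D.trg {j} p h₀).inc (N.res (D.π0 {j} p h₀))) fun r _ => ?_) m
  rw [LinearMap.comp_apply, LinearMap.comp_apply, ← gind_j0_pow, hf.pow, hg.pow, e]

theorem gind_B {i : D.Δ} (hi : i ≠ j) : ∃ l, ∀ R : LRep k (D.g k × k),
    (D.trg {j} p h₀).B R l = R.ρ (D.e k (D.neg (D.s i)), 0) ^ p := by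
  have hd : D.dB (D.dJ {j}) (.inr (D.neg (D.s i))) < 0 := (D.dJ_neg_iff {j} _).2
    ⟨_, rfl, fun h => (D.pos_neg_iff _).1 h (D.pos_s i),
      fun h => hi (Finset.mem_singleton.1 (D.in_s.1 (D.in_neg.1 h)))⟩
  refine ⟨((D.en {j}).symm ⟨_, hd⟩).succ, fun R => ?_⟩
  change R.ρ (D.bv k (D.en {j} ((D.en {j}).symm ⟨_, hd⟩)).1, 0) ^ p = _
  rw [Equiv.apply_symm_apply]

/-- a homomorphism between induced modules given by a power of a lowering operator -/
theorem exists_low {i : D.Δ} (hi : i ≠ j) {ν' : D.σ → ℤ} (h : D.IsVer j N ν p u)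
    (h' : D.IsVer j N' ν' p u') {n : ℕ} (hn : (p : ℤ) ∣ n * (ν ⬝ᵥ D.cr (D.s i) + 1 - n))
    (hν : red p ν' = red p (ν - (n : ℤ) • D.rt (D.s i))) :
    ∃ f, ((D.trg {j} p h₀).Ind (N'.res (D.π0 {j} p h₀))).IsHom
        ((D.trg {j} p h₀).Ind (N.res (D.π0 {j} p h₀))) f ∧
      f ((D.trg {j} p h₀).inc (N'.res (D.π0 {j} p h₀)) u')
        = (((D.trg {j} p h₀).Ind (N.res (D.π0 {j} p h₀))).ρ (D.e k (D.neg (D.s i)), 0) ^ n)
          ((D.trg {j} p h₀).inc (N.res (D.π0 {j} p h₀)) u) := by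
  have h1 := gind_low (gind_hw (h₀ := h₀) (p := p) h.hw) i hn
  rw [← (gver_red (k := k)).1 hν] at h1
  exact gind_lift ((D.trg {j} p h₀).Ind_rel _ (relP_π0 (h.pc le_rfl))) h' h1

theorem v_refl (hv : (D.trg {j} p h₀).Addu v)
    (h0 : ∀ R, (D.trg {j} p h₀).FG R → ∀ i, (D.trg {j} p h₀).B R i = 0 → v R = 0) {i : D.Δ}
    (hi : i ≠ j) (h : D.IsVer j N ν p u) (h' : D.IsVer j N' (D.dotf i ν) p u') :
    v ((D.trg {j} p h₀).Ind (N.res (D.π0 {j} p h₀)))
      = v ((D.trg {j} p h₀).Ind (N'.res (D.π0 {j} p h₀))) := by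
  have hp : 0 < p := (Fact.out : p.Prime).pos
  have hp' : (0 : ℤ) < p := by exact_mod_cast hp
  obtain ⟨n, hn⟩ : ∃ n : ℕ, (n : ℤ) = (ν ⬝ᵥ D.cr (D.s i) + 1) % p :=
    ⟨_, Int.toNat_of_nonneg (Int.emod_nonneg _ hp'.ne')⟩
  have hnp : n ≤ p := by
    have := Int.emod_lt_of_pos (ν ⬝ᵥ D.cr (D.s i) + 1) hp'
    omega
  have hd : (p : ℤ) ∣ ν ⬝ᵥ D.cr (D.s i) + 1 - n := by
    rw [hn]
    exact Int.dvd_self_sub_emod
  obtain ⟨f, hf, hfu⟩ := exists_low (h₀ := h₀) hi h h' (n := n) (hd.mul_left _)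
    (red_eq_iff.2 fun a => by
      have : D.dotf i ν a - (ν - (n : ℤ) • D.rt (D.s i)) a
          = (ν ⬝ᵥ D.cr (D.s i) + 1 - n) * -D.rt (D.s i) a := by
        simp only [RD.dotf, Pi.sub_apply, Pi.smul_apply, smul_eq_mul]; ring
      rw [this]; exact hd.mul_right _)
  obtain ⟨g, hg, hgu⟩ := exists_low (h₀ := h₀) hi h' h (n := p - n)
    (Dvd.dvd.mul_left (by
      have : D.dotf i ν ⬝ᵥ D.cr (D.s i) + 1 - ((p - n : ℕ) : ℤ)
          = -(ν ⬝ᵥ D.cr (D.s i) + 1 - n) - p := by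
        simp only [RD.dotf, sub_dotProduct, smul_dotProduct, D.two, smul_eq_mul]
        push_cast [hnp]
        ring
      rw [this]; exact dvd_sub hd.neg_right (dvd_refl _)) _)
    (red_eq_iff.2 fun a => by
      have : ν a - (D.dotf i ν - ((p - n : ℕ) : ℤ) • D.rt (D.s i)) a
          = (ν ⬝ᵥ D.cr (D.s i) + 1 - n + p) * D.rt (D.s i) a := by
        simp only [RD.dotf, Pi.sub_apply, Pi.smul_apply, smul_eq_mul]
        push_cast [hnp]
        ring
      rw [this]; exact (dvd_add hd (dvd_refl _)).mul_right _)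
  obtain ⟨l, hl⟩ := gind_B (p := p) (h₀ := h₀) hi
  have hB : ∀ R : LRep k (D.g k × k), R.IsHom R ((D.trg {j} p h₀).B R l) := fun R x m =>
    LinearMap.congr_fun ((D.trg {j} p h₀).B_comm R l x) m
  have : FiniteDimensional k (N.res (D.π0 {j} p h₀)).M := h.fd
  have : FiniteDimensional k (N'.res (D.π0 {j} p h₀)).M := h'.fd
  refine hv.of_tor h0 ((D.trg {j} p h₀).Ind_FG _) ((D.trg {j} p h₀).Ind_FG _) (g := f) hg l
    (LinearMap.congr_fun (gind_ext h (hf.comp hg) (hB _) ?_))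
    (LinearMap.congr_fun (gind_ext h' (hg.comp hf) (hB _) ?_))
  · rw [LinearMap.comp_apply, hgu, hf.pow, hfu, ← End.mul_apply, ← pow_add, Nat.sub_add_cancel hnp,
      hl]
  · rw [LinearMap.comp_apply, hfu, hg.pow, hgu, ← End.mul_apply, ← pow_add,
      Nat.add_sub_cancel' hnp, hl]

end CD

end Pool.Agent.P.Bf04
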