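import Pool.Agent.P.MP_bf0464_al.H.GDef

/-! Truncated Verma modules in semisimple rank one. -/

namespace Pool.Agent.P.Bf04

open Matrix Module

attribute [local instance 100] LieRing.ofAssociativeRing

universe u v w

theorem gver_last {k M : Type*} [Field k] [AddCommGroup M] [Module k M] (T : End k M) (n : ℕ)
    {v : M} (h : (T ^ n) v = 0) (hv : v ≠ 0) : ∃ r : ℕ, (T ^ r) v ≠ 0 ∧ T ((T ^ r) v) = 0 := by
  induction n with
  | zero => exact absurd h hv
  | succ n ih =>
    by_cases h1 : (T ^ n) v = 0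
    · exact ih h1
    · exact ⟨n, h1, by rwa [pow_succ', Module.End.mul_apply] at h⟩

theorem gver_rank {k M σ : Type*} [Field k] [AddCommGroup M] [Module k M] {n : ℕ}
    (b : Basis (Fin n) k M) (T : σ → End k M) (c : Fin n → σ → k)
    (hT : ∀ a m, T a (b m) = c m a • b m) (y : σ → k) (P : Fin n → Prop) [DecidablePred P]
    (hP : ∀ m, P m ↔ ∀ a, c m a = y a) :
    finrank k ↥(⨅ a, (T a).eigenspace (y a)) = (Finset.univ.filter P).card := by
  have hr : ∀ a v m, b.repr (T a v) m = c m a * b.repr v m := by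
    intro a v m
    have : (b.coord m) ∘ₗ T a = c m a • b.coord m := b.ext fun i => by
      by_cases hi : i = m
      · subst hi; simp [hT]
      · simp [hT, hi]
    exact LinearMap.congr_fun this v
  have e : (⨅ a, (T a).eigenspace (y a)) = Submodule.span k (b '' {m | P m}) := by
    apply le_antisymm
    · intro v hv
      rw [b.mem_span_image]
      intro m hm
      have hm' : b.repr v m ≠ 0 := Finsupp.mem_support_iff.1 hm
      refine (hP m).2 fun a => ?_
      have h1 := Module.End.mem_eigenspace_iff.1 ((Submodule.mem_iInf _).1 hv a)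
      have h2 := hr a v m
      rw [h1, map_smul, Finsupp.smul_apply, smul_eq_mul] at h2
      exact (mul_right_cancel₀ hm' h2).symm
    · rw [Submodule.span_le]
      rintro _ ⟨m, hm, rfl⟩
      refine (Submodule.mem_iInf _).2 fun a => Module.End.mem_eigenspace_iff.2 ?_
      rw [hT, (hP m).1 hm a]
  rw [e, Set.image_eq_range]
  exact (finrank_span_eq_card
    (b.linearIndependent.comp (fun x : {m | P m} => x.1) Subtype.val_injective)).trans
    (Fintype.card_subtype P)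

theorem gver_cast {k : Type*} [Field k] {p : ℕ} [Fact p.Prime] [CharP k p] (z : ℤ) (x : ZMod p) :
    (z : k) = ZMod.cast x ↔ (z : ZMod p) = x := by
  rw [← ZMod.cast_intCast (R := k) (dvd_refl p) z]
  exact (ZMod.castHom_injective (n := p) k).eq_iff

theorem gver_red {k : Type*} [Field k] {p : ℕ} [Fact p.Prime] [CharP k p] {σ : Type}
    {μ ν : σ → ℤ} : red p μ = red p ν ↔ (fun a => (μ a : k)) = fun a => (ν a : k) := by
  rw [funext_iff, funext_iff]
  refine forall_congr' fun a => ?_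
  rw [← ZMod.cast_intCast (R := k) (dvd_refl p) (ν a), gver_cast]
  rfl

namespace CD

variable {D : CD} {k : Type u} [Field k] {p : ℕ} [Fact p.Prime] [CharP k p] {j : D.Δ}
  {N N' : LRep k ((D.levi {j}).g k)} {ν ν' : D.σ → ℤ} {n : ℕ} {u : N.M}

variable (D j) in
/-- the positive root -/
def gvp : (D.levi {j}).ι := ⟨D.s j, D.in_s.2 (Finset.mem_singleton_self j)⟩

variable (D j) in
/-- the negative root -/
def gvn : (D.levi {j}).ι := ⟨D.neg (D.s j), D.in_neg.2 (D.in_s.2 (Finset.mem_singleton_self j))⟩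

variable (D k j) in
/-- the raising operator -/
abbrev gve : (D.levi {j}).g k := (D.levi {j}).e k (D.gvp j)

theorem gver_root (β : (D.levi {j}).ι) : β = D.gvp j ∨ β = D.gvn j := by
  have h : (1 : ℤ) • D.co β.1 = D.co β.1 j • D.co (D.s j) := by
    funext i
    rw [D.co_s]
    by_cases hi : i = j
    · subst hi; simp
    · have := β.2 i (by simpa using hi)
      simp [this, hi]
  exact (D.red' one_ne_zero h).imp Subtype.ext Subtype.ext

theorem gver_ne : D.gvn j ≠ D.gvp j := fun h => D.toRD.neg_ne (D.s j) (congrArg Subtype.val h)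

theorem gver_pos {β : (D.levi {j}).ι} (h : (D.levi {j}).Pos β) : β = D.gvp j := by
  rcases gver_root β with h1 | h1
  · exact h1
  · subst h1
    exact absurd (D.pos_s j) ((D.pos_neg_iff _).1 ((D.levi_pos {j} _).1 h))

theorem gver_ppos : (D.levi {j}).Pos (D.gvp j) := (D.levi_pos {j} _).2 (D.pos_s j)

omit [Fact p.Prime] [CharP k p] in
theorem gver_hf (a : D.σ) :
    ⁅(D.levi {j}).h k a, D.fj k j⁆ = ((-D.rt (D.s j) a : ℤ) : k) • D.fj k j := by
  have := (D.levi {j}).lie_h_e (R := k) a (D.gvn j)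
  have h2 : (D.levi {j}).rt (D.gvn j) = -D.rt (D.s j) := D.toRD.rt_neg (D.s j)
  rw [h2] at this
  exact this

omit [Fact p.Prime] [CharP k p] in
theorem gver_ef : ⁅D.gve k j, D.fj k j⁆
    = ∑ a : D.σ, (D.cr (D.s j) a : k) • (D.levi {j}).h k a :=
  ((D.levi {j}).lie_e_neg (R := k) (D.gvp j)).trans ((D.levi {j}).hv_eq_sum _)

omit [Fact p.Prime] [CharP k p] in
theorem gver_succ (m : ℕ) : (N.ρ (D.fj k j) ^ (m + 1)) u = N.ρ (D.fj k j) ((N.ρ (D.fj k j) ^ m) u) := by
  rw [pow_succ', Module.End.mul_apply]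

omit [Fact p.Prime] [CharP k p] in
theorem gver_H (h : (D.levi {j}).IsHW N (fun a => (ν a : k)) u) (a : D.σ) (m : ℕ) :
    N.ρ ((D.levi {j}).h k a) ((N.ρ (D.fj k j) ^ m) u)
      = ((ν a - m * D.rt (D.s j) a : ℤ) : k) • (N.ρ (D.fj k j) ^ m) u := by
  induction m with
  | zero => simpa using h.2 a
  | succ m ih =>
    rw [gver_succ, N.comm_apply, ih, gver_hf, map_smul, map_smul, LinearMap.smul_apply, ← add_smul]
    congr 1
    push_cast; ring

omit [Fact p.Prime] [CharP k p] in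
theorem gver_E (h : (D.levi {j}).IsHW N (fun a => (ν a : k)) u) (m : ℕ) :
    N.ρ (D.gve k j) ((N.ρ (D.fj k j) ^ m) u)
      = ((m * (ν ⬝ᵥ D.cr (D.s j) + 1 - m) : ℤ) : k) • (N.ρ (D.fj k j) ^ (m - 1)) u := by
  have key : ∀ m : ℕ, N.ρ ⁅D.gve k j, D.fj k j⁆ ((N.ρ (D.fj k j) ^ m) u)
      = ((ν ⬝ᵥ D.cr (D.s j) - 2 * m : ℤ) : k) • (N.ρ (D.fj k j) ^ m) u := by
    intro m
    rw [gver_ef, map_sum, LinearMap.sum_apply]
    simp only [map_smul, LinearMap.smul_apply, gver_H h, smul_smul, ← Finset.sum_smul]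
    congr 1
    rw [← D.two (D.s j)]
    simp only [dotProduct, Finset.sum_mul, ← Finset.sum_sub_distrib]
    push_cast
    exact Finset.sum_congr rfl fun a _ => by ring
  induction m with
  | zero => simpa using h.1 _ gver_ppos
  | succ m ih =>
    rw [gver_succ, N.comm_apply, ih, key, map_smul, Nat.add_sub_cancel]
    rcases m with _ | m
    · simp
    · rw [Nat.add_sub_cancel, ← gver_succ, ← add_smul]
      congr 1
      push_cast; ring

omit [Fact p.Prime] [CharP k p] in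
theorem gver_stable (U : Submodule k N.M) (h1 : ∀ a, ∀ v ∈ U, N.ρ ((D.levi {j}).h k a) v ∈ U)
    (h2 : ∀ v ∈ U, N.ρ (D.gve k j) v ∈ U) (h3 : ∀ v ∈ U, N.ρ (D.fj k j) v ∈ U) : N.Stable U := by
  intro x v hv
  rw [(D.levi {j}).eq_sum x, map_sum, LinearMap.sum_apply]
  refine U.sum_mem fun b _ => ?_
  rw [map_smul, LinearMap.smul_apply]
  refine U.smul_mem _ ?_
  rcases b with a | β
  · exact h1 a v hv
  · rcases gver_root β with rfl | rfl
    exacts [h2 v hv, h3 v hv]

omit [Fact p.Prime] [CharP k p] in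
theorem gver_hom (f : N.M →ₗ[k] N'.M)
    (h1 : ∀ a v, f (N.ρ ((D.levi {j}).h k a) v) = N'.ρ ((D.levi {j}).h k a) (f v))
    (h2 : ∀ v, f (N.ρ (D.gve k j) v) = N'.ρ (D.gve k j) (f v))
    (h3 : ∀ v, f (N.ρ (D.fj k j) v) = N'.ρ (D.fj k j) (f v)) : N.IsHom N' f := by
  intro x v
  rw [(D.levi {j}).eq_sum x]
  simp only [map_sum, LinearMap.sum_apply, map_smul, LinearMap.smul_apply]
  refine Finset.sum_congr rfl fun b _ => congrArg _ ?_
  rcases b with a | β
  · exact h1 a v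
  · rcases gver_root β with rfl | rfl
    exacts [h2 v, h3 v]

omit [Fact p.Prime] [CharP k p] in
theorem gver_ge (h : (N.ρ (D.fj k j) ^ n) u = 0) {m : ℕ} (hm : n ≤ m) :
    (N.ρ (D.fj k j) ^ m) u = 0 := by
  obtain ⟨r, rfl⟩ := Nat.exists_eq_add_of_le' hm
  rw [pow_add, Module.End.mul_apply, h, map_zero]

/-- the standard basis -/
noncomputable def IsVer.bas (h : D.IsVer j N ν n u) : Basis (Fin n) k N.M := Basis.mk h.li h.span

omit [Fact p.Prime] [CharP k p] in
theorem IsVer.bas_apply (h : D.IsVer j N ν n u) (m : Fin n) :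
    h.bas m = (N.ρ (D.fj k j) ^ m.1) u := Basis.mk_apply _ _ _

omit [Fact p.Prime] [CharP k p] in
theorem IsVer.ext {M : Type*} [AddCommGroup M] [Module k M] (h : D.IsVer j N ν n u)
    {f g : N.M →ₗ[k] M} (e : ∀ m : ℕ, m < n → f ((N.ρ (D.fj k j) ^ m) u) = g ((N.ρ (D.fj k j) ^ m) u)) :
    f = g := h.bas.ext fun m => by rw [h.bas_apply]; exact e m.1 m.2

omit [Fact p.Prime] [CharP k p] in
theorem gver_Enil (h : (D.levi {j}).IsHW N (fun a => (ν a : k)) u) (m : ℕ) :
    (N.ρ (D.gve k j) ^ (m + 1)) ((N.ρ (D.fj k j) ^ m) u) = 0 := by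
  induction m with
  | zero => simpa using h.1 _ gver_ppos
  | succ m ih =>
    rw [pow_succ, Module.End.mul_apply, gver_E h, map_smul, Nat.add_sub_cancel, ih, smul_zero]

omit [Fact p.Prime] [CharP k p] in
theorem IsVer.Enil (h : D.IsVer j N ν n u) {r : ℕ} (hr : n ≤ r) : N.ρ (D.gve k j) ^ r = 0 :=
  h.ext fun m hm => by
    obtain ⟨s, rfl⟩ := Nat.exists_eq_add_of_le' (show m + 1 ≤ r by omega)
    rw [pow_add, Module.End.mul_apply, gver_Enil h.hw, map_zero, LinearMap.zero_apply]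

theorem IsVer.kerE (h : D.IsVer j N ν n u) (hn : n ≤ p)
    (hν : (p : ℤ) ∣ ν ⬝ᵥ D.cr (D.s j) + 1 - n) {v : N.M} (hv : N.ρ (D.gve k j) v = 0) :
    ∃ c : k, v = c • u := by
  rcases n with _ | n
  · refine ⟨0, ?_⟩
    rw [← h.bas.sum_repr v]; simp
  have e := h.bas.sum_repr v
  simp only [h.bas_apply] at e
  rw [← e, map_sum, Fin.sum_univ_succ] at hv
  simp only [map_smul, gver_E h.hw, Fin.val_zero, Fin.val_succ, Nat.add_sub_cancel, smul_smul,
    Nat.cast_zero, zero_mul, Int.cast_zero, mul_zero, zero_smul, smul_zero, zero_add] at hv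
  have hli := h.li.comp Fin.castSucc (Fin.castSucc_injective n)
  have h0 := Fintype.linearIndependent_iff.1 hli _ hv
  refine ⟨h.bas.repr v 0, ?_⟩
  rw [Fin.sum_univ_succ, Finset.sum_eq_zero, add_zero] at e
  · exact e.symm
  · intro m _
    have h1 := h0 m
    rcases mul_eq_zero.1 h1 with h2 | h2
    · rw [h2, zero_smul]
    · exfalso
      rw [CharP.intCast_eq_zero_iff k p] at h2
      have hp : Prime (p : ℤ) := Nat.prime_iff_prime_int.1 Fact.out
      have hm := m.2
      rcases hp.dvd_or_dvd h2 with h3 | h3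
      · have := Int.le_of_dvd (by positivity) h3
        push_cast at this; omega
      · have h4 := dvd_sub h3 hν
        have := Int.le_of_dvd (by push_cast; omega) h4
        push_cast at this; omega

omit [Fact p.Prime] [CharP k p] in
theorem IsVer.ne (h : D.IsVer j N ν n u) (h0 : 0 < n) : u ≠ 0 := by
  simpa using h.li.ne_zero ⟨0, h0⟩

omit [Fact p.Prime] in
theorem gver_hwn (h : (D.levi {j}).IsHW N (fun a => (ν a : k)) u)
    (hν : (p : ℤ) ∣ ν ⬝ᵥ D.cr (D.s j) + 1 - n) :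
    (D.levi {j}).IsHW N (fun a => (D.dotf j ν a : k)) ((N.ρ (D.fj k j) ^ n) u) := by
  have h0 : ((ν ⬝ᵥ D.cr (D.s j) + 1 - n : ℤ) : k) = 0 := (CharP.intCast_eq_zero_iff k p _).2 hν
  refine ⟨fun β hβ => ?_, fun a => ?_⟩
  · rw [gver_pos hβ, gver_E h, Int.cast_mul, h0, mul_zero, zero_smul]
  · rw [gver_H h]
    congr 1
    simp only [RD.dotf, Pi.sub_apply, Pi.smul_apply, smul_eq_mul]
    push_cast at h0 ⊢
    linear_combination (D.rt (D.s j) a : k) * h0

variable (k j) in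
theorem exists_ver (h : (p : ℤ) ∣ n * (ν ⬝ᵥ D.cr (D.s j) + 1 - n)) :
    ∃ (N : LRep k ((D.levi {j}).g k)) (u : N.M), D.IsVer j N ν n u := by
  classical
  let w : ℕ → Fin n → k := fun m i => if i.1 = m then 1 else 0
  have hw : ∀ i : Fin n, Pi.basisFun k (Fin n) i = w i.1 := fun i => by
    funext l
    simp [w, Pi.single_apply, Fin.ext_iff]
  have hw0 : ∀ m, n ≤ m → w m = 0 := fun m hm => by
    funext l
    have := l.2
    exact if_neg (by omega)
  have hc : ∀ (g : ℕ → Fin n → k) (m : ℕ), m < n →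
      (Pi.basisFun k (Fin n)).constr k (fun i => g i.1) (w m) = g m := fun g m hm => by
    rw [← hw ⟨m, hm⟩, Basis.constr_basis]
  have hext : ∀ S T : End k (Fin n → k), (∀ m, S (w m) = T (w m)) → S = T := fun S T e =>
    (Pi.basisFun k (Fin n)).ext fun i => by rw [hw, e]
  obtain ⟨F, hF⟩ : ∃ F : End k (Fin n → k), ∀ m, F (w m) = w (m + 1) := by
    refine ⟨(Pi.basisFun k (Fin n)).constr k fun i => w (i.1 + 1), fun m => ?_⟩
    by_cases hm : m < n
    · exact hc (fun m => w (m + 1)) m hm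
    · rw [hw0 m (by omega), hw0 (m + 1) (by omega), map_zero]
  obtain ⟨E, hE⟩ : ∃ E : End k (Fin n → k), ∀ m : ℕ, E (w m)
      = ((m * (ν ⬝ᵥ D.cr (D.s j) + 1 - m) : ℤ) : k) • w (m - 1) := by
    refine ⟨(Pi.basisFun k (Fin n)).constr k fun i =>
      ((i.1 * (ν ⬝ᵥ D.cr (D.s j) + 1 - i.1) : ℤ) : k) • w (i.1 - 1), fun m => ?_⟩
    rcases lt_trichotomy m n with hm | hm | hm
    · exact hc (fun m => ((m * (ν ⬝ᵥ D.cr (D.s j) + 1 - m) : ℤ) : k) • w (m - 1)) m hm
    · rw [hw0 m hm.ge, map_zero, hm, (CharP.intCast_eq_zero_iff k p _).2 h, zero_smul]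
    · rw [hw0 m hm.le, hw0 (m - 1) (by omega), map_zero, smul_zero]
  obtain ⟨H, hH⟩ : ∃ H : D.σ → End k (Fin n → k), ∀ a (m : ℕ), H a (w m)
      = ((ν a - m * D.rt (D.s j) a : ℤ) : k) • w m := by
    refine ⟨fun a => (Pi.basisFun k (Fin n)).constr k fun i =>
      ((ν a - i.1 * D.rt (D.s j) a : ℤ) : k) • w i.1, fun a m => ?_⟩
    by_cases hm : m < n
    · exact hc (fun m => ((ν a - m * D.rt (D.s j) a : ℤ) : k) • w m) m hm
    · rw [hw0 m (by omega), map_zero, smul_zero]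
  let f : (D.levi {j}).B → End k (Fin n → k) :=
    Sum.elim H fun β => if β = D.gvp j then E else F
  have fE : f (.inr (D.gvp j)) = E := if_pos rfl
  have fF : f (.inr (D.gvn j)) = F := if_neg gver_ne
  let Φ : (D.levi {j}).g k →ₗ[k] End k (Fin n → k) := Fintype.linearCombination k f
  have hΦ : ∀ b, Φ ((D.levi {j}).bv k b) = f b := fun b => by
    simp [Φ, CD.bv, Fintype.linearCombination_apply_single]
  have skew : ∀ i l, Φ ⁅(D.levi {j}).bv k i, (D.levi {j}).bv k l⁆ = ⁅f i, f l⁆ →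
      Φ ⁅(D.levi {j}).bv k l, (D.levi {j}).bv k i⁆ = ⁅f l, f i⁆ := fun i l e => by
    rw [← lie_skew, map_neg, e, lie_skew]
  have r1 : ∀ a β, Φ ⁅(D.levi {j}).bv k (.inl a), (D.levi {j}).bv k (.inr β)⁆
      = ⁅f (.inl a), f (.inr β)⁆ := by
    intro a β
    rw [(D.levi {j}).lie_h_e, map_smul, hΦ, LieRing.of_associative_ring_bracket]
    change _ = H a * _ - _ * H a
    rcases gver_root β with rfl | rfl
    · rw [fE]
      refine hext _ _ fun m => ?_
      simp only [LinearMap.smul_apply, LinearMap.sub_apply, Module.End.mul_apply, hE, hH, map_smul,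
        smul_smul, ← sub_smul]
      rcases m with _ | m
      · simp
      · congr 1
        change ((D.rt (D.s j) a : ℤ) : k) * _ = _
        rw [Nat.add_sub_cancel]
        push_cast; ring
    · rw [fF]
      refine hext _ _ fun m => ?_
      have h2 : (D.levi {j}).rt (D.gvn j) = -D.rt (D.s j) := D.toRD.rt_neg (D.s j)
      simp only [LinearMap.smul_apply, LinearMap.sub_apply, Module.End.mul_apply, hF, hH, map_smul,
        ← sub_smul, h2]
      congr 1
      change ((-D.rt (D.s j) a : ℤ) : k) = _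
      push_cast; ring
  have r2 : Φ ⁅(D.levi {j}).bv k (.inr (D.gvp j)), (D.levi {j}).bv k (.inr (D.gvn j))⁆
      = ⁅f (.inr (D.gvp j)), f (.inr (D.gvn j))⁆ := by
    have e := gver_ef (D := D) (k := k) (j := j)
    change ⁅(D.levi {j}).bv k (.inr (D.gvp j)), (D.levi {j}).bv k (.inr (D.gvn j))⁆ = _ at e
    rw [e, fE, fF, map_sum, LieRing.of_associative_ring_bracket]
    refine hext _ _ fun m => ?_
    have e2 : ∀ a : D.σ, Φ ((D.levi {j}).h k a) = H a := fun a => hΦ (.inl a)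
    simp only [map_smul, e2, LinearMap.sum_apply, LinearMap.smul_apply, LinearMap.sub_apply,
      Module.End.mul_apply, hE, hF, hH, smul_smul, ← Finset.sum_smul, Nat.add_sub_cancel]
    have e3 : ∑ a, (D.cr (D.s j) a : k) * ((ν a - m * D.rt (D.s j) a : ℤ) : k)
        = ((ν ⬝ᵥ D.cr (D.s j) - 2 * m : ℤ) : k) := by
      rw [← D.two (D.s j)]
      simp only [dotProduct, Finset.sum_mul, ← Finset.sum_sub_distrib]
      push_cast
      exact Finset.sum_congr rfl fun a _ => by ring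
    rw [e3]
    rcases m with _ | m
    · simp
    · rw [Nat.add_sub_cancel, ← sub_smul]
      congr 1
      push_cast; ring
  have rel : ∀ i l, Φ ⁅(D.levi {j}).bv k i, (D.levi {j}).bv k l⁆ = ⁅f i, f l⁆ := by
    rintro (a | α) (b | β)
    · rw [(D.levi {j}).lie_h_h, map_zero, LieRing.of_associative_ring_bracket]
      change _ = H a * H b - H b * H a
      refine hext _ _ fun m => ?_
      simp only [LinearMap.sub_apply, Module.End.mul_apply, hH, map_smul, smul_smul,
        LinearMap.zero_apply]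
      rw [mul_comm, sub_self]
    · exact r1 a β
    · exact skew _ _ (r1 b α)
    · rcases gver_root α with rfl | rfl <;> rcases gver_root β with rfl | rfl
      · rw [lie_self, lie_self, map_zero]
      · exact r2
      · exact skew _ _ r2
      · rw [lie_self, lie_self, map_zero]
  have hf : ∀ i l, ⁅f i, f l⁆ = ∑ b, (D.levi {j}).cc i l b • f b := fun i l => by
    rw [← rel, (D.levi {j}).lie_bv, map_sum]
    exact Finset.sum_congr rfl fun b _ => by rw [map_zsmul, hΦ]
  let N : LRep k ((D.levi {j}).g k) := ⟨Fin n → k, (D.levi {j}).homOf f hf⟩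
  have hρ : ∀ b, N.ρ ((D.levi {j}).bv k b) = f b := (D.levi {j}).homOf_bv f hf
  have hρF : N.ρ (D.fj k j) = F := (hρ _).trans fF
  have hpow : ∀ m : ℕ, (N.ρ (D.fj k j) ^ m) (w 0) = w m := fun m => by
    induction m with
    | zero => rfl
    | succ m ih => rw [gver_succ, ih, hρF]; exact hF m
  have hfam : (fun m : Fin n => (N.ρ (D.fj k j) ^ m.1) (w 0)) = Pi.basisFun k (Fin n) :=
    funext fun m => (hpow m.1).trans (hw m).symm
  refine ⟨N, w 0, ⟨fun β hβ => ?_, fun a => ?_⟩, (hpow n).trans (hw0 n le_rfl), ?_, ?_⟩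
  · rw [gver_pos hβ, hρ, fE]
    exact (hE 0).trans (by simp)
  · rw [hρ]
    exact (hH a 0).trans (by simp)
  · rw [hfam]; exact (Pi.basisFun k (Fin n)).linearIndependent
  · rw [hfam]; exact (Pi.basisFun k (Fin n)).span_eq.ge

theorem IsVer.cong (h : D.IsVer j N ν n u) (hν : red p ν = red p ν') : D.IsVer j N ν' n u :=
  ⟨gver_red (k := k) |>.1 hν ▸ h.hw, h.nil, h.li, h.span⟩

omit [Fact p.Prime] [CharP k p] in
theorem IsVer.fd (h : D.IsVer j N ν n u) : FiniteDimensional k N.M := Module.Finite.of_basis h.bas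

theorem IsVer.pc (h : D.IsVer j N ν n u) (hn : n ≤ p) : (D.levi {j}).PC p 0 N := by
  have hp : p ≠ 0 := (Fact.out : p.Prime).ne_zero
  intro b
  rw [Pi.zero_apply, zero_pow hp, zero_smul, add_zero]
  rcases b with a | β
  · refine h.ext fun m _ => ?_
    have e := gver_H h.hw a m
    have e2 : ∀ r : ℕ, (N.ρ ((D.levi {j}).h k a) ^ r) ((N.ρ (D.fj k j) ^ m) u)
        = ((ν a - m * D.rt (D.s j) a : ℤ) : k) ^ r • (N.ρ (D.fj k j) ^ m) u := fun r => by
      induction r with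
      | zero => simp
      | succ r ih => rw [pow_succ', Module.End.mul_apply, ih, map_smul, e, smul_smul, pow_succ]
    refine (e2 p).trans (Eq.trans ?_ e.symm)
    rw [← frobenius_def, map_intCast]
  · have e0 : N.ρ ((D.levi {j}).pmb k (.inr β)) = 0 := map_zero _
    rw [e0]
    rcases gver_root β with rfl | rfl
    · exact h.Enil hn
    · refine h.ext fun m _ => ?_
      change (N.ρ (D.fj k j) ^ p) _ = 0
      rw [← Module.End.mul_apply, ← pow_add]
      exact gver_ge h.nil (by omega)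

omit [Fact p.Prime] [CharP k p] in
theorem IsVer.lift (h : D.IsVer j N ν n u) {u' : N'.M}
    (h1 : (D.levi {j}).IsHW N' (fun a => (ν a : k)) u') (h2 : (N'.ρ (D.fj k j) ^ n) u' = 0) :
    ∃ f : N.M →ₗ[k] N'.M, N.IsHom N' f ∧ f u = u' := by
  let f : N.M →ₗ[k] N'.M := h.bas.constr k fun m => (N'.ρ (D.fj k j) ^ m.1) u'
  have hf : ∀ m : ℕ, f ((N.ρ (D.fj k j) ^ m) u) = (N'.ρ (D.fj k j) ^ m) u' := fun m => by
    by_cases hm : m < n
    · rw [← h.bas_apply ⟨m, hm⟩, Basis.constr_basis]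
    · rw [gver_ge h.nil (not_lt.1 hm), gver_ge h2 (not_lt.1 hm), map_zero]
  clear_value f
  have key : ∀ (S : End k N.M) (T : End k N'.M), (∀ m : ℕ, f (S ((N.ρ (D.fj k j) ^ m) u))
      = T (f ((N.ρ (D.fj k j) ^ m) u))) → ∀ v, f (S v) = T (f v) := fun S T e v =>
    LinearMap.congr_fun (h.ext (f := f ∘ₗ S) (g := T ∘ₗ f) fun m _ => e m) v
  refine ⟨f, gver_hom f (fun a => key _ _ fun m => ?_) (key _ _ fun m => ?_)
    (key _ _ fun m => ?_), hf 0⟩
  · rw [gver_H h.hw, map_smul, hf, gver_H h1]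
  · rw [gver_E h.hw, map_smul, hf, hf, gver_E h1]
  · rw [← gver_succ, hf, hf, gver_succ]

theorem IsVer.simple (h : D.IsVer j N ν n u) (h0 : 0 < n) (hn : n ≤ p)
    (hν : (p : ℤ) ∣ ν ⬝ᵥ D.cr (D.s j) + 1 - n) : N.Simple := by
  refine ⟨nontrivial_of_ne u 0 (h.ne h0), fun U hU => ?_⟩
  rw [or_iff_not_imp_left]
  intro hb
  obtain ⟨v, hv, hv0⟩ := (Submodule.ne_bot_iff U).1 hb
  have hst : ∀ (x : (D.levi {j}).g k) (r : ℕ), ∀ v ∈ U, (N.ρ x ^ r) v ∈ U := fun x r v hv => by
    induction r with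
    | zero => exact hv
    | succ r ih => rw [pow_succ', Module.End.mul_apply]; exact hU x _ ih
  obtain ⟨r, h1, h2⟩ := gver_last (N.ρ (D.gve k j)) n (v := v) (by rw [h.Enil le_rfl]; rfl) hv0
  obtain ⟨c, hc⟩ := h.kerE hn hν h2
  have h3 := hst (D.gve k j) r v hv
  rw [hc] at h1 h3
  have hu : u ∈ U := (U.smul_mem_iff (left_ne_zero_of_smul h1)).1 h3
  refine top_le_iff.1 (h.span.trans (Submodule.span_le.2 ?_))
  rintro _ ⟨m, rfl⟩
  exact hst _ _ u hu

theorem IsVer.hw_eq (h : D.IsVer j N ν n u) (hn : n ≤ p)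
    (hν : (p : ℤ) ∣ ν ⬝ᵥ D.cr (D.s j) + 1 - n) (h' : (D.levi {j}).HW N ν') : red p ν = red p ν' := by
  obtain ⟨v, hv, h1, h2⟩ := h'
  obtain ⟨c, rfl⟩ := h.kerE hn hν (h1 _ gver_ppos)
  refine (gver_red (k := k)).2 (funext fun a => ?_)
  have e := h2 a
  rw [map_smul, h.hw.2 a, smul_comm] at e
  exact smul_left_injective k hv e

theorem IsVer.iso (h : D.IsVer j N ν n u) (h0 : 0 < n) (hn : n ≤ p)
    (hν : (p : ℤ) ∣ ν ⬝ᵥ D.cr (D.s j) + 1 - n) (hs : N'.Simple) (hp : (D.levi {j}).PC p 0 N')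
    (h' : (D.levi {j}).HW N' ν) : N.Iso N' := by
  obtain ⟨v, hv, h1⟩ := h'
  have hpp : p ≠ 0 := (Fact.out : p.Prime).ne_zero
  have hnil : N'.ρ (D.fj k j) ^ p = 0 := by
    have e := hp (.inr (D.gvn j))
    have e0 : N'.ρ ((D.levi {j}).pmb k (.inr (D.gvn j))) = 0 := map_zero _
    rwa [Pi.zero_apply, zero_pow hpp, zero_smul, add_zero, e0] at e
  have h0' : ((ν ⬝ᵥ D.cr (D.s j) + 1 - n : ℤ) : k) = 0 := (CharP.intCast_eq_zero_iff k p _).2 hν
  let U : Submodule k N'.M :=
    Submodule.span k (Set.range fun m : ℕ => (N'.ρ (D.fj k j) ^ (n + m)) v)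
  have hgen : ∀ m : ℕ, (N'.ρ (D.fj k j) ^ (n + m)) v ∈ U := fun m => Submodule.subset_span ⟨m, rfl⟩
  have hcl : ∀ T : End k N'.M, (∀ m : ℕ, T ((N'.ρ (D.fj k j) ^ (n + m)) v) ∈ U) →
      ∀ x ∈ U, T x ∈ U := fun T hT =>
    (Submodule.span_le (p := U.comap T)).2 (by rintro _ ⟨m, rfl⟩; exact hT m)
  have hU : N'.Stable U := by
    refine gver_stable U (fun a => hcl _ fun m => ?_) (hcl _ fun m => ?_) (hcl _ fun m => ?_)
    · rw [gver_H h1]; exact U.smul_mem _ (hgen m)
    · rw [gver_E h1]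
      rcases m with _ | m
      · rw [Nat.add_zero, Int.cast_mul, h0', mul_zero, zero_smul]; exact U.zero_mem
      · exact U.smul_mem _ (hgen m)
    · rw [← gver_succ]; exact hgen (m + 1)
  have h2 : (N'.ρ (D.fj k j) ^ n) v = 0 := by
    rcases hs.2 U hU with e | e
    · have := hgen 0
      rw [e] at this
      exact this
    · exfalso
      have hle : U ≤ LinearMap.range (N'.ρ (D.fj k j)) := Submodule.span_le.2 (by
        rintro _ ⟨m, rfl⟩
        obtain ⟨r, rfl⟩ := Nat.exists_eq_add_of_lt h0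
        refine ⟨(N'.ρ (D.fj k j) ^ (r + m)) v, ?_⟩
        rw [← gver_succ]
        exact congrArg (fun t => (N'.ρ (D.fj k j) ^ t) v) (by omega))
      have hsur : Function.Surjective (N'.ρ (D.fj k j)) :=
        LinearMap.range_eq_top.1 (top_le_iff.1 (e ▸ hle))
      obtain ⟨y, hy⟩ := hsur.iterate p v
      rw [← Module.End.coe_pow, hnil] at hy
      exact hv hy.symm
  obtain ⟨f, hf, hfu⟩ := h.lift h1 h2
  exact LRep.iso_of_hom (h.simple h0 hn hν) hs hf fun e => hv (by rw [← hfu, e]; rfl)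

theorem IsVer.ses (h : D.IsVer j N ν p u) {N₁ N₂ : LRep k ((D.levi {j}).g k)} {u₁ : N₁.M}
    {u₂ : N₂.M} (hn : n ≤ p) (hν : (p : ℤ) ∣ ν ⬝ᵥ D.cr (D.s j) + 1 - n)
    (h₁ : D.IsVer j N₁ (D.dotf j ν) (p - n) u₁) (h₂ : D.IsVer j N₂ ν n u₂) :
    ∃ (f : N₁.M →ₗ[k] N.M) (g : N.M →ₗ[k] N₂.M), N₁.IsHom N f ∧ N.IsHom N₂ g ∧
      Function.Injective f ∧ Function.Surjective g ∧ Function.Exact f g := by
  obtain ⟨f, hf, hfu⟩ := h₁.lift (gver_hwn h.hw hν) (by
    rw [← Module.End.mul_apply, ← pow_add, Nat.sub_add_cancel hn]; exact h.nil)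
  obtain ⟨g, hg, hgu⟩ := h.lift h₂.hw (gver_ge h₂.nil hn)
  have hfm : ∀ m : ℕ, f ((N₁.ρ (D.fj k j) ^ m) u₁) = (N.ρ (D.fj k j) ^ (m + n)) u := fun m => by
    rw [hf.pow, hfu, pow_add, Module.End.mul_apply]
  have hgm : ∀ m : ℕ, g ((N.ρ (D.fj k j) ^ m) u) = (N₂.ρ (D.fj k j) ^ m) u₂ := fun m => by
    rw [hg.pow, hgu]
  have hinj : Function.Injective f := by
    refine LinearMap.injective_of_linearIndependent (top_le_iff.1 h₁.span) ?_
    have := h.li.comp (fun m : Fin (p - n) => (⟨m.1 + n, by have := m.2; omega⟩ : Fin p))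
      fun a b e => Fin.ext (by simpa using e)
    have e : (f ∘ fun m : Fin (p - n) => (N₁.ρ (D.fj k j) ^ m.1) u₁)
        = fun m : Fin (p - n) => (N.ρ (D.fj k j) ^ (m.1 + n)) u := funext fun m => hfm m.1
    rw [e]
    exact this
  have hsur : Function.Surjective g := by
    refine LinearMap.range_eq_top.1 (top_le_iff.1 (h₂.span.trans (Submodule.span_le.2 ?_)))
    rintro _ ⟨m, rfl⟩
    exact ⟨_, hgm m.1⟩
  refine ⟨f, g, hf, hg, hinj, hsur, LinearMap.exact_iff.2 (Eq.symm ?_)⟩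
  have := h.fd
  have := h₁.fd
  apply Submodule.eq_of_le_of_finrank_eq
  · rw [LinearMap.range_le_ker_iff]
    refine h₁.ext fun m _ => ?_
    rw [LinearMap.comp_apply, hfm, hgm, gver_ge h₂.nil (Nat.le_add_left n m), LinearMap.zero_apply]
  · have e1 := LinearMap.finrank_range_add_finrank_ker g
    rw [LinearMap.range_eq_top.2 hsur, finrank_top, finrank_eq_card_basis h₂.bas,
      finrank_eq_card_basis h.bas] at e1
    rw [LinearMap.finrank_range_of_inj hinj, finrank_eq_card_basis h₁.bas]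
    simp only [Fintype.card_fin] at e1 ⊢
    omega

theorem IsVer.ch (h : D.IsVer j N ν n u) (hν : (p : ℤ) ∣ ν ⬝ᵥ D.cr (D.s j) + 1 - n)
    (x : D.σ → ZMod p) : (D.levi {j}).ch p N x - (D.levi {j}).ch p N (x - red p (-D.rt (D.s j)))
      = (if red p ν = x then 1 else 0) - if red p (D.dotf j ν) = x then 1 else 0 := by
  classical
  have key : ∀ y : D.σ → ZMod p, (D.levi {j}).ch p N y
      = ∑ m ∈ Finset.range n, if red p (ν - (m : ℤ) • D.rt (D.s j)) = y then (1 : ℚ) else 0 := by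
    intro y
    have e := gver_rank h.bas (fun a : D.σ => N.ρ ((D.levi {j}).h k a))
      (fun m a => ((ν a - m.1 * D.rt (D.s j) a : ℤ) : k))
      (fun a m => by rw [h.bas_apply]; exact gver_H h.hw a m.1)
      (fun a => (ZMod.cast (y a) : k)) (fun m => red p (ν - (m.1 : ℤ) • D.rt (D.s j)) = y)
      (fun m => funext_iff.trans (forall_congr' fun a => (gver_cast _ _).symm))
    rw [Finset.sum_range, Finset.sum_boole]
    exact congrArg (Nat.cast : ℕ → ℚ) e
  have e1 : ∀ m : ℕ, (red p (ν - (m : ℤ) • D.rt (D.s j)) = x - red p (-D.rt (D.s j)))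
      ↔ red p (ν - ((m + 1 : ℕ) : ℤ) • D.rt (D.s j)) = x := fun m => by
    rw [eq_sub_iff_add_eq]
    have : red p (ν - (m : ℤ) • D.rt (D.s j)) + red p (-D.rt (D.s j))
        = red p (ν - ((m + 1 : ℕ) : ℤ) • D.rt (D.s j)) := by
      funext a
      simp only [red, Pi.add_apply, Pi.sub_apply, Pi.smul_apply, Pi.neg_apply, smul_eq_mul]
      push_cast; ring
    rw [this]
  have e2 : red p (ν - (n : ℤ) • D.rt (D.s j)) = red p (D.dotf j ν) := red_eq_iff.2 fun a => by
    have : (ν - (n : ℤ) • D.rt (D.s j)) a - D.dotf j ν a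
        = (ν ⬝ᵥ D.cr (D.s j) + 1 - n) * D.rt (D.s j) a := by
      simp only [RD.dotf, Pi.sub_apply, Pi.smul_apply, smul_eq_mul]; ring
    rw [this]; exact hν.mul_right _
  rw [key, key, ← Finset.sum_sub_distrib]
  simp only [e1]
  rw [Finset.sum_range_sub' (fun m : ℕ => if red p (ν - (m : ℤ) • D.rt (D.s j)) = x then (1 : ℚ) else 0),
    e2]
  simp

theorem ch_iso {D : CD} {N N' : LRep k (D.g k)} (h : N.Iso N') : D.ch p N = D.ch p N' := by
  obtain ⟨f, hf⟩ := h
  funext x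
  suffices e : (wsp (fun a => N.ρ (D.h k a)) x).map (f : N.M →ₗ[k] N'.M)
      = wsp (fun a => N'.ρ (D.h k a)) x by
    unfold CD.ch
    rw [← e, LinearEquiv.finrank_map_eq]
  ext v
  obtain ⟨v, rfl⟩ := f.surjective v
  rw [Submodule.mem_map_equiv, f.symm_apply_apply]
  simp only [wsp, Submodule.mem_iInf, Module.End.mem_eigenspace_iff]
  refine forall_congr' fun a => ?_
  have e : f (N.ρ (D.h k a) v) = N'.ρ (D.h k a) (f v) := hf _ v
  rw [← e, ← map_smul, f.injective.eq_iff]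

end CD

end Pool.Agent.P.Bf04
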