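import Pool.Agent.P.MP_bf0464_al.H.Lie

/-! Divided powers, root elements, torus elements. -/

namespace Pool.Agent.P.Bf04

open Matrix Module

attribute [local instance 100] LieRing.ofAssociativeRing

universe u v w

namespace RD

variable (D : RD) {R : Type v} [CommRing R] {R' : Type w} [CommRing R']

theorem chr_zero (u : D.Δ → Rˣ) : D.chr u 0 = 1 := by
  simp [chr]

theorem chr_add (u : D.Δ → Rˣ) (x y : D.Δ → ℤ) : D.chr u (x + y) = D.chr u x * D.chr u y := by
  simp only [chr, Pi.add_apply, _root_.zpow_add, Finset.prod_mul_distrib]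

theorem chr_neg (u : D.Δ → Rˣ) (x : D.Δ → ℤ) : D.chr u (-x) = (D.chr u x)⁻¹ := by
  simp only [chr, Pi.neg_apply, _root_.zpow_neg, Finset.prod_inv_distrib]

theorem chr_zsmul (u : D.Δ → Rˣ) (n : ℤ) (x : D.Δ → ℤ) : D.chr u (n • x) = D.chr u x ^ n := by
  simp only [chr, Pi.smul_apply, smul_eq_mul, ← Finset.prod_zpow]
  exact Finset.prod_congr rfl fun i _ => by rw [mul_comm, _root_.zpow_mul]

theorem chr_single (u : D.Δ → Rˣ) (i : D.Δ) : D.chr u (Pi.single i 1) = u i := by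
  rw [chr, Finset.prod_eq_single i]
  · rw [Pi.single_eq_same, zpow_one]
  · intro j _ hj
    rw [Pi.single_eq_of_ne hj, zpow_zero]
  · intro h
    exact absurd (Finset.mem_univ i) h

theorem chr_mul (u u' : D.Δ → Rˣ) (x : D.Δ → ℤ) : D.chr (u * u') x = D.chr u x * D.chr u' x := by
  simp only [chr, Pi.mul_apply, mul_zpow, Finset.prod_mul_distrib]

theorem grp1A_zpow_sum {G : Type*} [CommGroup G] {κ : Type*} (t : G) (s : Finset κ) (f : κ → ℤ) :
    ∏ i ∈ s, t ^ f i = t ^ (∑ i ∈ s, f i) := by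
  classical
  induction s using Finset.induction_on with
  | empty => simp
  | insert a s ha ih => rw [Finset.prod_insert ha, Finset.sum_insert ha, _root_.zpow_add, ih]

theorem chr_pow (t : Rˣ) (d x : D.Δ → ℤ) : D.chr (fun i => t ^ d i) x = t ^ (∑ i, x i * d i) := by
  rw [chr, ← grp1A_zpow_sum]
  exact Finset.prod_congr rfl fun i _ => by rw [mul_comm, _root_.zpow_mul]

theorem tM_one : D.tM (1 : D.Δ → Rˣ) = 1 := by
  simp [tM, chr]

theorem tM_mul (u u' : D.Δ → Rˣ) : D.tM (u * u') = D.tM u * D.tM u' := by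
  simp only [tM, chr_mul, Units.val_mul, Matrix.diagonal_mul_diagonal]

theorem tM_map (φ : R →+* R') (u : D.Δ → Rˣ) :
    (D.tM u).map φ = D.tM fun i => Units.map φ.toMonoidHom (u i) := by
  rw [tM, tM, Matrix.diagonal_map (map_zero φ)]
  refine congrArg Matrix.diagonal (funext fun b => ?_)
  have h : D.chr (fun i => Units.map φ.toMonoidHom (u i)) (D.wt b)
      = Units.map φ.toMonoidHom (D.chr u (D.wt b)) := by
    simp only [chr, map_prod, map_zpow]
  rw [h]
  rfl

theorem vecMul_tM (χ : D.B → R) (u : D.Δ → Rˣ) (b : D.B) :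
    (χ ᵥ* D.tM u) b = χ b * D.chr u (D.wt b) := by
  rw [tM, Matrix.vecMul_diagonal]

end RD

namespace CD

variable (D : CD) {R : Type v} [CommRing R] {R' : Type w} [CommRing R']

theorem dp_zero (α : D.ι) : D.dp α 0 = 1 := by
  ext k j
  simp [dp]

theorem dp_one (α : D.ι) : D.dp α 1 = D.adM (.inr α) := by
  ext k j
  simp [dp]

theorem grp1A_ad (α : D.ι) (x : D.g ℤ) : D.adM (.inr α) *ᵥ x = ⁅D.e ℤ α, x⁆ := by
  rw [D.lie_adM]
  rfl

theorem grp1A_succ (α : D.ι) (j : ℕ) (x : D.g ℤ) :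
    D.adM (.inr α) ^ (j + 1) *ᵥ x = ⁅D.e ℤ α, (D.adM (.inr α) ^ j *ᵥ x : D.g ℤ)⁆ := by
  rw [pow_succ', ← Matrix.mulVec_mulVec, grp1A_ad]

theorem grp1A_zero_of (α : D.ι) {i j : ℕ} (hij : i ≤ j) (x : D.g ℤ)
    (h : D.adM (.inr α) ^ i *ᵥ x = 0) : D.adM (.inr α) ^ j *ᵥ x = 0 := by
  obtain ⟨k, rfl⟩ := Nat.exists_eq_add_of_le' hij
  rw [pow_add, ← Matrix.mulVec_mulVec, h, Matrix.mulVec_zero]

theorem grp1A_mul_ne {α β : D.ι} {n : ℤ} (h : D.co β = n • D.co α) : n = 1 ∨ n = -1 := by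
  have h0 := D.co_ne_zero α
  rcases D.red' (β := β) (γ := α) (a := 1) (b := n) one_ne_zero (by rw [one_smul, h]) with h1 | h1
  · left
    rw [h1] at h
    have h2 : (n - 1) • D.co α = 0 := by rw [sub_smul, ← h, one_smul, sub_self]
    have h3 := (smul_eq_zero.1 h2).resolve_right h0
    omega
  · right
    rw [h1, D.co_neg] at h
    have h2 : (n + 1) • D.co α = 0 := by rw [add_smul, ← h, one_smul, neg_add_cancel]
    have h3 := (smul_eq_zero.1 h2).resolve_right h0
    omega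

theorem grp1A_string (α β : D.ι) (hβ : β ≠ D.neg α) (r : ℕ)
    (h1 : ∃ δ, D.co δ = D.co β - (r : ℤ) • D.co α)
    (h2 : ∀ δ, D.co δ ≠ D.co β - ((r : ℤ) + 1) • D.co α) (j : ℕ) :
    D.adM (.inr α) ^ j *ᵥ D.e ℤ β = 0 ∨ ∃ γ, ∃ c : ℤ, D.co γ = D.co β + (j : ℤ) • D.co α ∧
      c.natAbs = (r + 1).ascFactorial j ∧ D.adM (.inr α) ^ j *ᵥ D.e ℤ β = c • D.e ℤ γ := by
  induction j with
  | zero => exact Or.inr ⟨β, 1, by simp, by simp, by simp⟩
  | succ j ih =>
    rcases ih with ih | ⟨γ, c, hγ, hc, hv⟩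
    · exact Or.inl (D.grp1A_zero_of α (Nat.le_succ j) _ ih)
    · have hγn : γ ≠ D.neg α := by
        rintro rfl
        have h3 : D.co β = (-((j : ℤ) + 1)) • D.co α := by
          rw [D.co_neg] at hγ
          rw [neg_smul, add_smul, one_smul, neg_add, hγ]
          abel
        rcases D.grp1A_mul_ne h3 with h4 | h4
        · omega
        · apply hβ
          apply D.co_inj
          rw [h3, h4, D.co_neg, neg_smul, one_smul]
      rw [grp1A_succ, hv, lie_smul]
      by_cases hex : ∃ γ', D.co α + D.co γ = D.co γ'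
      · obtain ⟨γ', hγ'⟩ := hex
        right
        refine ⟨γ', c * D.N α γ, ?_, ?_, ?_⟩
        · rw [← hγ', hγ]
          push_cast
          rw [add_smul, one_smul]
          abel
        · have h5 := D.N_abs α γ γ' hγ' (r + j) (by
            obtain ⟨δ, hδ⟩ := h1
            refine ⟨δ, ?_⟩
            rw [hδ, hγ]
            push_cast
            rw [add_smul]
            abel) (by
            intro δ hδ
            apply h2 δ
            rw [hδ, hγ]
            push_cast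
            simp only [add_smul]
            abel)
          have h6 : (D.N α γ).natAbs = r + 1 + j := by
            rw [Int.abs_eq_natAbs] at h5
            omega
          rw [Int.natAbs_mul, hc, h6, Nat.ascFactorial_succ, mul_comm]
        · rw [D.lie_e_e hγ', smul_smul, Int.cast_id]
      · left
        rw [D.lie_e_e_zero (fun γ' h => hex ⟨γ', h⟩) hγn, smul_zero]

theorem grp1A_exists_r (α β : D.ι) : ∃ r : ℕ, (∃ δ, D.co δ = D.co β - (r : ℤ) • D.co α) ∧
    ∀ δ, D.co δ ≠ D.co β - ((r : ℤ) + 1) • D.co α := by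
  classical
  have hex : ∃ r : ℕ, ∀ δ, D.co δ ≠ D.co β - ((r : ℤ) + 1) • D.co α := by
    refine ⟨3, fun δ hδ => ?_⟩
    have h := D.string_le (α := α) (β := δ) (γ := β) (n := 4) (by
      rw [hδ]
      push_cast
      abel)
    omega
  refine ⟨Nat.find hex, ?_, Nat.find_spec hex⟩
  rcases h : Nat.find hex with _ | r
  · exact ⟨β, by simp⟩
  · have h1 := Nat.find_min hex (m := r) (by omega)
    push Not at h1
    obtain ⟨δ, hδ⟩ := h1
    exact ⟨δ, by rw [hδ, Nat.cast_succ]⟩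

theorem grp1A_col (α : D.ι) (j : ℕ) (b : D.B) :
    ∃ v : D.g ℤ, D.adM (.inr α) ^ j *ᵥ D.bv ℤ b = (j.factorial : ℤ) • v := by
  have hlow : j ≤ 1 → ∃ v : D.g ℤ, D.adM (.inr α) ^ j *ᵥ D.bv ℤ b = (j.factorial : ℤ) • v := by
    intro hj
    exact ⟨D.adM (.inr α) ^ j *ᵥ D.bv ℤ b, by
      rw [Nat.factorial_eq_one.2 hj, Nat.cast_one, one_smul]⟩
  by_cases hj : j ≤ 1
  · exact hlow hj
  rcases b with a | β
  · refine ⟨0, ?_⟩
    rw [smul_zero]
    refine D.grp1A_zero_of α (i := 2) (by omega) _ ?_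
    rw [grp1A_succ, pow_one, grp1A_ad, ← lie_skew (D.e ℤ α) (D.h ℤ a), D.lie_h_e, lie_neg,
      lie_smul, lie_self, smul_zero, neg_zero]
  · by_cases hβ : β = D.neg α
    · subst hβ
      have h2 : D.adM (.inr α) ^ 2 *ᵥ D.e ℤ (D.neg α) = (2 : ℤ) • (-D.e ℤ α) := by
        rw [grp1A_succ, pow_one, grp1A_ad, D.lie_e_neg, ← lie_skew, D.lie_cr_e, D.pr_self,
          Int.cast_id, smul_neg]
      by_cases hj2 : j = 2
      · subst hj2
        exact ⟨-D.e ℤ α, h2⟩
      · refine ⟨0, ?_⟩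
        rw [smul_zero]
        refine D.grp1A_zero_of α (i := 3) (by omega) _ ?_
        rw [grp1A_succ, h2, lie_smul, lie_neg, lie_self, neg_zero, smul_zero]
    · obtain ⟨r, h1, h2⟩ := D.grp1A_exists_r α β
      rcases D.grp1A_string α β hβ r h1 h2 j with h | ⟨γ, c, -, hc, hv⟩
      · exact ⟨0, by rw [smul_zero]; exact h⟩
      · have hd : (j.factorial : ℤ) ∣ c := by
          rw [Int.natCast_dvd, hc]
          exact Nat.factorial_dvd_ascFactorial _ _
        obtain ⟨c', rfl⟩ := hd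
        exact ⟨c' • D.e ℤ γ, by rw [smul_smul]; exact hv⟩

theorem dp_fact (α : D.ι) (j : ℕ) : (j.factorial : ℤ) • D.dp α j = D.adM (.inr α) ^ j := by
  ext k b
  obtain ⟨v, hv⟩ := D.grp1A_col α j b
  have h1 : (D.adM (.inr α) ^ j) k b = (j.factorial : ℤ) * v k := by
    have h2 := congrFun hv k
    rw [bv, Matrix.mulVec_single_one] at h2
    exact h2
  rw [Matrix.smul_apply, dp, Matrix.map_apply, smul_eq_mul]
  exact Int.mul_ediv_cancel' ⟨v k, h1⟩

theorem grp1A_pow_hom (α : D.ι) (j : ℕ) : D.Hom ((j : ℤ) • D.co α) (D.adM (.inr α) ^ j) := by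
  induction j with
  | zero =>
    intro k b h
    rw [pow_zero] at h
    have h1 : k = b := by
      by_contra h2
      exact h (Matrix.one_apply_ne h2)
    rw [h1]
    simp
  | succ j ih =>
    have h := ih.mul (D.adM_hom (.inr α))
    rw [pow_succ, Nat.cast_succ, add_smul, one_smul]
    exact h

theorem dp_four (α : D.ι) {j : ℕ} (h : 4 ≤ j) : D.dp α j = 0 := by
  ext k b
  have h0 : (D.adM (.inr α) ^ j) k b = 0 := by
    by_contra hne
    have hw := D.grp1A_pow_hom α j k b hne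
    rcases k with a | γ <;> rcases b with a' | β
    · have h1 : (j : ℤ) • D.co α = 0 := by simpa [RD.wt] using hw.symm
      have h2 := (smul_eq_zero.1 h1).resolve_right (D.co_ne_zero α)
      omega
    · have h1 : D.co β = (-(j : ℤ)) • D.co α := by
        rw [neg_smul]
        exact eq_neg_of_add_eq_zero_left hw.symm
      have h2 := D.grp1A_mul_ne h1
      omega
    · have h1 : D.co γ = (j : ℤ) • D.co α := by simpa [RD.wt] using hw
      have h2 := D.grp1A_mul_ne h1
      omega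
    · have h2 := D.string_le (α := α) (β := β) (γ := γ) (n := j) hw
      omega
  rw [dp, Matrix.map_apply, h0, Int.zero_ediv, Matrix.zero_apply]

theorem dp_hom (α : D.ι) (j : ℕ) : D.Hom ((j : ℤ) • D.co α) (D.dp α j) :=
  (D.grp1A_pow_hom α j).map _ (Int.zero_ediv _)

theorem dp_mul (α : D.ι) (i j : ℕ) :
    D.dp α i * D.dp α j = ((i + j).choose i : ℤ) • D.dp α (i + j) := by
  have hne : ((i.factorial : ℤ) * (j.factorial : ℤ)) ≠ 0 := by positivity
  have hc : ((i.factorial : ℤ) * (j.factorial : ℤ)) * ((i + j).choose i : ℤ)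
      = ((i + j).factorial : ℤ) := by
    have h := Nat.add_choose_mul_factorial_mul_factorial j i
    rw [add_comm j i] at h
    rw [← h]
    push_cast
    ring
  apply smul_right_injective (Matrix D.B D.B ℤ) hne
  change ((i.factorial : ℤ) * (j.factorial : ℤ)) • (D.dp α i * D.dp α j)
    = ((i.factorial : ℤ) * (j.factorial : ℤ)) • (((i + j).choose i : ℤ) • D.dp α (i + j))
  rw [smul_smul, hc, dp_fact, pow_add, ← dp_fact, ← dp_fact, smul_mul_smul_comm]

theorem grp1A_ad_pow (α : D.ι) (j : ℕ) (x : D.g ℤ) :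
    (LieAlgebra.ad ℤ (D.g ℤ) (D.e ℤ α) ^ j) x = D.adM (.inr α) ^ j *ᵥ x := by
  induction j with
  | zero => simp
  | succ j ih => rw [grp1A_succ, pow_succ', Module.End.mul_apply, ih, LieAlgebra.ad_apply]

theorem dp_lie (α : D.ι) (n : ℕ) (x y : D.g ℤ) : D.dp α n *ᵥ ⁅x, y⁆
    = ∑ ij ∈ Finset.HasAntidiagonal.antidiagonal n, (⁅D.dp α ij.1 *ᵥ x, D.dp α ij.2 *ᵥ y⁆ : D.g ℤ) := by
  have hne : (n.factorial : ℤ) ≠ 0 := by positivity
  apply smul_right_injective (D.g ℤ) hne
  change (n.factorial : ℤ) • (D.dp α n *ᵥ ⁅x, y⁆) = (n.factorial : ℤ) •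
    ∑ ij ∈ Finset.HasAntidiagonal.antidiagonal n, (⁅D.dp α ij.1 *ᵥ x, D.dp α ij.2 *ᵥ y⁆ : D.g ℤ)
  rw [← Matrix.smul_mulVec, dp_fact, ← grp1A_ad_pow, LieAlgebra.ad_pow_lie, Finset.smul_sum]
  refine Finset.sum_congr rfl fun ij hij => ?_
  have hn : ij.1 + ij.2 = n := Finset.HasAntidiagonal.mem_antidiagonal.1 hij
  have hc : (n.factorial : ℤ) = (n.choose ij.1 : ℤ) * ((ij.1.factorial : ℤ) * (ij.2.factorial : ℤ)) := by
    have h := Nat.add_choose_mul_factorial_mul_factorial ij.2 ij.1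
    rw [add_comm ij.2 ij.1, hn] at h
    rw [← h]
    push_cast
    ring
  rw [grp1A_ad_pow, grp1A_ad_pow, ← dp_fact, ← dp_fact, Matrix.smul_mulVec, Matrix.smul_mulVec,
    smul_lie, lie_smul, hc, mul_smul, mul_smul, natCast_zsmul _ (n.choose ij.1)]

end CD

end Pool.Agent.P.Bf04
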