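import Pool.Agent.P.MP_bf0464_al.H.Grp1

/-! Representatives of the reflections. -/

namespace Pool.Agent.P.Bf04

open Matrix Module

attribute [local instance 100] LieRing.ofAssociativeRing

universe u v w

namespace CD

variable (D : CD) {R : Type v} [CommRing R] {R' : Type w} [CommRing R']

theorem grp2_ext {A A' : Matrix D.B D.B R} (h : ∀ b, A *ᵥ D.bv R b = A' *ᵥ D.bv R b) :
    A = A' := by
  ext k j
  have := congrFun (h j) k
  simpa [bv] using this

theorem grp2_vecMul (χ : D.B → R) (A : Matrix D.B D.B R) (j : D.B) :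
    (χ ᵥ* A) j = χ ⬝ᵥ (A *ᵥ D.bv R j) := by
  rw [dotProduct_mulVec, bv, dotProduct_single, mul_one]

theorem grp2_hv_sub (y z : D.σ → R) (c : R) : D.hv (y - c • z) = D.hv y - c • D.hv z := by
  funext k
  rcases k with a | β <;> simp [hv]

theorem grp2_hv_neg (z : D.σ → R) : D.hv (-z) = -D.hv z := by
  funext k
  rcases k with a | β <;> simp [hv]

theorem grp2_two (α : D.ι) : ∑ a, (D.rt α a : R) * (D.cr α a : R) = 2 := by
  have := congrArg (Int.cast : ℤ → R) (D.two α)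
  simpa [dotProduct] using this

theorem grp2_tM_hv (u : D.Δ → Rˣ) (y : D.σ → R) : D.tM u *ᵥ D.hv y = D.hv y := by
  funext k
  rw [RD.tM, mulVec_diagonal]
  rcases k with a | β
  · have : D.wt (.inl a) = 0 := rfl
    rw [this, D.chr_zero, Units.val_one, one_mul]
  · simp [hv]

theorem grp2_tM_e (u : D.Δ → Rˣ) (β : D.ι) :
    D.tM u *ᵥ D.e R β = (D.chr u (D.co β) : R) • D.e R β := by
  funext k
  rw [RD.tM, mulVec_diagonal, Pi.smul_apply, smul_eq_mul]
  by_cases h : k = .inr β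
  · subst h
    rfl
  · simp [bv, h]

theorem grp2_chr_sum (u : D.Δ → Rˣ) (s : Finset D.Δ) (x : D.Δ → ℤ) (f : D.Δ → D.Δ → ℤ) :
    D.chr u (∑ j ∈ s, x j • f j) = ∏ j ∈ s, D.chr u (f j) ^ x j := by
  induction s using Finset.induction_on with
  | empty => simp [D.chr_zero]
  | insert a s ha ih => rw [Finset.sum_insert ha, Finset.prod_insert ha, D.chr_add, ih, D.chr_zsmul]

theorem grp2_chr_rf (α γ : D.ι) (u : D.Δ → Rˣ) :
    D.chr (fun j => D.chr u (D.co (D.rf α (D.s j)))) (D.co γ) = D.chr u (D.co (D.rf α γ)) := by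
  have e : D.co (D.rf α γ) = ∑ j, D.co γ j • D.co (D.rf α (D.s j)) := by
    simp only [D.co_rf, D.co_s, smul_sub, Finset.sum_sub_distrib, smul_smul, ← Finset.sum_smul]
    rw [← D.pr_eq_co]
    congr 1
    funext i
    simp [Finset.sum_apply, Pi.single_apply]
  rw [e, grp2_chr_sum]
  rfl

theorem nM_map (φ : R →+* R') (α : D.ι) (t : Rˣ) :
    (D.nM α t).map φ = D.nM α (Units.map φ.toMonoidHom t) := by
  rw [nM, nM, Matrix.map_mul, Matrix.map_mul, xM_map, xM_map, map_neg, ← map_inv]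
  rfl

theorem nW_map (φ : R →+* R') (l : List D.Δ) : (D.nW R l).map φ = D.nW R' l := by
  induction l with
  | nil => exact Matrix.map_one _ (map_zero φ) (map_one φ)
  | cons i l ih =>
    rw [nW, List.map_cons, List.prod_cons, Matrix.map_mul, nM_map, map_one]
    rw [nW] at ih
    rw [ih, nW, nW, List.map_cons, List.prod_cons]

theorem nM_mem {S : Set D.ι} {α : D.ι} (h : α ∈ S) (h' : D.neg α ∈ S) (t : Rˣ) :
    D.nM α t ∈ D.GS R S :=
  mul_mem (mul_mem (xM_mem h _) (xM_mem h' _)) (xM_mem h _)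

theorem nW_mem (l : List D.Δ) : D.nW R l ∈ D.G R := by
  induction l with
  | nil => exact one_mem _
  | cons i l ih =>
    rw [nW, List.map_cons, List.prod_cons]
    exact mul_mem (D.nM_mem (Set.mem_univ _) (Set.mem_univ _) _) ih

theorem nW_nil : D.nW R [] = 1 := rfl

theorem nW_cons (i : D.Δ) (l : List D.Δ) :
    D.nW R (i :: l) = D.nM (D.s i) (1 : Rˣ) * D.nW R l := by
  rw [nW, List.map_cons, List.prod_cons, nW]

theorem nM_mul_neg (α : D.ι) (t : Rˣ) : D.nM α t * D.nM α (-t) = 1 := by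
  have h1 : D.xM α (t : R) * D.xM α ((-t : Rˣ) : R) = 1 := by
    rw [← xM_add, Units.val_neg, add_neg_cancel, xM_zero]
  have h2 : D.xM (D.neg α) (-(t⁻¹ : Rˣ) : R) * D.xM (D.neg α) (-((-t)⁻¹ : Rˣ) : R) = 1 := by
    rw [← xM_add, inv_neg, Units.val_neg, _root_.neg_neg, neg_add_cancel, xM_zero]
  rw [nM, nM]
  calc _ = D.xM α (t : R) * (D.xM (D.neg α) (-(t⁻¹ : Rˣ) : R) *
        (D.xM α (t : R) * D.xM α ((-t : Rˣ) : R)) * D.xM (D.neg α) (-((-t)⁻¹ : Rˣ) : R)) *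
        D.xM α ((-t : Rˣ) : R) := by simp only [mul_assoc]
    _ = 1 := by rw [h1, mul_one, h2, mul_one, h1]

theorem nM_hv (α : D.ι) (t : Rˣ) (y : D.σ → R) : D.nM α t *ᵥ D.hv y
    = D.hv (y - (∑ a, (D.rt α a : R) * y a) • fun a => (D.cr α a : R)) := by
  set c := ∑ a, (D.rt α a : R) * y a with hc
  have ht : (t : R) * ((t⁻¹ : Rˣ) : R) = 1 := Units.mul_inv t
  have h1 : ∑ a, (D.rt (D.neg α) a : R) * y a = -c := by
    rw [D.rt_neg, hc, ← Finset.sum_neg_distrib]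
    exact Finset.sum_congr rfl fun a _ => by simp
  have h2 := D.xM_neg (D.neg α) (-(t⁻¹ : Rˣ) : R)
  have h2' : (fun a => (D.cr (D.neg α) a : R)) = -fun a => (D.cr α a : R) := by
    funext a
    simp [D.cr_neg]
  rw [D.neg_neg, h2', grp2_hv_neg] at h2
  have h3 : ∑ a, (D.rt α a : R) * (y - c • fun a => (D.cr α a : R)) a = -c := by
    have : ∀ a, (D.rt α a : R) * (y - c • fun a => (D.cr α a : R)) a
        = (D.rt α a : R) * y a - c * ((D.rt α a : R) * (D.cr α a : R)) := fun a => by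
      simp only [Pi.sub_apply, Pi.smul_apply, smul_eq_mul]
      ring
    rw [Finset.sum_congr rfl fun a _ => this a, Finset.sum_sub_distrib, ← Finset.mul_sum,
      grp2_two, ← hc]
    ring
  have h4 : D.xM (D.neg α) (-(t⁻¹ : Rˣ) : R) *ᵥ (D.hv y - ((t : R) * c) • D.e R α)
      = D.hv (y - c • fun a => (D.cr α a : R)) - ((t : R) * c) • D.e R α := by
    rw [mulVec_sub, mulVec_smul, xM_hv, h1, h2, grp2_hv_sub]
    linear_combination (norm := module)
      (c * ((t⁻¹ : Rˣ) : R) * ht) • D.e R (D.neg α) - (c * ht) • D.hv fun a => (D.cr α a : R)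
  rw [nM, ← mulVec_mulVec, ← mulVec_mulVec, xM_hv, ← hc, h4, mulVec_sub, mulVec_smul, xM_hv, h3,
    xM_self]
  module

theorem grp2_lie_h (a : D.σ) (v : D.g ℤ) (k : D.B) :
    ⁅D.h ℤ a, v⁆ k = Sum.elim (fun _ => 0) (fun γ => D.rt γ a) k * v k := by
  rw [lie_adM, mulVec, dotProduct, Fintype.sum_sum_type]
  rcases k with b | γ <;> simp [adM, RD.c]

theorem grp2_wt (α β : D.ι) (t : ℤˣ) :
    D.nM α t *ᵥ D.e ℤ β = D.nM α t (.inr (D.rf α β)) (.inr β) • D.e ℤ (D.rf α β) := by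
  have hA : D.IsAut (D.nM α t) := GS_aut (D.nM_mem (Set.mem_univ _) (Set.mem_univ _) t)
  set v := D.nM α t *ᵥ D.e ℤ β with hv'
  have key : ∀ a, ⁅D.h ℤ a, v⁆ = D.rt (D.rf α β) a • v := by
    intro a
    set y : D.σ → ℤ := Pi.single a 1 - D.rt α a • D.cr α with hy
    have h1 : ∑ b, D.rt α b * y b = -D.rt α a := by
      change D.rt α ⬝ᵥ y = _
      rw [hy, dotProduct_sub, dotProduct_single, dotProduct_smul, D.two, smul_eq_mul]
      ring
    have h2 : ∑ b, D.rt β b * y b = D.rt (D.rf α β) a := by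
      change D.rt β ⬝ᵥ y = _
      rw [hy, dotProduct_sub, dotProduct_single, dotProduct_smul, D.rt_rf]
      simp only [smul_eq_mul, Pi.sub_apply, Pi.smul_apply]
      ring
    have h3 := hA (D.hv y) (D.e ℤ β)
    rw [lie_hv_e, nM_hv, mulVec_smul] at h3
    simp only [Int.cast_id] at h3
    rw [h1, h2] at h3
    have h4 : (y - -D.rt α a • fun a => D.cr α a) = Pi.single a 1 := by
      rw [hy]
      funext b
      simp
    rw [h4, hv_single] at h3
    exact h3.symm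
  funext k
  by_cases hk : k = .inr (D.rf α β)
  · subst hk
    simp [hv', bv]
  · have h0 : D.e ℤ (D.rf α β) k = 0 := by simp [bv, hk]
    rw [Pi.smul_apply, h0, smul_zero]
    by_contra hne
    have h5 : ∀ a, Sum.elim (fun _ => 0) (fun γ => D.rt γ a) k = D.rt (D.rf α β) a := fun a => by
      have := congrFun (key a) k
      rw [grp2_lie_h, Pi.smul_apply, smul_eq_mul] at this
      exact mul_right_cancel₀ hne this
    rcases k with b | γ
    · have h6 : D.rt (D.rf α β) = 0 := funext fun a => (h5 a).symm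
      have := D.two (D.rf α β)
      rw [h6, zero_dotProduct] at this
      omega
    · exact hk (congrArg _ (D.rt_inj (funext h5)))

/-- the signs -/
def eta (α β : D.ι) : ℤ := D.nM α (1 : ℤˣ) (.inr (D.rf α β)) (.inr β)

theorem eta_sq (α β : D.ι) : D.eta α β * D.eta α β = 1 := by
  have h1 := D.nM_mul_neg α (-1 : ℤˣ)
  rw [_root_.neg_neg] at h1
  have h2 := congrArg (· *ᵥ D.e ℤ β) h1
  simp only [← mulVec_mulVec, one_mulVec] at h2
  rw [grp2_wt, mulVec_smul, grp2_wt, D.rf_rf, smul_smul] at h2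
  have h3 := congrFun h2 (.inr β)
  simp only [Pi.smul_apply, bv, Pi.single_eq_same, smul_eq_mul, mul_one] at h3
  rcases Int.eq_one_or_neg_one_of_mul_eq_one h3 with h | h <;> rw [eta, h] <;> rfl

theorem grp2_cast (α : D.ι) :
    (D.nM α (1 : ℤˣ)).map (Int.cast : ℤ → R) = D.nM α (1 : Rˣ) := by
  have := D.nM_map (Int.castRingHom R) α 1
  rwa [map_one] at this

theorem nM_e (α β : D.ι) :
    D.nM α (1 : Rˣ) *ᵥ D.e R β = (D.eta α β : R) • D.e R (D.rf α β) := by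
  funext k
  have h := congrArg (Int.cast : ℤ → R) (congrFun (D.grp2_wt α β 1) k)
  rw [← grp2_cast, eta]
  by_cases hk : k = .inr (D.rf α β)
  · subst hk
    simp [bv]
  · simpa [bv, hk] using h

theorem grp2_dp (α β : D.ι) (j : ℕ) : D.nM α (1 : ℤˣ) * D.dp β j
    = D.eta α β ^ j • (D.dp (D.rf α β) j * D.nM α (1 : ℤˣ)) := by
  have hA : D.IsAut (D.nM α (1 : ℤˣ)) := GS_aut (D.nM_mem (Set.mem_univ _) (Set.mem_univ _) _)
  have hid : ∀ i, (D.adM i).map (Int.cast : ℤ → ℤ) = D.adM i := fun i => by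
    ext k j
    simp
  have h1 : D.nM α (1 : ℤˣ) * D.adM (.inr β)
      = D.eta α β • (D.adM (.inr (D.rf α β)) * D.nM α (1 : ℤˣ)) := by
    apply grp2_ext
    intro b
    have := hA (D.e ℤ β) (D.bv ℤ b)
    rw [nM_e, smul_lie, lie_adM, lie_adM, hid, hid, Int.cast_id] at this
    rw [← mulVec_mulVec, this, smul_mulVec, ← mulVec_mulVec]
  have h2 : ∀ j : ℕ, D.nM α (1 : ℤˣ) * D.adM (.inr β) ^ j
      = D.eta α β ^ j • (D.adM (.inr (D.rf α β)) ^ j * D.nM α (1 : ℤˣ)) := fun j => by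
    induction j with
    | zero => simp
    | succ j ih =>
      rw [pow_succ, ← mul_assoc, ih, smul_mul_assoc, mul_assoc, h1, mul_smul_comm, smul_smul,
        ← mul_assoc, ← pow_succ, ← pow_succ]
  have h3 := h2 j
  rw [← dp_fact, ← dp_fact, mul_smul_comm, smul_mul_assoc, smul_comm] at h3
  ext k i
  have h4 := congrFun (congrFun h3 k) i
  simp only [Matrix.smul_apply, smul_eq_mul] at h4 ⊢
  exact mul_left_cancel₀ (Int.natCast_ne_zero.mpr j.factorial_ne_zero) h4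

theorem nM_xM (α β : D.ι) (t : R) :
    D.nM α (1 : Rˣ) * D.xM β t = D.xM (D.rf α β) (D.eta α β * t) * D.nM α (1 : Rˣ) := by
  rw [xM, xM, Finset.mul_sum, Finset.sum_mul]
  refine Finset.sum_congr rfl fun j _ => ?_
  have h := congrArg (Int.castRingHom R).mapMatrix (D.grp2_dp α β j)
  rw [map_zsmul, map_mul, map_mul] at h
  simp only [RingHom.mapMatrix_apply, Int.coe_castRingHom, grp2_cast] at h
  rw [mul_smul_comm, h, smul_mul_assoc, mul_pow, mul_comm ((D.eta α β : R) ^ j), mul_smul,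
    ← Int.cast_pow, Int.cast_smul_eq_zsmul]

theorem nM_tM (α : D.ι) (u : D.Δ → Rˣ) : D.nM α (1 : Rˣ) * D.tM u
    = D.tM (fun j => D.chr u (D.co (D.rf α (D.s j)))) * D.nM α (1 : Rˣ) := by
  apply grp2_ext
  rintro (a | β)
  · have : D.bv R (.inl a) = D.hv (Pi.single a (1 : R)) := (D.hv_single a).symm
    rw [this, ← mulVec_mulVec, ← mulVec_mulVec, grp2_tM_hv, nM_hv, grp2_tM_hv]
  · rw [← mulVec_mulVec, ← mulVec_mulVec, grp2_tM_e, mulVec_smul, nM_e, mulVec_smul, grp2_tM_e,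
      grp2_chr_rf, D.rf_rf, smul_comm]

theorem nM_eq (α : D.ι) (t : Rˣ) : ∃ u, D.nM α t = D.tM u * D.nM α (1 : Rˣ) := by
  obtain ⟨d, hd⟩ := D.co_prim α
  set u : D.Δ → Rˣ := fun i => t ^ d i with hu
  have h1 : D.chr u (D.co α) = t := by
    rw [hu, D.chr_pow]
    have : ∑ i, D.co α i * d i = 1 := by simpa [RD.dg] using hd
    rw [this, zpow_one]
  have h2 : D.chr u (D.co (D.neg α)) = t⁻¹ := by rw [D.co_neg, D.chr_neg, h1]
  have h3 : D.tM u * D.nM α (1 : Rˣ) = D.nM α t * D.tM u := by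
    rw [nM, nM, ← mul_assoc, ← mul_assoc, tM_xM, mul_assoc _ (D.tM u), tM_xM, ← mul_assoc,
      mul_assoc _ (D.tM u), tM_xM, ← mul_assoc, h1, h2]
    simp
  refine ⟨u * fun j => D.chr u⁻¹ (D.co (D.rf α (D.s j))), ?_⟩
  rw [D.tM_mul, mul_assoc, ← nM_tM, ← mul_assoc, h3, mul_assoc, ← D.tM_mul, mul_inv_cancel,
    D.tM_one, mul_one]

theorem nM_xM_self (α : D.ι) (t : Rˣ) : D.nM α (-t) * D.xM α (t : R)
    = D.xM α (-t : R) * D.xM (D.neg α) ((t⁻¹ : Rˣ) : R) := by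
  rw [nM, mul_assoc, ← xM_add, inv_neg, Units.val_neg, Units.val_neg, _root_.neg_neg,
    neg_add_cancel, xM_zero, mul_one]

theorem nM_GS (α : D.ι) {S S' : Set D.ι} (h : ∀ β ∈ S, D.rf α β ∈ S') {A : Matrix D.B D.B R}
    (hA : A ∈ D.GS R S) : ∃ A' ∈ D.GS R S', D.nM α (1 : Rˣ) * A = A' * D.nM α (1 : Rˣ) := by
  refine GS_induction
    (P := fun A => ∃ A' ∈ D.GS R S', D.nM α (1 : Rˣ) * A = A' * D.nM α (1 : Rˣ))
    ⟨1, one_mem _, by rw [mul_one, one_mul]⟩ ?_ ?_ hA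
  · rintro A - ⟨A', h1, h2⟩ β hβ t
    exact ⟨_, mul_mem h1 (xM_mem (h β hβ) _),
      by rw [← mul_assoc, h2, mul_assoc, nM_xM, ← mul_assoc]⟩
  · rintro A - ⟨A', h1, h2⟩ u
    exact ⟨_, mul_mem h1 (tM_mem _), by rw [← mul_assoc, h2, mul_assoc, nM_tM, ← mul_assoc]⟩

theorem nW_xM (l : List D.Δ) (β : D.ι) : ∃ η : ℤ, η * η = 1 ∧
    ∀ t : R, D.nW R l * D.xM β t = D.xM (D.rw l β) (η * t) * D.nW R l := by
  induction l with
  | nil => exact ⟨1, rfl, fun t => by simp [nW_nil, RD.rw]⟩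
  | cons i l ih =>
    obtain ⟨η, h1, h2⟩ := ih
    refine ⟨D.eta (D.s i) (D.rw l β) * η, ?_, fun t => ?_⟩
    · rw [mul_mul_mul_comm, eta_sq, h1, mul_one]
    · rw [nW_cons, mul_assoc, h2, ← mul_assoc, nM_xM, mul_assoc, Int.cast_mul,
        mul_assoc _ (η : R)]
      rfl

theorem grp2_nW_tM (l : List D.Δ) (u : D.Δ → Rˣ) :
    ∃ u', D.nW R l * D.tM u = D.tM u' * D.nW R l := by
  induction l with
  | nil => exact ⟨u, by rw [nW_nil, mul_one, one_mul]⟩
  | cons i l ih =>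
    obtain ⟨u', h⟩ := ih
    exact ⟨_, by rw [nW_cons, mul_assoc, h, ← mul_assoc, nM_tM, mul_assoc]⟩

theorem grp2_tM_nW (l : List D.Δ) (u : D.Δ → Rˣ) :
    ∃ u', D.tM u * D.nW R l = D.nW R l * D.tM u' := by
  induction l generalizing u with
  | nil => exact ⟨u, by rw [nW_nil, mul_one, one_mul]⟩
  | cons i l ih =>
    obtain ⟨u', h⟩ := ih fun j => D.chr u (D.co (D.rf (D.s i) (D.s j)))
    refine ⟨u', ?_⟩
    rw [nW_cons, mul_assoc, ← h, ← mul_assoc, ← mul_assoc, nM_tM]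
    simp only [grp2_chr_rf, D.rf_rf, D.co_s, D.chr_single]

theorem nW_GS (l : List D.Δ) {S S' : Set D.ι} (h : ∀ β ∈ S, D.rw l β ∈ S')
    {A : Matrix D.B D.B R} (hA : A ∈ D.GS R S) : ∃ A' ∈ D.GS R S', D.nW R l * A = A' * D.nW R l := by
  refine GS_induction (P := fun A => ∃ A' ∈ D.GS R S', D.nW R l * A = A' * D.nW R l)
    ⟨1, one_mem _, by rw [mul_one, one_mul]⟩ ?_ ?_ hA
  · rintro A - ⟨A', h1, h2⟩ β hβ t
    obtain ⟨η, -, h3⟩ := D.nW_xM (R := R) l β
    exact ⟨_, mul_mem h1 (xM_mem (h β hβ) _), by rw [← mul_assoc, h2, mul_assoc, h3, ← mul_assoc]⟩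
  · rintro A - ⟨A', h1, h2⟩ u
    obtain ⟨u', h3⟩ := D.grp2_nW_tM l u
    exact ⟨_, mul_mem h1 (tM_mem u'), by rw [← mul_assoc, h2, mul_assoc, h3, ← mul_assoc]⟩

theorem GS_nW (l : List D.Δ) {S S' : Set D.ι} (h : ∀ β, D.rw l β ∈ S → β ∈ S')
    {A : Matrix D.B D.B R} (hA : A ∈ D.GS R S) : ∃ A' ∈ D.GS R S', A * D.nW R l = D.nW R l * A' := by
  refine GS_induction_left (P := fun A => ∃ A' ∈ D.GS R S', A * D.nW R l = D.nW R l * A')
    ⟨1, one_mem _, by rw [mul_one, one_mul]⟩ ?_ ?_ hA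
  · rintro A - ⟨A', h1, h2⟩ γ hγ t
    obtain ⟨β, rfl⟩ := (D.rw_bij l).2 γ
    obtain ⟨η, h3, h4⟩ := D.nW_xM (R := R) l β
    refine ⟨_, mul_mem (xM_mem (h β hγ) (η * t)) h1, ?_⟩
    rw [mul_assoc, h2, ← mul_assoc, ← mul_assoc, h4, ← mul_assoc (η : R), ← Int.cast_mul, h3,
      Int.cast_one, one_mul]
  · rintro A - ⟨A', h1, h2⟩ u
    obtain ⟨u', h3⟩ := D.grp2_tM_nW l u
    exact ⟨_, mul_mem (tM_mem u') h1, by rw [mul_assoc, h2, ← mul_assoc, h3, mul_assoc]⟩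

/-- simple reflection on weights with values in a ring -/
def srK (i : D.Δ) (μ : D.σ → R) : D.σ → R :=
  μ - (∑ a, μ a * (D.cr (D.s i) a : R)) • fun a => (D.rt (D.s i) a : R)

theorem vecMul_nM_inr (χ : D.B → R) (α β : D.ι) :
    (χ ᵥ* D.nM α (1 : Rˣ)) (.inr β) = D.eta α β * χ (.inr (D.rf α β)) := by
  rw [grp2_vecMul, nM_e, dotProduct_smul, e, bv, dotProduct_single, mul_one, smul_eq_mul]

theorem vecMul_nM_inl (χ : D.B → R) (α : D.ι) (a : D.σ) : (χ ᵥ* D.nM α (1 : Rˣ)) (.inl a)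
    = χ (.inl a) - (∑ b, χ (.inl b) * (D.cr α b : R)) * (D.rt α a : R) := by
  have h0 : D.bv R (.inl a) = D.hv (Pi.single a (1 : R)) := (D.hv_single a).symm
  have h1 : ∑ b, (D.rt α b : R) * (Pi.single a (1 : R) : D.σ → R) b = D.rt α a := by
    simp [Pi.single_apply]
  have h2 : χ ⬝ᵥ D.hv (fun b => (D.cr α b : R)) = ∑ b, χ (.inl b) * (D.cr α b : R) := by
    simp [dotProduct, hv, Fintype.sum_sum_type]
  rw [grp2_vecMul, h0, nM_hv, h1, grp2_hv_sub, ← h0, dotProduct_sub, dotProduct_smul, h2, bv,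
    dotProduct_single, mul_one, smul_eq_mul, mul_comm]

theorem vecMul_nW_inr (l : List D.Δ) (β : D.ι) : ∃ η : ℤ, η * η = 1 ∧
    ∀ χ : D.B → R, (χ ᵥ* D.nW R l) (.inr β) = η * χ (.inr (D.rw l β)) := by
  induction l with
  | nil => exact ⟨1, rfl, fun χ => by simp [nW_nil, RD.rw]⟩
  | cons i l ih =>
    obtain ⟨η, h1, h2⟩ := ih
    refine ⟨η * D.eta (D.s i) (D.rw l β), ?_, fun χ => ?_⟩
    · rw [mul_mul_mul_comm, eta_sq, h1, mul_one]
    · rw [nW_cons, ← vecMul_vecMul, h2, vecMul_nM_inr, Int.cast_mul, mul_assoc]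
      rfl

theorem vecMul_nW_inl (χ : D.B → R) (l : List D.Δ) : (fun a => (χ ᵥ* D.nW R l) (.inl a))
    = l.foldl (fun μ i => D.srK i μ) fun a => χ (.inl a) := by
  induction l generalizing χ with
  | nil => simp [nW_nil]
  | cons i l ih =>
    rw [nW_cons, ← vecMul_vecMul, ih, List.foldl_cons]
    congr 1
    funext a
    rw [vecMul_nM_inl]
    simp [srK]

end CD

end Pool.Agent.P.Bf04
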