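import Pool.Agent.P.MP_bf0464_al.H.HCB

/-! The theorem of Harish-Chandra. -/

namespace Pool.Agent.P.Bf04

open Matrix Module

attribute [local instance 100] LieRing.ofAssociativeRing

universe u v w

open MvPolynomial

namespace CD

variable (D : CD)

theorem hc_mon {σ : Type*} (u c : σ → ℚ) (s : σ →₀ ℕ) :
    (aeval (fun a => Polynomial.C (u a) * Polynomial.X + Polynomial.C (c a))
      (monomial s (1 : ℚ))).natDegree ≤ s.degree ∧
    (aeval (fun a => Polynomial.C (u a) * Polynomial.X + Polynomial.C (c a))
      (monomial s (1 : ℚ))).coeff s.degree = eval u (monomial s (1 : ℚ)) := by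
  induction s using Finsupp.induction_linear with
  | zero => simp
  | add s t hs ht =>
    rw [← one_mul (1 : ℚ), ← monomial_mul, map_mul, map_mul, map_add]
    exact ⟨Polynomial.natDegree_mul_le.trans (add_le_add hs.1 ht.1),
      by rw [Polynomial.coeff_mul_add_eq_of_natDegree_le hs.1 ht.1, hs.2, ht.2]⟩
  | single a k =>
    have h1 : (Polynomial.C (u a) * Polynomial.X + Polynomial.C (c a)).natDegree ≤ 1 :=
      Polynomial.natDegree_linear_le
    rw [← X_pow_eq_monomial, map_pow, map_pow, aeval_X, eval_X, Finsupp.degree_single]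
    refine ⟨by simpa using Polynomial.natDegree_pow_le_of_le k h1, ?_⟩
    have := Polynomial.coeff_pow_of_natDegree_le (m := k) h1
    rw [mul_one] at this
    rw [this]
    simp

theorem hc_coeff {σ : Type*} (u c : σ → ℚ) {f : MvPolynomial σ ℚ} {n : ℕ}
    (hn : ∀ s ∈ f.support, s.degree < n + 1) :
    (aeval (fun a => Polynomial.C (u a) * Polynomial.X + Polynomial.C (c a)) f).coeff n
      = eval u (homogeneousComponent n f) := by
  conv_lhs => rw [f.as_sum]
  conv_rhs => rw [f.as_sum]
  rw [map_sum, map_sum, map_sum, Polynomial.finsetSum_coeff]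
  refine Finset.sum_congr rfl fun s hs => ?_
  have h1 : monomial s (coeff s f) = coeff s f • monomial s (1 : ℚ) := by
    rw [smul_monomial, smul_eq_mul, mul_one]
  rw [h1, map_smul, map_smul, Polynomial.coeff_smul, smul_eval, smul_eq_mul,
    homogeneousComponent_of_mem (isHomogeneous_monomial (1 : ℚ) rfl)]
  congr 1
  split_ifs with h
  · rw [h]; exact (hc_mon u c s).2
  · have := hn s hs
    rw [map_zero]
    exact Polynomial.coeff_eq_zero_of_natDegree_lt ((hc_mon u c s).1.trans_lt (by omega))

theorem hc_eval_aeval {σ τ : Type*} (x : τ → ℚ) (g : σ → MvPolynomial τ ℚ) (f : MvPolynomial σ ℚ) :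
    eval x (aeval g f) = eval (fun a => eval x (g a)) f := by
  induction f using MvPolynomial.induction_on with
  | C a => simp
  | add p q hp hq => simp only [map_add, hp, hq]
  | mul_X p a hp => simp only [map_mul, hp, aeval_X, eval_X]

theorem hc_eval_line {σ : Type*} (t : ℚ) (g : σ → Polynomial ℚ) (f : MvPolynomial σ ℚ) :
    (aeval g f).eval t = eval (fun a => (g a).eval t) f := by
  induction f using MvPolynomial.induction_on with
  | C a => simp
  | add p q hp hq => simp only [map_add, Polynomial.eval_add, hp, hq]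
  | mul_X p a hp => simp only [map_mul, Polynomial.eval_mul, hp, aeval_X, eval_X]

theorem hc_eval_srK (i : D.Δ) (x : D.σ → ℚ) (a : D.σ) :
    eval x (D.srK i (X : D.σ → MvPolynomial D.σ ℚ) a) = D.srK i x a := by
  simp [srK]

theorem DotInv.rat {D : CD} {f : MvPolynomial D.σ ℚ} (h : D.DotInv f) (i : D.Δ) (x : D.σ → ℚ) :
    eval (fun a => D.srK i x a - (D.rt (D.s i) a : ℚ)) f = eval x f := by
  have key : aeval (fun a => D.srK i (X : D.σ → MvPolynomial D.σ ℚ) a
      - C (D.rt (D.s i) a : ℚ)) f = f := by
    refine funext_set (fun _ => Set.range (Int.cast : ℤ → ℚ))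
      (fun _ => Set.infinite_range_of_injective Int.cast_injective) fun y hy => ?_
    choose μ hμ using fun a => hy a (Set.mem_univ a)
    obtain rfl : y = fun a => (μ a : ℚ) := funext fun a => (hμ a).symm
    rw [hc_eval_aeval, ← h i μ]
    congr 2
    funext a
    rw [map_sub, hc_eval_srK, eval_C]
    simp only [srK, RD.dotf, dotProduct, Pi.sub_apply, Pi.smul_apply, smul_eq_mul]
    push_cast
    ring
  conv_rhs => rw [← key]
  rw [hc_eval_aeval]
  simp only [map_sub, hc_eval_srK, eval_C]

theorem DotInv.top {D : CD} {f : MvPolynomial D.σ ℚ} (h : D.DotInv f) {n : ℕ}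
    (hn : ∀ s ∈ f.support, s.degree < n + 1) : D.LinInv (homogeneousComponent n f) := by
  intro i
  refine MvPolynomial.funext fun x => ?_
  rw [hc_eval_aeval]
  simp only [hc_eval_srK]
  rw [← hc_coeff (D.srK i x) (fun a => -(D.rt (D.s i) a : ℚ)) hn, ← hc_coeff x 0 hn]
  congr 1
  refine Polynomial.funext fun t => ?_
  rw [hc_eval_line, hc_eval_line]
  have := h.rat i fun a => x a * t
  simp only [Polynomial.eval_add, Polynomial.eval_mul, Polynomial.eval_C, Polynomial.eval_X,
    Pi.zero_apply, add_zero]
  rw [← this]
  congr 2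
  funext a
  simp only [srK, Pi.sub_apply, Pi.smul_apply, smul_eq_mul, mul_right_comm _ t, ← Finset.sum_mul]
  ring

theorem hc_surj {f : MvPolynomial D.σ ℚ} (h : D.DotInv f) : ∃ z : D.U ℚ, D.Ctr z ∧ D.hc z = f := by
  have key : ∀ (n : ℕ) (f : MvPolynomial D.σ ℚ), D.DotInv f → (∀ s ∈ f.support, s.degree < n) →
      ∃ z : D.U ℚ, D.Ctr z ∧ D.hc z = f := by
    intro n
    induction n with
    | zero =>
      intro f _ hf
      obtain rfl : f = 0 := by
        rw [← MvPolynomial.support_eq_empty, Finset.eq_empty_iff_forall_notMem]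
        exact fun s hs => absurd (hf s hs) (Nat.not_lt_zero _)
      exact ⟨0, fun b => Commute.zero_left _, by simp [hc]⟩
    | succ n ih =>
      intro f h hf
      obtain ⟨F, hF1, hF2, hF3⟩ := D.chev (homogeneousComponent_isHomogeneous n f) (h.top hf)
      obtain ⟨z, hz1, hz2⟩ := D.exists_ctr hF1 hF2
      obtain ⟨z', hz1', hz2'⟩ := ih (f - D.hc z)
        (fun i μ => by rw [map_sub, map_sub, h i μ, D.hc_inv hz1 i μ]) (fun s hs => by
          by_contra hlt
          have h1 : coeff s (D.hc z - D.res F) = 0 :=
            notMem_support_iff.1 fun h' => hlt (hz2.hc s h')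
          have h2 : coeff s (f - homogeneousComponent n f) = 0 := by
            rw [coeff_sub, coeff_homogeneousComponent]
            split_ifs with h3
            · exact sub_self _
            · rw [sub_zero]
              exact notMem_support_iff.1 fun h' => by
                have := hf s h'
                omega
          rw [hF3, coeff_sub] at h1
          rw [coeff_sub] at h2
          refine mem_support_iff.1 hs ?_
          rw [coeff_sub]
          linear_combination h2 - h1)
      refine ⟨z' + z, fun b => (hz1' b).add_left (hz1 b), ?_⟩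
      have : D.hc (z' + z) = D.hc z' + D.hc z := by simp only [hc, map_add]
      rw [this, hz2', sub_add_cancel]
  exact key (f.totalDegree + 1) f h fun s hs => Nat.lt_succ_of_le (by
    rw [Finsupp.degree_apply]
    exact le_totalDegree hs)

end CD

end Pool.Agent.P.Bf04
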