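import Pool.Agent.P.MP_bf0464_al.H.Chev

/-! The theorem of Harish-Chandra over the rational numbers. -/

namespace Pool.Agent.P.Bf04

open Matrix Module

attribute [local instance 100] LieRing.ofAssociativeRing

universe u v w

open MvPolynomial

namespace CD

variable (D : CD)

/-- the symmetrisation map in degree `n`, by recursion on `n` -/
noncomputable def hcaS : ℕ → MvPolynomial D.B ℚ → D.U ℚ
  | 0 => fun F => algebraMap ℚ _ (constantCoeff F)
  | n + 1 => fun F => ((n : ℚ) + 1)⁻¹ • ∑ b, D.ub ℚ b * hcaS n (pderiv b F)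

theorem hcaS_zero (F : MvPolynomial D.B ℚ) :
    D.hcaS 0 F = algebraMap ℚ _ (constantCoeff F) := rfl

theorem hcaS_succ (n : ℕ) (F : MvPolynomial D.B ℚ) :
    D.hcaS (n + 1) F = ((n : ℚ) + 1)⁻¹ • ∑ b, D.ub ℚ b * D.hcaS n (pderiv b F) := rfl

theorem hcaS_add (n : ℕ) : ∀ F G : MvPolynomial D.B ℚ,
    D.hcaS n (F + G) = D.hcaS n F + D.hcaS n G := by
  induction n with
  | zero => intro F G; simp only [hcaS_zero, map_add]
  | succ n ih =>
    intro F G
    simp only [hcaS_succ, map_add, ih, mul_add, Finset.sum_add_distrib, smul_add]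

theorem hcaS_smul (n : ℕ) (c : ℚ) : ∀ F : MvPolynomial D.B ℚ,
    D.hcaS n (c • F) = c • D.hcaS n F := by
  induction n with
  | zero =>
    intro F
    rw [hcaS_zero, hcaS_zero, constantCoeff_smul, smul_eq_mul, map_mul, Algebra.smul_def]
  | succ n ih =>
    intro F
    simp only [hcaS_succ, Derivation.map_smul, ih, mul_smul_comm, ← Finset.smul_sum]
    rw [smul_comm]

/-- the same as a linear map -/
noncomputable def hcaL (n : ℕ) : MvPolynomial D.B ℚ →ₗ[ℚ] D.U ℚ where
  toFun := D.hcaS n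
  map_add' := D.hcaS_add n
  map_smul' := D.hcaS_smul n

theorem hcaL_apply (n : ℕ) (F : MvPolynomial D.B ℚ) : D.hcaL n F = D.hcaS n F := rfl

theorem hca_Dv_X (i j : D.B) : D.Dv ℚ i (X j) = D.lin ⁅D.bv ℚ i, D.bv ℚ j⁆ := by
  unfold Dv
  rw [mkDerivation_X]

theorem hca_const_Dv (i : D.B) (F : MvPolynomial D.B ℚ) : constantCoeff (D.Dv ℚ i F) = 0 := by
  induction F using MvPolynomial.induction_on with
  | C a => rw [derivation_C, map_zero]
  | add p q hp hq => rw [map_add, map_add, hp, hq, add_zero]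
  | mul_X p j hp =>
    rw [Derivation.leibniz, hca_Dv_X]
    simp [lin, smul_eq_mul]

theorem hca_pderiv_lin (b : D.B) (x : D.g ℚ) : pderiv b (D.lin x) = C (x b) := by
  unfold lin
  rw [map_sum, Finset.sum_eq_single b]
  · rw [pderiv_C_mul, pderiv_X_self, mul_one]
  · intro k _ hk
    rw [pderiv_C_mul, pderiv_X_of_ne hk, mul_zero]
  · intro h; exact absurd (Finset.mem_univ b) h

theorem hca_sum_apply {I : Type*} (s : Finset I)
    (d : I → Derivation ℚ (MvPolynomial D.B ℚ) (MvPolynomial D.B ℚ)) (F : MvPolynomial D.B ℚ) :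
    (∑ j ∈ s, d j) F = ∑ j ∈ s, d j F := by
  classical
  induction s using Finset.induction_on with
  | empty => simp
  | insert a s ha ih => rw [Finset.sum_insert ha, Finset.sum_insert ha, Derivation.add_apply, ih]

theorem hca_pderiv_Dv (i b : D.B) (F : MvPolynomial D.B ℚ) :
    pderiv b (D.Dv ℚ i F) = D.Dv ℚ i (pderiv b F) + ∑ j, (D.cc i j b : ℚ) • pderiv j F := by
  have key : ⁅(pderiv b : Derivation ℚ (MvPolynomial D.B ℚ) (MvPolynomial D.B ℚ)), D.Dv ℚ i⁆
      = ∑ j, (D.cc i j b : ℚ) • (pderiv j : Derivation ℚ (MvPolynomial D.B ℚ) _) := by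
    refine derivation_ext fun k => ?_
    rw [Derivation.commutator_apply, hca_Dv_X, hca_pderiv_lin, lie_bv_apply]
    have h1 : D.Dv ℚ i (pderiv b (X k : MvPolynomial D.B ℚ)) = 0 := by
      by_cases h : k = b
      · rw [h, pderiv_X_self, Derivation.map_one_eq_zero]
      · rw [pderiv_X_of_ne h, map_zero]
    rw [h1, sub_zero, hca_sum_apply, Finset.sum_eq_single k]
    · rw [Derivation.smul_apply, pderiv_X_self, smul_eq_C_mul, mul_one]
    · intro j _ hj
      rw [Derivation.smul_apply, pderiv_X_of_ne (Ne.symm hj), smul_zero]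
    · intro h; exact absurd (Finset.mem_univ k) h
  have h2 := congrArg (fun d : Derivation ℚ (MvPolynomial D.B ℚ) (MvPolynomial D.B ℚ) => d F) key
  simp only [Derivation.commutator_apply, hca_sum_apply, Derivation.smul_apply] at h2
  rw [← h2]; abel

theorem hca_ub_comm (i j : D.B) : D.ub ℚ i * D.ub ℚ j - D.ub ℚ j * D.ub ℚ i
    = ∑ k, (D.cc i j k : ℚ) • D.ub ℚ k := by
  have h := (UniversalEnvelopingAlgebra.ι ℚ (L := D.g ℚ)).map_lie (D.bv ℚ i) (D.bv ℚ j)
  rw [lie_bv, map_sum, Ring.lie_def] at h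
  unfold ub
  rw [← h]
  refine Finset.sum_congr rfl fun k _ => ?_
  rw [map_zsmul, Int.cast_smul_eq_zsmul]

theorem hca_equiv (i : D.B) (n : ℕ) : ∀ F : MvPolynomial D.B ℚ,
    D.ub ℚ i * D.hcaS n F - D.hcaS n F * D.ub ℚ i = D.hcaS n (D.Dv ℚ i F) := by
  induction n with
  | zero =>
    intro F
    rw [hcaS_zero, hcaS_zero, hca_const_Dv, map_zero, Algebra.commutes, sub_self]
  | succ n ih =>
    intro F
    rw [hcaS_succ, hcaS_succ, mul_smul_comm, smul_mul_assoc, ← smul_sub]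
    refine congrArg _ ?_
    have e1 : ∀ b, D.ub ℚ b * D.hcaS n (pderiv b (D.Dv ℚ i F))
        = D.ub ℚ b * (D.ub ℚ i * D.hcaS n (pderiv b F) - D.hcaS n (pderiv b F) * D.ub ℚ i)
          + ∑ j, ((D.cc i j b : ℚ) • D.ub ℚ b) * D.hcaS n (pderiv j F) := by
      intro b
      rw [hca_pderiv_Dv, hcaS_add, ih, mul_add, ← hcaL_apply D n (∑ j, _), map_sum, Finset.mul_sum]
      refine congrArg _ (Finset.sum_congr rfl fun j _ => ?_)
      rw [map_smul, hcaL_apply, mul_smul_comm, smul_mul_assoc]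
    rw [Finset.sum_congr rfl fun b _ => e1 b, Finset.sum_add_distrib, Finset.sum_comm,
      Finset.mul_sum, Finset.sum_mul, ← Finset.sum_sub_distrib, ← Finset.sum_add_distrib]
    refine Finset.sum_congr rfl fun b _ => ?_
    rw [← Finset.sum_mul, ← hca_ub_comm]
    noncomm_ring

theorem hca_exists_list (s : D.B →₀ ℕ) : ∃ l : List D.B, l.length = s.degree ∧
    (l.map (X : D.B → MvPolynomial D.B ℚ)).prod = monomial s 1 := by
  induction s using Finsupp.induction_linear with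
  | zero => exact ⟨[], by simp, by simp⟩
  | add f g hf hg =>
    obtain ⟨l, h1, h2⟩ := hf
    obtain ⟨l', h1', h2'⟩ := hg
    refine ⟨l ++ l', by rw [List.length_append, h1, h1', map_add], ?_⟩
    rw [List.map_append, List.prod_append, h2, h2', monomial_mul, mul_one]
  | single a k =>
    refine ⟨List.replicate k a, by rw [List.length_replicate, Finsupp.degree_single], ?_⟩
    rw [List.map_replicate, List.prod_replicate, X_pow_eq_monomial]

theorem hca_ub_mem (b : D.B) : D.ub ℚ b ∈ D.Fil ℚ (1 + 1) :=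
  Submodule.subset_span ⟨[b], by simp, by simp [word]⟩

theorem hca_ub_pbw (b : D.B) {n : ℕ} {G : MvPolynomial D.B ℚ} (hG : G.IsHomogeneous n) :
    D.ub ℚ b * D.pbw ℚ G - D.pbw ℚ (X b * G) ∈ D.Fil ℚ (n + 1) := by
  rw [G.as_sum, map_sum, Finset.mul_sum, Finset.mul_sum, map_sum, ← Finset.sum_sub_distrib]
  refine Submodule.sum_mem _ fun s hs => ?_
  have hd : s.degree = n := by
    by_contra h
    exact mem_support_iff.1 hs (hG.coeff_eq_zero h)
  obtain ⟨l, h1, h2⟩ := D.hca_exists_list s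
  have e : (monomial s (coeff s G) : MvPolynomial D.B ℚ) = coeff s G • (l.map X).prod := by
    rw [h2, smul_monomial, smul_eq_mul, mul_one]
  rw [e, map_smul, mul_smul_comm, mul_smul_comm, map_smul, ← smul_sub]
  refine Submodule.smul_mem _ _ ?_
  have h3 := D.word_sub (R := ℚ) l
  have h4 := D.word_sub (R := ℚ) (b :: l)
  have h5 := D.Fil_mul (D.hca_ub_mem b) h3
  rw [h1, hd] at h5
  rw [List.length_cons, h1, hd, List.map_cons, List.prod_cons] at h4
  have e2 : D.word ℚ (b :: l) = D.ub ℚ b * D.word ℚ l := by simp [word]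
  rw [e2] at h4
  rw [add_comm 1 n] at h5
  have h6 := Submodule.sub_mem _ h4 h5
  have e3 : D.ub ℚ b * D.word ℚ l - D.pbw ℚ (X b * (l.map X).prod)
      - D.ub ℚ b * (D.word ℚ l - D.pbw ℚ (l.map X).prod)
      = D.ub ℚ b * D.pbw ℚ (l.map X).prod - D.pbw ℚ (X b * (l.map X).prod) := by
    noncomm_ring
  rwa [e3] at h6

theorem hca_symbol (n : ℕ) : ∀ F : MvPolynomial D.B ℚ, F.IsHomogeneous n →
    D.hcaS n F - D.pbw ℚ F ∈ D.Fil ℚ n := by
  induction n with
  | zero =>
    intro F hF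
    have h : F = C (coeff 0 F) :=
      totalDegree_eq_zero_iff_eq_C.1 ((totalDegree_zero_iff_isHomogeneous _).2 hF)
    rw [hcaS_zero, h, pbw_C, constantCoeff_C, sub_self]
    exact Submodule.zero_mem _
  | succ n ih =>
    intro F hF
    have hn : ((n : ℚ) + 1) ≠ 0 := by positivity
    have e : F = ((n : ℚ) + 1)⁻¹ • ∑ b, X b * pderiv b F := by
      rw [hF.sum_X_mul_pderiv, ← Nat.cast_smul_eq_nsmul ℚ, smul_smul, Nat.cast_succ,
        inv_mul_cancel₀ hn, one_smul]
    have e2 : D.pbw ℚ F = ((n : ℚ) + 1)⁻¹ • ∑ b, D.pbw ℚ (X b * pderiv b F) := by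
      rw [← map_sum, ← map_smul, ← e]
    rw [hcaS_succ, e2, ← smul_sub, ← Finset.sum_sub_distrib]
    refine Submodule.smul_mem _ _ (Submodule.sum_mem _ fun b _ => ?_)
    have hb : (pderiv b F).IsHomogeneous n := by simpa using hF.pderiv (i := b)
    have h1 := D.Fil_mul (D.hca_ub_mem b) (ih _ hb)
    rw [add_comm 1 n] at h1
    have h2 := Submodule.add_mem _ h1 (D.hca_ub_pbw b hb)
    have e3 : D.ub ℚ b * (D.hcaS n (pderiv b F) - D.pbw ℚ (pderiv b F))
        + (D.ub ℚ b * D.pbw ℚ (pderiv b F) - D.pbw ℚ (X b * pderiv b F))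
        = D.ub ℚ b * D.hcaS n (pderiv b F) - D.pbw ℚ (X b * pderiv b F) := by
      noncomm_ring
    rwa [e3] at h2

/-- symmetrisation -/
theorem exists_ctr {n : ℕ} {F : MvPolynomial D.B ℚ} (hn : F.IsHomogeneous n)
    (hF : ∀ i, D.Dv ℚ i F = 0) : ∃ z : D.U ℚ, D.Ctr z ∧ D.Sym n z F := by
  refine ⟨D.hcaS n F, fun b => ?_, hn, D.hca_symbol n F hn⟩
  have h := D.hca_equiv b n F
  rw [hF, ← hcaL_apply D n 0, map_zero] at h
  exact (sub_eq_zero.1 h).symm

end CD

end Pool.Agent.P.Bf04
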