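import Pool.Agent.P.MP_bf0464_al.H.HCA

/-! Invariance of the Harish-Chandra projection. -/

namespace Pool.Agent.P.Bf04

open Matrix Module

attribute [local instance 100] LieRing.ofAssociativeRing

universe u v w

open MvPolynomial

namespace CD

variable (D : CD)

theorem hcb_blk_pos (β : D.ι) : 0 < D.blk (.inr β) ↔ D.Pos β := by
  simp [blk, D.pos_iff_ht]

theorem hcb_blk_nonneg (β : D.ι) : 0 ≤ D.blk (.inr β) ↔ D.Pos β := by
  constructor
  · intro h
    by_contra h'
    have := (D.pos_iff_ht _).1 ((D.pos_neg_iff β).2 h')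
    rw [D.ht_neg] at this
    have h2 : (D.ht β).sign = -1 := Int.sign_eq_neg_one_of_neg (by omega)
    simp [blk, h2] at h
  · intro h
    exact ((D.hcb_blk_pos β).2 h).le

theorem hcb_cc {i j k : D.B} (hi : 0 ≤ D.blk i) (hj : 0 ≤ D.blk j) (h : D.cc i j k ≠ 0) :
    0 < D.blk k := by
  rcases i with a | α <;> rcases j with b | β
  · simp [RD.c] at h
  · simp only [RD.c, ne_eq, ite_eq_right_iff, not_forall] at h
    obtain ⟨rfl, -⟩ := h
    exact (D.hcb_blk_pos β).2 ((D.hcb_blk_nonneg β).1 hj)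
  · simp only [RD.c, ne_eq, ite_eq_right_iff, not_forall] at h
    obtain ⟨rfl, -⟩ := h
    exact (D.hcb_blk_pos α).2 ((D.hcb_blk_nonneg α).1 hi)
  · rw [D.hcb_blk_nonneg] at hi hj
    rcases k with a | γ
    · simp only [RD.c, ne_eq, ite_eq_right_iff, not_forall] at h
      obtain ⟨rfl, -⟩ := h
      exact absurd hi ((D.pos_neg_iff α).1 hj)
    · simp only [RD.c, ne_eq, ite_eq_right_iff, not_forall] at h
      obtain ⟨h, -⟩ := h
      rw [D.hcb_blk_pos, RD.Pos, ← h]
      exact add_nonneg hi hj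

section Str

variable {R : Type v} [CommRing R]

theorem hcb_word_cons (b : D.B) (l : List D.B) : D.word R (b :: l) = D.ub R b * D.word R l := by
  simp [word]

theorem hcb_word_append (l l' : List D.B) : D.word R (l ++ l') = D.word R l * D.word R l' := by
  simp [word]

theorem hcb_comm (i j : D.B) :
    D.ub R i * D.ub R j - D.ub R j * D.ub R i = ∑ k, D.cc i j k • D.ub R k := by
  have := (UniversalEnvelopingAlgebra.ι R (L := D.g R)).map_lie (D.bv R i) (D.bv R j)
  rw [D.lie_bv, map_sum] at this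
  simp only [map_zsmul] at this
  exact this.symm

variable (R) in
/-- short words in the letters of the Borel subalgebra with a positive letter -/
def hcbSp (n : ℕ) : Submodule R (D.U R) :=
  Submodule.span R {z | ∃ l : List D.B, l.length < n ∧ (∀ b ∈ l, 0 ≤ D.blk b) ∧
    (∃ b ∈ l, 0 < D.blk b) ∧ z = D.word R l}

theorem hcb_mul_mem {n : ℕ} {b : D.B} (hb : 0 ≤ D.blk b) {z : D.U R} (hz : z ∈ D.hcbSp R n) :
    D.ub R b * z ∈ D.hcbSp R (n + 1) := by
  induction hz using Submodule.span_induction with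
  | mem z hz =>
    obtain ⟨l, h1, h2, ⟨c, hc, h3⟩, rfl⟩ := hz
    refine Submodule.subset_span ⟨b :: l, by simpa using h1, ?_, ⟨c, by simp [hc], h3⟩,
      (D.hcb_word_cons b l).symm⟩
    intro x hx
    rcases List.mem_cons.1 hx with rfl | hx
    exacts [hb, h2 x hx]
  | zero => simp
  | add x y _ _ hx hy => rw [mul_add]; exact add_mem hx hy
  | smul c x _ hx => rw [mul_smul_comm]; exact Submodule.smul_mem _ c hx

theorem hcb_perm {l l' : List D.B} (h : l.Perm l') (hl : ∀ b ∈ l, 0 ≤ D.blk b) :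
    D.word R l - D.word R l' ∈ D.hcbSp R l.length := by
  induction h with
  | nil => simp
  | cons x _ ih =>
    rw [D.hcb_word_cons, D.hcb_word_cons, ← mul_sub]
    exact D.hcb_mul_mem (hl x (by simp)) (ih fun b hb => hl b (by simp [hb]))
  | swap x y l =>
    rw [D.hcb_word_cons, D.hcb_word_cons, D.hcb_word_cons, D.hcb_word_cons, ← mul_assoc,
      ← mul_assoc, ← sub_mul, D.hcb_comm, Finset.sum_mul]
    refine Submodule.sum_mem _ fun k _ => ?_
    by_cases hk : D.cc y x k = 0
    · simp [hk]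
    have hpos := D.hcb_cc (hl y (by simp)) (hl x (by simp)) hk
    rw [smul_mul_assoc]
    refine zsmul_mem ?_ _
    refine Submodule.subset_span ⟨k :: l, by simp, ?_, ⟨k, by simp, hpos⟩,
      (D.hcb_word_cons k l).symm⟩
    intro c hc
    rcases List.mem_cons.1 hc with rfl | hc
    exacts [hpos.le, hl c (by simp [hc])]
  | trans h1 _ ih1 ih2 =>
    have := add_mem (ih1 hl) (h1.length_eq ▸ ih2 fun b hb => hl b (h1.mem_iff.2 hb))
    rwa [sub_add_sub_cancel] at this

/-- evaluation of the polynomial attached to an element of the enveloping algebra -/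
noncomputable def hcbLam (φ : D.B → R) : D.U R →ₗ[R] R :=
  (aeval φ : MvPolynomial D.B R →ₐ[R] R).toLinearMap ∘ₗ (D.pbw R).symm.toLinearMap

theorem hcbLam_mon (φ : D.B → R) (s : D.B →₀ ℕ) :
    D.hcbLam φ (D.mon R s) = ((Finsupp.toMultiset s).map φ).prod := by
  have h : (D.pbw R).symm (D.mon R s) = monomial s 1 := by
    rw [LinearEquiv.symm_apply_eq, D.pbw_monomial, one_smul]
  simp only [hcbLam, LinearMap.comp_apply, LinearEquiv.coe_coe, h, AlgHom.toLinearMap_apply,
    aeval_monomial, map_one, one_mul]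
  rw [Finsupp.toMultiset_map, Finsupp.prod_toMultiset, Finsupp.prod_mapDomain_index] <;>
    simp [pow_add]

theorem hcbLam_sorted (φ : D.B → R) {l : List D.B} (hl : l.Pairwise D.ord.le) :
    D.hcbLam φ (D.word R l) = (l.map φ).prod := by
  have h : D.word R l = D.mon R (Multiset.toFinsupp (l : Multiset D.B)) := by
    let _ := D.ord
    rw [mon, Multiset.toFinsupp_toMultiset]
    congr 1
    refine List.Perm.eq_of_pairwise' (r := (· ≤ ·)) hl (Multiset.pairwise_sort _ _) ?_
    rw [← Multiset.coe_eq_coe, Multiset.sort_eq]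
  rw [h, D.hcbLam_mon, Multiset.toFinsupp_toMultiset]
  simp

theorem hcb_le_of_blk {a b : D.B} (h : D.blk a < D.blk b) : D.ord.le a b :=
  Prod.Lex.toLex_le_toLex.2 (Or.inl h)

theorem hcb_blk_le {a b : D.B} (h : D.ord.le a b) : D.blk a ≤ D.blk b := by
  rcases Prod.Lex.toLex_le_toLex.1 h with h | h
  exacts [h.le, h.1.le]

theorem hcbLam_word {φ : D.B → R} (hφ : ∀ b, 0 < D.blk b → φ b = 0) {N : List D.B}
    (hN : N.Pairwise D.ord.le) (hN' : ∀ b ∈ N, D.blk b < 0) (n : ℕ) :
    ∀ l : List D.B, l.length = n → (∀ b ∈ l, 0 ≤ D.blk b) →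
      D.hcbLam φ (D.word R (N ++ l)) = ((N ++ l).map φ).prod := by
  induction n using Nat.strong_induction_on with
  | _ n ih =>
    intro l hn hl
    let _ := D.ord
    set l' := (l : Multiset D.B).sort (· ≤ ·) with hl'
    have hp : l.Perm l' := by rw [← Multiset.coe_eq_coe, hl', Multiset.sort_eq]
    have hs : (N ++ l').Pairwise D.ord.le := by
      rw [List.pairwise_append]
      refine ⟨hN, Multiset.pairwise_sort _ _, fun a ha b hb => D.hcb_le_of_blk ?_⟩
      exact (hN' a ha).trans_le (hl b (hp.mem_iff.2 hb))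
    have h0 : ∀ z ∈ D.hcbSp R n, D.hcbLam φ (D.word R N * z) = 0 := by
      intro z hz
      induction hz using Submodule.span_induction with
      | mem z hz =>
        obtain ⟨m, h1, h2, ⟨c, hc, h3⟩, rfl⟩ := hz
        rw [← D.hcb_word_append, ih _ h1 m rfl h2]
        exact List.prod_eq_zero (List.mem_map.2 ⟨c, by simp [hc], hφ c h3⟩)
      | zero => simp
      | add x y _ _ hx hy => rw [mul_add, map_add, hx, hy, add_zero]
      | smul c x _ hx => rw [mul_smul_comm, map_smul, hx, smul_zero]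
    have h1 := h0 _ (hn ▸ D.hcb_perm hp hl)
    rw [mul_sub, map_sub, sub_eq_zero, ← D.hcb_word_append, ← D.hcb_word_append,
      D.hcbLam_sorted φ hs] at h1
    rw [h1]
    exact (((hp.append_left N).map φ).prod_eq).symm

theorem hcb_split {L : List D.B} (hL : L.Pairwise D.ord.le) : ∃ N l : List D.B, L = N ++ l ∧
    N.Pairwise D.ord.le ∧ (∀ b ∈ N, D.blk b < 0) ∧ ∀ b ∈ l, 0 ≤ D.blk b := by
  induction L with
  | nil => exact ⟨[], [], rfl, by simp, by simp, by simp⟩
  | cons a L ih =>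
    rw [List.pairwise_cons] at hL
    by_cases ha : D.blk a < 0
    · obtain ⟨N, l, rfl, h1, h2, h3⟩ := ih hL.2
      refine ⟨a :: N, l, rfl, List.pairwise_cons.2 ⟨fun b hb => hL.1 b (by simp [hb]), h1⟩, ?_, h3⟩
      intro b hb
      rcases List.mem_cons.1 hb with rfl | hb
      exacts [ha, h2 b hb]
    · refine ⟨[], a :: L, rfl, by simp, by simp, fun b hb => ?_⟩
      rcases List.mem_cons.1 hb with rfl | hb
      exacts [not_lt.1 ha, (not_lt.1 ha).trans (D.hcb_blk_le (hL.1 b hb))]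

theorem hcbLam_mul {φ : D.B → R} (hφ : ∀ b, 0 < D.blk b → φ b = 0) {b : D.B} (hb : 0 ≤ D.blk b)
    (z : D.U R) : D.hcbLam φ (z * D.ub R b) = D.hcbLam φ z * φ b := by
  obtain ⟨F, rfl⟩ := (D.pbw R).surjective z
  induction F using MvPolynomial.induction_on' with
  | monomial s c =>
    let _ := D.ord
    obtain ⟨N, l, e, h1, h2, h3⟩ :=
      D.hcb_split (L := (Finsupp.toMultiset s).sort (· ≤ ·)) (Multiset.pairwise_sort _ _)
    have hb' : D.ub R b = D.word R [b] := by simp [word]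
    rw [D.pbw_monomial, smul_mul_assoc, map_smul, map_smul, smul_mul_assoc, mon, e, hb',
      ← D.hcb_word_append, List.append_assoc, D.hcbLam_word hφ h1 h2 _ l rfl h3,
      D.hcbLam_word hφ h1 h2 _ (l ++ [b]) rfl]
    · simp [mul_assoc]
    · intro x hx
      rcases List.mem_append.1 hx with hx | hx
      · exact h3 x hx
      · rw [List.mem_singleton.1 hx]; exact hb
  | add p q hp hq => rw [map_add, add_mul, map_add, map_add, hp, hq, add_mul]

/-- the largest left ideal in the kernel -/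
def hcbId (φ : D.B → R) : Submodule (D.U R) (D.U R) where
  carrier := {u | ∀ x, D.hcbLam φ (x * u) = 0}
  add_mem' {a b} ha hb x := by rw [mul_add, map_add, ha x, hb x, add_zero]
  zero_mem' x := by simp
  smul_mem' c u hu x := by rw [smul_eq_mul, ← mul_assoc]; exact hu _

/-- a highest weight module in which the powers of a negative root vector act freely on the
generator -/
theorem hcb_verma [Nontrivial R] (μ : D.σ → R) (γ : D.ι) (hγ : ¬ D.Pos γ) :
    ∃ (M : Type v) (_ : AddCommGroup M) (_ : Module R M) (ρ : D.g R →ₗ⁅R⁆ End R M) (v : M),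
      (∀ β, D.Pos β → ρ (D.e R β) v = 0) ∧ (∀ a, ρ (D.h R a) v = μ a • v) ∧
      ∀ n : ℕ, ∀ c : R, c • (ρ (D.e R γ) ^ n) v = 0 → c = 0 := by
  let φ : D.B → R := Sum.elim μ fun β => if β = γ then 1 else 0
  have hφ : ∀ b, 0 < D.blk b → φ b = 0 := by
    rintro (a | β) h
    · simp [blk] at h
    · have : β ≠ γ := fun e => hγ (e ▸ (D.hcb_blk_pos β).1 h)
      simp [φ, this]
  let A : D.U R →ₐ[R] End R (D.U R ⧸ D.hcbId φ) := Algebra.lsmul R R _
  have hA : ∀ x y : D.U R, A x (Submodule.Quotient.mk y) = Submodule.Quotient.mk (x * y) :=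
    fun x y => rfl
  refine ⟨D.U R ⧸ D.hcbId φ, inferInstance, inferInstance,
    A.toLieHom.comp (UniversalEnvelopingAlgebra.ι R), Submodule.Quotient.mk 1,
    fun β hβ => ?_, fun a => ?_, fun n c hc => ?_⟩
  · change A (D.ub R (.inr β)) _ = 0
    rw [hA, Submodule.Quotient.mk_eq_zero, mul_one]
    intro x
    rw [D.hcbLam_mul hφ ((D.hcb_blk_nonneg β).2 hβ), hφ _ ((D.hcb_blk_pos β).2 hβ), mul_zero]
  · change A (D.ub R (.inl a)) _ = _
    rw [hA, ← Submodule.Quotient.mk_smul, Submodule.Quotient.eq, mul_one]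
    intro x
    rw [mul_sub, map_sub, D.hcbLam_mul hφ (by simp [blk]), mul_smul_comm, map_smul, mul_one]
    simp [φ, mul_comm]
  · change c • (A (D.ub R (.inr γ)) ^ n) _ = 0 at hc
    rw [← map_pow, hA, ← Submodule.Quotient.mk_smul, Submodule.Quotient.mk_eq_zero, mul_one] at hc
    have h1 := hc 1
    have e : D.ub R (.inr γ) ^ n = D.word R (List.replicate n (.inr γ)) := by simp [word]
    rw [one_mul, map_smul, e, D.hcbLam_sorted φ
      (List.pairwise_replicate.2 (Or.inr (D.ord.le_refl _)))] at h1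
    simpa [φ] using h1

end Str

section Sl2

variable {R : Type v} [CommRing R] {M : Type w} [AddCommGroup M] [Module R M]
  (ρ : D.g R →ₗ⁅R⁆ End R M) {μ : D.σ → R} {v : M}

theorem hcb_swap (x y : D.g R) (w : M) : ρ x (ρ y w) = ρ y (ρ x w) + ρ ⁅x, y⁆ w := by
  rw [LieHom.map_lie, Ring.lie_def]
  simp

theorem hcb_h (h2 : ∀ a, ρ (D.h R a) v = μ a • v) (α : D.ι) (a : D.σ) (k : ℕ) :
    ρ (D.h R a) ((ρ (D.e R (D.neg α)) ^ k) v)
      = (μ a - k * D.rt α a) • (ρ (D.e R (D.neg α)) ^ k) v := by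
  induction k with
  | zero => simp [h2]
  | succ k ih =>
    rw [pow_succ', End.mul_apply, D.hcb_swap, ih, D.lie_h_e, D.rt_neg, map_smul, map_smul,
      LinearMap.smul_apply, ← add_smul]
    congr 1
    simp only [Pi.neg_apply]
    push_cast
    ring

theorem hcb_e (h2 : ∀ a, ρ (D.h R a) v = μ a • v) (α : D.ι) (h1 : ρ (D.e R α) v = 0) (k : ℕ) :
    ρ (D.e R α) ((ρ (D.e R (D.neg α)) ^ (k + 1)) v)
      = (((k : R) + 1) * (∑ a, μ a * D.cr α a - k)) • (ρ (D.e R (D.neg α)) ^ k) v := by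
  have hh : ∀ k : ℕ, ρ ⁅D.e R α, D.e R (D.neg α)⁆ ((ρ (D.e R (D.neg α)) ^ k) v)
      = (∑ a, μ a * D.cr α a - 2 * k) • (ρ (D.e R (D.neg α)) ^ k) v := by
    intro k
    rw [D.lie_e_neg, D.hv_eq_sum, map_sum, LinearMap.sum_apply]
    simp only [map_smul, LinearMap.smul_apply, D.hcb_h ρ h2, smul_smul]
    rw [← Finset.sum_smul]
    congr 1
    have : ∑ a, (D.rt α a : R) * D.cr α a = 2 := by
      exact_mod_cast congrArg (Int.cast : ℤ → R) (D.two α)
    rw [← this, Finset.sum_mul, ← Finset.sum_sub_distrib]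
    exact Finset.sum_congr rfl fun a _ => by ring
  induction k with
  | zero =>
    have := hh 0
    rw [pow_succ', End.mul_apply, D.hcb_swap, this]
    simp [h1]
  | succ k ih =>
    rw [pow_succ', End.mul_apply, D.hcb_swap, ih, hh, map_smul, ← End.mul_apply, ← pow_succ',
      ← add_smul]
    congr 1
    push_cast
    ring

theorem hcb_supp {β : D.ι} {i : D.Δ} (hβ : D.Pos β) (h : ∀ j, j ≠ i → D.co β j = 0) :
    β = D.s i := by
  have e : (1 : ℤ) • D.co β = D.co β i • D.co (D.s i) := by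
    funext j
    rw [D.co_s]
    by_cases hj : j = i
    · subst hj; simp
    · simp [hj, h j hj]
  rcases D.red' one_ne_zero e with h | h
  · exact h
  · rw [h, D.pos_neg_iff] at hβ
    exact absurd (D.pos_s i) hβ

theorem hcb_pos (h1 : ∀ β, D.Pos β → ρ (D.e R β) v = 0) (i : D.Δ) (k : ℕ) :
    ∀ β, D.Pos β → β ≠ D.s i → ρ (D.e R β) ((ρ (D.e R (D.neg (D.s i))) ^ k) v) = 0 := by
  induction k with
  | zero => intro β hβ _; simpa using h1 β hβ
  | succ k ih =>
    intro β hβ hne
    rw [pow_succ', End.mul_apply, D.hcb_swap, ih β hβ hne, map_zero, zero_add]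
    by_cases hγ : ∃ γ, D.co β + D.co (D.neg (D.s i)) = D.co γ
    · obtain ⟨γ, hγ⟩ := hγ
      have hco : ∀ j, j ≠ i → D.co γ j = D.co β j := by
        intro j hj
        rw [← hγ, D.co_neg, D.co_s]
        simp [hj]
      have hpos : D.Pos γ := by
        rcases D.sign γ with h | h
        · exact h
        · refine absurd (D.hcb_supp hβ fun j hj => le_antisymm ?_ (hβ j)) hne
          rw [← hco j hj]; exact h j
      have hne' : γ ≠ D.s i := by
        rintro rfl
        refine hne (D.hcb_supp hβ fun j hj => ?_)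
        rw [← hco j hj, D.co_s]
        simp [hj]
      rw [D.lie_e_e hγ, map_smul, LinearMap.smul_apply, ih γ hpos hne', smul_zero]
    · push Not at hγ
      rw [D.lie_e_e_zero hγ, map_zero, LinearMap.zero_apply]
      intro h
      have := congrArg D.neg h
      rw [D.neg_neg, D.neg_neg] at this
      exact hne this.symm

end Sl2

/-- invariance under the dot action -/
def DotInv {R : Type v} [CommRing R] (f : MvPolynomial D.σ R) : Prop :=
  ∀ (i : D.Δ) (μ : D.σ → ℤ),
    eval (fun a => (D.dotf i μ a : R)) f = eval (fun a => (μ a : R)) f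

theorem hcb_main {z : D.U ℚ} (h : D.Ctr z) (i : D.Δ) (μ : D.σ → ℤ) (n : ℕ)
    (hn : μ ⬝ᵥ D.cr (D.s i) + 1 = n) :
    eval (fun a => (D.dotf i μ a : ℚ)) (D.hc z) = eval (fun a => (μ a : ℚ)) (D.hc z) := by
  obtain ⟨M, _, _, ρ, v, h1, h2, h3⟩ := D.hcb_verma (fun a => (μ a : ℚ)) (D.neg (D.s i))
    (by rw [D.pos_neg_iff]; exact fun h => h (D.pos_s i))
  have g1 : ∀ β, D.Pos β → ρ (D.e ℚ β) ((ρ (D.e ℚ (D.neg (D.s i))) ^ n) v) = 0 := by
    intro β hβ
    by_cases hne : β = D.s i
    · subst hne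
      rcases n with _ | k
      · simpa using h1 _ hβ
      · rw [D.hcb_e ρ h2 _ (h1 _ hβ)]
        have : ∑ a, (μ a : ℚ) * D.cr (D.s i) a = k := by
          have : μ ⬝ᵥ D.cr (D.s i) = k := by push_cast at hn; omega
          exact_mod_cast congrArg (Int.cast : ℤ → ℚ) this
        rw [this]
        simp
    · exact D.hcb_pos ρ h1 i n β hβ hne
  have g2 : ∀ a, ρ (D.h ℚ a) ((ρ (D.e ℚ (D.neg (D.s i))) ^ n) v)
      = (D.dotf i μ a : ℚ) • (ρ (D.e ℚ (D.neg (D.s i))) ^ n) v := by
    intro a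
    rw [D.hcb_h ρ h2, RD.dotf, hn]
    simp
  have e1 := h.w0.hw ρ g1 g2
  have e2 := h.w0.hw ρ h1 h2
  have hc : Commute (UniversalEnvelopingAlgebra.lift ℚ ρ z) (ρ (D.e ℚ (D.neg (D.s i))) ^ n) := by
    have := (h (.inr (D.neg (D.s i)))).map (UniversalEnvelopingAlgebra.lift ℚ ρ)
    rw [ub, UniversalEnvelopingAlgebra.lift_ι_apply] at this
    exact this.pow_right n
  rw [← End.mul_apply, hc.eq, End.mul_apply, e2, map_smul, ← sub_eq_zero, ← sub_smul] at e1
  exact (sub_eq_zero.1 (h3 n _ e1)).symm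

theorem hc_inv {z : D.U ℚ} (h : D.Ctr z) : D.DotInv (D.hc z) := by
  intro i μ
  by_cases hn : 0 ≤ μ ⬝ᵥ D.cr (D.s i) + 1
  · exact D.hcb_main h i μ _ (Int.toNat_of_nonneg hn).symm
  · have hn' : 0 ≤ D.dotf i μ ⬝ᵥ D.cr (D.s i) + 1 := by
      simp only [RD.dotf, sub_dotProduct, smul_dotProduct, D.two, smul_eq_mul]
      omega
    have := D.hcb_main h i (D.dotf i μ) _ (Int.toNat_of_nonneg hn').symm
    rw [D.dotf_invol i μ] at this
    exact this.symm

end CD

end Pool.Agent.P.Bf04
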