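import Pool.Agent.P.MP_bf0464_al.H.SubA

/-! Levi subalgebras and the derived subalgebra. -/

namespace Pool.Agent.P.Bf04

open Matrix Module

attribute [local instance 100] LieRing.ofAssociativeRing

universe u v w

namespace CD

variable (D : CD)

theorem sub_levi_c (J : Finset D.Δ) (i j k : (D.toRD.levi J).B) :
    (D.toRD.levi J).c (fun α β => D.N α.1 β.1) i j k
      = D.cc (D.leviB J i) (D.leviB J j) (D.leviB J k) := by
  have key : ∀ β : (D.toRD.levi J).ι, k = .inr β ↔ D.leviB J k = .inr β.1 := fun β =>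
    ⟨fun h => h ▸ rfl, fun h => D.leviB_inj J (a₂ := .inr β) h⟩
  rcases i with a | α <;> rcases j with b | β
  · rfl
  · exact if_congr (key β) rfl rfl
  · exact if_congr (key α) rfl rfl
  · rcases k with a | γ
    · exact if_congr Subtype.ext_iff rfl rfl
    · exact if_congr (D.levi_co_add J α β γ) rfl rfl

theorem sub_levi_zero (J : Finset D.Δ) (i j : (D.toRD.levi J).B) (k : D.B)
    (hk : k ∉ Set.range (D.leviB J)) : D.cc (D.leviB J i) (D.leviB J j) k = 0 := by
  rcases i with a | α <;> rcases j with b | β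
  · rfl
  · exact if_neg fun h => hk ⟨.inr β, h.symm⟩
  · exact if_neg fun h => hk ⟨.inr α, h.symm⟩
  · rcases k with a | γ
    · exact absurd ⟨.inl a, rfl⟩ hk
    · refine if_neg fun h => hk ⟨.inr ⟨γ, fun i hi => ?_⟩, rfl⟩
      have h1 : D.co α.1 i + D.co β.1 i = D.co γ i := congrFun h i
      rw [← h1, α.2 i hi, β.2 i hi, add_zero]

theorem sub_levi_rel (J : Finset D.Δ) (R : Type v) [CommRing R] (i j : (D.toRD.levi J).B) :
    ⁅D.bv R (D.leviB J i), D.bv R (D.leviB J j)⁆
      = ∑ k, (D.toRD.levi J).c (fun α β => D.N α.1 β.1) i j k • D.bv R (D.leviB J k) := by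
  rw [D.lie_bv]
  refine (Fintype.sum_of_injective (D.leviB J) (D.leviB_inj J) _ _ (fun k hk => ?_)
    fun k => ?_).symm
  · rw [D.sub_levi_zero J i j k hk, zero_smul]
  · rw [D.sub_levi_c]

theorem sub_levi_co (J : Finset D.Δ) (α β δ : (D.toRD.levi J).ι) (r : ℤ)
    (h : (D.toRD.levi J).co δ = (D.toRD.levi J).co β - r • (D.toRD.levi J).co α) :
    D.co δ.1 = D.co β.1 - r • D.co α.1 := by
  funext i
  by_cases hi : i ∈ J
  · exact congrFun h ⟨i, hi⟩
  · rw [Pi.sub_apply, Pi.smul_apply, α.2 i hi, β.2 i hi, δ.2 i hi, smul_zero, sub_zero]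

theorem sub_levi_abs (J : Finset D.Δ) (α β γ : (D.toRD.levi J).ι)
    (h : (D.toRD.levi J).co α + (D.toRD.levi J).co β = (D.toRD.levi J).co γ) (r : ℕ)
    (h1 : ∃ δ, (D.toRD.levi J).co δ = (D.toRD.levi J).co β - (r : ℤ) • (D.toRD.levi J).co α)
    (h2 : ∀ δ, (D.toRD.levi J).co δ
      ≠ (D.toRD.levi J).co β - ((r : ℤ) + 1) • (D.toRD.levi J).co α) :
    |D.N α.1 β.1| = r + 1 := by
  obtain ⟨δ, hδ⟩ := h1
  refine D.N_abs α.1 β.1 γ.1 ((D.levi_co_add J α β γ).1 h) r
    ⟨δ.1, D.sub_levi_co J α β δ _ hδ⟩ fun ε hε => ?_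
  refine h2 ⟨ε, fun i hi => ?_⟩ (funext fun i => congrFun hε i.1)
  rw [hε, Pi.sub_apply, Pi.smul_apply, α.2 i hi, β.2 i hi, smul_zero, sub_zero]

theorem sub_bv_li : LinearIndependent ℤ (D.bv ℤ) := Pi.linearIndependent_single_one D.B ℤ

/-- images of the basis vectors of the simply connected algebra -/
def subScB (R : Type v) [CommRing R] : D.toRD.sc.B → D.g R :=
  Sum.elim (fun i => D.hv fun a => (D.cr (D.s i) a : R)) (D.e R)

theorem sub_hv_cr (R : Type v) [CommRing R] (α : D.ι) :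
    ∑ a, D.cr α a • D.h R a = ∑ i, D.cco α i • D.hv fun a => (D.cr (D.s i) a : R) := by
  have h1 : ∑ a, D.cr α a • D.h R a = D.hv fun a => (D.cr α a : R) := by
    rw [D.hv_eq_sum]
    exact Finset.sum_congr rfl fun a _ => (Int.cast_smul_eq_zsmul R _ _).symm
  rw [h1]
  funext k
  rw [Finset.sum_apply]
  rcases k with a | β
  · have h2 := congrFun (D.cr_cco α) a
    rw [Finset.sum_apply] at h2
    change ((D.cr α a : ℤ) : R) = ∑ i, D.cco α i • ((D.cr (D.s i) a : ℤ) : R)
    rw [h2, Int.cast_sum]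
    exact Finset.sum_congr rfl fun i _ => by simp
  · exact (Finset.sum_eq_zero fun i _ => smul_zero (D.cco α i)).symm

theorem sub_sc_he (R : Type v) [CommRing R] (i : D.Δ) (β : D.ι) :
    ⁅D.subScB R (.inl i), D.subScB R (.inr β)⁆ = D.pr β (D.s i) • D.subScB R (.inr β) :=
  (D.lie_cr_e (D.s i) β).trans (Int.cast_smul_eq_zsmul R _ _)

theorem sub_sc_ee (R : Type v) [CommRing R] (α β : D.ι) :
    ∑ a, (if β = D.neg α then D.cr α a else 0) • D.h R a
      = ∑ i : D.Δ, (if β = D.neg α then D.cco α i else 0) • D.hv fun a => (D.cr (D.s i) a : R) := by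
  by_cases h : β = D.neg α
  · simp only [if_pos h]
    exact D.sub_hv_cr R α
  · simp only [if_neg h, zero_smul, Finset.sum_const_zero]

theorem sub_sc_rel (R : Type v) [CommRing R] (i j : D.toRD.sc.B) :
    ⁅D.subScB R i, D.subScB R j⁆ = ∑ k, D.toRD.sc.c D.N i j k • D.subScB R k := by
  rcases i with a | α <;> rcases j with b | β
  · exact (D.lie_hv_hv _ _).trans (Finset.sum_eq_zero fun k _ => zero_smul _ _).symm
  · refine (D.sub_sc_he R a β).trans (Eq.symm ?_)
    refine (Finset.sum_eq_single (.inr β) (fun k _ hk => ?_) fun h => ?_).trans ?_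
    · exact (congrArg (· • D.subScB R k) (if_neg hk)).trans (zero_smul _ _)
    · exact absurd (Finset.mem_univ _) h
    · exact congrArg (· • D.subScB R (.inr β)) (if_pos rfl)
  · refine ((lie_skew _ _).symm.trans (congrArg Neg.neg (D.sub_sc_he R b α))).trans ?_
    refine (neg_smul _ _).symm.trans (Eq.symm ?_)
    refine (Finset.sum_eq_single (.inr α) (fun k _ hk => ?_) fun h => ?_).trans ?_
    · exact (congrArg (· • D.subScB R k) (if_neg hk)).trans (zero_smul _ _)
    · exact absurd (Finset.mem_univ _) h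
    · exact congrArg (· • D.subScB R (.inr α)) (if_pos rfl)
  · refine (D.lie_bv (R := R) (.inr α) (.inr β)).trans ?_
    rw [Fintype.sum_sum_type, Fintype.sum_sum_type]
    refine congrArg₂ (· + ·) ?_ rfl
    exact D.sub_sc_ee R α β

theorem sub_sc_li : LinearIndependent ℤ (D.subScB ℤ) := by
  rw [Fintype.linearIndependent_iff]
  intro g hg
  rw [Fintype.sum_sum_type] at hg
  have h1 : (fun i : D.Δ => g (.inl i)) = 0 := by
    refine D.cli _ (funext fun a => ?_)
    have h2 := congrFun hg (.inl a)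
    rw [Pi.add_apply, Finset.sum_apply, Finset.sum_apply] at h2
    have h3 : ∑ β : D.ι, (g (.inr β) • D.subScB ℤ (.inr β)) (.inl a) = 0 :=
      Finset.sum_eq_zero fun β _ => by
        change g (.inr β) * (Pi.single (Sum.inr β : D.B) (1 : ℤ) : D.B → ℤ) (.inl a) = 0
        rw [Pi.single_eq_of_ne (by simp), mul_zero]
    rw [Finset.sum_apply]
    exact (add_zero _).symm.trans ((congrArg₂ (· + ·) rfl h3.symm).trans h2)
  rintro (i | β)
  · exact congrFun h1 i
  · have h2 := congrFun hg (.inr β)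
    rw [Pi.add_apply, Finset.sum_apply, Finset.sum_apply] at h2
    have h3 : ∑ i : D.Δ, (g (.inl i) • D.subScB ℤ (.inl i)) (.inr β) = 0 :=
      Finset.sum_eq_zero fun i _ => mul_zero _
    have h4 : ∑ γ : D.ι, (g (.inr γ) • D.subScB ℤ (.inr γ)) (.inr β) = g (.inr β) := by
      refine (Finset.sum_eq_single β (fun γ _ hγ => ?_) fun h => ?_).trans ?_
      · change g (.inr γ) * (Pi.single (Sum.inr γ : D.B) (1 : ℤ) : D.B → ℤ) (.inr β) = 0
        exact mul_eq_zero_of_right _
          (Pi.single_eq_of_ne (fun e => hγ (Sum.inr_injective e).symm) _)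
      · exact absurd (Finset.mem_univ _) h
      · change g (.inr β) * (Pi.single (Sum.inr β : D.B) (1 : ℤ) : D.B → ℤ) (.inr β) = _
        exact (congrArg (g (.inr β) * ·) (Pi.single_eq_same _ _)).trans (mul_one _)
    exact h4.symm.trans ((zero_add _).symm.trans ((congrArg₂ (· + ·) h3.symm rfl).trans h2))

/-- the Levi subdatum -/
def levi (J : Finset D.Δ) : CD where
  toRD := D.toRD.levi J
  N α β := D.N α.1 β.1
  N_anti α β γ h := D.N_anti α.1 β.1 γ.1 ((D.levi_co_add J α β γ).1 h)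
  N_abs := D.sub_levi_abs J
  jac := (D.toRD.levi J).jac_of _ (fun b => D.bv ℤ (D.leviB J b))
    (D.sub_bv_li.comp _ (D.leviB_inj J)) (D.sub_levi_rel J ℤ)

/-- the simply connected datum -/
def sc : CD where
  toRD := D.toRD.sc
  N := D.N
  N_anti := D.N_anti
  N_abs := D.N_abs
  jac := D.toRD.sc.jac_of _ (D.subScB ℤ) D.sub_sc_li (D.sub_sc_rel ℤ)

variable (J : Finset D.Δ) (R : Type v) [CommRing R]

theorem levi_rel (i j : (D.levi J).B) : ⁅D.bv R (D.leviB J i), D.bv R (D.leviB J j)⁆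
    = ∑ k, (D.levi J).cc i j k • D.bv R (D.leviB J k) := D.sub_levi_rel J R i j

/-- the inclusion of the Levi subalgebra -/
def leviHom : (D.levi J).g R →ₗ⁅R⁆ D.g R :=
  (D.levi J).homOf (fun b => D.bv R (D.leviB J b)) (D.levi_rel J R)

theorem leviHom_bv (b : (D.levi J).B) :
    D.leviHom J R ((D.levi J).bv R b) = D.bv R (D.leviB J b) := (D.levi J).homOf_bv _ _ b

/-- images of the basis vectors of the simply connected algebra -/
def scB : D.sc.B → D.g R := Sum.elim (fun i => D.hv fun a => (D.cr (D.s i) a : R)) (D.e R)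

theorem sc_rel (i j : D.sc.B) :
    ⁅D.scB R i, D.scB R j⁆ = ∑ k, D.sc.cc i j k • D.scB R k := D.sub_sc_rel R i j

/-- the inclusion of the derived subalgebra -/
def scHom : D.sc.g R →ₗ⁅R⁆ D.g R := D.sc.homOf (D.scB R) (D.sc_rel R)

theorem scHom_bv (b : D.sc.B) : D.scHom R (D.sc.bv R b) = D.scB R b := D.sc.homOf_bv _ _ b

variable {R}

/-- restriction of a linear form to the Levi subalgebra -/
def leviχ (χ : D.B → R) : (D.levi J).B → R := fun b => χ (D.leviB J b)

/-- restriction of a linear form that vanishes on the torus to the derived subalgebra -/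
def scχ (χ : D.B → R) : D.sc.B → R := Sum.elim 0 fun β => χ (.inr β)

theorem std_levi {χ : D.B → R} (h : D.Std χ) : (D.levi J).Std (D.leviχ J χ) :=
  ⟨fun a => h.1 a, fun β hβ => h.2 β.1 ((D.levi_pos J β).1 hβ)⟩

theorem std_sc {χ : D.B → R} (h : D.Std χ) : D.sc.Std (D.scχ χ) :=
  ⟨fun _ => rfl, fun β hβ => h.2 β hβ⟩

end CD

end Pool.Agent.P.Bf04
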