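import Pool.Agent.P.MP_bf0464_al.Rep

/-! Simple modules of a Lie algebra that is a sum of two commuting subalgebras. -/

namespace Pool.Agent.P.Bf04

open Module

attribute [local instance 100] LieRing.ofAssociativeRing

universe u

namespace LRep

variable {k : Type u} [Field k] {L L1 L2 : Type u} [LieRing L] [LieAlgebra k L]
  [LieRing L1] [LieAlgebra k L1] [LieRing L2] [LieAlgebra k L2]

/-- two commuting images that span -/
structure TensSplit (f1 : L1 →ₗ⁅k⁆ L) (f2 : L2 →ₗ⁅k⁆ L) : Prop where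
  comm : ∀ x y, ⁅f1 x, f2 y⁆ = 0
  span : ∀ z, ∃ x y, z = f1 x + f2 y

variable {f1 : L1 →ₗ⁅k⁆ L} {f2 : L2 →ₗ⁅k⁆ L}

theorem TensSplit.symm (h : TensSplit f1 f2) : TensSplit f2 f1 where
  comm x y := by rw [← lie_skew, h.comm, neg_zero]
  span z := by
    obtain ⟨x, y, e⟩ := h.span z
    exact ⟨y, x, e.trans (add_comm _ _)⟩

theorem TensSplit.stable (h : TensSplit f1 f2) {S : LRep k L} {N : Submodule k S.M}
    (h1 : ∀ x, ∀ m ∈ N, S.ρ (f1 x) m ∈ N) (h2 : ∀ y, ∀ m ∈ N, S.ρ (f2 y) m ∈ N) :
    S.Stable N := fun z m hm => by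
  obtain ⟨x, y, rfl⟩ := h.span z
  rw [map_add, LinearMap.add_apply]
  exact N.add_mem (h1 x m hm) (h2 y m hm)

theorem TensSplit.comm_ρ (h : TensSplit f1 f2) (S : LRep k L) (x : L1) (y : L2) :
    Commute (S.ρ (f1 x)) (S.ρ (f2 y)) := by
  have := S.lie_eq (f1 x) (f2 y)
  rw [h.comm, map_zero] at this
  exact sub_eq_zero.1 this.symm

theorem tens_comm_act (S : LRep k L) {Y : End k S.M} (h : ∀ x, Commute (S.ρ x) Y)
    (a : FreeAlgebra k L) : Commute (S.act a) Y := by
  induction a using FreeAlgebra.induction with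
  | grade0 r => rw [AlgHom.commutes]; exact Algebra.commutes r Y
  | grade1 x => rw [act_ι]; exact h x
  | mul a b ha hb => rw [map_mul]; exact ha.mul_left hb
  | add a b ha hb => rw [map_add]; exact ha.add_left hb

theorem TensSplit.comm_act' (h : TensSplit f1 f2) (S : LRep k L) (a : FreeAlgebra k L1) (y : L2) :
    Commute ((S.res f1).act a) (S.ρ (f2 y)) :=
  tens_comm_act (S.res f1) (fun x => h.comm_ρ S x y) a

theorem TensSplit.comm_act (h : TensSplit f1 f2) (S : LRep k L) (a : FreeAlgebra k L1)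
    (b : FreeAlgebra k L2) : Commute ((S.res f1).act a) ((S.res f2).act b) :=
  (tens_comm_act (S.res f2) (fun y => (h.comm_act' S a y).symm) b).symm

/-- a right ideal that kills a nonzero vector kills the module -/
theorem TensSplit.kill (h : TensSplit f1 f2) {S : LRep k L} (hS : S.Simple)
    (I : FreeAlgebra k L1 → Prop) (hI : ∀ a x, I a → I (a * FreeAlgebra.ι k x))
    {m₀ : S.M} (h0 : m₀ ≠ 0) (hm : ∀ a, I a → (S.res f1).act a m₀ = 0)
    {a : FreeAlgebra k L1} (ha : I a) : (S.res f1).act a = 0 := by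
  let P : Submodule k S.M :=
    { carrier := {m | ∀ a, I a → (S.res f1).act a m = 0}
      add_mem' := fun {m n} hm hn a ha => by rw [map_add, hm a ha, hn a ha, add_zero]
      zero_mem' := fun a _ => map_zero _
      smul_mem' := fun c m hm a ha => by rw [map_smul, hm a ha, smul_zero] }
  have hP : S.Stable P := by
    refine h.stable (fun x m hm a ha => ?_) (fun y m hm a ha => ?_)
    · have := hm _ (hI a x ha)
      rw [map_mul, act_ι] at this
      exact this
    · have := LinearMap.congr_fun (h.comm_act' S a y).eq m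
      simp only [End.mul_apply] at this
      rw [this, hm a ha, map_zero]
  rcases hS.2 P hP with e | e
  · have : m₀ ∈ P := hm
    rw [e] at this
    exact absurd this h0
  · ext m
    have : m ∈ P := e ▸ trivial
    exact this a ha

theorem IsHom.tens_act {R R' : LRep k L} {f : R.M →ₗ[k] R'.M} (h : R.IsHom R' f)
    (a : FreeAlgebra k L) (m : R.M) : f (R.act a m) = R'.act a (f m) := by
  induction a using FreeAlgebra.induction generalizing m with
  | grade0 r => simp [Algebra.algebraMap_eq_smul_one]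
  | grade1 x => rw [act_ι, act_ι]; exact h x m
  | mul a b ha hb => rw [map_mul, map_mul, End.mul_apply, End.mul_apply, ha, hb]
  | add a b ha hb => rw [map_add, map_add, LinearMap.add_apply, LinearMap.add_apply, map_add, ha, hb]

theorem Iso.tens_ker {R R' : LRep k L} (h : R.Iso R') {a : FreeAlgebra k L} (ha : R.act a = 0) :
    R'.act a = 0 := by
  obtain ⟨f, hf⟩ := h
  ext m
  obtain ⟨m, rfl⟩ := f.surjective m
  have := hf.tens_act a m
  rw [ha] at this
  simpa using this.symm

/-- `T` embeds in `R` -/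
def TensSub (T R : LRep k L) : Prop :=
  ∃ j : T.M →ₗ[k] R.M, T.IsHom R j ∧ Function.Injective j

theorem tens_exists_sub (R : LRep k L) [FiniteDimensional k R.M] [Nontrivial R.M] :
    ∃ T : LRep k L, T.Simple ∧ T.TensSub R := by
  obtain ⟨N, -, hN, hs⟩ := R.exists_simple ⊤ (fun _ _ _ => trivial) inferInstance top_ne_bot
  exact ⟨_, hs, N.subtype, R.sub_hom N hN, N.subtype_injective⟩

theorem TensSub.fd {T R : LRep k L} (h : T.TensSub R) [FiniteDimensional k R.M] :
    FiniteDimensional k T.M := by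
  obtain ⟨j, -, hj⟩ := h
  exact FiniteDimensional.of_injective j hj

theorem TensSplit.ker_sub (h : TensSplit f1 f2) {S : LRep k L} (hS : S.Simple)
    {T : LRep k L1} (hT : T.TensSub (S.res f1)) (hs : T.Simple)
    (a : FreeAlgebra k L1) : T.act a = 0 ↔ (S.res f1).act a = 0 := by
  obtain ⟨j, hj, hi⟩ := hT
  have hh := hj.tens_act
  constructor
  · intro ha
    have := hs.1
    obtain ⟨s, hs0⟩ := exists_ne (0 : T.M)
    refine h.kill hS (fun a => T.act a = 0)
      (fun a x ha => by rw [map_mul, ha, zero_mul]) (m₀ := j s)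
      (fun e => hs0 (hi (e.trans (map_zero _).symm))) (fun a ha => ?_) ha
    rw [← hh, ha, LinearMap.zero_apply, map_zero]
  · intro ha
    ext m
    refine hi ?_
    rw [hh, ha, LinearMap.zero_apply, LinearMap.zero_apply, map_zero]

theorem Simple.tens_prime {S : LRep k L} (hS : S.Simple) {X Y : End k S.M}
    (h : ∀ u, X * S.act u * Y = 0) (hX : X ≠ 0) : Y = 0 := by
  let P : Submodule k S.M :=
    { carrier := {m | ∀ u, X (S.act u m) = 0}
      add_mem' := fun {m n} hm hn u => by rw [map_add, map_add, hm u, hn u, add_zero]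
      zero_mem' := fun u => by rw [map_zero, map_zero]
      smul_mem' := fun c m hm u => by rw [map_smul, map_smul, hm u, smul_zero] }
  have hP : S.Stable P := fun x m hm u => by
    have := hm (u * FreeAlgebra.ι k x)
    rw [map_mul, act_ι] at this
    exact this
  rcases hS.2 P hP with e | e
  · ext m
    have : Y m ∈ P := fun u => LinearMap.congr_fun (h u) m
    rw [e] at this
    exact this
  · refine absurd ?_ hX
    ext m
    have : m ∈ P := e ▸ trivial
    simpa using this 1

theorem TensSplit.pair (h : TensSplit f1 f2) (S S' : LRep k L) (w₀ : FreeAlgebra k L1)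
    (hw : ∀ a, ∃ c : k, (S.res f1).act (w₀ * a * w₀) = c • (S.res f1).act w₀ ∧
      (S'.res f1).act (w₀ * a * w₀) = c • (S'.res f1).act w₀) (u : FreeAlgebra k L) :
    ∃ b, (S.res f1).act w₀ * S.act u * (S.res f1).act w₀ = (S.res f1).act w₀ * (S.res f2).act b ∧
      (S'.res f1).act w₀ * S'.act u * (S'.res f1).act w₀
        = (S'.res f1).act w₀ * (S'.res f2).act b := by
  let R : Submodule k (End k S.M × End k S'.M) := Submodule.span k
    {Z | ∃ a b, Z = ((S.res f1).act a * (S.res f2).act b, (S'.res f1).act a * (S'.res f2).act b)}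
  have key : ∀ (T : LRep k L) (x : L1) (y : L2) (a : FreeAlgebra k L1) (b : FreeAlgebra k L2),
      T.ρ (f1 x + f2 y) * ((T.res f1).act a * (T.res f2).act b)
        = (T.res f1).act (FreeAlgebra.ι k x * a) * (T.res f2).act b
          + (T.res f1).act a * (T.res f2).act (FreeAlgebra.ι k y * b) := by
    intro T x y a b
    rw [map_add, add_mul, map_mul, map_mul, act_ι, act_ι, ← mul_assoc, ← mul_assoc, ← mul_assoc,
      ← (h.comm_act' T a y).eq]
    rfl
  have h1 : ∀ (u : FreeAlgebra k L), ∀ Z ∈ R, (S.act u, S'.act u) * Z ∈ R := by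
    intro u
    induction u using FreeAlgebra.induction with
    | grade0 r =>
      intro Z hZ
      have : (S.act (algebraMap k _ r), S'.act (algebraMap k _ r)) * Z = r • Z := by
        rw [AlgHom.commutes, AlgHom.commutes]
        exact Prod.ext (Algebra.smul_def r Z.1).symm (Algebra.smul_def r Z.2).symm
      rw [this]; exact R.smul_mem r hZ
    | grade1 z =>
      intro Z hZ
      obtain ⟨x, y, rfl⟩ := h.span z
      rw [act_ι, act_ι]
      induction hZ using Submodule.span_induction with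
      | mem Z hZ =>
        obtain ⟨a, b, rfl⟩ := hZ
        rw [Prod.mk_mul_mk, key, key, ← Prod.mk_add_mk]
        exact R.add_mem (Submodule.subset_span ⟨_, _, rfl⟩) (Submodule.subset_span ⟨_, _, rfl⟩)
      | zero => rw [mul_zero]; exact R.zero_mem
      | add Z Z' _ _ hZ hZ' => rw [mul_add]; exact R.add_mem hZ hZ'
      | smul c Z _ hZ => rw [mul_smul_comm]; exact R.smul_mem c hZ
    | mul a b ha hb =>
      intro Z hZ
      rw [map_mul, map_mul, ← Prod.mk_mul_mk, mul_assoc]
      exact ha _ (hb _ hZ)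
    | add a b ha hb =>
      intro Z hZ
      rw [map_add, map_add, ← Prod.mk_add_mk, add_mul]
      exact R.add_mem (ha _ hZ) (hb _ hZ)
  have h2 : (S.act u, S'.act u) ∈ R := by
    have := h1 u _ (Submodule.subset_span ⟨1, 1, rfl⟩)
    simpa using this
  have h3 : ∀ Z ∈ R, ∃ b,
      (S.res f1).act w₀ * Z.1 * (S.res f1).act w₀ = (S.res f1).act w₀ * (S.res f2).act b ∧
      (S'.res f1).act w₀ * Z.2 * (S'.res f1).act w₀ = (S'.res f1).act w₀ * (S'.res f2).act b := by
    intro Z hZ
    induction hZ using Submodule.span_induction with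
    | mem Z hZ =>
      obtain ⟨a, b, rfl⟩ := hZ
      obtain ⟨c, hc, hc'⟩ := hw a
      have key2 : ∀ T : LRep k L, (T.res f1).act (w₀ * a * w₀) = c • (T.res f1).act w₀ →
          (T.res f1).act w₀ * ((T.res f1).act a * (T.res f2).act b) * (T.res f1).act w₀
            = (T.res f1).act w₀ * (T.res f2).act (c • b) := by
        intro T hT
        rw [map_mul, map_mul] at hT
        rw [map_smul, mul_smul_comm, ← smul_mul_assoc, ← hT, mul_assoc, mul_assoc,
          ← (h.comm_act T w₀ b).eq]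
        simp only [mul_assoc]
      exact ⟨c • b, key2 S hc, key2 S' hc'⟩
    | zero => exact ⟨0, by simp, by simp⟩
    | add Z Z' _ _ hZ hZ' =>
      obtain ⟨b, hb, hb'⟩ := hZ
      obtain ⟨d, hd, hd'⟩ := hZ'
      refine ⟨b + d, ?_, ?_⟩
      · rw [Prod.fst_add, mul_add, add_mul, hb, hd, map_add, mul_add]
      · rw [Prod.snd_add, mul_add, add_mul, hb', hd', map_add, mul_add]
    | smul c Z _ hZ =>
      obtain ⟨b, hb, hb'⟩ := hZ
      refine ⟨c • b, ?_, ?_⟩
      · rw [Prod.smul_fst, mul_smul_comm, smul_mul_assoc, hb, map_smul, mul_smul_comm]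
      · rw [Prod.smul_snd, mul_smul_comm, smul_mul_assoc, hb', map_smul, mul_smul_comm]
  exact h3 _ h2

theorem TensSplit.ker_le [IsAlgClosed k] (h : TensSplit f1 f2) {S S' : LRep k L} (hS : S.Simple)
    (hS' : S'.Simple) [FiniteDimensional k S.M]
    (k1 : ∀ a, (S.res f1).act a = 0 ↔ (S'.res f1).act a = 0)
    (k2 : ∀ b, (S.res f2).act b = 0 → (S'.res f2).act b = 0)
    {w : FreeAlgebra k L} (hw : S.act w = 0) : S'.act w = 0 := by
  have := hS.1
  obtain ⟨T, hs, hT⟩ := (S.res f1).tens_exists_sub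
  have := hs.1
  have := hT.fd
  obtain ⟨s, hs0⟩ := exists_ne (0 : T.M)
  obtain ⟨φ, hφ⟩ := Module.Projective.exists_dual_eq_one k hs0
  obtain ⟨w₀, hw₀⟩ := act_surj hs (φ.smulRight s)
  have hE : (S.res f1).act w₀ ≠ 0 := by
    rw [Ne, ← h.ker_sub hS hT hs, hw₀]
    intro h0
    have := LinearMap.congr_fun h0 s
    simp [hφ, hs0] at this
  have hE' : (S'.res f1).act w₀ ≠ 0 := fun e => hE ((k1 _).2 e)
  have hc : ∀ a, ∃ c : k, (S.res f1).act (w₀ * a * w₀) = c • (S.res f1).act w₀ ∧
      (S'.res f1).act (w₀ * a * w₀) = c • (S'.res f1).act w₀ := by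
    intro a
    have e1 : T.act (w₀ * a * w₀ - φ (T.act a s) • w₀) = 0 := by
      rw [map_sub, map_smul, map_mul, map_mul, hw₀]
      ext1 m
      simp [smul_smul, mul_comm]
    have e2 := (h.ker_sub hS hT hs _).1 e1
    have e3 := (k1 _).1 e2
    rw [map_sub, map_smul, sub_eq_zero] at e2 e3
    exact ⟨_, e2, e3⟩
  obtain ⟨t, ht⟩ : ∃ t, (S.res f1).act w₀ t ≠ 0 := by
    by_contra hc
    push Not at hc
    exact hE (LinearMap.ext hc)
  by_contra hne
  refine hE' (hS'.tens_prime (fun v => ?_) hne)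
  refine hS'.tens_prime (fun u => ?_) hE'
  obtain ⟨b, hb, hb'⟩ := h.pair S S' w₀ hc (u * w * v)
  rw [map_mul, map_mul, hw, mul_zero, zero_mul, mul_zero, zero_mul] at hb
  have hb0 : (S.res f2).act b = 0 := by
    refine h.symm.kill hS (fun b => (S.res f1).act w₀ * (S.res f2).act b = 0)
      (fun b y hb => by rw [map_mul, ← mul_assoc, hb, zero_mul]) ht (fun b hb => ?_) hb.symm
    rw [(h.comm_act S w₀ b).eq] at hb
    exact LinearMap.congr_fun hb t
  rw [k2 b hb0, mul_zero, map_mul, map_mul] at hb'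
  rw [← hb']
  simp only [mul_assoc]

theorem TensSplit.iso [IsAlgClosed k] (h : TensSplit f1 f2) {S S' : LRep k L} (hS : S.Simple)
    (hS' : S'.Simple) [FiniteDimensional k S.M] [FiniteDimensional k S'.M]
    {T1 T1' : LRep k L1} {T2 T2' : LRep k L2}
    (h1 : T1.TensSub (S.res f1)) (h2 : T2.TensSub (S.res f2))
    (h1' : T1'.TensSub (S'.res f1)) (h2' : T2'.TensSub (S'.res f2))
    (s1 : T1.Simple) (s2 : T2.Simple) (s1' : T1'.Simple) (s2' : T2'.Simple)
    (i1 : T1.Iso T1') (i2 : T2.Iso T2') : S.Iso S' := by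
  have k1 : ∀ a, (S.res f1).act a = 0 ↔ (S'.res f1).act a = 0 := fun a => by
    rw [← h.ker_sub hS h1 s1, ← h.ker_sub hS' h1' s1']
    exact ⟨i1.tens_ker, i1.symm.tens_ker⟩
  have k2 : ∀ b, (S.res f2).act b = 0 ↔ (S'.res f2).act b = 0 := fun b => by
    rw [← h.symm.ker_sub hS h2 s2, ← h.symm.ker_sub hS' h2' s2']
    exact ⟨i2.tens_ker, i2.symm.tens_ker⟩
  exact iso_of_ker hS hS' fun w => ⟨h.ker_le hS hS' k1 fun b => (k2 b).1,
    h.ker_le hS' hS (fun a => (k1 a).symm) fun b => (k2 b).2⟩

end LRep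

end Pool.Agent.P.Bf04
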