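import Pool.Agent.P.MP_bf0464_al.H.Mod1
import Pool.Agent.P.MP_bf0464_al.H.Sub
import Pool.Agent.P.MP_bf0464_al.H.Tens_1

/-! Splitting off a component whose Cartan matrix is invertible modulo `p`. -/

namespace Pool.Agent.P.Bf04

open Matrix Module

attribute [local instance 100] LieRing.ofAssociativeRing

universe u v w

namespace CD

variable {D : CD} {K : Type u} [Field K] {p : ℕ} [Fact p.Prime] [CharP K p]

theorem tens_aeval {σ : Type} (ν : σ → ℤ) (g : MvPolynomial σ ℤ) :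
    MvPolynomial.aeval (fun a => (ν a : K)) g = ((MvPolynomial.eval ν g : ℤ) : K) := by
  induction g using MvPolynomial.induction_on with
  | C a => simp
  | add f g hf hg => rw [map_add, map_add, hf, hg, Int.cast_add]
  | mul_X f a hf => rw [map_mul, map_mul, hf, Int.cast_mul]; simp

theorem tens_comm_ev (S : LRep K (D.g K)) {Y : End K S.M} (h : ∀ x, Commute (S.ρ x) Y)
    (z : FreeAlgebra ℤ D.B) : Commute (D.ev S z) Y := by
  induction z using FreeAlgebra.induction with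
  | grade0 r => rw [AlgHom.commutes]; exact Algebra.commutes r Y
  | grade1 b => rw [ev, FreeAlgebra.lift_ι_apply]; exact h _
  | mul a b ha hb => rw [map_mul]; exact ha.mul_left hb
  | add a b ha hb => rw [map_add]; exact ha.add_left hb

theorem tens_adm [IsAlgClosed K] {L L2 : Type u} [LieRing L] [LieAlgebra K L] [LieRing L2]
    [LieAlgebra K L2] {f : D.g K →ₗ⁅K⁆ L} {f2 : L2 →ₗ⁅K⁆ L} (h : LRep.TensSplit f f2)
    {S : LRep K L} (hS : S.Simple) [FiniteDimensional K S.M] {χ : D.B → K} (hχ : D.Std χ)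
    (hpc : D.PC p χ (S.res f)) {μ ν : D.σ → ℤ} (hν : D.HW (S.res f) ν) (hl : D.Link p μ ν) :
    ∃ T : LRep K (D.g K), T.TensSub (S.res f) ∧ D.Adm p χ μ T := by
  have := hS.1
  obtain ⟨T, hs, hT⟩ := (S.res f).tens_exists_sub
  have hfd := hT.fd
  have := hs.1
  obtain ⟨j, hj, hi⟩ := hT
  have hpc' : D.PC p χ T := fun b => by
    ext m
    refine hi ?_
    rw [hj.pow, hpc b]
    simp only [LinearMap.add_apply, LinearMap.smul_apply, End.one_apply, map_add, map_smul]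
    rw [hj]
  obtain ⟨τ, v, hv0, hv⟩ := exists_hw hχ hpc'
  have hv' : D.IsHW (S.res f) (fun a => (τ a : K)) (j v) :=
    ⟨fun β hβ => by rw [← hj, hv.1 β hβ, map_zero], fun a => by rw [← hj, hv.2 a, map_smul]⟩
  have hjv : j v ≠ 0 := fun e => hv0 (hi (e.trans (map_zero _).symm))
  obtain ⟨v', hv0', hv''⟩ := hν
  refine ⟨T, ⟨j, hj, hi⟩, hfd, hs, hpc', τ, hl.trans (link_of_cen (K := K) fun z g hz => ?_),
    v, hv0, hv⟩
  have hh : S.IsHom S (D.ev (S.res f) z) := fun x m => by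
    obtain ⟨x, y, rfl⟩ := h.span x
    have c1 : Commute (D.ev (S.res f) z) (S.ρ (f x)) := hz.comm K (S.res f) x
    have c2 : Commute (D.ev (S.res f) z) (S.ρ (f2 y)) :=
      tens_comm_ev (S.res f) (fun x => h.comm_ρ S x y) z
    rw [map_add]
    exact LinearMap.congr_fun (c1.add_right c2).eq m
  obtain ⟨c, hc⟩ := hS.schur hh
  have e1 := hz.hc K (S.res f) _ _ hv'
  have e2 := hz.hc K (S.res f) _ _ hv''
  rw [hc, tens_aeval] at e1 e2
  exact (smul_left_injective K hv0' e2).symm.trans (smul_left_injective K hjv e1)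

omit [Fact p.Prime] [CharP K p] in
theorem tens_count {χ : D.B → K} {μ : D.σ → ℤ} {n : ℕ} (h : D.BndAt p χ μ n) {A : Type u}
    [Fintype A] (T : A → LRep K (D.g K)) (hT : ∀ a, D.Adm p χ μ (T a)) :
    ∃ c : A → Fin n, ∀ a a', c a = c a' → (T a).Iso (T a') := by
  classical
  let r : Setoid A := ⟨fun a a' => (T a).Iso (T a'),
    fun a => LRep.Iso.refl _, LRep.Iso.symm, LRep.Iso.trans⟩
  have h1 := h (Quotient r) (fun q => T q.out) (fun q => hT _) fun q q' e => by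
    rw [← q.out_eq, ← q'.out_eq]; exact Quotient.sound e
  obtain ⟨e⟩ : Nonempty (Quotient r ↪ Fin n) :=
    Function.Embedding.nonempty_of_card_le (by rw [Fintype.card_fin]; exact h1)
  exact ⟨fun a => e (Quotient.mk r a), fun a a' he => Quotient.exact (e.injective he)⟩

/-- homomorphisms that respect the bases -/
structure TensMap (D' D : CD) (f : D'.g K →ₗ⁅K⁆ D.g K) (y : D'.σ → D.σ → ℤ) (r : D'.ι → D.ι) :
    Prop where
  h : ∀ a, f (D'.h K a) = D.hv fun b => (y a b : K)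
  e : ∀ β, f (D'.e K β) = D.e K (r β)
  pos : ∀ β, D'.Pos β → D.Pos (r β)

section Map

variable {D' : CD} {f : D'.g K →ₗ⁅K⁆ D.g K} {y : D'.σ → D.σ → ℤ} {r : D'.ι → D.ι}

theorem TensMap.pc (h : TensMap D' D f y r) {χ : D.B → K} (hχ : D.Std χ) {χ' : D'.B → K}
    (hχ' : D'.Std χ') (he : ∀ β, χ' (.inr β) = χ (.inr (r β))) {S : LRep K (D.g K)}
    (hS : D.PC p χ S) : D'.PC p χ' (S.res f) := by
  rintro (a | β)
  · change S.ρ (f (D'.h K a)) ^ p = S.ρ (f (D'.h K a)) + _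
    have h0 : χ ⬝ᵥ D.hv (fun b => (y a b : K)) = 0 := by
      simp [dotProduct, hv, hχ.1]
    rw [h.h, (isPm_hv (y a)).pc hS, h0, hχ'.1]
  · change S.ρ (f (D'.e K β)) ^ p = S.ρ (f 0) + _
    rw [h.e, he, map_zero f]
    exact hS (.inr (r β))

theorem TensMap.hw (h : TensMap D' D f y r) {S : LRep K (D.g K)} {ν : D.σ → ℤ}
    (hS : D.HW S ν) : D'.HW (S.res f) fun a => ν ⬝ᵥ y a := by
  obtain ⟨v, hv0, hv⟩ := hS
  refine ⟨v, hv0, fun β hβ => ?_, fun a => ?_⟩
  · change S.ρ (f (D'.e K β)) v = 0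
    rw [h.e]; exact hv.1 _ (h.pos β hβ)
  · change S.ρ (f (D'.h K a)) v = _
    rw [h.h, hv_eq_sum, map_sum, LinearMap.sum_apply]
    simp only [map_smul, LinearMap.smul_apply, hv.2, smul_smul, ← Finset.sum_smul, dotProduct]
    push_cast
    simp only [mul_comm]

omit [Fact p.Prime] in
theorem tens_link (y : D'.σ → D.σ → ℤ)
    (h : ∀ i ν, D'.Link p (fun a => ν ⬝ᵥ y a) fun a => D.dotf i ν ⬝ᵥ y a) {μ ν : D.σ → ℤ}
    (hl : D.Link p μ ν) : D'.Link p (fun a => μ ⬝ᵥ y a) fun a => ν ⬝ᵥ y a := by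
  refine RD.Link.induction (P := fun ν => D'.Link p (fun a => μ ⬝ᵥ y a) fun a => ν ⬝ᵥ y a)
    (RD.Link.refl _) (fun ν ν' hc h1 => h1.trans (RD.Link.of_cong fun a => ?_))
    (fun i ν h1 => h1.trans (h i ν)) hl
  rw [← sub_dotProduct]
  exact Finset.dvd_sum fun b _ => (hc b).mul_right _

theorem TensMap.adm [IsAlgClosed K] (h : TensMap D' D f y r) {L2 : Type u} [LieRing L2]
    [LieAlgebra K L2] {f2 : L2 →ₗ⁅K⁆ D.g K} (hs : LRep.TensSplit f f2)
    {χ : D.B → K} (hχ : D.Std χ) {χ' : D'.B → K}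
    (hχ' : D'.Std χ') (he : ∀ β, χ' (.inr β) = χ (.inr (r β)))
    (hl : ∀ i ν, D'.Link p (fun a => ν ⬝ᵥ y a) fun a => D.dotf i ν ⬝ᵥ y a) {μ : D.σ → ℤ}
    {S : LRep K (D.g K)} (hS : D.Adm p χ μ S) :
    ∃ T : LRep K (D'.g K), T.TensSub (S.res f) ∧ D'.Adm p χ' (fun a => μ ⬝ᵥ y a) T := by
  have := hS.fd
  obtain ⟨ν, h1, h2⟩ := hS.hw
  exact tens_adm hs hS.simple hχ' (h.pc hχ hχ' he hS.pc) (h.hw h2) (tens_link y hl h1)

end Map

section Orth

variable {C : Finset D.Δ} (hC : ∀ i ∈ C, ∀ j ∉ C, D.A i j = 0)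
include hC

theorem tens_pr {α β : D.ι} (hα : D.In C α) (hβ : D.In Cᶜ β) : D.pr α β = 0 := by
  rw [D.pr_eq_cco]
  refine Finset.sum_eq_zero fun j _ => ?_
  by_cases hj : j ∈ C
  · rw [(D.cco_eq_zero β j).2 (hβ j (by simpa using hj)), zero_mul]
  · rw [D.pr_s, Finset.sum_eq_zero, mul_zero]
    intro i _
    by_cases hi : i ∈ C
    · rw [hC i hi j hj, mul_zero]
    · rw [hα i hi, zero_mul]

theorem tens_pr' {α β : D.ι} (hα : D.In C α) (hβ : D.In Cᶜ β) : D.pr β α = 0 :=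
  (D.pr_zero_iff α β).2 (tens_pr hC hα hβ)

theorem tens_ee {α β : D.ι} (hα : D.In C α) (hβ : D.In Cᶜ β) : ⁅D.e K α, D.e K β⁆ = 0 := by
  have h1 : ∀ x : D.Δ → ℤ, D.co α + D.co β = x → (∀ i ∉ C, x i = 0) → False := by
    intro x hx h0
    refine D.co_ne_zero β (funext fun i => ?_)
    by_cases hi : i ∈ C
    · exact hβ i (by simpa using hi)
    · have := congrFun hx i
      rwa [Pi.add_apply, hα i hi, h0 i hi, zero_add] at this
  refine D.lie_e_e_zero (fun γ hγ => ?_) fun e => h1 0 ((D.eq_neg_iff α β).1 e) fun _ _ => rfl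
  rcases D.orth_split C hC γ with h0 | h0
  · exact h1 _ hγ h0
  · refine D.co_ne_zero α (funext fun i => ?_)
    by_cases hi : i ∈ C
    · have := congrFun hγ i
      rwa [Pi.add_apply, hβ i (by simpa using hi), h0 i hi, add_zero] at this
    · exact hα i hi

theorem tens_proj
    (hdet : ∀ x : C → ZMod p, (∀ j : C, ∑ i : C, x i * (D.A i j : ZMod p) = 0) → x = 0) :
    ∃ (X : D.σ → C → ℤ) (P : D.σ → D.σ → ℤ),
      (∀ a, Pi.single a 1 = P a + ∑ i, X a i • D.cr (D.s i.1)) ∧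
      (∀ α, D.In C α → ∀ a, (p : ℤ) ∣ D.rt α ⬝ᵥ P a) ∧
      (∀ β, D.In Cᶜ β → ∀ a, D.rt β ⬝ᵥ P a = D.rt β a) ∧
      ∀ β, D.In Cᶜ β → ∀ b, (p : ℤ) ∣ ∑ a, D.cr β a * P a b - D.cr β b := by
  let M : Matrix C C (ZMod p) := Matrix.of fun i j => (D.A i j : ZMod p)
  have hM : IsUnit M := by
    rw [← Matrix.vecMul_injective_iff_isUnit]
    intro x x' e
    refine sub_eq_zero.1 (hdet _ fun j => ?_)
    have := congrFun e j
    simp only [Matrix.vecMul, dotProduct, M, Matrix.of_apply] at this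
    simp only [Pi.sub_apply, sub_mul, Finset.sum_sub_distrib, this, sub_self]
  have hs := Matrix.mulVec_surjective_iff_isUnit.2 hM
  have hi := Matrix.mulVec_injective_iff_isUnit.2 hM
  choose x hx using fun a : D.σ => hs fun j : C => (D.rt (D.s j.1) a : ZMod p)
  let X : D.σ → C → ℤ := fun a i => ZMod.cast (x a i)
  have hX : ∀ a i, (X a i : ZMod p) = x a i := fun a i => ZMod.intCast_zmod_cast _
  have hx' : ∀ a (j : C), ∑ i : C, (D.A j i : ZMod p) * x a i = D.rt (D.s j.1) a :=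
    fun a j => congrFun (hx a) j
  have hP : ∀ β a, D.rt β ⬝ᵥ (Pi.single a 1 - ∑ i, X a i • D.cr (D.s i.1))
      = D.rt β a - ∑ i : C, X a i * D.pr β (D.s i.1) := by
    intro β a
    rw [dotProduct_sub, dotProduct_single, mul_one, dotProduct_sum]
    simp only [dotProduct_smul, smul_eq_mul, RD.pr]
  refine ⟨X, fun a => Pi.single a 1 - ∑ i, X a i • D.cr (D.s i.1), fun a => by simp,
    fun α hα a => ?_, fun β hβ a => ?_, fun β hβ b => ?_⟩
  · rw [D.rt_co α, sum_dotProduct]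
    refine Finset.dvd_sum fun j _ => ?_
    rw [smul_dotProduct, smul_eq_mul]
    by_cases hj : j ∈ C
    · refine Dvd.dvd.mul_left ?_ _
      rw [hP, ← ZMod.intCast_zmod_eq_zero_iff_dvd]
      push_cast
      rw [← hx' a ⟨j, hj⟩, sub_eq_zero]
      exact Finset.sum_congr rfl fun i _ => by rw [hX, mul_comm]; rfl
    · rw [hα j hj, zero_mul]; exact dvd_zero _
  · rw [hP, Finset.sum_eq_zero, sub_zero]
    intro i _
    rw [tens_pr' hC (D.in_s.2 i.2) hβ, mul_zero]
  · have h0 : (fun i : C => ∑ a, (D.cr β a : ZMod p) * x a i) = 0 := by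
      apply hi
      rw [Matrix.mulVec_zero]
      funext j
      have h1 : ((D.pr (D.s j.1) β : ℤ) : ZMod p) = 0 := by
        rw [tens_pr hC (D.in_s.2 j.2) hβ, Int.cast_zero]
      rw [Pi.zero_apply, ← h1]
      simp only [Matrix.mulVec, dotProduct, M, Matrix.of_apply, RD.pr, Finset.mul_sum]
      push_cast
      rw [Finset.sum_comm]
      refine Finset.sum_congr rfl fun a _ => ?_
      rw [← hx' a j, Finset.sum_mul]
      exact Finset.sum_congr rfl fun i _ => by ring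
    rw [← ZMod.intCast_zmod_eq_zero_iff_dvd]
    simp only [Pi.sub_apply, Finset.sum_apply, Pi.smul_apply, smul_eq_mul, mul_sub,
      Finset.sum_sub_distrib, Pi.single_apply, mul_ite, mul_one, mul_zero, Finset.sum_ite_eq,
      Finset.mem_univ, if_true, Finset.mul_sum]
    rw [sub_sub_cancel_left, Finset.sum_comm]
    push_cast
    rw [neg_eq_zero]
    refine Finset.sum_eq_zero fun i _ => ?_
    simp only [hX, ← mul_assoc, ← Finset.sum_mul]
    rw [show ∑ a, (D.cr β a : ZMod p) * x a i = 0 from congrFun h0 i, zero_mul]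

end Orth

theorem tens_cast {a b : ℤ} (h : (p : ℤ) ∣ a - b) : (a : K) = b := by
  rw [← sub_eq_zero, ← Int.cast_sub]
  exact (CharP.intCast_eq_zero_iff K p _).2 h

theorem tens_hv_sum {α : Type} [Fintype α] (c : α → ℤ) (y : α → D.σ → ℤ) :
    ∑ a, c a • (D.hv fun b => (y a b : K)) = D.hv fun b => ((∑ a, c a * y a b : ℤ) : K) := by
  funext k
  rcases k with b | β <;> simp [hv]

theorem tens_lie_hv (y : D.σ → ℤ) (β : D.ι) :
    ⁅D.hv fun b => (y b : K), D.e K β⁆ = ((D.rt β ⬝ᵥ y : ℤ) : K) • D.e K β := by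
  rw [lie_hv_e, dotProduct]; push_cast; rfl

theorem tens_rel (J : Finset D.Δ) (P : D.σ → D.σ → ℤ)
    (h2 : ∀ β, D.In J β → ∀ a, D.rt β ⬝ᵥ P a = D.rt β a)
    (h3 : ∀ β, D.In J β → ∀ b, (p : ℤ) ∣ ∑ a, D.cr β a * P a b - D.cr β b)
    (F : (D.levi J).B → D.g K) (F1 : ∀ a, F (.inl a) = D.hv fun b => (P a b : K))
    (F2 : ∀ β, F (.inr β) = D.e K β.1) (i j : (D.levi J).B) :
    ⁅F i, F j⁆ = ∑ k, (D.levi J).cc i j k • F k := by
  have hm : ∀ a β, ⁅F (.inl a), F (.inr β)⁆ = ∑ k, (D.levi J).cc (.inl a) (.inr β) k • F k := by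
    intro a β
    rw [F1, F2, tens_lie_hv, h2 β.1 β.2, Finset.sum_eq_single (.inr β)]
    · rw [F2, Int.cast_smul_eq_zsmul]
      simp only [RD.c, if_true]
      rfl
    · intro k _ hk
      simp only [RD.c, if_neg hk, zero_smul]
    · intro h; exact absurd (Finset.mem_univ _) h
  rcases i with a | α <;> rcases j with b | β
  · rw [F1, F1, lie_hv_hv]; simp [RD.c]
  · exact hm a β
  · rw [← lie_skew, hm, ← Finset.sum_neg_distrib]
    exact Finset.sum_congr rfl fun k _ => by rw [cc_anti, neg_smul, _root_.neg_neg]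
  · have := D.levi_rel J K (.inr α) (.inr β)
    rw [F2, F2]
    refine Eq.trans this ?_
    rw [Fintype.sum_sum_type, Fintype.sum_sum_type]
    refine congrArg₂ (· + ·) ?_ (Finset.sum_congr rfl fun γ _ => by rw [F2]; rfl)
    simp only [F1, RD.c]
    split_ifs with h
    · refine Eq.trans ?_ (tens_hv_sum (fun a => D.cr α.1 a) P).symm
      rw [hv_eq_sum]
      refine Finset.sum_congr rfl fun a _ => ?_
      rw [tens_cast (h3 α.1 α.2 a), Int.cast_smul_eq_zsmul]
      rfl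
    · simp

theorem tens_lie_zero {D1 D2 : CD} {L : Type u} [LieRing L] [LieAlgebra K L]
    (f1 : D1.g K →ₗ⁅K⁆ L) (f2 : D2.g K →ₗ⁅K⁆ L)
    (h : ∀ i j, ⁅f1 (D1.bv K i), f2 (D2.bv K j)⁆ = 0) (x : D1.g K) (y : D2.g K) :
    ⁅f1 x, f2 y⁆ = 0 := by
  rw [D1.eq_sum x, D2.eq_sum y, map_sum, map_sum, sum_lie]
  refine Finset.sum_eq_zero fun i _ => ?_
  rw [lie_sum]
  refine Finset.sum_eq_zero fun j _ => ?_
  rw [map_smul, map_smul, smul_lie, lie_smul, h, smul_zero, smul_zero]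

theorem tens [IsAlgClosed K] (C : Finset D.Δ) (hC : ∀ i ∈ C, ∀ j ∉ C, D.A i j = 0)
    (hdet : ∀ x : C → ZMod p, (∀ j : C, ∑ i : C, x i * (D.A i j : ZMod p) = 0) → x = 0)
    {χ : D.B → K} (hχ : D.Std χ)
    (h1 : (D.levi C).sc.Sav p ((D.levi C).scχ (D.leviχ C χ)) 1)
    (h2 : (D.levi Cᶜ).Sav p (D.leviχ Cᶜ χ) 1) : D.Sav p χ 1 := by
  obtain ⟨X, P, hP, p1, p2, p3⟩ := tens_proj (p := p) hC hdet
  let F : (D.levi Cᶜ).B → D.g K :=
    Sum.elim (fun a => D.hv fun b => (P a b : K)) fun β => D.e K β.1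
  have hF := tens_rel (p := p) Cᶜ P p2 p3 F (fun _ => rfl) fun _ => rfl
  let f1 : (D.levi C).sc.g K →ₗ⁅K⁆ D.g K := (D.leviHom C K).comp ((D.levi C).scHom K)
  let f2 : (D.levi Cᶜ).g K →ₗ⁅K⁆ D.g K := (D.levi Cᶜ).homOf F hF
  have m1 : TensMap (D.levi C).sc D f1 (fun i => D.cr (D.s i.1)) Subtype.val := by
    refine ⟨fun i => ?_, fun β => ?_, fun β hβ => (D.levi_pos C β).1 hβ⟩
    · change D.leviHom C K ((D.levi C).scHom K ((D.levi C).sc.bv K (.inl i))) = _
      rw [scHom_bv]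
      change D.leviHom C K ((D.levi C).hv _) = _
      rw [hv_eq_sum, hv_eq_sum, map_sum]
      exact Finset.sum_congr rfl fun a _ => by rw [map_smul, leviHom_bv]; rfl
    · change D.leviHom C K ((D.levi C).scHom K ((D.levi C).sc.bv K (.inr β))) = _
      rw [scHom_bv]
      exact D.leviHom_bv C K (.inr β)
  have m2 : TensMap (D.levi Cᶜ) D f2 P Subtype.val :=
    ⟨fun a => (D.levi Cᶜ).homOf_bv F hF (.inl a), fun β => (D.levi Cᶜ).homOf_bv F hF (.inr β),
      fun β hβ => (D.levi_pos Cᶜ β).1 hβ⟩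
  have hs : LRep.TensSplit f1 f2 := by
    refine ⟨tens_lie_zero f1 f2 ?_, fun z => ?_⟩
    · rintro (i | α) (a | β)
      · rw [m1.h, m2.h, lie_hv_hv]
      · rw [m1.h, m2.e, lie_cr_e, tens_pr' hC (D.in_s.2 i.2) β.2, Int.cast_zero, zero_smul]
      · rw [m1.e, m2.h, ← lie_skew, tens_lie_hv,
          (CharP.intCast_eq_zero_iff K p _).2 (p1 α.1 α.2 a), zero_smul, neg_zero]
      · rw [m1.e, m2.e, tens_ee hC α.2 β.2]
    · have : z ∈ LinearMap.range f1.toLinearMap ⊔ LinearMap.range f2.toLinearMap := by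
        refine D.span_bv _ ?_ z
        rintro (a | β)
        · have e : D.h K a = ∑ i, X a i • (D.hv fun b => (D.cr (D.s i.1) b : K))
              + D.hv fun b => (P a b : K) := by
            rw [tens_hv_sum, ← hv_single]
            funext k
            rcases k with b | β
            · have := congrArg (Int.cast : ℤ → K) (congrFun (hP a) b)
              simp only [Pi.add_apply, Finset.sum_apply, Pi.smul_apply, smul_eq_mul,
                Int.cast_add] at this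
              change Pi.single (M := fun _ => K) a 1 b = _ + _
              simp only [hv, Sum.elim_inl]
              rw [add_comm, ← this]
              simp [Pi.single_apply]
            · simp [hv]
          change D.h K a ∈ _
          rw [e]
          refine Submodule.add_mem_sup (Submodule.sum_mem _ fun i _ => zsmul_mem ?_ _) ?_
          · exact ⟨_, m1.h i⟩
          · exact ⟨_, m2.h a⟩
        · rcases D.orth_split C hC β with h | h
          · exact Submodule.mem_sup_left ⟨_, m1.e ⟨β, h⟩⟩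
          · exact Submodule.mem_sup_right ⟨_, m2.e ⟨β, fun i hi => h i (by simpa using hi)⟩⟩
      obtain ⟨_, ⟨x, rfl⟩, _, ⟨y, rfl⟩, e⟩ := Submodule.mem_sup.1 this
      exact ⟨x, y, e.symm⟩
  have hd : ∀ i ν (y : D.σ → ℤ), D.dotf i ν ⬝ᵥ y
      = ν ⬝ᵥ y - (ν ⬝ᵥ D.cr (D.s i) + 1) * (D.rt (D.s i) ⬝ᵥ y) := fun i ν y => by
    rw [RD.dotf, sub_dotProduct, smul_dotProduct, smul_eq_mul]
  have l1 : ∀ i ν, (D.levi C).sc.Link p (fun j => ν ⬝ᵥ D.cr (D.s j.1))
      fun j => D.dotf i ν ⬝ᵥ D.cr (D.s j.1) := by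
    intro i ν
    by_cases hi : i ∈ C
    · have e := (D.levi C).scw_dotf ⟨i, hi⟩ ν
      have l := RD.Link.dot (D := (D.levi C).toRD.sc) (p := p) ⟨i, hi⟩ ((D.levi C).scw ν)
      rw [← e] at l
      exact l
    · refine RD.Link.of_cong fun j => ?_
      have : D.rt (D.s i) ⬝ᵥ D.cr (D.s j.1) = 0 :=
        tens_pr' hC (D.in_s.2 j.2) (D.in_s.2 (by simpa using hi))
      rw [hd, this]
      simp
  have l2 : ∀ i ν, (D.levi Cᶜ).Link p (fun a => ν ⬝ᵥ P a) fun a => D.dotf i ν ⬝ᵥ P a := by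
    intro i ν
    by_cases hi : i ∈ C
    · refine RD.Link.of_cong fun a => ?_
      rw [hd, sub_sub_cancel]
      exact (p1 _ (D.in_s.2 hi) a).mul_left _
    · have hi' : i ∈ Cᶜ := by simpa using hi
      refine (RD.Link.dot (D := (D.levi Cᶜ).toRD) ⟨i, hi'⟩ _).trans (RD.Link.of_cong fun a => ?_)
      rw [hd, p2 _ (D.in_s.2 hi')]
      change (p : ℤ) ∣ ν ⬝ᵥ P a - ((fun a => ν ⬝ᵥ P a) ⬝ᵥ D.cr (D.s i) + 1) * D.rt (D.s i) a - _
      have e : (fun a => ν ⬝ᵥ P a) ⬝ᵥ D.cr (D.s i) - ν ⬝ᵥ D.cr (D.s i)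
          = ∑ b, ν b * (∑ a, D.cr (D.s i) a * P a b - D.cr (D.s i) b) := by
        simp only [dotProduct, mul_sub, Finset.sum_sub_distrib, Finset.mul_sum, Finset.sum_mul]
        rw [Finset.sum_comm]
        exact congrArg (· - _) (Finset.sum_congr rfl fun a _ => Finset.sum_congr rfl
          fun b _ => by ring)
      have hdv : (p : ℤ) ∣ (fun a => ν ⬝ᵥ P a) ⬝ᵥ D.cr (D.s i) - ν ⬝ᵥ D.cr (D.s i) := by
        rw [e]
        exact Finset.dvd_sum fun b _ => (p3 _ (D.in_s.2 hi') b).mul_left _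
      obtain ⟨c, hc⟩ := hdv
      exact ⟨-c * D.rt (D.s i) a, by linear_combination (-D.rt (D.s i) a) * hc⟩
  intro μ A _ S hS hinj
  choose T1 t1 a1 using fun a => m1.adm hs hχ ((D.levi C).std_sc (D.std_levi C hχ))
    (fun _ => rfl) l1 (hS a)
  choose T2 t2 a2 using fun a => m2.adm hs.symm hχ (D.std_levi Cᶜ hχ) (fun _ => rfl) l2 (hS a)
  obtain ⟨c1, hc1⟩ := tens_count (h1 _) T1 a1
  obtain ⟨c2, hc2⟩ := tens_count (h2 _) T2 a2
  have hle := Fintype.card_le_of_injective (fun a => (c1 a, c2 a)) fun a a' e => by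
    have := (hS a).fd
    have := (hS a').fd
    exact hinj a a' (hs.iso (hS a).simple (hS a').simple (t1 a) (t2 a) (t1 a') (t2 a')
      (a1 a).simple (a2 a).simple (a1 a').simple (a2 a').simple
      (hc1 a a' (congrArg Prod.fst e)) (hc2 a a' (congrArg Prod.snd e)))
  rw [Fintype.card_prod, Fintype.card_fin, Fintype.card_fin, Nat.div_one, Nat.div_one] at hle
  rw [Nat.div_one]
  exact hle.trans ((Nat.mul_le_mul_right _ (D.levi C).sc_wn_le).trans (D.wn_mul_le C hC))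

end CD

end Pool.Agent.P.Bf04
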