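import Mathlib

/-! Jordan form of a nilpotent matrix. -/

namespace Pool.Agent.P.Bf04

open Polynomial in
theorem jordan_basis (K : Type*) [Field K] (m : ℕ) :
    ∃ b : Module.Basis (Fin m) K (K[X] ⧸ (K[X] ∙ (X : K[X]) ^ m)),
      ∀ j, b j = Submodule.Quotient.mk (X ^ j.val) := by
  let pb := AdjoinRoot.powerBasis' (monic_X_pow (R := K) m)
  have h2 : pb.dim = m := natDegree_X_pow (R := K) m
  refine ⟨pb.basis.reindex (finCongr h2), fun j => ?_⟩
  have h3 : pb.basis.reindex (finCongr h2) j = AdjoinRoot.mk (X ^ m) (X ^ j.val) := by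
    rw [Module.Basis.reindex_apply, PowerBasis.coe_basis, map_pow]
    rfl
  exact h3

open Polynomial in
theorem jordan_sigma {K V : Type*} [Field K] [AddCommGroup V] [Module K V] [Module.Finite K V]
    (f : Module.End K V) (h : IsNilpotent f) :
    ∃ (d : ℕ) (k : Fin d → ℕ) (b : Module.Basis (Σ i, Fin (k i)) K V),
      ∀ i (j : Fin (k i)), f (b ⟨i, j⟩) = 0 ∨
        ∃ j' : Fin (k i), j'.val = j.val + 1 ∧ f (b ⟨i, j⟩) = b ⟨i, j'⟩ := by
  classical
  have ht : Module.IsTorsion' (Module.AEval' f) (Submonoid.powers (X : K[X])) := by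
    intro x
    obtain ⟨m, hm⟩ := h
    refine ⟨⟨X ^ m, m, rfl⟩, ?_⟩
    obtain ⟨y, rfl⟩ := (Module.AEval'.of f).surjective x
    rw [Submonoid.smul_def, Module.AEval'.X_pow_smul_of, hm, zero_smul, map_zero]
  obtain ⟨d, k, ⟨e⟩⟩ := Module.torsion_by_prime_power_decomposition irreducible_X ht
  choose pb hpb using jordan_basis K
  let e1 : Module.AEval' f ≃ₗ[K[X]] ∀ i : Fin d, K[X] ⧸ (K[X] ∙ (X : K[X]) ^ k i) :=
    e.trans (DirectSum.linearEquivFunOnFintype _ _ _)
  let e2 : (∀ i : Fin d, K[X] ⧸ (K[X] ∙ (X : K[X]) ^ k i)) ≃ₗ[K] V :=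
    (e1.symm.restrictScalars K).trans (Module.AEval'.of f).symm
  have he : ∀ x, f (e2 x) = e2 ((X : K[X]) • x) := fun x => by
    change f ((Module.AEval'.of f).symm (e1.symm x)) =
      (Module.AEval'.of f).symm (e1.symm ((X : K[X]) • x))
    rw [map_smul, Module.AEval'.of_symm_X_smul]
  refine ⟨d, k, (Pi.basis fun i => pb (k i)).map e2, fun i j => ?_⟩
  have hx : f (((Pi.basis fun i => pb (k i)).map e2) ⟨i, j⟩) =
      e2 (Pi.single i (Submodule.Quotient.mk (X ^ (j.val + 1)))) := by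
    rw [Module.Basis.map_apply, he, Pi.basis_apply, ← Pi.single_smul, hpb, pow_succ']
    rfl
  by_cases hj : j.val + 1 < k i
  · refine Or.inr ⟨⟨j.val + 1, hj⟩, rfl, ?_⟩
    rw [hx, Module.Basis.map_apply, Pi.basis_apply, hpb]
  · left
    have h1 : j.val + 1 = k i := by
      have := j.2
      omega
    rw [hx, h1, (Submodule.Quotient.mk_eq_zero _).2 (Submodule.mem_span_singleton_self _),
      Pi.single_zero, map_zero]

theorem jordan {K : Type*} [Field K] {n : ℕ} {M : Matrix (Fin n) (Fin n) K} (h : IsNilpotent M) :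
    ∃ P Q : Matrix (Fin n) (Fin n) K, P * Q = 1 ∧ Q * P = 1 ∧
      ∀ a b, (Q * M * P) a b ≠ 0 → b.val = a.val + 1 := by
  classical
  obtain ⟨d, k, b, hb⟩ := jordan_sigma (Matrix.toLin' M) (h.map Matrix.toLinAlgEquiv')
  have hn : ∑ i, k i = n := by
    have h1 := Module.finrank_eq_card_basis b
    rw [Module.finrank_fin_fun, Fintype.card_sigma] at h1
    simpa using h1.symm
  subst hn
  let B := b.reindex (finSigmaFinEquiv.trans Fin.revPerm)
  let S := Pi.basisFun K (Fin (∑ i, k i))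
  refine ⟨S.toMatrix B, B.toMatrix S, S.toMatrix_mul_toMatrix_flip B,
    B.toMatrix_mul_toMatrix_flip S, fun a c hac => ?_⟩
  have h1 : B.toMatrix S * M * S.toMatrix B = LinearMap.toMatrix B B (Matrix.toLin' M) := by
    rw [← basis_toMatrix_mul_linearMap_toMatrix_mul_basis_toMatrix B S B S (Matrix.toLin' M),
      LinearMap.toMatrix_eq_toMatrix', LinearMap.toMatrix'_toLin']
  rw [h1, LinearMap.toMatrix_apply] at hac
  obtain ⟨⟨i, j⟩, rfl⟩ := (finSigmaFinEquiv.trans Fin.revPerm).surjective c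
  rw [Module.Basis.reindex_apply, Equiv.symm_apply_apply] at hac
  rcases hb i j with h0 | ⟨j', hj', h0⟩
  · rw [h0, map_zero] at hac
    exact (hac rfl).elim
  · have h2 : b ⟨i, j'⟩ = B ((finSigmaFinEquiv.trans Fin.revPerm) ⟨i, j'⟩) := by
      rw [Module.Basis.reindex_apply, Equiv.symm_apply_apply]
    rw [h0, h2, Module.Basis.repr_self, Finsupp.single_apply] at hac
    have h3 : (finSigmaFinEquiv.trans Fin.revPerm) ⟨i, j'⟩ = a := by
      by_contra h4
      exact hac (if_neg h4)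
    have h5 := (finSigmaFinEquiv ⟨i, j'⟩).2
    rw [← h3]
    simp only [Equiv.trans_apply, Fin.revPerm_apply, Fin.val_rev, finSigmaFinEquiv_apply] at h5 ⊢
    omega

end Pool.Agent.P.Bf04
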