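import Pool.Agent.P.MP_bf0464_al.H.RepL
import Pool.Agent.P.MP_bf0464_al.H.SubA

/-! Components of type A: weights of the natural module and the roots of the component. -/

namespace Pool.Agent.P.Bf04

open Matrix Module

attribute [local instance 100] LieRing.ofAssociativeRing

universe u v w

namespace CD

variable {D : CD} {n : ℕ}

theorem typA_wOf_co (β : D.ι) : D.wOf (D.co β) = D.rt β := (D.rt_co β).symm

theorem typA_wOf_sub (x y : D.Δ → ℤ) : D.wOf (x - y) = D.wOf x - D.wOf y := by
  simp only [wOf, Pi.sub_apply, sub_smul, Finset.sum_sub_distrib]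

theorem typA_wOf_add (x y : D.Δ → ℤ) : D.wOf (x + y) = D.wOf x + D.wOf y := by
  simp only [wOf, Pi.add_apply, add_smul, Finset.sum_add_distrib]

theorem typA_wOf_zero : D.wOf 0 = 0 := by simp [wOf]

theorem typA_wOf_inj {x y : D.Δ → ℤ} (h : D.wOf x = D.wOf y) : x = y := D.rootA_li h

/-- coordinates of the weights of the natural module -/
def typA_cw (D : CD) (e : Fin (n + 1) → D.Δ) (x : Fin (n + 2)) : D.Δ → ℤ :=
  -∑ c : Fin (n + 1), if c.val < x.val then Pi.single (e c) 1 else 0

/-- the weights of the natural module -/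
def typA_wv (D : CD) (e : Fin (n + 1) → D.Δ) (x : Fin (n + 2)) : D.σ → ℤ :=
  D.ω (e 0) + D.wOf (D.typA_cw e x)

variable {e : Fin (n + 1) → D.Δ}

theorem typA_cw_zero : D.typA_cw e 0 = 0 := by simp [typA_cw]

theorem typA_cw_succ (c : Fin (n + 1)) :
    D.typA_cw e c.succ = D.typA_cw e c.castSucc - Pi.single (e c) 1 := by
  unfold typA_cw
  have h : ∀ c' : Fin (n + 1), (if c'.val < c.succ.val then (Pi.single (e c') 1 : D.Δ → ℤ) else 0)
      = (if c'.val < c.castSucc.val then Pi.single (e c') 1 else 0)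
        + if c' = c then Pi.single (e c') 1 else 0 := by
    intro c'
    simp only [Fin.val_succ, Fin.val_castSucc, Fin.ext_iff]
    split_ifs <;> first | omega | simp
  simp only [h, Finset.sum_add_distrib, Finset.sum_ite_eq', Finset.mem_univ, if_true]
  abel

theorem typA_cw_anti {a b : Fin (n + 2)} (h : a ≤ b) : D.typA_cw e b ≤ D.typA_cw e a := by
  unfold typA_cw
  refine neg_le_neg (Finset.sum_le_sum fun c _ => ?_)
  have h' : a.val ≤ b.val := h
  have h1 : (0 : D.Δ → ℤ) ≤ Pi.single (e c) 1 := Pi.single_nonneg.mpr zero_le_one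
  split_ifs <;> first | omega | exact le_rfl

theorem typA_wv_succ (c : Fin (n + 1)) :
    D.typA_wv e c.succ = D.typA_wv e c.castSucc - D.rt (D.s (e c)) := by
  unfold typA_wv
  rw [typA_cw_succ, typA_wOf_sub, ← D.co_s, typA_wOf_co]
  abel

theorem typA_co {a b : Fin (n + 2)} {β : D.ι} (h : D.typA_wv e a = D.typA_wv e b + D.rt β) :
    D.co β = D.typA_cw e a - D.typA_cw e b := by
  apply typA_wOf_inj
  rw [typA_wOf_co, typA_wOf_sub]
  unfold typA_wv at h
  rw [add_assoc, add_right_inj] at h
  rw [h]; abel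

/-- a component of type A -/
structure TypAData (D : CD) (C : Finset D.Δ) (e : Fin (n + 1) → D.Δ) : Prop where
  inj : Function.Injective e
  mem : ∀ i, i ∈ C ↔ ∃ c, e c = i
  car : ∀ a b, D.A (e a) (e b) = CartanMatrix.A (n + 1) a b
  orth : ∀ i ∈ C, ∀ j ∉ C, D.A i j = 0

variable {C : Finset D.Δ}

namespace TypAData

theorem wv_cr (H : TypAData D C e) (x : Fin (n + 2)) (b : Fin (n + 1)) :
    D.typA_wv e x ⬝ᵥ D.cr (D.s (e b))
      = (if x = b.castSucc then 1 else 0) - if x = b.succ then 1 else 0 := by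
  induction x using Fin.induction with
  | zero =>
    rw [typA_wv, typA_cw_zero, typA_wOf_zero, add_zero, D.ω_cr]
    simp only [H.inj.eq_iff, Fin.ext_iff, Fin.val_zero, Fin.val_castSucc, Fin.val_succ]
    split_ifs <;> first | omega | contradiction
  | succ c ih =>
    rw [typA_wv_succ, sub_dotProduct, ih]
    have h := H.car c b
    simp only [RD.A, RD.pr, Matrix.of_apply, CartanMatrix.A] at h
    rw [h]
    simp only [Fin.ext_iff, Fin.val_castSucc, Fin.val_succ]
    split_ifs <;> omega

theorem wv_cr_out (H : TypAData D C e) (x : Fin (n + 2)) {j : D.Δ} (hj : j ∉ C) :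
    D.typA_wv e x ⬝ᵥ D.cr (D.s j) = 0 := by
  induction x using Fin.induction with
  | zero =>
    rw [typA_wv, typA_cw_zero, typA_wOf_zero, add_zero, D.ω_cr, if_neg]
    rintro rfl
    exact hj ((H.mem _).2 ⟨0, rfl⟩)
  | succ c ih =>
    rw [typA_wv_succ, sub_dotProduct, ih]
    have h := H.orth _ ((H.mem _).2 ⟨c, rfl⟩) j hj
    simp only [RD.A, RD.pr, Matrix.of_apply] at h
    rw [h, sub_zero]

theorem wv_swap (H : TypAData D C e) (x : Fin (n + 2)) (c : Fin (n + 1)) :
    D.typA_wv e (Equiv.swap c.castSucc c.succ x)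
      = D.typA_wv e x - (D.typA_wv e x ⬝ᵥ D.cr (D.s (e c))) • D.rt (D.s (e c)) := by
  have hne : c.castSucc ≠ c.succ := (Fin.castSucc_lt_succ).ne
  rw [H.wv_cr]
  by_cases h1 : x = c.castSucc
  · subst h1
    rw [Equiv.swap_apply_left, if_pos rfl, if_neg hne, typA_wv_succ]; simp
  · by_cases h2 : x = c.succ
    · subst h2
      rw [Equiv.swap_apply_right, if_neg h1, if_pos rfl, typA_wv_succ]; simp
    · rw [Equiv.swap_apply_of_ne_of_ne h1 h2, if_neg h1, if_neg h2]; simp

theorem pr_out (H : TypAData D C e) {β : D.ι} (hβ : D.In C β) {j : D.Δ} (hj : j ∉ C) :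
    D.pr β (D.s j) = 0 := by
  rw [D.pr_s]
  refine Finset.sum_eq_zero fun i _ => ?_
  by_cases hi : i ∈ C
  · rw [H.orth i hi j hj, mul_zero]
  · rw [hβ i hi, zero_mul]

/-- every root of the component is a difference of two weights -/
theorem root_eq (H : TypAData D C e) (β : D.ι) : D.In C β → ∃ a b : Fin (n + 2), a ≠ b ∧
    D.typA_wv e a = D.typA_wv e b + D.rt β ∧ ∀ x, D.typA_wv e x ⬝ᵥ D.cr β
      = (if x = a then 1 else 0) - if x = b then 1 else 0 := by
  induction β using D.root_induction with
  | h0 i =>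
    intro hi
    obtain ⟨c, rfl⟩ := (H.mem i).1 (D.in_s.1 hi)
    refine ⟨c.castSucc, c.succ, (Fin.castSucc_lt_succ).ne, ?_, fun x => H.wv_cr x c⟩
    rw [typA_wv_succ]; abel
  | h1 i β ih =>
    intro hβ
    by_cases hi : i ∈ C
    · have hβ' : D.In C β := by
        have := RD.In.rf (D.in_s.2 hi) hβ
        rwa [D.rf_rf] at this
      obtain ⟨c, rfl⟩ := (H.mem i).1 hi
      obtain ⟨a, b, hab, h1, h2⟩ := ih hβ'
      refine ⟨Equiv.swap c.castSucc c.succ a, Equiv.swap c.castSucc c.succ b,
        fun h => hab ((Equiv.injective _) h), ?_, fun x => ?_⟩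
      · rw [H.wv_swap, H.wv_swap, D.rt_rf, h1, add_dotProduct]
        module
      · have h3 := h2 (Equiv.swap c.castSucc c.succ x)
        rw [H.wv_swap, sub_dotProduct, smul_dotProduct, smul_eq_mul] at h3
        rw [D.cr_rf, dotProduct_sub, dotProduct_smul, smul_eq_mul, mul_comm, h3]
        simp only [Equiv.swap_apply_eq_iff]
    · have h0 := H.pr_out hβ hi
      have h1 : D.rf (D.s i) (D.rf (D.s i) β) = D.rf (D.s i) β := by
        apply D.co_inj
        rw [D.co_rf (D.s i) (D.rf (D.s i) β), h0, zero_smul, sub_zero]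
      rw [D.rf_rf] at h1
      rw [← h1] at hβ ⊢
      exact ih hβ

theorem exists_root_lt (H : TypAData D C e) (a b : Fin (n + 2)) : a < b →
    ∃ β, D.In C β ∧ D.typA_wv e a = D.typA_wv e b + D.rt β := by
  induction b using Fin.induction with
  | zero => intro h; exact absurd h (Fin.not_lt_zero a)
  | succ c ih =>
    intro h
    have hc : D.In C (D.s (e c)) := D.in_s.2 ((H.mem _).2 ⟨c, rfl⟩)
    by_cases hac : a = c.castSucc
    · subst hac
      exact ⟨D.s (e c), hc, by rw [typA_wv_succ]; abel⟩
    · have hlt : a < c.castSucc := by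
        simp only [Fin.lt_def, Fin.ext_iff, Fin.val_succ, Fin.val_castSucc] at h hac ⊢
        omega
      obtain ⟨β, hβ, h1⟩ := ih hlt
      refine ⟨D.rf (D.s (e c)) β, RD.In.rf hc hβ, ?_⟩
      have h2 := H.wv_swap a c
      rw [Equiv.swap_apply_of_ne_of_ne hac h.ne] at h2
      have h3 := H.wv_swap c.castSucc c
      rw [Equiv.swap_apply_left] at h3
      rw [h2, h3, D.rt_rf, h1, add_dotProduct]
      module

/-- every difference of two distinct weights is a root of the component -/
theorem exists_root (H : TypAData D C e) {a b : Fin (n + 2)} (h : a ≠ b) :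
    ∃ β, D.In C β ∧ D.typA_wv e a = D.typA_wv e b + D.rt β := by
  rcases lt_or_gt_of_ne h with h | h
  · exact H.exists_root_lt a b h
  · obtain ⟨β, hβ, h1⟩ := H.exists_root_lt b a h
    exact ⟨D.neg β, D.in_neg.2 hβ, by rw [D.toRD.rt_neg, h1]; abel⟩

theorem in_of_eq (H : TypAData D C e) {a b : Fin (n + 2)} {β : D.ι}
    (h : D.typA_wv e a = D.typA_wv e b + D.rt β) : a ≠ b ∧ D.In C β := by
  have hab : a ≠ b := by
    rintro rfl
    have h1 := typA_co h
    rw [sub_self] at h1
    exact D.co_ne_zero β h1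
  obtain ⟨γ, hγ, h1⟩ := H.exists_root hab
  rw [h, add_right_inj] at h1
  rw [D.rt_inj h1]
  exact ⟨hab, hγ⟩

/-- the pair of weights is determined by the root -/
theorem pair_eq {a b c d : Fin (n + 2)} {β : D.ι}
    (h2 : ∀ x, D.typA_wv e x ⬝ᵥ D.cr β = (if x = a then 1 else 0) - if x = b then 1 else 0)
    (h : D.typA_wv e c = D.typA_wv e d + D.rt β) : c = a ∧ d = b := by
  have h3 := h2 c
  rw [h, add_dotProduct, h2 d, D.two] at h3
  split_ifs at h3 <;> omega

theorem pos_of_lt {a b : Fin (n + 2)} {β : D.ι} (hab : a ≤ b)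
    (h : D.typA_wv e a = D.typA_wv e b + D.rt β) : D.Pos β := by
  unfold RD.Pos
  rw [typA_co h]
  exact sub_nonneg.mpr (typA_cw_anti hab)

end TypAData

variable (K : Type u) [Field K]

/-- the raising operators -/
def typA_E (D : CD) (e : Fin (n + 1) → D.Δ) (i : D.Δ) : Matrix (Fin (n + 2)) (Fin (n + 2)) K :=
  ∑ c, if e c = i then Matrix.single c.castSucc c.succ 1 else 0

/-- the lowering operators -/
def typA_F (D : CD) (e : Fin (n + 1) → D.Δ) (i : D.Δ) : Matrix (Fin (n + 2)) (Fin (n + 2)) K :=
  ∑ c, if e c = i then Matrix.single c.succ c.castSucc 1 else 0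

namespace TypAData

theorem E_in (H : TypAData D C e) (c : Fin (n + 1)) :
    D.typA_E K e (e c) = Matrix.single c.castSucc c.succ 1 := by
  simp only [typA_E, H.inj.eq_iff, Finset.sum_ite_eq', Finset.mem_univ, if_true]

theorem F_in (H : TypAData D C e) (c : Fin (n + 1)) :
    D.typA_F K e (e c) = Matrix.single c.succ c.castSucc 1 := by
  simp only [typA_F, H.inj.eq_iff, Finset.sum_ite_eq', Finset.mem_univ, if_true]

theorem E_out (H : TypAData D C e) {i : D.Δ} (hi : i ∉ C) : D.typA_E K e i = 0 :=
  Finset.sum_eq_zero fun c _ => if_neg fun h => hi ((H.mem i).2 ⟨c, h⟩)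

theorem F_out (H : TypAData D C e) {i : D.Δ} (hi : i ∉ C) : D.typA_F K e i = 0 :=
  Finset.sum_eq_zero fun c _ => if_neg fun h => hi ((H.mem i).2 ⟨c, h⟩)

theorem repData (H : TypAData D C e) :
    D.RepData (D.typA_wv e) (D.typA_E K e) (D.typA_F K e) where
  E_hom i a b h := by
    by_cases hi : i ∈ C
    · obtain ⟨c, rfl⟩ := (H.mem i).1 hi
      rw [H.E_in K, Matrix.single_apply] at h
      obtain ⟨rfl, rfl⟩ : c.castSucc = a ∧ c.succ = b := by
        by_contra hc; exact h (if_neg hc)
      rw [typA_wv_succ]; abel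
    · rw [H.E_out K hi] at h; exact absurd rfl h
  F_hom i a b h := by
    by_cases hi : i ∈ C
    · obtain ⟨c, rfl⟩ := (H.mem i).1 hi
      rw [H.F_in K, Matrix.single_apply] at h
      obtain ⟨rfl, rfl⟩ : c.succ = a ∧ c.castSucc = b := by
        by_contra hc; exact h (if_neg hc)
      rw [typA_wv_succ]; abel
    · rw [H.F_out K hi] at h; exact absurd rfl h
  EF i j := by
    by_cases hi : i ∈ C
    · obtain ⟨c, rfl⟩ := (H.mem i).1 hi
      by_cases hj : j ∈ C
      · obtain ⟨d, rfl⟩ := (H.mem j).1 hj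
        rw [H.E_in K, H.F_in K]
        by_cases hcd : c = d
        · subst hcd
          rw [if_pos rfl, Matrix.single_mul_single_same, Matrix.single_mul_single_same]
          ext a b
          simp only [H.wv_cr, Matrix.sub_apply, Matrix.single_apply, Matrix.diagonal_apply, mul_one]
          by_cases hab : a = b
          · subst hab
            simp only [and_self, if_true, eq_comm (a := a)]
            push_cast
            rfl
          · rw [if_neg hab, if_neg, if_neg, sub_self]
            · rintro ⟨rfl, rfl⟩; exact hab rfl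
            · rintro ⟨rfl, rfl⟩; exact hab rfl
        · rw [if_neg (fun h => hcd (H.inj h)), Matrix.single_mul_single_of_ne,
            Matrix.single_mul_single_of_ne, sub_self]
          · exact fun h => hcd (Fin.castSucc_injective _ h).symm
          · exact fun h => hcd (Fin.succ_injective _ h)
      · rw [H.F_out K hj, if_neg, mul_zero, zero_mul, sub_self]
        rintro rfl; exact hj hi
    · rw [H.E_out K hi, mul_zero, zero_mul, sub_self]
      split_ifs
      · simp only [H.wv_cr_out _ hi, Int.cast_zero, Matrix.diagonal_zero]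
      · rfl
  top x hx hx0 M hM h := by
    refine D.eq_zero_of_cyc (D.typA_wv e) (D.typA_F K e) 0 (fun U h0 hU => ?_) (fun a ha => ?_) hM h
    · have h1 : ∀ a, Pi.single a (1 : K) ∈ U := fun a => by
        induction a using Fin.induction with
        | zero => exact h0
        | succ c ih =>
          have := hU (e c) _ ih
          rwa [H.F_in K, Matrix.single_mulVec, Pi.single_eq_same, mul_one] at this
      rw [eq_top_iff]
      intro v _
      rw [pi_eq_sum_univ' v]
      exact U.sum_mem fun a _ => U.smul_mem _ (h1 a)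
    · unfold typA_wv at ha
      rw [add_assoc, add_right_inj, ← typA_wOf_add] at ha
      have h1 := typA_wOf_inj ha
      have h2 := typA_cw_anti (D := D) (e := e) (Fin.zero_le a)
      rw [h1, add_le_iff_nonpos_right] at h2
      exact hx0 (le_antisymm h2 hx)
  bot x hx hx0 M hM h := by
    refine D.eq_zero_of_cyc (D.typA_wv e) (D.typA_E K e) (Fin.last _) (fun U h0 hU => ?_)
      (fun a ha => ?_) hM h
    · have h1 : ∀ a, Pi.single a (1 : K) ∈ U := fun a => by
        induction a using Fin.reverseInduction with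
        | last => exact h0
        | cast c ih =>
          have := hU (e c) _ ih
          rwa [H.E_in K, Matrix.single_mulVec, Pi.single_eq_same, mul_one] at this
      rw [eq_top_iff]
      intro v _
      rw [pi_eq_sum_univ' v]
      exact U.sum_mem fun a _ => U.smul_mem _ (h1 a)
    · unfold typA_wv at ha
      rw [add_assoc, add_right_inj, ← sub_eq_add_neg, ← typA_wOf_sub] at ha
      have h1 := typA_wOf_inj ha
      have h2 := typA_cw_anti (D := D) (e := e) (Fin.le_last a)
      rw [h1, le_sub_self_iff] at h2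
      exact hx0 (le_antisymm h2 hx)

end TypAData

end CD

end Pool.Agent.P.Bf04
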