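import Pool.Agent.P.MP_bf0464_al.H.RepL
import Pool.Agent.P.MP_bf0464_al.H.Grp1
import Pool.Agent.P.MP_bf0464_al.H.Sub
import Pool.Agent.P.MP_bf0464_al.H.Class
import Pool.Agent.P.MP_bf0464_al.H.Jordan
import Pool.Agent.P.MP_bf0464_al.H.TypA_1

/-! Components of type A: every nilpotent form is conjugate to one in standard Levi form. -/

namespace Pool.Agent.P.Bf04

open Matrix Module

attribute [local instance 100] LieRing.ofAssociativeRing

universe u v w

theorem typA_nil {K : Type u} [Field K] {m : ℕ} {M : Matrix (Fin m) (Fin m) K}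
    (h : ∀ a b, M a b ≠ 0 → a < b) : IsNilpotent M := by
  have key : ∀ k : ℕ, ∀ a b, (M ^ k) a b ≠ 0 → a.val + k ≤ b.val := by
    intro k
    induction k with
    | zero =>
      intro a b hab
      rw [pow_zero, Matrix.one_apply] at hab
      have : a = b := by by_contra hc; exact hab (if_neg hc)
      subst this; omega
    | succ k ih =>
      intro a b hab
      rw [pow_succ, Matrix.mul_apply] at hab
      obtain ⟨c, -, hc⟩ := Finset.exists_ne_zero_of_sum_ne_zero hab
      have h1 := ih a c (left_ne_zero_of_mul hc)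
      have h2 : c.val < b.val := h c b (right_ne_zero_of_mul hc)
      omega
  refine ⟨m, ?_⟩
  ext a b
  by_contra hc
  have h1 := key m a b hc
  have h2 := b.isLt
  omega

theorem typA_conj {K : Type u} [Field K] {A : Type*} [Ring A] [Algebra K A] (N X Z : A) (s : K)
    (h1 : N * N = 0) (h2 : N * X * N = Z) (h3 : Z * N = 0) :
    (X + s • (N * X - X * N) - s ^ 2 • Z) * (1 + s • N) = (1 + s • N) * X := by
  have h4 : X * N * N = 0 := by rw [mul_assoc, h1, mul_zero]
  simp only [mul_add, add_mul, sub_mul, mul_one, one_mul, smul_mul_assoc, mul_smul_comm, h2, h3,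
    h4]
  module

namespace CD

variable {D : CD} {K : Type u} [Field K]

section Aux

variable {n : ℕ} {C : Finset D.Δ} {e : Fin (n + 1) → D.Δ}

/-- the natural module of the component -/
structure TypARep (D : CD) (e : Fin (n + 1) → D.Δ)
    (φ : D.g K →ₗ⁅K⁆ Matrix (Fin (n + 2)) (Fin (n + 2)) K) : Prop where
  tor : ∀ a, φ (D.h K a) = Matrix.diagonal fun x => (D.typA_wv e x a : K)
  hom : ∀ β, D.MHom (D.typA_wv e) (D.rt β) (φ (D.e K β))

variable {φ : D.g K →ₗ⁅K⁆ Matrix (Fin (n + 2)) (Fin (n + 2)) K}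

theorem TypARep.hv (Hφ : TypARep D e φ) (y : D.σ → K) :
    φ (D.hv y) = Matrix.diagonal fun x => ∑ a, y a * (D.typA_wv e x a : K) := by
  rw [D.hv_eq_sum, map_sum]
  ext x x'
  simp only [map_smul, Hφ.tor, Matrix.sum_apply, Matrix.smul_apply, Matrix.diagonal_apply,
    smul_eq_mul]
  split_ifs <;> simp

theorem TypARep.cr (Hφ : TypARep D e φ) (β : D.ι) :
    φ (D.e K β) * φ (D.e K (D.neg β)) - φ (D.e K (D.neg β)) * φ (D.e K β)
      = Matrix.diagonal fun x => ((D.typA_wv e x ⬝ᵥ D.cr β : ℤ) : K) := by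
  rw [← Ring.lie_def, ← LieHom.map_lie, D.lie_e_neg, Hφ.hv]
  congr 1
  funext x
  simp only [dotProduct, Int.cast_sum, Int.cast_mul, mul_comm]

theorem TypARep.out (H : TypAData D C e) (Hφ : TypARep D e φ) {β : D.ι} (hβ : ¬ D.In C β) :
    φ (D.e K β) = 0 := by
  ext a b
  by_contra h
  exact hβ (H.in_of_eq (Hφ.hom β a b h)).2

theorem TypARep.single (H : TypAData D C e) (Hφ : TypARep D e φ) {β : D.ι} {a b : Fin (n + 2)}
    (h : D.typA_wv e a = D.typA_wv e b + D.rt β) :
    (∀ x, D.typA_wv e x ⬝ᵥ D.cr β = (if x = a then 1 else 0) - if x = b then 1 else 0) ∧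
      ∃ c : K, c ≠ 0 ∧ φ (D.e K β) = Matrix.single a b c := by
  obtain ⟨a', b', hab, -, h2⟩ := H.root_eq β (H.in_of_eq h).2
  obtain ⟨rfl, rfl⟩ := TypAData.pair_eq h2 h
  refine ⟨h2, φ (D.e K β) a b, fun h0 => ?_, ?_⟩
  · have h3 : φ (D.e K β) = 0 := by
      ext x y
      by_contra hc
      obtain ⟨rfl, rfl⟩ := TypAData.pair_eq h2 (Hφ.hom β x y hc)
      exact hc h0
    have h4 := congrFun (congrFun (Hφ.cr β) a) a
    rw [h3, zero_mul, mul_zero, sub_self, Matrix.diagonal_apply_eq, h2, if_pos rfl,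
      if_neg hab] at h4
    simp at h4
  · ext x y
    rw [Matrix.single_apply]
    split_ifs with hc
    · rw [hc.1, hc.2]
    · by_contra hc'
      obtain ⟨rfl, rfl⟩ := TypAData.pair_eq h2 (Hφ.hom β x y hc')
      exact hc ⟨rfl, rfl⟩

/-- `A` acts on the natural module as `P` and does not touch the other components -/
def typA_Rel (C : Finset D.Δ) (φ : D.g K →ₗ⁅K⁆ Matrix (Fin (n + 2)) (Fin (n + 2)) K)
    (P : Matrix (Fin (n + 2)) (Fin (n + 2)) K) : Prop :=
  ∃ A ∈ D.G K, (∀ x : D.g K, φ (A *ᵥ x) * P = P * φ x) ∧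
    ∀ (x : D.g K) β, ¬ D.In C β → (A *ᵥ x) (.inr β) = x (.inr β)

theorem typA_Rel.mul {P P' : Matrix (Fin (n + 2)) (Fin (n + 2)) K} (h : typA_Rel C φ P)
    (h' : typA_Rel C φ P') : typA_Rel C φ (P * P') := by
  obtain ⟨A, hA, h1, h2⟩ := h
  obtain ⟨A', hA', h1', h2'⟩ := h'
  refine ⟨A * A', mul_mem hA hA', fun x => ?_, fun x β hβ => ?_⟩
  · rw [← Matrix.mulVec_mulVec, ← mul_assoc, h1, mul_assoc, h1', mul_assoc]
  · rw [← Matrix.mulVec_mulVec, h2 _ _ hβ, h2' _ _ hβ]

theorem typA_of_bv {A : Matrix D.B D.B K} {P : Matrix (Fin (n + 2)) (Fin (n + 2)) K}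
    (h : ∀ b, φ (A *ᵥ D.bv K b) * P = P * φ (D.bv K b)) (x : D.g K) :
    φ (A *ᵥ x) * P = P * φ x := by
  rw [D.eq_sum x]
  simp only [Matrix.mulVec_sum, Matrix.mulVec_smul, map_sum, map_smul, Finset.sum_mul,
    Finset.mul_sum, smul_mul_assoc, mul_smul_comm, h]

theorem typA_diag (H : TypAData D C e) (Hφ : TypARep D e φ) (d : Fin (n + 2) → K)
    (hd : ∀ x, d x ≠ 0) : typA_Rel C φ (Matrix.diagonal d) := by
  obtain ⟨du, hdu⟩ : ∃ du : Fin (n + 2) → Kˣ, ∀ x, (du x : K) = d x :=
    ⟨fun x => Units.mk0 (d x) (hd x), fun _ => rfl⟩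
  obtain ⟨u, hu, hu'⟩ : ∃ u : D.Δ → Kˣ, (∀ c, u (e c) = du c.castSucc * (du c.succ)⁻¹) ∧
      ∀ i ∉ C, u i = 1 := by
    refine ⟨fun i => ∏ c, if e c = i then du c.castSucc * (du c.succ)⁻¹ else 1, fun c => ?_,
      fun i hi => Finset.prod_eq_one fun c _ => if_neg fun h => hi ((H.mem i).2 ⟨c, h⟩)⟩
    simp only [H.inj.eq_iff, Finset.prod_ite_eq', Finset.mem_univ, if_true]
  have h1 : ∀ x, D.chr u (D.typA_cw e x) = du x * (du 0)⁻¹ := fun x => by
    induction x using Fin.induction with
    | zero => rw [typA_cw_zero, D.chr_zero, mul_inv_cancel]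
    | succ c ih =>
      rw [typA_cw_succ, sub_eq_add_neg, D.chr_add, D.chr_neg, D.chr_single, ih, hu]
      simp [mul_comm, mul_assoc]
  refine ⟨D.tM u, tM_mem u, typA_of_bv fun b => ?_, fun x β hβ => ?_⟩
  · have h2 : D.tM u *ᵥ D.bv K b = (D.chr u (D.wt b) : K) • D.bv K b := by
      unfold RD.tM bv
      rw [Matrix.diagonal_mulVec_single, ← Pi.single_smul', smul_eq_mul]
    rw [h2, map_smul]
    rcases b with a | β
    · have h3 : D.wt (.inl a) = 0 := rfl
      rw [h3, D.chr_zero, Units.val_one, one_smul, Hφ.tor, Matrix.diagonal_mul_diagonal,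
        Matrix.diagonal_mul_diagonal]
      congr 1
      funext x
      exact mul_comm _ _
    · ext x y
      rw [Matrix.mul_diagonal, Matrix.diagonal_mul, Matrix.smul_apply, smul_eq_mul]
      by_cases h0 : φ (D.e K β) x y = 0
      · simp only [h0, mul_zero, zero_mul]
      · have h3 : D.wt (.inr β) = D.typA_cw e x - D.typA_cw e y := typA_co (Hφ.hom β x y h0)
        rw [h3, sub_eq_add_neg, D.chr_add, D.chr_neg, h1, h1, ← hdu, ← hdu]
        have h4 := (du 0).ne_zero
        have h5 := (du y).ne_zero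
        simp only [_root_.mul_inv_rev, inv_inv, Units.val_mul, Units.val_inv_eq_inv_val]
        field_simp
  · unfold RD.tM
    rw [Matrix.mulVec_diagonal]
    have h3 : D.chr u (D.wt (.inr β)) = 1 := by
      refine Finset.prod_eq_one fun i _ => ?_
      by_cases hi : i ∈ C
      · have h4 : D.wt (.inr β) i = 0 := (D.orth_split C H.orth β).resolve_left hβ i hi
        rw [h4, zpow_zero]
      · rw [hu' i hi, _root_.one_zpow]
    rw [h3, Units.val_one, one_mul]

theorem typA_wt_out (H : TypAData D C e) {α β : D.ι} (hα : D.In C α) (hβ : ¬ D.In C β) {j : D.B}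
    {k : ℕ} (hk : 1 ≤ k) : D.co β ≠ D.wt j + (k : ℤ) • D.co α := by
  intro h
  have h1 := (D.orth_split C H.orth β).resolve_left hβ
  have h2 : ∀ i ∉ C, D.co β i = D.wt j i := fun i hi => by
    rw [h, Pi.add_apply, Pi.smul_apply, hα i hi, smul_zero, add_zero]
  rcases j with a | γ
  · exact hβ fun i hi => h2 i hi
  · rcases D.orth_split C H.orth γ with h3 | h3
    · exact hβ fun i hi => (h2 i hi).trans (h3 i hi)
    · apply D.co_ne_zero α
      funext i
      by_cases hi : i ∈ C
      · have h4 := congrFun h i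
        have h5 : D.wt (.inr γ) i = 0 := h3 i hi
        rw [h1 i hi, Pi.add_apply, Pi.smul_apply, h5, zero_add, smul_eq_mul] at h4
        exact (mul_eq_zero.mp h4.symm).resolve_left (by omega)
      · exact hα i hi

theorem typA_trans (H : TypAData D C e) (Hφ : TypARep D e φ) {a b : Fin (n + 2)} (hab : a ≠ b)
    (t : K) : typA_Rel C φ (1 + Matrix.single a b t) := by
  obtain ⟨α, hα, h1⟩ := H.exists_root hab
  obtain ⟨h2, c, hc, h3⟩ := Hφ.single H h1
  have hP : 1 + Matrix.single a b t = 1 + (t / c) • φ (D.e K α) := by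
    rw [h3, Matrix.smul_single, smul_eq_mul, div_mul_cancel₀ _ hc]
  have hNN : φ (D.e K α) * φ (D.e K α) = 0 := by
    rw [h3, Matrix.single_mul_single_of_ne _ _ _ _ hab.symm]
  have hNXN : ∀ X : Matrix (Fin (n + 2)) (Fin (n + 2)) K, X b a = 0 →
      φ (D.e K α) * X * φ (D.e K α) = 0 := fun X hX => by
    rw [h3, Matrix.single_mul_mul_single, hX, mul_zero, zero_mul, Matrix.single_zero]
  rw [hP]
  generalize t / c = s
  refine ⟨D.xM α s, xM_mem (Set.mem_univ _) s, typA_of_bv fun j => ?_, fun x β hβ => ?_⟩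
  · rcases j with a' | γ
    · have h4 : D.xM α s *ᵥ D.h K a' = D.h K a' + s • ⁅D.e K α, D.h K a'⁆ := by
        rw [← lie_skew, D.lie_h_e, ← D.hv_single, D.xM_hv]
        simp only [Pi.single_apply, mul_ite, mul_one, mul_zero, Finset.sum_ite_eq',
          Finset.mem_univ, if_true]
        module
      rw [h4, map_add, map_smul, LieHom.map_lie, Ring.lie_def,
        ← typA_conj _ _ 0 s hNN (hNXN _ ?_) (zero_mul _), smul_zero, sub_zero]
      rw [Hφ.tor, Matrix.diagonal_apply_ne _ hab.symm]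
    · by_cases hγ : γ = D.neg α
      · subst hγ
        rw [D.xM_neg, ← D.lie_e_neg, map_sub, map_add, map_smul, map_smul, LieHom.map_lie,
          Ring.lie_def]
        refine typA_conj _ _ _ s hNN ?_ hNN
        have h4 := congrArg (· * φ (D.e K α)) (Hφ.cr α)
        simp only [sub_mul] at h4
        rw [mul_assoc _ _ (φ (D.e K α)), mul_assoc _ _ (φ (D.e K α)), hNN, mul_zero, sub_zero,
          ← mul_assoc] at h4
        rw [h4, h3]
        ext x y
        rw [Matrix.diagonal_mul, Matrix.single_apply]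
        split_ifs with h5
        · rw [← h5.1, h2, if_pos rfl, if_neg hab]; simp
        · rw [mul_zero]
      · have h4 : ∀ z ∈ Submodule.span K {x : D.g K | ∃ (δ : D.ι) (j : ℕ), 2 ≤ j ∧
            D.co δ = D.co γ + (j : ℤ) • D.co α ∧ x = D.e K δ}, φ z = 0 := by
          intro z hz
          induction hz using Submodule.span_induction with
          | mem z hz =>
            obtain ⟨δ, j, hj, h5, rfl⟩ := hz
            refine Hφ.out H fun hδ => hγ ?_
            have hγ' : D.In C γ := fun i hi => by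
              have := congrFun h5 i
              rw [hδ i hi, Pi.add_apply, Pi.smul_apply, hα i hi, smul_zero, add_zero] at this
              exact this.symm
            obtain ⟨x, y, -, h6, -⟩ := H.root_eq δ hδ
            obtain ⟨x', y', -, h7, -⟩ := H.root_eq γ hγ'
            have h8 : D.rt δ = D.rt γ + (j : ℤ) • D.rt α := by
              rw [← typA_wOf_co, h5, typA_wOf_add, typA_wOf_co]
              congr 1
              rw [D.rt_co α, Finset.smul_sum]
              simp only [wOf, Pi.smul_apply, smul_eq_mul, mul_smul]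
            have h9 := h2 x
            have h10 := h2 x'
            rw [h6, add_dotProduct, h2 y, h8, add_dotProduct, smul_dotProduct, D.two,
              smul_eq_mul] at h9
            rw [h7, add_dotProduct, h2 y'] at h10
            have h11 : x' = b ∧ y' = a := by
              split_ifs at h9 h10 <;> omega
            obtain ⟨rfl, rfl⟩ := h11
            apply D.rt_inj
            rw [D.toRD.rt_neg, eq_neg_iff_add_eq_zero]
            rw [h7, add_assoc, left_eq_add] at h1
            exact h1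
          | zero => exact map_zero φ
          | add x y _ _ hx hy => rw [map_add, hx, hy, add_zero]
          | smul r x _ hx => rw [map_smul, hx, smul_zero]
        have h5 := h4 _ (D.xM_e hγ s)
        rw [map_sub, map_sub, sub_sub, sub_eq_zero, map_smul, LieHom.map_lie, Ring.lie_def] at h5
        rw [h5, ← typA_conj _ _ 0 s hNN (hNXN _ ?_) (zero_mul _), smul_zero, sub_zero]
        by_contra h6
        apply hγ
        apply D.rt_inj
        rw [D.toRD.rt_neg, eq_neg_iff_add_eq_zero]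
        have h7 := Hφ.hom γ b a h6
        rw [h7, add_assoc, left_eq_add] at h1
        exact h1
  · have h4 : ∀ j, D.xM α s (.inr β) j = (1 : Matrix D.B D.B K) (.inr β) j := fun j => by
      have h5 : (D.xM α s - 1 - s • (D.adM (.inr α)).map (Int.cast : ℤ → K)) (.inr β) j = 0 := by
        by_contra h6
        obtain ⟨k, hk, h7⟩ := D.xM_wt_two α s h6
        exact typA_wt_out H hα hβ (by omega) h7
      have h6 : D.adM (.inr α) (.inr β) j = 0 := by
        by_contra h7
        refine typA_wt_out H hα hβ (j := j) le_rfl ?_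
        rw [Nat.cast_one, one_smul]
        exact D.adM_hom (.inr α) _ _ h7
      rw [Matrix.sub_apply, Matrix.sub_apply, Matrix.smul_apply, Matrix.map_apply, h6,
        Int.cast_zero, smul_zero, sub_zero, sub_eq_zero] at h5
      exact h5
    have h5 : (D.xM α s *ᵥ x) (.inr β) = ((1 : Matrix D.B D.B K) *ᵥ x) (.inr β) := by
      simp only [Matrix.mulVec, dotProduct, h4]
    rw [h5, Matrix.one_mulVec]

theorem typA_all (H : TypAData D C e) (Hφ : TypARep D e φ)
    {P : Matrix (Fin (n + 2)) (Fin (n + 2)) K} (hP : P.det ≠ 0) : typA_Rel C φ P := by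
  refine Matrix.diagonal_transvection_induction_of_det_ne_zero (typA_Rel C φ) P hP
    (fun d hd => typA_diag H Hφ d fun x => ?_) (fun t => typA_trans H Hφ t.hij t.c)
    fun A B _ _ hA hB => hA.mul hB
  rw [Matrix.det_diagonal] at hd
  exact Finset.prod_ne_zero_iff.mp hd x (Finset.mem_univ x)

theorem typA_exists_M (H : TypAData D C e) (Hφ : TypARep D e φ) {χ : D.B → K} (hχ : D.Std χ) :
    ∃ M : Matrix (Fin (n + 2)) (Fin (n + 2)) K, (∀ a b, M a b ≠ 0 → a < b) ∧
      ∀ β, D.In C β → (M * φ (D.e K β)).trace = χ (.inr β) := by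
  choose r hr hr' using fun (a b : Fin (n + 2)) (h : a ≠ b) => H.exists_root h
  refine ⟨Matrix.of fun b a => if h : a ≠ b then χ (.inr (r a b h)) / φ (D.e K (r a b h)) a b
    else 0, fun b a h => ?_, fun β hβ => ?_⟩
  · rw [Matrix.of_apply] at h
    by_contra hc
    split_ifs at h with h1
    · apply h
      rw [hχ.2 _ (TypAData.pos_of_lt (not_lt.mp hc) (hr' a b h1)), zero_div]
    · exact h rfl
  · obtain ⟨a, b, hab, h1, -⟩ := H.root_eq β hβ
    obtain ⟨-, c, hc, h3⟩ := Hφ.single H h1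
    have h4 : r a b hab = β := by
      have := hr' a b hab
      rw [h1, add_right_inj] at this
      exact (D.rt_inj this).symm
    rw [h3, Matrix.trace_mul_single, Matrix.of_apply, dif_pos hab, h4, h3,
      Matrix.single_apply_same]
    simp [hc]

end Aux

theorem typA (hN : ∀ α β γ, D.co α + D.co β = D.co γ → (D.N α β : K) ≠ 0) (C : Finset D.Δ)
    (hC : ∀ i ∈ C, ∀ j ∉ C, D.A i j = 0) {n : ℕ} (hT : IsTyp D.A C (CartanMatrix.A (n + 1)))
    {χ : D.B → K} (hχ : D.Std χ) : ∃ A ∈ D.G K, D.Std (χ ᵥ* A) ∧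
      (∀ β, D.In C β → (χ ᵥ* A) (.inr β) ≠ 0 → ∃ i, β = D.neg (D.s i)) ∧
      ∀ β, ¬ D.In C β → (χ ᵥ* A) (.inr β) = χ (.inr β) := by
  obtain ⟨e, he, heC, hA⟩ := hT
  have H : TypAData D C e := ⟨he, fun i => by rw [← heC]; simp, hA, hC⟩
  obtain ⟨φ, h1, -, -, h2⟩ := D.exists_rep hN (H.repData K)
  have Hφ : TypARep D e φ := ⟨h1, h2⟩
  obtain ⟨M, hM, hM'⟩ := typA_exists_M H Hφ hχ
  obtain ⟨P, Q, hPQ, -, hJ⟩ := jordan (typA_nil hM)
  have hdet : P.det ≠ 0 := fun h => by
    have := congrArg Matrix.det hPQ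
    rw [Matrix.det_mul, h, zero_mul, Matrix.det_one] at this
    exact zero_ne_one this
  obtain ⟨A, hAG, hA1, hA2⟩ := typA_all H Hφ hdet
  have htor : ∀ (X : Matrix (Fin (n + 2)) (Fin (n + 2)) K), (∀ x, X x x = 0) → ∀ a,
      (X * φ (D.h K a)).trace = 0 := fun X hX a => by
    rw [h1, Matrix.trace]
    exact Finset.sum_eq_zero fun x _ => by
      rw [Matrix.diag_apply, Matrix.mul_diagonal, hX, zero_mul]
  have hM0 : ∀ x, M x x = 0 := fun x => by
    by_contra hc; exact lt_irrefl _ (hM x x hc)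
  have hJ0 : ∀ x, (Q * M * P) x x = 0 := fun x => by
    by_contra hc; have := hJ x x hc; omega
  -- the value of `χ` on a vector
  have hval : ∀ x : D.g K, χ ⬝ᵥ x = (M * φ x).trace
      + ∑ β, if D.In C β then 0 else χ (.inr β) * x (.inr β) := by
    intro x
    conv_rhs => enter [1]; rw [D.eq_sum x]
    rw [map_sum, Finset.mul_sum, Matrix.trace_sum, dotProduct, Fintype.sum_sum_type,
      Fintype.sum_sum_type, add_assoc, ← Finset.sum_add_distrib]
    congr 1
    · refine Finset.sum_congr rfl fun a _ => ?_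
      rw [hχ.1, zero_mul, map_smul, mul_smul_comm, Matrix.trace_smul, htor M hM0, smul_zero]
    · refine Finset.sum_congr rfl fun β _ => ?_
      rw [map_smul, mul_smul_comm, Matrix.trace_smul]
      split_ifs with hβ
      · rw [hM' β hβ, add_zero, smul_eq_mul, mul_comm]
      · rw [Hφ.out H hβ, mul_zero, Matrix.trace_zero, smul_zero, zero_add]
  have hkey : ∀ b, (χ ᵥ* A) b = (Q * M * P * φ (D.bv K b)).trace
      + ∑ β, if D.In C β then 0 else χ (.inr β) * D.bv K b (.inr β) := by
    intro b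
    have h3 : (χ ᵥ* A) b = χ ⬝ᵥ (A *ᵥ D.bv K b) := by
      rw [Matrix.dotProduct_mulVec, bv, dotProduct_single, mul_one]
    rw [h3, hval]
    congr 1
    · rw [mul_assoc (Q * M), ← hA1, mul_assoc Q, Matrix.trace_mul_comm Q, mul_assoc, mul_assoc,
        hPQ, mul_one]
    · refine Finset.sum_congr rfl fun β _ => ?_
      split_ifs with hβ
      · rfl
      · rw [hA2 _ _ hβ]
  have hout : ∀ β, ¬ D.In C β → (χ ᵥ* A) (.inr β) = χ (.inr β) := by
    intro β hβ
    rw [hkey, Hφ.out H hβ, mul_zero, Matrix.trace_zero, zero_add, Finset.sum_eq_single β,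
      if_neg hβ, bv, Pi.single_eq_same, mul_one]
    · intro γ _ hγ
      rw [bv, Pi.single_eq_of_ne (fun h => hγ (Sum.inr_injective h)), mul_zero, ite_self]
    · simp
  have hin : ∀ β, D.In C β → (χ ᵥ* A) (.inr β) ≠ 0 → ∃ i, β = D.neg (D.s i) := by
    intro β hβ h
    rw [hkey, Finset.sum_eq_zero, add_zero, Matrix.trace] at h
    · obtain ⟨x, -, hx⟩ := Finset.exists_ne_zero_of_sum_ne_zero h
      rw [Matrix.diag_apply, Matrix.mul_apply] at hx
      obtain ⟨y, -, hy⟩ := Finset.exists_ne_zero_of_sum_ne_zero hx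
      have h3 := hJ x y (left_ne_zero_of_mul hy)
      have h4 := h2 β y x (right_ne_zero_of_mul hy)
      have h5 := y.isLt
      obtain ⟨c, rfl, rfl⟩ : ∃ c : Fin (n + 1), x = c.castSucc ∧ y = c.succ :=
        ⟨⟨x.val, by omega⟩, Fin.ext rfl, Fin.ext h3⟩
      refine ⟨e c, D.rt_inj ?_⟩
      rw [typA_wv_succ, sub_eq_add_neg, add_right_inj] at h4
      rw [D.toRD.rt_neg, h4]
    · intro γ _
      split_ifs with hγ
      · rfl
      · rw [bv, Pi.single_eq_of_ne, mul_zero]
        intro h3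
        rw [Sum.inr_injective h3] at hγ
        exact hγ hβ
  refine ⟨A, hAG, ⟨fun a => ?_, fun β hβ => ?_⟩, hin, hout⟩
  · rw [hkey, htor _ hJ0, zero_add]
    refine Finset.sum_eq_zero fun γ _ => ?_
    rw [bv, Pi.single_eq_of_ne Sum.inr_ne_inl, mul_zero, ite_self]
  · by_cases h : D.In C β
    · by_contra hc
      obtain ⟨i, rfl⟩ := hin β h hc
      exact (D.pos_neg_iff _).1 hβ (D.pos_s i)
    · rw [hout β h, hχ.2 β hβ]

end CD

end Pool.Agent.P.Bf04
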