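import Pool.Agent.P.MP_bf0464_al.H.XExc
import Pool.Agent.P.MP_bf0464_al.H.Tens
import Pool.Agent.P.MP_bf0464_al.H.TypA
import Pool.Agent.P.MP_bf0464_al.H.ClBnd

/-! Induction on the rank. -/

namespace Pool.Agent.P.Bf04

open Matrix Module

attribute [local instance 100] LieRing.ofAssociativeRing

universe u v w

namespace CD

variable {p : ℕ} [Fact p.Prime]

theorem hmain_step {D : CD} (hg : D.Good p) (h : ∀ i₀, ∃ C : Finset D.Δ, i₀ ∈ C ∧
    (∀ i ∈ C, ∀ j ∉ C, D.A i j = 0) ∧ ∃ n, IsTyp D.A C (CartanMatrix.A (n + 1)))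
    {K : Type u} [Field K] [CharP K p] {χ : D.B → K} (hχ : D.Std χ) (S : Finset D.Δ) :
    ∃ A ∈ D.G K, D.Std (χ ᵥ* A) ∧ ∀ β, (∃ i ∈ S, D.co β i ≠ 0) → (χ ᵥ* A) (.inr β) ≠ 0 →
      ∃ i, β = D.neg (D.s i) := by
  have hN : ∀ α β γ, D.co α + D.co β = D.co γ → (D.N α β : K) ≠ 0 := fun α β γ e h0 =>
    D.N_good Fact.out hg e ((CharP.intCast_eq_zero_iff K p _).1 h0)
  induction S using Finset.induction_on with
  | empty =>
    refine ⟨1, (D.G K).one_mem, by rwa [Matrix.vecMul_one], fun β hβ => ?_⟩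
    obtain ⟨i, hi, _⟩ := hβ
    exact absurd hi (Finset.notMem_empty i)
  | insert i₀ S _ ih =>
    obtain ⟨A, hA, h1, h2⟩ := ih
    obtain ⟨C, hi₀, hC, n, hT⟩ := h i₀
    obtain ⟨A', hA', h3, h4, h5⟩ := typA hN C hC hT h1
    refine ⟨A * A', (D.G K).mul_mem hA hA', by rwa [← Matrix.vecMul_vecMul], fun β hβ h0 => ?_⟩
    rw [← Matrix.vecMul_vecMul] at h0
    by_cases hI : D.In C β
    · exact h4 β hI h0
    · rw [h5 β hI] at h0
      refine h2 β ?_ h0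
      obtain ⟨i, hi, hne⟩ := hβ
      rcases Finset.mem_insert.1 hi with rfl | hi
      · exact absurd (((D.orth_split C hC β).resolve_left hI) i hi₀) hne
      · exact ⟨i, hi, hne⟩

theorem hum_A {D : CD} (hg : D.Good p) (h : ∀ i₀, ∃ C : Finset D.Δ, i₀ ∈ C ∧
    (∀ i ∈ C, ∀ j ∉ C, D.A i j = 0) ∧ ∃ n, IsTyp D.A C (CartanMatrix.A (n + 1))) : Hum.{u} D p := by
  intro K _ _ _ χ hχ
  obtain ⟨A, hA, h1, h2⟩ := hmain_step hg h hχ Finset.univ
  refine Sav.move hA h1 (sav_std h1 fun β h0 => h2 β ?_ h0)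
  obtain ⟨i, hi⟩ := Function.ne_iff.1 (D.co_ne_zero β)
  exact ⟨i, Finset.mem_univ i, hi⟩

theorem hmain_card (D : CD) (J : Finset D.Δ) : Fintype.card (D.levi J).Δ = J.card :=
  Fintype.card_coe J

theorem hmain_lt (D : CD) {J : Finset D.Δ} (h : J ≠ Finset.univ) :
    Fintype.card (D.levi J).Δ < Fintype.card D.Δ := by
  rw [hmain_card]
  exact Finset.card_lt_univ_of_notMem
    (Classical.choose_spec (show ∃ i, i ∉ J from by
      by_contra hc
      exact h (Finset.eq_univ_of_forall fun i => by_contra fun hi => hc ⟨i, hi⟩)))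

theorem hmain_ind (n : ℕ) : ∀ D : CD, Fintype.card D.Δ = n → D.Good p → Hum.{u} D p := by
  induction n using Nat.strong_induction_on with
  | _ n ih =>
  intro D hn hg
  by_cases hA : ∀ i₀, ∃ C : Finset D.Δ, i₀ ∈ C ∧
      (∀ i ∈ C, ∀ j ∉ C, D.A i j = 0) ∧ ∃ n, IsTyp D.A C (CartanMatrix.A (n + 1))
  · exact hum_A hg hA
  obtain ⟨i₀, hi⟩ := not_forall.1 hA
  obtain ⟨C, hi₀, hC, hT⟩ := cartan_class D.A (fun i => D.len (D.s i)) (fun i => D.len_pos _)
    D.A_diag (fun i j h => D.A_nonpos h) (fun i j => D.pr_len (D.s j) (D.s i)) D.posdef i₀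
  have hT' := hT.resolve_left fun h => hi ⟨C, hi₀, hC, h⟩
  have hsub : ∀ D' : CD, Fintype.card D'.Δ < Fintype.card D.Δ → D'.Good p → Hum.{u} D' p :=
    fun D' h => ih _ (hn ▸ h) D' rfl
  have hg' : (D.levi C).sc.Good p := (hg.levi C).sc
  have hS : (D.levi C).sc.SC := (D.levi C).toRD.sc_SC
  have htyp : ∀ {m : ℕ} {M : Matrix (Fin m) (Fin m) ℤ}, IsTyp D.A C M →
      IsTyp (D.levi C).sc.A Finset.univ M := fun {m M} h => by
    have e : (D.levi C).sc.A = (D.toRD.levi C).A := (D.levi C).toRD.sc_A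
    rw [e]
    exact RD.isTyp_levi h
  have hC1 : Hum.{u} (D.levi C).sc p := by
    have hIH : IH.{u} (D.levi C).sc p := fun J hJ => by
      refine hsub _ (lt_of_lt_of_le (hmain_lt (D.levi C).sc hJ) ?_) (hg'.levi J)
      exact (hmain_card D C).trans_le (Finset.card_le_univ C)
    rcases hT' with ⟨m, h⟩ | ⟨m, h⟩ | ⟨m, h⟩ | h
    · exact fun K _ _ _ χ hχ => sav_BCD hg' hS (n := m) (Or.inl (htyp h)) hχ
    · exact fun K _ _ _ χ hχ => sav_BCD hg' hS (n := m) (Or.inr (Or.inl (htyp h))) hχ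
    · exact fun K _ _ _ χ hχ => sav_BCD hg' hS (n := m) (Or.inr (Or.inr (htyp h))) hχ
    · exact hum_exc hg' hS
        (h.imp htyp (Or.imp htyp (Or.imp htyp (Or.imp htyp htyp)))) hIH
  have hC2 : Hum.{u} (D.levi Cᶜ) p := by
    refine hsub _ (hmain_lt D fun e => ?_) (hg.levi Cᶜ)
    have : i₀ ∈ Cᶜ := e ▸ Finset.mem_univ i₀
    exact Finset.mem_compl.1 this hi₀
  intro K _ _ _ χ hχ
  exact tens C hC (hg.ker Fact.out hT') hχ
    (hC1 K _ ((D.levi C).std_sc (D.std_levi C hχ))) (hC2 K _ (D.std_levi Cᶜ hχ))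

theorem hum_all (D : CD) (hg : D.Good p) : Hum.{u} D p := hmain_ind _ D rfl hg

end CD

end Pool.Agent.P.Bf04
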