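import Mathlib

/-! The theorem of Poincare, Birkhoff and Witt. -/

namespace Pool.Agent.P.Bf04

open Module

attribute [local instance 100] LieRing.ofAssociativeRing

variable {R L I : Type*} [CommRing R] [LieRing L] [LieAlgebra R L] [LinearOrder I]
  (b : Basis I R L)

/-- polynomials of degree at most `n` -/
noncomputable def pbwF (R I : Type*) [CommRing R] (n : ℕ) : Submodule R (Multiset I →₀ R) :=
  Finsupp.supported R R {t : Multiset I | t.card ≤ n}

omit [LinearOrder I] in
theorem pbw_single {n : ℕ} {s : Multiset I} (h : s.card ≤ n) :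
    Finsupp.single s (1 : R) ∈ pbwF R I n :=
  Finsupp.single_mem_supported R 1 h

omit [LinearOrder I] in
theorem pbwF_mono {m n : ℕ} (h : m ≤ n) : pbwF R I m ≤ pbwF R I n :=
  Finsupp.supported_mono fun _ ht => le_trans ht h

omit [LinearOrder I] in
theorem pbwF_ind {n : ℕ} (P : (Multiset I →₀ R) → Prop) (h0 : P 0)
    (h1 : ∀ u v, P u → P v → P (u + v)) (h2 : ∀ (c : R) u, P u → P (c • u))
    (h3 : ∀ s : Multiset I, s.card ≤ n → P (Finsupp.single s 1)) :
    ∀ v ∈ pbwF R I n, P v := by
  intro v hv
  rw [pbwF, Finsupp.supported_eq_span_single] at hv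
  induction hv using Submodule.span_induction with
  | mem x hx =>
    obtain ⟨s, hs, rfl⟩ := hx
    exact h3 s hs
  | zero => exact h0
  | add x y _ _ hx hy => exact h1 x y hx hy
  | smul c x _ hx => exact h2 c x hx

omit [LinearOrder I] in
theorem pbw_basis_ind (P : L → Prop) (h0 : P 0) (h1 : ∀ u v, P u → P v → P (u + v))
    (h2 : ∀ (c : R) u, P u → P (c • u)) (h3 : ∀ i, P (b i)) : ∀ x, P x := by
  intro x
  have hx : x ∈ Submodule.span R (Set.range b) := b.mem_span x
  induction hx using Submodule.span_induction with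
  | mem x hx =>
    obtain ⟨s, rfl⟩ := hx
    exact h3 s
  | zero => exact h0
  | add x y _ _ hx hy => exact h1 x y hx hy
  | smul c x _ hx => exact h2 c x hx

/-- bilinear extension of a table -/
noncomputable def pbwY (g : I → Multiset I → (Multiset I →₀ R)) :
    L →ₗ[R] End R (Multiset I →₀ R) :=
  b.constr R fun i => Finsupp.linearCombination R (g i)

omit [LinearOrder I] in
theorem pbwY_apply (g : I → Multiset I → (Multiset I →₀ R)) (i : I) (s : Multiset I) :
    pbwY b g (b i) (Finsupp.single s 1) = g i s := by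
  simp [pbwY]

/-- leading term property of a table -/
def pbwB (g : I → Multiset I → (Multiset I →₀ R)) : Prop :=
  ∀ i s, g i s - Finsupp.single (i ::ₘ s) 1 ∈ pbwF R I s.card

omit [LinearOrder I] in
theorem pbwY_mem {g : I → Multiset I → (Multiset I →₀ R)} (hg : pbwB g) (n : ℕ) (x : L) :
    ∀ v ∈ pbwF R I n, pbwY b g x v ∈ pbwF R I (n + 1) := by
  refine pbwF_ind _ (by simp) (fun u v hu hv => ?_) (fun c u hu => ?_) (fun s hs => ?_)
  · rw [map_add]; exact add_mem hu hv
  · rw [map_smul]; exact Submodule.smul_mem _ _ hu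
  · induction x using pbw_basis_ind b with
    | h0 => simp
    | h1 u v hu hv => rw [map_add, LinearMap.add_apply]; exact add_mem hu hv
    | h2 c u hu => rw [map_smul, LinearMap.smul_apply]; exact Submodule.smul_mem _ _ hu
    | h3 i =>
      rw [pbwY_apply]
      have h1 := pbwF_mono (R := R) (I := I) (hs.trans (Nat.le_succ n)) (hg i s)
      have h2 : Finsupp.single (i ::ₘ s) (1 : R) ∈ pbwF R I (n + 1) :=
        pbw_single (by rw [Multiset.card_cons]; omega)
      simpa using add_mem h1 h2

omit [LinearOrder I] in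
theorem pbwY_congr {g g' : I → Multiset I → (Multiset I →₀ R)} (n : ℕ)
    (h : ∀ i s, s.card ≤ n → g i s = g' i s) (x : L) :
    ∀ v ∈ pbwF R I n, pbwY b g x v = pbwY b g' x v := by
  refine pbwF_ind _ (by simp) (fun u v hu hv => ?_) (fun c u hu => ?_) (fun s hs => ?_)
  · rw [map_add, map_add, hu, hv]
  · rw [map_smul, map_smul, hu]
  · induction x using pbw_basis_ind b with
    | h0 => simp
    | h1 u v hu hv => simp only [map_add, LinearMap.add_apply, hu, hv]
    | h2 c u hu => simp only [map_smul, LinearMap.smul_apply, hu]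
    | h3 i => rw [pbwY_apply, pbwY_apply, h i s hs]

open Classical in
/-- the recursion step -/
noncomputable def pbwStep (g : I → Multiset I → (Multiset I →₀ R)) (i : I) (s : Multiset I) :
    Multiset I →₀ R :=
  if h : ∃ j ∈ s, j < i ∧ ∀ k ∈ s, j ≤ k then
    Finsupp.single (i ::ₘ s) 1
      + pbwY b g (b h.choose) (g i (s.erase h.choose) - Finsupp.single (i ::ₘ s.erase h.choose) 1)
      + pbwY b g ⁅b i, b h.choose⁆ (Finsupp.single (s.erase h.choose) 1)
  else Finsupp.single (i ::ₘ s) 1

theorem pbw_card_erase {j : I} {s : Multiset I} (h : j ∈ s) : (s.erase j).card + 1 = s.card :=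
  Multiset.card_erase_add_one h

theorem pbwStep_B {g : I → Multiset I → (Multiset I →₀ R)} (hg : pbwB g) :
    pbwB (pbwStep b g) := by
  intro i s
  rw [pbwStep]
  split_ifs with h
  · rw [add_assoc, add_sub_cancel_left, ← pbw_card_erase h.choose_spec.1]
    exact add_mem (pbwY_mem b hg _ _ _ (hg _ _)) (pbwY_mem b hg _ _ _ (pbw_single le_rfl))
  · simp

theorem pbwStep_congr {g g' : I → Multiset I → (Multiset I →₀ R)} (hg : pbwB g) (n : ℕ)
    (h : ∀ i s, s.card ≤ n → g i s = g' i s) (i : I) (s : Multiset I) (hs : s.card ≤ n + 1) :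
    pbwStep b g i s = pbwStep b g' i s := by
  rw [pbwStep, pbwStep]
  split_ifs with h'
  · have h1 := pbw_card_erase h'.choose_spec.1
    have h2 : (s.erase h'.choose).card ≤ n := by omega
    rw [pbwY_congr b n h _ _ (pbwF_mono h2 (hg _ _)), pbwY_congr b n h _ _ (pbw_single h2),
      h _ _ h2]
  · rfl

theorem pbwStep_zero (g : I → Multiset I → (Multiset I →₀ R)) (i : I) :
    pbwStep b g i 0 = Finsupp.single (i ::ₘ 0) 1 := by
  rw [pbwStep, dif_neg]
  simp

/-- iterates of the recursion step -/
noncomputable def pbwAct : ℕ → I → Multiset I → (Multiset I →₀ R)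
  | 0 => fun i s => Finsupp.single (i ::ₘ s) 1
  | m + 1 => pbwStep b (pbwAct m)

theorem pbwAct_B (m : ℕ) : pbwB (pbwAct b m) := by
  induction m with
  | zero => intro i s; simp [pbwAct]
  | succ m ih => exact pbwStep_B b ih

theorem pbwAct_succ (m : ℕ) : ∀ i (s : Multiset I), s.card ≤ m →
    pbwAct b m i s = pbwAct b (m + 1) i s := by
  induction m with
  | zero =>
    intro i s hs
    obtain rfl := Multiset.card_eq_zero.1 (Nat.le_zero.1 hs)
    exact (pbwStep_zero b _ i).symm
  | succ m ih => exact fun i s hs => pbwStep_congr b (pbwAct_B b m) m ih i s hs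

theorem pbwAct_stable (i : I) (s : Multiset I) (m : ℕ) (h : s.card ≤ m) :
    pbwAct b m i s = pbwAct b s.card i s := by
  induction m, h using Nat.le_induction with
  | base => rfl
  | succ m hm ih => rw [← pbwAct_succ b m i s hm, ih]

theorem pbw_exists_fix : ∃ f : I → Multiset I → (Multiset I →₀ R), pbwB f ∧
    ∀ i s, f i s = pbwStep b f i s := by
  refine ⟨fun i s => pbwAct b s.card i s, fun i s => pbwAct_B b _ i s, fun i s => ?_⟩
  have h1 := pbwAct_succ b s.card i s le_rfl
  exact h1.trans (pbwStep_congr b (pbwAct_B b _) s.card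
    (fun i t ht => pbwAct_stable b i t _ ht) i s (Nat.le_succ _))

theorem pbwStep_le (g : I → Multiset I → (Multiset I →₀ R)) (i : I) (s : Multiset I)
    (h : ∀ j ∈ s, i ≤ j) : pbwStep b g i s = Finsupp.single (i ::ₘ s) 1 := by
  rw [pbwStep, dif_neg]
  rintro ⟨j, hj, hji, -⟩
  exact absurd (h j hj) (not_le.2 hji)

theorem pbwStep_lt (g : I → Multiset I → (Multiset I →₀ R)) (i j : I) (t : Multiset I)
    (hji : j < i) (h : ∀ k ∈ t, j ≤ k) : pbwStep b g i (j ::ₘ t) = Finsupp.single (i ::ₘ j ::ₘ t) 1
      + pbwY b g (b j) (g i t - Finsupp.single (i ::ₘ t) 1)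
      + pbwY b g ⁅b i, b j⁆ (Finsupp.single t 1) := by
  have hj : ∀ k ∈ j ::ₘ t, j ≤ k := fun k hk => by
    rcases Multiset.mem_cons.1 hk with rfl | hk
    · exact le_rfl
    · exact h k hk
  have h' : ∃ j' ∈ j ::ₘ t, j' < i ∧ ∀ k ∈ j ::ₘ t, j' ≤ k :=
    ⟨j, Multiset.mem_cons_self _ _, hji, hj⟩
  have e : h'.choose = j :=
    le_antisymm (h'.choose_spec.2.2 j (Multiset.mem_cons_self _ _)) (hj _ h'.choose_spec.1)
  rw [pbwStep, dif_pos h', e, Multiset.erase_cons_head]

/-- the commutation relation on a vector -/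
def pbwC (Y : L →ₗ[R] End R (Multiset I →₀ R)) (x y : L) (v : Multiset I →₀ R) : Prop :=
  Y x (Y y v) = Y y (Y x v) + Y ⁅x, y⁆ v

omit [LinearOrder I] in
theorem pbwC_symm {Y : L →ₗ[R] End R (Multiset I →₀ R)} {x y : L} {v : Multiset I →₀ R}
    (h : pbwC Y x y v) : pbwC Y y x v := by
  unfold pbwC at *
  rw [h, ← lie_skew y x, map_neg, LinearMap.neg_apply, add_neg_cancel_right]

omit [LinearOrder I] in
theorem pbwC_ext (Y : L →ₗ[R] End R (Multiset I →₀ R)) (n : ℕ)
    (h : ∀ i j (s : Multiset I), s.card ≤ n → pbwC Y (b i) (b j) (Finsupp.single s 1)) (x y : L) :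
    ∀ v ∈ pbwF R I n, pbwC Y x y v := by
  unfold pbwC at *
  refine pbwF_ind _ (by simp) (fun u v hu hv => ?_) (fun c u hu => ?_) (fun s hs => ?_)
  · simp only [map_add, hu, hv]; abel
  · simp only [map_smul, hu, smul_add]
  · induction x using pbw_basis_ind b with
    | h0 => simp
    | h1 u v hu hv => simp only [map_add, LinearMap.add_apply, add_lie, hu, hv]; abel
    | h2 c u hu => simp only [map_smul, LinearMap.smul_apply, smul_lie, hu, smul_add]
    | h3 i =>
      induction y using pbw_basis_ind b with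
      | h0 => simp
      | h1 u v hu hv => simp only [map_add, LinearMap.add_apply, lie_add, hu, hv]; abel
      | h2 c u hu => simp only [map_smul, LinearMap.smul_apply, lie_smul, hu, smul_add]
      | h3 j => exact h i j s hs

section fix

variable {f : I → Multiset I → (Multiset I →₀ R)} (hB : pbwB f)
  (hf : ∀ i s, f i s = pbwStep b f i s)

include hf in
theorem pbw_A (i : I) (s : Multiset I) (h : ∀ j ∈ s, i ≤ j) :
    pbwY b f (b i) (Finsupp.single s 1) = Finsupp.single (i ::ₘ s) 1 := by
  rw [pbwY_apply, hf, pbwStep_le b f i s h]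

include hf in
theorem pbw_C_lt (i j : I) (t : Multiset I) (hji : j < i) (h : ∀ k ∈ t, j ≤ k) :
    pbwC (pbwY b f) (b i) (b j) (Finsupp.single t 1) := by
  unfold pbwC
  have h1 : ∀ k ∈ i ::ₘ t, j ≤ k := fun k hk => by
    rcases Multiset.mem_cons.1 hk with rfl | hk
    · exact hji.le
    · exact h k hk
  rw [pbw_A b hf j t h, pbwY_apply, hf, pbwStep_lt b f i j t hji h, map_sub,
    pbw_A b hf j _ h1, pbwY_apply, Multiset.cons_swap, add_sub_cancel]

include hf in
theorem pbw_C_min (i j : I) (t : Multiset I) (h : ∀ k ∈ t, j ≤ k) :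
    pbwC (pbwY b f) (b i) (b j) (Finsupp.single t 1) := by
  rcases lt_trichotomy j i with h' | rfl | h'
  · exact pbw_C_lt b hf i j t h' h
  · simp [pbwC]
  · exact pbwC_symm (pbw_C_lt b hf j i t h' fun k hk => h'.le.trans (h k hk))

include hB hf in
theorem pbw_C (n : ℕ) : ∀ i j (s : Multiset I), s.card ≤ n →
    pbwC (pbwY b f) (b i) (b j) (Finsupp.single s 1) := by
  induction n with
  | zero =>
    intro i j s hs
    obtain rfl := Multiset.card_eq_zero.1 (Nat.le_zero.1 hs)
    exact pbw_C_min b hf i j 0 (by simp)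
  | succ n ih =>
    intro i j s hs
    by_cases hj : ∀ k ∈ s, j ≤ k
    · exact pbw_C_min b hf i j s hj
    by_cases hi : ∀ k ∈ s, i ≤ k
    · exact pbwC_symm (pbw_C_min b hf j i s hi)
    have hs0 : s ≠ 0 := by
      rintro rfl
      simp at hj
    obtain ⟨k, hk, hks⟩ := Multiset.exists_min_image id hs0
    obtain ⟨u, rfl⟩ := Multiset.exists_cons_of_mem hk
    have hku : ∀ l ∈ u, k ≤ l := fun l hl => hks l (Multiset.mem_cons_of_mem hl)
    have hu : u.card ≤ n := by rw [Multiset.card_cons] at hs; omega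
    have IH := pbwC_ext b (pbwY b f) n ih
    have hz : Finsupp.single u (1 : R) ∈ pbwF R I n := pbw_single hu
    have key : ∀ i j : I, k ≤ j → pbwC (pbwY b f) (b i) (b k)
        (pbwY b f (b j) (Finsupp.single u 1)) := by
      intro i j hkj
      have a1 := IH (b i) (b k) _ (pbwF_mono hu (hB j u))
      have a2 := pbw_C_min b hf i k (j ::ₘ u) fun l hl => by
        rcases Multiset.mem_cons.1 hl with rfl | hl
        · exact hkj
        · exact hku l hl
      unfold pbwC at *
      rw [pbwY_apply]
      simp only [map_sub] at a1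
      rw [a2] at a1
      rw [eq_add_of_sub_eq a1]
      abel
    have hki : k ≤ i := by
      by_contra hc
      exact hi fun l hl => (not_le.1 hc).le.trans (hks l hl)
    have hkj : k ≤ j := by
      by_contra hc
      exact hj fun l hl => (not_le.1 hc).le.trans (hks l hl)
    have k1 := key i j hkj
    have k2 := key j i hki
    have c1 := IH (b j) (b k) _ hz
    have c2 := IH (b i) (b k) _ hz
    have c3 := IH (b i) (b j) _ hz
    have c4 := IH ⁅b i, b k⁆ (b j) _ hz
    have c5 := IH (b i) ⁅b j, b k⁆ _ hz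
    have c6 := IH ⁅b i, b j⁆ (b k) _ hz
    have jac : ⁅⁅b i, b j⁆, b k⁆ = ⁅b i, ⁅b j, b k⁆⁆ + ⁅⁅b i, b k⁆, b j⁆ := by
      rw [lie_lie, ← lie_skew ⁅b i, b k⁆ (b j), sub_eq_add_neg]
    unfold pbwC at *
    rw [← pbw_A b hf k u hku, c1, c2, map_add, map_add, k1, k2, c3, c4, c5, c6, jac, map_add,
      map_add, LinearMap.add_apply]
    abel

end fix

theorem exists_reg : ∃ Y : L →ₗ⁅R⁆ End R (Multiset I →₀ R),
    (∀ (i : I) (s : Multiset I), (∀ j ∈ s, i ≤ j) →
      Y (b i) (Finsupp.single s 1) = Finsupp.single (i ::ₘ s) 1) ∧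
    ∀ (i : I) (s : Multiset I), Y (b i) (Finsupp.single s 1) - Finsupp.single (i ::ₘ s) 1
      ∈ Finsupp.supported R R {t : Multiset I | t.card ≤ s.card} := by
  obtain ⟨f, hB, hf⟩ := pbw_exists_fix b
  refine ⟨{ pbwY b f with map_lie' := fun {x y} => ?_ }, pbw_A b hf, fun i s => ?_⟩
  · refine Finsupp.lhom_ext' fun s => LinearMap.ext_ring ?_
    have h := pbwC_ext b (pbwY b f) s.card (pbw_C b hB hf s.card) x y _ (pbw_single le_rfl)
    exact (sub_eq_of_eq_add' h).symm
  · have h := hB i s
    rw [← pbwY_apply b f i s] at h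
    exact h

/-- words in the basis vectors -/
noncomputable def uword (l : List I) : UniversalEnvelopingAlgebra R L :=
  (l.map fun i => UniversalEnvelopingAlgebra.ι R (b i)).prod

/-- ordered monomials -/
noncomputable def umon (s : Multiset I) : UniversalEnvelopingAlgebra R L :=
  uword b (s.sort (· ≤ ·))

omit [LinearOrder I] in
theorem pbw_uword_cons (i : I) (l : List I) :
    uword b (i :: l) = UniversalEnvelopingAlgebra.ι R (b i) * uword b l := by
  rw [uword, List.map_cons, List.prod_cons, uword]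

omit [LinearOrder I] in
theorem pbw_uword_append (l l' : List I) : uword b (l ++ l') = uword b l * uword b l' := by
  rw [uword, List.map_append, List.prod_append, uword, uword]

/-- span of the words of length less than `n` -/
noncomputable def pbwW (n : ℕ) : Submodule R (UniversalEnvelopingAlgebra R L) :=
  Submodule.span R {z | ∃ l : List I, l.length < n ∧ z = uword b l}

omit [LinearOrder I] in
theorem pbwW_mul (n : ℕ) (x : L) : ∀ z ∈ pbwW b n,
    UniversalEnvelopingAlgebra.ι R x * z ∈ pbwW b (n + 1) := by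
  intro z hz
  induction hz using Submodule.span_induction with
  | mem z hz =>
    obtain ⟨l, hl, rfl⟩ := hz
    induction x using pbw_basis_ind b with
    | h0 => rw [map_zero, zero_mul]; exact zero_mem _
    | h1 u v hu hv => rw [map_add, add_mul]; exact add_mem hu hv
    | h2 c u hu => rw [map_smul, smul_mul_assoc]; exact Submodule.smul_mem _ _ hu
    | h3 i =>
      exact Submodule.subset_span ⟨i :: l, by simpa using hl, (pbw_uword_cons b i l).symm⟩
  | zero => rw [mul_zero]; exact zero_mem _
  | add x y _ _ hx hy => rw [mul_add]; exact add_mem hx hy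
  | smul c x _ hx => rw [mul_smul_comm]; exact Submodule.smul_mem _ _ hx

omit [LinearOrder I] in
theorem pbw_perm {l l' : List I} (h : l.Perm l') : uword b l - uword b l' ∈ pbwW b l.length := by
  induction h with
  | nil => simp
  | cons i _ ih =>
    rw [pbw_uword_cons, pbw_uword_cons, ← mul_sub]
    exact pbwW_mul b _ _ _ ih
  | swap i j l =>
    rw [pbw_uword_cons, pbw_uword_cons, pbw_uword_cons, pbw_uword_cons, ← mul_assoc, ← mul_assoc,
      ← sub_mul, ← LieRing.of_associative_ring_bracket, ← LieHom.map_lie]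
    exact pbwW_mul b _ _ _ (Submodule.subset_span ⟨l, Nat.lt_succ_self _, rfl⟩)
  | trans h1 _ ih1 ih2 =>
    rw [← h1.length_eq] at ih2
    simpa using add_mem ih1 ih2

theorem pbw_perm_sort (l : List I) : uword b l - umon b l ∈ pbwW b l.length :=
  pbw_perm b (Multiset.coe_eq_coe.1 (Multiset.sort_eq (l : Multiset I) (· ≤ ·)).symm)

theorem pbwW_le (n : ℕ) :
    pbwW b n ≤ Submodule.span R {z | ∃ s : Multiset I, s.card < n ∧ z = umon b s} := by
  induction n using Nat.strong_induction_on with
  | _ n ih =>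
    refine Submodule.span_le.2 ?_
    rintro _ ⟨l, hl, rfl⟩
    have h1 := ih _ hl (pbw_perm_sort b l)
    have h2 : uword b l - umon b l
        ∈ Submodule.span R {z | ∃ s : Multiset I, s.card < n ∧ z = umon b s} := by
      refine Submodule.span_mono ?_ h1
      rintro z ⟨s, hs, hz⟩
      exact ⟨s, hs.trans hl, hz⟩
    have h3 : umon b l ∈ Submodule.span R {z | ∃ s : Multiset I, s.card < n ∧ z = umon b s} :=
      Submodule.subset_span ⟨l, hl, rfl⟩
    simpa using add_mem h2 h3

omit [LinearOrder I] in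
theorem pbw_span_uword : Submodule.span R (Set.range (uword b)) = ⊤ := by
  refine eq_top_iff.2 fun z _ => ?_
  obtain ⟨a, rfl⟩ : ∃ a, UniversalEnvelopingAlgebra.mkAlgHom R L a = z :=
    RingCon.mkₐ_surjective _ z
  induction a using TensorAlgebra.induction with
  | algebraMap r =>
    rw [AlgHom.commutes, Algebra.algebraMap_eq_smul_one]
    exact Submodule.smul_mem _ _ (Submodule.subset_span ⟨[], rfl⟩)
  | ι x =>
    have h : UniversalEnvelopingAlgebra.ι R x * 1 ∈ pbwW b (1 + 1) :=
      pbwW_mul b 1 x 1 (Submodule.subset_span ⟨[], Nat.one_pos, rfl⟩)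
    rw [mul_one] at h
    refine Submodule.span_mono ?_ h
    rintro z ⟨l, _, hz⟩
    exact ⟨l, hz.symm⟩
  | mul a c ha hc =>
    rw [map_mul]
    have h := Submodule.mul_mem_mul (ha trivial) (hc trivial)
    rw [Submodule.span_mul_span] at h
    refine Submodule.span_mono ?_ h
    rintro _ ⟨_, ⟨l, rfl⟩, _, ⟨l', rfl⟩, rfl⟩
    exact ⟨l ++ l', pbw_uword_append b l l'⟩
  | add a c ha hc =>
    rw [map_add]
    exact add_mem (ha trivial) (hc trivial)

theorem span_uword : Submodule.span R (Set.range (uword b)) = ⊤ := pbw_span_uword b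

theorem uword_sub (l : List I) : uword b l - umon b l
    ∈ Submodule.span R {z | ∃ s : Multiset I, s.card < l.length ∧ z = umon b s} :=
  pbwW_le b _ (pbw_perm_sort b l)

theorem pbw_exists_ev : ∃ ev : UniversalEnvelopingAlgebra R L →ₗ[R] (Multiset I →₀ R),
    ∀ s, ev (umon b s) = Finsupp.single s 1 := by
  obtain ⟨Y, hY, -⟩ := exists_reg b
  refine ⟨(LinearMap.applyₗ (Finsupp.single 0 1)).comp
    (UniversalEnvelopingAlgebra.lift R Y).toLinearMap, fun s => ?_⟩
  have key : ∀ l : List I, l.Pairwise (· ≤ ·) →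
      UniversalEnvelopingAlgebra.lift R Y (uword b l) (Finsupp.single 0 1)
        = Finsupp.single (l : Multiset I) 1 := by
    intro l hl
    induction l with
    | nil => simp [uword]
    | cons i l ih =>
      rw [List.pairwise_cons] at hl
      rw [pbw_uword_cons, map_mul, UniversalEnvelopingAlgebra.lift_ι_apply, End.mul_apply,
        ih hl.2, hY i l fun j hj => hl.1 j (Multiset.mem_coe.1 hj), Multiset.cons_coe]
  have h := key _ (Multiset.pairwise_sort s (· ≤ ·))
  rw [Multiset.sort_eq] at h
  exact h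

theorem umon_li : LinearIndependent R (umon b) := by
  obtain ⟨ev, hev⟩ := pbw_exists_ev b
  refine LinearIndependent.of_comp ev ?_
  have e : ev ∘ umon b = fun s => Finsupp.single s 1 := funext hev
  rw [e]
  exact Finsupp.linearIndependent_single_one R _

theorem umon_span : Submodule.span R (Set.range (umon b)) = ⊤ := by
  rw [eq_top_iff, ← span_uword b]
  refine Submodule.span_le.2 ?_
  rintro _ ⟨l, rfl⟩
  have h := pbwW_le b (l.length + 1) (Submodule.subset_span ⟨l, Nat.lt_succ_self _, rfl⟩)
  refine Submodule.span_mono ?_ h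
  rintro z ⟨s, _, hz⟩
  exact ⟨s, hz.symm⟩

include b in
theorem ι_inj : Function.Injective (UniversalEnvelopingAlgebra.ι R : L → _) := by
  have h := (umon_li b).comp (fun i : I => ({i} : Multiset I))
    fun _ _ h => Multiset.singleton_inj.1 h
  refine LinearMap.injective_of_linearIndependent
    (f := (UniversalEnvelopingAlgebra.ι R : L →ₗ⁅R⁆ _).toLinearMap) b.span_eq ?_
  have e : (UniversalEnvelopingAlgebra.ι R : L →ₗ⁅R⁆ _).toLinearMap ∘ b
      = umon b ∘ fun i : I => ({i} : Multiset I) := by
    funext i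
    simp [umon, uword]
  rw [e]
  exact h

end Pool.Agent.P.Bf04
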