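import Pool.Agent.P.MP_bf0464_al.H.JacA
import Pool.Agent.P.MP_bf0464_al.H.PBW
import Pool.Agent.P.MP_bf0464_al.H.Grp1
import Pool.Agent.P.MP_bf0464_al.GRep

/-! The formula of Jacobson, the `p`-map, twisting of `p`-characters. -/

namespace Pool.Agent.P.Bf04

open Matrix Module

attribute [local instance 100] LieRing.ofAssociativeRing

universe u v w

namespace CD

variable (D : CD) {K : Type u} [Field K] (p : ℕ) [Fact p.Prime] [CharP K p]

theorem jac_cast_pow (n : ℤ) : (n : K) ^ p = n := by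
  rw [← frobenius_def, map_intCast]

omit [Fact p.Prime] [CharP K p] in
theorem jac_ad_pow (i : D.B) (n : ℕ) (x : D.g K) :
    (LieAlgebra.ad K (D.g K) (D.bv K i) ^ n) x = (D.adM i ^ n).map (Int.cast : ℤ → K) *ᵥ x := by
  induction n with
  | zero =>
    rw [pow_zero, pow_zero, Matrix.map_one _ Int.cast_zero Int.cast_one, one_mulVec]; rfl
  | succ n ih =>
    rw [pow_succ', End.mul_apply, ih, LieAlgebra.ad_apply, lie_adM, mulVec_mulVec, pow_succ']
    congr 1
    exact (Matrix.map_mul (f := Int.castRingHom K)).symm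

theorem ad_pow_bv (b : D.B) (x : D.g K) :
    (LieAlgebra.ad K (D.g K) (D.bv K b) ^ p) x = ⁅D.pmb K b, x⁆ := by
  have hp : p.Prime := Fact.out
  rcases b with a | α
  · have key : LieAlgebra.ad K (D.g K) (D.h K a) ^ p = LieAlgebra.ad K (D.g K) (D.h K a) := by
      refine D.hom_ext fun j => ?_
      rcases j with a' | β
      · obtain ⟨n, hn⟩ := Nat.exists_eq_succ_of_ne_zero hp.ne_zero
        rw [hn, pow_succ, End.mul_apply, LieAlgebra.ad_apply, D.lie_h_h, map_zero]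
      · have h1 : ∀ n : ℕ, (LieAlgebra.ad K (D.g K) (D.h K a) ^ n) (D.e K β)
            = (D.rt β a : K) ^ n • D.e K β := by
          intro n
          induction n with
          | zero => simp
          | succ n ih =>
            rw [pow_succ', End.mul_apply, ih, map_smul, LieAlgebra.ad_apply, D.lie_h_e, smul_smul,
              pow_succ]
        rw [h1, jac_cast_pow p, LieAlgebra.ad_apply, D.lie_h_e]
    exact LinearMap.congr_fun key x
  · have h0 : (D.adM (.inr α) ^ p).map (Int.cast : ℤ → K) = 0 := by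
      rw [← D.dp_fact]
      ext k j
      have : ((p.factorial : ℕ) : K) = 0 :=
        (CharP.cast_eq_zero_iff K p _).2 (Nat.dvd_factorial hp.pos le_rfl)
      rw [Matrix.map_apply, Matrix.smul_apply, smul_eq_mul, Int.cast_mul, Int.cast_natCast, this,
        zero_mul]
      rfl
    rw [jac_ad_pow, h0, zero_mulVec]
    exact (zero_lie x).symm

theorem xi_comm {A : Type*} [Ring A] [Algebra K A] (f : D.g K →ₗ⁅K⁆ A) (b : D.B) (x : D.g K) :
    Commute (f (D.bv K b) ^ p - f (D.pmb K b)) (f x) := by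
  have h1 := pow_p_comm (k := K) p (f (D.bv K b)) (f x)
  rw [← map_ad_pow, D.ad_pow_bv p, LieHom.map_lie, LieRing.of_associative_ring_bracket] at h1
  rw [Commute, SemiconjBy, sub_mul, mul_sub, sub_eq_sub_iff_sub_eq_sub]
  exact h1

/-- `y` is the image of `x` under the `p`-map -/
def IsPm (x y : D.g K) : Prop :=
  UniversalEnvelopingAlgebra.ι K x ^ p - UniversalEnvelopingAlgebra.ι K y = ∑ b, x b ^ p •
    (UniversalEnvelopingAlgebra.ι K (D.bv K b) ^ p - UniversalEnvelopingAlgebra.ι K (D.pmb K b))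

theorem jac_bv (b : D.B) : D.IsPm p (D.bv K b) (D.pmb K b) := by
  have hp : p.Prime := Fact.out
  rw [IsPm, Finset.sum_eq_single b]
  · simp [bv]
  · intro b' _ hb
    simp [bv, Pi.single_eq_of_ne hb, hp.ne_zero]
  · simp

theorem jac_zero : D.IsPm p (0 : D.g K) 0 := by
  have hp : p.Prime := Fact.out
  simp [IsPm, hp.ne_zero]

omit [Fact p.Prime] [CharP K p] in
theorem jac_smul {x y : D.g K} (h : D.IsPm p x y) (c : K) : D.IsPm p (c • x) (c ^ p • y) := by
  rw [IsPm] at h ⊢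
  rw [map_smul, map_smul, _root_.smul_pow, ← smul_sub, h, Finset.smul_sum]
  refine Finset.sum_congr rfl fun b _ => ?_
  rw [Pi.smul_apply, smul_eq_mul, mul_pow, mul_smul]

theorem jac_add' {x y x' y' w : D.g K} (h : D.IsPm p x y) (h' : D.IsPm p x' y')
    (hw : (UniversalEnvelopingAlgebra.ι K x + UniversalEnvelopingAlgebra.ι K x') ^ p
      - UniversalEnvelopingAlgebra.ι K x ^ p - UniversalEnvelopingAlgebra.ι K x' ^ p
      = UniversalEnvelopingAlgebra.ι K w) : D.IsPm p (x + x') (y + y' + w) := by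
  rw [IsPm] at h h' ⊢
  simp only [map_add, Pi.add_apply, add_pow_char, add_smul, Finset.sum_add_distrib]
  rw [← h, ← h', ← hw]
  abel

theorem jac_add {x y x' y' : D.g K} (h : D.IsPm p x y) (h' : D.IsPm p x' y')
    (V : Submodule K (D.g K)) (h0 : ⁅x, x'⁆ ∈ V) (h1 : ∀ z ∈ V, ⁅x, z⁆ ∈ V)
    (h2 : ∀ z ∈ V, ⁅x', z⁆ ∈ V) : ∃ w ∈ V, D.IsPm p (x + x') (y + y' + w) := by
  have key : ∀ u v : D.g K, ⁅u, v⁆ ∈ V →
      UniversalEnvelopingAlgebra.ι K u * UniversalEnvelopingAlgebra.ι K v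
        - UniversalEnvelopingAlgebra.ι K v * UniversalEnvelopingAlgebra.ι K u
      ∈ V.map (UniversalEnvelopingAlgebra.ι K : D.g K →ₗ⁅K⁆ _).toLinearMap := by
    intro u v huv
    refine ⟨_, huv, ?_⟩
    exact (UniversalEnvelopingAlgebra.ι K : D.g K →ₗ⁅K⁆ _).map_lie u v
  obtain ⟨w, hw, e⟩ := jacobson p (UniversalEnvelopingAlgebra.ι K x)
    (UniversalEnvelopingAlgebra.ι K x')
    (V.map (UniversalEnvelopingAlgebra.ι K : D.g K →ₗ⁅K⁆ _).toLinearMap) (key _ _ h0)
    (by rintro _ ⟨z, hz, rfl⟩; exact key _ _ (h1 z hz))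
    (by rintro _ ⟨z, hz, rfl⟩; exact key _ _ (h2 z hz))
  exact ⟨w, hw, D.jac_add' p h h' e.symm⟩

theorem jac_add_comm {x y x' y' : D.g K} (h : D.IsPm p x y) (h' : D.IsPm p x' y')
    (h0 : ⁅x, x'⁆ = 0) : D.IsPm p (x + x') (y + y') := by
  obtain ⟨w, hw, e⟩ := D.jac_add p h h' ⊥ h0 (fun z hz => by simp [(Submodule.mem_bot K).1 hz])
    (fun z hz => by simp [(Submodule.mem_bot K).1 hz])
  rwa [(Submodule.mem_bot K).1 hw, add_zero] at e

theorem jac_span (V : Submodule K (D.g K)) (hV : ∀ x ∈ V, ∀ y ∈ V, ⁅x, y⁆ ∈ V)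
    (T : Set (D.g K)) (hT : ∀ x ∈ T, x ∈ V ∧ ∃ y ∈ V, D.IsPm p x y) {x : D.g K}
    (hx : x ∈ Submodule.span K T) : x ∈ V ∧ ∃ y ∈ V, D.IsPm p x y := by
  induction hx using Submodule.span_induction with
  | mem x hx => exact hT x hx
  | zero => exact ⟨V.zero_mem, 0, V.zero_mem, D.jac_zero p⟩
  | add x x' _ _ ih ih' =>
    obtain ⟨hx, y, hy, h⟩ := ih
    obtain ⟨hx', y', hy', h'⟩ := ih'
    obtain ⟨w, hw, e⟩ := D.jac_add p h h' V (hV _ hx _ hx') (hV _ hx) (hV _ hx')
    exact ⟨V.add_mem hx hx', _, V.add_mem (V.add_mem hy hy') hw, e⟩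
  | smul c x _ ih =>
    obtain ⟨hx, y, hy, h⟩ := ih
    exact ⟨V.smul_mem c hx, _, V.smul_mem _ hy, D.jac_smul p h c⟩

theorem exists_pm (x : D.g K) : ∃ y, D.IsPm p x y := by
  obtain ⟨-, y, -, h⟩ := D.jac_span p ⊤ (fun _ _ _ _ => trivial) (Set.range (D.bv K))
    (by rintro _ ⟨b, rfl⟩; exact ⟨trivial, _, trivial, D.jac_bv p b⟩)
    (D.span_bv (Submodule.span K (Set.range (D.bv K)))
      (fun b => Submodule.subset_span (Set.mem_range_self b)) x)
  exact ⟨y, h⟩

variable {D p}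

omit [Fact p.Prime] [CharP K p] in
theorem IsPm.jac_map {x y : D.g K} (h : D.IsPm p x y) {A : Type*} [Ring A] [Algebra K A]
    (f : D.g K →ₗ⁅K⁆ A) :
    f x ^ p - f y = ∑ b, x b ^ p • (f (D.bv K b) ^ p - f (D.pmb K b)) := by
  have := congrArg (UniversalEnvelopingAlgebra.lift K f) h
  simpa only [map_sub, map_pow, map_sum, map_smul, UniversalEnvelopingAlgebra.lift_ι_apply]
    using this

theorem IsPm.ad {x y : D.g K} (h : D.IsPm p x y) (z : D.g K) :
    (LieAlgebra.ad K (D.g K) x ^ p) z = ⁅y, z⁆ := by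
  have h1 := h.jac_map (LieAlgebra.ad K (D.g K))
  have h2 : ∀ b, LieAlgebra.ad K (D.g K) (D.bv K b) ^ p - LieAlgebra.ad K (D.g K) (D.pmb K b)
      = 0 := fun b => sub_eq_zero.2 (LinearMap.ext fun x => D.ad_pow_bv p b x)
  simp only [h2, smul_zero, Finset.sum_const_zero] at h1
  rw [sub_eq_zero.1 h1, LieAlgebra.ad_apply]

theorem IsPm.pc {x y : D.g K} (h : D.IsPm p x y) {χ : D.B → K} {S : LRep K (D.g K)}
    (hS : D.PC p χ S) : S.ρ x ^ p = S.ρ y + (χ ⬝ᵥ x) ^ p • (1 : End K S.M) := by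
  have h1 := h.jac_map S.ρ
  rw [sub_eq_iff_eq_add'] at h1
  rw [h1, dotProduct, sum_pow_char, Finset.sum_smul]
  congr 1
  refine Finset.sum_congr rfl fun b _ => ?_
  rw [hS b, add_sub_cancel_left, smul_smul, mul_pow, mul_comm]

theorem isPm_hv (y : D.σ → ℤ) : D.IsPm p (D.hv fun a => (y a : K)) (D.hv fun a => (y a : K)) := by
  rw [D.hv_eq_sum]
  have key : ∀ s : Finset D.σ, D.IsPm p (∑ a ∈ s, (y a : K) • D.h K a)
      (∑ a ∈ s, (y a : K) • D.h K a) := by
    intro s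
    induction s using Finset.induction_on with
    | empty => simpa using D.jac_zero p
    | insert a s ha ih =>
      rw [Finset.sum_insert ha]
      have h1 := D.jac_smul p (D.jac_bv p (K := K) (.inl a)) (y a : K)
      rw [jac_cast_pow p] at h1
      refine D.jac_add_comm p h1 ih ?_
      simp only [lie_sum, smul_lie, lie_smul, D.lie_h_h, smul_zero, Finset.sum_const_zero]
  exact key _

omit [Fact p.Prime] [CharP K p] in
theorem jac_central {z : D.g K} (hz : ∀ w : D.g K, ⁅z, w⁆ = 0) (β : D.ι) : z (.inr β) = 0 := by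
  have h1 : ∀ a, ⁅z, D.e K (D.neg β)⁆ (.inl a) = z (.inr β) * D.cr β a := by
    intro a
    conv_lhs => rw [D.eq_sum z]
    rw [sum_lie, Finset.sum_apply, Finset.sum_eq_single (.inr β)]
    · rw [smul_lie, Pi.smul_apply, D.lie_bv_apply]; simp [RD.c]
    · intro b _ hb
      rw [smul_lie, Pi.smul_apply, D.lie_bv_apply]
      rcases b with a' | γ
      · simp [RD.c]
      · have : D.neg β ≠ D.neg γ := fun h => hb (by
          rw [← D.neg_neg γ, ← h, D.neg_neg])
        simp [RD.c, this]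
    · simp
  obtain ⟨x, hx⟩ := D.cr_prim β
  have h2 : ∑ a, (x a : K) * D.cr β a = 1 := by
    have := congrArg (Int.cast : ℤ → K) hx
    simpa [dotProduct] using this
  rw [← mul_one (z _), ← h2, Finset.mul_sum]
  refine Finset.sum_eq_zero fun a _ => ?_
  rw [mul_left_comm, ← h1, hz, Pi.zero_apply, mul_zero]

theorem jac_xM_central (α : D.ι) (t : K) (b : D.B) {y : D.g K}
    (h : D.IsPm p (D.xM α t *ᵥ D.bv K b) y) (w : D.g K) :
    ⁅y - D.xM α t *ᵥ D.pmb K b, w⁆ = 0 := by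
  have e : w = D.xM α t *ᵥ (D.xM α (-t) *ᵥ w) := by
    rw [mulVec_mulVec, ← D.xM_add, add_neg_cancel, D.xM_zero, one_mulVec]
  have h1 := map_ad_pow (D.autHom _ (D.xM_aut α t)) (D.bv K b) (D.xM α (-t) *ᵥ w) p
  rw [D.ad_pow_bv p, LieHom.map_lie] at h1
  simp only [autHom_apply] at h1
  rw [← e, h.ad] at h1
  rw [sub_lie, h1, sub_self]

theorem jac_xM_of (α : D.ι) (t : K) (b : D.B) {y : D.g K}
    (h : D.IsPm p (D.xM α t *ᵥ D.bv K b) y)
    (h0 : ∀ a, (y - D.xM α t *ᵥ D.pmb K b) (.inl a) = 0) :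
    D.IsPm p (D.xM α t *ᵥ D.bv K b) (D.xM α t *ᵥ D.pmb K b) := by
  have : y - D.xM α t *ᵥ D.pmb K b = 0 := by
    funext k
    rcases k with a | β
    · exact h0 a
    · exact jac_central (jac_xM_central α t b h) β
  rwa [sub_eq_zero.1 this] at h

/-- vectors all of whose weights have a given property -/
def jacW (D : CD) (K : Type u) [Field K] (P : (D.Δ → ℤ) → Prop) : Submodule K (D.g K) where
  carrier := {x | ∀ b, ¬ P (D.wt b) → x b = 0}
  add_mem' hx hy b hb := by rw [Pi.add_apply, hx b hb, hy b hb, add_zero]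
  zero_mem' _ _ := rfl
  smul_mem' c x hx b hb := by rw [Pi.smul_apply, hx b hb, smul_zero]

theorem jacW_lie {P : (D.Δ → ℤ) → Prop} (hP : ∀ u v, P u → P v → P (u + v)) (x : D.g K)
    (hx : x ∈ jacW D K P) (y : D.g K) (hy : y ∈ jacW D K P) : ⁅x, y⁆ ∈ jacW D K P := by
  intro k hk
  rw [lie_apply]
  refine Finset.sum_eq_zero fun i _ => Finset.sum_eq_zero fun j _ => ?_
  by_cases hi : P (D.wt i)
  · by_cases hj : P (D.wt j)
    · have : D.cc i j k = 0 := by
        by_contra hc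
        exact hk (D.cc_wt hc ▸ hP _ _ hi hj)
      simp [this]
    · rw [hy j hj, mul_zero]
  · rw [hx i hi, mul_zero, zero_mul]

theorem jacW_pm {P : (D.Δ → ℤ) → Prop} (hP : ∀ u v, P u → P v → P (u + v)) (h0 : ¬ P 0)
    {x : D.g K} (hx : x ∈ jacW D K P) : ∃ y ∈ jacW D K P, D.IsPm p x y := by
  refine (D.jac_span p (jacW D K P) (jacW_lie hP) {z | ∃ b, P (D.wt b) ∧ z = D.bv K b} ?_ ?_).2
  · rintro _ ⟨b, hb, rfl⟩
    refine ⟨fun k hk => ?_, _, ?_, D.jac_bv p b⟩
    · exact Pi.single_eq_of_ne (fun h : k = b => hk (by rw [h]; exact hb)) _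
    · rcases b with a | β
      · exact absurd hb h0
      · exact Submodule.zero_mem _
  · rw [D.eq_sum x]
    refine Submodule.sum_mem _ fun b _ => ?_
    by_cases hb : P (D.wt b)
    · exact Submodule.smul_mem _ _ (Submodule.subset_span ⟨b, hb, rfl⟩)
    · rw [hx b hb, zero_smul]; exact Submodule.zero_mem _

theorem jac_xM_h (α : D.ι) (t : K) (a : D.σ) :
    D.IsPm p (D.xM α t *ᵥ D.h K a) (D.xM α t *ᵥ D.pmb K (.inl a)) := by
  obtain ⟨c, hc⟩ : ∃ c : K, D.xM α t *ᵥ D.h K a = D.h K a + c • D.e K α := by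
    refine ⟨-(t * ∑ a', (D.rt α a' : K) * (Pi.single a (1 : K) : D.σ → K) a'), ?_⟩
    rw [← D.hv_single, D.xM_hv, neg_smul, sub_eq_add_neg]
  obtain ⟨w, hw, e⟩ := D.jac_add p (D.jac_bv p (K := K) (.inl a))
    (D.jac_smul p (D.jac_bv p (K := K) (.inr α)) c) (Submodule.span K {D.e K α})
    (by
      rw [lie_smul, D.lie_h_e]
      exact Submodule.smul_mem _ _ (Submodule.smul_mem _ _ (Submodule.mem_span_singleton_self _)))
    (fun z hz => by
      obtain ⟨s, rfl⟩ := Submodule.mem_span_singleton.1 hz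
      rw [lie_smul, D.lie_h_e]
      exact Submodule.smul_mem _ _ (Submodule.smul_mem _ _ (Submodule.mem_span_singleton_self _)))
    (fun z hz => by
      obtain ⟨s, rfl⟩ := Submodule.mem_span_singleton.1 hz
      rw [lie_smul, smul_lie, lie_self, smul_zero, smul_zero]
      exact Submodule.zero_mem _)
  rw [← hc] at e
  refine jac_xM_of α t (.inl a) e fun a' => ?_
  obtain ⟨s, rfl⟩ := Submodule.mem_span_singleton.1 hw
  have e1 : D.pmb K (.inl a) = D.h K a := rfl
  have e2 : D.pmb K (.inr α) = 0 := rfl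
  rw [e1, e2, hc]
  simp [bv]

theorem jac_xM_e {α β : D.ι} (h : β ≠ α) (h' : β ≠ D.neg α) (t : K) :
    D.IsPm p (D.xM α t *ᵥ D.e K β) (D.xM α t *ᵥ D.pmb K (.inr β)) := by
  set P : (D.Δ → ℤ) → Prop := fun u => ∃ i j : ℤ, 0 < i ∧ u = i • D.co β + j • D.co α with hP
  have h0 : ¬ P 0 := by
    rintro ⟨i, j, hi, e⟩
    have e' : i • D.co β = (-j) • D.co α := by
      rw [neg_smul]; exact eq_neg_of_add_eq_zero_left e.symm
    exact (D.red' hi.ne' e').elim h h'
  have hadd : ∀ u v, P u → P v → P (u + v) := by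
    rintro _ _ ⟨i, j, hi, rfl⟩ ⟨i', j', hi', rfl⟩
    exact ⟨i + i', j + j', by omega, by module⟩
  have hx : D.xM α t *ᵥ D.e K β ∈ jacW D K P := by
    intro k hk
    change (D.xM α t *ᵥ Pi.single (Sum.inr β) 1) k = 0
    rw [mulVec_single_one]
    by_contra hc
    obtain ⟨n, hn⟩ := D.xM_wt α t (k := k) (j := .inr β) hc
    exact hk ⟨1, n, one_pos, by rw [hn, one_smul]; rfl⟩
  obtain ⟨y, hy, e⟩ := jacW_pm (p := p) hadd h0 hx
  refine jac_xM_of α t (.inr β) e fun a => ?_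
  have e2 : D.pmb K (.inr β) = 0 := rfl
  rw [e2, mulVec_zero, sub_zero]
  exact hy _ h0

theorem jac_add_two [CharP K 2] {x y x' y' : D.g K} (h : D.IsPm 2 x y) (h' : D.IsPm 2 x' y') :
    D.IsPm 2 (x + x') (y + y' + ⁅x, x'⁆) := by
  refine D.jac_add' 2 h h' ?_
  rw [LieHom.map_lie, LieRing.of_associative_ring_bracket]
  generalize UniversalEnvelopingAlgebra.ι K x = a
  generalize UniversalEnvelopingAlgebra.ι K x' = b
  have h2 : b * a + b * a = 0 := by
    rw [← two_smul K, show (2 : K) = 0 from CharP.cast_eq_zero K 2, zero_smul]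
  rw [sub_eq_add_neg (a * b), ← eq_neg_of_add_eq_zero_left h2]
  noncomm_ring

theorem jac_xM_f (α : D.ι) (t : K) :
    D.IsPm p (D.xM α t *ᵥ D.e K (D.neg α)) (D.xM α t *ᵥ D.pmb K (.inr (D.neg α))) := by
  have e2 : ∀ β, D.pmb K (.inr β) = 0 := fun _ => rfl
  set E := D.e K α with hE
  set F := D.e K (D.neg α) with hF
  set H : D.g K := D.hv fun a => (D.cr α a : K) with hH
  have hEF : ⁅E, F⁆ = H := D.lie_e_neg α
  have hHE : ⁅H, E⁆ = (2 : K) • E := by
    rw [hH, hE, D.lie_cr_e, D.pr_self]; norm_num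
  have hHF : ⁅H, F⁆ = (-2 : K) • F := by
    rw [hH, hF, D.lie_cr_e, D.pr_neg_left, D.pr_self]; norm_num
  have hFE : ⁅F, E⁆ = -H := by rw [← lie_skew, hEF]
  have hEH : ⁅E, H⁆ = (-2 : K) • E := by rw [← lie_skew, hHE, neg_smul]
  have hFH : ⁅F, H⁆ = (2 : K) • F := by rw [← lie_skew, hHF, neg_smul, _root_.neg_neg]
  have pE : D.IsPm p E 0 := D.jac_bv p (.inr α)
  have pF : D.IsPm p F 0 := D.jac_bv p (.inr (D.neg α))
  have pH : D.IsPm p H H := isPm_hv _
  have hx : D.xM α t *ᵥ F = F + (t • H + (-t ^ 2) • E) := by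
    rw [hF, D.xM_neg, neg_smul, sub_eq_add_neg, add_assoc]
  by_cases h2 : p = 2
  · subst h2
    have h20 : (2 : K) = 0 := CharP.cast_eq_zero K 2
    have h := jac_add_two pF (jac_add_two (D.jac_smul 2 pH t) (D.jac_smul 2 pE (-t ^ 2)))
    rw [e2, mulVec_zero, hx]
    convert h using 1
    simp only [lie_add, lie_smul, smul_lie, hHE, hFH, hFE, h20, zero_smul, smul_zero, add_zero,
      zero_add, neg_smul, smul_neg, lie_neg, _root_.neg_neg, neg_zero]
    rw [← two_smul K, h20, zero_smul]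
  · have h20 : (2 : K) ≠ 0 := by
      intro h
      have := (CharP.cast_eq_zero_iff K p 2).1 (by exact_mod_cast h)
      exact h2 ((Nat.prime_dvd_prime_iff_eq Fact.out Nat.prime_two).1 this)
    set V : Submodule K (D.g K) := Submodule.span K {E, F, H} with hV
    have mE : E ∈ V := Submodule.subset_span (by simp)
    have mF : F ∈ V := Submodule.subset_span (by simp)
    have mH : H ∈ V := Submodule.subset_span (by simp)
    have hlie : ∀ x ∈ V, ∀ y ∈ V, ⁅x, y⁆ ∈ V := by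
      intro x hx y hy
      obtain ⟨a, b, c, rfl⟩ := Submodule.mem_span_triple.1 hx
      obtain ⟨a', b', c', rfl⟩ := Submodule.mem_span_triple.1 hy
      simp only [add_lie, lie_add, lie_smul, smul_lie, lie_self, hEF, hHE, hHF, hFE, hEH, hFH]
      repeat first
        | exact mE
        | exact mF
        | exact mH
        | exact V.zero_mem
        | apply V.add_mem
        | apply V.neg_mem
        | apply V.smul_mem
    obtain ⟨-, y, hy, e⟩ := D.jac_span p V hlie {E, F, H} (x := D.xM α t *ᵥ F) (by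
      rintro _ (rfl | rfl | rfl)
      exacts [⟨mE, 0, V.zero_mem, pE⟩, ⟨mF, 0, V.zero_mem, pF⟩, ⟨mH, H, mH, pH⟩])
      (by rw [hx]; exact V.add_mem mF (V.add_mem (V.smul_mem _ mH) (V.smul_mem _ mE)))
    refine jac_xM_of α t (.inr (D.neg α)) e fun a => ?_
    have hc := jac_xM_central α t (.inr (D.neg α)) e E
    rw [e2, mulVec_zero, sub_zero] at hc ⊢
    obtain ⟨a', b', c', rfl⟩ := Submodule.mem_span_triple.1 hy
    simp only [add_lie, smul_lie, lie_self, hHE, hFE] at hc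
    have h3 := congrFun hc (.inr α)
    have hc0 : c' = 0 := by simpa [hE, hH, bv, hv, h20] using h3
    simp [hc0, hE, hF, bv]

theorem isPm_xM (α : D.ι) (t : K) (b : D.B) :
    D.IsPm p (D.xM α t *ᵥ D.bv K b) (D.xM α t *ᵥ D.pmb K b) := by
  rcases b with a | β
  · exact jac_xM_h α t a
  · by_cases h : β = α
    · subst h
      have e2 : D.pmb K (.inr β) = 0 := rfl
      rw [D.xM_self, e2, mulVec_zero]
      exact D.jac_bv p (.inr β)
    · by_cases h' : β = D.neg α
      · subst h'; exact jac_xM_f α t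
      · exact jac_xM_e h h' t

theorem jac_tM (u : D.Δ → Kˣ) (b : D.B) :
    D.IsPm p (D.tM u *ᵥ D.bv K b) (D.tM u *ᵥ D.pmb K b) := by
  have h1 : ∀ b, D.tM u *ᵥ D.bv K b = (D.chr u (D.wt b) : K) • D.bv K b := by
    intro b
    funext k
    rw [RD.tM, mulVec_diagonal, Pi.smul_apply, smul_eq_mul, bv]
    by_cases hk : k = b
    · rw [hk]
    · rw [Pi.single_eq_of_ne hk, mul_zero, mul_zero]
  rcases b with a | β
  · have e1 : D.pmb K (.inl a) = D.bv K (.inl a) := rfl
    have e3 : D.wt (.inl a) = 0 := rfl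
    rw [e1, h1, e3, D.chr_zero, Units.val_one, one_smul]
    exact D.jac_bv p (.inl a)
  · have e2 : D.pmb K (.inr β) = 0 := rfl
    have := D.jac_smul p (D.jac_bv p (K := K) (.inr β)) (D.chr u (D.wt (.inr β)) : K)
    rw [e2, smul_zero] at this
    rw [h1, e2, mulVec_zero]
    exact this

theorem jac_twist {χ : D.B → K} {S : LRep K (D.g K)} (hS : D.PC p χ S) {A : Matrix D.B D.B K}
    (h : D.IsAut A) (hA : ∀ b, D.IsPm p (A *ᵥ D.bv K b) (A *ᵥ D.pmb K b)) :
    D.PC p (χ ᵥ* A) (S.res (D.autHom A h)) := by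
  intro b
  have h1 := (hA b).pc hS
  rw [dotProduct_mulVec, bv, dotProduct_single, mul_one] at h1
  exact h1

theorem PC.twist {χ : D.B → K} {S : LRep K (D.g K)} (hS : D.PC p χ S) {A : Matrix D.B D.B K}
    (hA : A ∈ D.G K) (h : D.IsAut A) : D.PC p (χ ᵥ* A) (S.res (D.autHom A h)) := by
  have key : ∀ (χ : D.B → K) (S : LRep K (D.g K)), D.PC p χ S → ∀ b,
      S.ρ (A *ᵥ D.bv K b) ^ p = S.ρ (A *ᵥ D.pmb K b) + (χ ᵥ* A) b ^ p • (1 : End K S.M) := by
    clear h hS
    refine GS_induction_left (P := fun A => ∀ (χ : D.B → K) (S : LRep K (D.g K)), D.PC p χ S →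
      ∀ b, S.ρ (A *ᵥ D.bv K b) ^ p
        = S.ρ (A *ᵥ D.pmb K b) + (χ ᵥ* A) b ^ p • (1 : End K S.M)) ?_ ?_ ?_ hA
    · intro χ S hS b
      rw [one_mulVec, one_mulVec, vecMul_one]
      exact hS b
    · intro A _ ih α _ t χ S hS b
      have := ih _ _ (jac_twist hS (D.xM_aut α t) (isPm_xM α t)) b
      rw [vecMul_vecMul] at this
      rw [← mulVec_mulVec, ← mulVec_mulVec]
      exact this
    · intro A _ ih u χ S hS b
      have := ih _ _ (jac_twist hS (D.tM_aut u) (jac_tM u)) b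
      rw [vecMul_vecMul] at this
      rw [← mulVec_mulVec, ← mulVec_mulVec]
      exact this
  exact key χ S hS

end CD

end Pool.Agent.P.Bf04
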