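import Mathlib

/-! The formula of Jacobson. -/

namespace Pool.Agent.P.Bf04

open Polynomial Finset

theorem jacA_choose {k : Type*} [Field k] (p : ℕ) [Fact p.Prime] [CharP k p] (n : ℕ)
    (hn : p = n + 1) : ∀ m, m ≤ n → (n.choose m : k) = (-1) ^ m
  | 0, _ => by simp
  | m + 1, h => by
    have h1 := jacA_choose (k := k) p n hn m (by omega)
    have h2 : ((p.choose (m + 1) : ℕ) : k) = 0 :=
      (CharP.cast_eq_zero_iff k p _).2
        ((Fact.out : p.Prime).dvd_choose_self (by omega) (by omega))
    rw [hn, Nat.choose_succ_succ, Nat.cast_add, h1] at h2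
    rw [pow_succ]
    linear_combination h2

theorem jacA_ad {k B : Type*} [Field k] [Ring B] [Algebra k B] (p : ℕ) [Fact p.Prime] [CharP k p]
    (n : ℕ) (hn : p = n + 1) (u x : B) :
    ((LinearMap.mulLeft k u - LinearMap.mulRight k u) ^ n) x =
      ∑ m ∈ range (n + 1), u ^ m * x * u ^ (n - m) := by
  have hc : Commute (LinearMap.mulLeft k u) ((-1 : k) • LinearMap.mulRight k u) :=
    (LinearMap.commute_mulLeft_right u u).smul_right _
  have h1 : (-1 : k) ^ n = 1 := by
    have h := neg_one_pow_char k p
    rw [hn, pow_succ] at h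
    linear_combination -h
  rw [sub_eq_add_neg, ← neg_one_smul k (LinearMap.mulRight k u), hc.add_pow, LinearMap.sum_apply]
  refine sum_congr rfl fun m hm => ?_
  have hm' : m ≤ n := Nat.lt_succ_iff.1 (mem_range.1 hm)
  have h2 : (-1 : k) ^ (n - m) * (n.choose m : k) = 1 := by
    rw [jacA_choose p n hn m hm', ← pow_add, Nat.sub_add_cancel hm', h1]
  rw [_root_.smul_pow, LinearMap.pow_mulLeft, LinearMap.pow_mulRight, Module.End.mul_apply,
    Module.End.mul_apply, Module.End.natCast_apply, ← Nat.cast_smul_eq_nsmul k,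
    LinearMap.smul_apply, map_smul, map_smul, map_smul, smul_smul, h2, one_smul]
  simp [mul_assoc]

theorem jacA_deriv {A : Type*} [Ring A] (u : A[X]) (n : ℕ) :
    derivative (u ^ (n + 1)) = ∑ m ∈ range (n + 1), u ^ m * derivative u * u ^ (n - m) := by
  induction n with
  | zero => simp
  | succ n ih =>
    rw [pow_succ, derivative_mul, ih, sum_range_succ _ (n + 1), sum_mul]
    simp only [Nat.sub_self, pow_zero, mul_one]
    congr 1
    refine sum_congr rfl fun m hm => ?_
    have hm' : m ≤ n := Nat.lt_succ_iff.1 (mem_range.1 hm)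
    rw [mul_assoc, ← pow_succ, show n + 1 - m = n - m + 1 by omega]

theorem jacobson {k A : Type*} [Field k] [Ring A] [Algebra k A] (p : ℕ) [Fact p.Prime] [CharP k p]
    (a b : A) (V : Submodule k A) (h0 : a * b - b * a ∈ V) (ha : ∀ x ∈ V, a * x - x * a ∈ V)
    (hb : ∀ x ∈ V, b * x - x * b ∈ V) : (a + b) ^ p - a ^ p - b ^ p ∈ V := by
  obtain ⟨n, hn⟩ : ∃ n, p = n + 1 + 1 := ⟨p - 2, by have := (Fact.out : p.Prime).two_le; omega⟩
  set u : A[X] := C a * X + C b with hu
  set T := LinearMap.mulLeft k u - LinearMap.mulRight k u with hT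
  have hstep : ∀ f : A[X], (∀ i, f.coeff i ∈ V) → ∀ i, (T f).coeff i ∈ V := by
    intro f hf i
    have e : T f = (C a * f - f * C a) * X + (C b * f - f * C b) := by
      simp only [hT, hu, LinearMap.sub_apply, LinearMap.mulLeft_apply, LinearMap.mulRight_apply]
      have := X_mul (p := f)
      rw [add_mul, mul_assoc, this]
      noncomm_ring
    rw [e, coeff_add]
    refine V.add_mem ?_ ?_
    · rcases i with _ | i
      · simp
      · rw [coeff_mul_X, coeff_sub, coeff_C_mul, coeff_mul_C]
        exact ha _ (hf i)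
    · rw [coeff_sub, coeff_C_mul, coeff_mul_C]
      exact hb _ (hf i)
  have hbase : ∀ i, (T (C a)).coeff i ∈ V := by
    intro i
    have e : T (C a) = -C (a * b - b * a) := by
      simp only [hT, hu, LinearMap.sub_apply, LinearMap.mulLeft_apply, LinearMap.mulRight_apply,
        map_sub, map_mul]
      have := X_mul (p := (C a : A[X]))
      rw [add_mul, mul_assoc, this]
      noncomm_ring
    rw [e, coeff_neg, coeff_C]
    split_ifs
    · exact V.neg_mem h0
    · simp
  have hall : ∀ j i, ((T ^ (j + 1)) (C a)).coeff i ∈ V := by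
    intro j
    induction j with
    | zero => simpa using hbase
    | succ j ih =>
      rw [pow_succ', Module.End.mul_apply]
      exact hstep _ ih
  have hdu : derivative u = C a := by simp [hu]
  have hder : derivative (u ^ p) = (T ^ (n + 1)) (C a) := by
    rw [hT, jacA_ad p (n + 1) hn, hn, jacA_deriv, hdu]
  have hco : ∀ i, i + 1 < p → (u ^ p).coeff (i + 1) ∈ V := by
    intro i hi
    have h1 := hall n i
    rw [← hder, coeff_derivative] at h1
    have h2 : ((i + 1 : ℕ) : k) ≠ 0 := fun h =>
      absurd (Nat.le_of_dvd (by omega) ((CharP.cast_eq_zero_iff k p _).1 h)) (by omega)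
    have h3 : (u ^ p).coeff (i + 1) * ((i : A) + 1) =
        ((i + 1 : ℕ) : k) • (u ^ p).coeff (i + 1) := by
      rw [Nat.cast_smul_eq_nsmul, nsmul_eq_mul']
      simp
    rw [h3] at h1
    exact (V.smul_mem_iff h2).1 h1
  have hdeg : u.natDegree ≤ 1 := natDegree_linear_le
  have hdeg' : (u ^ p).natDegree < p + 1 :=
    Nat.lt_succ_of_le (natDegree_pow_le.trans (by simpa using Nat.mul_le_mul_left p hdeg))
  have htop : (u ^ p).coeff p = a ^ p := by
    have := coeff_pow_of_natDegree_le (m := p) hdeg
    simpa [hu, coeff_C] using this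
  have hbot : (u ^ p).coeff 0 = b ^ p := by
    have := map_pow (constantCoeff : A[X] →+* A) u p
    simpa [hu] using this
  have hev : (a + b) ^ p = ∑ i ∈ range (p + 1), (u ^ p).coeff i := by
    have h1 := map_pow (eval₂RingHom' (RingHom.id A) (1 : A) fun x => Commute.one_right _) u p
    have h2 := eval_eq_sum_range' hdeg' (1 : A)
    simp only [one_pow, mul_one] at h2
    rw [← h2]
    have h3 : ∀ f : A[X], eval₂RingHom' (RingHom.id A) (1 : A) (fun x => Commute.one_right _) f =
      f.eval 1 := fun f => rfl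
    rw [h3, h3] at h1
    rw [h1, hu]
    simp
  have hsum : (a + b) ^ p - a ^ p - b ^ p = ∑ i ∈ range (n + 1), (u ^ p).coeff (i + 1) := by
    rw [hev, sum_range_succ, htop]
    nth_rewrite 1 [hn]
    rw [sum_range_succ', hbot]
    abel
  rw [hsum]
  exact V.sum_mem fun i hi => hco i (by have := mem_range.1 hi; omega)

end Pool.Agent.P.Bf04
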