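import Pool.Agent.P.MP_bf0464_al.H.Mod1A

/-! Base change of modules. -/

namespace Pool.Agent.P.Bf04

open Matrix Module

attribute [local instance 100] LieRing.ofAssociativeRing

universe u v w

open TensorProduct

namespace CD

variable {D : CD} {K K' : Type u} [Field K] [Field K'] {p : ℕ} [Fact p.Prime]

section BC

variable [Algebra K K']

theorem bc_rel (S : LRep K (D.g K)) (i j : D.B) :
    ⁅(S.ρ (D.bv K i)).baseChange K', (S.ρ (D.bv K j)).baseChange K'⁆
      = ∑ k, D.cc i j k • (S.ρ (D.bv K k)).baseChange K' := by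
  have h := congrArg (End.baseChangeHom K K' S.M) (S.lie_eq (D.bv K i) (D.bv K j))
  rw [D.lie_bv, map_sum, map_sum, map_sub, map_mul, map_mul] at h
  simp only [map_zsmul] at h
  exact h.symm

variable (K') in
/-- base change of a representation -/
noncomputable def bcRep (S : LRep K (D.g K)) : LRep K' (D.g K') where
  M := K' ⊗[K] S.M
  ρ := D.homOf (fun b => (S.ρ (D.bv K b)).baseChange K') (bc_rel S)

theorem bcRep_bv (S : LRep K (D.g K)) (b : D.B) :
    (bcRep K' S).ρ (D.bv K' b) = (S.ρ (D.bv K b)).baseChange K' :=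
  D.homOf_bv (L := End K' (K' ⊗[K] S.M)) _ (bc_rel S) b

theorem mod1_rho (S : LRep K (D.g K)) (x : D.g K) :
    (bcRep K' S).ρ (algebraMap K K' ∘ x) = End.baseChangeHom K K' S.M (S.ρ x) := by
  conv_rhs => rw [D.eq_sum x, map_sum, map_sum]
  refine (D.homOf_apply (L := End K' (K' ⊗[K] S.M)) _ (bc_rel S) _).trans ?_
  refine Finset.sum_congr rfl fun b _ => ?_
  rw [map_smul, map_smul, Function.comp_apply, algebraMap_smul]
  rfl

theorem mod1_act (w : FreeAlgebra K (D.g K)) : ∃ w' : FreeAlgebra K' (D.g K'),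
    ∀ S : LRep K (D.g K), (bcRep K' S).act w' = End.baseChangeHom K K' S.M (S.act w) := by
  induction w using FreeAlgebra.induction with
  | grade0 r =>
    refine ⟨algebraMap K' _ (algebraMap K K' r), fun S => ?_⟩
    rw [AlgHom.commutes, AlgHom.commutes, AlgHom.commutes]
    exact (IsScalarTower.algebraMap_apply K K' (End K' (K' ⊗[K] S.M)) r).symm
  | grade1 x =>
    exact ⟨FreeAlgebra.ι K' (algebraMap K K' ∘ x), fun S => by
      rw [LRep.act_ι, LRep.act_ι, mod1_rho]⟩
  | mul a b ha hb =>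
    obtain ⟨a', ha⟩ := ha
    obtain ⟨b', hb⟩ := hb
    exact ⟨a' * b', fun S => by
      rw [map_mul, map_mul, map_mul, ha, hb]
      rfl⟩
  | add a b ha hb =>
    obtain ⟨a', ha⟩ := ha
    obtain ⟨b', hb⟩ := hb
    exact ⟨a' + b', fun S => by
      rw [map_add, map_add, map_add, ha, hb]
      rfl⟩

theorem mod1_act_mem (T : LRep K (D.g K)) (w : FreeAlgebra K (D.g K)) :
    T.act w ∈ Algebra.adjoin K (Set.range fun b => T.ρ (D.bv K b)) := by
  induction w using FreeAlgebra.induction with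
  | grade0 r =>
    rw [AlgHom.commutes]
    exact Subalgebra.algebraMap_mem _ r
  | grade1 x =>
    rw [LRep.act_ι, D.eq_sum x, map_sum]
    refine sum_mem fun b _ => ?_
    rw [map_smul]
    exact Subalgebra.smul_mem _ (Algebra.subset_adjoin (Set.mem_range_self b)) _
  | mul a b ha hb =>
    rw [map_mul]
    exact mul_mem ha hb
  | add a b ha hb =>
    rw [map_add]
    exact add_mem ha hb

theorem mod1_hom_act {L : Type u} [LieRing L] [LieAlgebra K L] {T T' : LRep K L}
    {f : T.M →ₗ[K] T'.M} (hf : T.IsHom T' f) (w : FreeAlgebra K L) :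
    ∀ m, f (T.act w m) = T'.act w (f m) := by
  induction w using FreeAlgebra.induction with
  | grade0 r =>
    intro m
    rw [AlgHom.commutes, AlgHom.commutes, Module.algebraMap_end_apply, Module.algebraMap_end_apply, map_smul]
  | grade1 x =>
    intro m
    rw [LRep.act_ι, LRep.act_ι, hf]
  | mul a b ha hb =>
    intro m
    rw [map_mul, map_mul, End.mul_apply, End.mul_apply, ha, hb]
  | add a b ha hb =>
    intro m
    rw [map_add, map_add, LinearMap.add_apply, LinearMap.add_apply, map_add, ha, hb]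

theorem mod1_iso_act {L : Type u} [LieRing L] [LieAlgebra K L] {T T' : LRep K L}
    (h : T.Iso T') {w : FreeAlgebra K L} (hw : T.act w = 0) : T'.act w = 0 := by
  obtain ⟨f, hf⟩ := h
  refine LinearMap.ext fun m => ?_
  obtain ⟨m, rfl⟩ := f.surjective m
  have h1 := mod1_hom_act hf w m
  rw [hw, LinearMap.zero_apply, map_zero] at h1
  exact h1.symm

theorem mod1_tmul_ne {M : Type u} [AddCommGroup M] [Module K M] {v : M} (hv : v ≠ 0) :
    (1 : K') ⊗ₜ[K] v ≠ 0 := fun h =>
  hv ((Module.FaithfullyFlat.one_tmul_eq_zero_iff K M (A := K') v).1 h)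

theorem bcRep_ev (S : LRep K (D.g K)) (z : FreeAlgebra ℤ D.B) :
    D.ev (bcRep K' S) z = (D.ev S z).baseChange K' := by
  change D.ev (bcRep K' S) z = End.baseChangeHom K K' S.M (D.ev S z)
  induction z using FreeAlgebra.induction with
  | grade0 r =>
    rw [eq_intCast, map_intCast, map_intCast, map_intCast]
    rfl
  | grade1 b =>
    rw [ev, ev, FreeAlgebra.lift_ι_apply, FreeAlgebra.lift_ι_apply, bcRep_bv]
    rfl
  | mul a b ha hb =>
    rw [map_mul, map_mul, map_mul, ha, hb]
    rfl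
  | add a b ha hb =>
    rw [map_add, map_add, map_add, ha, hb]
    rfl

/-- absolute simplicity -/
theorem bcRep_gen [IsAlgClosed K] {S : LRep K (D.g K)} (hS : S.Simple) [FiniteDimensional K S.M] :
    Algebra.adjoin K' (Set.range fun b => (bcRep K' S).ρ (D.bv K' b)) = ⊤ := by
  have : Module.FinitePresentation K S.M := Module.finitePresentation_of_finite K S.M
  rw [eq_top_iff]
  rintro F -
  refine (Module.FinitePresentation.isBaseChange_map K S.M S.M K').inductionOn F
    (fun F : End K' (bcRep K' S).M => F ∈ Algebra.adjoin K' (Set.range fun b => (bcRep K' S).ρ (D.bv K' b)))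
    (zero_mem _) (fun f => ?_) (fun s n hn => Subalgebra.smul_mem _ hn s)
    (fun a b ha hb => add_mem ha hb)
  obtain ⟨w, rfl⟩ := LRep.act_surj hS f
  obtain ⟨w', hw'⟩ := mod1_act (K' := K') w
  have h := mod1_act_mem (bcRep K' S) w'
  rw [hw'] at h
  exact h

theorem bcRep_simple [IsAlgClosed K] {S : LRep K (D.g K)} (hS : S.Simple)
    [FiniteDimensional K S.M] : (bcRep K' S).Simple := by
  have := hS.1
  obtain ⟨v, hv⟩ := exists_ne (0 : S.M)
  refine ⟨⟨(1 : K') ⊗ₜ[K] v, 0, mod1_tmul_ne hv⟩, fun N hN => ?_⟩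
  have hall : ∀ F : End K' (bcRep K' S).M, ∀ m ∈ N, F m ∈ N := by
    intro F
    have hF : F ∈ Algebra.adjoin K' (Set.range fun b => (bcRep K' S).ρ (D.bv K' b)) := by
      rw [bcRep_gen hS]
      trivial
    induction hF using Algebra.adjoin_induction with
    | mem x hx =>
      obtain ⟨b, rfl⟩ := hx
      exact hN _
    | algebraMap r => exact fun m hm => N.smul_mem r hm
    | add x y _ _ hx hy => exact fun m hm => N.add_mem (hx m hm) (hy m hm)
    | mul x y _ _ hx hy => exact fun m hm => hx _ (hy m hm)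
  by_cases h0 : N = ⊥
  · exact Or.inl h0
  right
  obtain ⟨m, hm, hm0⟩ := Submodule.exists_mem_ne_zero_of_ne_bot h0
  obtain ⟨f, hf⟩ := Module.Projective.exists_dual_eq_one K' hm0
  rw [eq_top_iff]
  rintro y -
  have h1 := hall (f.smulRight y) m hm
  rwa [LinearMap.smulRight_apply, hf, one_smul] at h1

theorem bcRep_ker [IsAlgClosed K] {S S' : LRep K (D.g K)} (hS : S.Simple) (hS' : S'.Simple)
    [FiniteDimensional K S.M]
    (h : ∀ w, (bcRep K' S).act w = 0 ↔ (bcRep K' S').act w = 0) : S.Iso S' := by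
  refine LRep.iso_of_ker hS hS' fun w => ?_
  obtain ⟨w', hw'⟩ := mod1_act (K' := K') w
  have key : ∀ T : LRep K (D.g K), (bcRep K' T).act w' = 0 ↔ T.act w = 0 := by
    intro T
    rw [hw']
    exact map_eq_zero_iff (End.baseChangeHom K K' T.M)
      (LinearMap.baseChangeHom_injective (R := K) (M := T.M) (N := T.M) (S := K'))
  rw [← key, ← key, h]

theorem bcRep_iso [IsAlgClosed K] {S S' : LRep K (D.g K)} (hS : S.Simple) (hS' : S'.Simple)
    [FiniteDimensional K S.M] (h : (bcRep K' S).Iso (bcRep K' S')) : S.Iso S' :=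
  bcRep_ker (K' := K') hS hS' fun _ => ⟨mod1_iso_act h, mod1_iso_act h.symm⟩

theorem PC.bc {χ : D.B → K} {S : LRep K (D.g K)} (h : D.PC p χ S) :
    D.PC p (algebraMap K K' ∘ χ) (bcRep K' S) := by
  intro b
  have h1 := congrArg (End.baseChangeHom K K' S.M) (h b)
  rw [map_pow, map_add, map_smul, map_one, ← mod1_rho, ← mod1_rho, D.map_bv] at h1
  have h2 : (algebraMap K K' ∘ D.pmb K b : D.g K') = D.pmb K' b := by
    rcases b with a | β
    · exact D.map_bv _ _
    · funext k
      exact map_zero _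
  rw [h2, ← algebraMap_smul K', map_pow] at h1
  exact h1

theorem Adm.bc [IsAlgClosed K] {χ : D.B → K} {μ : D.σ → ℤ} {S : LRep K (D.g K)}
    (h : D.Adm p χ μ S) : D.Adm p (algebraMap K K' ∘ χ) μ (bcRep K' S) := by
  have := h.fd
  obtain ⟨ν, hν, v, hv, h1, h2⟩ := h.hw
  refine ⟨inferInstanceAs (FiniteDimensional K' (K' ⊗[K] S.M)), bcRep_simple h.simple, h.pc.bc,
    ν, hν, (1 : K') ⊗ₜ[K] v, mod1_tmul_ne hv, fun β hβ => ?_, fun a => ?_⟩
  · rw [bcRep_bv]
    change (1 : K') ⊗ₜ[K] (S.ρ (D.e K β) v) = 0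
    rw [h1 β hβ, tmul_zero]
  · rw [bcRep_bv]
    change (1 : K') ⊗ₜ[K] (S.ρ (D.h K a) v) = (ν a : K') • ((1 : K') ⊗ₜ[K] v)
    rw [h2 a, tmul_smul, ← algebraMap_smul K', map_intCast]

end BC

theorem BndAt.bc [IsAlgClosed K] (φ : K →+* K') {χ : D.B → K} {μ : D.σ → ℤ} {n : ℕ}
    (h : D.BndAt p (φ ∘ χ) μ n) : D.BndAt p χ μ n := by
  intro A _ S h1 h2
  let _ := φ.toAlgebra
  refine h A (fun a => bcRep K' (S a)) (fun a => (h1 a).bc) fun a a' hi => h2 a a' ?_
  have := (h1 a).fd
  exact bcRep_iso (h1 a).simple (h1 a').simple hi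

theorem Sav.bc [IsAlgClosed K] (φ : K →+* K') {χ : D.B → K} {s : ℕ} (h : D.Sav p (φ ∘ χ) s) :
    D.Sav p χ s := fun μ => (h μ).bc φ

theorem std_map {R : Type v} {R' : Type w} [CommRing R] [CommRing R'] (φ : R →+* R')
    {χ : D.B → R} (h : D.Std χ) : D.Std (φ ∘ χ) :=
  ⟨fun a => by rw [Function.comp_apply, h.1 a, map_zero],
    fun β hβ => by rw [Function.comp_apply, h.2 β hβ, map_zero]⟩

end CD

end Pool.Agent.P.Bf04
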