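import Mathlib

/-! Families of nilpotent operators that are closed under brackets. -/

namespace Pool.Agent.P.Bf04

open Module

variable {K M I : Type*} [Field K] [AddCommGroup M] [Module K M] [Finite I] (Y : I → End K M)
  (δ : I → ℤ) (hδ : ∀ i, 0 < δ i)
  (hbr : ∀ i j, Y i * Y j - Y j * Y i ∈ Submodule.span K {x | ∃ l, δ l = δ i + δ j ∧ x = Y l})
  (hn : ∀ i, IsNilpotent (Y i)) (N : Submodule K M) (hN : N ≠ ⊥) (hY : ∀ i, ∀ m ∈ N, Y i m ∈ N)

omit [Finite I] in
theorem nilp_span {S : Set (End K M)} {A : End K M} (hA : A ∈ Submodule.span K S)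
    (P : Submodule K M) (m : M) (h : ∀ x ∈ S, x m ∈ P) : A m ∈ P := by
  induction hA using Submodule.span_induction with
  | mem x hx => exact h x hx
  | zero => exact P.zero_mem
  | add x y _ _ hx hy => exact P.add_mem hx hy
  | smul a x _ hx => exact P.smul_mem a hx

include hδ hbr hn hN hY

theorem nil_ker : ∃ v ∈ N, v ≠ 0 ∧ ∀ i, Y i v = 0 := by
  classical
  have := Fintype.ofFinite I
  have key : ∀ s : Finset I, (∀ i ∈ s, ∀ l, δ i < δ l → l ∈ s) →
      ∃ v ∈ N, v ≠ 0 ∧ ∀ i ∈ s, Y i v = 0 := by
    intro s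
    induction s using Finset.induction_on_min_value δ with
    | empty =>
      obtain ⟨v, hv, hv0⟩ := (Submodule.ne_bot_iff N).1 hN
      exact fun _ => ⟨v, hv, hv0, by simp⟩
    | insert a s _ hmin ih =>
      intro hup
      have hs : ∀ i ∈ s, ∀ l, δ i < δ l → l ∈ s := fun i hi l hl => by
        rcases Finset.mem_insert.1 (hup i (Finset.mem_insert_of_mem hi) l hl) with rfl | h
        · exact absurd (hmin i hi) (not_le.2 hl)
        · exact h
      obtain ⟨v, hv, hv0, hvs⟩ := ih hs
      have st : ∀ k : ℕ, (Y a ^ k) v ∈ N ∧ ∀ i ∈ s, Y i ((Y a ^ k) v) = 0 := by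
        intro k
        induction k with
        | zero => exact ⟨hv, hvs⟩
        | succ k ihk =>
          rw [pow_succ', End.mul_apply]
          refine ⟨hY a _ ihk.1, fun i hi => ?_⟩
          have h1 := nilp_span (hbr i a) ⊥ ((Y a ^ k) v) (by
            rintro _ ⟨l, hl, rfl⟩
            exact ihk.2 l (hs i hi l (by have := hδ a; omega)))
          rwa [Submodule.mem_bot, LinearMap.sub_apply, End.mul_apply, End.mul_apply, ihk.2 i hi,
            map_zero, sub_zero] at h1
      have hex : ∃ k : ℕ, (Y a ^ (k + 1)) v = 0 := by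
        obtain ⟨k, hk⟩ := hn a
        exact ⟨k, by rw [pow_succ', hk, mul_zero, LinearMap.zero_apply]⟩
      refine ⟨(Y a ^ Nat.find hex) v, (st _).1, ?_, fun i hi => ?_⟩
      · rcases h : Nat.find hex with _ | k
        · exact hv0
        · exact Nat.find_min hex (by omega)
      · rcases Finset.mem_insert.1 hi with rfl | h
        · have := Nat.find_spec hex
          rwa [pow_succ', End.mul_apply] at this
        · exact (st _).2 i h
  obtain ⟨v, hv, hv0, h⟩ := key Finset.univ fun _ _ _ _ => Finset.mem_univ _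
  exact ⟨v, hv, hv0, fun i => h i (Finset.mem_univ _)⟩

theorem nil_coker : ¬ N ≤ ⨆ i, N.map (Y i) := by
  classical
  have := Fintype.ofFinite I
  have key : ∀ s : Finset I, (∀ i ∈ s, ∀ l, δ i < δ l → l ∈ s) →
      ¬ N ≤ ⨆ i ∈ s, N.map (Y i) := by
    intro s
    induction s using Finset.induction_on_min_value δ with
    | empty => exact fun _ h => hN (by simpa using h)
    | insert a s _ hmin ih =>
      intro hup hle
      have hs : ∀ i ∈ s, ∀ l, δ i < δ l → l ∈ s := fun i hi l hl => by
        rcases Finset.mem_insert.1 (hup i (Finset.mem_insert_of_mem hi) l hl) with rfl | h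
        · exact absurd (hmin i hi) (not_le.2 hl)
        · exact h
      refine ih hs ?_
      rw [Finset.iSup_insert] at hle
      set P := ⨆ i ∈ s, N.map (Y i) with hP
      have hin : ∀ l ∈ s, ∀ m ∈ N, Y l m ∈ P := fun l hl m hm =>
        (le_iSup₂ (f := fun i (_ : i ∈ s) => N.map (Y i)) l hl) ⟨m, hm, rfl⟩
      have hPa : P.map (Y a) ≤ P := by
        rw [Submodule.map_le_iff_le_comap]
        refine iSup₂_le fun i hi => ?_
        rintro _ ⟨m, hm, rfl⟩
        have h1 := nilp_span (hbr a i) P m (by
          rintro _ ⟨l, hl, rfl⟩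
          exact hin l (hs i hi l (by have := hδ a; omega)) m hm)
        have h2 := P.add_mem h1 (hin i hi _ (hY a m hm))
        rwa [LinearMap.sub_apply, End.mul_apply, End.mul_apply, sub_add_cancel] at h2
      have st : ∀ k : ℕ, N ≤ N.map (Y a ^ k) ⊔ P := by
        intro k
        induction k with
        | zero => exact le_sup_of_le_left fun m hm => ⟨m, hm, rfl⟩
        | succ k ihk =>
          refine hle.trans (sup_le ((Submodule.map_mono ihk).trans ?_) le_sup_right)
          rw [Submodule.map_sup, ← Submodule.map_comp, pow_succ']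
          exact sup_le_sup le_rfl hPa
      obtain ⟨k, hk⟩ := hn a
      have := st k
      rwa [hk, Submodule.map_zero, bot_sup_eq] at this
  intro h
  exact key Finset.univ (fun _ _ _ _ => Finset.mem_univ _) (by simpa using h)

end Pool.Agent.P.Bf04
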