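import Pool.Agent.P.MP_bf0464_al.H.Jac
import Pool.Agent.P.MP_bf0464_al.H.Cen
import Pool.Agent.P.MP_bf0464_al.H.Nilp

/-! Highest weights, linkage, conjugation and base change of modules. -/

namespace Pool.Agent.P.Bf04

open Matrix Module

attribute [local instance 100] LieRing.ofAssociativeRing

universe u v w

open TensorProduct

theorem mod1a_poly (K : Type*) [Field K] (p : ℕ) [Fact p.Prime] [CharP K p] :
    ∏ a : ZMod p, (Polynomial.X - Polynomial.C ((a.cast : ℤ) : K))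
      = (Polynomial.X ^ p - Polynomial.X : Polynomial K) := by
  have hp : 1 < p := (Fact.out : p.Prime).one_lt
  have hc : Fintype.card (ZMod p) = p := ZMod.card p
  have hm : (Polynomial.X ^ p - Polynomial.X : Polynomial (ZMod p)).Monic :=
    Polynomial.monic_X_pow_sub (by rw [Polynomial.degree_X]; exact_mod_cast hp)
  have hr := FiniteField.roots_X_pow_card_sub_X (ZMod p)
  rw [hc] at hr
  have hd : (Polynomial.X ^ p - Polynomial.X : Polynomial (ZMod p)).natDegree = p :=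
    FiniteField.X_pow_card_sub_X_natDegree_eq _ hp
  have h1 := Polynomial.prod_multiset_X_sub_C_of_monic_of_roots_card_eq hm (by
    rw [hr, hd]; exact hc)
  rw [hr] at h1
  have h2 := congrArg (Polynomial.map (ZMod.castHom (dvd_refl p) K)) h1
  rw [← Finset.prod_eq_multiset_prod, Polynomial.map_prod] at h2
  simp only [Polynomial.map_sub, Polynomial.map_pow, Polynomial.map_X, Polynomial.map_C,
    ZMod.castHom_apply] at h2
  simpa only [ZMod.intCast_cast] using h2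

theorem mod1a_eig {K M : Type*} [Field K] [AddCommGroup M] [Module K M] {p : ℕ} [Fact p.Prime]
    [CharP K p] (T : End K M) (hT : T ^ p = T) (N : Submodule K M) (hN : N ≠ ⊥)
    (hs : ∀ m ∈ N, T m ∈ N) : ∃ c : ℤ, ∃ v ∈ N, v ≠ 0 ∧ T v = (c : K) • v := by
  classical
  by_contra hc
  push Not at hc
  have key : ∀ s : Finset (ZMod p), ∀ v ∈ N, Polynomial.aeval T
      (∏ a ∈ s, (Polynomial.X - Polynomial.C ((a.cast : ℤ) : K))) v = 0 → v = 0 := by
    intro s
    induction s using Finset.induction_on with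
    | empty => intro v _ h; simpa using h
    | insert a s ha ih =>
      intro v hv h
      rw [Finset.prod_insert ha, mul_comm, map_mul, End.mul_apply] at h
      have e : Polynomial.aeval T (Polynomial.X - Polynomial.C ((a.cast : ℤ) : K)) v
          = T v - ((a.cast : ℤ) : K) • v := by
        rw [map_sub, Polynomial.aeval_X, Polynomial.aeval_C, LinearMap.sub_apply,
          Module.algebraMap_end_apply]
      rw [e] at h
      have h0 := ih _ (N.sub_mem (hs v hv) (N.smul_mem _ hv)) h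
      by_contra hne
      exact hc _ v hv hne (sub_eq_zero.1 h0)
  obtain ⟨v, hv, hne⟩ := Submodule.exists_mem_ne_zero_of_ne_bot hN
  refine hne (key Finset.univ v hv ?_)
  rw [mod1a_poly, map_sub, map_pow, Polynomial.aeval_X, hT, sub_self, LinearMap.zero_apply]

theorem mod1a_common {K M σ : Type*} [Field K] [AddCommGroup M] [Module K M] {p : ℕ}
    [Fact p.Prime] [CharP K p] [Fintype σ] (T : σ → End K M) (hT : ∀ a, T a ^ p = T a)
    (hc : ∀ a b m, T a (T b m) = T b (T a m)) (N : Submodule K M) (hN : N ≠ ⊥)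
    (hs : ∀ a, ∀ m ∈ N, T a m ∈ N) :
    ∃ (μ : σ → ℤ) (v : M), v ∈ N ∧ v ≠ 0 ∧ ∀ a, T a v = (μ a : K) • v := by
  classical
  have key : ∀ s : Finset σ,
      ∃ (μ : σ → ℤ) (v : M), v ∈ N ∧ v ≠ 0 ∧ ∀ a ∈ s, T a v = (μ a : K) • v := by
    intro s
    induction s using Finset.induction_on with
    | empty =>
      obtain ⟨v, hv, hne⟩ := Submodule.exists_mem_ne_zero_of_ne_bot hN
      exact ⟨0, v, hv, hne, fun a ha => absurd ha (Finset.notMem_empty a)⟩
    | insert b s hb ih =>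
      obtain ⟨μ, v, hv, hne, hμ⟩ := ih
      let N' : Submodule K M := N ⊓ ⨅ a ∈ s, (T a).eigenspace (μ a : K)
      have hm : ∀ m, m ∈ N' ↔ m ∈ N ∧ ∀ a ∈ s, T a m = (μ a : K) • m := fun m => by
        simp only [N', Submodule.mem_inf, Submodule.mem_iInf, End.mem_eigenspace_iff]
      obtain ⟨c, w, hw, hw0, hwc⟩ := mod1a_eig (T b) (hT b) N'
        (fun h => hne (by simpa [h] using (hm v).2 ⟨hv, hμ⟩))
        (fun m h => (hm _).2 ⟨hs b m ((hm m).1 h).1, fun a ha => by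
          rw [hc, ((hm m).1 h).2 a ha, map_smul]⟩)
      refine ⟨Function.update μ b c, w, ((hm w).1 hw).1, hw0, fun a ha => ?_⟩
      rcases Finset.mem_insert.1 ha with rfl | ha
      · rw [Function.update_self]; exact hwc
      · rw [Function.update_of_ne (fun h => hb (by rw [← h]; exact ha))]
        exact ((hm w).1 hw).2 a ha
  obtain ⟨μ, v, hv, hne, hμ⟩ := key Finset.univ
  exact ⟨μ, v, hv, hne, fun a => hμ a (Finset.mem_univ a)⟩

theorem mod1a_aeval {K σ : Type*} [CommRing K] (μ : σ → ℤ) (f : MvPolynomial σ ℤ) :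
    MvPolynomial.aeval (fun a => (μ a : K)) f = ((MvPolynomial.eval μ f : ℤ) : K) := by
  induction f using MvPolynomial.induction_on with
  | C a => simp
  | add f g hf hg => rw [map_add, map_add, hf, hg, Int.cast_add]
  | mul_X f a hf => rw [map_mul, map_mul, hf, MvPolynomial.aeval_X, MvPolynomial.eval_X, Int.cast_mul]

namespace CD

variable {D : CD} {K K' : Type u} [Field K] [Field K'] {p : ℕ} [Fact p.Prime]

theorem exists_hw_mem [CharP K p] {χ : D.B → K} (hχ : D.Std χ) {S : LRep K (D.g K)}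
    (hS : D.PC p χ S) (N : Submodule K S.M) [FiniteDimensional K N] (hN : N ≠ ⊥)
    (h1 : ∀ β, D.Pos β → ∀ m ∈ N, S.ρ (D.e K β) m ∈ N) (h2 : ∀ a, ∀ m ∈ N, S.ρ (D.h K a) m ∈ N) :
    ∃ (μ : D.σ → ℤ) (v : S.M), v ∈ N ∧ v ≠ 0 ∧ D.IsHW S (fun a => (μ a : K)) v := by
  have hp : p ≠ 0 := (Fact.out : p.Prime).ne_zero
  obtain ⟨v, hv, hne, hk⟩ := nil_ker (fun β : {β // D.Pos β} => S.ρ (D.e K β.1))
    (fun β => D.ht β.1) (fun β => (D.pos_iff_ht _).1 β.2) (fun α β => by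
      rw [← S.lie_eq]
      by_cases h : ∃ γ, D.co α.1 + D.co β.1 = D.co γ
      · obtain ⟨γ, hγ⟩ := h
        rw [D.lie_e_e hγ, map_smul]
        refine Submodule.smul_mem _ _ (Submodule.subset_span
          ⟨⟨γ, le_of_le_of_eq (add_nonneg α.2 β.2) hγ⟩, ?_, rfl⟩)
        simp only [RD.ht, ← hγ, Pi.add_apply, Finset.sum_add_distrib]
      · rw [D.lie_e_e_zero (fun γ hγ => h ⟨γ, hγ⟩)
          (fun hβ => (D.pos_neg_iff α.1).1 (hβ ▸ β.2) α.2), map_zero]
        exact Submodule.zero_mem _)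
    (fun β => ⟨p, by
      have := hS (.inr β.1)
      rw [hχ.2 β.1 β.2, zero_pow hp, zero_smul, add_zero] at this
      exact this.trans (map_zero _)⟩) N hN (fun β => h1 β.1 β.2)
  let N' : Submodule K S.M := N ⊓ ⨅ β : {β // D.Pos β}, LinearMap.ker (S.ρ (D.e K β.1))
  have hm : ∀ m, m ∈ N' ↔ m ∈ N ∧ ∀ β : {β // D.Pos β}, S.ρ (D.e K β.1) m = 0 := fun m => by
    simp only [N', Submodule.mem_inf, Submodule.mem_iInf, LinearMap.mem_ker]
  obtain ⟨μ, w, hw, hw0, hμ⟩ := mod1a_common (p := p) (fun a => S.ρ (D.h K a)) (fun a => by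
      have := hS (.inl a)
      rw [hχ.1 a, zero_pow hp, zero_smul, add_zero] at this
      exact this)
    (fun a b m => by rw [S.comm_apply, D.lie_h_h, map_zero, LinearMap.zero_apply, add_zero])
    N' (fun h => hne (by simpa [h] using (hm v).2 ⟨hv, hk⟩))
    (fun a m h => (hm _).2 ⟨h2 a m ((hm m).1 h).1, fun β => by
      have e := S.comm_apply (D.h K a) (D.e K β.1) m
      rw [D.lie_h_e, map_smul, LinearMap.smul_apply, ((hm m).1 h).2 β, map_zero, smul_zero,
        add_zero] at e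
      exact e.symm⟩)
  exact ⟨μ, w, ((hm w).1 hw).1, hw0, fun β hβ => ((hm w).1 hw).2 ⟨β, hβ⟩, hμ⟩

theorem exists_hw [CharP K p] {χ : D.B → K} (hχ : D.Std χ) {S : LRep K (D.g K)}
    (hS : D.PC p χ S) [FiniteDimensional K S.M] [Nontrivial S.M] : ∃ μ, D.HW S μ := by
  obtain ⟨μ, v, -, h⟩ := exists_hw_mem hχ hS ⊤ top_ne_bot (fun _ _ _ _ => trivial)
    (fun _ _ _ => trivial)
  exact ⟨μ, v, h⟩

theorem Cen.scalar {z : FreeAlgebra ℤ D.B} {f : MvPolynomial D.σ ℤ} (h : Cen.{u} D z f)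
    {S : LRep K (D.g K)} (hS : S.Simple) {μ : D.σ → ℤ} (hμ : D.HW S μ) :
    D.ev S z = algebraMap K _ (MvPolynomial.eval μ f : ℤ) := by
  obtain ⟨v, hv, hw⟩ := hμ
  have hs : S.Stable ((D.ev S z).eigenspace ((MvPolynomial.eval μ f : ℤ) : K)) :=
    fun x m hm => by
      rw [End.mem_eigenspace_iff] at hm ⊢
      rw [← End.mul_apply, (h.comm K S x).eq, End.mul_apply, hm, map_smul]
  have hv' : v ∈ (D.ev S z).eigenspace ((MvPolynomial.eval μ f : ℤ) : K) := by
    rw [End.mem_eigenspace_iff, h.hc K S _ v hw, mod1a_aeval]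
  rcases hS.2 _ hs with h1 | h1
  · rw [h1] at hv'
    exact absurd hv' hv
  · ext m
    rw [Module.algebraMap_end_apply]
    exact End.mem_eigenspace_iff.1 (h1 ▸ trivial)

theorem Cen.adm [CharP K p] {z : FreeAlgebra ℤ D.B} {f : MvPolynomial D.σ ℤ}
    (h : Cen.{u} D z f) {χ : D.B → K} {μ : D.σ → ℤ} {S : LRep K (D.g K)} (hS : D.Adm p χ μ S) :
    D.ev S z = algebraMap K _ (MvPolynomial.eval μ f : ℤ) := by
  obtain ⟨ν, hl, hν⟩ := hS.hw
  rw [h.scalar hS.simple hν]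
  congr 1
  rw [eq_comm, ← sub_eq_zero, ← Int.cast_sub, CharP.intCast_eq_zero_iff K p]
  exact h.link hl

theorem link_of_cen [CharP K p] {μ ν : D.σ → ℤ}
    (h : ∀ z f, Cen.{u} D z f →
      ((MvPolynomial.eval μ f : ℤ) : K) = ((MvPolynomial.eval ν f : ℤ) : K)) : D.Link p μ ν := by
  by_contra hl
  obtain ⟨z, f, hz, hn⟩ := exists_cen.{u} D (Fact.out : p.Prime) hl
  apply hn
  rw [← CharP.intCast_eq_zero_iff K p, Int.cast_sub, h z f hz, sub_self]

theorem Adm.link [CharP K p] {χ : D.B → K} {μ ν : D.σ → ℤ} {S : LRep K (D.g K)}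
    (hS : D.Adm p χ μ S) (hν : D.HW S ν) : D.Link p μ ν := by
  have := hS.simple.1
  exact link_of_cen (K := K) fun z f h => (algebraMap K (End K S.M)).injective
    ((h.adm hS).symm.trans (h.scalar hS.simple hν))

theorem Adm.of_link {χ : D.B → K} {μ ν : D.σ → ℤ} {S : LRep K (D.g K)} (hS : D.Adm p χ μ S)
    (h : D.Link p ν μ) : D.Adm p χ ν S := by
  obtain ⟨τ, hl, hτ⟩ := hS.hw
  exact ⟨hS.fd, hS.simple, hS.pc, τ, h.trans hl, hτ⟩

theorem BndAt.of_link {χ : D.B → K} {μ ν : D.σ → ℤ} {n : ℕ} (h : D.BndAt p χ μ n)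
    (hl : D.Link p μ ν) : D.BndAt p χ ν n :=
  fun A _ S h1 h2 => h A S (fun a => (h1 a).of_link hl) h2

theorem twist_simple {S : LRep K (D.g K)} (hS : S.Simple) {A : Matrix D.B D.B K} (hA : A ∈ D.G K)
    (h : D.IsAut A) : (S.res (D.autHom A h)).Simple := by
  obtain ⟨A', -, h1, -⟩ := GS_inv hA
  refine ⟨hS.1, fun N hN => hS.2 N fun x m hm => ?_⟩
  have := hN (A' *ᵥ x) m hm
  change S.ρ (A *ᵥ (A' *ᵥ x)) m ∈ N at this
  rwa [Matrix.mulVec_mulVec, h1, Matrix.one_mulVec] at this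

theorem twist_iso {S S' : LRep K (D.g K)} {A : Matrix D.B D.B K} (hA : A ∈ D.G K) (h : D.IsAut A)
    (hi : (S.res (D.autHom A h)).Iso (S'.res (D.autHom A h))) : S.Iso S' := by
  obtain ⟨A', -, h1, -⟩ := GS_inv hA
  obtain ⟨f, hf⟩ := hi
  refine ⟨f, fun x m => ?_⟩
  have := hf (A' *ᵥ x) m
  change f (S.ρ (A *ᵥ (A' *ᵥ x)) m) = S'.ρ (A *ᵥ (A' *ᵥ x)) (f m) at this
  rwa [Matrix.mulVec_mulVec, h1, Matrix.one_mulVec] at this

theorem Adm.twist [CharP K p] {χ : D.B → K} {μ : D.σ → ℤ} {S : LRep K (D.g K)}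
    (hS : D.Adm p χ μ S) {A : Matrix D.B D.B K} (hA : A ∈ D.G K) (h : D.IsAut A)
    (hχ : D.Std (χ ᵥ* A)) : D.Adm p (χ ᵥ* A) μ (S.res (D.autHom A h)) := by
  have := hS.simple.1
  have := hS.fd
  have hs := twist_simple hS.simple hA h
  have hp := hS.pc.twist hA h
  obtain ⟨ν, hν⟩ := exists_hw hχ hp
  refine ⟨hS.fd, hs, hp, ν, link_of_cen (K := K) fun z f hz => ?_, hν⟩
  exact (algebraMap K (End K S.M)).injective
    ((hz.adm hS).symm.trans ((hz.inv K S A hA h).symm.trans (hz.scalar hs hν)))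

theorem BndAt.move [CharP K p] {χ : D.B → K} {μ : D.σ → ℤ} {n : ℕ} {A : Matrix D.B D.B K}
    (hA : A ∈ D.G K) (hχ : D.Std (χ ᵥ* A)) (h : D.BndAt p (χ ᵥ* A) μ n) : D.BndAt p χ μ n :=
  fun B _ S h1 h2 => h B (fun a => (S a).res (D.autHom A (GS_aut hA)))
    (fun a => (h1 a).twist hA _ hχ) fun a a' hi => h2 a a' (twist_iso hA _ hi)

theorem Sav.move [CharP K p] {χ : D.B → K} {s : ℕ} {A : Matrix D.B D.B K}
    (hA : A ∈ D.G K) (hχ : D.Std (χ ᵥ* A)) (h : D.Sav p (χ ᵥ* A) s) : D.Sav p χ s :=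
  fun μ => (h μ).move hA hχ

theorem Sav.mono {χ : D.B → K} {s s' : ℕ} (h : D.Sav p χ s) (h0 : 0 < s') (hs : s' ≤ s) :
    D.Sav p χ s' :=
  fun μ => (h μ).mono (Nat.div_le_div_left hs h0)

end CD

end Pool.Agent.P.Bf04
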