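import Pool.Agent.P.MP_bf0464_al.H.Mod1
import Pool.Agent.P.MP_bf0464_al.H.Sub

/-! Reduction to a Levi subalgebra; regular characters; standard Levi form. -/

namespace Pool.Agent.P.Bf04

open Matrix Module

attribute [local instance 100] LieRing.ofAssociativeRing

universe u v w

namespace CD

variable {D : CD} {K : Type u} [Field K] {p : ℕ} [Fact p.Prime] [CharP K p]

/-- the degree of a root outside `J` -/
def mod2aDeg (D : CD) (J : Finset D.Δ) (β : D.ι) : ℤ := ∑ i ∈ Jᶜ, D.co β i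

theorem mod2a_add (J : Finset D.Δ) {α β γ : D.ι} (h : D.co α + D.co β = D.co γ) :
    D.mod2aDeg J γ = D.mod2aDeg J α + D.mod2aDeg J β := by
  simp only [mod2aDeg, ← h, Pi.add_apply, Finset.sum_add_distrib]

theorem mod2a_neg (J : Finset D.Δ) (β : D.ι) : D.mod2aDeg J (D.neg β) = -D.mod2aDeg J β := by
  simp only [mod2aDeg, D.co_neg, Pi.neg_apply, Finset.sum_neg_distrib]

theorem mod2a_nonneg (J : Finset D.Δ) {β : D.ι} (h : D.Pos β) : 0 ≤ D.mod2aDeg J β :=
  Finset.sum_nonneg fun i _ => h i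

theorem mod2a_in (J : Finset D.Δ) (β : D.ι) : D.In J β ↔ D.mod2aDeg J β = 0 := by
  constructor
  · exact fun h => Finset.sum_eq_zero fun i hi => h i (Finset.mem_compl.1 hi)
  · intro h i hi
    rcases D.sign β with h1 | h1
    · exact (Finset.sum_eq_zero_iff_of_nonneg fun j _ => h1 j).1 h i (Finset.mem_compl.2 hi)
    · exact (Finset.sum_eq_zero_iff_of_nonpos fun j _ => h1 j).1 h i (Finset.mem_compl.2 hi)

theorem mod2a_br (S : LRep K (D.g K)) {α β : D.ι} (h0 : β ≠ D.neg α) (P : Submodule K (End K S.M))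
    (h1 : ∀ γ, D.co α + D.co β = D.co γ → S.ρ (D.e K γ) ∈ P) : S.ρ ⁅D.e K α, D.e K β⁆ ∈ P := by
  by_cases h : ∃ γ, D.co α + D.co β = D.co γ
  · obtain ⟨γ, hγ⟩ := h
    rw [D.lie_e_e hγ, map_smul]
    exact P.smul_mem _ (h1 γ hγ)
  · rw [D.lie_e_e_zero (fun γ hγ => h ⟨γ, hγ⟩) h0, map_zero]
    exact P.zero_mem

theorem mod2a_br' (S : LRep K (D.g K)) {α β : D.ι} (h0 : β ≠ D.neg α) (P : Submodule K S.M)
    (m : S.M) (h1 : ∀ γ, D.co α + D.co β = D.co γ → S.ρ (D.e K γ) m ∈ P) :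
    S.ρ ⁅D.e K α, D.e K β⁆ m ∈ P :=
  mod2a_br S h0 (P.comap (LinearMap.applyₗ m)) h1

theorem mod2a_stable (S : LRep K (D.g K)) (N : Submodule K S.M)
    (h : ∀ b, ∀ m ∈ N, S.ρ (D.bv K b) m ∈ N) : S.Stable N := fun x m hm =>
  D.span_bv (N.comap (LinearMap.applyₗ m ∘ₗ S.ρ.toLinearMap)) (fun b => h b m hm) x

omit [CharP K p] in
theorem mod2a_nil {χ : D.B → K} {S : LRep K (D.g K)} (hS : D.PC p χ S) {β : D.ι}
    (h : χ (.inr β) = 0) : IsNilpotent (S.ρ (D.e K β)) := by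
  refine ⟨p, ?_⟩
  have := hS (.inr β)
  rw [h, zero_pow (Fact.out : p.Prime).ne_zero, zero_smul, add_zero] at this
  exact this.trans (map_zero _)

theorem mod2a_hbr (J : Finset D.Δ) (S : LRep K (D.g K)) (ε : ℤ)
    (i j : {β // 0 < ε * D.mod2aDeg J β}) :
    S.ρ (D.e K i.1) * S.ρ (D.e K j.1) - S.ρ (D.e K j.1) * S.ρ (D.e K i.1) ∈ Submodule.span K
      {x | ∃ l : {β // 0 < ε * D.mod2aDeg J β},
        ε * D.mod2aDeg J l.1 = ε * D.mod2aDeg J i.1 + ε * D.mod2aDeg J j.1 ∧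
          x = S.ρ (D.e K l.1)} := by
  have hi := i.2
  have hj := j.2
  rw [← S.lie_eq]
  refine mod2a_br S (fun h => ?_) _ fun γ hγ => ?_
  · rw [h, mod2a_neg] at hj
    linarith
  · have h1 : ε * D.mod2aDeg J γ = ε * D.mod2aDeg J i.1 + ε * D.mod2aDeg J j.1 := by
      rw [mod2a_add J hγ, mul_add]
    exact Submodule.subset_span ⟨⟨γ, by linarith⟩, h1, rfl⟩

theorem mod2a_res (J : Finset D.Δ) (S : LRep K (D.g K)) (b : (D.levi J).B) :
    (S.res (D.leviHom J K)).ρ ((D.levi J).bv K b) = S.ρ (D.bv K (D.leviB J b)) :=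
  congrArg S.ρ (D.leviHom_bv J K b)

theorem mod2a_stable_levi (J : Finset D.Δ) (S : LRep K (D.g K)) (N : Submodule K S.M)
    (h1 : ∀ a, ∀ m ∈ N, S.ρ (D.h K a) m ∈ N)
    (h2 : ∀ β, D.mod2aDeg J β = 0 → ∀ m ∈ N, S.ρ (D.e K β) m ∈ N) :
    (S.res (D.leviHom J K)).Stable N := by
  refine mod2a_stable (D := D.levi J) _ _ fun b m hm => ?_
  rw [mod2a_res]
  rcases b with a | α
  · exact h1 a m hm
  · exact h2 α.1 ((mod2a_in J _).1 α.2) m hm

/-- a simple module for the Levi subalgebra at the top of a module -/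
structure Mod2aTop (J : Finset D.Δ) (S : LRep K (D.g K)) (E : LRep K ((D.levi J).g K))
    (j : E.M →ₗ[K] S.M) : Prop where
  hom : E.IsHom (S.res (D.leviHom J K)) j
  ne : j ≠ 0
  top : ∀ β, 0 < D.mod2aDeg J β → ∀ v, S.ρ (D.e K β) (j v) = 0

theorem mod2a_exists (J : Finset D.Δ) {χ : D.B → K} (hχ : D.Std χ)
    (hJ : ∀ β, χ (.inr β) ≠ 0 → D.In J β) {μ : D.σ → ℤ} (T : Finset (D.σ → ℤ))
    (hT : ∀ ν, D.Link p μ ν → ∃ t ∈ T, (D.levi J).Link p t ν) {S : LRep K (D.g K)}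
    (hS : D.Adm p χ μ S) : ∃ (E : LRep K ((D.levi J).g K)) (j : E.M →ₗ[K] S.M),
      Mod2aTop J S E j ∧ ∃ t ∈ T, (D.levi J).Adm p (D.leviχ J χ) t E := by
  have := hS.fd
  have := hS.simple.1
  let N₀ : Submodule K S.M :=
    ⨅ β : {β // 0 < D.mod2aDeg J β}, LinearMap.ker (S.ρ (D.e K β.1))
  have hmem : ∀ m, m ∈ N₀ ↔ ∀ β, 0 < D.mod2aDeg J β → S.ρ (D.e K β) m = 0 := fun m => by
    simp only [N₀, Submodule.mem_iInf, LinearMap.mem_ker, Subtype.forall]
  have hne : N₀ ≠ ⊥ := by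
    obtain ⟨v, -, hv0, hv⟩ := nil_ker (fun i : {β // 0 < 1 * D.mod2aDeg J β} => S.ρ (D.e K i.1))
      (fun i => 1 * D.mod2aDeg J i.1) (fun i => i.2) (mod2a_hbr J S 1)
      (fun i => mod2a_nil hS.pc (by
        by_contra hc
        have h1 := (mod2a_in J _).1 (hJ _ hc)
        have h2 := i.2
        omega)) ⊤ top_ne_bot (fun _ _ _ => trivial)
    exact (Submodule.ne_bot_iff _).2 ⟨v, (hmem v).2 fun β hβ => hv ⟨β, by omega⟩, hv0⟩
  have hst : (S.res (D.leviHom J K)).Stable N₀ := by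
    refine mod2a_stable_levi J S N₀ (fun a m hm => (hmem _).2 fun β hβ => ?_)
      fun α hα m hm => (hmem _).2 fun β hβ => ?_
    · have h0 := (hmem m).1 hm
      rw [S.comm_apply, h0 β hβ, map_zero, zero_add, ← lie_skew, D.lie_h_e,
        map_neg, map_smul, LinearMap.neg_apply, LinearMap.smul_apply, h0 β hβ,
        smul_zero, neg_zero]
    · have h0 := (hmem m).1 hm
      rw [S.comm_apply, h0 β hβ, map_zero, zero_add]
      refine (Submodule.mem_bot K).1 (mod2a_br' S (fun h => ?_) ⊥ m fun γ hγ => ?_)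
      · rw [h, mod2a_neg] at hα
        omega
      · have := mod2a_add J hγ
        exact h0 γ (by omega)
  obtain ⟨N, hle, hN, hsim⟩ := (S.res (D.leviHom J K)).exists_simple N₀ hst inferInstance hne
  have hN0 : N ≠ ⊥ := Submodule.nontrivial_iff_ne_bot.1 hsim.1
  have hom := (S.res (D.leviHom J K)).sub_hom N hN
  obtain ⟨ν, v, hv, hv0, hw⟩ := exists_hw_mem hχ hS.pc N hN0 (fun β hβ m hm => by
    rcases (mod2a_nonneg J hβ).eq_or_lt with h | h
    · have := hN ((D.levi J).bv K (.inr ⟨β, (mod2a_in J β).2 h.symm⟩)) m hm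
      rw [mod2a_res] at this
      exact this
    · rw [(hmem m).1 (hle hm) β h]
      exact N.zero_mem) (fun a m hm => by
    have := hN ((D.levi J).bv K (.inl a)) m hm
    rw [mod2a_res] at this
    exact this)
  obtain ⟨t, ht, hl⟩ := hT ν (hS.link ⟨v, hv0, hw⟩)
  refine ⟨(S.res (D.leviHom J K)).sub N hN, N.subtype, ⟨hom, fun h0 => hv0 (LinearMap.congr_fun h0 ⟨v, hv⟩),
    fun β hβ m => (hmem _).1 (hle m.2) β hβ⟩, t, ht,
    inferInstanceAs (FiniteDimensional K N), hsim, fun b => ?_, ν, hl, ⟨v, hv⟩,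
    fun h0 => hv0 (congrArg Subtype.val h0), fun β hβ => Subtype.ext ?_, fun a => Subtype.ext ?_⟩
  · refine LinearMap.ext fun m => Subtype.ext ?_
    have h1 := hom.pow ((D.levi J).bv K b) p m
    have h2 := LinearMap.congr_fun (hS.pc (D.leviB J b)) m.1
    have h4 : D.leviHom J K ((D.levi J).pmb K b) = D.pmb K (D.leviB J b) := by
      rcases b with a | α
      · exact D.leviHom_bv J K (.inl a)
      · exact map_zero _
    rw [mod2a_res] at h1
    refine h1.trans (h2.trans ?_)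
    rw [← h4]
    rfl
  · have h1 := LinearMap.congr_fun (mod2a_res J S (.inr β)) v
    exact h1.trans (hw.1 β.1 ((D.levi_pos J β).1 hβ))
  · have h1 := LinearMap.congr_fun (mod2a_res J S (.inl a)) v
    exact h1.trans (hw.2 a)

/-- the image of the opposite nilradical -/
def mod2aJ (J : Finset D.Δ) (S : LRep K (D.g K)) : Submodule K S.M :=
  Submodule.span K {a | ∃ β, D.mod2aDeg J β < 0 ∧ ∃ m, S.ρ (D.e K β) m = a}

theorem mod2aJ_mem {J : Finset D.Δ} (S : LRep K (D.g K)) {β : D.ι} (h : D.mod2aDeg J β < 0)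
    (m : S.M) : S.ρ (D.e K β) m ∈ mod2aJ J S := Submodule.subset_span ⟨β, h, m, rfl⟩

theorem mod2aJ_ne {J : Finset D.Δ} {χ : D.B → K} (hJ : ∀ β, χ (.inr β) ≠ 0 → D.In J β)
    {S : LRep K (D.g K)} (hS : D.PC p χ S) [Nontrivial S.M] : mod2aJ J S ≠ ⊤ := by
  intro h
  refine nil_coker (fun i : {β // 0 < -1 * D.mod2aDeg J β} => S.ρ (D.e K i.1))
    (fun i => -1 * D.mod2aDeg J i.1) (fun i => i.2) (mod2a_hbr J S (-1))
    (fun i => mod2a_nil hS (by
      by_contra hc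
      have h1 := (mod2a_in J _).1 (hJ _ hc)
      have h2 := i.2
      omega)) ⊤ top_ne_bot (fun _ _ _ => trivial) ?_
  rw [← h]
  refine Submodule.span_le.2 ?_
  rintro _ ⟨β, hβ, m, rfl⟩
  exact Submodule.mem_iSup_of_mem (⟨β, by omega⟩ : {β // 0 < -1 * D.mod2aDeg J β})
    ⟨m, h ▸ trivial, rfl⟩

theorem mod2aJ_map {J : Finset D.Δ} {R R' : LRep K (D.g K)} {f : R.M →ₗ[K] R'.M}
    (hf : R.IsHom R' f) {m : R.M} (hm : m ∈ mod2aJ J R) : f m ∈ mod2aJ J R' := by
  refine (Submodule.span_le (p := (mod2aJ J R').comap f)).2 ?_ hm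
  rintro _ ⟨β, hβ, m, rfl⟩
  exact Submodule.subset_span ⟨β, hβ, f m, (hf _ _).symm⟩

theorem mod2aJ_stable (J : Finset D.Δ) (R : LRep K (D.g K)) :
    (R.res (D.leviHom J K)).Stable (mod2aJ J R) := by
  refine mod2a_stable_levi J R _ (fun a m hm => ?_) fun α hα m hm => ?_
  · refine (Submodule.span_le (p := (mod2aJ J R).comap (R.ρ (D.h K a)))).2 ?_ hm
    rintro _ ⟨β, hβ, m, rfl⟩
    rw [SetLike.mem_coe, Submodule.mem_comap, R.comm_apply, D.lie_h_e, map_smul]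
    exact add_mem (mod2aJ_mem R hβ _) (Submodule.smul_mem _ _ (mod2aJ_mem R hβ _))
  · refine (Submodule.span_le (p := (mod2aJ J R).comap (R.ρ (D.e K α)))).2 ?_ hm
    rintro _ ⟨β, hβ, m, rfl⟩
    rw [SetLike.mem_coe, Submodule.mem_comap, R.comm_apply]
    refine add_mem (mod2aJ_mem R hβ _) (mod2a_br' R (fun h => ?_) _ m fun γ hγ => ?_)
    · rw [h, mod2a_neg] at hβ
      omega
    · have := mod2a_add J hγ
      exact mod2aJ_mem R (by omega) _

theorem Mod2aTop.gen {J : Finset D.Δ} {R : LRep K (D.g K)} {E : LRep K ((D.levi J).g K)}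
    {j : E.M →ₗ[K] R.M} (h : Mod2aTop J R E j) :
    ∃ N : Submodule K R.M, R.Stable N ∧ LinearMap.range j ≤ N ∧
      N ≤ LinearMap.range j ⊔ mod2aJ J R := by
  let N : Submodule K R.M := sInf {U | LinearMap.range j ≤ U ∧
    ∀ β, D.mod2aDeg J β < 0 → ∀ m ∈ U, R.ρ (D.e K β) m ∈ U}
  have h1 : LinearMap.range j ≤ N := le_sInf fun U hU => hU.1
  have h2 : ∀ β, D.mod2aDeg J β < 0 → ∀ m ∈ N, R.ρ (D.e K β) m ∈ N := fun y hy m hm =>
    Submodule.mem_sInf.2 fun U hU => hU.2 y hy m (Submodule.mem_sInf.1 hm U hU)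
  refine ⟨N, fun x m hm => ?_, h1,
    sInf_le ⟨le_sup_left, fun β hβ m _ => Submodule.mem_sup_right (mod2aJ_mem R hβ m)⟩⟩
  have : N ≤ N ⊓ ⨅ x, N.comap (R.ρ x) := by
    refine sInf_le ⟨le_inf h1 (le_iInf fun x => ?_), fun y hy m hm => ⟨h2 y hy m hm.1, ?_⟩⟩
    · rintro _ ⟨v, rfl⟩
      refine D.span_bv (N.comap (LinearMap.applyₗ (j v) ∘ₗ R.ρ.toLinearMap)) (fun b => ?_) x
      change R.ρ (D.bv K b) (j v) ∈ N
      rcases b with a | β
      · have := h.hom ((D.levi J).bv K (.inl a)) v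
        rw [mod2a_res] at this
        exact h1 ⟨_, this⟩
      · rcases lt_trichotomy (D.mod2aDeg J β) 0 with hβ | hβ | hβ
        · exact h2 β hβ _ (h1 ⟨v, rfl⟩)
        · have := h.hom ((D.levi J).bv K (.inr ⟨β, (mod2a_in J β).2 hβ⟩)) v
          rw [mod2a_res] at this
          exact h1 ⟨_, this⟩
        · rw [h.top β hβ v]
          exact N.zero_mem
    · have h3 := (Submodule.mem_iInf _).1 hm.2
      refine (Submodule.mem_iInf _).2 fun x => ?_
      rw [Submodule.mem_comap, R.comm_apply]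
      exact add_mem (h2 y hy _ (h3 x)) (h3 _)
  exact (Submodule.mem_iInf _).1 (this hm).2 x

theorem mod2a_iso {J : Finset D.Δ} {χ : D.B → K} (hχ : ∀ β, χ (.inr β) ≠ 0 → D.In J β)
    {μ : D.σ → ℤ} {R R' : LRep K (D.g K)} (hR : D.Adm p χ μ R) (hR' : D.Adm p χ μ R')
    {E : LRep K ((D.levi J).g K)} (hE : E.Simple) {j : E.M →ₗ[K] R.M} {j' : E.M →ₗ[K] R'.M}
    (h : Mod2aTop J R E j) (h' : Mod2aTop J R' E j') : R.Iso R' := by
  have := hR.simple.1
  have := hR'.simple.1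
  have hJ := mod2aJ_ne hχ hR.pc
  have hJ' := mod2aJ_ne hχ hR'.pc
  have hw : Mod2aTop J (R.prod R') E (j.prod j') :=
    ⟨fun x v => Prod.ext (h.hom x v) (h'.hom x v),
      fun h0 => h.ne (LinearMap.ext fun v => congrArg Prod.fst (LinearMap.congr_fun h0 v)),
      fun β hβ v => Prod.ext (h.top β hβ v) (h'.top β hβ v)⟩
  obtain ⟨N, hD, hD1, hD2⟩ := hw.gen
  have p1 : (R.prod R').IsHom R (LinearMap.fst K R.M R'.M) := fun _ _ => rfl
  have p2 : (R.prod R').IsHom R' (LinearMap.snd K R.M R'.M) := fun _ _ => rfl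
  have i2 : R'.IsHom (R.prod R') (LinearMap.inr K R.M R'.M) :=
    fun x m => Prod.ext (map_zero (R.ρ x)).symm rfl
  have hinc := (R.prod R').sub_hom N hD
  have q1 := p1.comp hinc
  have q2 := p2.comp hinc
  have s1 : LinearMap.range (LinearMap.fst K R.M R'.M ∘ₗ N.subtype) = ⊤ := by
    refine (hR.simple.2 _ q1.range).resolve_left fun h0 => h.ne (LinearMap.ext fun v => ?_)
    exact (Submodule.eq_bot_iff _).1 h0 _ ⟨⟨_, hD1 ⟨v, rfl⟩⟩, rfl⟩
  have hEJ : ∀ v, j v ∈ mod2aJ J R → v = 0 := by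
    have hs : E.Stable ((mod2aJ J R).comap j) := fun x v hv => by
      rw [Submodule.mem_comap, h.hom]; exact mod2aJ_stable J R x _ hv
    rcases hE.2 _ hs with h0 | h0
    · exact fun v hv => (Submodule.eq_bot_iff _).1 h0 v hv
    · refine absurd (eq_top_iff.2 fun m _ => ?_) hJ
      obtain ⟨a, rfl⟩ := LinearMap.range_eq_top.1 s1 m
      obtain ⟨_, ⟨v, rfl⟩, b, hb, hab⟩ := Submodule.mem_sup.1 (hD2 a.2)
      have : j v + b.1 = a.1.1 := congrArg Prod.fst hab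
      change a.1.1 ∈ _
      rw [← this]
      exact add_mem (show v ∈ (mod2aJ J R).comap j from h0 ▸ trivial) (mod2aJ_map p1 hb)
  have hker : ∀ m', (0, m') ∈ N → m' = 0 := by
    have hs : R'.Stable (N.comap (LinearMap.inr K R.M R'.M)) := fun x m hm =>
      (congrArg (· ∈ N) (i2 x m)).mpr (hD x _ hm)
    rcases hR'.simple.2 _ hs with h0 | h0
    · exact fun v hv => (Submodule.eq_bot_iff _).1 h0 v hv
    · refine absurd (eq_top_iff.2 fun m _ => ?_) hJ'
      obtain ⟨_, ⟨v, rfl⟩, b, hb, hab⟩ := Submodule.mem_sup.1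
        (hD2 (show m ∈ N.comap (LinearMap.inr K R.M R'.M) from h0 ▸ trivial))
      have a1 : j v + b.1 = 0 := congrArg Prod.fst hab
      have a2 : j' v + b.2 = m := congrArg Prod.snd hab
      have a3 : v = 0 := hEJ v (eq_neg_of_add_eq_zero_left a1 ▸ neg_mem (mod2aJ_map p1 hb))
      rw [← a2, a3, map_zero, zero_add]
      exact mod2aJ_map p2 hb
  have hbij : Function.Bijective (LinearMap.fst K R.M R'.M ∘ₗ N.subtype) :=
    ⟨(injective_iff_map_eq_zero _).2 fun a ha => Subtype.ext (Prod.ext ha (hker _ (by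
      have : ((0 : R.M), a.1.2) = a.1 := Prod.ext ha.symm rfl
      rw [this]; exact a.2))), LinearMap.range_eq_top.1 s1⟩
  let f := LinearEquiv.ofBijective _ hbij
  refine LRep.iso_of_hom hR.simple hR'.simple
    (f := (LinearMap.snd K R.M R'.M ∘ₗ N.subtype) ∘ₗ f.symm.toLinearMap) (q2.comp fun x m => ?_)
    fun h0 => h'.ne (LinearMap.ext fun v => ?_)
  · apply f.injective
    exact (f.apply_symm_apply _).trans
      ((congrArg (R.ρ x) (f.apply_symm_apply m)).symm.trans (q1 x (f.symm m)).symm)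
  · have := LinearMap.congr_fun h0 (f ⟨_, hD1 ⟨v, rfl⟩⟩)
    exact (congrArg (LinearMap.snd K R.M R'.M ∘ₗ N.subtype) (f.symm_apply_apply _)).symm.trans this

theorem t1 (J : Finset D.Δ) {χ : D.B → K} (hχ : D.Std χ) (hJ : ∀ β, χ (.inr β) ≠ 0 → D.In J β)
    {μ : D.σ → ℤ} {n : ℕ} (T : Finset (D.σ → ℤ))
    (hT : ∀ ν, D.Link p μ ν → ∃ t ∈ T, (D.levi J).Link p t ν)
    (h : ∀ t ∈ T, (D.levi J).BndAt p (D.leviχ J χ) t n) : D.BndAt p χ μ (T.card * n) := by
  classical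
  intro A _ S hS hiso
  choose E j htop t ht hE using fun a => mod2a_exists J hχ hJ T hT (hS a)
  refine (Finset.card_le_mul_card_image_of_maps_to (s := Finset.univ) (fun a _ => ht a) n
    fun X hX => ?_).trans (by rw [mul_comm])
  rw [← Fintype.card_coe]
  refine h X hX _ (fun a => E a.1) (fun a => ?_) fun a a' hi => Subtype.ext (hiso _ _ ?_)
  · have h1 := hE a.1
    rw [(Finset.mem_filter.1 a.2).2] at h1
    exact h1
  obtain ⟨g, hg⟩ := hi
  refine mod2a_iso hJ (hS _) (hS _) (hE a.1).simple (htop a.1) (j' := j a'.1 ∘ₗ g.toLinearMap)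
    ⟨(htop a'.1).hom.comp hg, fun h0 => (htop a'.1).ne ?_, fun β hβ v => (htop a'.1).top β hβ _⟩
  ext v
  obtain ⟨v, rfl⟩ := g.surjective v
  exact LinearMap.congr_fun h0 v

theorem Sav.of_levi (J : Finset D.Δ) {χ : D.B → K} (hχ : D.Std χ)
    (hJ : ∀ β, χ (.inr β) ≠ 0 → D.In J β) {s : ℕ} (h : (D.levi J).Sav p (D.leviχ J χ) s) :
    D.Sav p χ s := by
  intro μ
  obtain ⟨T, hT, hc⟩ := D.exists_reps J p μ
  exact (t1 J hχ hJ T hT fun t _ => h t).mono
    ((Nat.mul_div_le_mul_div_assoc _ _ _).trans (Nat.div_le_div_right hc))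

end CD

end Pool.Agent.P.Bf04
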