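import Pool.Agent.P.MP_bf0464_al.Heis

/-! The free module over the enveloping algebra of a nilpotent Lie algebra with ordered basis. -/

namespace Pool.Agent.P.Bf04

open Module

variable {k : Type*} [Field k] {I : Type} [Fintype I] [LinearOrder I]

/-- structure constants together with the regular representation -/
structure Neg (k : Type*) [Field k] (I : Type) [Fintype I] [LinearOrder I] where
  γ : I → I → I → k
  lt : ∀ i j l, γ i j l ≠ 0 → l < i ∧ l < j
  Y : I → End k (Multiset I →₀ k)
  lie : ∀ i j, Y i * Y j - Y j * Y i = ∑ l, γ i j l • Y l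
  ord : ∀ i (s : Multiset I), (∀ j ∈ s, i ≤ j) → Y i (Finsupp.single s 1) = Finsupp.single (i ::ₘ s) 1
  low : ∀ i (s : Multiset I), Y i (Finsupp.single s 1) - Finsupp.single (i ::ₘ s) 1
    ∈ Finsupp.supported k k {t : Multiset I | t.card ≤ s.card}

omit [Fintype I] in
theorem straighten {P : I → Multiset I → Prop} (h0 : ∀ i s, (∀ j ∈ s, i ≤ j) → P i s)
    (h1 : ∀ i a t, a < i → (∀ b ∈ t, a ≤ b) → (∀ l u, u.card ≤ t.card → P l u) → P i (a ::ₘ t))
    (i : I) (s : Multiset I) : P i s := by
  have key : ∀ n, ∀ l (u : Multiset I), u.card ≤ n → P l u := by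
    intro n
    induction n with
    | zero => intro l u hu; rw [Multiset.card_eq_zero.1 (Nat.le_zero.1 hu)]; exact h0 _ _ (by simp)
    | succ n ih =>
      intro l u hu
      rcases Multiset.empty_or_exists_mem u with rfl | hne
      · exact h0 _ _ (by simp)
      obtain ⟨a, ha, hmin⟩ := Multiset.exists_min_image id (s := u) (by rintro rfl; simp at hne)
      obtain ⟨t, rfl⟩ := Multiset.exists_cons_of_mem ha
      rcases le_or_gt l a with h | h
      · exact h0 _ _ fun j hj => h.trans (hmin j hj)
      · exact h1 l a t h (fun b hb => hmin b (Multiset.mem_cons_of_mem hb)) fun l' u' hu' =>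
          ih l' u' (by simp at hu; omega)
  exact key _ i s le_rfl

namespace Neg

variable (H : Neg k I) (E : Type*) [AddCommGroup E] [Module k E]

/-- tensoring with a vector -/
noncomputable def tv (v : E) : (Multiset I →₀ k) →ₗ[k] (Multiset I →₀ E) :=
  Finsupp.mapRange.linearMap (LinearMap.toSpanSingleton k E v)

/-- left multiplication by the generators -/
noncomputable def Yo (i : I) : End k (Multiset I →₀ E) :=
  Finsupp.lsum k fun s => Finsupp.linearCombination k (fun t => Finsupp.lsingle t)
    (H.Y i (Finsupp.single s 1))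

variable {E}

omit [Fintype I] [LinearOrder I] in
theorem tv_single (v : E) (s : Multiset I) (c : k) :
    tv E v (Finsupp.single s c) = Finsupp.single s (c • v) := by simp [tv]

theorem Yo_single (i : I) (s : Multiset I) (v : E) :
    H.Yo E i (Finsupp.single s v) = tv E v (H.Y i (Finsupp.single s 1)) := by
  rw [Yo, Finsupp.lsum_single]
  induction H.Y i (Finsupp.single s 1) using Finsupp.induction_linear with
  | zero => simp
  | add a b ha hb => simp only [map_add, LinearMap.add_apply, ha, hb]
  | single t c => simp [tv_single]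

theorem Yo_tv (i : I) (v : E) (a : Multiset I →₀ k) : H.Yo E i (tv E v a) = tv E v (H.Y i a) := by
  induction a using Finsupp.induction_linear with
  | zero => simp
  | add a b ha hb => simp only [map_add, ha, hb]
  | single t c =>
    rw [tv_single, ← Finsupp.smul_single, map_smul, Yo_single, ← map_smul, ← map_smul]; simp

theorem Yo_lie (i j : I) :
    H.Yo E i * H.Yo E j - H.Yo E j * H.Yo E i = ∑ l, H.γ i j l • H.Yo E l := by
  refine Finsupp.lhom_ext fun s v => ?_
  have := congrArg (tv E v) (LinearMap.congr_fun (H.lie i j) (Finsupp.single s 1))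
  simpa [LinearMap.sum_apply, Yo_single, Yo_tv] using this

theorem Yo_ord {i : I} {s : Multiset I} (h : ∀ j ∈ s, i ≤ j) (v : E) :
    H.Yo E i (Finsupp.single s v) = Finsupp.single (i ::ₘ s) v := by
  rw [Yo_single, H.ord i s h, tv_single, one_smul]

theorem Yo_zero (i : I) (v : E) :
    H.Yo E i (Finsupp.single 0 v) = Finsupp.single {i} v := H.Yo_ord (by simp) v

omit [Fintype I] [LinearOrder I] in
theorem tv_mem {S : Set (Multiset I)} {a : Multiset I →₀ k} (h : a ∈ Finsupp.supported k k S)
    (v : E) : tv E v a ∈ Finsupp.supported E k S :=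
  (Finsupp.mem_supported' k _).2 fun s hs => by simp [tv, (Finsupp.mem_supported' k _).1 h s hs]

theorem Yo_low (i : I) (s : Multiset I) (v : E) :
    H.Yo E i (Finsupp.single s v) - Finsupp.single (i ::ₘ s) v
      ∈ Finsupp.supported E k {t : Multiset I | t.card ≤ s.card} := by
  have := tv_mem (H.low i s) v
  rwa [map_sub, tv_single, one_smul, ← Yo_single] at this

omit [Fintype I] [LinearOrder I] in
theorem supp_le {S : Set (Multiset I)} {U : Submodule k (Multiset I →₀ E)}
    (h : ∀ s ∈ S, ∀ v, Finsupp.single s v ∈ U) : Finsupp.supported E k S ≤ U := fun a ha => by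
  rw [← Finsupp.sum_single a]
  exact Submodule.sum_mem _ fun s hs => h s (ha hs) _

theorem Yo_step {i a : I} {t : Multiset I} (h : a < i) (ht : ∀ b ∈ t, a ≤ b) (v : E) :
    H.Yo E i (Finsupp.single (a ::ₘ t) v) = Finsupp.single (i ::ₘ a ::ₘ t) v
      + H.Yo E a (H.Yo E i (Finsupp.single t v) - Finsupp.single (i ::ₘ t) v)
      + ∑ l, H.γ i a l • H.Yo E l (Finsupp.single t v) := by
  have h1 := LinearMap.congr_fun (H.Yo_lie (E := E) i a) (Finsupp.single t v)
  simp only [LinearMap.sub_apply, End.mul_apply, LinearMap.sum_apply, LinearMap.smul_apply] at h1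
  have h2 : H.Yo E a (Finsupp.single (i ::ₘ t) v) = Finsupp.single (a ::ₘ i ::ₘ t) v :=
    H.Yo_ord (fun j hj => by
      rcases Multiset.mem_cons.1 hj with rfl | hj
      exacts [h.le, ht j hj]) v
  rw [← h1, map_sub, h2, H.Yo_ord ht, Multiset.cons_swap]; abel

theorem Yo_mem_lt (j : I → Prop) (hj : ∀ a b, a < b → j b → j a) {i : I} (hi : j i)
    (a : Multiset I →₀ E) : H.Yo E i a ∈ Finsupp.supported E k {s : Multiset I | ∃ i ∈ s, j i} := by
  have key : ∀ i s, j i → ∀ v : E, H.Yo E i (Finsupp.single s v)
      ∈ Finsupp.supported E k {s : Multiset I | ∃ i ∈ s, j i} := by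
    refine straighten (fun i s h hi v => ?_) fun i a t h ht ih hi v => ?_
    · rw [H.Yo_ord h]
      exact Finsupp.single_mem_supported k _ ⟨i, Multiset.mem_cons_self _ _, hi⟩
    · rw [H.Yo_step h ht]
      refine add_mem (add_mem (Finsupp.single_mem_supported k _
        ⟨i, Multiset.mem_cons_self _ _, hi⟩) ?_) (Submodule.sum_mem _ fun l _ => ?_)
      · exact Submodule.mem_comap.1 (supp_le (fun u hu w =>
          Submodule.mem_comap.2 (ih a u hu (hj _ _ h hi) w)) (H.Yo_low i t v))
      · by_cases hγ : H.γ i a l = 0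
        · simp [hγ]
        · exact Submodule.smul_mem _ _ (ih l t le_rfl (hj _ _ (H.lt _ _ _ hγ).1 hi) v)
  induction a using Finsupp.induction_linear with
  | zero => simp
  | add a b ha hb => rw [map_add]; exact add_mem ha hb
  | single s v => exact key i s hi v

theorem Yo_deg {A : Type*} [AddCommMonoid A] (δ : I → A)
    (hδ : ∀ i j l, H.γ i j l ≠ 0 → δ l = δ i + δ j) (i : I) (s : Multiset I) :
    H.Y i (Finsupp.single s 1)
      ∈ Finsupp.supported k k {t : Multiset I | (t.map δ).sum = δ i + (s.map δ).sum} := by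
  have hY : ∀ i s, H.Yo k i (Finsupp.single s 1) = H.Y i (Finsupp.single s 1) := fun i s => by
    rw [Yo_single]; ext t; simp [tv]
  rw [← hY]
  refine straighten (P := fun i s => ∀ v : k, H.Yo k i (Finsupp.single s v)
    ∈ Finsupp.supported k k {t : Multiset I | (t.map δ).sum = δ i + (s.map δ).sum})
    (fun i s h v => ?_) (fun i a t h ht ih v => ?_) i s 1
  · rw [H.Yo_ord h]; exact Finsupp.single_mem_supported k _ (by simp)
  · rw [H.Yo_step h ht]
    refine add_mem (add_mem (Finsupp.single_mem_supported k _ (by simp)) ?_)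
      (Submodule.sum_mem _ fun l _ => ?_)
    · have h1 : H.Yo k i (Finsupp.single t v) - Finsupp.single (i ::ₘ t) v ∈ Finsupp.supported k k
          ({u : Multiset I | u.card ≤ t.card} ∩ {u | (u.map δ).sum = δ i + (t.map δ).sum}) := by
        rw [Finsupp.supported_inter]
        exact ⟨H.Yo_low i t v, sub_mem (ih i t le_rfl v)
          (Finsupp.single_mem_supported k _ (by simp))⟩
      refine Submodule.mem_comap.1 (supp_le (fun u hu w => Submodule.mem_comap.2 ?_) h1)
      have := ih a u hu.1 w
      rw [hu.2] at this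
      simpa [add_left_comm] using this
    · by_cases hγ : H.γ i a l = 0
      · simp [hγ]
      · have := ih l t le_rfl v
        rw [hδ _ _ _ hγ] at this
        exact Submodule.smul_mem _ _ (by simpa [add_assoc] using this)

theorem gen_top (U : Submodule k (Multiset I →₀ E)) (h0 : ∀ v, Finsupp.single 0 v ∈ U)
    (hY : ∀ i, ∀ a ∈ U, H.Yo E i a ∈ U) (a : Multiset I →₀ E) : a ∈ U := by
  have key : ∀ (s : Multiset I) v, Finsupp.single s v ∈ U := by
    intro s
    induction s using multiset_min_induction with
    | h0 => exact h0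
    | h a s h ih => intro v; rw [← H.Yo_ord h]; exact hY _ _ (ih v)
  exact supp_le (S := Set.univ) (fun s _ => key s) (by simp)

theorem univ_Yo {M : Type*} [AddCommGroup M] [Module k M] (W : I → End k M)
    (hW : ∀ i j, W i * W j - W j * W i = ∑ l, H.γ i j l • W l)
    (f : E →ₗ[k] M) (i : I) (a : Multiset I →₀ E) :
    Heis.univ W f (H.Yo E i a) = W i (Heis.univ W f a) := by
  have hu : ∀ s v, Heis.univ W f (Finsupp.single s v) = Heis.mon W s (f v) := fun s v => by
    simp [Heis.univ]
  have key : ∀ i s, ∀ v : E, Heis.univ W f (H.Yo E i (Finsupp.single s v))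
      = W i (Heis.univ W f (Finsupp.single s v)) := by
    refine straighten (fun i s h v => ?_) fun i a t h ht ih v => ?_
    · rw [H.Yo_ord h, hu, hu, Heis.mon_cons W h]; rfl
    · have h1 := supp_le (U := LinearMap.eqLocus (Heis.univ W f ∘ₗ H.Yo E a) (W a ∘ₗ Heis.univ W f))
        (fun u hu w => ih a u hu w) (H.Yo_low i t v)
      have h2 := LinearMap.congr_fun (hW i a) (Heis.mon W t (f v))
      have h3 : Heis.mon W (i ::ₘ a ::ₘ t) = W a * Heis.mon W (i ::ₘ t) := by
        rw [Multiset.cons_swap]
        refine Heis.mon_cons W fun c hc => ?_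
        rcases Multiset.mem_cons.1 hc with rfl | hc
        exacts [h.le, ht c hc]
      rw [LinearMap.mem_eqLocus, LinearMap.comp_apply, LinearMap.comp_apply] at h1
      simp only [LinearMap.sub_apply, End.mul_apply, LinearMap.sum_apply,
        LinearMap.smul_apply] at h2
      rw [H.Yo_step h ht, map_add, map_add, h1, map_sum]
      simp only [map_smul, ih _ t le_rfl, map_sub, hu, h3, Heis.mon_cons W ht, End.mul_apply, ← h2]
      abel
  induction a using Finsupp.induction_linear with
  | zero => simp
  | add a b ha hb => simp only [map_add, ha, hb]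
  | single s v => exact key i s v

end Neg

end Pool.Agent.P.Bf04
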