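import Pool.Agent.P.MP_bf0464_al.H.RootA

/-! Root strings, words, dominance. -/

namespace Pool.Agent.P.Bf04

open Matrix

namespace RD

variable (D : RD)

theorem root_form (β α : D.ι) :
    ∑ i, ∑ j, D.co β i * D.co α j * (D.A i j * D.len (D.s j)) = D.pr α β * D.len β := by
  rw [Finset.sum_comm, D.pr_eq_co α β, Finset.sum_mul]
  refine Finset.sum_congr rfl fun j _ => ?_
  rw [mul_assoc, ← D.pr_len (D.s j) β, D.pr_s, Finset.sum_mul, Finset.mul_sum]
  refine Finset.sum_congr rfl fun i _ => ?_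
  ring

theorem pr_mul {α β : D.ι} (h : β ≠ α) (h' : β ≠ D.neg α) :
    0 ≤ D.pr β α * D.pr α β ∧ D.pr β α * D.pr α β ≤ 3 := by
  have hα := D.len_pos α
  have hβ := D.len_pos β
  have hl := D.pr_len α β
  refine ⟨?_, ?_⟩
  · have h1 : D.pr β α * D.pr α β * D.len β = D.pr β α * D.pr β α * D.len α := by
      rw [mul_assoc, ← hl]; ring
    have h2 : 0 ≤ D.pr β α * D.pr α β * D.len β := by
      rw [h1]; exact mul_nonneg (mul_self_nonneg _) hα.le
    exact nonneg_of_mul_nonneg_left h2 hβ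
  · have hx : (fun i => 2 * D.co β i - D.pr β α * D.co α i) ≠ 0 := by
      intro hx
      have h2 : (2 : ℤ) • D.co β = D.pr β α • D.co α := by
        funext i
        have := congrFun hx i
        simp only [Pi.zero_apply] at this
        simp only [Pi.smul_apply, smul_eq_mul]
        linarith
      rcases D.red' two_ne_zero h2 with h3 | h3
      · exact h h3
      · exact h' h3
    have hp := D.posdef _ hx
    have he : ∑ i, ∑ j, (2 * D.co β i - D.pr β α * D.co α i) *
          (2 * D.co β j - D.pr β α * D.co α j) * (D.A i j * D.len (D.s j)) =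
        4 * ∑ i, ∑ j, D.co β i * D.co β j * (D.A i j * D.len (D.s j))
        - 2 * D.pr β α * ∑ i, ∑ j, D.co β i * D.co α j * (D.A i j * D.len (D.s j))
        - 2 * D.pr β α * ∑ i, ∑ j, D.co α i * D.co β j * (D.A i j * D.len (D.s j))
        + D.pr β α * D.pr β α * ∑ i, ∑ j, D.co α i * D.co α j * (D.A i j * D.len (D.s j)) := by
      simp only [Finset.mul_sum, ← Finset.sum_sub_distrib, ← Finset.sum_add_distrib]
      refine Finset.sum_congr rfl fun i _ => Finset.sum_congr rfl fun j _ => ?_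
      ring
    rw [he, D.root_form, D.root_form, D.root_form, D.root_form, D.pr_self, D.pr_self] at hp
    have h4 : 0 < (4 - D.pr β α * D.pr α β) * D.len β := by nlinarith
    have h5 := (mul_pos_iff_of_pos_right hβ).1 h4
    omega

theorem pr_zero_iff (α β : D.ι) : D.pr β α = 0 ↔ D.pr α β = 0 := by
  have hα := D.len_pos α
  have hβ := D.len_pos β
  have hl := D.pr_len α β
  constructor
  · intro h
    rw [h, zero_mul] at hl
    exact (mul_eq_zero.1 hl.symm).resolve_right hβ.ne'
  · intro h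
    rw [h, zero_mul] at hl
    exact (mul_eq_zero.1 hl).resolve_right hα.ne'

theorem pr_pos_iff (α β : D.ι) : 0 < D.pr β α ↔ 0 < D.pr α β := by
  have hα := D.len_pos α
  have hβ := D.len_pos β
  have hl := D.pr_len α β
  constructor
  · intro h
    have : 0 < D.pr α β * D.len β := hl ▸ mul_pos h hα
    exact (mul_pos_iff_of_pos_right hβ).1 this
  · intro h
    have : 0 < D.pr β α * D.len α := hl.symm ▸ mul_pos h hβ
    exact (mul_pos_iff_of_pos_right hα).1 this

theorem root_pr_neg_iff (α β : D.ι) : D.pr β α < 0 ↔ D.pr α β < 0 := by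
  have h1 := D.pr_zero_iff α β
  have h2 := D.pr_pos_iff α β
  omega

theorem root_pr_add {α β γ : D.ι} {n : ℤ} (h : D.co γ = D.co β + n • D.co α) (δ : D.ι) :
    D.pr γ δ = D.pr β δ + n * D.pr α δ := by
  rw [D.pr_eq_co γ, D.pr_eq_co β, D.pr_eq_co α, h, Finset.mul_sum, ← Finset.sum_add_distrib]
  refine Finset.sum_congr rfl fun i _ => ?_
  simp only [Pi.add_apply, Pi.smul_apply, smul_eq_mul]
  ring

theorem root_pr_bound (α β : D.ι) : -3 ≤ D.pr β α ∧ D.pr β α ≤ 3 := by
  by_cases h : β = α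
  · rw [h, D.pr_self]; omega
  by_cases h' : β = D.neg α
  · rw [h', D.pr_neg_left, D.pr_self]; omega
  have h1 := (D.pr_mul h h').2
  have h2 := D.pr_pos_iff α β
  have h3 := D.root_pr_neg_iff α β
  constructor
  · by_contra hc
    have h4 : D.pr α β ≤ -1 := by omega
    have h5 : D.pr β α ≤ -4 := by omega
    nlinarith
  · by_contra hc
    have h4 : 1 ≤ D.pr α β := by omega
    have h5 : 4 ≤ D.pr β α := by omega
    nlinarith

theorem add_root {α β : D.ι} (h : D.pr β α < 0) (h' : β ≠ D.neg α) :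
    ∃ γ, D.co γ = D.co β + D.co α := by
  have h0 : β ≠ α := by
    rintro rfl
    rw [D.pr_self] at h
    omega
  have h1 := (D.pr_mul h0 h').2
  have h2 := (D.root_pr_neg_iff α β).1 h
  by_cases ha : D.pr β α = -1
  · exact ⟨D.rf α β, by rw [D.co_rf, ha]; simp⟩
  by_cases hb : D.pr α β = -1
  · exact ⟨D.rf β α, by rw [D.co_rf, hb]; simp [add_comm]⟩
  exfalso
  have h3 : D.pr β α ≤ -2 := by omega
  have h4 : D.pr α β ≤ -2 := by omega
  nlinarith

theorem sub_root {α β : D.ι} (h : 0 < D.pr β α) (h' : β ≠ α) :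
    ∃ γ, D.co γ = D.co β - D.co α := by
  have h1 : D.pr β (D.neg α) < 0 := by rw [D.pr_neg_right]; omega
  obtain ⟨γ, hγ⟩ := D.add_root h1 (by rw [D.neg_neg]; exact h')
  exact ⟨γ, by rw [hγ, D.co_neg, sub_eq_add_neg]⟩

theorem string {α β γ : D.ι} (h' : β ≠ D.neg α) {n m : ℕ}
    (h : D.co γ = D.co β + (n : ℤ) • D.co α) (hm : m ≤ n) :
    ∃ δ, D.co δ = D.co β + (m : ℤ) • D.co α := by
  induction n generalizing β γ m with
  | zero =>
    obtain rfl : m = 0 := by omega
    exact ⟨γ, h⟩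
  | succ n ih =>
    by_cases hp : D.pr β α < 0
    · rcases m with _ | m
      · exact ⟨β, by simp⟩
      obtain ⟨β', hβ'⟩ := D.add_root hp h'
      have hne : β' ≠ D.neg α := by
        rintro rfl
        rw [D.co_neg] at hβ'
        have h2 : (1 : ℤ) • D.co β = (-2 : ℤ) • D.co α := by
          funext i
          have := congrFun hβ' i
          simp only [Pi.add_apply, Pi.neg_apply] at this
          simp only [Pi.smul_apply, smul_eq_mul]
          linarith
        rcases D.red' one_ne_zero h2 with h3 | h3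
        · rw [h3, D.pr_self] at hp; omega
        · exact h' h3
      have h3 : D.co γ = D.co β' + (n : ℤ) • D.co α := by
        rw [h, hβ']; push_cast; module
      obtain ⟨δ, hδ⟩ := ih hne h3 (m := m) (by omega)
      exact ⟨δ, by rw [hδ, hβ']; push_cast; module⟩
    · by_cases hmn : m = n + 1
      · exact ⟨γ, by rw [h, hmn]⟩
      have h1 := D.root_pr_add h α
      rw [D.pr_self] at h1
      have hne : γ ≠ α := by
        rintro rfl
        have h2 : (1 : ℤ) • D.co β = (-(n : ℤ)) • D.co γ := by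
          funext i
          have := congrFun h i
          simp only [Pi.add_apply, Pi.smul_apply, smul_eq_mul] at this
          simp only [Pi.smul_apply, smul_eq_mul]
          push_cast at this
          linarith
        rcases D.red' one_ne_zero h2 with h3 | h3
        · rw [h3, D.pr_self] at h1; push_cast at h1; omega
        · exact h' h3
      obtain ⟨γ', hγ'⟩ := D.sub_root (α := α) (β := γ) (by push_cast at h1; omega) hne
      have h3 : D.co γ' = D.co β + (n : ℤ) • D.co α := by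
        rw [hγ', h]; push_cast; module
      exact ih h' h3 (by omega)

theorem string_le {α β γ : D.ι} {n : ℕ} (h : D.co γ = D.co β + (n : ℤ) • D.co α) : n ≤ 3 := by
  have h1 := D.root_pr_add h α
  rw [D.pr_self] at h1
  have h2 := D.root_pr_bound α β
  have h3 := D.root_pr_bound α γ
  omega

theorem A_diag (i : D.Δ) : D.A i i = 2 := D.pr_self _

theorem A_nonpos {i j : D.Δ} (h : i ≠ j) : D.A i j ≤ 0 := by
  by_contra hc
  have h1 : 0 < D.pr (D.s i) (D.s j) := lt_of_not_ge hc
  obtain ⟨γ, hγ⟩ := D.sub_root h1 (fun e => h (D.s_inj e))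
  rw [D.co_s, D.co_s] at hγ
  rcases D.sign γ with h2 | h2
  · have := h2 j
    rw [hγ] at this
    simp [Pi.single_eq_of_ne h.symm] at this
  · have := h2 i
    rw [hγ] at this
    simp [Pi.single_eq_of_ne h] at this

theorem pos_rf {β : D.ι} {i : D.Δ} (h : D.Pos β) (h' : β ≠ D.s i) : D.Pos (D.rf (D.s i) β) := by
  have h1 : ∃ j, j ≠ i ∧ D.co β j ≠ 0 := by
    by_contra hc
    push Not at hc
    have h2 : (1 : ℤ) • D.co β = D.co β i • D.co (D.s i) := by
      funext j
      rw [D.co_s]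
      by_cases hj : j = i
      · subst hj; simp
      · simp [hc j hj, Pi.single_eq_of_ne hj]
    rcases D.red' one_ne_zero h2 with h3 | h3
    · exact h' h3
    · rw [h3, D.pos_neg_iff] at h
      exact h (D.pos_s i)
  obtain ⟨j, hj, hj'⟩ := h1
  rcases D.sign (D.rf (D.s i) β) with h2 | h2
  · exact h2
  · exfalso
    have h3 := h2 j
    have h4 : 0 ≤ D.co β j := h j
    rw [D.co_rf, D.co_s] at h3
    simp only [Pi.sub_apply, Pi.smul_apply, Pi.single_eq_of_ne hj, smul_zero, sub_zero,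
      Pi.zero_apply] at h3
    omega

theorem exists_pr_pos {β : D.ι} (h : D.Pos β) : ∃ i, 0 < D.co β i ∧ 0 < D.pr β (D.s i) := by
  by_contra hc
  push Not at hc
  have h1 := D.pr_eq_co β β
  rw [D.pr_self] at h1
  have h2 : ∑ i, D.co β i * D.pr (D.s i) β ≤ 0 := by
    refine Finset.sum_nonpos fun i _ => ?_
    have h3 : 0 ≤ D.co β i := h i
    rcases h3.eq_or_lt with h4 | h4
    · rw [← h4, zero_mul]
    · have h5 := hc i h4
      have h6 := D.pr_pos_iff β (D.s i)
      exact mul_nonpos_of_nonneg_of_nonpos h3 (by omega)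
  omega

theorem exists_sub_s {β : D.ι} (h : D.Pos β) (h' : ∀ i, β ≠ D.s i) :
    ∃ i γ, D.Pos γ ∧ D.co β = D.co (D.s i) + D.co γ := by
  obtain ⟨i, hi, hi'⟩ := D.exists_pr_pos h
  obtain ⟨γ, hγ⟩ := D.sub_root hi' (h' i)
  refine ⟨i, γ, ?_, by rw [hγ]; abel⟩
  intro j
  have h3 : 0 ≤ D.co β j := h j
  rw [hγ, D.co_s]
  by_cases hj : j = i
  · subst hj
    simp only [Pi.zero_apply, Pi.sub_apply, Pi.single_eq_same]
    omega
  · simpa [Pi.single_eq_of_ne hj] using h3

/-- action of a word on the roots -/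
def rw (l : List D.Δ) (β : D.ι) : D.ι := l.foldr (fun i γ => D.rf (D.s i) γ) β

theorem root_rw_cons (i : D.Δ) (l : List D.Δ) (β : D.ι) :
    D.rw (i :: l) β = D.rf (D.s i) (D.rw l β) := rfl

theorem root_rw_snoc (l : List D.Δ) (i : D.Δ) (β : D.ι) :
    D.rw (l ++ [i]) β = D.rw l (D.rf (D.s i) β) := by
  simp [RD.rw, List.foldr_append]

theorem root_rw_neg (l : List D.Δ) (β : D.ι) : D.rw l (D.neg β) = D.neg (D.rw l β) := by
  induction l with
  | nil => rfl
  | cons i l ih => rw [root_rw_cons, root_rw_cons, ih, D.rf_neg]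

theorem root_ht_rf (i : D.Δ) (β : D.ι) :
    D.ht (D.rf (D.s i) β) = D.ht β - D.pr β (D.s i) := by
  have h := D.ht_s i
  unfold ht at h ⊢
  rw [D.co_rf]
  simp only [Pi.sub_apply, Pi.smul_apply, smul_eq_mul, Finset.sum_sub_distrib, ← Finset.mul_sum, h,
    mul_one]

theorem root_exists_rw_pos (n : ℕ) :
    ∀ β, D.Pos β → D.ht β ≤ n → ∃ l i, β = D.rw l (D.s i) := by
  induction n with
  | zero =>
    intro β h hn
    have := (D.pos_iff_ht β).1 h
    omega
  | succ n ih =>
    intro β h hn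
    obtain ⟨i, -, hi⟩ := D.exists_pr_pos h
    by_cases h' : β = D.s i
    · exact ⟨[], i, h'⟩
    have h1 := D.root_ht_rf i β
    obtain ⟨l, j, hl⟩ := ih _ (D.pos_rf h h') (by push_cast at hn; omega)
    exact ⟨i :: l, j, by rw [root_rw_cons, ← hl, D.rf_rf]⟩

theorem exists_rw (β : D.ι) : ∃ l i, β = D.rw l (D.s i) := by
  by_cases h : D.Pos β
  · exact D.root_exists_rw_pos (D.ht β).toNat β h (by omega)
  · obtain ⟨l, i, hl⟩ := D.root_exists_rw_pos (D.ht (D.neg β)).toNat (D.neg β)
      ((D.pos_neg_iff β).2 h) (by omega)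
    refine ⟨l ++ [i], i, ?_⟩
    rw [root_rw_snoc]
    change β = D.rw l (D.neg (D.s i))
    rw [root_rw_neg, ← hl, D.neg_neg]

theorem rw_bij (l : List D.Δ) : Function.Bijective (D.rw l) := by
  induction l with
  | nil => exact Function.bijective_id
  | cons i l ih =>
    exact (Function.Involutive.bijective (f := D.rf (D.s i)) (D.rf_rf (D.s i))).comp ih

theorem root_induction {P : D.ι → Prop} (h0 : ∀ i, P (D.s i))
    (h1 : ∀ i β, P β → P (D.rf (D.s i) β)) (β : D.ι) : P β := by
  obtain ⟨l, i, rfl⟩ := D.exists_rw β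
  induction l with
  | nil => exact h0 i
  | cons j l ih => exact h1 j _ ih

theorem cr_prim (β : D.ι) : ∃ x : D.σ → ℤ, x ⬝ᵥ D.cr β = 1 := by
  induction β using D.root_induction with
  | h0 i => exact ⟨D.ω i, by rw [D.ω_cr, if_pos rfl]⟩
  | h1 i β ih =>
    obtain ⟨x, hx⟩ := ih
    refine ⟨x - (x ⬝ᵥ D.cr (D.s i)) • D.rt (D.s i), ?_⟩
    rw [D.cr_rf]
    simp only [sub_dotProduct, dotProduct_sub, smul_dotProduct, dotProduct_smul, D.two, hx,
      smul_eq_mul]
    ring

theorem root_dg_rf {R : Type*} [CommRing R] (d : D.Δ → R) (α β : D.ι) :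
    D.dg d (D.rf α β) = D.dg d β - (D.pr β α : R) * D.dg d α := by
  unfold dg
  rw [D.co_rf, Finset.mul_sum, ← Finset.sum_sub_distrib]
  refine Finset.sum_congr rfl fun i _ => ?_
  simp only [Pi.sub_apply, Pi.smul_apply, smul_eq_mul]
  push_cast
  ring

theorem root_dg_s {R : Type*} [CommRing R] (d : D.Δ → R) (i : D.Δ) : D.dg d (D.s i) = d i := by
  unfold dg
  rw [D.co_s, Finset.sum_eq_single i]
  · simp
  · intro j _ hj
    simp [Pi.single_eq_of_ne hj]
  · simp

theorem root_dg_rd {R : Type*} [CommRing R] (α : D.ι) (d : D.Δ → R) (β : D.ι) :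
    D.dg (fun j => D.dg d (D.rf α (D.s j))) β = D.dg d (D.rf α β) := by
  rw [D.root_dg_rf d α β, D.pr_eq_co]
  conv_lhs => unfold dg
  conv_rhs => enter [1]; unfold dg
  push_cast
  rw [Finset.sum_mul, ← Finset.sum_sub_distrib]
  refine Finset.sum_congr rfl fun i _ => ?_
  change (D.co β i : R) * D.dg d (D.rf α (D.s i)) = _
  rw [D.root_dg_rf, D.root_dg_s]
  ring

theorem co_prim (β : D.ι) : ∃ d : D.Δ → ℤ, D.dg d β = 1 := by
  induction β using D.root_induction with
  | h0 i => exact ⟨fun _ => 1, D.root_dg_s _ i⟩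
  | h1 i β ih =>
    obtain ⟨d, hd⟩ := ih
    exact ⟨fun j => D.dg d (D.rf (D.s i) (D.s j)), by rw [D.root_dg_rd, D.rf_rf, hd]⟩

theorem orth_split (C : Finset D.Δ) (h : ∀ i ∈ C, ∀ j ∉ C, D.A i j = 0) (β : D.ι) :
    (∀ i ∉ C, D.co β i = 0) ∨ ∀ i ∈ C, D.co β i = 0 := by
  induction β using D.root_induction with
  | h0 k =>
    rw [D.co_s]
    by_cases hk : k ∈ C
    · exact Or.inl fun i hi => Pi.single_eq_of_ne (fun e : i = k => hi (e ▸ hk)) _
    · exact Or.inr fun i hi => Pi.single_eq_of_ne (fun e : i = k => hk (e ▸ hi)) _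
  | h1 k β ih =>
    rw [D.co_rf, D.co_s]
    rcases ih with ih | ih
    · refine Or.inl fun i hi => ?_
      by_cases hk : k ∈ C
      · have hik : i ≠ k := fun e => hi (e ▸ hk)
        simp [ih i hi, Pi.single_eq_of_ne hik]
      · have h0 : D.pr β (D.s k) = 0 := by
          rw [D.pr_s]
          refine Finset.sum_eq_zero fun j _ => ?_
          by_cases hj : j ∈ C
          · rw [h j hj k hk, mul_zero]
          · rw [ih j hj, zero_mul]
        simp [ih i hi, h0]
    · refine Or.inr fun i hi => ?_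
      by_cases hk : k ∈ C
      · have h0 : D.pr β (D.s k) = 0 := by
          rw [D.pr_s]
          refine Finset.sum_eq_zero fun j _ => ?_
          by_cases hj : j ∈ C
          · rw [ih j hj, zero_mul]
          · have h1 : D.A j k = 0 := (D.pr_zero_iff (D.s k) (D.s j)).2 (h k hk j hj)
            rw [h1, mul_zero]
        simp [ih i hi, h0]
      · have hik : i ≠ k := fun e => hk (e ▸ hi)
        simp [ih i hi, Pi.single_eq_of_ne hik]

section Dom

variable {R : Type*} [CommRing R]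

theorem dg_s (d : D.Δ → R) (i : D.Δ) : D.dg d (D.s i) = d i := D.root_dg_s d i

theorem dg_neg (d : D.Δ → R) (β : D.ι) : D.dg d (D.neg β) = -D.dg d β := by
  unfold dg
  rw [D.co_neg, ← Finset.sum_neg_distrib]
  refine Finset.sum_congr rfl fun i _ => ?_
  simp

theorem dg_add (d : D.Δ → R) {α β γ : D.ι} (h : D.co α + D.co β = D.co γ) :
    D.dg d γ = D.dg d α + D.dg d β := by
  unfold dg
  rw [← h, ← Finset.sum_add_distrib]
  refine Finset.sum_congr rfl fun i _ => ?_
  simp [add_mul]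

/-- reflection of a degree function in a root -/
def rd (α : D.ι) (d : D.Δ → R) : D.Δ → R := fun j => D.dg d (D.rf α (D.s j))

theorem rd_apply (α : D.ι) (d : D.Δ → R) (j : D.Δ) :
    D.rd α d j = d j - (D.pr (D.s j) α : R) * D.dg d α := by
  unfold rd
  rw [D.root_dg_rf, D.root_dg_s]

theorem dg_rd (α : D.ι) (d : D.Δ → R) (β : D.ι) : D.dg (D.rd α d) β = D.dg d (D.rf α β) :=
  D.root_dg_rd α d β

theorem root_dg_rw (l : List D.Δ) :
    ∀ d : D.Δ → R, ∃ d' : D.Δ → R, ∀ β, D.dg d (D.rw l β) = D.dg d' β := by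
  induction l with
  | nil => exact fun d => ⟨d, fun _ => rfl⟩
  | cons i l ih =>
    intro d
    obtain ⟨d', hd'⟩ := ih (D.rd (D.s i) d)
    exact ⟨d', fun β => by rw [root_rw_cons, ← D.dg_rd, hd']⟩

open Classical in
theorem root_sum_rf (d : D.Δ → R) (i : D.Δ) :
    ∑ β with D.Pos β, D.dg d (D.rf (D.s i) β) = ∑ β with D.Pos β, D.dg d β - 2 * d i := by
  have hm : D.s i ∈ Finset.univ.filter D.Pos := by simp [D.pos_s]
  rw [← Finset.add_sum_erase _ _ hm, ← Finset.add_sum_erase _ _ hm]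
  have hmem : ∀ β ∈ (Finset.univ.filter D.Pos).erase (D.s i),
      D.rf (D.s i) β ∈ (Finset.univ.filter D.Pos).erase (D.s i) := by
    intro β hβ
    simp only [Finset.mem_erase, Finset.mem_filter, Finset.mem_univ, true_and] at hβ ⊢
    refine ⟨fun e => ?_, D.pos_rf hβ.2 hβ.1⟩
    have h1 : β = D.neg (D.s i) := by rw [← D.rf_rf (D.s i) β, e]; rfl
    have h2 := hβ.2
    rw [h1, D.pos_neg_iff] at h2
    exact h2 (D.pos_s i)
  have h1 : ∑ β ∈ (Finset.univ.filter D.Pos).erase (D.s i), D.dg d (D.rf (D.s i) β) =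
      ∑ β ∈ (Finset.univ.filter D.Pos).erase (D.s i), D.dg d β :=
    Finset.sum_nbij' (D.rf (D.s i)) (D.rf (D.s i)) hmem hmem (fun β _ => D.rf_rf _ β)
      (fun β _ => D.rf_rf _ β) (fun _ _ => rfl)
  have h2 : D.dg d (D.rf (D.s i) (D.s i)) = -d i := by
    change D.dg d (D.neg (D.s i)) = _
    rw [D.dg_neg, D.dg_s]
  rw [h1, h2, D.dg_s]
  ring

theorem exists_dom [LinearOrder R] [IsStrictOrderedRing R] (d : D.Δ → R) :
    ∃ l : List D.Δ, ∀ β, D.Pos β → 0 ≤ D.dg d (D.rw l β) := by
  classical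
  obtain ⟨f, ⟨l, rfl⟩, hl⟩ := Set.exists_max_image (Set.range D.rw)
    (fun f : D.ι → D.ι => ∑ β with D.Pos β, D.dg d (f β)) (Set.toFinite _) ⟨_, [], rfl⟩
  obtain ⟨d', hd'⟩ := D.root_dg_rw l d
  have h1 : ∀ i, 0 ≤ d' i := by
    intro i
    have h2 := hl _ ⟨l ++ [i], rfl⟩
    simp only [root_rw_snoc, hd'] at h2
    rw [D.root_sum_rf] at h2
    linarith
  refine ⟨l, fun β hβ => ?_⟩
  rw [hd']
  exact Finset.sum_nonneg fun i _ => mul_nonneg (Int.cast_nonneg (hβ i)) (h1 i)

end Dom

end RD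

end Pool.Agent.P.Bf04
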