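import Pool.Agent.P.MP_bf0464_al.H.Defs

/-! Basic facts on roots. -/

namespace Pool.Agent.P.Bf04

open Matrix

namespace RD

variable (D : RD)

theorem co_inj : Function.Injective D.co := fun α β h =>
  D.rt_inj (by rw [D.rt_co α, D.rt_co β, h])

theorem rootA_li {x y : D.Δ → ℤ} (h : ∑ i, x i • D.rt (D.s i) = ∑ i, y i • D.rt (D.s i)) :
    x = y := by
  have := D.li (x - y) (by
    simp only [Pi.sub_apply, sub_smul, Finset.sum_sub_distrib, h, sub_self])
  exact sub_eq_zero.mp this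

theorem co_s (i : D.Δ) : D.co (D.s i) = Pi.single i 1 := by
  apply D.rootA_li
  rw [← D.rt_co, Finset.sum_eq_single i]
  · simp
  · intro j _ hj; simp [Pi.single_eq_of_ne hj]
  · simp

theorem cli (x : D.Δ → ℤ) (h : ∑ i, x i • D.cr (D.s i) = 0) : x = 0 := by
  funext j
  have := congrArg (fun y => D.ω j ⬝ᵥ y) h
  simp only [dotProduct_sum, dotProduct_smul, D.ω_cr, smul_eq_mul, mul_ite, mul_one, mul_zero,
    Finset.sum_ite_eq, Finset.mem_univ, if_true, dotProduct_zero] at this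
  exact this

theorem rootA_cli {x y : D.Δ → ℤ} (h : ∑ i, x i • D.cr (D.s i) = ∑ i, y i • D.cr (D.s i)) :
    x = y := by
  have := D.cli (x - y) (by
    simp only [Pi.sub_apply, sub_smul, Finset.sum_sub_distrib, h, sub_self])
  exact sub_eq_zero.mp this

theorem cco_s (i : D.Δ) : D.cco (D.s i) = Pi.single i 1 := by
  apply D.rootA_cli
  rw [← D.cr_cco, Finset.sum_eq_single i]
  · simp
  · intro j _ hj; simp [Pi.single_eq_of_ne hj]
  · simp

theorem s_inj : Function.Injective D.s := fun i j h => by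
  have h1 := congrFun (D.co_s i) i
  rw [h, D.co_s j] at h1
  by_contra hij
  simp [Pi.single_eq_of_ne hij] at h1

theorem cco_inj : Function.Injective D.cco := fun α β h =>
  D.cr_inj (by rw [D.cr_cco α, D.cr_cco β, h])

theorem rt_neg (α : D.ι) : D.rt (D.neg α) = -D.rt α := by
  rw [RD.neg, D.rt_rf, D.two]; module

theorem cr_neg (α : D.ι) : D.cr (D.neg α) = -D.cr α := by
  rw [RD.neg, D.cr_rf, D.two]; module

theorem co_neg (α : D.ι) : D.co (D.neg α) = -D.co α := by
  apply D.rootA_li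
  rw [← D.rt_co, D.rt_neg, D.rt_co α]
  simp

theorem cco_neg (α : D.ι) : D.cco (D.neg α) = -D.cco α := by
  apply D.rootA_cli
  rw [← D.cr_cco, D.cr_neg, D.cr_cco α]
  simp

theorem neg_neg (α : D.ι) : D.neg (D.neg α) = α := by
  apply D.rt_inj; rw [D.rt_neg, D.rt_neg, _root_.neg_neg]

theorem neg_ne (α : D.ι) : D.neg α ≠ α := fun h => by
  have h1 := D.two α
  have h2 := D.two (D.neg α)
  rw [D.rt_neg, h, neg_dotProduct, h1] at h2
  omega

theorem co_ne_zero (α : D.ι) : D.co α ≠ 0 := fun h => by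
  have h1 := D.two α
  rw [D.rt_co α, h] at h1
  simp at h1

theorem eq_neg_iff (α β : D.ι) : β = D.neg α ↔ D.co α + D.co β = 0 := by
  constructor
  · rintro rfl; rw [D.co_neg, add_neg_cancel]
  · intro h; apply D.co_inj; rw [D.co_neg]; exact eq_neg_of_add_eq_zero_right h

theorem rt_add_iff (α β γ : D.ι) : D.rt α + D.rt β = D.rt γ ↔ D.co α + D.co β = D.co γ := by
  constructor
  · intro h
    apply D.rootA_li
    rw [← D.rt_co, ← h, D.rt_co α, D.rt_co β, ← Finset.sum_add_distrib]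
    simp [add_smul]
  · intro h
    rw [D.rt_co γ, ← h, D.rt_co α, D.rt_co β, ← Finset.sum_add_distrib]
    simp [add_smul]

theorem pr_self (α : D.ι) : D.pr α α = 2 := D.two α

theorem pr_neg_left (β α : D.ι) : D.pr (D.neg β) α = -D.pr β α := by
  simp only [pr, D.rt_neg, neg_dotProduct]

theorem pr_neg_right (β α : D.ι) : D.pr β (D.neg α) = -D.pr β α := by
  simp only [pr, D.cr_neg, dotProduct_neg]

theorem pr_eq_co (β α : D.ι) : D.pr β α = ∑ i, D.co β i * D.pr (D.s i) α := by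
  simp only [pr]
  rw [D.rt_co β, sum_dotProduct]
  simp only [smul_dotProduct, smul_eq_mul]

theorem pr_eq_cco (β α : D.ι) : D.pr β α = ∑ j, D.cco α j * D.pr β (D.s j) := by
  simp only [pr]
  rw [D.cr_cco α, dotProduct_sum]
  simp only [dotProduct_smul, smul_eq_mul]

theorem pr_s (β : D.ι) (j : D.Δ) : D.pr β (D.s j) = ∑ i, D.co β i * D.A i j :=
  D.pr_eq_co β (D.s j)

theorem co_rf (α β : D.ι) : D.co (D.rf α β) = D.co β - D.pr β α • D.co α := by
  apply D.rootA_li
  rw [← D.rt_co, D.rt_rf]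
  change D.rt β - D.pr β α • D.rt α = _
  rw [D.rt_co α, D.rt_co β, Finset.smul_sum, ← Finset.sum_sub_distrib]
  refine Finset.sum_congr rfl fun i _ => ?_
  simp only [Pi.sub_apply, Pi.smul_apply, smul_eq_mul, sub_smul, mul_smul]

theorem cco_rf (α β : D.ι) : D.cco (D.rf α β) = D.cco β - D.pr α β • D.cco α := by
  apply D.rootA_cli
  rw [← D.cr_cco, D.cr_rf]
  change D.cr β - D.pr α β • D.cr α = _
  rw [D.cr_cco α, D.cr_cco β, Finset.smul_sum, ← Finset.sum_sub_distrib]
  refine Finset.sum_congr rfl fun i _ => ?_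
  simp only [Pi.sub_apply, Pi.smul_apply, smul_eq_mul, sub_smul, mul_smul]

theorem rf_rf (α β : D.ι) : D.rf α (D.rf α β) = β := by
  apply D.rt_inj
  simp only [D.rt_rf, sub_dotProduct, smul_dotProduct, D.two, smul_eq_mul]
  module

theorem rf_neg (α β : D.ι) : D.rf α (D.neg β) = D.neg (D.rf α β) := by
  apply D.rt_inj
  rw [D.rt_neg, D.rt_rf, D.rt_rf, D.rt_neg, neg_dotProduct]
  module

theorem rf_neg_left (α β : D.ι) : D.rf (D.neg α) β = D.rf α β := by
  apply D.rt_inj
  rw [D.rt_rf, D.rt_rf, D.rt_neg, D.cr_neg, dotProduct_neg]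
  module

theorem pr_rf (α β γ : D.ι) : D.pr (D.rf α β) (D.rf α γ) = D.pr β γ := by
  simp only [pr, D.rt_rf, D.cr_rf, sub_dotProduct, smul_dotProduct, dotProduct_sub,
    dotProduct_smul, D.two, smul_eq_mul]
  ring

theorem pos_s (i : D.Δ) : D.Pos (D.s i) := by
  unfold Pos
  rw [D.co_s]
  exact Pi.single_nonneg.mpr zero_le_one

theorem pos_neg_iff (β : D.ι) : D.Pos (D.neg β) ↔ ¬ D.Pos β := by
  unfold Pos
  rw [D.co_neg, Left.nonneg_neg_iff]
  constructor
  · intro h h'; exact D.co_ne_zero β (le_antisymm h h')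
  · intro h; exact (D.sign β).resolve_left h

theorem pos_iff_ht (β : D.ι) : D.Pos β ↔ 0 < D.ht β := by
  unfold Pos ht
  constructor
  · intro h
    obtain ⟨i, hi⟩ := Function.ne_iff.mp (D.co_ne_zero β)
    exact Finset.sum_pos' (fun j _ => h j) ⟨i, Finset.mem_univ _, lt_of_le_of_ne (h i) (Ne.symm hi)⟩
  · intro h
    refine (D.sign β).resolve_right fun h' => ?_
    exact absurd (Finset.sum_nonpos fun j _ => h' j) (not_le.mpr h)

theorem ht_neg (β : D.ι) : D.ht (D.neg β) = -D.ht β := by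
  simp only [ht, D.co_neg, Pi.neg_apply, Finset.sum_neg_distrib]

theorem ht_s (i : D.Δ) : D.ht (D.s i) = 1 := by
  simp [ht, D.co_s]

theorem eq_s_of_ht {β : D.ι} (h : D.ht β = 1) : ∃ i, β = D.s i := by
  have hp : D.Pos β := (D.pos_iff_ht β).mpr (by omega)
  obtain ⟨i, hi⟩ := Function.ne_iff.mp (D.co_ne_zero β)
  have hi' : 0 < D.co β i := lt_of_le_of_ne (hp i) (Ne.symm hi)
  refine ⟨i, D.co_inj ?_⟩
  rw [D.co_s]
  unfold ht at h
  rw [← Finset.add_sum_erase _ _ (Finset.mem_univ i)] at h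
  have h0 : 0 ≤ ∑ j ∈ Finset.univ.erase i, D.co β j := Finset.sum_nonneg fun j _ => hp j
  have h1 : ∑ j ∈ Finset.univ.erase i, D.co β j = 0 := by omega
  rw [Finset.sum_eq_zero_iff_of_nonneg fun j _ => hp j] at h1
  funext j
  by_cases hj : j = i
  · subst hj; rw [Pi.single_eq_same]; omega
  · rw [Pi.single_eq_of_ne hj]; exact h1 j (by simp [hj])

/-- the invariant form on weights -/
def fm (x y : D.σ → ℤ) : ℤ := ∑ β, (x ⬝ᵥ D.cr β) * (y ⬝ᵥ D.cr β)

/-- squared length -/
def len (β : D.ι) : ℤ := D.fm (D.rt β) (D.rt β)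

theorem len_pos (β : D.ι) : 0 < D.len β := by
  unfold len fm
  refine Finset.sum_pos' (fun γ _ => mul_self_nonneg _) ⟨β, Finset.mem_univ _, ?_⟩
  rw [D.two]; norm_num

/-- the reflection as a permutation of the roots -/
def rootA_perm (α : D.ι) : Equiv.Perm D.ι := Function.Involutive.toPerm (D.rf α) (D.rf_rf α)

theorem rootA_sum {M : Type*} [AddCommMonoid M] (α : D.ι) (f : D.ι → M) :
    ∑ β, f (D.rf α β) = ∑ β, f β := Equiv.sum_comp (D.rootA_perm α) f

theorem len_rf (α β : D.ι) : D.len (D.rf α β) = D.len β := by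
  unfold len fm
  rw [← D.rootA_sum α]
  exact Finset.sum_congr rfl fun γ _ => congrArg₂ (· * ·) (D.pr_rf α β γ) (D.pr_rf α β γ)

/-- the map from weights to coweights given by the form -/
def rootA_phi (x : D.σ → ℤ) : D.σ → ℤ := ∑ β, (x ⬝ᵥ D.cr β) • D.cr β

theorem rootA_phi_rt (α : D.ι) : (2 : ℤ) • D.rootA_phi (D.rt α) = D.len α • D.cr α := by
  have h : D.rootA_phi (D.rt α) = -D.rootA_phi (D.rt α) + D.len α • D.cr α := by
    conv_lhs => unfold rootA_phi; rw [← D.rootA_sum α]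
    unfold rootA_phi len fm
    rw [Finset.sum_smul, ← Finset.sum_neg_distrib, ← Finset.sum_add_distrib]
    refine Finset.sum_congr rfl fun β _ => ?_
    simp only [D.cr_rf, dotProduct_sub, dotProduct_smul, D.two, smul_eq_mul]
    module
  rw [two_smul]
  nth_rewrite 1 [h]
  abel

theorem rootA_phi_sum (x : D.Δ → ℤ) :
    (2 : ℤ) • D.rootA_phi (∑ i, x i • D.rt (D.s i)) = ∑ i, (x i * D.len (D.s i)) • D.cr (D.s i) := by
  have h : D.rootA_phi (∑ i, x i • D.rt (D.s i)) = ∑ i, x i • D.rootA_phi (D.rt (D.s i)) := by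
    unfold rootA_phi
    simp only [sum_dotProduct, smul_dotProduct, Finset.sum_smul, Finset.smul_sum, smul_eq_mul,
      mul_smul]
    exact Finset.sum_comm
  rw [h, Finset.smul_sum]
  refine Finset.sum_congr rfl fun i _ => ?_
  rw [smul_comm, D.rootA_phi_rt, mul_smul]

theorem fm_rt (x : D.σ → ℤ) (α : D.ι) : 2 * D.fm x (D.rt α) = (x ⬝ᵥ D.cr α) * D.len α := by
  have h := congrArg (fun y => x ⬝ᵥ y) (D.rootA_phi_rt α)
  simp only [dotProduct_smul, smul_eq_mul, rootA_phi, dotProduct_sum] at h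
  rw [mul_comm (x ⬝ᵥ D.cr α), ← h]
  unfold fm
  exact congrArg (2 * ·) (Finset.sum_congr rfl fun β _ => mul_comm _ _)

theorem pr_len (α β : D.ι) : D.pr β α * D.len α = D.pr α β * D.len β := by
  unfold pr
  rw [← D.fm_rt, ← D.fm_rt]
  unfold fm
  exact congrArg (2 * ·) (Finset.sum_congr rfl fun γ _ => mul_comm _ _)

theorem rootA_nd (x : D.Δ → ℤ) (h : ∀ β, (∑ i, x i • D.rt (D.s i)) ⬝ᵥ D.cr β = 0) : x = 0 := by
  have h1 := D.rootA_phi_sum x
  have h2 : D.rootA_phi (∑ i, x i • D.rt (D.s i)) = 0 := by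
    unfold rootA_phi
    simp only [h, zero_smul, Finset.sum_const_zero]
  rw [h2, smul_zero] at h1
  have h3 := D.cli _ h1.symm
  funext i
  exact (mul_eq_zero.mp (congrFun h3 i)).resolve_right (D.len_pos _).ne'

theorem nd (x : D.Δ → ℤ) (h : ∀ j, ∑ i, x i * D.A i j = 0) : x = 0 := by
  refine D.rootA_nd x fun β => ?_
  rw [D.cr_cco β, dotProduct_sum]
  refine Finset.sum_eq_zero fun j _ => ?_
  rw [dotProduct_smul, sum_dotProduct]
  simp only [smul_dotProduct, smul_eq_mul]
  exact mul_eq_zero_of_right _ (h j)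

theorem posdef (x : D.Δ → ℤ) (h : x ≠ 0) :
    0 < ∑ i, ∑ j, x i * x j * (D.A i j * D.len (D.s j)) := by
  set y := ∑ i, x i • D.rt (D.s i) with hy
  have e : ∑ i, ∑ j, x i * x j * (D.A i j * D.len (D.s j)) = 2 * D.fm y y := by
    have h1 := congrArg (fun z => y ⬝ᵥ z) (D.rootA_phi_sum x)
    simp only [dotProduct_smul, smul_eq_mul, rootA_phi, dotProduct_sum, ← hy] at h1
    unfold fm
    rw [h1, Finset.sum_comm]
    refine Finset.sum_congr rfl fun j _ => ?_
    rw [hy, sum_dotProduct, Finset.mul_sum]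
    refine Finset.sum_congr rfl fun i _ => ?_
    simp only [smul_dotProduct, smul_eq_mul, A, pr, Matrix.of_apply]
    ring
  rw [e]
  have h2 : ∃ β, y ⬝ᵥ D.cr β ≠ 0 := by
    by_contra hc
    push Not at hc
    exact h (D.rootA_nd x hc)
  obtain ⟨β, hβ⟩ := h2
  refine mul_pos two_pos ?_
  unfold fm
  exact Finset.sum_pos' (fun γ _ => mul_self_nonneg _) ⟨β, Finset.mem_univ _, mul_self_pos.mpr hβ⟩

theorem len_cco (β : D.ι) (i : D.Δ) : D.len β * D.cco β i = D.co β i * D.len (D.s i) := by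
  have h1 := D.rootA_phi_sum (D.co β)
  rw [← D.rt_co, D.rootA_phi_rt, D.cr_cco β, Finset.smul_sum] at h1
  simp only [← mul_smul] at h1
  exact congrFun (D.rootA_cli (x := fun i => D.len β * D.cco β i)
    (y := fun i => D.co β i * D.len (D.s i)) h1) i

theorem cco_eq_zero (β : D.ι) (i : D.Δ) : D.cco β i = 0 ↔ D.co β i = 0 := by
  have h := D.len_cco β i
  have h1 := D.len_pos β
  have h2 := D.len_pos (D.s i)
  constructor
  · intro h0; rw [h0, mul_zero] at h
    exact (mul_eq_zero.mp h.symm).resolve_right h2.ne'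
  · intro h0; rw [h0, zero_mul] at h
    exact (mul_eq_zero.mp h).resolve_left h1.ne'

theorem pos_iff_cco (β : D.ι) : D.Pos β ↔ 0 ≤ D.cco β := by
  unfold Pos
  refine forall_congr' fun i => ?_
  have h := D.len_cco β i
  have h1 := D.len_pos β
  have h2 := D.len_pos (D.s i)
  simp only [Pi.zero_apply]
  rw [← mul_nonneg_iff_of_pos_right h2, ← h, mul_nonneg_iff_of_pos_left h1]

theorem red' {β γ : D.ι} {a b : ℤ} (ha : a ≠ 0) (h : a • D.co β = b • D.co γ) :
    β = γ ∨ β = D.neg γ := by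
  have hr : a • D.rt β = b • D.rt γ := by
    rw [D.rt_co β, D.rt_co γ, Finset.smul_sum, Finset.smul_sum]
    refine Finset.sum_congr rfl fun i _ => ?_
    have := congrFun h i
    simp only [Pi.smul_apply, smul_eq_mul] at this
    rw [← mul_smul, ← mul_smul, this]
  have e1 : a * 2 = b * D.pr γ β := by
    have := congrArg (fun x => x ⬝ᵥ D.cr β) hr
    simpa only [smul_dotProduct, smul_eq_mul, D.two, pr] using this
  have e2 : a * D.pr β γ = b * 2 := by
    have := congrArg (fun x => x ⬝ᵥ D.cr γ) hr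
    simpa only [smul_dotProduct, smul_eq_mul, D.two, pr] using this
  have e3 : D.pr β γ * D.pr γ β = 4 := by
    apply mul_left_cancel₀ ha
    linear_combination (D.pr γ β) * e2 - 2 * e1
  have e4 : ∀ k, 2 * D.rt β k = D.pr β γ * D.rt γ k := fun k => by
    apply mul_left_cancel₀ ha
    have := congrFun hr k
    simp only [Pi.smul_apply, smul_eq_mul] at this
    linear_combination 2 * this - D.rt γ k * e2
  have hd : D.pr β γ ∣ 4 := Dvd.intro _ e3
  have hle : D.pr β γ ≤ 4 := Int.le_of_dvd (by norm_num) hd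
  have hge : -4 ≤ D.pr β γ := by
    have := Int.le_of_dvd (by norm_num) ((neg_dvd).mpr hd); omega
  generalize D.pr β γ = n at e3 e4 hle hge
  generalize D.pr γ β = m at e3
  have k1 : ∀ δ ε : D.ι, (∀ k, D.rt ε k = 2 * D.rt δ k) → False := fun δ ε hk =>
    D.red δ ε (funext fun k => by rw [hk k]; rfl)
  interval_cases n
  · exact (k1 (D.neg γ) β fun k => by
      have := e4 k; rw [D.rt_neg, Pi.neg_apply]; omega).elim
  · omega
  · exact Or.inr (D.rt_inj (funext fun k => by
      have := e4 k; rw [D.rt_neg, Pi.neg_apply]; omega))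
  · exact (k1 β (D.neg γ) fun k => by
      have := e4 k; rw [D.rt_neg, Pi.neg_apply]; omega).elim
  · omega
  · exact (k1 β γ fun k => by have := e4 k; omega).elim
  · exact Or.inl (D.rt_inj (funext fun k => by have := e4 k; omega))
  · omega
  · exact (k1 γ β fun k => by have := e4 k; omega).elim

end RD

end Pool.Agent.P.Bf04
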