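import Pool.Agent.P.MP_bf0464_al.H.PBW
import Pool.Agent.P.MP_bf0464_al.H.Lie

/-! The enveloping algebra: filtration, symbols, Harish-Chandra projection, base change. -/

namespace Pool.Agent.P.Bf04

open Matrix Module

attribute [local instance 100] LieRing.ofAssociativeRing

universe u v w

open MvPolynomial

namespace CD

variable (D : CD) {R : Type v} [CommRing R] {R' : Type w} [CommRing R']

variable (R) in
/-- the enveloping algebra -/
abbrev U : Type v := UniversalEnvelopingAlgebra R (D.g R)

/-- negative roots, torus, positive roots -/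
noncomputable def blk : D.B → ℤ := Sum.elim (fun _ => 0) fun β => (D.ht β).sign

/-- an order in which negative roots come first and positive roots last -/
@[reducible] noncomputable def ord : LinearOrder D.B :=
  LinearOrder.lift' (fun b => toLex (D.blk b, (Fintype.equivFin D.B b : ℕ))) fun _ _ h =>
    (Fintype.equivFin D.B).injective (Fin.ext (congrArg (fun x => (ofLex x).2) h))

variable (R) in
/-- generators -/
noncomputable def ub (b : D.B) : D.U R := UniversalEnvelopingAlgebra.ι R (D.bv R b)

variable (R) in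
/-- words -/
noncomputable def word (l : List D.B) : D.U R := (l.map (D.ub R)).prod

variable (R) in
/-- ordered monomials -/
noncomputable def mon (s : D.B →₀ ℕ) : D.U R :=
  letI := D.ord
  D.word R ((Finsupp.toMultiset s).sort (· ≤ ·))

variable (R) in
/-- the linear map that sends monomials to ordered monomials -/
noncomputable def pbwL : MvPolynomial D.B R →ₗ[R] D.U R :=
  (basisMonomials D.B R).constr R (D.mon R)

theorem symA_word_eq (l : List D.B) : D.word R l = uword (Pi.basisFun R D.B) l := by
  unfold word uword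
  congr 1
  refine List.map_congr_left fun b _ => ?_
  rw [Pi.basisFun_apply]
  rfl

theorem symA_mon_eq (s : D.B →₀ ℕ) :
    D.mon R s = @umon R (D.g R) D.B _ _ _ D.ord (Pi.basisFun R D.B) (Finsupp.toMultiset s) :=
  D.symA_word_eq _

theorem symA_umon_eq (s : Multiset D.B) :
    @umon R (D.g R) D.B _ _ _ D.ord (Pi.basisFun R D.B) s = D.mon R (Multiset.toFinsupp s) := by
  rw [symA_mon_eq, Multiset.toFinsupp_toMultiset]

theorem symA_word_nil : D.word R [] = 1 := rfl

theorem symA_word_append (l l' : List D.B) : D.word R (l ++ l') = D.word R l * D.word R l' := by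
  simp only [word, List.map_append, List.prod_append]

theorem symA_word_singleton (b : D.B) : D.word R [b] = D.ub R b := by
  simp only [word, List.map_cons, List.map_nil, List.prod_cons, List.prod_nil, mul_one]

theorem symA_card (s : D.B →₀ ℕ) : (Finsupp.toMultiset s).card = s.degree := by
  rw [Finsupp.card_toMultiset]
  rfl

theorem symA_mon_word (s : D.B →₀ ℕ) :
    ∃ l : List D.B, l.length = s.degree ∧ D.mon R s = D.word R l :=
  ⟨_, by rw [Multiset.length_sort, symA_card], rfl⟩

theorem pbwL_bij : Function.Bijective (D.pbwL R) := by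
  have hm : D.mon R = @umon R (D.g R) D.B _ _ _ D.ord (Pi.basisFun R D.B) ∘ Finsupp.toMultiset :=
    funext D.symA_mon_eq
  constructor
  · refine Basis.injective_constr_of_linearIndependent _ ?_
    rw [hm]
    exact (@umon_li R (D.g R) D.B _ _ _ D.ord (Pi.basisFun R D.B)).comp _
      Multiset.toFinsupp.symm.injective
  · have hs : Function.Surjective (Finsupp.toMultiset : (D.B →₀ ℕ) → Multiset D.B) :=
      Multiset.toFinsupp.symm.surjective
    rw [← LinearMap.range_eq_top, pbwL, Basis.constr_range, hm, hs.range_comp]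
    exact @umon_span R (D.g R) D.B _ _ _ D.ord (Pi.basisFun R D.B)

variable (R) in
/-- the same as an isomorphism -/
noncomputable def pbw : MvPolynomial D.B R ≃ₗ[R] D.U R := LinearEquiv.ofBijective _ D.pbwL_bij

theorem pbw_monomial (s : D.B →₀ ℕ) (c : R) : D.pbw R (monomial s c) = c • D.mon R s := by
  have h1 : (monomial s c : MvPolynomial D.B R) = c • basisMonomials D.B R s := by
    rw [coe_basisMonomials, smul_monomial, smul_eq_mul, mul_one]
  rw [h1, map_smul]
  congr 1
  exact Basis.constr_basis (basisMonomials D.B R) R (D.mon R) s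

theorem pbw_X (b : D.B) : D.pbw R (X b) = D.ub R b := by
  rw [X, pbw_monomial, one_smul, mon, Finsupp.toMultiset_single, one_nsmul,
    Multiset.sort_singleton, symA_word_singleton]

theorem pbw_C (c : R) : D.pbw R (C c) = algebraMap R _ c := by
  rw [C_apply, pbw_monomial, mon, Finsupp.toMultiset_zero, Multiset.sort_zero, symA_word_nil,
    Algebra.algebraMap_eq_smul_one]

variable (R) in
/-- elements of degree less than `n` -/
def Fil (n : ℕ) : Submodule R (D.U R) :=
  Submodule.span R {z | ∃ l : List D.B, l.length < n ∧ z = D.word R l}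

theorem symA_word_mem {n : ℕ} {l : List D.B} (h : l.length < n) : D.word R l ∈ D.Fil R n :=
  Submodule.subset_span ⟨l, h, rfl⟩

theorem symA_mon_mem {n : ℕ} {s : D.B →₀ ℕ} (h : s.degree < n) : D.mon R s ∈ D.Fil R n := by
  obtain ⟨l, hl, e⟩ := D.symA_mon_word (R := R) s
  rw [e]
  exact D.symA_word_mem (hl ▸ h)

theorem Fil_zero : D.Fil R 0 = ⊥ := by
  rw [Fil, Submodule.span_eq_bot]
  rintro z ⟨l, hl, -⟩
  exact absurd hl (Nat.not_lt_zero _)

theorem Fil_mono {n m : ℕ} (h : n ≤ m) : D.Fil R n ≤ D.Fil R m :=
  Submodule.span_mono fun _ ⟨l, hl, e⟩ => ⟨l, hl.trans_le h, e⟩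

theorem exists_Fil (z : D.U R) : ∃ n, z ∈ D.Fil R n := by
  have hz : z ∈ Submodule.span R (Set.range (uword (Pi.basisFun R D.B : Basis D.B R (D.g R)))) := by
    rw [@span_uword R (D.g R) D.B _ _ _ D.ord (Pi.basisFun R D.B)]
    trivial
  induction hz using Submodule.span_induction with
  | mem x hx =>
    obtain ⟨l, rfl⟩ := hx
    exact ⟨l.length + 1, by
      rw [← symA_word_eq]
      exact D.symA_word_mem (Nat.lt_succ_self _)⟩
  | zero => exact ⟨0, zero_mem _⟩
  | add x y _ _ hx hy =>
    obtain ⟨n, hn⟩ := hx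
    obtain ⟨m, hm⟩ := hy
    exact ⟨max n m, add_mem (D.Fil_mono (le_max_left _ _) hn) (D.Fil_mono (le_max_right _ _) hm)⟩
  | smul c x _ hx =>
    obtain ⟨n, hn⟩ := hx
    exact ⟨n, Submodule.smul_mem _ c hn⟩

theorem symA_Fil_mul {n m k : ℕ} (hk : ∀ a b, a < n → b < m → a + b < k) {x y : D.U R}
    (hx : x ∈ D.Fil R n) (hy : y ∈ D.Fil R m) : x * y ∈ D.Fil R k := by
  induction hx using Submodule.span_induction with
  | mem x hx =>
    obtain ⟨l, hl, rfl⟩ := hx
    induction hy using Submodule.span_induction with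
    | mem y hy =>
      obtain ⟨l', hl', rfl⟩ := hy
      rw [← symA_word_append]
      exact D.symA_word_mem (by rw [List.length_append]; exact hk _ _ hl hl')
    | zero => rw [mul_zero]; exact zero_mem _
    | add y y' _ _ h h' => rw [mul_add]; exact add_mem h h'
    | smul c y _ h => rw [mul_smul_comm]; exact Submodule.smul_mem _ c h
  | zero => rw [zero_mul]; exact zero_mem _
  | add x x' _ _ h h' => rw [add_mul]; exact add_mem h h'
  | smul c x _ h => rw [smul_mul_assoc]; exact Submodule.smul_mem _ c h

theorem Fil_mul {n m : ℕ} {x y : D.U R} (hx : x ∈ D.Fil R (n + 1)) (hy : y ∈ D.Fil R m) :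
    x * y ∈ D.Fil R (n + m) :=
  D.symA_Fil_mul (fun _ _ _ _ => by omega) hx hy

theorem Fil_mul' {n m : ℕ} {x y : D.U R} (hx : x ∈ D.Fil R n) (hy : y ∈ D.Fil R (m + 1)) :
    x * y ∈ D.Fil R (n + m) :=
  D.symA_Fil_mul (fun _ _ _ _ => by omega) hx hy

theorem symA_word_sub_mon (l : List D.B) :
    D.word R l - D.mon R (Multiset.toFinsupp (l : Multiset D.B)) ∈
      Submodule.span R {z | ∃ s : D.B →₀ ℕ, s.degree < l.length ∧ z = D.mon R s} := by
  have h := @uword_sub R (D.g R) D.B _ _ _ D.ord (Pi.basisFun R D.B) l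
  rw [← symA_word_eq, symA_umon_eq] at h
  refine Submodule.span_mono ?_ h
  rintro _ ⟨s, hs, rfl⟩
  refine ⟨Multiset.toFinsupp s, ?_, D.symA_umon_eq s⟩
  rwa [← symA_card, Multiset.toFinsupp_toMultiset]

theorem symA_degree_toFinsupp (l : List D.B) :
    (Multiset.toFinsupp (l : Multiset D.B)).degree = l.length := by
  rw [← symA_card, Multiset.toFinsupp_toMultiset, Multiset.coe_card]

theorem symA_Fil_eq (n : ℕ) :
    D.Fil R n = Submodule.span R {z | ∃ s : D.B →₀ ℕ, s.degree < n ∧ z = D.mon R s} := by
  apply le_antisymm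
  · rw [Fil, Submodule.span_le]
    rintro _ ⟨l, hl, rfl⟩
    rw [SetLike.mem_coe, ← sub_add_cancel (D.word R l) (D.mon R (Multiset.toFinsupp (l : Multiset D.B)))]
    refine add_mem (Submodule.span_mono ?_ (D.symA_word_sub_mon l)) (Submodule.subset_span ?_)
    · rintro _ ⟨s, hs, rfl⟩
      exact ⟨s, hs.trans hl, rfl⟩
    · exact ⟨_, by rw [symA_degree_toFinsupp]; exact hl, rfl⟩
  · rw [Submodule.span_le]
    rintro _ ⟨s, hs, rfl⟩
    exact D.symA_mon_mem hs

theorem pbw_mem_Fil (F : MvPolynomial D.B R) (n : ℕ) :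
    D.pbw R F ∈ D.Fil R n ↔ ∀ s ∈ F.support, s.degree < n := by
  constructor
  · intro h
    have hle : D.Fil R n ≤ (restrictSupport R {s : D.B →₀ ℕ | s.degree < n}).map
        (D.pbw R : MvPolynomial D.B R →ₗ[R] D.U R) := by
      rw [symA_Fil_eq, Submodule.span_le]
      rintro _ ⟨s, hs, rfl⟩
      refine ⟨monomial s 1, ?_, ?_⟩
      · rw [SetLike.mem_coe, mem_restrictSupport_iff]
        intro t ht
        have := support_monomial_subset (Finset.mem_coe.1 ht)
        rw [Finset.mem_singleton] at this
        rw [this]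
        exact hs
      · rw [LinearEquiv.coe_coe, pbw_monomial, one_smul]
    obtain ⟨G, hG, e⟩ := hle h
    have hGF : G = F := (D.pbw R).injective e
    rw [hGF, SetLike.mem_coe, mem_restrictSupport_iff] at hG
    exact fun s hs => hG (Finset.mem_coe.2 hs)
  · intro h
    rw [F.as_sum, map_sum]
    refine Submodule.sum_mem _ fun s hs => ?_
    rw [pbw_monomial]
    exact Submodule.smul_mem _ _ (D.symA_mon_mem (h s hs))

theorem symA_prod_X (l : List D.B) : ((l.map X).prod : MvPolynomial D.B R)
    = monomial (Multiset.toFinsupp (l : Multiset D.B)) 1 := by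
  induction l with
  | nil => simp
  | cons b l ih =>
    rw [List.map_cons, List.prod_cons, ih, X, monomial_mul, mul_one, ← Multiset.cons_coe,
      ← Multiset.singleton_add, map_add, Multiset.toFinsupp_singleton]

theorem word_sub (l : List D.B) :
    D.word R l - D.pbw R (l.map X).prod ∈ D.Fil R l.length := by
  rw [symA_prod_X, pbw_monomial, one_smul, symA_Fil_eq]
  exact D.symA_word_sub_mon l

/-- the linear form attached to an element of the Lie algebra -/
noncomputable def lin (x : D.g R) : MvPolynomial D.B R := ∑ k, C (x k) * X k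

theorem symA_ι_eq (x : D.g R) : UniversalEnvelopingAlgebra.ι R x = ∑ k, x k • D.ub R k := by
  conv_lhs => rw [D.eq_sum x]
  rw [map_sum]
  exact Finset.sum_congr rfl fun k _ => by rw [map_smul]; rfl

theorem symA_prod_sub (l : List (D.g R)) : ∀ l₀ : List D.B,
    D.word R l₀ * (l.map (UniversalEnvelopingAlgebra.ι R)).prod
      - D.pbw R ((l₀.map X).prod * (l.map D.lin).prod) ∈ D.Fil R (l₀.length + l.length) := by
  induction l with
  | nil =>
    intro l₀
    simpa using D.word_sub (R := R) l₀
  | cons x l ih =>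
    intro l₀
    have h1 : D.word R l₀ * ((x :: l).map (UniversalEnvelopingAlgebra.ι R)).prod
        = ∑ k, x k • (D.word R (l₀ ++ [k]) * (l.map (UniversalEnvelopingAlgebra.ι R)).prod) := by
      rw [List.map_cons, List.prod_cons, symA_ι_eq, Finset.sum_mul, Finset.mul_sum]
      refine Finset.sum_congr rfl fun k _ => ?_
      rw [symA_word_append, symA_word_singleton, smul_mul_assoc, mul_smul_comm, mul_assoc]
    have h2 : ((l₀.map X).prod * ((x :: l).map D.lin).prod : MvPolynomial D.B R)
        = ∑ k, x k • (((l₀ ++ [k]).map X).prod * (l.map D.lin).prod) := by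
      rw [List.map_cons, List.prod_cons, lin, Finset.sum_mul, Finset.mul_sum]
      refine Finset.sum_congr rfl fun k _ => ?_
      rw [List.map_append, List.prod_append, smul_eq_C_mul]
      simp only [List.map_cons, List.map_nil, List.prod_cons, List.prod_nil, mul_one]
      ring
    rw [h1, h2, map_sum, ← Finset.sum_sub_distrib]
    refine Submodule.sum_mem _ fun k _ => ?_
    rw [map_smul, ← smul_sub]
    refine Submodule.smul_mem _ _ ?_
    have h3 := ih (l₀ ++ [k])
    have h4 : (l₀ ++ [k]).length + l.length = l₀.length + (x :: l).length := by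
      simp only [List.length_append, List.length_cons, List.length_nil]
      omega
    rwa [h4] at h3

theorem prod_sub (l : List (D.g R)) : (l.map (UniversalEnvelopingAlgebra.ι R)).prod
    - D.pbw R (l.map D.lin).prod ∈ D.Fil R l.length := by
  have h := D.symA_prod_sub l []
  rwa [symA_word_nil, one_mul, List.map_nil, List.prod_nil, one_mul, List.length_nil,
    Nat.zero_add] at h

/-- `F` is the symbol of degree `n` of `z` -/
def Sym (n : ℕ) (z : D.U R) (F : MvPolynomial D.B R) : Prop :=
  F.IsHomogeneous n ∧ z - D.pbw R F ∈ D.Fil R n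

theorem exists_sym {n : ℕ} {z : D.U R} (h : z ∈ D.Fil R (n + 1)) : ∃ F, D.Sym n z F := by
  obtain ⟨G, rfl⟩ := (D.pbw R).surjective z
  refine ⟨homogeneousComponent n G, homogeneousComponent_isHomogeneous n G, ?_⟩
  rw [← map_sub, pbw_mem_Fil]
  rw [pbw_mem_Fil] at h
  intro s hs
  rw [MvPolynomial.mem_support_iff, coeff_sub, coeff_homogeneousComponent] at hs
  by_cases hn : s.degree = n
  · rw [if_pos hn, sub_self] at hs
    exact absurd rfl hs
  · rw [if_neg hn, sub_zero] at hs
    have := h s (MvPolynomial.mem_support_iff.2 hs)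
    omega

theorem Sym.unique {D : CD} {n : ℕ} {z : D.U R} {F F' : MvPolynomial D.B R} (h : D.Sym n z F)
    (h' : D.Sym n z F') : F = F' := by
  have h1 : D.pbw R (F - F') ∈ D.Fil R n := by
    have := sub_mem h'.2 h.2
    rwa [sub_sub_sub_cancel_left, ← map_sub] at this
  rw [pbw_mem_Fil] at h1
  rw [← sub_eq_zero]
  by_contra hne
  obtain ⟨s, hs⟩ := support_nonempty.2 hne
  have h2 := (h.1.sub h'.1).coeff_eq_zero (d := s) (h1 s hs).ne
  exact MvPolynomial.mem_support_iff.1 hs h2

end CD

end Pool.Agent.P.Bf04
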