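import Pool.Agent.P.MP_bf0464_al.H.T2I

/-! The generic step. -/

namespace Pool.Agent.P.Bf04

open Matrix Module

attribute [local instance 100] LieRing.ofAssociativeRing

universe u v w

theorem exists_quad (k K₀ : Type u) [Field k] [Field K₀] [Algebra k K₀] (c : K₀) :
    ∃ (K : Type u) (_ : Field K) (_ : Algebra k K) (j : K₀ →ₐ[k] K) (σ : K →ₐ[k] K) (δ : K),
      δ ^ 2 = j c ∧ (∀ a, σ (σ a) = a) ∧
      ∀ (R : Type u) [CommRing R] [IsDomain R] [Algebra k R] (l r : K →ₐ[k] R),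
        l.comp j = r.comp j → l = r ∨ l = r.comp σ := by
  by_cases hc : ∃ b : K₀, b ^ 2 = c
  · obtain ⟨b, hb⟩ := hc
    exact ⟨K₀, inferInstance, inferInstance, AlgHom.id k K₀, AlgHom.id k K₀, b, hb, fun _ => rfl,
      fun R _ _ _ l r h => Or.inl h⟩
  let f : Polynomial K₀ := Polynomial.X ^ 2 - Polynomial.C c
  have : Fact (Irreducible f) :=
    ⟨X_pow_sub_C_irreducible_of_prime Nat.prime_two fun b hb => hc ⟨b, hb⟩⟩
  have h1 : AdjoinRoot.root f ^ 2 = AdjoinRoot.of f c := by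
    have := AdjoinRoot.eval₂_root f
    rwa [Polynomial.eval₂_sub, Polynomial.eval₂_X_pow, Polynomial.eval₂_C, sub_eq_zero] at this
  have h2 : f.eval₂ (AdjoinRoot.ofAlgHom k f : K₀ →+* AdjoinRoot f) (-AdjoinRoot.root f) = 0 := by
    rw [Polynomial.eval₂_sub, Polynomial.eval₂_X_pow, Polynomial.eval₂_C, neg_sq, h1]
    exact sub_self _
  let σ := AdjoinRoot.liftAlgHom f (AdjoinRoot.ofAlgHom k f) _ h2
  have s1 : σ (AdjoinRoot.root f) = -AdjoinRoot.root f := AdjoinRoot.liftAlgHom_root _ _ _ _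
  have s2 : σ.comp (AdjoinRoot.ofAlgHom k f) = AdjoinRoot.ofAlgHom k f :=
    AlgHom.ext fun a => AdjoinRoot.liftAlgHom_of f _ _ h2 a
  have s3 : σ.comp σ = AlgHom.id k _ := AdjoinRoot.algHom_ext'
    (by rw [AlgHom.comp_assoc, s2, s2, AlgHom.id_comp])
    (by rw [AlgHom.comp_apply, s1, map_neg, s1, neg_neg, AlgHom.id_apply])
  refine ⟨AdjoinRoot f, inferInstance, inferInstance, AdjoinRoot.ofAlgHom k f, σ, AdjoinRoot.root f,
    h1, fun a => AlgHom.congr_fun s3 a, fun R _ _ _ l r h => ?_⟩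
  have h3 : l (AdjoinRoot.root f) ^ 2 = r (AdjoinRoot.root f) ^ 2 := by
    rw [← map_pow, ← map_pow, h1]
    exact AlgHom.congr_fun h c
  rcases sq_eq_sq_iff_eq_or_eq_neg.1 h3 with h4 | h4
  · exact Or.inl (AdjoinRoot.algHom_ext' h h4)
  · exact Or.inr (AdjoinRoot.algHom_ext' (by rw [AlgHom.comp_assoc, s2, h])
      (by rw [AlgHom.comp_apply, s1, map_neg, h4]))

namespace CD

variable {D : CD} {J : Finset D.Δ} {k : Type u} [Field k] {p : ℕ} [Fact p.Prime] [CharP k p]
  {e₀ : D.B → k} {h₀ : D.Std e₀}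

variable (D J) in
/-- the generic point over e₀ is conjugate to χ after adjoining a root of order κ -/
def Conj (e₀ χ : D.B → k) (κ : ℕ) : Prop :=
  ∀ (K₀ : Type u) [Field K₀] [Algebra k K₀] (η : D.B → K₀),
    (∀ b, 0 ≤ D.dB (D.dJ J) b → η b = algebraMap k K₀ (e₀ b)) →
    (AlgebraicIndependent k fun b : D.Nil J => η b.1) →
      ∃ c : K₀, ∀ (K : Type u) [Field K] [Algebra k K] (j : K₀ →ₐ[k] K) (δ : K), δ ^ κ = j c →
        ∃ A ∈ D.G K, (algebraMap k K ∘ χ) ᵥ* A = j ∘ η

variable (D J k) in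
/-- words in the basis vectors with their degrees -/
noncomputable def fr : FreeAlgebra ℤ D.B →ₐ[ℤ] FreeAlgebra k (ℤ × (D.g k × k)) :=
  FreeAlgebra.lift ℤ fun b => FreeAlgebra.ι k (D.dB (D.dJ J) b, (D.bv k b, 0))

theorem t2ca_word (l : List D.B) : D.fr J k (l.map (FreeAlgebra.ι ℤ)).prod
    ∈ degSub k (D.g k × k) (∑ i, (l.map D.wt).sum i * D.dJ J i) := by
  induction l with
  | nil => simpa using algebraMap_mem_degSub (L := D.g k × k) (1 : k)
  | cons b l ih =>
    have h1 := mul_mem_degSub _ _ _ _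
      (ι_mem_degSub (k := k) (D.dB (D.dJ J) b, ((D.bv k b, 0) : D.g k × k))) ih
    simp only [List.map_cons, List.prod_cons, List.sum_cons, map_mul, Pi.add_apply, add_mul,
      Finset.sum_add_distrib]
    rw [fr, FreeAlgebra.lift_ι_apply]
    exact h1

theorem fr_deg {z : FreeAlgebra ℤ D.B} (h : z ∈ D.wt0) : D.fr J k z ∈ degSub k (D.g k × k) 0 := by
  induction h using Submodule.span_induction with
  | mem z hz =>
    obtain ⟨l, hl, rfl⟩ := hz
    have := t2ca_word (J := J) (k := k) l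
    simpa only [hl, Pi.zero_apply, zero_mul, Finset.sum_const_zero] using this
  | zero => rw [map_zero]; exact zero_mem _
  | add a b _ _ ha hb => rw [map_add]; exact add_mem ha hb
  | smul c a _ ha => rw [map_smul]; exact zsmul_mem ha c

theorem act_fr (R : LRep k (D.g k × k)) (z : FreeAlgebra ℤ D.B) :
    (D.trg J p h₀).act R (D.fr J k z) = D.ev (R.res (D.inl k)) z := by
  induction z using FreeAlgebra.induction with
  | grade0 r => simp only [eq_intCast, map_intCast]
  | grade1 b =>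
    rw [fr, FreeAlgebra.lift_ι_apply, Trg.act, FreeAlgebra.lift_ι_apply, ev,
      FreeAlgebra.lift_ι_apply, (D.trg J p h₀).pr_of_mem _ _ _ (D.bv_mem J p h₀ b), if_pos rfl]
    rfl
  | mul a b ha hb => simp only [map_mul, ha, hb]
  | add a b ha hb => simp only [map_add, ha, hb]

theorem t2ca_comm {z : FreeAlgebra ℤ D.B} {f : MvPolynomial D.σ ℤ} (h : Cen.{u} D z f)
    (R : LRep k (D.g k × k)) (x : D.g k × k) : Commute (D.ev (R.res (D.inl k)) z) (R.ρ x) := by
  have h1 : ∀ z, Commute (D.ev (R.res (D.inl k)) z) (R.ρ (0, x.2)) := fun z => by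
    induction z using FreeAlgebra.induction with
    | grade0 r => rw [AlgHom.commutes]; exact Algebra.commutes _ _
    | grade1 b =>
      rw [ev, FreeAlgebra.lift_ι_apply, commute_iff_lie_eq]
      refine (R.ρ.map_lie (D.bv k b, 0) (0, x.2)).symm.trans ?_
      rw [show ⁅((D.bv k b, 0) : D.g k × k), ((0, x.2) : D.g k × k)⁆ = 0 from
        Prod.ext (lie_zero _) (zero_lie _), map_zero]
    | mul a b ha hb => rw [map_mul]; exact ha.mul_left hb
    | add a b ha hb => rw [map_add]; exact ha.add_left hb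
  rw [show x = (x.1, 0) + (0, x.2) by simp, map_add]
  exact (h.comm k (R.res (D.inl k)) x.1).add_right (h1 z)

theorem cen_ind {z : FreeAlgebra ℤ D.B} {f : MvPolynomial D.σ ℤ} (h : Cen.{u} D z f)
    {E : LRep k (D.trg J p h₀).par} (hE : (D.trg J p h₀).Adm E) {ν : D.σ → ℤ}
    (hν : (D.levi J).HW (E.res (D.j0 J p h₀)) ν) (a : ((D.trg J p h₀).Ind E).M) :
    (D.trg J p h₀).act ((D.trg J p h₀).Ind E) (D.fr J k z) a
      = ((MvPolynomial.eval ν f : ℤ) : k) • a := by
  obtain ⟨v, hv, h1, h2⟩ := hν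
  let T := D.trg J p h₀
  have key : ∀ b : (D.levi J).B, (T.Ind E).ρ (D.bv k (D.leviB J b), 0) (T.inc E v)
      = T.inc E (E.ρ (D.j0 J p h₀ ((D.levi J).bv k b)) v) := fun b => by
    rw [← T.inc_par E, ← D.leviHom_bv J k b]
    rfl
  have hw : D.IsHW ((T.Ind E).res (D.inl k)) (fun a => (ν a : k)) (T.inc E v) := by
    refine ⟨fun β hβ => ?_, fun a => ?_⟩
    · by_cases hI : D.In J β
      · refine (key (.inr ⟨β, hI⟩)).trans ?_
        rw [show E.ρ (D.j0 J p h₀ ((D.levi J).bv k (.inr ⟨β, hI⟩))) v = 0 from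
          h1 ⟨β, hI⟩ ((D.toRD.levi_pos J ⟨β, hI⟩).2 hβ), map_zero]
      · have hd := (D.dJ_pos_iff J (.inr β)).2 ⟨β, rfl, hβ, hI⟩
        have hm := D.bv_mem J p h₀ (.inr β)
        refine (T.inc_par E ⟨_, T.mem_par_of_gr hd.le hm⟩ v).trans ?_
        rw [hE.pos _ hd _ hm, map_zero]
    · refine (key (.inl a)).trans ?_
      rw [show E.ρ (D.j0 J p h₀ ((D.levi J).bv k (.inl a))) v = (ν a : k) • v from h2 a, map_smul]
  rw [act_fr]
  set c : k := ((MvPolynomial.eval ν f : ℤ) : k) with hc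
  set U := ((D.ev ((T.Ind E).res (D.inl k)) z).eigenspace c).comap (T.inc E) with hU
  have hs : E.Stable U := fun x m hm => by
    rw [hU, Submodule.mem_comap, End.mem_eigenspace_iff] at hm ⊢
    rw [← T.inc_par E, ← End.mul_apply, (t2ca_comm h (T.Ind E) x).eq, End.mul_apply, hm, map_smul]
  have hv' : v ∈ U := by
    rw [hU, Submodule.mem_comap, End.mem_eigenspace_iff, h.hc k _ _ _ hw, mod1a_aeval]
  refine T.Ind_scalar E (t2ca_comm h (T.Ind E)) (fun m => ?_) a
  rcases hE.simple.2 U hs with h3 | h3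
  · rw [h3] at hv'
    exact absurd hv' hv
  · have hm : m ∈ U := h3 ▸ trivial
    rwa [hU, Submodule.mem_comap, End.mem_eigenspace_iff] at hm

theorem t2ca_wt {a b : FreeAlgebra ℤ D.B} (ha : a ∈ D.wt0) (hb : b ∈ D.wt0) : a * b ∈ D.wt0 := by
  induction ha using Submodule.span_induction with
  | mem a ha =>
    induction hb using Submodule.span_induction with
    | mem b hb =>
      obtain ⟨l, hl, rfl⟩ := ha
      obtain ⟨l', hl', rfl⟩ := hb
      exact Submodule.subset_span ⟨l ++ l', by simp [hl, hl'], by simp⟩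
    | zero => rw [mul_zero]; exact zero_mem _
    | add b c _ _ h1 h2 => rw [mul_add]; exact add_mem h1 h2
    | smul c b _ h1 => rw [mul_smul_comm]; exact Submodule.smul_mem _ _ h1
  | zero => rw [zero_mul]; exact zero_mem _
  | add a c _ _ h1 h2 => rw [add_mul]; exact add_mem h1 h2
  | smul c a _ h1 => rw [smul_mul_assoc]; exact Submodule.smul_mem _ _ h1

theorem t2ca_one : Cen.{u} D 1 1 where
  wt := Submodule.subset_span ⟨[], rfl, rfl⟩
  comm K _ S x := by rw [map_one]; exact Commute.one_left _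
  inv K _ S A _ h := by rw [map_one, map_one]
  hc K _ S μ v _ := by rw [map_one, map_one, one_smul]; rfl
  winv i μ := by rw [map_one, map_one]

theorem t2ca_mul {z z' : FreeAlgebra ℤ D.B} {f f' : MvPolynomial D.σ ℤ} (h : Cen.{u} D z f)
    (h' : Cen.{u} D z' f') : Cen.{u} D (z * z') (f * f') where
  wt := t2ca_wt h.wt h'.wt
  comm K _ S x := by rw [map_mul]; exact (h.comm K S x).mul_left (h'.comm K S x)
  inv K _ S A hA hA' := by rw [map_mul, map_mul, h.inv K S A hA hA', h'.inv K S A hA hA']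
  hc K _ S μ v hv := by
    rw [map_mul, map_mul, End.mul_apply, h'.hc K S μ v hv, map_smul, h.hc K S μ v hv, smul_smul,
      mul_comm]
  winv i μ := by rw [map_mul, map_mul, h.winv, h'.winv]

theorem t2ca_sub {z : FreeAlgebra ℤ D.B} {f : MvPolynomial D.σ ℤ} (h : Cen.{u} D z f) (c : ℤ) :
    Cen.{u} D (z - c) (f - c) where
  wt := sub_mem h.wt (by
    rw [← zsmul_one c]
    exact Submodule.smul_mem _ _ t2ca_one.{u}.wt)
  comm K _ S x := by
    rw [map_sub, map_intCast]; exact (h.comm K S x).sub_left (Int.cast_commute _ _)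
  inv K _ S A hA hA' := by rw [map_sub, map_sub, h.inv K S A hA hA', map_intCast, map_intCast]
  hc K _ S μ v hv := by
    rw [map_sub, map_sub, map_intCast, map_intCast, LinearMap.sub_apply, h.hc K S μ v hv, sub_smul,
      End.intCast_apply, Int.cast_smul_eq_zsmul]
  winv i μ := by rw [map_sub, map_sub, h.winv, map_intCast, map_intCast]

theorem t2ca_pow {z : FreeAlgebra ℤ D.B} {f : MvPolynomial D.σ ℤ} (h : Cen.{u} D z f) (n : ℕ) :
    Cen.{u} D (z ^ n) (f ^ n) := by
  induction n with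
  | zero => rw [pow_zero, pow_zero]; exact t2ca_one
  | succ n ih => rw [pow_succ, pow_succ]; exact t2ca_mul ih h

/-- an invariant central element that separates a linkage class from all others -/
theorem exists_idem (D : CD) (p : ℕ) [Fact p.Prime] (μ : D.σ → ℤ) : ∃ z f, Cen.{u} D z f ∧
    (p : ℤ) ∣ MvPolynomial.eval μ f - 1 ∧ ∀ ν, ¬ D.Link p μ ν → (p : ℤ) ∣ MvPolynomial.eval ν f := by
  classical
  have hp : p.Prime := Fact.out
  have hp' := Nat.prime_iff_prime_int.1 hp
  have key : ∀ s : Finset (D.σ → ZMod p), ∃ z f, Cen.{u} D z f ∧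
      ¬ (p : ℤ) ∣ MvPolynomial.eval μ f ∧ ∀ ν : D.σ → ℤ, (fun a => (ν a : ZMod p)) ∈ s →
        ¬ D.Link p μ ν → (p : ℤ) ∣ MvPolynomial.eval ν f := by
    intro s
    induction s using Finset.induction_on with
    | empty => exact ⟨1, 1, t2ca_one, by rw [map_one]; exact hp'.not_dvd_one, by simp⟩
    | insert r s _ ih =>
      obtain ⟨z, f, h1, h2, h3⟩ := ih
      by_cases h : ∃ ν : D.σ → ℤ, (fun a => (ν a : ZMod p)) = r ∧ ¬ D.Link p μ ν
      · obtain ⟨τ, rfl, hτ⟩ := h
        obtain ⟨z', f', h4, h5⟩ := D.exists_cen.{u} hp hτ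
        refine ⟨_, _, t2ca_mul h1 (t2ca_sub h4 (MvPolynomial.eval τ f')), ?_, fun ν hν hl => ?_⟩
        · rw [map_mul, map_sub, map_intCast]
          exact fun h6 => (hp'.dvd_or_dvd h6).elim h2 h5
        · rw [map_mul, map_sub, map_intCast]
          rcases Finset.mem_insert.1 hν with h6 | h6
          · refine Dvd.dvd.mul_left (h4.link (RD.Link.of_cong fun a => ?_)) _
            rw [← ZMod.intCast_zmod_eq_zero_iff_dvd, Int.cast_sub, congrFun h6 a, sub_self]
          · exact (h3 ν h6 hl).mul_right _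
      · refine ⟨z, f, h1, h2, fun ν hν hl => ?_⟩
        rcases Finset.mem_insert.1 hν with h6 | h6
        · exact absurd ⟨ν, h6, hl⟩ h
        · exact h3 ν h6 hl
  obtain ⟨z, f, h1, h2, h3⟩ := key Finset.univ
  refine ⟨_, _, t2ca_pow h1 (p - 1), ?_, fun ν hν => ?_⟩
  · rw [← ZMod.intCast_zmod_eq_zero_iff_dvd] at h2 ⊢
    rw [map_pow, Int.cast_sub, Int.cast_pow, ZMod.pow_card_sub_one_eq_one h2, Int.cast_one,
      sub_self]
  · rw [map_pow]
    exact dvd_pow (h3 ν (Finset.mem_univ _) hν) (by have := hp.two_le; omega)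

end CD

end Pool.Agent.P.Bf04
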