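import Pool.Agent.P.MP_bf0464_al.H.TGen2
import Pool.Agent.P.MP_bf0464_al.H.Mod2A
import Pool.Agent.P.MP_bf0464_al.H.EBas

/-! The graded Lie algebra attached to a parabolic subalgebra. -/

namespace Pool.Agent.P.Bf04

open Matrix Module

attribute [local instance 100] LieRing.ofAssociativeRing

universe u v w

namespace CD

variable (D : CD) (J : Finset D.Δ)

/-- the degree function of the parabolic subalgebra -/
def dJ : D.Δ → ℤ := fun i => if i ∈ J then 0 else 1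

/-- basis vectors of negative degree -/
def Nil : Type := {b : D.B // D.dB (D.dJ J) b < 0}

instance : Fintype (D.Nil J) := inferInstanceAs (Fintype {b : D.B // D.dB (D.dJ J) b < 0})

instance : DecidableEq (D.Nil J) := inferInstanceAs (DecidableEq {b : D.B // _})

theorem t2ia_inl (a : D.σ) : D.dB (D.dJ J) (.inl a) = 0 := by simp [RD.dB, RD.wt]

theorem t2ia_inr (β : D.ι) : D.dB (D.dJ J) (.inr β) = D.mod2aDeg J β := by
  rw [mod2aDeg, ← Finset.univ_inter Jᶜ, ← Finset.sum_ite_mem]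
  refine Finset.sum_congr rfl fun i _ => ?_
  by_cases h : i ∈ J <;> simp [dJ, RD.wt, h]

theorem t2ia_nonpos {β : D.ι} (h : ¬ D.Pos β) : D.mod2aDeg J β ≤ 0 := by
  have := mod2a_nonneg J ((D.pos_neg_iff β).2 h)
  rw [mod2a_neg] at this
  omega

theorem t2ia_add {i j l : D.B} (h : D.cc i j l ≠ 0) :
    D.dB (D.dJ J) l = D.dB (D.dJ J) i + D.dB (D.dJ J) j := by
  simp only [RD.dB, D.cc_wt h, Pi.add_apply, Int.cast_add, add_mul, Finset.sum_add_distrib]

theorem dJ_neg_iff (b : D.B) :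
    D.dB (D.dJ J) b < 0 ↔ ∃ β, b = .inr β ∧ ¬ D.Pos β ∧ ¬ D.In J β := by
  rcases b with a | β
  · simp [t2ia_inl]
  · simp only [t2ia_inr, Sum.inr.injEq, exists_eq_left', mod2a_in]
    exact ⟨fun h => ⟨fun h' => (mod2a_nonneg J h').not_gt h, h.ne⟩,
      fun h => (D.t2ia_nonpos J h.1).lt_of_ne h.2⟩

theorem dJ_pos_iff (b : D.B) :
    0 < D.dB (D.dJ J) b ↔ ∃ β, b = .inr β ∧ D.Pos β ∧ ¬ D.In J β := by
  rcases b with a | β
  · simp [t2ia_inl]
  · simp only [t2ia_inr, Sum.inr.injEq, exists_eq_left', mod2a_in]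
    exact ⟨fun h => ⟨not_not.1 fun h' => (D.t2ia_nonpos J h').not_gt h, h.ne'⟩,
      fun h => (mod2a_nonneg J h.1).lt_of_ne' h.2⟩

theorem dJ_zero_iff (b : D.B) : D.dB (D.dJ J) b = 0 ↔ b ∈ Set.range (D.leviB J) := by
  rcases b with a | β
  · exact ⟨fun _ => ⟨.inl a, rfl⟩, fun _ => D.t2ia_inl J a⟩
  · rw [t2ia_inr, ← mod2a_in]
    refine ⟨fun h => ⟨.inr ⟨β, h⟩, rfl⟩, ?_⟩
    rintro ⟨a | γ, h⟩
    · cases h
    · exact Sum.inr.inj h ▸ γ.2

theorem exists_en : ∃ y : Fin (Fintype.card (D.Nil J)) ≃ D.Nil J,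
    ∀ i j, D.dB (D.dJ J) (y i).1 < D.dB (D.dJ J) (y j).1 → i < j :=
  ⟨(Tuple.sort fun i => D.dB (D.dJ J) ((Fintype.equivFin (D.Nil J)).symm i).1).trans
    (Fintype.equivFin (D.Nil J)).symm, fun _ _ h => (Tuple.monotone_sort
      fun i => D.dB (D.dJ J) ((Fintype.equivFin (D.Nil J)).symm i).1).reflect_lt h⟩

/-- enumeration by increasing degree -/
noncomputable def en : Fin (Fintype.card (D.Nil J)) ≃ D.Nil J := (D.exists_en J).choose

theorem t2ia_deg (i : Fin (Fintype.card (D.Nil J))) :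
    D.dB (D.dJ J) (D.en J i).1 = -((-D.dB (D.dJ J) (D.en J i).1).toNat : ℤ) := by
  have := (D.en J i).2
  omega

variable (k : Type u) [Field k]

/-- the generators of the negative part -/
noncomputable def yy : Fin (Fintype.card (D.Nil J) + 1) → D.g k × k :=
  Fin.cons (0, 1) fun i => (D.bv k (D.en J i).1, 0)

/-- the coordinates on the negative part -/
noncomputable def t2iaC : Fin (Fintype.card (D.Nil J) + 1) → D.g k × k →ₗ[k] k :=
  Fin.cons (LinearMap.snd k _ k) fun i => LinearMap.proj (D.en J i).1 ∘ₗ LinearMap.fst k _ k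

theorem t2ia_c_y (i j : Fin (Fintype.card (D.Nil J) + 1)) :
    D.t2iaC J k i (D.yy J k j) = if i = j then 1 else 0 := by
  refine Fin.cases ?_ (fun i => ?_) i <;> refine Fin.cases ?_ (fun j => ?_) j
  · simp [t2iaC, yy]
  · simp [t2iaC, yy, (Fin.succ_ne_zero j).symm]
  · simp [t2iaC, yy]
  · have : (D.en J i).1 = (D.en J j).1 ↔ i = j := Subtype.val_inj.trans (D.en J).injective.eq_iff
    simp [t2iaC, yy, bv, Pi.single_apply, this]

theorem t2ia_exp (x : D.g k × k) (hx : ∀ b, 0 ≤ D.dB (D.dJ J) b → x.1 b = 0) :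
    ∑ i, D.t2iaC J k i x • D.yy J k i = x := by
  refine Prod.ext (funext fun b => ?_) (by simp [t2iaC, yy, Fin.sum_univ_succ, Prod.snd_sum])
  rcases lt_or_ge (D.dB (D.dJ J) b) 0 with h | h
  · obtain ⟨j, hj⟩ := (D.en J).surjective ⟨b, h⟩
    obtain rfl : (D.en J j).1 = b := congrArg Subtype.val hj
    show D.t2iaC J k j.succ (∑ i, D.t2iaC J k i x • D.yy J k i) = D.t2iaC J k j.succ x
    simp [t2ia_c_y]
  · have : ∀ i, b ≠ (D.en J i).1 := fun i e => (D.en J i).2.not_ge (e ▸ h)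
    simp [t2iaC, yy, Fin.sum_univ_succ, Prod.fst_sum, Finset.sum_apply, bv, this, hx b h]

theorem t2ia_bv {b b' : D.B} (h : D.dB (D.dJ J) b' ≠ D.dB (D.dJ J) b) : D.bv k b b' = 0 :=
  Pi.single_eq_of_ne (fun e => h (congrArg _ e)) _

theorem t2ia_lie {x y : D.g k} {l : D.B} (h : ⁅x, y⁆ l ≠ 0) : ∃ i j, x i ≠ 0 ∧ y j ≠ 0 ∧
    D.dB (D.dJ J) l = D.dB (D.dJ J) i + D.dB (D.dJ J) j := by
  obtain ⟨i, -, h⟩ := Finset.exists_ne_zero_of_sum_ne_zero h
  obtain ⟨j, -, h⟩ := Finset.exists_ne_zero_of_sum_ne_zero h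
  refine ⟨i, j, right_ne_zero_of_mul (left_ne_zero_of_mul h), right_ne_zero_of_mul h,
    D.t2ia_add J fun e => h ?_⟩
  rw [e, Int.cast_zero, zero_mul, zero_mul]

theorem t2ia_cen (x : D.g k × k) (t : k) : ⁅x, ((0, t) : D.g k × k)⁆ = 0 :=
  Prod.ext (lie_zero _) (sub_eq_zero.2 (mul_comm _ _))

/-- the negative part -/
def t2iaU : LieSubalgebra k (D.g k × k) where
  carrier := {x | ∀ b, 0 ≤ D.dB (D.dJ J) b → x.1 b = 0}
  add_mem' hx hy b h := by rw [Prod.fst_add, Pi.add_apply, hx b h, hy b h, add_zero]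
  zero_mem' _ _ := rfl
  smul_mem' c x hx b h := by rw [Prod.smul_fst, Pi.smul_apply, hx b h, smul_zero]
  lie_mem' {x y} hx hy b h := by
    by_contra h0
    obtain ⟨i, j, hi, hj, e⟩ := D.t2ia_lie J k h0
    have h1 := mt (hx i) hi
    have h2 := mt (hy j) hj
    omega

theorem t2ia_yy (i : Fin (Fintype.card (D.Nil J) + 1)) : D.yy J k i ∈ D.t2iaU J k := by
  refine Fin.cases (fun _ _ => rfl) (fun i b h => ?_) i
  exact D.t2ia_bv J k ((D.en J i).2.trans_le h).ne'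

theorem exists_neg : ∃ H : Neg k (Fin (Fintype.card (D.Nil J) + 1)),
    ∀ i j, ⁅D.yy J k i, D.yy J k j⁆ = ∑ l, H.γ i j l • D.yy J k l := by
  have key : ∀ i j, ⁅D.yy J k i, D.yy J k j⁆ =
      ∑ l, D.t2iaC J k l ⁅D.yy J k i, D.yy J k j⁆ • D.yy J k l := fun i j =>
    (D.t2ia_exp J k _ ((D.t2iaU J k).lie_mem (D.t2ia_yy J k i) (D.t2ia_yy J k j))).symm
  let v : Fin (Fintype.card (D.Nil J) + 1) → D.t2iaU J k := fun i => ⟨_, D.t2ia_yy J k i⟩
  have hs : ∀ c : Fin (Fintype.card (D.Nil J) + 1) → k,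
      (∑ i, c i • v i).1 = ∑ i, c i • D.yy J k i := fun c =>
    map_sum (D.t2iaU J k).toSubmodule.subtype _ _
  have hli : LinearIndependent k v := Fintype.linearIndependent_iff.2 fun c hc i => by
    have := congrArg (fun x : D.t2iaU J k => D.t2iaC J k i x.1) hc
    simpa [hs, t2ia_c_y] using this
  have hsp : ⊤ ≤ Submodule.span k (Set.range v) := fun x _ =>
    (Submodule.mem_span_range_iff_exists_fun k).2
      ⟨fun i => D.t2iaC J k i x.1, Subtype.ext ((hs _).trans (D.t2ia_exp J k _ x.2))⟩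
  obtain ⟨Y, h1, h2⟩ := exists_reg (Basis.mk hli hsp)
  simp only [Basis.mk_apply] at h1 h2
  refine ⟨⟨fun i j l => D.t2iaC J k l ⁅D.yy J k i, D.yy J k j⁆, fun i j l => ?_,
    fun i => Y (v i), fun i j => ?_, h1, h2⟩, key⟩
  · refine Fin.cases (fun h => (h ?_).elim) (fun i => ?_) i
    · rw [← lie_skew, show D.yy J k 0 = (0, 1) from rfl, t2ia_cen, neg_zero, map_zero]
    refine Fin.cases (fun h => (h ?_).elim) (fun j => ?_) j
    · rw [show D.yy J k 0 = (0, 1) from rfl, t2ia_cen, map_zero]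
    refine Fin.cases (fun _ => ⟨Fin.succ_pos _, Fin.succ_pos _⟩) (fun l h => ?_) l
    have h3 : D.cc (D.en J i).1 (D.en J j).1 (D.en J l).1 ≠ 0 := fun e => h (by
      show ⁅D.bv k (D.en J i).1, D.bv k (D.en J j).1⁆ (D.en J l).1 = 0
      rw [lie_bv_apply, e, Int.cast_zero])
    have h4 := D.t2ia_add J h3
    have h5 := (D.en J i).2
    have h6 := (D.en J j).2
    exact ⟨Fin.succ_lt_succ_iff.2 ((D.exists_en J).choose_spec l i (show D.dB _ (D.en J l).1 <
      D.dB _ (D.en J i).1 by omega)), Fin.succ_lt_succ_iff.2 ((D.exists_en J).choose_spec l j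
        (show D.dB _ (D.en J l).1 < D.dB _ (D.en J j).1 by omega))⟩
  · have e : ⁅v i, v j⁆ = ∑ l, D.t2iaC J k l ⁅D.yy J k i, D.yy J k j⁆ • v l :=
      Subtype.ext ((key i j).trans (hs _).symm)
    refine (Y.map_lie (v i) (v j)).symm.trans ?_
    rw [e, map_sum]
    simp only [map_smul]

/-- the inclusion of the Lie algebra -/
def inl : D.g k →ₗ⁅k⁆ D.g k × k where
  toFun x := (x, 0)
  map_add' _ _ := Prod.ext rfl (add_zero _).symm
  map_smul' _ _ := Prod.ext rfl (smul_zero _).symm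
  map_lie' := Prod.ext rfl (lie_self _).symm

variable {k} (p : ℕ) [Fact p.Prime] [CharP k p] {e₀ : D.B → k} (h₀ : D.Std e₀)

omit [Fact p.Prime] [CharP k p] in
theorem t2ia_comm0 (R : LRep k (D.g k × k)) (x : D.g k × k) (t : k) :
    Commute (R.ρ x) (R.ρ (0, t)) := by
  rw [commute_iff_lie_eq, ← LieHom.map_lie, t2ia_cen, map_zero]

theorem t2ia_comm (R : LRep k (D.g k × k)) (b : D.B) (x : D.g k × k) :
    Commute (R.ρ (D.bv k b, 0) ^ p - R.ρ (D.pmb k b, 0)) (R.ρ x) := by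
  have e : x = (x.1, 0) + (0, x.2) := by simp
  rw [e, map_add]
  exact (D.xi_comm p (R.ρ.comp (D.inl k)) b x.1).add_right
    (((D.t2ia_comm0 R _ _).pow_left p).sub_left (D.t2ia_comm0 R _ _))

/-- the graded Lie algebra -/
noncomputable def trg : Trg k (D.g k × k) (Fintype.card (D.Nil J) + 1) p where
  gr d :=
    { carrier := {x | (∀ b, D.dB (D.dJ J) b ≠ d → x.1 b = 0) ∧ (d ≠ -1 → x.2 = 0)}
      add_mem' := fun hx hy => ⟨fun b h => by
        rw [Prod.fst_add, Pi.add_apply, hx.1 b h, hy.1 b h, add_zero], fun h => by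
        rw [Prod.snd_add, hx.2 h, hy.2 h, add_zero]⟩
      zero_mem' := ⟨fun _ _ => rfl, fun _ => rfl⟩
      smul_mem' := fun c x hx => ⟨fun b h => by
        rw [Prod.smul_fst, Pi.smul_apply, hx.1 b h, smul_zero], fun h => by
        rw [Prod.smul_snd, hx.2 h, smul_zero]⟩ }
  pr d := LinearMap.prodMap
    (LinearMap.pi fun b => if D.dB (D.dJ J) b = d then LinearMap.proj b else 0)
    (if d = -1 then LinearMap.id else 0)
  D := insert (-1) (Finset.univ.image (D.dB (D.dJ J)))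
  pr_mem d x := ⟨fun b h => by simp [h], fun h => by simp [h]⟩
  sum_pr x := by
    refine Prod.ext (funext fun b => ?_) ?_
    · rw [Prod.fst_sum, Finset.sum_apply, Finset.sum_eq_single (D.dB (D.dJ J) b)
        (fun d _ h => by simp [h.symm]) (by simp)]
      simp
    · rw [Prod.snd_sum, Finset.sum_eq_single (-1) (fun d _ h => by simp [h]) (by simp)]
      simp
  pr_of_mem d d' x hx := by
    refine Prod.ext (funext fun b => ?_) ?_
    · by_cases h : d' = d <;> by_cases h' : D.dB (D.dJ J) b = d'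
      · simp [h, h ▸ h']
      · simp [h, h ▸ h', hx.1 b (h ▸ h')]
      · simp [h, h', hx.1 b (h' ▸ h)]
      · simp [h, h']
    · by_cases h : d' = d <;> by_cases h' : d' = -1
      · simp [← h, h']
      · simp [← h, h', hx.2 (h ▸ h')]
      · simp [h, hx.2 fun e => h (h'.trans e.symm)]
      · simp [h, h']
  lie_mem a b x y hx hy := by
    refine ⟨fun l h => ?_, fun _ => sub_eq_zero.2 (mul_comm _ _)⟩
    by_contra h0
    obtain ⟨i, j, hi, hj, e⟩ := D.t2ia_lie J k h0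
    have h1 := mt (hx.1 i) hi
    have h2 := mt (hy.1 j) hj
    omega
  y := D.yy J k
  δ := Fin.cons 1 fun i => (-D.dB (D.dJ J) (D.en J i).1).toNat
  δ_pos i := by
    refine Fin.cases one_pos (fun i => ?_) i
    have := (D.en J i).2
    show 0 < (-D.dB (D.dJ J) (D.en J i).1).toNat
    omega
  y_mem i := Fin.cases ⟨fun _ _ => rfl, fun h => (h rfl).elim⟩ (fun i =>
    ⟨fun b h => D.t2ia_bv J k fun e => h (e.trans (D.t2ia_deg J i)), fun _ => rfl⟩) i
  c := Fin.cons (LinearMap.snd k _ k) fun i =>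
    LinearMap.proj (D.en J i).1 ∘ₗ LinearMap.fst k _ k
  c_y := by exact D.t2ia_c_y J k
  c_zero i d x hx := by
    exact Fin.cases hx.2 (fun i h => hx.1 _ fun e => h (e.symm.trans (D.t2ia_deg J i))) i
  exp_neg d hd x hx := by exact D.t2ia_exp J k x fun b h => hx.1 b (by omega)
  H := (D.exists_neg J k).choose
  lie_y := (D.exists_neg J k).choose_spec
  q := Fin.cons 1 fun _ => p
  q_pos i := Fin.cases one_pos (fun _ => (Fact.out : p.Prime).pos) i
  q_comm R i x := by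
    refine Fin.cases ((D.t2ia_comm0 R x 1).symm.pow_left _) (fun i => ?_) i
    obtain ⟨β, h, -⟩ := (D.dJ_neg_iff J _).1 (D.en J i).2
    have h1 := D.t2ia_comm p R (D.en J i).1 x
    rwa [show (D.pmb k (D.en J i).1, (0 : k)) = 0 by rw [h]; rfl, map_zero, sub_zero] at h1
  ι := {b : D.B // 0 ≤ D.dB (D.dJ J) b}
  g a := (D.bv k a.1, 0)
  dg a := D.dB (D.dJ J) a.1
  dg_nonneg a := a.2
  g_mem a := ⟨fun _ h => D.t2ia_bv J k h, fun _ => rfl⟩
  g_span d hd x hx := by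
    have e : x = D.inl k x.1 := Prod.ext rfl (hx.2 (by omega))
    rw [e, D.eq_sum x.1, map_sum]
    refine Submodule.sum_mem _ fun b _ => ?_
    rw [map_smul]
    by_cases h : D.dB (D.dJ J) b = d
    · exact Submodule.smul_mem _ _ (Submodule.subset_span ⟨⟨b, h ▸ hd⟩, rfl⟩)
    · rw [hx.1 b h, zero_smul]
      exact zero_mem _
  pw a := (D.pmb k a.1, 0)
  cp a := e₀ a.1 ^ p
  pw_mem := by
    rintro ⟨a | β, h⟩
    · refine ⟨fun b hb => D.t2ia_bv J k ?_, fun _ => rfl⟩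
      rwa [t2ia_inl, mul_zero, ← D.t2ia_inl J a] at hb
    · exact ⟨fun _ _ => rfl, fun _ => rfl⟩
  cp_pos a h := by
    obtain ⟨β, h1, h2, -⟩ := (D.dJ_pos_iff J _).1 h
    rw [h1, h₀.2 β h2, zero_pow (Fact.out : p.Prime).ne_zero]
  pw_comm R a := D.t2ia_comm p R a.1

theorem bv_mem (b : D.B) : (D.bv k b, 0) ∈ (D.trg J p h₀).gr (D.dB (D.dJ J) b) :=
  ⟨fun _ h => D.t2ia_bv J k h, fun _ => rfl⟩

end CD

end Pool.Agent.P.Bf04
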