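import Pool.Agent.P.MP_bf0464_al.H.TSyz
import Pool.Agent.P.MP_bf0464_al.Fields

/-! Modules over the generic point and their lattices. -/

namespace Pool.Agent.P.Bf04

open Module TensorProduct

attribute [local instance 100] LieRing.ofAssociativeRing

universe u

namespace Trg

variable {k : Type u} [Field k] {L : Type u} [LieRing L] [LieAlgebra k L] {n p : ℕ}
  (T : Trg k L (n + 1) p) (K : Type u) [Field K] [Algebra k K] (ξ : Fin n → K)

/-- a module over the generic point -/
structure GenRep where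
  S : Type u
  [acg : AddCommGroup S]
  [modK : Module K S]
  [modk : Module k S]
  [tower : IsScalarTower k K S]
  [fd : FiniteDimensional K S]
  [nt : Nontrivial S]
  ρ : L →ₗ[k] End K S
  lie : ∀ x y, ρ ⁅x, y⁆ = ρ x * ρ y - ρ y * ρ x
  y0 : ρ (T.y 0) = 1
  ys : ∀ i : Fin n, ρ (T.y i.succ) ^ p = algebraMap K _ (ξ i ^ p)
  rel : ∀ a, ρ (T.g a) ^ p = ρ (T.pw a) + T.cp a • 1

attribute [instance] GenRep.acg GenRep.modK GenRep.modk GenRep.tower GenRep.fd GenRep.nt

namespace GenRep

variable {T K ξ} (S : T.GenRep K ξ)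

/-- the action of the free algebra -/
noncomputable def π0 : FreeAlgebra k (ℤ × L) →ₐ[k] End K S.S :=
  FreeAlgebra.lift k fun h => S.ρ (T.pr h.1 h.2)

/-- the action of the extended free algebra -/
noncomputable def π : K ⊗[k] FreeAlgebra k (ℤ × L) →ₐ[k] End K S.S :=
  Algebra.TensorProduct.lift (IsScalarTower.toAlgHom k K _) S.π0
    fun a _ => Algebra.commutes a _

theorem π_tmul (a : K) (w : FreeAlgebra k (ℤ × L)) : S.π (a ⊗ₜ w) = a • S.π0 w := by
  simp [π, Algebra.smul_def]

/-- shift -/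
noncomputable def sh (d : ℤ) : End k (ℤ →₀ S.S) := Finsupp.lmapDomain S.S k (· + d)

/-- componentwise action -/
noncomputable def mp : End K S.S →ₐ[k] End k (ℤ →₀ S.S) where
  toFun a := Finsupp.mapRange.linearMap (a.restrictScalars k)
  map_one' := Finsupp.lhom_ext fun _ _ => by simp
  map_mul' _ _ := Finsupp.lhom_ext fun _ _ => by simp
  map_zero' := Finsupp.lhom_ext fun _ _ => by simp
  map_add' _ _ := Finsupp.lhom_ext fun _ _ => by simp
  commutes' _ := Finsupp.lhom_ext fun _ _ => by simp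

@[simp] theorem sh_single (d j : ℤ) (s : S.S) :
    S.sh d (Finsupp.single j s) = Finsupp.single (j + d) s := by simp [sh]

@[simp] theorem mp_single (a : End K S.S) (j : ℤ) (s : S.S) :
    S.mp a (Finsupp.single j s) = Finsupp.single j (a s) := by simp [mp]

theorem sh_mp (d : ℤ) (a : End K S.S) : Commute (S.sh d) (S.mp a) :=
  Finsupp.lhom_ext fun _ _ => by simp

theorem sh_add (d d' : ℤ) : S.sh d * S.sh d' = S.sh (d + d') :=
  Finsupp.lhom_ext fun _ _ => by simp [add_assoc, add_comm d']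

theorem sh_zero : S.sh 0 = 1 := Finsupp.lhom_ext fun _ _ => by simp

theorem sh_pow (d : ℤ) (m : ℕ) : S.sh d ^ m = S.sh (m * d) := by
  induction m with
  | zero => simp [sh_zero]
  | succ m ih => rw [pow_succ, ih, sh_add]; congr 1; push_cast; ring

/-- the graded action -/
noncomputable def tρ : L →ₗ[k] End k (ℤ →₀ S.S) :=
  ∑ d ∈ T.D, LinearMap.mulLeft k (S.sh d) ∘ₗ S.mp.toLinearMap ∘ₗ S.ρ ∘ₗ T.pr d

theorem tρ_gr {d : ℤ} {x : L} (hx : x ∈ T.gr d) : S.tρ x = S.sh d * S.mp (S.ρ x) := by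
  have h1 := T.sum_pr x
  simp only [T.pr_of_mem _ _ _ hx, Finset.sum_ite_eq'] at h1
  simp only [tρ, LinearMap.sum_apply, LinearMap.comp_apply, LinearMap.mulLeft_apply,
    T.pr_of_mem _ _ _ hx, apply_ite S.ρ, map_zero, apply_ite S.mp.toLinearMap, mul_ite, mul_zero,
    Finset.sum_ite_eq']
  split_ifs at h1 ⊢
  · rfl
  · simp [← h1]

theorem tρ_lie (x y : L) : S.tρ ⁅x, y⁆ = S.tρ x * S.tρ y - S.tρ y * S.tρ x := by
  let J : L →ₗ[k] L →ₗ[k] End k (ℤ →₀ S.S) := LinearMap.mk₂ k
    (fun x y => S.tρ ⁅x, y⁆ - (S.tρ x * S.tρ y - S.tρ y * S.tρ x))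
    (fun _ _ _ => by simp only [add_lie, map_add, add_mul, mul_add]; abel)
    (fun _ _ _ => by simp only [smul_lie, map_smul, smul_mul_assoc, mul_smul_comm, smul_sub])
    (fun _ _ _ => by simp only [lie_add, map_add, add_mul, mul_add]; abel)
    (fun _ _ _ => by simp only [lie_smul, map_smul, smul_mul_assoc, mul_smul_comm, smul_sub])
  have : J x y = 0 := by
    refine T.induction (LinearMap.ker (J x)) (fun b y hy => ?_) y
    refine T.induction (LinearMap.ker (J.flip y)) (fun a x hx => ?_) x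
    change S.tρ ⁅x, y⁆ - (S.tρ x * S.tρ y - S.tρ y * S.tρ x) = 0
    rw [S.tρ_gr hx, S.tρ_gr hy, S.tρ_gr (T.lie_mem _ _ _ _ hx hy), S.lie]
    refine Finsupp.lhom_ext fun j s => ?_
    simp [add_assoc, add_comm b, Finsupp.single_sub]
  exact sub_eq_zero.1 this

/-- the graded module -/
noncomputable def tilde : LRep k L :=
  LRep.ofLin S.tρ fun x y m => LinearMap.congr_fun (S.tρ_lie x y) m

/-- its grading -/
noncomputable def tG : Grading k S.tilde.M where
  P j := (Finsupp.lsingle j : S.S →ₗ[k] ℤ →₀ S.S) ∘ₗ Finsupp.lapply j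
  PP i j m := by
    change ℤ →₀ S.S at m
    change Finsupp.single i ((Finsupp.single j (m j) : ℤ →₀ S.S) i)
      = if i = j then Finsupp.single j (m j) else 0
    split_ifs with h
    · simp [h]
    · simp [Finsupp.single_eq_of_ne h]
  fin m := by
    change ℤ →₀ S.S at m
    rw [← Finsupp.sum_single m]
    exact Submodule.sum_mem _ fun j _ => Submodule.mem_iSup_of_mem j ⟨m, rfl⟩

theorem tG_gr : T.Gr S.tilde S.tG := by
  intro d x hx j m
  change ℤ →₀ S.S at m
  change Finsupp.single (j + d) (S.tρ x m (j + d)) = S.tρ x (Finsupp.single j (m j))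
  rw [S.tρ_gr hx]
  induction m using Finsupp.induction_linear with
  | zero => simp
  | add a b ha hb => simp only [map_add, Finsupp.add_apply, Finsupp.single_add, ha, hb]
  | single i s =>
    by_cases h : i = j
    · simp [h]
    · simp [Finsupp.single_eq_of_ne (Ne.symm h),
        Finsupp.single_eq_of_ne (show j + d ≠ i + d by omega)]

theorem tilde_rel : T.Rel S.tilde := by
  intro x m
  have : S.tρ (T.g x) ^ p = S.tρ (T.pw x) + T.cp x • 1 := by
    rw [S.tρ_gr (T.g_mem x), S.tρ_gr (T.pw_mem x), (S.sh_mp _ _).mul_pow, sh_pow, ← map_pow,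
      S.rel x, map_add, mul_add, map_smul, map_one]
    rcases (T.dg_nonneg x).eq_or_lt with hd | hd
    · simp [← hd, sh_zero]
    · simp [T.cp_pos x hd]
  exact LinearMap.congr_fun this m

section Fibre

variable (F : Type u) [Field F] [Algebra k F] [Algebra (MvPolynomial (Fin (n + 1)) k) F]
  [IsScalarTower k (MvPolynomial (Fin (n + 1)) k) F] [Algebra K F] [IsScalarTower k K F] (t : F)

variable (T K ξ) in
/-- the shape of the map from the central polynomial ring to the big field -/
structure Shape : Prop where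
  δ0 : T.δ 0 = 1
  q0 : T.q 0 = 1
  qs : ∀ i : Fin n, T.q i.succ = p
  t0 : t ≠ 0
  X0 : algebraMap (MvPolynomial (Fin (n + 1)) k) F (MvPolynomial.X 0) = t
  Xs : ∀ i : Fin n, algebraMap (MvPolynomial (Fin (n + 1)) k) F (MvPolynomial.X i.succ)
    = algebraMap K F (ξ i ^ p) * t ^ (p * T.δ i.succ)

variable {F t} (hS : Shape T K ξ F t)
include hS

theorem B_zero : T.B S.tilde 0 = S.sh (-1) := by
  have := S.tρ_gr (T.y_mem 0)
  rw [S.y0, map_one, mul_one, hS.δ0] at this
  rw [B, hS.q0, pow_one]; exact this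

theorem B_succ (i : Fin n) : T.B S.tilde i.succ
    = S.sh (p * -T.δ i.succ) * S.mp (algebraMap K _ (ξ i ^ p)) := by
  rw [B, hS.qs, ← S.ys, map_pow, ← sh_pow, ← (S.sh_mp _ _).mul_pow, ← S.tρ_gr (T.y_mem _)]
  rfl

theorem mp_B (a : End K S.S) (i : Fin (n + 1)) : Commute (S.mp a) (T.B S.tilde i) := by
  refine Fin.cases ?_ (fun i => ?_) i
  · rw [S.B_zero hS]; exact (S.sh_mp _ _).symm
  · rw [S.B_succ hS]
    exact (S.sh_mp _ _).symm.mul_right (Commute.map (Algebra.commutes _ a).symm S.mp)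

theorem sh_B (d : ℤ) (i : Fin (n + 1)) : Commute (S.sh d) (T.B S.tilde i) := by
  have : ∀ d', Commute (S.sh d) (S.sh d') := fun d' => by
    rw [Commute, SemiconjBy, sh_add, sh_add, add_comm]
  refine Fin.cases ?_ (fun i => ?_) i
  · rw [S.B_zero hS]; exact this _
  · rw [S.B_succ hS]; exact (this _).mul_right (S.sh_mp _ _)

/-- componentwise action on the generic fibre -/
noncomputable def Θ : End K S.S →ₐ[k] End F (T.XM F S.tilde) where
  toFun a := (T.linZ (R := S.tilde) (R' := S.tilde) (S.mp a)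
    fun i m => LinearMap.congr_fun (S.mp_B hS a i) m).baseChange F
  map_one' := by
    rw [← LinearMap.baseChange_one]; congr 1
    exact LinearMap.ext fun m => LinearMap.congr_fun (map_one S.mp) m
  map_mul' a b := by
    rw [← LinearMap.baseChange_mul]; congr 1
    exact LinearMap.ext fun m => LinearMap.congr_fun (map_mul S.mp a b) m
  map_zero' := by
    rw [← LinearMap.baseChange_zero]; congr 1
    exact LinearMap.ext fun m => LinearMap.congr_fun (map_zero S.mp) m
  map_add' a b := by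
    rw [← LinearMap.baseChange_add]; congr 1
    exact LinearMap.ext fun m => LinearMap.congr_fun (map_add S.mp a b) m
  commutes' c := by
    refine LinearMap.ext fun m => ?_
    induction m using TensorProduct.induction_on with
    | zero => simp
    | add a b ha hb => simp only [map_add, ha, hb]
    | tmul a m =>
      rw [LinearMap.baseChange_tmul, Module.algebraMap_end_apply, ← tmul_smul]
      exact congrArg (fun y : T.ZM S.tilde => a ⊗ₜ y) (LinearMap.congr_fun (S.mp.commutes c) m)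

/-- the class of an element of the graded module in the generic fibre -/
noncomputable def el (a : F) (m : ℤ →₀ S.S) : T.XM F S.tilde :=
  a ⊗ₜ (show T.ZM S.tilde from m)

omit hS in
theorem el_ext {W : Type*} [AddCommGroup W] [Module F W] {f g : T.XM F S.tilde →ₗ[F] W}
    (h : ∀ a m, f (S.el a m) = g (S.el a m)) : f = g :=
  LinearMap.ext fun x => TensorProduct.induction_on x (by simp) h
    fun a b ha hb => by simp only [map_add, ha, hb]

theorem Θ_el (x : End K S.S) (a : F) (m : ℤ →₀ S.S) :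
    S.Θ hS x (S.el a m) = S.el a (S.mp x m) := rfl

omit hS in
theorem smul_el (c a : F) (m : ℤ →₀ S.S) : c • S.el a m = S.el (c * a) m := rfl

omit hS in
theorem el_B (i : Fin (n + 1)) (a : F) (m : ℤ →₀ S.S) : S.el a (T.B S.tilde i m)
    = algebraMap (MvPolynomial (Fin (n + 1)) k) F (MvPolynomial.X i) • S.el a m := by
  rw [algebraMap_smul, el, el, ← tmul_smul, X_smul]

theorem el_sh (d : ℤ) (a : F) (m : ℤ →₀ S.S) : t ^ d • S.el a (S.sh d m) = S.el a m := by
  have h1 : ∀ m, S.el a (S.sh (-1) m) = t • S.el a m := fun m => by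
    rw [← S.B_zero hS, ← hS.X0]; exact S.el_B 0 a m
  have h2 : ∀ d d' m, S.sh d (S.sh d' m) = S.sh (d + d') m := fun d d' m =>
    LinearMap.congr_fun (S.sh_add d d') m
  induction d using Int.induction_on generalizing m with
  | zero => simp [sh_zero]
  | succ d ih =>
    rw [zpow_add_one₀ hS.t0, mul_smul, ← h1, h2, ← ih m]; congr 3; ring
  | pred d ih =>
    rw [zpow_sub_one₀ hS.t0, show -(d : ℤ) - 1 = -1 + -d by ring, ← h2, h1, smul_smul,
      inv_mul_cancel_right₀ hS.t0, ih]

theorem ψ_one (w : FreeAlgebra k (ℤ × L)) : T.ψ F K t S.tilde (1 ⊗ₜ w) = S.Θ hS (S.π0 w) := by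
  induction w using FreeAlgebra.induction with
  | grade0 r =>
    rw [← Algebra.TensorProduct.algebraMap_apply', AlgHom.commutes, AlgHom.commutes,
      AlgHom.commutes]
  | grade1 h =>
    rw [ψ_ι, π0, FreeAlgebra.lift_ι_apply]
    refine S.el_ext fun a m => ?_
    rw [Θ_el, ← S.el_sh hS h.1 a (S.mp _ m)]
    exact congrArg (fun y => t ^ h.1 • S.el a y)
      (LinearMap.congr_fun (S.tρ_gr (T.pr_mem h.1 h.2)) m)
  | mul a b ha hb =>
    rw [map_mul, map_mul, ← ha, ← hb, ← map_mul, Algebra.TensorProduct.tmul_mul_tmul, one_mul]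
  | add a b ha hb => rw [tmul_add, map_add, map_add, map_add, ha, hb]

theorem ψ_tmul (a : K) (w : FreeAlgebra k (ℤ × L)) :
    T.ψ F K t S.tilde (a ⊗ₜ w) = algebraMap K F a • S.Θ hS (S.π0 w) := by
  rw [← S.ψ_one hS]
  refine LinearMap.ext fun m => ?_
  rw [LinearMap.smul_apply, ← T.ψ_left F K t, ← End.mul_apply, ← map_mul,
    Algebra.TensorProduct.tmul_mul_tmul, one_mul, mul_one]

theorem Θ_ξ (i : Fin n) :
    S.Θ hS (algebraMap K _ (ξ i ^ p)) = algebraMap K F (ξ i ^ p) • 1 := by
  refine S.el_ext fun a m => ?_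
  have h1 := S.el_B i.succ a m
  rw [S.B_succ hS, hS.Xs] at h1
  have h2 := S.el_sh hS (p * -T.δ i.succ) a (S.mp (algebraMap K _ (ξ i ^ p)) m)
  rw [Θ_el, ← h2]
  refine (congrArg (fun y => t ^ ((p : ℤ) * -T.δ i.succ) • y) h1).trans ?_
  rw [smul_smul, mul_left_comm, ← zpow_natCast t, ← zpow_add₀ hS.t0]
  simp

/-- the two actions of the field -/
noncomputable def Λ : K ⊗[k] K →ₐ[k] End F (T.XM F S.tilde) :=
  Algebra.TensorProduct.lift
    (((Algebra.ofId F _).restrictScalars k).comp (IsScalarTower.toAlgHom k K F))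
    ((S.Θ hS).comp (IsScalarTower.toAlgHom k K _))
    (fun a _ => Algebra.commutes (algebraMap K F a) _)

theorem Λ_tmul (a b : K) :
    S.Λ hS (a ⊗ₜ b) = algebraMap K F a • S.Θ hS (algebraMap K _ b) := by
  rw [Λ, Algebra.TensorProduct.lift_tmul, Algebra.smul_def]; rfl

theorem Λ_Θ (c : K ⊗[k] K) (x : End K S.S) : Commute (S.Λ hS c) (S.Θ hS x) := by
  induction c using TensorProduct.induction_on with
  | zero => simp
  | tmul a b =>
    rw [Λ_tmul]
    exact Commute.smul_left (Commute.map (Algebra.commutes b x) (S.Θ hS)) _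
  | add a b ha hb => rw [map_add]; exact ha.add_left hb

theorem nil [Fact p.Prime] [CharP k p] (σ : K →ₐ[k] K)
    (hGen : ∀ (D : Type u) [CommRing D] [IsDomain D] [Algebra k D] (l r : K →ₐ[k] D),
      (∀ i, l (ξ i) = r (ξ i)) → l = r ∨ l = r.comp σ)
    {z : K ⊗[k] FreeAlgebra k (ℤ × L)} (h1 : S.π z = 0)
    (h2 : S.π (Algebra.TensorProduct.map σ (AlgHom.id k _) z) = 0) :
    IsNilpotent (T.ψ F K t S.tilde z) := by
  let E := Module.finBasis K (End K S.S)
  let co : Fin (finrank K (End K S.S)) → K ⊗[k] FreeAlgebra k (ℤ × L) →ₗ[k] K ⊗[k] K := fun a =>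
    LinearMap.lTensor K ((E.coord a).restrictScalars k ∘ₗ S.π0.toLinearMap)
  have hco : ∀ a c w, co a (c ⊗ₜ w) = c ⊗ₜ E.repr (S.π0 w) a := fun _ _ _ => rfl
  have e1 : ∀ z, T.ψ F K t S.tilde z = ∑ a, S.Λ hS (co a z) * S.Θ hS (E a) := by
    intro z
    induction z using TensorProduct.induction_on with
    | zero => simp
    | add a b ha hb => simp only [map_add, ha, hb, add_mul, Finset.sum_add_distrib]
    | tmul c w =>
      rw [S.ψ_tmul hS]
      conv_lhs => rw [← E.sum_repr (S.π0 w)]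
      simp only [hco, Λ_tmul, map_sum, Finset.smul_sum, smul_mul_assoc, ← map_mul,
        ← Algebra.smul_def]
  have e2 : ∀ (τ : K →ₐ[k] K) z a, E.repr (S.π (Algebra.TensorProduct.map τ (AlgHom.id k _) z)) a
      = Algebra.TensorProduct.lmul' k
        (Algebra.TensorProduct.map τ (AlgHom.id k K) (co a z)) := by
    intro τ z a
    induction z using TensorProduct.induction_on with
    | zero => simp
    | add a b ha hb => simp only [map_add, ha, hb, Finsupp.add_apply]
    | tmul c w => simp [hco, π_tmul]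
  rw [e1]
  refine nil_sum_central _ _ (fun a => ?_) (fun a b => Commute.map (Commute.all _ _) (S.Λ hS))
    (fun a b => S.Λ_Θ hS _ _) _
  refine nil_of_ker ξ σ hGen (S.Λ hS).toRingHom (fun i => ?_) ?_ ?_
  · change S.Λ hS _ = S.Λ hS _
    rw [Λ_tmul, Λ_tmul, S.Θ_ξ hS]; simp
  · have := e2 (AlgHom.id k K) z a
    simpa [h1] using this.symm
  · rw [← e2, h2]; simp

end Fibre

end GenRep

end Trg

end Pool.Agent.P.Bf04
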