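import Pool.Agent.P.MP_bf0464_al.H.Trg

/-! Induced modules. -/

namespace Pool.Agent.P.Bf04

open Module

attribute [local instance 100] LieRing.ofAssociativeRing

universe u

namespace Trg

variable {k : Type u} [Field k] {L : Type u} [LieRing L] [LieAlgebra k L] {n p : ℕ}
  (T : Trg k L n p) (N : LRep k T.par)

/-- the action of the negative part on maps from the Lie algebra -/
noncomputable def Wo (i : Fin n) : End k (L →ₗ[k] (Multiset (Fin n) →₀ N.M)) :=
  LinearMap.llcomp k L _ _ (T.H.Yo N.M i) - LinearMap.lcomp k _ (LieAlgebra.ad k L (T.y i))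

theorem Wo_apply (i : Fin n) (φ : L →ₗ[k] (Multiset (Fin n) →₀ N.M)) (x : L) :
    T.Wo N i φ x = T.H.Yo N.M i (φ x) - φ ⁅T.y i, x⁆ := rfl

theorem Wo_lie (i j : Fin n) :
    T.Wo N i * T.Wo N j - T.Wo N j * T.Wo N i = ∑ l, T.H.γ i j l • T.Wo N l := by
  refine LinearMap.ext fun φ => LinearMap.ext fun x => ?_
  have h1 := LinearMap.congr_fun (T.H.Yo_lie (E := N.M) i j) (φ x)
  have h2 := congrArg φ (lie_lie (T.y i) (T.y j) x)
  rw [T.lie_y, sum_lie] at h2
  simp only [LinearMap.sub_apply, End.mul_apply, LinearMap.smul_apply, Wo_apply, map_sub,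
    map_smul, smul_sub, LinearMap.sum_apply, map_sum, smul_lie, Finset.sum_sub_distrib] at h1 h2 ⊢
  linear_combination (norm := abel) h1 + h2

/-- the action on the generating subspace -/
noncomputable def f0 : N.M →ₗ[k] L →ₗ[k] (Multiset (Fin n) →₀ N.M) :=
  ((N.ρ : T.par →ₗ[k] End k N.M) ∘ₗ T.π).flip.compr₂ (Finsupp.lsingle 0)
    + ∑ i, (LinearMap.smulRightₗ (T.c i)) ∘ₗ Finsupp.lsingle {i}

theorem f0_apply (v : N.M) (x : L) : T.f0 N v x
    = Finsupp.single 0 (N.ρ (T.π x) v) + ∑ i, T.c i x • Finsupp.single {i} v := by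
  simp [f0, LinearMap.sum_apply]

/-- the action on the induced module -/
noncomputable def Act : L →ₗ[k] End k (Multiset (Fin n) →₀ N.M) :=
  (Heis.univ (T.Wo N) (T.f0 N)).flip

theorem Act_zero (x : L) (v : N.M) : T.Act N x (Finsupp.single 0 v)
    = Finsupp.single 0 (N.ρ (T.π x) v) + ∑ i, T.c i x • Finsupp.single {i} v := by
  rw [Act, LinearMap.flip_apply, Heis.univ_zero, f0_apply]

theorem Act_Yo (x : L) (i : Fin n) (a : Multiset (Fin n) →₀ N.M) :
    T.Act N x (T.H.Yo N.M i a) = T.H.Yo N.M i (T.Act N x a) - T.Act N ⁅T.y i, x⁆ a := by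
  rw [Act, LinearMap.flip_apply, T.H.univ_Yo _ (T.Wo_lie N), Wo_apply]; rfl

theorem Act_y (i : Fin n) (a : Multiset (Fin n) →₀ N.M) :
    T.Act N (T.y i) a = T.H.Yo N.M i a := by
  have := T.H.gen_top (⨅ i, LinearMap.eqLocus (T.Act N (T.y i)) (T.H.Yo N.M i)) ?_ ?_ a
  · exact (Submodule.mem_iInf _).1 this i
  · intro v
    refine (Submodule.mem_iInf _).2 fun i => ?_
    rw [LinearMap.mem_eqLocus, Act_zero, Neg.Yo_zero]
    simp [T.π_y, T.c_y]
  · intro j a ha
    have ha' : ∀ i, T.Act N (T.y i) a = T.H.Yo N.M i a := fun i => (Submodule.mem_iInf _).1 ha i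
    refine (Submodule.mem_iInf _).2 fun i => ?_
    rw [LinearMap.mem_eqLocus, Act_Yo, T.lie_y, map_sum, LinearMap.sum_apply]
    have h1 := LinearMap.congr_fun (T.H.Yo_lie (E := N.M) j i) a
    simp only [LinearMap.sub_apply, End.mul_apply, LinearMap.smul_apply, LinearMap.sum_apply,
      map_smul, ha'] at h1 ⊢
    rw [← h1]; abel

theorem Act_lie (x x' : L) (a : Multiset (Fin n) →₀ N.M) :
    T.Act N ⁅x, x'⁆ a = T.Act N x (T.Act N x' a) - T.Act N x' (T.Act N x a) := by
  have := T.H.gen_top (⨅ x, ⨅ x', LinearMap.eqLocus (T.Act N ⁅x, x'⁆)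
    (T.Act N x * T.Act N x' - T.Act N x' * T.Act N x)) ?_ ?_ a
  · exact (Submodule.mem_iInf _).1 ((Submodule.mem_iInf _).1 this x) x'
  · intro v
    refine (Submodule.mem_iInf _).2 fun x => (Submodule.mem_iInf _).2 fun x' => ?_
    rw [LinearMap.mem_eqLocus]
    let J : L →ₗ[k] L →ₗ[k] (Multiset (Fin n) →₀ N.M) := LinearMap.mk₂ k
      (fun x x' => T.Act N ⁅x, x'⁆ (Finsupp.single 0 v) - (T.Act N x (T.Act N x'
        (Finsupp.single 0 v)) - T.Act N x' (T.Act N x (Finsupp.single 0 v))))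
      (fun _ _ _ => by simp only [add_lie, map_add, LinearMap.add_apply]; abel)
      (fun _ _ _ => by simp only [smul_lie, map_smul, LinearMap.smul_apply, smul_sub])
      (fun _ _ _ => by simp only [lie_add, map_add, LinearMap.add_apply]; abel)
      (fun _ _ _ => by simp only [lie_smul, map_smul, LinearMap.smul_apply, smul_sub])
    have hJ : ∀ x x', J x x' = T.Act N ⁅x, x'⁆ (Finsupp.single 0 v) - (T.Act N x (T.Act N x'
        (Finsupp.single 0 v)) - T.Act N x' (T.Act N x (Finsupp.single 0 v))) := fun _ _ => rfl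
    have hpar : ∀ x : T.par, ∀ w, T.Act N x (Finsupp.single 0 w)
        = Finsupp.single 0 (N.ρ x w) := fun x w => by
      simp [Act_zero, T.π_par, T.c_par _ x.2]
    have h1 : ∀ x i, J x (T.y i) = 0 := by
      intro x i
      rw [hJ, Act_y, Act_y, Act_Yo, ← lie_skew, map_neg, LinearMap.neg_apply]; abel
    have h2 : ∀ i x, J (T.y i) x = 0 := by
      intro i x
      rw [hJ, Act_y, Act_y, Act_Yo]; abel
    have h3 : J x x' = 0 := by
      refine T.induction' (LinearMap.ker (J x)) (fun x' hx' => ?_) (h1 x) x'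
      refine T.induction' (LinearMap.ker (J.flip x')) (fun x hx => ?_) (fun i => h2 i x') x
      have := hpar ⁅(⟨x, hx⟩ : T.par), (⟨x', hx'⟩ : T.par)⁆ v
      rw [LinearMap.mem_ker, LinearMap.flip_apply, hJ, hpar ⟨x, hx⟩, hpar ⟨x', hx'⟩,
        hpar ⟨x, hx⟩, hpar ⟨x', hx'⟩, ← Finsupp.single_sub, ← N.lie_apply, ← this]
      exact sub_self _
    exact sub_eq_zero.1 h3
  · intro j a ha
    have ha' : ∀ x x', T.Act N ⁅x, x'⁆ a
        = T.Act N x (T.Act N x' a) - T.Act N x' (T.Act N x a) := fun x x' =>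
      (Submodule.mem_iInf _).1 ((Submodule.mem_iInf _).1 ha x) x'
    refine (Submodule.mem_iInf _).2 fun x => (Submodule.mem_iInf _).2 fun x' => ?_
    rw [LinearMap.mem_eqLocus]
    simp only [LinearMap.sub_apply, End.mul_apply, Act_Yo, map_sub, leibniz_lie (T.y j) x x',
      map_add, LinearMap.add_apply]
    rw [ha' x x', ha' ⁅T.y j, x⁆ x', ha' x ⁅T.y j, x'⁆, map_sub]
    abel

/-- the induced module -/
noncomputable def Ind : LRep k L := LRep.ofLin (T.Act N) (T.Act_lie N)

/-- the inclusion of the generating subspace -/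
noncomputable def inc : N.M →ₗ[k] (T.Ind N).M := Finsupp.lsingle (0 : Multiset (Fin n))

theorem inc_hom : N.IsHom ((T.Ind N).res T.par.incl) (T.inc N) := fun x w => by
  change Finsupp.single 0 _ = T.Act N x (Finsupp.single 0 w)
  simp [Act_zero, T.π_par, T.c_par _ x.2]

theorem inc_par (x : T.par) (v : N.M) : (T.Ind N).ρ x (T.inc N v) = T.inc N (N.ρ x v) :=
  (T.inc_hom N x v).symm

theorem inc_inj : Function.Injective (T.inc N) := Finsupp.single_injective _

theorem Ind_y (i : Fin n) : (T.Ind N).ρ (T.y i) = T.H.Yo N.M i :=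
  LinearMap.ext (T.Act_y N i)

theorem Ind_gen (U : Submodule k (T.Ind N).M) (h0 : ∀ v, T.inc N v ∈ U)
    (hY : ∀ i, ∀ a ∈ U, (T.Ind N).ρ (T.y i) a ∈ U) (a : (T.Ind N).M) : a ∈ U :=
  T.H.gen_top U h0 (fun i a ha => by have := hY i a ha; rwa [Ind_y] at this) a

theorem Ind_ext {M : Type*} [AddCommGroup M] [Module k M] {f g : (T.Ind N).M →ₗ[k] M}
    (W : Fin n → End k M) (hf : ∀ i a, f ((T.Ind N).ρ (T.y i) a) = W i (f a))
    (hg : ∀ i a, g ((T.Ind N).ρ (T.y i) a) = W i (g a))
    (h : ∀ v, f (T.inc N v) = g (T.inc N v)) : f = g :=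
  LinearMap.ext fun a => T.Ind_gen N (LinearMap.eqLocus f g) h
    (fun i a ha => by rw [LinearMap.mem_eqLocus] at ha ⊢; rw [hf, hg, ha]) a

theorem Ind_scalar {f : End k (T.Ind N).M} (hf : ∀ x, Commute f ((T.Ind N).ρ x)) {c : k}
    (h : ∀ v, f (T.inc N v) = c • T.inc N v) (a : (T.Ind N).M) : f a = c • a :=
  LinearMap.congr_fun (T.Ind_ext N (f := f) (g := c • LinearMap.id)
    (fun i => (T.Ind N).ρ (T.y i)) (fun i a => LinearMap.congr_fun (hf (T.y i)) a)
    (fun i a => by simp) h) a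

theorem Ind_rel (h : T.RelP N) : T.Rel (T.Ind N) := by
  intro x a
  have := T.Ind_scalar N (T.pw_comm (T.Ind N) x) (c := T.cp x) (fun v => ?_) a
  · rw [← this]; simp
  · have h1 := (T.inc_hom N).pow ⟨_, T.g_par x⟩ p v
    rw [h x v, map_add, map_smul, T.inc_hom N] at h1
    rw [LinearMap.sub_apply, sub_eq_iff_eq_add']
    exact h1.symm

variable {N}

/-- the universal map -/
noncomputable def lift {R : LRep k L} (f : N.M →ₗ[k] R.M) : (T.Ind N).M →ₗ[k] R.M :=
  Heis.univ (fun i => R.ρ (T.y i)) f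

theorem lift_inc {R : LRep k L} (f : N.M →ₗ[k] R.M) (v : N.M) : T.lift f (T.inc N v) = f v :=
  Heis.univ_zero _ _ _

theorem lift_y {R : LRep k L} (f : N.M →ₗ[k] R.M) (i : Fin n) (a : (T.Ind N).M) :
    T.lift f ((T.Ind N).ρ (T.y i) a) = R.ρ (T.y i) (T.lift f a) := by
  rw [Ind_y]
  exact T.H.univ_Yo _ (fun i j => by rw [← R.lie_eq, T.lie_y, map_sum]; simp only [map_smul]) f i a

theorem lift_hom {R : LRep k L} {f : N.M →ₗ[k] R.M} (hf : N.IsHom (R.res T.par.incl) f) :
    (T.Ind N).IsHom R (T.lift f) := by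
  intro x a
  have := T.Ind_gen N (⨅ x, LinearMap.eqLocus (T.lift f ∘ₗ (T.Ind N).ρ x) (R.ρ x ∘ₗ T.lift f))
    ?_ ?_ a
  · exact (Submodule.mem_iInf _).1 this x
  · intro v
    refine (Submodule.mem_iInf _).2 fun x => ?_
    let J : L →ₗ[k] R.M := T.lift f ∘ₗ (LinearMap.applyₗ (T.inc N v)) ∘ₗ (T.Ind N).ρ.toLinearMap
      - (LinearMap.applyₗ (T.lift f (T.inc N v))) ∘ₗ R.ρ.toLinearMap
    have hJ : ∀ x, J x = T.lift f ((T.Ind N).ρ x (T.inc N v))
      - R.ρ x (T.lift f (T.inc N v)) := fun _ => rfl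
    have : J x = 0 := by
      refine T.induction' (LinearMap.ker J) (fun x hx => ?_) (fun i => ?_) x
      · rw [LinearMap.mem_ker, hJ, T.inc_par N ⟨x, hx⟩, lift_inc, lift_inc]
        exact sub_eq_zero.2 (hf ⟨x, hx⟩ v)
      · rw [LinearMap.mem_ker, hJ, lift_y, sub_self]
    exact sub_eq_zero.1 this
  · intro j a ha
    have ha' : ∀ x, T.lift f ((T.Ind N).ρ x a) = R.ρ x (T.lift f a) := fun x =>
      (Submodule.mem_iInf _).1 ha x
    refine (Submodule.mem_iInf _).2 fun x => ?_
    rw [LinearMap.mem_eqLocus, LinearMap.comp_apply, LinearMap.comp_apply, LRep.comm_apply,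
      map_add, lift_y, lift_y, ha', ha', R.comm_apply x]

theorem Ind_iso {N' : LRep k T.par} (h : N.Iso N') : (T.Ind N).Iso (T.Ind N') := by
  obtain ⟨g, hg⟩ := h.symm
  obtain ⟨f, hf⟩ : ∃ f : N.M ≃ₗ[k] N'.M, f = g.symm := ⟨_, rfl⟩
  have hf' : N.IsHom N' f := fun x m => g.injective (by
    have := hg x (f m)
    simp only [hf, LinearEquiv.coe_coe, LinearEquiv.apply_symm_apply] at this ⊢
    exact this.symm)
  have h1 := T.lift_hom ((T.inc_hom N').comp hf')
  have h2 := T.lift_hom ((T.inc_hom N).comp hg)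
  refine ⟨LinearEquiv.ofLinear (T.lift (T.inc N' ∘ₗ f)) (T.lift (T.inc N ∘ₗ g)) ?_ ?_, h1⟩
  · refine T.Ind_ext N' (fun i => (T.Ind N').ρ (T.y i)) (fun i a => (h1.comp h2) _ a)
      (fun _ _ => rfl) fun v => ?_
    simp [lift_inc, hf]
  · refine T.Ind_ext N (fun i => (T.Ind N).ρ (T.y i)) (fun i a => (h2.comp h1) _ a)
      (fun _ _ => rfl) fun v => ?_
    simp [lift_inc, hf]

variable (N)

theorem Ind_Ys (j : ℕ) :
    T.Ys (T.Ind N) j = Finsupp.supported N.M k {s : Multiset (Fin n) | ∃ i ∈ s, i.val < j} := by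
  apply le_antisymm
  · refine T.Ys_le _ fun i hi a => ?_
    rw [Ind_y]
    exact T.H.Yo_mem_lt (fun i => i.val < j) (fun a b h h' => lt_trans h h') hi a
  · refine Neg.supp_le (U := T.Ys (T.Ind N) j) fun s hs v => ?_
    obtain ⟨i, hi, hij⟩ := hs
    obtain ⟨a, ha, hmin⟩ := Multiset.exists_min_image id (s := s) (by rintro rfl; simp at hi)
    obtain ⟨t, rfl⟩ := Multiset.exists_cons_of_mem ha
    have h1 := T.y_mem_Ys (T.Ind N) (i := a) (lt_of_le_of_lt (hmin i hi) hij) (Finsupp.single t v)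
    rw [Ind_y] at h1
    exact T.H.Yo_ord (fun b hb => hmin b (Multiset.mem_cons_of_mem hb)) v ▸ h1

theorem Ind_reg : T.Reg (T.Ind N) n := by
  classical
  intro i _ a ha
  change Multiset (Fin n) →₀ N.M at a
  let S : Set (Multiset (Fin n)) := {s | ∃ l ∈ s, l.val < i.val}
  have h1 : a.filter (· ∈ S) ∈ T.Ys (T.Ind N) i := by
    rw [Ind_Ys]
    exact (Finsupp.mem_supported' k (a.filter (· ∈ S))).2 fun s hs => Finsupp.filter_apply_neg _ _ hs
  have h2 : ∀ b ∈ Finsupp.supported N.M k Sᶜ, T.H.Yo N.M i b = Xo k N.M i b := fun b hb =>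
    Neg.supp_le (U := LinearMap.eqLocus (T.H.Yo N.M i) (Xo k N.M i)) (fun s hs v => by
      rw [LinearMap.mem_eqLocus, Xo_single]
      exact T.H.Yo_ord (fun l hl => not_lt.1 fun h => hs ⟨l, hl, h⟩) v) hb
  have h3 := sub_mem ha (T.Ys_stable _ i _ h1)
  have h4 : a - a.filter (· ∈ S) ∈ Finsupp.supported N.M k Sᶜ :=
    (Finsupp.mem_supported' k _).2 fun s hs => by
      rw [Finsupp.sub_apply, Finsupp.filter_apply_pos _ _ (by simpa using hs), sub_self]
  rw [← map_sub, Ind_Ys, Ind_y] at h3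
  rw [Ind_Ys]
  refine (Finsupp.mem_supported' k a).2 fun t ht => ?_
  have h5 := (Finsupp.mem_supported' k (T.H.Yo N.M i (a - a.filter (· ∈ S)))).1 h3 (i ::ₘ t) (by
    rintro ⟨l, hl, h⟩
    rcases Multiset.mem_cons.1 hl with rfl | hl
    exacts [lt_irrefl _ h, ht ⟨l, hl, h⟩])
  rw [h2 _ h4] at h5
  have h6 : Xo k N.M i (a - a.filter (· ∈ S)) (i ::ₘ t) = (a - a.filter (· ∈ S)) t :=
    Finsupp.mapDomain_apply (fun _ _ h => (Multiset.cons_inj_right i).1 h) _ t
  rwa [h6, Finsupp.sub_apply, Finsupp.filter_apply_neg _ _ ht, sub_zero] at h5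

theorem sub_inc_mem (a : (T.Ind N).M) : ∃ v, a - T.inc N v ∈ T.Ys (T.Ind N) n := by
  change Multiset (Fin n) →₀ N.M at a
  refine ⟨a 0, ?_⟩
  rw [Ind_Ys]
  refine (Finsupp.mem_supported' k (a - Finsupp.single 0 (a 0))).2 fun t ht => ?_
  rcases Multiset.empty_or_exists_mem t with rfl | ⟨i, hi⟩
  · exact (Finsupp.sub_apply a _ 0).trans (by simp)
  · exact absurd ⟨i, hi, i.2⟩ ht

/-- degree of a monomial -/
def deg (s : Multiset (Fin n)) : ℤ := (s.map fun i => (T.δ i : ℤ)).sum

theorem deg_cons (i : Fin n) (s : Multiset (Fin n)) : T.deg (i ::ₘ s) = T.δ i + T.deg s := by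
  simp [deg]

theorem deg_nonneg (s : Multiset (Fin n)) : 0 ≤ T.deg s :=
  Multiset.sum_nonneg fun x hx => by
    obtain ⟨i, -, rfl⟩ := Multiset.mem_map.1 hx; positivity

variable {N}

/-- projections of the induced module -/
noncomputable def IP (G : Grading k N.M) (j : ℤ) : End k (Multiset (Fin n) →₀ N.M) :=
  Finsupp.lsum k fun s => Finsupp.lsingle s ∘ₗ G.P (j + T.deg s)

theorem IP_single (G : Grading k N.M) (j : ℤ) (s : Multiset (Fin n)) (v : N.M) :
    T.IP G j (Finsupp.single s v) = Finsupp.single s (G.P (j + T.deg s) v) := by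
  simp [IP]

/-- the grading of the induced module -/
noncomputable def IndG (G : Grading k N.M) : Grading k (T.Ind N).M where
  P := T.IP G
  PP i j a := by
    change Multiset (Fin n) →₀ N.M at a
    change T.IP G i (T.IP G j a) = if i = j then T.IP G j a else 0
    induction a using Finsupp.induction_linear with
    | zero => simp
    | add a b ha hb => rw [map_add, map_add, ha, hb]; split_ifs <;> simp
    | single s v => rw [IP_single, IP_single, G.PP]; split_ifs <;> simp_all
  fin a := by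
    change Multiset (Fin n) →₀ N.M at a
    induction a using Finsupp.induction_linear with
    | zero => exact zero_mem _
    | add a b ha hb => exact add_mem ha hb
    | single s v =>
      obtain ⟨t, ht, -⟩ := G.exists_sum v
      rw [← ht, Finsupp.single_finset_sum]
      refine Submodule.sum_mem _ fun j _ => Submodule.mem_iSup_of_mem (j - T.deg s)
        ⟨Finsupp.single s v, ?_⟩
      exact (T.IP_single G _ s v).trans (by rw [sub_add_cancel])

theorem IndG_inc (G : Grading k N.M) : G.IsHom (T.IndG G) (T.inc N) := fun j v => by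
  change Finsupp.single 0 _ = T.IP G j (Finsupp.single 0 v)
  rw [IP_single]; simp [deg]

theorem IndG_bdd {G : Grading k N.M} (h : G.Bdd) : (T.IndG G).Bdd := by
  obtain ⟨t, ht⟩ := h
  refine ⟨t, fun j hj a => ?_⟩
  change Multiset (Fin n) →₀ N.M at a
  change T.IP G j a = 0
  induction a using Finsupp.induction_linear with
  | zero => simp
  | add a b ha hb => rw [map_add, ha, hb, add_zero]
  | single s v =>
    have := T.deg_nonneg s
    rw [IP_single, ht _ (by omega), Finsupp.single_zero]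

theorem IndG_y (G : Grading k N.M) (i : Fin n) :
    (T.IndG G).Deg ((T.Ind N).ρ (T.y i)) (-T.δ i) := by
  intro j a
  rw [Ind_y]
  change Multiset (Fin n) →₀ N.M at a
  change T.IP G _ (T.H.Yo N.M i a) = T.H.Yo N.M i (T.IP G j a)
  induction a using Finsupp.induction_linear with
  | zero => simp
  | add a b ha hb => simp only [map_add, ha, hb]
  | single s v =>
    rw [IP_single, Neg.Yo_single, Neg.Yo_single]
    refine Neg.supp_le (U := LinearMap.eqLocus (T.IP G (j + -T.δ i) ∘ₗ Neg.tv N.M v)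
      (Neg.tv N.M (G.P (j + T.deg s) v))) (fun t ht c => ?_)
      (T.H.Yo_deg (fun i => (T.δ i : ℤ)) (fun a b c h => by simp [T.δ_z h]) i s)
    rw [LinearMap.mem_eqLocus, LinearMap.comp_apply, Neg.tv_single, Neg.tv_single, IP_single,
      map_smul, show T.deg t = T.δ i + T.deg s from ht]
    congr 4; ring

theorem IndG_gr {G : Grading k N.M} (h : T.GrP N G) : T.Gr (T.Ind N) (T.IndG G) := by
  intro d x hx j a
  have := T.Ind_gen N (⨅ d, ⨅ x : T.gr d, ⨅ j, LinearMap.eqLocus
    ((T.IndG G).P (j + d) ∘ₗ (T.Ind N).ρ x) ((T.Ind N).ρ x ∘ₗ (T.IndG G).P j)) ?_ ?_ a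
  · exact (Submodule.mem_iInf _).1 ((Submodule.mem_iInf _).1
      ((Submodule.mem_iInf _).1 this d) ⟨x, hx⟩) j
  · intro v
    refine (Submodule.mem_iInf _).2 fun d => (Submodule.mem_iInf _).2 fun x =>
      (Submodule.mem_iInf _).2 fun j => ?_
    obtain ⟨x, hx⟩ := x
    rw [LinearMap.mem_eqLocus, LinearMap.comp_apply, LinearMap.comp_apply]
    rcases lt_or_ge d 0 with hd | hd
    · simp only
      rw [← T.exp_neg d hd x hx]
      simp only [map_sum, map_smul, LinearMap.sum_apply, LinearMap.smul_apply]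
      refine Finset.sum_congr rfl fun i _ => ?_
      by_cases hi : d = -T.δ i
      · rw [hi, T.IndG_y G i]
      · simp [T.c_zero i d x hx hi]
    · have hp := T.mem_par_of_gr hd hx
      rw [← T.IndG_inc G, T.inc_par N ⟨x, hp⟩, T.inc_par N ⟨x, hp⟩, ← T.IndG_inc G,
        h d ⟨x, hp⟩ hx]
  · intro i a ha
    have ha' : ∀ d, ∀ x ∈ T.gr d, ∀ j, (T.IndG G).P (j + d) ((T.Ind N).ρ x a)
        = (T.Ind N).ρ x ((T.IndG G).P j a) := fun d x hx j =>
      (Submodule.mem_iInf _).1 ((Submodule.mem_iInf _).1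
        ((Submodule.mem_iInf _).1 ha d) ⟨x, hx⟩) j
    refine (Submodule.mem_iInf _).2 fun d => (Submodule.mem_iInf _).2 fun x =>
      (Submodule.mem_iInf _).2 fun j => ?_
    obtain ⟨x, hx⟩ := x
    have h1 := T.IndG_y G i (j + T.δ i) a
    have h2 := T.IndG_y G i (j + T.δ i + d) ((T.Ind N).ρ x a)
    have h3 := ha' _ _ (T.lie_mem _ _ _ _ hx (T.y_mem i)) (j + T.δ i)
    rw [add_neg_cancel_right] at h1
    rw [show j + T.δ i + d + -T.δ i = j + d by ring] at h2
    rw [show j + T.δ i + (d + -T.δ i) = j + d by ring] at h3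
    rw [LinearMap.mem_eqLocus, LinearMap.comp_apply, LinearMap.comp_apply, h1, LRep.comm_apply,
      map_add, h2, h3, ha' d x hx, (T.Ind N).comm_apply x]

theorem lift_gr {R : LRep k L} {f : N.M →ₗ[k] R.M} {G : Grading k N.M} {G' : Grading k R.M}
    (hG' : T.Gr R G') (hf : G.IsHom G' f) : (T.IndG G).IsHom G' (T.lift f) := by
  intro j a
  have := T.Ind_gen N (⨅ j, LinearMap.eqLocus (T.lift f ∘ₗ (T.IndG G).P j)
    (G'.P j ∘ₗ T.lift f)) ?_ ?_ a
  · exact (Submodule.mem_iInf _).1 this j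
  · intro v
    refine (Submodule.mem_iInf _).2 fun j => ?_
    rw [LinearMap.mem_eqLocus, LinearMap.comp_apply, LinearMap.comp_apply, ← T.IndG_inc G,
      lift_inc, lift_inc, hf]
  · intro i a ha
    have ha' : ∀ j, T.lift f ((T.IndG G).P j a) = G'.P j (T.lift f a) := fun j =>
      (Submodule.mem_iInf _).1 ha j
    refine (Submodule.mem_iInf _).2 fun j => ?_
    have h1 := T.IndG_y G i (j + T.δ i) a
    have h2 := hG' _ _ (T.y_mem i) (j + T.δ i) (T.lift f a)
    rw [add_neg_cancel_right] at h1 h2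
    rw [LinearMap.mem_eqLocus, LinearMap.comp_apply, LinearMap.comp_apply, h1, lift_y, lift_y,
      h2, ha']

variable (N)

theorem Ind_gen_pow (U : Submodule k (Multiset (Fin n) →₀ N.M))
    (h0 : ∀ s : Multiset (Fin n), (∀ i, s.count i < T.q i) → ∀ v, Finsupp.single s v ∈ U)
    (hY : ∀ i, ∀ a ∈ U, (T.H.Yo N.M i ^ T.q i) a ∈ U) (a : Multiset (Fin n) →₀ N.M) :
    a ∈ U := by
  let C : ℕ → Submodule k (Multiset (Fin n) →₀ N.M) := fun m =>
    Finsupp.supported N.M k {s | s.card < m}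
  have hC : ∀ m (V : Submodule k (Multiset (Fin n) →₀ N.M)),
      (∀ s : Multiset (Fin n), s.card < m → ∀ v, Finsupp.single s v ∈ V) → C m ≤ V := by
    intro m V h a ha
    rw [← Finsupp.sum_single a]
    exact Submodule.sum_mem _ fun s hs => h s (ha hs) _
  have h1 : ∀ i (s : Multiset (Fin n)) v, T.H.Yo N.M i (Finsupp.single s v)
      - Finsupp.single (i ::ₘ s) v ∈ C (s.card + 1) := by
    exact fun i s v => Finsupp.supported_mono (fun t ht => Nat.lt_succ_of_le ht) (T.H.Yo_low i s v)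
  have hmono : ∀ {m m'}, m ≤ m' → C m ≤ C m' := fun h =>
    Finsupp.supported_mono fun s hs => lt_of_lt_of_le hs h
  have h2 : ∀ i m, ∀ a ∈ C m, T.H.Yo N.M i a ∈ C (m + 1) := by
    intro i m a ha
    refine hC m ((C (m + 1)).comap (T.H.Yo N.M i)) (fun s hs v => ?_) ha
    have := add_mem (hmono (show s.card + 1 ≤ m + 1 by omega) (h1 i s v))
      (Finsupp.single_mem_supported k (s := {s | s.card < m + 1}) (a := i ::ₘ s) v (by simpa))
    simpa using this
  have h3 : ∀ i r (s : Multiset (Fin n)) v, (T.H.Yo N.M i ^ r) (Finsupp.single s v)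
      - Finsupp.single (Multiset.replicate r i + s) v ∈ C (s.card + r) := by
    intro i r s v
    induction r with
    | zero => simp
    | succ r ih =>
      have a1 := h2 i _ _ ih
      have a2 := h1 i (Multiset.replicate r i + s) v
      rw [Multiset.card_add, Multiset.card_replicate, add_comm r] at a2
      have := add_mem a1 a2
      rw [map_sub, sub_add_sub_cancel] at this
      rw [pow_succ', End.mul_apply, Multiset.replicate_succ, Multiset.cons_add]
      exact this
  have key : ∀ m, C m ≤ U := by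
    intro m
    induction m with
    | zero => exact hC 0 U fun s hs => absurd hs (Nat.not_lt_zero _)
    | succ m ih =>
      refine hC _ U fun s hs v => ?_
      by_cases hq : ∀ i, s.count i < T.q i
      · exact h0 s hq v
      push Not at hq
      obtain ⟨i, hi⟩ := hq
      obtain ⟨t, rfl⟩ := Multiset.le_iff_exists_add.1 (Multiset.le_count_iff_replicate_le.1 hi)
      have hp := T.q_pos i
      simp only [Multiset.card_add, Multiset.card_replicate] at hs
      have a1 := ih (hmono (show t.card + T.q i ≤ m by omega) (h3 i (T.q i) t v))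
      have a2 := hY i _ (ih (Finsupp.single_mem_supported k (s := {s : Multiset (Fin n) | s.card < m})
        (a := t) v
        (show t.card < m by omega)))
      simpa using sub_mem a2 a1
  induction a using Finsupp.induction_linear with
  | zero => exact zero_mem _
  | add a b ha hb => exact add_mem ha hb
  | single s v => exact key (s.card + 1) (Finsupp.single_mem_supported k v (by simp))

end Trg

end Pool.Agent.P.Bf04
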