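import Pool.Agent.P.MP_bf0464_al.H.TZ

/-! Additive invariants of graded modules are spanned by those of induced modules. -/

namespace Pool.Agent.P.Bf04

open Module TensorProduct

attribute [local instance 100] LieRing.ofAssociativeRing

universe u

namespace Trg

variable {k : Type u} [Field k] {L : Type u} [LieRing L] [LieAlgebra k L] {n p : ℕ}
  (T : Trg k L n p)

theorem exists_N (hp : 2 ≤ p) {R : LRep k L} {G : Grading k R.M}
    (hG : T.Gr R G) (hR : T.Rel R) (t : Finset R.M) :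
    ∃ N : Submodule k R.M, FiniteDimensional k N ∧ (R.res T.par.incl).Stable N ∧ G.Sub N ∧
      ∀ m ∈ t, m ∈ N := by
  classical
  let X : T.ι → End k R.M := fun i => R.ρ (T.g i)
  have hX : ∀ y ∈ T.par, R.ρ y ∈ Submodule.span k (Set.range X) := fun y hy =>
    (Submodule.span_le (p := (Submodule.span k (Set.range X)).comap R.ρ.toLinearMap)).2
      (by rintro _ ⟨a, rfl⟩; exact Submodule.subset_span ⟨a, rfl⟩) (T.par_span hy)
  have hX' : ∀ y ∈ T.par, R.ρ y ∈ Submodule.span k (insert 1 (Set.range X)) := fun y hy =>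
    Submodule.span_mono (Set.subset_insert _ _) (hX y hy)
  haveI := fd_words (k := k) X hp
    (fun i j => by rw [← R.lie_eq]; exact hX' _ (T.par.lie_mem (T.g_par i) (T.g_par j)))
    (fun i => by
      have : X i ^ p = R.ρ (T.pw i) + T.cp i • 1 := LinearMap.ext (hR i)
      rw [this]
      exact add_mem (hX' _ (T.pw_par i))
        (Submodule.smul_mem _ _ (Submodule.subset_span (Set.mem_insert _ _))))
  let t' : Set R.M := {a | ∃ m ∈ t, ∃ j, G.P j m = a}
  have ht' : t'.Finite := by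
    refine (t.finite_toSet.biUnion (t := fun m => Set.range fun j => G.P j m) fun m _ => ?_).subset
      fun a ⟨m, hm, j, hj⟩ => Set.mem_biUnion hm ⟨j, hj⟩
    obtain ⟨s, -, hs⟩ := G.exists_sum m
    refine ((s.finite_toSet.image fun j => G.P j m).insert 0).subset ?_
    rintro _ ⟨j, rfl⟩
    by_cases hj : j ∈ s
    · exact Or.inr ⟨j, hj, rfl⟩
    · exact Or.inl (hs j hj)
  let S : Set R.M := {a | ∃ w : List _, ∃ m ∈ t', (w.map X).prod m = a}
  refine ⟨Submodule.span k S, ?_, ?_, ?_, fun m hm => G.mem_of_P fun j =>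
    Submodule.subset_span ⟨[], _, ⟨m, hm, j, rfl⟩, rfl⟩⟩
  · haveI := ht'.to_subtype
    refine Submodule.finiteDimensional_of_le (S₂ := ⨆ m : t', Submodule.map
      (LinearMap.applyₗ (m : R.M)) (Submodule.span k (Set.range fun w : List _ => (w.map X).prod)))
      (Submodule.span_le.2 ?_)
    rintro _ ⟨w, m, hm, rfl⟩
    exact Submodule.mem_iSup_of_mem ⟨m, hm⟩ ⟨_, Submodule.subset_span ⟨w, rfl⟩, rfl⟩
  · intro y a ha
    have : ∀ A ∈ Submodule.span k (Set.range X), A a ∈ Submodule.span k S := by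
      intro A hA
      induction hA using Submodule.span_induction with
      | mem A hA =>
        obtain ⟨i, rfl⟩ := hA
        refine (Submodule.span_le (p := (Submodule.span k S).comap (X i))).2 ?_ ha
        rintro _ ⟨w, m, hm, rfl⟩
        exact Submodule.subset_span ⟨i :: w, m, hm, rfl⟩
      | zero => exact zero_mem _
      | add A B _ _ hA hB => exact add_mem hA hB
      | smul c A _ hA => exact Submodule.smul_mem _ c hA
    exact this _ (hX y y.2)
  · intro j a ha
    refine (Submodule.span_le (p := (Submodule.span k S).comap (G.P j))).2 ?_ ha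
    rintro _ ⟨w, _, ⟨m, hm, j', rfl⟩, rfl⟩
    have : ∃ d, G.Deg (w.map X).prod d := by
      induction w with
      | nil => exact ⟨0, fun j m => by simp⟩
      | cons i w ih =>
        obtain ⟨d, hd⟩ := ih
        refine ⟨d + T.dg i, fun j m => ?_⟩
        rw [List.map_cons, List.prod_cons, End.mul_apply, End.mul_apply, ← add_assoc,
          hG _ _ (T.g_mem _), hd]
    obtain ⟨d, hd⟩ := this
    have h1 := hd (j - d) (G.P j' m)
    rw [sub_add_cancel, G.PP] at h1
    change G.P j _ ∈ Submodule.span k S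
    rw [h1]
    split_ifs
    · exact Submodule.subset_span ⟨w, _, ⟨m, hm, j', rfl⟩, rfl⟩
    · rw [map_zero]; exact zero_mem _

/-- the category of modules considered -/
structure Cat (R : LRep k L) (G : Grading k R.M) : Prop where
  gr : T.Gr R G
  bdd : G.Bdd
  fg : T.FG R
  rel : T.Rel R

theorem Cat.sub {R : LRep k L} {G : Grading k R.M} (h : T.Cat R G) (N : Submodule k R.M)
    (hN : R.Stable N) (hG : G.Sub N) : T.Cat (R.sub N hN) (G.sub N hG) :=
  ⟨h.gr.sub T N hN hG, h.bdd.sub N hG, h.fg.of_inj T (R.sub_hom N hN) N.subtype_injective,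
    h.rel.of_inj T (R.sub_hom N hN) N.subtype_injective⟩

theorem Cat.quot {R : LRep k L} {G : Grading k R.M} (h : T.Cat R G) (N : Submodule k R.M)
    (hN : R.Stable N) (hG : G.Sub N) : T.Cat (R.quot N hN) (G.quot N hG) :=
  ⟨h.gr.quot T N hN hG, h.bdd.quot N hG, h.fg.of_surj T (R.quot_hom N hN) N.mkQ_surjective,
    h.rel.of_surj T (R.quot_hom N hN) N.mkQ_surjective⟩

theorem Ind_cat {N : LRep k T.par} [FiniteDimensional k N.M] {G : Grading k N.M}
    (hG : T.GrP N G) (h : T.RelP N) : T.Cat (T.Ind N) (T.IndG G) :=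
  ⟨T.IndG_gr hG, T.IndG_bdd G.bdd_of_fd, T.Ind_FG N, T.Ind_rel N h⟩

theorem FG.fd_quot {R : LRep k L} (h : T.FG R) : FiniteDimensional k (R.M ⧸ T.Ys R n) := by
  obtain ⟨t, ht⟩ := h.exists_gen
  have h1 := ht (Submodule.span k t ⊔ T.Ys R n)
    (fun m hm => Submodule.mem_sup_left (Submodule.subset_span hm)) fun i m _ => by
      obtain ⟨r, hr⟩ := Nat.exists_eq_succ_of_ne_zero (T.q_pos i).ne'
      rw [B, hr, pow_succ', End.mul_apply]
      exact Submodule.mem_sup_right (T.y_mem_Ys R i.2 _)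
  refine Module.Finite.of_surjective ((T.Ys R n).mkQ ∘ₗ (Submodule.span k (t : Set R.M)).subtype) ?_
  intro a
  obtain ⟨m, rfl⟩ := (T.Ys R n).mkQ_surjective a
  obtain ⟨x, hx, y, hy, rfl⟩ := Submodule.mem_sup.1 (h1 m)
  exact ⟨⟨x, hx⟩, by simp [(Submodule.Quotient.mk_eq_zero _).2 hy]⟩

/-- the simple modules that are induced -/
structure Adm (E : LRep k T.par) : Prop where
  fd : FiniteDimensional k E.M
  simple : E.Simple
  rel : T.RelP E
  pos : ∀ d, 0 < d → ∀ x : T.par, x.1 ∈ T.gr d → ∀ m, E.ρ x m = 0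

variable {V : Type*} [AddCommGroup V] [Module ℚ V] (φ : ∀ R : LRep k L, Grading k R.M → V)

/-- functions on graded modules that are additive on short exact sequences -/
def Addv : Prop := ∀ (R₁ R₂ R₃ : LRep k L) (G₁ : Grading k R₁.M) (G₂ : Grading k R₂.M)
  (G₃ : Grading k R₃.M) (f : R₁.M →ₗ[k] R₂.M) (g : R₂.M →ₗ[k] R₃.M), T.Cat R₁ G₁ → T.Cat R₂ G₂ →
    T.Cat R₃ G₃ → R₁.IsHom R₂ f → R₂.IsHom R₃ g → G₁.IsHom G₂ f → G₂.IsHom G₃ g →
      Function.Injective f → Function.Surjective g → Function.Exact f g →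
        φ R₂ G₂ = φ R₁ G₁ + φ R₃ G₃

/-- the values on the induced modules -/
def 𝒲 : Set V := {w | ∃ (E : LRep k T.par) (G : Grading k E.M), T.Adm E ∧ T.GrP E G ∧
  (∃ j, ∀ m, G.P j m = m) ∧ φ (T.Ind E) (T.IndG G) = w}

variable {φ}

theorem Addv.zero (h : T.Addv φ) {R : LRep k L} {G : Grading k R.M} (hC : T.Cat R G)
    (h0 : ∀ m : R.M, m = 0) : φ R G = 0 := by
  have := h R R R G G G LinearMap.id LinearMap.id hC hC hC (fun _ _ => rfl) (fun _ _ => rfl)
    (fun _ _ => rfl) (fun _ _ => rfl) Function.injective_id Function.surjective_id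
    fun y => ⟨fun _ => ⟨y, rfl⟩, fun _ => h0 _⟩
  simpa using this

theorem flag (hφ₀ : T.Addv φ) (r : ℕ) : ∀ (R : LRep k L) (G : Grading k R.M), T.Cat R G →
    T.Reg R n → finrank k (R.M ⧸ T.Ys R n) < r → φ R G ∈ Submodule.span ℚ (T.𝒲 φ) := by
  induction r with
  | zero => intro _ _ _ _ h; exact absurd h (Nat.not_lt_zero _)
  | succ r ih =>
    intro R G hC hreg hr
    by_cases h0 : ∀ m : R.M, m = 0
    · rw [hφ₀.zero T hC h0]; exact zero_mem _
    obtain ⟨j, ⟨m₀, hm₀⟩, hj⟩ : ∃ j, (∃ m, G.P j m ≠ 0) ∧ ∀ i, (∃ m, G.P i m ≠ 0) → i ≤ j := by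
      obtain ⟨t, ht⟩ := hC.bdd
      refine Int.exists_greatest_of_bdd ⟨t, fun i ⟨m, hm⟩ => not_lt.1 fun h => hm (ht i h m)⟩ ?_
      by_contra hc
      push Not at hc
      exact h0 fun m => G.mem_of_P (U := ⊥) fun j => hc j m
    have hj' : ∀ i, j < i → ∀ m, G.P i m = 0 := fun i hi m => by
      by_contra h; exact (hj i ⟨m, h⟩).not_gt hi
    have hpos : ∀ d, 0 < d → ∀ x ∈ T.gr d, ∀ m ∈ LinearMap.range (G.P j), R.ρ x m = 0 := by
      rintro d hd x hx _ ⟨m, rfl⟩
      rw [← hC.gr d x hx, hj' _ (by omega)]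
    have hst : (R.res T.par.incl).Stable (LinearMap.range (G.P j)) := by
      intro x m hm
      let f : T.par →ₗ[k] R.M := LinearMap.applyₗ m ∘ₗ (R.res T.par.incl).ρ.toLinearMap
      refine T.par_induction ((LinearMap.range (G.P j)).comap f) (fun d hd x hx => ?_) x
      change R.ρ x m ∈ LinearMap.range (G.P j)
      rcases hd.eq_or_lt with rfl | hd
      · obtain ⟨m, rfl⟩ := hm
        rw [← hC.gr 0 x hx, add_zero]; exact ⟨_, rfl⟩
      · rw [hpos d hd x hx m hm]; exact zero_mem _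
    have hdis : ∀ m ∈ LinearMap.range (G.P j), m ∈ T.Ys R n → m = 0 := by
      rintro _ ⟨m, rfl⟩ hm
      rw [← G.PP_self]
      refine T.Ys_le R (U := LinearMap.ker (G.P j)) (fun i _ m => ?_) hm
      have := hC.gr _ _ (T.y_mem i) (j + T.δ i) m
      have hδ := T.δ_pos i
      rw [add_neg_cancel_right] at this
      rw [LinearMap.mem_ker, this, hj' _ (by omega), map_zero]
    haveI := hC.fg.fd_quot
    have hfd : FiniteDimensional k (LinearMap.range (G.P j)) :=
      FiniteDimensional.of_injective ((T.Ys R n).mkQ ∘ₗ (LinearMap.range (G.P j)).subtype)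
        ((injective_iff_map_eq_zero _).2 fun m hm =>
          Subtype.ext (hdis _ m.2 ((Submodule.Quotient.mk_eq_zero _).1 hm)))
    obtain ⟨N, hle, hN, hsim⟩ := (R.res T.par.incl).exists_simple _ hst hfd
      (fun h => hm₀ ((Submodule.eq_bot_iff _).1 h _ ⟨m₀, rfl⟩))
    let E := (R.res T.par.incl).sub N hN
    haveI : FiniteDimensional k E.M :=
      Submodule.finiteDimensional_of_le (S₂ := LinearMap.range (G.P j)) (S₁ := N) hle
    have hhom := (R.res T.par.incl).sub_hom N hN
    have hE : T.Adm E := ⟨inferInstance, hsim,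
      RelP.of_inj T (hC.rel.res T) hhom N.subtype_injective,
      fun d hd x hx m => Subtype.ext (hpos d hd x hx _ (hle m.2))⟩
    have hGN : G.Sub N := by
      intro i m hm
      obtain ⟨m', rfl⟩ := hle hm
      rw [G.PP]; split_ifs
      exacts [hm, zero_mem _]
    have hGE : T.GrP E (G.sub N hGN) := (hC.gr.res T).sub T N hN hGN
    have hφ := T.lift_hom hhom
    have hφG : (T.IndG (N := E) (G.sub N hGN)).IsHom G (T.lift (N := E) N.subtype) :=
      T.lift_gr hC.gr fun _ _ => rfl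
    have hcomap := T.comap_Ys (T.IndG_gr hGE) hC.gr (T.IndG_bdd (Grading.bdd_of_fd _)) hφ hφG hreg
      fun a ha => by
        obtain ⟨v, hv⟩ := T.sub_inc_mem E a
        have h1 := sub_mem ha (T.Ys_map hφ _ hv)
        rw [map_sub, sub_sub_cancel, lift_inc] at h1
        have h2 : v = 0 := Subtype.ext (hdis _ (hle v.2) h1)
        rwa [h2, map_zero, sub_zero] at hv
    have hinj : Function.Injective (T.lift (N := E) (R := R) N.subtype) :=
      (injective_iff_map_eq_zero _).2 fun a ha => by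
        have := hcomap 0 (Nat.zero_le _) a (ha ▸ zero_mem _)
        rwa [Ys_zero] at this
    let Q := R.quot _ hφ.range
    have hg := R.quot_hom _ hφ.range
    have hs := (LinearMap.range (T.lift (N := E) (R := R) N.subtype)).mkQ_surjective
    have hex := (T.lift (N := E) (R := R) N.subtype).exact_map_mkQ_range
    rw [hφ₀ _ _ _ _ _ _ _ _ (T.Ind_cat hGE hE.rel) hC (hC.quot T _ hφ.range hφG.range) hφ hg hφG
      (fun _ _ => rfl) hinj hs hex]
    refine add_mem (Submodule.subset_span ⟨E, _, hE, hGE, ⟨j, fun m => Subtype.ext (by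
      obtain ⟨m', hm'⟩ := hle m.2
      change G.P j m.1 = m.1
      rw [← hm', G.PP_self])⟩, rfl⟩) (ih Q _ (hC.quot T _ _ hφG.range)
      (T.reg_quot hφ hg hs hex hreg hcomap) ?_)
    let g := (T.Ys R n).mapQ (T.Ys Q n) _ fun m hm => T.Ys_map hg n hm
    have h1 := LinearMap.finrank_range_add_finrank_ker g
    have h2 : LinearMap.range g = ⊤ := by
      rw [LinearMap.range_eq_top]
      intro a
      obtain ⟨a, rfl⟩ := (T.Ys Q n).mkQ_surjective a
      obtain ⟨a, rfl⟩ := hs a
      exact ⟨(T.Ys R n).mkQ a, rfl⟩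
    have h3 : finrank k (LinearMap.ker g) ≠ 0 := by
      rw [Ne, Submodule.finrank_eq_zero]
      intro h
      haveI := hsim.1
      obtain ⟨v, hv⟩ := exists_ne (0 : E.M)
      have h4 : (T.Ys R n).mkQ v.1 ∈ LinearMap.ker g := by
        have : (LinearMap.range (T.lift (N := E) (R := R) N.subtype)).mkQ v.1 = 0 :=
          (hex _).2 ⟨T.inc E v, T.lift_inc _ _⟩
        change (T.Ys Q n).mkQ ((LinearMap.range (T.lift (N := E) (R := R) N.subtype)).mkQ v.1) = 0
        rw [this]; exact map_zero _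
      rw [h] at h4
      exact hv (Subtype.ext (hdis _ (hle v.2) ((Submodule.Quotient.mk_eq_zero _).1 h4)))
    rw [h2, finrank_top] at h1
    omega

theorem Addv.mem (hφ₀ : T.Addv φ) (hp : 2 ≤ p) (R : LRep k L) (G : Grading k R.M)
    (hC : T.Cat R G) : φ R G ∈ Submodule.span ℚ (T.𝒲 φ) := by
  have key : ∀ s ≤ n, ∀ (R : LRep k L) (G : Grading k R.M), T.Cat R G → T.Reg R s →
      φ R G ∈ Submodule.span ℚ (T.𝒲 φ) := by
    intro s hs
    induction hs using Nat.decreasingInduction with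
    | self => exact fun R G hC hreg => T.flag hφ₀ _ R G hC hreg (Nat.lt_succ_self _)
    | of_succ s hs ih =>
      intro R G hC hreg
      obtain ⟨t₀, ht₀⟩ := hC.fg.exists_gen
      obtain ⟨N, hfd, hN, hGN, htN⟩ := T.exists_N hp hC.gr hC.rel t₀
      let E := (R.res T.par.incl).sub N hN
      haveI : FiniteDimensional k E.M := hfd
      have hhom := (R.res T.par.incl).sub_hom N hN
      have hGE : T.GrP E (G.sub N hGN) := (hC.gr.res T).sub T N hN hGN
      have hF := T.Ind_cat hGE (RelP.of_inj T (hC.rel.res T) hhom N.subtype_injective)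
      have hφ := T.lift_hom hhom
      have hφG : (T.IndG (N := E) (G.sub N hGN)).IsHom G (T.lift (N := E) N.subtype) :=
        T.lift_gr hC.gr fun _ _ => rfl
      have hs : Function.Surjective (T.lift (N := E) (R := R) N.subtype) := fun m =>
        ht₀ (LinearMap.range (T.lift (N := E) (R := R) N.subtype))
          (fun m hm => ⟨T.inc E ⟨m, htN m hm⟩, T.lift_inc _ _⟩)
          (by rintro i _ ⟨a, rfl⟩; exact ⟨_, hφ.pow _ _ a⟩) m
      have hK := (T.Ind E).sub_hom _ hφ.ker
      have hex := (T.lift (N := E) (R := R) N.subtype).exact_subtype_ker_map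
      have h1 := hφ₀ _ _ _ _ _ _ _ _ (hF.sub T _ hφ.ker hφG.ker) hF hC hK hφ (fun _ _ => rfl) hφG
        (Submodule.subtype_injective _) hs hex
      have h2 := ih _ _ (hF.sub T _ hφ.ker hφG.ker)
        (T.reg_ker hK hφ (Submodule.subtype_injective _) hs hex (T.Ind_reg E) hreg)
      have h3 := T.flag hφ₀ _ _ _ hF (T.Ind_reg E) (Nat.lt_succ_self _)
      rw [h1] at h3
      exact (Submodule.add_mem_iff_right _ h2).1 h3
  exact key 0 (Nat.zero_le _) R G hC fun i hi => absurd hi (Nat.not_lt_zero _)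

/-- functions on modules that are additive on short exact sequences -/
def Addu (v : LRep k L → V) : Prop := ∀ (R₁ R₂ R₃ : LRep k L) (f : R₁.M →ₗ[k] R₂.M)
  (g : R₂.M →ₗ[k] R₃.M), R₁.IsHom R₂ f → R₂.IsHom R₃ g → Function.Injective f →
    Function.Surjective g → Function.Exact f g → T.FG R₂ → v R₂ = v R₁ + v R₃

theorem Addu.addv {v : LRep k L → V} (h : T.Addu v) : T.Addv fun R _ => v R :=
  fun _ _ _ _ _ _ f g _ h2 _ hf hg _ _ hi hs hex => h _ _ _ f g hf hg hi hs hex h2.fg

theorem Addu.mem {v : LRep k L → V} (h : T.Addu v) (hp : 2 ≤ p) (R : LRep k L) (G : Grading k R.M)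
    (hC : T.Cat R G) : v R ∈ Submodule.span ℚ {w | ∃ E, T.Adm E ∧ v (T.Ind E) = w} :=
  Submodule.span_mono (by rintro _ ⟨E, _, h1, _, _, h2⟩; exact ⟨E, h1, h2⟩)
    ((h.addv T).mem T hp R G hC)

theorem Addu.zero {v : LRep k L → V} (h : T.Addu v) {R : LRep k L} (h0 : ∀ m : R.M, m = 0) :
    v R = 0 := by
  have := h R R R LinearMap.id LinearMap.id (fun _ _ => rfl) (fun _ _ => rfl)
    Function.injective_id Function.surjective_id (fun y => ⟨fun _ => ⟨y, rfl⟩, fun _ => h0 _⟩)
    (FG.of_gen T ∅ Set.finite_empty fun U _ _ m => by rw [h0 m]; exact zero_mem _)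
  simpa using this

theorem Addu.iso {v : LRep k L → V} (h : T.Addu v) {R R' : LRep k L} (hi : R.Iso R')
    (h2 : T.FG R) : v R = v R' := by
  obtain ⟨f, hf⟩ := hi
  have := h _ _ _ _ _ (R.sub_hom ⊥ (fun _ _ hm => by simp_all)) hf (Submodule.subtype_injective _)
    f.surjective (fun y => ⟨fun h => ⟨0, f.injective (by simpa using h.symm)⟩,
      fun ⟨a, ha⟩ => by rw [show y = 0 from ha.symm.trans a.2, map_zero]⟩) h2
  rw [this, h.zero T (R := R.sub ⊥ _) (fun m => Subtype.ext m.2), zero_add]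

/-- the classes of the induced modules selected by `Gd` span a space of dimension at most `b`,
modulo torsion -/
def Rank (Gd : LRep k T.par → Prop) (b : ℕ) : Prop :=
  ∀ (V : Type u) [AddCommGroup V] [Module ℚ V] (v : LRep k L → V), T.Addu v →
    (∀ R, T.FG R → ∀ i, T.B R i = 0 → v R = 0) → (∀ E, T.Adm E → ¬ Gd E → v (T.Ind E) = 0) →
      ∃ s : Finset V, s.card ≤ b ∧ ∀ E, T.Adm E → v (T.Ind E) ∈ Submodule.span ℚ (s : Set V)

theorem rank_of_count {Gd : LRep k T.par → Prop} {b : ℕ}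
    (h : ∀ (A : Type u) [Fintype A] (E : A → LRep k T.par), (∀ a, T.Adm (E a) ∧ Gd (E a)) →
      (∀ a a', (E a).Iso (E a') → a = a') → Fintype.card A ≤ b) : T.Rank Gd b := by
  classical
  intro V _ _ v hv _ h0
  let S : Set V := {w | ∃ E, (T.Adm E ∧ Gd E) ∧ v (T.Ind E) = w}
  have key : ∀ s : Finset V, (s : Set V) ⊆ S → s.card ≤ b := by
    intro s hs
    choose E hE hvE using fun x : s => hs x.2
    rw [← Fintype.card_coe]
    refine h s E hE fun x y hxy => Subtype.ext ?_
    haveI := (hE x).1.fd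
    rw [← hvE x, ← hvE y]
    exact hv.iso T (T.Ind_iso hxy) (T.Ind_FG _)
  have hfin : S.Finite := by
    by_contra hc
    obtain ⟨s, hs, hcard⟩ := Set.Infinite.exists_subset_card_eq hc (b + 1)
    have := key s hs
    omega
  refine ⟨hfin.toFinset, key _ (by simp), fun E hE => ?_⟩
  by_cases hG : Gd E
  · exact Submodule.subset_span (by simpa using ⟨E, ⟨hE, hG⟩, rfl⟩)
  · rw [h0 E hE hG]; exact zero_mem _

end Trg

end Pool.Agent.P.Bf04
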