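import Pool.Agent.P.MP_bf0464_al.Tri
import Pool.Agent.P.MP_bf0464_al.H.Neg

/-! Graded Lie algebras with nilpotent negative part; graded modules; depth. -/

namespace Pool.Agent.P.Bf04

open Module

universe u

/-- the structure needed for the syzygy argument -/
structure Trg (k : Type u) [Field k] (L : Type u) [LieRing L] [LieAlgebra k L] (n p : ℕ) where
  gr : ℤ → Submodule k L
  pr : ℤ → L →ₗ[k] L
  D : Finset ℤ
  pr_mem : ∀ d x, pr d x ∈ gr d
  sum_pr : ∀ x, ∑ d ∈ D, pr d x = x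
  pr_of_mem : ∀ d d' x, x ∈ gr d → pr d' x = if d' = d then x else 0
  lie_mem : ∀ a b x y, x ∈ gr a → y ∈ gr b → ⁅x, y⁆ ∈ gr (a + b)
  y : Fin n → L
  δ : Fin n → ℕ
  δ_pos : ∀ i, 0 < δ i
  y_mem : ∀ i, y i ∈ gr (-δ i)
  c : Fin n → L →ₗ[k] k
  c_y : ∀ i j, c i (y j) = if i = j then 1 else 0
  c_zero : ∀ i d x, x ∈ gr d → d ≠ -δ i → c i x = 0
  exp_neg : ∀ d < 0, ∀ x ∈ gr d, ∑ i, c i x • y i = x
  H : Neg k (Fin n)
  lie_y : ∀ i j, ⁅y i, y j⁆ = ∑ l, H.γ i j l • y l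
  q : Fin n → ℕ
  q_pos : ∀ i, 0 < q i
  q_comm : ∀ (R : LRep k L) i x, Commute (R.ρ (y i) ^ q i) (R.ρ x)
  ι : Type
  [fι : Fintype ι]
  g : ι → L
  dg : ι → ℤ
  dg_nonneg : ∀ a, 0 ≤ dg a
  g_mem : ∀ a, g a ∈ gr (dg a)
  g_span : ∀ d, 0 ≤ d → gr d ≤ Submodule.span k (Set.range g)
  pw : ι → L
  cp : ι → k
  pw_mem : ∀ a, pw a ∈ gr (p * dg a)
  cp_pos : ∀ a, 0 < dg a → cp a = 0
  pw_comm : ∀ (R : LRep k L) a x', Commute (R.ρ (g a) ^ p - R.ρ (pw a)) (R.ρ x')

attribute [instance] Trg.fι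

namespace Trg

variable {k : Type u} [Field k] {L : Type u} [LieRing L] [LieAlgebra k L] {n p : ℕ}
  (T : Trg k L n p)

theorem pr_pr (d d' : ℤ) (x : L) : T.pr d' (T.pr d x) = if d' = d then T.pr d x else 0 :=
  T.pr_of_mem _ _ _ (T.pr_mem d x)

theorem induction (U : Submodule k L) (h : ∀ d, ∀ x ∈ T.gr d, x ∈ U) (x : L) : x ∈ U := by
  rw [← T.sum_pr x]; exact Submodule.sum_mem _ fun d _ => h d _ (T.pr_mem d x)

/-- the nonnegative part -/
def par : LieSubalgebra k L where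
  carrier := {x | ∀ d < 0, T.pr d x = 0}
  add_mem' := fun ha hb d hd => by rw [map_add, ha d hd, hb d hd, add_zero]
  zero_mem' := fun d _ => map_zero _
  smul_mem' := fun c x hx d hd => by rw [map_smul, hx d hd, smul_zero]
  lie_mem' := by
    intro x y hx hy d hd
    rw [← T.sum_pr x, ← T.sum_pr y, sum_lie_sum]
    simp only [map_sum]
    refine Finset.sum_eq_zero fun a _ => Finset.sum_eq_zero fun b _ => ?_
    rw [T.pr_of_mem _ _ _ (T.lie_mem _ _ _ _ (T.pr_mem a x) (T.pr_mem b y))]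
    split_ifs with h
    · rcases lt_or_ge a 0 with ha | ha
      · rw [hx a ha, zero_lie]
      · rw [hy b (by omega), lie_zero]
    · rfl

theorem mem_par {x : L} : x ∈ T.par ↔ ∀ d < 0, T.pr d x = 0 := Iff.rfl

theorem mem_par_of_gr {d : ℤ} (hd : 0 ≤ d) {x : L} (hx : x ∈ T.gr d) : x ∈ T.par := by
  intro d' hd'
  rw [T.pr_of_mem _ _ _ hx, if_neg (by omega)]

theorem pr_mem_par (d : ℤ) {x : L} (hx : x ∈ T.par) : T.pr d x ∈ T.par := by
  rcases lt_or_ge d 0 with hd | hd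
  · rw [hx d hd]; exact T.par.zero_mem
  · exact T.mem_par_of_gr hd (T.pr_mem d x)

theorem par_induction (U : Submodule k T.par)
    (h : ∀ d, 0 ≤ d → ∀ x : T.par, x.1 ∈ T.gr d → x ∈ U) (x : T.par) : x ∈ U := by
  have : x = ∑ d ∈ T.D, (⟨T.pr d x.1, T.pr_mem_par d x.2⟩ : T.par) := by
    apply Subtype.ext
    exact ((map_sum T.par.toSubmodule.subtype _ _).trans (T.sum_pr x.1)).symm
  rw [this]
  refine Submodule.sum_mem _ fun d _ => ?_
  rcases lt_or_ge d 0 with hd | hd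
  · have : (⟨T.pr d x.1, T.pr_mem_par d x.2⟩ : T.par) = 0 := Subtype.ext (x.2 d hd)
    rw [this]; exact U.zero_mem
  · exact h d hd _ (T.pr_mem d _)

theorem c_par (i : Fin n) {x : L} (hx : x ∈ T.par) : T.c i x = 0 := by
  rw [← T.sum_pr x, map_sum]
  refine Finset.sum_eq_zero fun d _ => ?_
  rcases lt_or_ge d 0 with hd | hd
  · rw [hx d hd, map_zero]
  · have := T.δ_pos i
    exact T.c_zero i d _ (T.pr_mem d x) (by omega)

theorem sub_mem_par (x : L) : x - ∑ i, T.c i x • T.y i ∈ T.par := by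
  let f : L →ₗ[k] L := LinearMap.id - ∑ i, (T.c i).smulRight (T.y i)
  have hf : ∀ x, f x = x - ∑ i, T.c i x • T.y i := fun x => by simp [f, LinearMap.sum_apply]
  rw [← hf]
  refine T.induction (T.par.toSubmodule.comap f) (fun d x hx => ?_) x
  rw [Submodule.mem_comap, hf]
  rcases lt_or_ge d 0 with hd | hd
  · rw [T.exp_neg d hd x hx, sub_self]; exact T.par.zero_mem
  · have := T.mem_par_of_gr hd hx
    simpa [T.c_par _ this] using this

/-- projection to the nonnegative part -/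
def π : L →ₗ[k] T.par :=
  LinearMap.codRestrict T.par.toSubmodule (LinearMap.id - ∑ i, (T.c i).smulRight (T.y i))
    fun x => by simpa [LinearMap.sum_apply] using T.sub_mem_par x

theorem π_coe (x : L) : (T.π x : L) = x - ∑ i, T.c i x • T.y i := by
  change (LinearMap.id - ∑ i, (T.c i).smulRight (T.y i) : L →ₗ[k] L) x = _
  simp [LinearMap.sum_apply]

theorem π_par (x : T.par) : T.π x = x := by
  apply Subtype.ext; simp [π_coe, T.c_par _ x.2]

theorem π_y (i : Fin n) : T.π (T.y i) = 0 := by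
  apply Subtype.ext; simp [π_coe, T.c_y]

theorem π_neg {d : ℤ} (hd : d < 0) {x : L} (hx : x ∈ T.gr d) : T.π x = 0 := by
  apply Subtype.ext; simp [π_coe, T.exp_neg d hd x hx]

theorem decomp (x : L) : x = T.π x + ∑ i, T.c i x • T.y i := by rw [π_coe]; abel

theorem induction' (U : Submodule k L) (h : ∀ x ∈ T.par, x ∈ U) (hy : ∀ i, T.y i ∈ U) (x : L) :
    x ∈ U := by
  rw [T.decomp x]
  exact U.add_mem (h _ (T.π x).2) (Submodule.sum_mem _ fun i _ => U.smul_mem _ (hy i))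

theorem δ_z {i j l : Fin n} (h : T.H.γ i j l ≠ 0) : T.δ l = T.δ i + T.δ j := by
  by_contra hne
  have := T.c_zero l _ _ (T.lie_mem _ _ _ _ (T.y_mem i) (T.y_mem j)) (by omega)
  rw [T.lie_y, map_sum] at this
  simp [T.c_y, h] at this

theorem g_par (a : T.ι) : T.g a ∈ T.par := T.mem_par_of_gr (T.dg_nonneg a) (T.g_mem a)

theorem pw_par (a : T.ι) : T.pw a ∈ T.par :=
  T.mem_par_of_gr (mul_nonneg (Nat.cast_nonneg p) (T.dg_nonneg a)) (T.pw_mem a)

theorem par_span {x : L} (hx : x ∈ T.par) : x ∈ Submodule.span k (Set.range T.g) := by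
  rw [← T.sum_pr x]
  refine Submodule.sum_mem _ fun d _ => ?_
  rcases lt_or_ge d 0 with hd | hd
  · rw [hx d hd]; exact zero_mem _
  · exact T.g_span d hd (T.pr_mem d x)

/-- the relations on modules -/
def Rel (R : LRep k L) : Prop :=
  ∀ a m, (R.ρ (T.g a) ^ p) m = R.ρ (T.pw a) m + T.cp a • m

/-- the relations on modules over the nonnegative part -/
def RelP (N : LRep k T.par) : Prop :=
  ∀ a m, (N.ρ ⟨T.g a, T.g_par a⟩ ^ p) m = N.ρ ⟨T.pw a, T.pw_par a⟩ m + T.cp a • m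

theorem Rel.of_inj {R R' : LRep k L} (h : T.Rel R') {f : R.M →ₗ[k] R'.M} (hf : R.IsHom R' f)
    (hi : Function.Injective f) : T.Rel R := fun a m => by
  apply hi; rw [hf.pow, h a, map_add, hf, map_smul]

theorem Rel.of_surj {R R' : LRep k L} (h : T.Rel R) {f : R.M →ₗ[k] R'.M} (hf : R.IsHom R' f)
    (hs : Function.Surjective f) : T.Rel R' := fun a m => by
  obtain ⟨m, rfl⟩ := hs m
  rw [← hf.pow, h a, map_add, hf, map_smul]

theorem RelP.of_inj {R R' : LRep k T.par} (h : T.RelP R') {f : R.M →ₗ[k] R'.M}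
    (hf : R.IsHom R' f) (hi : Function.Injective f) : T.RelP R := fun a m => by
  apply hi; rw [hf.pow, h a, map_add, hf, map_smul]

theorem Rel.res {R : LRep k L} (h : T.Rel R) : T.RelP (R.res T.par.incl) :=
  fun a m => h a m

/-- compatibility of a grading with a module structure -/
def Gr (R : LRep k L) (G : Grading k R.M) : Prop := ∀ d, ∀ x ∈ T.gr d, G.Deg (R.ρ x) d

/-- the same over the nonnegative part -/
def GrP (N : LRep k T.par) (G : Grading k N.M) : Prop :=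
  ∀ d (x : T.par), x.1 ∈ T.gr d → G.Deg (N.ρ x) d

theorem Gr.sub {R : LRep k L} {G : Grading k R.M} (h : T.Gr R G) (N : Submodule k R.M)
    (hN : R.Stable N) (hG : G.Sub N) : T.Gr (R.sub N hN) (G.sub N hG) :=
  fun d x hx j m => Subtype.ext (h d x hx j m.1)

theorem Gr.quot {R : LRep k L} {G : Grading k R.M} (h : T.Gr R G) (N : Submodule k R.M)
    (hN : R.Stable N) (hG : G.Sub N) : T.Gr (R.quot N hN) (G.quot N hG) := by
  intro d x hx j m
  obtain ⟨m, rfl⟩ := N.mkQ_surjective m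
  exact congrArg N.mkQ (h d x hx j m)

theorem GrP.sub {R : LRep k T.par} {G : Grading k R.M} (h : T.GrP R G) (N : Submodule k R.M)
    (hN : R.Stable N) (hG : G.Sub N) : T.GrP (R.sub N hN) (G.sub N hG) :=
  fun d x hx j m => Subtype.ext (h d x hx j m.1)

theorem Gr.res {R : LRep k L} {G : Grading k R.M} (h : T.Gr R G) :
    T.GrP (R.res T.par.incl) G := fun d x hx => h d x hx

section Depth

variable (R : LRep k L)

/-- the sum of the images of the first `j` generators -/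
def Ys (j : ℕ) : Submodule k R.M := ⨆ (i : Fin n) (_ : i.val < j), LinearMap.range (R.ρ (T.y i))

theorem Ys_zero : T.Ys R 0 = ⊥ := by simp [Ys]

theorem y_mem_Ys {j : ℕ} {i : Fin n} (h : i.val < j) (m : R.M) : R.ρ (T.y i) m ∈ T.Ys R j :=
  Submodule.mem_iSup_of_mem i (Submodule.mem_iSup_of_mem h ⟨m, rfl⟩)

theorem Ys_le {j : ℕ} {U : Submodule k R.M} (h : ∀ i : Fin n, i.val < j → ∀ m, R.ρ (T.y i) m ∈ U) :
    T.Ys R j ≤ U :=
  iSup_le fun i => iSup_le fun hi => by rintro _ ⟨m, rfl⟩; exact h i hi m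

theorem Ys_mono {j j' : ℕ} (h : j ≤ j') : T.Ys R j ≤ T.Ys R j' :=
  T.Ys_le R fun _ hi m => T.y_mem_Ys R (lt_of_lt_of_le hi h) m

theorem mem_Ys_succ (i : Fin n) {m : R.M} (h : m ∈ T.Ys R (i + 1)) :
    ∃ m', m - R.ρ (T.y i) m' ∈ T.Ys R i := by
  have : T.Ys R (i + 1) ≤ T.Ys R i ⊔ LinearMap.range (R.ρ (T.y i)) := by
    refine T.Ys_le R fun l hl m => ?_
    rcases Nat.lt_succ_iff_lt_or_eq.1 hl with h | h
    · exact Submodule.mem_sup_left (T.y_mem_Ys R h m)
    · rw [Fin.ext h]; exact Submodule.mem_sup_right ⟨m, rfl⟩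
  obtain ⟨a, ha, _, ⟨m', rfl⟩, rfl⟩ := Submodule.mem_sup.1 (this h)
  exact ⟨m', by simpa using ha⟩

theorem Ys_stable (i : Fin n) (j : ℕ) {m : R.M} (h : m ∈ T.Ys R j) :
    R.ρ (T.y i) m ∈ T.Ys R j := by
  refine T.Ys_le R (U := (T.Ys R j).comap (R.ρ (T.y i))) (fun l hl m => ?_) h
  rw [Submodule.mem_comap, R.comm_apply, T.lie_y, map_sum, LinearMap.sum_apply]
  refine add_mem (T.y_mem_Ys R hl _) (Submodule.sum_mem _ fun a _ => ?_)
  by_cases hγ : T.H.γ i l a = 0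
  · simp [hγ]
  · rw [map_smul]
    exact Submodule.smul_mem _ _ (T.y_mem_Ys R (lt_trans (T.H.lt _ _ _ hγ).2 hl) _)

variable {R}

theorem Ys_map {R' : LRep k L} {f : R.M →ₗ[k] R'.M} (hf : R.IsHom R' f) (j : ℕ) {m : R.M}
    (h : m ∈ T.Ys R j) : f m ∈ T.Ys R' j := by
  refine T.Ys_le R (U := (T.Ys R' j).comap f) (fun l hl m => ?_) h
  rw [Submodule.mem_comap, hf]; exact T.y_mem_Ys R' hl _

theorem Ys_surj {R' : LRep k L} {f : R.M →ₗ[k] R'.M} (hf : R.IsHom R' f)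
    (hs : Function.Surjective f) (j : ℕ) {m : R'.M} (h : m ∈ T.Ys R' j) :
    ∃ a ∈ T.Ys R j, f a = m := by
  refine T.Ys_le R' (U := (T.Ys R j).map f) (fun l hl m => ?_) h
  obtain ⟨m, rfl⟩ := hs m
  exact ⟨_, T.y_mem_Ys R hl m, hf _ _⟩

theorem Ys_sub {G : Grading k R.M} (hG : T.Gr R G) (j : ℕ) : G.Sub (T.Ys R j) := by
  intro d m h
  refine T.Ys_le R (U := (T.Ys R j).comap (G.P d)) (fun l hl m => ?_) h
  have := hG _ _ (T.y_mem l) (d + T.δ l) m
  rw [add_neg_cancel_right] at this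
  rw [Submodule.mem_comap, this]; exact T.y_mem_Ys R hl _

variable (R) in
/-- the first `s` generators form a regular sequence -/
def Reg (s : ℕ) : Prop :=
  ∀ i : Fin n, i.val < s → ∀ m, R.ρ (T.y i) m ∈ T.Ys R i → m ∈ T.Ys R i

theorem reg_ker {K F : LRep k L} {f : K.M →ₗ[k] F.M} {g : F.M →ₗ[k] R.M} (hf : K.IsHom F f)
    (hg : F.IsHom R g) (hi : Function.Injective f) (hs : Function.Surjective g)
    (hex : Function.Exact f g) (hF : T.Reg F n) {s : ℕ} (hR : T.Reg R s) : T.Reg K (s + 1) := by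
  have key : ∀ j ≤ s, j ≤ n → ∀ x, f x ∈ T.Ys F j → x ∈ T.Ys K j := by
    intro j
    induction j with
    | zero =>
      intro _ _ x hx
      rw [Ys_zero, Submodule.mem_bot] at hx ⊢
      exact hi (by rw [hx, map_zero])
    | succ j ih =>
      intro hj hjn x hx
      obtain ⟨a, ha⟩ := T.mem_Ys_succ F ⟨j, hjn⟩ hx
      have h1 := T.Ys_map hg _ ha
      rw [map_sub, (hex _).2 ⟨x, rfl⟩, zero_sub, neg_mem_iff, hg] at h1
      obtain ⟨b, hb, hab⟩ := T.Ys_surj hg hs _ (hR ⟨j, hjn⟩ hj _ h1)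
      obtain ⟨c, hc⟩ := (hex (a - b)).1 (by rw [map_sub, hab, sub_self])
      have h2 : f (x - K.ρ (T.y ⟨j, hjn⟩) c) ∈ T.Ys F j := by
        rw [map_sub, hf, hc, map_sub]
        have := add_mem ha (T.Ys_stable F ⟨j, hjn⟩ _ hb)
        convert this using 1; abel
      have h3 := ih (by omega) (by omega) _ h2
      have := add_mem (T.Ys_mono K (Nat.le_succ j) h3)
        (T.y_mem_Ys K (i := ⟨j, hjn⟩) (Nat.lt_succ_self j) c)
      simpa using this
  intro i hi' m hm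
  refine key i (by omega) i.2.le m (hF i i.2 _ ?_)
  rw [← hf]; exact T.Ys_map hf _ hm

theorem comap_Ys {F : LRep k L} {GF : Grading k F.M} {G : Grading k R.M} (hGF : T.Gr F GF)
    (hG : T.Gr R G) (hb : GF.Bdd) {f : F.M →ₗ[k] R.M} (hf : F.IsHom R f) (hfg : GF.IsHom G f)
    (hR : T.Reg R n) (htop : ∀ a, f a ∈ T.Ys R n → a ∈ T.Ys F n) :
    ∀ j ≤ n, ∀ a, f a ∈ T.Ys R j → a ∈ T.Ys F j := by
  obtain ⟨t, ht⟩ := hb
  intro j hj
  induction hj using Nat.decreasingInduction with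
  | self => exact htop
  | of_succ j hj ih =>
    have key : ∀ r : ℕ, ∀ d, t - r < d → ∀ a, f a ∈ T.Ys R j → GF.P d a ∈ T.Ys F j := by
      intro r
      induction r with
      | zero => intro d hd a _; rw [ht d (by omega)]; exact zero_mem _
      | succ r ihr =>
        intro d hd a ha
        obtain ⟨b, hb⟩ := T.mem_Ys_succ F ⟨j, hj⟩ (ih a (T.Ys_mono R (Nat.le_succ j) ha))
        have h1 : f b ∈ T.Ys R j := by
          refine hR ⟨j, hj⟩ hj _ ?_
          have := sub_mem ha (T.Ys_map hf _ hb)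
          rwa [map_sub, sub_sub_cancel, hf] at this
        have hδ := T.δ_pos ⟨j, hj⟩
        have h2 := ihr (d + T.δ ⟨j, hj⟩) (by omega) b h1
        have h3 := T.Ys_sub hGF _ d _ hb
        have h4 := hGF _ _ (T.y_mem ⟨j, hj⟩) (d + T.δ ⟨j, hj⟩) b
        rw [add_neg_cancel_right] at h4
        rw [map_sub, h4] at h3
        simpa using add_mem h3 (T.Ys_stable F ⟨j, hj⟩ _ h2)
    intro a ha
    exact GF.mem_of_P fun d => key (t - d + 1).toNat d (by omega) a ha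

theorem reg_quot {F Q : LRep k L} {f : F.M →ₗ[k] R.M} {g : R.M →ₗ[k] Q.M} (hf : F.IsHom R f)
    (hg : R.IsHom Q g) (hs : Function.Surjective g) (hex : Function.Exact f g) (hR : T.Reg R n)
    (hc : ∀ j ≤ n, ∀ a, f a ∈ T.Ys R j → a ∈ T.Ys F j) : T.Reg Q n := by
  intro i hi m hm
  obtain ⟨m, rfl⟩ := hs m
  obtain ⟨b, hb, hbm⟩ := T.Ys_surj hg hs _ hm
  obtain ⟨a, ha⟩ := (hex (R.ρ (T.y i) m - b)).1 (by rw [map_sub, hbm, hg, sub_self])
  have h1 : f a ∈ T.Ys R (i + 1) := by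
    rw [ha]
    exact sub_mem (T.y_mem_Ys R (Nat.lt_succ_self _) _) (T.Ys_mono R (Nat.le_succ _) hb)
  obtain ⟨a', ha'⟩ := T.mem_Ys_succ F i (hc _ hi a h1)
  have h2 : R.ρ (T.y i) (m - f a') ∈ T.Ys R i := by
    have := add_mem (T.Ys_map hf _ ha') hb
    rw [map_sub, ha, hf] at this
    rw [map_sub]
    convert this using 1; abel
  have h3 := T.Ys_map hg _ (hR i hi _ h2)
  rwa [map_sub, (hex _).2 ⟨a', rfl⟩, sub_zero] at h3

end Depth

end Trg

end Pool.Agent.P.Bf04
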