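import Pool.Agent.P.MP_bf0464_al.H.EHit
import Pool.Agent.P.MP_bf0464_al.H.Bad

/-! The torus modulo a good prime and the Killing form. -/

namespace Pool.Agent.P.Bf04

open Matrix Module

universe u v w

namespace RD

variable {D : RD} {p : ℕ}

variable (D) in
/-- the Cartan matrix is nondegenerate modulo p -/
def Ker (p : ℕ) : Prop :=
  ∀ x : D.Δ → ZMod p, (∀ j, ∑ i, x i * (D.A i j : ZMod p) = 0) → x = 0

theorem ker_exc (hp : p.Prime) (hg : D.Good p)
    (h : IsTyp D.A Finset.univ CartanMatrix.E₆ ∨ IsTyp D.A Finset.univ CartanMatrix.E₇ ∨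
      IsTyp D.A Finset.univ CartanMatrix.E₈ ∨ IsTyp D.A Finset.univ CartanMatrix.F₄ ∨
      IsTyp D.A Finset.univ CartanMatrix.G₂) : D.Ker p := by
  intro x hx
  have h1 := hg.ker hp (C := Finset.univ) (Or.inr (Or.inr (Or.inr h))) (fun i => x i) fun j => by
    rw [Finset.sum_coe_sort Finset.univ fun i => x i * (D.A i j : ZMod p)]
    exact hx j
  funext i
  exact congrFun h1 ⟨i, Finset.mem_univ i⟩

theorem xa_det [Fact p.Prime] (hk : D.Ker p) (K : Type u) [Field K] [CharP K p] :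
    (D.A.map (Int.cast : ℤ → K)).det ≠ 0 := by
  have h1 : (D.A.map (Int.cast : ℤ → ZMod p)).det ≠ 0 := by
    intro h0
    obtain ⟨x, hx, h2⟩ := Matrix.exists_vecMul_eq_zero_iff.2 h0
    exact hx (hk x fun j => congrFun h2 j)
  rw [← Int.cast_det] at h1 ⊢
  rw [Ne, CharP.intCast_eq_zero_iff K p]
  rwa [Ne, CharP.intCast_eq_zero_iff (ZMod p) p] at h1

theorem xa_pair {R : Type u} [CommRing R] (x : D.Δ → R) (α : D.ι) :
    2 * ∑ β, D.dg x β * D.pr β α = D.dg x α * ∑ β, (D.pr β α : R) ^ 2 := by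
  have h := D.rootA_sum α fun β => D.dg x β * (D.pr β α : R)
  have e : ∀ β, D.dg x (D.rf α β) * (D.pr (D.rf α β) α : R) =
      D.dg x α * (D.pr β α : R) ^ 2 - D.dg x β * D.pr β α := by
    intro β
    have h1 := D.pr_rf α β α
    have h2 := D.pr_neg_right (D.rf α β) α
    have h3 : D.pr (D.rf α β) α = -D.pr β α := by
      rw [← h1]
      exact (neg_eq_iff_eq_neg.2 h2).symm.trans rfl
    rw [D.root_dg_rf, h3]
    push_cast
    ring
  simp only [e, Finset.sum_sub_distrib, ← Finset.mul_sum] at h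
  linear_combination -h

theorem xa_rt {R : Type u} [CommRing R] (y : D.σ → R) (β : D.ι) :
    ∑ b, (D.rt β b : R) * y b = D.dg (fun i => ∑ b, (D.rt (D.s i) b : R) * y b) β := by
  unfold dg
  simp only [Finset.mul_sum]
  rw [Finset.sum_comm]
  refine Finset.sum_congr rfl fun b _ => ?_
  rw [congrFun (D.rt_co β) b, Finset.sum_apply]
  push_cast
  rw [Finset.sum_mul]
  refine Finset.sum_congr rfl fun i _ => ?_
  simp only [Pi.smul_apply, smul_eq_mul]
  push_cast
  ring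

theorem xa_cr {R : Type u} [CommRing R] (μ : D.Δ → R) (i : D.Δ) :
    ∑ b, (D.rt (D.s i) b : R) * ∑ k, μ k * (D.cr (D.s k) b : R)
      = (D.A.map (Int.cast : ℤ → R) *ᵥ μ) i := by
  simp only [Matrix.mulVec, dotProduct, Matrix.map_apply, A, pr, Matrix.of_apply, Finset.mul_sum]
  rw [Finset.sum_comm]
  refine Finset.sum_congr rfl fun k _ => ?_
  push_cast
  rw [Finset.sum_mul]
  exact Finset.sum_congr rfl fun b _ => by ring

/-- every integral function on the simple roots comes from the torus -/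
theorem tor_sur [Fact p.Prime] (hk : D.Ker p) (K : Type u) [Field K] [CharP K p] (ν : D.Δ → ℤ) :
    ∃ y : D.σ → K, ∀ β, ∑ s, (D.rt β s : K) * y s = ((D.dg ν β : ℤ) : K) := by
  have hu : IsUnit (D.A.map (Int.cast : ℤ → K)) :=
    (Matrix.isUnit_iff_isUnit_det _).2 (isUnit_iff_ne_zero.2 (xa_det hk K))
  obtain ⟨μ, hμ⟩ := Matrix.mulVec_surjective_iff_isUnit.2 hu fun i => (ν i : K)
  refine ⟨fun b => ∑ k, μ k * (D.cr (D.s k) b : K), fun β => ?_⟩
  rw [xa_rt]
  simp only [xa_cr, hμ, dg, Int.cast_id, Int.cast_sum, Int.cast_mul]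

theorem kn_of [Fact p.Prime] (hS : D.SC) (hk : D.Ker p)
    (h : ∀ i, ¬ (p : ℤ) ∣ ∑ β, D.pr β (D.s i) ^ 2) : D.KN p := by
  refine ⟨fun y hy => ?_, fun α => ?_⟩
  · set x : D.Δ → ZMod p := fun i => ∑ b, (D.rt (D.s i) b : ZMod p) * y b with hx
    have h1 : ∀ α, ∑ β, D.dg x β * (D.pr β α : ZMod p) = 0 := by
      intro α
      have h2 : ∑ a, ∑ β, (D.cr α a : ZMod p) * ((D.rt β a : ZMod p) * D.dg x β) = 0 := by
        refine Finset.sum_eq_zero fun a _ => ?_
        rw [← Finset.mul_sum]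
        refine mul_eq_zero_of_right _ (Eq.trans ?_ (hy a))
        exact Finset.sum_congr rfl fun β _ => by rw [xa_rt y β]
      rw [← h2, Finset.sum_comm]
      refine Finset.sum_congr rfl fun β _ => ?_
      simp only [pr, dotProduct]
      push_cast
      rw [Finset.mul_sum]
      exact Finset.sum_congr rfl fun a _ => by ring
    have h3 : ∀ i, x i = 0 := by
      intro i
      have h4 := xa_pair x (D.s i)
      rw [h1, mul_zero, D.dg_s] at h4
      refine (mul_eq_zero.1 h4.symm).resolve_right fun h5 => h i ?_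
      rw [← CharP.intCast_eq_zero_iff (ZMod p) p]
      push_cast
      exact h5
    choose z hz using fun b => ZMod.intCast_surjective (y b)
    have h6 : y = fun b => ∑ k, ((D.ω k ⬝ᵥ z : ℤ) : ZMod p) * (D.cr (D.s k) b : ZMod p) := by
      funext b
      rw [← hz b, congrFun (hS z) b, Finset.sum_apply, Int.cast_sum]
      exact Finset.sum_congr rfl fun k _ => by
        rw [Pi.smul_apply, smul_eq_mul, Int.cast_mul]
    have h7 : (fun k => ((D.ω k ⬝ᵥ z : ℤ) : ZMod p)) = 0 := by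
      refine Matrix.eq_zero_of_mulVec_eq_zero (xa_det hk (ZMod p)) (funext fun i => ?_)
      rw [← xa_cr]
      refine Eq.trans ?_ (h3 i)
      exact Finset.sum_congr rfl fun b _ => by rw [congrFun h6 b]
    rw [h6]
    funext b
    exact Finset.sum_eq_zero fun k _ => by rw [congrFun h7 k, Pi.zero_apply, zero_mul]
  · induction α using D.root_induction with
    | h0 i => exact h i
    | h1 i α ih =>
      rw [← D.rootA_sum (D.s i) fun β => D.pr β (D.rf (D.s i) α) ^ 2]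
      simpa only [D.pr_rf] using ih

theorem co_rw_add (l : List D.Δ) (α β γ : D.ι) :
    D.co (D.rw l α) + D.co (D.rw l β) = D.co (D.rw l γ) ↔ D.co α + D.co β = D.co γ := by
  have key : ∀ (i : D.Δ) (α β γ : D.ι), D.co α + D.co β = D.co γ →
      D.co (D.rf (D.s i) α) + D.co (D.rf (D.s i) β) = D.co (D.rf (D.s i) γ) := by
    intro i α β γ h
    have h1 : D.pr γ (D.s i) = D.pr α (D.s i) + D.pr β (D.s i) := by
      simp only [pr]
      rw [← (D.rt_add_iff α β γ).2 h, add_dotProduct]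
    rw [D.co_rf, D.co_rf, D.co_rf, h1, ← h]
    module
  induction l with
  | nil => rfl
  | cons i l ih =>
    refine Iff.trans ?_ ih
    rw [root_rw_cons, root_rw_cons, root_rw_cons]
    refine ⟨fun h => ?_, key i _ _ _⟩
    simpa only [D.rf_rf] using key i _ _ _ h

theorem dw_ne_zero (l : List D.Δ) {ν : D.Δ → ℤ} (h : ν ≠ 0) : D.dw l ν ≠ 0 := by
  intro h2
  apply h
  funext i
  have h3 := D.dg_dw l ν (D.rw l.reverse (D.s i))
  have h4 := D.rw_reverse l.reverse (D.s i)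
  rw [List.reverse_reverse] at h4
  rw [h4, D.dg_s, h2] at h3
  rw [← h3]
  simp [RD.dg]

/-- a chamber that is adapted to two functions -/
theorem exists_frame (ν μ : D.Δ → ℤ) :
    ∃ l, 0 ≤ D.dw l ν ∧ ∀ i, D.dw l ν i = 0 → 0 ≤ D.dw l μ i := by
  obtain ⟨M, hM⟩ := Finite.exists_le fun β => |D.dg μ β|
  have hf : ∀ β, D.dg (fun i => (M + 1) * ν i + μ i) β = (M + 1) * D.dg ν β + D.dg μ β := by
    intro β
    simp only [RD.dg, Finset.mul_sum, ← Finset.sum_add_distrib]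
    exact Finset.sum_congr rfl fun i _ => by ring
  obtain ⟨l, hl⟩ := D.exists_dw fun i => (M + 1) * ν i + μ i
  have h1 : ∀ i, 0 ≤ (M + 1) * D.dw l ν i + D.dw l μ i := fun i => by
    have h2 := hl i
    unfold dw at h2 ⊢
    rwa [hf] at h2
  refine ⟨l, fun i => ?_, fun i hi => ?_⟩
  · by_contra hi
    have h2 : D.dw l ν i ≤ -1 := by
      have := not_le.1 hi
      simp only [Pi.zero_apply] at this
      omega
    have h3 : |D.dw l μ i| ≤ M := hM _
    have h4 := le_abs_self (D.dw l μ i)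
    have h5 := abs_nonneg (D.dw l μ i)
    nlinarith [h1 i]
  · have h2 := h1 i
    rwa [hi, mul_zero, zero_add] at h2

theorem xa_zero_iff {ν : D.Δ → ℤ} (h : 0 ≤ ν) {J : Finset D.Δ} (hJ : ∀ i, i ∈ J ↔ ν i = 0)
    {β : D.ι} (hβ : D.Pos β) : D.dg ν β = 0 ↔ D.In J β := by
  rw [RD.dg, Finset.sum_eq_zero_iff_of_nonneg fun j _ =>
    mul_nonneg (by exact_mod_cast hβ j) (h j)]
  refine ⟨fun h1 i hi => ?_, fun h1 i _ => ?_⟩
  · exact (mul_eq_zero.1 (h1 i (Finset.mem_univ i))).resolve_right fun h2 => hi ((hJ i).2 h2)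
  · by_cases hi : i ∈ J
    · rw [(hJ i).1 hi, mul_zero]
    · rw [h1 i hi, Int.cast_zero, zero_mul]

theorem dg_pos_iff {ν : D.Δ → ℤ} (h : 0 ≤ ν) {J : Finset D.Δ} (hJ : ∀ i, i ∈ J ↔ ν i = 0)
    (β : D.ι) : 0 < D.dg ν β ↔ D.Pos β ∧ ¬ D.In J β := by
  refine ⟨fun h1 => ?_, fun h1 => ?_⟩
  · have h2 := D.pos_of_dg h h1
    exact ⟨h2, fun h3 => h1.ne' ((xa_zero_iff h hJ h2).2 h3)⟩
  · exact lt_of_le_of_ne (D.dg_nonneg h h1.1) fun h2 => h1.2 ((xa_zero_iff h hJ h1.1).1 h2.symm)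

theorem dg_zero_iff {ν : D.Δ → ℤ} (h : 0 ≤ ν) {J : Finset D.Δ} (hJ : ∀ i, i ∈ J ↔ ν i = 0)
    (β : D.ι) : D.dg ν β = 0 ↔ D.In J β := by
  by_cases hβ : D.Pos β
  · exact xa_zero_iff h hJ hβ
  · have h1 := xa_zero_iff h hJ ((D.pos_neg_iff β).2 hβ)
    rw [D.dg_neg, neg_eq_zero] at h1
    rw [h1]
    simp only [In, D.co_neg, Pi.neg_apply, neg_eq_zero]

theorem pos_of_frame {μ : D.Δ → ℤ} {J : Finset D.Δ} (hJ : ∀ i ∈ J, 0 ≤ μ i) {β : D.ι}
    (hβ : D.In J β) (h : 0 < D.dg μ β) : D.Pos β := by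
  refine (D.sign β).resolve_right fun h1 => absurd h (not_lt.2 ?_)
  refine Finset.sum_nonpos fun i _ => ?_
  by_cases hi : i ∈ J
  · exact mul_nonpos_of_nonpos_of_nonneg (h1 i) (hJ i hi)
  · rw [hβ i hi, Int.cast_zero, zero_mul]

theorem simple_of_frame {μ : D.Δ → ℤ} {J : Finset D.Δ} (hJ : ∀ i ∈ J, 0 < μ i) {β : D.ι}
    (hβ : D.In J β) (h : D.dg μ β = 1) : ∃ i ∈ J, β = D.s i := by
  have hp : D.Pos β := pos_of_frame (fun i hi => (hJ i hi).le) hβ (by omega)
  have h1 : D.ht β ≤ D.dg μ β := by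
    refine Finset.sum_le_sum fun i _ => ?_
    by_cases hi : i ∈ J
    · have h2 : 0 ≤ D.co β i := hp i
      have h3 := hJ i hi
      rw [Int.cast_id]
      nlinarith
    · rw [hβ i hi, Int.cast_zero, zero_mul]
  have h2 := (D.pos_iff_ht β).1 hp
  obtain ⟨i, rfl⟩ := D.eq_s_of_ht (β := β) (by omega)
  exact ⟨i, D.in_s.1 hβ, rfl⟩

end RD

end Pool.Agent.P.Bf04
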