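import Pool.Agent.P.MP_bf0464_al.H.XA

/-! Criteria for degree functions that need not be dominant. -/

namespace Pool.Agent.P.Bf04

open Matrix Module

universe u v w

namespace CD

variable {D : CD} {p : ℕ} [Fact p.Prime] {a : ℕ} {d : D.Δ → ℤ} {Z X : Set D.ι}

variable (D p) in
/-- some dominant conjugate is finished -/
def DoneE (a : ℕ) (d : D.Δ → ℤ) : Prop := ∃ l, 0 ≤ D.dw l d ∧ Done.{u} D p a (D.dw l d)

variable (D p) in
/-- tangent vectors, in all chambers -/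
def HitW (d : D.Δ → ℤ) (Z X : Set D.ι) : Prop :=
  ∀ (l : List D.Δ) (K : Type u) [Field K] [CharP K p],
    D.Hit K (D.dw l d) {β | D.rw l β ∈ Z} {β | D.rw l β ∈ X}

theorem xb_tor {K : Type u} [Field K] (h : D.Hit K d Z X) (y : D.σ → K) {γ : D.ι} (hγ : γ ∈ Z)
    (hc : ∑ s, (D.rt γ s : K) * y s ≠ 0)
    (ho : ∀ z ∈ Z, z = γ ∨ z ∈ X ∨ ∑ s, (D.rt z s : K) * y s = 0) :
    D.Hit K d Z (insert γ X) := by
  intro β hβ
  rcases hβ with rfl | hβ
  swap
  · exact h β hβ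
  obtain ⟨c, hc'⟩ : ∃ c, c = ∑ s, (D.rt β s : K) * y s := ⟨_, rfl⟩
  have hT : D.coad (D.ind K Z) (D.hv y) ∈ D.ehit_T d (D.ind K Z) := by
    refine ⟨D.hv y, fun b hb => ?_, rfl⟩
    rcases b with s | β
    · exact D.dB_inl d s
    · exact absurd rfl hb
  have hT' : D.coad (D.ind K Z) (D.hv y)
      + c • (Pi.single (.inr (D.neg β)) 1 : D.B → K) ∈ D.ehit_T d (D.ind K Z) := by
    refine ehit_mem (fun s => ?_) fun γ' hγ' => ?_
    · rw [Pi.add_apply, Pi.smul_apply, coad_hv_inl, Pi.single_eq_of_ne Sum.inl_ne_inr]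
      simp
    · change D.cd (D.coad (D.ind K Z) (D.hv y)) γ' + c •
        D.cd (Pi.single (.inr (D.neg β)) 1 : D.B → K) γ' ≠ 0 at hγ'
      rw [ehit_cd_single, cd_coad_hv] at hγ'
      have hne : γ' ≠ β := by
        rintro rfl
        apply hγ'
        rw [if_pos rfl, RD.cd_ind hγ, ← hc', smul_eq_mul, mul_one, mul_one, neg_add_cancel]
      rw [if_neg hne, smul_zero, add_zero] at hγ'
      have hm : γ' ∈ Z := (RD.supp_ind Z).2 γ' (right_ne_zero_of_mul hγ')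
      rcases ho γ' hm with e | e | e
      · exact absurd e hne
      · exact h γ' e
      · exact absurd (by rw [e, neg_zero]) (left_ne_zero_of_mul hγ')
  have := (D.ehit_T d (D.ind K Z)).smul_mem c⁻¹ ((D.ehit_T d (D.ind K Z)).sub_mem hT' hT)
  rw [add_sub_cancel_left, smul_smul, inv_mul_cancel₀ (hc' ▸ hc), one_smul] at this
  exact this

theorem xb_ins (l : List D.Δ) (γ : D.ι) :
    {β | D.rw l β ∈ insert (D.rw l γ) X} = insert γ {β | D.rw l β ∈ X} := by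
  ext β
  simp only [Set.mem_ofPred_eq, Set.mem_insert_iff, (D.rw_bij l).1.eq_iff]

theorem xb_card (l : List D.Δ) (j : ℤ) (i : DecidablePred fun b => D.dB (D.dw l d) b = j) :
    (@Finset.filter _ _ i Finset.univ).card = (Finset.univ.filter fun β => D.dg d β = j).card
      + if j = 0 then Fintype.card D.σ else 0 := by
  rw [Subsingleton.elim i fun b => Int.decEq _ _, Finset.card_filter, Finset.card_filter,
    Fintype.sum_sum_type, add_comm]
  congr 1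
  · simp only [D.dB_inr, D.dg_dw]
    exact (D.rw_bij l).sum_comp fun β => if D.dg d β = j then 1 else 0
  · simp only [D.dB_inl]
    by_cases hj : j = 0
    · simp [hj]
    · simp [hj, Ne.symm hj]

theorem HitW.nil : HitW.{u} D p d Z ∅ := fun _ _ _ _ _ hβ => hβ.elim

theorem HitW.mono (h : HitW.{u} D p d Z X) {X' : Set D.ι} (hX : X' ⊆ X) : HitW.{u} D p d Z X' :=
  fun l K _ _ β hβ => h l K β (hX hβ)

theorem HitW.step (hg : D.Good p) (ha : 0 < a) (hZ : ∀ z ∈ Z, D.dg d z = a)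
    (h : HitW.{u} D p d Z X) {δ z γ : D.ι} (hδ : D.dg d δ = 0) (hz : z ∈ Z)
    (hγ : D.co z + D.co δ = D.co γ)
    (ho : ∀ z' ∈ Z, ∀ γ', D.co z' + D.co δ = D.co γ' → γ' = γ ∨ γ' ∈ X) :
    HitW.{u} D p d Z (insert γ X) := by
  intro l K _ _
  obtain ⟨δ, rfl⟩ := (D.rw_bij l).2 δ
  obtain ⟨z, rfl⟩ := (D.rw_bij l).2 z
  obtain ⟨γ, rfl⟩ := (D.rw_bij l).2 γ
  rw [xb_ins]
  refine Hit.step hg ha (fun z' hz' => ?_) (h l K) (δ := δ) (z := z) ?_ hz
    ((RD.co_rw_add l z δ γ).1 hγ) fun z' hz' γ' he => ?_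
  · rw [D.dg_dw]
    exact hZ _ hz'
  · rw [D.dg_dw]
    exact hδ
  · exact (ho _ hz' _ ((RD.co_rw_add l z' δ γ').2 he)).imp_left fun e => (D.rw_bij l).1 e

theorem HitW.tor (hk : D.Ker p) (h : HitW.{u} D p d Z X) {ν : D.Δ → ℤ} {γ : D.ι} (hγ : γ ∈ Z)
    (hν : ¬ (p : ℤ) ∣ D.dg ν γ) (ho : ∀ z ∈ Z, z = γ ∨ z ∈ X ∨ D.dg ν z = 0) :
    HitW.{u} D p d Z (insert γ X) := by
  intro l K _ _
  obtain ⟨γ, rfl⟩ := (D.rw_bij l).2 γ
  obtain ⟨y, hy⟩ := RD.tor_sur hk K (D.dw l ν)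
  rw [xb_ins]
  refine xb_tor (h l K) y hγ (fun h0 => hν ?_) fun z hz => ?_
  · rw [hy, D.dg_dw] at h0
    exact (CharP.intCast_eq_zero_iff K p _).1 h0
  · rcases ho _ hz with e | e | e
    · exact Or.inl ((D.rw_bij l).1 e)
    · exact Or.inr (Or.inl e)
    · refine Or.inr (Or.inr ?_)
      rw [hy, D.dg_dw, e, Int.cast_zero]

theorem doneE_count (hS : D.SC) {j : ℤ} (hj : -(a : ℤ) < j)
    (h : (Finset.univ.filter fun β => D.dg d β = j).card + (if j = 0 then Fintype.card D.Δ else 0)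
      < (Finset.univ.filter fun β => D.dg d β = -a - j).card) : DoneE.{u} D p a d := by
  obtain ⟨l, hl⟩ := D.exists_dw d
  refine ⟨l, hl, done_count hj ?_⟩
  rw [xb_card, xb_card, hS.card]
  exact h.trans_le (Nat.le_add_right _ _)

theorem doneE_span (ih : IH.{u} D p) (ha : 0 < a) {ν : D.Δ → ℤ} (hν : ν ≠ 0)
    (h : ∀ β, D.dg d β = a → D.dg ν β = 0) : DoneE.{u} D p a d := by
  obtain ⟨l, hl⟩ := D.exists_dw d
  refine ⟨l, hl, done_span ih ha (RD.dw_ne_zero l hν) fun β hβ => ?_⟩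
  rw [D.dg_dw] at hβ ⊢
  exact h _ hβ

theorem doneE_levi (ih : IH.{u} D p) (ha : 0 < a) (hZ : ∀ z ∈ Z, D.dg d z = a)
    (h : HitW.{u} D p d Z X) (hX : ∀ β, D.dg d β = a → β ∈ X) {ν : D.Δ → ℤ} (hν : ν ≠ 0)
    (h0 : ∀ z ∈ Z, D.dg ν z = 0) : DoneE.{u} D p a d := by
  obtain ⟨l, hl⟩ := D.exists_dw d
  have hZ' : ∀ z ∈ {β | D.rw l β ∈ Z}, D.dg (D.dw l d) z = a := fun z hz => by
    rw [D.dg_dw]
    exact hZ _ hz
  refine ⟨l, hl, done_ind ha hl hZ' (fun K _ _ => (h l K).sur ha fun β hβ => ?_) fun _ =>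
    savI_levi ih ha hZ' (RD.dw_ne_zero l hν) fun z hz => ?_⟩
  · rw [D.dg_dw] at hβ
    exact hX _ hβ
  · rw [D.dg_dw]
    exact h0 _ hz

theorem doneE_dom (ha : 0 < a) (hd : 0 ≤ d) (hZ : ∀ z ∈ Z, D.dg d z = a)
    (h : HitW.{u} D p d Z X) (hX : ∀ β, D.dg d β = a → β ∈ X)
    (hs : (∀ (K : Type u) [Field K] [CharP K p], D.Sur (a : ℤ) d (D.ind K Z)) →
      SavI.{u} D p Z 1) : DoneE.{u} D p a d := by
  refine ⟨[], ?_⟩
  rw [D.dw_nil]
  refine ⟨hd, done_ind ha hd hZ (fun K _ _ => ?_) hs⟩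
  have h1 := h [] K
  rw [D.dw_nil] at h1
  exact Hit.sur (X := X) ha h1 hX

theorem doneE_reg (hk : D.Ker p) : DoneE.{u} D p 1 fun _ => 1 := by
  have hp : ¬ (p : ℤ) ∣ 1 := fun h =>
    (Fact.out : p.Prime).one_lt.ne' (by exact_mod_cast Int.eq_one_of_dvd_one (by omega) h)
  have h1 : ∀ T : Finset D.Δ,
      HitW.{u} D p (fun _ => 1) (Set.range D.s) (D.s '' (T : Set D.Δ)) := by
    intro T
    induction T using Finset.induction_on with
    | empty =>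
      rw [Finset.coe_empty, Set.image_empty]
      exact HitW.nil
    | insert i T hi ih =>
      rw [Finset.coe_insert, Set.image_insert_eq]
      refine ih.tor hk (ν := Pi.single i 1) (Set.mem_range_self i) ?_ ?_
      · rw [D.dg_s, Pi.single_eq_same]
        exact hp
      · rintro _ ⟨k, rfl⟩
        by_cases hk : k = i
        · exact Or.inl (by rw [hk])
        · refine Or.inr (Or.inr ?_)
          rw [D.dg_s, Pi.single_eq_of_ne hk]
  refine doneE_dom one_pos (fun _ => zero_le_one) ?_ (h1 Finset.univ) (fun β hβ => ?_)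
    fun _ => savI_std ?_
  · rintro _ ⟨i, rfl⟩
    rw [D.dg_s, Nat.cast_one]
  · obtain ⟨i, hi, e⟩ := RD.simple_of_frame (J := Finset.univ) (μ := fun _ => 1)
      (fun _ _ => one_pos) (fun i hi => absurd (Finset.mem_univ i) hi) (hβ.trans Nat.cast_one)
    exact ⟨i, hi, e.symm⟩
  · rintro _ ⟨i, rfl⟩
    exact ⟨i, rfl⟩

end CD

end Pool.Agent.P.Bf04
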