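import Pool.Agent.P.MP_bf0464_al.H.XT

/-! The checkers for degree functions. -/

namespace Pool.Agent.P.Bf04.X

open Matrix

noncomputable section

/-- share a number -/
def lz {α : Type} (x : ℕ) (f : ℕ → α) : α := f x

@[simp] theorem lz_eq {α : Type} (x : ℕ) (f : ℕ → α) : lz x f = f x := rfl

/-- powers of two -/
def one (y : ℕ) : Bool :=
  an (Nat.ble (nat_lit 1) y) (Nat.beq (Nat.land y (Nat.sub y (nat_lit 1))) (nat_lit 0))

theorem one_iff (y : ℕ) : one y = true ↔ ∃ g, ∀ x, y.testBit x = true ↔ x = g := by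
  change an (Nat.ble 1 y) (Nat.beq (y &&& (y - 1)) 0) = true ↔ _
  rw [an_iff, Nat.ble_eq, Nat.beq_eq, Nat.one_le_iff_ne_zero,
    Nat.ne_zero_and_sub_one_eq_zero_iff_isPowerOfTwo]
  refine exists_congr fun g => ⟨?_, fun h => Nat.eq_of_testBit_eq fun x => ?_⟩
  · rintro rfl x
    rw [Nat.testBit_two_pow, decide_eq_true_eq, eq_comm]
  · rw [Nat.testBit_two_pow, Bool.eq_iff_iff, h, decide_eq_true_eq, eq_comm]

/-- choice by parity -/
def par {α : Type} (q : ℕ) (x y : α) : α :=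
  Nat.rec (motive := fun _ => α) x (fun _ _ => y) (Nat.mod q (nat_lit 2))

theorem par_eq {α : Type} (q : ℕ) (x y : α) : par q x y = if q % 2 = 0 then x else y := by
  change Nat.rec (motive := fun _ => α) x (fun _ _ => y) (q % 2) = _
  cases q % 2 <;> rfl

/-- half -/
def hf (q : ℕ) : ℕ := Nat.shiftRight q (nat_lit 1)

theorem hf_eq (q : ℕ) : hf q = q / 2 := Nat.shiftRight_one q

/-- digits in base 256 -/
def hd (g t : ℕ) : ℕ := Nat.mod (Nat.shiftRight g (Nat.mul (nat_lit 8) t)) (nat_lit 256)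

/-- certificates -/
inductive Ce
  | cnt (j : ℕ)
  | spn (w : ℕ)
  | lev (w : ℕ) (zs : List (ℕ × ℕ)) (ds : List ℕ)
  | ext
  | reg

/-- moves -/
inductive St
  | dn (g d z : ℕ)
  | up (g d z : ℕ)
  | wk
  | qd (g₁ d₁ g₂ d₂ z₁ z₂ v w : ℕ)

/-- chains -/
structure Cn where
  w : ℕ
  v : ℕ
  u : ℕ
  k : ℕ
  ix : ℕ
  q : List (ℕ × ℕ)
  st : List St
  zs : List (ℕ × ℕ)
  ds : List ℕ

/-- vectors with entries zero or a outside the position i -/
def en (a i : ℕ) (lf : ℕ → ℕ → List ℕ → List ℕ) (l : List ℕ) : ℕ → ℕ → ℕ → List ℕ → List ℕ :=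
  List.rec (motive := fun _ => ℕ → ℕ → ℕ → List ℕ → List ℕ) (fun _ w s acc => lf w s acc)
    (fun t _ r j w s acc => force (Nat.succ j) fun j' => ife (Nat.beq j i) (r j' w s acc)
      (force (Nat.add w (Nat.shiftLeft (nat_lit 512) (Nat.mul (nat_lit 10) j))) fun w₀ =>
        r j' w₀ s (force (Nat.add w₀ (Nat.shiftLeft a (Nat.mul (nat_lit 10) j))) fun w₁ =>
          force (Nat.add s t) fun s₁ => r j' w₁ s₁ acc))) l

/-- the entry minus m at the position i -/
def lf1 (a i w m : ℕ) (acc : List ℕ) : List ℕ :=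
  ife (Nat.beq (Nat.mod (Nat.succ m) a) (nat_lit 0))
    (Nat.add w (Nat.shiftLeft (Nat.sub (nat_lit 512) m) (Nat.mul (nat_lit 10) i)) :: acc) acc

namespace Tab

variable (T : Tab)

/-- the hash of the root with code q -/
def hc (q : ℕ) : ℕ := par q (Nat.add T.off (dig T.hs (hf q))) (Nat.sub T.off (dig T.hs (hf q)))

/-- q is the code of a root -/
def vc (q : ℕ) : Bool := Nat.ble (Nat.succ (hf q)) T.n

/-- q is the code of a root of degree t -/
def isd (V q t : ℕ) : Bool := an (T.vc q) (par q (Nat.beq (dig V (hf q)) (Nat.add (nat_lit 65536) t))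
  (Nat.beq (Nat.add (dig V (hf q)) t) (nat_lit 65536)))

/-- the roots that are sums of a root in X and the root with hash d -/
def sh (X d : ℕ) : ℕ := Nat.land (shf X d T.off) T.rm

/-- the vector is not zero -/
def nz (w : ℕ) : Bool := nany (fun j => nt (Nat.beq (dt w j) (nat_lit 512))) T.r

/-- all roots in the list have degree zero -/
def kil (U : ℕ) (zs : List (ℕ × ℕ)) : Bool :=
  lall (fun y => Nat.beq (dig U (hf y.1)) (nat_lit 65536)) zs

/-- the set of the roots in a list -/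
def zm (zs : List (ℕ × ℕ)) : ℕ := lun (fun z => bit (T.hc z.1)) zs

/-- the steps given by the torus -/
def tor (V a : ℕ) (zs : List (ℕ × ℕ)) : Bool :=
  ltl (fun z t => an (T.isd V z.1 a) (lz (T.dv z.2) fun U => an (force (dig U (hf z.1)) fun x =>
    Nat.beq (Nat.mod T.bp (Nat.add (Nat.sub x (nat_lit 65536)) (Nat.sub (nat_lit 65536) x)))
      (nat_lit 0)) (kil U t))) zs

/-- all roots of degree a are in X -/
def cov (V a X : ℕ) : Bool :=
  force (Nat.add (nat_lit 65536) a) fun s => force (Nat.sub (nat_lit 65536) a) fun t =>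
    nall (fun k => force (dig V k) fun x => ife (Nat.beq x s) (tb X (Nat.add T.off (dig T.hs k)))
      (ife (Nat.beq x t) (tb X (Nat.sub T.off (dig T.hs k))) true)) T.n

/-- a sum of roots -/
def sm (z d g : ℕ) : Bool := an (T.vc z) (an (T.vc d) (an (T.vc g)
  (Nat.beq (Nat.add (T.hc z) (T.hc d)) (Nat.add (T.hc g) T.off))))

/-- the sum is not a root -/
def ns (y z : ℕ) : Bool := an (nt (Nat.beq (T.hc y) (T.hc z)))
  (nt (tb T.rm (Nat.sub (Nat.add (T.hc y) (T.hc z)) T.off)))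

/-- the shift of Z has at most two new elements -/
def tw (Z X d g h : ℕ) : Bool :=
  sb (T.sh Z (T.hc d)) (Nat.lor X (Nat.lor (bit (T.hc g)) (bit (T.hc h))))

/-- a cube -/
def cube (V Z X b z₁ z₂ z₃ d₁ d₂ d₃ g₁ g₂ g₃ : ℕ) : Bool :=
  an (T.isd V d₁ (nat_lit 0)) (an (tb Z (T.hc z₁)) (an (tb Z (T.hc z₂)) (an (tb Z (T.hc z₃))
  (an (T.ns z₂ z₃) (an (T.ns z₁ z₃) (an (T.ns z₁ z₂) (an (T.sm z₁ b d₁) (an (T.sm z₂ b d₂)
  (an (T.sm z₃ b d₃) (an (T.sm z₃ d₂ g₁) (an (T.sm z₃ d₁ g₂) (an (T.sm z₂ d₁ g₃)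
  (an (T.tw Z X d₁ g₂ g₃) (an (T.tw Z X d₂ g₁ g₃) (T.tw Z X d₃ g₁ g₂)))))))))))))))

/-- the steps given by root vectors -/
def peel (V a Z : ℕ) (ds : List ℕ) : ℕ → Bool :=
  List.rec (motive := fun _ => ℕ → Bool) (T.cov V a) (fun q _ r X =>
    ife (Nat.ble q (nat_lit 255)) (an (T.isd V q (nat_lit 0))
      (lz (df (T.sh Z (T.hc q)) X) fun Y => an (one Y) (r (Nat.lor X Y))))
      (an (T.cube V Z X (hd q (nat_lit 0)) (hd q (nat_lit 1)) (hd q (nat_lit 2)) (hd q (nat_lit 3))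
        (hd q (nat_lit 4)) (hd q (nat_lit 5)) (hd q (nat_lit 6)) (hd q (nat_lit 7))
        (hd q (nat_lit 8)) (hd q (nat_lit 9))) (r (Nat.lor X (bit (T.hc (hd q (nat_lit 7)))))))) ds

/-- the tangent space is everything -/
def hit (V a : ℕ) (zs : List (ℕ × ℕ)) (ds : List ℕ) : Bool :=
  an (T.tor V a zs) (lz (T.zm zs) fun Z => T.peel V a Z ds Z)

/-- the histogram of the degrees -/
def hist (V : ℕ) : ℕ := nsum (fun k => Nat.shiftLeft (nat_lit 1)
  (Nat.mul (nat_lit 8) (Nat.sub (dig V k) (nat_lit 65280)))) T.n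

/-- the check of a certificate -/
def chk (kn : List ℕ) (a w : ℕ) (c : Ce) : Bool :=
  Ce.rec (motive := fun _ => Bool)
    (fun j => an (Nat.ble (nat_lit 1) j) (an (Nat.ble j (nat_lit 255)) (an (Nat.ble a (nat_lit 255))
      (an (Nat.ble T.n (nat_lit 255)) (lz (T.dv w) fun V => lz (T.hist V) fun g =>
        Nat.ble (Nat.succ (Nat.add (Nat.add (hd g (Nat.sub (Nat.add (nat_lit 256) j) a))
          (hd g (Nat.sub (Nat.add (nat_lit 256) a) j))) (ife (Nat.beq j a) T.r (nat_lit 0))))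
          (Nat.add (hd g (Nat.add (nat_lit 256) j)) (hd g (Nat.sub (nat_lit 256) j))))))))
    (fun v => an (T.nz v) (lz (T.dv w) fun V => lz (T.dv v) fun U =>
      force (Nat.add (nat_lit 65536) a) fun s => force (Nat.sub (nat_lit 65536) a) fun t =>
        nall (fun k => force (dig V k) fun x => ife (orr (Nat.beq x s) (Nat.beq x t))
          (Nat.beq (dig U k) (nat_lit 65536)) true) T.n))
    (fun v zs ds => an (T.nz v) (an (lz (T.dv v) fun U => kil U zs)
      (lz (T.dv w) fun V => T.hit V a zs ds)))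
    (an (Nat.beq a (nat_lit 1)) (lany (Nat.beq w) kn))
    (an (Nat.beq a (nat_lit 1)) (nall (fun j => Nat.beq (dt w j) (nat_lit 513)) T.r)) c

/-- the check of a list of certificates -/
def chkL (kn : List ℕ) (a : ℕ) (ws : List ℕ) : List Ce → Bool :=
  List.rec (motive := fun _ => List Ce → Bool) (fun _ => true)
    (fun w _ r cs => List.rec (motive := fun _ => Bool) false
      (fun c cs' _ => an (force w fun w' => T.chk kn a w' c) (r cs')) cs) ws

/-- the integral candidates -/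
def grp0 (kn : List ℕ) (cs : List Ce) : Bool :=
  T.chkL kn (nat_lit 1) (en (nat_lit 1) T.r (fun w _ acc => w :: acc) T.th (nat_lit 0) (nat_lit 0)
    (nat_lit 0) []) cs

/-- the candidates for a vertex -/
def grp (i : ℕ) (cs : List Ce) : Bool := force (nth T.th i) fun a =>
  T.chkL [] a (en a i (fun w s acc => lf1 a i w s (lf1 a i w (Nat.succ s) acc)) T.th (nat_lit 0)
    (nat_lit 0) (nat_lit 0) []) cs

/-- the roots of degree above t -/
def mgt (V t : ℕ) : ℕ := nor (fun k => force (dig V k) fun x =>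
  ife (Nat.ble (Nat.succ (Nat.add (nat_lit 65536) t)) x) (bit (Nat.add T.off (dig T.hs k)))
    (ife (Nat.ble (Nat.succ (Nat.add x t)) (nat_lit 65536)) (bit (Nat.sub T.off (dig T.hs k)))
      (nat_lit 0))) T.n

/-- the root subgroup keeps the shape -/
def mv (Q F d : ℕ) : Bool := an (T.vc d) (an (Nat.beq (Nat.land Q F) (nat_lit 0))
  (an (nt (tb (Nat.lor Q F) (Nat.sub (Nat.mul (nat_lit 2) T.off) (T.hc d))))
    (an (sb (T.sh Q (T.hc d)) (Nat.lor Q F)) (sb (T.sh F (T.hc d)) F))))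

/-- no double shifts -/
def nd (Q d : ℕ) : Bool :=
  Nat.beq (Nat.land Q (T.sh (Nat.land Q (T.sh Q (T.hc d))) (T.hc d))) (nat_lit 0)

/-- a chain of moves -/
def run (G : ℕ) (fin : ℕ → ℕ → ℕ → Bool) (st : List St) : ℕ → ℕ → ℕ → Bool :=
  List.rec (motive := fun _ => ℕ → ℕ → ℕ → Bool) fin (fun s _ r Q F k =>
    St.rec (motive := fun _ => Bool)
      (fun g d z => an (T.mv Q F d) (an (T.sm z d g) (an (tb Q (T.hc z)) (an (tb Q (T.hc g))
        (an (nt (tb (T.sh Q (T.hc d)) (T.hc z))) (r (df Q (bit (T.hc g))) F k))))))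
      (fun g d z => lz (Nat.lor Q (bit (T.hc g))) fun P => an (T.mv P F d) (an (T.sm z d g)
        (an (tb Q (T.hc z)) (an (nt (tb Q (T.hc g)))
          (an (nt (tb (T.sh P (T.hc d)) (T.hc z))) (r P F k))))))
      (an (sb F G) (r (df Q G) G k))
      (fun g₁ d₁ g₂ d₂ z₁ z₂ v w => an (T.mv Q F d₁) (an (T.mv Q F d₂) (an (T.nd Q d₁)
        (an (T.nd Q d₂) (an (T.sm z₁ d₁ g₁) (an (T.sm z₂ d₂ g₁) (an (T.sm v d₁ w)
        (an (T.sm w d₂ g₂) (an (tb Q (T.hc g₁)) (an (tb Q (T.hc g₂))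
        (an (nt (Nat.beq (T.hc g₁) (T.hc g₂))) (an (tb Q (T.hc z₁)) (an (tb Q (T.hc z₂))
        (an (tb Q (T.hc v)) (an (nt (tb (T.sh Q (T.hc d₁)) (T.hc z₂)))
          (r (df (df Q (bit (T.hc g₁))) (bit (T.hc g₂))) F (hf k))))))))))))))))) s) st

/-- dual vectors -/
def dual (ix : ℕ) (zs : List (ℕ × ℕ)) : Bool :=
  List.rec (motive := fun _ => Bool) false (fun z t _ => an (Nat.ble (nat_lit 1) ix)
    (an (T.isd (T.dv z.2) z.1 ix) (an (ltl (fun x s => lall (fun y => nt (Nat.beq x.1 y.1)) s) zs)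
      (lall (fun x => lz (T.dv x.2) fun U => lall (fun y =>
        T.isd U y.1 (ife (Nat.beq x.1 y.1) (nat_lit 1) (nat_lit 0))) t) zs)))) zs

/-- the vector is dominant -/
def dom (w : ℕ) : Bool := nall (fun j => Nat.ble (nat_lit 512) (dt w j)) T.r

/-- the check of a chain -/
def chn (c : Cn) : Bool := an (T.dom c.w) (lz (T.dv c.w) fun V => an (T.hit V (nat_lit 1) c.zs c.ds)
  (an (T.dual c.ix c.zs) (lz (T.mgt V (nat_lit 1)) fun G =>
    T.run G (fun Q F k => an (Nat.beq Q (T.zm c.zs)) (an (sb F G) (Nat.ble c.ix k))) c.st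
      (Nat.lor (T.zm c.q) (T.mgt (T.dv c.v) (nat_lit 0))) (nat_lit 0) c.k)))

/-- the check of the beginning of a chain -/
def frm (c : Cn) : Bool := lz (T.dv c.v) fun V => lz (T.dv c.u) fun U =>
  an (T.nz c.v) (an (lall (fun q => an (T.isd V q.1 (nat_lit 0))
    (an (T.isd U q.1 q.2) (Nat.ble (nat_lit 1) q.2))) c.q)
  (orr (Nat.beq c.k (nat_lit 1)) (an (lall (fun q => Nat.beq q.2 (nat_lit 1)) c.q)
    (an (nall (fun k => orr (nt (Nat.beq (dig V k) (nat_lit 65536)))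
      (nt (Nat.beq (dig U k) (nat_lit 65536)))) T.n)
    (lany (fun x => orr (Nat.beq c.k (nat_lit 2)) (an (Nat.beq c.k (nat_lit 4))
      (lany (fun y => nt (Nat.beq (T.hc x.1) (T.hc y.1))) c.q))) c.q)))))

end Tab

namespace Chart

variable {D : RD} {T : Tab} (C : Chart D T)

/-- the function with code w -/
def vec (w : ℕ) : D.Δ → ℤ := fun i => (dt w (C.ix i) : ℤ) - 512

/-- the root with code q -/
def rt (q : ℕ) : D.ι := if q % 2 = 0 then C.ρ (q / 2) else D.neg (C.ρ (q / 2))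

/-- the set of roots with code X -/
def S (X : ℕ) : Set D.ι := {β | X.testBit (C.h β) = true}

/-- the set of roots in a list -/
def Z (zs : List (ℕ × ℕ)) : Set D.ι := {β | ∃ z ∈ zs, β = C.rt z.1}

end Chart

end

end Pool.Agent.P.Bf04.X
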