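import Pool.Agent.P.MP_bf0464_al.H.XD

/-! Basic properties of the codes. -/

namespace Pool.Agent.P.Bf04.X

open Matrix

theorem Tab.vc_iff {T : Tab} {q : ℕ} : T.vc q = true ↔ q / 2 < T.n := by
  rw [Tab.vc, Nat.ble_eq, hf_eq]; rfl

namespace Chart

variable {D : RD} {T : Tab} (C : Chart D T) {w q k t X Y : ℕ} {β γ δ : D.ι} {zs : List (ℕ × ℕ)}

theorem dig_dv (hk : k < T.n) : (dig (T.dv w) k : ℤ) = 65536 + D.dg (C.vec w) (C.ρ k) :=
  C.dv w k hk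

theorem cases (β : D.ι) : ∃ k < T.n, β = C.ρ k ∨ β = D.neg (C.ρ k) := by
  by_cases h : D.Pos β
  · obtain ⟨k, hk, e⟩ := C.sur β h
    exact ⟨k, hk, .inl e.symm⟩
  · obtain ⟨k, hk, e⟩ := C.sur _ ((D.pos_neg_iff β).2 h)
    exact ⟨k, hk, .inr (by rw [e, D.neg_neg])⟩

theorem h_neg' (β : D.ι) : C.h (D.neg β) = 2 * T.off - C.h β := by
  have := C.h_neg β
  omega

theorem h_negρ (hk : k < T.n) : C.h (D.neg (C.ρ k)) = T.off - dig T.hs k := by
  have := C.h_neg (C.ρ k)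
  rw [C.h_ρ k hk] at this
  omega

theorem h_rt (hq : T.vc q = true) : C.h (C.rt q) = T.hc q := by
  rw [Tab.vc_iff] at hq
  rw [rt, Tab.hc, par_eq, hf_eq]
  split_ifs
  exacts [C.h_ρ _ hq, C.h_negρ hq]

theorem isd_ok (h : T.isd (T.dv w) q t = true) :
    T.vc q = true ∧ D.dg (C.vec w) (C.rt q) = t := by
  rw [Tab.isd, an_iff, par_eq, hf_eq] at h
  refine ⟨h.1, ?_⟩
  have h1 := C.dig_dv (w := w) (Tab.vc_iff.1 h.1)
  have h2 := h.2
  rw [rt]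
  split_ifs at h2 ⊢
  · have h3 : dig (T.dv w) (q / 2) = 65536 + t := Nat.eq_of_beq_eq_true h2
    omega
  · have h3 : dig (T.dv w) (q / 2) + t = 65536 := Nat.eq_of_beq_eq_true h2
    rw [D.dg_neg]
    omega

theorem dg_rt (hq : T.vc q = true) :
    D.dg (C.vec w) (C.rt q) = (dig (T.dv w) (hf q) : ℤ) - 65536 ∨
      D.dg (C.vec w) (C.rt q) = 65536 - (dig (T.dv w) (hf q) : ℤ) := by
  rw [hf_eq, C.dig_dv (Tab.vc_iff.1 hq), rt]
  split_ifs
  · exact .inl (by omega)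
  · exact .inr (by rw [D.dg_neg]; omega)

theorem mem_S : β ∈ C.S X ↔ X.testBit (C.h β) = true := Iff.rfl

theorem rt_mem (hq : T.vc q = true) : C.rt q ∈ C.S X ↔ tb X (T.hc q) = true := by
  rw [mem_S, C.h_rt hq, tb_iff]

theorem S_zero : C.S 0 = ∅ := by
  ext β; simp [mem_S]

theorem S_lor : C.S (Nat.lor X Y) = C.S X ∪ C.S Y := Set.ext fun _ => testBit_lor _ _ _

theorem S_land : C.S (Nat.land X Y) = C.S X ∩ C.S Y := Set.ext fun _ => testBit_land _ _ _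

theorem S_df : C.S (df X Y) = C.S X \ C.S Y := Set.ext fun _ => testBit_df _ _ _

theorem S_bit (hq : T.vc q = true) : C.S (bit (T.hc q)) = {C.rt q} := by
  ext β
  rw [mem_S, testBit_bit, ← C.h_rt hq, C.h_inj.eq_iff, Set.mem_singleton_iff]

theorem S_sb (h : sb X Y = true) : C.S X ⊆ C.S Y := fun _ hβ => (sb_iff X Y).1 h _ hβ

theorem sh_mem (h : β ∈ C.S X) (hq : T.vc q = true) (e : D.co β + D.co (C.rt q) = D.co γ) :
    γ ∈ C.S (T.sh X (T.hc q)) := by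
  rw [Tab.sh, S_land]
  exact ⟨(testBit_shf _ _ _ _).2 ⟨_, h, C.h_rt hq ▸ (C.h_add _ _ _).2 e⟩, (C.rm _).2 ⟨γ, rfl⟩⟩

theorem sh_bit (hX : ∀ x, X.testBit x = true → ∃ β, C.h β = x) (hq : T.vc q = true) {x : ℕ}
    (h : (T.sh X (T.hc q)).testBit x = true) :
    ∃ β ∈ C.S X, ∃ γ, C.h γ = x ∧ D.co β + D.co (C.rt q) = D.co γ := by
  rw [Tab.sh, testBit_land, testBit_shf, C.rm] at h
  obtain ⟨⟨m, h1, h2⟩, γ, rfl⟩ := h
  obtain ⟨β, rfl⟩ := hX m h1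
  exact ⟨β, h1, γ, rfl, (C.h_add _ _ _).1 (C.h_rt hq ▸ h2)⟩

theorem sm_ok {z d g : ℕ} (h : T.sm z d g = true) : T.vc z = true ∧ T.vc d = true ∧
    T.vc g = true ∧ D.co (C.rt z) + D.co (C.rt d) = D.co (C.rt g) := by
  simp only [Tab.sm, an_iff] at h
  refine ⟨h.1, h.2.1, h.2.2.1, (C.h_add _ _ _).1 ?_⟩
  rw [C.h_rt h.1, C.h_rt h.2.1, C.h_rt h.2.2.1]
  exact Nat.eq_of_beq_eq_true h.2.2.2

theorem vec_e {j : ℕ} (hj : j < T.r) : C.vec w (C.e j) = (dt w j : ℤ) - 512 := by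
  rw [vec, C.ix_e j hj]

theorem nz_ok (h : T.nz w = true) : C.vec w ≠ 0 := by
  simp only [Tab.nz, nany_iff, nt_iff, Nat.beq_eq] at h
  obtain ⟨j, hj, h⟩ := h
  intro e
  have h1 : C.vec w (C.e j) = 0 := congrFun e _
  have h2 : ¬ dt w j = 512 := h
  rw [C.vec_e hj] at h1
  omega

theorem dom_ok (h : T.dom w = true) : 0 ≤ C.vec w := fun i => by
  simp only [Tab.dom, nall_iff, Nat.ble_eq] at h
  have h1 : 512 ≤ dt w (C.ix i) := h _ (C.ix_lt i)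
  change (0 : ℤ) ≤ (dt w (C.ix i) : ℤ) - 512
  omega

theorem kil_ok (h : Tab.kil (T.dv w) zs = true) (hv : ∀ z ∈ zs, T.vc z.1 = true) :
    ∀ β ∈ C.Z zs, D.dg (C.vec w) β = 0 := by
  rintro _ ⟨z, hz, rfl⟩
  rw [Tab.kil, lall_iff] at h
  have h1 : dig (T.dv w) (hf z.1) = 65536 := Nat.eq_of_beq_eq_true (h z hz)
  have h2 := C.dg_rt (w := w) (hv z hz)
  omega

theorem zm_bit (hv : ∀ z ∈ zs, T.vc z.1 = true) (x : ℕ) (h : (T.zm zs).testBit x = true) :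
    ∃ β, C.h β = x := by
  obtain ⟨z, hz, h⟩ := (testBit_lun _ _ _).1 h
  exact ⟨_, (C.h_rt (hv z hz)).trans ((testBit_bit _ _).1 h).symm⟩

theorem S_zm (hv : ∀ z ∈ zs, T.vc z.1 = true) : C.S (T.zm zs) = C.Z zs := by
  ext β
  rw [mem_S, Tab.zm, testBit_lun]
  refine exists_congr fun z => and_congr_right fun hz => ?_
  rw [testBit_bit, ← C.h_rt (hv z hz), C.h_inj.eq_iff]

theorem S_mgt : C.S (T.mgt (T.dv w) t) = {β | (t : ℤ) < D.dg (C.vec w) β} := by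
  ext β
  simp only [mem_S, Tab.mgt, testBit_nor, force_eq, ife_eq, Nat.ble_eq, Set.mem_setOf_eq]
  refine ⟨?_, fun h => ?_⟩
  · rintro ⟨k, hk, h⟩
    have h1 := C.dig_dv (w := w) hk
    split_ifs at h with h2 h3
    · have h4 : 65536 + t + 1 ≤ dig (T.dv w) k := h2
      rw [C.h_inj (((testBit_bit _ _).1 h).trans (C.h_ρ k hk).symm)]
      omega
    · have h4 : dig (T.dv w) k + t + 1 ≤ 65536 := h3
      rw [C.h_inj (((testBit_bit _ _).1 h).trans (C.h_negρ hk).symm), D.dg_neg]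
      omega
    · exact absurd h (by simp)
  · obtain ⟨k, hk, rfl | rfl⟩ := C.cases β
    · have h1 := C.dig_dv (w := w) hk
      refine ⟨k, hk, ?_⟩
      have h2 : 65536 + t + 1 ≤ dig (T.dv w) k := by omega
      split_ifs with h3
      · exact (testBit_bit _ _).2 (C.h_ρ k hk)
      all_goals exact absurd h2 h3
    · have h1 := C.dig_dv (w := w) hk
      rw [D.dg_neg] at h
      refine ⟨k, hk, ?_⟩
      have h2 : ¬ 65536 + t + 1 ≤ dig (T.dv w) k := by omega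
      have h3 : dig (T.dv w) k + t + 1 ≤ 65536 := by omega
      split_ifs with h4 h5
      exacts [absurd h4 h2, (testBit_bit _ _).2 (C.h_negρ hk), absurd h3 h5]

end Chart

end Pool.Agent.P.Bf04.X
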