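import Pool.Agent.P.MP_bf0464_al.H.XG

/-! Soundness of the check of certificates. -/

namespace Pool.Agent.P.Bf04.X

open Matrix Module CD

universe u

theorem xi_hist {n : ℕ} (hn : n ≤ 255) (m : ℕ → ℕ) (t : ℕ) :
    (∑ k ∈ Finset.range n, 256 ^ m k) / 256 ^ t % 256
      = ((Finset.range n).filter fun k => m k = t).card := by
  refine digit_of_modEq (n := t + 1) (f := fun i => ((Finset.range n).filter fun k => m k = i).card)
    (fun i _ => ?_) ?_ (Nat.lt_succ_self t)
  · exact ((Finset.card_filter_le _ _).trans_eq (Finset.card_range n)).trans_lt (by omega)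
  · simp only [Finset.card_filter, Finset.sum_mul]
    rw [Finset.sum_comm]
    refine Nat.ModEq.sum fun k _ => ?_
    simp only [ite_mul, one_mul, zero_mul]
    rw [Finset.sum_ite_eq]
    split_ifs with h
    · rfl
    · rw [Finset.mem_range, not_lt] at h
      exact (Nat.modEq_zero_iff_dvd).2 (pow_dvd_pow _ h)

namespace Chart

theorem hist_ok {D : RD} {T : Tab} (C : Chart D T) (hn : T.n ≤ 255) (w : ℕ) {t : ℕ} (ht : 0 < t) :
    hd (T.hist (T.dv w)) t
      = ((Finset.range T.n).filter fun k => D.dg (C.vec w) (C.ρ k) = (t : ℤ) - 256).card := by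
  have e1 : hd (T.hist (T.dv w)) t = T.hist (T.dv w) / 256 ^ t % 256 := by
    change T.hist (T.dv w) >>> (8 * t) % 256 = _
    rw [Nat.shiftRight_eq_div_pow, pow_mul]
    rfl
  have e2 : T.hist (T.dv w) = ∑ k ∈ Finset.range T.n, 256 ^ (dig (T.dv w) k - 65280) := by
    rw [Tab.hist, nsum_eq]
    refine Finset.sum_congr rfl fun k _ => ?_
    change 1 <<< (8 * (dig (T.dv w) k - 65280)) = _
    rw [Nat.one_shiftLeft, pow_mul]
    rfl
  rw [e1, e2, xi_hist hn]
  refine congrArg Finset.card (Finset.filter_congr fun k hk => ?_)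
  have h1 := C.dig_dv (w := w) (Finset.mem_range.1 hk)
  omega

theorem card_dg {D : RD} {T : Tab} (C : Chart D T) (d : D.Δ → ℤ) (j : ℤ) :
    (Finset.univ.filter fun β => D.dg d β = j).card
      = ((Finset.range T.n).filter fun k => D.dg d (C.ρ k) = j).card
        + ((Finset.range T.n).filter fun k => D.dg d (C.ρ k) = -j).card := by
  classical
  have i1 : Set.InjOn C.ρ ((Finset.range T.n).filter fun k => D.dg d (C.ρ k) = j : Finset ℕ) :=
    fun k hk l hl e => C.inj k (Finset.mem_range.1 (Finset.mem_filter.1 hk).1) l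
      (Finset.mem_range.1 (Finset.mem_filter.1 hl).1) e
  have i2 : Set.InjOn (fun k => D.neg (C.ρ k))
      ((Finset.range T.n).filter fun k => D.dg d (C.ρ k) = -j : Finset ℕ) :=
    fun k hk l hl e => C.inj k (Finset.mem_range.1 (Finset.mem_filter.1 hk).1) l
      (Finset.mem_range.1 (Finset.mem_filter.1 hl).1) (by
        have e' : D.neg (C.ρ k) = D.neg (C.ρ l) := e
        rw [← D.neg_neg (C.ρ k), e', D.neg_neg])
  rw [← Finset.card_image_of_injOn i1, ← Finset.card_image_of_injOn i2,
    ← Finset.card_union_of_disjoint]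
  · refine congrArg Finset.card (Finset.ext fun β => ?_)
    simp only [Finset.mem_filter, Finset.mem_univ, true_and, Finset.mem_union, Finset.mem_image,
      Finset.mem_range]
    refine ⟨fun h => ?_, ?_⟩
    · obtain ⟨k, hk, rfl | rfl⟩ := C.cases β
      · exact .inl ⟨k, ⟨hk, h⟩, rfl⟩
      · rw [D.dg_neg] at h
        exact .inr ⟨k, ⟨hk, by omega⟩, rfl⟩
    · rintro (⟨k, ⟨-, h⟩, rfl⟩ | ⟨k, ⟨-, h⟩, rfl⟩)
      · exact h
      · rw [D.dg_neg]
        omega
  · rw [Finset.disjoint_left]
    intro β h1 h2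
    obtain ⟨k, hk, rfl⟩ := Finset.mem_image.1 h1
    obtain ⟨l, hl, e⟩ := Finset.mem_image.1 h2
    have h3 := C.pos k (Finset.mem_range.1 (Finset.mem_filter.1 hk).1)
    rw [← e, D.pos_neg_iff] at h3
    exact h3 (C.pos l (Finset.mem_range.1 (Finset.mem_filter.1 hl).1))

variable {D : CD} {T : Tab} (C : Chart D.toRD T) {p : ℕ} [Fact p.Prime]

theorem chk_ok (hg : D.Good p) (hS : D.SC) (hk : D.Ker p) (h2 : p ≠ 2) (hb : ¬ p ∣ T.bp)
    (ih : IH.{u} D p) {kn : List ℕ} (hkn : ∀ w ∈ kn, DoneE.{u} D p 1 (C.vec w)) {a w : ℕ}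
    (ha : 0 < a) {c : Ce} (h : T.chk kn a w c = true) : DoneE.{u} D p a (C.vec w) := by
  cases c with
  | cnt j =>
    change an _ (an _ (an _ (an _ (lz _ _)))) = true at h
    simp only [an_iff, lz_eq, Nat.ble_eq, ife_eq, Nat.beq_eq] at h
    obtain ⟨h1, h3, h4, h5, h6⟩ := h
    have h1 : 1 ≤ j := h1
    have h3 : j ≤ 255 := h3
    have h4 : a ≤ 255 := h4
    have h5 : T.n ≤ 255 := h5
    have h6 : hd (T.hist (T.dv w)) (256 + j - a) + hd (T.hist (T.dv w)) (256 + a - j)
        + (if j = a then T.r else 0) + 1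
        ≤ hd (T.hist (T.dv w)) (256 + j) + hd (T.hist (T.dv w)) (256 - j) := h6
    rw [C.hist_ok h5 w (by omega), C.hist_ok h5 w (by omega), C.hist_ok h5 w (by omega),
      C.hist_ok h5 w (by omega), show ((256 + j - a : ℕ) : ℤ) - 256 = j - a by omega,
      show ((256 + a - j : ℕ) : ℤ) - 256 = -(j - a) by omega,
      show ((256 + j : ℕ) : ℤ) - 256 = -(-a - (j - a)) by omega,
      show ((256 - j : ℕ) : ℤ) - 256 = -a - (j - a) by omega] at h6
    refine doneE_count hS (j := (j : ℤ) - a) (by omega) ?_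
    rw [C.card_dg, C.card_dg, C.card]
    have e : (if (j : ℤ) - a = 0 then T.r else 0) = if j = a then T.r else 0 :=
      if_congr (by omega) rfl rfl
    rw [e]
    omega
  | spn v =>
    change an _ (lz _ _) = true at h
    simp only [an_iff, lz_eq, force_eq, nall_iff, ife_eq, orr_iff, Nat.beq_eq] at h
    refine doneE_span ih ha (C.nz_ok h.1) fun β hβ => ?_
    obtain ⟨k, hk, e⟩ := C.cases β
    have h1 := C.dig_dv (w := w) hk
    have h3 := C.dig_dv (w := v) hk
    have h4 := h.2 k hk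
    have h5 : dig (T.dv w) k = 65536 + a ∨ dig (T.dv w) k = 65536 - a := by
      rcases e with rfl | rfl
      · omega
      · rw [D.dg_neg] at hβ
        omega
    have h6 : dig (T.dv v) k = 65536 := by
      split_ifs at h4 with h7
      exacts [Nat.eq_of_beq_eq_true h4, absurd h5 h7]
    rcases e with rfl | rfl
    · omega
    · rw [D.dg_neg]
      omega
  | lev v zs ds =>
    change an _ (an (lz _ _) (lz _ _)) = true at h
    simp only [an_iff, lz_eq] at h
    obtain ⟨h1, h3, X, h4, h5⟩ := C.hit_ok.{u} hg hk h2 hb ha h.2.2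
    exact doneE_levi ih ha h3 h4 h5 (C.nz_ok h.1) (C.kil_ok h.2.1 h1)
  | ext =>
    change an _ (lany _ _) = true at h
    simp only [an_iff, lany_iff, Nat.beq_eq] at h
    obtain ⟨h1, x, hx, rfl⟩ := h
    obtain rfl : a = 1 := h1
    exact hkn _ hx
  | reg =>
    change an _ (nall _ _) = true at h
    simp only [an_iff, nall_iff, Nat.beq_eq] at h
    obtain rfl : a = 1 := h.1
    have e : C.vec w = fun _ => 1 := funext fun i => by
      have h1 : dt w (C.ix i) = 513 := h.2 _ (C.ix_lt i)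
      change (dt w (C.ix i) : ℤ) - 512 = 1
      omega
    rw [e]
    exact doneE_reg hk

end Chart

end Pool.Agent.P.Bf04.X
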