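import Pool.Agent.P.MP_bf0464_al.H.XE
import Pool.Agent.P.MP_bf0464_al.H.EAlcA

/-! The enumeration of the candidates is complete. -/

namespace Pool.Agent.P.Bf04.X

open Matrix Module CD

theorem xj_cons (a i : ℕ) (lf : ℕ → ℕ → List ℕ → List ℕ) (t : ℕ) (l : List ℕ) (j w s : ℕ)
    (acc : List ℕ) : en a i lf (t :: l) j w s acc = if j = i then en a i lf l (j + 1) w s acc else
      en a i lf l (j + 1) (w + 512 * 1024 ^ j) s
        (en a i lf l (j + 1) (w + 512 * 1024 ^ j + a * 1024 ^ j) (s + t) acc) := by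
  have e : ∀ x : ℕ, x <<< (10 * j) = x * 1024 ^ j := fun x => by
    rw [Nat.shiftLeft_eq, pow_mul]
    rfl
  change force (Nat.succ j) (fun j' => ife (Nat.beq j i) (en a i lf l j' w s acc)
    (force (w + 512 <<< (10 * j)) fun w₀ => en a i lf l j' w₀ s
      (force (w₀ + a <<< (10 * j)) fun w₁ => force (s + t) fun s₁ =>
        en a i lf l j' w₁ s₁ acc))) = _
  simp only [force_eq, ife_eq, Nat.beq_eq, e]

theorem xj_acc {a i : ℕ} {lf : ℕ → ℕ → List ℕ → List ℕ}
    (hlf : ∀ w s acc, ∀ x ∈ acc, x ∈ lf w s acc) (l : List ℕ) (j w s : ℕ) (acc : List ℕ) :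
    ∀ x ∈ acc, x ∈ en a i lf l j w s acc := by
  induction l generalizing j w s acc with
  | nil => exact hlf w s acc
  | cons t l ih =>
    intro x hx
    rw [xj_cons]
    split_ifs
    · exact ih _ _ _ _ x hx
    · exact ih _ _ _ _ x (ih _ _ _ _ x hx)

theorem xj_mem {a i : ℕ} {lf : ℕ → ℕ → List ℕ → List ℕ}
    (hlf : ∀ w s acc, ∀ x ∈ acc, x ∈ lf w s acc) {b : ℕ → ℕ} (hb : ∀ k, b k = 0 ∨ b k = 1)
    (l : List ℕ) (j w s : ℕ) (acc : List ℕ) : ∃ acc', ∀ x ∈ lf
      (w + ∑ k ∈ Finset.range l.length,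
        if j + k = i then 0 else (512 + a * b (j + k)) * 1024 ^ (j + k))
      (s + ∑ k ∈ Finset.range l.length, if j + k = i then 0 else nth l k * b (j + k)) acc',
      x ∈ en a i lf l j w s acc := by
  induction l generalizing j w s acc with
  | nil => exact ⟨acc, fun x hx => hx⟩
  | cons t l ih =>
    have e : ∀ k, j + (k + 1) = j.succ + k := fun k => by omega
    have e1 : ∀ k, nth (t :: l) (k + 1) = nth l k := fun k => rfl
    have e2 : nth (t :: l) 0 = t := rfl
    rw [xj_cons, List.length_cons, Finset.sum_range_succ', Finset.sum_range_succ']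
    simp only [e, e1]
    rw [e2, Nat.add_zero j]
    split_ifs with h
    · simpa only [add_zero] using ih (j + 1) w s acc
    · rcases hb j with h0 | h0
      · obtain ⟨acc', h1⟩ := ih (j + 1) (w + 512 * 1024 ^ j) s
          (en a i lf l (j + 1) (w + 512 * 1024 ^ j + a * 1024 ^ j) (s + t) acc)
        refine ⟨acc', ?_⟩
        rw [h0, mul_zero, mul_zero, add_zero, add_zero, add_comm _ (512 * 1024 ^ j), ← add_assoc]
        exact h1
      · obtain ⟨acc', h1⟩ := ih (j + 1) (w + 512 * 1024 ^ j + a * 1024 ^ j) (s + t) acc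
        refine ⟨acc', fun x hx => xj_acc hlf _ _ _ _ _ x (h1 x ?_)⟩
        rw [h0, mul_one, mul_one, add_mul, add_comm _ (512 * 1024 ^ j + _), add_comm _ t,
          ← add_assoc, ← add_assoc, ← add_assoc] at hx
        exact hx

theorem xj_lf1 (a i w m : ℕ) (acc : List ℕ) : lf1 a i w m acc =
    if (m + 1) % a = 0 then (w + (512 - m) * 1024 ^ i) :: acc else acc := by
  have e : ∀ x : ℕ, x <<< (10 * i) = x * 1024 ^ i := fun x => by
    rw [Nat.shiftLeft_eq, pow_mul]
    rfl
  change ife (Nat.beq ((m + 1) % a) 0) ((w + (512 - m) <<< (10 * i)) :: acc) acc = _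
  simp only [ife_eq, Nat.beq_eq, e]

theorem xj_lf1_acc (a i w m : ℕ) (acc : List ℕ) : ∀ x ∈ acc, x ∈ lf1 a i w m acc := by
  intro x hx
  rw [xj_lf1]
  split_ifs
  exacts [List.mem_cons_of_mem _ hx, hx]

theorem xj_dt {r : ℕ} {f : ℕ → ℕ} (hf : ∀ k < r, f k < 1024) {j : ℕ} (hj : j < r) :
    dt (∑ k ∈ Finset.range r, f k * 1024 ^ k) j = f j := by
  rw [dt_eq]
  exact digit_of_modEq hf (Nat.ModEq.refl _) hj

theorem xj_sum {D : RD} {T : Tab} (C : Chart D T) (f : ℕ → ℤ) :
    ∑ i, f (C.ix i) = ∑ j ∈ Finset.range T.r, f j :=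
  Finset.sum_nbij' C.ix C.e (fun i _ => Finset.mem_range.2 (C.ix_lt i))
    (fun _ _ => Finset.mem_univ _) (fun i _ => C.e_ix i)
    (fun j hj => C.ix_e j (Finset.mem_range.1 hj)) fun _ _ => rfl

theorem Tab.chkL_ok {T : Tab} {kn : List ℕ} {a : ℕ} {ws : List ℕ} {cs : List Ce}
    (h : T.chkL kn a ws cs = true) : ∀ w ∈ ws, ∃ c, T.chk kn a w c = true := by
  induction ws generalizing cs with
  | nil => intro w hw; exact absurd hw List.not_mem_nil
  | cons v ws ih =>
    cases cs with
    | nil => exact absurd h Bool.false_ne_true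
    | cons c cs =>
      have h1 : an (force v fun w' => T.chk kn a w' c) (T.chkL kn a ws cs) = true := h
      rw [an_iff, force_eq] at h1
      exact List.forall_mem_cons.2 ⟨⟨c, h1.1⟩, ih h1.2⟩

theorem Chart.cand {D : CD} {T : Tab} (C : Chart D.toRD T) {kn : List ℕ} {cs : List Ce}
    (h0 : T.grp0 kn cs = true) (h1 : ∀ i < T.r, 2 ≤ nth T.th i → ∃ cs, T.grp i cs = true)
    {a : ℕ} {d : D.Δ → ℤ} (h : D.Cand C.θ a d) :
    0 < a ∧ ∃ w c, C.vec w = d ∧ (T.chk kn a w c = true ∨ T.chk [] a w c = true) := by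
  classical
  rcases h with ⟨rfl, h⟩ | ⟨i₀, ha, h2, h3, h4, h5⟩
  · refine ⟨one_pos, ?_⟩
    have hb : ∀ k, (d (C.e k)).toNat = 0 ∨ (d (C.e k)).toNat = 1 := fun k => by
      rcases h (C.e k) with e | e <;> simp [e]
    obtain ⟨acc, h6⟩ := xj_mem (a := 1) (i := T.r) (lf := fun w _ acc => w :: acc)
      (fun _ _ _ _ hx => List.mem_cons_of_mem _ hx) hb T.th 0 0 0 []
    obtain ⟨c, hc⟩ := Tab.chkL_ok (kn := kn) (a := 1) h0 _ (h6 _ List.mem_cons_self)
    refine ⟨_, c, funext fun i => ?_, .inl hc⟩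
    rw [C.th_len, zero_add, Finset.sum_congr rfl fun k hk => by
      rw [zero_add, if_neg (Finset.mem_range.1 hk).ne], Chart.vec,
      xj_dt (f := fun k => 512 + 1 * (d (C.e k)).toNat)
        (fun k _ => by rcases hb k with e | e <;> omega) (C.ix_lt i), C.e_ix]
    rcases h i with e | e <;> simp [e]
  · refine ⟨by omega, ?_⟩
    have ha' : a = nth T.th (C.ix i₀) := by
      rw [C.th] at ha
      exact_mod_cast ha
    obtain ⟨cs, h6⟩ := h1 _ (C.ix_lt i₀) (ha' ▸ h2)
    rw [Tab.grp, force_eq, ← ha'] at h6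
    let b : ℕ → ℕ := fun k => if d (C.e k) = a then 1 else 0
    have hb : ∀ k, b k = 0 ∨ b k = 1 := fun k => by
      by_cases e : d (C.e k) = a
      · exact .inr (if_pos e)
      · exact .inl (if_neg e)
    have hd : ∀ i ≠ i₀, d i = a * b (C.ix i) := fun i hi => by
      simp only [b, C.e_ix]
      split_ifs with e
      · simpa using e
      · simpa using (h3 i hi).resolve_right e
    obtain ⟨acc, h7⟩ := xj_mem (a := a) (i := C.ix i₀)
      (lf := fun w s acc => lf1 a (C.ix i₀) w s (lf1 a (C.ix i₀) w (Nat.succ s) acc))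
      (fun _ _ _ x hx => xj_lf1_acc _ _ _ _ _ x (xj_lf1_acc _ _ _ _ _ x hx)) hb T.th 0 0 0 []
    simp only [zero_add, C.th_len] at h7
    set s := ∑ k ∈ Finset.range T.r, if k = C.ix i₀ then 0 else nth T.th k * b k with hs
    set w := ∑ k ∈ Finset.range T.r,
      if k = C.ix i₀ then 0 else (512 + a * b k) * 1024 ^ k with hw
    have hs1 : s ≤ 128 := le_trans (Finset.sum_le_sum fun k _ => by
      split_ifs
      · exact Nat.zero_le _
      · rcases hb k with e | e <;> simp [e]) C.th_sum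
    have ha1 : a ≤ 128 := le_trans (ha' ▸ Finset.single_le_sum (f := nth T.th)
      (fun _ _ => Nat.zero_le _) (Finset.mem_range.2 (C.ix_lt i₀))) C.th_sum
    have hix : ∀ i, C.ix i = C.ix i₀ ↔ i = i₀ := fun i =>
      ⟨fun e => by rw [← C.e_ix i, e, C.e_ix], fun e => by rw [e]⟩
    have hg : D.dg d C.θ = a * (d i₀ + s) := by
      have e : ∀ i, (D.co C.θ i : ℤ) * d i = (if i = i₀ then a * d i₀ else 0) +
          a * ((if C.ix i = C.ix i₀ then 0 else nth T.th (C.ix i) * b (C.ix i) : ℕ) : ℤ) := by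
        intro i
        by_cases e : i = i₀
        · rw [if_pos e, if_pos ((hix i).2 e), e, ← ha]
          simp
        · rw [if_neg e, if_neg fun e' => e ((hix i).1 e'), hd i e, C.th]
          push_cast
          ring
      rw [RD.dg]
      simp only [Int.cast_id]
      rw [Finset.sum_congr rfl fun i _ => e i, Finset.sum_add_distrib, Finset.sum_ite_eq',
        if_pos (Finset.mem_univ _), ← Finset.mul_sum,
        xj_sum C fun k => ((if k = C.ix i₀ then 0 else nth T.th k * b k : ℕ) : ℤ), ← Nat.cast_sum,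
        ← hs, mul_add]
    have key : ∀ m : ℕ, m ≤ 129 → d i₀ = -m →
        (m + 1) % a = 0 ∧ C.vec (w + (512 - m) * 1024 ^ C.ix i₀) = d := by
      intro m hm e
      refine ⟨Nat.mod_eq_zero_of_dvd ?_, funext fun i => ?_⟩
      · rw [e, show -(m : ℤ) - 1 = -((m + 1 : ℕ) : ℤ) by push_cast; ring, dvd_neg] at h5
        exact_mod_cast h5
      · have e1 : w + (512 - m) * 1024 ^ C.ix i₀ = ∑ k ∈ Finset.range T.r,
            (if k = C.ix i₀ then 512 - m else 512 + a * b k) * 1024 ^ k := by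
          have e2 : (512 - m) * 1024 ^ C.ix i₀ = ∑ k ∈ Finset.range T.r,
              if k = C.ix i₀ then (512 - m) * 1024 ^ k else 0 := by
            rw [Finset.sum_ite_eq', if_pos (Finset.mem_range.2 (C.ix_lt i₀))]
          rw [e2, hw, ← Finset.sum_add_distrib]
          refine Finset.sum_congr rfl fun k _ => ?_
          split_ifs
          exacts [zero_add _, add_zero _]
        rw [e1, Chart.vec, xj_dt (f := fun k => if k = C.ix i₀ then 512 - m else 512 + a * b k)
          (fun k _ => by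
            split_ifs
            · omega
            · rcases hb k with e | e <;> rw [e] <;> omega) (C.ix_lt i)]
        by_cases e3 : i = i₀
        · rw [if_pos ((hix i).2 e3), e3, e]
          omega
        · rw [if_neg fun e' => e3 ((hix i).1 e'), hd i e3]
          push_cast
          ring
    have ha0 : (a : ℤ) ≠ 0 := by omega
    rcases h4 with h4 | h4
    · have e : d i₀ = -(s : ℕ) := by
        rw [hg, mul_eq_zero] at h4
        have := h4.resolve_left ha0
        omega
      obtain ⟨k1, k2⟩ := key s (by omega) e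
      obtain ⟨c, hc⟩ := Tab.chkL_ok h6 _ (h7 (w + (512 - s) * 1024 ^ C.ix i₀) (by
        rw [xj_lf1, if_pos k1]
        exact List.mem_cons_self))
      exact ⟨_, c, k2, .inr hc⟩
    · have e : d i₀ = -(s + 1 : ℕ) := by
        rw [hg, ← mul_neg_one (a : ℤ), mul_right_inj' ha0] at h4
        omega
      obtain ⟨k1, k2⟩ := key (s + 1) (by omega) e
      obtain ⟨c, hc⟩ := Tab.chkL_ok h6 _ (h7 (w + (512 - (s + 1)) * 1024 ^ C.ix i₀)
        (xj_lf1_acc _ _ _ _ _ _ (by
          rw [xj_lf1, if_pos k1]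
          exact List.mem_cons_self)))
      exact ⟨_, c, k2, .inr hc⟩

end Pool.Agent.P.Bf04.X
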