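import Pool.Agent.P.MP_bf0464_al.H.YT

/-! Certificates. -/

namespace Pool.Agent.P.Bf04.X

noncomputable section

/-- certificates -/
def cG2_2 : List Ce := [
  .spn (nat_lit 524801),
  .cnt (nat_lit 3),
  .ext,
  .reg]

/-- chains -/
def hG2 : List Cn := [
  ⟨nat_lit 524801, nat_lit 525824, nat_lit 526847, nat_lit 2, nat_lit 2,
    [],
    [.dn (nat_lit 8) (nat_lit 11) (nat_lit 6), .wk, .dn (nat_lit 4) (nat_lit 8) (nat_lit 6)],
    [(nat_lit 6, nat_lit 523779), (nat_lit 2, nat_lit 524801)],
    [nat_lit 8, nat_lit 9]⟩]

theorem gG2_2 : tG2.grp0 (hG2.map Cn.w) cG2_2 = true := by decide +kernel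

theorem hG2_ok : lall (fun c => an (tG2.chn c) (an (Nat.beq c.k 2) (an (Nat.beq c.v 525824)
    (Nat.beq c.q.length 0)))) hG2 = true := by decide +kernel

/-- certificates -/
def cG2_0 : List Ce := [
  .spn (nat_lit 522755),
  .spn (nat_lit 524801)]

theorem gG2_0 : tG2.grp 0 cG2_0 = true := by decide +kernel

/-- certificates -/
def cG2_1 : List Ce := [
  .cnt (nat_lit 1)]

theorem gG2_1 : tG2.grp 1 cG2_1 = true := by decide +kernel

/-- certificates -/
def cF4_4 : List Ce := [
  .spn (nat_lit 550293209601),
  .lev (nat_lit 551365902849) [(nat_lit 34, nat_lit 551366951423), (nat_lit 14, nat_lit 551366951424)] [nat_lit 44, nat_lit 42, nat_lit 38, nat_lit 36, nat_lit 32, nat_lit 43],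
  .cnt (nat_lit 2),
  .cnt (nat_lit 2),
  .ext,
  .ext,
  .cnt (nat_lit 3),
  .cnt (nat_lit 3),
  .lev (nat_lit 548146774528) [(nat_lit 38, nat_lit 549219468800), (nat_lit 4, nat_lit 550293209601)] [nat_lit 44, nat_lit 42, nat_lit 34, nat_lit 30, nat_lit 22, nat_lit 16, nat_lit 45, nat_lit 43, nat_lit 35, nat_lit 31, nat_lit 23, nat_lit 17],
  .lev (nat_lit 551366950401) [(nat_lit 38, nat_lit 549220515328), (nat_lit 32, nat_lit 550293209601), (nat_lit 22, nat_lit 551366951424)] [nat_lit 42, nat_lit 36, nat_lit 45, nat_lit 43, nat_lit 37, nat_lit 31],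
  .cnt (nat_lit 3),
  .cnt (nat_lit 7),
  .lev (nat_lit 551364856320) [(nat_lit 46, nat_lit 550293209601), (nat_lit 36, nat_lit 549220516352), (nat_lit 16, nat_lit 550293210624)] [nat_lit 42, nat_lit 40, nat_lit 34, nat_lit 43],
  .ext,
  .cnt (nat_lit 3),
  .reg]

/-- chains -/
def hF4 : List Cn := [
  ⟨nat_lit 550293210624, nat_lit 551366951424, nat_lit 551370095105, nat_lit 2, nat_lit 2,
    [(nat_lit 36, nat_lit 1)],
    [.dn (nat_lit 34) (nat_lit 39) (nat_lit 24), .dn (nat_lit 40) (nat_lit 27) (nat_lit 18), .wk, .up (nat_lit 30) (nat_lit 42) (nat_lit 36), .dn (nat_lit 18) (nat_lit 42) (nat_lit 24), .dn (nat_lit 12) (nat_lit 34) (nat_lit 24), .dn (nat_lit 22) (nat_lit 40) (nat_lit 30), .dn (nat_lit 28) (nat_lit 47) (nat_lit 24)],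
    [(nat_lit 30, nat_lit 549221562881), (nat_lit 36, nat_lit 550292163071), (nat_lit 24, nat_lit 550293209601), (nat_lit 16, nat_lit 550294257152)],
    [nat_lit 47, nat_lit 35, nat_lit 43, nat_lit 40, nat_lit 42, nat_lit 34, nat_lit 41, nat_lit 46]⟩,
  ⟨nat_lit 551366952448, nat_lit 551366951424, nat_lit 551368001025, nat_lit 1, nat_lit 1,
    [(nat_lit 38, nat_lit 2), (nat_lit 30, nat_lit 3)],
    [.wk],
    [(nat_lit 40, nat_lit 551365904894), (nat_lit 38, nat_lit 550293209601), (nat_lit 34, nat_lit 550294256130), (nat_lit 30, nat_lit 550293210623)],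
    [nat_lit 47, nat_lit 43, nat_lit 42, nat_lit 46]⟩,
  ⟨nat_lit 551366952449, nat_lit 550293209601, nat_lit 551368001025, nat_lit 1, nat_lit 1,
    [(nat_lit 40, nat_lit 1), (nat_lit 36, nat_lit 2), (nat_lit 34, nat_lit 2)],
    [.wk],
    [(nat_lit 46, nat_lit 550293209601), (nat_lit 40, nat_lit 551365903872), (nat_lit 36, nat_lit 550293210624), (nat_lit 34, nat_lit 550294257152)],
    [nat_lit 43, nat_lit 42]⟩]

theorem gF4_4 : tF4.grp0 (hF4.map Cn.w) cF4_4 = true := by decide +kernel

theorem hF4_ok : lall (fun c => an (tF4.chn c) (tF4.frm c)) hF4 = true := by decide +kernel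

/-- certificates -/
def cF4_0 : List Ce := [
  .spn (nat_lit 551366951423),
  .lev (nat_lit 551365902849) [(nat_lit 1, nat_lit 551366950400), (nat_lit 28, nat_lit 551366951424)] [nat_lit 42, nat_lit 45, nat_lit 37],
  .lev (nat_lit 548147821057) [(nat_lit 36, nat_lit 551365902849), (nat_lit 34, nat_lit 551366951423), (nat_lit 1, nat_lit 551366951424)] [nat_lit 44, nat_lit 45],
  .lev (nat_lit 550293207555) [(nat_lit 42, nat_lit 550294258174), (nat_lit 40, nat_lit 551366951423), (nat_lit 1, nat_lit 551366951424)] [nat_lit 44],
  .spn (nat_lit 550293209601),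
  .spn (nat_lit 550293209601),
  .cnt (nat_lit 6),
  .spn (nat_lit 550293209601)]

theorem gF4_0 : tF4.grp 0 cF4_0 = true := by decide +kernel

/-- certificates -/
def cF4_1 : List Ce := [
  .cnt (nat_lit 2),
  .cnt (nat_lit 1),
  .cnt (nat_lit 1),
  .cnt (nat_lit 1),
  .cnt (nat_lit 1)]

theorem gF4_1 : tF4.grp 1 cF4_1 = true := by decide +kernel

/-- certificates -/
def cF4_2 : List Ce := [
  .cnt (nat_lit 1),
  .cnt (nat_lit 1),
  .cnt (nat_lit 3),
  .cnt (nat_lit 1)]

theorem gF4_2 : tF4.grp 2 cF4_2 = true := by decide +kernel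

/-- certificates -/
def cF4_3 : List Ce := [
  .lev (nat_lit 549219468800) [(nat_lit 7, nat_lit 550293209601)] [nat_lit 42, nat_lit 36, nat_lit 32, nat_lit 43, nat_lit 37, nat_lit 33],
  .lev (nat_lit 549220516351) [(nat_lit 1, nat_lit 550293210623), (nat_lit 32, nat_lit 550294258176)] [nat_lit 46, nat_lit 38, nat_lit 47, nat_lit 39],
  .lev (nat_lit 551364858366) [(nat_lit 5, nat_lit 550294256129), (nat_lit 32, nat_lit 550293209601), (nat_lit 30, nat_lit 550293210624)] [nat_lit 2, nat_lit 46, nat_lit 42, nat_lit 0, nat_lit 3, nat_lit 47],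
  .lev (nat_lit 549219468800) [(nat_lit 42, nat_lit 549220515328), (nat_lit 5, nat_lit 550293209601)] [nat_lit 2, nat_lit 0],
  .lev (nat_lit 549220516351) [(nat_lit 32, nat_lit 551366951423), (nat_lit 1, nat_lit 551366951424)] [nat_lit 42, nat_lit 36, nat_lit 43, nat_lit 37],
  .lev (nat_lit 549221562880) [(nat_lit 46, nat_lit 551366951423), (nat_lit 1, nat_lit 550294257152), (nat_lit 36, nat_lit 550294258176)] [nat_lit 44, nat_lit 45],
  .cnt (nat_lit 4),
  .cnt (nat_lit 3)]

theorem gF4_3 : tF4.grp 3 cF4_3 = true := by decide +kernel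

/-- certificates -/
def cE6_6 : List Ce := [
  .spn (nat_lit 577024252550054401),
  .lev (nat_lit 577024252551101952) [(nat_lit 12, nat_lit 577024252550054401), (nat_lit 10, nat_lit 578150152456897024)] [nat_lit 70, nat_lit 66, nat_lit 58, nat_lit 48, nat_lit 38, nat_lit 71, nat_lit 65, nat_lit 57, nat_lit 53, nat_lit 49, nat_lit 45, nat_lit 39, nat_lit 25, nat_lit 21],
  .lev (nat_lit 577025352060633600) [(nat_lit 28, nat_lit 577025352061681151), (nat_lit 26, nat_lit 577024252550054401), (nat_lit 24, nat_lit 578150152456896000), (nat_lit 22, nat_lit 578150152456897024)] [nat_lit 68, nat_lit 60, nat_lit 58, nat_lit 56, nat_lit 48, nat_lit 67, nat_lit 65, nat_lit 61, nat_lit 57, nat_lit 55, nat_lit 49, nat_lit 47, nat_lit 39, nat_lit 70, nat_lit 71, nat_lit 59],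
  .lev (nat_lit 577024252549005825) [(nat_lit 62, nat_lit 577025352061681152), (nat_lit 60, nat_lit 578150152456897024), (nat_lit 20, nat_lit 577025352061682176)] [nat_lit 66, nat_lit 64, nat_lit 56, nat_lit 54, nat_lit 48, nat_lit 46, nat_lit 38, nat_lit 71],
  .lev (nat_lit 578149054017962496) [(nat_lit 54, nat_lit 577024253623795199), (nat_lit 48, nat_lit 578150152456897023), (nat_lit 46, nat_lit 577024252551102975), (nat_lit 44, nat_lit 577024252550055424), (nat_lit 26, nat_lit 578150152456897024)] [nat_lit 70, nat_lit 68, nat_lit 66, nat_lit 60, nat_lit 58, nat_lit 71, nat_lit 69, nat_lit 63, nat_lit 61, nat_lit 62, nat_lit 50, nat_lit 67, nat_lit 59],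
  .lev (nat_lit 577023151965734401) [(nat_lit 60, nat_lit 578150152456897024), (nat_lit 56, nat_lit 577024253622747648), (nat_lit 54, nat_lit 577023154112168448), (nat_lit 36, nat_lit 577024252550054401), (nat_lit 34, nat_lit 577025352061682176)] [nat_lit 66, nat_lit 58, nat_lit 71, nat_lit 69, nat_lit 67, nat_lit 63, nat_lit 59, nat_lit 70, nat_lit 62],
  .cnt (nat_lit 2),
  .cnt (nat_lit 3),
  .lev (nat_lit 578150151384203776) [(nat_lit 48, nat_lit 578150152456897023), (nat_lit 46, nat_lit 578150152456896000), (nat_lit 42, nat_lit 577024252551102975), (nat_lit 6, nat_lit 578150152456897024)] [nat_lit 60, nat_lit 56, nat_lit 44, nat_lit 40, nat_lit 69, nat_lit 65, nat_lit 63, nat_lit 57, nat_lit 53, nat_lit 45, nat_lit 41, nat_lit 33, nat_lit 70, nat_lit 68, nat_lit 50, nat_lit 32],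
  .lev (nat_lit 577024252550053377) [(nat_lit 54, nat_lit 578149052946316800), (nat_lit 50, nat_lit 578150151384203776), (nat_lit 42, nat_lit 577024252551101952), (nat_lit 40, nat_lit 578150152456897024), (nat_lit 38, nat_lit 577024253623796224)] [nat_lit 62, nat_lit 52, nat_lit 44, nat_lit 71, nat_lit 69, nat_lit 65, nat_lit 63, nat_lit 57, nat_lit 70, nat_lit 56, nat_lit 68],
  .lev (nat_lit 578150152456896000) [(nat_lit 58, nat_lit 577024252550054401), (nat_lit 54, nat_lit 577024252551102976), (nat_lit 52, nat_lit 577025352061681152), (nat_lit 32, nat_lit 578150152456897024)] [nat_lit 70, nat_lit 60, nat_lit 56, nat_lit 71, nat_lit 65, nat_lit 61, nat_lit 57, nat_lit 68],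
  .lev (nat_lit 577025352061681152) [(nat_lit 60, nat_lit 578150152456897024), (nat_lit 58, nat_lit 577024252550054401), (nat_lit 54, nat_lit 577024252551102976), (nat_lit 44, nat_lit 577025352061682176)] [nat_lit 70, nat_lit 68, nat_lit 56, nat_lit 71, nat_lit 69, nat_lit 57],
  .cnt (nat_lit 2),
  .cnt (nat_lit 2),
  .cnt (nat_lit 2),
  .cnt (nat_lit 2),
  .lev (nat_lit 577025352061681152) [(nat_lit 44, nat_lit 577025352061682175), (nat_lit 8, nat_lit 578150152456897024)] [nat_lit 66, nat_lit 62, nat_lit 60, nat_lit 58, nat_lit 54, nat_lit 52, nat_lit 48, nat_lit 30, nat_lit 26, nat_lit 67, nat_lit 63, nat_lit 61, nat_lit 59, nat_lit 55, nat_lit 53, nat_lit 49, nat_lit 31, nat_lit 27],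
  .lev (nat_lit 577024253623795199) [(nat_lit 56, nat_lit 577024253622747648), (nat_lit 34, nat_lit 577025352061682175), (nat_lit 26, nat_lit 578150152456897024), (nat_lit 14, nat_lit 577025352061682176)] [nat_lit 70, nat_lit 66, nat_lit 64, nat_lit 62, nat_lit 58, nat_lit 36, nat_lit 71, nat_lit 65, nat_lit 59, nat_lit 49, nat_lit 37],
  .lev (nat_lit 575898352643211777) [(nat_lit 52, nat_lit 577025352061682175), (nat_lit 46, nat_lit 577024252550055424), (nat_lit 26, nat_lit 578150152456897024)] [nat_lit 70, nat_lit 66, nat_lit 60, nat_lit 58, nat_lit 71, nat_lit 67, nat_lit 65, nat_lit 55, nat_lit 49],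
  .cnt (nat_lit 2),
  .lev (nat_lit 577025352060633600) [(nat_lit 68, nat_lit 577024252550055424), (nat_lit 64, nat_lit 577024253622747648), (nat_lit 42, nat_lit 577025352061682175), (nat_lit 26, nat_lit 578150152456897024)] [nat_lit 70, nat_lit 66, nat_lit 62, nat_lit 60, nat_lit 58, nat_lit 50],
  .lev (nat_lit 577024253622747648) [(nat_lit 68, nat_lit 577024252550055424), (nat_lit 50, nat_lit 578150152456897024), (nat_lit 48, nat_lit 577024252550054401), (nat_lit 42, nat_lit 577025352061682176)] [nat_lit 70, nat_lit 71, nat_lit 67, nat_lit 63, nat_lit 59],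
  .cnt (nat_lit 2),
  .cnt (nat_lit 2),
  .lev (nat_lit 577024253622747648) [(nat_lit 68, nat_lit 577024252550055424), (nat_lit 48, nat_lit 577024252550054401), (nat_lit 30, nat_lit 578150152456897024)] [nat_lit 70, nat_lit 64, nat_lit 62, nat_lit 52, nat_lit 40, nat_lit 71, nat_lit 65, nat_lit 61, nat_lit 41],
  .lev (nat_lit 577023154111119873) [(nat_lit 68, nat_lit 577024253622746624), (nat_lit 60, nat_lit 578150152456897024), (nat_lit 54, nat_lit 577024252551102975), (nat_lit 44, nat_lit 577024252550055424), (nat_lit 36, nat_lit 577025352061682176)] [nat_lit 70, nat_lit 64, nat_lit 52, nat_lit 71, nat_lit 65, nat_lit 53, nat_lit 62],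
  .lev (nat_lit 578149054019010047) [(nat_lit 66, nat_lit 577024252551102975), (nat_lit 56, nat_lit 577024252550055424), (nat_lit 52, nat_lit 577024253622747648), (nat_lit 50, nat_lit 578150152456897024), (nat_lit 48, nat_lit 577024253623796224)] [nat_lit 70, nat_lit 60, nat_lit 71, nat_lit 61, nat_lit 65],
  .lev (nat_lit 577023154111119873) [(nat_lit 68, nat_lit 577024252550055424), (nat_lit 60, nat_lit 578150152456897024), (nat_lit 58, nat_lit 577024252550054401), (nat_lit 54, nat_lit 577024252551102976), (nat_lit 52, nat_lit 577025352061682176)] [nat_lit 70, nat_lit 64, nat_lit 71, nat_lit 65],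
  .cnt (nat_lit 2),
  .cnt (nat_lit 5),
  .cnt (nat_lit 3),
  .cnt (nat_lit 3),
  .lev (nat_lit 577025352060633600) [(nat_lit 36, nat_lit 578150152456897023), (nat_lit 0, nat_lit 578150152456897024)] [nat_lit 68, nat_lit 60, nat_lit 56, nat_lit 46, nat_lit 32, nat_lit 22, nat_lit 16, nat_lit 63, nat_lit 53, nat_lit 45, nat_lit 43, nat_lit 35, nat_lit 25, nat_lit 11],
  .lev (nat_lit 578149052946316800) [(nat_lit 50, nat_lit 577023154112167424), (nat_lit 38, nat_lit 578150152456896000), (nat_lit 36, nat_lit 577024252550054401), (nat_lit 16, nat_lit 578150152456897024)] [nat_lit 68, nat_lit 64, nat_lit 62, nat_lit 54, nat_lit 52, nat_lit 42, nat_lit 69, nat_lit 65, nat_lit 63, nat_lit 57, nat_lit 55, nat_lit 47],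
  .lev (nat_lit 577024252549006849) [(nat_lit 50, nat_lit 578150152456897024), (nat_lit 48, nat_lit 577024252550054401), (nat_lit 34, nat_lit 577024253622746624), (nat_lit 24, nat_lit 577025352061682176)] [nat_lit 68, nat_lit 64, nat_lit 56, nat_lit 54, nat_lit 46, nat_lit 69, nat_lit 67, nat_lit 65, nat_lit 61, nat_lit 55, nat_lit 47, nat_lit 60],
  .lev (nat_lit 577025350987940352) [(nat_lit 60, nat_lit 578150152456897024), (nat_lit 58, nat_lit 577024252550054401), (nat_lit 52, nat_lit 577025352061681152), (nat_lit 34, nat_lit 577025352061682176)] [nat_lit 68, nat_lit 66, nat_lit 56, nat_lit 46, nat_lit 67, nat_lit 65, nat_lit 64],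
  .lev (nat_lit 578147954508430847) [(nat_lit 58, nat_lit 577024252550054401), (nat_lit 56, nat_lit 577025350987940352), (nat_lit 42, nat_lit 577024252551101952), (nat_lit 40, nat_lit 578150152456896000), (nat_lit 22, nat_lit 578150152456897024)] [nat_lit 62, nat_lit 60, nat_lit 50, nat_lit 69, nat_lit 63, nat_lit 51, nat_lit 68, nat_lit 61, nat_lit 67],
  .ext,
  .cnt (nat_lit 2),
  .lev (nat_lit 577024252549006848) [(nat_lit 70, nat_lit 577024252550054401), (nat_lit 64, nat_lit 577024253622747648), (nat_lit 62, nat_lit 577025352061682176), (nat_lit 60, nat_lit 578150152456897024), (nat_lit 46, nat_lit 577024253623796224)] [nat_lit 68, nat_lit 69, nat_lit 66],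
  .lev (nat_lit 578150152456897024) [(nat_lit 70, nat_lit 577024252550054401), (nat_lit 54, nat_lit 577024253623795200), (nat_lit 34, nat_lit 577025352061682176)] [nat_lit 68, nat_lit 64, nat_lit 62, nat_lit 60, nat_lit 50, nat_lit 40, nat_lit 32, nat_lit 65],
  .lev (nat_lit 577024253622747648) [(nat_lit 70, nat_lit 577024252550054401), (nat_lit 60, nat_lit 578150152456897024), (nat_lit 54, nat_lit 577024253623795200), (nat_lit 34, nat_lit 577025352061682176)] [nat_lit 68, nat_lit 64, nat_lit 52, nat_lit 44, nat_lit 69, nat_lit 65, nat_lit 62],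
  .lev (nat_lit 577024251477362176) [(nat_lit 70, nat_lit 577024252550054401), (nat_lit 54, nat_lit 577024252551102976), (nat_lit 50, nat_lit 578150152456897024), (nat_lit 44, nat_lit 577025352061682176)] [nat_lit 68, nat_lit 64, nat_lit 60, nat_lit 69, nat_lit 65, nat_lit 61],
  .cnt (nat_lit 2),
  .cnt (nat_lit 3),
  .lev (nat_lit 577023153038427648) [(nat_lit 70, nat_lit 577024252550054401), (nat_lit 66, nat_lit 577024252551102976), (nat_lit 64, nat_lit 577024253623795200), (nat_lit 60, nat_lit 578150152456897024), (nat_lit 44, nat_lit 577025352061682176)] [nat_lit 68, nat_lit 69, nat_lit 62],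
  .cnt (nat_lit 2),
  .cnt (nat_lit 9),
  .lev (nat_lit 577023154112168447) [(nat_lit 68, nat_lit 578150152456896000), (nat_lit 48, nat_lit 577024252550054401), (nat_lit 10, nat_lit 578150152456897024)] [nat_lit 64, nat_lit 62, nat_lit 54, nat_lit 52, nat_lit 50, nat_lit 42, nat_lit 40, nat_lit 30, nat_lit 65, nat_lit 63, nat_lit 55, nat_lit 51],
  .lev (nat_lit 575899452153790977) [(nat_lit 68, nat_lit 577024253622746624), (nat_lit 50, nat_lit 578150152456897024), (nat_lit 48, nat_lit 577024252550054401), (nat_lit 24, nat_lit 577025352061682176)] [nat_lit 62, nat_lit 52, nat_lit 42, nat_lit 65, nat_lit 63, nat_lit 55, nat_lit 53, nat_lit 43, nat_lit 64, nat_lit 54],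
  .lev (nat_lit 578149052946317823) [(nat_lit 58, nat_lit 577024253622746624), (nat_lit 56, nat_lit 577024252550055424), (nat_lit 50, nat_lit 578150152456897024), (nat_lit 48, nat_lit 577024252550054401), (nat_lit 42, nat_lit 577025352061682176)] [nat_lit 66, nat_lit 64, nat_lit 60, nat_lit 65, nat_lit 61, nat_lit 55, nat_lit 67],
  .lev (nat_lit 577025350987941376) [(nat_lit 70, nat_lit 577025352060633601), (nat_lit 60, nat_lit 578150152456897024), (nat_lit 58, nat_lit 577024252550054401), (nat_lit 56, nat_lit 577024252550055424), (nat_lit 42, nat_lit 577025352061682176)] [nat_lit 66, nat_lit 64, nat_lit 67, nat_lit 65, nat_lit 55],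
  .lev (nat_lit 575899452154839552) [(nat_lit 68, nat_lit 577024252550055424), (nat_lit 58, nat_lit 577024252550054401), (nat_lit 54, nat_lit 577024252551102976), (nat_lit 40, nat_lit 578150152456897024)] [nat_lit 66, nat_lit 62, nat_lit 61, nat_lit 51, nat_lit 67],
  .lev (nat_lit 577023154111119873) [(nat_lit 68, nat_lit 577024252550055424), (nat_lit 60, nat_lit 578150152456897024), (nat_lit 58, nat_lit 577024252550054401), (nat_lit 54, nat_lit 577024252551102976), (nat_lit 52, nat_lit 577025352061682176)] [nat_lit 66, nat_lit 62, nat_lit 63, nat_lit 67],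
  .cnt (nat_lit 5),
  .lev (nat_lit 577024253622747648) [(nat_lit 70, nat_lit 577024252550054401), (nat_lit 68, nat_lit 577024252550055424), (nat_lit 62, nat_lit 577025352061682176), (nat_lit 60, nat_lit 578150152456897024), (nat_lit 54, nat_lit 577024253623796224)] [nat_lit 66, nat_lit 67],
  .cnt (nat_lit 2),
  .lev (nat_lit 577025350987940352) [(nat_lit 70, nat_lit 577024252550054401), (nat_lit 66, nat_lit 577024252551102976), (nat_lit 60, nat_lit 578150151383156224), (nat_lit 44, nat_lit 577024252550055424), (nat_lit 40, nat_lit 578150152456897024)] [nat_lit 64, nat_lit 62, nat_lit 52, nat_lit 63, nat_lit 53],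
  .lev (nat_lit 578150151384203776) [(nat_lit 70, nat_lit 577024252550054401), (nat_lit 68, nat_lit 577024252550055424), (nat_lit 62, nat_lit 575899452154839552), (nat_lit 54, nat_lit 577024252551102976), (nat_lit 40, nat_lit 578150152456897024)] [nat_lit 60, nat_lit 65, nat_lit 61, nat_lit 64],
  .ext,
  .cnt (nat_lit 2),
  .lev (nat_lit 578149052945269248) [(nat_lit 70, nat_lit 577024252550054401), (nat_lit 68, nat_lit 577024252550055424), (nat_lit 66, nat_lit 577024252551102976), (nat_lit 64, nat_lit 577024253623796224), (nat_lit 50, nat_lit 578150152456897024)] [nat_lit 62, nat_lit 63],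
  .cnt (nat_lit 3),
  .reg]

/-- chains -/
def hE6 : List Cn := [
  ⟨nat_lit 578150153530638849, nat_lit 577024252550054401, nat_lit 578151253043316225, nat_lit 1, nat_lit 1,
    [(nat_lit 64, nat_lit 1), (nat_lit 52, nat_lit 2), (nat_lit 50, nat_lit 2), (nat_lit 46, nat_lit 3)],
    [.wk],
    [(nat_lit 70, nat_lit 577024252549006849), (nat_lit 64, nat_lit 578149054019010048), (nat_lit 58, nat_lit 577024252551101952), (nat_lit 52, nat_lit 575899452154839552), (nat_lit 50, nat_lit 578150152456897024), (nat_lit 46, nat_lit 577024252550055424)],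
    [nat_lit 69, nat_lit 67, nat_lit 63, nat_lit 62, nat_lit 66, nat_lit 68]⟩,
  ⟨nat_lit 578151251969574401, nat_lit 577024252550054401, nat_lit 578151253043316225, nat_lit 1, nat_lit 1,
    [(nat_lit 66, nat_lit 1), (nat_lit 62, nat_lit 1), (nat_lit 60, nat_lit 1), (nat_lit 56, nat_lit 2), (nat_lit 52, nat_lit 2)],
    [.wk],
    [(nat_lit 70, nat_lit 577024252550054401), (nat_lit 66, nat_lit 577024252551102976), (nat_lit 62, nat_lit 577025350987941376), (nat_lit 60, nat_lit 578150152456897024), (nat_lit 56, nat_lit 577024252550055424), (nat_lit 52, nat_lit 577024253623795200)],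
    [nat_lit 65, nat_lit 64]⟩]

theorem gE6_6 : tE6.grp0 (hE6.map Cn.w) cE6_6 = true := by decide +kernel

theorem hE6_ok : lall (fun c => an (tE6.chn c) (tE6.frm c)) hE6 = true := by decide +kernel

/-- certificates -/
def cE6_1 : List Ce := [
  .spn (nat_lit 577024252549006848),
  .spn (nat_lit 577024252550055424),
  .lev (nat_lit 575899452154839551) [(nat_lit 40, nat_lit 577025352060633600), (nat_lit 36, nat_lit 578150152456897023), (nat_lit 1, nat_lit 578150152456897024)] [nat_lit 66, nat_lit 60, nat_lit 65, nat_lit 71, nat_lit 61, nat_lit 49],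
  .spn (nat_lit 577024252550055424),
  .spn (nat_lit 577024252550055424),
  .lev (nat_lit 577023153039475200) [(nat_lit 64, nat_lit 577024251476313601), (nat_lit 1, nat_lit 577024253622747648), (nat_lit 60, nat_lit 578150152456897024), (nat_lit 36, nat_lit 577025352061682176)] [nat_lit 66, nat_lit 58, nat_lit 71, nat_lit 59, nat_lit 62],
  .cnt (nat_lit 4),
  .lev (nat_lit 577024251476313601) [(nat_lit 62, nat_lit 577025352061681152), (nat_lit 1, nat_lit 577024253622747648), (nat_lit 60, nat_lit 578150152456897024), (nat_lit 48, nat_lit 577024253623796224)] [nat_lit 71, nat_lit 59],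
  .lev (nat_lit 577025352060633600) [(nat_lit 42, nat_lit 577024251476313601), (nat_lit 1, nat_lit 577025352061682175), (nat_lit 26, nat_lit 578150152456897024)] [nat_lit 70, nat_lit 60, nat_lit 63, nat_lit 53, nat_lit 51, nat_lit 41],
  .spn (nat_lit 577024252550055424),
  .lev (nat_lit 574774649612142082) [(nat_lit 66, nat_lit 578149054017962496), (nat_lit 52, nat_lit 577024253623795199), (nat_lit 50, nat_lit 577023153038427648), (nat_lit 1, nat_lit 578150152456897024), (nat_lit 48, nat_lit 577024253623796224)] [nat_lit 70, nat_lit 60, nat_lit 65, nat_lit 71],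
  .spn (nat_lit 577024252550055424),
  .cnt (nat_lit 4),
  .lev (nat_lit 578149052946317823) [(nat_lit 64, nat_lit 577024253622746625), (nat_lit 1, nat_lit 577024252551102975), (nat_lit 58, nat_lit 577024252551102976), (nat_lit 50, nat_lit 578150152456897024)] [nat_lit 62, nat_lit 63, nat_lit 71],
  .spn (nat_lit 577024252550055424),
  .lev (nat_lit 577024252547958274) [(nat_lit 62, nat_lit 577025352061681152), (nat_lit 64, nat_lit 577023154111119873), (nat_lit 1, nat_lit 577024252549005825), (nat_lit 60, nat_lit 578150152456897024), (nat_lit 58, nat_lit 577024252551102976)] [nat_lit 71],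
  .spn (nat_lit 577024252550055424),
  .lev (nat_lit 577025352060633600) [(nat_lit 60, nat_lit 575897254205325824), (nat_lit 1, nat_lit 578150152456897024), (nat_lit 36, nat_lit 577025352061682176)] [nat_lit 62, nat_lit 52, nat_lit 42, nat_lit 63, nat_lit 53, nat_lit 43],
  .spn (nat_lit 577024252550055424),
  .lev (nat_lit 577025352060633600) [(nat_lit 70, nat_lit 577024253622747647), (nat_lit 42, nat_lit 577023153038427648), (nat_lit 60, nat_lit 578150152456897023), (nat_lit 1, nat_lit 578150152456897024)] [nat_lit 66, nat_lit 54, nat_lit 67, nat_lit 55],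
  .lev (nat_lit 578150151384203776) [(nat_lit 1, nat_lit 577025350987940352), (nat_lit 70, nat_lit 577024252550054401), (nat_lit 40, nat_lit 578150152456897024), (nat_lit 42, nat_lit 577025352061682176)] [nat_lit 60, nat_lit 66, nat_lit 63, nat_lit 61, nat_lit 51],
  .spn (nat_lit 577024252550055424),
  .lev (nat_lit 578150152455848449) [(nat_lit 62, nat_lit 577023153038427648), (nat_lit 1, nat_lit 578150152456897024), (nat_lit 64, nat_lit 577024253623796224), (nat_lit 58, nat_lit 577024252551102976)] [nat_lit 60, nat_lit 66, nat_lit 67],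
  .spn (nat_lit 577024252550055424),
  .spn (nat_lit 577024252550055424),
  .lev (nat_lit 578149054017962496) [(nat_lit 54, nat_lit 577024252549006848), (nat_lit 70, nat_lit 578149052945269249), (nat_lit 1, nat_lit 577024252550054401), (nat_lit 50, nat_lit 578150152456897024)] [nat_lit 62, nat_lit 64, nat_lit 63, nat_lit 65],
  .spn (nat_lit 577024252550055424),
  .lev (nat_lit 577024250404668928) [(nat_lit 62, nat_lit 577025352061681152), (nat_lit 70, nat_lit 577024253622747647), (nat_lit 60, nat_lit 578150152456897023), (nat_lit 1, nat_lit 578150152456897024), (nat_lit 54, nat_lit 577024253623796224)] [nat_lit 64, nat_lit 65],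
  .lev (nat_lit 578151250894782976) [(nat_lit 66, nat_lit 577024252549006848), (nat_lit 1, nat_lit 578150152456897024), (nat_lit 70, nat_lit 577024252550054401), (nat_lit 52, nat_lit 577025352061682176)] [nat_lit 60, nat_lit 63],
  .spn (nat_lit 577024252550055424),
  .lev (nat_lit 574772452736370176) [(nat_lit 66, nat_lit 577024252549006848), (nat_lit 62, nat_lit 577025352060633600), (nat_lit 1, nat_lit 578150152456897024), (nat_lit 64, nat_lit 577024253623796224), (nat_lit 70, nat_lit 577024252550054401)] [nat_lit 60],
  .spn (nat_lit 577024252550055424)]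

theorem gE6_1 : tE6.grp 1 cE6_1 = true := by decide +kernel

/-- certificates -/
def cE6_2 : List Ce := [
  .spn (nat_lit 577024252551102974),
  .spn (nat_lit 577024252551102974),
  .spn (nat_lit 577024252551102974),
  .spn (nat_lit 577024252551102974),
  .spn (nat_lit 577024252551102974),
  .spn (nat_lit 577024252551102974),
  .cnt (nat_lit 4),
  .spn (nat_lit 577024252551102974),
  .spn (nat_lit 577024252551102974),
  .spn (nat_lit 577024252551102974),
  .spn (nat_lit 577024252551102974),
  .spn (nat_lit 577024252551102974),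
  .cnt (nat_lit 4),
  .spn (nat_lit 577024252551102974),
  .spn (nat_lit 577024252551102974),
  .spn (nat_lit 577024252551102974),
  .spn (nat_lit 577024252550055424),
  .lev (nat_lit 577023153038427648) [(nat_lit 1, nat_lit 578150152456896000), (nat_lit 70, nat_lit 577024252550054401), (nat_lit 32, nat_lit 578150152456897024)] [nat_lit 68, nat_lit 56, nat_lit 44, nat_lit 69, nat_lit 57, nat_lit 45],
  .lev (nat_lit 577024252551102976) [(nat_lit 52, nat_lit 577025352061681152), (nat_lit 70, nat_lit 577024252550054401), (nat_lit 32, nat_lit 578150152456897024)] [nat_lit 60, nat_lit 68, nat_lit 65, nat_lit 3, nat_lit 57, nat_lit 1],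
  .lev (nat_lit 577025350987941376) [(nat_lit 52, nat_lit 577025352060633600), (nat_lit 60, nat_lit 578150152456896000), (nat_lit 70, nat_lit 578150152456897023), (nat_lit 3, nat_lit 578150152456897024)] [nat_lit 68, nat_lit 64, nat_lit 69, nat_lit 65],
  .lev (nat_lit 577025352061681152) [(nat_lit 64, nat_lit 575898353715905024), (nat_lit 70, nat_lit 577024253623795199), (nat_lit 1, nat_lit 577024252550054401), (nat_lit 32, nat_lit 578150152456897024)] [nat_lit 62, nat_lit 50, nat_lit 61, nat_lit 51, nat_lit 68],
  .lev (nat_lit 577024252551102976) [(nat_lit 70, nat_lit 577024252550054401), (nat_lit 60, nat_lit 578150152456897024), (nat_lit 56, nat_lit 577024252550055424), (nat_lit 52, nat_lit 577025352061682176)] [nat_lit 68, nat_lit 62, nat_lit 3, nat_lit 69, nat_lit 1],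
  .lev (nat_lit 578149052945270272) [(nat_lit 64, nat_lit 577024253622746624), (nat_lit 70, nat_lit 577024252550053377), (nat_lit 50, nat_lit 578150152456897023), (nat_lit 3, nat_lit 578150152456897024)] [nat_lit 68, nat_lit 69, nat_lit 61],
  .lev (nat_lit 577024252550055424) [(nat_lit 62, nat_lit 577025352061682176), (nat_lit 70, nat_lit 577024252550054401), (nat_lit 60, nat_lit 578150152456897024), (nat_lit 64, nat_lit 577024253623796224)] [nat_lit 68, nat_lit 3],
  .lev (nat_lit 578150152456897024) [(nat_lit 56, nat_lit 577025352061681152), (nat_lit 15, nat_lit 577025352061682176), (nat_lit 70, nat_lit 577024252550054401)] [nat_lit 62, nat_lit 0, nat_lit 65, nat_lit 61, nat_lit 1, nat_lit 41],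
  .lev (nat_lit 577025352061681152) [(nat_lit 60, nat_lit 578150151383156224), (nat_lit 44, nat_lit 577023153039475200), (nat_lit 1, nat_lit 578150152456897024), (nat_lit 70, nat_lit 577024252550054401)] [nat_lit 62, nat_lit 52, nat_lit 63, nat_lit 53],
  .lev (nat_lit 579276050217304576) [(nat_lit 62, nat_lit 577025350987940352), (nat_lit 5, nat_lit 578150151383155200), (nat_lit 68, nat_lit 577024252550055424), (nat_lit 70, nat_lit 577024252550054401), (nat_lit 40, nat_lit 578150152456897024)] [nat_lit 60, nat_lit 0, nat_lit 65, nat_lit 61],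
  .lev (nat_lit 577026449426874880) [(nat_lit 68, nat_lit 577024252549006848), (nat_lit 60, nat_lit 578151250894782976), (nat_lit 1, nat_lit 578150152456897024), (nat_lit 70, nat_lit 577024252550054401), (nat_lit 52, nat_lit 577025352061682176)] [nat_lit 64, nat_lit 65],
  .lev (nat_lit 575898353715905024) [(nat_lit 68, nat_lit 577024252551101952), (nat_lit 70, nat_lit 577025350987940353), (nat_lit 1, nat_lit 577024252550054401), (nat_lit 40, nat_lit 578150152456897024)] [nat_lit 61, nat_lit 51],
  .lev (nat_lit 578149052945270272) [(nat_lit 3, nat_lit 577024252550055424), (nat_lit 70, nat_lit 577024252550054401), (nat_lit 64, nat_lit 577024253623796224), (nat_lit 50, nat_lit 578150152456897024)] [nat_lit 0, nat_lit 62, nat_lit 63],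
  .lev (nat_lit 579273853341532672) [(nat_lit 68, nat_lit 577024252549006848), (nat_lit 64, nat_lit 578149054017962496), (nat_lit 70, nat_lit 578149052945269249), (nat_lit 1, nat_lit 577024252550054401), (nat_lit 50, nat_lit 578150152456897024)] [nat_lit 61],
  .lev (nat_lit 577024252551100928) [(nat_lit 62, nat_lit 577025352060633600), (nat_lit 3, nat_lit 577024252550055424), (nat_lit 70, nat_lit 577024252550054401), (nat_lit 64, nat_lit 577024253623796224), (nat_lit 60, nat_lit 578150152456897024)] [nat_lit 0]]

theorem gE6_2 : tE6.grp 2 cE6_2 = true := by decide +kernel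

/-- certificates -/
def cE6_3 : List Ce := [
  .spn (nat_lit 577024251477361153),
  .cnt (nat_lit 1),
  .cnt (nat_lit 1),
  .cnt (nat_lit 1),
  .spn (nat_lit 577024252550055424),
  .cnt (nat_lit 1),
  .spn (nat_lit 577024251477361153),
  .spn (nat_lit 577024251477361153),
  .spn (nat_lit 578151250894782976),
  .cnt (nat_lit 1),
  .cnt (nat_lit 1),
  .spn (nat_lit 578151250894782976),
  .spn (nat_lit 577024252550055424),
  .cnt (nat_lit 1),
  .cnt (nat_lit 1),
  .spn (nat_lit 577024252550055424),
  .cnt (nat_lit 1),
  .cnt (nat_lit 1),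
  .spn (nat_lit 578151250894782976),
  .cnt (nat_lit 1),
  .cnt (nat_lit 1)]

theorem gE6_3 : tE6.grp 3 cE6_3 = true := by decide +kernel

/-- certificates -/
def cE6_4 : List Ce := [
  .spn (nat_lit 574773552247996928),
  .spn (nat_lit 577024252550055424),
  .spn (nat_lit 574773552247996928),
  .lev (nat_lit 577024251476313601) [(nat_lit 60, nat_lit 578150151384203776), (nat_lit 1, nat_lit 578150152456897024), (nat_lit 48, nat_lit 577024252550054401), (nat_lit 46, nat_lit 577024253623796224)] [nat_lit 70, nat_lit 68, nat_lit 67, nat_lit 71, nat_lit 59],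
  .spn (nat_lit 574773552247996928),
  .lev (nat_lit 577025352061682176) [(nat_lit 58, nat_lit 577024252550054401), (nat_lit 46, nat_lit 577024253623796224), (nat_lit 60, nat_lit 578150152456897024)] [nat_lit 64, nat_lit 70, nat_lit 5, nat_lit 69, nat_lit 71, nat_lit 1],
  .cnt (nat_lit 4),
  .lev (nat_lit 577024252550055423) [(nat_lit 66, nat_lit 577023153039475200), (nat_lit 60, nat_lit 578150152456896000), (nat_lit 64, nat_lit 577024253622746624), (nat_lit 3, nat_lit 578150152456897024)] [nat_lit 70, nat_lit 68, nat_lit 69],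
  .spn (nat_lit 574773552247996928),
  .lev (nat_lit 577024252551102975) [(nat_lit 7, nat_lit 577024253623795200), (nat_lit 60, nat_lit 578150152456897024), (nat_lit 38, nat_lit 577024253623796224)] [nat_lit 0, nat_lit 70, nat_lit 67, nat_lit 55, nat_lit 59, nat_lit 49],
  .cnt (nat_lit 4),
  .lev (nat_lit 577024251477361153) [(nat_lit 68, nat_lit 577023153038427648), (nat_lit 60, nat_lit 578150152456897023), (nat_lit 1, nat_lit 578150152456897024), (nat_lit 54, nat_lit 577024253623796224)] [nat_lit 70, nat_lit 67],
  .spn (nat_lit 574773552247996928),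
  .lev (nat_lit 577025349916297726) [(nat_lit 3, nat_lit 577024251477362175), (nat_lit 54, nat_lit 577024252551102975), (nat_lit 58, nat_lit 577024252551102976), (nat_lit 60, nat_lit 578150152456897024), (nat_lit 56, nat_lit 577024253623796224)] [nat_lit 0, nat_lit 70, nat_lit 65, nat_lit 1],
  .spn (nat_lit 574773552247996928),
  .lev (nat_lit 577025352061682174) [(nat_lit 68, nat_lit 577025352061681152), (nat_lit 66, nat_lit 577025352060633600), (nat_lit 60, nat_lit 578150152456897023), (nat_lit 64, nat_lit 577024251477361153), (nat_lit 1, nat_lit 578150152456897024)] [nat_lit 70],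
  .spn (nat_lit 574773552247996928),
  .lev (nat_lit 577023154112168448) [(nat_lit 70, nat_lit 577024252550053377), (nat_lit 60, nat_lit 578150152456897023), (nat_lit 7, nat_lit 578150152456897024)] [nat_lit 66, nat_lit 54, nat_lit 46, nat_lit 67, nat_lit 55, nat_lit 47],
  .spn (nat_lit 574773552247996928),
  .lev (nat_lit 577024251477361152) [(nat_lit 5, nat_lit 577024252549006848), (nat_lit 60, nat_lit 578150152456897024), (nat_lit 70, nat_lit 577024252550054401), (nat_lit 46, nat_lit 577024253623796224)] [nat_lit 2, nat_lit 0, nat_lit 69, nat_lit 1, nat_lit 66],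
  .spn (nat_lit 574773552247996928),
  .lev (nat_lit 577024252551101952) [(nat_lit 1, nat_lit 577024253623795200), (nat_lit 46, nat_lit 577024253623796224), (nat_lit 70, nat_lit 577024252550054401), (nat_lit 60, nat_lit 578150152456897024)] [nat_lit 68, nat_lit 56, nat_lit 69, nat_lit 57],
  .spn (nat_lit 574773552247996928),
  .lev (nat_lit 577025352061682176) [(nat_lit 66, nat_lit 577024252551102976), (nat_lit 60, nat_lit 578150152456897024), (nat_lit 70, nat_lit 577024252550054401), (nat_lit 56, nat_lit 577024253623796224)] [nat_lit 69, nat_lit 1],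
  .spn (nat_lit 574773552247996928),
  .lev (nat_lit 577024251477362175) [(nat_lit 56, nat_lit 577023153038427648), (nat_lit 1, nat_lit 577024252549005825), (nat_lit 60, nat_lit 578150152456897024), (nat_lit 58, nat_lit 577024252551102976)] [nat_lit 66, nat_lit 64, nat_lit 67, nat_lit 65],
  .spn (nat_lit 574773552247996928),
  .lev (nat_lit 577025352061682176) [(nat_lit 64, nat_lit 577024253623796224), (nat_lit 60, nat_lit 578150152456897024), (nat_lit 68, nat_lit 577024252550055424), (nat_lit 58, nat_lit 577024252551102976)] [nat_lit 66, nat_lit 67, nat_lit 1],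
  .spn (nat_lit 574773552247996928),
  .lev (nat_lit 577025349914200576) [(nat_lit 66, nat_lit 577025352060633600), (nat_lit 1, nat_lit 577024251476313600), (nat_lit 70, nat_lit 577024252550054401), (nat_lit 60, nat_lit 578150152456897024), (nat_lit 56, nat_lit 577024253623796224)] [nat_lit 64, nat_lit 65],
  .spn (nat_lit 574773552247996928),
  .lev (nat_lit 577025352061682176) [(nat_lit 66, nat_lit 577024252551102976), (nat_lit 64, nat_lit 577024253623796224), (nat_lit 60, nat_lit 578150152456897024), (nat_lit 70, nat_lit 577024252550054401), (nat_lit 68, nat_lit 577024252550055424)] [nat_lit 1]]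

theorem gE6_4 : tE6.grp 4 cE6_4 = true := by decide +kernel

/-- certificates -/
def cE7_7 : List Ce := [
  .spn (nat_lit 590872834611255706113),
  .lev (nat_lit 590871708711349912064) [(nat_lit 112, nat_lit 592025756115862553087), (nat_lit 10, nat_lit 590872834611255707135), (nat_lit 8, nat_lit 592025756115862553088)] [nat_lit 122, nat_lit 114, nat_lit 108, nat_lit 102, nat_lit 96, nat_lit 90, nat_lit 86, nat_lit 80, nat_lit 78, nat_lit 72, nat_lit 68, nat_lit 60, nat_lit 56, nat_lit 50, nat_lit 46, nat_lit 42, nat_lit 40, nat_lit 34, nat_lit 26, nat_lit 20, nat_lit 123, nat_lit 109, nat_lit 97, nat_lit 87],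
  .lev (nat_lit 590873960511161500160) [(nat_lit 78, nat_lit 590873960511162547712), (nat_lit 60, nat_lit 592025756115862552064), (nat_lit 44, nat_lit 592025756115862553087), (nat_lit 30, nat_lit 592025756115862553088)] [nat_lit 122, nat_lit 120, nat_lit 118, nat_lit 116, nat_lit 110, nat_lit 108, nat_lit 104, nat_lit 96, nat_lit 94, nat_lit 92, nat_lit 86, nat_lit 84, nat_lit 70, nat_lit 62, nat_lit 123, nat_lit 121, nat_lit 119, nat_lit 117, nat_lit 111, nat_lit 109, nat_lit 105, nat_lit 97, nat_lit 95, nat_lit 93, nat_lit 87, nat_lit 85, nat_lit 71, nat_lit 63],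
  .lev (nat_lit 590872833512817820160) [(nat_lit 114, nat_lit 590873960511162547712), (nat_lit 112, nat_lit 592025756115862553088), (nat_lit 34, nat_lit 590873960511162548736)] [nat_lit 118, nat_lit 116, nat_lit 108, nat_lit 104, nat_lit 94, nat_lit 92, nat_lit 84, nat_lit 82, nat_lit 74, nat_lit 70, nat_lit 62, nat_lit 52, nat_lit 121, nat_lit 111],
  .lev (nat_lit 592026877618797676033) [(nat_lit 64, nat_lit 589719914206159438336), (nat_lit 66, nat_lit 589719913106648859136), (nat_lit 68, nat_lit 590871709810860490240), (nat_lit 70, nat_lit 590872835710767333887), (nat_lit 72, nat_lit 590871708711348863488), (nat_lit 74, nat_lit 590872834611255706111)] [nat_lit 87, nat_lit 99, nat_lit 97, nat_lit 119, nat_lit 115, nat_lit 120, nat_lit 122, nat_lit 96, nat_lit 98, nat_lit 86, nat_lit 125, nat_lit 123, nat_lit 121, nat_lit 112, nat_lit 114, nat_lit 118, nat_lit 417272152908239344910381, nat_lit 111, nat_lit 107, nat_lit 101, nat_lit 208673347035918833697375, nat_lit 106, nat_lit 108, nat_lit 110],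
  .lev (nat_lit 590872834611255707135) [(nat_lit 116, nat_lit 590872835709694639616), (nat_lit 100, nat_lit 592025756115862553088), (nat_lit 90, nat_lit 590872835710767333887), (nat_lit 60, nat_lit 590873960511162548736), (nat_lit 52, nat_lit 590872835710767333888)] [nat_lit 122, nat_lit 120, nat_lit 110, nat_lit 108, nat_lit 98, nat_lit 125, nat_lit 121, nat_lit 119, nat_lit 111, nat_lit 107, nat_lit 99, nat_lit 87, nat_lit 114, nat_lit 96, nat_lit 86, nat_lit 118, nat_lit 115],
  .cnt (nat_lit 2),
  .cnt (nat_lit 3),
  .lev (nat_lit 592023507612437315073) [(nat_lit 98, nat_lit 590872835709693592064), (nat_lit 94, nat_lit 590873960510088806912), (nat_lit 78, nat_lit 590872834611256753664), (nat_lit 76, nat_lit 590873960511162547712), (nat_lit 60, nat_lit 590872834611255706113), (nat_lit 54, nat_lit 592025756115862553088)] [nat_lit 116, nat_lit 114, nat_lit 102, nat_lit 100, nat_lit 88, nat_lit 121, nat_lit 117, nat_lit 113, nat_lit 111, nat_lit 89, nat_lit 124, nat_lit 122, nat_lit 112, nat_lit 110, nat_lit 125, nat_lit 123, nat_lit 115, nat_lit 101],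
  .ext,
  .lev (nat_lit 592024631314394646014) [(nat_lit 108, nat_lit 590872834611255707135), (nat_lit 106, nat_lit 590872834611256754687), (nat_lit 104, nat_lit 590872834612328399360), (nat_lit 102, nat_lit 590872835710767332864), (nat_lit 100, nat_lit 592025756115862553088), (nat_lit 74, nat_lit 590872835710767333888)] [nat_lit 124, nat_lit 112, nat_lit 125, nat_lit 121, nat_lit 113, nat_lit 111, nat_lit 122, nat_lit 120, nat_lit 123, nat_lit 117],
  .cnt (nat_lit 3),
  .cnt (nat_lit 2),
  .cnt (nat_lit 2),
  .cnt (nat_lit 3),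
  .cnt (nat_lit 3),
  .lev (nat_lit 590873960511162547712) [(nat_lit 106, nat_lit 590872835710766285312), (nat_lit 92, nat_lit 590872835710767332864), (nat_lit 54, nat_lit 590873960511162548735), (nat_lit 50, nat_lit 592025756115862553087), (nat_lit 48, nat_lit 592025756115862553088)] [nat_lit 116, nat_lit 114, nat_lit 112, nat_lit 108, nat_lit 100, nat_lit 88, nat_lit 125, nat_lit 123, nat_lit 115, nat_lit 109, nat_lit 105, nat_lit 91, nat_lit 89, nat_lit 81, nat_lit 67, nat_lit 124, nat_lit 122, nat_lit 118, nat_lit 90, nat_lit 80, nat_lit 66, nat_lit 119, nat_lit 113, nat_lit 101, nat_lit 104],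
  .lev (nat_lit 589721039005483008512) [(nat_lit 96, nat_lit 590872834611255707135), (nat_lit 92, nat_lit 590872834611256753664), (nat_lit 88, nat_lit 592025756115862553088), (nat_lit 74, nat_lit 590873960511162548735), (nat_lit 50, nat_lit 590873960511162548736)] [nat_lit 122, nat_lit 116, nat_lit 104, nat_lit 102, nat_lit 90, nat_lit 80, nat_lit 119, nat_lit 115, nat_lit 105, nat_lit 103, nat_lit 95, nat_lit 91, nat_lit 81, nat_lit 124, nat_lit 118, nat_lit 114, nat_lit 108, nat_lit 123, nat_lit 117, nat_lit 109],
  .lev (nat_lit 592025756114789859840) [(nat_lit 114, nat_lit 590873959411650920961), (nat_lit 106, nat_lit 590872834610181965313), (nat_lit 102, nat_lit 592024630215955710464), (nat_lit 96, nat_lit 590872834611256754687), (nat_lit 84, nat_lit 590872834611256754688), (nat_lit 66, nat_lit 592025756115862553088)] [nat_lit 122, nat_lit 118, nat_lit 104, nat_lit 94, nat_lit 125, nat_lit 123, nat_lit 119, nat_lit 117, nat_lit 109, nat_lit 105, nat_lit 95, nat_lit 124, nat_lit 116, nat_lit 108],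
  .lev (nat_lit 590872834611255707135) [(nat_lit 120, nat_lit 590872834611254658560), (nat_lit 112, nat_lit 592025756115862553088), (nat_lit 102, nat_lit 590872835709693593088), (nat_lit 90, nat_lit 590873960511162548736), (nat_lit 86, nat_lit 590872835710767333887), (nat_lit 62, nat_lit 590872835710767333888)] [nat_lit 124, nat_lit 122, nat_lit 118, nat_lit 116, nat_lit 108, nat_lit 104, nat_lit 94, nat_lit 125, nat_lit 123, nat_lit 117, nat_lit 109],
  .cnt (nat_lit 2),
  .cnt (nat_lit 2),
  .cnt (nat_lit 2),
  .lev (nat_lit 590872834610183012864) [(nat_lit 116, nat_lit 590872835710767333888), (nat_lit 114, nat_lit 590873960511162548736), (nat_lit 112, nat_lit 592025756115862553088), (nat_lit 98, nat_lit 590872834611255706113), (nat_lit 96, nat_lit 590872834612329447936)] [nat_lit 124, nat_lit 118, nat_lit 108, nat_lit 125, nat_lit 119, nat_lit 109],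
  .cnt (nat_lit 2),
  .cnt (nat_lit 2),
  .cnt (nat_lit 2),
  .cnt (nat_lit 2),
  .cnt (nat_lit 2),
  .cnt (nat_lit 2),
  .cnt (nat_lit 2),
  .cnt (nat_lit 2),
  .lev (nat_lit 588566992701554687487) [(nat_lit 96, nat_lit 589719914206160485888), (nat_lit 94, nat_lit 589719913107721552384), (nat_lit 60, nat_lit 592025756115862552064), (nat_lit 28, nat_lit 592025756115862553087), (nat_lit 18, nat_lit 592025756115862553088)] [nat_lit 120, nat_lit 118, nat_lit 112, nat_lit 100, nat_lit 92, nat_lit 90, nat_lit 88, nat_lit 78, nat_lit 125, nat_lit 121, nat_lit 119, nat_lit 113, nat_lit 111, nat_lit 99, nat_lit 93, nat_lit 85, nat_lit 77, nat_lit 73, nat_lit 65, nat_lit 59, nat_lit 114, nat_lit 106, nat_lit 104, nat_lit 102, nat_lit 76, nat_lit 64, nat_lit 115, nat_lit 107, nat_lit 105, nat_lit 103],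
  .lev (nat_lit 590872835710766285312) [(nat_lit 70, nat_lit 590873960511161500160), (nat_lit 64, nat_lit 590873960511162548735), (nat_lit 60, nat_lit 590872834611255707136), (nat_lit 58, nat_lit 592025756115862553088)] [nat_lit 124, nat_lit 118, nat_lit 114, nat_lit 110, nat_lit 106, nat_lit 104, nat_lit 102, nat_lit 92, nat_lit 72, nat_lit 125, nat_lit 121, nat_lit 119, nat_lit 115, nat_lit 111, nat_lit 105, nat_lit 103, nat_lit 99, nat_lit 85, nat_lit 79, nat_lit 73, nat_lit 107, nat_lit 93],
  .lev (nat_lit 590872834611256753664) [(nat_lit 102, nat_lit 589721039006555701760), (nat_lit 86, nat_lit 590872834611255706113), (nat_lit 82, nat_lit 590872834611256754688), (nat_lit 76, nat_lit 592025756115862553088)] [nat_lit 124, nat_lit 120, nat_lit 112, nat_lit 110, nat_lit 106, nat_lit 104, nat_lit 92, nat_lit 125, nat_lit 121, nat_lit 117, nat_lit 113, nat_lit 111, nat_lit 105, nat_lit 99, nat_lit 118, nat_lit 98],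
  .lev (nat_lit 590872835710766285312) [(nat_lit 112, nat_lit 592025756115862553088), (nat_lit 108, nat_lit 590872834612328399360), (nat_lit 78, nat_lit 590873960511162548736), (nat_lit 74, nat_lit 590872835710767333888)] [nat_lit 124, nat_lit 120, nat_lit 118, nat_lit 116, nat_lit 110, nat_lit 106, nat_lit 92, nat_lit 125, nat_lit 121, nat_lit 119, nat_lit 107, nat_lit 93],
  .cnt (nat_lit 2),
  .cnt (nat_lit 2),
  .cnt (nat_lit 2),
  .cnt (nat_lit 2),
  .cnt (nat_lit 3),
  .lev (nat_lit 590872835709693592065) [(nat_lit 122, nat_lit 590872834611255707136), (nat_lit 100, nat_lit 592025756115862553088), (nat_lit 98, nat_lit 590872834611255706113), (nat_lit 92, nat_lit 590872834611256754688), (nat_lit 90, nat_lit 590873960511162548736)] [nat_lit 124, nat_lit 120, nat_lit 116, nat_lit 110, nat_lit 125, nat_lit 121, nat_lit 115, nat_lit 111],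
  .cnt (nat_lit 2),
  .cnt (nat_lit 2),
  .cnt (nat_lit 2),
  .cnt (nat_lit 2),
  .cnt (nat_lit 2),
  .cnt (nat_lit 2),
  .cnt (nat_lit 2),
  .lev (nat_lit 589721039006555701760) [(nat_lit 122, nat_lit 590872835709693593088), (nat_lit 110, nat_lit 590872834611255706113), (nat_lit 108, nat_lit 590872834611255707136), (nat_lit 92, nat_lit 590872834611256754688), (nat_lit 76, nat_lit 592025756115862553088)] [nat_lit 124, nat_lit 118, nat_lit 116, nat_lit 114, nat_lit 102, nat_lit 90, nat_lit 125, nat_lit 119, nat_lit 117, nat_lit 105, nat_lit 91],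
  .cnt (nat_lit 3),
  .lev (nat_lit 590872833512816771585) [(nat_lit 122, nat_lit 590872834611255707136), (nat_lit 112, nat_lit 592025756115862553088), (nat_lit 110, nat_lit 590871709810860491263), (nat_lit 106, nat_lit 590872835709693592064), (nat_lit 90, nat_lit 590873960511162548736), (nat_lit 84, nat_lit 590872835710767333888)] [nat_lit 124, nat_lit 118, nat_lit 116, nat_lit 104, nat_lit 125, nat_lit 119, nat_lit 105],
  .cnt (nat_lit 3),
  .cnt (nat_lit 3),
  .cnt (nat_lit 3),
  .cnt (nat_lit 3),
  .cnt (nat_lit 2),
  .cnt (nat_lit 2),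
  .cnt (nat_lit 3),
  .cnt (nat_lit 2),
  .cnt (nat_lit 3),
  .cnt (nat_lit 3),
  .cnt (nat_lit 3),
  .cnt (nat_lit 3),
  .lev (nat_lit 590872834611255707135) [(nat_lit 42, nat_lit 592025756115862553087), (nat_lit 30, nat_lit 592025756115862553088)] [nat_lit 120, nat_lit 116, nat_lit 114, nat_lit 112, nat_lit 106, nat_lit 104, nat_lit 96, nat_lit 94, nat_lit 88, nat_lit 78, nat_lit 76, nat_lit 68, nat_lit 66, nat_lit 56, nat_lit 36, nat_lit 121, nat_lit 117, nat_lit 115, nat_lit 113, nat_lit 107, nat_lit 105, nat_lit 97, nat_lit 95, nat_lit 89, nat_lit 79, nat_lit 77, nat_lit 69, nat_lit 67, nat_lit 57, nat_lit 37],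
  .lev (nat_lit 590873960510088806913) [(nat_lit 98, nat_lit 590872833512817820160), (nat_lit 66, nat_lit 590872835710766285312), (nat_lit 64, nat_lit 592025756115862553088), (nat_lit 34, nat_lit 590873960511162548736)] [nat_lit 120, nat_lit 118, nat_lit 116, nat_lit 106, nat_lit 102, nat_lit 92, nat_lit 82, nat_lit 78, nat_lit 68, nat_lit 123, nat_lit 121, nat_lit 119, nat_lit 109, nat_lit 107, nat_lit 95, nat_lit 93, nat_lit 81, nat_lit 79, nat_lit 122, nat_lit 108, nat_lit 94, nat_lit 80],
  .lev (nat_lit 592025755016350926336) [(nat_lit 98, nat_lit 590872834611256753664), (nat_lit 88, nat_lit 592025756115862553088), (nat_lit 74, nat_lit 590872834611255706113), (nat_lit 56, nat_lit 590873960511162548736)] [nat_lit 122, nat_lit 112, nat_lit 108, nat_lit 96, nat_lit 94, nat_lit 82, nat_lit 70, nat_lit 123, nat_lit 117, nat_lit 113, nat_lit 109, nat_lit 97, nat_lit 95, nat_lit 83, nat_lit 71, nat_lit 118, nat_lit 116, nat_lit 106, nat_lit 119, nat_lit 107],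
  .lev (nat_lit 590873959411649873409) [(nat_lit 112, nat_lit 592025756115862553088), (nat_lit 110, nat_lit 590872834611256753664), (nat_lit 90, nat_lit 590872835710767332864), (nat_lit 68, nat_lit 590873960511162548736), (nat_lit 62, nat_lit 590872835710767333888)] [nat_lit 122, nat_lit 108, nat_lit 96, nat_lit 94, nat_lit 82, nat_lit 70, nat_lit 123, nat_lit 121, nat_lit 119, nat_lit 109, nat_lit 105, nat_lit 95],
  .lev (nat_lit 592026880915184028160) [(nat_lit 110, nat_lit 590872834611255706113), (nat_lit 102, nat_lit 590873960510088807936), (nat_lit 94, nat_lit 590872834611256753664), (nat_lit 82, nat_lit 590871709810860491264), (nat_lit 76, nat_lit 592025756115862553088), (nat_lit 56, nat_lit 590873960511162548736)] [nat_lit 122, nat_lit 120, nat_lit 100, nat_lit 121, nat_lit 113, nat_lit 107, nat_lit 101, nat_lit 97, nat_lit 114, nat_lit 108, nat_lit 96, nat_lit 123, nat_lit 119, nat_lit 115, nat_lit 109, nat_lit 118],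
  .lev (nat_lit 590872834611254658560) [(nat_lit 112, nat_lit 592024631314393597440), (nat_lit 104, nat_lit 590872834612328399360), (nat_lit 102, nat_lit 590872835710767332865), (nat_lit 100, nat_lit 592025756115862553088), (nat_lit 86, nat_lit 590872834611255706113), (nat_lit 68, nat_lit 590873960511162548736)] [nat_lit 122, nat_lit 120, nat_lit 114, nat_lit 108, nat_lit 106, nat_lit 96, nat_lit 123, nat_lit 119, nat_lit 115, nat_lit 109, nat_lit 97, nat_lit 118],
  .cnt (nat_lit 2),
  .lev (nat_lit 590872834611254658561) [(nat_lit 116, nat_lit 590872835710767332864), (nat_lit 114, nat_lit 590873960511162548736), (nat_lit 112, nat_lit 592025756115862553088), (nat_lit 98, nat_lit 590872834611255706113), (nat_lit 70, nat_lit 590872835710767333888)] [nat_lit 122, nat_lit 118, nat_lit 108, nat_lit 106, nat_lit 96, nat_lit 119, nat_lit 107],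
  .lev (nat_lit 590873960510088807936) [(nat_lit 124, nat_lit 590872834611255706113), (nat_lit 96, nat_lit 590872835709693592064), (nat_lit 94, nat_lit 590872834611255707136), (nat_lit 78, nat_lit 590872834611256754688), (nat_lit 76, nat_lit 592025756115862553088)] [nat_lit 116, nat_lit 114, nat_lit 112, nat_lit 102, nat_lit 100, nat_lit 88, nat_lit 117, nat_lit 115, nat_lit 113, nat_lit 103, nat_lit 101, nat_lit 89, nat_lit 120],
  .ext,
  .lev (nat_lit 592025755017424666112) [(nat_lit 124, nat_lit 590872834611255706113), (nat_lit 114, nat_lit 589721039006555701760), (nat_lit 108, nat_lit 590872834612328399360), (nat_lit 96, nat_lit 590872834611255707136), (nat_lit 92, nat_lit 590872834612329447936), (nat_lit 88, nat_lit 592025756115862553088)] [nat_lit 122, nat_lit 120, nat_lit 112, nat_lit 121, nat_lit 117, nat_lit 113, nat_lit 116, nat_lit 123],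
  .ext,
  .cnt (nat_lit 2),
  .cnt (nat_lit 2),
  .cnt (nat_lit 3),
  .cnt (nat_lit 4),
  .lev (nat_lit 590872835710766285312) [(nat_lit 124, nat_lit 590872834611255706113), (nat_lit 92, nat_lit 590872835710767332864), (nat_lit 68, nat_lit 592025756115862552064), (nat_lit 44, nat_lit 592025756115862553088)] [nat_lit 122, nat_lit 118, nat_lit 116, nat_lit 114, nat_lit 112, nat_lit 108, nat_lit 104, nat_lit 102, nat_lit 100, nat_lit 117, nat_lit 105, nat_lit 103],
  .lev (nat_lit 590872835709693592064) [(nat_lit 124, nat_lit 590872834611255706113), (nat_lit 120, nat_lit 590872834611256753664), (nat_lit 112, nat_lit 592025756115862553088), (nat_lit 46, nat_lit 590873960511162548736)] [nat_lit 118, nat_lit 114, nat_lit 108, nat_lit 104, nat_lit 102, nat_lit 94, nat_lit 117, nat_lit 105, nat_lit 103, nat_lit 95, nat_lit 90, nat_lit 80],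
  .lev (nat_lit 590872833512816772608) [(nat_lit 124, nat_lit 590872834611255706113), (nat_lit 106, nat_lit 590872835709693592064), (nat_lit 100, nat_lit 592025756115862553088), (nat_lit 90, nat_lit 590873960511162548736), (nat_lit 82, nat_lit 590872835710767333888)] [nat_lit 118, nat_lit 112, nat_lit 94, nat_lit 123, nat_lit 117, nat_lit 113, nat_lit 95, nat_lit 122, nat_lit 116, nat_lit 119],
  .cnt (nat_lit 2),
  .cnt (nat_lit 5),
  .lev (nat_lit 590872834611254658560) [(nat_lit 124, nat_lit 590872834611255706113), (nat_lit 112, nat_lit 592025756115862553088), (nat_lit 104, nat_lit 590872834612329446912), (nat_lit 102, nat_lit 590873960511162548736), (nat_lit 96, nat_lit 590872834612329447936)] [nat_lit 122, nat_lit 118, nat_lit 114, nat_lit 108, nat_lit 123, nat_lit 119, nat_lit 109],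
  .cnt (nat_lit 2),
  .cnt (nat_lit 2),
  .cnt (nat_lit 3),
  .cnt (nat_lit 3),
  .lev (nat_lit 592025755016350926336) [(nat_lit 124, nat_lit 590872834611255706113), (nat_lit 120, nat_lit 590872834611256754688), (nat_lit 118, nat_lit 590872834612329446912), (nat_lit 114, nat_lit 589721039006555701760), (nat_lit 94, nat_lit 590872834612329447936), (nat_lit 88, nat_lit 592025756115862553088)] [nat_lit 122, nat_lit 112, nat_lit 123, nat_lit 113],
  .cnt (nat_lit 9),
  .cnt (nat_lit 2),
  .lev (nat_lit 590872834611255707136) [(nat_lit 124, nat_lit 590872834611255706113), (nat_lit 120, nat_lit 590872834611256754688), (nat_lit 118, nat_lit 590872834612329447936), (nat_lit 116, nat_lit 590872835710767333888), (nat_lit 100, nat_lit 592025756115862553088)] [nat_lit 122, nat_lit 114, nat_lit 115],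
  .cnt (nat_lit 3),
  .lev (nat_lit 590872834611255707136) [(nat_lit 124, nat_lit 590872834611255706113), (nat_lit 120, nat_lit 590872834611256754688), (nat_lit 118, nat_lit 590872834612329447936), (nat_lit 116, nat_lit 590872835710767333888), (nat_lit 114, nat_lit 590873960511162548736), (nat_lit 112, nat_lit 592025756115862553088)] [nat_lit 122],
  .lev (nat_lit 590872835710767332863) [(nat_lit 82, nat_lit 590871709810860491264), (nat_lit 66, nat_lit 592025756115862553087), (nat_lit 58, nat_lit 592025756115862553088), (nat_lit 56, nat_lit 590873960511162548736)] [nat_lit 120, nat_lit 118, nat_lit 116, nat_lit 114, nat_lit 112, nat_lit 92, nat_lit 88, nat_lit 121, nat_lit 117, nat_lit 107, nat_lit 101, nat_lit 93, nat_lit 79, nat_lit 77, nat_lit 65, nat_lit 113, nat_lit 89],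
  .lev (nat_lit 590872834612329446911) [(nat_lit 108, nat_lit 590872834612328399360), (nat_lit 98, nat_lit 592025755016351973888), (nat_lit 88, nat_lit 592025756115862553088), (nat_lit 82, nat_lit 590871709810860491264), (nat_lit 72, nat_lit 590872834611255706113), (nat_lit 68, nat_lit 590873960511162548736)] [nat_lit 120, nat_lit 106, nat_lit 104, nat_lit 102, nat_lit 92, nat_lit 78, nat_lit 121, nat_lit 117, nat_lit 115, nat_lit 107, nat_lit 103, nat_lit 93, nat_lit 91, nat_lit 118],
  .lev (nat_lit 592025755017423618561) [(nat_lit 122, nat_lit 590872834610183013888), (nat_lit 114, nat_lit 589721039006555701760), (nat_lit 88, nat_lit 590872835710766285312), (nat_lit 84, nat_lit 590872834611255706113), (nat_lit 70, nat_lit 590872834611255707136), (nat_lit 64, nat_lit 592025756115862553088)] [nat_lit 116, nat_lit 112, nat_lit 106, nat_lit 121, nat_lit 119, nat_lit 117, nat_lit 113, nat_lit 107, nat_lit 105, nat_lit 118, nat_lit 104, nat_lit 93],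
  .lev (nat_lit 590873960510088807936) [(nat_lit 112, nat_lit 592025756115862553088), (nat_lit 110, nat_lit 590872834611255706113), (nat_lit 108, nat_lit 590872834611256753664), (nat_lit 90, nat_lit 590873960511162548736), (nat_lit 82, nat_lit 590872835710767333888)] [nat_lit 116, nat_lit 104, nat_lit 92, nat_lit 121, nat_lit 117, nat_lit 105, nat_lit 93, nat_lit 120, nat_lit 118, nat_lit 119],
  .lev (nat_lit 590873960510088806913) [(nat_lit 122, nat_lit 590872834611255707136), (nat_lit 116, nat_lit 590871709810860491264), (nat_lit 98, nat_lit 590872834611255706113), (nat_lit 78, nat_lit 590872834611256754688), (nat_lit 76, nat_lit 592025756115862553088)] [nat_lit 120, nat_lit 114, nat_lit 100, nat_lit 121, nat_lit 119, nat_lit 115, nat_lit 107, nat_lit 101, nat_lit 118, nat_lit 106],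
  .lev (nat_lit 592024630217028403712) [(nat_lit 122, nat_lit 590872834611254658561), (nat_lit 116, nat_lit 592024631315467338240), (nat_lit 100, nat_lit 592025756115862553088), (nat_lit 98, nat_lit 590872834611255706113), (nat_lit 96, nat_lit 590872834611256754688), (nat_lit 90, nat_lit 590873960511162548736)] [nat_lit 120, nat_lit 114, nat_lit 106, nat_lit 121, nat_lit 119, nat_lit 107, nat_lit 118, nat_lit 115],
  .cnt (nat_lit 8),
  .cnt (nat_lit 3),
  .cnt (nat_lit 2),
  .cnt (nat_lit 4),
  .cnt (nat_lit 5),
  .lev (nat_lit 590872835710766285312) [(nat_lit 124, nat_lit 590872834611255706113), (nat_lit 122, nat_lit 590872834611255707136), (nat_lit 118, nat_lit 590872834612328399360), (nat_lit 114, nat_lit 590873960511162548736), (nat_lit 112, nat_lit 592025756115862553088), (nat_lit 92, nat_lit 590872835710767333888)] [nat_lit 121, nat_lit 117, nat_lit 120, nat_lit 116],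
  .cnt (nat_lit 2),
  .cnt (nat_lit 3),
  .cnt (nat_lit 3),
  .cnt (nat_lit 13),
  .cnt (nat_lit 2),
  .lev (nat_lit 592024630215955710464) [(nat_lit 124, nat_lit 590872834611255706113), (nat_lit 122, nat_lit 590872834610183013888), (nat_lit 106, nat_lit 590872833512817820160), (nat_lit 100, nat_lit 592025756115862553088), (nat_lit 94, nat_lit 590872834611255707136), (nat_lit 92, nat_lit 590872835710767333888)] [nat_lit 118, nat_lit 116, nat_lit 104, nat_lit 102, nat_lit 90, nat_lit 119, nat_lit 115],
  .cnt (nat_lit 3),
  .lev (nat_lit 590871709810860491264) [(nat_lit 124, nat_lit 590872834611255706113), (nat_lit 122, nat_lit 590872834612328398336), (nat_lit 112, nat_lit 592025756115862553088), (nat_lit 108, nat_lit 590872834611255707136), (nat_lit 106, nat_lit 590872834612329447936), (nat_lit 102, nat_lit 590873960511162548736)] [nat_lit 118, nat_lit 104, nat_lit 119, nat_lit 117, nat_lit 116],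
  .cnt (nat_lit 3),
  .ext,
  .lev (nat_lit 592025756115862553088) [(nat_lit 124, nat_lit 590872834611255706113), (nat_lit 120, nat_lit 590872834610183013888), (nat_lit 116, nat_lit 590872835710767333888), (nat_lit 114, nat_lit 590873960511162548736), (nat_lit 108, nat_lit 590872834611255707136), (nat_lit 106, nat_lit 590872834612329447936)] [nat_lit 118, nat_lit 112, nat_lit 119],
  .ext,
  .cnt (nat_lit 2),
  .lev (nat_lit 590873959411650920960) [(nat_lit 124, nat_lit 590872834611255706113), (nat_lit 122, nat_lit 590872834611255707136), (nat_lit 120, nat_lit 590872834611256754688), (nat_lit 112, nat_lit 592025756115862553088), (nat_lit 90, nat_lit 590873960511162548736)] [nat_lit 114, nat_lit 102, nat_lit 115, nat_lit 103],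
  .cnt (nat_lit 3),
  .lev (nat_lit 590871709810860491264) [(nat_lit 124, nat_lit 590872834611255706113), (nat_lit 122, nat_lit 590872834611255707136), (nat_lit 120, nat_lit 590872834611256754688), (nat_lit 118, nat_lit 590872834612329447936), (nat_lit 112, nat_lit 592025756115862553088), (nat_lit 102, nat_lit 590873960511162548736)] [nat_lit 116, nat_lit 117],
  .cnt (nat_lit 3),
  .cnt (nat_lit 3),
  .cnt (nat_lit 4),
  .reg]

/-- chains -/
def hE7 : List Cn := [
  ⟨nat_lit 592025756116936294912, nat_lit 592025756115862553088, nat_lit 592026883116355814913, nat_lit 1, nat_lit 1,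
    [(nat_lit 98, nat_lit 3), (nat_lit 90, nat_lit 3), (nat_lit 86, nat_lit 4), (nat_lit 82, nat_lit 4)],
    [.wk],
    [(nat_lit 112, nat_lit 592024630217028403712), (nat_lit 100, nat_lit 590873959411651969535), (nat_lit 98, nat_lit 590872834611256753664), (nat_lit 90, nat_lit 590872834612328399360), (nat_lit 88, nat_lit 590872835709693592065), (nat_lit 86, nat_lit 590872834611254658561), (nat_lit 82, nat_lit 590872834611256754687)],
    [nat_lit 123, nat_lit 121, nat_lit 103, nat_lit 117, nat_lit 115, nat_lit 114, nat_lit 120, nat_lit 122, nat_lit 124, nat_lit 110, nat_lit 111, nat_lit 125, nat_lit 116, nat_lit 102]⟩,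
  ⟨nat_lit 592025756116936294913, nat_lit 590872834612329447936, nat_lit 592026883116355814913, nat_lit 2, nat_lit 2,
    [(nat_lit 112, nat_lit 1), (nat_lit 124, nat_lit 1)],
    [.wk, .dn (nat_lit 68) (nat_lit 122) (nat_lit 78), .dn (nat_lit 82) (nat_lit 116) (nat_lit 96), .dn (nat_lit 94) (nat_lit 115) (nat_lit 80), .dn (nat_lit 104) (nat_lit 121) (nat_lit 92), .dn (nat_lit 90) (nat_lit 123) (nat_lit 80), .dn (nat_lit 108) (nat_lit 103) (nat_lit 80), .dn (nat_lit 106) (nat_lit 117) (nat_lit 92)],
    [(nat_lit 118, nat_lit 590872833513890512384), (nat_lit 124, nat_lit 590872834611255706113), (nat_lit 112, nat_lit 592025756115862553088), (nat_lit 96, nat_lit 590872833512817820160), (nat_lit 92, nat_lit 590871709810860491264), (nat_lit 80, nat_lit 590872834612328399360), (nat_lit 78, nat_lit 590873959412724661760)],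
    [nat_lit 117, nat_lit 115, nat_lit 114, nat_lit 123, nat_lit 103, nat_lit 121, nat_lit 116, nat_lit 122, nat_lit 102, nat_lit 120]⟩,
  ⟨nat_lit 592026882016843137537, nat_lit 590872834611255706113, nat_lit 592026883116355814913, nat_lit 1, nat_lit 1,
    [(nat_lit 118, nat_lit 1), (nat_lit 112, nat_lit 1), (nat_lit 104, nat_lit 2), (nat_lit 102, nat_lit 2), (nat_lit 96, nat_lit 3)],
    [.wk],
    [(nat_lit 124, nat_lit 590872834611254658561), (nat_lit 118, nat_lit 590873959412724661760), (nat_lit 112, nat_lit 592025756115862553088), (nat_lit 110, nat_lit 590872834611256753664), (nat_lit 104, nat_lit 590871709810860491264), (nat_lit 102, nat_lit 590873960511162548736), (nat_lit 96, nat_lit 590872834611255707136)],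
    [nat_lit 123, nat_lit 121, nat_lit 117, nat_lit 116, nat_lit 120, nat_lit 122]⟩,
  ⟨nat_lit 592025757215375230465, nat_lit 590872834611255706113, nat_lit 592026883116355814913, nat_lit 1, nat_lit 1,
    [(nat_lit 120, nat_lit 1), (nat_lit 112, nat_lit 1), (nat_lit 108, nat_lit 2), (nat_lit 104, nat_lit 2), (nat_lit 102, nat_lit 2), (nat_lit 100, nat_lit 2)],
    [.wk],
    [(nat_lit 124, nat_lit 590872834611255706113), (nat_lit 120, nat_lit 590872834611256754688), (nat_lit 112, nat_lit 592024631314393597440), (nat_lit 108, nat_lit 590872834611255707136), (nat_lit 104, nat_lit 590872834612329446912), (nat_lit 102, nat_lit 590872835709693593088), (nat_lit 100, nat_lit 590873959412724661760)],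
    [nat_lit 115, nat_lit 114, nat_lit 118, nat_lit 119]⟩,
  ⟨nat_lit 592026883115282073089, nat_lit 590872834611255706113, nat_lit 592026883116355814913, nat_lit 1, nat_lit 1,
    [(nat_lit 120, nat_lit 1), (nat_lit 116, nat_lit 1), (nat_lit 114, nat_lit 1), (nat_lit 112, nat_lit 1), (nat_lit 108, nat_lit 2), (nat_lit 106, nat_lit 2)],
    [.wk],
    [(nat_lit 124, nat_lit 590872834611255706113), (nat_lit 120, nat_lit 590872834610183013888), (nat_lit 116, nat_lit 590872835710767333888), (nat_lit 114, nat_lit 590873960511162548736), (nat_lit 112, nat_lit 592025756115862553088), (nat_lit 108, nat_lit 590872834611255707136), (nat_lit 106, nat_lit 590872834612329446912)],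
    [nat_lit 119, nat_lit 118]⟩]

theorem gE7_7 : tE7.grp0 (hE7.map Cn.w) cE7_7 = true := by decide +kernel

theorem hE7_ok : lall (fun c => an (tE7.chn c) (tE7.frm c)) hE7 = true := by decide +kernel

/-- certificates -/
def cE7_0 : List Ce := [
  .spn (nat_lit 590872833511745126912),
  .spn (nat_lit 590872834611255706113),
  .lev (nat_lit 590873960510088806913) [(nat_lit 80, nat_lit 589719914206160486911), (nat_lit 64, nat_lit 590873960511162547712), (nat_lit 66, nat_lit 590872835710766285312), (nat_lit 1, nat_lit 592025756115862552064), (nat_lit 54, nat_lit 592025756115862553088)] [nat_lit 120, nat_lit 118, nat_lit 104, nat_lit 106, nat_lit 92, nat_lit 121, nat_lit 123, nat_lit 113, nat_lit 107, nat_lit 109, nat_lit 93, nat_lit 95],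
  .spn (nat_lit 590872834611255706113),
  .spn (nat_lit 590872834611255706113),
  .lev (nat_lit 590872834613401090561) [(nat_lit 92, nat_lit 590873958313213035008), (nat_lit 1, nat_lit 590872834612328398336), (nat_lit 112, nat_lit 592025756115862553088), (nat_lit 78, nat_lit 590872835710767332864), (nat_lit 80, nat_lit 590873960511162548736), (nat_lit 70, nat_lit 590872835710767333888)] [nat_lit 120, nat_lit 122, nat_lit 106, nat_lit 115, nat_lit 123, nat_lit 109, nat_lit 97, nat_lit 114, nat_lit 107],
  .cnt (nat_lit 4),
  .lev (nat_lit 590872835710766284289) [(nat_lit 114, nat_lit 590873960511162548735), (nat_lit 92, nat_lit 590872834612329446911), (nat_lit 94, nat_lit 590873960511162547712), (nat_lit 1, nat_lit 590873960511162548736), (nat_lit 112, nat_lit 592025756115862553088)] [nat_lit 120, nat_lit 106, nat_lit 121, nat_lit 107],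
  .lev (nat_lit 592025755016350926336) [(nat_lit 118, nat_lit 589721039005483008512), (nat_lit 1, nat_lit 590872835709693592064), (nat_lit 82, nat_lit 592025756115861504512), (nat_lit 80, nat_lit 590872834611255707136), (nat_lit 64, nat_lit 592025756115862553088)] [nat_lit 116, nat_lit 114, nat_lit 112, nat_lit 102, nat_lit 100, nat_lit 88, nat_lit 121, nat_lit 117, nat_lit 113, nat_lit 123, nat_lit 103, nat_lit 89],
  .spn (nat_lit 590872834611255706113),
  .lev (nat_lit 592025755016350926336) [(nat_lit 114, nat_lit 590873959412723614208), (nat_lit 106, nat_lit 590872834612329446911), (nat_lit 88, nat_lit 590871708711348863489), (nat_lit 1, nat_lit 592025756115862553088), (nat_lit 94, nat_lit 590872835710767333888)] [nat_lit 120, nat_lit 112, nat_lit 122, nat_lit 117, nat_lit 121, nat_lit 113, nat_lit 123, nat_lit 116],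
  .spn (nat_lit 590872834611255706113),
  .cnt (nat_lit 4),
  .lev (nat_lit 592024630214883018240) [(nat_lit 116, nat_lit 589721037907044073985), (nat_lit 1, nat_lit 592024630215955710464), (nat_lit 106, nat_lit 590872834611256754688), (nat_lit 108, nat_lit 590872834612329447936), (nat_lit 100, nat_lit 592025756115862553088)] [nat_lit 114, nat_lit 120, nat_lit 115, nat_lit 121],
  .cnt (nat_lit 3),
  .lev (nat_lit 590872834613401090561) [(nat_lit 114, nat_lit 590873960511162548735), (nat_lit 116, nat_lit 590871709811933183488), (nat_lit 1, nat_lit 590872834612328398336), (nat_lit 112, nat_lit 592025756115862553088), (nat_lit 106, nat_lit 590872834611256754688), (nat_lit 108, nat_lit 590872834612329447936)] [nat_lit 120, nat_lit 121],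
  .spn (nat_lit 590872834611255706113),
  .lev (nat_lit 592025755016350926336) [(nat_lit 120, nat_lit 590873959411651968512), (nat_lit 1, nat_lit 590872834611256753664), (nat_lit 88, nat_lit 592025756115862553088), (nat_lit 56, nat_lit 590873960511162548736)] [nat_lit 116, nat_lit 104, nat_lit 90, nat_lit 94, nat_lit 80, nat_lit 115, nat_lit 117, nat_lit 103, nat_lit 91, nat_lit 81, nat_lit 118, nat_lit 108],
  .spn (nat_lit 590872834611255706113),
  .lev (nat_lit 590873959411651968512) [(nat_lit 90, nat_lit 590873960511162548735), (nat_lit 92, nat_lit 590871708712422604288), (nat_lit 96, nat_lit 590873960511162547712), (nat_lit 112, nat_lit 589719912008210973184), (nat_lit 1, nat_lit 592025756115862553088)] [nat_lit 116, nat_lit 122, nat_lit 104, nat_lit 117, nat_lit 119, nat_lit 109, nat_lit 105],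
  .lev (nat_lit 589718787207814710784) [(nat_lit 116, nat_lit 592024631315467337216), (nat_lit 1, nat_lit 592025756115862552064), (nat_lit 106, nat_lit 590872834611256754688), (nat_lit 90, nat_lit 590873960511162547712), (nat_lit 66, nat_lit 592025756115862553088)] [nat_lit 114, nat_lit 112, nat_lit 118, nat_lit 100, nat_lit 108, nat_lit 113, nat_lit 119, nat_lit 122],
  .spn (nat_lit 590872834611255706113),
  .lev (nat_lit 590872834611255707135) [(nat_lit 114, nat_lit 590873960511162547712), (nat_lit 1, nat_lit 592025756115862553088), (nat_lit 116, nat_lit 590872835710767333888), (nat_lit 106, nat_lit 590872834612329447936)] [nat_lit 112, nat_lit 118, nat_lit 122, nat_lit 108, nat_lit 119],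
  .spn (nat_lit 590872834611255706113),
  .cnt (nat_lit 3),
  .lev (nat_lit 589721037907044075008) [(nat_lit 118, nat_lit 590872834610181965313), (nat_lit 120, nat_lit 590872835709694640639), (nat_lit 1, nat_lit 590872835710767332864), (nat_lit 100, nat_lit 592025756115862553088), (nat_lit 94, nat_lit 590872835710767333888)] [nat_lit 114, nat_lit 122, nat_lit 102, nat_lit 115, nat_lit 123, nat_lit 116],
  .spn (nat_lit 590872834611255706113),
  .lev (nat_lit 590872832412232452609) [(nat_lit 114, nat_lit 590873960511162548735), (nat_lit 118, nat_lit 590872834610181965313), (nat_lit 120, nat_lit 590873961610673126912), (nat_lit 112, nat_lit 589719914206160485888), (nat_lit 1, nat_lit 592025756115862553088), (nat_lit 94, nat_lit 590872835710767333888)] [nat_lit 122, nat_lit 123, nat_lit 116],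
  .cnt (nat_lit 4),
  .spn (nat_lit 590872834611255706113),
  .cnt (nat_lit 3),
  .cnt (nat_lit 3),
  .lev (nat_lit 592025757214300439040) [(nat_lit 94, nat_lit 590873960511162547712), (nat_lit 68, nat_lit 592025755016350925313), (nat_lit 1, nat_lit 592025756115862552064), (nat_lit 44, nat_lit 592025756115862553088)] [nat_lit 120, nat_lit 118, nat_lit 116, nat_lit 114, nat_lit 112, nat_lit 106, nat_lit 104, nat_lit 102, nat_lit 100, nat_lit 117, nat_lit 105, nat_lit 103],
  .spn (nat_lit 590872834611255706113),
  .lev (nat_lit 590873958313213035008) [(nat_lit 122, nat_lit 592025756115861505536), (nat_lit 90, nat_lit 590872833511745126912), (nat_lit 1, nat_lit 589721039006555701760), (nat_lit 70, nat_lit 590872834611255707136), (nat_lit 64, nat_lit 592025756115862553088)] [nat_lit 120, nat_lit 118, nat_lit 112, nat_lit 104, nat_lit 106, nat_lit 92, nat_lit 119, nat_lit 105, nat_lit 107, nat_lit 93],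
  .spn (nat_lit 590872834611255706113),
  .spn (nat_lit 590872834611255706113),
  .lev (nat_lit 590871709809787798016) [(nat_lit 102, nat_lit 590871708711348863489), (nat_lit 104, nat_lit 590871708712422604288), (nat_lit 1, nat_lit 590872834611256753664), (nat_lit 112, nat_lit 592025756115862553088), (nat_lit 96, nat_lit 590872834612329447936)] [nat_lit 120, nat_lit 118, nat_lit 106, nat_lit 115, nat_lit 121, nat_lit 107, nat_lit 114],
  .cnt (nat_lit 4),
  .lev (nat_lit 590872834610181965313) [(nat_lit 114, nat_lit 590873960511162548735), (nat_lit 116, nat_lit 590873959412723614208), (nat_lit 1, nat_lit 590872834611256753664), (nat_lit 112, nat_lit 592025756115862553088), (nat_lit 96, nat_lit 590872834612329447936)] [nat_lit 118, nat_lit 106, nat_lit 121, nat_lit 107],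
  .lev (nat_lit 589719913107721552384) [(nat_lit 122, nat_lit 590872834611255705089), (nat_lit 1, nat_lit 590872835709693592064), (nat_lit 78, nat_lit 590872834611256754688), (nat_lit 76, nat_lit 592025756115862553088)] [nat_lit 120, nat_lit 121, nat_lit 115, nat_lit 103, nat_lit 101, nat_lit 89],
  .spn (nat_lit 590872834611255706113),
  .lev (nat_lit 593178675423591531009) [(nat_lit 122, nat_lit 590872834611255705089), (nat_lit 114, nat_lit 590873959412723614208), (nat_lit 104, nat_lit 592025755016350926336), (nat_lit 106, nat_lit 590872834610181965313), (nat_lit 88, nat_lit 590872833511745126912), (nat_lit 1, nat_lit 592025756115862553088)] [nat_lit 120, nat_lit 112, nat_lit 117, nat_lit 113],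
  .spn (nat_lit 590872834611255706113),
  .cnt (nat_lit 4),
  .lev (nat_lit 590873959411651969535) [(nat_lit 122, nat_lit 590872834611255707135), (nat_lit 118, nat_lit 590872834612329446911), (nat_lit 1, nat_lit 590873959411650920960), (nat_lit 112, nat_lit 592025756115862553088), (nat_lit 102, nat_lit 590873960511162548736)] [nat_lit 114, nat_lit 120, nat_lit 115],
  .cnt (nat_lit 11),
  .lev (nat_lit 590872834613401092607) [(nat_lit 114, nat_lit 590873960511162548735), (nat_lit 122, nat_lit 590872834611255707135), (nat_lit 116, nat_lit 590872833512816772608), (nat_lit 1, nat_lit 590872834612328399360), (nat_lit 112, nat_lit 592025756115862553088), (nat_lit 106, nat_lit 590872834612329447936)] [nat_lit 121],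
  .spn (nat_lit 590872834611255706113),
  .lev (nat_lit 590873960510088806913) [(nat_lit 122, nat_lit 592025755016350926336), (nat_lit 120, nat_lit 590871709810859442689), (nat_lit 1, nat_lit 590872835709693592064), (nat_lit 80, nat_lit 590872834611255707136), (nat_lit 76, nat_lit 592025756115862553088)] [nat_lit 90, nat_lit 115, nat_lit 119, nat_lit 103, nat_lit 105, nat_lit 91, nat_lit 118, nat_lit 104],
  .spn (nat_lit 590872834611255706113),
  .lev (nat_lit 590872832414379934207) [(nat_lit 114, nat_lit 590871708711348863489), (nat_lit 122, nat_lit 590873961610673126912), (nat_lit 112, nat_lit 589719912008210973184), (nat_lit 1, nat_lit 592025756115862553088), (nat_lit 94, nat_lit 590872834611255707136), (nat_lit 92, nat_lit 590872835710767333888)] [nat_lit 116, nat_lit 118, nat_lit 104, nat_lit 117, nat_lit 105],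
  .lev (nat_lit 589721037908117814784) [(nat_lit 108, nat_lit 590872834611255707135), (nat_lit 1, nat_lit 592025756115862553088), (nat_lit 120, nat_lit 590872834611256754688), (nat_lit 102, nat_lit 590873960511162548736), (nat_lit 104, nat_lit 590872835710767333888)] [nat_lit 114, nat_lit 112, nat_lit 118, nat_lit 100, nat_lit 115, nat_lit 119],
  .spn (nat_lit 590872834611255706113),
  .lev (nat_lit 593176425820655714817) [(nat_lit 122, nat_lit 590872834611255705089), (nat_lit 100, nat_lit 590873960511162548735), (nat_lit 1, nat_lit 592025756115862553088), (nat_lit 120, nat_lit 590872835709694640640), (nat_lit 104, nat_lit 590872835710767333888), (nat_lit 106, nat_lit 590872834612329447936)] [nat_lit 118, nat_lit 113, nat_lit 119],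
  .spn (nat_lit 590872834611255706113),
  .cnt (nat_lit 4),
  .lev (nat_lit 592024629117517824512) [(nat_lit 122, nat_lit 590872834611255707135), (nat_lit 104, nat_lit 590872834610181965313), (nat_lit 120, nat_lit 590872833511745126912), (nat_lit 1, nat_lit 592024630215955710464), (nat_lit 100, nat_lit 592025756115862553088)] [nat_lit 114, nat_lit 116, nat_lit 115, nat_lit 117],
  .cnt (nat_lit 5),
  .lev (nat_lit 590875084212046135809) [(nat_lit 122, nat_lit 590872834611255707135), (nat_lit 118, nat_lit 590872834612329446911), (nat_lit 102, nat_lit 590873960511162548735), (nat_lit 120, nat_lit 590872835710766285312), (nat_lit 112, nat_lit 589719912008210973184), (nat_lit 1, nat_lit 592025756115862553088)] [nat_lit 116, nat_lit 117],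
  .cnt (nat_lit 5),
  .cnt (nat_lit 6),
  .lev (nat_lit 588566991602042012161) [(nat_lit 118, nat_lit 590872834612329447934), (nat_lit 122, nat_lit 590872834611255705089), (nat_lit 114, nat_lit 590873960511162548735), (nat_lit 1, nat_lit 592025756115862553088), (nat_lit 116, nat_lit 590872835710767333888), (nat_lit 120, nat_lit 590872834611256754688)] [nat_lit 112],
  .spn (nat_lit 590872834611255706113)]

theorem gE7_0 : tE7.grp 0 cE7_0 = true := by decide +kernel

/-- certificates -/
def cE7_1 : List Ce := [
  .lev (nat_lit 592025756115862553088) [(nat_lit 21, nat_lit 590873960511162548736)] [nat_lit 113, nat_lit 101, nat_lit 89, nat_lit 77, nat_lit 65, nat_lit 59],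
  .lev (nat_lit 590872834611255707136) [(nat_lit 58, nat_lit 592025756115862553088)] [nat_lit 125, nat_lit 111, nat_lit 99, nat_lit 85, nat_lit 73, nat_lit 1],
  .lev (nat_lit 592025756115862553087) [(nat_lit 90, nat_lit 590873960511161500160), (nat_lit 5, nat_lit 590873960511162548735), (nat_lit 58, nat_lit 592025756115862553088)] [nat_lit 112, nat_lit 118, nat_lit 120, nat_lit 104, nat_lit 110, nat_lit 119, nat_lit 121, nat_lit 125, nat_lit 105, nat_lit 111, nat_lit 99, nat_lit 85],
  .lev (nat_lit 590872834611256754688) [(nat_lit 90, nat_lit 590873960511162548736), (nat_lit 112, nat_lit 592025756115862553088)] [nat_lit 120, nat_lit 110, nat_lit 119, nat_lit 105, nat_lit 5],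
  .lev (nat_lit 590872834611255707136) [(nat_lit 104, nat_lit 590872834612328399360), (nat_lit 102, nat_lit 590873960511162548735), (nat_lit 58, nat_lit 592025756115862553088)] [nat_lit 118, nat_lit 120, nat_lit 112, nat_lit 110, nat_lit 106, nat_lit 100, nat_lit 98, nat_lit 7, nat_lit 125, nat_lit 119, nat_lit 5, nat_lit 1],
  .lev (nat_lit 590872834612329446911) [(nat_lit 116, nat_lit 590872833512817820160), (nat_lit 100, nat_lit 590873960511161500160), (nat_lit 7, nat_lit 592025756115862553088), (nat_lit 72, nat_lit 590873960511162548736)] [nat_lit 118, nat_lit 114, nat_lit 106, nat_lit 98, nat_lit 119, nat_lit 125, nat_lit 115, nat_lit 107, nat_lit 111, nat_lit 99],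
  .cnt (nat_lit 4),
  .lev (nat_lit 590872835710766285312) [(nat_lit 114, nat_lit 590873960511162547712), (nat_lit 1, nat_lit 590872834612328399360), (nat_lit 112, nat_lit 592025756115862553088), (nat_lit 84, nat_lit 590872835710767333888)] [nat_lit 124, nat_lit 110, nat_lit 98, nat_lit 125, nat_lit 111, nat_lit 99],
  .lev (nat_lit 592025756115861504513) [(nat_lit 104, nat_lit 590872835710766285312), (nat_lit 1, nat_lit 590873960511161500160), (nat_lit 64, nat_lit 592025756115862553088), (nat_lit 72, nat_lit 590873960511162548736)] [nat_lit 112, nat_lit 114, nat_lit 120, nat_lit 124, nat_lit 100, nat_lit 117, nat_lit 113, nat_lit 115, nat_lit 103, nat_lit 89, nat_lit 110],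
  .lev (nat_lit 590872834611255707136) [(nat_lit 118, nat_lit 590872834612328399360), (nat_lit 112, nat_lit 592025756115862553088), (nat_lit 84, nat_lit 590872834611255706113), (nat_lit 78, nat_lit 590873960511162548736)] [nat_lit 124, nat_lit 120, nat_lit 116, nat_lit 114, nat_lit 110, nat_lit 5, nat_lit 125, nat_lit 121, nat_lit 3, nat_lit 1, nat_lit 102],
  .lev (nat_lit 590872834611255707134) [(nat_lit 104, nat_lit 590872834610183013888), (nat_lit 106, nat_lit 590872834611256753664), (nat_lit 102, nat_lit 590872833512817820159), (nat_lit 100, nat_lit 592025756115862553087), (nat_lit 5, nat_lit 592025756115862553088)] [nat_lit 112, nat_lit 120, nat_lit 124, nat_lit 110, nat_lit 113, nat_lit 111, nat_lit 117, nat_lit 121],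
  .lev (nat_lit 590872834611254658560) [(nat_lit 102, nat_lit 590873960511161500160), (nat_lit 7, nat_lit 590872834611255706113), (nat_lit 104, nat_lit 590872835710767333888), (nat_lit 112, nat_lit 592025756115862553088)] [nat_lit 4, nat_lit 120, nat_lit 116, nat_lit 2, nat_lit 110, nat_lit 0, nat_lit 117],
  .cnt (nat_lit 4),
  .lev (nat_lit 590872834611254658560) [(nat_lit 118, nat_lit 590872834612328398336), (nat_lit 112, nat_lit 592025756115862553087), (nat_lit 5, nat_lit 592025756115862553088), (nat_lit 102, nat_lit 590873960511162548736)] [nat_lit 120, nat_lit 114, nat_lit 110, nat_lit 121, nat_lit 115, nat_lit 111],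
  .cnt (nat_lit 3),
  .lev (nat_lit 590872834611256753664) [(nat_lit 114, nat_lit 590873960511161500160), (nat_lit 118, nat_lit 590871708712421556736), (nat_lit 116, nat_lit 590872833512817820159), (nat_lit 112, nat_lit 592025756115862553087), (nat_lit 5, nat_lit 592025756115862553088)] [nat_lit 120, nat_lit 110, nat_lit 121, nat_lit 111],
  .lev (nat_lit 590871709810860491264) [(nat_lit 11, nat_lit 590873960511162548735), (nat_lit 106, nat_lit 590872834612329447935), (nat_lit 58, nat_lit 592025756115862553088)] [nat_lit 116, nat_lit 114, nat_lit 124, nat_lit 100, nat_lit 102, nat_lit 0, nat_lit 88, nat_lit 119, nat_lit 113, nat_lit 117, nat_lit 105, nat_lit 77],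
  .lev (nat_lit 590873960510088807936) [(nat_lit 120, nat_lit 590872834611254658561), (nat_lit 3, nat_lit 590872835709693592064), (nat_lit 76, nat_lit 592025756115862553088), (nat_lit 72, nat_lit 590873960511162548736)] [nat_lit 118, nat_lit 124, nat_lit 104, nat_lit 90, nat_lit 119, nat_lit 115, nat_lit 125, nat_lit 105, nat_lit 103, nat_lit 91],
  .lev (nat_lit 590872835709694640639) [(nat_lit 5, nat_lit 592024630217028403712), (nat_lit 100, nat_lit 592025756115862553088), (nat_lit 90, nat_lit 590873960511162548736), (nat_lit 106, nat_lit 590872834612329447935), (nat_lit 84, nat_lit 590872835710767333888)] [nat_lit 118, nat_lit 112, nat_lit 124, nat_lit 2, nat_lit 104, nat_lit 0, nat_lit 119, nat_lit 113, nat_lit 125, nat_lit 116],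
  .lev (nat_lit 590872835709693592065) [(nat_lit 120, nat_lit 590872834611254658561), (nat_lit 112, nat_lit 592026880916257767936), (nat_lit 3, nat_lit 592025756115862553088), (nat_lit 98, nat_lit 590872834611256754688), (nat_lit 90, nat_lit 590873960511162548736)] [nat_lit 118, nat_lit 116, nat_lit 124, nat_lit 104, nat_lit 119, nat_lit 125, nat_lit 105],
  .lev (nat_lit 590873959412724661759) [(nat_lit 104, nat_lit 592026880916257767936), (nat_lit 102, nat_lit 590873960511162547712), (nat_lit 120, nat_lit 590871708711349912063), (nat_lit 3, nat_lit 592025756115862553088), (nat_lit 98, nat_lit 590872834612329447936)] [nat_lit 112, nat_lit 114, nat_lit 124, nat_lit 100, nat_lit 119, nat_lit 118, nat_lit 125],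
  .lev (nat_lit 589721039005481960960) [(nat_lit 7, nat_lit 590872834611255706113), (nat_lit 120, nat_lit 590872834611256754688), (nat_lit 116, nat_lit 590872835709693592064), (nat_lit 100, nat_lit 592025756115862553088), (nat_lit 90, nat_lit 590873960511162548736)] [nat_lit 124, nat_lit 2, nat_lit 114, nat_lit 0, nat_lit 119, nat_lit 118, nat_lit 115],
  .lev (nat_lit 590872834610183013887) [(nat_lit 116, nat_lit 589719914206160485888), (nat_lit 114, nat_lit 590873960511162547712), (nat_lit 106, nat_lit 589719912008210973184), (nat_lit 3, nat_lit 592025756115862553088), (nat_lit 110, nat_lit 590872834611256754688)] [nat_lit 112, nat_lit 124, nat_lit 119, nat_lit 125, nat_lit 118],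
  .lev (nat_lit 590872834611255707136) [(nat_lit 114, nat_lit 590873960511162548736), (nat_lit 112, nat_lit 592025756115862553088), (nat_lit 116, nat_lit 590872835710767333888), (nat_lit 106, nat_lit 590872834612329447936), (nat_lit 110, nat_lit 590872834611256754688)] [nat_lit 124, nat_lit 119, nat_lit 3, nat_lit 1, nat_lit 118],
  .cnt (nat_lit 4),
  .lev (nat_lit 592025755016350926336) [(nat_lit 118, nat_lit 592025755017424666112), (nat_lit 1, nat_lit 590873959411650920960), (nat_lit 88, nat_lit 592025756115862553088), (nat_lit 110, nat_lit 590872834611256754688)] [nat_lit 116, nat_lit 124, nat_lit 102, nat_lit 117, nat_lit 125, nat_lit 103],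
  .lev (nat_lit 590872834611256753664) [(nat_lit 118, nat_lit 590872834612328398336), (nat_lit 114, nat_lit 590873959411650920961), (nat_lit 5, nat_lit 590872834611255706113), (nat_lit 88, nat_lit 592025756115862553088)] [nat_lit 112, nat_lit 2, nat_lit 0, nat_lit 113, nat_lit 116],
  .lev (nat_lit 590873959411651969535) [(nat_lit 118, nat_lit 590872834612329445888), (nat_lit 112, nat_lit 592026880916257767936), (nat_lit 1, nat_lit 592025756115862553088), (nat_lit 110, nat_lit 590872834611256754688), (nat_lit 102, nat_lit 590873960511162548736)] [nat_lit 116, nat_lit 124, nat_lit 117, nat_lit 125],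
  .cnt (nat_lit 6),
  .cnt (nat_lit 6),
  .lev (nat_lit 589719913106649907711) [(nat_lit 118, nat_lit 589719913107721551361), (nat_lit 116, nat_lit 589719914206160485888), (nat_lit 1, nat_lit 592025756115862553088), (nat_lit 114, nat_lit 590873960511162548736), (nat_lit 110, nat_lit 590872834611256754688)] [nat_lit 112, nat_lit 124, nat_lit 125],
  .lev (nat_lit 590872834611255707136) [(nat_lit 118, nat_lit 590872834612329447936), (nat_lit 114, nat_lit 590873960511162548736), (nat_lit 112, nat_lit 592025756115862553088), (nat_lit 116, nat_lit 590872835710767333888), (nat_lit 110, nat_lit 590872834611256754688)] [nat_lit 125, nat_lit 1],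
  .lev (nat_lit 590872835710766285312) [(nat_lit 84, nat_lit 590871708711348863489), (nat_lit 1, nat_lit 592025756115862553088)] [nat_lit 114, nat_lit 100, nat_lit 117, nat_lit 105, nat_lit 93],
  .lev (nat_lit 590872834612329446911) [(nat_lit 7, nat_lit 590872834612328399360), (nat_lit 88, nat_lit 592025756115862553088), (nat_lit 72, nat_lit 590873960511162548736)] [nat_lit 0, nat_lit 118, nat_lit 116, nat_lit 106, nat_lit 102, nat_lit 119, nat_lit 117, nat_lit 115, nat_lit 107, nat_lit 103, nat_lit 91, nat_lit 79],
  .lev (nat_lit 590872833511745126912) [(nat_lit 124, nat_lit 590872834611255705089), (nat_lit 114, nat_lit 590873960510088807936), (nat_lit 1, nat_lit 590873960511161500160), (nat_lit 64, nat_lit 592025756115862553088)] [nat_lit 112, nat_lit 116, nat_lit 120, nat_lit 104, nat_lit 106, nat_lit 113, nat_lit 121, nat_lit 107, nat_lit 92],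
  .lev (nat_lit 590872833511745126912) [(nat_lit 114, nat_lit 590873960511162547712), (nat_lit 3, nat_lit 590872834612328399360), (nat_lit 112, nat_lit 592025756115862553088), (nat_lit 84, nat_lit 590872835710767333888)] [nat_lit 0, nat_lit 120, nat_lit 116, nat_lit 106, nat_lit 104, nat_lit 1, nat_lit 117, nat_lit 105, nat_lit 92],
  .lev (nat_lit 589721039005483008512) [(nat_lit 116, nat_lit 590872835709693592064), (nat_lit 124, nat_lit 592025756115861504513), (nat_lit 7, nat_lit 590872834611255706113), (nat_lit 90, nat_lit 590873960511161500160), (nat_lit 64, nat_lit 592025756115862553088)] [nat_lit 118, nat_lit 0, nat_lit 112, nat_lit 114, nat_lit 106, nat_lit 100, nat_lit 119, nat_lit 1, nat_lit 113, nat_lit 120],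
  .lev (nat_lit 589721039005483008512) [(nat_lit 116, nat_lit 589721037907044075008), (nat_lit 1, nat_lit 590872834611254657537), (nat_lit 100, nat_lit 592025756115862553088), (nat_lit 90, nat_lit 590873960511162548736), (nat_lit 98, nat_lit 590872834612329447936)] [nat_lit 118, nat_lit 120, nat_lit 114, nat_lit 106, nat_lit 119, nat_lit 115, nat_lit 107],
  .lev (nat_lit 590872834612328398336) [(nat_lit 114, nat_lit 590871708711348864512), (nat_lit 5, nat_lit 592025756115862553088), (nat_lit 116, nat_lit 590872835710767333888), (nat_lit 98, nat_lit 590872834612329447936)] [nat_lit 0, nat_lit 112, nat_lit 106, nat_lit 1, nat_lit 121, nat_lit 107, nat_lit 118],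
  .lev (nat_lit 590872833512816771585) [(nat_lit 114, nat_lit 590871708711348864512), (nat_lit 110, nat_lit 590872834611255705089), (nat_lit 1, nat_lit 590872835709693592064), (nat_lit 112, nat_lit 592025756115862553088), (nat_lit 104, nat_lit 590872835710767333888)] [nat_lit 118, nat_lit 120, nat_lit 119, nat_lit 121],
  .lev (nat_lit 590873960511162547712) [(nat_lit 110, nat_lit 590872835710766285312), (nat_lit 118, nat_lit 592025756114789859840), (nat_lit 92, nat_lit 592025756115861505536), (nat_lit 1, nat_lit 592025756115862553088)] [nat_lit 116, nat_lit 114, nat_lit 120, nat_lit 102, nat_lit 100, nat_lit 88, nat_lit 121],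
  .lev (nat_lit 592025755017423618560) [(nat_lit 106, nat_lit 590872834611256753664), (nat_lit 104, nat_lit 589719914206159438336), (nat_lit 5, nat_lit 590873959411650920960), (nat_lit 124, nat_lit 590872834611255706113), (nat_lit 88, nat_lit 592025756115862553088)] [nat_lit 0, nat_lit 116, nat_lit 114, nat_lit 102, nat_lit 1, nat_lit 103, nat_lit 121, nat_lit 117],
  .lev (nat_lit 588566993801063171584) [(nat_lit 124, nat_lit 590872834611255707135), (nat_lit 118, nat_lit 589719914205086745089), (nat_lit 114, nat_lit 590871709810859442689), (nat_lit 92, nat_lit 592025755016350926336), (nat_lit 1, nat_lit 590873959411650920960), (nat_lit 88, nat_lit 592025756115862553088)] [nat_lit 112, nat_lit 117, nat_lit 113, nat_lit 121, nat_lit 120],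
  .lev (nat_lit 590872832412234548734) [(nat_lit 114, nat_lit 590873960511162547712), (nat_lit 118, nat_lit 590871708712421556737), (nat_lit 3, nat_lit 590872833512817820160), (nat_lit 92, nat_lit 590872835710767333888), (nat_lit 112, nat_lit 592025756115862553088), (nat_lit 110, nat_lit 590872834611256754688)] [nat_lit 0, nat_lit 121, nat_lit 1, nat_lit 117, nat_lit 116],
  .lev (nat_lit 590873960511162547712) [(nat_lit 118, nat_lit 590871708712422604288), (nat_lit 3, nat_lit 592025756115862553088), (nat_lit 116, nat_lit 590872835710767333888), (nat_lit 110, nat_lit 590872834611256754688)] [nat_lit 0, nat_lit 114, nat_lit 100, nat_lit 1, nat_lit 120],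
  .lev (nat_lit 590873959411651969535) [(nat_lit 118, nat_lit 590872834612329445888), (nat_lit 1, nat_lit 590873959411650920960), (nat_lit 112, nat_lit 592025756115862553088), (nat_lit 102, nat_lit 590873960511162548736), (nat_lit 110, nat_lit 590872834611256754688)] [nat_lit 120, nat_lit 114, nat_lit 121, nat_lit 115],
  .lev (nat_lit 590872834610183013888) [(nat_lit 106, nat_lit 590872834611254658560), (nat_lit 114, nat_lit 590873960511162547712), (nat_lit 124, nat_lit 592025756115862553087), (nat_lit 5, nat_lit 592025756115862553088), (nat_lit 116, nat_lit 590872835710767333888)] [nat_lit 0, nat_lit 112, nat_lit 1, nat_lit 121],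
  .lev (nat_lit 590872834611253609986) [(nat_lit 118, nat_lit 590872834612329445888), (nat_lit 114, nat_lit 590873960511162547712), (nat_lit 1, nat_lit 590872834611254657537), (nat_lit 116, nat_lit 590872835710767333888), (nat_lit 112, nat_lit 592025756115862553088), (nat_lit 110, nat_lit 590872834611256754688)] [nat_lit 120, nat_lit 121],
  .cnt (nat_lit 4),
  .lev (nat_lit 590872835710766285312) [(nat_lit 124, nat_lit 590872834611255705089), (nat_lit 112, nat_lit 592026882015768347136), (nat_lit 1, nat_lit 592025756115862553088), (nat_lit 78, nat_lit 590873960511162548736)] [nat_lit 114, nat_lit 102, nat_lit 90, nat_lit 115, nat_lit 103, nat_lit 91],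
  .lev (nat_lit 590873959411650920961) [(nat_lit 3, nat_lit 590872834611255706113), (nat_lit 102, nat_lit 590873960510088806912), (nat_lit 120, nat_lit 590872834611256754688), (nat_lit 76, nat_lit 592025756115862553088)] [nat_lit 112, nat_lit 0, nat_lit 104, nat_lit 113, nat_lit 117, nat_lit 105, nat_lit 118],
  .lev (nat_lit 590871709809787798016) [(nat_lit 124, nat_lit 590872834611255707135), (nat_lit 102, nat_lit 590873960511162547712), (nat_lit 112, nat_lit 589719914206160485888), (nat_lit 1, nat_lit 592025756115862553088), (nat_lit 106, nat_lit 590872834612329447936)] [nat_lit 118, nat_lit 116, nat_lit 119, nat_lit 117],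
  .lev (nat_lit 589719914205086746112) [(nat_lit 124, nat_lit 590872834611255705089), (nat_lit 1, nat_lit 590873959411650920960), (nat_lit 120, nat_lit 590872834611256754688), (nat_lit 90, nat_lit 590872834612329447936), (nat_lit 88, nat_lit 592025756115862553088)] [nat_lit 112, nat_lit 119, nat_lit 115, nat_lit 101, nat_lit 118],
  .lev (nat_lit 590872834611255707134) [(nat_lit 120, nat_lit 590872834611254658561), (nat_lit 3, nat_lit 590872834611255706113), (nat_lit 104, nat_lit 590872834612329447936), (nat_lit 100, nat_lit 592025756115862553088), (nat_lit 102, nat_lit 590873960511162548736)] [nat_lit 0, nat_lit 114, nat_lit 119, nat_lit 115, nat_lit 118],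
  .lev (nat_lit 589719913107721552384) [(nat_lit 114, nat_lit 590871708711348864512), (nat_lit 124, nat_lit 590873960511162548735), (nat_lit 116, nat_lit 589719914206160485888), (nat_lit 1, nat_lit 592025756115862553088), (nat_lit 106, nat_lit 590872834612329447936)] [nat_lit 118, nat_lit 112, nat_lit 119],
  .lev (nat_lit 590872833512817820159) [(nat_lit 3, nat_lit 590872834611255706113), (nat_lit 114, nat_lit 590873960511162548736), (nat_lit 120, nat_lit 590872834611256754688), (nat_lit 112, nat_lit 592025756115862553088), (nat_lit 104, nat_lit 590872835710767333888)] [nat_lit 118, nat_lit 0, nat_lit 119],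
  .cnt (nat_lit 3),
  .lev (nat_lit 589719914206160485888) [(nat_lit 124, nat_lit 590872834611255705089), (nat_lit 118, nat_lit 592025755017424667135), (nat_lit 120, nat_lit 589721039005483008512), (nat_lit 1, nat_lit 590873959411650920960), (nat_lit 88, nat_lit 592025756115862553088)] [nat_lit 116, nat_lit 102, nat_lit 117, nat_lit 103],
  .lev (nat_lit 590872834611255707134) [(nat_lit 104, nat_lit 589721037907044075008), (nat_lit 3, nat_lit 590872834611255706113), (nat_lit 100, nat_lit 592025756115862553088), (nat_lit 102, nat_lit 590873960511162548736), (nat_lit 120, nat_lit 590872834611256754688)] [nat_lit 112, nat_lit 0, nat_lit 113, nat_lit 117],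
  .lev (nat_lit 590875084212046136832) [(nat_lit 118, nat_lit 590872834612329445888), (nat_lit 124, nat_lit 590872834611255705089), (nat_lit 112, nat_lit 592026880916257767936), (nat_lit 120, nat_lit 589719913106649906688), (nat_lit 1, nat_lit 592025756115862553088), (nat_lit 102, nat_lit 590873960511162548736)] [nat_lit 116, nat_lit 117],
  .lev (nat_lit 589719914206160485888) [(nat_lit 118, nat_lit 592025755017424666112), (nat_lit 124, nat_lit 590872834611255707135), (nat_lit 1, nat_lit 590873959411650920960), (nat_lit 120, nat_lit 590872834611256754688), (nat_lit 88, nat_lit 592025756115862553088)] [nat_lit 113, nat_lit 101],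
  .lev (nat_lit 590873959411650920961) [(nat_lit 118, nat_lit 590873959412724661759), (nat_lit 120, nat_lit 590872834611256753663), (nat_lit 112, nat_lit 592025756115862553087), (nat_lit 3, nat_lit 592025756115862553088), (nat_lit 102, nat_lit 590873960511162548736)] [nat_lit 0, nat_lit 114, nat_lit 115],
  .lev (nat_lit 593176425820655715840) [(nat_lit 118, nat_lit 590872834612329445888), (nat_lit 124, nat_lit 590872834611255705089), (nat_lit 116, nat_lit 592024631315467337216), (nat_lit 1, nat_lit 592024630215955710464), (nat_lit 120, nat_lit 590872834611256754688), (nat_lit 100, nat_lit 592025756115862553088)] [nat_lit 113],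
  .lev (nat_lit 590872834611255707136) [(nat_lit 118, nat_lit 590872834612329447936), (nat_lit 114, nat_lit 590873960511162548736), (nat_lit 120, nat_lit 590872834611256754688), (nat_lit 112, nat_lit 592025756115862553088), (nat_lit 116, nat_lit 590872835710767333888), (nat_lit 124, nat_lit 590872834611255706113)] [nat_lit 1]]

theorem gE7_1 : tE7.grp 1 cE7_1 = true := by decide +kernel

/-- certificates -/
def cE7_2 : List Ce := [
  .lev (nat_lit 590872833511745126912) [(nat_lit 112, nat_lit 592025756115862553087), (nat_lit 3, nat_lit 592025756115862553088)] [nat_lit 114, nat_lit 102, nat_lit 90, nat_lit 80, nat_lit 125],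
  .cnt (nat_lit 1),
  .cnt (nat_lit 2),
  .cnt (nat_lit 1),
  .cnt (nat_lit 1),
  .cnt (nat_lit 2),
  .cnt (nat_lit 1),
  .cnt (nat_lit 2),
  .spn (nat_lit 590872834611255706113),
  .cnt (nat_lit 1),
  .cnt (nat_lit 1),
  .cnt (nat_lit 1),
  .spn (nat_lit 590872834611255706113),
  .cnt (nat_lit 1),
  .cnt (nat_lit 1),
  .spn (nat_lit 590872834611256754688),
  .cnt (nat_lit 1),
  .cnt (nat_lit 2),
  .lev (nat_lit 592024630215956759039) [(nat_lit 116, nat_lit 590872835710766285312), (nat_lit 1, nat_lit 592024630215955710464), (nat_lit 100, nat_lit 592025756115862553088), (nat_lit 122, nat_lit 590872834611255707136), (nat_lit 118, nat_lit 590872834612329447936)] [nat_lit 124, nat_lit 114, nat_lit 115],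
  .spn (nat_lit 590872834611256754688),
  .cnt (nat_lit 1),
  .cnt (nat_lit 1),
  .cnt (nat_lit 2),
  .cnt (nat_lit 1),
  .cnt (nat_lit 2),
  .cnt (nat_lit 1),
  .cnt (nat_lit 1),
  .cnt (nat_lit 1),
  .lev (nat_lit 589721039006554654208) [(nat_lit 118, nat_lit 592024630217028403712), (nat_lit 116, nat_lit 590872835710766285312), (nat_lit 124, nat_lit 590872834611255705089), (nat_lit 1, nat_lit 592024630215955710464), (nat_lit 100, nat_lit 592025756115862553088)] [nat_lit 114, nat_lit 122, nat_lit 115],
  .cnt (nat_lit 1),
  .lev (nat_lit 590873960511162547712) [(nat_lit 1, nat_lit 592025756115862552064), (nat_lit 66, nat_lit 592025756115862553088), (nat_lit 124, nat_lit 590872834611255706113)] [nat_lit 113, nat_lit 101, nat_lit 89, nat_lit 77],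
  .cnt (nat_lit 1),
  .lev (nat_lit 590873958313213035008) [(nat_lit 1, nat_lit 590872835709693592064), (nat_lit 122, nat_lit 590872834611255707136), (nat_lit 124, nat_lit 590872834611255706113), (nat_lit 112, nat_lit 592025756115862553088), (nat_lit 90, nat_lit 590873960511162548736)] [nat_lit 118, nat_lit 104, nat_lit 119, nat_lit 105],
  .cnt (nat_lit 1),
  .cnt (nat_lit 1),
  .cnt (nat_lit 1),
  .cnt (nat_lit 1),
  .cnt (nat_lit 1),
  .lev (nat_lit 590872834611256754688) [(nat_lit 122, nat_lit 590872834611255707136), (nat_lit 112, nat_lit 592025756115862553088), (nat_lit 118, nat_lit 590872834612329447936), (nat_lit 124, nat_lit 590872834611255706113), (nat_lit 102, nat_lit 590873960511162548736)] [nat_lit 116, nat_lit 1, nat_lit 117],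
  .cnt (nat_lit 2),
  .lev (nat_lit 587414070097436213760) [(nat_lit 116, nat_lit 590872833511745126912), (nat_lit 124, nat_lit 589719913106649907711), (nat_lit 118, nat_lit 589719912008210973184), (nat_lit 114, nat_lit 590871708711348863489), (nat_lit 122, nat_lit 592025756115861505536), (nat_lit 1, nat_lit 592025756115862553088)] [nat_lit 112],
  .cnt (nat_lit 1)]

theorem gE7_2 : tE7.grp 2 cE7_2 = true := by decide +kernel

/-- certificates -/
def cE7_3 : List Ce := [
  .cnt (nat_lit 1),
  .cnt (nat_lit 3),
  .cnt (nat_lit 1),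
  .spn (nat_lit 590872834612329445888),
  .cnt (nat_lit 1),
  .spn (nat_lit 590872834612329445888),
  .cnt (nat_lit 1),
  .cnt (nat_lit 1),
  .cnt (nat_lit 1),
  .cnt (nat_lit 1),
  .cnt (nat_lit 1),
  .cnt (nat_lit 1),
  .cnt (nat_lit 1),
  .cnt (nat_lit 1),
  .cnt (nat_lit 1),
  .lev (nat_lit 590872834612329447936) [(nat_lit 112, nat_lit 592025756115862553088), (nat_lit 114, nat_lit 590873960511162548736), (nat_lit 122, nat_lit 590872834611255707136), (nat_lit 116, nat_lit 590872835710767333888), (nat_lit 110, nat_lit 590872834611256754688)] [nat_lit 125, nat_lit 1],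
  .cnt (nat_lit 3),
  .cnt (nat_lit 1),
  .spn (nat_lit 590872834612329445888),
  .cnt (nat_lit 1),
  .spn (nat_lit 590872834612329445888),
  .cnt (nat_lit 1),
  .spn (nat_lit 590872834612329445888),
  .spn (nat_lit 590872834612329445888),
  .lev (nat_lit 589719914207232131584) [(nat_lit 114, nat_lit 589721039005483008512), (nat_lit 124, nat_lit 589719914206160486911), (nat_lit 1, nat_lit 590873959411650920960), (nat_lit 122, nat_lit 590872834611255707136), (nat_lit 88, nat_lit 592025756115862553088)] [nat_lit 120, nat_lit 112, nat_lit 116],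
  .lev (nat_lit 590872832413307240959) [(nat_lit 3, nat_lit 590872834611256754687), (nat_lit 114, nat_lit 590873960511162548736), (nat_lit 112, nat_lit 592025756115862553088), (nat_lit 122, nat_lit 590872834611255707136), (nat_lit 110, nat_lit 590872834611256754688)] [nat_lit 116, nat_lit 0, nat_lit 120],
  .cnt (nat_lit 1),
  .cnt (nat_lit 1),
  .cnt (nat_lit 1),
  .cnt (nat_lit 1),
  .lev (nat_lit 592023505415560495616) [(nat_lit 1, nat_lit 590873959411650920960), (nat_lit 124, nat_lit 590872834611255706113), (nat_lit 122, nat_lit 590872834611255707136), (nat_lit 120, nat_lit 590872834611256754688), (nat_lit 88, nat_lit 592025756115862553088)] [nat_lit 113, nat_lit 101],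
  .cnt (nat_lit 1)]

theorem gE7_3 : tE7.grp 3 cE7_3 = true := by decide +kernel

/-- certificates -/
def cE7_4 : List Ce := [
  .lev (nat_lit 590872833511745126912) [(nat_lit 1, nat_lit 592024630215955710464), (nat_lit 100, nat_lit 592025756115862553088)] [nat_lit 124, nat_lit 110, nat_lit 98, nat_lit 86, nat_lit 115],
  .cnt (nat_lit 1),
  .cnt (nat_lit 2),
  .cnt (nat_lit 1),
  .cnt (nat_lit 1),
  .cnt (nat_lit 2),
  .cnt (nat_lit 1),
  .spn (nat_lit 592026880916257767936),
  .cnt (nat_lit 2),
  .lev (nat_lit 590872833511744079361) [(nat_lit 118, nat_lit 590872833512817820159), (nat_lit 120, nat_lit 590872835710766285312), (nat_lit 114, nat_lit 590871708711348864512), (nat_lit 112, nat_lit 592025756115862553087), (nat_lit 3, nat_lit 592025756115862553088)] [nat_lit 124, nat_lit 122, nat_lit 125],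
  .cnt (nat_lit 1),
  .cnt (nat_lit 1),
  .lev (nat_lit 590872835710767333888) [(nat_lit 112, nat_lit 592025756115862553088), (nat_lit 86, nat_lit 590872834612329447936), (nat_lit 114, nat_lit 590873960511162548736)] [nat_lit 125, nat_lit 111, nat_lit 99, nat_lit 1],
  .cnt (nat_lit 1),
  .cnt (nat_lit 1),
  .cnt (nat_lit 1),
  .cnt (nat_lit 1),
  .cnt (nat_lit 1),
  .lev (nat_lit 590873959411650920961) [(nat_lit 120, nat_lit 590872835710766285312), (nat_lit 112, nat_lit 592025756115862553087), (nat_lit 3, nat_lit 592025756115862553088), (nat_lit 122, nat_lit 590872834611255707136), (nat_lit 118, nat_lit 590872834612329447936)] [nat_lit 114, nat_lit 124, nat_lit 125],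
  .cnt (nat_lit 2),
  .cnt (nat_lit 1),
  .cnt (nat_lit 2),
  .cnt (nat_lit 1),
  .cnt (nat_lit 1),
  .cnt (nat_lit 1),
  .cnt (nat_lit 1),
  .cnt (nat_lit 1),
  .cnt (nat_lit 2),
  .cnt (nat_lit 1),
  .cnt (nat_lit 1),
  .spn (nat_lit 592026880916257767936),
  .cnt (nat_lit 1),
  .lev (nat_lit 590872834612327350785) [(nat_lit 112, nat_lit 592025756114789859840), (nat_lit 122, nat_lit 589719914206160485888), (nat_lit 114, nat_lit 590873960511162547712), (nat_lit 1, nat_lit 592025756115862553088), (nat_lit 98, nat_lit 590872834612329447936)] [nat_lit 118, nat_lit 106, nat_lit 119, nat_lit 107],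
  .cnt (nat_lit 2),
  .lev (nat_lit 589721039006554653185) [(nat_lit 122, nat_lit 592024631315467337216), (nat_lit 1, nat_lit 592024630215955710464), (nat_lit 118, nat_lit 590872834612329447936), (nat_lit 100, nat_lit 592025756115862553088), (nat_lit 110, nat_lit 590872834611256754688)] [nat_lit 120, nat_lit 113, nat_lit 121],
  .cnt (nat_lit 1),
  .spn (nat_lit 592026880916257767936),
  .cnt (nat_lit 1),
  .cnt (nat_lit 1),
  .spn (nat_lit 592026880916257767936),
  .cnt (nat_lit 1),
  .lev (nat_lit 590872835710767333885) [(nat_lit 120, nat_lit 590872833511745126912), (nat_lit 114, nat_lit 590871709810860491263), (nat_lit 118, nat_lit 590872833512817820159), (nat_lit 3, nat_lit 590872834611255706113), (nat_lit 122, nat_lit 590872834611255707136), (nat_lit 112, nat_lit 592025756115862553088)] [nat_lit 0]]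

theorem gE7_4 : tE7.grp 4 cE7_4 = true := by decide +kernel

/-- certificates -/
def cE7_5 : List Ce := [
  .spn (nat_lit 588568117501948854784),
  .spn (nat_lit 590872834611255707136),
  .spn (nat_lit 588568117501948854784),
  .lev (nat_lit 590872834611254658560) [(nat_lit 116, nat_lit 590872833512817820159), (nat_lit 112, nat_lit 592025756115862552065), (nat_lit 5, nat_lit 592025756115862553088), (nat_lit 62, nat_lit 590872835710767333888)] [nat_lit 120, nat_lit 106, nat_lit 98, nat_lit 96, nat_lit 86, nat_lit 125, nat_lit 121, nat_lit 111, nat_lit 99, nat_lit 87, nat_lit 118, nat_lit 108],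
  .spn (nat_lit 588568117501948854784),
  .lev (nat_lit 590872834610181965313) [(nat_lit 7, nat_lit 590872835709694640639), (nat_lit 112, nat_lit 592025756115862553088), (nat_lit 94, nat_lit 590872835710767333887), (nat_lit 96, nat_lit 590872834611255707136), (nat_lit 84, nat_lit 590872835710767333888)] [nat_lit 4, nat_lit 120, nat_lit 124, nat_lit 2, nat_lit 110, nat_lit 0, nat_lit 117, nat_lit 5, nat_lit 125, nat_lit 123, nat_lit 3, nat_lit 1],
  .cnt (nat_lit 3),
  .lev (nat_lit 590872834611256753663) [(nat_lit 118, nat_lit 590873960510088807936), (nat_lit 116, nat_lit 590871709810860491263), (nat_lit 112, nat_lit 592025756115862553087), (nat_lit 3, nat_lit 592025756115862553088), (nat_lit 96, nat_lit 590872834612329447936)] [nat_lit 124, nat_lit 122, nat_lit 110, nat_lit 125, nat_lit 123, nat_lit 120],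
  .spn (nat_lit 588568117501948854784),
  .lev (nat_lit 590873958314286774784) [(nat_lit 92, nat_lit 590872834612327350785), (nat_lit 112, nat_lit 589719914205086746112), (nat_lit 1, nat_lit 592025756115862553088), (nat_lit 84, nat_lit 590872834611256753664), (nat_lit 86, nat_lit 590872834611255706113), (nat_lit 70, nat_lit 590872835710767333888)] [nat_lit 116, nat_lit 122, nat_lit 104, nat_lit 125, nat_lit 123, nat_lit 109, nat_lit 95, nat_lit 124, nat_lit 105],
  .spn (nat_lit 588568117501948854784),
  .lev (nat_lit 590872833512816772607) [(nat_lit 5, nat_lit 590872834611255705089), (nat_lit 112, nat_lit 592025756115862553088), (nat_lit 104, nat_lit 590872835710767333888), (nat_lit 106, nat_lit 590872834612329447935), (nat_lit 86, nat_lit 590872834612329447936)] [nat_lit 2, nat_lit 124, nat_lit 118, nat_lit 0, nat_lit 108, nat_lit 125, nat_lit 119, nat_lit 122],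
  .cnt (nat_lit 4),
  .lev (nat_lit 590872835709693593087) [(nat_lit 120, nat_lit 590871708711349912063), (nat_lit 112, nat_lit 592025756115862553087), (nat_lit 104, nat_lit 590872833511745126912), (nat_lit 108, nat_lit 590872833512817820159), (nat_lit 3, nat_lit 592025756115862553088)] [nat_lit 124, nat_lit 116, nat_lit 125, nat_lit 117],
  .spn (nat_lit 588568117501948854784),
  .cnt (nat_lit 4),
  .spn (nat_lit 588568117501948854784),
  .lev (nat_lit 590872834610183012864) [(nat_lit 17, nat_lit 590872834612329446912), (nat_lit 96, nat_lit 590872835710767332864), (nat_lit 112, nat_lit 592025756115862553088), (nat_lit 74, nat_lit 590872835710767333888)] [nat_lit 10, nat_lit 116, nat_lit 118, nat_lit 120, nat_lit 124, nat_lit 6, nat_lit 104, nat_lit 106, nat_lit 110, nat_lit 119, nat_lit 105, nat_lit 107],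
  .spn (nat_lit 588568117501948854784),
  .lev (nat_lit 590873960510088806913) [(nat_lit 122, nat_lit 590872834611254658560), (nat_lit 116, nat_lit 590871709809786750464), (nat_lit 112, nat_lit 589719913107721552384), (nat_lit 86, nat_lit 592025756115862553087), (nat_lit 7, nat_lit 592025756115862553088)] [nat_lit 98, nat_lit 125, nat_lit 119, nat_lit 111, nat_lit 107, nat_lit 99, nat_lit 118, nat_lit 106],
  .spn (nat_lit 588568117501948854784),
  .lev (nat_lit 590873960511162548736) [(nat_lit 122, nat_lit 590872834611255707136), (nat_lit 112, nat_lit 592025756115862553088), (nat_lit 92, nat_lit 590872835710767333888), (nat_lit 98, nat_lit 590872834612329447936)] [nat_lit 116, nat_lit 117, nat_lit 121, nat_lit 3, nat_lit 111, nat_lit 1],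
  .cnt (nat_lit 4),
  .lev (nat_lit 590872834612328399359) [(nat_lit 122, nat_lit 590871708711348864512), (nat_lit 106, nat_lit 590871708711349912063), (nat_lit 116, nat_lit 590872833511745126912), (nat_lit 112, nat_lit 592025756115862553087), (nat_lit 3, nat_lit 592025756115862553088)] [nat_lit 124, nat_lit 120, nat_lit 125, nat_lit 121],
  .spn (nat_lit 588568117501948854784),
  .lev (nat_lit 590872835709694640639) [(nat_lit 110, nat_lit 590873960511162548735), (nat_lit 106, nat_lit 590872834610181965313), (nat_lit 112, nat_lit 589719914206160485888), (nat_lit 1, nat_lit 592025756115862553088), (nat_lit 94, nat_lit 590872835710767333888)] [nat_lit 116, nat_lit 118, nat_lit 104, nat_lit 125, nat_lit 117, nat_lit 105, nat_lit 124],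
  .spn (nat_lit 588568117501948854784),
  .lev (nat_lit 590872834610181965313) [(nat_lit 108, nat_lit 590871708711348864512), (nat_lit 112, nat_lit 592025756115862553087), (nat_lit 116, nat_lit 590872833512817820160), (nat_lit 120, nat_lit 590871708711349912064), (nat_lit 7, nat_lit 592025756115862553088)] [nat_lit 2, nat_lit 124, nat_lit 118, nat_lit 0, nat_lit 3, nat_lit 119],
  .cnt (nat_lit 4),
  .lev (nat_lit 590873959411651969535) [(nat_lit 122, nat_lit 590871708711348864512), (nat_lit 118, nat_lit 590871708712422604288), (nat_lit 112, nat_lit 589719912008210973184), (nat_lit 1, nat_lit 592025756115862553088), (nat_lit 110, nat_lit 590872834611256754688)] [nat_lit 124, nat_lit 116, nat_lit 125],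
  .cnt (nat_lit 6),
  .cnt (nat_lit 5),
  .spn (nat_lit 588568117501948854784),
  .lev (nat_lit 590873960510088806913) [(nat_lit 9, nat_lit 590872834611256754687), (nat_lit 84, nat_lit 590872834611255707135), (nat_lit 86, nat_lit 590872835710767332864), (nat_lit 112, nat_lit 592025756115862553088), (nat_lit 74, nat_lit 590872835710767333888)] [nat_lit 116, nat_lit 118, nat_lit 106, nat_lit 104, nat_lit 92, nat_lit 117, nat_lit 123, nat_lit 1, nat_lit 105, nat_lit 109, nat_lit 93, nat_lit 97],
  .spn (nat_lit 588568117501948854784),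
  .lev (nat_lit 590872835710766284289) [(nat_lit 98, nat_lit 590873960511162548735), (nat_lit 92, nat_lit 590872834612329446911), (nat_lit 94, nat_lit 590873960511162547712), (nat_lit 1, nat_lit 590873960511162548736), (nat_lit 112, nat_lit 592025756115862553088)] [nat_lit 120, nat_lit 122, nat_lit 106, nat_lit 121, nat_lit 119, nat_lit 109, nat_lit 107],
  .spn (nat_lit 588568117501948854784),
  .lev (nat_lit 590872834611254658561) [(nat_lit 3, nat_lit 590872835709693593088), (nat_lit 104, nat_lit 590872835710767333888), (nat_lit 110, nat_lit 590872834611255706113), (nat_lit 112, nat_lit 592025756115862553088), (nat_lit 96, nat_lit 590872834612329447936)] [nat_lit 116, nat_lit 0, nat_lit 122, nat_lit 121, nat_lit 117, nat_lit 1, nat_lit 123, nat_lit 120],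
  .spn (nat_lit 588568117501948854784),
  .lev (nat_lit 590873960511160453632) [(nat_lit 124, nat_lit 590873960511162548735), (nat_lit 118, nat_lit 590872834610181965313), (nat_lit 116, nat_lit 590873959412723614208), (nat_lit 1, nat_lit 590872834611256753664), (nat_lit 112, nat_lit 592025756115862553088), (nat_lit 96, nat_lit 590872834612329447936)] [nat_lit 122, nat_lit 123, nat_lit 120],
  .cnt (nat_lit 4),
  .lev (nat_lit 590873959411651968512) [(nat_lit 124, nat_lit 590873960511162548735), (nat_lit 92, nat_lit 590871708712422604288), (nat_lit 96, nat_lit 590873960511162547712), (nat_lit 112, nat_lit 589719912008210973184), (nat_lit 1, nat_lit 592025756115862553088)] [nat_lit 116, nat_lit 104, nat_lit 117, nat_lit 105],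
  .spn (nat_lit 588568117501948854784),
  .lev (nat_lit 590871708711348864512) [(nat_lit 3, nat_lit 590872834611255706113), (nat_lit 112, nat_lit 592025756115862553088), (nat_lit 120, nat_lit 590872834611256754688), (nat_lit 104, nat_lit 590872835710767333888)] [nat_lit 0, nat_lit 118, nat_lit 122, nat_lit 108, nat_lit 119],
  .cnt (nat_lit 3),
  .lev (nat_lit 590873958314286774784) [(nat_lit 124, nat_lit 590873960511162548735), (nat_lit 120, nat_lit 590872835709692544513), (nat_lit 112, nat_lit 589718787206743065088), (nat_lit 1, nat_lit 592025756115862553088), (nat_lit 104, nat_lit 590872835710767333888), (nat_lit 108, nat_lit 590872834612329447936)] [nat_lit 116, nat_lit 117],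
  .cnt (nat_lit 3),
  .cnt (nat_lit 3),
  .spn (nat_lit 588568117501948854784),
  .lev (nat_lit 590872834612327350785) [(nat_lit 122, nat_lit 590872833511744079361), (nat_lit 7, nat_lit 590872835710766285312), (nat_lit 112, nat_lit 592025756115862553088), (nat_lit 70, nat_lit 590872834611255707136), (nat_lit 84, nat_lit 590872835710767333888)] [nat_lit 116, nat_lit 118, nat_lit 0, nat_lit 106, nat_lit 104, nat_lit 92, nat_lit 119, nat_lit 107, nat_lit 105, nat_lit 93],
  .spn (nat_lit 588568117501948854784),
  .lev (nat_lit 590871708713494249984) [(nat_lit 124, nat_lit 590871708711348863489), (nat_lit 122, nat_lit 590871709810859443712), (nat_lit 1, nat_lit 590872834612328399360), (nat_lit 112, nat_lit 592025756115862553088), (nat_lit 96, nat_lit 590872834611255707136), (nat_lit 92, nat_lit 590872835710767333888)] [nat_lit 120, nat_lit 118, nat_lit 106, nat_lit 121, nat_lit 107],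
  .spn (nat_lit 588568117501948854784),
  .lev (nat_lit 590873958314284679682) [(nat_lit 122, nat_lit 590873960511162547712), (nat_lit 3, nat_lit 590872835709694640639), (nat_lit 106, nat_lit 590872835709693592064), (nat_lit 104, nat_lit 590872835710767333888), (nat_lit 110, nat_lit 590872834611256754688), (nat_lit 112, nat_lit 592025756115862553088)] [nat_lit 116, nat_lit 0, nat_lit 121, nat_lit 1],
  .cnt (nat_lit 5),
  .lev (nat_lit 590873960511160451586) [(nat_lit 122, nat_lit 590873960511162547712), (nat_lit 118, nat_lit 590871708712422604288), (nat_lit 110, nat_lit 590873960511162548735), (nat_lit 116, nat_lit 590872835710766285312), (nat_lit 1, nat_lit 590873960511162548736), (nat_lit 112, nat_lit 592025756115862553088)] [nat_lit 120, nat_lit 121],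
  .cnt (nat_lit 4),
  .lev (nat_lit 590873960510088807936) [(nat_lit 124, nat_lit 590873960511162548735), (nat_lit 120, nat_lit 590873961610673126912), (nat_lit 112, nat_lit 589719914206160485888), (nat_lit 1, nat_lit 592025756115862553088), (nat_lit 94, nat_lit 590872835710767333888)] [nat_lit 118, nat_lit 104, nat_lit 117, nat_lit 105],
  .spn (nat_lit 588568117501948854784),
  .lev (nat_lit 590873960511162548736) [(nat_lit 122, nat_lit 590872834611255707136), (nat_lit 124, nat_lit 590872834611255706113), (nat_lit 112, nat_lit 592025756115862553088), (nat_lit 116, nat_lit 590872835709694640640), (nat_lit 106, nat_lit 590872834611256754688), (nat_lit 104, nat_lit 590872835710767333888)] [nat_lit 118, nat_lit 1, nat_lit 119],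
  .cnt (nat_lit 11),
  .lev (nat_lit 590871706514473091584) [(nat_lit 124, nat_lit 590871708711348863489), (nat_lit 122, nat_lit 590872834611255707135), (nat_lit 120, nat_lit 590872833512816772608), (nat_lit 112, nat_lit 589719913106649906688), (nat_lit 1, nat_lit 592025756115862553088), (nat_lit 104, nat_lit 590872835710767333888)] [nat_lit 117],
  .spn (nat_lit 588568117501948854784),
  .lev (nat_lit 590873960511162548734) [(nat_lit 118, nat_lit 590870582812515762688), (nat_lit 122, nat_lit 590873960511162547712), (nat_lit 3, nat_lit 590872834611255706113), (nat_lit 112, nat_lit 592025756115862553088), (nat_lit 120, nat_lit 590872834611256754688), (nat_lit 116, nat_lit 590872835710767333888)] [nat_lit 0]]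

theorem gE7_5 : tE7.grp 5 cE7_5 = true := by decide +kernel

end

end Pool.Agent.P.Bf04.X
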