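import Pool.Agent.P.MP_bf0464_al.H.YT

/-! Certificates. -/

namespace Pool.Agent.P.Bf04.X

noncomputable section

/-- certificates -/
def cE8_8 : List Ce := [
  .spn (nat_lit 605053782641925843059201),
  .lev (nat_lit 605054935563430449905152) [(nat_lit 94, nat_lit 605054934437530543063552), (nat_lit 36, nat_lit 606234374262643254362624)] [nat_lit 238, nat_lit 234, nat_lit 228, nat_lit 226, nat_lit 218, nat_lit 214, nat_lit 206, nat_lit 202, nat_lit 200, nat_lit 190, nat_lit 188, nat_lit 178, nat_lit 176, nat_lit 170, nat_lit 164, nat_lit 158, nat_lit 152, nat_lit 150, nat_lit 142, nat_lit 136, nat_lit 130, nat_lit 124, nat_lit 112, nat_lit 108, nat_lit 100, nat_lit 90, nat_lit 54, nat_lit 239, nat_lit 235, nat_lit 229, nat_lit 227, nat_lit 219, nat_lit 215, nat_lit 207, nat_lit 203, nat_lit 201, nat_lit 191, nat_lit 189, nat_lit 179, nat_lit 177, nat_lit 171, nat_lit 165, nat_lit 159, nat_lit 153, nat_lit 151, nat_lit 143, nat_lit 137, nat_lit 131, nat_lit 125, nat_lit 113, nat_lit 109, nat_lit 101, nat_lit 91, nat_lit 55],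
  .lev (nat_lit 605052630846321144102399) [(nat_lit 182, nat_lit 605054935563429376165376), (nat_lit 146, nat_lit 605054935562330938278401), (nat_lit 128, nat_lit 605054935563430449906175), (nat_lit 112, nat_lit 606234374262643253315072), (nat_lit 108, nat_lit 605053783767825749900800), (nat_lit 96, nat_lit 606234374262643254362624), (nat_lit 80, nat_lit 605054935563430449906176)] [nat_lit 238, nat_lit 236, nat_lit 234, nat_lit 228, nat_lit 222, nat_lit 216, nat_lit 214, nat_lit 206, nat_lit 204, nat_lit 190, nat_lit 180, nat_lit 178, nat_lit 164, nat_lit 152, nat_lit 144, nat_lit 136, nat_lit 126, nat_lit 237, nat_lit 235, nat_lit 229, nat_lit 221, nat_lit 219, nat_lit 207, nat_lit 203, nat_lit 195, nat_lit 191, nat_lit 189, nat_lit 181, nat_lit 177, nat_lit 175, nat_lit 161, nat_lit 153, nat_lit 151, nat_lit 139, nat_lit 137, nat_lit 127, nat_lit 230, nat_lit 224, nat_lit 200, nat_lit 192, nat_lit 188, nat_lit 160, nat_lit 150, nat_lit 225, nat_lit 223, nat_lit 165, nat_lit 232],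
  .lev (nat_lit 605054935563430449905152) [(nat_lit 224, nat_lit 606234374262643254362624), (nat_lit 124, nat_lit 605053782641925844106752), (nat_lit 122, nat_lit 605053782641925843059201), (nat_lit 118, nat_lit 605054935563430449906176)] [nat_lit 238, nat_lit 234, nat_lit 222, nat_lit 218, nat_lit 208, nat_lit 206, nat_lit 194, nat_lit 192, nat_lit 180, nat_lit 166, nat_lit 152, nat_lit 138, nat_lit 239, nat_lit 235, nat_lit 223, nat_lit 219, nat_lit 209, nat_lit 207, nat_lit 195, nat_lit 193, nat_lit 181, nat_lit 167, nat_lit 153, nat_lit 139],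
  .lev (nat_lit 605053783767825748853248) [(nat_lit 178, nat_lit 605054935562332010971648), (nat_lit 170, nat_lit 605053783767825749900800), (nat_lit 160, nat_lit 605054935563430448857600), (nat_lit 132, nat_lit 605053782641926915751424), (nat_lit 122, nat_lit 605053782641925843059201), (nat_lit 116, nat_lit 606234374262643254362624)] [nat_lit 234, nat_lit 232, nat_lit 230, nat_lit 216, nat_lit 208, nat_lit 202, nat_lit 192, nat_lit 190, nat_lit 180, nat_lit 176, nat_lit 166, nat_lit 237, nat_lit 235, nat_lit 233, nat_lit 221, nat_lit 211, nat_lit 209, nat_lit 207, nat_lit 195, nat_lit 191, nat_lit 181, nat_lit 177, nat_lit 167, nat_lit 236, nat_lit 224, nat_lit 222, nat_lit 218, nat_lit 210, nat_lit 206, nat_lit 194, nat_lit 231, nat_lit 227, nat_lit 223, nat_lit 219, nat_lit 205, nat_lit 203, nat_lit 193, nat_lit 238, nat_lit 226, nat_lit 204, nat_lit 239, nat_lit 225],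
  .lev (nat_lit 605052629720421236212225) [(nat_lit 224, nat_lit 606234374262643254362624), (nat_lit 188, nat_lit 605053782643025353638400), (nat_lit 186, nat_lit 605053783767825749901823), (nat_lit 162, nat_lit 605053782641925842011648), (nat_lit 90, nat_lit 605054935563430449906176)] [nat_lit 238, nat_lit 234, nat_lit 222, nat_lit 218, nat_lit 208, nat_lit 206, nat_lit 202, nat_lit 194, nat_lit 192, nat_lit 190, nat_lit 180, nat_lit 176, nat_lit 166, nat_lit 152, nat_lit 239, nat_lit 237, nat_lit 223, nat_lit 221, nat_lit 209, nat_lit 207, nat_lit 205, nat_lit 195, nat_lit 193, nat_lit 191, nat_lit 181, nat_lit 177, nat_lit 167, nat_lit 153, nat_lit 226],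
  .cnt (nat_lit 2),
  .cnt (nat_lit 3),
  .ext,
  .lev (nat_lit 603874345064215973725697) [(nat_lit 210, nat_lit 603873191021208431755776), (nat_lit 170, nat_lit 605052629721520746791424), (nat_lit 172, nat_lit 605052629720421236212224), (nat_lit 174, nat_lit 605053781517125447843328), (nat_lit 176, nat_lit 605053782643025354686975), (nat_lit 178, nat_lit 605053781516025936216576), (nat_lit 180, nat_lit 605053782641925843059199)] [nat_lit 195, nat_lit 209, nat_lit 207, nat_lit 233, nat_lit 229, nat_lit 234, nat_lit 236, nat_lit 206, nat_lit 208, nat_lit 194, nat_lit 239, nat_lit 237, nat_lit 235, nat_lit 227, nat_lit 226, nat_lit 238, nat_lit 232, nat_lit 228, nat_lit 938769565856178056768143, nat_lit 223, nat_lit 219, nat_lit 213, nat_lit 673317174172744328195277, nat_lit 218, nat_lit 220, nat_lit 222],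
  .cnt (nat_lit 2),
  .cnt (nat_lit 3),
  .cnt (nat_lit 2),
  .cnt (nat_lit 2),
  .cnt (nat_lit 3),
  .cnt (nat_lit 3),
  .lev (nat_lit 603874343941613528023552) [(nat_lit 220, nat_lit 605053782643024280945152), (nat_lit 190, nat_lit 605053783767824676160000), (nat_lit 184, nat_lit 605053783767825748853248), (nat_lit 178, nat_lit 606234374262643253314048), (nat_lit 154, nat_lit 606234374262643254362623), (nat_lit 132, nat_lit 606234374262643254362624)] [nat_lit 230, nat_lit 228, nat_lit 226, nat_lit 224, nat_lit 222, nat_lit 214, nat_lit 212, nat_lit 210, nat_lit 198, nat_lit 196, nat_lit 182, nat_lit 239, nat_lit 231, nat_lit 229, nat_lit 227, nat_lit 215, nat_lit 213, nat_lit 211, nat_lit 199, nat_lit 183, nat_lit 238, nat_lit 234, nat_lit 237, nat_lit 225],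
  .ext,
  .ext,
  .ext,
  .cnt (nat_lit 2),
  .cnt (nat_lit 3),
  .cnt (nat_lit 3),
  .cnt (nat_lit 3),
  .cnt (nat_lit 2),
  .cnt (nat_lit 2),
  .cnt (nat_lit 2),
  .cnt (nat_lit 2),
  .cnt (nat_lit 3),
  .cnt (nat_lit 3),
  .cnt (nat_lit 3),
  .cnt (nat_lit 3),
  .lev (nat_lit 606233221342237085402624) [(nat_lit 206, nat_lit 605052630845221632475648), (nat_lit 202, nat_lit 606234374262643253315072), (nat_lit 166, nat_lit 605054935563430448857600), (nat_lit 148, nat_lit 606234374262643254362623), (nat_lit 146, nat_lit 606234374262643254362624), (nat_lit 118, nat_lit 605054935563430449906176)] [nat_lit 232, nat_lit 230, nat_lit 212, nat_lit 210, nat_lit 204, nat_lit 184, nat_lit 182, nat_lit 156, nat_lit 233, nat_lit 231, nat_lit 229, nat_lit 227, nat_lit 225, nat_lit 213, nat_lit 211, nat_lit 205, nat_lit 201, nat_lit 197, nat_lit 185, nat_lit 169, nat_lit 236, nat_lit 224, nat_lit 214, nat_lit 198, nat_lit 188, nat_lit 172, nat_lit 168, nat_lit 221, nat_lit 217, nat_lit 199, nat_lit 173, nat_lit 238, nat_lit 228, nat_lit 216, nat_lit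 239, nat_lit 220],
  .lev (nat_lit 606234373136743347521024) [(nat_lit 234, nat_lit 605053782641926915751424), (nat_lit 196, nat_lit 606234374262643254362624), (nat_lit 192, nat_lit 605053782641925844106752), (nat_lit 150, nat_lit 605054935564528887791105), (nat_lit 136, nat_lit 605054935563430449905152), (nat_lit 134, nat_lit 605053782641925843059201), (nat_lit 130, nat_lit 605054935563430449906176)] [nat_lit 236, nat_lit 232, nat_lit 226, nat_lit 214, nat_lit 212, nat_lit 200, nat_lit 188, nat_lit 184, nat_lit 172, nat_lit 227, nat_lit 221, nat_lit 215, nat_lit 213, nat_lit 201, nat_lit 199, nat_lit 189, nat_lit 185, nat_lit 173, nat_lit 238, nat_lit 230, nat_lit 228, nat_lit 220, nat_lit 216, nat_lit 204, nat_lit 231, nat_lit 229, nat_lit 217, nat_lit 239, nat_lit 233],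
  .lev (nat_lit 606234373137840712713729) [(nat_lit 208, nat_lit 605053783766727312014848), (nat_lit 206, nat_lit 605054935562330939326977), (nat_lit 202, nat_lit 606234374262643255410176), (nat_lit 198, nat_lit 605053783767825749900800), (nat_lit 174, nat_lit 605053782641925844107775), (nat_lit 156, nat_lit 606234374262643254362624), (nat_lit 136, nat_lit 605053783767825749901824)] [nat_lit 228, nat_lit 224, nat_lit 214, nat_lit 204, nat_lit 200, nat_lit 233, nat_lit 229, nat_lit 225, nat_lit 221, nat_lit 217, nat_lit 215, nat_lit 205, nat_lit 201, nat_lit 236, nat_lit 232, nat_lit 230, nat_lit 220, nat_lit 216, nat_lit 188, nat_lit 239, nat_lit 237, nat_lit 231, nat_lit 189],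
  .lev (nat_lit 605053783767824676161024) [(nat_lit 224, nat_lit 606234374262643254362624), (nat_lit 222, nat_lit 605054935562330939326976), (nat_lit 190, nat_lit 605053782641925843060223), (nat_lit 186, nat_lit 605053782641925844106752), (nat_lit 184, nat_lit 605054935563430449906176), (nat_lit 150, nat_lit 605053783767825749901824)] [nat_lit 230, nat_lit 228, nat_lit 216, nat_lit 188, nat_lit 237, nat_lit 233, nat_lit 231, nat_lit 229, nat_lit 221, nat_lit 217, nat_lit 215, nat_lit 205, nat_lit 189, nat_lit 238, nat_lit 236, nat_lit 232, nat_lit 204, nat_lit 239, nat_lit 220, nat_lit 201],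
  .cnt (nat_lit 2),
  .lev (nat_lit 606233222465939042731520) [(nat_lit 234, nat_lit 605053782643024281993727), (nat_lit 222, nat_lit 605053782641925842011648), (nat_lit 212, nat_lit 606233221341138647515648), (nat_lit 210, nat_lit 606234374262643254362624), (nat_lit 200, nat_lit 605053783767825749901824), (nat_lit 180, nat_lit 605053782641925843059201), (nat_lit 176, nat_lit 605053782643025354686976)] [nat_lit 238, nat_lit 236, nat_lit 230, nat_lit 226, nat_lit 239, nat_lit 237, nat_lit 233, nat_lit 231, nat_lit 221, nat_lit 205, nat_lit 232, nat_lit 220, nat_lit 204, nat_lit 217, nat_lit 227],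
  .cnt (nat_lit 3),
  .cnt (nat_lit 3),
  .cnt (nat_lit 2),
  .cnt (nat_lit 2),
  .cnt (nat_lit 2),
  .cnt (nat_lit 2),
  .cnt (nat_lit 2),
  .cnt (nat_lit 3),
  .cnt (nat_lit 3),
  .cnt (nat_lit 4),
  .cnt (nat_lit 2),
  .cnt (nat_lit 2),
  .cnt (nat_lit 2),
  .cnt (nat_lit 2),
  .cnt (nat_lit 2),
  .cnt (nat_lit 2),
  .cnt (nat_lit 2),
  .cnt (nat_lit 2),
  .cnt (nat_lit 2),
  .cnt (nat_lit 2),
  .cnt (nat_lit 3),
  .cnt (nat_lit 2),
  .cnt (nat_lit 2),
  .cnt (nat_lit 4),
  .cnt (nat_lit 2),
  .cnt (nat_lit 2),
  .lev (nat_lit 605051477923718098321920) [(nat_lit 190, nat_lit 605054935562330938278401), (nat_lit 180, nat_lit 605054935563430449905152), (nat_lit 128, nat_lit 605054935563430449906175), (nat_lit 108, nat_lit 605053782640826332480000), (nat_lit 100, nat_lit 605053781517125447844352), (nat_lit 98, nat_lit 606234374262643254362623), (nat_lit 84, nat_lit 606234374262643254362624)] [nat_lit 238, nat_lit 230, nat_lit 226, nat_lit 222, nat_lit 210, nat_lit 208, nat_lit 202, nat_lit 198, nat_lit 192, nat_lit 186, nat_lit 182, nat_lit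 178, nat_lit 170, nat_lit 162, nat_lit 146, nat_lit 239, nat_lit 233, nat_lit 229, nat_lit 227, nat_lit 225, nat_lit 219, nat_lit 217, nat_lit 215, nat_lit 213, nat_lit 211, nat_lit 209, nat_lit 203, nat_lit 201, nat_lit 197, nat_lit 187, nat_lit 185, nat_lit 183, nat_lit 171, nat_lit 169, nat_lit 155, nat_lit 147, nat_lit 232, nat_lit 224, nat_lit 216, nat_lit 214, nat_lit 212, nat_lit 200, nat_lit 184, nat_lit 168, nat_lit 235, nat_lit 231, nat_lit 199, nat_lit 179, nat_lit 163],
  .lev (nat_lit 606232069545535019155969) [(nat_lit 236, nat_lit 603874343941614601763327), (nat_lit 196, nat_lit 605053783766727312014847), (nat_lit 176, nat_lit 606234374262643254363647), (nat_lit 146, nat_lit 606234374262643254362624), (nat_lit 138, nat_lit 605054935563430449906175), (nat_lit 134, nat_lit 605053782643024280945152), (nat_lit 76, nat_lit 605054935563430449906176)] [nat_lit 238, nat_lit 234, nat_lit 232, nat_lit 228, nat_lit 222, nat_lit 218, nat_lit 212, nat_lit 208, nat_lit 200, nat_lit 192, nat_lit 170, nat_lit 239, nat_lit 235, nat_lit 231,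 nat_lit 229, nat_lit 223, nat_lit 217, nat_lit 215, nat_lit 213, nat_lit 203, nat_lit 201, nat_lit 199, nat_lit 193, nat_lit 187, nat_lit 185, nat_lit 179, nat_lit 171, nat_lit 163, nat_lit 230, nat_lit 216, nat_lit 202, nat_lit 186, nat_lit 184, nat_lit 178, nat_lit 162],
  .lev (nat_lit 605053782643024280945153) [(nat_lit 226, nat_lit 606233221341138647515648), (nat_lit 196, nat_lit 606234374262643254362624), (nat_lit 174, nat_lit 605053782641926916798976), (nat_lit 166, nat_lit 605053783767825749900800), (nat_lit 150, nat_lit 605053782641925844106751), (nat_lit 144, nat_lit 605053783767825749901823), (nat_lit 138, nat_lit 605053783767825749901824)] [nat_lit 234, nat_lit 232, nat_lit 228, nat_lit 224, nat_lit 222, nat_lit 208, nat_lit 202, nat_lit 200, nat_lit 192, nat_lit 186, nat_lit 178, nat_lit 239, nat_lit 235, nat_lit 229, nat_lit 219, nat_lit 217, nat_lit 215, nat_lit 209, nat_lit 193, nat_lit 187, nat_lit 238, nat_lit 230, nat_lit 216, nat_lit 214, nat_lit 233],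
  .cnt (nat_lit 5),
  .cnt (nat_lit 2),
  .cnt (nat_lit 2),
  .cnt (nat_lit 2),
  .cnt (nat_lit 8),
  .cnt (nat_lit 2),
  .cnt (nat_lit 2),
  .cnt (nat_lit 2),
  .cnt (nat_lit 2),
  .cnt (nat_lit 2),
  .cnt (nat_lit 2),
  .cnt (nat_lit 2),
  .cnt (nat_lit 2),
  .cnt (nat_lit 3),
  .cnt (nat_lit 3),
  .cnt (nat_lit 4),
  .cnt (nat_lit 2),
  .cnt (nat_lit 2),
  .cnt (nat_lit 2),
  .cnt (nat_lit 2),
  .cnt (nat_lit 2),
  .cnt (nat_lit 2),
  .cnt (nat_lit 2),
  .cnt (nat_lit 2),
  .cnt (nat_lit 2),
  .cnt (nat_lit 2),
  .cnt (nat_lit 3),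
  .cnt (nat_lit 2),
  .cnt (nat_lit 2),
  .cnt (nat_lit 2),
  .cnt (nat_lit 2),
  .cnt (nat_lit 3),
  .cnt (nat_lit 2),
  .cnt (nat_lit 3),
  .cnt (nat_lit 3),
  .cnt (nat_lit 2),
  .cnt (nat_lit 11),
  .cnt (nat_lit 3),
  .cnt (nat_lit 3),
  .cnt (nat_lit 3),
  .cnt (nat_lit 3),
  .cnt (nat_lit 3),
  .cnt (nat_lit 3),
  .cnt (nat_lit 3),
  .cnt (nat_lit 3),
  .cnt (nat_lit 2),
  .cnt (nat_lit 2),
  .cnt (nat_lit 3),
  .cnt (nat_lit 2),
  .cnt (nat_lit 3),
  .cnt (nat_lit 3),
  .cnt (nat_lit 2),
  .cnt (nat_lit 2),
  .cnt (nat_lit 3),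
  .cnt (nat_lit 3),
  .cnt (nat_lit 3),
  .cnt (nat_lit 3),
  .cnt (nat_lit 3),
  .cnt (nat_lit 3),
  .cnt (nat_lit 3),
  .cnt (nat_lit 3),
  .lev (nat_lit 605053783767824676160001) [(nat_lit 126, nat_lit 605053783767825748853248), (nat_lit 106, nat_lit 605053783767824677208575), (nat_lit 80, nat_lit 606234374262643254362623), (nat_lit 64, nat_lit 605054935563430449906175), (nat_lit 60, nat_lit 606234374262643254362624)] [nat_lit 236, nat_lit 234, nat_lit 228, nat_lit 224, nat_lit 220, nat_lit 216, nat_lit 214, nat_lit 206, nat_lit 204, nat_lit 202, nat_lit 196, nat_lit 190, nat_lit 188, nat_lit 186, nat_lit 182, nat_lit 174, nat_lit 172, nat_lit 160, nat_lit 158, nat_lit 144, nat_lit 142, nat_lit 128, nat_lit 118, nat_lit 92, nat_lit 237, nat_lit 235, nat_lit 233, nat_lit 229, nat_lit 227, nat_lit 225, nat_lit 221, nat_lit 219, nat_lit 217, nat_lit 215, nat_lit 213, nat_lit 207, nat_lit 205, nat_lit 203, nat_lit 197, nat_lit 191, nat_lit 189, nat_lit 187, nat_lit 185, nat_lit 183, nat_lit 173, nat_lit 171, nat_lit 161, nat_lit 159, nat_lit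 157, nat_lit 155, nat_lit 145, nat_lit 129, nat_lit 119, nat_lit 117, nat_lit 93, nat_lit 232, nat_lit 230, nat_lit 226, nat_lit 184],
  .lev (nat_lit 605053781516027009958399) [(nat_lit 210, nat_lit 605052629720422308905472), (nat_lit 138, nat_lit 605054935563430449905152), (nat_lit 122, nat_lit 605053782641925843059201), (nat_lit 104, nat_lit 606234374262643254362624)] [nat_lit 234, nat_lit 230, nat_lit 218, nat_lit 216, nat_lit 214, nat_lit 206, nat_lit 204, nat_lit 200, nat_lit 198, nat_lit 188, nat_lit 184, nat_lit 172, nat_lit 144, nat_lit 130, nat_lit 118, nat_lit 235, nat_lit 231, nat_lit 229, nat_lit 219, nat_lit 217, nat_lit 215, nat_lit 207, nat_lit 205, nat_lit 201, nat_lit 199, nat_lit 189, nat_lit 187, nat_lit 185, nat_lit 175, nat_lit 173, nat_lit 161, nat_lit 145, nat_lit 131, nat_lit 119, nat_lit 228, nat_lit 226, nat_lit 186, nat_lit 174, nat_lit 160, nat_lit 227],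
  .lev (nat_lit 605054934436432105177600) [(nat_lit 196, nat_lit 605053783766726238274049), (nat_lit 180, nat_lit 605053782641926915751424), (nat_lit 172, nat_lit 605053782641925843060223), (nat_lit 170, nat_lit 606233221341138647515648), (nat_lit 154, nat_lit 606234374262643254362624), (nat_lit 114, nat_lit 605053783767825749901824)] [nat_lit 234, nat_lit 232, nat_lit 230, nat_lit 228, nat_lit 224, nat_lit 216, nat_lit 202, nat_lit 200, nat_lit 190, nat_lit 176, nat_lit 160, nat_lit 144, nat_lit 235, nat_lit 233, nat_lit 231, nat_lit 229, nat_lit 225, nat_lit 221, nat_lit 217, nat_lit 205, nat_lit 203, nat_lit 201, nat_lit 191, nat_lit 189, nat_lit 177, nat_lit 161, nat_lit 145, nat_lit 220, nat_lit 204, nat_lit 188],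
  .lev (nat_lit 605054935562330938278401) [(nat_lit 224, nat_lit 606234374262643254362624), (nat_lit 184, nat_lit 605053782643025354685952), (nat_lit 164, nat_lit 605052630846321143054848), (nat_lit 158, nat_lit 605054935563430449906176), (nat_lit 152, nat_lit 605053782643025354686976)] [nat_lit 236, nat_lit 234, nat_lit 228, nat_lit 214, nat_lit 206, nat_lit 190, nat_lit 188, nat_lit 174, nat_lit 237, nat_lit 235, nat_lit 233, nat_lit 229, nat_lit 217, nat_lit 215, nat_lit 207, nat_lit 201, nat_lit 191, nat_lit 189, nat_lit 175, nat_lit 232, nat_lit 216, nat_lit 200],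
  .lev (nat_lit 605053782643024279897601) [(nat_lit 212, nat_lit 603874343942713038602752), (nat_lit 194, nat_lit 605053782643024280945152), (nat_lit 192, nat_lit 605053782641925843059201), (nat_lit 168, nat_lit 605053783767825749900800), (nat_lit 144, nat_lit 606234374262643254361600), (nat_lit 140, nat_lit 606234374262643254362624)] [nat_lit 234, nat_lit 232, nat_lit 226, nat_lit 224, nat_lit 220, nat_lit 210, nat_lit 206, nat_lit 204, nat_lit 202, nat_lit 190, nat_lit 176, nat_lit 237, nat_lit 235, nat_lit 233, nat_lit 231, nat_lit 227, nat_lit 225, nat_lit 221, nat_lit 217, nat_lit 211, nat_lit 207, nat_lit 205, nat_lit 203, nat_lit 177, nat_lit 236, nat_lit 230],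
  .lev (nat_lit 605053782641926916798976) [(nat_lit 238, nat_lit 605053782641925844106751), (nat_lit 228, nat_lit 606233222465939042731520), (nat_lit 212, nat_lit 605053781516027008909824), (nat_lit 210, nat_lit 606234374262643254362624), (nat_lit 152, nat_lit 605053782641925843059201), (nat_lit 144, nat_lit 605054935563430449905152), (nat_lit 142, nat_lit 605054935563430449906176)] [nat_lit 234, nat_lit 226, nat_lit 218, nat_lit 206, nat_lit 235, nat_lit 233, nat_lit 231, nat_lit 227, nat_lit 221, nat_lit 217, nat_lit 205, nat_lit 203, nat_lit 191, nat_lit 177, nat_lit 230, nat_lit 216, nat_lit 204, nat_lit 202, nat_lit 190],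
  .cnt (nat_lit 2),
  .lev (nat_lit 605053783767824676160001) [(nat_lit 226, nat_lit 605054935563430449906176), (nat_lit 224, nat_lit 606234374262643254362624), (nat_lit 208, nat_lit 605053782641925844106752), (nat_lit 200, nat_lit 605053782643025354685952), (nat_lit 180, nat_lit 605053782641925843059201), (nat_lit 174, nat_lit 605053783767825749901824)] [nat_lit 234, nat_lit 230, nat_lit 218, nat_lit 216, nat_lit 206, nat_lit 204, nat_lit 235, nat_lit 231, nat_lit 219, nat_lit 217, nat_lit 207, nat_lit 205],
  .cnt (nat_lit 3),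
  .lev (nat_lit 603874345066413923239423) [(nat_lit 210, nat_lit 603873191021208431755776), (nat_lit 198, nat_lit 605053782640827405173247), (nat_lit 184, nat_lit 605052629720421236212224), (nat_lit 186, nat_lit 605053782643025354685952), (nat_lit 188, nat_lit 605053781516025936216576), (nat_lit 190, nat_lit 605053782641925843058176), (nat_lit 208, nat_lit 605053782641925843059199)] [nat_lit 207, nat_lit 221, nat_lit 219, nat_lit 233, nat_lit 213, nat_lit 212, nat_lit 232, nat_lit 206, nat_lit 948214303343178116020911, nat_lit 235, nat_lit 229, nat_lit 227, nat_lit 805986733448726037841623, nat_lit 218, nat_lit 220, nat_lit 234, nat_lit 236, nat_lit 228],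
  .cnt (nat_lit 2),
  .lev (nat_lit 605053782643024280945152) [(nat_lit 238, nat_lit 605053782641925843059201), (nat_lit 224, nat_lit 606234374262643254362624), (nat_lit 212, nat_lit 605054935563430449906176), (nat_lit 204, nat_lit 605053783767825749900800), (nat_lit 202, nat_lit 605053782643025354685952), (nat_lit 188, nat_lit 605053782641925844106752), (nat_lit 174, nat_lit 605053783767825749901824)] [nat_lit 236, nat_lit 234, nat_lit 232, nat_lit 228, nat_lit 220, nat_lit 218, nat_lit 206, nat_lit 235, nat_lit 229, nat_lit 219, nat_lit 207, nat_lit 237],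
  .cnt (nat_lit 2),
  .cnt (nat_lit 2),
  .cnt (nat_lit 3),
  .cnt (nat_lit 4),
  .cnt (nat_lit 8),
  .lev (nat_lit 606233220216339324993024) [(nat_lit 238, nat_lit 605053782641925843059201), (nat_lit 220, nat_lit 605053783766726238275072), (nat_lit 210, nat_lit 606234374261544816476672), (nat_lit 190, nat_lit 605053782641925843060224), (nat_lit 186, nat_lit 605053782641925844107776), (nat_lit 184, nat_lit 605053782641926916801024), (nat_lit 182, nat_lit 606234374262643254362624)] [nat_lit 230, nat_lit 226, nat_lit 214, nat_lit 212, nat_lit 198, nat_lit 235, nat_lit 229, nat_lit 227, nat_lit 215, nat_lit 213, nat_lit 199, nat_lit 236, nat_lit 228, nat_lit 231, nat_lit 234],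
  .ext,
  .ext,
  .cnt (nat_lit 2),
  .ext,
  .cnt (nat_lit 3),
  .ext,
  .cnt (nat_lit 2),
  .cnt (nat_lit 2),
  .cnt (nat_lit 3),
  .cnt (nat_lit 2),
  .cnt (nat_lit 3),
  .cnt (nat_lit 3),
  .cnt (nat_lit 4),
  .cnt (nat_lit 4),
  .cnt (nat_lit 3),
  .lev (nat_lit 606234373136743347521024) [(nat_lit 238, nat_lit 605053782641925843059201), (nat_lit 234, nat_lit 605053782641925844106752), (nat_lit 196, nat_lit 606234374262643254362624), (nat_lit 160, nat_lit 605054935563430449905152), (nat_lit 130, nat_lit 605054935563430449906176)] [nat_lit 232, nat_lit 228, nat_lit 226, nat_lit 220, nat_lit 200, nat_lit 188, nat_lit 184, nat_lit 172, nat_lit 227, nat_lit 213, nat_lit 199, nat_lit 185, nat_lit 173, nat_lit 230, nat_lit 216, nat_lit 204, nat_lit 229],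
  .cnt (nat_lit 4),
  .cnt (nat_lit 2),
  .cnt (nat_lit 5),
  .cnt (nat_lit 2),
  .cnt (nat_lit 2),
  .cnt (nat_lit 2),
  .cnt (nat_lit 3),
  .cnt (nat_lit 5),
  .cnt (nat_lit 2),
  .cnt (nat_lit 2),
  .cnt (nat_lit 2),
  .cnt (nat_lit 2),
  .cnt (nat_lit 2),
  .cnt (nat_lit 2),
  .cnt (nat_lit 3),
  .cnt (nat_lit 3),
  .cnt (nat_lit 3),
  .cnt (nat_lit 3),
  .cnt (nat_lit 4),
  .cnt (nat_lit 9),
  .cnt (nat_lit 2),
  .cnt (nat_lit 3),
  .cnt (nat_lit 2),
  .cnt (nat_lit 4),
  .cnt (nat_lit 3),
  .cnt (nat_lit 2),
  .cnt (nat_lit 3),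
  .cnt (nat_lit 3),
  .cnt (nat_lit 4),
  .cnt (nat_lit 9),
  .cnt (nat_lit 2),
  .lev (nat_lit 605054935562332010971648) [(nat_lit 236, nat_lit 605053782641926915751424), (nat_lit 208, nat_lit 605053782641925843059201), (nat_lit 182, nat_lit 606234374262643254362624), (nat_lit 176, nat_lit 605054935563430449905152), (nat_lit 118, nat_lit 605054935563430449906176)] [nat_lit 230, nat_lit 228, nat_lit 216, nat_lit 212, nat_lit 202, nat_lit 200, nat_lit 186, nat_lit 184, nat_lit 170, nat_lit 233, nat_lit 231, nat_lit 229, nat_lit 219, nat_lit 217, nat_lit 215, nat_lit 213, nat_lit 203, nat_lit 199, nat_lit 232, nat_lit 218, nat_lit 214, nat_lit 198],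
  .lev (nat_lit 606233222467037480617472) [(nat_lit 222, nat_lit 605053782641925843059201), (nat_lit 220, nat_lit 605053782641925842011648), (nat_lit 212, nat_lit 606233221341138647515648), (nat_lit 210, nat_lit 605054934438628981998080), (nat_lit 206, nat_lit 605053782643024280945152), (nat_lit 168, nat_lit 606234374262643254362624), (nat_lit 144, nat_lit 605053783767825749901824)] [nat_lit 234, nat_lit 232, nat_lit 228, nat_lit 186, nat_lit 235, nat_lit 229, nat_lit 225, nat_lit 219, nat_lit 217, nat_lit 215, nat_lit 203, nat_lit 201, nat_lit 187, nat_lit 230, nat_lit 216, nat_lit 214, nat_lit 202, nat_lit 200],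
  .lev (nat_lit 605053783765627800388096) [(nat_lit 226, nat_lit 605054935563430449906176), (nat_lit 224, nat_lit 606234374262643254362624), (nat_lit 222, nat_lit 605053782643025354685951), (nat_lit 188, nat_lit 605053782640826332480000), (nat_lit 178, nat_lit 605053782641925843059201), (nat_lit 176, nat_lit 605053783767825749900800), (nat_lit 174, nat_lit 605053783767825749901824)] [nat_lit 218, nat_lit 202, nat_lit 200, nat_lit 186, nat_lit 235, nat_lit 233, nat_lit 219, nat_lit 217, nat_lit 203, nat_lit 201, nat_lit 232, nat_lit 228, nat_lit 216, nat_lit 214],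
  .cnt (nat_lit 3),
  .lev (nat_lit 605054934438630053642752) [(nat_lit 236, nat_lit 605053782643024280946176), (nat_lit 224, nat_lit 606234374262643254362624), (nat_lit 212, nat_lit 605054935563430448858625), (nat_lit 200, nat_lit 605053782643025353638400), (nat_lit 192, nat_lit 605053782641925843059201), (nat_lit 176, nat_lit 605053782641925843060224), (nat_lit 170, nat_lit 605054935563430449906176)] [nat_lit 234, nat_lit 232, nat_lit 230, nat_lit 218, nat_lit 202, nat_lit 235, nat_lit 233, nat_lit 231, nat_lit 227, nat_lit 219, nat_lit 217, nat_lit 203, nat_lit 226],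
  .cnt (nat_lit 2),
  .cnt (nat_lit 3),
  .cnt (nat_lit 3),
  .cnt (nat_lit 7),
  .cnt (nat_lit 5),
  .lev (nat_lit 605052630846320070361600) [(nat_lit 238, nat_lit 605053782641925843059201), (nat_lit 230, nat_lit 605053782643024280946176), (nat_lit 224, nat_lit 606234374262643254362624), (nat_lit 212, nat_lit 605054935563430449906176), (nat_lit 206, nat_lit 605053782641925843060224), (nat_lit 202, nat_lit 605053782641925844107776), (nat_lit 200, nat_lit 605053783767825749901824)] [nat_lit 232, nat_lit 218, nat_lit 235, nat_lit 233, nat_lit 229, nat_lit 219, nat_lit 228, nat_lit 234],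
  .cnt (nat_lit 2),
  .cnt (nat_lit 3),
  .cnt (nat_lit 3),
  .cnt (nat_lit 3),
  .cnt (nat_lit 2),
  .cnt (nat_lit 4),
  .cnt (nat_lit 4),
  .cnt (nat_lit 2),
  .cnt (nat_lit 5),
  .cnt (nat_lit 5),
  .cnt (nat_lit 2),
  .cnt (nat_lit 13),
  .cnt (nat_lit 2),
  .cnt (nat_lit 3),
  .cnt (nat_lit 3),
  .cnt (nat_lit 5),
  .cnt (nat_lit 3),
  .cnt (nat_lit 3),
  .cnt (nat_lit 4),
  .cnt (nat_lit 5),
  .cnt (nat_lit 2),
  .cnt (nat_lit 2),
  .cnt (nat_lit 3),
  .cnt (nat_lit 2),
  .cnt (nat_lit 3),
  .cnt (nat_lit 13),
  .cnt (nat_lit 2),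
  .cnt (nat_lit 5),
  .cnt (nat_lit 3),
  .cnt (nat_lit 3),
  .cnt (nat_lit 7),
  .ext,
  .cnt (nat_lit 2),
  .cnt (nat_lit 7),
  .cnt (nat_lit 3),
  .ext,
  .cnt (nat_lit 2),
  .cnt (nat_lit 4),
  .cnt (nat_lit 3),
  .cnt (nat_lit 2),
  .cnt (nat_lit 3),
  .cnt (nat_lit 13),
  .cnt (nat_lit 2),
  .cnt (nat_lit 21),
  .cnt (nat_lit 3),
  .cnt (nat_lit 3),
  .cnt (nat_lit 3),
  .cnt (nat_lit 7),
  .cnt (nat_lit 4),
  .cnt (nat_lit 4),
  .cnt (nat_lit 5),
  .reg]

/-- chains -/
def hE8 : List Cn := [
  ⟨nat_lit 605054935563431523648000, nat_lit 605054935563430449906176, nat_lit 606235528311148354471425, nat_lit 1, nat_lit 1,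
    [(nat_lit 208, nat_lit 3), (nat_lit 200, nat_lit 3), (nat_lit 194, nat_lit 4), (nat_lit 190, nat_lit 4)],
    [.wk, .dn (nat_lit 210) (nat_lit 224) (nat_lit 226), .dn (nat_lit 212) (nat_lit 225) (nat_lit 196)],
    [(nat_lit 226, nat_lit 605054934437531615756800), (nat_lit 208, nat_lit 605053782641925844106752), (nat_lit 200, nat_lit 605053782641926915752448), (nat_lit 198, nat_lit 603873192147107265905152), (nat_lit 196, nat_lit 605053783766726239322623), (nat_lit 194, nat_lit 605053782641925842011649), (nat_lit 190, nat_lit 605053782641925844107775), (nat_lit 182, nat_lit 606234373137842858099201)],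
    [nat_lit 237, nat_lit 235, nat_lit 225, nat_lit 224, nat_lit 228, nat_lit 234, nat_lit 236, nat_lit 238, nat_lit 222, nat_lit 215, nat_lit 231, nat_lit 229, nat_lit 230, nat_lit 214, nat_lit 223, nat_lit 239]⟩,
  ⟨nat_lit 606235527184148934951424, nat_lit 605054935563430449906176, nat_lit 606235528311148354471425, nat_lit 1, nat_lit 1,
    [(nat_lit 224, nat_lit 1), (nat_lit 208, nat_lit 3), (nat_lit 200, nat_lit 3), (nat_lit 194, nat_lit 4), (nat_lit 190, nat_lit 4)],
    [.wk],
    [(nat_lit 226, nat_lit 605054934437531615756800), (nat_lit 224, nat_lit 606234374262643254362624), (nat_lit 212, nat_lit 605053783766726239322623), (nat_lit 208, nat_lit 605053782641925844106752), (nat_lit 200, nat_lit 605053782641926915752448), (nat_lit 198, nat_lit 605053782643024280945153), (nat_lit 194, nat_lit 605053782641925842011649), (nat_lit 190, nat_lit 605053782641925844107775)],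
    [nat_lit 237, nat_lit 235, nat_lit 215, nat_lit 231, nat_lit 229, nat_lit 228, nat_lit 234, nat_lit 236, nat_lit 238, nat_lit 222, nat_lit 223, nat_lit 239, nat_lit 230, nat_lit 214]⟩,
  ⟨nat_lit 605054935563431523648001, nat_lit 605053782641925843059201, nat_lit 606235528311148354471425, nat_lit 1, nat_lit 1,
    [(nat_lit 210, nat_lit 2), (nat_lit 206, nat_lit 3), (nat_lit 204, nat_lit 3), (nat_lit 202, nat_lit 3), (nat_lit 200, nat_lit 3), (nat_lit 198, nat_lit 3)],
    [.wk],
    [(nat_lit 238, nat_lit 602694904116502962109953), (nat_lit 222, nat_lit 607412661167348724008448), (nat_lit 210, nat_lit 606234374262643254362624), (nat_lit 206, nat_lit 603874343941614600716800), (nat_lit 204, nat_lit 606233221342237085402624), (nat_lit 202, nat_lit 603874342816814205500928), (nat_lit 200, nat_lit 606233222467038554358272), (nat_lit 198, nat_lit 603874343942713038602752)],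
    [nat_lit 229, nat_lit 225, nat_lit 224, nat_lit 230, nat_lit 214, nat_lit 234, nat_lit 236, nat_lit 237, nat_lit 235, nat_lit 215, nat_lit 231, nat_lit 228]⟩,
  ⟨nat_lit 606235527184148934951425, nat_lit 605053782641926916801024, nat_lit 606235528311148354471425, nat_lit 2, nat_lit 2,
    [(nat_lit 224, nat_lit 1), (nat_lit 226, nat_lit 1), (nat_lit 238, nat_lit 1)],
    [.wk, .dn (nat_lit 174) (nat_lit 236) (nat_lit 186), .dn (nat_lit 190) (nat_lit 230) (nat_lit 206), .dn (nat_lit 204) (nat_lit 229) (nat_lit 188), .dn (nat_lit 216) (nat_lit 235) (nat_lit 202), .dn (nat_lit 200) (nat_lit 237) (nat_lit 188), .dn (nat_lit 220) (nat_lit 215) (nat_lit 188), .dn (nat_lit 218) (nat_lit 231) (nat_lit 202)],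
    [(nat_lit 232, nat_lit 605053782640828477865472), (nat_lit 238, nat_lit 605053782641925843059201), (nat_lit 226, nat_lit 605054935563430449906176), (nat_lit 224, nat_lit 606234374262643254362624), (nat_lit 206, nat_lit 605053782640827405173248), (nat_lit 202, nat_lit 605053781517125447844352), (nat_lit 188, nat_lit 605053782641926915752448), (nat_lit 186, nat_lit 605053783766727312014848)],
    [nat_lit 231, nat_lit 229, nat_lit 228, nat_lit 237, nat_lit 215, nat_lit 235, nat_lit 230, nat_lit 236, nat_lit 214, nat_lit 234]⟩,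
  ⟨nat_lit 606234375388544234947073, nat_lit 605053782641925843059201, nat_lit 606235528311148354471425, nat_lit 1, nat_lit 1,
    [(nat_lit 224, nat_lit 1), (nat_lit 216, nat_lit 2), (nat_lit 214, nat_lit 2), (nat_lit 212, nat_lit 2), (nat_lit 210, nat_lit 2), (nat_lit 206, nat_lit 3)],
    [.wk],
    [(nat_lit 238, nat_lit 605053782641925842011649), (nat_lit 224, nat_lit 606233222465940116471296), (nat_lit 222, nat_lit 605053782641925844106752), (nat_lit 216, nat_lit 605053782641926916800000), (nat_lit 214, nat_lit 605053782643024280946176), (nat_lit 212, nat_lit 605053783766727312014848), (nat_lit 210, nat_lit 605054934438628980950528), (nat_lit 206, nat_lit 605053782641925843060224)],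
    [nat_lit 237, nat_lit 235, nat_lit 227, nat_lit 226, nat_lit 230, nat_lit 234, nat_lit 236, nat_lit 231]⟩,
  ⟨nat_lit 606235528310048841794049, nat_lit 605053782641925843059201, nat_lit 606235528311148354471425, nat_lit 1, nat_lit 1,
    [(nat_lit 232, nat_lit 1), (nat_lit 226, nat_lit 1), (nat_lit 224, nat_lit 1), (nat_lit 216, nat_lit 2), (nat_lit 214, nat_lit 2), (nat_lit 206, nat_lit 3)],
    [.wk],
    [(nat_lit 238, nat_lit 605053782641925842011649), (nat_lit 232, nat_lit 605053783766727312014848), (nat_lit 226, nat_lit 605054935563430449906176), (nat_lit 224, nat_lit 606234374262643254362624), (nat_lit 222, nat_lit 605053782641925844106752), (nat_lit 216, nat_lit 605053781517125447844352), (nat_lit 214, nat_lit 605053783767825749901824), (nat_lit 206, nat_lit 605053782641925843060224)],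
    [nat_lit 237, nat_lit 235, nat_lit 231, nat_lit 230, nat_lit 234, nat_lit 236]⟩,
  ⟨nat_lit 606235527185247373886977, nat_lit 605053782641925843059201, nat_lit 606235528311148354471425, nat_lit 1, nat_lit 1,
    [(nat_lit 236, nat_lit 1), (nat_lit 230, nat_lit 1), (nat_lit 224, nat_lit 1), (nat_lit 218, nat_lit 2), (nat_lit 216, nat_lit 2), (nat_lit 214, nat_lit 2), (nat_lit 212, nat_lit 2)],
    [.wk],
    [(nat_lit 238, nat_lit 605053782641925843059201), (nat_lit 236, nat_lit 605053782641925843060224), (nat_lit 230, nat_lit 605054934438628981998080), (nat_lit 224, nat_lit 606234374262643254362624), (nat_lit 218, nat_lit 605053782641925844107776), (nat_lit 216, nat_lit 605053782641926915752448), (nat_lit 214, nat_lit 605052630846321143054848), (nat_lit 212, nat_lit 605054935563430449906176)],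
    [nat_lit 233, nat_lit 229, nat_lit 228, nat_lit 232]⟩,
  ⟨nat_lit 606235528311147280729601, nat_lit 605053782641925843059201, nat_lit 606235528311148354471425, nat_lit 1, nat_lit 1,
    [(nat_lit 234, nat_lit 1), (nat_lit 230, nat_lit 1), (nat_lit 228, nat_lit 1), (nat_lit 226, nat_lit 1), (nat_lit 224, nat_lit 1), (nat_lit 220, nat_lit 2), (nat_lit 216, nat_lit 2)],
    [.wk],
    [(nat_lit 238, nat_lit 605053782641925843059201), (nat_lit 234, nat_lit 605053782641925844107776), (nat_lit 230, nat_lit 605053782643024280946176), (nat_lit 228, nat_lit 605053783767825749901824), (nat_lit 226, nat_lit 605054935563430449906176), (nat_lit 224, nat_lit 606234374262643254362624), (nat_lit 220, nat_lit 605053782641925843060224), (nat_lit 216, nat_lit 605053782641926916800000)],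
    [nat_lit 233, nat_lit 232]⟩,
  ⟨nat_lit 606234374262644328104448, nat_lit 605053782641925843059201, nat_lit 603875500245210535300611, nat_lit 4, nat_lit 3,
    [(nat_lit 210, nat_lit 1), (nat_lit 200, nat_lit 1), (nat_lit 206, nat_lit 1), (nat_lit 204, nat_lit 1), (nat_lit 202, nat_lit 1)],
    [.up (nat_lit 142) (nat_lit 184) (nat_lit 206), .up (nat_lit 184) (nat_lit 226) (nat_lit 200), .up (nat_lit 116) (nat_lit 144) (nat_lit 210), .up (nat_lit 232) (nat_lit 215) (nat_lit 200), .up (nat_lit 168) (nat_lit 210) (nat_lit 200), .up (nat_lit 130) (nat_lit 170) (nat_lit 204), .up (nat_lit 176) (nat_lit 216) (nat_lit 206), .up (nat_lit 216) (nat_lit 229) (nat_lit 200), .up (nat_lit 190) (nat_lit 230) (nat_lit 206), .up (nat_lit 144) (nat_lit 190) (nat_lit 200), .up (nat_lit 154) (nat_lit 186) (nat_lit 210), .up (nat_lit 128) (nat_lit 220) (nat_lit 154), .up (nat_lit 92) (nat_lit 118) (nat_lit 210), .dn (nat_lit 144) (nat_lit 190) (nat_lit 200), .up (nat_lit 140) (nat_lit 182) (nat_lit 206), .up (nat_lit 156) (nat_lit 196) (nat_lit 204),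 .up (nat_lit 104) (nat_lit 140) (nat_lit 200), .up (nat_lit 160) (nat_lit 206) (nat_lit 200), .up (nat_lit 118) (nat_lit 158) (nat_lit 200), .up (nat_lit 144) (nat_lit 186) (nat_lit 204), .up (nat_lit 218) (nat_lit 237) (nat_lit 206), .up (nat_lit 220) (nat_lit 235) (nat_lit 206), .up (nat_lit 224) (nat_lit 227) (nat_lit 210), .dn (nat_lit 238) (nat_lit 235) (nat_lit 222), .dn (nat_lit 200) (nat_lit 227) (nat_lit 184), .up (nat_lit 170) (nat_lit 234) (nat_lit 184), .dn (nat_lit 204) (nat_lit 230) (nat_lit 220), .up (nat_lit 215) (nat_lit 189) (nat_lit 220), .dn (nat_lit 222) (nat_lit 189) (nat_lit 164), .up (nat_lit 204) (nat_lit 235) (nat_lit 190), .up (nat_lit 199) (nat_lit 183) (nat_lit 224), .dn (nat_lit 170) (nat_lit 234) (nat_lit 184), .up (nat_lit 200) (nat_lit 227) (nat_lit 184), .dn (nat_lit 184) (nat_lit 226) (nat_lit 200), .up (nat_lit 188) (nat_lit 236) (nat_lit 200), .dn (nat_lit 162) (nat_lit 237) (nat_lit 148), .up (nat_lit 172) (nat_lit 223) (nat_lit 148), .dn (nat_lit 148) (nat_lit 222) (nat_lit 172), .up (nat_lit 184)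 (nat_lit 237) (nat_lit 172), .dn (nat_lit 178) (nat_lit 237) (nat_lit 164), .up (nat_lit 174) (nat_lit 239) (nat_lit 164), .dn (nat_lit 164) (nat_lit 238) (nat_lit 174), .up (nat_lit 186) (nat_lit 237) (nat_lit 174), .dn (nat_lit 215) (nat_lit 183) (nat_lit 210), .dn (nat_lit 180) (nat_lit 236) (nat_lit 192), .up (nat_lit 223) (nat_lit 149) (nat_lit 172), .dn (nat_lit 199) (nat_lit 149) (nat_lit 194), .up (nat_lit 180) (nat_lit 236) (nat_lit 192), .dn (nat_lit 174) (nat_lit 236) (nat_lit 186), .up (nat_lit 170) (nat_lit 226) (nat_lit 186), .dn (nat_lit 194) (nat_lit 231) (nat_lit 180), .up (nat_lit 213) (nat_lit 149) (nat_lit 180), .up (nat_lit 229) (nat_lit 226) (nat_lit 213), .dn (nat_lit 223) (nat_lit 165) (nat_lit 188), .dn (nat_lit 172) (nat_lit 226) (nat_lit 188), .dn (nat_lit 229) (nat_lit 197) (nat_lit 210), .dn (nat_lit 213) (nat_lit 149) (nat_lit 180), .wk, .dn (nat_lit 202) (nat_lit 230) (nat_lit 218), .dn (nat_lit 186) (nat_lit 227) (nat_lit 170), .dn (nat_lit 184) (nat_lit 235) (nat_lit 170), .dn (nat_lit 204) (nat_lit 229)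 (nat_lit 188), .dn (nat_lit 220) (nat_lit 215) (nat_lit 188), .up (nat_lit 202) (nat_lit 230) (nat_lit 218), .dn (nat_lit 200) (nat_lit 237) (nat_lit 188), .dn (nat_lit 192) (nat_lit 230) (nat_lit 208), .dn (nat_lit 190) (nat_lit 239) (nat_lit 180), .dn (nat_lit 202) (nat_lit 213) (nat_lit 170), .dn (nat_lit 218) (nat_lit 199) (nat_lit 170), .up (nat_lit 204) (nat_lit 229) (nat_lit 188), .dn (nat_lit 232) (nat_lit 223) (nat_lit 208), .dn (nat_lit 204) (nat_lit 229) (nat_lit 188)],
    [(nat_lit 208, nat_lit 605053783765628873080322), (nat_lit 206, nat_lit 605053782640827405173248), (nat_lit 210, nat_lit 605054935562332010971649), (nat_lit 188, nat_lit 605053783766727310967297), (nat_lit 170, nat_lit 605053783766727312014849), (nat_lit 180, nat_lit 605053782641925843059201), (nat_lit 224, nat_lit 606233222465940116471297), (nat_lit 216, nat_lit 605053782640828477865473)],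
    [nat_lit 199, nat_lit 215, nat_lit 213, nat_lit 229, nat_lit 227, nat_lit 226, nat_lit 234, nat_lit 223, nat_lit 239, nat_lit 235, nat_lit 231, nat_lit 230, nat_lit 236, nat_lit 238, nat_lit 222, nat_lit 237, nat_lit 228, nat_lit 212, nat_lit 198, nat_lit 214]⟩,
  ⟨nat_lit 605053782643025354686976, nat_lit 606235527183048350630400, nat_lit 614507745717512468694532, nat_lit 4, nat_lit 1,
    [(nat_lit 178, nat_lit 1), (nat_lit 184, nat_lit 1)],
    [.dn (nat_lit 158) (nat_lit 167) (nat_lit 90), .dn (nat_lit 222) (nat_lit 178) (nat_lit 201), .dn (nat_lit 90) (nat_lit 62) (nat_lit 201), .dn (nat_lit 80) (nat_lit 160) (nat_lit 148), .dn (nat_lit 137) (nat_lit 167) (nat_lit 215), .dn (nat_lit 212) (nat_lit 184) (nat_lit 217), .dn (nat_lit 88) (nat_lit 232) (nat_lit 98), .dn (nat_lit 170) (nat_lit 234) (nat_lit 184), .dn (nat_lit 134) (nat_lit 150) (nat_lit 226), .dn (nat_lit 98) (nat_lit 158) (nat_lit 178), .dn (nat_lit 194) (nat_lit 166) (nat_lit 217), .dn (nat_lit 162) (nat_lit 226) (nat_lit 178), .dn (nat_lit 215) (nat_lit 175) (nat_lit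 206), .dn (nat_lit 208) (nat_lit 71) (nat_lit 46), .dn (nat_lit 100) (nat_lit 152) (nat_lit 184), .dn (nat_lit 138) (nat_lit 206) (nat_lit 178), .dn (nat_lit 205) (nat_lit 137) (nat_lit 178), .dn (nat_lit 226) (nat_lit 161) (nat_lit 142), .dn (nat_lit 46) (nat_lit 90) (nat_lit 178), .dn (nat_lit 124) (nat_lit 112) (nat_lit 231), .dn (nat_lit 145) (nat_lit 71) (nat_lit 148), .dn (nat_lit 112) (nat_lit 202) (nat_lit 148), .dn (nat_lit 234) (nat_lit 167) (nat_lit 152), .up (nat_lit 181) (nat_lit 123) (nat_lit 184), .dn (nat_lit 217) (nat_lit 123) (nat_lit 148), .up (nat_lit 46) (nat_lit 90) (nat_lit 178), .dn (nat_lit 152) (nat_lit 114) (nat_lit 201), .dn (nat_lit 46) (nat_lit 90) (nat_lit 178), .up (nat_lit 217) (nat_lit 123) (nat_lit 148), .dn (nat_lit 181) (nat_lit 123) (nat_lit 184), .up (nat_lit 205) (nat_lit 228) (nat_lit 189), .dn (nat_lit 217) (nat_lit 228) (nat_lit 201), .dn (nat_lit 205) (nat_lit 137) (nat_lit 178), .up (nat_lit 162) (nat_lit 226) (nat_lit 178), .dn (nat_lit 189) (nat_lit 237) (nat_lit 201), .dn (nat_lit 162) (nat_lit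 226) (nat_lit 178), .up (nat_lit 80) (nat_lit 160) (nat_lit 148), .dn (nat_lit 231) (nat_lit 203) (nat_lit 218), .dn (nat_lit 54) (nat_lit 70) (nat_lit 218), .dn (nat_lit 206) (nat_lit 160) (nat_lit 201), .up (nat_lit 88) (nat_lit 108) (nat_lit 218), .dn (nat_lit 148) (nat_lit 108) (nat_lit 201), .up (nat_lit 237) (nat_lit 165) (nat_lit 178), .up (nat_lit 138) (nat_lit 206) (nat_lit 178), .qd (nat_lit 142) (nat_lit 206) (nat_lit 218) (nat_lit 165) (nat_lit 184) (nat_lit 80) (nat_lit 178) (nat_lit 138), .dn (nat_lit 237) (nat_lit 173) (nat_lit 184), .up (nat_lit 190) (nat_lit 144) (nat_lit 201), .dn (nat_lit 201) (nat_lit 145) (nat_lit 190), .up (nat_lit 108) (nat_lit 172) (nat_lit 178), .dn (nat_lit 80) (nat_lit 172) (nat_lit 138), .dn (nat_lit 108) (nat_lit 164) (nat_lit 184), .dn (nat_lit 196) (nat_lit 167) (nat_lit 120), .dn (nat_lit 224) (nat_lit 149) (nat_lit 132), .dn (nat_lit 210) (nat_lit 189) (nat_lit 156), .wk, .dn (nat_lit 128) (nat_lit 218) (nat_lit 156), .up (nat_lit 174) (nat_lit 228) (nat_lit 190), .up (nat_lit 214) (nat_lit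 209) (nat_lit 178), .dn (nat_lit 156) (nat_lit 209) (nat_lit 120), .up (nat_lit 186) (nat_lit 218) (nat_lit 214), .qd (nat_lit 110) (nat_lit 218) (nat_lit 154) (nat_lit 210) (nat_lit 132) (nat_lit 138) (nat_lit 214) (nat_lit 186), .dn (nat_lit 174) (nat_lit 228) (nat_lit 190), .dn (nat_lit 140) (nat_lit 196) (nat_lit 190), .dn (nat_lit 146) (nat_lit 221) (nat_lit 120), .dn (nat_lit 186) (nat_lit 195) (nat_lit 138), .dn (nat_lit 168) (nat_lit 224) (nat_lit 184)],
    [(nat_lit 184, nat_lit 603874343942713038602752), (nat_lit 178, nat_lit 605053781517125447843329), (nat_lit 182, nat_lit 606234374262643255410175), (nat_lit 138, nat_lit 605053783766726239322623), (nat_lit 132, nat_lit 603874343942711964861953), (nat_lit 120, nat_lit 606233221341139720208896), (nat_lit 190, nat_lit 605053781517125447844352), (nat_lit 214, nat_lit 605052630846321142007296)],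
    [nat_lit 207, nat_lit 221, nat_lit 237, nat_lit 219, nat_lit 233, nat_lit 213, nat_lit 211, nat_lit 227, nat_lit 224, nat_lit 210, nat_lit 228, nat_lit 212, nat_lit 196, nat_lit 232, nat_lit 234, nat_lit 236, nat_lit 206, nat_lit 238, nat_lit 222, nat_lit 208, nat_lit 194, nat_lit 195, nat_lit 209, nat_lit 223, nat_lit 239, nat_lit 235, nat_lit 197, nat_lit 229, nat_lit 225, nat_lit 226, nat_lit 218, nat_lit 220]⟩]

theorem gE8_8 : tE8.grp0 (hE8.map Cn.w) cE8_8 = true := by decide +kernel

theorem hE8_ok : lall (fun c => an (tE8.chn c) (tE8.frm c)) hE8 = true := by decide +kernel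

/-- certificates -/
def cE8_0 : List Ce := [
  .lev (nat_lit 605052629720421236212225) [(nat_lit 11, nat_lit 605053781516025937265152), (nat_lit 19, nat_lit 606234374262643254362624)] [nat_lit 234, nat_lit 236, nat_lit 232, nat_lit 216, nat_lit 200, nat_lit 184, nat_lit 168, nat_lit 233, nat_lit 217, nat_lit 201, nat_lit 185, nat_lit 169],
  .lev (nat_lit 605054935562330938278401) [(nat_lit 224, nat_lit 603873191021209504449024), (nat_lit 92, nat_lit 606234374262643254362623), (nat_lit 1, nat_lit 606234374262643254362624)] [nat_lit 226, nat_lit 212, nat_lit 198, nat_lit 184, nat_lit 170, nat_lit 172, nat_lit 158, nat_lit 142, nat_lit 130, nat_lit 118],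
  .lev (nat_lit 605054934437530544111104) [(nat_lit 198, nat_lit 605053782643025353638400), (nat_lit 196, nat_lit 605054935563430449905152), (nat_lit 27, nat_lit 606234374262643254362624), (nat_lit 142, nat_lit 605054935563430449906176)] [nat_lit 228, nat_lit 232, nat_lit 2, nat_lit 214, nat_lit 220, nat_lit 216, nat_lit 218, nat_lit 0, nat_lit 204, nat_lit 206, nat_lit 202, nat_lit 190, nat_lit 176, nat_lit 144, nat_lit 229, nat_lit 225, nat_lit 215, nat_lit 217, nat_lit 1, nat_lit 205, nat_lit 203, nat_lit 191, nat_lit 177, nat_lit 145, nat_lit 230, nat_lit 231],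
  .cnt (nat_lit 4),
  .lev (nat_lit 605053783766725165581824) [(nat_lit 188, nat_lit 605054934437530544111104), (nat_lit 186, nat_lit 605054935562330938278401), (nat_lit 182, nat_lit 605054935563430449905152), (nat_lit 1, nat_lit 605053783767825749900800), (nat_lit 142, nat_lit 606234374262643254361600), (nat_lit 128, nat_lit 606234374262643254362624)] [nat_lit 236, nat_lit 232, nat_lit 224, nat_lit 204, nat_lit 206, nat_lit 176, nat_lit 231, nat_lit 237, nat_lit 233, nat_lit 227, nat_lit 225, nat_lit 211, nat_lit 205, nat_lit 207, nat_lit 177, nat_lit 230, nat_lit 220, nat_lit 218, nat_lit 210, nat_lit 221, nat_lit 219],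
  .lev (nat_lit 605053784891526633488897) [(nat_lit 210, nat_lit 603873191021208431755777), (nat_lit 214, nat_lit 605052630846321143053825), (nat_lit 184, nat_lit 605053783767825748853248), (nat_lit 174, nat_lit 605054935562332010971648), (nat_lit 170, nat_lit 605053782643025354685951), (nat_lit 1, nat_lit 605053783767825749900800), (nat_lit 160, nat_lit 605053783767825749901824)] [nat_lit 230, nat_lit 232, nat_lit 218, nat_lit 204, nat_lit 206, nat_lit 231, nat_lit 233, nat_lit 235, nat_lit 227, nat_lit 217, nat_lit 226, nat_lit 236],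
  .cnt (nat_lit 4),
  .cnt (nat_lit 3),
  .lev (nat_lit 605054936689329281959425) [(nat_lit 9, nat_lit 606234374263741692248576), (nat_lit 200, nat_lit 605053783767825748853248), (nat_lit 204, nat_lit 605053782643025353638400), (nat_lit 170, nat_lit 605053783767825749900800), (nat_lit 174, nat_lit 606234374262643254361600), (nat_lit 128, nat_lit 606234374262643254362624)] [nat_lit 6, nat_lit 224, nat_lit 228, nat_lit 236, nat_lit 4, nat_lit 212, nat_lit 2, nat_lit 196, nat_lit 0, nat_lit 7, nat_lit 225, nat_lit 227, nat_lit 237, nat_lit 233, nat_lit 235, nat_lit 211, nat_lit 213, nat_lit 3, nat_lit 197, nat_lit 207, nat_lit 1, nat_lit 232, nat_lit 234, nat_lit 206],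
  .lev (nat_lit 602693753445696511935999) [(nat_lit 3, nat_lit 605053782641926915751424), (nat_lit 198, nat_lit 603874343942713038602752), (nat_lit 188, nat_lit 605053782643025353638400), (nat_lit 186, nat_lit 605053782643025354685952), (nat_lit 196, nat_lit 606234374262643254362624), (nat_lit 176, nat_lit 605053782643025354686976)] [nat_lit 228, nat_lit 0, nat_lit 236, nat_lit 232, nat_lit 220, nat_lit 218, nat_lit 206, nat_lit 1, nat_lit 227, nat_lit 237, nat_lit 233, nat_lit 213, nat_lit 221, nat_lit 219, nat_lit 207, nat_lit 226, nat_lit 212, nat_lit 229],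
  .lev (nat_lit 605053782644122718831105) [(nat_lit 216, nat_lit 605053782643025354685951), (nat_lit 204, nat_lit 605053782641924770365953), (nat_lit 1, nat_lit 605053782643025353638400), (nat_lit 212, nat_lit 606233221341138647515648), (nat_lit 210, nat_lit 606234373136743347521024), (nat_lit 174, nat_lit 605053782643025354686976), (nat_lit 196, nat_lit 606234374262643254362624)] [nat_lit 232, nat_lit 224, nat_lit 218, nat_lit 237, nat_lit 233, nat_lit 235, nat_lit 225, nat_lit 207, nat_lit 228, nat_lit 229, nat_lit 234],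
  .lev (nat_lit 605053782644122718831105) [(nat_lit 224, nat_lit 603873191021208431755777), (nat_lit 202, nat_lit 605053782643025354685951), (nat_lit 1, nat_lit 606234374262643254362624), (nat_lit 226, nat_lit 605054934437530543064576), (nat_lit 188, nat_lit 605053782641925844106752), (nat_lit 212, nat_lit 605054935563430449906176), (nat_lit 174, nat_lit 605053783767825749901824)] [nat_lit 228, nat_lit 236, nat_lit 232, nat_lit 220, nat_lit 229, nat_lit 237, nat_lit 235, nat_lit 221, nat_lit 219],
  .cnt (nat_lit 4),
  .cnt (nat_lit 4),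
  .cnt (nat_lit 6),
  .lev (nat_lit 605053782640827404125696) [(nat_lit 228, nat_lit 605053783767825749901822), (nat_lit 224, nat_lit 606234374262643254362623), (nat_lit 216, nat_lit 605053782643025354685951), (nat_lit 1, nat_lit 605053782641925844106752), (nat_lit 226, nat_lit 605054935563430449906176), (nat_lit 190, nat_lit 605053782643025354686976)] [nat_lit 236, nat_lit 232, nat_lit 234, nat_lit 233],
  .lev (nat_lit 602692599400491020452353) [(nat_lit 232, nat_lit 605051477924815463515648), (nat_lit 220, nat_lit 606235527184147861208576), (nat_lit 200, nat_lit 605053783767825749900800), (nat_lit 202, nat_lit 603873191021208432803328), (nat_lit 7, nat_lit 605053782643025353638400), (nat_lit 158, nat_lit 605052629720421236212225), (nat_lit 9, nat_lit 606234374262643254362624)] [nat_lit 228, nat_lit 226, nat_lit 224, nat_lit 214, nat_lit 212, nat_lit 210, nat_lit 198, nat_lit 196, nat_lit 182, nat_lit 231, nat_lit 227, nat_lit 235, nat_lit 215, nat_lit 197, nat_lit 236, nat_lit 230, nat_lit 234, nat_lit 213],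
  .lev (nat_lit 605051479052915464206849) [(nat_lit 232, nat_lit 605054934437529470371328), (nat_lit 196, nat_lit 603873191021208431755777), (nat_lit 204, nat_lit 605053782641924770365953), (nat_lit 202, nat_lit 605053783767825748853248), (nat_lit 1, nat_lit 605053782643025353638400), (nat_lit 174, nat_lit 605053782641925843060224), (nat_lit 170, nat_lit 605054935563430449906176)] [nat_lit 226, nat_lit 214, nat_lit 212, nat_lit 198, nat_lit 227, nat_lit 215, nat_lit 213, nat_lit 199, nat_lit 228, nat_lit 234, nat_lit 237, nat_lit 231, nat_lit 229, nat_lit 230],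
  .lev (nat_lit 602692601647897080494593) [(nat_lit 216, nat_lit 603873192146008826970625), (nat_lit 226, nat_lit 603874343943810403796480), (nat_lit 206, nat_lit 605053782643024280945153), (nat_lit 9, nat_lit 606233221341138647515648), (nat_lit 188, nat_lit 605053782641925843060224), (nat_lit 186, nat_lit 605053782643025354686976), (nat_lit 196, nat_lit 606234374262643254362624)] [nat_lit 224, nat_lit 2, nat_lit 214, nat_lit 0, nat_lit 225, nat_lit 3, nat_lit 1, nat_lit 228, nat_lit 236, nat_lit 230, nat_lit 234, nat_lit 237, nat_lit 231, nat_lit 235],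
  .lev (nat_lit 605053782641925843059201) [(nat_lit 232, nat_lit 605052628596718206191104), (nat_lit 216, nat_lit 605053783766726238274048), (nat_lit 224, nat_lit 606234374262643254362624), (nat_lit 206, nat_lit 605053782641926915751424), (nat_lit 188, nat_lit 605053782641925843060224), (nat_lit 186, nat_lit 605053782641926916801024), (nat_lit 198, nat_lit 605054935563430449906176)] [nat_lit 228, nat_lit 230, nat_lit 214, nat_lit 237, nat_lit 231, nat_lit 1, nat_lit 235, nat_lit 215, nat_lit 236, nat_lit 234],
  .lev (nat_lit 607412660040351451972097) [(nat_lit 228, nat_lit 606234373136743347520001), (nat_lit 196, nat_lit 606234374261544816475648), (nat_lit 1, nat_lit 603874343942713038602752), (nat_lit 216, nat_lit 605053782641926915751424), (nat_lit 220, nat_lit 605053782641925843060224), (nat_lit 182, nat_lit 606234374262643254362624), (nat_lit 202, nat_lit 605053782643025354686976)] [nat_lit 226, nat_lit 224, nat_lit 234, nat_lit 210, nat_lit 237, nat_lit 225, nat_lit 211, nat_lit 230, nat_lit 236, nat_lit 231],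
  .lev (nat_lit 605053782641925845154303) [(nat_lit 232, nat_lit 606233222465940115423744), (nat_lit 214, nat_lit 605053782640827405172225), (nat_lit 212, nat_lit 606233221341138648563200), (nat_lit 216, nat_lit 605053782641926915752447), (nat_lit 210, nat_lit 606234374262643254362623), (nat_lit 1, nat_lit 605053782641925844106752), (nat_lit 206, nat_lit 605053782641926916801024)] [nat_lit 226, nat_lit 231, nat_lit 237, nat_lit 227, nat_lit 235, nat_lit 230, nat_lit 236, nat_lit 234],
  .cnt (nat_lit 5),
  .cnt (nat_lit 6),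
  .cnt (nat_lit 4),
  .cnt (nat_lit 3),
  .lev (nat_lit 606234373137842859147775) [(nat_lit 226, nat_lit 603874343942713038602751), (nat_lit 232, nat_lit 605053782641924770365953), (nat_lit 214, nat_lit 605052630846321142007296), (nat_lit 3, nat_lit 605053782641925844106752), (nat_lit 196, nat_lit 606234374262643254362624), (nat_lit 206, nat_lit 605053782641926916801024)] [nat_lit 228, nat_lit 236, nat_lit 224, nat_lit 234, nat_lit 229, nat_lit 225],
  .cnt (nat_lit 4),
  .cnt (nat_lit 3),
  .cnt (nat_lit 3),
  .cnt (nat_lit 8),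
  .lev (nat_lit 605053782641927988443649) [(nat_lit 228, nat_lit 605053783767825749901822), (nat_lit 230, nat_lit 605053781517126520536576), (nat_lit 1, nat_lit 605053782641926915751424), (nat_lit 226, nat_lit 605054935563430449906176), (nat_lit 220, nat_lit 605053782641925843060224), (nat_lit 218, nat_lit 605053782641926916801024), (nat_lit 224, nat_lit 606234374262643254362624)] [nat_lit 236, nat_lit 237],
  .lev (nat_lit 605053783767825749900800) [(nat_lit 234, nat_lit 605054935564529960484352), (nat_lit 144, nat_lit 605054935563429377212928), (nat_lit 128, nat_lit 605052629720421236212225), (nat_lit 7, nat_lit 606234374262643254362624)] [nat_lit 232, nat_lit 226, nat_lit 220, nat_lit 214, nat_lit 212, nat_lit 210, nat_lit 200, nat_lit 198, nat_lit 188, nat_lit 184, nat_lit 172, nat_lit 168, nat_lit 156, nat_lit 231, nat_lit 229, nat_lit 225, nat_lit 215, nat_lit 213, nat_lit 201, nat_lit 197, nat_lit 189, nat_lit 230, nat_lit 216, nat_lit 204],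
  .lev (nat_lit 605053783766726239321600) [(nat_lit 210, nat_lit 606234374262643254362623), (nat_lit 202, nat_lit 605053783767825748853248), (nat_lit 174, nat_lit 605054935563430449905152), (nat_lit 1, nat_lit 605053783767825749900800), (nat_lit 142, nat_lit 605054935563430449906176)] [nat_lit 236, nat_lit 232, nat_lit 230, nat_lit 226, nat_lit 220, nat_lit 216, nat_lit 212, nat_lit 200, nat_lit 188, nat_lit 184, nat_lit 237, nat_lit 231, nat_lit 227, nat_lit 217, nat_lit 215, nat_lit 228, nat_lit 214],
  .lev (nat_lit 606233221341139720208896) [(nat_lit 206, nat_lit 605053783767824676160001), (nat_lit 186, nat_lit 605053781516025936217600), (nat_lit 210, nat_lit 603873191022307943382528), (nat_lit 11, nat_lit 606234374262643254362624), (nat_lit 172, nat_lit 605054935563430449906176)] [nat_lit 228, nat_lit 230, nat_lit 224, nat_lit 2, nat_lit 220, nat_lit 216, nat_lit 0, nat_lit 204, nat_lit 229, nat_lit 237, nat_lit 233, nat_lit 225, nat_lit 3, nat_lit 217, nat_lit 1, nat_lit 201, nat_lit 205, nat_lit 236, nat_lit 214, nat_lit 221],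
  .lev (nat_lit 603873191021207359063552) [(nat_lit 3, nat_lit 606234374262643254362624), (nat_lit 218, nat_lit 605053782641925844106752), (nat_lit 198, nat_lit 605054935563430449906176), (nat_lit 144, nat_lit 605053783767825749901824)] [nat_lit 236, nat_lit 230, nat_lit 232, nat_lit 0, nat_lit 214, nat_lit 220, nat_lit 204, nat_lit 188, nat_lit 231, nat_lit 233, nat_lit 215, nat_lit 217, nat_lit 201],
  .lev (nat_lit 605054934438628980950528) [(nat_lit 214, nat_lit 605054934437530543063553), (nat_lit 196, nat_lit 605054935563429377212928), (nat_lit 202, nat_lit 606234374262643253315072), (nat_lit 206, nat_lit 605053781516027009958399), (nat_lit 184, nat_lit 605053783767825748853248), (nat_lit 5, nat_lit 606234374262643254362624)] [nat_lit 232, nat_lit 226, nat_lit 224, nat_lit 216, nat_lit 220, nat_lit 210, nat_lit 204, nat_lit 237, nat_lit 227, nat_lit 225, nat_lit 217, nat_lit 230, nat_lit 236, nat_lit 231, nat_lit 211],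
  .lev (nat_lit 605053782640827404125696) [(nat_lit 210, nat_lit 603873191021208431755777), (nat_lit 228, nat_lit 605053783767824677208575), (nat_lit 218, nat_lit 605054935563429376165376), (nat_lit 190, nat_lit 605054935562330938278401), (nat_lit 184, nat_lit 605054935563430449905152), (nat_lit 1, nat_lit 606234374262643254362624)] [nat_lit 232, nat_lit 226, nat_lit 216, nat_lit 204, nat_lit 231, nat_lit 237, nat_lit 227, nat_lit 205, nat_lit 230, nat_lit 236, nat_lit 233],
  .cnt (nat_lit 4),
  .cnt (nat_lit 3),
  .lev (nat_lit 605053782641925843059201) [(nat_lit 218, nat_lit 605053782641925844107776), (nat_lit 230, nat_lit 605053782643024280945152), (nat_lit 200, nat_lit 605053783767825749900800), (nat_lit 172, nat_lit 605054935563430449906176)] [nat_lit 224, nat_lit 228, nat_lit 226, nat_lit 232, nat_lit 210, nat_lit 212, nat_lit 220, nat_lit 196, nat_lit 7, nat_lit 227, nat_lit 233, nat_lit 5, nat_lit 3, nat_lit 236],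
  .lev (nat_lit 605053783766726237226497) [(nat_lit 206, nat_lit 605053781517125447843329), (nat_lit 224, nat_lit 606235527184146787468800), (nat_lit 5, nat_lit 606234374262643254362624), (nat_lit 214, nat_lit 605053782643024280945152), (nat_lit 204, nat_lit 605053782641925843060224), (nat_lit 184, nat_lit 605054935563430449906176)] [nat_lit 0, nat_lit 226, nat_lit 236, nat_lit 232, nat_lit 212, nat_lit 220, nat_lit 229, nat_lit 1, nat_lit 213, nat_lit 221, nat_lit 228, nat_lit 237],
  .lev (nat_lit 606234373137841785406976) [(nat_lit 214, nat_lit 606234373136743347520001), (nat_lit 216, nat_lit 605053782641926915752447), (nat_lit 1, nat_lit 605053782641925844106752), (nat_lit 226, nat_lit 605054934437530543063552), (nat_lit 206, nat_lit 605053782641926916801024), (nat_lit 196, nat_lit 606234374262643254362624)] [nat_lit 236, nat_lit 232, nat_lit 220, nat_lit 237, nat_lit 233, nat_lit 225, nat_lit 221, nat_lit 229, nat_lit 224],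
  .lev (nat_lit 605054934437531616804351) [(nat_lit 224, nat_lit 606234374262643254362623), (nat_lit 230, nat_lit 605053782643024280946175), (nat_lit 1, nat_lit 605053782641925844106752), (nat_lit 206, nat_lit 605053782641925844107776), (nat_lit 200, nat_lit 605053782643025354686976), (nat_lit 212, nat_lit 605054935563430449906176)] [nat_lit 228, nat_lit 236, nat_lit 232, nat_lit 220, nat_lit 229, nat_lit 237, nat_lit 221],
  .cnt (nat_lit 4),
  .cnt (nat_lit 6),
  .cnt (nat_lit 6),
  .lev (nat_lit 605053782643024280946175) [(nat_lit 228, nat_lit 605053781516025936216578), (nat_lit 224, nat_lit 606234374262643254362623), (nat_lit 216, nat_lit 605053782641926915752447), (nat_lit 1, nat_lit 605053782641925844106752), (nat_lit 226, nat_lit 605054935563430449906176), (nat_lit 206, nat_lit 605053782641926916801024)] [nat_lit 236, nat_lit 237, nat_lit 233, nat_lit 221],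
  .lev (nat_lit 605054935563430449905152) [(nat_lit 234, nat_lit 605054935562330939326975), (nat_lit 232, nat_lit 603873191020109993869824), (nat_lit 3, nat_lit 606234374262643254362624), (nat_lit 172, nat_lit 605054935563430449906176)] [nat_lit 236, nat_lit 230, nat_lit 226, nat_lit 224, nat_lit 214, nat_lit 212, nat_lit 182, nat_lit 237, nat_lit 227, nat_lit 225, nat_lit 213, nat_lit 198],
  .lev (nat_lit 605053782640826331432449) [(nat_lit 234, nat_lit 605053782640826332481023), (nat_lit 210, nat_lit 606234374262643254362623), (nat_lit 232, nat_lit 605054935563429376165376), (nat_lit 1, nat_lit 605053783767825749900800), (nat_lit 188, nat_lit 605053783767825749901824)] [nat_lit 236, nat_lit 230, nat_lit 228, nat_lit 226, nat_lit 198, nat_lit 237, nat_lit 229, nat_lit 227, nat_lit 214],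
  .lev (nat_lit 605053782643024280945153) [(nat_lit 234, nat_lit 605053782643024281993727), (nat_lit 216, nat_lit 603873192146008826970625), (nat_lit 226, nat_lit 603874343941613526976000), (nat_lit 9, nat_lit 605053782643025354685952), (nat_lit 188, nat_lit 605053782643025354686976), (nat_lit 196, nat_lit 606234374262643254362624)] [nat_lit 236, nat_lit 230, nat_lit 224, nat_lit 2, nat_lit 237, nat_lit 225, nat_lit 3, nat_lit 215, nat_lit 1, nat_lit 231],
  .cnt (nat_lit 4),
  .lev (nat_lit 606234373137842859146752) [(nat_lit 234, nat_lit 605053782641925844107774), (nat_lit 232, nat_lit 605052630846322215747072), (nat_lit 198, nat_lit 605053782643025354685951), (nat_lit 196, nat_lit 606234374262643254362623), (nat_lit 1, nat_lit 606234374262643254362624), (nat_lit 204, nat_lit 605053782643025354686976)] [nat_lit 236, nat_lit 210, nat_lit 231, nat_lit 237, nat_lit 227, nat_lit 211, nat_lit 230, nat_lit 224],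
  .lev (nat_lit 605051476801115652618753) [(nat_lit 224, nat_lit 606234374262643254362623), (nat_lit 234, nat_lit 603873191021208432804351), (nat_lit 228, nat_lit 605053783766726238275071), (nat_lit 232, nat_lit 605054934437531616804351), (nat_lit 198, nat_lit 605053783767825748853248), (nat_lit 1, nat_lit 606234374262643254362624), (nat_lit 204, nat_lit 605053782643025354686976)] [nat_lit 236, nat_lit 231, nat_lit 237, nat_lit 227, nat_lit 226],
  .cnt (nat_lit 4),
  .cnt (nat_lit 15),
  .cnt (nat_lit 4),
  .cnt (nat_lit 12),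
  .cnt (nat_lit 3),
  .cnt (nat_lit 4),
  .cnt (nat_lit 3),
  .cnt (nat_lit 8),
  .cnt (nat_lit 8),
  .lev (nat_lit 605053782641925843057155) [(nat_lit 228, nat_lit 605053783767825749901822), (nat_lit 232, nat_lit 605053783767824676160001), (nat_lit 224, nat_lit 606234374262643254362623), (nat_lit 234, nat_lit 605053783767825748853248), (nat_lit 230, nat_lit 605053782643025354685951), (nat_lit 1, nat_lit 606234374262643254362624), (nat_lit 226, nat_lit 605054935563430449906176)] [nat_lit 236],
  .lev (nat_lit 605053782643024280945152) [(nat_lit 23, nat_lit 606234373136743348568576), (nat_lit 236, nat_lit 605053782641925844106752), (nat_lit 144, nat_lit 606234374262643254361600), (nat_lit 92, nat_lit 606234374262643254362624)] [nat_lit 226, nat_lit 230, nat_lit 232, nat_lit 210, nat_lit 212, nat_lit 214, nat_lit 216, nat_lit 218, nat_lit 196, nat_lit 198, nat_lit 200, nat_lit 202, nat_lit 182, nat_lit 184, nat_lit 186, nat_lit 6, nat_lit 168, nat_lit 170, nat_lit 4, nat_lit 154, nat_lit 2, nat_lit 0, nat_lit 233, nat_lit 219],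
  .lev (nat_lit 606233221341137574823424) [(nat_lit 5, nat_lit 606234373136743348568576), (nat_lit 220, nat_lit 605053782641925844106752), (nat_lit 196, nat_lit 606234374262643254362624), (nat_lit 158, nat_lit 605054935563430449906176), (nat_lit 144, nat_lit 605053783767825749901824)] [nat_lit 0, nat_lit 226, nat_lit 228, nat_lit 232, nat_lit 234, nat_lit 212, nat_lit 216, nat_lit 198, nat_lit 200, nat_lit 231, nat_lit 233, nat_lit 215, nat_lit 217, nat_lit 201, nat_lit 203, nat_lit 187, nat_lit 230, nat_lit 214, nat_lit 202, nat_lit 186, nat_lit 227, nat_lit 213],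
  .lev (nat_lit 603874342816814205500928) [(nat_lit 204, nat_lit 605053782641924770365953), (nat_lit 206, nat_lit 603873191022307943382528), (nat_lit 1, nat_lit 605053782643025353638400), (nat_lit 212, nat_lit 605054935563430448857600), (nat_lit 154, nat_lit 606234374262643254362624)] [nat_lit 228, nat_lit 234, nat_lit 214, nat_lit 218, nat_lit 200, nat_lit 202, nat_lit 186, nat_lit 229, nat_lit 231, nat_lit 235, nat_lit 217, nat_lit 219, nat_lit 203, nat_lit 187, nat_lit 230, nat_lit 224, nat_lit 216],
  .lev (nat_lit 605053782640826331432449) [(nat_lit 224, nat_lit 606234374262643254362623), (nat_lit 204, nat_lit 605054934437530543064575), (nat_lit 1, nat_lit 605053782641925844106752), (nat_lit 212, nat_lit 605054935563430449906176), (nat_lit 160, nat_lit 605053783767825749901824)] [nat_lit 228, nat_lit 234, nat_lit 216, nat_lit 218, nat_lit 202, nat_lit 186, nat_lit 229, nat_lit 231, nat_lit 233, nat_lit 217, nat_lit 201, nat_lit 230],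
  .lev (nat_lit 605054933312730148896255) [(nat_lit 7, nat_lit 603874342816814205500928), (nat_lit 198, nat_lit 606233221341138647515648), (nat_lit 186, nat_lit 605052630846321143054848), (nat_lit 168, nat_lit 606234374262643254362624), (nat_lit 204, nat_lit 605053782643025354686976), (nat_lit 206, nat_lit 605053782641926916801024)] [nat_lit 4, nat_lit 224, nat_lit 226, nat_lit 232, nat_lit 2, nat_lit 210, nat_lit 218, nat_lit 0, nat_lit 202, nat_lit 227, nat_lit 231, nat_lit 235, nat_lit 3, nat_lit 217, nat_lit 1, nat_lit 230],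
  .lev (nat_lit 605053782643024279897601) [(nat_lit 228, nat_lit 605054934437530543063553), (nat_lit 184, nat_lit 605052629720421236212225), (nat_lit 220, nat_lit 605052629721520747838976), (nat_lit 5, nat_lit 605053782641925844106752), (nat_lit 224, nat_lit 606234374262643254362624), (nat_lit 190, nat_lit 605053782643025354686976)] [nat_lit 0, nat_lit 232, nat_lit 216, nat_lit 202, nat_lit 227, nat_lit 231, nat_lit 235, nat_lit 217, nat_lit 203, nat_lit 230, nat_lit 234, nat_lit 233],
  .lev (nat_lit 605053783766725165581824) [(nat_lit 214, nat_lit 606233221342238158094848), (nat_lit 220, nat_lit 605053782643025354685951), (nat_lit 1, nat_lit 605053782641925844106752), (nat_lit 190, nat_lit 605053782643025354686976), (nat_lit 210, nat_lit 606234374262643254362624)] [nat_lit 230, nat_lit 234, nat_lit 224, nat_lit 218, nat_lit 202, nat_lit 231, nat_lit 233, nat_lit 225, nat_lit 232],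
  .cnt (nat_lit 3),
  .lev (nat_lit 605053783767824676161024) [(nat_lit 230, nat_lit 605053781517125447844351), (nat_lit 7, nat_lit 605052630846321143054848), (nat_lit 206, nat_lit 605053782641925843060224), (nat_lit 168, nat_lit 606234374262643254362624), (nat_lit 170, nat_lit 605054935563430449906176)] [nat_lit 228, nat_lit 224, nat_lit 232, nat_lit 212, nat_lit 218, nat_lit 196, nat_lit 229, nat_lit 227, nat_lit 225, nat_lit 235, nat_lit 213, nat_lit 211, nat_lit 219, nat_lit 197],
  .lev (nat_lit 603874343942713037555200) [(nat_lit 1, nat_lit 606234373137841786454528), (nat_lit 214, nat_lit 605054934437530543063552), (nat_lit 216, nat_lit 605053782641926915752448), (nat_lit 206, nat_lit 605053782641925843060224), (nat_lit 196, nat_lit 606234374262643254362624), (nat_lit 170, nat_lit 605054935563430449906176)] [nat_lit 228, nat_lit 226, nat_lit 234, nat_lit 212, nat_lit 218, nat_lit 233, nat_lit 235, nat_lit 213, nat_lit 219, nat_lit 229],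
  .cnt (nat_lit 3),
  .lev (nat_lit 605053782641925843059201) [(nat_lit 212, nat_lit 605054935563430449906176), (nat_lit 214, nat_lit 605053783767825749901824), (nat_lit 220, nat_lit 605053782641925843060224), (nat_lit 202, nat_lit 605053782643025354686976), (nat_lit 224, nat_lit 606234374262643254362624)] [nat_lit 228, nat_lit 232, nat_lit 234, nat_lit 1, nat_lit 233, nat_lit 235, nat_lit 219, nat_lit 229],
  .cnt (nat_lit 4),
  .cnt (nat_lit 4),
  .cnt (nat_lit 6),
  .cnt (nat_lit 8),
  .cnt (nat_lit 3),
  .cnt (nat_lit 3),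
  .lev (nat_lit 606234374261543743783424) [(nat_lit 226, nat_lit 603874343942713038602751), (nat_lit 232, nat_lit 605053782641924770365953), (nat_lit 236, nat_lit 605053783766726238275071), (nat_lit 3, nat_lit 605053783766726238274048), (nat_lit 182, nat_lit 606234374262643254362624), (nat_lit 186, nat_lit 605053783767825749901824)] [nat_lit 228, nat_lit 230, nat_lit 224, nat_lit 234, nat_lit 229, nat_lit 231, nat_lit 235, nat_lit 214, nat_lit 225],
  .cnt (nat_lit 3),
  .lev (nat_lit 605053782641925843059201) [(nat_lit 232, nat_lit 605053782641926915752448), (nat_lit 202, nat_lit 605053782641926916801024), (nat_lit 212, nat_lit 605054935562330938278400), (nat_lit 236, nat_lit 605053782641925843060224), (nat_lit 182, nat_lit 606234374262643254362624)] [nat_lit 224, nat_lit 234, nat_lit 225, nat_lit 227, nat_lit 235, nat_lit 3, nat_lit 211, nat_lit 1],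
  .lev (nat_lit 605056088482736035594751) [(nat_lit 232, nat_lit 605053782641924770365953), (nat_lit 228, nat_lit 605052630846321143054847), (nat_lit 5, nat_lit 605054935562330939326976), (nat_lit 224, nat_lit 606234374262643254362624), (nat_lit 202, nat_lit 605053782641926916801024), (nat_lit 198, nat_lit 605054935563430449906176), (nat_lit 236, nat_lit 605053782641925843060224)] [nat_lit 0, nat_lit 234, nat_lit 1, nat_lit 231, nat_lit 235, nat_lit 230],
  .lev (nat_lit 606233222465940115423744) [(nat_lit 214, nat_lit 605053783767825749901822), (nat_lit 236, nat_lit 606233221341138647516671), (nat_lit 1, nat_lit 606233221341138647515648), (nat_lit 210, nat_lit 606234374262643254362624), (nat_lit 216, nat_lit 605053782643025354686976), (nat_lit 218, nat_lit 605053782641926916801024)] [nat_lit 230, nat_lit 224, nat_lit 225, nat_lit 235, nat_lit 231],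
  .lev (nat_lit 605053780392325050532355) [(nat_lit 232, nat_lit 605053782641924770365953), (nat_lit 214, nat_lit 605053783767824677208575), (nat_lit 236, nat_lit 605053783768924187786752), (nat_lit 226, nat_lit 605054935563430449905152), (nat_lit 1, nat_lit 605053782643025353638400), (nat_lit 224, nat_lit 606234374262643254362624), (nat_lit 202, nat_lit 605053782643025354686976)] [nat_lit 230, nat_lit 234, nat_lit 231],
  .cnt (nat_lit 10),
  .cnt (nat_lit 3),
  .cnt (nat_lit 3),
  .cnt (nat_lit 4),
  .cnt (nat_lit 3),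
  .cnt (nat_lit 21),
  .cnt (nat_lit 3),
  .cnt (nat_lit 3),
  .cnt (nat_lit 4),
  .lev (nat_lit 603873191022307942334976) [(nat_lit 3, nat_lit 605053783766726238274048), (nat_lit 186, nat_lit 605054935562330938278400), (nat_lit 170, nat_lit 605053782641925844107776), (nat_lit 220, nat_lit 605053782641926916801024), (nat_lit 182, nat_lit 606234374262643254362624)] [nat_lit 0, nat_lit 226, nat_lit 230, nat_lit 232, nat_lit 212, nat_lit 214, nat_lit 184, nat_lit 1, nat_lit 229, nat_lit 231, nat_lit 233, nat_lit 199, nat_lit 201, nat_lit 198, nat_lit 215],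
  .lev (nat_lit 605056086233135243067905) [(nat_lit 234, nat_lit 606233221342237086451198), (nat_lit 218, nat_lit 603874343941614600715776), (nat_lit 220, nat_lit 605054934437530544111104), (nat_lit 3, nat_lit 605054934437530543063552), (nat_lit 198, nat_lit 605053782643024280945152), (nat_lit 196, nat_lit 606234374262642180620800), (nat_lit 168, nat_lit 606234374262643254362624)] [nat_lit 232, nat_lit 224, nat_lit 216, nat_lit 200, nat_lit 229, nat_lit 231, nat_lit 233, nat_lit 225, nat_lit 215, nat_lit 230, nat_lit 214],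
  .lev (nat_lit 605051479050716443050495) [(nat_lit 224, nat_lit 606234374262643254362623), (nat_lit 218, nat_lit 603873191021208432804351), (nat_lit 236, nat_lit 605053783766726238275071), (nat_lit 1, nat_lit 605052630846321143054848), (nat_lit 204, nat_lit 605053782641925843060224), (nat_lit 198, nat_lit 605054935563429376164352), (nat_lit 184, nat_lit 605054935563430449906176)] [nat_lit 228, nat_lit 230, nat_lit 232, nat_lit 214, nat_lit 231, nat_lit 233, nat_lit 215],
  .cnt (nat_lit 6),
  .lev (nat_lit 603874342817911569647104) [(nat_lit 212, nat_lit 603874343942713038602751), (nat_lit 214, nat_lit 606233222467038554358271), (nat_lit 3, nat_lit 605053782643025353638400), (nat_lit 202, nat_lit 605053782643025354686976), (nat_lit 220, nat_lit 605053782641926916801024), (nat_lit 210, nat_lit 606234374262643254362624)] [nat_lit 0, nat_lit 232, nat_lit 216, nat_lit 227, nat_lit 1, nat_lit 231, nat_lit 233, nat_lit 217, nat_lit 226, nat_lit 230],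
  .lev (nat_lit 605053782641927988443649) [(nat_lit 214, nat_lit 605053783767825749901822), (nat_lit 220, nat_lit 605053782641926915752447), (nat_lit 1, nat_lit 606233221341138647515649), (nat_lit 218, nat_lit 605053782643025353637377), (nat_lit 210, nat_lit 605054935563430449905152), (nat_lit 3, nat_lit 606234374262643254362624), (nat_lit 202, nat_lit 605053782643025354686976)] [nat_lit 230, nat_lit 232, nat_lit 231, nat_lit 225, nat_lit 217, nat_lit 233],
  .lev (nat_lit 605053782641927988443649) [(nat_lit 228, nat_lit 605053783767825749901822), (nat_lit 224, nat_lit 606234374262643254362623), (nat_lit 218, nat_lit 605053782643025353637377), (nat_lit 226, nat_lit 605052629719322798326273), (nat_lit 1, nat_lit 605053782640827405173248), (nat_lit 202, nat_lit 605053782641925844107776), (nat_lit 204, nat_lit 605053782643025354686976)] [nat_lit 230, nat_lit 216, nat_lit 231, nat_lit 233, nat_lit 217],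
  .lev (nat_lit 606234373136743347520001) [(nat_lit 218, nat_lit 606234373136743348568575), (nat_lit 1, nat_lit 605054934437530543063552), (nat_lit 236, nat_lit 606234374261544816475648), (nat_lit 216, nat_lit 605053782641926916800000), (nat_lit 220, nat_lit 605053782641926916801024), (nat_lit 182, nat_lit 606234374262643254362624)] [nat_lit 228, nat_lit 224, nat_lit 232, nat_lit 212, nat_lit 210, nat_lit 196, nat_lit 225, nat_lit 211, nat_lit 197, nat_lit 233],
  .lev (nat_lit 607412660040351451972097) [(nat_lit 234, nat_lit 605053783766727310966273), (nat_lit 218, nat_lit 605053782641925844107774), (nat_lit 1, nat_lit 606233221341138647515648), (nat_lit 214, nat_lit 605053783767825749901824), (nat_lit 216, nat_lit 605053782643025354686976), (nat_lit 210, nat_lit 606234374262643254362624), (nat_lit 220, nat_lit 605053782641926916801024)] [nat_lit 226, nat_lit 232, nat_lit 212, nat_lit 229, nat_lit 227, nat_lit 233, nat_lit 228],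
  .cnt (nat_lit 3),
  .lev (nat_lit 605053782641925843059201) [(nat_lit 236, nat_lit 605053782641925843060224), (nat_lit 230, nat_lit 605054934438628981998080), (nat_lit 218, nat_lit 605053782641925844107776), (nat_lit 212, nat_lit 605054935563430449906176), (nat_lit 214, nat_lit 605053783767825749901824), (nat_lit 216, nat_lit 605053782643025354686976), (nat_lit 224, nat_lit 606234374262643254362624)] [nat_lit 228, nat_lit 232, nat_lit 229, nat_lit 1, nat_lit 233],
  .cnt (nat_lit 3),
  .lev (nat_lit 607412660040351451972097) [(nat_lit 228, nat_lit 605053783767825749901822), (nat_lit 234, nat_lit 606233221342237086450175), (nat_lit 1, nat_lit 606233221341138647515648), (nat_lit 236, nat_lit 605053782641925843060224), (nat_lit 218, nat_lit 605053782641925844107776), (nat_lit 216, nat_lit 605053782643025354686976), (nat_lit 210, nat_lit 606234374262643254362624)] [nat_lit 226, nat_lit 232, nat_lit 227, nat_lit 233],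
  .cnt (nat_lit 6),
  .lev (nat_lit 602692599400491020452353) [(nat_lit 228, nat_lit 605053783767825749901822), (nat_lit 226, nat_lit 603874343942713038602751), (nat_lit 236, nat_lit 603873191021207359063552), (nat_lit 230, nat_lit 603873189896408036540928), (nat_lit 3, nat_lit 606234374262643254362624), (nat_lit 218, nat_lit 605053782641925844107776), (nat_lit 220, nat_lit 605053782641926916801024)] [nat_lit 0, nat_lit 232, nat_lit 233],
  .cnt (nat_lit 4),
  .cnt (nat_lit 5),
  .lev (nat_lit 606233221342237085401601) [(nat_lit 234, nat_lit 605053782641925844107774), (nat_lit 236, nat_lit 605054934437530544111104), (nat_lit 1, nat_lit 605054934437530543063552), (nat_lit 216, nat_lit 605053782641926916801024), (nat_lit 198, nat_lit 605053782643025354686976), (nat_lit 196, nat_lit 606234374262643254362624)] [nat_lit 228, nat_lit 230, nat_lit 224, nat_lit 229, nat_lit 225, nat_lit 215, nat_lit 231],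
  .cnt (nat_lit 4),
  .cnt (nat_lit 5),
  .lev (nat_lit 607412662289952242401795) [(nat_lit 234, nat_lit 605053782641925844107774), (nat_lit 232, nat_lit 605053782641926915752447), (nat_lit 3, nat_lit 605053782641925843059201), (nat_lit 212, nat_lit 605053783766726238274048), (nat_lit 214, nat_lit 605053783767825749901824), (nat_lit 236, nat_lit 605053782641925843060224), (nat_lit 210, nat_lit 606234374262643254362624)] [nat_lit 0, nat_lit 227, nat_lit 1, nat_lit 226, nat_lit 230],
  .lev (nat_lit 606233220216338252300800) [(nat_lit 234, nat_lit 605053782641925844107774), (nat_lit 214, nat_lit 605053783767825748853248), (nat_lit 236, nat_lit 605053782643025354685951), (nat_lit 1, nat_lit 606233221341138647515648), (nat_lit 232, nat_lit 605053782641926916801024), (nat_lit 210, nat_lit 606234374262643254362624)] [nat_lit 230, nat_lit 224, nat_lit 231, nat_lit 225],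
  .lev (nat_lit 605053782639728967287295) [(nat_lit 228, nat_lit 605053783767825749901822), (nat_lit 224, nat_lit 606234374262643254362623), (nat_lit 234, nat_lit 605053781516025937265152), (nat_lit 236, nat_lit 605053782643024281992704), (nat_lit 226, nat_lit 605054935563430449905152), (nat_lit 1, nat_lit 605053782643024280945152), (nat_lit 216, nat_lit 605053782643025354686976)] [nat_lit 230, nat_lit 231],
  .cnt (nat_lit 5),
  .lev (nat_lit 606234373136743347520001) [(nat_lit 234, nat_lit 606234373136743348568575), (nat_lit 232, nat_lit 605053782641926915752447), (nat_lit 230, nat_lit 605054934436432105177600), (nat_lit 1, nat_lit 605054934437530543063552), (nat_lit 236, nat_lit 605053782641925843060224), (nat_lit 196, nat_lit 606234374262643254362624)] [nat_lit 228, nat_lit 212, nat_lit 229, nat_lit 213],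
  .cnt (nat_lit 6),
  .cnt (nat_lit 10),
  .cnt (nat_lit 8),
  .lev (nat_lit 605056086233135243067905) [(nat_lit 234, nat_lit 605053782641925844107774), (nat_lit 224, nat_lit 603873191021208431755777), (nat_lit 232, nat_lit 603873191021209504449024), (nat_lit 212, nat_lit 605053783767825748853248), (nat_lit 1, nat_lit 606234374262643254362624), (nat_lit 230, nat_lit 605053782643025354686976), (nat_lit 236, nat_lit 605053782641925843060224)] [nat_lit 226, nat_lit 227],
  .cnt (nat_lit 5),
  .cnt (nat_lit 3)]

theorem gE8_0 : tE8.grp 0 cE8_0 = true := by decide +kernel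

/-- certificates -/
def cE8_1 : List Ce := [
  .cnt (nat_lit 1),
  .cnt (nat_lit 1),
  .cnt (nat_lit 2),
  .cnt (nat_lit 6),
  .cnt (nat_lit 1),
  .cnt (nat_lit 1),
  .cnt (nat_lit 1),
  .cnt (nat_lit 1),
  .cnt (nat_lit 2),
  .cnt (nat_lit 2),
  .cnt (nat_lit 1),
  .cnt (nat_lit 1),
  .cnt (nat_lit 2),
  .cnt (nat_lit 2),
  .cnt (nat_lit 1),
  .cnt (nat_lit 6),
  .cnt (nat_lit 1),
  .cnt (nat_lit 2),
  .cnt (nat_lit 2),
  .cnt (nat_lit 5),
  .cnt (nat_lit 1),
  .cnt (nat_lit 1),
  .cnt (nat_lit 2),
  .cnt (nat_lit 1),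
  .cnt (nat_lit 2),
  .cnt (nat_lit 1),
  .cnt (nat_lit 1),
  .cnt (nat_lit 2),
  .cnt (nat_lit 1),
  .cnt (nat_lit 2),
  .cnt (nat_lit 2),
  .cnt (nat_lit 2),
  .cnt (nat_lit 1),
  .cnt (nat_lit 1),
  .cnt (nat_lit 2),
  .cnt (nat_lit 2),
  .cnt (nat_lit 1),
  .cnt (nat_lit 1),
  .cnt (nat_lit 1),
  .cnt (nat_lit 1),
  .cnt (nat_lit 1),
  .cnt (nat_lit 2),
  .cnt (nat_lit 1),
  .cnt (nat_lit 1),
  .cnt (nat_lit 2),
  .cnt (nat_lit 1),
  .cnt (nat_lit 1),
  .cnt (nat_lit 1),
  .cnt (nat_lit 1),
  .cnt (nat_lit 2),
  .cnt (nat_lit 2),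
  .lev (nat_lit 605053782641926914703873) [(nat_lit 226, nat_lit 605054935563430449905152), (nat_lit 230, nat_lit 605053782640826332481023), (nat_lit 1, nat_lit 605053782641926915752448), (nat_lit 224, nat_lit 606234374262643254362624), (nat_lit 228, nat_lit 605053783767825749901824), (nat_lit 208, nat_lit 605053782641926916801024)] [nat_lit 232, nat_lit 218, nat_lit 233, nat_lit 219],
  .cnt (nat_lit 1),
  .cnt (nat_lit 2),
  .cnt (nat_lit 1),
  .cnt (nat_lit 1),
  .cnt (nat_lit 1),
  .cnt (nat_lit 1),
  .cnt (nat_lit 1),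
  .cnt (nat_lit 1),
  .cnt (nat_lit 1),
  .cnt (nat_lit 1),
  .cnt (nat_lit 2),
  .lev (nat_lit 605053782641929061136896) [(nat_lit 226, nat_lit 605054935563430449905152), (nat_lit 230, nat_lit 605053782643024281992704), (nat_lit 1, nat_lit 605053782641924770365952), (nat_lit 238, nat_lit 605053782641925843059201), (nat_lit 224, nat_lit 606234374262643254362624), (nat_lit 228, nat_lit 605053783767825749901824), (nat_lit 218, nat_lit 605053782641926916801024)] [nat_lit 234, nat_lit 235],
  .cnt (nat_lit 1),
  .cnt (nat_lit 6),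
  .cnt (nat_lit 1),
  .cnt (nat_lit 2),
  .cnt (nat_lit 2),
  .cnt (nat_lit 1),
  .cnt (nat_lit 2),
  .cnt (nat_lit 1),
  .cnt (nat_lit 1),
  .cnt (nat_lit 2),
  .cnt (nat_lit 2),
  .cnt (nat_lit 2),
  .cnt (nat_lit 1),
  .lev (nat_lit 606233221340040209629696) [(nat_lit 228, nat_lit 605053783768924187786752), (nat_lit 1, nat_lit 605053782643024280945152), (nat_lit 216, nat_lit 605053782643025354686976), (nat_lit 238, nat_lit 605053782641925843059201), (nat_lit 234, nat_lit 605053782641925844107776), (nat_lit 210, nat_lit 606234374262643254362624)] [nat_lit 224, nat_lit 230, nat_lit 225, nat_lit 231],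
  .lev (nat_lit 605053782641925843060224) [(nat_lit 232, nat_lit 605053782641926916801024), (nat_lit 234, nat_lit 605053782641925844107776), (nat_lit 182, nat_lit 606234374262643254362624), (nat_lit 238, nat_lit 605053782641925843059201)] [nat_lit 225, nat_lit 211, nat_lit 197, nat_lit 1],
  .cnt (nat_lit 2),
  .cnt (nat_lit 1),
  .cnt (nat_lit 1),
  .cnt (nat_lit 1),
  .cnt (nat_lit 1)]

theorem gE8_1 : tE8.grp 1 cE8_1 = true := by decide +kernel

/-- certificates -/
def cE8_2 : List Ce := [
  .cnt (nat_lit 3),
  .cnt (nat_lit 1),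
  .cnt (nat_lit 3),
  .cnt (nat_lit 1),
  .spn (nat_lit 605053782641925844107774),
  .cnt (nat_lit 1),
  .cnt (nat_lit 1),
  .cnt (nat_lit 5),
  .cnt (nat_lit 1),
  .cnt (nat_lit 1),
  .cnt (nat_lit 1),
  .cnt (nat_lit 1),
  .cnt (nat_lit 3),
  .cnt (nat_lit 3),
  .cnt (nat_lit 3),
  .spn (nat_lit 605053782641925844107774),
  .cnt (nat_lit 1),
  .cnt (nat_lit 1),
  .cnt (nat_lit 1),
  .cnt (nat_lit 1),
  .cnt (nat_lit 3),
  .spn (nat_lit 605053782641925844107774),
  .spn (nat_lit 605053782641925844107774),
  .cnt (nat_lit 1),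
  .cnt (nat_lit 1),
  .spn (nat_lit 605053782641925844107774),
  .cnt (nat_lit 1),
  .spn (nat_lit 605053782641925844107774),
  .cnt (nat_lit 5),
  .cnt (nat_lit 3),
  .cnt (nat_lit 3),
  .spn (nat_lit 605053782641925844107774),
  .cnt (nat_lit 1),
  .cnt (nat_lit 8),
  .cnt (nat_lit 1),
  .cnt (nat_lit 1),
  .cnt (nat_lit 1),
  .cnt (nat_lit 1),
  .cnt (nat_lit 1),
  .cnt (nat_lit 1),
  .cnt (nat_lit 3),
  .cnt (nat_lit 1),
  .lev (nat_lit 600336023345873045418496) [(nat_lit 232, nat_lit 603874342817911570694656), (nat_lit 212, nat_lit 603874343942714111294976), (nat_lit 214, nat_lit 605053781516025937265152), (nat_lit 210, nat_lit 605054935563429376165376), (nat_lit 1, nat_lit 606234374262643254362624), (nat_lit 238, nat_lit 605053782641925843059201), (nat_lit 204, nat_lit 605053782643025354686976)] [nat_lit 226, nat_lit 230, nat_lit 236, nat_lit 231, nat_lit 227],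
  .cnt (nat_lit 1),
  .cnt (nat_lit 3),
  .cnt (nat_lit 1),
  .cnt (nat_lit 3),
  .cnt (nat_lit 1),
  .cnt (nat_lit 1),
  .cnt (nat_lit 3),
  .cnt (nat_lit 1),
  .cnt (nat_lit 1),
  .cnt (nat_lit 1),
  .cnt (nat_lit 1),
  .lev (nat_lit 606234374263741692248576) [(nat_lit 228, nat_lit 605053781516025937265152), (nat_lit 216, nat_lit 605054936689329283006976), (nat_lit 238, nat_lit 605052630846321143054847), (nat_lit 5, nat_lit 606234374262643254362624), (nat_lit 236, nat_lit 605053782641925843060224)] [nat_lit 226, nat_lit 232, nat_lit 210, nat_lit 227, nat_lit 233, nat_lit 211],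
  .cnt (nat_lit 1),
  .cnt (nat_lit 1),
  .cnt (nat_lit 1),
  .cnt (nat_lit 1),
  .cnt (nat_lit 1),
  .cnt (nat_lit 1),
  .cnt (nat_lit 3),
  .lev (nat_lit 605058389824344644125184) [(nat_lit 224, nat_lit 606236677853852654371328), (nat_lit 212, nat_lit 605053783767825748853248), (nat_lit 232, nat_lit 606234375388542087463424), (nat_lit 230, nat_lit 606235527183048349581824), (nat_lit 238, nat_lit 606234374262643254362623), (nat_lit 236, nat_lit 605054935563430449905152), (nat_lit 1, nat_lit 606234374262643254362624)] [nat_lit 226, nat_lit 227],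
  .cnt (nat_lit 3)]

theorem gE8_2 : tE8.grp 2 cE8_2 = true := by decide +kernel

/-- certificates -/
def cE8_3 : List Ce := [
  .cnt (nat_lit 2),
  .cnt (nat_lit 1),
  .cnt (nat_lit 1),
  .cnt (nat_lit 5),
  .cnt (nat_lit 1),
  .cnt (nat_lit 1),
  .cnt (nat_lit 2),
  .cnt (nat_lit 4),
  .cnt (nat_lit 1),
  .cnt (nat_lit 1),
  .cnt (nat_lit 1),
  .spn (nat_lit 605053782641924770365953),
  .spn (nat_lit 605053782641926915752447),
  .cnt (nat_lit 1),
  .cnt (nat_lit 7),
  .cnt (nat_lit 1),
  .cnt (nat_lit 1),
  .cnt (nat_lit 2),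
  .cnt (nat_lit 2),
  .cnt (nat_lit 1),
  .cnt (nat_lit 4),
  .cnt (nat_lit 1),
  .cnt (nat_lit 2),
  .cnt (nat_lit 1),
  .cnt (nat_lit 1),
  .cnt (nat_lit 2),
  .cnt (nat_lit 1),
  .cnt (nat_lit 1),
  .spn (nat_lit 605053782641926916798976),
  .cnt (nat_lit 2),
  .cnt (nat_lit 1),
  .cnt (nat_lit 1),
  .cnt (nat_lit 2),
  .cnt (nat_lit 1),
  .cnt (nat_lit 1),
  .cnt (nat_lit 1),
  .cnt (nat_lit 1),
  .cnt (nat_lit 1),
  .cnt (nat_lit 1),
  .cnt (nat_lit 1),
  .cnt (nat_lit 1),
  .cnt (nat_lit 1)]

theorem gE8_3 : tE8.grp 3 cE8_3 = true := by decide +kernel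

/-- certificates -/
def cE8_4 : List Ce := [
  .cnt (nat_lit 3),
  .cnt (nat_lit 1),
  .cnt (nat_lit 3),
  .cnt (nat_lit 4),
  .cnt (nat_lit 1),
  .cnt (nat_lit 1),
  .cnt (nat_lit 1),
  .cnt (nat_lit 2),
  .cnt (nat_lit 1),
  .lev (nat_lit 605053782641926917847550) [(nat_lit 1, nat_lit 605053782641925842011649), (nat_lit 224, nat_lit 606234374262643254362624), (nat_lit 228, nat_lit 605053783767825749901824), (nat_lit 206, nat_lit 605053782641925843060224), (nat_lit 208, nat_lit 605053782641926916801024), (nat_lit 226, nat_lit 605054935563430449906176)] [nat_lit 236, nat_lit 233, nat_lit 237, nat_lit 221],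
  .cnt (nat_lit 1),
  .cnt (nat_lit 1),
  .cnt (nat_lit 1),
  .cnt (nat_lit 1),
  .cnt (nat_lit 2),
  .cnt (nat_lit 1),
  .cnt (nat_lit 3),
  .cnt (nat_lit 1),
  .cnt (nat_lit 1),
  .cnt (nat_lit 2),
  .cnt (nat_lit 1),
  .cnt (nat_lit 1),
  .cnt (nat_lit 1),
  .cnt (nat_lit 3),
  .cnt (nat_lit 1),
  .cnt (nat_lit 1),
  .cnt (nat_lit 1),
  .cnt (nat_lit 2),
  .cnt (nat_lit 1),
  .cnt (nat_lit 2),
  .cnt (nat_lit 1),
  .cnt (nat_lit 1),
  .cnt (nat_lit 1),
  .cnt (nat_lit 2),
  .cnt (nat_lit 1),
  .cnt (nat_lit 1),
  .cnt (nat_lit 1),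
  .cnt (nat_lit 2),
  .cnt (nat_lit 1),
  .cnt (nat_lit 1),
  .cnt (nat_lit 1),
  .cnt (nat_lit 2),
  .cnt (nat_lit 1),
  .cnt (nat_lit 1),
  .cnt (nat_lit 1),
  .cnt (nat_lit 2),
  .cnt (nat_lit 1),
  .cnt (nat_lit 1),
  .cnt (nat_lit 1),
  .lev (nat_lit 605053782643025354686976) [(nat_lit 232, nat_lit 605053782641926916801024), (nat_lit 236, nat_lit 605053782641925843060224), (nat_lit 238, nat_lit 605053782641925843059201), (nat_lit 228, nat_lit 605053783767825749901824), (nat_lit 234, nat_lit 605053782641925844107776)] [nat_lit 226, nat_lit 210, nat_lit 5],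
  .cnt (nat_lit 1)]

theorem gE8_4 : tE8.grp 4 cE8_4 = true := by decide +kernel

/-- certificates -/
def cE8_5 : List Ce := [
  .cnt (nat_lit 3),
  .cnt (nat_lit 1),
  .cnt (nat_lit 1),
  .lev (nat_lit 605053782643025354685951) [(nat_lit 1, nat_lit 605053782643024280945152), (nat_lit 190, nat_lit 605053782641925843060224), (nat_lit 192, nat_lit 605053782643025354686976), (nat_lit 224, nat_lit 606234374262643254362624), (nat_lit 226, nat_lit 605054935563430449906176)] [nat_lit 236, nat_lit 232, nat_lit 220, nat_lit 206, nat_lit 237, nat_lit 235, nat_lit 223, nat_lit 207],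
  .cnt (nat_lit 1),
  .cnt (nat_lit 1),
  .cnt (nat_lit 3),
  .cnt (nat_lit 3),
  .lev (nat_lit 605053782643024281992704) [(nat_lit 1, nat_lit 605053782641925842011649), (nat_lit 208, nat_lit 605053782641925843059201), (nat_lit 224, nat_lit 606234374262643254362624), (nat_lit 190, nat_lit 605053782643025354686976)] [nat_lit 226, nat_lit 230, nat_lit 232, nat_lit 236, nat_lit 238, nat_lit 204, nat_lit 231, nat_lit 233, nat_lit 237, nat_lit 239, nat_lit 205],
  .cnt (nat_lit 1),
  .lev (nat_lit 605054935563429377212928) [(nat_lit 218, nat_lit 605053781516027009958399), (nat_lit 230, nat_lit 605053781517125446796800), (nat_lit 224, nat_lit 603873191021208432803328), (nat_lit 5, nat_lit 606234374262643254362624), (nat_lit 194, nat_lit 605053782641926916801024)] [nat_lit 232, nat_lit 0, nat_lit 236, nat_lit 238, nat_lit 220, nat_lit 233, nat_lit 1, nat_lit 221],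
  .cnt (nat_lit 1),
  .cnt (nat_lit 1),
  .cnt (nat_lit 1),
  .cnt (nat_lit 3),
  .cnt (nat_lit 3),
  .cnt (nat_lit 1),
  .cnt (nat_lit 1),
  .cnt (nat_lit 1),
  .cnt (nat_lit 1),
  .cnt (nat_lit 1),
  .cnt (nat_lit 3),
  .cnt (nat_lit 6),
  .lev (nat_lit 605053783767825749901824) [(nat_lit 232, nat_lit 605053782641926916801024), (nat_lit 224, nat_lit 606234374262643254362624), (nat_lit 226, nat_lit 605054935563430449906176), (nat_lit 230, nat_lit 605053782643025354686976), (nat_lit 236, nat_lit 605053782641925843060224)] [nat_lit 234, nat_lit 222, nat_lit 1],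
  .cnt (nat_lit 1),
  .cnt (nat_lit 1),
  .lev (nat_lit 605052630845222704120321) [(nat_lit 1, nat_lit 605053782640827404124673), (nat_lit 236, nat_lit 605053782641925843060224), (nat_lit 224, nat_lit 606234374262643254362624), (nat_lit 218, nat_lit 605053782641925844107775), (nat_lit 222, nat_lit 605053782641925844107776), (nat_lit 216, nat_lit 605053782643025354686976)] [nat_lit 238, nat_lit 226, nat_lit 239, nat_lit 232, nat_lit 233],
  .cnt (nat_lit 1),
  .cnt (nat_lit 1),
  .cnt (nat_lit 1),
  .cnt (nat_lit 3),
  .cnt (nat_lit 3),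
  .cnt (nat_lit 1),
  .cnt (nat_lit 1),
  .cnt (nat_lit 3),
  .cnt (nat_lit 1),
  .cnt (nat_lit 1),
  .lev (nat_lit 605054935562330938279424) [(nat_lit 232, nat_lit 605052629720422308905472), (nat_lit 5, nat_lit 606234374262643254362624), (nat_lit 238, nat_lit 605053782641925843059201), (nat_lit 218, nat_lit 605053782641926916800000), (nat_lit 190, nat_lit 605053782643025354686976)] [nat_lit 2, nat_lit 234, nat_lit 0, nat_lit 237, nat_lit 231, nat_lit 235, nat_lit 236, nat_lit 230],
  .cnt (nat_lit 3),
  .cnt (nat_lit 1),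
  .lev (nat_lit 605054935563429377212928) [(nat_lit 202, nat_lit 606234374262643253315072), (nat_lit 206, nat_lit 605053783767825748853248), (nat_lit 5, nat_lit 606234374262643254362624), (nat_lit 238, nat_lit 605053782641925843059201)] [nat_lit 230, nat_lit 216, nat_lit 231, nat_lit 227, nat_lit 217, nat_lit 211],
  .lev (nat_lit 605053783767825749901824) [(nat_lit 238, nat_lit 605053782641925843059201), (nat_lit 224, nat_lit 606234374262643254362624), (nat_lit 218, nat_lit 605053782641926916800000), (nat_lit 226, nat_lit 605054935563430449906176), (nat_lit 190, nat_lit 605053782643025354686976)] [nat_lit 236, nat_lit 232, nat_lit 230, nat_lit 1, nat_lit 233],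
  .cnt (nat_lit 1),
  .lev (nat_lit 606233222467038554357248) [(nat_lit 230, nat_lit 605053782643024281992704), (nat_lit 1, nat_lit 606233221341138647515648), (nat_lit 218, nat_lit 605053782641926916801024), (nat_lit 238, nat_lit 605053782641925843059201), (nat_lit 210, nat_lit 606234374262643254362624)] [nat_lit 232, nat_lit 236, nat_lit 224, nat_lit 220, nat_lit 233, nat_lit 225],
  .cnt (nat_lit 3),
  .cnt (nat_lit 1),
  .lev (nat_lit 603874345068612945443328) [(nat_lit 234, nat_lit 605053781516025937265152), (nat_lit 3, nat_lit 606233221341138647515648), (nat_lit 232, nat_lit 605053782641926916801024), (nat_lit 230, nat_lit 605053782643025354686976), (nat_lit 238, nat_lit 605053782641925843059201), (nat_lit 210, nat_lit 606234374262643254362624)] [nat_lit 236, nat_lit 0, nat_lit 226],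
  .lev (nat_lit 605053779264230417494528) [(nat_lit 220, nat_lit 605053782641924769319424), (nat_lit 224, nat_lit 606234375388542087463424), (nat_lit 1, nat_lit 606234374262643254362624), (nat_lit 238, nat_lit 605053782641925843059201), (nat_lit 226, nat_lit 605054935563430449906176), (nat_lit 230, nat_lit 605053782643025354686976), (nat_lit 234, nat_lit 605053782641925844107776)] [nat_lit 237],
  .cnt (nat_lit 1),
  .cnt (nat_lit 1),
  .cnt (nat_lit 1),
  .cnt (nat_lit 1),
  .cnt (nat_lit 5),
  .cnt (nat_lit 1),
  .cnt (nat_lit 1),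
  .cnt (nat_lit 3),
  .cnt (nat_lit 1),
  .lev (nat_lit 605053782639727894594048) [(nat_lit 1, nat_lit 605053782640827405173248), (nat_lit 236, nat_lit 605053782641925843060224), (nat_lit 224, nat_lit 606234374262643254362624), (nat_lit 238, nat_lit 605053782641925843059201), (nat_lit 226, nat_lit 605054935563430449906176), (nat_lit 202, nat_lit 605053782643025354686976)] [nat_lit 232, nat_lit 216, nat_lit 231, nat_lit 217],
  .cnt (nat_lit 1),
  .cnt (nat_lit 1),
  .cnt (nat_lit 1),
  .cnt (nat_lit 1),
  .lev (nat_lit 609771538564676967727616) [(nat_lit 234, nat_lit 605053781516025937265152), (nat_lit 210, nat_lit 606232068419634041717248), (nat_lit 232, nat_lit 606234375388542087463424), (nat_lit 230, nat_lit 606235527183048349581824), (nat_lit 238, nat_lit 606234374262643254362623), (nat_lit 236, nat_lit 605054935563430449905152), (nat_lit 1, nat_lit 606234374262643254362624)] [nat_lit 227],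
  .lev (nat_lit 602693752321995627299328) [(nat_lit 234, nat_lit 605053781516025937265152), (nat_lit 230, nat_lit 603873189896408036540928), (nat_lit 5, nat_lit 606234374262643254362624), (nat_lit 232, nat_lit 605053782641926916801024), (nat_lit 238, nat_lit 605053782641925843059201), (nat_lit 236, nat_lit 605053782641925843060224)] [nat_lit 2, nat_lit 0]]

theorem gE8_5 : tE8.grp 5 cE8_5 = true := by decide +kernel

/-- certificates -/
def cE8_6 : List Ce := [
  .cnt (nat_lit 1),
  .cnt (nat_lit 1),
  .spn (nat_lit 605054935563430449906176),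
  .cnt (nat_lit 1),
  .cnt (nat_lit 2),
  .cnt (nat_lit 1),
  .cnt (nat_lit 2),
  .cnt (nat_lit 1),
  .cnt (nat_lit 2),
  .cnt (nat_lit 1),
  .cnt (nat_lit 1),
  .cnt (nat_lit 2),
  .cnt (nat_lit 1),
  .cnt (nat_lit 2),
  .cnt (nat_lit 1),
  .cnt (nat_lit 2),
  .cnt (nat_lit 6),
  .cnt (nat_lit 2),
  .cnt (nat_lit 1),
  .cnt (nat_lit 1),
  .cnt (nat_lit 1),
  .cnt (nat_lit 2),
  .cnt (nat_lit 1),
  .cnt (nat_lit 2),
  .cnt (nat_lit 2),
  .cnt (nat_lit 1),
  .cnt (nat_lit 2),
  .cnt (nat_lit 1),
  .cnt (nat_lit 2),
  .cnt (nat_lit 1),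
  .cnt (nat_lit 1),
  .cnt (nat_lit 2),
  .cnt (nat_lit 1),
  .cnt (nat_lit 1),
  .cnt (nat_lit 1),
  .cnt (nat_lit 2),
  .cnt (nat_lit 7),
  .cnt (nat_lit 15),
  .cnt (nat_lit 1),
  .cnt (nat_lit 1),
  .cnt (nat_lit 1),
  .cnt (nat_lit 1),
  .cnt (nat_lit 1),
  .cnt (nat_lit 1),
  .cnt (nat_lit 5),
  .cnt (nat_lit 2),
  .cnt (nat_lit 1),
  .cnt (nat_lit 1),
  .cnt (nat_lit 1),
  .cnt (nat_lit 1),
  .cnt (nat_lit 4),
  .cnt (nat_lit 1),
  .cnt (nat_lit 1),
  .cnt (nat_lit 1),
  .cnt (nat_lit 2),
  .cnt (nat_lit 1),
  .cnt (nat_lit 2),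
  .cnt (nat_lit 2),
  .cnt (nat_lit 2),
  .cnt (nat_lit 6),
  .cnt (nat_lit 2),
  .cnt (nat_lit 1),
  .cnt (nat_lit 1),
  .lev (nat_lit 605052630846321144102399) [(nat_lit 1, nat_lit 605053782641926916799999), (nat_lit 208, nat_lit 605053782641925843059201), (nat_lit 190, nat_lit 605053782641925844107776), (nat_lit 188, nat_lit 605053783767825749901824), (nat_lit 224, nat_lit 606234374262643254362624)] [nat_lit 234, nat_lit 232, nat_lit 230, nat_lit 218, nat_lit 214, nat_lit 202, nat_lit 235, nat_lit 233, nat_lit 231, nat_lit 219, nat_lit 215, nat_lit 203],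
  .cnt (nat_lit 1),
  .cnt (nat_lit 1),
  .cnt (nat_lit 10),
  .lev (nat_lit 605051476802211943026176) [(nat_lit 220, nat_lit 605054935563430449905152), (nat_lit 1, nat_lit 605053782643024280945152), (nat_lit 238, nat_lit 605053782641926915752449), (nat_lit 224, nat_lit 606234374262643254362624), (nat_lit 228, nat_lit 605053783767825749901824), (nat_lit 202, nat_lit 605053782643025354686976), (nat_lit 222, nat_lit 605053782641925844107776)] [nat_lit 234, nat_lit 232, nat_lit 235, nat_lit 233, nat_lit 219],
  .cnt (nat_lit 1),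
  .lev (nat_lit 605052629721519675146752) [(nat_lit 236, nat_lit 605054935563430449905152), (nat_lit 1, nat_lit 605054935563430449906176), (nat_lit 238, nat_lit 605053782641925843059201), (nat_lit 218, nat_lit 605053782641925844107776), (nat_lit 216, nat_lit 605053782643025354686976), (nat_lit 224, nat_lit 606234374262643254362624)] [nat_lit 230, nat_lit 228, nat_lit 214, nat_lit 235, nat_lit 234],
  .cnt (nat_lit 1),
  .cnt (nat_lit 1),
  .cnt (nat_lit 8),
  .cnt (nat_lit 1),
  .cnt (nat_lit 4),
  .lev (nat_lit 606234375387443649577472) [(nat_lit 220, nat_lit 605052629720421236213248), (nat_lit 214, nat_lit 603872039225603731751424), (nat_lit 234, nat_lit 606233221341139720208896), (nat_lit 238, nat_lit 606233221341138647515649), (nat_lit 218, nat_lit 603873191022307942334976), (nat_lit 3, nat_lit 606234374262643254362624)] [nat_lit 232, nat_lit 216, nat_lit 225, nat_lit 231, nat_lit 233, nat_lit 230],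
  .cnt (nat_lit 2),
  .cnt (nat_lit 1),
  .lev (nat_lit 601513160701278215995904) [(nat_lit 236, nat_lit 606234374262644327054848), (nat_lit 220, nat_lit 605052629720421236213248), (nat_lit 238, nat_lit 606233221341138647515649), (nat_lit 228, nat_lit 603872039225603731751424), (nat_lit 3, nat_lit 606234374262643254362624), (nat_lit 230, nat_lit 605053782643025354686976), (nat_lit 218, nat_lit 605053782641926916801024)] [nat_lit 0, nat_lit 232, nat_lit 233],
  .cnt (nat_lit 2),
  .cnt (nat_lit 7),
  .cnt (nat_lit 9),
  .lev (nat_lit 605058390950244549919232) [(nat_lit 236, nat_lit 605052629720421236213248), (nat_lit 232, nat_lit 605052629720422309953024), (nat_lit 224, nat_lit 603873189895309598654976), (nat_lit 234, nat_lit 605053781516025937265152), (nat_lit 230, nat_lit 603873191022307943382528), (nat_lit 238, nat_lit 606234374262643254362623), (nat_lit 1, nat_lit 606234374262643254362624)] [nat_lit 228],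
  .cnt (nat_lit 1)]

theorem gE8_6 : tE8.grp 6 cE8_6 = true := by decide +kernel

/-- certificates -/
def cE8_7 : List Ce := [
  .spn (nat_lit 605054935563430449905152),
  .spn (nat_lit 606234374262643254362624),
  .lev (nat_lit 605053783766725165581824) [(nat_lit 172, nat_lit 606233221341139721256447), (nat_lit 178, nat_lit 605053782641926915752447), (nat_lit 170, nat_lit 603873192147108338598399), (nat_lit 1, nat_lit 605053782640826332480000), (nat_lit 102, nat_lit 605053783767825749901824)] [nat_lit 234, nat_lit 238, nat_lit 226, nat_lit 218, nat_lit 222, nat_lit 202, nat_lit 206, nat_lit 208, nat_lit 190, nat_lit 192, nat_lit 194, nat_lit 176, nat_lit 180, nat_lit 166, nat_lit 237, nat_lit 239, nat_lit 227, nat_lit 221, nat_lit 223, nat_lit 205, nat_lit 207, nat_lit 209, nat_lit 191, nat_lit 193, nat_lit 195, nat_lit 177, nat_lit 181, nat_lit 167],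
  .cnt (nat_lit 3),
  .spn (nat_lit 606234374262643254362624),
  .lev (nat_lit 605053783768923115093505) [(nat_lit 200, nat_lit 603873191021209504449024), (nat_lit 202, nat_lit 603873191022307943382528), (nat_lit 1, nat_lit 605053782641925843058177), (nat_lit 226, nat_lit 605054935563430449906176), (nat_lit 180, nat_lit 605053783767825749901823), (nat_lit 138, nat_lit 605053783767825749901824)] [nat_lit 232, nat_lit 234, nat_lit 238, nat_lit 220, nat_lit 218, nat_lit 222, nat_lit 206, nat_lit 194, nat_lit 229, nat_lit 233, nat_lit 239, nat_lit 223, nat_lit 209, nat_lit 195, nat_lit 236, nat_lit 219, nat_lit 228],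
  .cnt (nat_lit 4),
  .cnt (nat_lit 5),
  .lev (nat_lit 608593249407074319202820) [(nat_lit 204, nat_lit 605053783767824677208575), (nat_lit 206, nat_lit 602693752321995627300351), (nat_lit 200, nat_lit 603873191021209504449024), (nat_lit 202, nat_lit 605053783767825748853248), (nat_lit 1, nat_lit 606234374262643254362624), (nat_lit 164, nat_lit 605053782641925843060224), (nat_lit 162, nat_lit 605054935563430449906176)] [nat_lit 230, nat_lit 234, nat_lit 214, nat_lit 198, nat_lit 227, nat_lit 239, nat_lit 213, nat_lit 199, nat_lit 228, nat_lit 238, nat_lit 212, nat_lit 222, nat_lit 229, nat_lit 235, nat_lit 215, nat_lit 223, nat_lit 236, nat_lit 237],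
  .spn (nat_lit 606234374262643254362624),
  .lev (nat_lit 606232070669239121869314) [(nat_lit 214, nat_lit 603873191022305797998079), (nat_lit 212, nat_lit 607414964757460758823424), (nat_lit 218, nat_lit 606234374262643253314049), (nat_lit 1, nat_lit 606234374262643254362624), (nat_lit 204, nat_lit 605053782641926916801023), (nat_lit 192, nat_lit 605053782643025354686976), (nat_lit 194, nat_lit 605053782641926916801024)] [nat_lit 226, nat_lit 234, nat_lit 238, nat_lit 222, nat_lit 237, nat_lit 227, nat_lit 235, nat_lit 223, nat_lit 230, nat_lit 236],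
  .cnt (nat_lit 5),
  .cnt (nat_lit 3),
  .cnt (nat_lit 3),
  .cnt (nat_lit 3),
  .cnt (nat_lit 3),
  .lev (nat_lit 605053782641926916798976) [(nat_lit 234, nat_lit 605053782643025353637377), (nat_lit 222, nat_lit 605052630845221632475648), (nat_lit 166, nat_lit 606234374262643254362623), (nat_lit 1, nat_lit 605053782641925844106752), (nat_lit 118, nat_lit 605054935563430449906176)] [nat_lit 228, nat_lit 238, nat_lit 214, nat_lit 212, nat_lit 198, nat_lit 233, nat_lit 229, nat_lit 239, nat_lit 221, nat_lit 217, nat_lit 215, nat_lit 213, nat_lit 205, nat_lit 201, nat_lit 199, nat_lit 189, nat_lit 185, nat_lit 173, nat_lit 232, nat_lit 220, nat_lit 216, nat_lit 204, nat_lit 200, nat_lit 188, nat_lit 184, nat_lit 172],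
  .spn (nat_lit 606234374262643254362624),
  .lev (nat_lit 606232068421833063922176) [(nat_lit 228, nat_lit 605054934437530543064575), (nat_lit 218, nat_lit 603873191021208432804351), (nat_lit 198, nat_lit 605054935563429376165376), (nat_lit 188, nat_lit 605054935562330938278401), (nat_lit 184, nat_lit 606234374262642181669376), (nat_lit 1, nat_lit 605053782641925843060223), (nat_lit 180, nat_lit 605053782643025354686976)] [nat_lit 232, nat_lit 238, nat_lit 216, nat_lit 220, nat_lit 204, nat_lit 237, nat_lit 233, nat_lit 227, nat_lit 239, nat_lit 217, nat_lit 205, nat_lit 230, nat_lit 236, nat_lit 231],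
  .cnt (nat_lit 5),
  .cnt (nat_lit 4),
  .lev (nat_lit 605053781517124375152127) [(nat_lit 218, nat_lit 606234374262643253314049), (nat_lit 222, nat_lit 606234374262643254362623), (nat_lit 216, nat_lit 605053782643025354685951), (nat_lit 1, nat_lit 605053783767825749900800), (nat_lit 226, nat_lit 605054935563430449906176), (nat_lit 188, nat_lit 605053783767825749901824)] [nat_lit 232, nat_lit 220, nat_lit 229, nat_lit 237, nat_lit 239, nat_lit 221, nat_lit 228, nat_lit 236, nat_lit 233],
  .cnt (nat_lit 3),
  .cnt (nat_lit 7),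
  .cnt (nat_lit 4),
  .cnt (nat_lit 4),
  .cnt (nat_lit 4),
  .cnt (nat_lit 4),
  .cnt (nat_lit 4),
  .cnt (nat_lit 6),
  .cnt (nat_lit 4),
  .cnt (nat_lit 3),
  .spn (nat_lit 606234374262643254362624),
  .lev (nat_lit 605053782643024280946175) [(nat_lit 220, nat_lit 605053783767824676160001), (nat_lit 226, nat_lit 605054934438628980949505), (nat_lit 1, nat_lit 605053782643024280945152), (nat_lit 184, nat_lit 605053782643025353638400), (nat_lit 170, nat_lit 605054935563430449906176), (nat_lit 126, nat_lit 605053783767825749901824)] [nat_lit 228, nat_lit 230, nat_lit 232, nat_lit 234, nat_lit 238, nat_lit 222, nat_lit 202, nat_lit 186, nat_lit 192, nat_lit 178, nat_lit 231, nat_lit 235, nat_lit 215, nat_lit 219, nat_lit 223, nat_lit 203, nat_lit 187, nat_lit 193, nat_lit 179, nat_lit 214, nat_lit 233],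
  .spn (nat_lit 606234374262643254362624),
  .lev (nat_lit 606234374261543742735872) [(nat_lit 228, nat_lit 603873192146008826971648), (nat_lit 204, nat_lit 603873191021209504449024), (nat_lit 226, nat_lit 605054935562330938278401), (nat_lit 1, nat_lit 605053782641925843060223), (nat_lit 152, nat_lit 605053782643025354686976)] [nat_lit 230, nat_lit 234, nat_lit 216, nat_lit 218, nat_lit 222, nat_lit 202, nat_lit 208, nat_lit 192, nat_lit 231, nat_lit 217, nat_lit 203, nat_lit 193],
  .cnt (nat_lit 4),
  .cnt (nat_lit 3),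
  .cnt (nat_lit 4),
  .cnt (nat_lit 4),
  .cnt (nat_lit 3),
  .cnt (nat_lit 3),
  .cnt (nat_lit 3),
  .cnt (nat_lit 18),
  .cnt (nat_lit 3),
  .cnt (nat_lit 3),
  .cnt (nat_lit 3),
  .cnt (nat_lit 3),
  .cnt (nat_lit 4),
  .lev (nat_lit 606234374262645399747072) [(nat_lit 226, nat_lit 603874343942714111294976), (nat_lit 202, nat_lit 606233220216338252300800), (nat_lit 208, nat_lit 606234374262643254362623), (nat_lit 220, nat_lit 605053783767824676160001), (nat_lit 1, nat_lit 605053781517125447844352), (nat_lit 186, nat_lit 605053782641925844107776), (nat_lit 188, nat_lit 605053783767825749901824)] [nat_lit 228, nat_lit 200, nat_lit 229, nat_lit 231, nat_lit 217, nat_lit 201, nat_lit 230, nat_lit 238, nat_lit 214, nat_lit 233],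
  .cnt (nat_lit 6),
  .lev (nat_lit 606234374260446376493570) [(nat_lit 236, nat_lit 603873191020109992822273), (nat_lit 218, nat_lit 603873191021208432804351), (nat_lit 222, nat_lit 605053783767824676160001), (nat_lit 200, nat_lit 605053782643025354685951), (nat_lit 226, nat_lit 605054935563430449905152), (nat_lit 1, nat_lit 606234374262643254362624), (nat_lit 192, nat_lit 605053782643025354686976)] [nat_lit 230, nat_lit 238, nat_lit 216, nat_lit 239, nat_lit 217, nat_lit 232, nat_lit 233],
  .cnt (nat_lit 3),
  .cnt (nat_lit 3),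
  .cnt (nat_lit 3),
  .cnt (nat_lit 3),
  .cnt (nat_lit 4),
  .cnt (nat_lit 5),
  .cnt (nat_lit 5),
  .cnt (nat_lit 24),
  .cnt (nat_lit 5),
  .cnt (nat_lit 5),
  .cnt (nat_lit 5),
  .cnt (nat_lit 5),
  .lev (nat_lit 605053781516027009958399) [(nat_lit 134, nat_lit 605053782640826331432449), (nat_lit 126, nat_lit 605054935563430449905152), (nat_lit 112, nat_lit 606234374262643254362623), (nat_lit 1, nat_lit 606234374262643254362624)] [nat_lit 234, nat_lit 230, nat_lit 228, nat_lit 214, nat_lit 202, nat_lit 200, nat_lit 190, nat_lit 186, nat_lit 188, nat_lit 174, nat_lit 160, nat_lit 144, nat_lit 235, nat_lit 233, nat_lit 231, nat_lit 227, nat_lit 221, nat_lit 215, nat_lit 213, nat_lit 203, nat_lit 191, nat_lit 187, nat_lit 185, nat_lit 175, nat_lit 173, nat_lit 145, nat_lit 143, nat_lit 232, nat_lit 220],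
  .spn (nat_lit 606234374262643254362624),
  .lev (nat_lit 605053783767824676160001) [(nat_lit 208, nat_lit 606233221342238158094848), (nat_lit 180, nat_lit 606234374262643254362623), (nat_lit 186, nat_lit 605053782643025354685951), (nat_lit 172, nat_lit 605052629720422309953024), (nat_lit 1, nat_lit 606234374262643254362624)] [nat_lit 230, nat_lit 232, nat_lit 234, nat_lit 226, nat_lit 220, nat_lit 204, nat_lit 202, nat_lit 190, nat_lit 231, nat_lit 237, nat_lit 233, nat_lit 235, nat_lit 227, nat_lit 221, nat_lit 205, nat_lit 203, nat_lit 191, nat_lit 236, nat_lit 218, nat_lit 219],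
  .spn (nat_lit 606234374262643254362624),
  .spn (nat_lit 606234374262643254362624),
  .lev (nat_lit 606234374260446378590718) [(nat_lit 208, nat_lit 605053782640827406220799), (nat_lit 200, nat_lit 606234374262642181669376), (nat_lit 1, nat_lit 605053782641925844106752), (nat_lit 226, nat_lit 605054935563430449906176), (nat_lit 194, nat_lit 605053782641925843059201), (nat_lit 190, nat_lit 605053783767825749900800), (nat_lit 174, nat_lit 605053783767825749901824)] [nat_lit 228, nat_lit 236, nat_lit 234, nat_lit 206, nat_lit 229, nat_lit 237, nat_lit 235, nat_lit 221, nat_lit 219, nat_lit 232, nat_lit 233, nat_lit 207],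
  .cnt (nat_lit 4),
  .cnt (nat_lit 7),
  .lev (nat_lit 606234373136743348568575) [(nat_lit 222, nat_lit 606234374262643254362623), (nat_lit 220, nat_lit 605052629720421237259777), (nat_lit 216, nat_lit 605053782641926915752447), (nat_lit 1, nat_lit 605053782643025353638400), (nat_lit 174, nat_lit 605053782641925843060224), (nat_lit 170, nat_lit 605054935563430449906176)] [nat_lit 230, nat_lit 228, nat_lit 226, nat_lit 214, nat_lit 212, nat_lit 198, nat_lit 231, nat_lit 229, nat_lit 227, nat_lit 235, nat_lit 215, nat_lit 213, nat_lit 199],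
  .spn (nat_lit 606234374262643254362624),
  .lev (nat_lit 606232070669236978579968) [(nat_lit 222, nat_lit 603873191021208431755777), (nat_lit 214, nat_lit 605053782640827405172225), (nat_lit 212, nat_lit 603873192147108338598399), (nat_lit 216, nat_lit 605054935562330939326975), (nat_lit 220, nat_lit 605054935563430449905152), (nat_lit 1, nat_lit 605053782643025353638400), (nat_lit 202, nat_lit 605053782643025354686976)] [nat_lit 226, nat_lit 234, nat_lit 237, nat_lit 227, nat_lit 235, nat_lit 230, nat_lit 236, nat_lit 231],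
  .spn (nat_lit 606234374262643254362624),
  .cnt (nat_lit 4),
  .cnt (nat_lit 3),
  .cnt (nat_lit 3),
  .cnt (nat_lit 3),
  .lev (nat_lit 606233221341138648563200) [(nat_lit 238, nat_lit 603873191021208431755777), (nat_lit 176, nat_lit 605053783767825748853248), (nat_lit 174, nat_lit 605054935562330938278401), (nat_lit 170, nat_lit 605054935563430449905152), (nat_lit 1, nat_lit 606234374262643254362624)] [nat_lit 236, nat_lit 232, nat_lit 220, nat_lit 216, nat_lit 204, nat_lit 188, nat_lit 237, nat_lit 233, nat_lit 221, nat_lit 217, nat_lit 205, nat_lit 189],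
  .spn (nat_lit 606234374262643254362624),
  .lev (nat_lit 605053783765627800388096) [(nat_lit 238, nat_lit 603873191021208431755777), (nat_lit 234, nat_lit 605052630846321144102399), (nat_lit 188, nat_lit 605054935562330939326975), (nat_lit 184, nat_lit 605053782643025354685951), (nat_lit 1, nat_lit 605053782641925844106752), (nat_lit 176, nat_lit 605053782643025354686976)] [nat_lit 236, nat_lit 232, nat_lit 216, nat_lit 220, nat_lit 204, nat_lit 237, nat_lit 233, nat_lit 217, nat_lit 221, nat_lit 205],
  .cnt (nat_lit 4),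
  .cnt (nat_lit 5),
  .lev (nat_lit 603874342816814205500928) [(nat_lit 238, nat_lit 606234374262643254362623), (nat_lit 230, nat_lit 605053782643024280946175), (nat_lit 1, nat_lit 605053782641925844106752), (nat_lit 206, nat_lit 605053782641925844107776), (nat_lit 200, nat_lit 605053782643025354686976), (nat_lit 212, nat_lit 605054935563430449906176)] [nat_lit 228, nat_lit 236, nat_lit 232, nat_lit 220, nat_lit 229, nat_lit 237, nat_lit 221],
  .cnt (nat_lit 4),
  .lev (nat_lit 606234374261543742735872) [(nat_lit 228, nat_lit 603873192146008826971648), (nat_lit 238, nat_lit 606234374262643254362623), (nat_lit 234, nat_lit 605053783767825748853248), (nat_lit 1, nat_lit 606234374262643254362624), (nat_lit 226, nat_lit 605054935563430449906176), (nat_lit 204, nat_lit 605053782643025354686976)] [nat_lit 232, nat_lit 220, nat_lit 237, nat_lit 221],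
  .cnt (nat_lit 5),
  .cnt (nat_lit 6),
  .lev (nat_lit 606232068421830916442624) [(nat_lit 234, nat_lit 602692599400491021500928), (nat_lit 238, nat_lit 603873191021208431755777), (nat_lit 228, nat_lit 605053783766727312014847), (nat_lit 216, nat_lit 605054935562330938278401), (nat_lit 220, nat_lit 605053782641924770365953), (nat_lit 198, nat_lit 605054935563430449905152), (nat_lit 1, nat_lit 606234374262643254362624)] [nat_lit 236, nat_lit 226, nat_lit 231, nat_lit 227],
  .cnt (nat_lit 9),
  .cnt (nat_lit 4),
  .lev (nat_lit 603874342816814205500928) [(nat_lit 234, nat_lit 605052630846322215747072), (nat_lit 238, nat_lit 606234374262643254362623), (nat_lit 230, nat_lit 605053782640827405172225), (nat_lit 1, nat_lit 605054934437530543063552), (nat_lit 220, nat_lit 605053782641926916801024), (nat_lit 212, nat_lit 605054935563430449906176)] [nat_lit 228, nat_lit 229, nat_lit 237],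
  .cnt (nat_lit 6),
  .lev (nat_lit 608595557504078076967424) [(nat_lit 228, nat_lit 602692600526390927294976), (nat_lit 234, nat_lit 605053783767825748853248), (nat_lit 238, nat_lit 606234374262643254362623), (nat_lit 232, nat_lit 605053783767824676160001), (nat_lit 230, nat_lit 605053782643025354685951), (nat_lit 1, nat_lit 606234374262643254362624), (nat_lit 226, nat_lit 605054935563430449906176)] [nat_lit 236],
  .spn (nat_lit 606234374262643254362624),
  .lev (nat_lit 605054934437529470371328) [(nat_lit 220, nat_lit 606234374262642181669376), (nat_lit 192, nat_lit 606234374262643254362623), (nat_lit 1, nat_lit 605053782643025353638400), (nat_lit 212, nat_lit 605053783767825748853248), (nat_lit 174, nat_lit 605053782641925843060224), (nat_lit 170, nat_lit 605054935563430449906176)] [nat_lit 228, nat_lit 232, nat_lit 234, nat_lit 214, nat_lit 202, nat_lit 231, nat_lit 233, nat_lit 235, nat_lit 217, nat_lit 219, nat_lit 203, nat_lit 187, nat_lit 230, nat_lit 216, nat_lit 229],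
  .spn (nat_lit 606234374262643254362624),
  .lev (nat_lit 605053782640827406220799) [(nat_lit 222, nat_lit 603873191021208431755777), (nat_lit 200, nat_lit 603873192147108338598399), (nat_lit 220, nat_lit 605053782643025354685951), (nat_lit 226, nat_lit 605052629720422309953024), (nat_lit 1, nat_lit 605053782641925844106752), (nat_lit 190, nat_lit 605053782643025354686976)] [nat_lit 230, nat_lit 216, nat_lit 202, nat_lit 231, nat_lit 235, nat_lit 217, nat_lit 203, nat_lit 232, nat_lit 234, nat_lit 233],
  .lev (nat_lit 605054934437531615755777) [(nat_lit 222, nat_lit 606234374262643254362623), (nat_lit 1, nat_lit 605054935562332012019200), (nat_lit 220, nat_lit 605053782641925843060224), (nat_lit 198, nat_lit 605054935563430449906176), (nat_lit 200, nat_lit 605053783767825749901824), (nat_lit 202, nat_lit 605053782643025354686976)] [nat_lit 228, nat_lit 226, nat_lit 232, nat_lit 234, nat_lit 212, nat_lit 229, nat_lit 227, nat_lit 233, nat_lit 235, nat_lit 213],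
  .cnt (nat_lit 3),
  .cnt (nat_lit 3),
  .cnt (nat_lit 6),
  .cnt (nat_lit 3),
  .cnt (nat_lit 3),
  .cnt (nat_lit 5),
  .lev (nat_lit 606234372013040318546432) [(nat_lit 238, nat_lit 606234374262643254362623), (nat_lit 214, nat_lit 603873192147108338598399), (nat_lit 236, nat_lit 605053782643024281992704), (nat_lit 226, nat_lit 605054935563430449905152), (nat_lit 1, nat_lit 606234374262643254362624), (nat_lit 216, nat_lit 605053782643025354686976), (nat_lit 218, nat_lit 605053782641926916801024)] [nat_lit 230, nat_lit 234, nat_lit 235, nat_lit 231],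
  .cnt (nat_lit 5),
  .cnt (nat_lit 5),
  .cnt (nat_lit 3),
  .cnt (nat_lit 3),
  .cnt (nat_lit 4),
  .lev (nat_lit 606234375388542087463424) [(nat_lit 238, nat_lit 606234374262643254362623), (nat_lit 234, nat_lit 605053782643025353637377), (nat_lit 226, nat_lit 605054936689330355699200), (nat_lit 1, nat_lit 605053781517125447844352), (nat_lit 186, nat_lit 605053782641925844107776), (nat_lit 188, nat_lit 605053783767825749901824)] [nat_lit 228, nat_lit 232, nat_lit 214, nat_lit 216, nat_lit 200, nat_lit 229, nat_lit 215, nat_lit 201],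
  .cnt (nat_lit 6),
  .lev (nat_lit 606234374262645399747072) [(nat_lit 238, nat_lit 606234374262643254362623), (nat_lit 228, nat_lit 605053781517125447843329), (nat_lit 214, nat_lit 605053782640826331432449), (nat_lit 218, nat_lit 605053783767825748853248), (nat_lit 226, nat_lit 606233221340040209629696), (nat_lit 1, nat_lit 606234374262643254362624), (nat_lit 204, nat_lit 605053782643025354686976)] [nat_lit 230, nat_lit 232, nat_lit 231, nat_lit 233, nat_lit 217],
  .cnt (nat_lit 6),
  .spn (nat_lit 606234374262643254362624),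
  .lev (nat_lit 608593251661068863275520) [(nat_lit 238, nat_lit 606234374262643254362623), (nat_lit 228, nat_lit 603873192147108338598399), (nat_lit 218, nat_lit 605053783767825748853248), (nat_lit 1, nat_lit 606234374262643254362624), (nat_lit 230, nat_lit 605053782643025354686976), (nat_lit 236, nat_lit 605053782641926916800000), (nat_lit 220, nat_lit 605053782641926916801024)] [nat_lit 226, nat_lit 232, nat_lit 233],
  .spn (nat_lit 606234374262643254362624),
  .cnt (nat_lit 4),
  .cnt (nat_lit 15),
  .cnt (nat_lit 5),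
  .lev (nat_lit 603873191019011555983872) [(nat_lit 234, nat_lit 602692599400491021500928), (nat_lit 238, nat_lit 606234374262643254362623), (nat_lit 228, nat_lit 605053781516025937265152), (nat_lit 236, nat_lit 605053782643024281992704), (nat_lit 226, nat_lit 605054935563430449905152), (nat_lit 1, nat_lit 605053782643024280945152), (nat_lit 216, nat_lit 605053782643025354686976)] [nat_lit 230, nat_lit 231],
  .cnt (nat_lit 5),
  .cnt (nat_lit 6),
  .cnt (nat_lit 7),
  .spn (nat_lit 606234374262643254362624)]

theorem gE8_7 : tE8.grp 7 cE8_7 = true := by decide +kernel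

end

end Pool.Agent.P.Bf04.X
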