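import Pool.Agent.P.MP_bf0464_al.H.YT

/-! Certificates. -/

namespace Pool.Agent.P.Bf04.X

noncomputable section

theorem tG2_ok : tG2.ok = true := by decide +kernel

theorem tF4_ok : tF4.ok = true := by decide +kernel

theorem tE6_ok : tE6.ok = true := by decide +kernel

theorem tE7_ok : tE7.ok = true := by decide +kernel

theorem tE8_ok : tE8.ok = true := by decide +kernel

end

end Pool.Agent.P.Bf04.X
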