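import Pool.Agent.P.MP_bf0464_al.H.XH
import Pool.Agent.P.MP_bf0464_al.H.XI
import Pool.Agent.P.MP_bf0464_al.H.XJ
import Pool.Agent.P.MP_bf0464_al.H.YK
import Pool.Agent.P.MP_bf0464_al.H.Y7
import Pool.Agent.P.MP_bf0464_al.H.Y8

/-! The exceptional types. -/

namespace Pool.Agent.P.Bf04

open Matrix Module CD

universe u v w

namespace X

variable {D : CD} {T : Tab} {p : ℕ} [Fact p.Prime]

theorem Chart.hum (C : Chart D.toRD T) (hg : D.Good p) (hS : D.SC) (hk : D.Ker p) (h2 : p ≠ 2)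
    (hb : ¬ p ∣ T.bp) (ih : IH.{u} D p) {kn : List ℕ}
    (hkn : ∀ w ∈ kn, DoneE.{u} D p 1 (C.vec w)) {cs : List Ce} (h0 : T.grp0 kn cs = true)
    (h1 : ∀ i < T.r, 2 ≤ nth T.th i → ∃ cs, T.grp i cs = true) : Hum.{u} D p := by
  refine hum_of_cand (RD.kn_of hS hk fun i h => hb ?_) ih C.θ C.top fun a d h => ?_
  · exact_mod_cast h.trans (C.kn i)
  obtain ⟨ha, w, c, rfl, h | h⟩ := C.cand h0 h1 h
  · exact C.chk_ok hg hS hk h2 hb ih hkn ha h
  · exact C.chk_ok hg hS hk h2 hb ih (fun _ h => absurd h List.not_mem_nil) ha h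

theorem Chart.chains (C : Chart D.toRD T) (hg : D.Good p) (hk : D.Ker p) (h2 : p ≠ 2)
    (hb : ¬ p ∣ T.bp) (ih : IH.{u} D p) {l : List Cn}
    (h : lall (fun c => an (T.chn c) (T.frm c)) l = true) :
    ∀ w ∈ l.map Cn.w, DoneE.{u} D p 1 (C.vec w) := by
  intro w hw
  obtain ⟨c, hc, rfl⟩ := List.mem_map.1 hw
  have h1 := (an_iff _ _).1 ((lall_iff _ _).1 h c hc)
  have h3 := C.frm_ok ih h1.2
  exact C.chn_ok hg hk h2 hb h3.1 h1.1 h3.2

theorem not_dvd_six (h : 5 ≤ p) : ¬ p ∣ 6 ^ 12 := fun h1 => by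
  have h2 := (Fact.out : p.Prime).dvd_of_dvd_pow h1
  have h3 := Nat.le_of_dvd (by norm_num) h2
  have h4 : p.Prime := Fact.out
  interval_cases p
  · exact absurd h2 (by norm_num)
  · exact absurd h4 (by norm_num)

theorem not_dvd_thirty (h : 7 ≤ p) : ¬ p ∣ 30 ^ 12 := fun h1 => by
  have h2 := (Fact.out : p.Prime).dvd_of_dvd_pow h1
  have h4 : p.Prime := Fact.out
  rcases (Nat.Prime.dvd_mul h4 (m := 6) (n := 5)).1 h2 with h3 | h3
  · exact not_dvd_six (by omega) (h3.trans (dvd_pow_self 6 (by norm_num)))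
  · have := Nat.le_of_dvd (by norm_num) h3
    omega

end X

open X

theorem CD.hum_exc {D : CD} {p : ℕ} [Fact p.Prime] (hg : D.Good p) (hS : D.SC)
    (h : IsTyp D.A Finset.univ CartanMatrix.E₆ ∨ IsTyp D.A Finset.univ CartanMatrix.E₇ ∨
      IsTyp D.A Finset.univ CartanMatrix.E₈ ∨ IsTyp D.A Finset.univ CartanMatrix.F₄ ∨
      IsTyp D.A Finset.univ CartanMatrix.G₂) (ih : CD.IH.{u} D p) : CD.Hum.{u} D p := by
  have hk := RD.ker_exc Fact.out hg h
  have h5 := hg.five_le Fact.out h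
  have h2 : p ≠ 2 := by omega
  have h6 := not_dvd_six h5
  rcases h with h | h | h | h | h
  · obtain ⟨C, -⟩ := chart_of tE6_ok (n := 6) rfl (by norm_num) (by decide +kernel) h
    refine C.hum hg hS hk h2 h6 ih (C.chains hg hk h2 h6 ih hE6_ok) gE6_6 fun i hi h => ?_
    change i < 6 at hi
    interval_cases i
    exacts [absurd h (by decide +kernel), ⟨_, gE6_1⟩, ⟨_, gE6_2⟩, ⟨_, gE6_3⟩, ⟨_, gE6_4⟩,
      absurd h (by decide +kernel)]
  · obtain ⟨C, -⟩ := chart_of tE7_ok (n := 7) rfl (by norm_num) (by decide +kernel) h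
    refine C.hum hg hS hk h2 h6 ih (C.chains hg hk h2 h6 ih hE7_ok) gE7_7 fun i hi h => ?_
    change i < 7 at hi
    interval_cases i
    exacts [⟨_, gE7_0⟩, ⟨_, gE7_1⟩, ⟨_, gE7_2⟩, ⟨_, gE7_3⟩, ⟨_, gE7_4⟩, ⟨_, gE7_5⟩,
      absurd h (by decide +kernel)]
  · have h7 := not_dvd_thirty (hg.seven_le Fact.out h)
    obtain ⟨C, -⟩ := chart_of tE8_ok (n := 8) rfl (by norm_num) (by decide +kernel) h
    refine C.hum hg hS hk h2 h7 ih (C.chains hg hk h2 h7 ih hE8_ok) gE8_8 fun i hi h => ?_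
    change i < 8 at hi
    interval_cases i
    exacts [⟨_, gE8_0⟩, ⟨_, gE8_1⟩, ⟨_, gE8_2⟩, ⟨_, gE8_3⟩, ⟨_, gE8_4⟩, ⟨_, gE8_5⟩, ⟨_, gE8_6⟩,
      ⟨_, gE8_7⟩]
  · obtain ⟨C, -⟩ := chart_of tF4_ok (n := 4) rfl (by norm_num) (by decide +kernel) h
    refine C.hum hg hS hk h2 h6 ih (C.chains hg hk h2 h6 ih hF4_ok) gF4_4 fun i hi h => ?_
    change i < 4 at hi
    interval_cases i
    exacts [⟨_, gF4_0⟩, ⟨_, gF4_1⟩, ⟨_, gF4_2⟩, ⟨_, gF4_3⟩]
  · obtain ⟨C, hC⟩ := chart_of tG2_ok (n := 2) rfl (by norm_num) (by decide +kernel) h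
    refine C.hum hg hS hk h2 h6 ih (fun w hw => ?_) gG2_2 fun i hi h => ?_
    · obtain ⟨c, hc, rfl⟩ := List.mem_map.1 hw
      have h1 := (lall_iff _ _).1 hG2_ok c hc
      simp only [an_iff, Nat.beq_eq, List.length_eq_zero_iff] at h1
      obtain ⟨a1, a2, a3, a4⟩ := h1
      refine C.chn_ok hg hk h2 h6 (by simp [a4]) a1 fun B hB => ?_
      rw [a2, a3, a4, show C.Z [] = ∅ by simp [Chart.Z], Set.empty_union] at hB
      refine savI_frG hg hS h (i := C.e 1) (j := C.e 0) (hC 0 1) ?_ (fun l hl => ?_) hB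
      · rw [C.vec_e (by decide)]
        decide +kernel
      · have h3 : C.ix l < 2 := C.ix_lt l
        have h4 : C.ix l ≠ 0 := fun e => hl (by rw [← e, C.e_ix])
        rw [Chart.vec, show C.ix l = 1 by omega]
        decide +kernel
    · change i < 2 at hi
      interval_cases i
      exacts [⟨_, gG2_0⟩, ⟨_, gG2_1⟩]

end Pool.Agent.P.Bf04
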