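import Pool.Agent.P.MP_bf0464_al.H.XA
import Pool.Agent.P.MP_bf0464_al.H.ECkG

/-! Chains that start in an arbitrary chamber. -/

namespace Pool.Agent.P.Bf04

open Matrix Module

universe u v w

namespace CD

variable {D : CD} {p : ℕ} [Fact p.Prime] {Q B : Set D.ι} {ν μ : D.Δ → ℤ}

omit [Fact p.Prime] in
theorem xf_rw (l : List D.Δ) (β : D.ι) : D.rw l (D.rw l.reverse β) = β := by
  have h := D.rw_reverse l.reverse β
  rwa [List.reverse_reverse] at h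

theorem xf_move {κ : ℕ} {l : List D.Δ} (hl : 0 ≤ D.dw l ν) {J : Finset D.Δ}
    (hJ : ∀ i, i ∈ J ↔ D.dw l ν i = 0) (h : Ck.{u} D p (Q ∪ {β | 0 < D.dg ν β}) ∅ B κ) :
    Ck.{u} D p ({β | D.rw l β ∈ Q} ∪ {β | D.Pos β ∧ ¬ D.In J β}) ∅ B κ := by
  refine Ck.nW l.reverse ?_
  have e : {β | D.rw l.reverse β ∈ {β | D.rw l β ∈ Q} ∪ {β | D.Pos β ∧ ¬ D.In J β}} =
      Q ∪ {β | 0 < D.dg ν β} := by
    ext β
    simp only [Set.mem_setOf_eq, Set.mem_union, xf_rw, ← RD.dg_pos_iff hl hJ, D.dg_dw]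
  rw [e]
  exact h

omit [Fact p.Prime] in
theorem xf_simple (hr : ∀ β, D.dg ν β = 0 → D.dg μ β ≠ 0)
    (hQ : ∀ β ∈ Q, D.dg ν β = 0 ∧ D.dg μ β = 1) :
    ∃ (l : List D.Δ) (J I : Finset D.Δ), 0 ≤ D.dw l ν ∧ (∀ i, i ∈ J ↔ D.dw l ν i = 0) ∧ I ⊆ J ∧
      {β | D.rw l β ∈ Q} = D.s '' I := by
  classical
  obtain ⟨l, hl, hl'⟩ := D.exists_frame ν μ
  have hJ : ∀ i, i ∈ Finset.univ.filter (fun i => D.dw l ν i = 0) ↔ D.dw l ν i = 0 := by simp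
  refine ⟨l, _, Finset.univ.filter fun i => D.rw l (D.s i) ∈ Q, hl, hJ, fun i hi => ?_, ?_⟩
  · exact (hJ i).2 (hQ _ (Finset.mem_filter.1 hi).2).1
  · ext β
    constructor
    · intro hβ
      have h1 := hQ _ hβ
      rw [← D.dg_dw, ← D.dg_dw] at h1
      obtain ⟨i, -, rfl⟩ := RD.simple_of_frame (μ := D.dw l μ)
        (fun i hi => lt_of_le_of_ne (hl' i ((hJ i).1 hi)) (hr _ ((hJ i).1 hi)).symm)
        ((RD.dg_zero_iff hl hJ β).1 h1.1) h1.2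
      exact ⟨i, Finset.mem_coe.2 (Finset.mem_filter.2 ⟨Finset.mem_univ i, hβ⟩), rfl⟩
    · rintro ⟨i, hi, rfl⟩
      exact (Finset.mem_filter.1 (Finset.mem_coe.1 hi)).2

theorem savI_fr1 (ih : IH.{u} D p) (hν : ν ≠ 0) (hQ : ∀ β ∈ Q, D.dg ν β = 0 ∧ 0 < D.dg μ β)
    (h : Ck.{u} D p (Q ∪ {β | 0 < D.dg ν β}) ∅ B 1) : SavI.{u} D p B 1 := by
  obtain ⟨l, hl, hl'⟩ := D.exists_frame ν μ
  have hJ : ∀ i, i ∈ Finset.univ.filter (fun i => D.dw l ν i = 0) ↔ D.dw l ν i = 0 := by simp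
  refine savI_one ih (fun e => D.dw_ne_zero l hν (funext fun i => (hJ i).1 ?_)) (fun β hβ => ?_)
    (xf_move hl hJ h)
  · rw [e]
    exact Finset.mem_univ i
  · have h1 := hQ _ hβ
    rw [← D.dg_dw, ← D.dg_dw] at h1
    have h2 := (RD.dg_zero_iff hl hJ β).1 h1.1
    exact ⟨RD.pos_of_frame (fun i hi => hl' i ((hJ i).1 hi)) h2 h1.2, h2⟩

theorem savI_fr2 (hr : ∀ β, D.dg ν β = 0 → D.dg μ β ≠ 0)
    (hQ : ∀ β ∈ Q, D.dg ν β = 0 ∧ D.dg μ β = 1) {β : D.ι} (hβ : β ∈ Q)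
    (h : Ck.{u} D p (Q ∪ {β | 0 < D.dg ν β}) ∅ B 2) : SavI.{u} D p B 1 := by
  obtain ⟨l, J, I, hl, hJ, hI, e⟩ := xf_simple hr hQ
  have h1 := xf_move hl hJ h
  have h2 : D.rw l.reverse β ∈ {β | D.rw l β ∈ Q} := by
    rw [Set.mem_setOf_eq, xf_rw]
    exact hβ
  rw [e] at h1 h2
  obtain ⟨i, hi, -⟩ := h2
  exact savI_two hI hi h1

theorem savI_fr4 (hr : ∀ β, D.dg ν β = 0 → D.dg μ β ≠ 0)
    (hQ : ∀ β ∈ Q, D.dg ν β = 0 ∧ D.dg μ β = 1) {β γ : D.ι} (hβ : β ∈ Q) (hγ : γ ∈ Q)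
    (hne : β ≠ γ) (h : Ck.{u} D p (Q ∪ {β | 0 < D.dg ν β}) ∅ B 4) : SavI.{u} D p B 1 := by
  obtain ⟨l, J, I, hl, hJ, hI, e⟩ := xf_simple hr hQ
  have h1 := xf_move hl hJ h
  have h2 : D.rw l.reverse β ∈ {β | D.rw l β ∈ Q} := by
    rw [Set.mem_setOf_eq, xf_rw]
    exact hβ
  have h3 : D.rw l.reverse γ ∈ {β | D.rw l β ∈ Q} := by
    rw [Set.mem_setOf_eq, xf_rw]
    exact hγ
  rw [e] at h1 h2 h3
  obtain ⟨i, hi, ei⟩ := h2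
  obtain ⟨j, hj, ej⟩ := h3
  refine savI_four hI hi hj (fun hij => hne ?_) h1
  rw [← xf_rw l β, ← xf_rw l γ, ← ei, ← ej, hij]

theorem savI_frG (hg : D.Good p) (hS : D.SC) (hT : IsTyp D.A Finset.univ CartanMatrix.G₂)
    {i j : D.Δ} (hij : D.A j i = -3) (hj : ν j = 0) (hi : ∀ l, l ≠ j → 0 < ν l)
    (h : Ck.{u} D p {β | 0 < D.dg ν β} ∅ B 2) : SavI.{u} D p B 1 := by
  have h0 : 0 ≤ ν := fun l => by
    by_cases e : l = j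
    · rw [e, hj]
      exact le_rfl
    · exact (hi l e).le
  have hJ : ∀ l, l ∈ ({j} : Finset D.Δ) ↔ ν l = 0 := fun l => by
    rw [Finset.mem_singleton]
    refine ⟨fun e => e ▸ hj, fun e => ?_⟩
    by_contra hne
    exact (hi l hne).ne' e
  refine savI_G2k hg hS hT hij ?_
  have e : {β | D.Pos β ∧ ¬ D.In {j} β} = {β | 0 < D.dg ν β} :=
    Set.ext fun β => (RD.dg_pos_iff h0 hJ β).symm
  rw [e]
  exact h

end CD

end Pool.Agent.P.Bf04
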