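import Pool.Agent.P.MP_bf0464_al.H.XE
import Pool.Agent.P.MP_bf0464_al.H.EHitC

/-! Soundness of the check of tangent spaces. -/

namespace Pool.Agent.P.Bf04.X

open Matrix Module CD

universe u

namespace Chart

variable {D : CD} {T : Tab} (C : Chart D.toRD T) {p : ℕ} [Fact p.Prime] {w a : ℕ}
  {zs : List (ℕ × ℕ)} {ds : List ℕ}

theorem xg_vc (h : T.tor (T.dv w) a zs = true) :
    ∀ z ∈ zs, T.vc z.1 = true ∧ D.dg (C.vec w) (C.rt z.1) = a := by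
  induction zs with
  | nil => exact fun z hz => absurd hz List.not_mem_nil
  | cons y t ih =>
    rw [Tab.tor, ltl_cons, an_iff] at h
    intro z hz
    rcases List.mem_cons.1 hz with rfl | hz
    · exact C.isd_ok h.1.1
    · exact ih h.2 z hz

theorem xg_tor (hk : D.Ker p) (hb : ¬ p ∣ T.bp) {d : D.Δ → ℤ} {Z : Set D.ι}
    (h : T.tor (T.dv w) a zs = true) (ht : C.Z zs ⊆ Z) {X : Set D.ι} (hX : HitW.{u} D p d Z X)
    (hc : ∀ z ∈ Z, z ∈ X ∨ z ∈ C.Z zs) : HitW.{u} D p d Z Z := by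
  induction zs generalizing X with
  | nil =>
    refine hX.mono fun z hz => (hc z hz).resolve_right ?_
    rintro ⟨y, hy, -⟩
    exact List.not_mem_nil hy
  | cons y t ih =>
    have hv := C.xg_vc h
    rw [Tab.tor, ltl_cons, an_iff, lz_eq, an_iff, force_eq] at h
    obtain ⟨⟨-, h1, h2⟩, h3⟩ := h
    have h4 : T.bp % (dig (T.dv y.2) (hf y.1) - 65536 + (65536 - dig (T.dv y.2) (hf y.1))) = 0 :=
      Nat.eq_of_beq_eq_true h1
    have h5 := C.kil_ok h2 fun z hz => (hv z (List.mem_cons_of_mem _ hz)).1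
    have h6 := C.dg_rt (w := y.2) (hv y List.mem_cons_self).1
    refine ih h3 (fun z hz => ?_)
      (hX.tor hk (ν := C.vec y.2) (γ := C.rt y.1) (ht ⟨y, List.mem_cons_self, rfl⟩)
        (fun hd => hb ?_) fun z hz => ?_) fun z hz => ?_
    · obtain ⟨x, hx, e⟩ := hz
      exact ht ⟨x, List.mem_cons_of_mem _ hx, e⟩
    · refine dvd_trans ?_ (Nat.dvd_of_mod_eq_zero h4)
      rw [← Int.natCast_dvd_natCast, ← Int.dvd_natAbs]
      rw [← Int.dvd_natAbs] at hd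
      refine hd.trans (dvd_of_eq ?_)
      congr 1
      omega
    · rcases hc z hz with h7 | ⟨x, hx, e⟩
      · exact .inr (.inl h7)
      · rcases List.mem_cons.1 hx with rfl | hx
        · exact .inl e
        · exact .inr (.inr (h5 z ⟨x, hx, e⟩))
    · rcases hc z hz with h7 | ⟨x, hx, e⟩
      · exact .inl (.inr h7)
      · rcases List.mem_cons.1 hx with rfl | hx
        · exact .inl (.inl e)
        · exact .inr ⟨x, hx, e⟩

theorem xg_cov (ha : 0 < a) {X : ℕ} (h : T.cov (T.dv w) a X = true) (β : D.ι)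
    (hβ : D.dg (C.vec w) β = a) : β ∈ C.S X := by
  simp only [Tab.cov, force_eq, nall_iff, ife_eq, Nat.beq_eq] at h
  obtain ⟨k, hk, rfl | rfl⟩ := C.cases β
  · have h1 := C.dig_dv (w := w) hk
    have h2 : dig (T.dv w) k = 65536 + a := by omega
    have h3 := h k hk
    rw [if_pos (show dig (T.dv w) k = Nat.add (nat_lit 65536) a from h2), tb_iff] at h3
    rw [mem_S, C.h_ρ k hk]
    exact h3
  · have h1 := C.dig_dv (w := w) hk
    rw [D.dg_neg] at hβ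
    have h2 : ¬ dig (T.dv w) k = 65536 + a := by omega
    have h2' : dig (T.dv w) k = 65536 - a := by omega
    have h3 := h k hk
    rw [if_neg (show ¬ dig (T.dv w) k = Nat.add (nat_lit 65536) a from h2),
      if_pos (show dig (T.dv w) k = Nat.sub (nat_lit 65536) a from h2'), tb_iff] at h3
    rw [mem_S, C.h_negρ hk]
    exact h3

theorem xg_ns {y z : ℕ} (hy : T.vc y = true) (hz : T.vc z = true) (h : T.ns y z = true) :
    C.rt y ≠ C.rt z ∧ ∀ ε, D.co (C.rt y) + D.co (C.rt z) ≠ D.co ε := by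
  rw [Tab.ns, an_iff, nt_iff, nt_iff, Nat.beq_eq, tb_iff] at h
  refine ⟨fun e => h.1 (by rw [← C.h_rt hy, ← C.h_rt hz, e]), fun ε e => h.2 ?_⟩
  have h1 := (C.h_add _ _ _).2 e
  rw [C.h_rt hy, C.h_rt hz] at h1
  refine (C.rm _).2 ⟨ε, ?_⟩
  change C.h ε = T.hc y + T.hc z - T.off
  omega

theorem xg_tw {Z X d g g' : ℕ} (hd : T.vc d = true) (hg : T.vc g = true) (hg' : T.vc g' = true)
    (h : T.tw Z X d g g' = true) : ∀ z ∈ C.S Z, ∀ γ, D.co z + D.co (C.rt d) = D.co γ →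
      γ = C.rt g ∨ γ = C.rt g' ∨ γ ∈ C.S X := by
  intro z hz γ e
  have h1 := C.S_sb h (C.sh_mem hz hd e)
  rw [S_lor, S_lor, C.S_bit hg, C.S_bit hg'] at h1
  rcases h1 with h1 | h1 | h1
  exacts [.inr (.inr h1), .inl h1, .inr (.inl h1)]

theorem xg_cube (hg : D.Good p) (h2 : p ≠ 2) (ha : 0 < a) {Z X b z₁ z₂ z₃ d₁ d₂ d₃ g₁ g₂ g₃ : ℕ}
    (hZ : ∀ β ∈ C.S Z, D.dg (C.vec w) β = a)
    (h : T.cube (T.dv w) Z X b z₁ z₂ z₃ d₁ d₂ d₃ g₁ g₂ g₃ = true)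
    (hX : HitW.{u} D p (C.vec w) (C.S Z) (C.S X)) :
    HitW.{u} D p (C.vec w) (C.S Z) (C.S (Nat.lor X (bit (T.hc g₁)))) := by
  simp only [Tab.cube, an_iff] at h
  obtain ⟨k0, m1, m2, m3, n1, n2, n3, s1, s2, s3, t1, t2, t3, o1, o2, o3⟩ := h
  obtain ⟨v1, -, u1, s1⟩ := C.sm_ok s1
  obtain ⟨v2, -, u2, s2⟩ := C.sm_ok s2
  obtain ⟨v3, -, u3, s3⟩ := C.sm_ok s3
  obtain ⟨-, -, w1, t1⟩ := C.sm_ok t1
  obtain ⟨-, -, w2, t2⟩ := C.sm_ok t2
  obtain ⟨-, -, w3, t3⟩ := C.sm_ok t3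
  have m1' := (C.rt_mem v1).2 m1
  have k1 : D.dg (C.vec w) (C.rt d₁) = 0 := (C.isd_ok k0).2
  have k2 := D.dg_add (C.vec w) s1
  rw [k1, hZ _ m1'] at k2
  refine (hX.cube hg h2 ha hZ (β := C.rt b) (by omega) m1' ((C.rt_mem v2).2 m2)
    ((C.rt_mem v3).2 m3) (C.xg_ns v2 v3 n1).1 (C.xg_ns v1 v3 n2).1 (C.xg_ns v1 v2 n3).1
    (C.xg_ns v2 v3 n1).2 (C.xg_ns v1 v3 n2).2 (C.xg_ns v1 v2 n3).2 s1 s2 s3 t1 t2 t3
    (C.xg_tw u1 w2 w3 o1) (C.xg_tw u2 w1 w3 o2) (C.xg_tw u3 w1 w2 o3)).mono ?_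
  rw [S_lor, C.S_bit w1]
  rintro x (hx | hx)
  exacts [.inr hx, .inl hx]

theorem xg_step (hg : D.Good p) (ha : 0 < a) {Z X q : ℕ}
    (hb : ∀ x, Z.testBit x = true → ∃ β, C.h β = x) (hZ : ∀ β ∈ C.S Z, D.dg (C.vec w) β = a)
    (h : T.isd (T.dv w) q 0 = true) (h1 : one (df (T.sh Z (T.hc q)) X) = true)
    (hX : HitW.{u} D p (C.vec w) (C.S Z) (C.S X)) :
    HitW.{u} D p (C.vec w) (C.S Z) (C.S (Nat.lor X (df (T.sh Z (T.hc q)) X))) := by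
  obtain ⟨hq, k1⟩ := C.isd_ok h
  obtain ⟨g, e⟩ := (one_iff _).1 h1
  obtain ⟨β, hβ, γ, rfl, hγ⟩ := C.sh_bit hb hq ((testBit_df _ _ _).1 ((e g).2 rfl)).1
  refine (hX.step hg ha hZ (δ := C.rt q) k1 hβ hγ fun z' hz' γ' e' => ?_).mono ?_
  · by_cases hm : γ' ∈ C.S X
    · exact .inr hm
    · exact .inl (C.h_inj ((e _).1 ((testBit_df _ _ _).2 ⟨C.sh_mem hz' hq e', hm⟩)))
  · rw [S_lor]
    rintro x (hx | hx)
    · exact .inr hx
    · exact .inl (C.h_inj ((e _).1 hx))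

theorem xg_peel (hg : D.Good p) (h2 : p ≠ 2) (ha : 0 < a) {Z : ℕ}
    (hb : ∀ x, Z.testBit x = true → ∃ β, C.h β = x) (hZ : ∀ β ∈ C.S Z, D.dg (C.vec w) β = a)
    {X : ℕ} (h : T.peel (T.dv w) a Z ds X = true)
    (hX : HitW.{u} D p (C.vec w) (C.S Z) (C.S X)) :
    ∃ X, HitW.{u} D p (C.vec w) (C.S Z) X ∧ ∀ β, D.dg (C.vec w) β = a → β ∈ X := by
  induction ds generalizing X with
  | nil => exact ⟨_, hX, C.xg_cov ha h⟩
  | cons q ds ih =>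
    have h' : ife (Nat.ble q (nat_lit 255)) (an (T.isd (T.dv w) q (nat_lit 0))
      (lz (df (T.sh Z (T.hc q)) X) fun Y => an (one Y) (T.peel (T.dv w) a Z ds (Nat.lor X Y))))
      (an (T.cube (T.dv w) Z X (hd q (nat_lit 0)) (hd q (nat_lit 1)) (hd q (nat_lit 2))
        (hd q (nat_lit 3)) (hd q (nat_lit 4)) (hd q (nat_lit 5)) (hd q (nat_lit 6))
        (hd q (nat_lit 7)) (hd q (nat_lit 8)) (hd q (nat_lit 9)))
        (T.peel (T.dv w) a Z ds (Nat.lor X (bit (T.hc (hd q (nat_lit 7))))))) = true := h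
    rw [ife_eq] at h'
    split_ifs at h'
    · rw [an_iff, lz_eq, an_iff] at h'
      exact ih h'.2.2 (C.xg_step hg ha hb hZ h'.1 h'.2.1 hX)
    · rw [an_iff] at h'
      exact ih h'.2 (C.xg_cube hg h2 ha hZ h'.1 hX)

theorem hit_ok (hg : D.Good p) (hk : D.Ker p) (h2 : p ≠ 2) (hb : ¬ p ∣ T.bp) (ha : 0 < a)
    (h : T.hit (T.dv w) a zs ds = true) : (∀ z ∈ zs, T.vc z.1 = true) ∧
      (∀ β ∈ C.Z zs, D.dg (C.vec w) β = a) ∧ ∃ X, HitW.{u} D p (C.vec w) (C.Z zs) X ∧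
        ∀ β, D.dg (C.vec w) β = a → β ∈ X := by
  rw [Tab.hit, an_iff, lz_eq] at h
  have hv := C.xg_vc h.1
  have h1 : ∀ z ∈ zs, T.vc z.1 = true := fun z hz => (hv z hz).1
  have h3 : ∀ β ∈ C.Z zs, D.dg (C.vec w) β = a := by
    rintro _ ⟨z, hz, rfl⟩
    exact (hv z hz).2
  have h4 : HitW.{u} D p (C.vec w) (C.Z zs) (C.Z zs) :=
    C.xg_tor hk hb h.1 subset_rfl HitW.nil fun z hz => .inr hz
  refine ⟨h1, h3, ?_⟩
  rw [← C.S_zm h1] at h3 h4 ⊢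
  exact C.xg_peel hg h2 ha (C.zm_bit h1) h3 h.2 h4

end Chart

end Pool.Agent.P.Bf04.X
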