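import Pool.Agent.P.MP_bf0464_al.H.XG
import Pool.Agent.P.MP_bf0464_al.H.XF

/-! Soundness of the check of chains. -/

namespace Pool.Agent.P.Bf04.X

open Matrix Module CD

universe u

namespace Chart

variable {D : CD} {T : Tab} (C : Chart D.toRD T) {p : ℕ} [Fact p.Prime]

theorem xh_sh {X d : ℕ} (hd : T.vc d = true) :
    D.Sh (C.rt d) (C.S X) ⊆ C.S (T.sh X (T.hc d)) := by
  rintro β ⟨α, hα, e⟩
  exact C.sh_mem hα hd e

theorem xh_mv {Q F d : ℕ} (h : T.mv Q F d = true) : D.Mv (C.S Q) (C.S F) (C.rt d) := by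
  simp only [Tab.mv, an_iff, nt_iff, Nat.beq_eq, tb_iff] at h
  obtain ⟨h1, h2, h3, h4, h5⟩ := h
  refine ⟨fun β hβ hβ' => ?_, fun h6 => h3 ?_, ?_, (C.xh_sh h1).trans (C.S_sb h5)⟩
  · have h6 : β ∈ C.S (Nat.land Q F) := by
      rw [C.S_land]
      exact ⟨hβ, hβ'⟩
    have h7 : Nat.land Q F = 0 := h2
    rw [h7, C.S_zero] at h6
    exact h6
  · rw [← C.S_lor, C.mem_S, C.h_neg', C.h_rt h1] at h6
    exact h6
  · rw [← C.S_lor]
    exact (C.xh_sh h1).trans (C.S_sb h4)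

theorem xh_nd {Q d : ℕ} (hd : T.vc d = true) (h : T.nd Q d = true) :
    ∀ β ∈ C.S Q, β ∉ D.Sh (C.rt d) (C.S Q ∩ D.Sh (C.rt d) (C.S Q)) := by
  rintro β hβ ⟨α, hα, e⟩
  have h1 : α ∈ C.S (Nat.land Q (T.sh Q (T.hc d))) := by
    rw [C.S_land]
    exact ⟨hα.1, C.xh_sh hd hα.2⟩
  have h2 : β ∈ C.S (Nat.land Q (T.sh (Nat.land Q (T.sh Q (T.hc d))) (T.hc d))) := by
    rw [C.S_land]
    exact ⟨hβ, C.sh_mem h1 hd e⟩
  have h3 : Nat.land Q (T.sh (Nat.land Q (T.sh Q (T.hc d))) (T.hc d)) = 0 :=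
    Nat.eq_of_beq_eq_true h
  rw [h3, C.S_zero] at h2
  exact h2

theorem run_ok (hg : D.Good p) {B : Set D.ι} {G : ℕ} {fin : ℕ → ℕ → ℕ → Bool}
    (hf : ∀ Q F k, fin Q F k = true → Ck.{u} D p (C.S Q) (C.S F) B k) {st : List St} {Q F k : ℕ}
    (h : T.run G fin st Q F k = true) : Ck.{u} D p (C.S Q) (C.S F) B k := by
  induction st generalizing Q F k with
  | nil => exact hf Q F k h
  | cons s st ih =>
    cases s with
    | dn g d z =>
      have h' : an (T.mv Q F d) (an (T.sm z d g) (an (tb Q (T.hc z)) (an (tb Q (T.hc g))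
          (an (nt (tb (T.sh Q (T.hc d)) (T.hc z)))
            (T.run G fin st (df Q (bit (T.hc g))) F k))))) = true := h
      simp only [an_iff, nt_iff] at h'
      obtain ⟨h1, h2, h3, h4, h5, h6⟩ := h'
      obtain ⟨v1, v2, v3, e⟩ := C.sm_ok h2
      have h7 := ih h6
      rw [C.S_df, C.S_bit v3] at h7
      exact h7.down hg (C.xh_mv h1) ((C.rt_mem v1).2 h3) ((C.rt_mem v3).2 h4) e
        fun h8 => h5 ((C.rt_mem v1).1 (C.xh_sh v2 h8))
    | up g d z =>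
      have h' : an (T.mv (Nat.lor Q (bit (T.hc g))) F d) (an (T.sm z d g) (an (tb Q (T.hc z))
          (an (nt (tb Q (T.hc g)))
          (an (nt (tb (T.sh (Nat.lor Q (bit (T.hc g))) (T.hc d)) (T.hc z)))
            (T.run G fin st (Nat.lor Q (bit (T.hc g))) F k))))) = true := h
      simp only [an_iff, nt_iff] at h'
      obtain ⟨h1, h2, h3, h4, h5, h6⟩ := h'
      obtain ⟨v1, v2, v3, e⟩ := C.sm_ok h2
      have e1 : insert (C.rt g) (C.S Q) = C.S (Nat.lor Q (bit (T.hc g))) := by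
        rw [C.S_lor, C.S_bit v3, Set.union_singleton]
      refine Ck.up hg (γ := C.rt g) (δ := C.rt d) (z := C.rt z) ?_ ((C.rt_mem v1).2 h3)
        (fun h8 => h4 ((C.rt_mem v3).1 h8)) e ?_ ?_
      · rw [e1]
        exact C.xh_mv h1
      · rw [e1]
        exact fun h8 => h5 ((C.rt_mem v1).1 (C.xh_sh v2 h8))
      · rw [e1]
        exact ih h6
    | wk =>
      have h' : an (sb F G) (T.run G fin st (df Q G) G k) = true := h
      rw [an_iff] at h'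
      have h7 := ih h'.2
      rw [C.S_df] at h7
      refine h7.weaken Set.sdiff_subset ?_
      rintro β (hβ | hβ)
      · by_cases h8 : β ∈ C.S G
        exacts [.inr h8, .inl ⟨hβ, h8⟩]
      · exact .inr (C.S_sb h'.1 hβ)
    | qd g₁ d₁ g₂ d₂ z₁ z₂ v w =>
      have h' : an (T.mv Q F d₁) (an (T.mv Q F d₂) (an (T.nd Q d₁)
          (an (T.nd Q d₂) (an (T.sm z₁ d₁ g₁) (an (T.sm z₂ d₂ g₁) (an (T.sm v d₁ w)
          (an (T.sm w d₂ g₂) (an (tb Q (T.hc g₁)) (an (tb Q (T.hc g₂))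
          (an (nt (Nat.beq (T.hc g₁) (T.hc g₂))) (an (tb Q (T.hc z₁)) (an (tb Q (T.hc z₂))
          (an (tb Q (T.hc v)) (an (nt (tb (T.sh Q (T.hc d₁)) (T.hc z₂)))
            (T.run G fin st (df (df Q (bit (T.hc g₁))) (bit (T.hc g₂))) F
              (X.hf k)))))))))))))))) = true := h
      simp only [an_iff, nt_iff, Nat.beq_eq] at h'
      obtain ⟨m1, m2, n1, n2, s1, s2, s3, s4, t1, t2, t3, t4, t5, t6, t7, h6⟩ := h'
      obtain ⟨a1, a2, a3, e1⟩ := C.sm_ok s1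
      obtain ⟨b1, b2, -, e2⟩ := C.sm_ok s2
      obtain ⟨c1, -, -, e3⟩ := C.sm_ok s3
      obtain ⟨-, -, c3, e4⟩ := C.sm_ok s4
      have h7 := ih h6
      rw [C.S_df, C.S_df, C.S_bit a3, C.S_bit c3, Set.sdiff_sdiff, Set.singleton_union] at h7
      refine (h7.quad hg (C.xh_mv m1) (C.xh_mv m2) (C.xh_nd a2 n1) (C.xh_nd b2 n2)
        ((C.rt_mem a3).2 t1) ((C.rt_mem c3).2 t2) (fun e => t3 ?_) ((C.rt_mem a1).2 t4) e1
        ((C.rt_mem b1).2 t5) e2 (fun h8 => t7 ((C.rt_mem b1).1 (C.xh_sh a2 h8)))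
        ((C.rt_mem c1).2 t6) e3 e4).mono ?_
      · rw [← C.h_rt a3, ← C.h_rt c3, e]
      · rw [hf_eq]
        omega

theorem dual_ok {ix : ℕ} {zs : List (ℕ × ℕ)} (h : T.dual ix zs = true) :
    0 < ix ∧ ∃ (n : ℕ) (b : Fin (n + 1) → D.ι) (Λ : Fin (n + 1) → D.Δ → ℤ),
      Set.range b = C.Z zs ∧ D.dg (Λ 0) (b 0) = ix ∧
        ∀ i j, j ≠ 0 → D.dg (Λ i) (b j) = if i = j then 1 else 0 := by
  cases zs with
  | nil => exact absurd h Bool.false_ne_true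
  | cons z t =>
    have h' : an (Nat.ble 1 ix) (an (T.isd (T.dv z.2) z.1 ix)
        (an (ltl (fun x s => lall (fun y => nt (Nat.beq x.1 y.1)) s) (z :: t))
        (lall (fun x => lall (fun y =>
          T.isd (T.dv x.2) y.1 (ife (Nat.beq x.1 y.1) 1 0)) t) (z :: t)))) = true := h
    simp only [an_iff, Nat.ble_eq, lall_iff, ife_eq, Nat.beq_eq] at h'
    obtain ⟨h1, h2, h3, h4⟩ := h'
    have pw : (z :: t).Pairwise fun x y => x.1 ≠ y.1 := ltl_pw (fun x t h => by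
      simpa only [lall_iff, nt_iff, Nat.beq_eq] using h) h3
    refine ⟨h1, t.length, fun i => C.rt ((z :: t).get i).1, fun i => C.vec ((z :: t).get i).2,
      ?_, (C.isd_ok h2).2, fun i j hj => ?_⟩
    · ext β
      constructor
      · rintro ⟨i, rfl⟩
        exact ⟨_, List.get_mem _ _, rfl⟩
      · rintro ⟨x, hx, rfl⟩
        obtain ⟨i, rfl⟩ := List.get_of_mem hx
        exact ⟨i, rfl⟩
    · have hm : (z :: t).get j ∈ t := by
        obtain ⟨j, rfl⟩ := Fin.exists_succ_eq.2 hj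
        exact List.get_mem t j
      have h5 := (C.isd_ok (h4 _ (List.get_mem (z :: t) i) _ hm)).2
      simp only []
      rw [h5]
      by_cases hij : i = j
      · rw [if_pos hij, if_pos (by rw [hij]), Nat.cast_one]
      · rw [if_neg hij, if_neg, Nat.cast_zero]
        rcases lt_or_gt_of_ne hij with h6 | h6
        · exact List.pairwise_iff_get.1 pw i j h6
        · exact (List.pairwise_iff_get.1 pw j i h6).symm

theorem chn_ok (hg : D.Good p) (hk : D.Ker p) (h2 : p ≠ 2) (hb : ¬ p ∣ T.bp) {c : Cn}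
    (hq : ∀ z ∈ c.q, T.vc z.1 = true) (h : T.chn c = true)
    (hs : ∀ B, Ck.{u} D p (C.Z c.q ∪ {β | 0 < D.dg (C.vec c.v) β}) ∅ B c.k → SavI.{u} D p B 1) :
    DoneE.{u} D p 1 (C.vec c.w) := by
  have h' : an (T.dom c.w) (an (T.hit (T.dv c.w) 1 c.zs c.ds) (an (T.dual c.ix c.zs)
      (T.run (T.mgt (T.dv c.w) 1) (fun Q F k => an (Nat.beq Q (T.zm c.zs))
        (an (sb F (T.mgt (T.dv c.w) 1)) (Nat.ble c.ix k))) c.st
        (Nat.lor (T.zm c.q) (T.mgt (T.dv c.v) 0)) 0 c.k))) = true := h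
  simp only [an_iff] at h'
  obtain ⟨h1, h3, h4, h5⟩ := h'
  obtain ⟨v1, v2, X, v3, v4⟩ := C.hit_ok hg hk h2 hb Nat.one_pos h3
  obtain ⟨i0, n, b, Λ, e1, e2, e3⟩ := C.dual_ok h4
  refine doneE_dom Nat.one_pos (C.dom_ok h1) v2 v3 v4 fun hS => hs _ ?_
  have h6 := C.run_ok (B := C.Z c.zs) hg (fun Q F k h7 => by
    simp only [an_iff, Nat.beq_eq, Nat.ble_eq] at h7
    obtain ⟨rfl, h8, h9⟩ := h7
    have h10 := C.S_sb h8
    rw [C.S_mgt] at h10
    rw [C.S_zm v1, ← e1]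
    rw [← e1] at hS v2
    exact ((ck_fin b Λ i0 e2 e3 (Nat.cast_pos.2 Nat.one_pos) (fun i => v2 _ ⟨i, rfl⟩) hS).weaken
      subset_rfl (Set.union_subset_union_right _ h10)).mono h9) h5
  rwa [C.S_lor, C.S_zm hq, C.S_mgt, C.S_zero, Nat.cast_zero] at h6

theorem frm_ok (ih : IH.{u} D p) {c : Cn} (h : T.frm c = true) : (∀ z ∈ c.q, T.vc z.1 = true) ∧
    ∀ B, Ck.{u} D p (C.Z c.q ∪ {β | 0 < D.dg (C.vec c.v) β}) ∅ B c.k → SavI.{u} D p B 1 := by
  have h' : an (T.nz c.v) (an (lall (fun q => an (T.isd (T.dv c.v) q.1 0)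
      (an (T.isd (T.dv c.u) q.1 q.2) (Nat.ble 1 q.2))) c.q)
      (orr (Nat.beq c.k 1) (an (lall (fun q => Nat.beq q.2 1) c.q)
      (an (nall (fun k => orr (nt (Nat.beq (dig (T.dv c.v) k) 65536))
        (nt (Nat.beq (dig (T.dv c.u) k) 65536))) T.n)
      (lany (fun x => orr (Nat.beq c.k 2) (an (Nat.beq c.k 4)
        (lany (fun y => nt (Nat.beq (T.hc x.1) (T.hc y.1))) c.q))) c.q))))) = true := h
  simp only [an_iff, orr_iff, lall_iff, lany_iff, nall_iff, nt_iff, Nat.beq_eq, Nat.ble_eq] at h'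
  obtain ⟨h1, h2, h3⟩ := h'
  have hv : ∀ z ∈ c.q, T.vc z.1 = true := fun z hz => (C.isd_ok (h2 z hz).1).1
  refine ⟨hv, fun B hB => ?_⟩
  rcases h3 with h3 | ⟨h3, h4, x, hx, h5⟩
  · rw [h3] at hB
    refine savI_fr1 (μ := C.vec c.u) ih (C.nz_ok h1) ?_ hB
    rintro β ⟨z, hz, rfl⟩
    refine ⟨(C.isd_ok (h2 z hz).1).2, ?_⟩
    rw [(C.isd_ok (h2 z hz).2.1).2]
    exact Nat.cast_pos.2 (h2 z hz).2.2
  · have hr : ∀ β, D.dg (C.vec c.v) β = 0 → D.dg (C.vec c.u) β ≠ 0 := fun β e1 e2 => by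
      obtain ⟨k, hk, e⟩ := C.cases β
      have d1 := C.dig_dv (w := c.v) hk
      have d2 := C.dig_dv (w := c.u) hk
      have d3 := h4 k hk
      rcases e with rfl | rfl
      · omega
      · rw [D.dg_neg] at e1 e2
        omega
    have hQ : ∀ β ∈ C.Z c.q, D.dg (C.vec c.v) β = 0 ∧ D.dg (C.vec c.u) β = 1 := by
      rintro β ⟨z, hz, rfl⟩
      refine ⟨(C.isd_ok (h2 z hz).1).2, ?_⟩
      rw [(C.isd_ok (h2 z hz).2.1).2, h3 z hz, Nat.cast_one]
    rcases h5 with h5 | ⟨h5, y, hy, h6⟩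
    · rw [h5] at hB
      exact savI_fr2 hr hQ ⟨x, hx, rfl⟩ hB
    · rw [h5] at hB
      refine savI_fr4 hr hQ ⟨x, hx, rfl⟩ ⟨y, hy, rfl⟩ (fun e => h6 ?_) hB
      rw [← C.h_rt (hv x hx), ← C.h_rt (hv y hy), e]

end Chart

end Pool.Agent.P.Bf04.X
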