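import Mathlib.Data.Nat.Bitwise
import Mathlib.Algebra.BigOperators.Intervals
import Mathlib.Algebra.BigOperators.Ring.Finset
import Mathlib.Algebra.Order.BigOperators.Group.Finset
import Mathlib.Data.List.GetD
import Mathlib.Algebra.BigOperators.ModEq

/-! Small programs on packed numbers, for evaluation by the kernel. -/

namespace Pool.Agent.P.Bf04.X

noncomputable section

/-- evaluate the number first -/
def force {α : Type} (x : ℕ) (f : ℕ → α) : α :=
  Nat.rec (motive := fun _ => α) (f (nat_lit 0)) (fun n _ => f (Nat.succ n)) x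

@[simp] theorem force_eq {α : Type} (x : ℕ) (f : ℕ → α) : force x f = f x := by
  cases x <;> rfl

/-- conditional -/
def ife {α : Type} (b : Bool) (x y : α) : α := Bool.rec (motive := fun _ => α) y x b

@[simp] theorem ife_eq {α : Type} (b : Bool) (x y : α) : ife b x y = if b = true then x else y := by
  cases b <;> rfl

/-- conjunction -/
def an (b c : Bool) : Bool := Bool.rec (motive := fun _ => Bool) false c b

@[simp] theorem an_iff (b c : Bool) : an b c = true ↔ b = true ∧ c = true := by
  cases b <;> simp [an]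

/-- disjunction -/
def orr (b c : Bool) : Bool := Bool.rec (motive := fun _ => Bool) c true b

@[simp] theorem orr_iff (b c : Bool) : orr b c = true ↔ b = true ∨ c = true := by
  cases b <;> simp [orr]

/-- negation -/
def nt (b : Bool) : Bool := Bool.rec (motive := fun _ => Bool) true false b

@[simp] theorem nt_iff (b : Bool) : nt b = true ↔ ¬ b = true := by
  cases b <;> simp [nt]

/-- all members of a list -/
def lall {α : Type} (f : α → Bool) (l : List α) : Bool :=
  List.rec (motive := fun _ => Bool) true (fun a _ r => an (f a) r) l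

@[simp] theorem lall_iff {α : Type} (f : α → Bool) (l : List α) :
    lall f l = true ↔ ∀ a ∈ l, f a = true := by
  induction l with
  | nil => simp [lall]
  | cons a l ih => rw [List.forall_mem_cons, ← ih, ← an_iff]; rfl

/-- some member of a list -/
def lany {α : Type} (f : α → Bool) (l : List α) : Bool :=
  List.rec (motive := fun _ => Bool) false (fun a _ r => orr (f a) r) l

@[simp] theorem lany_iff {α : Type} (f : α → Bool) (l : List α) :
    lany f l = true ↔ ∃ a ∈ l, f a = true := by
  induction l with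
  | nil => simp [lany]
  | cons a l ih => rw [List.exists_mem_cons_iff, ← ih, ← orr_iff]; rfl

/-- all members together with their tails -/
def ltl {α : Type} (f : α → List α → Bool) (l : List α) : Bool :=
  List.rec (motive := fun _ => Bool) true (fun a t r => an (f a t) r) l

theorem ltl_cons {α : Type} (f : α → List α → Bool) (a : α) (l : List α) :
    ltl f (a :: l) = true ↔ f a l = true ∧ ltl f l = true := an_iff _ _

/-- all numbers below n -/
def nall (f : ℕ → Bool) (n : ℕ) : Bool :=
  Nat.rec (motive := fun _ => Bool) true (fun k r => an (f k) r) n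

@[simp] theorem nall_iff (f : ℕ → Bool) (n : ℕ) : nall f n = true ↔ ∀ k < n, f k = true := by
  induction n with
  | zero => simp [nall]
  | succ n ih => rw [Nat.forall_lt_succ_right, ← ih, and_comm, ← an_iff]; rfl

/-- some number below n -/
def nany (f : ℕ → Bool) (n : ℕ) : Bool :=
  Nat.rec (motive := fun _ => Bool) false (fun k r => orr (f k) r) n

@[simp] theorem nany_iff (f : ℕ → Bool) (n : ℕ) : nany f n = true ↔ ∃ k < n, f k = true := by
  induction n with
  | zero => simp [nany]
  | succ n ih => rw [Nat.exists_lt_succ_right, ← ih, or_comm, ← orr_iff]; rfl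

/-- sums -/
def nsum (f : ℕ → ℕ) (n : ℕ) : ℕ :=
  Nat.rec (motive := fun _ => ℕ) (nat_lit 0) (fun k r => Nat.add r (f k)) n

@[simp] theorem nsum_eq (f : ℕ → ℕ) (n : ℕ) : nsum f n = ∑ k ∈ Finset.range n, f k := by
  induction n with
  | zero => rfl
  | succ n ih => rw [Finset.sum_range_succ, ← ih]; rfl

/-- unions -/
def nor (f : ℕ → ℕ) (n : ℕ) : ℕ :=
  Nat.rec (motive := fun _ => ℕ) (nat_lit 0) (fun k r => Nat.lor r (f k)) n

theorem testBit_nor (f : ℕ → ℕ) (n x : ℕ) :
    (nor f n).testBit x = true ↔ ∃ k < n, (f k).testBit x = true := by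
  induction n with
  | zero => simp [nor]
  | succ n ih =>
    rw [Nat.exists_lt_succ_right, ← ih, ← Bool.or_eq_true, ← Nat.testBit_or]; rfl

/-- unions over a list -/
def lun {α : Type} (f : α → ℕ) (l : List α) : ℕ :=
  List.rec (motive := fun _ => ℕ) (nat_lit 0) (fun a _ r => Nat.lor (f a) r) l

theorem testBit_lun {α : Type} (f : α → ℕ) (l : List α) (x : ℕ) :
    (lun f l).testBit x = true ↔ ∃ a ∈ l, (f a).testBit x = true := by
  induction l with
  | nil => simp [lun]
  | cons a l ih =>
    rw [List.exists_mem_cons_iff, ← ih, ← Bool.or_eq_true, ← Nat.testBit_or]; rfl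

/-- equality of lists -/
def leq (l : List ℕ) : List ℕ → Bool :=
  List.rec (motive := fun _ => List ℕ → Bool)
    (fun m => List.rec (motive := fun _ => Bool) true (fun _ _ _ => false) m)
    (fun a _ r m => List.rec (motive := fun _ => Bool) false
      (fun b m' _ => an (Nat.beq a b) (r m')) m) l

@[simp] theorem leq_iff (l m : List ℕ) : leq l m = true ↔ l = m := by
  induction l generalizing m with
  | nil => cases m <;> simp [leq]
  | cons a l ih =>
    cases m with
    | nil => simp [leq]
    | cons b m => rw [List.cons.injEq, ← ih, ← Nat.beq_eq, ← an_iff]; rfl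

/-- entries of a list -/
def nth (l : List ℕ) : ℕ → ℕ :=
  List.rec (motive := fun _ => ℕ → ℕ) (fun _ => nat_lit 0)
    (fun a _ r k => Nat.rec (motive := fun _ => ℕ) a (fun k' _ => r k') k) l

theorem nth_eq (l : List ℕ) (k : ℕ) : nth l k = l.getD k 0 := by
  induction l generalizing k with
  | nil => rfl
  | cons a l ih => cases k with
    | zero => rfl
    | succ k => exact ih k

/-- entries of a list of lists -/
def nthL (l : List (List ℕ)) : ℕ → List ℕ :=
  List.rec (motive := fun _ => ℕ → List ℕ) (fun _ => [])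
    (fun a _ r k => Nat.rec (motive := fun _ => List ℕ) a (fun k' _ => r k') k) l

/-- sums over a list -/
def lsum {α : Type} (f : α → ℕ) (l : List α) : ℕ :=
  List.rec (motive := fun _ => ℕ) (nat_lit 0) (fun a _ r => Nat.add (f a) r) l

@[simp] theorem lsum_eq {α : Type} (f : α → ℕ) (l : List α) : lsum f l = (l.map f).sum := by
  induction l with
  | nil => rfl
  | cons a l ih => rw [List.map_cons, List.sum_cons, ← ih]; rfl

/-- all members of a list together with their positions -/
def lix {α : Type} (f : α → ℕ → Bool) (l : List α) : ℕ → Bool :=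
  List.rec (motive := fun _ => ℕ → Bool) (fun _ => true)
    (fun a _ r k => an (f a k) (force (Nat.succ k) r)) l

theorem lix_iff {α : Type} (f : α → ℕ → Bool) (l : List α) (k : ℕ) :
    lix f l k = true ↔ ∀ i (h : i < l.length), f l[i] (k + i) = true := by
  induction l generalizing k with
  | nil => simp [lix]
  | cons a l ih =>
    change an (f a k) (force (Nat.succ k) (lix f l)) = true ↔ _
    rw [an_iff, force_eq, ih]
    refine ⟨fun h i hi => ?_, fun h => ⟨h 0 (Nat.succ_pos _), fun i hi => ?_⟩⟩
    · cases i with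
      | zero => exact h.1
      | succ i =>
        rw [← add_assoc, add_right_comm]
        exact h.2 i (Nat.lt_of_succ_lt_succ hi)
    · have := h (i + 1) (Nat.succ_lt_succ hi)
      rwa [← add_assoc, add_right_comm] at this

/-- the dot product -/
def dot (l : List ℕ) : List ℕ → ℕ :=
  List.rec (motive := fun _ => List ℕ → ℕ) (fun _ => nat_lit 0)
    (fun a _ r m => List.rec (motive := fun _ => ℕ) (nat_lit 0)
      (fun b m' _ => Nat.add (Nat.mul a b) (r m')) m) l

theorem dot_eq (l m : List ℕ) {r : ℕ} (h : m.length ≤ r) :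
    dot l m = ∑ j ∈ Finset.range r, nth l j * nth m j := by
  induction l generalizing m r with
  | nil => simp [dot, nth]
  | cons a l ih =>
    cases m with
    | nil => simp [dot, nth]
    | cons b m =>
      obtain ⟨r, rfl⟩ : ∃ r', r = r' + 1 := ⟨r - 1, by simp at h; omega⟩
      rw [Finset.sum_range_succ', ← Nat.add_comm]
      exact congrArg₂ (· + ·) rfl (ih m (Nat.le_of_succ_le_succ h))

/-- a bit -/
def tb (x n : ℕ) : Bool := Nat.beq (Nat.land (nat_lit 1) (Nat.shiftRight x n)) (nat_lit 1)

@[simp] theorem tb_iff (x n : ℕ) : tb x n = true ↔ x.testBit n = true := by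
  change Nat.beq (1 &&& (x >>> n)) 1 = true ↔ (1 &&& (x >>> n) != 0) = true
  rw [Nat.beq_eq, Nat.one_and_eq_mod_two, bne_iff_ne]
  omega

/-- a single bit -/
def bit (n : ℕ) : ℕ := Nat.shiftLeft (nat_lit 1) n

@[simp] theorem testBit_bit (n x : ℕ) : (bit n).testBit x = true ↔ x = n := by
  change (1 <<< n).testBit x = true ↔ _
  rw [Nat.one_shiftLeft, Nat.testBit_two_pow, decide_eq_true_eq, eq_comm]

/-- inclusion -/
def sb (x y : ℕ) : Bool := Nat.beq (Nat.land x y) x

theorem sb_iff (x y : ℕ) : sb x y = true ↔ ∀ n, x.testBit n = true → y.testBit n = true := by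
  change Nat.beq (x &&& y) x = true ↔ _
  rw [Nat.beq_eq]
  refine ⟨fun h n hn => ?_, fun h => Nat.eq_of_testBit_eq fun n => ?_⟩
  · rw [← h, Nat.testBit_and, Bool.and_eq_true] at hn
    exact hn.2
  · rw [Nat.testBit_and]
    cases hx : x.testBit n
    · rfl
    · simpa using h n hx

/-- difference -/
def df (x y : ℕ) : ℕ := Nat.xor x (Nat.land x y)

@[simp] theorem testBit_df (x y n : ℕ) :
    (df x y).testBit n = true ↔ x.testBit n = true ∧ ¬ y.testBit n = true := by
  change (x ^^^ (x &&& y)).testBit n = true ↔ _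
  rw [Nat.testBit_xor, Nat.testBit_and]
  cases x.testBit n <;> cases y.testBit n <;> simp

@[simp] theorem testBit_lor (x y n : ℕ) :
    (Nat.lor x y).testBit n = true ↔ x.testBit n = true ∨ y.testBit n = true := by
  rw [← Bool.or_eq_true, ← Nat.testBit_or]; rfl

@[simp] theorem testBit_land (x y n : ℕ) :
    (Nat.land x y).testBit n = true ↔ x.testBit n = true ∧ y.testBit n = true := by
  rw [← Bool.and_eq_true, ← Nat.testBit_and]; rfl

/-- shift by d minus o -/
def shf (x d o : ℕ) : ℕ := Nat.shiftRight (Nat.shiftLeft x d) o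

theorem testBit_shf (x d o n : ℕ) :
    (shf x d o).testBit n = true ↔ ∃ m, x.testBit m = true ∧ m + d = n + o := by
  change ((x <<< d) >>> o).testBit n = true ↔ _
  rw [Nat.testBit_shiftRight, Nat.testBit_shiftLeft, Bool.and_eq_true, decide_eq_true_eq]
  refine ⟨fun h => ⟨_, h.2, by omega⟩, ?_⟩
  rintro ⟨m, h, e⟩
  exact ⟨by omega, by rwa [show o + n - d = m by omega]⟩

/-- digits in base 2 ^ 20 -/
def dig (v k : ℕ) : ℕ := Nat.mod (Nat.shiftRight v (Nat.mul (nat_lit 20) k)) (nat_lit 1048576)

/-- digits in base 2 ^ 10 -/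
def dt (w j : ℕ) : ℕ := Nat.mod (Nat.shiftRight w (Nat.mul (nat_lit 10) j)) (nat_lit 1024)

theorem dig_eq (v k : ℕ) : dig v k = v / 1048576 ^ k % 1048576 := by
  change v >>> (20 * k) % 1048576 = _
  rw [Nat.shiftRight_eq_div_pow, pow_mul]
  rfl

theorem dt_eq (w j : ℕ) : dt w j = w / 1024 ^ j % 1024 := by
  change w >>> (10 * j) % 1024 = _
  rw [Nat.shiftRight_eq_div_pow, pow_mul]
  rfl

theorem dt_lt (w j : ℕ) : dt w j < 1024 := Nat.mod_lt _ (by decide)

/-- the lowest digits -/
theorem digit_of_modEq {b n v : ℕ} {f : ℕ → ℕ} (hf : ∀ i < n, f i < b)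
    (h : v ≡ ∑ i ∈ Finset.range n, f i * b ^ i [MOD b ^ n]) {k : ℕ} (hk : k < n) :
    v / b ^ k % b = f k := by
  induction n generalizing v f k with
  | zero => omega
  | succ n ih =>
    have hb : 0 < b := (Nat.zero_le _).trans_lt (hf 0 (Nat.succ_pos n))
    have e : ∑ i ∈ Finset.range (n + 1), f i * b ^ i
        = f 0 + b * ∑ i ∈ Finset.range n, f (i + 1) * b ^ i := by
      rw [Finset.sum_range_succ', Finset.mul_sum, add_comm, pow_zero, mul_one]
      exact congrArg _ (Finset.sum_congr rfl fun i _ => by rw [pow_succ']; ac_rfl)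
    rw [e] at h
    have h0 : v % b = f 0 := by
      have := (h.of_dvd (dvd_pow_self b (Nat.succ_ne_zero n)))
      rwa [Nat.ModEq, Nat.add_mul_mod_self_left, Nat.mod_eq_of_lt (hf 0 (Nat.succ_pos n))] at this
    cases k with
    | zero => rwa [pow_zero, Nat.div_one]
    | succ k =>
      rw [pow_succ', ← Nat.div_div_eq_div_mul]
      refine ih (f := fun i => f (i + 1)) (fun i hi => hf _ (by omega)) ?_ (by omega)
      rw [← Nat.mod_add_div v b, h0, pow_succ'] at h
      exact Nat.ModEq.mul_left_cancel' hb.ne' (Nat.ModEq.add_left_cancel' _ h)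

theorem modEq_digit (b n v : ℕ) :
    v ≡ ∑ i ∈ Finset.range n, v / b ^ i % b * b ^ i [MOD b ^ n] := by
  have : v % b ^ n = ∑ i ∈ Finset.range n, v / b ^ i % b * b ^ i := by
    induction n with
    | zero => simp [Nat.mod_one]
    | succ n ih => rw [Finset.sum_range_succ, ← ih, Nat.mod_pow_succ, mul_comm]
  rw [← this]
  exact (Nat.mod_modEq _ _).symm

/-- the combination of the columns with the digits of w as coefficients -/
def degs (cs : List ℕ) : ℕ → ℕ :=
  List.rec (motive := fun _ => ℕ → ℕ) (fun _ => nat_lit 0)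
    (fun c _ r w => Nat.add (Nat.mul (Nat.mod w (nat_lit 1024)) c)
      (force (Nat.shiftRight w (nat_lit 10)) r)) cs

theorem degs_eq (cs : List ℕ) (w : ℕ) :
    degs cs w = ∑ j ∈ Finset.range cs.length, dt w j * cs.getD j 0 := by
  induction cs generalizing w with
  | nil => rfl
  | cons c cs ih =>
    change w % 1024 * c + force (w >>> 10) (degs cs) = _
    rw [force_eq, ih, List.length_cons, Finset.sum_range_succ', add_comm, dt_eq, pow_zero,
      Nat.div_one]
    refine congrArg₂ _ (Finset.sum_congr rfl fun j _ => ?_) rfl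
    rw [dt_eq, dt_eq, Nat.shiftRight_eq_div_pow, Nat.div_div_eq_div_mul, pow_succ' 1024]
    rfl

theorem dig_degs {cs : List ℕ} {k₀ n : ℕ}
    (h : ∀ k < n, 1023 * (∑ j ∈ Finset.range cs.length, dig (cs.getD j 0) k) + dig k₀ k < 1048576)
    (w : ℕ) {k : ℕ} (hk : k < n) : dig (degs cs w + k₀) k
      = ∑ j ∈ Finset.range cs.length, dt w j * dig (cs.getD j 0) k + dig k₀ k := by
  rw [dig_eq]
  refine digit_of_modEq (f := fun k => ∑ j ∈ Finset.range cs.length,
    dt w j * dig (cs.getD j 0) k + dig k₀ k) (fun i hi => lt_of_le_of_lt ?_ (h i hi)) ?_ hk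
  · rw [Finset.mul_sum]
    exact Nat.add_le_add_right (Finset.sum_le_sum fun j _ =>
      Nat.mul_le_mul_right _ (Nat.le_of_lt_succ (dt_lt w j))) _
  · simp only [add_mul, Finset.sum_add_distrib, Finset.sum_mul, degs_eq, dig_eq]
    refine Nat.ModEq.add ?_ (modEq_digit _ _ _)
    rw [Finset.sum_comm]
    refine Nat.ModEq.sum fun j _ => ?_
    simp only [mul_assoc, ← Finset.mul_sum]
    exact (modEq_digit _ _ _).mul_left _

end

end Pool.Agent.P.Bf04.X
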