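import Pool.Agent.P.MP_bf0464_al.H.XP
import Pool.Agent.P.MP_bf0464_al.H.Root
import Pool.Agent.P.MP_bf0464_al.H.Class

/-! Tables of roots. -/

namespace Pool.Agent.P.Bf04.X

open Matrix

noncomputable section

/-- a table of positive roots -/
structure Tab where
  r : ℕ
  n : ℕ
  off : ℕ
  bp : ℕ
  hs : ℕ
  k0 : ℕ
  rm : ℕ
  cols : List ℕ
  c : List ℕ
  th : List ℕ
  m : List (List ℕ)
  L : List (ℕ × List ℕ)

namespace Tab

variable (T : Tab)

/-- the degrees of all positive roots, shifted by 2 ^ 16 -/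
def dv (w : ℕ) : ℕ := Nat.add (degs T.cols w) T.k0

/-- y is the reflection of x -/
def rel (x y : List ℕ) (i s : ℕ) : Bool :=
  nall (fun j => ife (Nat.beq j i) (Nat.beq (Nat.add (nth y j) (nth x j)) s)
    (Nat.beq (nth y j) (nth x j))) T.r

/-- the reflection of x occurs in l -/
def fnd (l : List (ℕ × List ℕ)) (x : ℕ × List ℕ) (i s : ℕ) : Bool :=
  force (Nat.sub (Nat.add x.1 (Nat.mul s (nth T.c i)))
    (Nat.mul (Nat.mul (nat_lit 2) (nth x.2 i)) (nth T.c i))) fun h =>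
      lany (fun z => an (Nat.beq z.1 h) (T.rel x.2 z.2 i s)) l

/-- x is a unit vector -/
def isU (x : List ℕ) (i : ℕ) : Bool :=
  nall (fun j => Nat.beq (nth x j) (ife (Nat.beq j i) (nat_lit 1) (nat_lit 0))) T.r

/-- the entries agree with the packed data -/
def okE : Bool := lix (fun x k => an (Nat.beq x.1 (dig T.hs k)) (an (Nat.beq x.1 (dot x.2 T.c))
  (an (Nat.ble (nat_lit 1) x.1) (an (Nat.ble x.1 T.off)
  (an (Nat.beq (Nat.add (dig T.k0 k) (Nat.mul (nat_lit 512) (nsum (nth x.2) T.r))) (nat_lit 65536))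
  (nall (fun j => an (Nat.beq (nth x.2 j) (dig (nth T.cols j) k))
    (Nat.ble (nth x.2 j) (nth T.th j))) T.r)))))) T.L (nat_lit 0)

/-- lengths -/
def okL : Bool := an (Nat.beq T.L.length T.n) (an (Nat.beq T.cols.length T.r)
  (an (Nat.beq T.c.length T.r) (an (Nat.beq T.th.length T.r) (nall (fun i =>
    an (Nat.beq (nthL T.m i).length T.r) (Nat.beq (nth (nthL T.m i) i) (nat_lit 0))) T.r))))

/-- the table is closed under reflections and contains the unit vectors and the top vector -/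
def okC : Bool := an (lall (fun x => nall (fun i => force (dot x.2 (nthL T.m i)) fun s =>
    orr (Nat.beq (Nat.mul (nat_lit 2) (nth x.2 i)) s) (orr (T.fnd T.L x i s) (T.isU x.2 i))) T.r) T.L)
  (an (nall (fun i => lany (fun z => T.isU z.2 i) T.L) T.r) (lany (fun z => leq z.2 T.th) T.L))

/-- the entries can be reached from the unit vectors and have different hashes -/
def okR : Bool := ltl (fun x t => an (lall (fun y => nt (Nat.beq x.1 y.1)) t)
  (nany (fun i => orr (T.isU x.2 i) (force (dot x.2 (nthL T.m i)) fun s =>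
    an (Nat.ble s (Nat.mul (nat_lit 2) (nth x.2 i))) (an (nt (Nat.beq s
      (Nat.mul (nat_lit 2) (nth x.2 i)))) (T.fnd t x i s)))) T.r)) T.L

/-- the hash detects sums -/
def okX : Bool := ltl (fun x t => lall (fun y => force (Nat.add x.1 y.1) fun s =>
  orr (nt (tb T.rm (Nat.add T.off s))) (lall (fun z => orr (nt (Nat.beq z.1 s))
    (nall (fun j => Nat.beq (Nat.add (nth x.2 j) (nth y.2 j)) (nth z.2 j)) T.r)) T.L)) (x :: t)) T.L

/-- the mask of the roots and the Killing form -/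
def okK : Bool := an (Nat.beq T.rm
    (lun (fun z => Nat.lor (bit (Nat.add T.off z.1)) (bit (Nat.sub T.off z.1))) T.L))
  (nall (fun i => Nat.beq (Nat.mod T.bp (Nat.mul (nat_lit 2) (lsum (fun x =>
    force (dot x.2 (nthL T.m i)) fun s => force (Nat.mul (nat_lit 2) (nth x.2 i)) fun t =>
      Nat.add (Nat.mul (Nat.sub s t) (Nat.sub s t)) (Nat.mul (Nat.sub t s) (Nat.sub t s))) T.L)))
    (nat_lit 0)) T.r)

/-- all checks -/
def ok : Bool := an T.okL (an T.okE (an T.okK (an T.okC (an T.okR T.okX))))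

end Tab

/-- an identification of the roots with the entries of a table -/
structure Chart (D : RD) (T : Tab) where
  e : ℕ → D.Δ
  ix : D.Δ → ℕ
  ρ : ℕ → D.ι
  h : D.ι → ℕ
  θ : D.ι
  ix_lt : ∀ i, ix i < T.r
  e_ix : ∀ i, e (ix i) = i
  ix_e : ∀ j < T.r, ix (e j) = j
  card : Fintype.card D.Δ = T.r
  pos : ∀ k < T.n, D.Pos (ρ k)
  sur : ∀ β, D.Pos β → ∃ k < T.n, ρ k = β
  inj : ∀ k < T.n, ∀ k' < T.n, ρ k = ρ k' → k = k'
  dv : ∀ w, ∀ k < T.n,
    (dig (T.dv w) k : ℤ) = 65536 + D.dg (fun i => (dt w (ix i) : ℤ) - 512) (ρ k)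
  h_ρ : ∀ k < T.n, h (ρ k) = T.off + dig T.hs k
  h_neg : ∀ β, h β + h (D.neg β) = 2 * T.off
  h_inj : Function.Injective h
  h_add : ∀ α β γ, h α + h β = h γ + T.off ↔ D.co α + D.co β = D.co γ
  rm : ∀ x, T.rm.testBit x = true ↔ ∃ β, h β = x
  top : ∀ β, D.co β ≤ D.co θ
  th : ∀ i, D.co θ i = nth T.th (ix i)
  th_len : T.th.length = T.r
  th_sum : ∑ j ∈ Finset.range T.r, nth T.th j ≤ 128
  kn : ∀ i, ∑ β, D.pr β (D.s i) ^ 2 ∣ (T.bp : ℤ)

/-- a numbering of the simple roots -/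
structure Fr (D : RD) (T : Tab) where
  e : ℕ → D.Δ
  ix : D.Δ → ℕ
  ix_lt : ∀ i, ix i < T.r
  e_ix : ∀ i, e (ix i) = i
  ix_e : ∀ j < T.r, ix (e j) = j
  hA : ∀ a < T.r, ∀ b < T.r, D.A (e a) (e b) = if a = b then 2 else -(nth (nthL T.m b) a : ℤ)

theorem ltl_pw {α : Type} {f : α → List α → Bool} {R : α → α → Prop}
    (hf : ∀ a t, f a t = true → ∀ b ∈ t, R a b) {l : List α} (h : ltl f l = true) :
    l.Pairwise R := by
  induction l with
  | nil => exact List.Pairwise.nil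
  | cons a l ih => exact List.Pairwise.cons (hf a l ((ltl_cons ..).1 h).1) (ih ((ltl_cons ..).1 h).2)

theorem ltl_all {α : Type} {f : α → List α → Bool} {P : α → Prop}
    (hf : ∀ a t, f a t = true → (∀ b ∈ t, P b) → P a) {l : List α} (h : ltl f l = true) :
    ∀ a ∈ l, P a := by
  induction l with
  | nil => simp
  | cons a l ih =>
    have := ih ((ltl_cons ..).1 h).2
    exact List.forall_mem_cons.2 ⟨hf a l ((ltl_cons ..).1 h).1 this, this⟩

theorem ltl_sym {α : Type} {f : α → List α → Bool} {R : α → α → Prop} (hR : ∀ a b, R a b → R b a)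
    (hf : ∀ a t, f a t = true → ∀ b ∈ a :: t, R a b) {l : List α} (h : ltl f l = true) :
    ∀ a ∈ l, ∀ b ∈ l, R a b := by
  induction l with
  | nil => simp
  | cons a l ih =>
    obtain ⟨h1, h2⟩ := (ltl_cons ..).1 h
    intro x hx y hy
    rcases List.mem_cons.1 hx with rfl | hx'
    · exact hf _ _ h1 y hy
    · rcases List.mem_cons.1 hy with rfl | hy'
      · exact hR _ _ (hf _ _ h1 x hx)
      · exact ih h2 x hx' y hy'

namespace Tab

variable {T : Tab}

theorem rel_iff {x y : List ℕ} {i s : ℕ} : T.rel x y i s = true ↔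
    ∀ j < T.r, if j = i then nth y j + nth x j = s else nth y j = nth x j := by
  simp only [rel, nall_iff, ife_eq, Nat.beq_eq, Nat.add_eq]
  refine forall₂_congr fun j _ => ?_
  split_ifs <;> exact Nat.beq_eq ▸ Iff.rfl

theorem fnd_ex {l : List (ℕ × List ℕ)} {x : ℕ × List ℕ} {i s : ℕ} (h : T.fnd l x i s = true) :
    ∃ z ∈ l, T.rel x.2 z.2 i s = true := by
  simp only [fnd, force_eq, lany_iff, an_iff] at h
  obtain ⟨z, hz, -, h⟩ := h
  exact ⟨z, hz, h⟩

theorem isU_iff {x : List ℕ} {i : ℕ} :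
    T.isU x i = true ↔ ∀ j < T.r, nth x j = if j = i then 1 else 0 := by
  simp only [isU, nall_iff, ife_eq, Nat.beq_eq]

theorem okL_iff : T.okL = true ↔ T.L.length = T.n ∧ T.cols.length = T.r ∧ T.c.length = T.r ∧
    T.th.length = T.r ∧ ∀ i < T.r, (nthL T.m i).length = T.r ∧ nth (nthL T.m i) i = 0 := by
  simp only [okL, an_iff, nall_iff, Nat.beq_eq]

theorem okE_iff : T.okE = true ↔ ∀ k (h : k < T.L.length), T.L[k].1 = dig T.hs k ∧
    T.L[k].1 = dot T.L[k].2 T.c ∧ 1 ≤ T.L[k].1 ∧ T.L[k].1 ≤ T.off ∧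
    dig T.k0 k + 512 * ∑ j ∈ Finset.range T.r, nth T.L[k].2 j = 65536 ∧
    ∀ j < T.r, nth T.L[k].2 j = dig (nth T.cols j) k ∧ nth T.L[k].2 j ≤ nth T.th j := by
  simp only [okE, lix_iff, an_iff, nall_iff, Nat.beq_eq, Nat.ble_eq, nsum_eq, Nat.add_eq,
    Nat.mul_eq, zero_add]

end Tab

namespace Fr

variable {D : RD} {T : Tab} (F : Fr D T)

/-- the list gives the coordinates of the root -/
def Rep (x : List ℕ) (β : D.ι) : Prop := ∀ i, D.co β i = nth x (F.ix i)

theorem sum_ix {M : Type*} [AddCommMonoid M] (f : ℕ → M) :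
    ∑ i, f (F.ix i) = ∑ j ∈ Finset.range T.r, f j :=
  Finset.sum_nbij' F.ix F.e (fun i _ => Finset.mem_range.2 (F.ix_lt i))
    (fun _ _ => Finset.mem_univ _) (fun i _ => F.e_ix i)
    (fun j hj => F.ix_e j (Finset.mem_range.1 hj)) fun _ _ => rfl

theorem ix_eq {i : D.Δ} {j : ℕ} (hj : j < T.r) : F.ix i = j ↔ i = F.e j :=
  ⟨fun h => by rw [← h, F.e_ix], fun h => by rw [h, F.ix_e j hj]⟩

variable {F}

theorem Rep.uniq {x : List ℕ} {β γ : D.ι} (h : F.Rep x β) (h' : F.Rep x γ) : β = γ :=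
  D.co_inj (funext fun i => (h i).trans (h' i).symm)

theorem Rep.pos {x : List ℕ} {β : D.ι} (h : F.Rep x β) : D.Pos β := fun i => by
  rw [h i]; exact Int.natCast_nonneg _

theorem Rep.dg {x : List ℕ} {β : D.ι} (h : F.Rep x β) (d : ℕ → ℤ) :
    D.dg (fun i => d (F.ix i)) β = ∑ j ∈ Finset.range T.r, nth x j * d j := by
  rw [← F.sum_ix fun j => (nth x j : ℤ) * d j]
  exact Finset.sum_congr rfl fun i _ => by rw [h i]; rfl

theorem Rep.pr (hL : T.okL = true) {x : List ℕ} {β : D.ι} (h : F.Rep x β) {i : ℕ} (hi : i < T.r) :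
    D.pr β (D.s (F.e i)) = 2 * nth x i - dot x (nthL T.m i) := by
  obtain ⟨h1, h2⟩ := (Tab.okL_iff.1 hL).2.2.2.2 i hi
  have e : ∀ j, D.co β j * D.A j (F.e i) = (if F.ix j = i then 2 * (nth x (F.ix j) : ℤ) else 0) -
      ((nth x (F.ix j) * nth (nthL T.m i) (F.ix j) : ℕ) : ℤ) := fun j => by
    conv_lhs => rw [h j, ← F.e_ix j, F.hA _ (F.ix_lt j) _ hi, F.e_ix]
    split_ifs with hj
    · rw [hj, h2]; push_cast; ring
    · push_cast; ring
  rw [D.pr_s, Finset.sum_congr rfl fun j _ => e j, F.sum_ix fun j =>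
    (if j = i then 2 * (nth x j : ℤ) else 0) - ((nth x j * nth (nthL T.m i) j : ℕ) : ℤ),
    Finset.sum_sub_distrib, Finset.sum_ite_eq', if_pos (Finset.mem_range.2 hi), dot_eq _ _ h1.le,
    Nat.cast_sum]

theorem Rep.rf (hL : T.okL = true) {x y : List ℕ} {β : D.ι} (h : F.Rep x β) {i : ℕ} (hi : i < T.r)
    (hr : T.rel x y i (dot x (nthL T.m i)) = true) : F.Rep y (D.rf (D.s (F.e i)) β) := fun j => by
  have h1 := Tab.rel_iff.1 hr _ (F.ix_lt j)
  rw [D.co_rf, D.co_s, h.pr hL hi, Pi.sub_apply, Pi.smul_apply, h j, smul_eq_mul]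
  split_ifs at h1 with hj
  · rw [(F.ix_eq hi).1 hj, Pi.single_eq_same, F.ix_e i hi]
    rw [hj] at h1
    omega
  · rw [Pi.single_eq_of_ne fun e => hj ((F.ix_eq hi).2 e), h1, mul_zero, sub_zero]

theorem rel_symm (hL : T.okL = true) {x y : List ℕ} {i : ℕ} (hi : i < T.r)
    (hr : T.rel x y i (dot x (nthL T.m i)) = true) : T.rel y x i (dot y (nthL T.m i)) = true := by
  obtain ⟨h1, h2⟩ := (Tab.okL_iff.1 hL).2.2.2.2 i hi
  have hr := Tab.rel_iff.1 hr
  have e : dot y (nthL T.m i) = dot x (nthL T.m i) := by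
    rw [dot_eq _ _ h1.le, dot_eq _ _ h1.le]
    refine Finset.sum_congr rfl fun j hj => ?_
    have := hr j (Finset.mem_range.1 hj)
    split_ifs at this with hj
    · rw [hj, h2, mul_zero, mul_zero]
    · rw [this]
  refine Tab.rel_iff.2 fun j hj => ?_
  have := hr j hj
  split_ifs at this ⊢ <;> omega

theorem rep_s {x : List ℕ} {i : ℕ} (hi : i < T.r) (h : T.isU x i = true) :
    F.Rep x (D.s (F.e i)) := fun j => by
  rw [D.co_s, Tab.isU_iff.1 h _ (F.ix_lt j)]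
  split_ifs with hj
  · rw [(F.ix_eq hi).1 hj, Pi.single_eq_same, Nat.cast_one]
  · rw [Pi.single_eq_of_ne fun e => hj ((F.ix_eq hi).2 e), Nat.cast_zero]

variable (F)

theorem ex_rep (hL : T.okL = true) (hR : T.okR = true) : ∀ x ∈ T.L, ∃ β, F.Rep x.2 β := by
  refine ltl_all (fun x t h ih => ?_) hR
  simp only [an_iff, nany_iff, orr_iff, force_eq] at h
  obtain ⟨-, i, hi, h | ⟨-, -, h⟩⟩ := h
  · exact ⟨_, rep_s hi h⟩
  · obtain ⟨z, hz, h⟩ := Tab.fnd_ex h
    obtain ⟨γ, hγ⟩ := ih z hz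
    exact ⟨_, hγ.rf hL hi (rel_symm hL hi h)⟩

theorem ex_mem (hL : T.okL = true) (hC : T.okC = true) {β : D.ι} (hβ : D.Pos β) :
    ∃ x ∈ T.L, F.Rep x.2 β := by
  simp only [Tab.okC, an_iff, lall_iff, nall_iff, lany_iff, force_eq, orr_iff, Nat.beq_eq] at hC
  obtain ⟨h1, h2, -⟩ := hC
  have st : ∀ i β, (∃ x ∈ T.L, F.Rep x.2 β) → (∃ x ∈ T.L, F.Rep x.2 (D.rf (D.s i) β)) ∨
      ∃ x ∈ T.L, F.Rep x.2 (D.neg (D.rf (D.s i) β)) := by
    rintro i β ⟨x, hx, h⟩
    rw [← F.e_ix i]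
    rcases h1 x hx _ (F.ix_lt i) with h3 | h3 | h3
    · refine Or.inl ⟨x, hx, fun j => ?_⟩
      rw [D.co_rf, h.pr hL (F.ix_lt i), ← h3, ← h j]
      simp
    · obtain ⟨z, hz, h3⟩ := Tab.fnd_ex h3
      exact Or.inl ⟨z, hz, h.rf hL (F.ix_lt i) h3⟩
    · rw [h.uniq (rep_s (F.ix_lt i) h3)]
      exact Or.inr ⟨x, hx, (D.neg_neg _).symm ▸ rep_s (F.ix_lt i) h3⟩
  have al : ∀ β, (∃ x ∈ T.L, F.Rep x.2 β) ∨ ∃ x ∈ T.L, F.Rep x.2 (D.neg β) := fun β => by
    induction β using D.root_induction with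
    | h0 i =>
      obtain ⟨z, hz, h⟩ := h2 _ (F.ix_lt i)
      exact Or.inl ⟨z, hz, F.e_ix i ▸ rep_s (F.ix_lt i) h⟩
    | h1 i β ih =>
      rcases ih with ih | ih
      · exact st i β ih
      · have := st i _ ih
        rwa [D.rf_neg, D.neg_neg, or_comm] at this
  exact (al β).resolve_right fun ⟨_, _, h⟩ => (D.pos_neg_iff β).1 h.pos hβ

/-- the hash of a root -/
def H (β : D.ι) : ℤ := D.dg (fun i => (nth T.c (F.ix i) : ℤ)) β

theorem H_neg (β : D.ι) : F.H (D.neg β) = -F.H β := D.dg_neg _ β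

variable {F}

theorem Rep.H (hL : T.okL = true) (hE : T.okE = true) {x : ℕ × List ℕ} (hx : x ∈ T.L) {β : D.ι}
    (h : F.Rep x.2 β) : F.H β = x.1 ∧ 1 ≤ x.1 ∧ x.1 ≤ T.off := by
  obtain ⟨k, hk, rfl⟩ := List.getElem_of_mem hx
  obtain ⟨-, h1, h2, h3, -⟩ := Tab.okE_iff.1 hE k hk
  refine ⟨?_, h2, h3⟩
  rw [h1, dot_eq _ _ (Tab.okL_iff.1 hL).2.2.1.le, Fr.H, h.dg fun j => (nth T.c j : ℤ)]
  push_cast
  rfl

variable (F)

theorem chart (ok : T.ok = true) : ∃ C : Chart D T, C.e = F.e := by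
  simp only [Tab.ok, an_iff] at ok
  obtain ⟨hL, hE, hK, hC, hR, hX⟩ := ok
  obtain ⟨l1, l2, -, l3, -⟩ := Tab.okL_iff.1 hL
  have hE' := Tab.okE_iff.1 hE
  choose ρ₀ hρ₀ using F.ex_rep hL hR
  obtain ⟨ρ, hρ⟩ : ∃ ρ : ℕ → D.ι, ∀ k (hk : k < T.L.length), F.Rep T.L[k].2 (ρ k) :=
    ⟨fun k => if hk : k < T.L.length then ρ₀ _ (List.getElem_mem hk) else D.s (F.e 0),
      fun k hk => by simp only [dif_pos hk]; exact hρ₀ _ _⟩
  have mem := fun β => F.ex_mem hL hC (β := β)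
  have pw : T.L.Pairwise fun x y => x.1 ≠ y.1 := ltl_pw (fun x t h => by
    simpa only [lall_iff, nt_iff, Nat.beq_eq] using ((an_iff _ _).1 h).1) hR
  have sur : ∀ β, D.Pos β → ∃ k < T.L.length, ρ k = β := fun β hβ => by
    obtain ⟨x, hx, h⟩ := mem β hβ
    obtain ⟨k, hk, rfl⟩ := List.getElem_of_mem hx
    exact ⟨k, hk, (hρ k hk).uniq h⟩
  have Hρ := fun k hk => (hρ k hk).H hL hE (List.getElem_mem hk)
  have inj : ∀ k < T.L.length, ∀ k' < T.L.length, F.H (ρ k) = F.H (ρ k') → k = k' := by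
    intro k hk k' hk' h
    rw [(Hρ k hk).1, (Hρ k' hk').1, Nat.cast_inj] at h
    rcases lt_trichotomy k k' with h' | h' | h'
    · exact absurd h (List.pairwise_iff_getElem.1 pw k k' hk hk' h')
    · exact h'
    · exact absurd h.symm (List.pairwise_iff_getElem.1 pw k' k hk' hk h')
  have bp : ∀ β, D.Pos β → 1 ≤ F.H β ∧ F.H β ≤ T.off := fun β hβ => by
    obtain ⟨x, hx, h⟩ := mem β hβ
    have := h.H hL hE hx
    omega
  have bn : ∀ β, ¬ D.Pos β → F.H β ≤ -1 ∧ -T.off ≤ F.H β := fun β hβ => by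
    have := bp _ ((D.pos_neg_iff β).2 hβ)
    rw [F.H_neg] at this
    omega
  have hh : ∀ β, ((T.off + F.H β).toNat : ℤ) = T.off + F.H β := fun β => by
    by_cases hβ : D.Pos β
    · have := bp β hβ; omega
    · have := bn β hβ; omega
  have ip : ∀ β γ, D.Pos β → F.H β = F.H γ → β = γ := fun β γ hβ h => by
    have hγ : D.Pos γ := by_contra fun hγ => by have := bp β hβ; have := bn γ hγ; omega
    obtain ⟨k, hk, rfl⟩ := sur β hβ
    obtain ⟨k', hk', rfl⟩ := sur γ hγ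
    rw [inj k hk k' hk' h]
  simp only [Tab.okK, an_iff, nall_iff, Nat.beq_eq, force_eq, lsum_eq] at hK
  obtain ⟨k1, k2⟩ := hK
  have rm : ∀ x, T.rm.testBit x = true ↔ ∃ z ∈ T.L, x = T.off + z.1 ∨ x = T.off - z.1 := fun x => by
    rw [k1, testBit_lun]
    simp only [testBit_lor, testBit_bit, Nat.add_eq, Nat.sub_eq]
  have hX' : ∀ x ∈ T.L, ∀ y ∈ T.L, ∀ z ∈ T.L, z.1 = x.1 + y.1 →
      ∀ j < T.r, nth x.2 j + nth y.2 j = nth z.2 j := by
    refine ltl_sym (fun x y h z hz e j hj => ?_) (fun x t h y hy z hz e => ?_) hX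
    · rw [add_comm, h z hz (by omega) j hj]
    · simp only [lall_iff, force_eq, orr_iff, nt_iff, tb_iff, nall_iff, Nat.beq_eq, Nat.add_eq] at h
      exact (((h y hy).resolve_left (not_not.2 ((rm _).2 ⟨z, hz, Or.inl (by rw [e])⟩))) z
        hz).resolve_left (not_not.2 e)
  have ap : ∀ α β γ, D.Pos α → D.Pos β → F.H α + F.H β = F.H γ → D.co α + D.co β = D.co γ := by
    intro α β γ hα hβ h
    have hγ : D.Pos γ := by_contra fun hγ => by
      have := bp α hα; have := bp β hβ; have := bn γ hγ; omega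
    obtain ⟨x, hx, rx⟩ := mem α hα
    obtain ⟨y, hy, ry⟩ := mem β hβ
    obtain ⟨z, hz, rz⟩ := mem γ hγ
    rw [(rx.H hL hE hx).1, (ry.H hL hE hy).1, (rz.H hL hE hz).1] at h
    funext i
    rw [Pi.add_apply, rx i, ry i, rz i, ← hX' x hx y hy z hz (by omega) _ (F.ix_lt i), Nat.cast_add]
  have am : ∀ α β γ, D.Pos α → F.H α + F.H β = F.H γ → D.co α + D.co β = D.co γ := by
    intro α β γ hα h
    by_cases hβ : D.Pos β
    · exact ap α β γ hα hβ h
    have hβ := (D.pos_neg_iff β).2 hβ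
    by_cases hγ : D.Pos γ
    · have := ap γ _ α hγ hβ (by rw [F.H_neg]; omega)
      rw [← this, D.co_neg, neg_add_cancel_right]
    · have := ap α _ (D.neg β) hα ((D.pos_neg_iff γ).2 hγ) (by simp only [F.H_neg]; omega)
      rw [D.co_neg, D.co_neg] at this
      linear_combination this
  obtain ⟨z, hz, hth⟩ : ∃ z ∈ T.L, z.2 = T.th := by
    simp only [Tab.okC, an_iff, lany_iff, leq_iff] at hC
    exact hC.2.2
  obtain ⟨t, ht, rfl⟩ := List.getElem_of_mem hz
  refine ⟨⟨F.e, F.ix, ρ, fun β => (T.off + F.H β).toNat, ρ t, F.ix_lt, F.e_ix, F.ix_e, ?_,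
    fun k hk => (hρ k (l1 ▸ hk)).pos, l1 ▸ sur, l1 ▸ fun k hk k' hk' h => inj k hk k' hk' (h ▸ rfl),
    fun w k hk => ?_, fun k hk => ?_, fun β => ?_, fun β γ h => ?_, fun α β γ => ?_, fun x => ?_,
    fun β => ?_, fun i => hth ▸ hρ t ht i, l3, ?_, fun i => ?_⟩, rfl⟩
  · simpa using F.sum_ix fun _ => (1 : ℕ)
  · have e : ∀ k (hk : k < T.L.length), ∀ j ∈ Finset.range T.r,
        dig (T.cols.getD j 0) k = nth T.L[k].2 j := fun k hk j hj => by
      rw [← nth_eq, ((hE' k hk).2.2.2.2.2 j (Finset.mem_range.1 hj)).1]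
    have hk' : k < T.L.length := l1 ▸ hk
    have := dig_degs (cs := T.cols) (k₀ := T.k0) (n := T.L.length) (fun k hk => by
      have := (hE' k hk).2.2.2.2.1
      rw [← Finset.sum_congr rfl (e k hk)] at this
      rw [l2]
      omega) w hk'
    rw [Tab.dv, Nat.add_eq, this, l2, (hρ k hk').dg fun j => (dt w j : ℤ) - 512,
      Finset.sum_congr rfl fun j hj => by rw [e k hk' j hj]]
    have := congrArg (Nat.cast : ℕ → ℤ) (hE' k hk').2.2.2.2.1
    push_cast at this ⊢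
    simp only [mul_sub, Finset.sum_sub_distrib, ← Finset.sum_mul, mul_comm (dt w _ : ℤ)]
    linear_combination this
  · have h1 := (Hρ k (l1 ▸ hk)).1
    have h2 := (hE' k (l1 ▸ hk)).1
    omega
  · have h1 := hh β
    have h2 := hh (D.neg β)
    rw [F.H_neg] at h2 ⊢
    omega
  · have h1 := hh β
    have h2 := hh γ
    have h3 : F.H β = F.H γ := by simp only at h; omega
    by_cases hβ : D.Pos β
    · exact ip β γ hβ h3
    · rw [← D.neg_neg β, ip _ (D.neg γ) ((D.pos_neg_iff β).2 hβ) (by rw [F.H_neg, F.H_neg, h3]),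
        D.neg_neg]
  · have h1 := hh α
    have h2 := hh β
    have h3 := hh γ
    refine ⟨fun h => ?_, fun h => ?_⟩
    · by_cases hα : D.Pos α
      · exact am α β γ hα (by omega)
      · have := am _ (D.neg β) (D.neg γ) ((D.pos_neg_iff α).2 hα) (by simp only [F.H_neg]; omega)
        rw [D.co_neg, D.co_neg, D.co_neg] at this
        linear_combination -this
    · have : F.H γ = F.H α + F.H β := D.dg_add _ h
      omega
  · rw [rm]
    refine ⟨?_, ?_⟩
    · rintro ⟨z, hz, h⟩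
      have h1 := (hρ₀ z hz).H hL hE hz
      rcases h with h | h
      · exact ⟨ρ₀ z hz, by omega⟩
      · exact ⟨D.neg (ρ₀ z hz), by rw [F.H_neg]; omega⟩
    · rintro ⟨β, h⟩
      by_cases hβ : D.Pos β
      · obtain ⟨z, hz, h1⟩ := mem β hβ
        have := h1.H hL hE hz
        exact ⟨z, hz, Or.inl (by omega)⟩
      · obtain ⟨z, hz, h1⟩ := mem _ ((D.pos_neg_iff β).2 hβ)
        have := h1.H hL hE hz
        rw [F.H_neg] at this
        exact ⟨z, hz, Or.inr (by omega)⟩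
  · by_cases hβ : D.Pos β
    · obtain ⟨k, hk, rfl⟩ := sur β hβ
      intro i
      rw [hρ k hk i, hρ t ht i, hth, Nat.cast_le]
      exact ((hE' k hk).2.2.2.2.2 _ (F.ix_lt i)).2
    · exact ((D.sign β).resolve_left hβ).trans (hρ t ht).pos
  · have := (hE' t ht).2.2.2.2.1
    rw [hth] at this
    omega
  · classical
    have h1 := Int.natCast_dvd_natCast.2 (Nat.dvd_of_mod_eq_zero (k2 _ (F.ix_lt i)))
    refine (dvd_of_eq ?_).trans h1
    have e1 : ∑ β with ¬ D.Pos β, D.pr β (D.s i) ^ 2 = ∑ β with D.Pos β, D.pr β (D.s i) ^ 2 :=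
      Finset.sum_nbij' D.neg D.neg (fun β => by simp [D.pos_neg_iff]) (fun β => by
        simp [D.pos_neg_iff]) (fun β _ => D.neg_neg β) (fun β _ => D.neg_neg β)
        fun β _ => by rw [D.pr_neg_left, neg_sq]
    have e2 : ∑ k : Fin T.L.length, D.pr (ρ k) (D.s i) ^ 2 = ∑ β with D.Pos β, D.pr β (D.s i) ^ 2 :=
      Finset.sum_bij (fun k _ => ρ k) (fun k _ => by simpa using (hρ k k.2).pos)
        (fun k _ k' _ h => Fin.ext (inj k k.2 k' k'.2 (h ▸ rfl))) (fun β hβ => by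
          obtain ⟨k, hk, h⟩ := sur β (by simpa using hβ)
          exact ⟨⟨k, hk⟩, Finset.mem_univ _, h⟩) fun _ _ => rfl
    rw [← Finset.sum_filter_add_sum_filter_not _ D.Pos, e1, ← e2, ← two_mul,
      ← Fin.sum_univ_fun_getElem]
    simp only [Nat.mul_eq, Nat.add_eq, Nat.sub_eq]
    push_cast
    refine congrArg _ (Finset.sum_congr rfl fun k _ => ?_)
    have := (hρ k k.2).pr hL (F.ix_lt i)
    rw [F.e_ix] at this
    rw [this]
    generalize dot T.L[k.1].2 (nthL T.m (F.ix i)) = s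
    generalize nth T.L[k.1].2 (F.ix i) = a
    rcases le_total s (2 * a) with h | h
    · rw [Nat.sub_eq_zero_of_le h, Nat.cast_sub h]; push_cast; ring
    · rw [Nat.sub_eq_zero_of_le h, Nat.cast_sub h]; push_cast; ring

end Fr

theorem chart_of {D : RD} {T : Tab} (ok : T.ok = true) {n : ℕ} (hn : T.r = n) (h0 : 0 < n)
    {M : Matrix (Fin n) (Fin n) ℤ}
    (hM : ∀ a b : Fin n, M a b = if a = b then 2 else -(nth (nthL T.m b) a : ℤ))
    (h : IsTyp D.A Finset.univ M) :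
    ∃ C : Chart D T, ∀ a b : Fin n, D.A (C.e a) (C.e b) = M a b := by
  subst hn
  obtain ⟨e, he, hs, hA⟩ := h
  have hb : Function.Bijective e := ⟨he, fun i => by
    obtain ⟨a, -, ha⟩ := Finset.mem_image.1 (hs ▸ Finset.mem_univ i : i ∈ Finset.univ.image e)
    exact ⟨a, ha⟩⟩
  let E := Equiv.ofBijective e hb
  obtain ⟨C, hC⟩ := Fr.chart (D := D) ⟨fun j => if hj : j < T.r then e ⟨j, hj⟩ else e ⟨0, h0⟩,
    fun i => E.symm i, fun i => (E.symm i).2,
    fun i => by simp only [dif_pos (E.symm i).2]; exact E.apply_symm_apply i,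
    fun j hj => by simp only [dif_pos hj]; exact congrArg Fin.val (E.symm_apply_apply ⟨j, hj⟩),
    fun a ha b hb => by simp only [dif_pos ha, dif_pos hb, hA, hM, Fin.mk.injEq]⟩ ok
  exact ⟨C, fun a b => by simp only [hC, dif_pos a.2, dif_pos b.2, Fin.eta, hA]⟩

end

end Pool.Agent.P.Bf04.X
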