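import Pool.Agent.P.MP_bf0464_al.H.XD

/-! The tables. -/

namespace Pool.Agent.P.Bf04.X

noncomputable section

/-- the table -/
def tG2 : Tab where
  r := nat_lit 2
  n := nat_lit 6
  off := nat_lit 11
  bp := nat_lit 2176782336
  hs := nat_lit 5070603609844501834736098869259
  k0 := nat_lit 82427791238507260567043092982593024
  rm := nat_lit 4691185
  cols := [
    nat_lit 1267650600229382324100822728706,
    nat_lit 1208926972538332807954435]
  c := [nat_lit 4, nat_lit 1]
  th := [nat_lit 2, nat_lit 3]
  m := [[nat_lit 0, nat_lit 1],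
    [nat_lit 3, nat_lit 0]]
  L := [
    (nat_lit 11, [nat_lit 2, nat_lit 3]),
    (nat_lit 7, [nat_lit 1, nat_lit 3]),
    (nat_lit 6, [nat_lit 1, nat_lit 2]),
    (nat_lit 5, [nat_lit 1, nat_lit 1]),
    (nat_lit 1, [nat_lit 0, nat_lit 1]),
    (nat_lit 4, [nat_lit 1, nat_lit 0])]

/-- the table -/
def tF4 : Tab where
  r := nat_lit 4
  n := nat_lit 24
  off := nat_lit 91
  bp := nat_lit 2176782336
  hs := nat_lit 8931408440232205220606593141493933000158101817078283924800053764327525198353252770926080582274632394614346071475428358534847765676543705179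
  k0 := nat_lit 193585177727627569657255777553307019797820515059072703481284586878205074072753256125350985165759438488170948508186834544057344381172003048057344
  rm := nat_lit 6920363761904586571750129345715752998338052169379381513
  cols := [
    nat_lit 2977131414714805823690032779734653847367467916802296954798930921024503741878916011821858856772367625608091283873669128440111342686399627266,
    nat_lit 2839213766779714418670923860379755439055568533883237912755091068967980435189328655219608655912066323323147840414604320119669891530755,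
    nat_lit 2707685248164858263655589924222941575940831541077278238604458537421534950492019058989976521193285309467335837248139757289996292,
    nat_lit 2582249878086908591895663914180816086829816965625163710621541811626846846690539053419528695568997502349151245760326533122]
  c := [nat_lit 3, nat_lit 5, nat_lit 7, nat_lit 21]
  th := [nat_lit 2, nat_lit 3, nat_lit 4, nat_lit 2]
  m := [[nat_lit 0, nat_lit 1, nat_lit 0, nat_lit 0],
    [nat_lit 1, nat_lit 0, nat_lit 1, nat_lit 0],
    [nat_lit 0, nat_lit 2, nat_lit 0, nat_lit 1],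
    [nat_lit 0, nat_lit 0, nat_lit 1, nat_lit 0]]
  L := [
    (nat_lit 91, [nat_lit 2, nat_lit 3, nat_lit 4, nat_lit 2]),
    (nat_lit 88, [nat_lit 1, nat_lit 3, nat_lit 4, nat_lit 2]),
    (nat_lit 83, [nat_lit 1, nat_lit 2, nat_lit 4, nat_lit 2]),
    (nat_lit 76, [nat_lit 1, nat_lit 2, nat_lit 3, nat_lit 2]),
    (nat_lit 69, [nat_lit 1, nat_lit 2, nat_lit 2, nat_lit 2]),
    (nat_lit 55, [nat_lit 1, nat_lit 2, nat_lit 3, nat_lit 1]),
    (nat_lit 64, [nat_lit 1, nat_lit 1, nat_lit 2, nat_lit 2]),
    (nat_lit 48, [nat_lit 1, nat_lit 2, nat_lit 2, nat_lit 1]),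
    (nat_lit 61, [nat_lit 0, nat_lit 1, nat_lit 2, nat_lit 2]),
    (nat_lit 43, [nat_lit 1, nat_lit 1, nat_lit 2, nat_lit 1]),
    (nat_lit 27, [nat_lit 1, nat_lit 2, nat_lit 2, nat_lit 0]),
    (nat_lit 40, [nat_lit 0, nat_lit 1, nat_lit 2, nat_lit 1]),
    (nat_lit 36, [nat_lit 1, nat_lit 1, nat_lit 1, nat_lit 1]),
    (nat_lit 22, [nat_lit 1, nat_lit 1, nat_lit 2, nat_lit 0]),
    (nat_lit 33, [nat_lit 0, nat_lit 1, nat_lit 1, nat_lit 1]),
    (nat_lit 19, [nat_lit 0, nat_lit 1, nat_lit 2, nat_lit 0]),
    (nat_lit 15, [nat_lit 1, nat_lit 1, nat_lit 1, nat_lit 0]),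
    (nat_lit 28, [nat_lit 0, nat_lit 0, nat_lit 1, nat_lit 1]),
    (nat_lit 12, [nat_lit 0, nat_lit 1, nat_lit 1, nat_lit 0]),
    (nat_lit 8, [nat_lit 1, nat_lit 1, nat_lit 0, nat_lit 0]),
    (nat_lit 21, [nat_lit 0, nat_lit 0, nat_lit 0, nat_lit 1]),
    (nat_lit 7, [nat_lit 0, nat_lit 0, nat_lit 1, nat_lit 0]),
    (nat_lit 5, [nat_lit 0, nat_lit 1, nat_lit 0, nat_lit 0]),
    (nat_lit 3, [nat_lit 1, nat_lit 0, nat_lit 0, nat_lit 0])]

/-- the table -/
def tE6 : Tab where
  r := nat_lit 6
  n := nat_lit 36
  off := nat_lit 227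
  bp := nat_lit 2176782336
  hs := nat_lit 226185893931250411507299983560677938164527302506431763550179535150731623650046148235197353022079364034264591818529684984751361331185381571561209526910630545363539983938166144800156800738864932928911052786057085155
  k0 := nat_lit 342035403052660631917160740013816597423643892743850728121530355380731531812757880163555695606391203308894969055731718419247242382414353966551398732745747602876826557231313350556556063019382651851717098070237480282624
  rm := nat_lit 46563105776202698635964113393365509619751731811045360549443499129995320187582096725153131771067989558804089151990799568830653448457290753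
  cols := [
    nat_lit 5260135901548373507240989882880128669507626226392846404466321239386208943409498399964437572132392977646822985941077664256836747705020794845747277824945773920541412700414534479820626547837033914357927555172925441,
    nat_lit 5016456510113118655434598811035278958804727770226332096544572104822358080278997244529002569584532461373911739248567413687647230685191631761470234220537469134912677634622356432372918876491255866954450206722,
    nat_lit 4784065733063810973581889114905212249562917978891559401492230269346528413111308586874059128934165629845191980991114108514754625312514849040072068870759204514286357345622788881674429604853207718166530,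
    nat_lit 4562440617622195218641175379666315280902614135977815958672632866010949838443121836777437553704840176039404223274494595527030996401758276580834175957111969726235963308786050465511354181761368067,
    nat_lit 4351082437154956072465106588081255397187482733173478338101793248041484663191461960009079094202130928742104631288946393297627763192962257295275310750965906749037664556082343610013007740930,
    nat_lit 4149515568880992958512407863694434541620342374112450089692487511092747540367540867110498332400031144209129171792110874581502295661632900850713805866500975779625101550397726512906241]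
  c := [nat_lit 43, nat_lit 10, nat_lit 22, nat_lit 26, nat_lit 1, nat_lit 40]
  th := [nat_lit 1, nat_lit 2, nat_lit 2, nat_lit 3, nat_lit 2, nat_lit 1]
  m := [[nat_lit 0, nat_lit 0, nat_lit 1, nat_lit 0, nat_lit 0, nat_lit 0],
    [nat_lit 0, nat_lit 0, nat_lit 0, nat_lit 1, nat_lit 0, nat_lit 0],
    [nat_lit 1, nat_lit 0, nat_lit 0, nat_lit 1, nat_lit 0, nat_lit 0],
    [nat_lit 0, nat_lit 1, nat_lit 1, nat_lit 0, nat_lit 1, nat_lit 0],
    [nat_lit 0, nat_lit 0, nat_lit 0, nat_lit 1, nat_lit 0, nat_lit 1],
    [nat_lit 0, nat_lit 0, nat_lit 0, nat_lit 0, nat_lit 1, nat_lit 0]]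
  L := [
    (nat_lit 227, [nat_lit 1, nat_lit 2, nat_lit 2, nat_lit 3, nat_lit 2, nat_lit 1]),
    (nat_lit 217, [nat_lit 1, nat_lit 1, nat_lit 2, nat_lit 3, nat_lit 2, nat_lit 1]),
    (nat_lit 191, [nat_lit 1, nat_lit 1, nat_lit 2, nat_lit 2, nat_lit 2, nat_lit 1]),
    (nat_lit 169, [nat_lit 1, nat_lit 1, nat_lit 1, nat_lit 2, nat_lit 2, nat_lit 1]),
    (nat_lit 190, [nat_lit 1, nat_lit 1, nat_lit 2, nat_lit 2, nat_lit 1, nat_lit 1]),
    (nat_lit 126, [nat_lit 0, nat_lit 1, nat_lit 1, nat_lit 2, nat_lit 2, nat_lit 1]),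
    (nat_lit 168, [nat_lit 1, nat_lit 1, nat_lit 1, nat_lit 2, nat_lit 1, nat_lit 1]),
    (nat_lit 150, [nat_lit 1, nat_lit 1, nat_lit 2, nat_lit 2, nat_lit 1, nat_lit 0]),
    (nat_lit 125, [nat_lit 0, nat_lit 1, nat_lit 1, nat_lit 2, nat_lit 1, nat_lit 1]),
    (nat_lit 142, [nat_lit 1, nat_lit 1, nat_lit 1, nat_lit 1, nat_lit 1, nat_lit 1]),
    (nat_lit 128, [nat_lit 1, nat_lit 1, nat_lit 1, nat_lit 2, nat_lit 1, nat_lit 0]),
    (nat_lit 99, [nat_lit 0, nat_lit 1, nat_lit 1, nat_lit 1, nat_lit 1, nat_lit 1]),
    (nat_lit 85, [nat_lit 0, nat_lit 1, nat_lit 1, nat_lit 2, nat_lit 1, nat_lit 0]),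
    (nat_lit 132, [nat_lit 1, nat_lit 0, nat_lit 1, nat_lit 1, nat_lit 1, nat_lit 1]),
    (nat_lit 102, [nat_lit 1, nat_lit 1, nat_lit 1, nat_lit 1, nat_lit 1, nat_lit 0]),
    (nat_lit 89, [nat_lit 0, nat_lit 0, nat_lit 1, nat_lit 1, nat_lit 1, nat_lit 1]),
    (nat_lit 77, [nat_lit 0, nat_lit 1, nat_lit 0, nat_lit 1, nat_lit 1, nat_lit 1]),
    (nat_lit 59, [nat_lit 0, nat_lit 1, nat_lit 1, nat_lit 1, nat_lit 1, nat_lit 0]),
    (nat_lit 92, [nat_lit 1, nat_lit 0, nat_lit 1, nat_lit 1, nat_lit 1, nat_lit 0]),
    (nat_lit 101, [nat_lit 1, nat_lit 1, nat_lit 1, nat_lit 1, nat_lit 0, nat_lit 0]),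
    (nat_lit 67, [nat_lit 0, nat_lit 0, nat_lit 0, nat_lit 1, nat_lit 1, nat_lit 1]),
    (nat_lit 49, [nat_lit 0, nat_lit 0, nat_lit 1, nat_lit 1, nat_lit 1, nat_lit 0]),
    (nat_lit 37, [nat_lit 0, nat_lit 1, nat_lit 0, nat_lit 1, nat_lit 1, nat_lit 0]),
    (nat_lit 58, [nat_lit 0, nat_lit 1, nat_lit 1, nat_lit 1, nat_lit 0, nat_lit 0]),
    (nat_lit 91, [nat_lit 1, nat_lit 0, nat_lit 1, nat_lit 1, nat_lit 0, nat_lit 0]),
    (nat_lit 41, [nat_lit 0, nat_lit 0, nat_lit 0, nat_lit 0, nat_lit 1, nat_lit 1]),
    (nat_lit 27, [nat_lit 0, nat_lit 0, nat_lit 0, nat_lit 1, nat_lit 1, nat_lit 0]),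
    (nat_lit 48, [nat_lit 0, nat_lit 0, nat_lit 1, nat_lit 1, nat_lit 0, nat_lit 0]),
    (nat_lit 36, [nat_lit 0, nat_lit 1, nat_lit 0, nat_lit 1, nat_lit 0, nat_lit 0]),
    (nat_lit 65, [nat_lit 1, nat_lit 0, nat_lit 1, nat_lit 0, nat_lit 0, nat_lit 0]),
    (nat_lit 40, [nat_lit 0, nat_lit 0, nat_lit 0, nat_lit 0, nat_lit 0, nat_lit 1]),
    (nat_lit 1, [nat_lit 0, nat_lit 0, nat_lit 0, nat_lit 0, nat_lit 1, nat_lit 0]),
    (nat_lit 26, [nat_lit 0, nat_lit 0, nat_lit 0, nat_lit 1, nat_lit 0, nat_lit 0]),
    (nat_lit 22, [nat_lit 0, nat_lit 0, nat_lit 1, nat_lit 0, nat_lit 0, nat_lit 0]),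
    (nat_lit 10, [nat_lit 0, nat_lit 1, nat_lit 0, nat_lit 0, nat_lit 0, nat_lit 0]),
    (nat_lit 43, [nat_lit 1, nat_lit 0, nat_lit 0, nat_lit 0, nat_lit 0, nat_lit 0])]

/-- the table -/
def tE7 : Tab where
  r := nat_lit 7
  n := nat_lit 63
  off := nat_lit 649
  bp := nat_lit 2176782336
  hs := nat_lit 113592376883991404967442971898089824667122865161521664080260912132535350305782051601137243452190395992474620466332485955614997862525990279936708801774318077512398826947547493181189550174780142580671850737071701469402875976245496638484725473756309148285079283557604218410035370312023104499510023392556521622309737613264990926618706446461694747759125833019559545428678192136841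
  k0 := nat_lit 1231030234412605615251376795568575640791649435259930866808212916321195871621937462792628094277180111358209966700141196862841361300612801622143036357994227125571607176023563746988710107806002631129811560681838405337923897787923502466237949300851651438192428293017077425775337217900197414108255349865738202141810962825093921288629953242359032659060713857423464712724168332644769280
  rm := nat_lit 5563331180785131860754738795573520808193397001672807849965597200778873269965576201843140449113010049374911829472367732972251509731621655483388784764111441774201952139051229234129423192571831339731960168454256668354883499059152745845171242560914200498465574734833890660852579527699239024017795909663113809650736974590666041647549440631858358725159120136808492618022675939748966564503035576641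
  cols := [
    nat_lit 18931918374918312259842860525830629810325753559649161997190090024756354043627087406348299719107128377757381483324934679033237427908005213836254728868103668901199115718330251431613990448650817046965561233550013700750461768323013500393350419578220048084110329514501435557559246504846165961668904830976542084810150071570301561393458657611264135597374978389495238334103795269634,
    nat_lit 18054884314459144840090618635016088304830316123627817151250925087696413081767165571554226906889465691411719201826035493009887247511801685559095941884772394899248860885070129653766380664824770502636656063212788833745278125577905650080035868621427957149465388776827836565188207237886727737531496377613112358430969452264685580611651360185466783655115395255944311075766274,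
    nat_lit 17218479456385750618067377696066218468870430957594619399799687912868058728883861440656124334977778206164454161492585252392926101642718252805396522205460686615227079923578315389169131809613156772122116267913992474481384280246419472778232079961868228035353409593961513206246522284064611471083855074170843986367272850758771167611630131781647645835149979908689625091,
    nat_lit 16420821625123739831988694854799478990387129945051669096335793321575964205483156016986263748151513369554080827248980916801008334579021107324954697063298484810773817832422108142978676700536566930122474286057999200371171235030215051083032297146153381358751996591858563700774788804587886831506128205804203442333734261232708847744753721470713095310973119496196,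
    nat_lit 15660115838168849784840292792116666074920141282536610979219219584677131425984206429274684250473308145972514815812380751802668647848551526303884121757555306633394281745510619218102454939463660571653813132611021039022669562940661323110018593708343680034358974711709644245938271653446396291503439997812433032590737763360664350961630907668154969066831875,
    nat_lit 14934650266808366570320408622852960657997266085182772616595477661769712038332195553897986626669304353091801509504865130565327763931742448749015557317179805328694044413174648150669985290654615392138378089995629195811916086502814508711705470538836467454560593236295524690331903183718499274065496030526484686477125479284863036548435661654799155202,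
    nat_lit 14242792383964888162918480513432465227124457712265682939455288102645131529153901938166671848181405270701330589118382275583692834524861410342772571289091484842512306921922764470404963252726614281410116840834097296864063831891526832934567511176767034010312195369017739210667530817802590886877033594200106923864363052164347226664123709259777]
  c := [nat_lit 6, nat_lit 48, nat_lit 2, nat_lit 25, nat_lit 11, nat_lit 188, nat_lit 26]
  th := [nat_lit 2, nat_lit 2, nat_lit 3, nat_lit 4, nat_lit 3, nat_lit 2, nat_lit 1]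
  m := [[nat_lit 0, nat_lit 0, nat_lit 1, nat_lit 0, nat_lit 0, nat_lit 0, nat_lit 0],
    [nat_lit 0, nat_lit 0, nat_lit 0, nat_lit 1, nat_lit 0, nat_lit 0, nat_lit 0],
    [nat_lit 1, nat_lit 0, nat_lit 0, nat_lit 1, nat_lit 0, nat_lit 0, nat_lit 0],
    [nat_lit 0, nat_lit 1, nat_lit 1, nat_lit 0, nat_lit 1, nat_lit 0, nat_lit 0],
    [nat_lit 0, nat_lit 0, nat_lit 0, nat_lit 1, nat_lit 0, nat_lit 1, nat_lit 0],
    [nat_lit 0, nat_lit 0, nat_lit 0, nat_lit 0, nat_lit 1, nat_lit 0, nat_lit 1],
    [nat_lit 0, nat_lit 0, nat_lit 0, nat_lit 0, nat_lit 0, nat_lit 1, nat_lit 0]]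
  L := [
    (nat_lit 649, [nat_lit 2, nat_lit 2, nat_lit 3, nat_lit 4, nat_lit 3, nat_lit 2, nat_lit 1]),
    (nat_lit 643, [nat_lit 1, nat_lit 2, nat_lit 3, nat_lit 4, nat_lit 3, nat_lit 2, nat_lit 1]),
    (nat_lit 641, [nat_lit 1, nat_lit 2, nat_lit 2, nat_lit 4, nat_lit 3, nat_lit 2, nat_lit 1]),
    (nat_lit 616, [nat_lit 1, nat_lit 2, nat_lit 2, nat_lit 3, nat_lit 3, nat_lit 2, nat_lit 1]),
    (nat_lit 568, [nat_lit 1, nat_lit 1, nat_lit 2, nat_lit 3, nat_lit 3, nat_lit 2, nat_lit 1]),
    (nat_lit 605, [nat_lit 1, nat_lit 2, nat_lit 2, nat_lit 3, nat_lit 2, nat_lit 2, nat_lit 1]),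
    (nat_lit 557, [nat_lit 1, nat_lit 1, nat_lit 2, nat_lit 3, nat_lit 2, nat_lit 2, nat_lit 1]),
    (nat_lit 417, [nat_lit 1, nat_lit 2, nat_lit 2, nat_lit 3, nat_lit 2, nat_lit 1, nat_lit 1]),
    (nat_lit 532, [nat_lit 1, nat_lit 1, nat_lit 2, nat_lit 2, nat_lit 2, nat_lit 2, nat_lit 1]),
    (nat_lit 369, [nat_lit 1, nat_lit 1, nat_lit 2, nat_lit 3, nat_lit 2, nat_lit 1, nat_lit 1]),
    (nat_lit 391, [nat_lit 1, nat_lit 2, nat_lit 2, nat_lit 3, nat_lit 2, nat_lit 1, nat_lit 0]),
    (nat_lit 530, [nat_lit 1, nat_lit 1, nat_lit 1, nat_lit 2, nat_lit 2, nat_lit 2, nat_lit 1]),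
    (nat_lit 344, [nat_lit 1, nat_lit 1, nat_lit 2, nat_lit 2, nat_lit 2, nat_lit 1, nat_lit 1]),
    (nat_lit 343, [nat_lit 1, nat_lit 1, nat_lit 2, nat_lit 3, nat_lit 2, nat_lit 1, nat_lit 0]),
    (nat_lit 524, [nat_lit 0, nat_lit 1, nat_lit 1, nat_lit 2, nat_lit 2, nat_lit 2, nat_lit 1]),
    (nat_lit 342, [nat_lit 1, nat_lit 1, nat_lit 1, nat_lit 2, nat_lit 2, nat_lit 1, nat_lit 1]),
    (nat_lit 333, [nat_lit 1, nat_lit 1, nat_lit 2, nat_lit 2, nat_lit 1, nat_lit 1, nat_lit 1]),
    (nat_lit 318, [nat_lit 1, nat_lit 1, nat_lit 2, nat_lit 2, nat_lit 2, nat_lit 1, nat_lit 0]),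
    (nat_lit 336, [nat_lit 0, nat_lit 1, nat_lit 1, nat_lit 2, nat_lit 2, nat_lit 1, nat_lit 1]),
    (nat_lit 331, [nat_lit 1, nat_lit 1, nat_lit 1, nat_lit 2, nat_lit 1, nat_lit 1, nat_lit 1]),
    (nat_lit 316, [nat_lit 1, nat_lit 1, nat_lit 1, nat_lit 2, nat_lit 2, nat_lit 1, nat_lit 0]),
    (nat_lit 307, [nat_lit 1, nat_lit 1, nat_lit 2, nat_lit 2, nat_lit 1, nat_lit 1, nat_lit 0]),
    (nat_lit 325, [nat_lit 0, nat_lit 1, nat_lit 1, nat_lit 2, nat_lit 1, nat_lit 1, nat_lit 1]),
    (nat_lit 310, [nat_lit 0, nat_lit 1, nat_lit 1, nat_lit 2, nat_lit 2, nat_lit 1, nat_lit 0]),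
    (nat_lit 306, [nat_lit 1, nat_lit 1, nat_lit 1, nat_lit 1, nat_lit 1, nat_lit 1, nat_lit 1]),
    (nat_lit 305, [nat_lit 1, nat_lit 1, nat_lit 1, nat_lit 2, nat_lit 1, nat_lit 1, nat_lit 0]),
    (nat_lit 119, [nat_lit 1, nat_lit 1, nat_lit 2, nat_lit 2, nat_lit 1, nat_lit 0, nat_lit 0]),
    (nat_lit 300, [nat_lit 0, nat_lit 1, nat_lit 1, nat_lit 1, nat_lit 1, nat_lit 1, nat_lit 1]),
    (nat_lit 299, [nat_lit 0, nat_lit 1, nat_lit 1, nat_lit 2, nat_lit 1, nat_lit 1, nat_lit 0]),
    (nat_lit 258, [nat_lit 1, nat_lit 0, nat_lit 1, nat_lit 1, nat_lit 1, nat_lit 1, nat_lit 1]),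
    (nat_lit 280, [nat_lit 1, nat_lit 1, nat_lit 1, nat_lit 1, nat_lit 1, nat_lit 1, nat_lit 0]),
    (nat_lit 117, [nat_lit 1, nat_lit 1, nat_lit 1, nat_lit 2, nat_lit 1, nat_lit 0, nat_lit 0]),
    (nat_lit 252, [nat_lit 0, nat_lit 0, nat_lit 1, nat_lit 1, nat_lit 1, nat_lit 1, nat_lit 1]),
    (nat_lit 298, [nat_lit 0, nat_lit 1, nat_lit 0, nat_lit 1, nat_lit 1, nat_lit 1, nat_lit 1]),
    (nat_lit 274, [nat_lit 0, nat_lit 1, nat_lit 1, nat_lit 1, nat_lit 1, nat_lit 1, nat_lit 0]),
    (nat_lit 111, [nat_lit 0, nat_lit 1, nat_lit 1, nat_lit 2, nat_lit 1, nat_lit 0, nat_lit 0]),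
    (nat_lit 232, [nat_lit 1, nat_lit 0, nat_lit 1, nat_lit 1, nat_lit 1, nat_lit 1, nat_lit 0]),
    (nat_lit 92, [nat_lit 1, nat_lit 1, nat_lit 1, nat_lit 1, nat_lit 1, nat_lit 0, nat_lit 0]),
    (nat_lit 250, [nat_lit 0, nat_lit 0, nat_lit 0, nat_lit 1, nat_lit 1, nat_lit 1, nat_lit 1]),
    (nat_lit 226, [nat_lit 0, nat_lit 0, nat_lit 1, nat_lit 1, nat_lit 1, nat_lit 1, nat_lit 0]),
    (nat_lit 272, [nat_lit 0, nat_lit 1, nat_lit 0, nat_lit 1, nat_lit 1, nat_lit 1, nat_lit 0]),
    (nat_lit 86, [nat_lit 0, nat_lit 1, nat_lit 1, nat_lit 1, nat_lit 1, nat_lit 0, nat_lit 0]),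
    (nat_lit 44, [nat_lit 1, nat_lit 0, nat_lit 1, nat_lit 1, nat_lit 1, nat_lit 0, nat_lit 0]),
    (nat_lit 81, [nat_lit 1, nat_lit 1, nat_lit 1, nat_lit 1, nat_lit 0, nat_lit 0, nat_lit 0]),
    (nat_lit 225, [nat_lit 0, nat_lit 0, nat_lit 0, nat_lit 0, nat_lit 1, nat_lit 1, nat_lit 1]),
    (nat_lit 224, [nat_lit 0, nat_lit 0, nat_lit 0, nat_lit 1, nat_lit 1, nat_lit 1, nat_lit 0]),
    (nat_lit 38, [nat_lit 0, nat_lit 0, nat_lit 1, nat_lit 1, nat_lit 1, nat_lit 0, nat_lit 0]),
    (nat_lit 84, [nat_lit 0, nat_lit 1, nat_lit 0, nat_lit 1, nat_lit 1, nat_lit 0, nat_lit 0]),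
    (nat_lit 75, [nat_lit 0, nat_lit 1, nat_lit 1, nat_lit 1, nat_lit 0, nat_lit 0, nat_lit 0]),
    (nat_lit 33, [nat_lit 1, nat_lit 0, nat_lit 1, nat_lit 1, nat_lit 0, nat_lit 0, nat_lit 0]),
    (nat_lit 214, [nat_lit 0, nat_lit 0, nat_lit 0, nat_lit 0, nat_lit 0, nat_lit 1, nat_lit 1]),
    (nat_lit 199, [nat_lit 0, nat_lit 0, nat_lit 0, nat_lit 0, nat_lit 1, nat_lit 1, nat_lit 0]),
    (nat_lit 36, [nat_lit 0, nat_lit 0, nat_lit 0, nat_lit 1, nat_lit 1, nat_lit 0, nat_lit 0]),
    (nat_lit 27, [nat_lit 0, nat_lit 0, nat_lit 1, nat_lit 1, nat_lit 0, nat_lit 0, nat_lit 0]),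
    (nat_lit 73, [nat_lit 0, nat_lit 1, nat_lit 0, nat_lit 1, nat_lit 0, nat_lit 0, nat_lit 0]),
    (nat_lit 8, [nat_lit 1, nat_lit 0, nat_lit 1, nat_lit 0, nat_lit 0, nat_lit 0, nat_lit 0]),
    (nat_lit 26, [nat_lit 0, nat_lit 0, nat_lit 0, nat_lit 0, nat_lit 0, nat_lit 0, nat_lit 1]),
    (nat_lit 188, [nat_lit 0, nat_lit 0, nat_lit 0, nat_lit 0, nat_lit 0, nat_lit 1, nat_lit 0]),
    (nat_lit 11, [nat_lit 0, nat_lit 0, nat_lit 0, nat_lit 0, nat_lit 1, nat_lit 0, nat_lit 0]),
    (nat_lit 25, [nat_lit 0, nat_lit 0, nat_lit 0, nat_lit 1, nat_lit 0, nat_lit 0, nat_lit 0]),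
    (nat_lit 2, [nat_lit 0, nat_lit 0, nat_lit 1, nat_lit 0, nat_lit 0, nat_lit 0, nat_lit 0]),
    (nat_lit 48, [nat_lit 0, nat_lit 1, nat_lit 0, nat_lit 0, nat_lit 0, nat_lit 0, nat_lit 0]),
    (nat_lit 6, [nat_lit 1, nat_lit 0, nat_lit 0, nat_lit 0, nat_lit 0, nat_lit 0, nat_lit 0])]

/-- the table -/
def tE8 : Tab where
  r := nat_lit 8
  n := nat_lit 120
  off := nat_lit 2935
  bp := nat_lit 531441000000000000
  hs := nat_lit 47217846254973701773458475273665325469244115645892989346255722603878542381476743429518494596444314769588695536061032343455215684491714088763083727322836389512911709834434872460327278222966796678512559229625430411045037321055989271621263459619147903723134098217150065467687313182328237927960689077231594392957772454592535724511293870822475912516831302813931423835685651727656333637472546474830727553645425060852882902878438499146238754632243284879349769779978588906983067935020526519264570202157552258222766655169505955332383982395729601503222658878217742341632599436482769237315229207063851022972700987408822845333494012776089048301679190956680672327071570819001446264128780950932167100767008194909817798987504680962935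
  k0 := nat_lit 18385006018819386494119914784866451252541394655063801301755116556848117884550776872296614083601407290831851548223440183218472750289020153346943794697043639379894236747812106725930226828589658447869948004828473158238398219968659344062220701528550190329731178659653561433177675961197846167258096880537765554479796172690015569206398566511041204592078475211901455746037913407739179891872864060822397081232038209590258259041569600512886828144513633480512215082472269749435022702495018892838097675862407103146356448973267097935338191086596546185983357338540708451863162490464719257558700013376766340032368129998676016995829513430934754312005127007309763706933544210184007608111371193146161142431675036181809175044799052961072640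
  rm := nat_lit 111192257477146788331690287132173361354640174914708917892319448112408038552574972273790381989150959145951843082745595783779680697881203577497281436288922355488518464687273038105763481889081464578906397550921425497700676259122591153651045562463807732603001565329093432085168615846636215884918997975112708941258384658310866484705994436010552973265710935235029285051419688455869749946005177946287732932639985684878675932594727294198222943670047764883652117302375301556860142595067864193645081458870976838114174931305508379702119660508298320653930200973169933789071407524389590364830035945512854855269310983791787266544942648973666849872560070960081910951743556204527376580385433331827891704506883005148214001219735835587079004719617953355111766968056638422422347996441980930023983835893097764627061679357672434555372991749815950472808157727589686774299479286137139167791546265452615486353421422594337230356592699318278390909394427033106707443632805516272821979506990986470324963164379749277100702549014383871904411917093675023743252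2207069875122522488872879657313525527531013763982001260976873379177485836525123096386908488858392350754024549252731564109031537926201249101155703549478239475294684665085210886843626606437892460905743441084579274558114583005040334477172102670957753738947360194356941171829472098944949753055302408503279171941700994306620452016407422499674116155302504650346347804385136422048344322358842394500463402490151061650174199933705991044652854969866994000465323113348824699262142244487742522783047476510571030836297174254032686544742376862075447225935786919927800077181815626328629520801925913214835930598899086296931053529175350154157495469462411277517529968177818800992654865738070876462433184659153086374816322871691390184786291607863067628535809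
  cols := [
    nat_lit 282741579809167989846051878076447674405234431722484762145018618353972927793845368010701872806052159994623683573371418426428113455664488305006310847901808715590617050457127941720032481919167106646459757634896481649635163610599212946267510797482168721452686017216166171292316135613332822331810452992497108732631635472399436050894226127021482315939393302432043808648382655184231664041307319894237094587090393037733639143343557358000552484537963950545576287583968554877734631876115968151064045351910572076043214052703000519256420227002862098276811370195904203455355213888784246903108933963890747679751836609202969464820377242377355763807967109185222478374742804404243836113051124167801824075021170065907458468945686691842,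
    nat_lit 269643382844131460043002966000030207066759521219715845246332758287403991502614372263624069982578556408958961165673563150942831375321862343852618859190767441273529722471130633290602759398059347701388284388315935480059800688432601804410197161794978990994279332372444882415225401820924987376604161313241135859247864020413921313969410368863433882612654370101242525633090627358512841979967772643813820780177196282170697561112875827399063336273857516026295996154937504365239925340938097153036262306031832790087942387147983619943124027121177123106302140194773581874944484186550325129611492443034428697472947244839709888468591628154103191011603580429016545422063229453180723590291882636697242627506875634530376360132611,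
    nat_lit 257151968807345829051020589828520018834702163803524081698215639178890115008078717829943925366887670323760962563076153100327795135644597640080203669839963602475132307618286927003612139583341420606332084766999374486702254493333123771523264003178728879856475752549968041946642398532638398967353329386889283043118763475593121191701142105445998107102062962491061839432655576708768717345067503079060628744328255454057730952295888966965056533595583405306152678066821884968786269207720936790606757111066586792908146568636736312251184624402181724458862194160803032019974355045956168824512387573920740894010312504554503459820951606435865599622390502242622186442990738728377790472880416714969179598110859491884924932,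
    nat_lit 245239228064866856623669233158607500872328136731160624953026795188157994581545461023996736050832850657036108380880757719429924948958171344531518000442343459398115686822908424794483855063904388536232849673373577055329025725123729064478531926378605907221134797288784068458738906864817219165019295751749510443549168032699593741116444416204854077972653964907211266458514725628609804305304591898186198871745548827166810861821777513376893544319576822534663846069409995796225076664518140764185244117171072644220855143067901038052354677700090868009086374270859702467901796969626940676738935659120454751941783572083778704710087034949741405886823772819095568070269747632462887513701352542050682092513986084870,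
    nat_lit 233878353180758339522999985846145153701620719270122619216360537858948972133385380436359685855840507315353969324228651470908846163725341178213522437943867176039987405983754997504718915664833158146473241434392761735746761871718244418496988574810039771803676578028721126943896786707292054779601072218800564678464066295986445158511710130401848744084431681341605284811419922270303213500078910387197599050849730311009033168656506779062943664692133407741253953094697186065615405879210197364959380326484378885357203724287403457593099356243397071389221991706527912854659186019070987368723854524790019124185601015744542922690647646495559034775785601338110486197204285780631571841380256670782868490813445,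
    nat_lit 223043778591879214785575853201050904943104476232645625320778406008671733983407262991003722951143492601267723281124793066966640280222354125202179155226437305077512505144317959068894606379658931812702455585375627478975919116954351812696778881576603003180324256644789992538318578976585659573307164995650584810620231965571043347043815981609513101263123577532670367693041463716926651928469594554869008468680704333612756076129790843011474320612457307514690858075008264870562868745867098011409677406701628824943090058734173750201792434280475875781580847189816371281020078696355714427139247274800103970509321278997614635636932613435414077436563817911844867444843043030526418311606182473172516868,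
    nat_lit 212711123077277388368202069474268822615723110420842767067697912224456533416182768813136790228980434588803571511114236939687730933693248286183669971012083783543751270340353968089505816594576262932759765493390370385803340798268374224276856242781883428917943856409773912977866700469301445102457889726945758209700629871909963975559270948834480581897367760959701047426757609186659773429852175440500992752584297235015065102415043003881272946470986766912261538905038079359242234006596626573468551635148850878137016489639603988037635499713260324518361775658588360320557502224455447626988808584216508173569191578847055366512836954803612492008808455773900594751858776042771035593257266446339,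
    nat_lit 202857134892728222244455403780239889732096777363488411151120592036337512185796201861770611460208262541749324085718037910877394585718892859431892171448007640658916322616589438549129866655743980004972304664473563818841415575128850790303227542667992701545108757763029737145882125345810061089192141840564006535050442744514250504842466989713430921533817766202027384041092629005426558445421291733185528466686737391856514544197167334902296042159016639610344577967458053134241157257897278977229692936780051725774751336559410898763835002453395081701707940104333652679907351658177266662504035208528580357134281701416854191245822798734318065124757217357192404778049933507399756578553858]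
  c := [nat_lit 167, nat_lit 9, nat_lit 203, nat_lit 91, nat_lit 44, nat_lit 108, nat_lit 138, nat_lit 75]
  th := [nat_lit 2, nat_lit 3, nat_lit 4, nat_lit 6, nat_lit 5, nat_lit 4, nat_lit 3, nat_lit 2]
  m := [[nat_lit 0, nat_lit 0, nat_lit 1, nat_lit 0, nat_lit 0, nat_lit 0, nat_lit 0, nat_lit 0],
    [nat_lit 0, nat_lit 0, nat_lit 0, nat_lit 1, nat_lit 0, nat_lit 0, nat_lit 0, nat_lit 0],
    [nat_lit 1, nat_lit 0, nat_lit 0, nat_lit 1, nat_lit 0, nat_lit 0, nat_lit 0, nat_lit 0],
    [nat_lit 0, nat_lit 1, nat_lit 1, nat_lit 0, nat_lit 1, nat_lit 0, nat_lit 0, nat_lit 0],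
    [nat_lit 0, nat_lit 0, nat_lit 0, nat_lit 1, nat_lit 0, nat_lit 1, nat_lit 0, nat_lit 0],
    [nat_lit 0, nat_lit 0, nat_lit 0, nat_lit 0, nat_lit 1, nat_lit 0, nat_lit 1, nat_lit 0],
    [nat_lit 0, nat_lit 0, nat_lit 0, nat_lit 0, nat_lit 0, nat_lit 1, nat_lit 0, nat_lit 1],
    [nat_lit 0, nat_lit 0, nat_lit 0, nat_lit 0, nat_lit 0, nat_lit 0, nat_lit 1, nat_lit 0]]
  L := [
    (nat_lit 2935, [nat_lit 2, nat_lit 3, nat_lit 4, nat_lit 6, nat_lit 5, nat_lit 4, nat_lit 3, nat_lit 2]),
    (nat_lit 2860, [nat_lit 2, nat_lit 3, nat_lit 4, nat_lit 6, nat_lit 5, nat_lit 4, nat_lit 3, nat_lit 1]),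
    (nat_lit 2722, [nat_lit 2, nat_lit 3, nat_lit 4, nat_lit 6, nat_lit 5, nat_lit 4, nat_lit 2, nat_lit 1]),
    (nat_lit 2614, [nat_lit 2, nat_lit 3, nat_lit 4, nat_lit 6, nat_lit 5, nat_lit 3, nat_lit 2, nat_lit 1]),
    (nat_lit 2570, [nat_lit 2, nat_lit 3, nat_lit 4, nat_lit 6, nat_lit 4, nat_lit 3, nat_lit 2, nat_lit 1]),
    (nat_lit 2479, [nat_lit 2, nat_lit 3, nat_lit 4, nat_lit 5, nat_lit 4, nat_lit 3, nat_lit 2, nat_lit 1]),
    (nat_lit 2470, [nat_lit 2, nat_lit 2, nat_lit 4, nat_lit 5, nat_lit 4, nat_lit 3, nat_lit 2, nat_lit 1]),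
    (nat_lit 2276, [nat_lit 2, nat_lit 3, nat_lit 3, nat_lit 5, nat_lit 4, nat_lit 3, nat_lit 2, nat_lit 1]),
    (nat_lit 2109, [nat_lit 1, nat_lit 3, nat_lit 3, nat_lit 5, nat_lit 4, nat_lit 3, nat_lit 2, nat_lit 1]),
    (nat_lit 2267, [nat_lit 2, nat_lit 2, nat_lit 3, nat_lit 5, nat_lit 4, nat_lit 3, nat_lit 2, nat_lit 1]),
    (nat_lit 2100, [nat_lit 1, nat_lit 2, nat_lit 3, nat_lit 5, nat_lit 4, nat_lit 3, nat_lit 2, nat_lit 1]),
    (nat_lit 2176, [nat_lit 2, nat_lit 2, nat_lit 3, nat_lit 4, nat_lit 4, nat_lit 3, nat_lit 2, nat_lit 1]),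
    (nat_lit 2009, [nat_lit 1, nat_lit 2, nat_lit 3, nat_lit 4, nat_lit 4, nat_lit 3, nat_lit 2, nat_lit 1]),
    (nat_lit 2132, [nat_lit 2, nat_lit 2, nat_lit 3, nat_lit 4, nat_lit 3, nat_lit 3, nat_lit 2, nat_lit 1]),
    (nat_lit 1806, [nat_lit 1, nat_lit 2, nat_lit 2, nat_lit 4, nat_lit 4, nat_lit 3, nat_lit 2, nat_lit 1]),
    (nat_lit 1965, [nat_lit 1, nat_lit 2, nat_lit 3, nat_lit 4, nat_lit 3, nat_lit 3, nat_lit 2, nat_lit 1]),
    (nat_lit 2024, [nat_lit 2, nat_lit 2, nat_lit 3, nat_lit 4, nat_lit 3, nat_lit 2, nat_lit 2, nat_lit 1]),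
    (nat_lit 1762, [nat_lit 1, nat_lit 2, nat_lit 2, nat_lit 4, nat_lit 3, nat_lit 3, nat_lit 2, nat_lit 1]),
    (nat_lit 1857, [nat_lit 1, nat_lit 2, nat_lit 3, nat_lit 4, nat_lit 3, nat_lit 2, nat_lit 2, nat_lit 1]),
    (nat_lit 1886, [nat_lit 2, nat_lit 2, nat_lit 3, nat_lit 4, nat_lit 3, nat_lit 2, nat_lit 1, nat_lit 1]),
    (nat_lit 1671, [nat_lit 1, nat_lit 2, nat_lit 2, nat_lit 3, nat_lit 3, nat_lit 3, nat_lit 2, nat_lit 1]),
    (nat_lit 1654, [nat_lit 1, nat_lit 2, nat_lit 2, nat_lit 4, nat_lit 3, nat_lit 2, nat_lit 2, nat_lit 1]),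
    (nat_lit 1719, [nat_lit 1, nat_lit 2, nat_lit 3, nat_lit 4, nat_lit 3, nat_lit 2, nat_lit 1, nat_lit 1]),
    (nat_lit 1811, [nat_lit 2, nat_lit 2, nat_lit 3, nat_lit 4, nat_lit 3, nat_lit 2, nat_lit 1, nat_lit 0]),
    (nat_lit 1662, [nat_lit 1, nat_lit 1, nat_lit 2, nat_lit 3, nat_lit 3, nat_lit 3, nat_lit 2, nat_lit 1]),
    (nat_lit 1563, [nat_lit 1, nat_lit 2, nat_lit 2, nat_lit 3, nat_lit 3, nat_lit 2, nat_lit 2, nat_lit 1]),
    (nat_lit 1516, [nat_lit 1, nat_lit 2, nat_lit 2, nat_lit 4, nat_lit 3, nat_lit 2, nat_lit 1, nat_lit 1]),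
    (nat_lit 1644, [nat_lit 1, nat_lit 2, nat_lit 3, nat_lit 4, nat_lit 3, nat_lit 2, nat_lit 1, nat_lit 0]),
    (nat_lit 1554, [nat_lit 1, nat_lit 1, nat_lit 2, nat_lit 3, nat_lit 3, nat_lit 2, nat_lit 2, nat_lit 1]),
    (nat_lit 1519, [nat_lit 1, nat_lit 2, nat_lit 2, nat_lit 3, nat_lit 2, nat_lit 2, nat_lit 2, nat_lit 1]),
    (nat_lit 1425, [nat_lit 1, nat_lit 2, nat_lit 2, nat_lit 3, nat_lit 3, nat_lit 2, nat_lit 1, nat_lit 1]),
    (nat_lit 1441, [nat_lit 1, nat_lit 2, nat_lit 2, nat_lit 4, nat_lit 3, nat_lit 2, nat_lit 1, nat_lit 0]),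
    (nat_lit 1510, [nat_lit 1, nat_lit 1, nat_lit 2, nat_lit 3, nat_lit 2, nat_lit 2, nat_lit 2, nat_lit 1]),
    (nat_lit 1416, [nat_lit 1, nat_lit 1, nat_lit 2, nat_lit 3, nat_lit 3, nat_lit 2, nat_lit 1, nat_lit 1]),
    (nat_lit 1381, [nat_lit 1, nat_lit 2, nat_lit 2, nat_lit 3, nat_lit 2, nat_lit 2, nat_lit 1, nat_lit 1]),
    (nat_lit 1350, [nat_lit 1, nat_lit 2, nat_lit 2, nat_lit 3, nat_lit 3, nat_lit 2, nat_lit 1, nat_lit 0]),
    (nat_lit 1419, [nat_lit 1, nat_lit 1, nat_lit 2, nat_lit 2, nat_lit 2, nat_lit 2, nat_lit 2, nat_lit 1]),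
    (nat_lit 1372, [nat_lit 1, nat_lit 1, nat_lit 2, nat_lit 3, nat_lit 2, nat_lit 2, nat_lit 1, nat_lit 1]),
    (nat_lit 1341, [nat_lit 1, nat_lit 1, nat_lit 2, nat_lit 3, nat_lit 3, nat_lit 2, nat_lit 1, nat_lit 0]),
    (nat_lit 1273, [nat_lit 1, nat_lit 2, nat_lit 2, nat_lit 3, nat_lit 2, nat_lit 1, nat_lit 1, nat_lit 1]),
    (nat_lit 1306, [nat_lit 1, nat_lit 2, nat_lit 2, nat_lit 3, nat_lit 2, nat_lit 2, nat_lit 1, nat_lit 0]),
    (nat_lit 1216, [nat_lit 1, nat_lit 1, nat_lit 1, nat_lit 2, nat_lit 2, nat_lit 2, nat_lit 2, nat_lit 1]),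
    (nat_lit 1281, [nat_lit 1, nat_lit 1, nat_lit 2, nat_lit 2, nat_lit 2, nat_lit 2, nat_lit 1, nat_lit 1]),
    (nat_lit 1264, [nat_lit 1, nat_lit 1, nat_lit 2, nat_lit 3, nat_lit 2, nat_lit 1, nat_lit 1, nat_lit 1]),
    (nat_lit 1297, [nat_lit 1, nat_lit 1, nat_lit 2, nat_lit 3, nat_lit 2, nat_lit 2, nat_lit 1, nat_lit 0]),
    (nat_lit 1198, [nat_lit 1, nat_lit 2, nat_lit 2, nat_lit 3, nat_lit 2, nat_lit 1, nat_lit 1, nat_lit 0]),
    (nat_lit 1049, [nat_lit 0, nat_lit 1, nat_lit 1, nat_lit 2, nat_lit 2, nat_lit 2, nat_lit 2, nat_lit 1]),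
    (nat_lit 1078, [nat_lit 1, nat_lit 1, nat_lit 1, nat_lit 2, nat_lit 2, nat_lit 2, nat_lit 1, nat_lit 1]),
    (nat_lit 1173, [nat_lit 1, nat_lit 1, nat_lit 2, nat_lit 2, nat_lit 2, nat_lit 1, nat_lit 1, nat_lit 1]),
    (nat_lit 1206, [nat_lit 1, nat_lit 1, nat_lit 2, nat_lit 2, nat_lit 2, nat_lit 2, nat_lit 1, nat_lit 0]),
    (nat_lit 1189, [nat_lit 1, nat_lit 1, nat_lit 2, nat_lit 3, nat_lit 2, nat_lit 1, nat_lit 1, nat_lit 0]),
    (nat_lit 1060, [nat_lit 1, nat_lit 2, nat_lit 2, nat_lit 3, nat_lit 2, nat_lit 1, nat_lit 0, nat_lit 0]),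
    (nat_lit 911, [nat_lit 0, nat_lit 1, nat_lit 1, nat_lit 2, nat_lit 2, nat_lit 2, nat_lit 1, nat_lit 1]),
    (nat_lit 970, [nat_lit 1, nat_lit 1, nat_lit 1, nat_lit 2, nat_lit 2, nat_lit 1, nat_lit 1, nat_lit 1]),
    (nat_lit 1003, [nat_lit 1, nat_lit 1, nat_lit 1, nat_lit 2, nat_lit 2, nat_lit 2, nat_lit 1, nat_lit 0]),
    (nat_lit 1129, [nat_lit 1, nat_lit 1, nat_lit 2, nat_lit 2, nat_lit 1, nat_lit 1, nat_lit 1, nat_lit 1]),
    (nat_lit 1098, [nat_lit 1, nat_lit 1, nat_lit 2, nat_lit 2, nat_lit 2, nat_lit 1, nat_lit 1, nat_lit 0]),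
    (nat_lit 1051, [nat_lit 1, nat_lit 1, nat_lit 2, nat_lit 3, nat_lit 2, nat_lit 1, nat_lit 0, nat_lit 0]),
    (nat_lit 803, [nat_lit 0, nat_lit 1, nat_lit 1, nat_lit 2, nat_lit 2, nat_lit 1, nat_lit 1, nat_lit 1]),
    (nat_lit 836, [nat_lit 0, nat_lit 1, nat_lit 1, nat_lit 2, nat_lit 2, nat_lit 2, nat_lit 1, nat_lit 0]),
    (nat_lit 926, [nat_lit 1, nat_lit 1, nat_lit 1, nat_lit 2, nat_lit 1, nat_lit 1, nat_lit 1, nat_lit 1]),
    (nat_lit 895, [nat_lit 1, nat_lit 1, nat_lit 1, nat_lit 2, nat_lit 2, nat_lit 1, nat_lit 1, nat_lit 0]),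
    (nat_lit 1054, [nat_lit 1, nat_lit 1, nat_lit 2, nat_lit 2, nat_lit 1, nat_lit 1, nat_lit 1, nat_lit 0]),
    (nat_lit 960, [nat_lit 1, nat_lit 1, nat_lit 2, nat_lit 2, nat_lit 2, nat_lit 1, nat_lit 0, nat_lit 0]),
    (nat_lit 759, [nat_lit 0, nat_lit 1, nat_lit 1, nat_lit 2, nat_lit 1, nat_lit 1, nat_lit 1, nat_lit 1]),
    (nat_lit 728, [nat_lit 0, nat_lit 1, nat_lit 1, nat_lit 2, nat_lit 2, nat_lit 1, nat_lit 1, nat_lit 0]),
    (nat_lit 835, [nat_lit 1, nat_lit 1, nat_lit 1, nat_lit 1, nat_lit 1, nat_lit 1, nat_lit 1, nat_lit 1]),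
    (nat_lit 851, [nat_lit 1, nat_lit 1, nat_lit 1, nat_lit 2, nat_lit 1, nat_lit 1, nat_lit 1, nat_lit 0]),
    (nat_lit 757, [nat_lit 1, nat_lit 1, nat_lit 1, nat_lit 2, nat_lit 2, nat_lit 1, nat_lit 0, nat_lit 0]),
    (nat_lit 916, [nat_lit 1, nat_lit 1, nat_lit 2, nat_lit 2, nat_lit 1, nat_lit 1, nat_lit 0, nat_lit 0]),
    (nat_lit 668, [nat_lit 0, nat_lit 1, nat_lit 1, nat_lit 1, nat_lit 1, nat_lit 1, nat_lit 1, nat_lit 1]),
    (nat_lit 684, [nat_lit 0, nat_lit 1, nat_lit 1, nat_lit 2, nat_lit 1, nat_lit 1, nat_lit 1, nat_lit 0]),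
    (nat_lit 590, [nat_lit 0, nat_lit 1, nat_lit 1, nat_lit 2, nat_lit 2, nat_lit 1, nat_lit 0, nat_lit 0]),
    (nat_lit 826, [nat_lit 1, nat_lit 0, nat_lit 1, nat_lit 1, nat_lit 1, nat_lit 1, nat_lit 1, nat_lit 1]),
    (nat_lit 760, [nat_lit 1, nat_lit 1, nat_lit 1, nat_lit 1, nat_lit 1, nat_lit 1, nat_lit 1, nat_lit 0]),
    (nat_lit 713, [nat_lit 1, nat_lit 1, nat_lit 1, nat_lit 2, nat_lit 1, nat_lit 1, nat_lit 0, nat_lit 0]),
    (nat_lit 808, [nat_lit 1, nat_lit 1, nat_lit 2, nat_lit 2, nat_lit 1, nat_lit 0, nat_lit 0, nat_lit 0]),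
    (nat_lit 659, [nat_lit 0, nat_lit 0, nat_lit 1, nat_lit 1, nat_lit 1, nat_lit 1, nat_lit 1, nat_lit 1]),
    (nat_lit 465, [nat_lit 0, nat_lit 1, nat_lit 0, nat_lit 1, nat_lit 1, nat_lit 1, nat_lit 1, nat_lit 1]),
    (nat_lit 593, [nat_lit 0, nat_lit 1, nat_lit 1, nat_lit 1, nat_lit 1, nat_lit 1, nat_lit 1, nat_lit 0]),
    (nat_lit 546, [nat_lit 0, nat_lit 1, nat_lit 1, nat_lit 2, nat_lit 1, nat_lit 1, nat_lit 0, nat_lit 0]),
    (nat_lit 751, [nat_lit 1, nat_lit 0, nat_lit 1, nat_lit 1, nat_lit 1, nat_lit 1, nat_lit 1, nat_lit 0]),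
    (nat_lit 622, [nat_lit 1, nat_lit 1, nat_lit 1, nat_lit 1, nat_lit 1, nat_lit 1, nat_lit 0, nat_lit 0]),
    (nat_lit 605, [nat_lit 1, nat_lit 1, nat_lit 1, nat_lit 2, nat_lit 1, nat_lit 0, nat_lit 0, nat_lit 0]),
    (nat_lit 456, [nat_lit 0, nat_lit 0, nat_lit 0, nat_lit 1, nat_lit 1, nat_lit 1, nat_lit 1, nat_lit 1]),
    (nat_lit 584, [nat_lit 0, nat_lit 0, nat_lit 1, nat_lit 1, nat_lit 1, nat_lit 1, nat_lit 1, nat_lit 0]),
    (nat_lit 390, [nat_lit 0, nat_lit 1, nat_lit 0, nat_lit 1, nat_lit 1, nat_lit 1, nat_lit 1, nat_lit 0]),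
    (nat_lit 455, [nat_lit 0, nat_lit 1, nat_lit 1, nat_lit 1, nat_lit 1, nat_lit 1, nat_lit 0, nat_lit 0]),
    (nat_lit 438, [nat_lit 0, nat_lit 1, nat_lit 1, nat_lit 2, nat_lit 1, nat_lit 0, nat_lit 0, nat_lit 0]),
    (nat_lit 613, [nat_lit 1, nat_lit 0, nat_lit 1, nat_lit 1, nat_lit 1, nat_lit 1, nat_lit 0, nat_lit 0]),
    (nat_lit 514, [nat_lit 1, nat_lit 1, nat_lit 1, nat_lit 1, nat_lit 1, nat_lit 0, nat_lit 0, nat_lit 0]),
    (nat_lit 365, [nat_lit 0, nat_lit 0, nat_lit 0, nat_lit 0, nat_lit 1, nat_lit 1, nat_lit 1, nat_lit 1]),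
    (nat_lit 381, [nat_lit 0, nat_lit 0, nat_lit 0, nat_lit 1, nat_lit 1, nat_lit 1, nat_lit 1, nat_lit 0]),
    (nat_lit 446, [nat_lit 0, nat_lit 0, nat_lit 1, nat_lit 1, nat_lit 1, nat_lit 1, nat_lit 0, nat_lit 0]),
    (nat_lit 252, [nat_lit 0, nat_lit 1, nat_lit 0, nat_lit 1, nat_lit 1, nat_lit 1, nat_lit 0, nat_lit 0]),
    (nat_lit 347, [nat_lit 0, nat_lit 1, nat_lit 1, nat_lit 1, nat_lit 1, nat_lit 0, nat_lit 0, nat_lit 0]),
    (nat_lit 505, [nat_lit 1, nat_lit 0, nat_lit 1, nat_lit 1, nat_lit 1, nat_lit 0, nat_lit 0, nat_lit 0]),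
    (nat_lit 470, [nat_lit 1, nat_lit 1, nat_lit 1, nat_lit 1, nat_lit 0, nat_lit 0, nat_lit 0, nat_lit 0]),
    (nat_lit 321, [nat_lit 0, nat_lit 0, nat_lit 0, nat_lit 0, nat_lit 0, nat_lit 1, nat_lit 1, nat_lit 1]),
    (nat_lit 290, [nat_lit 0, nat_lit 0, nat_lit 0, nat_lit 0, nat_lit 1, nat_lit 1, nat_lit 1, nat_lit 0]),
    (nat_lit 243, [nat_lit 0, nat_lit 0, nat_lit 0, nat_lit 1, nat_lit 1, nat_lit 1, nat_lit 0, nat_lit 0]),
    (nat_lit 338, [nat_lit 0, nat_lit 0, nat_lit 1, nat_lit 1, nat_lit 1, nat_lit 0, nat_lit 0, nat_lit 0]),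
    (nat_lit 144, [nat_lit 0, nat_lit 1, nat_lit 0, nat_lit 1, nat_lit 1, nat_lit 0, nat_lit 0, nat_lit 0]),
    (nat_lit 303, [nat_lit 0, nat_lit 1, nat_lit 1, nat_lit 1, nat_lit 0, nat_lit 0, nat_lit 0, nat_lit 0]),
    (nat_lit 461, [nat_lit 1, nat_lit 0, nat_lit 1, nat_lit 1, nat_lit 0, nat_lit 0, nat_lit 0, nat_lit 0]),
    (nat_lit 213, [nat_lit 0, nat_lit 0, nat_lit 0, nat_lit 0, nat_lit 0, nat_lit 0, nat_lit 1, nat_lit 1]),
    (nat_lit 246, [nat_lit 0, nat_lit 0, nat_lit 0, nat_lit 0, nat_lit 0, nat_lit 1, nat_lit 1, nat_lit 0]),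
    (nat_lit 152, [nat_lit 0, nat_lit 0, nat_lit 0, nat_lit 0, nat_lit 1, nat_lit 1, nat_lit 0, nat_lit 0]),
    (nat_lit 135, [nat_lit 0, nat_lit 0, nat_lit 0, nat_lit 1, nat_lit 1, nat_lit 0, nat_lit 0, nat_lit 0]),
    (nat_lit 294, [nat_lit 0, nat_lit 0, nat_lit 1, nat_lit 1, nat_lit 0, nat_lit 0, nat_lit 0, nat_lit 0]),
    (nat_lit 100, [nat_lit 0, nat_lit 1, nat_lit 0, nat_lit 1, nat_lit 0, nat_lit 0, nat_lit 0, nat_lit 0]),
    (nat_lit 370, [nat_lit 1, nat_lit 0, nat_lit 1, nat_lit 0, nat_lit 0, nat_lit 0, nat_lit 0, nat_lit 0]),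
    (nat_lit 75, [nat_lit 0, nat_lit 0, nat_lit 0, nat_lit 0, nat_lit 0, nat_lit 0, nat_lit 0, nat_lit 1]),
    (nat_lit 138, [nat_lit 0, nat_lit 0, nat_lit 0, nat_lit 0, nat_lit 0, nat_lit 0, nat_lit 1, nat_lit 0]),
    (nat_lit 108, [nat_lit 0, nat_lit 0, nat_lit 0, nat_lit 0, nat_lit 0, nat_lit 1, nat_lit 0, nat_lit 0]),
    (nat_lit 44, [nat_lit 0, nat_lit 0, nat_lit 0, nat_lit 0, nat_lit 1, nat_lit 0, nat_lit 0, nat_lit 0]),
    (nat_lit 91, [nat_lit 0, nat_lit 0, nat_lit 0, nat_lit 1, nat_lit 0, nat_lit 0, nat_lit 0, nat_lit 0]),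
    (nat_lit 203, [nat_lit 0, nat_lit 0, nat_lit 1, nat_lit 0, nat_lit 0, nat_lit 0, nat_lit 0, nat_lit 0]),
    (nat_lit 9, [nat_lit 0, nat_lit 1, nat_lit 0, nat_lit 0, nat_lit 0, nat_lit 0, nat_lit 0, nat_lit 0]),
    (nat_lit 167, [nat_lit 1, nat_lit 0, nat_lit 0, nat_lit 0, nat_lit 0, nat_lit 0, nat_lit 0, nat_lit 0])]

end

end Pool.Agent.P.Bf04.X
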